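import Pool.Agent.P.MP_ac4909_gt.B.GB_Col0

/-! Layer G, blocks: collars and contents. -/

namespace Pool.Agent.P.MP_ac4909_gt.B

open scoped ContDiff
open Set Filter Topology

variable {ι I : Type} {n : ℕ} {Co : Collar n ι} {b b' : Fin n × Bool} {t t' : ℝ}

namespace Content
variable (Ct : Content Co I)

theorem gcol_nb_bc (b : Fin n × Bool) : Ct.C.nb (.inl (Ct.bc b)) false = .inr b :=
  (Ct.nb_eq_inr _ _ _).2 ⟨rfl, rfl⟩

theorem bc_inj : Function.Injective Ct.bc := by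
  intro b b' e
  have h := Ct.gcol_nb_bc b
  rw [e, Ct.gcol_nb_bc b'] at h
  exact (Sum.inr.inj h).symm

theorem nb_bc (b : Fin n × Bool) : Ct.C.nb (.inl (Ct.bc b)) false = .inr b := Ct.gcol_nb_bc b

theorem col_bc (b : Fin n × Bool) : Ct.C.col (.inl (Ct.bc b)) = true := by
  have h := Ct.col_nb (Ct.bc b) false
  rw [Ct.nb_bc, Ct.col_inr] at h
  simpa using h

theorem gcol_in (a : I) : ∃ r, Ct.C.nb (.inl a) true = .inl r := by
  rcases e : Ct.C.nb (.inl a) true with r | c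
  · exact ⟨r, rfl⟩
  · exact absurd ((Ct.nb_eq_inr _ _ _).1 e).2 (by simp)

theorem exists_in (b : Fin n × Bool) : ∃ r, Ct.C.nb (.inl (Ct.bc b)) true = .inl r :=
  Ct.gcol_in _

theorem star_inr (b : Fin n × Bool) : Ct.C.star (.inr b) = Co.cl b '' Ici (Ct.lv b) := by
  have h := Ct.arc_symm (Ct.bc b) false
  rw [Ct.nb_bc, Ct.arc_bc] at h
  rw [Conf.star, Ct.nb_inr, Ct.nb_inr, h, union_self]

theorem ray_subset (b : Fin n × Bool) :
    Co.cl b '' Ici (Ct.lv b) ⊆ Ct.C.star (.inl (Ct.bc b)) := by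
  have h := Ct.C.arc_subset_star (.inl (Ct.bc b)) false
  rwa [Ct.nb_bc, Ct.arc_bc] at h

theorem pt_mem_star (a : I) : Ct.C.pt (.inl a) ∈ Ct.C.star (.inl a) := by
  obtain ⟨r, e⟩ := Ct.gcol_in a
  refine Ct.C.arc_subset_star (.inl a) true ?_
  rw [e]
  exact (Ct.isArc a true r e).left_mem

theorem gcol_lv_lt (b : Fin n × Bool) : Ct.lv b < 1 := (Ct.lv_le b).trans_lt (by norm_num)

theorem nb_mem_star (a : I) (s : Bool) :
    Ct.C.pt (Ct.C.nb (.inl a) s) ∈ Ct.C.star (.inl a) := by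
  rcases e : Ct.C.nb (.inl a) s with r | c
  · refine Ct.C.arc_subset_star (.inl a) s ?_
    rw [e]
    exact (Ct.isArc a s r e).right_mem
  · obtain ⟨rfl, -⟩ := (Ct.nb_eq_inr _ _ _).1 e
    rw [Ct.pt_inr]
    exact Ct.ray_subset c ⟨1, (Ct.gcol_lv_lt c).le, rfl⟩

theorem star_subset_win (a : I) : Ct.C.star (.inl a) ⊆ Ct.C.win (.inl a) := by
  intro p hp
  obtain ⟨s, hs⟩ := Conf.GCArc_star hp
  obtain ⟨s', e⟩ := Ct.adj_symm a s
  refine Ct.C.star_nb_subset_win _ s (Ct.C.arc_subset_star _ s' ?_)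
  rw [e, Ct.arc_symm]
  exact hs

theorem pt_box (a : I) (i : Fin 3) : |Ct.C.pt (.inl a) i| ≤ 3 / 4 := by
  obtain ⟨r, e⟩ := Ct.gcol_in a
  exact Ct.box a true r e _ (Ct.isArc a true r e).left_mem i

theorem mem_star {a : I} {p : E3} (hp : p ∈ Ct.C.star (.inl a)) :
    (∀ i, |p i| ≤ 3 / 4) ∨ ∃ b t, a = Ct.bc b ∧ 3 / 4 < t ∧ p = Co.cl b t := by
  obtain ⟨s, hs⟩ := Conf.GCArc_star hp
  rcases e : Ct.C.nb (.inl a) s with r | c
  · rw [e] at hs
    exact Or.inl (Ct.box a s r e p hs)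
  · rw [e] at hs
    obtain ⟨rfl, -⟩ := (Ct.nb_eq_inr _ _ _).1 e
    rw [Ct.arc_bc] at hs
    obtain ⟨u, hu, rfl⟩ := hs
    rcases le_or_gt u (3 / 4) with h | h
    · exact Or.inl (Collar.cl_box ((Ct.lv_pos c).trans_le hu) h le_rfl (h.trans (by norm_num)))
    · exact Or.inr ⟨c, u, rfl, h, rfl⟩

/-- outside the box the picture consists of the collars -/
theorem pic_out {y : Option ι × E3} (hy : ∃ i, 3 / 4 < |y.2 i|) :
    y ∈ Ct.pic ↔ ∃ b t, 3 / 4 < t ∧ y.2 = Co.cl b t ∧ y.1 = Co.lab b := by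
  constructor
  · rintro ⟨a, h1, h2⟩
    rcases Ct.mem_star h1 with h | ⟨c, u, rfl, hu, e⟩
    · obtain ⟨i, hi⟩ := hy
      exact absurd (h i) (not_le.2 hi)
    · exact ⟨c, u, hu, e, h2.trans (Ct.lb_bc c)⟩
  · rintro ⟨c, u, hu, e, h2⟩
    refine ⟨Ct.bc c, ?_, h2.trans (Ct.lb_bc c).symm⟩
    rw [e]
    exact Ct.ray_subset c ⟨u, (Ct.lv_le c).trans hu.le, rfl⟩

theorem far_symm {a a' : I} (h : Ct.C.Far (.inl a) (.inl a')) : Ct.C.Far (.inl a') (.inl a) := by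
  refine ⟨h.1.symm, fun s e => ?_, fun s s' e => h.2.2 s' s e.symm⟩
  obtain ⟨s', e'⟩ := Ct.adj_symm a' s
  rw [e] at e'
  exact h.2.1 s' e'

theorem gcol_anti (c : Fin n × Bool) {i : Fin 3}
    (h : InjOn (fun p : E3 => p i) (Co.cl c '' Ici (Ct.lv c)))
    (hl : Ct.C.pt (.inr c) i < Ct.C.pt (.inl (Ct.bc c)) i) :
    StrictAntiOn (fun t => Co.cl c t i) (Ici (Ct.lv c)) := by
  rw [Ct.pt_inr, Ct.pt_bc] at hl
  rcases Collar.cl_mono ordConnected_Ici (fun u hu => (Ct.lv_pos c).trans_le hu) h with h1 | h1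
  · exact absurd (h1 self_mem_Ici (Ct.gcol_lv_lt c).le (Ct.gcol_lv_lt c)) (not_lt.2 hl.le)
  · exact h1

theorem gcol_mono (c : Fin n × Bool) {i : Fin 3}
    (h : InjOn (fun p : E3 => p i) (Co.cl c '' Ici (Ct.lv c)))
    (hl : Ct.C.pt (.inl (Ct.bc c)) i < Ct.C.pt (.inr c) i) :
    StrictMonoOn (fun t => Co.cl c t i) (Ici (Ct.lv c)) := by
  rw [Ct.pt_inr, Ct.pt_bc] at hl
  rcases Collar.cl_mono ordConnected_Ici (fun u hu => (Ct.lv_pos c).trans_le hu) h with h1 | h1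
  · exact h1
  · exact absurd (h1 self_mem_Ici (Ct.gcol_lv_lt c).le (Ct.gcol_lv_lt c)) (not_lt.2 hl.le)

variable {Ct} {a : I} {i : Fin 3} {s : Bool}

theorem gcol_ray_lo (h : Ct.C.Mono i (.inl a) s) (hb : Ct.C.nb (.inl a) s = .inl (Ct.bc b)) :
    StrictAntiOn (fun t => Co.cl b t i) (Ici (Ct.lv b)) := by
  have h1 := h.lo₂ false
  have h2 := Ct.C.star_nb_subset_win (.inl a) s
  rw [hb, Ct.nb_bc] at h1
  rw [hb] at h2
  exact Ct.gcol_anti b (h.inj.mono ((Ct.ray_subset b).trans h2)) (h1 (by simp))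

theorem gcol_ray_hi (h : Ct.C.Mono i (.inl a) s) (hb : Ct.C.nb (.inl a) (!s) = .inl (Ct.bc b)) :
    StrictMonoOn (fun t => Co.cl b t i) (Ici (Ct.lv b)) := by
  have h1 := h.hi₂ false
  have h2 := Ct.C.star_nb_subset_win (.inl a) (!s)
  rw [hb, Ct.nb_bc] at h1
  rw [hb] at h2
  exact Ct.gcol_mono b (h.inj.mono ((Ct.ray_subset b).trans h2)) (h1 (by simp))

theorem star_lo (h : Ct.C.Mono i (.inl a) s) : ∀ p ∈ Ct.C.star (Ct.C.nb (.inl a) s),
    p i ≤ Ct.C.pt (.inl a) i ∧ (p i = Ct.C.pt (.inl a) i → p = Ct.C.pt (.inl a)) := by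
  intro p hp
  refine ⟨?_, h.inj (Ct.C.star_nb_subset_win _ s hp) (Ct.star_subset_win a (Ct.pt_mem_star a))⟩
  have hw := Ct.C.star_nb_subset_win (.inl a) s
  have h1 := h.lo₁
  have h2 := h.lo₂
  rcases e : Ct.C.nb (.inl a) s with r | c
  · rw [e] at hp hw h1 h2
    obtain ⟨u, hu⟩ := Conf.GCArc_star hp
    have ha := Ct.C.arc_subset_star (.inl r) u
    have h3 := h2 u
    rcases e' : Ct.C.nb (.inl r) u with r' | c
    · rw [e'] at hu ha h3
      have h4 := ((Ct.isArc r u r' e').coord_mem (h.inj.mono (ha.trans hw)) p hu).2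
      refine h4.trans (max_le h1.le ?_)
      by_cases e₂ : (Sum.inl r' : I ⊕ Fin n × Bool) = .inl a
      · rw [e₂]
      · exact ((h3 e₂).trans h1).le
    · rw [e'] at hu
      obtain ⟨rfl, -⟩ := (Ct.nb_eq_inr _ _ _).1 e'
      rw [Ct.arc_bc] at hu
      obtain ⟨v, hv, rfl⟩ := hu
      have h5 := (gcol_ray_lo h e).antitoneOn self_mem_Ici hv hv
      rw [Ct.pt_bc] at h1
      exact h5.trans h1.le
  · rw [e] at hp hw h1
    obtain ⟨rfl, -⟩ := (Ct.nb_eq_inr _ _ _).1 e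
    rw [Ct.star_inr] at hp hw
    obtain ⟨v, hv, rfl⟩ := hp
    rw [Ct.pt_bc]
    exact (Ct.gcol_anti c (h.inj.mono hw) h1).antitoneOn self_mem_Ici hv hv

theorem star_hi (h : Ct.C.Mono i (.inl a) s) : ∀ p ∈ Ct.C.star (Ct.C.nb (.inl a) (!s)),
    Ct.C.pt (.inl a) i ≤ p i ∧ (p i = Ct.C.pt (.inl a) i → p = Ct.C.pt (.inl a)) := by
  intro p hp
  refine ⟨?_, h.inj (Ct.C.star_nb_subset_win _ _ hp) (Ct.star_subset_win a (Ct.pt_mem_star a))⟩
  have hw := Ct.C.star_nb_subset_win (.inl a) (!s)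
  have h1 := h.hi₁
  have h2 := h.hi₂
  rcases e : Ct.C.nb (.inl a) (!s) with r | c
  · rw [e] at hp hw h1 h2
    obtain ⟨u, hu⟩ := Conf.GCArc_star hp
    have ha := Ct.C.arc_subset_star (.inl r) u
    have h3 := h2 u
    rcases e' : Ct.C.nb (.inl r) u with r' | c
    · rw [e'] at hu ha h3
      have h4 := ((Ct.isArc r u r' e').coord_mem (h.inj.mono (ha.trans hw)) p hu).1
      refine (le_min h1.le ?_).trans h4
      by_cases e₂ : (Sum.inl r' : I ⊕ Fin n × Bool) = .inl a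
      · rw [e₂]
      · exact (h1.trans (h3 e₂)).le
    · rw [e'] at hu
      obtain ⟨rfl, -⟩ := (Ct.nb_eq_inr _ _ _).1 e'
      rw [Ct.arc_bc] at hu
      obtain ⟨v, hv, rfl⟩ := hu
      have h5 := (gcol_ray_hi h e).monotoneOn self_mem_Ici hv hv
      rw [Ct.pt_bc] at h1
      exact h1.le.trans h5
  · rw [e] at hp hw h1
    obtain ⟨rfl, -⟩ := (Ct.nb_eq_inr _ _ _).1 e
    rw [Ct.star_inr] at hp hw
    obtain ⟨v, hv, rfl⟩ := hp
    rw [Ct.pt_bc]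
    exact (Ct.gcol_mono c (h.inj.mono hw) h1).monotoneOn self_mem_Ici hv hv

/-- direction of the ray in the window of its boundary column -/
theorem ray_self (h : Ct.C.Mono i (.inl (Ct.bc b)) s) :
    (s = true ∧ StrictMonoOn (fun t => Co.cl b t i) (Ici (Ct.lv b))) ∨
      (s = false ∧ StrictAntiOn (fun t => Co.cl b t i) (Ici (Ct.lv b))) := by
  have hi := h.inj.mono ((Ct.ray_subset b).trans (Ct.star_subset_win _))
  cases s
  · have h1 := h.lo₁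
    rw [Ct.nb_bc] at h1
    exact Or.inr ⟨rfl, Ct.gcol_anti b hi h1⟩
  · have h1 := h.hi₁
    rw [Bool.not_true, Ct.nb_bc] at h1
    exact Or.inl ⟨rfl, Ct.gcol_mono b hi h1⟩

theorem ray_lo (h : Ct.C.Mono i (.inl a) s) (hb : Ct.C.nb (.inl a) s = .inl (Ct.bc b)) :
    StrictAntiOn (fun t => Co.cl b t i) (Ici (Ct.lv b)) := gcol_ray_lo h hb

theorem ray_hi (h : Ct.C.Mono i (.inl a) s) (hb : Ct.C.nb (.inl a) (!s) = .inl (Ct.bc b)) :
    StrictMonoOn (fun t => Co.cl b t i) (Ici (Ct.lv b)) := gcol_ray_hi h hb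

end Content

theorem HasPic.hasContent {A : Pic ι} {w : List (Sl (Nm ι))} (h : HasPic Co A w) :
    HasContent Co A w := by
  obtain ⟨I, h1, h2, Ct, -, rfl, h3⟩ := h
  exact ⟨I, h1, h2, Ct, fun _ _ => Iff.rfl, h3⟩

theorem HasContent.congr {A A' : Pic ι} {w : List (Sl (Nm ι))} (h : HasContent Co A w)
    (hA : ∀ y : Option ι × E3, y.2 ∈ Qb (9 / 8) → (y ∈ A ↔ y ∈ A')) : HasContent Co A' w := by
  obtain ⟨I, h1, h2, Ct, h3, h4⟩ := h
  exact ⟨I, h1, h2, Ct, fun y hy => (h3 y hy).trans (hA y hy), h4⟩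

/-- two pictures on the same collars agree outside the box -/
theorem HasContent.agree {A A' : Pic ι} {w w' : List (Sl (Nm ι))} (h : HasContent Co A w)
    (h' : HasContent Co A' w') {y : Option ι × E3} (hy : y.2 ∈ Qb (9 / 8))
    (hy' : ∃ i, 3 / 4 < |y.2 i|) : y ∈ A' ↔ y ∈ A := by
  obtain ⟨I, -, -, Ct, h3, -⟩ := h
  obtain ⟨I', -, -, Ct', h3', -⟩ := h'
  rw [← h3 y hy, ← h3' y hy, Ct.pic_out hy', Ct'.pic_out hy']

end Pool.Agent.P.MP_ac4909_gt.B
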