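import Pool.Agent.P.MP_ac4909_gt.B.GB_Str

/-! Layer G, blocks: vertical tangents can be removed. -/

namespace Pool.Agent.P.MP_ac4909_gt.B

open scoped ContDiff
open Set Filter Topology

variable {ι κ : Type} [Fintype κ]

/-- a height function that vanishes on the inner cube and is the height outside the unit cube -/
theorem gtilt_height : ∃ (φ : E3 → ℝ) (C : ℝ), ContDiff ℝ ∞ φ ∧ 0 < C ∧
    (∀ p, ‖fderiv ℝ φ p‖ ≤ C) ∧ (∀ p ∈ Qb (15 / 16), φ p = 0) ∧
      ∀ p ∉ Qb 1, ∀ v, fderiv ℝ φ p v = v 2 := by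
  let b : ContDiffBump (0 : ℝ) := ⟨15 / 16, 31 / 32, by norm_num, by norm_num⟩
  let z : E3 →L[ℝ] ℝ := EuclideanSpace.proj 2
  let χ : E3 → ℝ := fun p => (∏ i, b (p i)) * p 2
  have hc : ∀ i, ContDiff ℝ ∞ fun p : E3 => p i := fun i =>
    (EuclideanSpace.proj i : E3 →L[ℝ] ℝ).contDiff
  have hχ : ContDiff ℝ ∞ χ :=
    (contDiff_prod fun i _ => b.contDiff.comp (hc i)).mul (hc 2)
  have h0 : ∀ p : E3, ∀ i, 31 / 32 ≤ |p i| → χ p = 0 := by
    intro p i hi
    have : b (p i) = 0 := b.zero_of_le_dist (by simpa [b, Real.dist_eq] using hi)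
    simp only [χ]
    rw [Finset.prod_eq_zero (Finset.mem_univ i) this, zero_mul]
  have hs : HasCompactSupport χ := by
    refine HasCompactSupport.intro (isCompact_closedBall (0 : E3) 2) fun p hp => ?_
    by_contra hne
    refine hp ?_
    have hlt : ∀ i, |p i| ≤ 1 := fun i => by
      by_contra h
      exact hne (h0 p i (by linarith [not_le.1 h]))
    rw [mem_closedBall_zero_iff, EuclideanSpace.norm_eq, Real.sqrt_le_iff, Fin.sum_univ_three]
    refine ⟨by norm_num, ?_⟩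
    have a0 := hlt 0
    have a1 := hlt 1
    have a2 := hlt 2
    simp only [Real.norm_eq_abs]
    nlinarith [abs_nonneg (p 0), abs_nonneg (p 1), abs_nonneg (p 2)]
  obtain ⟨C, hC⟩ := (hs.fderiv ℝ).exists_bound_of_continuous (hχ.continuous_fderiv (by simp))
  have hd : ∀ p, fderiv ℝ (fun p : E3 => p 2 - χ p) p = z - fderiv ℝ χ p := fun p =>
    (z.hasFDerivAt.sub (hχ.differentiable (by simp) p).hasFDerivAt).fderiv
  refine ⟨fun p => p 2 - χ p, ‖z‖ + |C| + 1, (hc 2).sub hχ, by positivity, fun p => ?_,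
    fun p hp => ?_, fun p hp v => ?_⟩
  · rw [hd]
    linarith [norm_sub_le z (fderiv ℝ χ p), hC p, le_abs_self C]
  · have : ∀ i, b (p i) = 1 := fun i =>
      b.one_of_mem_closedBall (by simpa [b, Real.dist_eq] using (hp i).le)
    simp only [χ, this, Finset.prod_const_one, one_mul, sub_self]
  · obtain ⟨i, hi⟩ := not_forall.1 hp
    have hev : χ =ᶠ[𝓝 p] fun _ => 0 := by
      have : ∀ᶠ q : E3 in 𝓝 p, 31 / 32 < |q i| :=
        (hc i).continuous.abs.continuousAt.eventually_const_lt (by linarith [not_lt.1 hi])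
      exact this.mono fun q hq => h0 q i hq.le
    rw [hd, hev.fderiv_eq]
    simp [z]

/-- finitely many smooth curves in the plane miss a small vector -/
theorem gtilt_avoid {x y l : κ → ℝ → ℝ} (hx : ∀ c, ContDiff ℝ 1 (x c))
    (hy : ∀ c, ContDiff ℝ 1 (y c)) (hl : ∀ c, ContDiff ℝ 1 (l c)) {δ : ℝ} (hδ : 0 < δ) :
    ∃ a b : ℝ, |a| < δ ∧ |b| < δ ∧ ∀ c t, l c t ≠ 0 →
      x c t + l c t * a ≠ 0 ∨ y c t + l c t * b ≠ 0 := by
  let F : κ → ℝ → ℝ × ℝ := fun c t => (-x c t / l c t, -y c t / l c t)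
  have h1 : dimH (⋃ c, F c '' {t | l c t ≠ 0}) < Module.finrank ℝ (ℝ × ℝ) := by
    have : dimH (⋃ c, F c '' {t | l c t ≠ 0}) ≤ 1 := by
      rw [dimH_iUnion]
      refine iSup_le fun c => (dimH_image_le_of_locally_lipschitzOn fun t ht => ?_).trans
        ((dimH_mono (subset_univ _)).trans Real.dimH_univ.le)
      have : ContDiffAt ℝ 1 (F c) t :=
        ((hx c).contDiffAt.neg.div (hl c).contDiffAt ht).prodMk
          ((hy c).contDiffAt.neg.div (hl c).contDiffAt ht)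
      obtain ⟨K, s, hs, hK⟩ := this.exists_lipschitzOnWith
      exact ⟨K, s, mem_nhdsWithin_of_mem_nhds hs, hK⟩
    refine this.trans_lt ?_
    simp
  obtain ⟨w, hw1, hw2⟩ := (dense_compl_of_dimH_lt_finrank h1).exists_mem_open
    Metric.isOpen_ball (Metric.nonempty_ball.2 hδ : (Metric.ball (0 : ℝ × ℝ) δ).Nonempty)
  rw [mem_ball_zero_iff, Prod.norm_def, max_lt_iff] at hw2
  refine ⟨w.1, w.2, hw2.1, hw2.2, fun c t ht => ?_⟩
  by_contra h
  rw [not_or, not_not, not_not] at h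
  refine hw1 (mem_iUnion.2 ⟨c, t, ht, Prod.ext ?_ ?_⟩)
  · simp only [F]
    rw [div_eq_iff ht]
    linarith [h.1]
  · simp only [F]
    rw [div_eq_iff ht]
    linarith [h.2]

theorem exists_tilt {γ : κ → ℝ → E3} (hγ : IsU γ)
    (hv : ∀ c t, γ c t ∈ Qb 1 → deriv (γ c) t 0 ≠ 0 ∨ deriv (γ c) t 1 ≠ 0) :
    ∃ k, GAmb k ∧ (∀ p ∈ Qb (15 / 16), k p = p) ∧ NonVert fun c t => k (γ c t) := by
  obtain ⟨φ, C, hφ, hC, hb, h0, h1⟩ := gtilt_height
  have hc : ∀ i, ContDiff ℝ 1 fun p : E3 => p i := fun i =>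
    (EuclideanSpace.proj i : E3 →L[ℝ] ℝ).contDiff
  have hd : ∀ c, ContDiff ℝ 1 (deriv (γ c)) := fun c =>
    (contDiff_infty_iff_deriv.1 (hγ.smooth c)).2.of_le (by simp)
  have hl : ∀ c, ContDiff ℝ 1 (deriv fun t => φ (γ c t)) := fun c =>
    (contDiff_infty_iff_deriv.1 (hφ.comp (hγ.smooth c))).2.of_le (by simp)
  obtain ⟨a, b, ha, hb', hab⟩ := gtilt_avoid (x := fun c t => deriv (γ c) t 0)
    (y := fun c t => deriv (γ c) t 1) (l := fun c => deriv fun t => φ (γ c t))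
    (fun c => (hc 0).comp (hd c)) (fun c => (hc 1).comp (hd c)) hl
    (δ := 1 / (4 * C)) (by positivity)
  let w : E3 := !₂[a, b, 0]
  have hw : ‖w‖ ≤ 1 / (2 * C) := by
    rw [EuclideanSpace.norm_eq, Real.sqrt_le_iff, Fin.sum_univ_three]
    refine ⟨by positivity, ?_⟩
    have e : 1 / (2 * C) = 2 * (1 / (4 * C)) := by field_simp; norm_num
    simp only [w, Real.norm_eq_abs, Matrix.cons_val_zero, Matrix.cons_val_one, Matrix.cons_val,
      abs_zero]
    rw [e]
    nlinarith [abs_nonneg a, abs_nonneg b]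
  have hφd := hφ.differentiable (by simp)
  have hγd := fun c => (hγ.smooth c).differentiable (by simp)
  refine ⟨fun p => p + φ p • w, (gamb_small (u := fun p => φ p • w) (hφ.smul contDiff_const)
    fun p => ?_).1, fun p hp => by simp only [h0 p hp, zero_smul, add_zero], fun c t => ?_⟩
  · rw [((hφd p).hasFDerivAt.smul_const w).fderiv, ContinuousLinearMap.norm_smulRight_apply]
    calc ‖fderiv ℝ φ p‖ * ‖w‖ ≤ C * (1 / (2 * C)) :=
          mul_le_mul (hb p) hw (norm_nonneg _) hC.le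
      _ = 1 / 2 := by field_simp
  · have hφγ : DifferentiableAt ℝ (fun t => φ (γ c t)) t := (hφd _).comp t (hγd c t)
    have e : deriv (fun t => γ c t + φ (γ c t) • w) t =
        deriv (γ c) t + deriv (fun t => φ (γ c t)) t • w :=
      ((hγd c t).hasDerivAt.add (hφγ.hasDerivAt.smul_const w)).deriv
    have e2 : deriv (fun t => φ (γ c t)) t = fderiv ℝ φ (γ c t) (deriv (γ c) t) :=
      ((hφd _).hasFDerivAt.comp_hasDerivAt t (hγd c t).hasDerivAt).deriv
    rw [e]
    simp only [w, PiLp.add_apply, PiLp.smul_apply, smul_eq_mul, Matrix.cons_val_zero,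
      Matrix.cons_val_one]
    by_cases hl0 : deriv (fun t => φ (γ c t)) t = 0
    · rw [hl0, zero_mul, zero_mul, add_zero, add_zero]
      by_cases hq : γ c t ∈ Qb 1
      · exact hv c t hq
      · rw [e2, h1 _ hq] at hl0
        by_contra h
        rw [not_or, not_not, not_not] at h
        refine hγ.imm c t ?_
        ext i
        fin_cases i
        · exact h.1
        · exact h.2
        · exact hl0
    · exact hab c t hl0

theorem exists_std {ψ : E3 → E3} (hψ : PosOn ψ (Qb (9 / 8))) {L : Lk κ} (hL : L.IsLink)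
    {ℓ : κ → Option ι} {A : Pic ι} (h : GIns ψ (L.set ℓ) A) :
    ∃ k, GAmb k ∧ (∀ p ∈ Qb (15 / 16), k (ψ p) = p) ∧ NonVert (L.push k).γ := by
  obtain ⟨g, hg, hgψ⟩ := exists_straighten hψ
  have hL1 := hL.gpush hg.smooth hg.inj hg.det_ne
  have hstd := GIns.std hψ hg (by norm_num) hgψ h
  rw [← Lk.push_set] at hstd
  obtain ⟨k, hk, hk1, hk2⟩ := exists_tilt hL1.isU fun c t hq => by
    have hν : (L.push g).ν c t = ez :=
      ((hstd.mem_iff (x := (ℓ c, (L.push g).γ c t, (L.push g).ν c t)) hq).1 ⟨c, t, rfl⟩).2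
    have hi := hL1.indep c t
    rw [hν, LinearIndependent.pair_iff] at hi
    by_contra h'
    rw [not_or, not_not, not_not] at h'
    refine one_ne_zero (hi 1 (-deriv ((L.push g).γ c) t 2) ?_).1
    ext i
    fin_cases i
    · simpa [ez] using h'.1
    · simpa [ez] using h'.2
    · simp [ez]
  refine ⟨k ∘ g, hk.comp hg, fun p hp => ?_, hk2⟩
  rw [Function.comp_apply, hgψ p fun i => (hp i).trans (by norm_num), hk1 p hp]

/-- a cube that misses the link -/
theorem IsLL.exists_empty_cube {S : LS ι} (hS : IsLL S) :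
    ∃ ψ, PosOn ψ (Qb (9 / 8)) ∧ GIns ψ S ∅ := by
  obtain ⟨R, hR⟩ := hS.isCompact_base.isBounded.exists_norm_le
  refine ⟨fun p => p + (R + 2) • ez, ⟨(contDiff_id.add contDiff_const).contDiffOn,
    fun p _ q _ h => add_right_cancel h, fun p _ => ?_⟩, ?_⟩
  · rw [fderiv_add_const, fderiv_fun_id]
    simp [ContinuousLinearMap.det]
  · have e : {y ∈ (∅ : Pic ι) | y.2 ∈ Qb (9 / 8)} = ∅ := sep_empty _
    rw [GIns, e, image_empty, eq_empty_iff_forall_notMem]
    rintro x ⟨hx, p, hp, hpx⟩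
    have h1 := hR _ ⟨x, hx, rfl⟩
    have h2 : |x.2.1 2| ≤ ‖x.2.1‖ := PiLp.norm_apply_le x.2.1 2
    have h3 : x.2.1 2 = p 2 + (R + 2) := by
      rw [← hpx]
      simp [ez]
    have h4 := abs_lt.1 (hp 2)
    have h5 := le_abs_self (x.2.1 2)
    linarith [h4.1]

end Pool.Agent.P.MP_ac4909_gt.B
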