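import Pool.Agent.P.MP_ac4909_gt.B.GB_One
import Pool.Agent.P.MP_ac4909_gt.B.GB_Tilt

/-! Layer G, blocks: vertical framings. -/

namespace Pool.Agent.P.MP_ac4909_gt.B

open scoped ContDiff
open Set Filter Topology

variable {ι κ : Type} [Fintype κ] {Cl : Set E3}

/-- standard position with vertical framing, simultaneously for all fillings of the cube -/
theorem normalise {ψ : E3 → E3} (hψ : PosOn ψ (Qb (9 / 8))) {S : LS ι} (hS : IsLL S) {A : Pic ι}
    (h : GIns ψ S A) : ∃ O : LS ι, ∀ S' A', IsLL S' → GOut ψ S' = GOut ψ S → GIns ψ S' A' →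
      (∀ y : Option ι × E3, y.2 ∈ Qb (9 / 8) → y.2 ∉ Qb (7 / 8) → (y ∈ A' ↔ y ∈ A)) →
      ∃ T, GEq S' T ∧ Vertical T ∧ Std (7 / 8) T A' ∧ SOut (7 / 8) T = O := by
  obtain ⟨κ, _, L, ℓ, hL, rfl⟩ := hS
  obtain ⟨k, hk, hkψ, hv⟩ := exists_std hψ hL h
  have hq : Qb (7 / 8) ⊆ Qb (15 / 16) := fun p hp i => (hp i).trans (by norm_num)
  have hCW : closure (Qb (7 / 8)) ⊆ Qb (15 / 16) := closure_Qb_subset (by norm_num)
  have hst := h.std hψ hk (by norm_num) hkψ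
  obtain ⟨L', hch, hν⟩ := exists_norm (hL.gpush hk.smooth hk.inj hk.det_ne) hv
    (isClosed_closure (s := Qb (7 / 8))) (isOpen_Qb _) hCW fun c t hc => by
      rw [← L.push_set] at hst
      exact ((hst.mem_iff (x := (ℓ c, (L.push k).γ c t, (L.push k).ν c t)) hc).1 ⟨c, t, rfl⟩).2
  refine ⟨SOut (7 / 8) (L'.set ℓ), fun S' A' hS' ho h' hA => ?_⟩
  have hst' := h'.std hψ hk (by norm_num) hkψ
  have h1 : SOut (7 / 8) (gpush k S') = SOut (7 / 8) ((L.push k).set ℓ) := by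
    rw [L.push_set, h'.sOut hψ hk (by norm_num) fun p hp => hkψ p (hq hp),
      h.sOut hψ hk (by norm_num) fun p hp => hkψ p (hq hp), ho]
    congr 3
    ext y
    exact and_congr_left fun hy => hA y hy.1 hy.2
  have h2 : ∀ x : Option ι × E3 × E3, x.2.1 ∉ Qb (7 / 8) →
      (x ∈ gpush k S' ↔ x ∈ (L.push k).set ℓ) := fun x hx =>
    (and_congr_left_iff.1 (Set.ext_iff.1 h1 x)) hx
  obtain ⟨T, hT, hi, hout⟩ := hch.transfer isClosed_closure ℓ (hk.isLL hS')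
    (Set.ext fun x => and_congr_left fun hx => h2 x fun h3 => hx (subset_closure h3))
  have h3 : ∀ x : Option ι × E3 × E3, x.2.1 ∈ closure (Qb (7 / 8)) → (x ∈ T ↔ x ∈ gpush k S') :=
    fun x hx => (and_congr_left_iff.1 (Set.ext_iff.1 hi x)) hx
  have h4 : ∀ x : Option ι × E3 × E3, x.2.1 ∉ closure (Qb (7 / 8)) → (x ∈ T ↔ x ∈ L'.set ℓ) :=
    fun x hx => (and_congr_left_iff.1 (Set.ext_iff.1 hout x)) hx
  refine ⟨T, (hk.geq _ _ hS').trans hT, fun x hx => ?_, ?_, ?_⟩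
  · by_cases hc : x.2.1 ∈ closure (Qb (7 / 8))
    · exact ((hst'.mem_iff (hCW hc)).1 ((h3 x hc).1 hx)).2
    · obtain ⟨c, t, rfl⟩ := (h4 x hc).1 hx
      exact hν c t
  · refine Eq.trans ?_ (hst'.mono (r' := 7 / 8) (by norm_num))
    exact Set.ext fun x => and_congr_left fun hx => h3 x (subset_closure hx)
  · refine Set.ext fun x => and_congr_left fun hx => ?_
    by_cases hc : x.2.1 ∈ closure (Qb (7 / 8))
    · exact ((h3 x hc).trans (h2 x hx)).trans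
        ((and_congr_left_iff.1 (Set.ext_iff.1 (hch.inside ℓ) x)) hc).symm
    · exact h4 x hc

theorem IsLL.exists_vertical {S : LS ι} (hS : IsLL S) : ∃ T, GEq S T ∧ Vertical T := by
  obtain ⟨ψ, hψ, h⟩ := hS.exists_empty_cube
  obtain ⟨O, hO⟩ := normalise hψ hS h
  obtain ⟨T, h1, h2, -⟩ := hO S ∅ hS rfl h fun _ _ _ => Iff.rfl
  exact ⟨T, h1, h2⟩

end Pool.Agent.P.MP_ac4909_gt.B
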