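import Pool.Agent.P.MP_ac4909_gt.B.GB_Pre

/-! Layer G, blocks: the outer part of a fine subdivision. -/

namespace Pool.Agent.P.MP_ac4909_gt.B

open scoped ContDiff
open Set Filter Topology

variable {ι I N : Type} {n : ℕ} {Co : Collar n ι} {A : Pic ι} {d η : ℝ}

theorem gout_abs (Co : Collar n ι) (b : Fin n × Bool) {t : ℝ} (ht : 0 ≤ t) :
    |Co.cl b t 1| = t := by
  rw [Collar.cl_one, abs_mul, abs_of_nonneg ht]
  split_ifs <;> simp

theorem gout_coord (p q : E3) (i : Fin 3) : |p i - q i| ≤ dist p q := by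
  rw [← Real.dist_eq]
  exact PiLp.dist_apply_le p q i

theorem gout_inj (Co : Collar n ι) (b : Fin n × Bool) :
    InjOn (fun p : E3 => p 1) (Co.cl b '' Ioi 0) := by
  rintro _ ⟨t, ht, rfl⟩ _ ⟨t', ht', rfl⟩ h
  have h1 := gout_abs Co b (le_of_lt ht)
  have h2 := gout_abs Co b (le_of_lt ht')
  have h3 : Co.cl b t 1 = Co.cl b t' 1 := h
  rw [h3, h2] at h1
  rw [h1]

/-- separation in the plane or by a height gap -/
def GoutSep (D : ℝ) (X Y : Set E3) : Prop :=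
  (∃ i, i ≠ 2 ∧ (Sep i X Y ∨ Sep i Y X)) ∨ (∀ p ∈ X, ∀ q ∈ Y, p 2 + D < q 2) ∨
    ∀ p ∈ X, ∀ q ∈ Y, q 2 + D < p 2

theorem GoutSep.symm {D : ℝ} {X Y : Set E3} (h : GoutSep D X Y) : GoutSep D Y X := by
  rcases h with ⟨i, hi, h⟩ | h | h
  · exact .inl ⟨i, hi, h.symm⟩
  · exact .inr (.inr fun p hp q hq => h q hq p hp)
  · exact .inr (.inl fun p hp q hq => h q hq p hp)

theorem GoutSep.mono {D : ℝ} {X Y X' Y' : Set E3} (h : GoutSep D X Y) (hX : X' ⊆ X)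
    (hY : Y' ⊆ Y) : GoutSep D X' Y' := by
  rcases h with ⟨i, hi, h⟩ | h | h
  · exact .inl ⟨i, hi, h.imp (fun k => k.mono hX hY) fun k => k.mono hY hX⟩
  · exact .inr (.inl fun p hp q hq => h p (hX hp) q (hY hq))
  · exact .inr (.inr fun p hp q hq => h p (hX hp) q (hY hq))

theorem GoutSep.sep {X Y : Set E3} (h : GoutSep 0 X Y) : ∃ i, Sep i X Y ∨ Sep i Y X := by
  rcases h with ⟨i, -, h⟩ | h | h
  · exact ⟨i, h⟩
  · exact ⟨2, .inl fun p hp q hq => by simpa using h p hp q hq⟩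
  · exact ⟨2, .inr fun p hp q hq => by simpa using h q hq p hp⟩

theorem gout_of_sep {X Y : Set E3} (h : ∃ i, Sep i X Y ∨ Sep i Y X) : GoutSep 0 X Y := by
  obtain ⟨i, h⟩ := h
  by_cases hi : i = 2
  · subst hi
    rcases h with h | h
    · exact .inr (.inl fun p hp q hq => by simpa using h p hp q hq)
    · exact .inr (.inr fun p hp q hq => by simpa using h q hq p hp)
  · exact .inl ⟨i, hi, h⟩

theorem gout_cl_cl {D : ℝ} (h₃ : ∀ b b', Co.ζ b < Co.ζ b' → Co.ζ b + D < Co.ζ b')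
    {b b' : Fin n × Bool} (h : b ≠ b') : GoutSep D (Co.cl b '' Ioi 0) (Co.cl b' '' Ioi 0) := by
  rcases Collar.sep_cl (Co := Co) h with ⟨-, h⟩ | ⟨-, h⟩ | h
  · exact .inl ⟨1, by decide, h⟩
  · exact .inl ⟨0, by decide, h⟩
  · rcases lt_or_gt_of_ne h with h | h
    · refine .inr (.inl ?_)
      rintro _ ⟨t, -, rfl⟩ _ ⟨t', -, rfl⟩
      exact h₃ _ _ h
    · refine .inr (.inr ?_)
      rintro _ ⟨t, -, rfl⟩ _ ⟨t', -, rfl⟩
      exact h₃ _ _ h

theorem gout_cl_far {D : ℝ} (h₂ : D ≤ 1 / 16) (b : Fin n × Bool) {Y : Set E3}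
    (h : ∃ i, (∀ p ∈ Y, p i < -53 / 64) ∨ ∀ p ∈ Y, 53 / 64 < p i) :
    GoutSep D (Co.cl b '' Ioo 0 (13 / 16)) Y := by
  obtain ⟨i, h⟩ := h
  have hb : ∀ p ∈ Co.cl b '' Ioo 0 (13 / 16), |p i| ≤ 13 / 16 := by
    rintro _ ⟨t, ht, rfl⟩
    exact Collar.cl_box ht.1 ht.2.le (by norm_num) (by linarith [ht.2]) i
  by_cases hi : i = 2
  · subst hi
    have hz := abs_le.1 (Co.boxz b)
    rcases h with h | h
    · refine .inr (.inr ?_)
      rintro _ ⟨t, -, rfl⟩ q hq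
      have := h q hq
      rw [Collar.cl_two]
      linarith [hz.1]
    · refine .inr (.inl ?_)
      rintro _ ⟨t, -, rfl⟩ q hq
      have := h q hq
      rw [Collar.cl_two]
      linarith [hz.2]
  · refine .inl ⟨i, hi, ?_⟩
    rcases h with h | h
    · refine .inr fun q hq p hp => ?_
      have := h q hq
      linarith [(abs_le.1 (hb p hp)).1]
    · refine .inl fun p hp q hq => ?_
      have := h q hq
      linarith [(abs_le.1 (hb p hp)).2]

theorem gout_cl_same (D : ℝ) (b : Fin n × Bool) (u : ℝ) :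
    GoutSep D (Co.cl b '' Iic u) (Co.cl b '' Ioi u) := by
  refine .inl ⟨1, by decide, ?_⟩
  by_cases hb : b.2 = true
  · refine .inl ?_
    rintro _ ⟨t, ht, rfl⟩ _ ⟨t', ht', rfl⟩
    simp only [Collar.cl_one, hb, if_true]
    linarith [mem_Iic.1 ht, mem_Ioi.1 ht']
  · refine .inr ?_
    rintro _ ⟨t', ht', rfl⟩ _ ⟨t, ht, rfl⟩
    simp only [Collar.cl_one, if_neg hb]
    linarith [mem_Iic.1 ht, mem_Ioi.1 ht']

theorem gout_split [Fintype N] (p : N → Prop) (f : N → ℝ) (c : ℝ) : ∃ l₁ l₂ : List N,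
    (l₁ ++ l₂).Nodup ∧ (∀ a, a ∈ l₁ ++ l₂ ↔ p a) ∧ (l₁ ++ l₂).Pairwise (fun a b => f a ≤ f b) ∧
      (∀ a ∈ l₁, f a < c) ∧ ∀ a ∈ l₂, c ≤ f a := by
  obtain ⟨l₁, n₁, m₁, s₁⟩ := GCCert_sort (fun a => p a ∧ f a < c) f
  obtain ⟨l₂, n₂, m₂, s₂⟩ := GCCert_sort (fun a => p a ∧ c ≤ f a) f
  refine ⟨l₁, l₂, List.nodup_append.2 ⟨n₁, n₂, ?_⟩, fun a => ?_,
    List.pairwise_append.2 ⟨s₁, s₂, fun a ha b hb => ?_⟩, fun a ha => ((m₁ a).1 ha).2,
    fun a ha => ((m₂ a).1 ha).2⟩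
  · rintro a ha b hb rfl
    exact absurd ((m₁ a).1 ha).2 (not_lt.2 ((m₂ a).1 hb).2)
  · rw [List.mem_append, m₁, m₂]
    constructor
    · rintro (h | h) <;> exact h.1
    · exact fun h => (lt_or_ge (f a) c).imp (fun k => ⟨h, k⟩) fun k => ⟨h, k⟩
  · exact (((m₁ a).1 ha).2.trans_le ((m₂ b).1 hb).2).le

namespace Pre
variable (P : Pre Co A d η N) {a c : N} {s : Bool} {b : Fin n × Bool} {t : ℝ} {p q : E3}

include P in
theorem gout_pos (a : N) : 0 < η := by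
  simpa using P.diam a _ (P.valid.pt_mem_star a) _ (P.valid.pt_mem_star a)

theorem gout_lv (b : Fin n × Bool) : 3 / 4 < P.tb b ∧ 3 / 4 < P.lv b ∧ P.lv b < 13 / 16 := by
  have h0 := P.gout_pos (P.bc b)
  have h1 := P.tb_gt b
  have h2 := P.tb_lt b
  have h3 := P.lv_lt b
  exact ⟨by linarith, by linarith, by linarith⟩

theorem gout_near (hp : p ∈ P.C.star a) (hq : q ∈ P.C.star a) (i : Fin 3) : |p i - q i| < η :=
  (gout_coord p q i).trans_lt (P.diam a p hp q hq)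

theorem gout_mid (hp : p ∈ P.C.star a) (h₁ : p ∈ Qb (7 / 8)) (h₂ : ∃ i, 3 / 4 < |p i|) :
    ∃ b t, 3 / 4 < t ∧ p = Co.cl b t ∧ P.lb a = Co.lab b :=
  (P.mid (P.lb a, p) h₁ h₂).1 ((P.out _).2 ⟨a, hp, rfl⟩)

theorem gout_conn (a : N) : IsPreconnected (P.C.star a) :=
  IsPreconnected.union (P.C.pt a) (P.valid.isArc a false).left_mem (P.valid.isArc a true).left_mem
    (P.valid.isArc a false).isPreconnected (P.valid.isArc a true).isPreconnected

/-- a star that meets the middle part of a collar lies in it -/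
theorem gout_trap (hp : Co.cl b t ∈ P.C.star a) (h₁ : 3 / 4 + η ≤ t) (h₂ : t + η ≤ 7 / 8) :
    P.lb a = Co.lab b ∧ ∀ q ∈ P.C.star a, ∃ t', |t' - t| < η ∧ q = Co.cl b t' := by
  have h0 := P.gout_pos a
  have ht : 0 < t := by linarith
  have key : ∀ q ∈ P.C.star a, ∃ b' t', |t' - t| < η ∧ q = Co.cl b' t' ∧ P.lb a = Co.lab b' := by
    intro q hq
    have h3 : |(|q 1|) - t| < η := by
      have := P.gout_near hq hp 1
      rw [← gout_abs Co b ht.le]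
      exact (abs_abs_sub_abs_le_abs_sub _ _).trans_lt this
    obtain ⟨b', t', h4, h5, h6⟩ := P.gout_mid hq (fun i => by
      have h7 := P.gout_near hq hp i
      have h8 := Collar.cl_box (Co := Co) (b := b) ht le_rfl (by linarith) (by linarith) i
      have h9 := abs_sub_abs_le_abs_sub (q i) (Co.cl b t i)
      linarith) ⟨1, by linarith [(abs_lt.1 h3).1]⟩
    refine ⟨b', t', ?_, h5, h6⟩
    rwa [h5, gout_abs Co b' (by linarith)] at h3
  have hsub : P.C.star a ⊆ Co.cl b '' Icc (3 / 4) (7 / 8) := by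
    refine Collar.subset_cl (P.gout_conn a) (by norm_num) (fun q hq => ?_) hp
      ⟨t, ⟨by linarith, by linarith⟩, rfl⟩
    obtain ⟨b', t', h3, h4, -⟩ := key q hq
    obtain ⟨h5, h6⟩ := abs_lt.1 h3
    exact mem_iUnion.2 ⟨b', t', ⟨by linarith, by linarith⟩, h4.symm⟩
  constructor
  · obtain ⟨b', t', h3, h4, h5⟩ := key _ hp
    rw [h5, (Collar.cl_eq ht h4 (by linarith [(abs_lt.1 h3).1])).1]
  · intro q hq
    obtain ⟨b', t', h3, h4, -⟩ := key q hq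
    obtain ⟨u, hu, h5⟩ := hsub hq
    have h6 := Collar.cl_eq (by linarith [hu.1]) (h5.trans h4) (by linarith [(abs_lt.1 h3).1])
    exact ⟨t', h3, by rw [h4, h6.1]⟩

theorem gout_sub (hp : Co.cl b t ∈ P.C.star a) (h₁ : 3 / 4 + η ≤ t) (h₂ : t + η ≤ 7 / 8) :
    P.C.star a ⊆ Co.cl b '' Ioi 0 := by
  intro q hq
  obtain ⟨t', h3, h4⟩ := (P.gout_trap hp h₁ h₂).2 q hq
  exact ⟨t', mem_Ioi.2 (by linarith [(abs_lt.1 h3).1]), h4.symm⟩

theorem gout_arc (h : P.C.star a ⊆ Co.cl b '' Ioi 0) {t' : ℝ} (h₁ : P.C.pt a = Co.cl b t)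
    (h₂ : P.C.pt (P.C.nb a s) = Co.cl b t') : P.C.arc a (P.C.nb a s) = Co.cl b '' uIcc t t' := by
  have h3 := P.valid.isArc a s
  rw [h₁, h₂] at h3
  exact h3.eq_cl ((P.C.arc_subset_star a s).trans h)

theorem gout_inter (h : p ∈ P.C.arc a (P.C.nb a s)) (h' : p ∈ P.C.arc a (P.C.nb a (!s))) :
    p = P.C.pt a := by
  cases s
  · exact Conf.GCArc_inter P.valid h h'
  · exact Conf.GCArc_inter P.valid h' h

/-- the levels are monotone along the chain -/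
theorem gout_step (h : P.C.star a ⊆ Co.cl b '' Ioi 0) {t₁ t₂ : ℝ} (h₀ : P.C.pt a = Co.cl b t)
    (h₁ : P.C.pt (P.C.nb a s) = Co.cl b t₁) (h₂ : P.C.pt (P.C.nb a (!s)) = Co.cl b t₂)
    (hlt : t₁ < t) : t < t₂ := by
  by_contra hn
  rcases (not_lt.1 hn).eq_or_lt with e | e
  · rw [e, ← h₀] at h₂
    exact P.valid.nb_ne_self a _ (P.valid.pt_inj' h₂)
  · have h3 : Co.cl b (max t₁ t₂) = P.C.pt a := by
      refine P.gout_inter (s := s) ?_ ?_
      · rw [P.gout_arc h h₀ h₁, uIcc_of_ge hlt.le]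
        exact ⟨_, ⟨le_max_left _ _, max_le hlt.le e.le⟩, rfl⟩
      · rw [P.gout_arc h h₀ h₂, uIcc_of_ge e.le]
        exact ⟨_, ⟨le_max_right _ _, max_le hlt.le e.le⟩, rfl⟩
    rw [h₀] at h3
    exact absurd (Collar.cl_inj h3) (max_lt hlt e).ne

/-- the outer marked points -/
def IsO (a : N) : Prop := P.C.pt a ∉ Qb (7 / 8) ∨ ∃ b t, P.lv b ≤ t ∧ P.C.pt a = Co.cl b t

theorem isO_of_cl (h : P.C.pt a = Co.cl b t) (ht : P.lv b ≤ t) : P.IsO a := .inr ⟨b, t, ht, h⟩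

theorem isO_ρ (b : Fin n × Bool) : P.IsO (P.ρ b) := P.isO_of_cl (P.pt_ρ b) le_rfl

theorem IsO.le {P : Pre Co A d η N} (h : P.IsO a) (h₁ : P.C.pt a = Co.cl b t) (h₂ : 0 < t)
    (h₃ : t < 7 / 8) : P.lv b ≤ t := by
  rcases h with h | ⟨b', t', h4, h5⟩
  · rw [h₁] at h
    exact absurd (Collar.cl_mem_Qb h₂ h₃ (by norm_num) (by linarith)) h
  · obtain ⟨rfl, rfl⟩ := Collar.cl_eq h₂ (h₁.symm.trans h5) (by linarith [(P.gout_lv b').2.1])
    exact h4

theorem not_isO_bc (b : Fin n × Bool) : ¬ P.IsO (P.bc b) := fun h => by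
  obtain ⟨h1, h2, h3⟩ := P.gout_lv b
  have h4 := P.tb_lt b
  exact absurd (h.le (P.pt_bc b) (by linarith) (by linarith)) (not_le.2 h4)

theorem gout_lv_le {i : Fin 3} (ht : 0 < t) (h : 13 / 16 < |Co.cl b t i|) : P.lv b ≤ t := by
  by_contra hn
  have h1 := (not_le.1 hn).trans (P.gout_lv b).2.2
  exact absurd (Collar.cl_box ht h1.le (by norm_num) (by linarith) i) (not_le.2 h)

theorem isO_of_far (hp : p ∈ P.C.star a) {i : Fin 3} (h : 27 / 32 ≤ |p i|) : P.IsO a := by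
  by_cases hQ : P.C.pt a ∈ Qb (7 / 8)
  · have h1 := P.gout_near hp (P.valid.pt_mem_star a) i
    have h2 := abs_sub_abs_le_abs_sub (p i) (P.C.pt a i)
    have h3 := P.η_lt
    obtain ⟨b, t, h4, h5, -⟩ := P.gout_mid (P.valid.pt_mem_star a) hQ ⟨i, by linarith⟩
    refine P.isO_of_cl h5 (P.gout_lv_le (i := i) (by linarith) ?_)
    rw [← h5]
    linarith
  · exact .inl hQ

theorem IsO.cases {P : Pre Co A d η N} (h : P.IsO a) : (∃ i, 27 / 32 ≤ |P.C.pt a i|) ∨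
    ∃ b t, P.lv b ≤ t ∧ t < 27 / 32 ∧ P.C.pt a = Co.cl b t := by
  by_cases hf : ∃ i, 27 / 32 ≤ |P.C.pt a i|
  · exact .inl hf
  · push Not at hf
    rcases h with h | ⟨b, t, h1, h2⟩
    · exact absurd (fun i => (hf i).trans (by norm_num)) h
    · refine .inr ⟨b, t, h1, ?_, h2⟩
      have := hf 1
      rwa [h2, gout_abs Co b (by linarith [(P.gout_lv b).2.1])] at this

theorem gout_trap' (hp : Co.cl b t ∈ P.C.star a) (h₁ : P.lv b ≤ t) (h₂ : t < 27 / 32) :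
    P.C.star a ⊆ Co.cl b '' Ioi 0 ∧ P.lb a = Co.lab b ∧
      ∀ q ∈ P.C.star a, ∃ t', |t' - t| < η ∧ q = Co.cl b t' := by
  have h0 := P.gout_pos a
  have h3 := P.tb_gt b
  have h4 := P.tb_lt b
  have h5 := P.η_lt
  exact ⟨P.gout_sub hp (by linarith) (by linarith), P.gout_trap hp (by linarith) (by linarith)⟩

theorem exists_sd (b : Fin n × Bool) : ∃ s, P.C.nb (P.ρ b) s = P.bc b := by
  obtain ⟨s, hs⟩ := P.nb_bc b
  rw [← hs]
  exact P.valid.adj_symm _ s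

/-- the side of the inner neighbour -/
noncomputable def sd (b : Fin n × Bool) : Bool := (P.exists_sd b).choose

theorem nb_sd (b : Fin n × Bool) : P.C.nb (P.ρ b) (P.sd b) = P.bc b := (P.exists_sd b).choose_spec

theorem col_ρ (b : Fin n × Bool) : P.C.col (P.ρ b) = false := by
  obtain ⟨s, hs⟩ := P.nb_bc b
  rw [← hs, P.valid.col_nb, P.col_bc]
  rfl

theorem ρ_inj : Function.Injective P.ρ := fun b b' h =>
  (Collar.cl_eq (by linarith [(P.gout_lv b).2.1])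
    ((P.pt_ρ b).symm.trans ((congrArg P.C.pt h).trans (P.pt_ρ b')))
    (by linarith [(P.gout_lv b').2.1])).1

theorem bc_inj : Function.Injective P.bc := fun b b' h =>
  (Collar.cl_eq (by linarith [(P.gout_lv b).1])
    ((P.pt_bc b).symm.trans ((congrArg P.C.pt h).trans (P.pt_bc b')))
    (by linarith [(P.gout_lv b').1])).1

theorem ρ_mem (b : Fin n × Bool) : Co.cl b (P.lv b) ∈ P.C.star (P.ρ b) :=
  P.pt_ρ b ▸ P.valid.pt_mem_star _

theorem trap_ρ (b : Fin n × Bool) : P.C.star (P.ρ b) ⊆ Co.cl b '' Ioi 0 ∧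
    P.lb (P.ρ b) = Co.lab b ∧
      ∀ q ∈ P.C.star (P.ρ b), ∃ t', |t' - P.lv b| < η ∧ q = Co.cl b t' :=
  P.gout_trap' (P.ρ_mem b) le_rfl (by linarith [(P.gout_lv b).2.2])

theorem exists_tm (b : Fin n × Bool) : ∃ u, P.lv b < u ∧ u < P.lv b + η ∧
    P.C.pt (P.C.nb (P.ρ b) (!P.sd b)) = Co.cl b u ∧
    P.C.arc (P.ρ b) (P.C.nb (P.ρ b) (!P.sd b)) = Co.cl b '' Icc (P.lv b) u := by
  obtain ⟨h1, -, h2⟩ := P.trap_ρ b
  obtain ⟨u, h3, h4⟩ := h2 _ (P.valid.nb_mem_star _ (!P.sd b))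
  have h5 : P.lv b < u := P.gout_step h1 (P.pt_ρ b) (by rw [P.nb_sd, P.pt_bc]) h4 (P.tb_lt b)
  refine ⟨u, h5, by linarith [(abs_lt.1 h3).2], h4, ?_⟩
  rw [P.gout_arc h1 (P.pt_ρ b) h4, uIcc_of_le h5.le]

/-- the chain leaves the outer part only at the marked pairs -/
theorem gout_leave (ha : P.IsO a) (h : ¬ P.IsO (P.C.nb a s)) : ∃ b, a = P.ρ b ∧ s = P.sd b := by
  rcases ha.cases with ⟨i, hi⟩ | ⟨b, t, h1, h2, h3⟩
  · exact absurd (P.isO_of_far (P.valid.arc_subset_star_nb a s (P.valid.isArc a s).left_mem) hi) h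
  · obtain ⟨h4, -, h5⟩ := P.gout_trap' (h3 ▸ P.valid.pt_mem_star a) h1 h2
    obtain ⟨t', -, h6⟩ := h5 _ (P.valid.nb_mem_star a s)
    have h7 : t' < P.lv b := not_le.1 fun k => h (P.isO_of_cl h6 k)
    have h8 : P.C.pt (P.ρ b) ∈ P.C.arc a (P.C.nb a s) := by
      rw [P.gout_arc h4 h3 h6, P.pt_ρ, uIcc_of_ge (h7.le.trans h1)]
      exact ⟨_, ⟨h7.le, h1⟩, rfl⟩
    rcases P.valid.mem_arc h8 with e | e
    · refine ⟨b, e.symm, ?_⟩
      by_contra hs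
      obtain ⟨u, h9, -, h10, -⟩ := P.exists_tm b
      have : s = !P.sd b := by
        cases s <;> cases h' : P.sd b <;> simp_all
      rw [← e, this] at h
      exact h (P.isO_of_cl h10 h9.le)
    · exact absurd (e ▸ P.isO_ρ b) h

theorem isO_nb (ha : P.IsO a) (h : ∀ b, a ≠ P.ρ b) (s : Bool) : P.IsO (P.C.nb a s) := by
  by_contra hn
  obtain ⟨b, hb, -⟩ := P.gout_leave ha hn
  exact h b hb

theorem star_cl (ha : P.IsO a) (h : ∀ b, a ≠ P.ρ b) (h₀ : P.C.pt a = Co.cl b t) (h₁ : P.lv b ≤ t)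
    (h₂ : t < 27 / 32) : P.C.star a ⊆ Co.cl b '' Icc (P.lv b) 1 := by
  obtain ⟨h4, -, h5⟩ := P.gout_trap' (h₀ ▸ P.valid.pt_mem_star a) h₁ h₂
  intro q hq
  obtain ⟨s, hs⟩ := Conf.GCArc_star hq
  obtain ⟨t', h6, h7⟩ := h5 _ (P.valid.nb_mem_star a s)
  obtain ⟨h8, h9⟩ := abs_lt.1 h6
  have h10 := P.η_lt
  have h11 := (P.gout_lv b).2.1
  have h12 : P.lv b ≤ t' := (P.isO_nb ha h s).le h7 (by linarith) (by linarith)
  rw [P.gout_arc h4 h₀ h7] at hs
  exact image_mono (uIcc_subset_Icc ⟨h₁, by linarith⟩ ⟨h12, by linarith⟩) hs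

theorem gout_far (ha : P.IsO a) (h : ∀ b, a ≠ P.ρ b) :
    (∃ i, (∀ p ∈ P.C.star a, p i < -53 / 64) ∨ ∀ p ∈ P.C.star a, 53 / 64 < p i) ∨
      ∃ b, P.C.star a ⊆ Co.cl b '' Icc (P.lv b) 1 := by
  rcases ha.cases with ⟨i, hi⟩ | ⟨b, t, h1, h2, h3⟩
  · have h0 := P.η_lt
    refine .inl ⟨i, ?_⟩
    rcases le_abs.1 hi with k | k
    · refine .inr fun p hp => ?_
      linarith [(abs_lt.1 (P.gout_near hp (P.valid.pt_mem_star a) i)).1]
    · refine .inl fun p hp => ?_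
      linarith [(abs_lt.1 (P.gout_near hp (P.valid.pt_mem_star a) i)).2]
  · exact .inr ⟨b, P.star_cl ha h h3 h1 h2⟩

theorem gout_ins (ha : P.IsO a) (h : ∀ b, a ≠ P.ρ b) (hp : p ∈ P.C.star a)
    (hQ : p ∈ Qb (7 / 8)) : ∃ b t, P.lv b ≤ t ∧ p = Co.cl b t ∧ P.lb a = Co.lab b := by
  rcases P.gout_far ha h with ⟨i, hi⟩ | ⟨b, hb⟩
  · have h1 : 53 / 64 < |p i| := by
      rcases hi with k | k
      · exact lt_abs.2 (.inr (by linarith [k p hp]))
      · exact lt_abs.2 (.inl (k p hp))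
    obtain ⟨b, t, h2, h3, h4⟩ := P.gout_mid hp hQ ⟨i, by linarith⟩
    refine ⟨b, t, P.gout_lv_le (i := i) (by linarith) ?_, h3, h4⟩
    rw [← h3]
    linarith
  · obtain ⟨t, ht, h1⟩ := hb hp
    have h0 := (P.gout_lv b).2.1
    obtain ⟨b', t', h2, h3, h4⟩ := P.gout_mid hp hQ
      ⟨1, by rw [← h1, gout_abs Co b (by linarith [ht.1])]; linarith [ht.1]⟩
    obtain ⟨rfl, rfl⟩ := Collar.cl_eq (by linarith [ht.1]) (h1.trans h3) (by linarith)
    exact ⟨b, t, ht.1, h3, h4⟩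

theorem gout_cover (h₁ : P.lv b ≤ t) (hQ : Co.cl b t ∈ Qb (7 / 8)) : ∃ a s, P.IsO a ∧
    P.IsO (P.C.nb a s) ∧ Co.cl b t ∈ P.C.arc a (P.C.nb a s) ∧ Co.lab b = P.lb a := by
  have h0 := (P.gout_lv b).2.1
  rcases h₁.eq_or_lt with e | hlt
  · obtain ⟨u, h2, -, h3, h4⟩ := P.exists_tm b
    refine ⟨P.ρ b, !P.sd b, P.isO_ρ b, P.isO_of_cl h3 h2.le, ?_, (P.trap_ρ b).2.1.symm⟩
    rw [h4]
    exact ⟨t, ⟨h₁, e ▸ h2.le⟩, rfl⟩
  obtain ⟨a, ha, hl⟩ := (P.out (Co.lab b, Co.cl b t)).1 ((P.mid (Co.lab b, Co.cl b t) hQ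
    ⟨1, by rw [gout_abs Co b (by linarith)]; linarith⟩).2 ⟨b, t, by linarith, rfl, rfl⟩)
  obtain ⟨s, hs⟩ := Conf.GCArc_star ha
  by_cases ht : t < 27 / 32
  · obtain ⟨h4, -, h5⟩ := P.gout_trap' ha h₁ ht
    obtain ⟨t₁, -, h6⟩ := h5 _ (P.valid.pt_mem_star a)
    obtain ⟨t₂, -, h7⟩ := h5 _ (P.valid.nb_mem_star a s)
    have h8 := P.gout_arc h4 h6 h7
    have h9 : t ∈ uIcc t₁ t₂ := by
      obtain ⟨u, hu, e⟩ := h8 ▸ hs
      exact Collar.cl_inj e ▸ hu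
    have h10 : P.lv b ∈ uIcc t₁ t₂ → t₁ = P.lv b ∨ t₂ = P.lv b := fun k => by
      have h11 : P.C.pt (P.ρ b) ∈ P.C.arc a (P.C.nb a s) := by
        rw [h8, P.pt_ρ]
        exact ⟨_, k, rfl⟩
      refine (P.valid.mem_arc h11).imp (fun e => ?_) fun e => ?_
      · rw [← e, P.pt_ρ] at h6
        exact (Collar.cl_inj h6).symm
      · rw [← e, P.pt_ρ] at h7
        exact (Collar.cl_inj h7).symm
    rw [mem_uIcc] at h9 h10
    have h12 : P.lv b ≤ t₁ ∧ P.lv b ≤ t₂ := by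
      constructor
      · by_contra hn
        rw [not_le] at hn
        rcases h9 with k | k
        · rcases h10 (.inl ⟨hn.le, by linarith [k.2]⟩) with e | e <;> linarith [k.2]
        · linarith [k.2]
      · by_contra hn
        rw [not_le] at hn
        rcases h9 with k | k
        · linarith [k.2]
        · rcases h10 (.inr ⟨hn.le, by linarith [k.2]⟩) with e | e <;> linarith [k.2]
    exact ⟨a, s, P.isO_of_cl h6 h12.1, P.isO_of_cl h7 h12.2, hs, hl⟩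
  · have h2 : 27 / 32 ≤ |Co.cl b t 1| := by
      rw [gout_abs Co b (by linarith)]
      exact not_lt.1 ht
    exact ⟨a, s, P.isO_of_far ha h2, P.isO_of_far (P.valid.arc_subset_star_nb a s hs) h2, hs, hl⟩

end Pre

namespace Pre
variable (P : Pre Co A d η N) {s : Bool} {b : Fin n × Bool}

/-- the type of outer marked points -/
abbrev GO : Type := {a // P.IsO a}

/-- the old marked point behind a new one -/
def ge : P.GO ⊕ Fin n × Bool → N := Sum.elim Subtype.val P.bc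

theorem ge_inj : Function.Injective P.ge := by
  rintro (a | b) (a' | b') h
  · exact congrArg _ (Subtype.ext h)
  · have h' : a.1 = P.bc b' := h
    exact absurd (h' ▸ a.2) (P.not_isO_bc b')
  · have h' : P.bc b = a'.1 := h
    exact absurd (h' ▸ a'.2) (P.not_isO_bc b)
  · exact congrArg _ (P.bc_inj h)

/-- the innermost outer point of a collar -/
def ρO (b : Fin n × Bool) : P.GO := ⟨P.ρ b, P.isO_ρ b⟩

open Classical in
/-- the outer subdivision -/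
noncomputable def conf : Conf (P.GO ⊕ Fin n × Bool) where
  col x := P.C.col (P.ge x)
  nb := Sum.elim (fun a s => if h : P.IsO (P.C.nb a.1 s) then .inl ⟨_, h⟩
    else .inr (P.gout_leave a.2 h).choose) fun b _ => .inl (P.ρO b)
  pt x := P.C.pt (P.ge x)
  arc := fun x y => match x, y with
    | .inl a, .inl a' => P.C.arc a.1 a'.1
    | .inl _, .inr b => Co.cl b '' Ioc 0 (P.lv b)
    | .inr b, _ => Co.cl b '' Ioc 0 (P.lv b)

variable {a a' : P.GO}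

theorem ge_nb (a : P.GO) (s : Bool) : P.ge (P.conf.nb (.inl a) s) = P.C.nb a.1 s := by
  by_cases h : P.IsO (P.C.nb a.1 s)
  · have : P.conf.nb (.inl a) s = .inl ⟨_, h⟩ := dif_pos h
    rw [this]
    rfl
  · have : P.conf.nb (.inl a) s = .inr (P.gout_leave a.2 h).choose := dif_neg h
    obtain ⟨h1, h2⟩ := (P.gout_leave a.2 h).choose_spec
    rw [this]
    refine (P.nb_sd _).symm.trans ?_
    rw [← h1, ← h2]

theorem nb_eq_inl : P.conf.nb (.inl a) s = .inl a' ↔ P.C.nb a.1 s = a'.1 :=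
  ⟨fun h => (P.ge_nb a s).symm.trans (congrArg P.ge h),
    fun h => P.ge_inj ((P.ge_nb a s).trans h)⟩

theorem nb_of_isO (h : P.IsO (P.C.nb a.1 s)) : P.conf.nb (.inl a) s = .inl ⟨_, h⟩ :=
  P.nb_eq_inl.2 rfl

theorem nb_eq_inr : P.conf.nb (.inl a) s = .inr b ↔ a = P.ρO b ∧ s = P.sd b := by
  constructor
  · intro h
    have h1 : P.C.nb a.1 s = P.bc b := (P.ge_nb a s).symm.trans (congrArg P.ge h)
    obtain ⟨b', h2, h3⟩ := P.gout_leave a.2 (s := s) (h1 ▸ P.not_isO_bc b)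
    rw [h2, h3, P.nb_sd] at h1
    obtain rfl := P.bc_inj h1
    exact ⟨Subtype.ext h2, h3⟩
  · rintro ⟨rfl, rfl⟩
    exact P.ge_inj ((P.ge_nb _ _).trans (P.nb_sd b))

theorem ne_ρ (h : ∀ b, a ≠ P.ρO b) (b : Fin n × Bool) : a.1 ≠ P.ρ b := fun e =>
  h b (Subtype.ext e)

theorem ne_ρ_of_col (h : P.C.col a.1 = true) (b : Fin n × Bool) : a ≠ P.ρO b := fun e => by
  have := P.col_ρ b
  rw [e] at h
  exact absurd (h.symm.trans this) (by decide)

theorem conf_star (h : ∀ b, a ≠ P.ρO b) : P.conf.star (.inl a) = P.C.star a.1 := by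
  unfold Conf.star
  rw [P.nb_of_isO (P.isO_nb a.2 (P.ne_ρ h) false), P.nb_of_isO (P.isO_nb a.2 (P.ne_ρ h) true)]
  rfl

theorem gout_star {M : Type} (C : Conf M) (x : M) (s : Bool) :
    C.star x = C.arc x (C.nb x s) ∪ C.arc x (C.nb x (!s)) := by
  cases s
  · rfl
  · exact union_comm _ _

theorem gout_win {M : Type} (C : Conf M) (x : M) (s : Bool) :
    C.win x = C.star (C.nb x s) ∪ C.star (C.nb x (!s)) := by
  cases s
  · rfl
  · exact union_comm _ _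

theorem conf_star_ρ (b : Fin n × Bool) : ∃ u, P.lv b < u ∧ u < P.lv b + η ∧
    P.conf.star (.inl (P.ρO b)) = Co.cl b '' Ioc 0 u ∧
      Co.cl b '' Icc (P.lv b) u ⊆ P.C.star (P.ρ b) := by
  obtain ⟨u, h1, h2, h3, h4⟩ := P.exists_tm b
  refine ⟨u, h1, h2, ?_, h4 ▸ P.C.arc_subset_star _ _⟩
  rw [gout_star _ _ (P.sd b), P.nb_eq_inr.2 ⟨rfl, rfl⟩,
    P.nb_of_isO (a := P.ρO b) (P.isO_of_cl h3 h1.le)]
  change Co.cl b '' Ioc 0 (P.lv b) ∪ P.C.arc (P.ρ b) (P.C.nb (P.ρ b) (!P.sd b)) = _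
  rw [h4, ← image_union]
  congr 1
  have h5 := (P.gout_lv b).2.1
  ext t
  simp only [mem_union, mem_Ioc, mem_Icc]
  constructor
  · rintro (k | k)
    · exact ⟨k.1, k.2.trans h1.le⟩
    · exact ⟨by linarith [k.1], k.2⟩
  · exact fun k => (le_total t (P.lv b)).imp (fun l => ⟨k.1, l⟩) fun l => ⟨l, k.2⟩

theorem conf_pos_ρ (b : Fin n × Bool) :
    P.conf.star (.inl (P.ρO b)) ⊆ Co.cl b '' Ioo 0 (13 / 16) := by
  obtain ⟨u, -, h2, h3, -⟩ := P.conf_star_ρ b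
  have h4 := P.lv_lt b
  have h5 := P.gout_pos (P.bc b)
  rw [h3]
  exact image_mono fun t ht => ⟨ht.1, by linarith [ht.2]⟩

theorem conf_far (h : P.conf.Far (.inl a) (.inl a')) : P.C.Far a.1 a'.1 :=
  ⟨fun e => h.1 (congrArg _ (Subtype.ext e)), fun s e => h.2.1 s (P.nb_eq_inl.2 e),
    fun s s' e => h.2.2 s s' (P.ge_inj (by rw [P.ge_nb, P.ge_nb, e]))⟩

theorem sep_ρ {D : ℝ} (h₂ : D ≤ 1 / 16)
    (h₃ : ∀ b b', Co.ζ b < Co.ζ b' → Co.ζ b + D < Co.ζ b') (h : P.C.Far (P.ρ b) a.1) :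
    GoutSep D (P.conf.star (.inl (P.ρO b))) (P.conf.star (.inl a)) := by
  have h0 : ∀ b, P.conf.star (.inl (P.ρO b)) ⊆ Co.cl b '' Ioi 0 := fun b =>
    (P.conf_pos_ρ b).trans (image_mono Ioo_subset_Ioi_self)
  by_cases ha : ∃ b', a = P.ρO b'
  · obtain ⟨b', rfl⟩ := ha
    exact (gout_cl_cl h₃ fun e => h.1 (congrArg P.ρ e)).mono (h0 b) (h0 b')
  push Not at ha
  rw [P.conf_star ha]
  rcases P.gout_far a.2 (P.ne_ρ ha) with k | ⟨b', k⟩
  · exact (gout_cl_far h₂ b k).mono (P.conf_pos_ρ b) Subset.rfl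
  by_cases e : b = b'
  · subst e
    obtain ⟨u, -, -, h4, h5⟩ := P.conf_star_ρ b
    rw [h4]
    refine (gout_cl_same D b u).mono (image_mono Ioc_subset_Iic_self) fun q hq => ?_
    obtain ⟨t, ht, rfl⟩ := k hq
    refine ⟨t, mem_Ioi.2 (not_le.1 fun l => ?_), rfl⟩
    have h6 := h5 ⟨t, ⟨ht.1, l⟩, rfl⟩
    obtain ⟨i, h7 | h7⟩ := P.valid.sep _ _ h
    · exact lt_irrefl _ (h7 _ h6 _ hq)
    · exact lt_irrefl _ (h7 _ hq _ h6)
  · have h1 := (P.gout_lv b').2.1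
    exact (gout_cl_cl h₃ e).mono (h0 b)
      (k.trans (image_mono fun t ht => mem_Ioi.2 (by linarith [ht.1])))

theorem conf_sep {D : ℝ} (h₁ : ∀ a a', P.C.Far a a' → GoutSep D (P.C.star a) (P.C.star a'))
    (h₂ : D ≤ 1 / 16) (h₃ : ∀ b b', Co.ζ b < Co.ζ b' → Co.ζ b + D < Co.ζ b')
    (h : P.conf.Far (.inl a) (.inl a')) :
    GoutSep D (P.conf.star (.inl a)) (P.conf.star (.inl a')) := by
  have hf := P.conf_far h
  by_cases ha : ∃ b, a = P.ρO b
  · obtain ⟨b, rfl⟩ := ha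
    exact P.sep_ρ h₂ h₃ hf
  by_cases ha' : ∃ b, a' = P.ρO b
  · obtain ⟨b, rfl⟩ := ha'
    exact (P.sep_ρ h₂ h₃ (hf.symm P.valid)).symm
  push Not at ha ha'
  rw [P.conf_star ha, P.conf_star ha']
  exact h₁ _ _ hf

/-- transfer of the order conditions -/
theorem conf_mono_of {i : Fin 3} (h : ∀ b, a ≠ P.ρO b)
    (hi : InjOn (fun p : E3 => p i) (P.conf.win (.inl a)))
    (lo₂ : ∀ t, P.C.nb (P.C.nb a.1 s) t ≠ a.1 →
      P.C.pt (P.C.nb (P.C.nb a.1 s) t) i < P.C.pt (P.C.nb a.1 s) i)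
    (lo₁ : P.C.pt (P.C.nb a.1 s) i < P.C.pt a.1 i)
    (hi₁ : P.C.pt a.1 i < P.C.pt (P.C.nb a.1 (!s)) i)
    (hi₂ : ∀ t, P.C.nb (P.C.nb a.1 (!s)) t ≠ a.1 →
      P.C.pt (P.C.nb a.1 (!s)) i < P.C.pt (P.C.nb (P.C.nb a.1 (!s)) t) i) :
    P.conf.Mono i (.inl a) s := by
  have e₁ := P.nb_of_isO (P.isO_nb a.2 (P.ne_ρ h) s)
  have e₂ := P.nb_of_isO (P.isO_nb a.2 (P.ne_ρ h) (!s))
  refine ⟨hi, fun t ht => ?_, ?_, ?_, fun t ht => ?_⟩
  · rw [e₁] at ht ⊢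
    change P.C.pt (P.ge _) i < _
    rw [P.ge_nb]
    exact lo₂ t fun e => ht (P.nb_eq_inl.2 e)
  · rw [e₁]
    exact lo₁
  · rw [e₂]
    exact hi₁
  · rw [e₂] at ht ⊢
    change _ < P.C.pt (P.ge (P.conf.nb _ t)) i
    rw [P.ge_nb]
    exact hi₂ t fun e => ht (P.nb_eq_inl.2 e)

theorem gout_other {x y : N} {s t : Bool} (h : P.C.nb x s = y) (ht : P.C.nb x t ≠ y) : t = !s := by
  cases s <;> cases t <;> simp_all

theorem conf_mono (h : ∀ b, a ≠ P.ρO b) : ∃ i s, i ≠ 2 ∧ P.conf.Mono i (.inl a) s := by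
  by_cases hn : ∃ s b, P.C.nb a.1 s = P.ρ b
  · obtain ⟨s, b, hs⟩ := hn
    obtain ⟨l1, l2, l3⟩ := P.gout_lv b
    have l4 := P.lv_lt b
    have l5 := P.gout_pos a.1
    have l6 := P.tb_lt b
    obtain ⟨u, h1, h2, h3, -⟩ := P.exists_tm b
    have h4 : P.C.nb (P.ρ b) (!P.sd b) = a.1 := by
      obtain ⟨s', hs'⟩ := P.valid.adj_symm a.1 s
      rw [hs] at hs'
      rw [← hs', P.gout_other (P.nb_sd b) (t := s') fun e => P.not_isO_bc b (e ▸ hs' ▸ a.2)]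
    rw [h4] at h3
    obtain ⟨h5, -, h6⟩ := P.gout_trap' (h3 ▸ P.valid.pt_mem_star a.1) h1.le (by linarith)
    obtain ⟨u₂, h7, h8⟩ := h6 _ (P.valid.nb_mem_star a.1 (!s))
    have h9 : u < u₂ := P.gout_step h5 h3 (hs ▸ P.pt_ρ b) h8 h1
    have h10 := (abs_lt.1 h7).2
    obtain ⟨h11, -, h12⟩ := P.gout_trap' (h8 ▸ P.valid.pt_mem_star _) (h1.trans h9).le
      (by linarith)
    have hlo : ∀ t, P.C.nb (P.C.nb a.1 s) t ≠ a.1 →
        P.C.pt (P.C.nb (P.C.nb a.1 s) t) = Co.cl b (P.tb b) := by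
      intro t ht
      rw [hs] at ht ⊢
      rw [P.gout_other h4 ht, Bool.not_not, P.nb_sd, P.pt_bc]
    have hhi : ∀ t, P.C.nb (P.C.nb a.1 (!s)) t ≠ a.1 →
        ∃ u₃, u₂ < u₃ ∧ P.C.pt (P.C.nb (P.C.nb a.1 (!s)) t) = Co.cl b u₃ := by
      intro t ht
      obtain ⟨s', hs'⟩ := P.valid.adj_symm a.1 (!s)
      obtain ⟨u₃, -, h13⟩ := h12 _ (P.valid.nb_mem_star _ t)
      refine ⟨u₃, P.gout_step h11 h8 (s := s') (by rw [hs', h3]) ?_ h9, h13⟩
      rw [← P.gout_other hs' ht, h13]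
    have hinj : InjOn (fun p : E3 => p 1) (P.conf.win (.inl a)) := by
      refine (gout_inj Co b).mono ?_
      have o₂ := P.isO_nb a.2 (P.ne_ρ h) (!s)
      rw [gout_win _ _ s, P.nb_eq_inl.2 (show P.C.nb a.1 s = (P.ρO b).1 from hs), P.nb_of_isO o₂,
        P.conf_star (a := ⟨_, o₂⟩)]
      · exact union_subset ((P.conf_pos_ρ b).trans (image_mono Ioo_subset_Ioi_self)) h11
      · intro b' e
        have e' : P.C.nb a.1 (!s) = P.ρ b' := congrArg Subtype.val e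
        rw [e', P.pt_ρ] at h8
        obtain ⟨rfl, h13⟩ := Collar.cl_eq (by linarith [(P.gout_lv b').2.1]) h8 (by linarith)
        linarith
    have hρ : P.C.pt (P.C.nb a.1 s) = Co.cl b (P.lv b) := hs ▸ P.pt_ρ b
    by_cases hb : b.2 = true
    · refine ⟨1, s, by decide, P.conf_mono_of h hinj (fun t ht => ?_) ?_ ?_ fun t ht => ?_⟩
      · rw [hlo t ht, hρ]
        simpa [hb] using l6
      · rw [hρ, h3]
        simpa [hb] using h1
      · rw [h3, h8]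
        simpa [hb] using h9
      · obtain ⟨u₃, k, e⟩ := hhi t ht
        rw [h8, e]
        simpa [hb] using k
    · refine ⟨1, !s, by decide, P.conf_mono_of h hinj (fun t ht => ?_) ?_ ?_ fun t ht => ?_⟩
      · obtain ⟨u₃, k, e⟩ := hhi t ht
        rw [h8, e]
        simpa [hb] using k
      · rw [h3, h8]
        simpa [hb] using h9
      · rw [Bool.not_not, hρ, h3]
        simpa [hb] using h1
      · rw [Bool.not_not] at ht ⊢
        rw [hlo t ht, hρ]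
        simpa [hb] using l6
  · push Not at hn
    obtain ⟨i, s, hi, hm⟩ := P.valid.mono a.1
    refine ⟨i, s, hi rfl, P.conf_mono_of h ?_ hm.lo₂ hm.lo₁ hm.hi₁ hm.hi₂⟩
    have k : ∀ s, P.conf.star (P.conf.nb (.inl a) s) = P.C.star (P.C.nb a.1 s) := fun s => by
      have o := P.isO_nb a.2 (P.ne_ρ h) s
      rw [P.nb_of_isO o, P.conf_star (a := ⟨_, o⟩) fun b e => hn s b (congrArg Subtype.val e)]
    unfold Conf.win
    rw [k, k]
    exact hm.inj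

theorem conf_pos_nb (b : Fin n × Bool) :
    P.conf.star (P.conf.nb (.inl (P.ρO b)) (!P.sd b)) ⊆ Co.cl b '' Icc (P.lv b) 1 := by
  obtain ⟨u, h1, h2, h3, -⟩ := P.exists_tm b
  have o := P.isO_of_cl h3 h1.le
  have hne : ∀ b', (⟨_, o⟩ : P.GO) ≠ P.ρO b' := P.ne_ρ_of_col (by
    change P.C.col (P.C.nb _ _) = true
    rw [P.valid.col_nb, P.col_ρ]
    rfl)
  have l4 := P.lv_lt b
  have l5 := P.gout_pos (P.bc b)
  rw [P.nb_of_isO (a := P.ρO b) o]
  exact (P.conf_star hne).le.trans (P.star_cl o (P.ne_ρ hne) h3 h1.le (by linarith))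

theorem conf_ex {y : Option ι × E3} : (∃ a s a', P.conf.nb (.inl a) s = .inl a' ∧
    y.2 ∈ P.conf.arc (.inl a) (.inl a') ∧ y.1 = P.lb a.1) ↔
    ∃ a s, P.IsO a ∧ P.IsO (P.C.nb a s) ∧ y.2 ∈ P.C.arc a (P.C.nb a s) ∧ y.1 = P.lb a := by
  constructor
  · rintro ⟨a, s, a', h1, h2, h3⟩
    have e := P.nb_eq_inl.1 h1
    exact ⟨a.1, s, a.2, e ▸ a'.2, e ▸ h2, h3⟩
  · rintro ⟨a, s, h1, h2, h3, h4⟩
    exact ⟨⟨a, h1⟩, s, ⟨_, h2⟩, P.nb_eq_inl.2 rfl, h3, h4⟩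

end Pre

theorem Pre.outer [Fintype N] (P : Pre Co A d η N) {d' : ℝ} (h₁ : d' ≤ d) (h₂ : d' ≤ 1 / 16)
    (h₃ : ∀ b b', Co.ζ b < Co.ζ b' → Co.ζ b + d' < Co.ζ b') :
    ∃ (O : Type) (_ : Fintype O) (Ou : Outer Co A O), Ou.Fine d' η := by
  classical
  obtain ⟨X₁, X₂, nX, mX, sX, lX, gX⟩ := gout_split
    (fun a : P.GO => P.conf.col (.inl a) = true) (fun a => P.conf.pt (.inl a) 0) (25 / 32)
  obtain ⟨Y₁, Y₂, nY, mY, sY, lY, gY⟩ := gout_split
    (fun a : P.GO => P.conf.col (.inl a) = false) (fun a => P.conf.pt (.inl a) 1) 0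
  have hfar : ∀ a : P.GO, (∀ b, a ≠ P.ρO b) →
      (∃ i, (∀ p ∈ P.conf.star (.inl a), p i < -53 / 64) ∨
        ∀ p ∈ P.conf.star (.inl a), 53 / 64 < p i) ∨
      ∃ b, P.conf.star (.inl a) ⊆ Co.cl b '' Icc (P.lv b) 1 := fun a h => by
    rw [P.conf_star h]
    exact P.gout_far a.2 (P.ne_ρ h)
  refine ⟨P.GO, inferInstance,
    { C := P.conf, ρ := P.ρO, sd := P.sd, lv := P.lv, lb := fun a => P.lb a.1
      X₁ := X₁, X₂ := X₂, Y₁ := Y₁, Y₂ := Y₂
      lv_gt := fun b => (P.gout_lv b).2.1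
      lv_lt := fun b => (P.gout_lv b).2.2
      stagger := fun k k' σ h _ => P.stagger k k' σ h
      col_inr := P.col_bc
      nb_inr := fun _ _ => rfl
      nb_eq_inr := fun _ _ _ => P.nb_eq_inr
      ρ_inj := fun _ _ h => P.ρ_inj (congrArg Subtype.val h)
      col_nb := fun a s => (congrArg P.C.col (P.ge_nb a s)).trans (P.valid.col_nb a.1 s)
      nb_ne := fun a h => P.valid.nb_ne a.1 (by rw [← P.ge_nb, ← P.ge_nb, h])
      adj_symm := fun a s => ?_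
      pt_ρ := P.pt_ρ
      arc_ρ := fun _ => rfl
      arc_symm := fun a s => ?_
      isArc := fun a s a' h => ?_
      sep := fun a a' h => (P.conf_sep (fun a a' k => gout_of_sep (P.valid.sep a a' k))
        (by norm_num) (fun _ _ k => by simpa using k) h).sep
      mono := fun a h => P.conf_mono h
      pos := fun a h => (hfar a h).imp_left ?_
      pos_ρ := P.conf_pos_ρ
      pos_nb := P.conf_pos_nb
      lb_nb := fun a s a' h => by rw [← P.nb_eq_inl.1 h, P.lb_nb]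
      lb_ρ := fun b => (P.trap_ρ b).2.1
      out := fun y hy => ?_
      ins := fun y hy => ?_
      nodupX := nX, nodupY := nY, memX := mX, memY := mY, sortX := sX, sortY := sY
      ltX₁ := lX, leX₂ := gX, ltY₁ := lY, leY₂ := gY }, fun a a' h => ?_, fun a p hp q hq => ?_,
    hfar⟩
  · rcases h : P.conf.nb (.inl a) s with a' | b
    · obtain ⟨s', hs'⟩ := P.valid.adj_symm a.1 s
      rw [P.nb_eq_inl.1 h] at hs'
      exact ⟨s', P.nb_eq_inl.2 hs'⟩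
    · exact ⟨false, congrArg _ (P.nb_eq_inr.1 h).1.symm⟩
  · rcases h : P.conf.nb (.inl a) s with a' | b
    · have := P.valid.arc_symm a.1 s
      rw [P.nb_eq_inl.1 h] at this
      exact this
    · rfl
  · have := P.valid.isArc a.1 s
    rw [P.nb_eq_inl.1 h] at this
    exact this
  · rintro ⟨i, k | k⟩
    · exact ⟨i, .inl fun p hp => by linarith [k p hp]⟩
    · exact ⟨i, .inr fun p hp => by linarith [k p hp]⟩
  · rw [P.conf_ex, P.out]
    constructor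
    · rintro ⟨a, h1, h2⟩
      obtain ⟨s, hs⟩ := Conf.GCArc_star h1
      obtain ⟨i, hi⟩ : ∃ i, 27 / 32 ≤ |y.2 i| := by
        by_contra hn
        push Not at hn
        exact hy fun i => (hn i).trans (by norm_num)
      exact ⟨a, s, P.isO_of_far h1 hi, P.isO_of_far (P.valid.arc_subset_star_nb a s hs) hi, hs, h2⟩
    · rintro ⟨a, s, -, -, h1, h2⟩
      exact ⟨a, P.C.arc_subset_star a s h1, h2⟩
  · rw [P.conf_ex]
    constructor
    · rintro ⟨a, s, h1, h2, h3, h4⟩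
      by_cases ha : ∀ b, a ≠ P.ρ b
      · obtain ⟨b, t, k1, k2, k3⟩ := P.gout_ins h1 ha (P.C.arc_subset_star a s h3) hy
        exact ⟨b, t, k1, k2, h4.trans k3⟩
      · push Not at ha
        obtain ⟨b', rfl⟩ := ha
        obtain ⟨b, t, k1, k2, k3⟩ := P.gout_ins h2 (fun b e => by
          have := P.valid.col_nb (P.ρ b') s
          rw [e, P.col_ρ, P.col_ρ] at this
          exact absurd this (by decide)) (P.valid.arc_subset_star_nb _ s h3) hy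
        exact ⟨b, t, k1, k2, h4.trans ((P.lb_nb _ s).symm.trans k3)⟩
    · rintro ⟨b, t, k1, k2, k3⟩
      rw [k2] at hy
      obtain ⟨a, s, h1, h2, h3, h4⟩ := P.gout_cover k1 hy
      exact ⟨a, s, h1, h2, k2 ▸ h3, k3.trans h4⟩
  · refine P.conf_sep (fun a a' k => ?_) h₂ h₃ h
    rcases P.margin a a' k with l | l | l
    · exact .inl l
    · exact .inr (.inl fun p hp q hq => by linarith [l p hp q hq])
    · exact .inr (.inr fun p hp q hq => by linarith [l p hp q hq])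
  · by_cases ha : ∃ b, a = P.ρO b
    · obtain ⟨b, rfl⟩ := ha
      obtain ⟨t, -, rfl⟩ := P.conf_pos_ρ b hp
      obtain ⟨t', -, rfl⟩ := P.conf_pos_ρ b hq
      simpa using P.gout_pos (P.bc b)
    · push Not at ha
      exact P.gout_near ((P.conf_star ha).le hp) ((P.conf_star ha).le hq) 2

theorem exists_outer (Ct : Content Co I) {T : LS ι} (hT : IsLL T) (hv : Vertical T)
    (hi : Std (7 / 8) T Ct.pic) : ∃ d > 0, ∀ᶠ η in 𝓝[>] (0 : ℝ),
      ∃ (O : Type) (_ : Fintype O) (Ou : Outer Co (picOf T) O), Ou.Fine d η := by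
  obtain ⟨d, hd, h⟩ := exists_pre Ct hT hv hi
  obtain ⟨g, hg, hg'⟩ := GCSmall_min (κ := (Fin n × Bool) × Fin n × Bool)
    (ρ := fun z => if Co.ζ z.1 < Co.ζ z.2 then Co.ζ z.2 - Co.ζ z.1 else 1) fun z => by
      split_ifs with k
      · exact sub_pos.2 k
      · exact one_pos
  refine ⟨min d (min (1 / 16) g), by positivity, h.mono ?_⟩
  rintro η ⟨N, _, ⟨P⟩⟩
  refine P.outer (min_le_left _ _) ((min_le_right _ _).trans (min_le_left _ _)) fun b b' k => ?_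
  have h1 := hg' (b, b')
  have h2 : min d (min (1 / 16) g) ≤ g := (min_le_right _ _).trans (min_le_right _ _)
  simp only [if_pos k] at h1
  linarith

end Pool.Agent.P.MP_ac4909_gt.B
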