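import Pool.Agent.P.MP_ac4909_gt.B.GB_Core0
import Pool.Agent.P.MP_ac4909_gt.B.GB_Out
import Pool.Agent.P.MP_ac4909_gt.B.GB_Norm

/-! Layer G, blocks: the value of a link as a function of the content of the block. -/

namespace Pool.Agent.P.MP_ac4909_gt.B

open scoped ContDiff
open Set Filter Topology

variable {ι I O κ P : Type} {n : ℕ} {Co : Collar n ι} {A : Pic ι}

theorem gcore_std {T : LS ι} {Ct : Content Co I} (hi : Std (7 / 8) T A)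
    (h : ∀ y : Option ι × E3, y.2 ∈ Qb (9 / 8) → (y ∈ Ct.pic ↔ y ∈ A)) :
    Std (7 / 8) T Ct.pic :=
  hi.congr fun y hy => (h y fun i => (hy i).trans (by norm_num)).symm

theorem gcore_out {T T' : LS ι} (h : SOut (7 / 8) T' = SOut (7 / 8) T) (y : Option ι × E3)
    (hy : y.2 ∉ Qb (7 / 8)) : y ∈ picOf T' ↔ y ∈ picOf T := by
  have := Set.ext_iff.1 h (y.1, y.2, ez)
  simp only [SOut, mem_ofPred_eq, hy, not_false_eq_true, and_true] at this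
  exact this

/-- the outer words of two gluings with the same outer part agree -/
theorem gcore_congr {I' : Type} [DecidableEq O] [DecidableEq I] [DecidableEq I']
    (Ou : Outer Co A O) (Ct : Content Co I) (Ct' : Content Co I') :
    (Ou.glueN Ct').evs (Ou.glueRz Ct') (Ou.glueRz Ct').X (Ou.Y₁.map .inl) =
        (Ou.glueN Ct).evs (Ou.glueRz Ct) (Ou.glueRz Ct).X (Ou.Y₁.map .inl) ∧
      (Ou.glueN Ct').evs (Ou.glueRz Ct') (Ou.glueRz Ct').X (Ou.Y₂.map .inl) =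
        (Ou.glueN Ct).evs (Ou.glueRz Ct) (Ou.glueRz Ct).X (Ou.Y₂.map .inl) ∧
      (Ou.glueN Ct').rowAt (Ou.Y₁.map .inl) (Ou.X₁.map .inl) =
        (Ou.glueN Ct).rowAt (Ou.Y₁.map .inl) (Ou.X₁.map .inl) ∧
      (Ou.glueN Ct').rowAt (Ou.Y₁.map .inl) (Ou.X₂.map .inl) =
        (Ou.glueN Ct).rowAt (Ou.Y₁.map .inl) (Ou.X₂.map .inl) := by
  refine Blk.congr (Ou.glue_blk Ct (Ou.glueN_ok Ct)) (Ou.glue_blk Ct' (Ou.glueN_ok Ct'))
    (fun v hv s => ?_) (fun _ => rfl) (fun _ _ => Iff.rfl) fun e b => ?_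
  · have hc := (Ou.memX v).1 hv
    obtain ⟨e, he⟩ := Ou.nb_inl (a := v) (fun b hb => by
      rw [hb, Ou.col_ρ] at hc
      exact Bool.false_ne_true hc) s
    exact ⟨e, Ou.glue_nb_out Ct he, Ou.glue_nb_out Ct' he, rfl⟩
  · change Ou.C.pt (.inl e) 2 < Ct.C.pt (.inl (Ct.bc b)) 2 ↔
      Ou.C.pt (.inl e) 2 < Ct'.C.pt (.inl (Ct'.bc b)) 2
    rw [Ct.pt_bc, Ct'.pt_bc, Collar.cl_two, Collar.cl_two]

theorem block_core {T : LS ι} (hT : IsLL T) (hv : Vertical T) (hi : Std (7 / 8) T A)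
    {w : List (Sl (Nm ι))} (hc : HasContent Co A w) :
    ∃ W₁ W₂ l r, Run [] W₁ (l ++ List.ofFn (fun k => (⟨Co.lab (k, false)⟩ : Nm ι)) ++ r) ∧
      ∀ T' A' w', IsLL T' → Vertical T' → SOut (7 / 8) T' = SOut (7 / 8) T → Std (7 / 8) T' A' →
        HasContent Co A' w' → ∀ (E : EvSys ι P) p,
          zv E T' p = E.ev p (W₁ ++ w'.map (pad l r) ++ W₂) := by
  classical
  obtain ⟨J, _, _, Ct, hp, -⟩ := hc
  obtain ⟨d, -, hd⟩ := exists_outer Ct hT hv (gcore_std hi hp)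
  obtain ⟨η, U, _, Ou, -⟩ := hd.exists
  refine ⟨(Ou.glueN Ct).evs (Ou.glueRz Ct) (Ou.glueRz Ct).X (Ou.Y₁.map .inl),
    (Ou.glueN Ct).evs (Ou.glueRz Ct) (Ou.glueRz Ct).X (Ou.Y₂.map .inl),
    (Ou.glueN Ct).rowAt (Ou.Y₁.map .inl) (Ou.X₁.map .inl),
    (Ou.glueN Ct).rowAt (Ou.Y₁.map .inl) (Ou.X₂.map .inl), ?_, ?_⟩
  · have h := (Ou.glue_blk Ct (Ou.glueN_ok Ct)).run_lo
    have e : (fun k : Fin n => (⟨Co.lab (k, false)⟩ : Nm ι)) =
        fun k => (Ou.glueN Ct).dl (.inl (Ou.ρ (k, false))) (.inr (Ct.bc (k, false))) := by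
      funext k
      rw [← Ou.lb_ρ]
      rfl
    rw [e]
    exact h
  · rintro T' A' w' hT' hv' ho hi' ⟨J', _, _, Ct', hp', rfl⟩ E p
    obtain ⟨h₁, h₂, h₃, h₄⟩ := gcore_congr Ou Ct Ct'
    rw [Ou.zv_glue Ct' E hT' hv' (gcore_out ho) (gcore_std hi' hp') p, ← h₁, ← h₂, ← h₃, ← h₄,
      ← Ou.evs_in Ct']
    exact congrArg (E.ev p) (Ou.glue_blk Ct' (Ou.glueN_ok Ct')).word

theorem block {ψ : E3 → E3} (hψ : PosOn ψ (Qb (9 / 8))) {S : LS ι} (hS : IsLL S)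
    (h : GIns ψ S A) {w : List (Sl (Nm ι))} (hc : HasContent Co A w) :
    ∃ W₁ W₂ l r, Run [] W₁ (l ++ List.ofFn (fun k => (⟨Co.lab (k, false)⟩ : Nm ι)) ++ r) ∧
      ∀ S' A' w', IsLL S' → GOut ψ S' = GOut ψ S → GIns ψ S' A' → HasContent Co A' w' →
        ∀ (E : EvSys ι P) p, zv E S' p = E.ev p (W₁ ++ w'.map (pad l r) ++ W₂) := by
  obtain ⟨U, hU⟩ := normalise hψ hS h
  obtain ⟨T, hST, hv, hi, ho⟩ := hU S A hS rfl h fun _ _ _ => Iff.rfl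
  obtain ⟨W₁, W₂, l, r, hr, H⟩ := block_core (P := P) (hST.isLL hS) hv hi hc
  refine ⟨W₁, W₂, l, r, hr, fun S' A' w' hS' ho' h' hc' E p => ?_⟩
  obtain ⟨T', hST', hv', hi', ho''⟩ := hU S' A' hS' ho' h' fun y hy hy' => by
    refine hc.agree hc' hy ?_
    simp only [Qb, mem_ofPred_eq, not_forall, not_lt] at hy'
    obtain ⟨i, hi⟩ := hy'
    exact ⟨i, lt_of_lt_of_le (by norm_num) hi⟩
  rw [hST'.zv_eq E]
  exact H T' A' w' (hST'.isLL hS') hv' (ho''.trans ho.symm) hi' hc' E p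

theorem gcore_fg (ℓ : κ → Option ι) : fg ∘ lbA ℓ = lbN ℓ := by
  funext a
  simp only [Function.comp, fg, lbA, lbN, Option.map_map]
  cases ℓ a.name <;> rfl

theorem exists_diagram' (E : EvSys ι P) {S : LS ι} (hS : IsPL S) (h : ∀ x ∈ S, x.1 ≠ none) :
    ∃ L : List (Sl (Arc ι)), IsFramedLink L ∧
      ∀ p, zv E S p = E.ev p ((lift L).map (Sl.map fg)) := by
  obtain ⟨T, hST, hv⟩ := hS.isLL.exists_vertical
  obtain ⟨K, _, L, ℓ, hL, rfl, hℓ⟩ := hST.isPL hS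
  have hν : ∀ c t, L.ν c t = ez := fun c t => hv _ ⟨c, t, rfl⟩
  have hn : ∀ c, ℓ c ≠ none := fun c => by
    have : ℓ c ∈ Prod.fst '' S := by
      rw [hST.labels]
      exact ⟨_, ⟨c, 0, rfl⟩, rfl⟩
    obtain ⟨x, hx, e⟩ := this
    exact e ▸ h x hx
  obtain ⟨d, -, hd⟩ := exists_fine hL.isU (hL.nonVert hν)
  obtain ⟨r, -, hr⟩ := hd Empty Empty.elim Empty.elim (fun b => b.elim) 1 one_pos
  obtain ⟨N, _, C, -, -, hC, hs, -⟩ := hr Empty.elim fun b => b.elim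
  obtain ⟨w, hw⟩ := hC.hasWord hL.isU hs
  refine ⟨_, isFramedLink_erase (hw.isFramedLink hL.isU) ℓ hℓ, fun p => ?_⟩
  rw [hST.zv_eq E, zv_vertical E hL hν ℓ hw p, lift_erase w ℓ hn, GCVal_map_map, gcore_fg]

end Pool.Agent.P.MP_ac4909_gt.B
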