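import Pool.Agent.P.MP_ac4909_gt.B.GBDefs

/-! Layer G, blocks: words of grids with a block. -/

namespace Pool.Agent.P.MP_ac4909_gt.B

open scoped ContDiff
open Set Filter Topology

variable {N N' O α β ι : Type} [DecidableEq N] [DecidableEq N'] {n : ℕ}

/-- cells only depend on the neighbours, their order, the labels and the heights -/
theorem cell_congr₀ {G : Grid N α} {G' : Grid N' α} {R : Rz N} {R' : Rz N'} {e v : N} {e' v' : N'}
    (hnb : ∀ s, G.nb v s = e ↔ G'.nb v' s = e')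
    (hlo : ∀ s, R.ltY (G.nb v s) e ↔ R'.ltY (G'.nb v' s) e')
    (hhi : ∀ s, R.ltY e (G.nb v s) ↔ R'.ltY e' (G'.nb v' s))
    (h₁ : (∃ s, G.nb v s = e) → G'.dl e' v' = G.dl e v ∧ G'.dl v' e' = G.dl v e)
    (h₂ : ∀ s, G'.dl (G'.nb v' s) v' = G.dl (G.nb v s) v)
    (hz : R.z e < R.z v ↔ R'.z e' < R'.z v') : G'.cell R' e' v' = G.cell R e v := by
  unfold Grid.cell
  by_cases a : G.nb v false = e
  · rw [if_pos a, if_pos ((hnb false).1 a), (h₁ ⟨_, a⟩).1, (h₁ ⟨_, a⟩).2,
      if_congr (hhi true) rfl rfl]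
  · rw [if_neg a, if_neg fun h => a ((hnb false).2 h)]
    by_cases b : G.nb v true = e
    · rw [if_pos b, if_pos ((hnb true).1 b), (h₁ ⟨_, b⟩).1, (h₁ ⟨_, b⟩).2,
        if_congr (hhi false) rfl rfl]
    · rw [if_neg b, if_neg fun h => b ((hnb true).2 h), h₂, h₂, decide_eq_decide.2 hz,
        if_congr (and_congr (hlo false) (hhi true)) rfl
          (if_congr (and_congr (hlo true) (hhi false)) rfl rfl)]

theorem encW_pad (l r ρ : List (Nm ι)) : (encW [] ρ []).map (pad l r) = encW l ρ r := by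
  have h1 := WEvs_crossR_pad l r Nm.no [] [Nm.no] (ρ.map fun x => (x, false))
  have h2 := WEvs_crossL_pad l r Nm.no [] [Nm.no] (ρ.map fun x => (x, true))
  rw [List.nil_append] at h1 h2
  simp only [encW, List.nil_append, List.map_append, List.map_cons, List.map_nil, h1, h2, pad,
    List.append_nil]

theorem eW_pad (l r : List (Nm ι)) (m : ℕ) (w : List ℕ) :
    (eW [] m [] w).map (pad l r) = eW l m r w := by
  simp only [eW, List.map_flatMap, List.map_cons, List.map_nil, pad, List.nil_append,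
    List.append_nil]

theorem gblk_split (p : Cell α → Bool) (hp₁ : ∀ a u, p (.fin a u) = true)
    (hp₂ : ∀ a o, p (.thru a o) = false) (m : ℕ) (cs : List (Cell α))
    (h : (cs.filter p).length = m + 1) :
    ∃ (L : List (α × Bool)) (a : α) (u : Bool) (cs' : List (Cell α)),
      cs = L.map (fun x => Cell.thru x.1 x.2) ++ Cell.fin a u :: cs' ∧
        (cs'.filter p).length = m := by
  induction cs with
  | nil => simp at h
  | cons c cs ih =>
    cases c with
    | thru x o =>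
      rw [List.filter_cons_of_neg (by simp [hp₂])] at h
      obtain ⟨L, a, u, cs', h1, h2⟩ := ih h
      exact ⟨(x, o) :: L, a, u, cs', by rw [h1]; rfl, h2⟩
    | fin a u =>
      rw [List.filter_cons_of_pos (hp₁ a u), List.length_cons] at h
      exact ⟨[], a, u, cs, rfl, Nat.succ.inj h⟩

theorem evOf_pad (L R : List (α × Bool)) (cs : List (Cell α))
    (h : (cs.filter fun c => match c with | .fin _ _ => true | .thru _ _ => false).length = 2) :
    evOf (L.map (fun x => Cell.thru x.1 x.2) ++ cs ++ R.map fun x => Cell.thru x.1 x.2) =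
      (evOf cs).map (pad (L.map Prod.fst) (R.map Prod.fst)) := by
  obtain ⟨L', a, u, cs', rfl, h1⟩ := gblk_split _ (fun _ _ => rfl) (fun _ _ => rfl) 1 cs h
  obtain ⟨M, b, u', cs'', rfl, h2⟩ := gblk_split _ (fun _ _ => rfl) (fun _ _ => rfl) 0 cs' h1
  obtain ⟨R', rfl⟩ := WEvs_exists_thru (cs := cs'') fun c hc => by
    cases c with
    | thru x o => exact ⟨x, o, rfl⟩
    | fin x o =>
      exact absurd (List.filter_eq_nil_iff.1 (List.length_eq_zero_iff.1 h2) _ hc) (by simp)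
  have h4 := evOf_eq (L ++ L') M (R' ++ R) a b u u'
  rw [evOf_eq, ← event_pad, ← List.map_append, ← List.map_append, ← h4]
  simp

theorem gblk_filterMap_sub {γ δ : Type} {l l' : List γ} (f : γ → Option δ) (hs : l.Sublist l')
    (hn : l'.Nodup) (hf : ∀ v ∈ l', v ∉ l → f v = none) : l'.filterMap f = l.filterMap f := by
  induction hs with
  | slnil => rfl
  | cons a hs ih =>
    obtain ⟨h1, h2⟩ := List.nodup_cons.1 hn
    rw [List.filterMap_cons_none (hf a List.mem_cons_self fun h => h1 (hs.subset h))]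
    exact ih h2 fun v hv => hf v (List.mem_cons_of_mem _ hv)
  | cons_cons a hs ih =>
    obtain ⟨h1, h2⟩ := List.nodup_cons.1 hn
    rw [List.filterMap_cons, List.filterMap_cons, ih h2 fun v hv hv' =>
      hf v (List.mem_cons_of_mem _ hv) fun h => (List.mem_cons.1 h).elim
        (fun h3 => h1 (h3 ▸ hv)) hv']

variable [Rev α] [Rev β] {G : Grid N α} {R : Rz N} {φ : O → N} {X₁ X₂ Y₁ Y₂ : List O}
  {Xb Yb : List N} {ρ : Fin n × Bool → O} {bc : Fin n × Bool → N}

namespace Blk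

theorem word (h : Blk G R φ X₁ X₂ Y₁ Y₂ Xb Yb ρ bc) :
    G.word R = G.evs R R.X (Y₁.map φ) ++ (G.evs R Xb Yb).map
      (pad (G.rowAt (Y₁.map φ) (X₁.map φ)) (G.rowAt (Y₁.map φ) (X₂.map φ))) ++
      G.evs R R.X (Y₂.map φ) := by
  rw [← Grid.evs_block h.ok h.rok h.hX h.hY, Grid.word, h.hY, Grid.evs_append, Grid.evs_append]
  · intro e he s
    have h1 : G.col e = false := (h.rok.memY e).1 (by rw [h.hY]; simp [he])
    have h2 : G.nb e s ∈ R.X := (h.rok.memX _).2 (by rw [h.ok.col_nb, h1]; rfl)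
    obtain ⟨s', hs'⟩ := h.ok.adj_symm e s
    rw [h.hX, List.mem_append, List.mem_append] at h2
    rcases h2 with (h2 | h2) | h2
    · obtain ⟨v, hv, hv'⟩ := List.mem_map.1 h2
      exact absurd (by rw [hv', hs']; exact he) (h.outer v (List.mem_append_left _ hv) s')
    · exact h2
    · obtain ⟨v, hv, hv'⟩ := List.mem_map.1 h2
      exact absurd (by rw [hv', hs']; exact he) (h.outer v (List.mem_append_right _ hv) s')
  · intro v hv s
    rw [← List.map_append] at hv
    obtain ⟨w, hw, rfl⟩ := List.mem_map.1 hv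
    exact h.outer w hw s

omit [DecidableEq N] in
theorem gblk_nodupXb (h : Blk G R φ X₁ X₂ Y₁ Y₂ Xb Yb ρ bc) : Xb.Nodup := by
  have h3 := h.rok.nodupX
  rw [h.hX] at h3
  exact h3.of_append_left.of_append_right

omit [DecidableEq N] in
theorem gblk_disj (h : Blk G R φ X₁ X₂ Y₁ Y₂ Xb Yb ρ bc) :
    (∀ w ∈ Yb, w ∉ Y₁.map φ) ∧ (∀ w ∈ Y₂.map φ, w ∉ Y₁.map φ) ∧ ∀ w ∈ Y₂.map φ, w ∉ Yb := by
  have h3 := h.rok.nodupY
  rw [h.hY] at h3
  obtain ⟨h4, -, h5⟩ := List.nodup_append.1 h3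
  obtain ⟨-, -, h6⟩ := List.nodup_append.1 h4
  exact ⟨fun w hw hw' => h6 w hw' w hw rfl,
    fun w hw hw' => h5 w (List.mem_append_left _ hw') w hw rfl,
    fun w hw hw' => h5 w (List.mem_append_right _ hw') w hw rfl⟩

theorem rowAt_lo (h : Blk G R φ X₁ X₂ Y₁ Y₂ Xb Yb ρ bc) :
    G.rowAt (Y₁.map φ) R.X = G.rowAt (Y₁.map φ) (X₁.map φ) ++
      List.ofFn (fun k => G.dl (φ (ρ (k, false))) (bc (k, false))) ++
      G.rowAt (Y₁.map φ) (X₂.map φ) := by
  obtain ⟨d1, d2, -⟩ := h.gblk_disj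
  have key : G.rowAt (Y₁.map φ) Xb =
      List.ofFn fun k => G.dl (φ (ρ (k, false))) (bc (k, false)) := by
    rw [Grid.rowAt, gblk_filterMap_sub _ (h.sub false) h.gblk_nodupXb, List.ofFn_eq_map,
      List.ofFn_eq_map, List.filterMap_map, ← List.filterMap_eq_map (f := fun k : Fin n =>
        G.dl (φ (ρ (k, false))) (bc (k, false)))]
    · refine List.filterMap_congr fun k _ => ?_
      simp only [Function.comp_apply]
      rw [if_pos ⟨by rw [h.bc_out]; exact List.mem_map_of_mem (h.ρ_lo k), d1 _ (h.bc_in _)⟩,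
        h.bc_out]
    · intro v hv hv'
      have h1 : ∀ s, G.nb v s ∉ Y₁.map φ := by
        rcases h.inner v hv with ⟨⟨k, σ⟩, rfl⟩ | h1
        · cases σ
          · exact absurd (List.mem_ofFn.2 ⟨k, rfl⟩) hv'
          · intro s
            cases s
            · rw [h.bc_out]
              exact d2 _ (List.mem_map_of_mem (h.ρ_hi k))
            · exact d1 _ (h.bc_in _)
        · exact fun s => d1 _ (h1 s)
      rw [if_neg fun h2 => h1 _ h2.1, if_neg fun h2 => h1 _ h2.1]
  rw [← key, h.hX]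
  simp only [Grid.rowAt, List.filterMap_append]

theorem run_lo (h : Blk G R φ X₁ X₂ Y₁ Y₂ Xb Yb ρ bc) :
    Run [] (G.evs R R.X (Y₁.map φ)) (G.rowAt (Y₁.map φ) (X₁.map φ) ++
      List.ofFn (fun k => G.dl (φ (ρ (k, false))) (bc (k, false))) ++
      G.rowAt (Y₁.map φ) (X₂.map φ)) := by
  have h1 := Grid.run_evs h.ok h.rok (Y₁ := []) (Y₂ := Y₁.map φ) (Y₃ := Yb ++ Y₂.map φ)
    (by rw [h.hY, List.nil_append, List.append_assoc])
  rwa [Grid.rowAt_nil, List.nil_append, h.rowAt_lo] at h1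

omit [DecidableEq N] in
theorem map (h : Blk G R φ X₁ X₂ Y₁ Y₂ Xb Yb ρ bc) (f : α → β)
    (hf : ∀ x, f (Rev.rev x) = Rev.rev (f x)) : Blk (G.map f) R φ X₁ X₂ Y₁ Y₂ Xb Yb ρ bc :=
  ⟨h.ok.map f hf, h.rok, h.inj, h.hX, h.hY, h.outer, h.bc_out, h.bc_in, h.ρ_lo, h.ρ_hi, h.inner,
    h.sub⟩

theorem gblk_idx [DecidableEq O] (h : Blk G R φ X₁ X₂ Y₁ Y₂ Xb Yb ρ bc) :
    (∀ a ∈ Y₁, R.Y.idxOf (φ a) = Y₁.idxOf a ∧ Y₁.idxOf a < Y₁.length) ∧
    (∀ w ∈ Yb, Y₁.length ≤ R.Y.idxOf w ∧ R.Y.idxOf w < Y₁.length + Yb.length) ∧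
    ∀ a ∈ Y₂, R.Y.idxOf (φ a) = Y₁.length + Yb.length + Y₂.idxOf a := by
  obtain ⟨d1, d2, d3⟩ := h.gblk_disj
  refine ⟨fun a ha => ⟨?_, List.idxOf_lt_length_of_mem ha⟩, fun w hw => ?_, fun a ha => ?_⟩
  · rw [h.hY, List.append_assoc, List.idxOf_append_of_mem (List.mem_map_of_mem ha),
      Grid.evb_idxOf_map h.inj]
  · have h1 := List.idxOf_lt_length_of_mem hw
    rw [h.hY, List.idxOf_append_of_mem (List.mem_append_right _ hw),
      List.idxOf_append_of_notMem (d1 w hw), List.length_map]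
    omega
  · have h1 := List.mem_map_of_mem (f := φ) ha
    rw [h.hY, List.idxOf_append_of_notMem fun h2 => (List.mem_append.1 h2).elim (d2 _ h1) (d3 _ h1),
      Grid.evb_idxOf_map h.inj, List.length_append, List.length_map]

omit [DecidableEq N] in
theorem gblk_outer_row (h : Blk G R φ X₁ X₂ Y₁ Y₂ Xb Yb ρ bc) {v : O} (hv : v ∈ X₁ ++ X₂)
    {s : Bool} {e : O} (he : G.nb (φ v) s = φ e) : e ∈ Y₁ ∨ e ∈ Y₂ := by
  have h1 : G.col (φ v) = true := (h.rok.memX _).1 (by
    rw [h.hX]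
    rcases List.mem_append.1 hv with hv | hv
    · exact List.mem_append_left _ (List.mem_append_left _ (List.mem_map_of_mem hv))
    · exact List.mem_append_right _ (List.mem_map_of_mem hv))
  have h2 : G.nb (φ v) s ∈ R.Y := (h.rok.memY _).2 (by rw [h.ok.col_nb, h1]; rfl)
  have h3 := h.outer v hv s
  rw [h.hY, List.mem_append, List.mem_append, or_iff_left h3, he,
    List.mem_map_of_injective h.inj, List.mem_map_of_injective h.inj] at h2
  exact h2

omit [DecidableEq N] in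
theorem gblk_ρ_mem (h : Blk G R φ X₁ X₂ Y₁ Y₂ Xb Yb ρ bc) (b : Fin n × Bool) :
    ρ b ∈ Y₁ ∨ ρ b ∈ Y₂ := by
  obtain ⟨k, _ | _⟩ := b
  · exact Or.inl (h.ρ_lo k)
  · exact Or.inr (h.ρ_hi k)

/-- an outer row only sees the boundary columns on its own side -/
theorem gblk_cells (h : Blk G R φ X₁ X₂ Y₁ Y₂ Xb Yb ρ bc) (σ : Bool) {e : O}
    (he : if σ then e ∈ Y₂ else e ∈ Y₁) :
    Xb.filterMap (G.cell R (φ e)) =
      (List.finRange n).filterMap fun k => G.cell R (φ e) (bc (k, σ)) := by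
  classical
  obtain ⟨i1, i2, i3⟩ := h.gblk_idx
  rw [gblk_filterMap_sub _ (h.sub σ) h.gblk_nodupXb, List.ofFn_eq_map, List.filterMap_map]
  · rfl
  · intro v hv hv'
    have key : ∀ s, if σ then R.Y.idxOf (G.nb v s) < R.Y.idxOf (φ e)
        else R.Y.idxOf (φ e) < R.Y.idxOf (G.nb v s) := by
      have hb : ∀ w ∈ Yb, if σ then R.Y.idxOf w < R.Y.idxOf (φ e)
          else R.Y.idxOf (φ e) < R.Y.idxOf w := by
        intro w hw
        have j2 := i2 w hw
        cases σ
        · have j1 := i1 e he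
          simp only [Bool.false_eq_true, if_false]
          omega
        · have j3 := i3 e he
          simp only [if_true]
          omega
      rcases h.inner v hv with ⟨⟨k, τ⟩, rfl⟩ | h1
      · intro s
        cases s
        · rw [h.bc_out]
          cases σ <;> cases τ
          · exact absurd (List.mem_ofFn.2 ⟨k, rfl⟩) hv'
          · have j1 := i1 e he
            have j3 := i3 _ (h.ρ_hi k)
            simp only [Bool.false_eq_true, if_false]
            omega
          · have j1 := i1 _ (h.ρ_lo k)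
            have j3 := i3 e he
            simp only [if_true]
            omega
          · exact absurd (List.mem_ofFn.2 ⟨k, rfl⟩) hv'
        · exact hb _ (h.bc_in _)
      · exact fun s => hb _ (h1 s)
    refine Grid.evb_cell_none R (fun s h1 => ?_) fun s h1 => ?_
    · have h2 := key s
      rw [h1] at h2
      cases σ <;> simp at h2
    · have h2 := key s
      have h3 := key (!s)
      unfold Rz.ltY at h1
      cases σ
      · simp only [Bool.false_eq_true, if_false] at h2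
        omega
      · simp only [if_true] at h3
        omega

/-- the outer rows do not see the inside of the block -/
theorem congr {G' : Grid N' α} {R' : Rz N'} {φ' : O → N'} {Xb' Yb' : List N'}
    {bc' : Fin n × Bool → N'} (h : Blk G R φ X₁ X₂ Y₁ Y₂ Xb Yb ρ bc)
    (h' : Blk G' R' φ' X₁ X₂ Y₁ Y₂ Xb' Yb' ρ bc')
    (hnb : ∀ v ∈ X₁ ++ X₂, ∀ s, ∃ e, G.nb (φ v) s = φ e ∧ G'.nb (φ' v) s = φ' e ∧
      G'.dl (φ' e) (φ' v) = G.dl (φ e) (φ v))
    (hbc : ∀ b, G'.dl (φ' (ρ b)) (bc' b) = G.dl (φ (ρ b)) (bc b))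
    (hz : ∀ e v, R.z (φ e) < R.z (φ v) ↔ R'.z (φ' e) < R'.z (φ' v))
    (hzb : ∀ e b, R.z (φ e) < R.z (bc b) ↔ R'.z (φ' e) < R'.z (bc' b)) :
    G'.evs R' R'.X (Y₁.map φ') = G.evs R R.X (Y₁.map φ) ∧
      G'.evs R' R'.X (Y₂.map φ') = G.evs R R.X (Y₂.map φ) ∧
      G'.rowAt (Y₁.map φ') (X₁.map φ') = G.rowAt (Y₁.map φ) (X₁.map φ) ∧
      G'.rowAt (Y₁.map φ') (X₂.map φ') = G.rowAt (Y₁.map φ) (X₂.map φ) := by
  classical
  obtain ⟨i1, i2, i3⟩ := h.gblk_idx
  obtain ⟨j1, j2, j3⟩ := h'.gblk_idx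
  have hlt : ∀ a b, a ∈ Y₁ ∨ a ∈ Y₂ → b ∈ Y₁ ∨ b ∈ Y₂ →
      (R.ltY (φ a) (φ b) ↔ R'.ltY (φ' a) (φ' b)) := by
    intro a b ha hb
    unfold Rz.ltY
    rcases ha with ha | ha <;> rcases hb with hb | hb
    · have := i1 a ha; have := i1 b hb; have := j1 a ha; have := j1 b hb; omega
    · have := i1 a ha; have := i3 b hb; have := j1 a ha; have := j3 b hb; omega
    · have := i3 a ha; have := i1 b hb; have := j3 a ha; have := j1 b hb; omega
    · have := i3 a ha; have := i3 b hb; have := j3 a ha; have := j3 b hb; omega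
  have cout : ∀ e, e ∈ Y₁ ∨ e ∈ Y₂ → ∀ v ∈ X₁ ++ X₂,
      G'.cell R' (φ' e) (φ' v) = G.cell R (φ e) (φ v) := by
    intro e he v hv
    rw [← Grid.evb_cellMap_id (G.cell R (φ e) (φ v))]
    refine Grid.cell_congr h.ok h'.ok id false (fun s => ?_) (fun s => ?_) (fun s => ?_)
      (fun s => ?_) (fun _ => rfl) (hz e v) <;>
      obtain ⟨e₀, a1, a2, a3⟩ := hnb v hv s <;> rw [Bool.xor_false, a1, a2]
    · rw [h.inj.eq_iff, h'.inj.eq_iff]
    · exact hlt _ _ (h.gblk_outer_row hv a1) he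
    · exact hlt _ _ he (h.gblk_outer_row hv a1)
    · exact a3
  have cbc : ∀ e, e ∈ Y₁ ∨ e ∈ Y₂ → ∀ b,
      G'.cell R' (φ' e) (bc' b) = G.cell R (φ e) (bc b) := by
    intro e he b
    have k1 := i2 _ (h.bc_in b)
    have k2 := j2 _ (h'.bc_in b)
    have k3 : R.Y.idxOf (φ e) < Y₁.length ∧ R'.Y.idxOf (φ' e) < Y₁.length ∨
        Y₁.length + Yb.length ≤ R.Y.idxOf (φ e) ∧ Y₁.length + Yb'.length ≤ R'.Y.idxOf (φ' e) := by
      rcases he with he | he
      · have := i1 e he; have := j1 e he; omega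
      · have := i3 e he; have := j3 e he; omega
    rw [← Grid.evb_cellMap_id (G.cell R (φ e) (bc b))]
    refine Grid.cell_congr h.ok h'.ok id false (fun s => ?_) (fun s => ?_) (fun s => ?_)
      (fun s => ?_) (fun _ => rfl) (hzb e b) <;> rw [Bool.xor_false] <;> cases s
    · rw [h.bc_out, h'.bc_out, h.inj.eq_iff, h'.inj.eq_iff]
    · constructor
      · intro a
        rw [a] at k1
        omega
      · intro a
        rw [a] at k2
        omega
    · rw [h.bc_out, h'.bc_out]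
      exact hlt _ _ (h.gblk_ρ_mem b) he
    · unfold Rz.ltY
      omega
    · rw [h.bc_out, h'.bc_out]
      exact hlt _ _ he (h.gblk_ρ_mem b)
    · unfold Rz.ltY
      omega
    · rw [h.bc_out, h'.bc_out]
      exact hbc b
    · rw [Grid.WEvs_dl h.ok, Grid.WEvs_dl h'.ok, Grid.evb_dl_rev h.ok, Grid.evb_dl_rev h'.ok,
        Bool.not_true, h.bc_out, h'.bc_out, hbc]
      rfl
  have row : ∀ (σ : Bool) (e : O), (if σ then e ∈ Y₂ else e ∈ Y₁) →
      R'.X.filterMap (G'.cell R' (φ' e)) = R.X.filterMap (G.cell R (φ e)) := by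
    intro σ e he
    have he' : e ∈ Y₁ ∨ e ∈ Y₂ := by
      cases σ
      · exact Or.inl he
      · exact Or.inr he
    rw [h.hX, h'.hX]
    simp only [List.filterMap_append, List.filterMap_map]
    rw [h.gblk_cells σ he, h'.gblk_cells σ he]
    congr 1
    · congr 1
      · exact List.filterMap_congr fun v hv => cout e he' v (List.mem_append_left _ hv)
      · exact List.filterMap_congr fun k _ => cbc e he' _
    · exact List.filterMap_congr fun v hv => cout e he' v (List.mem_append_right _ hv)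
  have rows : ∀ Xs : List O, (∀ v ∈ Xs, v ∈ X₁ ++ X₂) →
      G'.rowAt (Y₁.map φ') (Xs.map φ') = G.rowAt (Y₁.map φ) (Xs.map φ) := by
    intro Xs hXs
    rw [Grid.rowAt, Grid.rowAt, List.filterMap_map, List.filterMap_map]
    refine List.filterMap_congr fun v hv => ?_
    obtain ⟨e₀, a1, a2, a3⟩ := hnb v (hXs v hv) false
    obtain ⟨e₁, b1, b2, b3⟩ := hnb v (hXs v hv) true
    simp only [Function.comp_apply, a1, a2, a3, b1, b2, b3, List.mem_map_of_injective h.inj,
      List.mem_map_of_injective h'.inj]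
  refine ⟨?_, ?_, rows X₁ fun v hv => List.mem_append_left _ hv,
    rows X₂ fun v hv => List.mem_append_right _ hv⟩
  · rw [Grid.evs, Grid.evs, List.flatMap_map, List.flatMap_map]
    exact List.flatMap_congr fun e he => congrArg evOf (row false e he)
  · rw [Grid.evs, Grid.evs, List.flatMap_map, List.flatMap_map]
    exact List.flatMap_congr fun e he => congrArg evOf (row true e he)

end Blk

end Pool.Agent.P.MP_ac4909_gt.B
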