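import Pool.Agent.P.MP_ac4909_gt.B.GB_Col
import Pool.Agent.P.MP_ac4909_gt.B.GB_Blk

/-! Layer G, blocks: straight strands. -/

namespace Pool.Agent.P.MP_ac4909_gt.B

open scoped ContDiff
open Set Filter Topology

variable {ι : Type} {n m : ℕ}

theorem vcol_straight (xs : List (ℝ × Option ι)) (h : PosOK (xs.map Prod.fst)) :
    Straight (vcol xs h) fun k => (xs.get k).1 := by
  exact ⟨fun _ _ => rfl, fun _ => rfl, fun _ => rfl⟩


theorem vcol_lab (xs : List (ℝ × Option ι)) (h : PosOK (xs.map Prod.fst)) :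
    List.ofFn (fun k => (⟨(vcol xs h).lab (k, false)⟩ : Nm ι)) =
      xs.map fun x => (⟨x.2⟩ : Nm ι) := by
  conv_rhs => rw [← List.ofFn_get xs, List.map_ofFn]
  rfl


/-- strand of a node -/
def gid_ix : (Fin n × Bool ⊕ Fin n) ⊕ Fin n × Bool → Fin n
  | .inl (.inl b) => b.1
  | .inl (.inr k) => k
  | .inr b => b.1

/-- the subdivision of straight strands -/
noncomputable def gid_conf (Co : Collar n ι) : Conf ((Fin n × Bool ⊕ Fin n) ⊕ Fin n × Bool) where
  col a := match a with
    | .inl (.inl _) => true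
    | _ => false
  nb a s := match a, s with
    | .inl (.inl b), false => .inr b
    | .inl (.inl b), true => .inl (.inr b.1)
    | .inl (.inr k), s => .inl (.inl (k, s))
    | .inr b, _ => .inl (.inl b)
  pt a := match a with
    | .inl (.inl b) => Co.cl b (3 / 4)
    | .inl (.inr k) => Co.cl (k, true) 0
    | .inr b => Co.cl b 1
  arc a a' := match a, a' with
    | .inl (.inl b), .inr _ => Co.cl b '' Ici (3 / 4)
    | .inl (.inl b), .inl _ => Co.cl b '' Icc 0 (3 / 4)
    | .inl (.inr _), .inl (.inl b) => Co.cl b '' Icc 0 (3 / 4)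
    | .inl (.inr _), _ => ∅
    | .inr b, _ => Co.cl b '' Ici (3 / 4)

section
variable {Co : Collar n ι} {x : Fin n → ℝ}

theorem gid_ext {p q : E3} (h0 : p 0 = q 0) (h1 : p 1 = q 1) (h2 : p 2 = q 2) : p = q := by
  ext i
  fin_cases i
  exacts [h0, h1, h2]

theorem gid_mem (h : Straight Co x) {b : Fin n × Bool} {J : Set ℝ} {p : E3} :
    p ∈ Co.cl b '' J ↔ p 0 = x b.1 ∧ p 2 = 0 ∧ (if b.2 then 1 else -1) * p 1 ∈ J := by
  constructor
  · rintro ⟨t, ht, rfl⟩
    refine ⟨h.ξ _ _, h.ζ _, ?_⟩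
    rw [Collar.cl_one]
    split_ifs <;> simpa using ht
  · rintro ⟨h0, h2, h1⟩
    refine ⟨_, h1, gid_ext ?_ ?_ ?_⟩
    · rw [h0]; exact h.ξ _ _
    · rw [Collar.cl_one]; split_ifs <;> ring
    · rw [h2]; exact h.ζ _

theorem gid_zero (h : Straight Co x) (b : Fin n × Bool) : Co.cl (b.1, true) 0 = Co.cl b 0 :=
  gid_ext (by simp [h.ξ]) (by simp) (by simp [h.ζ])

theorem gid_mono (h : Straight Co x) : StrictMono x := fun k k' hk => by
  have := Co.order k k' true hk (by rw [h.ζ, h.ζ]) 1 one_pos 1 one_pos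
  rwa [h.ξ, h.ξ] at this

theorem gid_arc (h : Straight Co x) (b : Fin n × Bool) {u v : ℝ} (huv : u ≠ v) :
    IsArc (Co.cl b '' uIcc u v) (Co.cl b u) (Co.cl b v) := by
  have e : Co.cl b = fun t => !₂[x b.1, (if b.2 then 1 else -1) * t, 0] := by
    funext t; simp [Collar.cl, h.ξ, h.ζ]
  refine ⟨fun t => Co.cl b (u + t * (v - u)), ?_, fun t _ t' _ ht => ?_, by simp, by simp, ?_⟩
  · rw [e]; fun_prop
  · have := Collar.cl_inj ht
    exact mul_right_cancel₀ (sub_ne_zero.2 huv.symm) (add_left_cancel this)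
  · rw [← segment_eq_uIcc, segment_eq_image', image_image]; rfl

theorem gid_ix_nb (a : (Fin n × Bool ⊕ Fin n) ⊕ Fin n × Bool) (s : Bool) :
    gid_ix ((gid_conf Co).nb a s) = gid_ix a := by
  rcases a with (b | k) | b <;> cases s <;> rfl

theorem gid_star (h : Straight Co x) {a : (Fin n × Bool ⊕ Fin n) ⊕ Fin n × Bool} {p : E3}
    (hp : p ∈ (gid_conf Co).star a) : p 0 = x (gid_ix a) ∧ p 2 = 0 := by
  rcases a with (b | k) | b <;> rcases hp with hp | hp <;>
    exact ⟨((gid_mem h).1 hp).1, ((gid_mem h).1 hp).2.1⟩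

theorem gid_inj (h : Straight Co x) (a : (Fin n × Bool ⊕ Fin n) ⊕ Fin n × Bool) :
    InjOn (fun p : E3 => p 1) ((gid_conf Co).win a) := by
  have key : ∀ p ∈ (gid_conf Co).win a, p 0 = x (gid_ix a) ∧ p 2 = 0 := by
    rintro p (hp | hp) <;> simpa only [gid_ix_nb] using gid_star h hp
  intro p hp q hq e
  exact gid_ext ((key p hp).1.trans (key q hq).1.symm) e ((key p hp).2.trans (key q hq).2.symm)

theorem gid_Mono (h : Straight Co x) (a : Fin n × Bool ⊕ Fin n) :
    ∃ i s, i ≠ 2 ∧ (gid_conf Co).Mono i (.inl a) s := by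
  rcases a with ⟨k, _ | _⟩ | k
  · refine ⟨1, false, by decide, gid_inj h _, fun t ht => absurd rfl ht, ?_, ?_, ?_⟩
    · simp [gid_conf]; norm_num
    · simp [gid_conf]
    · rintro (_ | _) ht
      · exact absurd rfl ht
      · simp [gid_conf]
  · refine ⟨1, true, by decide, gid_inj h _, ?_, ?_, ?_, fun t ht => absurd rfl ht⟩
    · rintro (_ | _) ht
      · simp [gid_conf]
      · exact absurd rfl ht
    · simp [gid_conf]
    · simp [gid_conf]; norm_num
  · refine ⟨1, false, by decide, gid_inj h _, ?_, ?_, ?_, ?_⟩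
    · rintro (_ | _) ht
      · simp [gid_conf]; norm_num
      · exact absurd rfl ht
    · simp [gid_conf]
    · simp [gid_conf]
    · rintro (_ | _) ht
      · simp [gid_conf]; norm_num
      · exact absurd rfl ht

theorem gid_sep (h : Straight Co x) (a a' : Fin n × Bool ⊕ Fin n)
    (hf : (gid_conf Co).Far (.inl a) (.inl a')) :
    ∃ i, Sep i ((gid_conf Co).star (.inl a)) ((gid_conf Co).star (.inl a')) ∨
      Sep i ((gid_conf Co).star (.inl a')) ((gid_conf Co).star (.inl a)) := by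
  rcases lt_trichotomy (gid_ix (.inl a)) (gid_ix (.inl a')) with hl | hl | hl
  · refine ⟨0, Or.inl fun p hp q hq => ?_⟩
    rw [(gid_star h hp).1, (gid_star h hq).1]; exact gid_mono h hl
  · exfalso
    obtain ⟨h1, h2, h3⟩ := hf
    rcases a with ⟨k, s⟩ | k <;> rcases a' with ⟨k', s'⟩ | k' <;>
      simp only [gid_ix] at hl <;> subst hl
    · exact h3 true true rfl
    · exact h2 true rfl
    · exact h2 s' rfl
    · exact h1 rfl
  · refine ⟨0, Or.inr fun p hp q hq => ?_⟩
    rw [(gid_star h hp).1, (gid_star h hq).1]; exact gid_mono h hl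

theorem gid_box (h : Straight Co x) (b : Fin n × Bool) {p : E3} (hp : p ∈ Co.cl b '' Icc 0 (3 / 4))
    (i : Fin 3) : |p i| ≤ 3 / 4 := by
  obtain ⟨h0, h2, h1⟩ := (gid_mem h).1 hp
  fin_cases i
  · have := Co.boxx b 1 ⟨one_pos, le_rfl⟩
    rw [h.ξ, ← h0] at this
    exact this
  · show |p 1| ≤ 3 / 4
    rw [abs_le]
    split_ifs at h1 <;> constructor <;> linarith [h1.1, h1.2]
  · show |p 2| ≤ 3 / 4
    rw [h2]; norm_num

/-- the content of straight strands -/
noncomputable def gid_ct (h : Straight Co x) : Content Co (Fin n × Bool ⊕ Fin n) where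
  C := gid_conf Co
  bc := .inl
  lv _ := 3 / 4
  lb a := Co.lab (gid_ix (.inl a), false)
  Xb := (List.finRange n).flatMap fun k => [.inl (k, false), .inl (k, true)]
  Yb := (List.finRange n).map .inr
  lv_pos _ := by norm_num
  lv_le _ := le_rfl
  col_inr _ := rfl
  nb_inr _ _ := rfl
  nb_eq_inr := by rintro (b | k) (_ | _) b' <;> simp [gid_conf]
  col_nb := by rintro (b | k) (_ | _) <;> rfl
  nb_ne := by rintro (b | k) <;> simp [gid_conf]
  adj_symm := by
    rintro (b | k) (_ | _)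
    exacts [⟨true, rfl⟩, ⟨b.2, rfl⟩, ⟨true, rfl⟩, ⟨true, rfl⟩]
  pt_bc _ := rfl
  pt_inr _ := rfl
  arc_bc _ := rfl
  arc_symm := by rintro (b | k) (_ | _) <;> rfl
  isArc := by
    have e : Icc (0 : ℝ) (3 / 4) = uIcc 0 (3 / 4) := (uIcc_of_le (by norm_num)).symm
    rintro (b | k) s a' ha
    · cases s
      · exact absurd ha (by simp [gid_conf])
      · obtain rfl : Sum.inr b.1 = a' := Sum.inl.inj ha
        show IsArc (Co.cl b '' Icc 0 (3 / 4)) (Co.cl b (3 / 4)) (Co.cl (b.1, true) 0)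
        rw [gid_zero h, e, uIcc_comm]
        exact gid_arc h b (by norm_num)
    · obtain rfl : Sum.inl (k, s) = a' := Sum.inl.inj ha
      show IsArc (Co.cl (k, s) '' Icc 0 (3 / 4)) (Co.cl (k, true) 0) (Co.cl (k, s) (3 / 4))
      rw [gid_zero h (k, s), e]
      exact gid_arc h _ (by norm_num)
  box := by
    rintro (b | k) s a' ha p hp
    · exact gid_box h b hp
    · obtain rfl : Sum.inl (k, s) = a' := Sum.inl.inj ha
      exact gid_box h (k, s) hp
  sep := gid_sep h
  mono := gid_Mono h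
  zr b b' _ hz := by rw [h.ζ, h.ζ] at hz; exact absurd hz (lt_irrefl _)
  lb_nb a s a' ha := by rw [← ha, gid_ix_nb]
  lb_bc := by
    rintro ⟨k, _ | _⟩
    · rfl
    · exact (h.lab k).symm
  nodupX := by
    refine List.nodup_flatMap.2 ⟨fun k _ => by simp, ?_⟩
    refine (List.nodup_finRange n).imp fun {k k'} hk => ?_
    simp [Function.onFun, hk.symm]
  nodupY := (List.nodup_finRange n).map Sum.inr_injective
  memX := by rintro (⟨k, _ | _⟩ | k) <;> simp [gid_conf]
  memY := by rintro (b | k) <;> simp [gid_conf]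
  sortX := by
    refine List.pairwise_flatMap.2 ⟨fun k _ => by simp [gid_conf, h.ξ], ?_⟩
    refine (List.pairwise_lt_finRange n).imp fun {k k'} hk => ?_
    simp [gid_conf, h.ξ, (gid_mono h hk).le]
  sortY := by
    rw [List.pairwise_map]
    exact (List.nodup_finRange n).imp fun _ => by simp [gid_conf]
  subX σ := by
    rw [List.ofFn_eq_map]
    generalize List.finRange n = l
    induction l with
    | nil => simp
    | cons k l ih =>
      rw [List.map_cons, List.flatMap_cons]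
      cases σ
      · exact (ih.cons _).cons_cons _
      · exact (ih.cons_cons _).cons _

theorem gid_idx {N : Type} [DecidableEq N] {A B : List N} {a b : N} (ha : a ∈ A) (hb : b ∉ A) :
    (A ++ B).idxOf a < (A ++ B).idxOf b := by
  rw [List.idxOf_append_of_mem ha, List.idxOf_append_of_notMem hb]
  exact (List.idxOf_lt_length_of_mem ha).trans_le (Nat.le_add_right _ _)

theorem gid_word (h : Straight Co x) : (gid_ct h).word = [] := by
  rw [Content.word, Grid.evs, List.flatMap_eq_nil_iff]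
  intro e he
  obtain ⟨_, hk, rfl⟩ := List.mem_map.1 he
  obtain ⟨k, -, rfl⟩ := List.mem_map.1 hk
  obtain ⟨l₁, l₂, hl, hk₁⟩ := List.eq_append_cons_of_mem (List.mem_finRange k)
  have h1 : ¬ (gid_ct h).rz.ltY (.inl (.inr k)) (.inr (k, false)) := by
    refine Nat.lt_asymm ?_
    rw [Content.rz]
    simp only [List.append_assoc]
    exact gid_idx (by simp [List.mem_ofFn]) (by simp [List.mem_ofFn])
  have h2 : (gid_ct h).rz.ltY (.inl (.inr k)) (.inr (k, true)) :=
    gid_idx (by simp [gid_ct]) (by simp [gid_ct, List.mem_ofFn])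
  have n0 : ∀ b, (gid_ct h).grid.nb (.inl (.inl b)) false = .inr b := fun _ => rfl
  have n1 : ∀ b, (gid_ct h).grid.nb (.inl (.inl b)) true = .inl (.inr b.1) := fun _ => rfl
  have c1 : ∃ a, (gid_ct h).grid.cell (gid_ct h).rz (.inl (.inr k)) (.inl (.inl (k, false))) =
      some (.fin a false) := by
    rw [Grid.cell, n0, n1, if_neg (by simp), if_pos rfl, if_neg h1]
    exact ⟨_, rfl⟩
  have c2 : ∃ a, (gid_ct h).grid.cell (gid_ct h).rz (.inl (.inr k)) (.inl (.inl (k, true))) =
      some (.fin a true) := by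
    rw [Grid.cell, n0, n1, if_neg (by simp), if_pos rfl, if_pos h2]
    exact ⟨_, rfl⟩
  obtain ⟨a, c1⟩ := c1
  obtain ⟨b, c2⟩ := c2
  have e : (gid_ct h).Xb = (l₁ ++ k :: l₂).flatMap fun k => [.inl (k, false), .inl (k, true)] := by
    rw [← hl]; rfl
  rw [e, List.flatMap_append, List.flatMap_cons, List.map_append, List.filterMap_append,
    List.cons_append, List.cons_append, List.map_cons, List.map_cons, List.filterMap_cons, c1,
    List.filterMap_cons, c2]
  refine Grid.evb_evLeft_nil _ _ (fun c hc => ?_) a b false []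
  obtain ⟨v, hv, hc⟩ := List.mem_filterMap.1 hc
  refine Grid.WEvs_cell_thru (fun s => ?_) hc
  obtain ⟨w, hw, rfl⟩ := List.mem_map.1 hv
  obtain ⟨k', hk', hw'⟩ := List.mem_flatMap.1 hw
  have hne : k' ≠ k := fun e => hk₁ (e ▸ hk')
  simp only [List.mem_cons, List.not_mem_nil, or_false] at hw'
  rcases hw' with rfl | rfl <;> cases s <;> simp [Content.grid, Conf.grid, gid_ct, gid_conf, hne]

end

theorem exists_idContent {Co : Collar n ι} {x : Fin n → ℝ} (h : Straight Co x) :
    ∃ Ct : Content Co (Fin n × Bool ⊕ Fin n), Ct.Vert ∧ Ct.bc = .inl ∧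
      (∀ b, Ct.C.nb (.inl (.inl b)) true = .inl (.inr b.1)) ∧
      (∀ k s, Ct.C.nb (.inl (.inr k)) s = .inl (.inl (k, s))) ∧
      Ct.Xb = (List.finRange n).flatMap (fun k => [.inl (k, false), .inl (k, true)]) ∧
      Ct.Yb = (List.finRange n).map .inr ∧
      Ct.pic = {y | ∃ k, y.1 = Co.lab (k, false) ∧ y.2 0 = x k ∧ y.2 2 = 0} ∧ Ct.word = [] := by
  refine ⟨gid_ct h, fun b p hp => ?_, rfl, fun _ => rfl, fun _ _ => rfl, rfl, rfl, ?_, gid_word h⟩
  · rw [h.ξ]; exact (gid_star h hp).1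
  · ext y
    constructor
    · rintro ⟨a, ha, hl⟩
      exact ⟨_, hl, gid_star h ha⟩
    · rintro ⟨k, hl, h0, h2⟩
      obtain ⟨σ, hσ⟩ : ∃ σ : Bool, 0 ≤ (if σ then 1 else -1) * y.2 1 := by
        rcases le_total 0 (y.2 1) with h1 | h1
        · exact ⟨true, by simpa using h1⟩
        · exact ⟨false, by simpa using h1⟩
      refine ⟨.inl (k, σ), ?_, hl⟩
      rcases le_total (3 / 4) ((if σ then 1 else -1) * y.2 1) with h1 | h1
      · exact Or.inl ((gid_mem h (b := (k, σ))).2 ⟨h0, h2, h1⟩)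
      · exact Or.inr ((gid_mem h (b := (k, σ))).2 ⟨h0, h2, hσ, h1⟩)


theorem hasPic_id (xs : List (ℝ × Option ι)) (h : PosOK (xs.map Prod.fst)) :
    HasPic (vcol xs h) (strands xs) [] := by
  obtain ⟨Ct, h1, -, -, -, -, -, h2, h3⟩ := exists_idContent (vcol_straight xs h)
  refine ⟨_, inferInstance, inferInstance, Ct, h1, ?_, h3⟩
  rw [h2]
  ext y
  constructor
  · rintro ⟨k, hk⟩
    exact ⟨xs.get k, List.get_mem xs k, hk⟩
  · rintro ⟨z, hz, hk⟩
    obtain ⟨k, rfl⟩ := List.mem_iff_get.1 hz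
    exact ⟨k, hk⟩


end Pool.Agent.P.MP_ac4909_gt.B
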