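import Pool.Agent.P.MP_ac4909_gt.B.WDefs

/-! Basic properties of the equivalence of words; invariants. -/

namespace Pool.Agent.P.MP_ac4909_gt.B

open Rev

variable {α β κ κ' ι P : Type}

section
variable [Rev α] [Rev β] {fa : Bool} {ρ σ τ : List α} {u u' w w' : List (Sl α)}

theorem Move.run (h : Move u u') (hu : Run ρ u σ) : Run ρ u' σ := by
  cases h with
  | reid3 =>
    obtain ⟨rfl, -, -, rfl⟩ := hu
    simp [Run, Sl.src, Sl.tgt, Gen.src, Gen.tgt]
  | _ =>
    obtain ⟨rfl, -, rfl⟩ := hu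
    simp [Run, Sl.src, Sl.tgt, Gen.src, Gen.tgt, rev_rev]

theorem Curl.run (h : Curl u u') (hu : Run ρ u σ) : Run ρ u' σ := by
  cases h <;>
  · obtain ⟨rfl, -, rfl⟩ := hu
    simp [Run, Sl.src, Sl.tgt, Gen.src, Gen.tgt, rev_rev]

theorem WEqv_run_mid {w₁ w₂ : List (Sl α)} (h : ∀ a b, Run a u b → Run a u' b)
    (hu : Run ρ (w₁ ++ u ++ w₂) σ) : Run ρ (w₁ ++ u' ++ w₂) σ := by
  obtain ⟨b, h1, h2⟩ := run_append.1 hu
  obtain ⟨a, h3, h4⟩ := run_append.1 h1
  exact run_append.2 ⟨b, run_append.2 ⟨a, h3, h a b h4⟩, h2⟩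

theorem WEqv_run (h : Eqv fa ρ σ w w') : Run ρ w σ ∧ Run ρ w' σ := by
  induction h with
  | refl h => exact ⟨h, h⟩
  | move w₁ u u' w₂ hm h => exact ⟨h, WEqv_run_mid (fun _ _ => Move.run hm) h⟩
  | curl w₁ u u' w₂ _ hm h => exact ⟨h, WEqv_run_mid (fun _ _ => Curl.run hm) h⟩
  | symm _ ih => exact ih.symm
  | trans _ _ ih ih' => exact ⟨ih.1, ih'.2⟩

theorem Eqv.run_left (h : Eqv fa ρ σ w w') : Run ρ w σ := (WEqv_run h).1

theorem Eqv.run_right (h : Eqv fa ρ σ w w') : Run ρ w' σ := (WEqv_run h).2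

theorem Eqv.weaken (h : Eqv true ρ σ w w') : Eqv fa ρ σ w w' := by
  induction h with
  | refl h => exact .refl h
  | move w₁ u u' w₂ hm h => exact .move w₁ u u' w₂ hm h
  | curl w₁ u u' w₂ hf _ _ => exact absurd hf (by decide)
  | symm _ ih => exact ih.symm
  | trans _ _ ih ih' => exact ih.trans ih'

theorem Eqv.of_eq (h : Run ρ w σ) (e : w = w') : Eqv fa ρ σ w w' := e ▸ .refl h

theorem Eqv.of_move (h : Move u u') (hu : Run ρ u σ) : Eqv fa ρ σ u u' := by
  simpa using Eqv.move (fa := fa) [] u u' [] h (by simpa using hu)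

theorem WEqv_append_right (h : Eqv fa ρ σ u u') (hw : Run σ w τ) :
    Eqv fa ρ τ (u ++ w) (u' ++ w) := by
  induction h with
  | refl h => exact .refl (run_append.2 ⟨_, h, hw⟩)
  | move w₁ u u' w₂ hm h =>
    have h1 := run_append.2 ⟨_, h, hw⟩
    rw [List.append_assoc _ w₂] at h1
    rw [List.append_assoc _ w₂, List.append_assoc _ w₂]
    exact .move w₁ u u' _ hm h1
  | curl w₁ u u' w₂ hf hm h =>
    have h1 := run_append.2 ⟨_, h, hw⟩
    rw [List.append_assoc _ w₂] at h1
    rw [List.append_assoc _ w₂, List.append_assoc _ w₂]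
    exact .curl w₁ u u' _ hf hm h1
  | symm _ ih => exact ih.symm
  | trans _ _ ih ih' => exact ih.trans ih'

theorem WEqv_append_left (hu : Run ρ u σ) (h : Eqv fa σ τ w w') :
    Eqv fa ρ τ (u ++ w) (u ++ w') := by
  induction h with
  | refl h => exact .refl (run_append.2 ⟨_, hu, h⟩)
  | move w₁ v v' w₂ hm h =>
    have h1 := run_append.2 ⟨_, hu, h⟩
    rw [← List.append_assoc, ← List.append_assoc] at h1
    rw [← List.append_assoc, ← List.append_assoc, ← List.append_assoc, ← List.append_assoc]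
    exact .move _ v v' w₂ hm h1
  | curl w₁ v v' w₂ hf hm h =>
    have h1 := run_append.2 ⟨_, hu, h⟩
    rw [← List.append_assoc, ← List.append_assoc] at h1
    rw [← List.append_assoc, ← List.append_assoc, ← List.append_assoc, ← List.append_assoc]
    exact .curl _ v v' w₂ hf hm h1
  | symm _ ih => exact ih.symm
  | trans _ _ ih ih' => exact ih.trans ih'

theorem Eqv.append (h : Eqv fa ρ σ u u') (h' : Eqv fa σ τ w w') :
    Eqv fa ρ τ (u ++ w) (u' ++ w') :=
  (WEqv_append_right h h'.run_left).trans (WEqv_append_left h.run_right h')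

theorem WEqv_pad_src (l r : List α) (s : Sl α) : (pad l r s).src = l ++ s.src ++ r := by
  simp [pad, Sl.src]

theorem WEqv_pad_tgt (l r : List α) (s : Sl α) : (pad l r s).tgt = l ++ s.tgt ++ r := by
  simp [pad, Sl.tgt]

theorem run_pad (l r : List α) (h : Run ρ w σ) :
    Run (l ++ ρ ++ r) (w.map (pad l r)) (l ++ σ ++ r) := by
  induction w generalizing ρ with
  | nil => exact congrArg (fun x => l ++ x ++ r) h
  | cons s w ih =>
    refine ⟨?_, ?_⟩
    · rw [WEqv_pad_src, h.1]
    · rw [WEqv_pad_tgt]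
      exact ih h.2

theorem WEqv_move_pad (l r : List α) (h : Move u u') :
    Move (u.map (pad l r)) (u'.map (pad l r)) := by
  cases h with
  | comm l' m r' g h => simpa [pad] using Move.comm (l ++ l') m (r' ++ r) g h
  | zig l' r' o => simpa [pad] using Move.zig (l ++ l') (r' ++ r) o
  | zag l' r' o => simpa [pad] using Move.zag (l ++ l') (r' ++ r) o
  | cupSlide l' r' x o s => simpa [pad] using Move.cupSlide (l ++ l') (r' ++ r) x o s
  | capSlide l' r' x o s => simpa [pad] using Move.capSlide (l ++ l') (r' ++ r) x o s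
  | reid2 l' r' x y s => simpa [pad] using Move.reid2 (l ++ l') (r' ++ r) x y s
  | reid3 l' r' x y z a b c h => simpa [pad] using Move.reid3 (l ++ l') (r' ++ r) x y z a b c h

theorem WEqv_curl_pad (l r : List α) (h : Curl u u') :
    Curl (u.map (pad l r)) (u'.map (pad l r)) := by
  cases h with
  | cup l' r' o s => simpa [pad] using Curl.cup (l ++ l') (r' ++ r) o s
  | cap l' r' o s => simpa [pad] using Curl.cap (l ++ l') (r' ++ r) o s

theorem Eqv.pad (l r : List α) (h : Eqv fa ρ σ w w') :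
    Eqv fa (l ++ ρ ++ r) (l ++ σ ++ r) (w.map (pad l r)) (w'.map (pad l r)) := by
  induction h with
  | refl h => exact .refl (run_pad l r h)
  | move w₁ u u' w₂ hm h =>
    have h1 := run_pad l r h
    simp only [List.map_append] at h1 ⊢
    exact .move _ _ _ _ (WEqv_move_pad l r hm) h1
  | curl w₁ u u' w₂ hf hm h =>
    have h1 := run_pad l r h
    simp only [List.map_append] at h1 ⊢
    exact .curl _ _ _ _ hf (WEqv_curl_pad l r hm) h1
  | symm _ ih => exact ih.symm
  | trans _ _ ih ih' => exact ih.trans ih'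

theorem WEqv_gen_src (φ : α → β) (hφ : ∀ x, φ (rev x) = rev (φ x)) (g : Gen α) :
    (g.map φ).src = g.src.map φ := by
  cases g <;> simp [Gen.map, Gen.src, hφ]

theorem WEqv_gen_tgt (φ : α → β) (hφ : ∀ x, φ (rev x) = rev (φ x)) (g : Gen α) :
    (g.map φ).tgt = g.tgt.map φ := by
  cases g <;> simp [Gen.map, Gen.tgt, hφ]

theorem WEqv_move_map (φ : α → β) (hφ : ∀ x, φ (rev x) = rev (φ x)) (h : Move u u') :
    Move (u.map (Sl.map φ)) (u'.map (Sl.map φ)) := by
  cases h with
  | comm l m r g h =>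
    simpa [Sl.map, WEqv_gen_src φ hφ, WEqv_gen_tgt φ hφ] using
      Move.comm (l.map φ) (m.map φ) (r.map φ) (g.map φ) (h.map φ)
  | zig l r o => simpa [Sl.map, Gen.map, hφ] using Move.zig (l.map φ) (r.map φ) (φ o)
  | zag l r o => simpa [Sl.map, Gen.map, hφ] using Move.zag (l.map φ) (r.map φ) (φ o)
  | cupSlide l r x o s =>
    simpa [Sl.map, Gen.map, hφ] using Move.cupSlide (l.map φ) (r.map φ) (φ x) (φ o) s
  | capSlide l r x o s =>
    simpa [Sl.map, Gen.map, hφ] using Move.capSlide (l.map φ) (r.map φ) (φ x) (φ o) s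
  | reid2 l r x y s =>
    simpa [Sl.map, Gen.map, hφ] using Move.reid2 (l.map φ) (r.map φ) (φ x) (φ y) s
  | reid3 l r x y z a b c h =>
    simpa [Sl.map, Gen.map, hφ] using Move.reid3 (l.map φ) (r.map φ) (φ x) (φ y) (φ z) a b c h

theorem WEqv_curl_map (φ : α → β) (hφ : ∀ x, φ (rev x) = rev (φ x)) (h : Curl u u') :
    Curl (u.map (Sl.map φ)) (u'.map (Sl.map φ)) := by
  cases h with
  | cup l r o s => simpa [Sl.map, Gen.map, hφ] using Curl.cup (l.map φ) (r.map φ) (φ o) s
  | cap l r o s => simpa [Sl.map, Gen.map, hφ] using Curl.cap (l.map φ) (r.map φ) (φ o) s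

theorem Eqv.map (φ : α → β) (hφ : ∀ x, φ (rev x) = rev (φ x)) (h : Eqv fa ρ σ w w') :
    Eqv fa (ρ.map φ) (σ.map φ) (w.map (Sl.map φ)) (w'.map (Sl.map φ)) := by
  induction h with
  | refl h => exact .refl (h.map φ hφ)
  | move w₁ u u' w₂ hm h =>
    have h1 := h.map φ hφ
    simp only [List.map_append] at h1 ⊢
    exact .move _ _ _ _ (WEqv_move_map φ hφ hm) h1
  | curl w₁ u u' w₂ hf hm h =>
    have h1 := h.map φ hφ
    simp only [List.map_append] at h1 ⊢
    exact .curl _ _ _ _ hf (WEqv_curl_map φ hφ hm) h1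
  | symm _ ih => exact ih.symm
  | trans _ _ ih ih' => exact ih.trans ih'

theorem WEqv_run_one (s : Sl α) : Run s.src [s] s.tgt := ⟨rfl, rfl⟩

/-- one slice passes a tangle on its right -/
theorem WEqv_far_one (s : Sl α) {ρ' σ' : List α} (hw : Run ρ' w σ') :
    Eqv fa (s.src ++ ρ') (s.tgt ++ σ') ([B.pad [] ρ' s] ++ w.map (B.pad s.tgt []))
      (w.map (B.pad s.src []) ++ [B.pad [] σ' s]) := by
  induction w generalizing ρ' with
  | nil =>
    obtain rfl : ρ' = σ' := hw
    refine .refl ?_
    simpa using run_pad [] ρ' (WEqv_run_one s)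
  | cons t w ih =>
    obtain ⟨rfl, hw⟩ := hw
    have h1 : Eqv fa (s.src ++ t.src) (s.tgt ++ t.tgt) [B.pad [] t.src s, B.pad s.tgt [] t]
        [B.pad s.src [] t, B.pad [] t.tgt s] := by
      refine Eqv.of_move ?_ ?_
      · simpa [B.pad, Sl.src, Sl.tgt] using Move.comm s.l (s.r ++ t.l) t.r s.g t.g
      · simp [Run, WEqv_pad_src, WEqv_pad_tgt]
    have h2 : Run (s.tgt ++ t.tgt) (w.map (B.pad s.tgt [])) (s.tgt ++ σ') := by
      simpa using run_pad s.tgt [] hw
    have h3 : Run (s.src ++ t.src) [B.pad s.src [] t] (s.src ++ t.tgt) := by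
      simpa using run_pad s.src [] (WEqv_run_one t)
    exact (WEqv_append_right h1 h2).trans (WEqv_append_left h3 (ih hw))

/-- tangles side by side commute -/
theorem Eqv.far {ρ' σ' : List α} (hu : Run ρ u σ) (hw : Run ρ' w σ') :
    Eqv fa (ρ ++ ρ') (σ ++ σ') (u.map (B.pad [] ρ') ++ w.map (B.pad σ []))
      (w.map (B.pad ρ []) ++ u.map (B.pad [] σ')) := by
  induction u generalizing ρ with
  | nil =>
    obtain rfl : ρ = σ := hu
    refine Eqv.of_eq ?_ (by simp)
    simpa using run_pad ρ [] hw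
  | cons s u ih =>
    obtain ⟨rfl, hu⟩ := hu
    have h1 : Run (s.src ++ ρ') [B.pad [] ρ' s] (s.tgt ++ ρ') := by
      simpa using run_pad [] ρ' (WEqv_run_one s)
    have h2 : Run (s.tgt ++ σ') (u.map (B.pad [] σ')) (σ ++ σ') := by
      simpa using run_pad [] σ' hu
    have h3 := WEqv_append_left h1 (ih hu)
    have h4 := WEqv_append_right (WEqv_far_one (fa := fa) s hw) h2
    rw [List.append_assoc, List.append_assoc] at h4
    exact h3.trans h4

theorem WEqv_run_cups (l ys r : List β) :
    Run (l ++ r) (cups l ys r) (l ++ ys ++ (ys.map rev).reverse ++ r) := by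
  induction ys generalizing l r with
  | nil => simp [cups, Run]
  | cons y ys ih =>
    refine ⟨by simp [Sl.src, Gen.src], ?_⟩
    simpa [Sl.tgt, Gen.tgt] using ih (l ++ [y]) (rev y :: r)

theorem WEqv_run_caps (l ys r : List β) :
    Run (l ++ ys ++ (ys.map rev).reverse ++ r) (caps l ys r) (l ++ r) := by
  induction ys generalizing l r with
  | nil => simp [caps, Run]
  | cons y ys ih =>
    refine run_append.2 ⟨l ++ [y] ++ rev y :: r, ?_, ?_⟩
    · simpa using ih (l ++ [y]) (rev y :: r)
    · simp [Run, Sl.src, Sl.tgt, Gen.src, Gen.tgt]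

theorem WEqv_run_cross1 (s : Bool) (y : β) (r l xs : List β) :
    Run (l ++ xs ++ y :: r) (cross1 s y r l xs) (l ++ y :: xs ++ r) := by
  induction xs generalizing l with
  | nil => simp [cross1, Run]
  | cons x xs ih =>
    refine run_append.2 ⟨l ++ [x] ++ y :: xs ++ r, ?_, ?_⟩
    · simpa using ih (l ++ [x])
    · simp [Run, Sl.src, Sl.tgt, Gen.src, Gen.tgt]

theorem WEqv_run_cross (s : Bool) (xs r l ys : List β) :
    Run (l ++ xs ++ ys ++ r) (cross s xs r l ys) (l ++ ys ++ xs ++ r) := by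
  induction ys generalizing l with
  | nil => simp [cross, Run]
  | cons y ys ih =>
    refine run_append.2 ⟨l ++ y :: xs ++ (ys ++ r), ?_, ?_⟩
    · simpa using WEqv_run_cross1 s y (ys ++ r) l xs
    · simpa using ih (l ++ [y])

theorem run_cable (k : α → List β) (hk : ∀ x, k (rev x) = ((k x).map rev).reverse)
    (h : Run ρ w σ) : Run (ρ.flatMap k) (cable k w) (σ.flatMap k) := by
  induction w generalizing ρ with
  | nil => exact congrArg _ h
  | cons s w ih =>
    obtain ⟨rfl, h⟩ := h
    have h1 := ih h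
    unfold cable at h1 ⊢
    rw [List.flatMap_cons]
    refine run_append.2 ⟨_, ?_, h1⟩
    obtain ⟨l, g, r⟩ := s
    cases g with
    | cup o =>
      simpa [Sl.src, Sl.tgt, Gen.src, Gen.tgt, hk] using
        WEqv_run_cups (l.flatMap k) (k o) (r.flatMap k)
    | cap o =>
      simpa [Sl.src, Sl.tgt, Gen.src, Gen.tgt, hk] using
        WEqv_run_caps (l.flatMap k) (k o) (r.flatMap k)
    | cr x y b =>
      simpa [Sl.src, Sl.tgt, Gen.src, Gen.tgt] using
        WEqv_run_cross b (k x) (r.flatMap k) (l.flatMap k) (k y)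

end

theorem cable_append [Rev β] (k : α → List β) (u w : List (Sl α)) :
    cable k (u ++ w) = cable k u ++ cable k w := List.flatMap_append

section
variable {β' : Type}

theorem WEqv_cups_map [Rev β] [Rev β'] (ψ : β → β') (hψ : ∀ x, ψ (rev x) = rev (ψ x))
    (l ys r : List β) :
    cups (l.map ψ) (ys.map ψ) (r.map ψ) = (cups l ys r).map (Sl.map ψ) := by
  induction ys generalizing l r with
  | nil => rfl
  | cons y ys ih =>
    have := ih (l ++ [y]) (rev y :: r)
    simp only [List.map_append, List.map_cons, List.map_nil, hψ] at this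
    simp [cups, Sl.map, Gen.map, this]

theorem WEqv_caps_map [Rev β] [Rev β'] (ψ : β → β') (hψ : ∀ x, ψ (rev x) = rev (ψ x))
    (l ys r : List β) :
    caps (l.map ψ) (ys.map ψ) (r.map ψ) = (caps l ys r).map (Sl.map ψ) := by
  induction ys generalizing l r with
  | nil => rfl
  | cons y ys ih =>
    have := ih (l ++ [y]) (rev y :: r)
    simp only [List.map_append, List.map_cons, List.map_nil, hψ] at this
    simp [caps, Sl.map, Gen.map, this]

theorem WEqv_cross1_map (ψ : β → β') (s : Bool) (y : β) (r l xs : List β) :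
    cross1 s (ψ y) (r.map ψ) (l.map ψ) (xs.map ψ) = (cross1 s y r l xs).map (Sl.map ψ) := by
  induction xs generalizing l with
  | nil => rfl
  | cons x xs ih =>
    have := ih (l ++ [x])
    simp only [List.map_append, List.map_cons, List.map_nil] at this
    simp [cross1, Sl.map, Gen.map, this]

theorem WEqv_cross_map (ψ : β → β') (s : Bool) (xs r l ys : List β) :
    cross s (xs.map ψ) (r.map ψ) (l.map ψ) (ys.map ψ) = (cross s xs r l ys).map (Sl.map ψ) := by
  induction ys generalizing l with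
  | nil => rfl
  | cons y ys ih =>
    have h1 := ih (l ++ [y])
    have h2 := WEqv_cross1_map ψ s y (ys ++ r) l xs
    simp only [List.map_append, List.map_cons, List.map_nil] at h1 h2
    simp [cross, h1, h2]

end

theorem cable_map {α' β' : Type} [Rev β] [Rev β'] (k : α → List β) (k' : α' → List β')
    (φ : α → α') (ψ : β → β') (hψ : ∀ x, ψ (rev x) = rev (ψ x))
    (h : ∀ x, k' (φ x) = (k x).map ψ) (w : List (Sl α)) :
    cable k' (w.map (Sl.map φ)) = (cable k w).map (Sl.map ψ) := by
  have hl : ∀ l : List α, (l.map φ).flatMap k' = (l.flatMap k).map ψ := fun l => by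
    induction l with
    | nil => rfl
    | cons x l ih => simp only [List.map_cons, List.flatMap_cons, List.map_append, h, ih]
  induction w with
  | nil => rfl
  | cons s w ih =>
    unfold cable at ih ⊢
    rw [List.map_cons, List.flatMap_cons, List.flatMap_cons, List.map_append, ih]
    congr 1
    obtain ⟨l, g, r⟩ := s
    cases g with
    | cup o => simp only [Sl.map, Gen.map, hl, h, WEqv_cups_map ψ hψ]
    | cap o => simp only [Sl.map, Gen.map, hl, h, WEqv_caps_map ψ hψ]
    | cr x y b => simp only [Sl.map, Gen.map, hl, h, WEqv_cross_map ψ]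

section
variable [DecidableEq κ] [DecidableEq κ'] {fa : Bool} {ρ σ : List (Arc κ)}
  {w w' : List (Sl (Arc κ))}

theorem lko_append (a b : κ) (u w : List (Sl (Arc κ))) :
    lko a b (u ++ w) = lko a b u + lko a b w := by
  simp [lko]

theorem WEqv_lko_cons (a b : κ) (s : Sl (Arc κ)) (w : List (Sl (Arc κ))) :
    lko a b (s :: w) = Gen.lko a b s.g + lko a b w := by
  simp [lko]

theorem WEqv_lko_rev (a b : κ) (x o : Arc κ) (s : Bool) :
    Gen.lko a b (.cr (rev o) x (!s)) = Gen.lko a b (.cr x o s) := by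
  obtain ⟨i, p⟩ := x
  obtain ⟨j, q⟩ := o
  cases s <;> cases p <;> cases q <;> simp [Gen.lko]

theorem WEqv_lko_neg (a b : κ) (x y : Arc κ) (s : Bool) :
    Gen.lko a b (.cr y x (!s)) = -Gen.lko a b (.cr x y s) := by
  obtain ⟨i, p⟩ := x
  obtain ⟨j, q⟩ := y
  cases s <;> cases p <;> cases q <;> simp [Gen.lko] <;> split_ifs <;> simp

theorem WEqv_move_lko (a b : κ) (h : Move w w') : lko a b w = lko a b w' := by
  cases h with
  | comm l m r g h => simp [lko, add_comm]
  | zig l r o => simp [lko, Gen.lko]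
  | zag l r o => simp [lko, Gen.lko]
  | cupSlide l r x o s => simp [lko, WEqv_lko_rev]
  | capSlide l r x o s =>
    have h3 : Gen.lko a b (.cr x (rev o) (!s)) = Gen.lko a b (.cr o x s) := by
      obtain ⟨i, p⟩ := x
      obtain ⟨j, q⟩ := o
      cases s <;> cases p <;> cases q <;> simp [Gen.lko]
    simp [lko, h3, add_comm]
  | reid2 l r x y s => simp [lko, WEqv_lko_neg]
  | reid3 l r x y z a b c h => simp [lko, add_comm, add_assoc]

theorem WEqv_curl_lko (a b : κ) (h : Curl w w') (hab : a ≠ b) : lko a b w = lko a b w' := by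
  have key : ∀ i : κ, ¬ (i = a ∧ i = b) := fun i hi => hab (hi.1.symm.trans hi.2)
  cases h with
  | cup l r o s => cases s <;> simp [lko, Gen.lko, key]
  | cap l r o s => cases s <;> simp [lko, Gen.lko, key]

theorem Eqv.lko_eq (h : Eqv fa ρ σ w w') {a b : κ} (hab : fa = true ∨ a ≠ b) :
    lko a b w = lko a b w' := by
  induction h with
  | refl h => rfl
  | move w₁ u u' w₂ hm h => simp only [lko_append, WEqv_move_lko a b hm]
  | curl w₁ u u' w₂ hf hm h =>
    have h1 : a ≠ b := hab.resolve_left (by simp [hf])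
    simp only [lko_append, WEqv_curl_lko a b hm h1]
  | symm _ ih => exact ih.symm
  | trans _ _ ih ih' => exact ih.trans ih'

/-- renaming of components, with reversal of some of them -/
theorem lko_rename (f : κ → κ') (hf : Function.Injective f) (fl : κ → Bool) {a b : κ}
    (hab : fl a = fl b) (w : List (Sl (Arc κ))) :
    lko (f a) (f b) (w.map (Sl.map fun x => (⟨f x.name, xor x.up (fl x.name)⟩ : Arc κ'))) =
      lko a b w := by
  induction w with
  | nil => rfl
  | cons s w ih =>
    rw [List.map_cons, WEqv_lko_cons, WEqv_lko_cons, ih]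
    congr 1
    obtain ⟨l, g, r⟩ := s
    cases g with
    | cup o => rfl
    | cap o => rfl
    | cr x y s =>
      obtain ⟨i, p⟩ := x
      obtain ⟨j, q⟩ := y
      simp only [Sl.map, Gen.map, Gen.lko, hf.eq_iff]
      cases s
      · by_cases h : j = a ∧ i = b
        · obtain ⟨rfl, rfl⟩ := h
          simp [hab]
        · simp [h]
      · by_cases h : i = a ∧ j = b
        · obtain ⟨rfl, rfl⟩ := h
          simp [hab]
        · simp [h]

/-- a component passes over its blackboard parallel as often as over itself -/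
theorem lko_cable (c : κ) (w : List (Sl (Arc κ))) :
    lko (Sum.inl c) (Sum.inr c) (cable (dblLab (fun _ => true) Arc.up
      (fun x => (⟨Sum.inl x.name, x.up⟩ : Arc (κ ⊕ κ))) fun x => ⟨Sum.inr x.name, x.up⟩) w) =
      lko c c w := by
  induction w with
  | nil => rfl
  | cons s w ih =>
    unfold cable at ih ⊢
    rw [List.flatMap_cons, lko_append, ih, WEqv_lko_cons]
    congr 1
    obtain ⟨l, g, r⟩ := s
    cases g with
    | cup o =>
      obtain ⟨i, p⟩ := o
      cases p <;> simp [dblLab, cups, lko, Gen.lko]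
    | cap o =>
      obtain ⟨i, p⟩ := o
      cases p <;> simp [dblLab, caps, lko, Gen.lko]
    | cr x y s =>
      obtain ⟨i, p⟩ := x
      obtain ⟨j, q⟩ := y
      cases s <;> cases p <;> cases q <;> simp [dblLab, cross, cross1, lko, Gen.lko]

theorem WEqv_twist [Fintype κ] (t : κ → ℂ) (ht : ∀ c, t c ≠ 0) (n n' : κ → ℤ) (o : κ) (e : ℤ)
    (h : ∀ c, n' c = n c + if o = c then e else 0) :
    (∏ c, t c ^ n c) * t o ^ e = ∏ c, t c ^ n' c := by
  have h1 : t o ^ e = ∏ c, t c ^ (if o = c then e else 0) := by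
    rw [Finset.prod_eq_single o]
    · simp
    · intro c _ hc
      simp [hc.symm]
    · simp
  rw [h1, ← Finset.prod_mul_distrib]
  exact Finset.prod_congr rfl fun c _ => by rw [h, zpow_add₀ (ht c)]

theorem Eqv.cev_eq [Fintype κ] (E : EvSys ι P) (h : Eqv fa [] [] w w') (p : P)
    (ℓ : κ → Option ι) (f : κ → ℤ) : E.cev p ℓ w f = E.cev p ℓ w' f := by
  have hφ : ∀ x : Arc κ, lbN ℓ (rev x) = rev (lbN ℓ x) := fun _ => rfl
  induction h with
  | refl h => rfl
  | move w₁ u u' w₂ hm h =>
    have h1 := h.map _ hφ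
    unfold EvSys.cev
    simp only [List.map_append] at h1 ⊢
    rw [E.move p _ _ _ _ (WEqv_move_map _ hφ hm) h1]
    simp only [lko_append, WEqv_move_lko _ _ hm]
  | curl w₁ u u' w₂ hf hm h =>
    have h1 := h.map _ hφ
    unfold EvSys.cev
    simp only [List.map_append] at h1 ⊢
    cases hm with
    | cup l r o s =>
      have h2 := E.curl_cup p _ _ (l.map (lbN ℓ)) (r.map (lbN ℓ)) (lbN ℓ o) s h1
      refine (congrArg _ h2).trans ?_
      rw [← mul_assoc]
      congr 1
      refine WEqv_twist (fun c => E.tw p (ℓ c)) (fun c => E.tw_ne p _) _ _ o.name _ fun c => ?_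
      obtain ⟨i, q⟩ := o
      by_cases hc : i = c <;> cases s <;> cases q <;> simp [lko, Gen.lko, hc] <;> ring
    | cap l r o s =>
      have h2 := E.curl_cap p _ _ (l.map (lbN ℓ)) (r.map (lbN ℓ)) (lbN ℓ o) s h1
      refine (congrArg _ h2).trans ?_
      rw [← mul_assoc]
      congr 1
      refine WEqv_twist (fun c => E.tw p (ℓ c)) (fun c => E.tw_ne p _) _ _ o.name _ fun c => ?_
      obtain ⟨i, q⟩ := o
      by_cases hc : i = c <;> cases s <;> cases q <;> simp [lko, Gen.lko, hc] <;> ring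
  | symm _ ih => exact ih.symm
  | trans _ _ ih ih' => exact ih.trans ih'

end

theorem Eqv.ev_eq (E : EvSys ι P) {w w' : List (Sl (Nm ι))} (h : Eqv true [] [] w w') (p : P) :
    E.ev p w = E.ev p w' := by
  induction h with
  | refl h => rfl
  | move w₁ u u' w₂ hm h => exact E.move p w₁ u u' w₂ hm h
  | curl w₁ u u' w₂ hf _ _ => exact absurd hf (by decide)
  | symm _ ih => exact ih.symm
  | trans _ _ ih ih' => exact ih.trans ih'

end Pool.Agent.P.MP_ac4909_gt.B
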