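import Pool.Agent.P.MP_ac4909_gt.B.GB_Id

/-! Layer G, blocks: a loop around straight strands. -/

namespace Pool.Agent.P.MP_ac4909_gt.B

open scoped ContDiff
open Set Filter Topology

variable {ι : Type}

section uni

variable {N N' I J : Type} {n : ℕ} {Co : Collar n ι}

/-- one subdivision is a part of another one -/
structure glp_Emb (C : Conf N) (C' : Conf N') (e : N → N') : Prop where
  inj : Function.Injective e
  col : ∀ a, C'.col (e a) = C.col a
  nb : ∀ a s, C'.nb (e a) s = e (C.nb a s)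
  pt : ∀ a, C'.pt (e a) = C.pt a
  arc : ∀ a b, C'.arc (e a) (e b) = C.arc a b

namespace glp_Emb

variable {C : Conf N} {C' : Conf N'} {e : N → N'} (h : glp_Emb C C' e)
include h

theorem star (a : N) : C'.star (e a) = C.star a := by
  simp only [Conf.star, h.nb, h.arc]

theorem win (a : N) : C'.win (e a) = C.win a := by
  simp only [Conf.win, h.nb, h.star]

theorem far {a b : N} (hf : C'.Far (e a) (e b)) : C.Far a b :=
  ⟨fun e' => hf.1 (congrArg e e'), fun s e' => hf.2.1 s ((h.nb a s).trans (congrArg e e')),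
    fun s s' e' => hf.2.2 s s' ((h.nb a s).trans ((congrArg e e').trans (h.nb b s').symm))⟩

theorem mono {i : Fin 3} {a : N} {s : Bool} (hm : C.Mono i a s) : C'.Mono i (e a) s := by
  refine ⟨h.win a ▸ hm.inj, fun t ht => ?_, ?_, ?_, fun t ht => ?_⟩ <;>
    simp only [h.nb, h.pt, ne_eq, h.inj.eq_iff] at *
  exacts [hm.lo₂ t ht, hm.lo₁, hm.hi₁, hm.hi₂ t ht]

end glp_Emb

/-- regrouping of the objects -/
def glp_r {B : Type} : (I ⊕ J) ⊕ B → (I ⊕ B) ⊕ J :=
  Sum.elim (Sum.elim (fun a => .inl (.inl a)) .inr) fun b => .inl (.inr b)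

/-- the disjoint union of a content and a closed chain -/
def glp_uni {B : Type} (C₁ : Conf (I ⊕ B)) (C₂ : Conf J) : Conf ((I ⊕ J) ⊕ B) where
  col a := Sum.elim C₁.col C₂.col (glp_r a)
  nb a s := Sum.elim (fun x => Sum.map .inl id (C₁.nb x s)) (fun j => .inl (.inr (C₂.nb j s)))
    (glp_r a)
  pt a := Sum.elim C₁.pt C₂.pt (glp_r a)
  arc a b := match glp_r a, glp_r b with
    | .inl x, .inl y => C₁.arc x y
    | .inr i, .inr j => C₂.arc i j
    | _, _ => ∅

theorem glp_emb₁ {B : Type} (C₁ : Conf (I ⊕ B)) (C₂ : Conf J) :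
    glp_Emb C₁ (glp_uni C₁ C₂) (Sum.map .inl id) where
  inj := Sum.map_injective.2 ⟨Sum.inl_injective, Function.injective_id⟩
  col := by rintro (a | a) <;> rfl
  nb := by rintro (a | a) s <;> rfl
  pt := by rintro (a | a) <;> rfl
  arc := by rintro (a | a) (b | b) <;> rfl

theorem glp_emb₂ {B : Type} (C₁ : Conf (I ⊕ B)) (C₂ : Conf J) :
    glp_Emb C₂ (glp_uni C₁ C₂) fun j => .inl (.inr j) :=
  ⟨fun _ _ h => Sum.inr_injective (Sum.inl_injective h), fun _ => rfl, fun _ _ => rfl, fun _ => rfl,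
    fun _ _ => rfl⟩

theorem glp_nb {B : Type} {C₁ : Conf (I ⊕ B)} {C₂ : Conf J} {a a' : I ⊕ J} {s : Bool}
    (h : (glp_uni C₁ C₂).nb (.inl a) s = .inl a') :
    (∃ x x', a = .inl x ∧ a' = .inl x' ∧ C₁.nb (.inl x) s = .inl x') ∨
      ∃ j, a = .inr j ∧ a' = .inr (C₂.nb j s) := by
  rcases a with x | j
  · have h' : Sum.map .inl id (C₁.nb (.inl x) s) = .inl a' := h
    rcases e : C₁.nb (.inl x) s with x' | b <;> rw [e] at h'
    · exact Or.inl ⟨x, x', rfl, (Sum.inl_injective h').symm, e⟩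
    · cases h'
  · exact Or.inr ⟨j, rfl, (Sum.inl_injective h).symm⟩

/-- a closed chain is added to a content -/
def glp_add (Ct : Content Co I) (C₂ : Conf J) (hv : C₂.Valid true)
    (box : ∀ j, ∀ p ∈ C₂.star j, ∀ i, |p i| ≤ 3 / 4)
    (sep : ∀ a j, ∃ i, Sep i (Ct.C.star (.inl a)) (C₂.star j) ∨
      Sep i (C₂.star j) (Ct.C.star (.inl a)))
    (Xb Yb : List (I ⊕ J)) (hX : Xb.Nodup) (hY : Yb.Nodup)
    (mX : ∀ a, a ∈ Xb ↔ (glp_uni Ct.C C₂).col (.inl a) = true)
    (mY : ∀ a, a ∈ Yb ↔ (glp_uni Ct.C C₂).col (.inl a) = false)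
    (sX : Xb.Pairwise fun a b => (glp_uni Ct.C C₂).pt (.inl a) 0 ≤ (glp_uni Ct.C C₂).pt (.inl b) 0)
    (sY : Yb.Pairwise fun a b => (glp_uni Ct.C C₂).pt (.inl a) 1 ≤ (glp_uni Ct.C C₂).pt (.inl b) 1)
    (sub : (Ct.Xb.map .inl).Sublist Xb) : Content Co (I ⊕ J) where
  C := glp_uni Ct.C C₂
  bc b := .inl (Ct.bc b)
  lv := Ct.lv
  lb := Sum.elim Ct.lb fun _ => none
  Xb := Xb
  Yb := Yb
  lv_pos := Ct.lv_pos
  lv_le := Ct.lv_le
  col_inr := Ct.col_inr
  nb_inr b s := congrArg (Sum.map Sum.inl id) (Ct.nb_inr b s)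
  nb_eq_inr := by
    rintro (x | j) s b
    · rw [Sum.inl.injEq, ← Ct.nb_eq_inr]
      exact (glp_emb₁ Ct.C C₂).inj.eq_iff (b := .inr b)
    · exact ⟨fun h => (by cases h), fun h => (by cases h.1)⟩
  col_nb := by
    rintro (x | j) s
    · exact ((glp_emb₁ Ct.C C₂).col _).trans (Ct.col_nb x s)
    · exact hv.col_nb j s
  nb_ne := by
    rintro (x | j)
    · exact (glp_emb₁ Ct.C C₂).inj.ne (Ct.nb_ne x)
    · exact (glp_emb₂ Ct.C C₂).inj.ne (hv.nb_ne j)
  adj_symm := by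
    rintro (x | j) s
    · exact (Ct.adj_symm x s).imp fun s' h => ((glp_emb₁ Ct.C C₂).nb _ s').trans (congrArg _ h)
    · exact (hv.adj_symm j s).imp fun s' h => congrArg (fun j => Sum.inl (Sum.inr j)) h
  pt_bc := Ct.pt_bc
  pt_inr := Ct.pt_inr
  arc_bc := Ct.arc_bc
  arc_symm := by
    rintro (x | j) s
    · exact ((glp_emb₁ Ct.C C₂).arc _ (.inl x)).trans
        ((Ct.arc_symm x s).trans ((glp_emb₁ Ct.C C₂).arc (.inl x) _).symm)
    · exact hv.arc_symm j s
  isArc a s a' h := by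
    rcases glp_nb h with ⟨x, x', rfl, rfl, h'⟩ | ⟨j, rfl, rfl⟩
    exacts [Ct.isArc x s x' h', hv.isArc j s]
  box a s a' h := by
    rcases glp_nb h with ⟨x, x', rfl, rfl, h'⟩ | ⟨j, rfl, rfl⟩
    exacts [Ct.box x s x' h', fun p hp => box j p (C₂.arc_subset_star j s hp)]
  sep := by
    have e₁ : ∀ x, (glp_uni Ct.C C₂).star (.inl (.inl x)) = Ct.C.star (.inl x) :=
      fun x => (glp_emb₁ Ct.C C₂).star (.inl x)
    rintro (x | j) (x' | j') h
    · rw [e₁, e₁]
      exact Ct.sep x x' ((glp_emb₁ Ct.C C₂).far (a := .inl x) (b := .inl x') h)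
    · rw [e₁]
      exact sep x j'
    · rw [e₁]
      exact (sep x' j).imp fun _ => Or.symm
    · exact hv.sep j j' ((glp_emb₂ Ct.C C₂).far h)
  mono := by
    rintro (x | j)
    · obtain ⟨i, s, hi, h⟩ := Ct.mono x
      exact ⟨i, s, hi, (glp_emb₁ Ct.C C₂).mono h⟩
    · obtain ⟨i, s, hi, h⟩ := hv.mono j
      exact ⟨i, s, hi rfl, (glp_emb₂ Ct.C C₂).mono h⟩
  zr b b' h h' := by
    have e : ∀ b, (glp_uni Ct.C C₂).pt ((glp_uni Ct.C C₂).nb (.inl (.inl (Ct.bc b))) true) =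
        Ct.C.pt (Ct.C.nb (.inl (Ct.bc b)) true) := fun b => (glp_emb₁ Ct.C C₂).pt _
    rw [e, e]
    exact Ct.zr b b' h h'
  lb_nb a s a' h := by
    rcases glp_nb h with ⟨x, x', rfl, rfl, h'⟩ | ⟨j, rfl, rfl⟩
    exacts [Ct.lb_nb x s x' h', rfl]
  lb_bc := Ct.lb_bc
  nodupX := hX
  nodupY := hY
  memX := mX
  memY := mY
  sortX := sX
  sortY := sY
  subX σ := by
    have := ((Ct.subX σ).map (Sum.inl : I → I ⊕ J)).trans sub
    rwa [List.map_ofFn] at this

theorem glp_pic {Ct : Content Co I} {C₂ : Conf J} {Ct' : Content Co (I ⊕ J)}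
    (hC : Ct'.C = glp_uni Ct.C C₂) (hl : Ct'.lb = Sum.elim Ct.lb fun _ => none) :
    Ct'.pic = Ct.pic ∪ nn C₂.supp := by
  have e₁ : ∀ x, (glp_uni Ct.C C₂).star (.inl (.inl x)) = Ct.C.star (.inl x) :=
    fun x => (glp_emb₁ Ct.C C₂).star (.inl x)
  ext y
  rw [Content.pic, hC, hl]
  constructor
  · rintro ⟨x | j, h1, h2⟩
    · exact Or.inl ⟨x, e₁ x ▸ h1, h2⟩
    · exact Or.inr ⟨h2, mem_iUnion.2 ⟨j, h1⟩⟩
  · rintro (⟨x, h1, h2⟩ | ⟨h2, h1⟩)
    · exact ⟨.inl x, (e₁ x).symm ▸ h1, h2⟩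
    · obtain ⟨j, h1⟩ := mem_iUnion.1 h1
      exact ⟨.inr j, h1, h2⟩

theorem glp_app [DecidableEq N] {R : Rz N} {A B : List N} (h : R.Y = A ++ B) {a b : N}
    (ha : a ∈ A) (hb : b ∉ A) : R.ltY a b := by
  have := List.idxOf_lt_length_of_mem ha
  rw [Rz.ltY, h, List.idxOf_append_of_mem ha, List.idxOf_append_of_notMem hb]
  omega

theorem glp_mid [DecidableEq N] [DecidableEq N'] {R : Rz N} {A B : List N} {M : List N'}
    {φ : N' → N} (hφ : Function.Injective φ) (h : R.Y = A ++ M.map φ ++ B) (hA : ∀ a, φ a ∉ A)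
    {a b : N'} (ha : a ∈ M) (hb : b ∈ M) : R.ltY (φ a) (φ b) ↔ M.idxOf a < M.idxOf b := by
  rw [Rz.ltY, h, List.idxOf_append_of_mem (List.mem_append_right _ (List.mem_map_of_mem ha)),
    List.idxOf_append_of_mem (List.mem_append_right _ (List.mem_map_of_mem hb)),
    List.idxOf_append_of_notMem (hA a), List.idxOf_append_of_notMem (hA b),
    Grid.evb_idxOf_map hφ, Grid.evb_idxOf_map hφ, Nat.add_lt_add_iff_left]

theorem glp_asymm [DecidableEq N] {R : Rz N} {a b : N} (h : R.ltY a b) : ¬ R.ltY b a :=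
  Nat.lt_asymm h

variable [DecidableEq I] (Ct : Content Co I)

theorem glp_idx {a b : I} (ha : a ∈ Ct.Yb) (hb : b ∈ Ct.Yb) :
    Ct.rz.ltY (.inl a) (.inl b) ↔ Ct.Yb.idxOf a < Ct.Yb.idxOf b :=
  glp_mid Sum.inl_injective rfl (by simp) ha hb

theorem glp_lo (a : I) (k : Fin n) : Ct.rz.ltY (.inr (k, false)) (.inl a) :=
  glp_app (List.append_assoc _ _ _) (List.mem_ofFn.2 ⟨k, rfl⟩) (by simp)

theorem glp_hi {a : I} (ha : a ∈ Ct.Yb) (k : Fin n) : Ct.rz.ltY (.inl a) (.inr (k, true)) :=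
  glp_app rfl (List.mem_append_right _ (List.mem_map_of_mem ha)) (by simp)

theorem glp_lt {a b : I} (ha : a ∈ Ct.Yb) (hb : b ∈ Ct.Yb)
    (h : Ct.C.pt (.inl a) 1 < Ct.C.pt (.inl b) 1) : Ct.rz.ltY (.inl a) (.inl b) := by
  rw [glp_idx Ct ha hb]
  have h1 := List.idxOf_lt_length_of_mem ha
  have h2 := List.idxOf_lt_length_of_mem hb
  by_contra hc
  rcases (not_lt.1 hc).eq_or_lt with e | e
  · rw [(List.idxOf_inj hb).1 e] at h
    exact lt_irrefl _ h
  · have := List.pairwise_iff_getElem.1 Ct.sortY _ _ h2 h1 e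
    rw [List.getElem_idxOf, List.getElem_idxOf] at this
    exact absurd h (not_lt.2 this)

theorem glp_tot {a b : I} (ha : a ∈ Ct.Yb) (hb : b ∈ Ct.Yb) (h : a ≠ b) :
    Ct.rz.ltY (.inl a) (.inl b) ∨ Ct.rz.ltY (.inl b) (.inl a) := by
  rw [glp_idx Ct ha hb, glp_idx Ct hb ha]
  have := (List.idxOf_inj (y := b) ha).not.2 h
  omega

end uni

section loop

/-- the cosine, with 36 units for a full turn -/
noncomputable def glp_c (s : ℝ) : ℝ := Real.cos (s * (Real.pi / 18))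

theorem glp_c_neg (s : ℝ) : glp_c (-s) = glp_c s := by
  rw [glp_c, neg_mul, Real.cos_neg, glp_c]

theorem glp_c_sub (s : ℝ) : glp_c (36 - s) = glp_c s := by
  rw [glp_c, glp_c, ← Real.cos_two_pi_sub (s * _)]
  congr 1
  ring

theorem glp_c_per (s : ℝ) : glp_c (s + 36) = glp_c s := by
  rw [← glp_c_sub, ← glp_c_neg s]
  congr 1
  ring

theorem glp_c_lt {a b : ℝ} (h0 : 0 ≤ a) (h : a < b) (h1 : b ≤ 18) : glp_c b < glp_c a := by
  have := Real.pi_pos
  exact Real.cos_lt_cos_of_nonneg_of_le_pi (by positivity) (by nlinarith) (by nlinarith)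

theorem glp_c_le {a b : ℝ} (h0 : 0 ≤ a) (h : a ≤ b) (h1 : b ≤ 18) : glp_c b ≤ glp_c a := by
  rcases h.eq_or_lt with rfl | h
  exacts [le_rfl, (glp_c_lt h0 h h1).le]

theorem glp_c6 : glp_c 6 = 1 / 2 := by
  rw [glp_c, ← Real.cos_pi_div_three]
  congr 1
  ring

theorem glp_c9 : glp_c 9 = 0 := by
  rw [glp_c, ← Real.cos_pi_div_two]
  congr 1
  ring

theorem glp_c12 : glp_c 12 = -1 / 2 := by
  rw [glp_c, show 12 * (Real.pi / 18) = Real.pi - Real.pi / 3 by ring, Real.cos_pi_sub,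
    Real.cos_pi_div_three]
  ring

/-- the interval from `lo` to `hi` is folded into the interval from `u` to `v` -/
def glp_P (lo hi u v : ℤ) : Prop :=
  0 ≤ u ∧ v ≤ 18 ∧ ((u ≤ lo ∧ hi ≤ v) ∨ (u ≤ -hi ∧ -lo ≤ v) ∨ (u ≤ 36 - hi ∧ 36 - lo ≤ v) ∨
    (u = 0 ∧ -lo ≤ v ∧ hi ≤ v) ∨ (v = 18 ∧ u ≤ lo ∧ u ≤ 36 - hi))

instance (lo hi u v : ℤ) : Decidable (glp_P lo hi u v) := by
  unfold glp_P
  infer_instance

theorem glp_bd {lo hi u v : ℤ} (h : glp_P lo hi u v) {s : ℝ} (h1 : lo ≤ s) (h2 : s ≤ hi) :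
    glp_c v ≤ glp_c s ∧ glp_c s ≤ glp_c u := by
  obtain ⟨h0, h18, h⟩ := h
  have a0 : (0 : ℝ) ≤ u := by exact_mod_cast h0
  have a18 : (v : ℝ) ≤ 18 := by exact_mod_cast h18
  have key : ∀ r : ℝ, glp_c r = glp_c s → u ≤ r → r ≤ v →
      glp_c v ≤ glp_c s ∧ glp_c s ≤ glp_c u := fun r e b1 b2 =>
    e ▸ ⟨glp_c_le (by linarith) b2 a18, glp_c_le a0 b1 (by linarith)⟩
  rcases h with ⟨b1, b2⟩ | ⟨b1, b2⟩ | ⟨b1, b2⟩ | ⟨b0, b1, b2⟩ | ⟨b0, b1, b2⟩ <;>
    rify at b1 b2
  · exact key s rfl (by linarith) (by linarith)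
  · exact key (-s) (glp_c_neg s) (by linarith) (by linarith)
  · exact key (36 - s) (glp_c_sub s) (by linarith) (by linarith)
  · rify at b0
    rcases le_total 0 s with hs | hs
    · exact key s rfl (by linarith) (by linarith)
    · exact key (-s) (glp_c_neg s) (by linarith) (by linarith)
  · rify at b0
    rcases le_total s 18 with hs | hs
    · exact key s rfl (by linarith) (by linarith)
    · exact key (36 - s) (glp_c_sub s) (by linarith) (by linarith)

/-- the marked parameters -/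
def glp_T (k : ℤ) : ℤ := k - 3 + 5 * (k / 8) + 5 * ((k + 1) / 8)

/-- tables -/
def glp_tb (l : List ℤ) (a : ZMod 16) : ℤ := l.getD a.val 0

/-- position of a marked point in the first coordinate -/
def glp_U : ZMod 16 → ℤ := glp_tb [3, 2, 1, 0, 1, 2, 3, 9, 15, 16, 17, 18, 17, 16, 15, 9]

/-- position of a marked point in the second coordinate -/
def glp_W : ZMod 16 → ℤ := glp_tb [12, 11, 10, 9, 8, 7, 6, 0, 6, 7, 8, 9, 10, 11, 12, 18]

/-- range of a star -/
def glp_ul : ZMod 16 → ℤ := glp_tb [2, 1, 0, 0, 0, 1, 2, 3, 9, 15, 16, 17, 16, 15, 9, 3]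

/-- range of a star -/
def glp_uh : ZMod 16 → ℤ := glp_tb [9, 3, 2, 1, 2, 3, 9, 15, 16, 17, 18, 18, 18, 17, 16, 15]

/-- range of a star -/
def glp_wl : ZMod 16 → ℤ := glp_tb [11, 10, 9, 8, 7, 6, 0, 0, 0, 6, 7, 8, 9, 10, 11, 12]

/-- range of a star -/
def glp_wh : ZMod 16 → ℤ := glp_tb [18, 12, 11, 10, 9, 8, 7, 6, 7, 8, 9, 10, 11, 12, 18, 18]

/-- the neighbours -/
def glp_n (a : ZMod 16) (s : Bool) : ZMod 16 := if s then a + 1 else a - 1

/-- the columns -/
def glp_col (a : ZMod 16) : Bool := decide (Even a.val)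

theorem glp_isArc {γ : ℝ → E3} (hc : Continuous γ) {t t' : ℝ} (h : t < t')
    (hi : InjOn γ (Icc t t')) : IsArc (γ '' Icc t t') (γ t) (γ t') := by
  have h0 : 0 < t' - t := sub_pos.2 h
  have hm : MapsTo (fun u : ℝ => t + u * (t' - t)) (Icc 0 1) (Icc t t') := fun u hu =>
    ⟨by nlinarith [hu.1], by nlinarith [hu.2]⟩
  refine ⟨fun u => γ (t + u * (t' - t)), (hc.comp (by fun_prop)).continuousOn,
    fun u hu u' hu' e => ?_, by simp, by simp, Subset.antisymm ?_ ?_⟩
  · exact mul_right_cancel₀ h0.ne' (add_left_cancel (hi (hm hu) (hm hu') e))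
  · rintro _ ⟨u, hu, rfl⟩
    refine ⟨(u - t) / (t' - t), ⟨div_nonneg (sub_nonneg.2 hu.1) h0.le,
      (div_le_one h0).2 (by linarith [hu.2])⟩, ?_⟩
    simp only [div_mul_cancel₀ _ h0.ne', add_sub_cancel]
  · rintro _ ⟨u, hu, rfl⟩
    exact ⟨_, hm hu, rfl⟩

variable {f g : ℝ → ℝ}

theorem glp_fc (mf : Monotone f) (sf : StrictMonoOn f (Icc (-1 / 2) (1 / 2))) {a b : ℝ}
    (h0 : 0 ≤ a) (h : a < b) (h1 : b ≤ 18) (h2 : a < 12) (h3 : 6 < b) :
    f (glp_c b) < f (glp_c a) := by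
  have m : ∀ s, 6 ≤ s → s ≤ 12 → glp_c s ∈ Icc (-1 / 2 : ℝ) (1 / 2) := fun s b1 b2 =>
    ⟨glp_c12 ▸ glp_c_le (by linarith) b2 (by norm_num),
      glp_c6 ▸ glp_c_le (by norm_num) b1 (by linarith)⟩
  have a1 : max a 6 < min b 12 := max_lt (lt_min h h2) (lt_min h3 (by norm_num))
  have a2 := le_max_right a 6
  have a3 := min_le_right b 12
  calc f (glp_c b) ≤ f (glp_c (min b 12)) := mf (glp_c_le (by linarith) (min_le_left _ _) h1)
    _ < f (glp_c (max a 6)) := sf (m _ (by linarith) a3) (m _ a2 (by linarith))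
      (glp_c_lt (by linarith) a1 (by linarith))
    _ ≤ f (glp_c a) := mf (glp_c_le h0 (le_max_left _ _) (by linarith))

/-- the loop -/
noncomputable def glp_γ (f g : ℝ → ℝ) (_ : Unit) (t : ℝ) : E3 :=
  !₂[glp_c (36 * t) / 2, f (glp_c (36 * t - 9)), g (glp_c (36 * t - 9))]

/-- the marked parameters -/
noncomputable def glp_τ (_ : Unit) (k : ℤ) : ℝ := glp_T k / 36

theorem glp_mem {k l : ℤ} {t : ℝ} (h : t ∈ Icc (glp_τ () k) (glp_τ () l)) :
    glp_T k ≤ 36 * t ∧ 36 * t ≤ glp_T l := by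
  obtain ⟨h1, h2⟩ := h
  unfold glp_τ at h1 h2
  constructor <;> linarith

theorem glp_wnd (mf : Monotone f) (sf : StrictMonoOn f (Icc (-1 / 2) (1 / 2))) {k : ℤ}
    (h0 : 0 ≤ k) (h1 : k < 16) : ∃ i : Fin 3, i ≠ 2 ∧
      (StrictMonoOn (fun t => glp_γ f g () t i) (wnd glp_τ () k) ∨
        StrictAntiOn (fun t => glp_γ f g () t i) (wnd glp_τ () k)) := by
  have h : (-18 ≤ glp_T (k - 2) ∧ glp_T (k + 2) ≤ 0) ∨ (-3 ≤ glp_T (k - 2) ∧ glp_T (k + 2) ≤ 3) ∨
      (0 ≤ glp_T (k - 2) ∧ glp_T (k + 2) ≤ 18) ∨ (15 ≤ glp_T (k - 2) ∧ glp_T (k + 2) ≤ 21) ∨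
      (18 ≤ glp_T (k - 2) ∧ glp_T (k + 2) ≤ 36) := by
    interval_cases k <;> decide
  rcases h with ⟨b1, b2⟩ | ⟨b1, b2⟩ | ⟨b1, b2⟩ | ⟨b1, b2⟩ | ⟨b1, b2⟩ <;> rify at b1 b2
  · refine ⟨0, by decide, Or.inl fun s hs t ht h => ?_⟩
    change glp_c (36 * s) / 2 < glp_c (36 * t) / 2
    rw [← glp_c_neg, ← glp_c_neg (36 * t)]
    linarith [glp_c_lt (a := -(36 * t)) (b := -(36 * s)) (by linarith [(glp_mem ht).2])
      (by linarith) (by linarith [(glp_mem hs).1])]
  · refine ⟨1, by decide, Or.inl fun s hs t ht h => ?_⟩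
    change f (glp_c (36 * s - 9)) < f (glp_c (36 * t - 9))
    rw [← glp_c_neg, ← glp_c_neg (36 * t - 9)]
    have := (glp_mem ht).2
    have := (glp_mem hs).1
    exact glp_fc mf sf (by linarith) (by linarith) (by linarith) (by linarith) (by linarith)
  · refine ⟨0, by decide, Or.inr fun s hs t ht h => ?_⟩
    change glp_c (36 * t) / 2 < glp_c (36 * s) / 2
    linarith [glp_c_lt (a := 36 * s) (b := 36 * t) (by linarith [(glp_mem hs).1])
      (by linarith) (by linarith [(glp_mem ht).2])]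
  · refine ⟨1, by decide, Or.inr fun s hs t ht h => ?_⟩
    change f (glp_c (36 * t - 9)) < f (glp_c (36 * s - 9))
    have := (glp_mem ht).2
    have := (glp_mem hs).1
    exact glp_fc mf sf (by linarith) (by linarith) (by linarith) (by linarith) (by linarith)
  · refine ⟨0, by decide, Or.inl fun s hs t ht h => ?_⟩
    change glp_c (36 * s) / 2 < glp_c (36 * t) / 2
    rw [← glp_c_sub, ← glp_c_sub (36 * t)]
    linarith [glp_c_lt (a := 36 - 36 * t) (b := 36 - 36 * s) (by linarith [(glp_mem ht).2])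
      (by linarith) (by linarith [(glp_mem hs).1])]

/-- the subdivided loop -/
structure glp_Loop (f g : ℝ → ℝ) (C : Conf (ZMod 16)) : Prop where
  valid : C.Valid true
  col : C.col = glp_col
  nb : C.nb = glp_n
  supp : C.supp = range fun t : ℝ => !₂[Real.cos t / 2, f (Real.sin t), g (Real.sin t)]
  star : ∀ a, ∀ p ∈ C.star a, ∃ x y, p = !₂[x / 2, f y, g y] ∧ glp_c (glp_uh a) ≤ x ∧
    x ≤ glp_c (glp_ul a) ∧ glp_c (glp_wh a) ≤ y ∧ y ≤ glp_c (glp_wl a)
  pt : ∀ a, C.pt a = !₂[glp_c (glp_U a) / 2, f (glp_c (glp_W a)), g (glp_c (glp_W a))]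

theorem glp_exists (cf : Continuous f) (cg : Continuous g) (mf : Monotone f)
    (sf : StrictMonoOn f (Icc (-1 / 2) (1 / 2))) : ∃ C, glp_Loop f g C := by
  have hp : ∀ c t, glp_γ f g c (t + 1) = glp_γ f g c t := fun c t => by
    rw [glp_γ, glp_γ, show 36 * (t + 1) - 9 = 36 * t - 9 + 36 by ring, mul_add, mul_one,
      glp_c_per, glp_c_per]
  have hc : Continuous (glp_γ f g ()) := by
    refine (PiLp.continuous_toLp 2 _).comp (continuous_pi fun i => ?_)
    have : Continuous glp_c := by unfold glp_c; fun_prop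
    fin_cases i <;> simp <;> fun_prop
  have hpc : PC (fun _ => 8) glp_τ := ⟨fun _ => strictMono_int_of_lt_succ fun k => by
    have : glp_T k < glp_T (k + 1) := by unfold glp_T; omega
    unfold glp_τ
    rify at this
    linarith, fun _ k => by
    have : glp_T (k + 2 * (8 : ℕ)) = glp_T k + 36 := by unfold glp_T; omega
    unfold glp_τ
    rw [this]
    push_cast
    ring⟩
  obtain ⟨C, hcol, hnb, h⟩ := GCMdl_build (N := ZMod 16) (ix := fun _ k => (k : ZMod 16)) hp hpc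
    (fun _ => by norm_num) glp_col glp_n (fun a => ⟨(), ZMod.intCast_surjective a⟩)
    (fun c k c' k' => by
      rw [ZMod.intCast_eq_intCast_iff_dvd_sub]
      exact ⟨fun e => ⟨rfl, e⟩, fun e => e.2⟩)
    (fun c k => by
      rw [glp_col, decide_eq_true_iff, ← Int.even_coe_nat, ZMod.val_intCast, Int.even_iff,
        Int.even_iff, Int.emod_emod_of_dvd _ (by norm_num)])
    (fun c k => ⟨true, by simp [glp_n], by simp [glp_n]⟩)
  have hv : ∀ a : ZMod 16, ((a.val : ℤ) : ZMod 16) = a := fun a => by simp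
  have hl : ∀ a : ZMod 16, (0 : ℤ) ≤ a.val ∧ (a.val : ℤ) < 16 := by decide
  have hst : ∀ a, ∀ p ∈ C.star a, ∃ x y, p = !₂[x / 2, f y, g y] ∧ glp_c (glp_uh a) ≤ x ∧
      x ≤ glp_c (glp_ul a) ∧ glp_c (glp_wh a) ≤ y ∧ y ≤ glp_c (glp_wl a) := by
    intro a p hp
    rw [← hv a, h.star ()] at hp
    obtain ⟨t, ht, rfl⟩ := hp
    have ht := glp_mem ht
    have e : ∀ a : ZMod 16, glp_P (glp_T (a.val - 1)) (glp_T (a.val + 1)) (glp_ul a) (glp_uh a) ∧
      glp_P (glp_T (a.val - 1) - 9) (glp_T (a.val + 1) - 9) (glp_wl a) (glp_wh a) := by decide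
    have b1 := glp_bd (e a).1 ht.1 ht.2
    have b2 := glp_bd (s := 36 * t - 9) (e a).2 (by push_cast; linarith [ht.1])
      (by push_cast; linarith [ht.2])
    exact ⟨_, _, rfl, b1.1, b1.2, b2.1, b2.2⟩
  refine ⟨C, ⟨?_, ?_, ?_, fun a s => ?_, fun a s => ?_, fun a b hab => ?_, fun a => ?_⟩, hcol, hnb,
    ?_, hst, fun a => ?_⟩
  · rw [hcol, hnb]
    decide
  · rw [hnb]
    decide
  · rw [hnb]
    decide
  · obtain ⟨c, k, rfl⟩ := h.surj a
    rcases h.nb_cases c k s with e | e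
    · rw [e, h.arc c, h.arc' c]
    · have := h.arc c (k - 1)
      rw [sub_add_cancel] at this
      rw [e, h.arc_pred c, this]
  · obtain ⟨i, -, hi⟩ := glp_wnd (g := g) mf sf (hl a).1 (hl a).2
    have hi : InjOn (glp_γ f g ()) (wnd glp_τ () a.val) := fun s hs t ht e =>
      (hi.elim StrictMonoOn.injOn StrictAntiOn.injOn) hs ht (congrArg (fun p : E3 => p i) e)
    rw [← hv a]
    rcases h.nb_cases () a.val s with e | e
    · rw [e, h.arc (), h.pt (), h.pt ()]
      exact glp_isArc hc (hpc.mono () (by omega)) (hi.mono (Icc_subset_Icc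
        ((hpc.mono ()).monotone (by omega)) ((hpc.mono ()).monotone (by omega))))
    · rw [e, h.arc_pred (), h.pt (), h.pt ()]
      exact (glp_isArc hc (hpc.mono () (by omega)) (hi.mono (Icc_subset_Icc
        ((hpc.mono ()).monotone (by omega)) ((hpc.mono ()).monotone (by omega))))).symm
  · have e : ∀ a b : ZMod 16, a ≠ b → (∀ s, glp_n a s ≠ b) → (∀ s s', glp_n a s ≠ glp_n b s') →
        glp_uh a < glp_ul b ∨ glp_uh b < glp_ul a ∨ glp_wh a < glp_wl b ∨ glp_wh b < glp_wl a := by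
      decide
    have e' : ∀ a : ZMod 16, 0 ≤ glp_uh a ∧ glp_ul a ≤ 18 ∧ 6 ≤ glp_wh a ∧ glp_wl a ≤ 12 := by
      decide
    have s0 : ∀ a b, glp_uh a < glp_ul b → Sep 0 (C.star b) (C.star a) := by
      intro a b e p hp q hq
      obtain ⟨x, y, rfl, -, b1, -⟩ := hst b p hp
      obtain ⟨x', y', rfl, b2, -⟩ := hst a q hq
      change x / 2 < x' / 2
      linarith [glp_c_lt (a := glp_uh a) (b := glp_ul b) (by exact_mod_cast (e' a).1)
        (by exact_mod_cast e) (by exact_mod_cast (e' b).2.1)]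
    have s1 : ∀ a b, glp_wh a < glp_wl b → Sep 1 (C.star b) (C.star a) := by
      intro a b e p hp q hq
      obtain ⟨x, y, rfl, -, -, -, b1⟩ := hst b p hp
      obtain ⟨x', y', rfl, -, -, b2, -⟩ := hst a q hq
      obtain ⟨-, -, c1, -⟩ := e' a
      obtain ⟨-, -, -, c2⟩ := e' b
      rify at e c1 c2
      exact (mf b1).trans_lt ((glp_fc mf sf (by linarith) e (by linarith) (by linarith)
        (by linarith)).trans_le (mf b2))
    rw [Conf.Far, hnb] at hab
    rcases e a b hab.1 hab.2.1 hab.2.2 with e | e | e | e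
    exacts [⟨0, Or.inr (s0 _ _ e)⟩, ⟨0, Or.inl (s0 _ _ e)⟩, ⟨1, Or.inr (s1 _ _ e)⟩,
      ⟨1, Or.inl (s1 _ _ e)⟩]
  · obtain ⟨s, h₁, h₂⟩ := h.nb () a.val
    obtain ⟨i, hi, m | m⟩ := glp_wnd (g := g) mf sf (hl a).1 (hl a).2
    · exact ⟨i, !s, fun _ => hi, hv a ▸ h.mono_up ⟨h₂, by rw [Bool.not_not, h₁]⟩ m⟩
    · exact ⟨i, s, fun _ => hi, hv a ▸ h.mono_down ⟨h₁, h₂⟩ m⟩
  · have e : ∀ t, glp_γ f g () t = (fun t : ℝ =>
        (!₂[Real.cos t / 2, f (Real.sin t), g (Real.sin t)] : E3)) (2 * Real.pi * t) := fun t => by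
      rw [glp_γ, glp_c, glp_c, show (36 * t - 9) * (Real.pi / 18) = 2 * Real.pi * t - Real.pi / 2
        by ring, Real.cos_sub_pi_div_two, show 36 * t * (Real.pi / 18) = 2 * Real.pi * t by ring]
    rw [h.supp]
    ext p
    simp only [trace, mem_iUnion, mem_range, exists_const, e]
    exact ⟨fun ⟨t, ht⟩ => ⟨_, ht⟩, fun ⟨t, ht⟩ => ⟨t / (2 * Real.pi), by
      rwa [mul_div_cancel₀ _ Real.two_pi_pos.ne']⟩⟩
  · have e : ∀ a : ZMod 16, glp_P (glp_T a.val) (glp_T a.val) (glp_U a) (glp_U a) ∧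
      glp_P (glp_T a.val - 9) (glp_T a.val - 9) (glp_W a) (glp_W a) := by decide
    have b1 := glp_bd (e a).1 le_rfl le_rfl
    have b2 := glp_bd (e a).2 le_rfl le_rfl
    rw [le_antisymm b1.1 b1.2, le_antisymm b2.1 b2.2]
    conv_lhs => rw [← hv a, h.pt (), glp_γ, glp_τ, mul_div_cancel₀ _ (by norm_num)]
    push_cast
    rfl

end loop

section word

variable {n : ℕ} {Co : Collar n ι} {x : Fin n → ℝ}

/-- the direction of a column of the loop at an end of a row of the loop -/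
def glp_lc (e v : ZMod 16) : Option Bool :=
  if glp_n v false = e then some (decide (glp_W (glp_n v true) < glp_W e))
  else if glp_n v true = e then some (decide (glp_W (glp_n v false) < glp_W e)) else none

/-- the column does not pass through the row -/
def glp_ok (e v : ZMod 16) : Prop :=
  (∀ s, glp_col (glp_n v s) = false) ∧ glp_W (glp_n v false) ≠ glp_W (glp_n v true) ∧
    (glp_n v false = e ∨ glp_n v true = e ∨ (∀ s, glp_W e < glp_W (glp_n v s)) ∨
      ∀ s, glp_W (glp_n v s) < glp_W e)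

instance (e v : ZMod 16) : Decidable (glp_ok e v) := by
  unfold glp_ok
  infer_instance

theorem glp_two {N β : Type} {l : List N} (hn : l.Nodup) {p q : N} (hp : p ∈ l) (hq : q ∈ l)
    {y : N → ℝ} (hs : l.Pairwise fun a b => y a ≤ y b) (hy : y p < y q) (F : N → List β)
    (h0 : ∀ a ∈ l, a ≠ p → a ≠ q → F a = []) : l.flatMap F = F p ++ F q := by
  rcases WEvs_two hp hq (fun e => hy.ne (congrArg y e)) with ⟨A, B, D, rfl⟩ | ⟨A, B, D, rfl⟩
  · have e : ∀ Z : List N, (∀ a ∈ Z, a ∈ A ∨ a ∈ B ∨ a ∈ D) → Z.flatMap F = [] := fun Z hZ =>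
      List.flatMap_eq_nil_iff.2 fun a ha => by
        have := hZ a ha
        refine h0 a ?_ ?_ ?_ <;> grind
    rw [List.flatMap_append, List.flatMap_cons, List.flatMap_append, List.flatMap_cons,
      e A (by tauto), e B (by tauto), e D (by tauto), List.nil_append, List.nil_append,
      List.append_nil]
  · exact absurd hy (not_lt.2
      ((List.pairwise_cons.1 (List.pairwise_append.1 hs).2.1).1 p (by simp)))

/-- what the computation of the word needs -/
structure glp_Data (Ct : Content Co ((Fin n × Bool ⊕ Fin n) ⊕ ZMod 16)) : Prop where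
  bc : ∀ b, Ct.bc b = .inl (.inl b)
  n₁ : ∀ b, Ct.C.nb (.inl (.inl (.inl b))) true = .inl (.inl (.inr b.1))
  n₂ : ∀ j s, Ct.C.nb (.inl (.inr j)) s = .inl (.inr (glp_n j s))
  lb : ∀ j, Ct.lb (.inr j) = none
  col : ∀ j, Ct.C.col (.inl (.inr j)) = glp_col j
  hX : Ct.Xb = [10, 12, 8, 14].map .inr ++ ((List.finRange n).flatMap fun k =>
    [.inl (.inl (k, false)), .inl (.inl (k, true))]) ++ [0, 6, 2, 4].map .inr
  hy : ∀ a b, glp_col a = false → glp_col b = false → glp_W b < glp_W a →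
    Ct.C.pt (.inl (.inr a)) 1 < Ct.C.pt (.inl (.inr b)) 1
  hz : ∀ _ : Fin n, 0 < Ct.C.pt (.inl (.inr 15)) 2 ∧ Ct.C.pt (.inl (.inr 7)) 2 < 0

namespace glp_Data

variable {Ct : Content Co ((Fin n × Bool ⊕ Fin n) ⊕ ZMod 16)} (h : glp_Data Ct)
include h

theorem n₀ (b : Fin n × Bool) : Ct.C.nb (.inl (.inl (.inl b))) false = .inr b :=
  (Ct.nb_eq_inr _ _ _).2 ⟨(h.bc b).symm, rfl⟩

theorem mem {a : ZMod 16} (ha : glp_col a = false) : .inr a ∈ Ct.Yb :=
  (Ct.memY _).2 ((h.col a).trans ha)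

theorem mem' (k : Fin n) : .inl (.inr k) ∈ Ct.Yb := by
  have := Ct.col_nb (.inl (.inl (k, false))) true
  rw [h.n₁, ← h.bc, Ct.col_bc] at this
  exact (Ct.memY _).2 this

theorem lt {a b : ZMod 16} (ha : glp_col a = false) (hb : glp_col b = false)
    (hw : glp_W b < glp_W a) : Ct.rz.ltY (.inl (.inr a)) (.inl (.inr b)) :=
  glp_lt Ct (h.mem ha) (h.mem hb) (h.hy a b ha hb hw)

theorem lt_iff {a b : ZMod 16} (ha : glp_col a = false) (hb : glp_col b = false)
    (hw : glp_W a ≠ glp_W b) : Ct.rz.ltY (.inl (.inr a)) (.inl (.inr b)) ↔ glp_W b < glp_W a :=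
  ⟨fun e => (lt_or_gt_of_ne hw).resolve_left fun e' => glp_asymm e (h.lt hb ha e'), h.lt ha hb⟩

theorem cell {e v : ZMod 16} (he : glp_col e = false) (ho : glp_ok e v) :
    Ct.grid.cell Ct.rz (.inl (.inr e)) (.inl (.inr v)) = (glp_lc e v).map (Cell.fin Nm.no) := by
  obtain ⟨h1, h2, h3⟩ := ho
  have e1 : ∀ s, Ct.grid.nb (.inl (.inr v)) s = .inl (.inr (glp_n v s)) := h.n₂ v
  have e2 : ∀ j a, Ct.grid.dl (.inl (.inr j)) a = Nm.no := fun j _ => congrArg Nm.mk (h.lb j)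
  simp only [Grid.cell, e1, e2, glp_lc, Sum.inl.injEq, Sum.inr.injEq]
  by_cases c1 : glp_n v false = e
  · subst c1
    rw [if_pos rfl, if_pos rfl, Option.map_some]
    simp only [h.lt_iff he (h1 _) h2]
    split_ifs with c <;> simp only [c, decide_true, decide_false]
  by_cases c2 : glp_n v true = e
  · subst c2
    rw [if_neg c1, if_neg c1, if_pos rfl, if_pos rfl, Option.map_some]
    simp only [h.lt_iff he (h1 _) h2.symm]
    split_ifs with c <;> simp only [c, decide_true, decide_false]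
  rw [if_neg c1, if_neg c1, if_neg c2, if_neg c2]
  rcases (h3.resolve_left c1).resolve_left c2 with c | c
  · rw [if_neg fun d => glp_asymm d.2 (h.lt (h1 _) he (c _)),
      if_neg fun d => glp_asymm d.2 (h.lt (h1 _) he (c _)), Option.map_none]
  · rw [if_neg fun d => glp_asymm d.1 (h.lt he (h1 _) (c _)),
      if_neg fun d => glp_asymm d.1 (h.lt he (h1 _) (c _)), Option.map_none]

theorem side {e : ZMod 16} (he : glp_col e = false) {l : List (ZMod 16)} (ho : ∀ v ∈ l, glp_ok e v)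
    {r : List Bool} (hr : l.filterMap (glp_lc e) = r) :
    ((l.map .inr).map .inl).filterMap (Ct.grid.cell Ct.rz (.inl (.inr e))) =
      r.map (Cell.fin Nm.no) := by
  rw [← hr, List.map_map, List.filterMap_map, List.map_filterMap]
  exact List.filterMap_congr fun v hv => h.cell he (ho v hv)

theorem mid (S : Straight Co x) {e : ZMod 16} (he : glp_col e = false) (o : Bool)
    (ho : ∀ _ : Fin n, decide (Ct.C.pt (.inl (.inr e)) 2 < 0) = o) :
    (((List.finRange n).flatMap fun k => [.inl (.inl (k, false)), .inl (.inl (k, true))]).map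
      .inl).filterMap (Ct.grid.cell Ct.rz (.inl (.inr e))) =
      ((List.ofFn fun k => (⟨Co.lab (k, false)⟩ : Nm ι)).map fun y => (y, o)).map
        fun y => Cell.thru y.1 y.2 := by
  rw [List.ofFn_eq_map, List.map_map, List.map_map, List.map_flatMap, List.filterMap_flatMap,
    List.map_eq_flatMap]
  refine List.flatMap_congr fun k _ => ?_
  have e0 : ∀ b, Ct.grid.nb (.inl (.inl (.inl b))) false = .inr b := h.n₀
  have e1 : ∀ b, Ct.grid.nb (.inl (.inl (.inl b))) true = .inl (.inl (.inr b.1)) := h.n₁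
  have ne : ∀ b s, Ct.grid.nb (.inl (.inl (.inl b))) s ≠ .inl (.inr e) := by
    rintro b (_ | _)
    · rw [e0]; exact Sum.inr_ne_inl
    · rw [e1]; exact fun d => Sum.inl_ne_inr (Sum.inl_injective d)
  have z : ∀ b, decide (Ct.rz.z (.inl (.inr e)) < Ct.rz.z (.inl (.inl (.inl b)))) = o := by
    intro b
    rw [← ho k]
    congr 2
    change Ct.C.pt (.inl (.inl (.inl b))) 2 = 0
    rw [← h.bc, Ct.pt_bc, Collar.cl_two, S.ζ]
  have lo := glp_lo Ct (.inr e) k
  have hi := glp_hi Ct (h.mem he) k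
  rcases glp_tot Ct (h.mem he) (h.mem' k) Sum.inr_ne_inl with c | c
  · have a1 := Grid.evb_cell_thru (G := Ct.grid) Ct.rz false (ne (k, false))
      (by rw [e0]; exact lo) (by rw [Bool.not_false, e1]; exact c)
    have a2 := Grid.evb_cell_none (G := Ct.grid) Ct.rz (ne (k, true)) (by
      rintro (_ | _) d
      · exact glp_asymm hi (e0 _ ▸ d.1)
      · exact glp_asymm c (e1 (k, true) ▸ d.1))
    rw [e0, z] at a1
    simp only [List.map_cons, List.map_nil, List.filterMap_cons, a1, a2, List.filterMap_nil]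
    rfl
  · have a1 := Grid.evb_cell_thru (G := Ct.grid) Ct.rz true (ne (k, true))
      (by rw [e1]; exact c) (by rw [Bool.not_true, e0]; exact hi)
    have a2 := Grid.evb_cell_none (G := Ct.grid) Ct.rz (ne (k, false)) (by
      rintro (_ | _) d
      · exact glp_asymm c (e1 (k, false) ▸ d.2)
      · exact glp_asymm lo (e0 _ ▸ d.2))
    have a3 : Ct.grid.dl (.inl (.inl (.inr k))) (.inl (.inl (.inl (k, true)))) =
        ⟨Co.lab (k, false)⟩ := by
      refine congrArg Nm.mk ((Ct.lb_nb _ _ _ (h.n₁ (k, true))).trans ?_)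
      rw [← h.bc, Ct.lb_bc, S.lab]
    rw [e1, z, a3] at a1
    simp only [List.map_cons, List.map_nil, List.filterMap_cons, a1, a2, List.filterMap_nil]
    rfl

omit h in
theorem thru {e : (Fin n × Bool ⊕ Fin n) ⊕ ZMod 16} {l : List ((Fin n × Bool ⊕ Fin n) ⊕ ZMod 16)}
    (hl : ∀ v ∈ l, ∀ s, Ct.C.nb (.inl v) s ≠ .inl e) :
    ∀ c ∈ (l.map .inl).filterMap (Ct.grid.cell Ct.rz (.inl e)), ∃ y o, c = Cell.thru y o := by
  intro c hc
  obtain ⟨_, hv, hc⟩ := List.mem_filterMap.1 hc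
  obtain ⟨v, hv', rfl⟩ := List.mem_map.1 hv
  exact Grid.WEvs_cell_thru (hl v hv') hc

theorem row_strand (k : Fin n) :
    evOf ((Ct.Xb.map .inl).filterMap (Ct.grid.cell Ct.rz (.inl (.inl (.inr k))))) = [] := by
  obtain ⟨A, B, e⟩ := List.append_of_mem (List.mem_finRange k)
  have hk : k ∉ A := fun d =>
    (List.nodup_append.1 (e ▸ List.nodup_finRange n)).2.2 k d k List.mem_cons_self rfl
  have e0 : ∀ b, Ct.grid.nb (.inl (.inl (.inl b))) false = .inr b := h.n₀
  have e1 : ∀ b, Ct.grid.nb (.inl (.inl (.inl b))) true = .inl (.inl (.inr b.1)) := h.n₁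
  have a1 : ∃ y, Ct.grid.cell Ct.rz (.inl (.inl (.inr k))) (.inl (.inl (.inl (k, false)))) =
      some (.fin y false) := ⟨_, by
    rw [Grid.cell, e0, e1, if_neg Sum.inr_ne_inl, if_pos rfl, if_neg (glp_asymm (glp_lo Ct _ k))]⟩
  have a2 : ∃ y, Ct.grid.cell Ct.rz (.inl (.inl (.inr k))) (.inl (.inl (.inl (k, true)))) =
      some (.fin y (!false)) := ⟨_, by
    rw [Grid.cell, e0, e1, if_neg Sum.inr_ne_inl, if_pos rfl, if_pos (glp_hi Ct (h.mem' k) k)]
    rfl⟩
  obtain ⟨y, a1⟩ := a1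
  obtain ⟨y', a2⟩ := a2
  rw [h.hX, e, List.flatMap_append, List.flatMap_cons, ← List.append_assoc, List.append_assoc,
    List.map_append, List.filterMap_append, List.cons_append, List.cons_append, List.cons_append,
    List.cons_append, List.map_cons (l := _ :: (_ ++ _)), List.map_cons (l := _ ++ _),
    List.filterMap_cons_some a1, List.filterMap_cons_some a2]
  refine Grid.evb_evLeft_nil _ _ (thru fun v hv s => ?_) _ _ _ _
  rcases List.mem_append.1 hv with hv | hv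
  · obtain ⟨j, -, rfl⟩ := List.mem_map.1 hv
    rw [h.n₂]
    exact fun d => Sum.inr_ne_inl (Sum.inl_injective d)
  · obtain ⟨k', hk', hv⟩ := List.mem_flatMap.1 hv
    obtain ⟨σ, rfl⟩ : ∃ σ, v = .inl (.inl (k', σ)) := by
      simp only [List.mem_cons, List.not_mem_nil, or_false] at hv
      exact hv.elim (fun d => ⟨_, d⟩) fun d => ⟨_, d⟩
    cases s
    · rw [h.n₀]
      exact Sum.inr_ne_inl
    · rw [h.n₁]
      exact fun d => hk (Sum.inr_injective (Sum.inl_injective (Sum.inl_injective d)) ▸ hk')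

theorem word (S : Straight Co x) :
    Ct.word = encW [] (List.ofFn fun k => (⟨Co.lab (k, false)⟩ : Nm ι)) [] := by
  rw [Content.word, Grid.evs, List.flatMap_map,
    glp_two Ct.nodupY (h.mem (a := 15) (by decide)) (h.mem (a := 7) (by decide)) Ct.sortY
      (h.hy 15 7 (by decide) (by decide) (by decide))]
  · simp only [h.hX, List.map_append, List.filterMap_append]
    rw [h.side (e := 15) (r := [true]) (by decide) (by decide) (by decide),
      h.side (e := 15) (r := [true]) (by decide) (by decide) (by decide),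
      h.side (e := 7) (r := [false]) (by decide) (by decide) (by decide),
      h.side (e := 7) (r := [false]) (by decide) (by decide) (by decide),
      h.mid S (by decide) false fun k => decide_eq_false (h.hz k).1.not_gt,
      h.mid S (by decide) true fun k => decide_eq_true (h.hz k).2]
    refine (congrArg₂ _ (evOf_eq [] _ [] _ _ true true) (evOf_eq [] _ [] _ _ false false)).trans ?_
    simp only [event, encW, List.map_map, Function.comp_def, List.map_id', List.map_nil,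
      List.append_assoc, List.cons_append]
  · rintro ((b | k) | e) ha h1 h2
    · have := (Ct.memY _).1 ha
      rw [← h.bc, Ct.col_bc] at this
      cases this
    · exact h.row_strand k
    · have he := (h.col e).symm.trans ((Ct.memY _).1 ha)
      have d : ∀ e : ZMod 16, glp_col e = false → e ≠ 15 → e ≠ 7 → ∃ u,
          ((∀ v ∈ [10, 12, 8, 14], glp_ok e v) ∧
            [10, 12, 8, 14].filterMap (glp_lc e) = [u, !u]) ∨
          ((∀ v ∈ [10, 12, 8, 14], ∀ s, glp_n v s ≠ e) ∧ (∀ v ∈ [0, 6, 2, 4], glp_ok e v) ∧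
            [0, 6, 2, 4].filterMap (glp_lc e) = [u, !u]) := by decide
      rw [h.hX]
      obtain ⟨u, ⟨d1, d2⟩ | ⟨d1, d2, d3⟩⟩ := d e he (fun d => h1 (congrArg _ d))
        fun d => h2 (congrArg _ d)
      · rw [List.append_assoc, List.map_append, List.filterMap_append, h.side he d1 d2]
        exact Grid.evb_evLeft_nil [] _ (fun _ d => absurd d List.not_mem_nil) _ _ _ _
      · rw [List.map_append, List.filterMap_append, h.side he d2 d3, List.map_append,
          List.filterMap_append, h.mid S he _ fun k => rfl]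
        refine Grid.evb_evLeft_nil _ [] (fun c hc => ?_) _ _ _ _
        rcases List.mem_append.1 hc with hc | hc
        · refine thru (fun v hv s => ?_) c hc
          obtain ⟨j, hj, rfl⟩ := List.mem_map.1 hv
          rw [h.n₂]
          exact fun d => d1 j hj s (Sum.inr_injective (Sum.inl_injective d))
        · obtain ⟨y, -, rfl⟩ := List.mem_map.1 hc
          exact ⟨_, _, rfl⟩

end glp_Data

theorem glp_nodup {I J : Type} {A B : List J} {M : List I} (h : (A ++ B).Nodup) (hM : M.Nodup) :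
    (A.map Sum.inr ++ M.map Sum.inl ++ B.map Sum.inr).Nodup := by
  have h1 : ((A ++ B).map Sum.inr ++ M.map Sum.inl).Nodup :=
    List.nodup_append.2 ⟨h.map Sum.inr_injective, hM.map Sum.inl_injective, by simp⟩
  rw [List.map_append, List.append_assoc] at h1
  rw [List.append_assoc]
  exact (List.perm_append_comm.append_left _).nodup_iff.1 h1

theorem glp_main (S : Straight Co x) (hx : ∀ k, |x k| ≤ 1 / 4) {f g : ℝ → ℝ} (cf : Continuous f)
    (cg : Continuous g) (mf : Monotone f) (sf : StrictMonoOn f (Icc (-1 / 2) (1 / 2)))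
    (bf : ∀ s, |s| ≤ 1 → |f s| ≤ 3 / 4) (bg : ∀ s, |g s| ≤ 3 / 4)
    (hg : ∀ (_ : Fin n) (s : ℝ), (0 < s → g s < 0) ∧ (s < 0 → 0 < g s)) :
    HasContent Co ({y | ∃ k, y.1 = Co.lab (k, false) ∧ y.2 0 = x k ∧ y.2 2 = 0} ∪
      nn (range fun t : ℝ => !₂[Real.cos t / 2, f (Real.sin t), g (Real.sin t)]))
      (encW [] (List.ofFn fun k => (⟨Co.lab (k, false)⟩ : Nm ι)) []) := by
  obtain ⟨Ct, -, hbc, n₁, -, hX, -, hp, -⟩ := exists_idContent S
  obtain ⟨C, hC⟩ := glp_exists cf cg mf sf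
  have c1 : ∀ s, |glp_c s| ≤ 1 := fun s => Real.abs_cos_le_one _
  have st : ∀ a, ∀ p ∈ Ct.C.star (.inl a), ∃ k, p 0 = x k ∧ p 2 = 0 := fun a p ha =>
    (hp.subset (⟨a, ha, rfl⟩ : (Ct.lb a, p) ∈ Ct.pic)).imp fun k hk => hk.2
  have px : ∀ a b, glp_U b ≤ glp_U a → C.pt a 0 ≤ C.pt b 0 := fun a b e => by
    have d : ∀ a, 0 ≤ glp_U a ∧ glp_U a ≤ 18 := by decide
    rw [hC.pt, hC.pt]
    change glp_c _ / 2 ≤ glp_c _ / 2
    linarith [glp_c_le (a := glp_U b) (b := glp_U a) (by exact_mod_cast (d b).1)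
      (by exact_mod_cast e) (by exact_mod_cast (d a).2)]
  let y : (Fin n × Bool ⊕ Fin n) ⊕ ZMod 16 → ℝ := fun a => (glp_uni Ct.C C).pt (.inl a) 1
  have pm := List.mergeSort_perm ([].map Sum.inr ++ Ct.Yb.map Sum.inl ++
    ([1, 3, 5, 7, 9, 11, 13, 15] : List (ZMod 16)).map Sum.inr) fun a b => decide (y a ≤ y b)
  refine ⟨_, inferInstance, inferInstance, glp_add Ct C hC.valid (fun j p hp i => ?_)
    (fun a j => ?_) ([10, 12, 8, 14].map .inr ++ Ct.Xb.map .inl ++ [0, 6, 2, 4].map .inr) _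
    (glp_nodup (by decide) Ct.nodupX) (pm.nodup_iff.2 (glp_nodup (by decide) Ct.nodupY)) ?_ ?_ ?_
    ((List.pairwise_mergeSort (fun a b c d e => decide_eq_true ((of_decide_eq_true d).trans
      (of_decide_eq_true e))) (fun a b => by simpa using le_total _ _) _).imp of_decide_eq_true)
    ((List.sublist_append_right _ _).trans (List.sublist_append_left _ _)), fun y _ => ?_,
    glp_Data.word ⟨fun b => congrArg Sum.inl (congrFun hbc b),
      fun b => congrArg (Sum.map Sum.inl id) (n₁ b), fun j s => ?_, fun _ => rfl,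
      congrFun hC.col, ?_, fun a b ha hb e => ?_, fun k => ?_⟩ S⟩
  · obtain ⟨u, v, rfl, b1, b2, b3, b4⟩ := hC.star j p hp
    have := fun s => abs_le.1 (c1 s)
    fin_cases i
    · exact abs_le.2 (show -(3 / 4) ≤ u / 2 ∧ u / 2 ≤ 3 / 4 from
        ⟨by linarith [(this (glp_uh j)).1], by linarith [(this (glp_ul j)).2]⟩)
    · exact bf v (abs_le.2 ⟨(this _).1.trans b3, b4.trans (this _).2⟩)
    · exact bg v
  · have d : ∀ j, 0 ≤ glp_uh j ∧ glp_ul j ≤ 18 ∧ 0 ≤ glp_wh j ∧ glp_wl j ≤ 18 ∧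
        (glp_uh j < 6 ∨ 12 < glp_ul j ∨ glp_wh j < 9 ∨ 9 < glp_wl j) := by decide
    obtain ⟨d1, d2, d3, d4, d | d | d | d⟩ := d j <;> rify at d1 d2 d3 d4 d
    · refine ⟨0, Or.inl fun p hp q hq => ?_⟩
      obtain ⟨u, v, rfl, b, -⟩ := hC.star j q hq
      obtain ⟨k, e, -⟩ := st a p hp
      change _ < u / 2
      linarith [glp_c_lt d1 d (by norm_num), glp_c6, (abs_le.1 (hx k)).2]
    · refine ⟨0, Or.inr fun q hq p hp => ?_⟩
      obtain ⟨u, v, rfl, -, b, -⟩ := hC.star j q hq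
      obtain ⟨k, e, -⟩ := st a p hp
      change u / 2 < _
      linarith [glp_c_lt (by norm_num) d d2, glp_c12, (abs_le.1 (hx k)).1]
    · refine ⟨2, Or.inr fun q hq p hp => ?_⟩
      obtain ⟨u, v, rfl, -, -, b, -⟩ := hC.star j q hq
      obtain ⟨k, -, e⟩ := st a p hp
      exact ((hg k v).1 (by linarith [glp_c_lt d3 d (by norm_num), glp_c9])).trans_eq e.symm
    · refine ⟨2, Or.inl fun p hp q hq => ?_⟩
      obtain ⟨u, v, rfl, -, -, -, b⟩ := hC.star j q hq
      obtain ⟨k, -, e⟩ := st a p hp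
      exact e.trans_lt ((hg k v).2 (by linarith [glp_c_lt (by norm_num) d d4, glp_c9]))
  · rintro (a | j)
    · exact Iff.trans (by simp) (Ct.memX a)
    · have d : ∀ j : ZMod 16, j ∈ [10, 12, 8, 14] ∨ j ∈ [0, 6, 2, 4] ↔ glp_col j = true := by
        decide
      rw [← hC.col] at d
      exact Iff.trans (by simp only [List.mem_append, List.mem_map, Sum.inr.injEq, exists_eq_right,
        reduceCtorEq, and_false, exists_false, or_false]) (d j)
  · rintro (a | j) <;> rw [pm.mem_iff]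
    · exact Iff.trans (by simp) (Ct.memY a)
    · have d : ∀ j : ZMod 16, j ∈ [1, 3, 5, 7, 9, 11, 13, 15] ↔ glp_col j = false := by decide
      rw [← hC.col] at d
      exact Iff.trans (by simp only [List.mem_append, List.mem_map, Sum.inr.injEq, exists_eq_right,
        reduceCtorEq, and_false, exists_false, or_false, List.not_mem_nil, false_or]) (d j)
  · have q1 : C.pt 8 0 ≤ -1 / 4 ∧ 1 / 4 ≤ C.pt 0 0 := by
      rw [hC.pt, hC.pt]
      change glp_c ((15 : ℤ) : ℝ) / 2 ≤ _ ∧ _ ≤ glp_c ((3 : ℤ) : ℝ) / 2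
      push_cast
      have b1 := glp_c_le (a := 12) (b := 15) (by norm_num) (by norm_num) (by norm_num)
      have b2 := glp_c_le (a := 3) (b := 6) (by norm_num) (by norm_num) (by norm_num)
      exact ⟨by linarith [glp_c12], by linarith [glp_c6]⟩
    have q2 : ∀ a, -1 / 4 ≤ Ct.C.pt (.inl a) 0 ∧ Ct.C.pt (.inl a) 0 ≤ 1 / 4 := fun a => by
      obtain ⟨k, e, -⟩ := st a _ (Ct.pt_mem_star a)
      exact ⟨by linarith [(abs_le.1 (hx k)).1], by linarith [(abs_le.1 (hx k)).2]⟩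
    have q3 : ∀ j ∈ [10, 12, 8, 14], glp_U 8 ≤ glp_U j := by decide
    have q4 : ∀ j ∈ [0, 6, 2, 4], glp_U j ≤ glp_U 0 := by decide
    simp only [List.pairwise_append, List.pairwise_map, List.mem_append, List.mem_map]
    refine ⟨⟨List.Pairwise.imp (px _ _) (by decide), Ct.sortX, ?_⟩,
      List.Pairwise.imp (px _ _) (by decide), ?_⟩
    · rintro _ ⟨j, hj, rfl⟩ _ ⟨a, -, rfl⟩
      exact ((px _ _ (q3 j hj)).trans q1.1).trans (q2 a).1
    · rintro _ (⟨j, hj, rfl⟩ | ⟨a, -, rfl⟩) _ ⟨j', hj', rfl⟩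
      · exact px _ _ ((q4 j' hj').trans (le_trans (by decide) (q3 j hj)))
      · exact (q2 a).2.trans (q1.2.trans (px _ _ (q4 j' hj')))
  · rw [glp_pic (Ct := Ct) (C₂ := C) rfl rfl, hp, hC.supp]
  · exact congrArg (fun j => Sum.inl (Sum.inr j)) (congrFun (congrFun hC.nb j) s)
  · change _ ++ Ct.Xb.map _ ++ _ = _
    rw [hX, List.map_flatMap]
    rfl
  · have d : ∀ a, glp_col a = false → 0 ≤ glp_W a ∧ glp_W a ≤ 18 ∧
      (glp_W a < 12 ∨ glp_W a = 18) ∧ (6 < glp_W a ∨ glp_W a = 0) := by decide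
    have d1 := d a ha
    have d2 := d b hb
    change C.pt a 1 < C.pt b 1
    rw [hC.pt, hC.pt]
    exact glp_fc mf sf (by exact_mod_cast d2.1) (by exact_mod_cast e) (by exact_mod_cast d1.2.1)
      (by exact_mod_cast (by omega : glp_W b < 12)) (by exact_mod_cast (by omega : 6 < glp_W a))
  · change 0 < C.pt 15 2 ∧ C.pt 7 2 < 0
    rw [hC.pt, hC.pt]
    change 0 < g (glp_c ((18 : ℤ) : ℝ)) ∧ g (glp_c ((0 : ℤ) : ℝ)) < 0
    push_cast
    exact ⟨(hg k _).2 ((glp_c_lt (by norm_num) (by norm_num) le_rfl).trans_eq glp_c9),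
      (hg k _).1 (glp_c9.symm.trans_lt (glp_c_lt le_rfl (by norm_num) (by norm_num)))⟩

end word

theorem hasContent_loop (xs : List (ℝ × Option ι)) (h : PosOK (xs.map Prod.fst)) :
    HasContent (vcol xs h) (strands xs ∪ nn encLoop)
      (encW [] (xs.map fun x => (⟨x.2⟩ : Nm ι)) []) := by
  have h0 : st 0 = 0 := by linarith [st_neg 0, congrArg st neg_zero]
  have h1 : ∀ s, 0 < s → 0 < st s := fun s hs => by
    have a := st_strictMonoOn (a := 0) (b := min s (1 / 2)) ⟨by norm_num, by norm_num⟩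
      ⟨by linarith [lt_min hs one_half_pos], min_le_right _ _⟩ (lt_min hs one_half_pos)
    linarith [st_monotone (min_le_left s (1 / 2))]
  have c := st_contDiff.continuous
  have := glp_main (vcol_straight xs h)
    (fun k => h.2 _ (List.mem_map_of_mem (List.get_mem xs k))) (f := fun s => st s / 2)
    (g := fun s => -st s / 2) (by fun_prop) (by fun_prop)
    (fun a b e => by linarith [st_monotone e]) (fun a ha b hb e => by
      linarith [st_strictMonoOn ha hb e])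
    (fun s _ => abs_le.2 (by constructor <;> linarith [abs_le.1 (abs_st_le s)]))
    (fun s => abs_le.2 (by constructor <;> linarith [abs_le.1 (abs_st_le s)]))
    fun _ s => ⟨fun e => by linarith [h1 s e], fun e => by
      linarith [h1 (-s) (neg_pos.2 e), st_neg s]⟩
  rw [vcol_lab] at this
  refine this.congr fun y _ => or_congr_left ⟨fun ⟨k, hk⟩ => ⟨_, List.get_mem xs k, hk⟩, ?_⟩
  rintro ⟨z, hz, hk⟩
  obtain ⟨k, rfl⟩ := List.get_of_mem hz
  exact ⟨k, hk⟩

theorem hasContent_unknot (h : PosOK (([] : List (ℝ × Option ι)).map Prod.fst)) :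
    HasContent (vcol [] h) (nn unknot) (encW [] [] []) :=
  (glp_main (vcol_straight [] h) (fun k => k.elim0) (f := fun s => s / 2) (g := fun _ => 0)
    (by fun_prop) (by fun_prop) (fun a b e => by linarith) (fun a _ b _ e => by linarith)
    (fun s hs => abs_le.2 (by constructor <;> linarith [abs_le.1 hs])) (fun s => by norm_num)
    fun k => k.elim0).congr fun _ _ => or_iff_right fun ⟨k, _⟩ => k.elim0

end Pool.Agent.P.MP_ac4909_gt.B
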