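import Pool.Agent.P.MP_ac4909_gt.B.GC_Cert

/-! Layer G, core: vertical doubling of a subdivision. -/

namespace Pool.Agent.P.MP_ac4909_gt.B

open scoped ContDiff
open Set Filter Topology

variable {κ α β N : Type} {C : Conf N} {D : N → Bool} {hD : ∀ a s, D (C.nb a s) = D a}
  {x y d η : ℝ}

theorem GCDbl_ne {i : Fin 3} (hi : i ≠ 2) (p : E3) (t : ℝ) : (p + t • ez) i = p i := by
  fin_cases i
  · simp [ez]
  · simp [ez]
  · exact absurd rfl hi

theorem GCDbl_two (p : E3) (t : ℝ) : (p + t • ez) 2 = p 2 + t := by simp [ez]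

theorem GCDbl_abs (hx : |x| ≤ d / 2) (hy : |y| ≤ d / 2) (a : N ⊕ {a // D a = true}) :
    |dsh D x y a| ≤ d / 2 := by
  rcases a with a | a
  · have : dsh D x y (.inl a) = if D a then x else 0 := rfl
    rw [this]
    split_ifs
    · exact hx
    · rw [abs_zero]
      exact (abs_nonneg _).trans hx
  · exact hy

theorem GCDbl_isArc {A : Set E3} {p q : E3} (h : IsArc A p q) (v : E3) :
    IsArc ((fun p => p + v) '' A) (p + v) (q + v) := by
  obtain ⟨g, hc, hi, h0, h1, rfl⟩ := h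
  refine ⟨fun t => g t + v, hc.add continuousOn_const, fun s hs t ht e => hi hs ht ?_,
    congrArg (· + v) h0, congrArg (· + v) h1, image_image _ _ _⟩
  exact add_right_cancel e

theorem GCDbl_sep {i : Fin 3} (hi : i ≠ 2) {A B : Set E3} (h : Sep i A B) (s t : ℝ) :
    Sep i ((fun p => p + s • ez) '' A) ((fun p => p + t • ez) '' B) := by
  rintro _ ⟨p, hp, rfl⟩ _ ⟨q, hq, rfl⟩
  simp only [GCDbl_ne hi]
  exact h p hp q hq

theorem GCDbl_sep_two {A B : Set E3} {s t : ℝ} (h : ∀ p ∈ A, ∀ q ∈ B, p 2 + s < q 2 + t) :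
    Sep 2 ((fun p => p + s • ez) '' A) ((fun p => p + t • ez) '' B) := by
  rintro _ ⟨p, hp, rfl⟩ _ ⟨q, hq, rfl⟩
  simp only [GCDbl_two]
  exact h p hp q hq

/-- in different sheets the shifts are `x` and `y` -/
theorem GCDbl_sheets {a b : N ⊕ {a // D a = true}} (h : a.isRight ≠ b.isRight)
    (e : D (Sum.elim id Subtype.val a) = D (Sum.elim id Subtype.val b)) :
    |dsh D x y a - dsh D x y b| = |x - y| := by
  rcases a with a | a <;> rcases b with b | b
  · exact absurd rfl h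
  · have e' : D a = true := e.trans b.2
    have : dsh D x y (.inl a) = if D a then x else 0 := rfl
    rw [this, if_pos e']
    rfl
  · have e' : D b = true := e.symm.trans a.2
    have : dsh D x y (.inl b) = if D b then x else 0 := rfl
    rw [this, if_pos e', abs_sub_comm]
    rfl
  · exact absurd rfl h

namespace Conf

theorem dbl_nb (a : N ⊕ {a // D a = true}) (s : Bool) :
    Sum.elim id Subtype.val ((C.dbl D hD x y).nb a s) = C.nb (Sum.elim id Subtype.val a) s := by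
  cases a <;> rfl

theorem dbl_col (a : N ⊕ {a // D a = true}) :
    (C.dbl D hD x y).col a = C.col (Sum.elim id Subtype.val a) := by
  cases a <;> rfl

theorem dsh_nb (a : N ⊕ {a // D a = true}) (s : Bool) :
    dsh D x y ((C.dbl D hD x y).nb a s) = dsh D x y a := by
  rcases a with a | a
  · change (if D (C.nb a s) then x else 0) = if D a then x else 0
    rw [hD]
  · rfl

theorem dbl_star (a : N ⊕ {a // D a = true}) : (C.dbl D hD x y).star a =
    (fun p => p + dsh D x y a • ez) '' C.star (Sum.elim id Subtype.val a) := by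
  unfold star
  rw [image_union, ← dbl_nb (hD := hD) (x := x) (y := y), ← dbl_nb (hD := hD) (x := x) (y := y)]
  rfl

theorem GCDbl_isRight (a : N ⊕ {a // D a = true}) (s : Bool) :
    ((C.dbl D hD x y).nb a s).isRight = a.isRight := by
  cases a <;> rfl

theorem GCDbl_pt (a : N ⊕ {a // D a = true}) :
    (C.dbl D hD x y).pt a = C.pt (Sum.elim id Subtype.val a) + dsh D x y a • ez := rfl

theorem GCDbl_arc (a b : N ⊕ {a // D a = true}) :
    (C.dbl D hD x y).arc a b = (fun p => p + dsh D x y a • ez) ''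
      C.arc (Sum.elim id Subtype.val a) (Sum.elim id Subtype.val b) := rfl

theorem GCDbl_pt_ne {i : Fin 3} (hi : i ≠ 2) (a : N ⊕ {a // D a = true}) :
    (C.dbl D hD x y).pt a i = C.pt (Sum.elim id Subtype.val a) i := GCDbl_ne hi _ _

theorem GCDbl_pt_two (a : N ⊕ {a // D a = true}) :
    (C.dbl D hD x y).pt a 2 = C.pt (Sum.elim id Subtype.val a) 2 + dsh D x y a := GCDbl_two _ _

theorem GCDbl_win (a : N ⊕ {a // D a = true}) : (C.dbl D hD x y).win a =
    (fun p => p + dsh D x y a • ez) '' C.win (Sum.elim id Subtype.val a) := by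
  unfold win
  rw [image_union, dbl_star, dbl_star, dbl_nb, dbl_nb, dsh_nb, dsh_nb]

theorem GCDbl_pt_mem (hC : C.Valid true) (a : N ⊕ {a // D a = true}) :
    (C.dbl D hD x y).pt a ∈ (C.dbl D hD x y).star a := by
  rw [dbl_star]
  exact ⟨_, hC.pt_mem_star _, rfl⟩

theorem GCDbl_nb_mem (hC : C.Valid true) (a : N ⊕ {a // D a = true}) (s : Bool) :
    (C.dbl D hD x y).pt ((C.dbl D hD x y).nb a s) ∈ (C.dbl D hD x y).star a := by
  rw [dbl_star, GCDbl_pt, dbl_nb, dsh_nb]
  exact ⟨_, hC.nb_mem_star _ s, rfl⟩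

/-- a gap `d` survives the shifts -/
theorem GCDbl_gap (hx : |x| ≤ d / 2) (hy : |y| ≤ d / 2) {a b : N ⊕ {a // D a = true}}
    (h : C.pt (Sum.elim id Subtype.val a) 2 + d < C.pt (Sum.elim id Subtype.val b) 2) :
    (C.dbl D hD x y).pt a 2 < (C.dbl D hD x y).pt b 2 := by
  rw [GCDbl_pt_two, GCDbl_pt_two]
  linarith [(abs_le.1 (GCDbl_abs hx hy a)).2, (abs_le.1 (GCDbl_abs hx hy b)).1]

/-- pairs in different sheets with images at distance at most two are separated by the height -/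
theorem GCDbl_near (hC : C.Valid true)
    (hη : ∀ a, ∀ p ∈ C.star a, ∀ q ∈ C.star a, dist p q < η) (hxy : 2 * η ≤ |x - y|)
    {a b : N ⊕ {a // D a = true}} (h : a.isRight ≠ b.isRight)
    (hn : ¬ C.Far (Sum.elim id Subtype.val a) (Sum.elim id Subtype.val b)) :
    Sep 2 ((C.dbl D hD x y).star a) ((C.dbl D hD x y).star b) ∨
      Sep 2 ((C.dbl D hD x y).star b) ((C.dbl D hD x y).star a) := by
  obtain ⟨e, m, hm, hm'⟩ : D (Sum.elim id Subtype.val a) = D (Sum.elim id Subtype.val b) ∧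
      ∃ m, m ∈ C.star (Sum.elim id Subtype.val a) ∧ m ∈ C.star (Sum.elim id Subtype.val b) := by
    unfold Far at hn
    by_cases h1 : Sum.elim id Subtype.val a = Sum.elim id Subtype.val b
    · rw [h1]
      exact ⟨rfl, _, hC.pt_mem_star _, hC.pt_mem_star _⟩
    by_cases h2 : ∃ s, C.nb (Sum.elim id Subtype.val a) s = Sum.elim id Subtype.val b
    · obtain ⟨s, hs⟩ := h2
      rw [← hs]
      exact ⟨(hD _ s).symm, _, hC.nb_mem_star _ s, hC.pt_mem_star _⟩
    have h3 : ∃ s s', C.nb (Sum.elim id Subtype.val a) s = C.nb (Sum.elim id Subtype.val b) s' := by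
      by_contra h3
      exact hn ⟨h1, fun s e => h2 ⟨s, e⟩, fun s s' e => h3 ⟨s, s', e⟩⟩
    obtain ⟨s, s', hs⟩ := h3
    refine ⟨by rw [← hD _ s, hs, hD], _, hC.nb_mem_star _ s, ?_⟩
    rw [hs]
    exact hC.nb_mem_star _ s'
  have h4 := GCDbl_sheets (x := x) (y := y) h e
  have h5 : ∀ p ∈ C.star (Sum.elim id Subtype.val a), ∀ q ∈ C.star (Sum.elim id Subtype.val b),
      |p 2 - q 2| < 2 * η := by
    intro p hp q hq
    have k1 := hη _ p hp m hm
    have k2 := hη _ m hm' q hq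
    have k3 := dist_triangle p m q
    have k4 := PiLp.dist_apply_le p q 2
    rw [Real.dist_eq] at k4
    linarith
  rw [dbl_star, dbl_star]
  rcases le_total (dsh D x y a) (dsh D x y b) with k | k
  · rw [abs_of_nonpos (sub_nonpos.2 k)] at h4
    refine Or.inl (GCDbl_sep_two fun p hp q hq => ?_)
    linarith [(abs_lt.1 (h5 p hp q hq)).2]
  · rw [abs_of_nonneg (sub_nonneg.2 k)] at h4
    refine Or.inr (GCDbl_sep_two fun q hq p hp => ?_)
    linarith [(abs_lt.1 (h5 p hp q hq)).1]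

theorem GCDbl_mono {i : Fin 3} (hi : i ≠ 2) {a : N ⊕ {a // D a = true}} {s : Bool}
    (h : C.Mono i (Sum.elim id Subtype.val a) s) : (C.dbl D hD x y).Mono i a s := by
  have key : ∀ s t, (C.dbl D hD x y).nb ((C.dbl D hD x y).nb a s) t ≠ a →
      C.nb (C.nb (Sum.elim id Subtype.val a) s) t ≠ Sum.elim id Subtype.val a := by
    intro s t hne e
    refine hne (wd_und_ext ?_ (by rw [GCDbl_isRight, GCDbl_isRight]))
    unfold wd_und
    rw [dbl_nb, dbl_nb, e]
  refine ⟨?_, fun t ht => ?_, ?_, ?_, fun t ht => ?_⟩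
  · rw [GCDbl_win]
    rintro _ ⟨p, hp, rfl⟩ _ ⟨q, hq, rfl⟩ e
    simp only [GCDbl_ne hi] at e
    rw [h.inj hp hq e]
  · simp only [GCDbl_pt_ne hi, dbl_nb]
    exact h.lo₂ t (key _ _ ht)
  · simp only [GCDbl_pt_ne hi, dbl_nb]
    exact h.lo₁
  · simp only [GCDbl_pt_ne hi, dbl_nb]
    exact h.hi₁
  · simp only [GCDbl_pt_ne hi, dbl_nb]
    exact h.hi₂ t (key _ _ ht)

theorem dbl_valid (hC : C.Valid true) (hM : C.Margin d)
    (hη : ∀ a, ∀ p ∈ C.star a, ∀ q ∈ C.star a, dist p q < η) (hx : |x| ≤ d / 2) (hy : |y| ≤ d / 2)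
    (hxy : 2 * η ≤ |x - y|) : (C.dbl D hD x y).Valid true := by
  refine ⟨fun a s => ?_, fun a e => ?_, fun a s => ?_, fun a s => ?_, fun a s => ?_,
    fun a b hab => ?_, fun a => ?_⟩
  · rw [dbl_col, dbl_col, dbl_nb, hC.col_nb]
  · refine hC.nb_ne (Sum.elim id Subtype.val a) ?_
    rw [← dbl_nb (hD := hD) (x := x) (y := y), e, dbl_nb]
  · obtain ⟨s', h⟩ := hC.adj_symm (Sum.elim id Subtype.val a) s
    refine ⟨s', wd_und_ext ?_ (by rw [GCDbl_isRight, GCDbl_isRight])⟩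
    unfold wd_und
    rw [dbl_nb, dbl_nb, h]
  · rw [GCDbl_arc, GCDbl_arc, dsh_nb, dbl_nb, hC.arc_symm]
  · rw [GCDbl_arc, GCDbl_pt, GCDbl_pt, dsh_nb, dbl_nb]
    exact GCDbl_isArc (hC.isArc _ s) _
  · by_cases hf : C.Far (Sum.elim id Subtype.val a) (Sum.elim id Subtype.val b)
    · have k1 := abs_le.1 (GCDbl_abs hx hy a)
      have k2 := abs_le.1 (GCDbl_abs hx hy b)
      rw [dbl_star, dbl_star]
      rcases hM _ _ hf with ⟨i, hi, h | h⟩ | h | h
      · exact ⟨i, Or.inl (GCDbl_sep hi h _ _)⟩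
      · exact ⟨i, Or.inr (GCDbl_sep hi h _ _)⟩
      · refine ⟨2, Or.inl (GCDbl_sep_two fun p hp q hq => ?_)⟩
        linarith [h p hp q hq, k1.2, k2.1]
      · refine ⟨2, Or.inr (GCDbl_sep_two fun q hq p hp => ?_)⟩
        linarith [h p hp q hq, k1.1, k2.2]
    · refine ⟨2, GCDbl_near hC hη hxy (fun e => hf ⟨fun k => ?_, fun s k => ?_,
        fun s s' k => ?_⟩) hf⟩
      · exact hab.1 (wd_und_ext k e)
      · refine hab.2.1 s (wd_und_ext ?_ (by rw [GCDbl_isRight, e]))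
        unfold wd_und
        rw [dbl_nb, k]
      · refine hab.2.2 s s' (wd_und_ext ?_ (by rw [GCDbl_isRight, GCDbl_isRight, e]))
        unfold wd_und
        rw [dbl_nb, dbl_nb, k]
  · obtain ⟨i, s, hi, h⟩ := hC.mono (Sum.elim id Subtype.val a)
    exact ⟨i, s, hi, GCDbl_mono (hi rfl) h⟩

/-- stars separated by the height may pass each other -/
theorem GCDbl_leg_sep (hC : C.Valid true) {lt : N ⊕ {a // D a = true} → N ⊕ {a // D a = true} → Prop}
    {a b : N ⊕ {a // D a = true}}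
    (h : Sep 2 ((C.dbl D hD x y).star a) ((C.dbl D hD x y).star b)) :
    ((C.dbl D hD x y).grid fun _ _ => ()).Leg true lt
      (fun a b => (C.dbl D hD x y).pt a 2 < (C.dbl D hD x y).pt b 2) a b :=
  Or.inr (Or.inl ⟨h _ (GCDbl_pt_mem hC a) _ (GCDbl_pt_mem hC b),
    fun s => h _ (GCDbl_pt_mem hC a) _ (GCDbl_nb_mem hC b s),
    fun s => h _ (GCDbl_nb_mem hC a s) _ (GCDbl_pt_mem hC b),
    fun s s' => h _ (GCDbl_nb_mem hC a s) _ (GCDbl_nb_mem hC b s')⟩)

/-- transfer of one passing certificate -/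
theorem GCDbl_leg (hC : C.Valid true)
    (hη : ∀ a, ∀ p ∈ C.star a, ∀ q ∈ C.star a, dist p q < η) (hx : |x| ≤ d / 2) (hy : |y| ≤ d / 2)
    (hxy : 2 * η ≤ |x - y|) {c : Bool} {l : N → N → Prop}
    {l' : N ⊕ {a // D a = true} → N ⊕ {a // D a = true} → Prop}
    (hl : ∀ a b, C.col (Sum.elim id Subtype.val a) = (!c) →
      C.col (Sum.elim id Subtype.val b) = (!c) →
      l (Sum.elim id Subtype.val a) (Sum.elim id Subtype.val b) → l' a b)
    {a b : N ⊕ {a // D a = true}} (ha : C.col (Sum.elim id Subtype.val a) = c)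
    (hb : C.col (Sum.elim id Subtype.val b) = c)
    (h : (C.grid fun _ _ => ()).Leg true l (fun a b => C.pt a 2 + d < C.pt b 2)
      (Sum.elim id Subtype.val a) (Sum.elim id Subtype.val b)) :
    ((C.dbl D hD x y).grid fun _ _ => ()).Leg true l'
        (fun a b => (C.dbl D hD x y).pt a 2 < (C.dbl D hD x y).pt b 2) a b ∨
      ((C.dbl D hD x y).grid fun _ _ => ()).Leg true l'
        (fun a b => (C.dbl D hD x y).pt a 2 < (C.dbl D hD x y).pt b 2) b a := by
  have hl' : ∀ (a b : N ⊕ {a // D a = true}) s s', C.col (Sum.elim id Subtype.val a) = c →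
      C.col (Sum.elim id Subtype.val b) = c →
      l (C.nb (Sum.elim id Subtype.val a) s) (C.nb (Sum.elim id Subtype.val b) s') →
      l' ((C.dbl D hD x y).nb a s) ((C.dbl D hD x y).nb b s') := by
    intro a b s s' ha hb h
    refine hl _ _ ?_ ?_ ?_
    · rw [dbl_nb, hC.col_nb, ha]
    · rw [dbl_nb, hC.col_nb, hb]
    · rw [dbl_nb, dbl_nb]
      exact h
  rcases h with h | ⟨h1, h2, h3, h4⟩ | ⟨s, s', e, h1, h2⟩ | ⟨h, -⟩
  · exact Or.inl (Or.inl fun s s' => hl' a b s s' ha hb (h s s'))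
  · refine Or.inl (Or.inr (Or.inl ⟨GCDbl_gap hx hy h1, fun s => GCDbl_gap hx hy ?_,
      fun s => GCDbl_gap hx hy ?_, fun s s' => GCDbl_gap hx hy ?_⟩))
    · exact (congrArg (fun t => C.pt (Sum.elim id Subtype.val a) 2 + d < C.pt t 2)
        (dbl_nb (hD := hD) (x := x) (y := y) b s)).mpr (h2 s)
    · exact (congrArg (fun t => C.pt t 2 + d < C.pt (Sum.elim id Subtype.val b) 2)
        (dbl_nb (hD := hD) (x := x) (y := y) a s)).mpr (h3 s)
    · exact (congrArg₂ (fun t t' => C.pt t 2 + d < C.pt t' 2)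
        (dbl_nb (hD := hD) (x := x) (y := y) a s) (dbl_nb (hD := hD) (x := x) (y := y) b s')).mpr
        (h4 s s')
  · have e' : C.nb (Sum.elim id Subtype.val a) s = C.nb (Sum.elim id Subtype.val b) s' := e
    by_cases k : a.isRight = b.isRight
    · have e2 : (C.dbl D hD x y).nb a s = (C.dbl D hD x y).nb b s' := by
        refine wd_und_ext ?_ (by rw [GCDbl_isRight, GCDbl_isRight, k])
        unfold wd_und
        rw [dbl_nb, dbl_nb, e']
      exact Or.inl (Or.inr (Or.inr (Or.inl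
        ⟨s, s', e2, hl' a a _ _ ha ha h1, hl' b b _ _ hb hb h2⟩)))
    · exact (GCDbl_near hC hη hxy k fun hf => hf.2.2 s s' e').imp (GCDbl_leg_sep hC)
        (GCDbl_leg_sep hC)
  · exact absurd h (by simp)

/-- transfer of the certificate of a pair of parallel segments -/
theorem GCDbl_pair (hC : C.Valid true)
    (hη : ∀ a, ∀ p ∈ C.star a, ∀ q ∈ C.star a, dist p q < η) (hx : |x| ≤ d / 2) (hy : |y| ≤ d / 2)
    (hxy : 2 * η ≤ |x - y|) {c : Bool} {k l : N → N → Prop}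
    {k' l' : N ⊕ {a // D a = true} → N ⊕ {a // D a = true} → Prop}
    (hk : ∀ a b, C.col (Sum.elim id Subtype.val a) = c → C.col (Sum.elim id Subtype.val b) = c →
      k (Sum.elim id Subtype.val a) (Sum.elim id Subtype.val b) → k' a b)
    (hl : ∀ a b, C.col (Sum.elim id Subtype.val a) = (!c) →
      C.col (Sum.elim id Subtype.val b) = (!c) →
      l (Sum.elim id Subtype.val a) (Sum.elim id Subtype.val b) → l' a b)
    (h : ∀ a b, C.col a = c → C.col b = c → a ≠ b → k a b ∨ k b a ∨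
      (C.grid fun _ _ => ()).Leg true l (fun a b => C.pt a 2 + d < C.pt b 2) a b ∨
      (C.grid fun _ _ => ()).Leg true l (fun a b => C.pt a 2 + d < C.pt b 2) b a)
    (a b : N ⊕ {a // D a = true}) (ha : (C.dbl D hD x y).col a = c)
    (hb : (C.dbl D hD x y).col b = c) (hab : a ≠ b) : k' a b ∨ k' b a ∨
      ((C.dbl D hD x y).grid fun _ _ => ()).Leg true l'
        (fun a b => (C.dbl D hD x y).pt a 2 < (C.dbl D hD x y).pt b 2) a b ∨
      ((C.dbl D hD x y).grid fun _ _ => ()).Leg true l'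
        (fun a b => (C.dbl D hD x y).pt a 2 < (C.dbl D hD x y).pt b 2) b a := by
  rw [dbl_col] at ha hb
  by_cases e : Sum.elim id Subtype.val a = Sum.elim id Subtype.val b
  · exact Or.inr (Or.inr ((GCDbl_near hC hη hxy (fun k => hab (wd_und_ext e k))
      fun hf => hf.1 e).imp (GCDbl_leg_sep hC) (GCDbl_leg_sep hC)))
  rcases h _ _ ha hb e with h | h | h | h
  · exact Or.inl (hk a b ha hb h)
  · exact Or.inr (Or.inl (hk b a hb ha h))
  · exact Or.inr (Or.inr (GCDbl_leg hC hη hx hy hxy hl ha hb h))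
  · exact Or.inr (Or.inr (GCDbl_leg hC hη hx hy hxy hl hb ha h).symm)

variable [DecidableEq N] [Rev α] {R : Rz N}

theorem dbl_good (hC : C.Valid true) (hR : C.GoodM d R)
    (hη : ∀ a, ∀ p ∈ C.star a, ∀ q ∈ C.star a, dist p q < η) (hx : |x| ≤ d / 2) (hy : |y| ≤ d / 2)
    (hxy : 2 * η ≤ |x - y|) (dl : N → N → α) (rt : α → Bool) :
    (C.dbl D hD x y).Good true ((C.grid dl).dblRz R D rt fun a => (C.dbl D hD x y).pt a 2) := by
  have hX : ∀ a b : N ⊕ {a // D a = true}, C.col (Sum.elim id Subtype.val a) = true →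
      C.col (Sum.elim id Subtype.val b) = true →
      (R.ltX (Sum.elim id Subtype.val a) (Sum.elim id Subtype.val b) ∧
        C.pt (Sum.elim id Subtype.val a) 0 < C.pt (Sum.elim id Subtype.val b) 0) →
      ((C.grid dl).dblRz R D rt fun a => (C.dbl D hD x y).pt a 2).ltX a b ∧
        (C.dbl D hD x y).pt a 0 < (C.dbl D hD x y).pt b 0 := by
    intro a b ha hb h
    refine ⟨(Grid.dblRz_ltX (G := C.grid dl) hR.ok _ ha hb fun e => ?_).2 h.1, ?_⟩
    · exact lt_irrefl _ (e ▸ h.2)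
    · rw [GCDbl_pt_ne (by decide), GCDbl_pt_ne (by decide)]
      exact h.2
  have hY : ∀ a b : N ⊕ {a // D a = true}, C.col (Sum.elim id Subtype.val a) = false →
      C.col (Sum.elim id Subtype.val b) = false →
      (R.ltY (Sum.elim id Subtype.val a) (Sum.elim id Subtype.val b) ∧
        C.pt (Sum.elim id Subtype.val a) 1 < C.pt (Sum.elim id Subtype.val b) 1) →
      ((C.grid dl).dblRz R D rt fun a => (C.dbl D hD x y).pt a 2).ltY a b ∧
        (C.dbl D hD x y).pt a 1 < (C.dbl D hD x y).pt b 1 := by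
    intro a b ha hb h
    refine ⟨(Grid.dblRz_ltY (G := C.grid dl) hR.ok _ ha hb fun e => ?_).2 h.1, ?_⟩
    · exact lt_irrefl _ (e ▸ h.2)
    · rw [GCDbl_pt_ne (by decide), GCDbl_pt_ne (by decide)]
      exact h.2
  refine ⟨Grid.dblRz_ok (G := C.grid dl) (hD := hD) (o := id) (c := id) hR.ok _, fun _ => rfl,
    ?_, ?_, fun _ _ _ _ _ => Or.inl trivial⟩
  · exact GCDbl_pair hC hη hx hy hxy (c := true) (k := fun a b => R.ltX a b ∧ C.pt a 0 < C.pt b 0)
      (l := fun a b => R.ltY a b ∧ C.pt a 1 < C.pt b 1) hX hY hR.cpt.cols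
  · exact GCDbl_pair hC hη hx hy hxy (c := false) (k := fun a b => R.ltY a b ∧ C.pt a 1 < C.pt b 1)
      (l := fun a b => R.ltX a b ∧ C.pt a 0 < C.pt b 0) hY hX hR.cpt.rows

/-- the hypothesis on heights of `Grid.evs_dbl` -/
theorem dbl_hz (hC : C.Valid true) (hR : C.GoodM d R) (hx : |x| ≤ d / 2) (hy : |y| ≤ d / 2)
    (dl : N → N → α) (v e : N ⊕ {a // D a = true})
    (h : (C.grid dl).Crossing R (Sum.elim id Subtype.val v) (Sum.elim id Subtype.val e)) :
    ((C.dbl D hD x y).pt e 2 < (C.dbl D hD x y).pt v 2 ↔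
      R.z (Sum.elim id Subtype.val e) < R.z (Sum.elim id Subtype.val v)) := by
  obtain ⟨⟨s, h1, h2⟩, t, h3, h4⟩ := h
  have hd : 0 ≤ d := by linarith [abs_nonneg x]
  have he : C.col (Sum.elim id Subtype.val e) = false :=
    (hR.ok.memY _).1 (List.idxOf_lt_length_iff.1 (lt_of_lt_of_le h2 List.idxOf_le_length))
  have hv : C.col (Sum.elim id Subtype.val v) = true :=
    (hR.ok.memX _).1 (List.idxOf_lt_length_iff.1 (lt_of_lt_of_le h4 List.idxOf_le_length))
  have h1' : R.ltY (C.nb (Sum.elim id Subtype.val v) s) (Sum.elim id Subtype.val e) := h1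
  have h2' : R.ltY (Sum.elim id Subtype.val e) (C.nb (Sum.elim id Subtype.val v) (!s)) := h2
  have hn : ∀ r, C.nb (Sum.elim id Subtype.val v) r ≠ Sum.elim id Subtype.val e := by
    intro r k
    by_cases hr : r = s
    · rw [← hr, k] at h1'
      exact lt_irrefl _ h1'
    · rw [← Bool.eq_not.2 hr, k] at h2'
      exact lt_irrefl _ h2'
  rw [hR.z_eq, hR.z_eq]
  rcases hR.cpt.mixed _ _ hv he hn with (k | k) | k | k | k | k
  · have k' := GCDbl_gap (hD := hD) hx hy k
    exact iff_of_false (not_lt.2 k'.le) (not_lt.2 (by linarith))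
  · exact iff_of_true (GCDbl_gap hx hy k) (by linarith)
  · exact absurd (k t).1 (lt_asymm h3)
  · exact absurd (k (!t)).1 (lt_asymm h4)
  · exact absurd (k s).1 (lt_asymm h1)
  · exact absurd (k (!s)).1 (lt_asymm h2)

theorem dbl_word [Rev β] (hC : C.Valid true) (hR : C.GoodM d R) (hx : |x| ≤ d / 2)
    (hy : |y| ≤ d / 2) {dl : N → N → α} (hG : (C.grid dl).OK) {dd rt : α → Bool} {o c : α → β}
    (hd : ∀ z, dd (Rev.rev z) = dd z) (hrt : ∀ z, dd z = true → rt (Rev.rev z) = !rt z)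
    (ho : ∀ z, o (Rev.rev z) = Rev.rev (o z)) (hc : ∀ z, c (Rev.rev z) = Rev.rev (c z))
    (hDd : ∀ a s, D a = dd (dl a (C.nb a s))) :
    Eqv true [] [] (((C.grid dl).dbl D hD o c).word
      ((C.grid dl).dblRz R D rt fun a => (C.dbl D hD x y).pt a 2))
      (cable (dblLab dd rt o c) ((C.grid dl).word R)) := by
  have h := Grid.evs_dbl (G := C.grid dl) (hD := hD) hG hR.ok hd hrt ho hc hDd
    (fun a => (C.dbl D hD x y).pt a 2) (dbl_hz hC hR hx hy dl) (Y₁ := []) (Y₂ := R.Y) (Y₃ := [])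
    (by simp)
  rw [List.nil_append, Grid.rowAt_nil, Grid.rowAt_all hG hR.ok] at h
  exact h

end Conf

/-- the word of a vertically doubled link is the cable of the word -/
theorem hasWord_dbl [Fintype N] [DecidableEq N] {L : Lk κ} (hγ : IsU L.γ)
    (hν : ∀ c t, L.ν c t = ez) (hC : C.Valid true) (hs : C.supp = trace L.γ) (hM : C.Margin d)
    (hη : ∀ a, ∀ p ∈ C.star a, ∀ q ∈ C.star a, dist p q < η) (hy : |y| ≤ d / 2)
    (hxy : 2 * η ≤ |y|) {dl : N → N → Arc κ} (hl : C.Lab L.γ dl) {R : Rz N} (hR : C.Canon R) :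
    ∃ W, HasWord true (L.dbl y) W ∧ Eqv true [] [] W (cable (dblLab (fun _ => true) Arc.up
      (fun z => (⟨Sum.inl z.name, z.up⟩ : Arc (κ ⊕ κ))) fun z => ⟨Sum.inr z.name, z.up⟩)
      ((C.grid dl).word R)) := by
  have hd : 0 ≤ d := by linarith [abs_nonneg y]
  have hx : |(0 : ℝ)| ≤ d / 2 := by
    rw [abs_zero]
    linarith
  have hxy' : 2 * η ≤ |0 - y| := by rwa [zero_sub, abs_neg]
  have hG := hl.ok' hγ hC
  have hRM := hR.goodM hC hM hd
  have e1 : ∀ c, L.dbl y (Sum.inl c) = fun t => L.γ c t + (0 : ℝ) • ez := fun c => by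
    funext t
    rw [zero_smul, add_zero]
    rfl
  have e2 : ∀ c, L.dbl y (Sum.inr c) = fun t => L.γ c t + y • ez := fun c => by
    funext t
    rw [← hν c t]
    rfl
  refine ⟨_, ⟨N ⊕ {a // (fun _ : N => true) a = true}, inferInstance, inferInstance,
    C.dbl (fun _ => true) (fun _ _ => rfl) 0 y,
    ((C.grid dl).dbl (fun _ => true) (fun _ _ => rfl)
      (fun z => (⟨Sum.inl z.name, z.up⟩ : Arc (κ ⊕ κ))) fun z => ⟨Sum.inr z.name, z.up⟩).dl, _,
    Conf.dbl_valid hC hM hη hx hy hxy', ?_, ?_, Conf.dbl_good hC hRM hη hx hy hxy' dl Arc.up, rfl⟩,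
    Conf.dbl_word (D := fun _ => true) (hD := fun _ _ => rfl) (dd := fun _ => true) (rt := Arc.up)
      (o := fun z => (⟨Sum.inl z.name, z.up⟩ : Arc (κ ⊕ κ))) (c := fun z => ⟨Sum.inr z.name, z.up⟩)
      hC hRM hx hy hG (fun _ => rfl) (fun _ _ => rfl) (fun _ => rfl) (fun _ => rfl)
      fun _ _ => rfl⟩
  · have k1 : ∀ p, (∃ a, p ∈ C.star a) ↔ ∃ c t, L.γ c t = p := fun p => by
      have := Set.ext_iff.1 hs p
      simpa only [Conf.supp, trace, mem_iUnion, mem_range] using this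
    ext p
    simp only [Conf.supp, trace, mem_iUnion, mem_range, Conf.dbl_star, mem_image]
    constructor
    · rintro ⟨a | a, q, hq, rfl⟩
      · obtain ⟨c, t, rfl⟩ := (k1 q).1 ⟨_, hq⟩
        exact ⟨Sum.inl c, t, by rw [e1]; rfl⟩
      · obtain ⟨c, t, rfl⟩ := (k1 q).1 ⟨_, hq⟩
        exact ⟨Sum.inr c, t, by rw [e2]; rfl⟩
    · rintro ⟨c | c, t, rfl⟩
      · obtain ⟨a, ha⟩ := (k1 _).2 ⟨c, t, rfl⟩
        exact ⟨Sum.inl a, _, ha, by rw [e1]; rfl⟩
      · obtain ⟨a, ha⟩ := (k1 _).2 ⟨c, t, rfl⟩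
        exact ⟨Sum.inr ⟨a, rfl⟩, _, ha, by rw [e2]; rfl⟩
  · rintro (a | a) s
    · obtain ⟨c, t, t', h1, h2, h3, h4⟩ := hl a s
      refine ⟨Sum.inl c, t, t', h1, h2, ?_, ?_⟩
      · rw [e1, ← image_image (fun p => p + (0 : ℝ) • ez), ← h3]
        rfl
      · rw [e1]
        refine h4.imp (fun k => ⟨?_, ?_, ?_⟩) fun k => ⟨?_, ?_, ?_⟩
        · exact congrArg (fun p => p + (0 : ℝ) • ez) k.1
        · exact congrArg (fun p => p + (0 : ℝ) • ez) k.2.1
        · exact congrArg (fun z => (⟨Sum.inl z.name, z.up⟩ : Arc (κ ⊕ κ))) k.2.2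
        · exact congrArg (fun p => p + (0 : ℝ) • ez) k.1
        · exact congrArg (fun p => p + (0 : ℝ) • ez) k.2.1
        · exact congrArg (fun z => (⟨Sum.inl z.name, z.up⟩ : Arc (κ ⊕ κ))) k.2.2
    · obtain ⟨c, t, t', h1, h2, h3, h4⟩ := hl a.1 s
      refine ⟨Sum.inr c, t, t', h1, h2, ?_, ?_⟩
      · rw [e2, ← image_image (fun p => p + y • ez), ← h3]
        rfl
      · rw [e2]
        refine h4.imp (fun k => ⟨?_, ?_, ?_⟩) fun k => ⟨?_, ?_, ?_⟩
        · exact congrArg (fun p => p + y • ez) k.1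
        · exact congrArg (fun p => p + y • ez) k.2.1
        · exact congrArg (fun z => (⟨Sum.inr z.name, z.up⟩ : Arc (κ ⊕ κ))) k.2.2
        · exact congrArg (fun p => p + y • ez) k.1
        · exact congrArg (fun p => p + y • ez) k.2.1
        · exact congrArg (fun z => (⟨Sum.inr z.name, z.up⟩ : Arc (κ ⊕ κ))) k.2.2

end Pool.Agent.P.MP_ac4909_gt.B
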