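import Pool.Agent.P.MP_ac4909_gt.B.GC_Cert

/-! Layer G, core: reparametrisation. -/

namespace Pool.Agent.P.MP_ac4909_gt.B

open scoped ContDiff
open Set Filter Topology

variable {κ κ' : Type} {fa : Bool} {γ : κ → ℝ → E3} {γ' : κ' → ℝ → E3}

theorem GCRep_int (hγ : IsU γ) (c : κ) (t : ℝ) (k : ℤ) : γ c (t + k) = γ c t := by
  simpa using (show Function.Periodic (γ c) 1 from hγ.per c).int_mul k t

theorem GCRep_coe (hγ : IsU γ) {c : κ} {s t : ℝ} :
    (s : AddCircle (1 : ℝ)) = t ↔ γ c s = γ c t := by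
  rw [eq_comm, ← sub_eq_zero, ← AddCircle.coe_sub, AddCircle.coe_eq_zero_iff]
  constructor
  · rintro ⟨k, hk⟩
    rw [← GCRep_int hγ c s k]
    congr 1
    simp only [zsmul_eq_mul, mul_one] at hk
    linarith
  · intro h
    obtain ⟨-, k, hk⟩ := hγ.inj _ _ _ _ h
    exact ⟨k, by simp [hk]⟩

theorem exists_reparam_local' [Fintype κ] (hγ : IsU γ) {g : ℝ → E3} {t₀ s₀ : ℝ} {c : κ}
    (hg : ContDiffAt ℝ ∞ g t₀) (hm : ∀ᶠ t in 𝓝 t₀, g t ∈ trace γ) (h₀ : g t₀ = γ c s₀) :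
    ∃ φ : ℝ → ℝ, ContDiffAt ℝ ∞ φ t₀ ∧ φ t₀ = s₀ ∧ ∀ᶠ t in 𝓝 t₀, g t = γ c (φ t) := by
  have hs := hγ.smooth
  obtain ⟨i, hi⟩ : ∃ i, deriv (γ c) s₀ i ≠ 0 := by
    by_contra h
    push Not at h
    exact hγ.imm c s₀ (PiLp.ext h)
  have hf : ContDiffAt ℝ ∞ (fun s => γ c s i) s₀ :=
    ((EuclideanSpace.proj (𝕜 := ℝ) i).contDiff.comp (hs c)).contDiffAt
  have hd : HasDerivAt (fun s => γ c s i) (deriv (γ c) s₀ i) s₀ :=
    (EuclideanSpace.proj (𝕜 := ℝ) i).hasFDerivAt.comp_hasDerivAt s₀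
      ((hs c).differentiable (by simp) s₀).hasDerivAt
  have hd' := hd.hasFDerivAt_equiv hi
  have h1 := hf.to_localInverse hd' (by simp)
  have h2 : ∀ᶠ s in 𝓝 s₀, hf.localInverse hd' (by simp) (γ c s i) = s :=
    (hf.hasStrictFDerivAt' hd' (by simp)).eventually_left_inverse
  generalize hf.localInverse hd' (by simp) = ψ at h1 h2
  obtain ⟨ε, hε, h3⟩ := Metric.nhds_basis_closedBall.eventually_iff.1 h2
  have hK : ∀ c' (a b : ℝ), g t₀ ∉ γ c' '' Icc a b → ∀ᶠ t in 𝓝 t₀, g t ∉ γ c' '' Icc a b :=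
    fun c' a b h => hg.continuousAt.eventually
      ((isCompact_Icc.image (hs c').continuous).isClosed.isOpen_compl.mem_nhds h)
  have h4 : ∀ᶠ t in 𝓝 t₀, ∀ c', c' ≠ c → g t ∉ γ c' '' Icc 0 (0 + 1) := by
    refine eventually_all.2 fun c' => eventually_all.2 fun h => hK _ _ _ ?_
    rintro ⟨s, -, e⟩
    exact h (hγ.inj _ _ _ _ (e.trans h₀)).1
  have h5 := hK c (s₀ + ε) (s₀ - ε + 1) (by
    rintro ⟨s, ⟨a1, a2⟩, e⟩
    obtain ⟨-, k, hk⟩ := hγ.inj _ _ _ _ (e.trans h₀).symm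
    have b1 : (0 : ℝ) < k := by linarith
    have b2 : (k : ℝ) < 1 := by linarith
    have b3 : 0 < k := by exact_mod_cast b1
    have b4 : k < 1 := by exact_mod_cast b2
    omega)
  refine ⟨fun t => ψ (g t i), ?_, ?_, ?_⟩
  · rw [← h₀] at h1
    exact h1.comp t₀ ((EuclideanSpace.proj (𝕜 := ℝ) i).contDiff.contDiffAt.comp t₀ hg)
  · beta_reduce
    rw [h₀, h2.self_of_nhds]
  · filter_upwards [hm, h4, h5] with t a1 a2 a3
    obtain ⟨c', s, e⟩ := mem_iUnion.1 a1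
    obtain rfl : c' = c := by
      by_contra h
      obtain ⟨y, hy, e'⟩ :=
        (show Function.Periodic (γ c') 1 from hγ.per c').exists_mem_Ico one_pos s 0
      exact a2 c' h ⟨y, Ico_subset_Icc_self hy, e'.symm.trans e⟩
    obtain ⟨y, hy, e'⟩ :=
      (show Function.Periodic (γ c') 1 from hγ.per c').exists_mem_Ico one_pos s (s₀ - ε)
    have b : y < s₀ + ε := lt_of_not_ge fun h => a3 ⟨y, ⟨h, hy.2.le⟩, e'.symm.trans e⟩
    rw [← e, e', h3 (by rw [Real.closedBall_eq_Icc]; exact ⟨hy.1, b.le⟩)]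

theorem GCRep_lift [Fintype κ] (hγ : IsU γ) {g : ℝ → E3} (hg : ContDiff ℝ ∞ g)
    (hm : ∀ t, g t ∈ trace γ) : ∃ c φ, ContDiff ℝ ∞ φ ∧ ∀ t, g t = γ c (φ t) := by
  choose b u hu using fun t => mem_iUnion.1 (hm t)
  choose ψ h1 h2 h3 using fun t =>
    exists_reparam_local' hγ (hg.contDiffAt (x := t)) (.of_forall hm) (hu t).symm
  have hb : ∀ t, b t = b 0 := fun t =>
    ((IsLocallyConstant.iff_eventually_eq b).2 fun x => (h3 x).mono fun y hy =>
      (hγ.inj _ _ _ _ ((hu y).trans hy)).1).apply_eq_of_preconnectedSpace t 0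
  simp only [hb] at hu h3
  have hq : Continuous fun t => (u t : AddCircle (1 : ℝ)) := by
    refine continuous_iff_continuousAt.2 fun x => ContinuousAt.congr
      ((AddCircle.continuous_mk' 1).continuousAt.comp (h1 x).continuousAt) ?_
    exact (h3 x).mono fun y hy => (GCRep_coe hγ).2 ((hu y).trans hy).symm
  obtain ⟨F, ⟨-, hF⟩, -⟩ := (AddCircle.isCoveringMap_coe (1 : ℝ)).existsUnique_continuousMap_lifts
    ⟨_, hq⟩ 0 (u 0) rfl
  have hF' : ∀ t, g t = γ (b 0) (F t) := fun t =>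
    ((GCRep_coe hγ).1 (congrFun hF t)).trans (hu t) |>.symm
  refine ⟨b 0, F, contDiff_iff_contDiffAt.2 fun x => ?_, hF'⟩
  obtain ⟨φ, a1, a2, a3⟩ :=
    exists_reparam_local' hγ (hg.contDiffAt (x := x)) (.of_forall hm) (hF' x)
  refine a1.congr_of_eventuallyEq ?_
  have a4 : ∀ᶠ y in 𝓝 x, |F y - φ y| < 1 :=
    (F.continuous.continuousAt.sub a1.continuousAt).abs.eventually_lt continuousAt_const
      (by simp [a2])
  filter_upwards [a3, a4] with y b1 b2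
  obtain ⟨-, k, hk⟩ := hγ.inj _ _ _ _ (b1.symm.trans (hF' y))
  rw [hk, add_sub_cancel_left, ← Int.cast_abs] at b2
  have b3 : |k| < 1 := by exact_mod_cast b2
  rw [hk, Int.abs_lt_one_iff.1 b3, Int.cast_zero, add_zero]

theorem GCRep_step {φ : ℝ → ℝ} (hc : Continuous φ) (hm : StrictMono φ)
    (h : ∀ s t, (∃ k : ℤ, φ t = φ s + k) ↔ ∃ k : ℤ, t = s + k) (t : ℝ) :
    φ (t + 1) = φ t + 1 := by
  obtain ⟨k, hk⟩ := (h t (t + 1)).2 ⟨1, by simp⟩
  have h1 : (0 : ℝ) < k := by linarith [hm (lt_add_one t)]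
  have h2 : 1 ≤ k := by exact_mod_cast h1
  have h3 : (1 : ℝ) ≤ k := by exact_mod_cast h2
  obtain ⟨s, hs, e⟩ := intermediate_value_Ioc (lt_add_one t).le hc.continuousOn
    (show φ t + 1 ∈ Ioc (φ t) (φ (t + 1)) from ⟨lt_add_one _, by linarith⟩)
  obtain ⟨j, hj⟩ := (h t s).1 ⟨1, by simp [e]⟩
  have h4 : (0 : ℝ) < j := by linarith [hs.1]
  have h5 : 1 ≤ j := by exact_mod_cast h4
  have h6 : (1 : ℝ) ≤ j := by exact_mod_cast h5
  rw [← e, le_antisymm hs.2 (by linarith)]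

theorem GCRep_surj {φ : ℝ → ℝ} (hc : Continuous φ) (h : ∀ t, φ (t + 1) = φ t + 1) :
    Function.Surjective φ := by
  intro y
  have h1 : Function.Periodic (fun t => φ t - t) 1 := fun t => by simp [h]
  have h2 : ∀ k : ℤ, φ k = φ 0 + k := fun k => by
    have := h1.int_mul k 0
    simp only [mul_one, zero_add, sub_zero] at this
    linarith
  refine intermediate_value_univ (⌊y - φ 0⌋ : ℝ) (⌈y - φ 0⌉ : ℝ) hc ⟨?_, ?_⟩
  · linarith [h2 ⌊y - φ 0⌋, Int.floor_le (y - φ 0)]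
  · linarith [h2 ⌈y - φ 0⌉, Int.le_ceil (y - φ 0)]

theorem GCRep_surj' {φ : ℝ → ℝ} (hc : Continuous φ) (h : ∀ t, φ (t + 1) = φ t - 1) :
    Function.Surjective φ := fun y => by
  obtain ⟨t, ht⟩ := GCRep_surj hc.neg (fun t => by simp only [Pi.neg_apply, h]; ring) (-y)
  exact ⟨t, neg_injective ht⟩

theorem exists_reparam' [Fintype κ] [Fintype κ'] (hγ : IsU γ) (hγ' : IsU γ')
    (h : trace γ' = trace γ) :
    ∃ (β : κ' ≃ κ) (φ : κ' → ℝ → ℝ) (σ : κ' → ℝ), ∀ c, (σ c = 1 ∨ σ c = -1) ∧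
      ContDiff ℝ ∞ (φ c) ∧ (∀ t, 0 < σ c * deriv (φ c) t) ∧ (∀ t, φ c (t + 1) = φ c t + σ c) ∧
      ∀ t, γ' c t = γ (β c) (φ c t) := by
  choose β φ h1 h2 using fun c => GCRep_lift hγ (hγ'.smooth c)
    fun t => h ▸ mem_iUnion.2 ⟨c, t, rfl⟩
  have hk : ∀ c s t, (∃ k : ℤ, φ c t = φ c s + k) ↔ ∃ k : ℤ, t = s + k := fun c s t =>
    ⟨fun ⟨k, hk⟩ => (hγ'.inj c c s t (by rw [h2, h2, hk, GCRep_int hγ])).2,
      fun ⟨k, hk⟩ => (hγ.inj _ _ _ _ (by rw [← h2, ← h2, hk, GCRep_int hγ'])).2⟩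
  have hd : ∀ c t, deriv (φ c) t ≠ 0 := by
    intro c t h0
    have e := (((hγ.smooth (β c)).differentiable (by simp) (φ c t)).hasDerivAt.scomp t
      ((h1 c).differentiable (by simp) t).hasDerivAt).deriv
    rw [h0, zero_smul] at e
    exact hγ'.imm c t ((congrArg (deriv · t) (funext (h2 c))).trans e)
  have hσ : ∀ c, ∃ σ : ℝ, (σ = 1 ∨ σ = -1) ∧ (∀ t, 0 < σ * deriv (φ c) t) ∧
      (∀ t, φ c (t + 1) = φ c t + σ) ∧ Function.Surjective (φ c) := by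
    intro c
    have hc := (h1 c).continuous
    have hn : ∀ a b, deriv (φ c) a < 0 → 0 < deriv (φ c) b → False := fun a b ha hb => by
      obtain ⟨t, ht⟩ := intermediate_value_univ a b ((h1 c).continuous_deriv (by simp))
        ⟨ha.le, hb.le⟩
      exact hd c t ht
    rcases (hd c 0).lt_or_gt with h0 | h0
    · have hp : ∀ t, deriv (φ c) t < 0 := fun t => (hd c t).lt_or_gt.resolve_right (hn 0 t h0)
      have e := GCRep_step hc.neg (strictAnti_of_deriv_neg hp).neg fun s t => by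
        rw [← hk c s t]
        simp only [Pi.neg_apply]
        constructor <;> rintro ⟨k, e⟩ <;> exact ⟨-k, by push_cast; linarith⟩
      simp only [Pi.neg_apply] at e
      exact ⟨-1, Or.inr rfl, fun t => by linarith [hp t], fun t => by linarith [e t],
        GCRep_surj' hc fun t => by linarith [e t]⟩
    · have hp : ∀ t, 0 < deriv (φ c) t := fun t =>
        (hd c t).lt_or_gt.resolve_left fun h' => hn t 0 h' h0
      have e := GCRep_step hc (strictMono_of_deriv_pos hp) (hk c)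
      exact ⟨1, Or.inl rfl, fun t => by linarith [hp t], e, GCRep_surj hc e⟩
  choose σ a1 a2 a3 a4 using hσ
  have hβ : Function.Bijective β := by
    refine ⟨fun c c' e => ?_, fun c => ?_⟩
    · obtain ⟨t, ht⟩ := a4 c (φ c' 0)
      exact (hγ'.inj c c' t 0 (by rw [h2, h2, e, ht])).1
    · obtain ⟨c', t, ht⟩ := mem_iUnion.1 (h.ge (mem_iUnion.2 ⟨c, 0, rfl⟩))
      exact ⟨c', (hγ.inj _ _ _ _ ((h2 c' t).symm.trans ht)).1⟩
  exact ⟨Equiv.ofBijective β hβ, φ, σ, fun c => ⟨a1 c, h1 c, a2 c, a3 c, h2 c⟩⟩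

theorem exists_rp [Fintype κ] [Fintype κ'] (hγ : IsU γ) (hγ' : IsU γ') (h : trace γ' = trace γ) :
    ∃ (β : κ' ≃ κ) (φ : κ' → ℝ → ℝ) (fl : κ' → Bool), Rp φ fl ∧
      ∀ c t, γ' c t = γ (β c) (φ c t) := by
  obtain ⟨β, φ, σ, H⟩ := exists_reparam' hγ hγ' h
  refine ⟨β, φ, fun c => decide (σ c < 0), ⟨fun c => (H c).2.1.continuous, fun c hc => ?_,
    fun c hc => ?_⟩, fun c => (H c).2.2.2.2⟩
  · obtain ⟨h1 | h1, -, h2, h3, -⟩ := H c
    · rw [h1] at h2 h3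
      exact ⟨strictMono_of_deriv_pos fun t => by linarith [h2 t], h3⟩
    · simp [h1] at hc
  · obtain ⟨h1 | h1, -, h2, h3, -⟩ := H c
    · rw [decide_eq_true_eq, h1] at hc
      linarith
    · rw [h1] at h2 h3
      exact ⟨strictAnti_of_deriv_neg fun t => by linarith [h2 t], h3⟩

theorem Rp.surjective {φ : κ' → ℝ → ℝ} {fl : κ' → Bool} (h : Rp φ fl) (c : κ') :
    Function.Surjective (φ c) := by
  cases hc : fl c
  · exact GCRep_surj (h.cont c) (h.up c hc).2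
  · exact GCRep_surj' (h.cont c) (h.dn c hc).2

theorem HasWord.rename {β : κ' → κ} (hβ : Function.Surjective β) {φ : κ' → ℝ → ℝ} {fl : κ' → Bool}
    (hφ : Rp φ fl) (he : ∀ c t, γ' c t = γ (β c) (φ c t)) {w : List (Sl (Arc κ'))}
    (h : HasWord fa γ' w) : HasWord fa γ (w.map (Sl.map (ren β fl))) := by
  obtain ⟨N, i1, i2, C, dl, R, h1, h2, h3, h4, rfl⟩ := h
  refine ⟨N, i1, i2, C, fun a b => ren β fl (dl a b), R, h1, h2.trans ?_, fun a s => ?_, h4,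
    ((C.grid dl).evs_map (ren β fl) R R.X R.Y).symm⟩
  · refine Subset.antisymm (iUnion_subset fun c => ?_) (iUnion_subset fun c => ?_)
    · rintro _ ⟨t, rfl⟩
      exact mem_iUnion.2 ⟨β c, φ c t, (he c t).symm⟩
    · rintro _ ⟨t, rfl⟩
      obtain ⟨c, rfl⟩ := hβ c
      obtain ⟨t, rfl⟩ := hφ.surjective c t
      exact mem_iUnion.2 ⟨c, t, he c t⟩
  · obtain ⟨c, t, t', a1, a2, a3, a4⟩ := h3 a s
    have e : γ' c '' Icc t t' = γ (β c) '' (φ c '' Icc t t') := by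
      rw [image_image]
      exact image_congr fun x _ => he c x
    simp only [he] at a4
    cases hc : fl c
    · obtain ⟨b1, b2⟩ := hφ.up c hc
      refine ⟨β c, φ c t, φ c t', b1 a1, b2 t ▸ b1 a2, ?_, ?_⟩
      · rw [a3, e, (hφ.cont c).continuousOn.image_Icc_of_monotoneOn a1.le
          (b1.monotone.monotoneOn _)]
      · rcases a4 with ⟨d1, d2, d3⟩ | ⟨d1, d2, d3⟩
        · exact Or.inl ⟨d1, d2, by simp [d3, ren, hc]⟩
        · exact Or.inr ⟨d1, d2, by simp [d3, ren, hc]⟩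
    · obtain ⟨b1, b2⟩ := hφ.dn c hc
      refine ⟨β c, φ c t', φ c t, b1 a1, by linarith [b1 a2, b2 t], ?_, ?_⟩
      · rw [a3, e, (hφ.cont c).continuousOn.image_Icc_of_antitoneOn a1.le
          (b1.antitone.antitoneOn _)]
      · rcases a4 with ⟨d1, d2, d3⟩ | ⟨d1, d2, d3⟩
        · exact Or.inr ⟨d1, d2, by simp [d3, ren, hc]⟩
        · exact Or.inl ⟨d1, d2, by simp [d3, ren, hc]⟩

end Pool.Agent.P.MP_ac4909_gt.B
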