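import Pool.Agent.P.MP_ac4909_gt.B.GC_Unif

/-! Layer G, core: small push-offs. -/

namespace Pool.Agent.P.MP_ac4909_gt.B

open scoped ContDiff
open Set Filter Topology

variable {κ : Type}

/-- uniform radius over the compact set of parameters -/
theorem GCSmall_leb {P : Set (ℝ × ℝ × ℝ) → Prop} (mono : ∀ U V, V ⊆ U → P U → P V)
    (h : ∀ s ∈ Icc (0 : ℝ) 1, ∀ t, ∃ U ∈ 𝓝 (s, t, (0 : ℝ)), P U) :
    ∃ ρ > 0, ∀ s ∈ Icc (0 : ℝ) 1, ∀ t ∈ Icc (0 : ℝ) 1, P (Metric.ball (s, t, (0 : ℝ)) ρ) := by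
  have hK : IsCompact (Icc (0 : ℝ) 1 ×ˢ Icc (0 : ℝ) 1 ×ˢ ({0} : Set ℝ)) :=
    isCompact_Icc.prod (isCompact_Icc.prod isCompact_singleton)
  obtain ⟨ρ, h0, h1⟩ := lebesgue_number_lemma_of_metric_sUnion (c := {U | IsOpen U ∧ P U}) hK
    (fun U hU => hU.1) (by
      rintro ⟨s, t, r⟩ ⟨hs, -, hr⟩
      obtain rfl : r = 0 := hr
      obtain ⟨U, hU, hP⟩ := h s hs t
      exact ⟨interior U, ⟨isOpen_interior, mono _ _ interior_subset hP⟩,
        mem_interior_iff_mem_nhds.2 hU⟩)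
  refine ⟨ρ, h0, fun s hs t ht => ?_⟩
  obtain ⟨U, hU, hb⟩ := h1 (s, t, 0) ⟨hs, ht, rfl⟩
  exact mono _ _ hb hU.2

theorem GCSmall_dt {G : ℝ × ℝ × ℝ → E3} (hG : ContDiff ℝ ∞ G) (s t r : ℝ) :
    HasDerivAt (fun u => G (s, u, r)) (fderiv ℝ G (s, t, r) (0, 1, 0)) t :=
  (hG.differentiable (by simp) (s, t, r)).hasFDerivAt.comp_hasDerivAt t
    ((hasDerivAt_const t s).prodMk ((hasDerivAt_id t).prodMk (hasDerivAt_const t r)))

theorem GCSmall_dr {G : ℝ × ℝ × ℝ → E3} (hG : ContDiff ℝ ∞ G) (s t r : ℝ) :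
    HasDerivAt (fun u => G (s, t, u)) (fderiv ℝ G (s, t, r) (0, 0, 1)) r :=
  (hG.differentiable (by simp) (s, t, r)).hasFDerivAt.comp_hasDerivAt r
    ((hasDerivAt_const r s).prodMk ((hasDerivAt_const r t).prodMk (hasDerivAt_id r)))

/-- local injectivity on the slices -/
theorem GCSmall_loc {G : ℝ × ℝ × ℝ → E3} (hG : ContDiff ℝ ∞ G) (p₀ : ℝ × ℝ × ℝ)
    (hi : LinearIndependent ℝ ![fderiv ℝ G p₀ (0, 1, 0), fderiv ℝ G p₀ (0, 0, 1)]) :
    ∃ U ∈ 𝓝 p₀, ∀ p ∈ U, ∀ q ∈ U, p.1 = q.1 → G p = G q → p = q := by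
  obtain ⟨K, hK, hA⟩ := LinearMap.exists_antilipschitzWith
    ((fderiv ℝ G p₀).toLinearMap.comp (LinearMap.inr ℝ ℝ (ℝ × ℝ))) (by
      rw [LinearMap.ker_eq_bot']
      rintro ⟨a, b⟩ hab
      have e : ((0 : ℝ), a, b) = a • ((0 : ℝ), (1 : ℝ), (0 : ℝ)) + b • ((0 : ℝ), (0 : ℝ), (1 : ℝ)) := by
        simp
      have h1 : fderiv ℝ G p₀ ((0 : ℝ), a, b) = 0 := hab
      rw [e, map_add, map_smul, map_smul] at h1
      obtain ⟨rfl, rfl⟩ := LinearIndependent.pair_iff.1 hi a b h1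
      rfl)
  obtain ⟨U, hU, hap⟩ := (hG.contDiffAt.hasStrictFDerivAt (x := p₀)
    (by simp)).approximates_deriv_on_nhds (c := (2 * K)⁻¹) (Or.inr (by positivity))
  refine ⟨U, hU, fun p hp q hq h1 h2 => ?_⟩
  have e : p - q = ((0 : ℝ), p.2 - q.2) := Prod.ext (by simp [h1]) rfl
  have h3 := hap p hp q hq
  rw [h2, sub_self, zero_sub, norm_neg, e, Prod.norm_def, norm_zero,
    max_eq_right (norm_nonneg _)] at h3
  have h4 : ‖p.2 - q.2‖ ≤ K * ‖fderiv ℝ G p₀ ((0 : ℝ), p.2 - q.2)‖ :=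
    ZeroHomClass.bound_of_antilipschitz _ hA (p.2 - q.2)
  have hK' : (0 : ℝ) < K := hK
  have h5 : (K : ℝ) * (((2 * K)⁻¹ : NNReal) * ‖p.2 - q.2‖) = ‖p.2 - q.2‖ / 2 := by
    push_cast
    field_simp
  have h6 := mul_le_mul_of_nonneg_left h3 hK'.le
  have h7 : ‖p.2 - q.2‖ ≤ 0 := by linarith
  exact Prod.ext h1 (sub_eq_zero.1 (norm_le_zero_iff.1 h7))

theorem GCSmall_per {f : ℝ → E3} (h : ∀ t, f (t + 1) = f t) (t : ℝ) (k : ℤ) : f (t + k) = f t := by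
  simpa using Function.Periodic.int_mul (c := (1 : ℝ)) h k t

/-- the estimates for one component -/
theorem GCSmall_one {g n : ℝ → ℝ → E3} (hg : ContDiff ℝ ∞ fun p : ℝ × ℝ => g p.1 p.2)
    (hn : ContDiff ℝ ∞ fun p : ℝ × ℝ => n p.1 p.2)
    (pg : ∀ s ∈ Icc (0 : ℝ) 1, ∀ t, g s (t + 1) = g s t)
    (pn : ∀ s ∈ Icc (0 : ℝ) 1, ∀ t, n s (t + 1) = n s t)
    (hi : ∀ s ∈ Icc (0 : ℝ) 1, ∀ t, LinearIndependent ℝ ![deriv (g s) t, n s t]) :
    (∃ ρ > 0, ∀ s ∈ Icc (0 : ℝ) 1, (∀ t t' r r', |t' - t| < ρ → |r| < ρ → |r'| < ρ →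
      g s t + r • n s t = g s t' + r' • n s t' → t = t' ∧ r = r') ∧
      ∀ t r, |r| < ρ → deriv (fun u => g s u + r • n s u) t ≠ 0) ∧
    ∀ d > 0, ∃ ρ > 0, ∀ s ∈ Icc (0 : ℝ) 1, ∀ (t r : ℝ), |r| < ρ → ‖r • n s t‖ < d := by
  have hπ : ContDiff ℝ ∞ fun p : ℝ × ℝ × ℝ => (p.1, p.2.1) := by fun_prop
  have hN : ContDiff ℝ ∞ fun p : ℝ × ℝ × ℝ => p.2.2 • n p.1 p.2.1 :=
    contDiff_snd.snd.smul (hn.comp hπ)
  have hG : ContDiff ℝ ∞ fun p : ℝ × ℝ × ℝ => g p.1 p.2.1 + p.2.2 • n p.1 p.2.1 :=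
    (hg.comp hπ).add hN
  have hb : ∀ (s t t' r ρ : ℝ), |t' - t| < ρ → |r| < ρ →
      (s, t', r) ∈ Metric.ball (s, t, (0 : ℝ)) ρ := fun s t t' r ρ h1 h2 => by
    simp only [Metric.mem_ball, Prod.dist_eq, dist_self, Real.dist_eq, sub_zero, max_lt_iff]
    exact ⟨(abs_nonneg r).trans_lt h2, h1, h2⟩
  have hf : ∀ t : ℝ, t - ⌊t⌋ ∈ Icc (0 : ℝ) 1 := fun t =>
    ⟨Int.fract_nonneg t, (Int.fract_lt_one t).le⟩
  have pg' : ∀ s ∈ Icc (0 : ℝ) 1, ∀ t (k : ℤ), g s (t - k) = g s t := fun s hs t k => by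
    rw [← GCSmall_per (pg s hs) (t - k) k, sub_add_cancel]
  have pn' : ∀ s ∈ Icc (0 : ℝ) 1, ∀ t (k : ℤ), n s (t - k) = n s t := fun s hs t k => by
    rw [← GCSmall_per (pn s hs) (t - k) k, sub_add_cancel]
  constructor
  · obtain ⟨G, hGe⟩ : ∃ G : ℝ × ℝ × ℝ → E3,
        G = fun p : ℝ × ℝ × ℝ => g p.1 p.2.1 + p.2.2 • n p.1 p.2.1 := ⟨_, rfl⟩
    rw [← hGe] at hG
    have hv : ∀ s t r, G (s, t, r) = g s t + r • n s t := fun s t r => by rw [hGe]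
    have hc : Continuous fun p => fderiv ℝ G p (0, 1, 0) :=
      (hG.continuous_fderiv (by simp)).clm_apply continuous_const
    obtain ⟨ρ, h0, h1⟩ := GCSmall_leb (P := fun U => (∀ p ∈ U, ∀ q ∈ U, p.1 = q.1 → G p = G q →
        p = q) ∧ ∀ p ∈ U, fderiv ℝ G p (0, 1, 0) ≠ 0)
      (fun U V h hU => ⟨fun p hp q hq => hU.1 p (h hp) q (h hq), fun p hp => hU.2 p (h hp)⟩)
      (fun s hs t => by
        have e1 : fderiv ℝ G (s, t, 0) (0, 1, 0) = deriv (g s) t := by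
          rw [← (GCSmall_dt hG s t 0).deriv]
          simp only [hv, zero_smul, add_zero]
        have e2 : fderiv ℝ G (s, t, 0) (0, 0, 1) = n s t := by
          refine (GCSmall_dr hG s t 0).unique ?_
          simp only [hv]
          simpa using ((hasDerivAt_id (0 : ℝ)).smul_const (n s t)).const_add (g s t)
        obtain ⟨U, hU, hP⟩ := GCSmall_loc hG (s, t, 0) (by rw [e1, e2]; exact hi s hs t)
        have h2 : fderiv ℝ G (s, t, 0) (0, 1, 0) ≠ 0 := by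
          rw [e1]
          exact (hi s hs t).ne_zero 0
        exact ⟨_, inter_mem hU (hc.continuousAt.eventually_ne h2),
          fun p hp q hq => hP p hp.1 q hq.1, fun p hp => hp.2⟩)
    refine ⟨ρ, h0, fun s hs => ⟨fun t t' r r' h2 h3 h4 h5 => ?_, fun t r h2 => ?_⟩⟩
    · have h6 := (h1 s hs _ (hf t)).1 (s, t - ⌊t⌋, r) (hb _ _ _ _ _ (by simpa using h0) h3)
        (s, t' - ⌊t⌋, r') (hb _ _ _ _ _ (by rwa [sub_sub_sub_cancel_right]) h4) rfl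
        (by rw [hv, hv, pg' s hs, pg' s hs, pn' s hs, pn' s hs, h5])
      simp only [Prod.mk.injEq, sub_left_inj, true_and] at h6
      exact h6
    · have h6 := (h1 s hs _ (hf t)).2 (s, t - ⌊t⌋, r) (hb _ _ _ _ _ (by simpa using h0) h2)
      rw [← (GCSmall_dt hG s (t - ⌊t⌋) r).deriv,
        ← deriv_comp_sub_const (fun u => G (s, u, r)) (⌊t⌋ : ℝ) t] at h6
      simpa only [hv, pg' s hs, pn' s hs] using h6
  · intro d hd
    obtain ⟨ρ, h0, h1⟩ := GCSmall_leb (P := fun U => ∀ p ∈ U, ‖p.2.2 • n p.1 p.2.1‖ < d)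
      (fun U V h hU p hp => hU p (h hp))
      (fun s _ t => ⟨_, (isOpen_lt hN.continuous.norm continuous_const).mem_nhds
        (show ‖(0 : ℝ) • n s t‖ < d by rwa [zero_smul, norm_zero]), fun p hp => hp⟩)
    refine ⟨ρ, h0, fun s hs t r h2 => ?_⟩
    have h6 := h1 s hs _ (hf t) (s, t - ⌊t⌋, r) (hb _ _ _ _ _ (by simpa using h0) h2)
    rwa [pn' s hs] at h6

theorem GCSmall_min [Finite κ] {ρ : κ → ℝ} (h : ∀ c, 0 < ρ c) : ∃ a > 0, ∀ c, a < ρ c := by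
  obtain ⟨a, h1, h2⟩ := ((eventually_all.2 fun c => Ioo_mem_nhdsGT (h c)).and
    (self_mem_nhdsWithin (a := (0 : ℝ)) (s := Ioi 0))).exists
  exact ⟨a, h2, fun c => (h1 c).2⟩

theorem GCSmall_dbl (L : Lk κ) (δ : ℝ) (a : κ ⊕ κ) : L.dbl δ a = fun t =>
    L.γ (Sum.elim id id a) t + (Sum.elim (fun _ => 0) (fun _ => δ) a : ℝ) •
      L.ν (Sum.elim id id a) t := by
  rcases a with c | c
  · funext t
    simp [Lk.dbl]
  · rfl

theorem exists_small_fam [Fintype κ] {H : ℝ → Lk κ} (hs : SmoothFam H)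
    (hL : ∀ s ∈ Icc (0 : ℝ) 1, (H s).IsLink) : ∃ δ, ∀ s ∈ Icc (0 : ℝ) 1, (H s).Small δ := by
  have key := fun c => GCSmall_one (g := fun s => (H s).γ c) (n := fun s => (H s).ν c)
    (hs c).1 (hs c).2 (fun s h => (hL s h).isU.per c) (fun s h => (hL s h).per c)
    (fun s h => (hL s h).indep c)
  choose ρ hρ h1 using fun c => (key c).1
  obtain ⟨a, ha, haρ⟩ := GCSmall_min hρ
  obtain ⟨d, hd, hfar⟩ := (unif_of_smooth (fa := false) (Γ := fun s => (H s).γ)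
    (fun c => (hs c).1) (fun s h => (hL s h).isU) (by simp)).far a ha
  choose ε hε h2 using fun c => (key c).2 (d / 2) (half_pos hd)
  obtain ⟨b, hb, hbε⟩ := GCSmall_min hε
  refine ⟨min a b, fun s h => ⟨lt_min ha hb, fun δ hδ => ?_⟩⟩
  have hr : ∀ x : κ ⊕ κ, |(Sum.elim (fun _ => 0) (fun _ => δ) x : ℝ)| ≤ min a b := by
    rintro (c | c)
    · simpa using ⟨ha.le, hb.le⟩
    · rw [Sum.elim_inr, abs_of_pos hδ.1]
      exact hδ.2
  have hra := fun (x : κ ⊕ κ) c => ((hr x).trans (min_le_left a b)).trans_lt (haρ c)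
  have hrb := fun (x : κ ⊕ κ) c => ((hr x).trans (min_le_right a b)).trans_lt (hbε c)
  refine ⟨fun x => ?_, fun x t => ?_, fun x x' t t' e => ?_, fun x t => ?_⟩
  · rw [GCSmall_dbl]
    exact ((hL s h).isU.smooth _).add (((hL s h).smooth _).const_smul _)
  · simp only [GCSmall_dbl, (hL s h).isU.per, (hL s h).per]
  · simp only [GCSmall_dbl] at e
    have h3 : dist ((H s).γ (Sum.elim id id x) t) ((H s).γ (Sum.elim id id x') t') < d := by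
      rw [dist_eq_norm, sub_eq_sub_iff_add_eq_add.2 (e.trans (add_comm _ _))]
      have h4 := h2 _ s h t _ (hrb x (Sum.elim id id x))
      have h5 := h2 _ s h t' _ (hrb x' (Sum.elim id id x'))
      exact (norm_sub_le _ _).trans_lt (by linarith)
    have h6 := mt (hfar s h _ _ t t') (not_le.2 h3)
    push Not at h6
    obtain ⟨hc, j, hj⟩ := h6
    rw [← hc, ← GCSmall_per ((hL s h).isU.per _) t' j, ← GCSmall_per ((hL s h).per _) t' j] at e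
    obtain ⟨h7, h8⟩ := (h1 _ s h).1 t (t' + j) _ _
      (by rw [add_sub_right_comm]; exact hj.trans (haρ _)) (hra x _) (hra x' _) e
    refine ⟨?_, -j, by rw [h7]; push_cast; ring⟩
    rcases x with c | c <;> rcases x' with c' | c'
    · exact congrArg _ hc
    · exact absurd h8 hδ.1.ne
    · exact absurd h8 hδ.1.ne'
    · exact congrArg _ hc
  · rw [GCSmall_dbl]
    exact (h1 _ s h).2 t _ (hra x _)

theorem Lk.IsLink.smoothFam {L : Lk κ} (hL : L.IsLink) : SmoothFam fun _ => L :=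
  fun c => ⟨(hL.isU.smooth c).comp contDiff_snd, (hL.smooth c).comp contDiff_snd⟩

theorem Lk.IsLink.exists_small' [Fintype κ] {L : Lk κ} (hL : L.IsLink) : ∃ δ, L.Small δ := by
  obtain ⟨δ, h⟩ := exists_small_fam hL.smoothFam fun _ _ => hL
  exact ⟨δ, h 0 ⟨le_rfl, zero_le_one⟩⟩

theorem Lk.Small.mono {L : Lk κ} {δ δ' : ℝ} (h : L.Small δ) (h₀ : 0 < δ') (h₁ : δ' ≤ δ) :
    L.Small δ' := ⟨h₀, fun x hx => h.2 x ⟨hx.1, hx.2.trans h₁⟩⟩

theorem Lk.Small.isU {L : Lk κ} {δ : ℝ} (h : L.Small δ) : IsU (L.dbl δ) := h.2 δ ⟨h.1, le_rfl⟩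

theorem SmoothFam.dbl {H : ℝ → Lk κ} (hs : SmoothFam H) {δ : ℝ → ℝ} (hδ : ContDiff ℝ ∞ δ)
    (c : κ ⊕ κ) : ContDiff ℝ ∞ fun p : ℝ × ℝ => (H p.1).dbl (δ p.1) c p.2 := by
  rcases c with c | c
  · exact (hs c).1
  · exact (hs c).1.add ((hδ.comp contDiff_fst).smul (hs c).2)

theorem Lk.IsLink.nonVert {L : Lk κ} (hL : L.IsLink) (hν : ∀ c t, L.ν c t = ez) :
    NonVert L.γ := by
  intro c t
  by_contra h
  push Not at h
  have h1 := LinearIndependent.pair_iff.1 (hL.indep c t) 1 (-deriv (L.γ c) t 2) (by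
    rw [hν]
    ext i
    fin_cases i <;> simp [ez, h.1, h.2])
  exact one_ne_zero h1.1

theorem Lk.nonVert_dbl {L : Lk κ} (hL : L.IsLink) (hν : ∀ c t, L.ν c t = ez) (δ : ℝ) :
    NonVert (L.dbl δ) := by
  rintro (c | c) t
  · exact hL.nonVert hν c t
  · have e : L.dbl δ (Sum.inr c) = fun t => L.γ c t + δ • ez := by
      funext u
      rw [← hν c u]
      rfl
    rw [e, deriv_add_const]
    exact hL.nonVert hν c t

end Pool.Agent.P.MP_ac4909_gt.B
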