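import Pool.Agent.P.MP_ac4909_gt.B.GC_Uniq
import Pool.Agent.P.MP_ac4909_gt.B.GC_Rep
import Pool.Agent.P.MP_ac4909_gt.B.GC_Small
import Pool.Agent.P.MP_ac4909_gt.B.GC_Dbl

/-! Layer G, core: framing numbers and values. -/

namespace Pool.Agent.P.MP_ac4909_gt.B

open scoped ContDiff
open Set Filter Topology

variable {κ κ' ι P : Type} {L : Lk κ} {δ δ' : ℝ} {W W' : List (Sl (Arc (κ ⊕ κ)))}

theorem GCVal_map_map {α β β' : Type} (f : α → β) (g : β → β') (w : List (Sl α)) :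
    (w.map (Sl.map f)).map (Sl.map g) = w.map (Sl.map (g ∘ f)) := by
  rw [List.map_map]
  refine List.map_congr_left fun s _ => ?_
  obtain ⟨l, x, r⟩ := s
  cases x <;> simp [Sl.map, Gen.map]

theorem Lk.dbl_eqv [Fintype κ] (hL : L.IsLink) (h : L.Small δ) (h' : L.Small δ')
    (hW : HasWord false (L.dbl δ) W) (hW' : HasWord false (L.dbl δ') W') :
    Eqv false [] [] W W' := by
  refine hasWord_iso (Γ := fun s => L.dbl ((1 - s) * δ + s * δ'))
    (hL.smoothFam.dbl (δ := fun s => (1 - s) * δ + s * δ') (by fun_prop)) (fun s hs => ?_)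
    (fun e => absurd e Bool.false_ne_true) (by simpa using hW) (by simpa using hW')
  have h0 := h.1
  have h0' := h'.1
  have h1 : 0 ≤ 1 - s := sub_nonneg.2 hs.2
  have hp : 0 < (1 - s) * δ + s * δ' := by
    rcases hs.1.eq_or_lt with rfl | h2
    · simpa using h0
    · have := mul_nonneg h1 h0.le
      have := mul_pos h2 h0'
      linarith
  rcases le_total δ δ' with hd | hd
  · exact h'.2 _ ⟨hp, by nlinarith [mul_le_mul_of_nonneg_left hd h1]⟩
  · exact h.2 _ ⟨hp, by nlinarith [mul_le_mul_of_nonneg_left hd hs.1]⟩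

theorem Lk.FrIs.eq_lko [Fintype κ] [DecidableEq κ] (hL : L.IsLink) {f : κ → ℤ} (hf : L.FrIs f)
    (h : L.Small δ) (hW : HasWord false (L.dbl δ) W) (c : κ) :
    f c = lko (Sum.inl c) (Sum.inr c) W := by
  obtain ⟨δ', W', h', hW', hf⟩ := hf
  rw [hf c]
  exact (Lk.dbl_eqv hL h' h hW' hW).lko_eq (Or.inr Sum.inl_ne_inr)

theorem Lk.FrIs.unique [Fintype κ] [DecidableEq κ] (hL : L.IsLink) {f f' : κ → ℤ} (hf : L.FrIs f)
    (hf' : L.FrIs f') : f = f' := by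
  obtain ⟨δ', W', h', hW', e⟩ := hf'
  exact funext fun c => (hf.eq_lko hL h' hW' c).trans (e c).symm

theorem Lk.IsLink.exists_frIs [Fintype κ] [DecidableEq κ] (hL : L.IsLink) : ∃ f, L.FrIs f := by
  obtain ⟨δ, h⟩ := hL.exists_small'
  obtain ⟨W, hW⟩ := exists_hasWord (fa := false) h.isU fun e => absurd e Bool.false_ne_true
  exact ⟨_, δ, W, h, hW, fun _ => rfl⟩

theorem Lk.trace_eq {L' : Lk κ'} {ℓ : κ → Option ι} {ℓ' : κ' → Option ι}
    (h : L'.set ℓ' = L.set ℓ) : trace L'.γ ⊆ trace L.γ := by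
  intro p hp
  obtain ⟨c, t, rfl⟩ := mem_iUnion.1 hp
  obtain ⟨c', t', e⟩ : (ℓ' c, L'.γ c t, L'.ν c t) ∈ L.set ℓ := h ▸ ⟨c, t, rfl⟩
  exact mem_iUnion.2 ⟨c', t', (congrArg (fun x => x.2.1) e).symm⟩

theorem ZvIs.unique {E : EvSys ι P} {S : LS ι} {x y : P → ℂ} (hx : ZvIs E S x) (hy : ZvIs E S y) :
    x = y := by
  obtain ⟨κ, _, _, L, ℓ, w, f, hL, rfl, hw, hf, rfl⟩ := hx
  obtain ⟨κ', _, _, L', ℓ', w', f', hL', hS, hw', hf', rfl⟩ := hy
  obtain ⟨β, φ, fl, hφ, he⟩ := exists_rp hL.isU hL'.isU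
    ((Lk.trace_eq hS.symm).antisymm (Lk.trace_eq hS))
  have hν : ∀ c t, ℓ' c = ℓ (β c) ∧ L'.ν c t = L.ν (β c) (φ c t) := by
    intro c t
    obtain ⟨c', t', e⟩ : (ℓ' c, L'.γ c t, L'.ν c t) ∈ L.set ℓ := hS ▸ ⟨c, t, rfl⟩
    simp only [Prod.mk.injEq] at e
    obtain ⟨rfl, k, hk⟩ := hL.isU.inj _ _ _ _ (e.2.1.symm.trans (he c t))
    rw [hk, per_int (hL.per _)]
    exact ⟨e.1, e.2.2⟩
  obtain ⟨δ, h⟩ := hL.exists_small'
  obtain ⟨δ', h'⟩ := hL'.exists_small'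
  have h0 : 0 < min δ δ' := lt_min h.1 h'.1
  have h₁ := h.mono h0 (min_le_left _ _)
  have h₂ := h'.mono h0 (min_le_right _ _)
  obtain ⟨W', hW'⟩ := exists_hasWord (fa := false) h₂.isU fun e => absurd e Bool.false_ne_true
  have hW : HasWord false (L.dbl (min δ δ'))
      (W'.map (Sl.map (ren (Sum.map β β) (Sum.elim fl fl)))) := by
    refine HasWord.rename (β.surjective.sumMap β.surjective) (φ := Sum.elim φ φ)
      ⟨?_, ?_, ?_⟩ ?_ hW'
    · rintro (c | c) <;> exact hφ.cont c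
    · rintro (c | c) <;> exact hφ.up c
    · rintro (c | c) <;> exact hφ.dn c
    · rintro (c | c) t
      · exact he c t
      · simp only [Lk.dbl, Sum.elim_inr, Sum.map_inr, he, (hν c t).2]
  have hff : ∀ c, f (β c) = f' c := by
    intro c
    rw [hf.eq_lko hL h₁ hW, hf'.eq_lko hL' h₂ hW']
    exact lko_rename (Sum.map β β) (β.injective.sumMap β.injective) (Sum.elim fl fl)
      (a := Sum.inl c) (b := Sum.inr c) rfl W'
  have hw₁ := hw'.rename β.surjective hφ he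
  funext p
  rw [(hw.eqv' hL.isU (fun e => absurd e Bool.false_ne_true) hw₁).cev_eq E p ℓ f]
  simp only [EvSys.cev]
  congr 1
  · rw [← β.prod_comp]
    refine Finset.prod_congr rfl fun c _ => ?_
    rw [(hν c 0).1, hff]
    congr 2
    exact lko_rename β β.injective fl rfl w'
  · rw [GCVal_map_map]
    congr 3
    funext a
    simp only [lbN, ren, Function.comp_apply, (hν a.name 0).1]

theorem zv_spec [Fintype κ] [DecidableEq κ] (E : EvSys ι P) (hL : L.IsLink) (ℓ : κ → Option ι)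
    {w : List (Sl (Arc κ))} (hw : HasWord false L.γ w) {f : κ → ℤ} (hf : L.FrIs f) :
    zv E (L.set ℓ) = fun p => E.cev p ℓ w f := by
  have h : ZvIs E (L.set ℓ) fun p => E.cev p ℓ w f := ⟨κ, _, _, L, ℓ, w, f, hL, rfl, hw, hf, rfl⟩
  exact (Classical.epsilon_spec ⟨_, h⟩).unique h

theorem zv_iso' (E : EvSys ι P) {S S' : LS ι} (h : GIso S S') : zv E S = zv E S' := by
  classical
  obtain ⟨κ, _, H, ℓ, hs, hL, rfl, rfl⟩ := h
  have i0 : (0 : ℝ) ∈ Icc (0 : ℝ) 1 := ⟨le_rfl, zero_le_one⟩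
  have i1 : (1 : ℝ) ∈ Icc (0 : ℝ) 1 := ⟨zero_le_one, le_rfl⟩
  obtain ⟨δ, hδ⟩ := exists_small_fam hs hL
  obtain ⟨w₀, h₀⟩ := exists_hasWord (fa := false) (hL 0 i0).isU fun e => absurd e (by simp)
  obtain ⟨w₁, h₁⟩ := exists_hasWord (fa := false) (hL 1 i1).isU fun e => absurd e (by simp)
  obtain ⟨W₀, H₀⟩ := exists_hasWord (fa := false) (hδ 0 i0).isU fun e => absurd e (by simp)
  obtain ⟨W₁, H₁⟩ := exists_hasWord (fa := false) (hδ 1 i1).isU fun e => absurd e (by simp)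
  have e := hasWord_iso (Γ := fun s => (H s).γ) (fun c => (hs c).1) (fun s h => (hL s h).isU)
    (fun e => absurd e Bool.false_ne_true) h₀ h₁
  have e' := hasWord_iso (Γ := fun s => (H s).dbl δ) (hs.dbl (δ := fun _ => δ) contDiff_const)
    (fun s h => (hδ s h).isU) (fun e => absurd e Bool.false_ne_true) H₀ H₁
  rw [zv_spec E (hL 0 i0) ℓ h₀ ⟨δ, W₀, hδ 0 i0, H₀, fun _ => rfl⟩,
    zv_spec E (hL 1 i1) ℓ h₁ ⟨δ, W₁, hδ 1 i1, H₁, fun c => e'.lko_eq (Or.inr Sum.inl_ne_inr)⟩]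
  exact funext fun p => e.cev_eq E p ℓ _

/-- the vertical framing is the blackboard framing -/
theorem frIs_vertical [Fintype κ] [DecidableEq κ] (hL : L.IsLink) (hν : ∀ c t, L.ν c t = ez)
    {w : List (Sl (Arc κ))} (hw : HasWord true L.γ w) : L.FrIs fun c => lko c c w := by
  classical
  have hv := hL.nonVert hν
  obtain ⟨d, hd, H⟩ := exists_fine' hL.isU hv
  obtain ⟨δ, h⟩ := hL.exists_small'
  have h0 : 0 < min δ (d / 2) := lt_min h.1 (half_pos hd)
  obtain ⟨_, -, H⟩ := H Empty Empty.elim Empty.elim (fun a => a.elim) _ (half_pos h0)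
  obtain ⟨N, _, C, -, -, hC, hs, hM, hη, -⟩ := H Empty.elim fun a => a.elim
  obtain ⟨dl, hl⟩ := exists_lab' hL.isU hC hs
  obtain ⟨R, hR⟩ := exists_canon' C
  obtain ⟨W, hW, e⟩ := hasWord_dbl hL.isU hν hC hs hM hη (y := min δ (d / 2))
    (by rw [abs_of_pos h0]; exact min_le_right _ _) (by rw [abs_of_pos h0]; linarith) hl hR
  refine ⟨min δ (d / 2), W, h.mono h0 (min_le_left _ _), hW.weaken, fun c => ?_⟩
  rw [e.lko_eq (Or.inl rfl), lko_cable]
  have hw' : HasWord true L.γ ((C.grid dl).word R) :=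
    ⟨N, inferInstance, inferInstance, C, dl, R, hC, hs, hl, hR.good' hC, rfl⟩
  exact (hw.eqv' hL.isU (fun _ => hv) hw').lko_eq (Or.inl rfl)

theorem zv_vertical' [Fintype κ] (E : EvSys ι P) (hL : L.IsLink) (hν : ∀ c t, L.ν c t = ez)
    (ℓ : κ → Option ι) {w : List (Sl (Arc κ))} (hw : HasWord true L.γ w) (p : P) :
    zv E (L.set ℓ) p = E.ev p (w.map (Sl.map (lbN ℓ))) := by
  classical
  rw [zv_spec E hL ℓ hw.weaken (frIs_vertical hL hν hw)]
  simp [EvSys.cev]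

end Pool.Agent.P.MP_ac4909_gt.B
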