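import Pool.Agent.P.MP_ac4909_gt.B.WCell_Y

/-! The cell theorem: realisations with a common certificate have equivalent words. -/

namespace Pool.Agent.P.MP_ac4909_gt.B

variable {α N : Type} [Rev α] [DecidableEq N]

namespace WC

omit [DecidableEq N] in
/-- Sorting by exchanges of adjacent inverted pairs. -/
theorem sort_swaps {Inv : N → N → Prop} {Rel : List N → List N → Prop} (hr : ∀ l, Rel l l)
    (ht : ∀ l l' l'' : List N, Rel l l' → Rel l' l'' → Rel l l'')
    (hs : ∀ (P S : List N) (a b : N), Inv a b → Rel (P ++ a :: b :: S) (P ++ b :: a :: S))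
    (T : List N) : ∀ P X : List N, X.Perm T →
      (∀ a b, List.Sublist [a, b] X → List.Sublist [b, a] T → Inv a b) → Rel (P ++ X) (P ++ T) := by
  have mv : ∀ (h : N) (B A P : List N), (∀ a ∈ A, Inv a h) →
      Rel (P ++ (A ++ h :: B)) (P ++ h :: (A ++ B)) := by
    intro h B A
    induction A with
    | nil => exact fun P _ => hr _
    | cons a A ih =>
      intro P hA
      have h1 := ih (P ++ [a]) fun x hx => hA x (List.mem_cons_of_mem _ hx)
      simp only [List.append_assoc, List.cons_append, List.nil_append] at h1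
      exact ht _ _ _ h1 (hs P (A ++ B) a h (hA a List.mem_cons_self))
  induction T with
  | nil =>
    intro P X hp _
    rw [hp.eq_nil]
    exact hr _
  | cons h T ih =>
    intro P X hp hi
    obtain ⟨A, B, rfl⟩ := List.append_of_mem (hp.symm.subset List.mem_cons_self)
    have hp' : (A ++ B).Perm T := (List.perm_middle.symm.trans hp).cons_inv
    have h1 := mv h B A P fun a ha => hi a h
      ((List.singleton_sublist.2 ha).append (List.singleton_sublist.2 List.mem_cons_self))
      ((List.singleton_sublist.2 (hp'.subset (List.mem_append_left _ ha))).cons_cons h)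
    have h2 := ih (P ++ [h]) (A ++ B) hp' fun a b h3 h4 => hi a b
      (h3.trans ((List.sublist_cons_self h B).append_left A)) (h4.cons h)
    simp only [List.append_assoc, List.cons_append, List.nil_append] at h2
    exact ht _ _ _ h1 h2

theorem idx_lt_of_sublist {l : List N} (hn : l.Nodup) {a b : N} (h : List.Sublist [a, b] l) :
    l.idxOf a < l.idxOf b := by
  obtain ⟨l₁, l₂, rfl, h1, h2⟩ := List.cons_sublist_iff.1 h
  obtain ⟨A, B, rfl⟩ := List.append_of_mem (List.singleton_sublist.1 h2)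
  rw [← List.append_assoc] at hn ⊢
  exact (idx_lt_iff hn).2 (List.mem_append_left _ h1)

omit [Rev α] [DecidableEq N] in
theorem leg_mono {G : Grid N α} {fa : Bool} {lt lt' lz lz' : N → N → Prop}
    (h1 : ∀ a b, lt a b → lt' a b) (h2 : ∀ a b, lz a b → lz' a b) {a b : N}
    (h : G.Leg fa lt lz a b) : G.Leg fa lt' lz' a b := by
  rcases h with h | ⟨k1, k2, k3, k4⟩ | ⟨s, t, k1, k2, k3⟩ | ⟨k0, s, t, k1, k2, k3, k4, k5⟩
  · exact Or.inl fun s t => h1 _ _ (h s t)
  · exact Or.inr (Or.inl ⟨h2 _ _ k1, fun s => h2 _ _ (k2 s), fun s => h2 _ _ (k3 s),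
      fun s t => h2 _ _ (k4 s t)⟩)
  · exact Or.inr (Or.inr (Or.inl ⟨s, t, k1, h1 _ _ k2, h1 _ _ k3⟩))
  · exact Or.inr (Or.inr (Or.inr ⟨k0, s, t, k1, h2 _ _ k2, h2 _ _ k3, h2 _ _ k4, h2 _ _ k5⟩))

end WC

open WC in
theorem Grid.cell_theorem {G : Grid N α} {R R' : Rz N} {fa : Bool} (hG : G.OK)
    (hR : R.OK G.col) (hR' : R'.OK G.col) (h : G.Compat fa R R') :
    Eqv fa [] [] (G.word R) (G.word R') := by
  obtain ⟨X, Y, z⟩ := R
  obtain ⟨X', Y', z'⟩ := R'
  have ok : ∀ l m : List N, l.Perm X → m.Perm Y → Rz.OK ⟨l, m, z⟩ G.col := fun l m hl hm =>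
    ⟨hl.nodup_iff.2 hR.nodupX, hm.nodup_iff.2 hR.nodupY, fun a => hl.mem_iff.trans (hR.memX a),
      fun a => hm.mem_iff.trans (hR.memY a)⟩
  have pX : X.Perm X' := (List.perm_ext_iff_of_nodup hR.nodupX hR'.nodupX).2 fun a =>
    (hR.memX a).trans (hR'.memX a).symm
  have pY : Y.Perm Y' := (List.perm_ext_iff_of_nodup hR.nodupY hR'.nodupY).2 fun a =>
    (hR.memY a).trans (hR'.memY a).symm
  have sw : ∀ (P S : List N) (a b : N), (P ++ a :: b :: S).Perm (P ++ b :: a :: S) :=
    fun P S a b => (List.Perm.swap b a S).append_left P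
  have s1 := sort_swaps (N := N)
    (Inv := fun a b => G.Leg fa (fun a b => Y.idxOf a < Y.idxOf b) (fun a b => z a < z b) a b ∨
      G.Leg fa (fun a b => Y.idxOf a < Y.idxOf b) (fun a b => z a < z b) b a)
    (Rel := fun l l' => l.Perm l' ∧ (l.Perm X → Eqv fa [] [] (G.word ⟨l, Y, z⟩) (G.word ⟨l', Y, z⟩)))
    (fun l => ⟨.refl _, fun hl => Eqv.refl (Grid.run_word hG (ok l Y hl (.refl _)))⟩)
    (fun l l' l'' h1 h2 => ⟨h1.1.trans h2.1, fun hl => (h1.2 hl).trans (h2.2 (h1.1.symm.trans hl))⟩)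
    (fun P S a b hi => ⟨sw P S a b, fun hl => xswap hG (ok _ Y hl (.refl _))
      (ok _ Y ((sw P S a b).symm.trans hl) (.refl _)) hi⟩) X' [] X pX (fun a b h1 h2 => by
      have k1 := idx_lt_of_sublist hR.nodupX h1
      have k2 := idx_lt_of_sublist hR'.nodupX h2
      rcases h.cols a b ((hR.memX a).1 (h1.subset (by simp))) ((hR.memX b).1 (h1.subset (by simp)))
        (fun e => by rw [e] at k1; exact lt_irrefl _ k1) with k | k | k | k
      · exact absurd k.2 (lt_asymm k2)
      · exact absurd k.1 (lt_asymm k1)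
      · exact Or.inl (leg_mono (fun _ _ h => h.1) (fun _ _ h => h.1) k)
      · exact Or.inr (leg_mono (fun _ _ h => h.1) (fun _ _ h => h.1) k))
  have s2 := sort_swaps (N := N)
    (Inv := fun a b => G.Leg fa (fun a b => X'.idxOf a < X'.idxOf b) (fun a b => z a < z b) a b ∨
      G.Leg fa (fun a b => X'.idxOf a < X'.idxOf b) (fun a b => z a < z b) b a)
    (Rel := fun l l' => l.Perm l' ∧
      (l.Perm Y → Eqv fa [] [] (G.word ⟨X', l, z⟩) (G.word ⟨X', l', z⟩)))
    (fun l => ⟨.refl _, fun hl => Eqv.refl (Grid.run_word hG (ok X' l pX.symm hl))⟩)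
    (fun l l' l'' h1 h2 => ⟨h1.1.trans h2.1, fun hl => (h1.2 hl).trans (h2.2 (h1.1.symm.trans hl))⟩)
    (fun P S a b hi => ⟨sw P S a b, fun hl => by
      have o1 := ok X' _ pX.symm hl
      have o2 := ok X' _ pX.symm ((sw P S a b).symm.trans hl)
      exact hi.elim (yswap hG o1 o2) fun hi => (yswap hG o2 o1 hi).symm⟩) Y' [] Y pY
    (fun a b h1 h2 => by
      have k1 := idx_lt_of_sublist hR.nodupY h1
      have k2 := idx_lt_of_sublist hR'.nodupY h2
      rcases h.rows a b ((hR.memY a).1 (h1.subset (by simp))) ((hR.memY b).1 (h1.subset (by simp)))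
        (fun e => by rw [e] at k1; exact lt_irrefl _ k1) with k | k | k | k
      · exact absurd k.2 (lt_asymm k2)
      · exact absurd k.1 (lt_asymm k1)
      · exact Or.inl (leg_mono (fun _ _ h => h.2) (fun _ _ h => h.1) k)
      · exact Or.inr (leg_mono (fun _ _ h => h.2) (fun _ _ h => h.1) k))
  have s3 : G.word ⟨X', Y', z⟩ = G.word ⟨X', Y', z'⟩ := by
    refine List.flatMap_congr fun e he => ?_
    have hce := (hR'.memY e).1 he
    refine row_z hG (ok X' Y' pX.symm pY.symm) hce ?_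
    rintro v hv ⟨⟨s, k1, k2⟩, t, k3, k4⟩
    have b2 : ∀ s t : Bool, t = s ∨ t = !s := by decide
    rcases h.mixed v e hv hce (fun s' e' => by
      rcases b2 s s' with rfl | rfl
      · rw [e'] at k1; exact lt_irrefl _ k1
      · rw [e'] at k2; exact lt_irrefl _ k2) with k | k | k | k | k
    · exact k
    · exact absurd (k t).2 (lt_asymm k3)
    · exact absurd (k (!t)).2 (lt_asymm k4)
    · exact absurd (k s).2 (lt_asymm k1)
    · exact absurd (k (!s)).2 (lt_asymm k2)
  rw [← s3]
  exact (s1.2 (.refl _)).trans (s2.2 (.refl _))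

end Pool.Agent.P.MP_ac4909_gt.B
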