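import Pool.Agent.P.MP_ac4909_gt.B.WEvs

/-! Cables of events; doubled lists. -/

namespace Pool.Agent.P.MP_ac4909_gt.B

open Rev

variable {α β N : Type}

/-- the cabled middle columns -/
def wd_cabM (k : α → List β) (M : List (α × Bool)) : List (β × Bool) :=
  M.flatMap fun x => (k x.1).map fun y => (y, x.2)

theorem wd_cabM_nil (k : α → List β) : wd_cabM k [] = [] := rfl

theorem wd_cabM_cons (k : α → List β) (x : α × Bool) (M : List (α × Bool)) :
    wd_cabM k (x :: M) = ((k x.1).map fun y => (y, x.2)) ++ wd_cabM k M := rfl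

theorem wd_map_fst_pair (xs : List β) (s : Bool) : (xs.map fun y => (y, s)).map Prod.fst = xs := by
  simp [List.map_map, Function.comp_def]

theorem wd_cabM_fst (k : α → List β) (M : List (α × Bool)) :
    (wd_cabM k M).map Prod.fst = (M.map Prod.fst).flatMap k := by
  induction M with
  | nil => rfl
  | cons x M ih => rw [wd_cabM_cons, List.map_append, ih, wd_map_fst_pair]; rfl

theorem wd_crossL_append (b : α) (r l : List α) (M M' : List (α × Bool)) :
    crossL b r l (M ++ M') =
      crossL b r (l ++ M.map Prod.fst) M' ++ crossL b (M'.map Prod.fst ++ r) l M := by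
  induction M generalizing l with
  | nil => simp [crossL]
  | cons x M ih => simp [crossL, ih]

theorem wd_crossR_append (b : α) (r l : List α) (M M' : List (α × Bool)) :
    crossR b r l (M ++ M') =
      crossR b (M'.map Prod.fst ++ r) l M ++ crossR b r (l ++ M.map Prod.fst) M' := by
  induction M generalizing l with
  | nil => simp [crossR]
  | cons x M ih => simp [crossR, ih]

theorem wd_crossL_pad (b : α) (l' r' r l : List α) (M : List (α × Bool)) :
    (crossL b r l M).map (pad l' r') = crossL b (r ++ r') (l' ++ l) M := by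
  induction M generalizing l with
  | nil => rfl
  | cons x M ih => simp [crossL, ih, pad]

theorem wd_crossR_pad (b : α) (l' r' r l : List α) (M : List (α × Bool)) :
    (crossR b r l M).map (pad l' r') = crossR b (r ++ r') (l' ++ l) M := by
  induction M generalizing l with
  | nil => rfl
  | cons x M ih => simp [crossR, ih, pad]

theorem wd_cross1_eq (s : Bool) (y : β) (r l xs : List β) :
    cross1 s y r l xs = crossL y r l (xs.map fun x => (x, s)) := by
  induction xs generalizing l with
  | nil => rfl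
  | cons x xs ih => rw [cross1, List.map_cons, crossL, ih, wd_map_fst_pair]

theorem wd_cross_single (s : Bool) (y : β) (r l xs : List β) :
    cross (!s) [y] r l xs = crossR y r l (xs.map fun x => (x, s)) := by
  induction xs generalizing l with
  | nil => rfl
  | cons x xs ih => rw [cross, List.map_cons, crossR, ih, wd_map_fst_pair]; rfl

/-- two strands cross the columns `M` from left to right, column by column -/
def wd_crossR2 (y₁ y₂ : β) (r : List β) : List β → List (β × Bool) → List (Sl β)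
  | _, [] => []
  | l, x :: M => ⟨l ++ [y₁], .cr y₂ x.1 (!x.2), M.map Prod.fst ++ r⟩ ::
      ⟨l, .cr y₁ x.1 (!x.2), y₂ :: (M.map Prod.fst ++ r)⟩ :: wd_crossR2 y₁ y₂ r (l ++ [x.1]) M

theorem wd_crossR2_append (y₁ y₂ : β) (r l : List β) (M M' : List (β × Bool)) :
    wd_crossR2 y₁ y₂ r l (M ++ M') =
      wd_crossR2 y₁ y₂ (M'.map Prod.fst ++ r) l M ++ wd_crossR2 y₁ y₂ r (l ++ M.map Prod.fst) M' := by
  induction M generalizing l with
  | nil => simp [wd_crossR2]
  | cons x M ih => simp [wd_crossR2, ih]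

theorem wd_cross_pair (s : Bool) (y₁ y₂ : β) (r l xs : List β) :
    cross (!s) [y₁, y₂] r l xs = wd_crossR2 y₁ y₂ r l (xs.map fun x => (x, s)) := by
  induction xs generalizing l with
  | nil => rfl
  | cons x xs ih => rw [cross, List.map_cons, wd_crossR2, ih, wd_map_fst_pair]; rfl

section
variable [Rev β] {k : α → List β}

theorem wd_cable_cons (k : α → List β) (s : Sl α) (w : List (Sl α)) :
    cable k (s :: w) = cable k [s] ++ cable k w := cable_append k [s] w

theorem wd_cable_cr (k : α → List β) (l r : List α) (x y : α) (s : Bool) :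
    cable k [⟨l, .cr x y s, r⟩] = cross s (k x) (r.flatMap k) (l.flatMap k) (k y) := by
  simp [cable]

theorem wd_cable_cup (k : α → List β) (l r : List α) (x : α) :
    cable k [⟨l, .cup x, r⟩] = cups (l.flatMap k) (k x) (r.flatMap k) := by
  simp [cable]

theorem wd_cable_cap (k : α → List β) (l r : List α) (x : α) :
    cable k [⟨l, .cap x, r⟩] = caps (l.flatMap k) (k x) (r.flatMap k) := by
  simp [cable]

theorem wd_cable_crossL1 {b : α} {y : β} (hb : k b = [y]) (r l : List α) (M : List (α × Bool)) :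
    cable k (crossL b r l M) = crossL y (r.flatMap k) (l.flatMap k) (wd_cabM k M) := by
  induction M generalizing l with
  | nil => rfl
  | cons x M ih =>
    rw [crossL, cable_append, ih, wd_cable_cr, hb, wd_cabM_cons, wd_crossL_append, wd_map_fst_pair, wd_cabM_fst]
    simp [cross, wd_cross1_eq]

theorem wd_cable_crossR1 {b : α} {y : β} (hb : k b = [y]) (r l : List α) (M : List (α × Bool)) :
    cable k (crossR b r l M) = crossR y (r.flatMap k) (l.flatMap k) (wd_cabM k M) := by
  induction M generalizing l with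
  | nil => rfl
  | cons x M ih =>
    rw [crossR, wd_cable_cons, ih, wd_cable_cr, hb, wd_cabM_cons, wd_crossR_append, wd_map_fst_pair, wd_cabM_fst,
      wd_cross_single]
    simp

theorem wd_cable_crossR2 {b : α} {y₁ y₂ : β} (hb : k b = [y₁, y₂]) (r l : List α)
    (M : List (α × Bool)) :
    cable k (crossR b r l M) = wd_crossR2 y₁ y₂ (r.flatMap k) (l.flatMap k) (wd_cabM k M) := by
  induction M generalizing l with
  | nil => rfl
  | cons x M ih =>
    rw [crossR, wd_cable_cons, ih, wd_cable_cr, hb, wd_cabM_cons, wd_crossR2_append, wd_map_fst_pair, wd_cabM_fst,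
      wd_cross_pair]
    simp

theorem wd_cable_event1 {a b : α} {x y : β} (ha : k a = [x]) (hb : k b = [y]) (l r : List α)
    (u u' : Bool) (M : List (α × Bool)) :
    cable k (event l a u M b u' r) = event (l.flatMap k) x u (wd_cabM k M) y u' (r.flatMap k) := by
  cases u <;> cases u'
  · rw [event, event, cable_append, wd_cable_crossL1 hb, wd_cable_cap, ha, wd_cabM_fst]
    simp [caps, ha]
  · rw [event, event, wd_cable_crossR1 hb]
  · rw [event, event, wd_cable_crossL1 hb]
  · rw [event, event, wd_cable_cons, wd_cable_crossR1 hb, wd_cable_cup, ha, wd_cabM_fst]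
    simp [cups, ha]

theorem Eqv.wd_cast {fa : Bool} {ρ σ ρ' σ' : List β} {w₁ w₂ w₁' w₂' : List (Sl β)}
    (h : Eqv fa ρ σ w₁ w₂) (h₁ : ρ = ρ') (h₂ : σ = σ') (h₃ : w₁ = w₁') (h₄ : w₂ = w₂') :
    Eqv fa ρ' σ' w₁' w₂' := by
  subst h₁ h₂ h₃ h₄
  exact h

theorem wd_run_single (s : Sl β) : Run s.src [s] s.tgt := ⟨rfl, rfl⟩

/-- a slice commutes with a word on its right -/
theorem wd_far_gen {fa : Bool} (l : List β) (g : Gen β) {ρ σ : List β} {w : List (Sl β)}
    (hw : Run ρ w σ) :
    Eqv fa (l ++ g.src ++ ρ) (l ++ g.tgt ++ σ) (⟨l, g, ρ⟩ :: w.map (pad (l ++ g.tgt) []))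
      (w.map (pad (l ++ g.src) []) ++ [⟨l, g, σ⟩]) :=
  (Eqv.far (fa := fa) (wd_run_single ⟨l, g, []⟩) hw).wd_cast (by simp [Sl.src]) (by simp [Sl.tgt])
    (by simp [pad, Sl.tgt]) (by simp [pad, Sl.src])

theorem wd_crossR2_eqv (y₁ y₂ : β) (r l : List β) (M : List (β × Bool)) :
    Eqv true (l ++ y₁ :: y₂ :: (M.map Prod.fst ++ r)) (l ++ M.map Prod.fst ++ y₁ :: y₂ :: r)
      (crossR y₂ r (l ++ [y₁]) M ++ crossR y₁ (y₂ :: r) l M) (wd_crossR2 y₁ y₂ r l M) := by
  induction M generalizing l with
  | nil => exact Eqv.refl (by simp [crossR, run_nil])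
  | cons x M ih =>
    have h1 := Eqv.refl (fa := true)
      (wd_run_single (⟨l ++ [y₁], .cr y₂ x.1 (!x.2), M.map Prod.fst ++ r⟩ : Sl β))
    have h2 := (wd_far_gen (fa := true) l (.cr y₁ x.1 (!x.2)) (run_crossR y₂ [] r M)).symm
    have h3 := Eqv.refl (fa := true) (run_crossR y₁ (l ++ [x.1]) (y₂ :: r) M)
    have h4 := Eqv.refl (fa := true)
      (wd_run_single (⟨l, .cr y₁ x.1 (!x.2), y₂ :: (M.map Prod.fst ++ r)⟩ : Sl β))
    have h5 := h1.append ((h2.append (h3.wd_cast (by simp [Gen.tgt]) rfl rfl rfl)).wd_cast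
      (by simp [Gen.src, Gen.tgt, Sl.tgt]) rfl rfl rfl)
    have h6 := h1.append ((h4.append ((ih (l ++ [x.1])).wd_cast (by simp [Gen.tgt, Sl.tgt])
      rfl rfl rfl)).wd_cast (by simp [Gen.src, Gen.tgt, Sl.tgt, Sl.src]) rfl rfl rfl)
    refine (h5.trans (h6.wd_cast rfl (by simp) ?_ rfl)).wd_cast (by simp [Sl.src, Gen.src]) (by simp)
      ?_ rfl
    · simp [wd_crossR_pad, Gen.tgt]
    · simp [wd_crossR_pad, Gen.src, crossR]

theorem wd_cable_crossL2 {b : α} {y₁ y₂ : β} (hb : k b = [y₁, y₂]) (r l : List α)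
    (M : List (α × Bool)) :
    Eqv true (l.flatMap k ++ (wd_cabM k M).map Prod.fst ++ y₁ :: y₂ :: r.flatMap k)
      (l.flatMap k ++ y₁ :: y₂ :: ((wd_cabM k M).map Prod.fst ++ r.flatMap k))
      (crossL y₁ (y₂ :: r.flatMap k) (l.flatMap k) (wd_cabM k M) ++
        crossL y₂ (r.flatMap k) (l.flatMap k ++ [y₁]) (wd_cabM k M))
      (cable k (crossL b r l M)) := by
  induction M generalizing l with
  | nil => exact Eqv.refl (by simp [crossL, run_nil, wd_cabM_nil])
  | cons x M ih =>
    set B := (k x.1).map fun y => (y, x.2) with hB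
    have hB' : B.map Prod.fst = k x.1 := wd_map_fst_pair _ _
    set l' := l.flatMap k with hl'
    set r' := r.flatMap k with hr'
    set M' := wd_cabM k M with hM'
    have h1 := Eqv.refl (fa := true) (run_crossL y₁ (l' ++ k x.1) (y₂ :: r') M')
    have h2 := Eqv.far (fa := true) (run_crossL y₁ l' [] B) (run_crossL y₂ [] r' M')
    have h3 := Eqv.refl (fa := true) (run_crossL y₂ (l' ++ [y₁]) (M'.map Prod.fst ++ r') B)
    have h4 := Eqv.refl (fa := true) (run_crossL y₁ l' (y₂ :: (M'.map Prod.fst ++ r')) B)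
    have h5 := h1.append ((h2.append (h3.wd_cast (by simp) rfl rfl rfl)).wd_cast
      (by simp [hB']) rfl rfl rfl)
    have h6 := (ih (l ++ [x.1])).append ((h4.append (h3.wd_cast (by simp) rfl rfl rfl)).wd_cast
      (by simp [hB', hl']) rfl rfl rfl)
    refine (h5.trans (h6.wd_cast (by simp [hl']) rfl ?_ rfl)).wd_cast ?_ ?_ ?_ ?_
    · simp [wd_crossL_pad, hB', hl']
    · simp [wd_cabM_cons, ← hB, hB', ← hM']
    · simp [wd_cabM_cons, ← hB, hB', ← hM']
    · rw [wd_cabM_cons, ← hB, ← hM', wd_crossL_append, wd_crossL_append]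
      simp [wd_crossL_pad, hB']
    · rw [crossL, cable_append, wd_cable_cr, hb]
      simp [cross, wd_cross1_eq, ← hB, hM', wd_cabM_fst, hl', hr']

/-- the lower one of the two events of a doubled row -/
def wd_evLo (l : List β) (x₁ x₂ : β) (u : Bool) (M : List (β × Bool)) (y₁ y₂ : β) (u' : Bool)
    (r : List β) : List (Sl β) :=
  event (l ++ if u then [] else [x₁]) (if u then x₁ else x₂) u M (if u' then y₂ else y₁) u'
    ((if u' then [] else [y₂]) ++ r)

/-- the upper one of the two events of a doubled row -/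
def wd_evHi (l : List β) (x₁ x₂ : β) (u : Bool) (M : List (β × Bool)) (y₁ y₂ : β) (u' : Bool)
    (r : List β) : List (Sl β) :=
  event (l ++ if u then [x₁] else []) (if u then x₂ else x₁) u M (if u' then y₁ else y₂) u'
    ((if u' then [y₂] else []) ++ r)

theorem wd_cable_event2_aux {a b : α} {x₁ x₂ y₁ y₂ : β} (ha : k a = [x₁, x₂]) (hb : k b = [y₁, y₂])
    (l r : List α) (u u' : Bool) (M : List (α × Bool))
    (hy : u = u' → y₁ = rev x₂ ∧ y₂ = rev x₁) (hy' : u ≠ u' → y₁ = x₁ ∧ y₂ = x₂) :
    ∃ ρ σ, Eqv true ρ σ (wd_evLo (l.flatMap k) x₁ x₂ u (wd_cabM k M) y₁ y₂ u' (r.flatMap k) ++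
        wd_evHi (l.flatMap k) x₁ x₂ u (wd_cabM k M) y₁ y₂ u' (r.flatMap k))
      (cable k (event l a u M b u' r)) := by
  cases u <;> cases u'
  · obtain ⟨rfl, rfl⟩ := hy rfl
    have h0 := wd_cable_crossL2 hb r (l ++ [a]) M
    set l' := l.flatMap k with hl'
    set r' := r.flatMap k with hr'
    set M' := wd_cabM k M with hM'
    have h1 := Eqv.refl (fa := true) (run_crossL (rev x₂) (l' ++ [x₁, x₂]) (rev x₁ :: r') M')
    have h2 := wd_far_gen (fa := true) (l' ++ [x₁]) (.cap x₂) (run_crossL (rev x₁) [] r' M')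
    have h3 := Eqv.refl (fa := true) (wd_run_single (⟨l', .cap x₁, M'.map Prod.fst ++ r'⟩ : Sl β))
    have h4 := Eqv.refl (fa := true)
      (wd_run_single (⟨l' ++ [x₁], .cap x₂, rev x₁ :: (M'.map Prod.fst ++ r')⟩ : Sl β))
    have h5 := h1.append ((h2.append (h3.wd_cast (by simp [Sl.src, Gen.src, Gen.tgt]) rfl rfl
      rfl)).wd_cast (by simp [Gen.src]) rfl rfl rfl)
    have h6 := h0.append ((h4.append (h3.wd_cast (by simp [Sl.src, Sl.tgt, Gen.src, Gen.tgt]) rfl rfl
      rfl)).wd_cast (by simp [Sl.src, Gen.src, ha, hl']) rfl rfl rfl)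
    refine ⟨_, _, (h5.trans (h6.wd_cast (by simp [ha, hl']) rfl ?_ rfl)).wd_cast rfl rfl ?_ ?_⟩
    · simp [wd_crossL_pad, Gen.src, ha, hl']
    · simp [wd_evLo, wd_evHi, event, wd_crossL_pad, Gen.tgt]
    · rw [event, cable_append, wd_cable_cap, ha]
      simp [caps, hM', wd_cabM_fst, hl', hr']
  · obtain ⟨rfl, rfl⟩ := hy' (by simp)
    refine ⟨_, _, (wd_crossR2_eqv y₁ y₂ (r.flatMap k) (l.flatMap k) (wd_cabM k M)).wd_cast rfl rfl ?_ ?_⟩
    · simp [wd_evLo, wd_evHi, event]
    · rw [event, wd_cable_crossR2 hb]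
  · obtain ⟨rfl, rfl⟩ := hy' (by simp)
    refine ⟨_, _, (wd_cable_crossL2 hb r l M).wd_cast rfl rfl ?_ rfl⟩
    simp [wd_evLo, wd_evHi, event]
  · obtain ⟨rfl, rfl⟩ := hy rfl
    set l' := l.flatMap k with hl'
    set r' := r.flatMap k with hr'
    set M' := wd_cabM k M with hM'
    have h0 := wd_crossR2_eqv (rev x₂) (rev x₁) r' (l' ++ [x₁, x₂]) M'
    have h1 := Eqv.refl (fa := true) (wd_run_single (⟨l', .cup x₁, M'.map Prod.fst ++ r'⟩ : Sl β))
    have h2 := (wd_far_gen (fa := true) (l' ++ [x₁]) (.cup x₂) (run_crossR (rev x₁) [] r' M')).symm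
    have h3 := Eqv.refl (fa := true) (run_crossR (rev x₂) (l' ++ [x₁, x₂]) (rev x₁ :: r') M')
    have h4 := Eqv.refl (fa := true)
      (wd_run_single (⟨l' ++ [x₁], .cup x₂, rev x₁ :: (M'.map Prod.fst ++ r')⟩ : Sl β))
    have h5 := h1.append ((h2.append (h3.wd_cast (by simp [Gen.tgt]) rfl rfl
      rfl)).wd_cast (by simp [Gen.src, Sl.tgt, Gen.tgt]) rfl rfl rfl)
    have h6 := h1.append ((h4.append (h0.wd_cast (by simp [Sl.tgt, Gen.tgt]) rfl rfl
      rfl)).wd_cast (by simp [Sl.src, Sl.tgt, Gen.src, Gen.tgt]) rfl rfl rfl)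
    refine ⟨_, _, (h5.trans (h6.wd_cast rfl rfl ?_ rfl)).wd_cast rfl rfl ?_ ?_⟩
    · simp [wd_crossR_pad, Gen.tgt]
    · simp [wd_evLo, wd_evHi, event, wd_crossR_pad, Gen.src]
    · rw [event, wd_cable_cons, wd_cable_cup, ha, wd_cable_crossR2 hb]
      simp [cups, hM', wd_cabM_fst, hl', hr', ha]

theorem wd_cable_ne_nil (hk : ∀ x, k x ≠ []) {w : List (Sl α)} (hw : w ≠ []) : cable k w ≠ [] := by
  obtain ⟨⟨l, g, r⟩, w, rfl⟩ := List.exists_cons_of_ne_nil hw
  rw [wd_cable_cons]
  refine List.append_ne_nil_of_left_ne_nil ?_ _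
  cases g with
  | cup x =>
    obtain ⟨y, ys, h⟩ := List.exists_cons_of_ne_nil (hk x)
    simp [wd_cable_cup, h, cups]
  | cap x =>
    obtain ⟨y, ys, h⟩ := List.exists_cons_of_ne_nil (hk x)
    simp [wd_cable_cap, h, caps]
  | cr x x' s =>
    obtain ⟨y, ys, h⟩ := List.exists_cons_of_ne_nil (hk x)
    obtain ⟨y', ys', h'⟩ := List.exists_cons_of_ne_nil (hk x')
    simp [wd_cable_cr, h, h', cross, cross1]

theorem Eqv.wd_transfer {fa : Bool} {ρ σ ρ' σ' : List β} {w w' : List (Sl β)}
    (h : Eqv fa ρ σ w w') (h' : Run ρ' w' σ') (hw : w' ≠ []) : Eqv fa ρ' σ' w w' := by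
  have h1 := h.run_right
  obtain ⟨s, w', rfl⟩ := List.exists_cons_of_ne_nil hw
  exact h.wd_cast (h1.1.trans h'.1.symm) (h1.2.unique h'.2) rfl rfl

theorem wd_cable_event2 [Rev α] (hk : ∀ x, k (rev x) = ((k x).map rev).reverse)
    (hk' : ∀ x, k x ≠ []) {a b : α} {x₁ x₂ y₁ y₂ : β} (ha : k a = [x₁, x₂]) (hb : k b = [y₁, y₂])
    (l r : List α) (u u' : Bool) (M : List (α × Bool)) (hab : b = if u = u' then rev a else a)
    {ρ σ : List α} (h : Run ρ (event l a u M b u' r) σ) :
    Eqv true (ρ.flatMap k) (σ.flatMap k)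
      (wd_evLo (l.flatMap k) x₁ x₂ u (wd_cabM k M) y₁ y₂ u' (r.flatMap k) ++
        wd_evHi (l.flatMap k) x₁ x₂ u (wd_cabM k M) y₁ y₂ u' (r.flatMap k))
      (cable k (event l a u M b u' r)) := by
  by_cases h0 : event l a u M b u' r = []
  · have h1 : M = [] ∧ u ≠ u' := by
      cases u <;> cases u' <;> cases M <;> simp [event, crossL, crossR] at h0 ⊢
    obtain ⟨rfl, h1⟩ := h1
    rw [h0] at h ⊢
    obtain rfl : ρ = σ := h
    refine (Eqv.refl (w := []) rfl).wd_cast rfl rfl ?_ rfl
    cases u <;> cases u' <;> simp [wd_evLo, wd_evHi, event, crossL, crossR, wd_cabM_nil] at h1 ⊢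
  · obtain ⟨ρ', σ', h1⟩ := wd_cable_event2_aux ha hb l r u u' M
      (fun h => by
        rw [if_pos h] at hab
        rw [hab, hk, ha] at hb
        simpa [eq_comm] using hb)
      (fun h => by
        rw [if_neg h] at hab
        rw [hab, ha] at hb
        simpa [eq_comm] using hb)
    exact h1.wd_transfer (run_cable k hk h) (wd_cable_ne_nil hk' h0)

end

section lists

variable {D aft : N → Bool}

/-- the original (`t = false`) or the copy (`t = true`) -/
def wd_lf (t : Bool) (a : N) (h : D a = true) : N ⊕ {a // D a = true} :=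
  if t then .inr ⟨a, h⟩ else .inl a

/-- the underlying segment -/
abbrev wd_und (x : N ⊕ {a // D a = true}) : N := Sum.elim id Subtype.val x

@[simp] theorem wd_und_lf (t : Bool) (a : N) (h : D a = true) : wd_und (wd_lf t a h) = a := by
  cases t <;> rfl

@[simp] theorem wd_isRight_lf (t : Bool) (a : N) (h : D a = true) : (wd_lf t a h).isRight = t := by
  cases t <;> rfl

theorem wd_und_ext {x y : N ⊕ {a // D a = true}} (h : wd_und x = wd_und y) (h' : x.isRight = y.isRight) :
    x = y := by
  rcases x with x | x <;> rcases y with y | y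
  · exact congrArg _ h
  · simp at h'
  · simp at h'
  · exact congrArg _ (Subtype.ext h)

theorem wd_dblList_nil : dblList D aft [] = [] := rfl

theorem wd_dblList_append (l l' : List N) :
    dblList D aft (l ++ l') = dblList D aft l ++ dblList D aft l' := List.flatMap_append

theorem wd_dblList_cons (a : N) (l : List N) :
    dblList D aft (a :: l) = dblList D aft [a] ++ dblList D aft l := wd_dblList_append [a] l

theorem wd_dblList_pos {a : N} (h : D a = true) :
    dblList D aft [a] = [wd_lf (!aft a) a h, wd_lf (aft a) a h] := by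
  cases h' : aft a <;> simp [dblList, h, h', wd_lf]

theorem wd_dblList_neg {a : N} (h : D a = false) : dblList D aft [a] = [.inl a] := by
  simp [dblList, h]

theorem wd_mem_dblList_single {a : N} {x : N ⊕ {a // D a = true}} :
    x ∈ dblList D aft [a] ↔ wd_und x = a := by
  cases h : D a
  · rw [wd_dblList_neg h, List.mem_singleton]
    refine ⟨fun e => e ▸ rfl, fun e => ?_⟩
    rcases x with x | x
    · exact congrArg _ e
    · have := x.2
      rw [show x.1 = a from e, h] at this
      exact absurd this (by simp)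
  · rw [wd_dblList_pos h]
    simp only [List.mem_cons, List.not_mem_nil, or_false]
    refine ⟨fun e => by rcases e with rfl | rfl <;> simp, fun e => ?_⟩
    by_cases h' : x.isRight = aft a
    · exact Or.inr (wd_und_ext (by simpa using e) (by simpa using h'))
    · exact Or.inl (wd_und_ext (by simpa using e) (by rw [wd_isRight_lf]; exact Bool.eq_not.2 h'))

theorem wd_mem_dblList {l : List N} {x : N ⊕ {a // D a = true}} : x ∈ dblList D aft l ↔ wd_und x ∈ l := by
  induction l with
  | nil => simp [wd_dblList_nil]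
  | cons a l ih => rw [wd_dblList_cons, List.mem_append, wd_mem_dblList_single, ih, List.mem_cons]

theorem wd_nodup_dblList {l : List N} (hl : l.Nodup) : (dblList D aft l).Nodup := by
  induction l with
  | nil => exact List.nodup_nil
  | cons a l ih =>
    rw [List.nodup_cons] at hl
    rw [wd_dblList_cons, List.nodup_append]
    refine ⟨?_, ih hl.2, fun x hx y hy e => hl.1 ?_⟩
    · cases h : D a
      · rw [wd_dblList_neg h]; exact List.nodup_singleton _
      · rw [wd_dblList_pos h]
        have : wd_lf (!aft a) a h ≠ wd_lf (aft a) a h := fun e => by simpa using congrArg Sum.isRight e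
        simpa using this
    · rw [wd_mem_dblList_single] at hx
      rw [wd_mem_dblList, ← e, hx] at hy
      exact hy

variable [DecidableEq N]

/-- `a` comes before `b` in the list -/
def wd_ilt (l : List N) (a b : N) : Prop := l.idxOf a < l.idxOf b

theorem wd_ilt.asymm {l : List N} {x y : N} (h : wd_ilt l x y) : ¬ wd_ilt l y x := lt_asymm h

theorem wd_ilt.trans {l : List N} {x y z : N} (h : wd_ilt l x y) (h' : wd_ilt l y z) : wd_ilt l x z :=
  lt_trans h h'

theorem wd_ilt_nil (x y : N) : ¬ wd_ilt [] x y := by simp [wd_ilt]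

theorem wd_ilt_of_mem {l l' : List N} {x y : N} (hx : x ∈ l) (hy : y ∉ l) : wd_ilt (l ++ l') x y := by
  rw [wd_ilt, List.idxOf_append_of_mem hx, List.idxOf_append_of_notMem hy]
  exact (List.idxOf_lt_length_of_mem hx).trans_le (Nat.le_add_right _ _)

theorem wd_ilt_append {l l' : List N} {x y : N} (hx : x ∉ l) (hy : y ∉ l) :
    wd_ilt (l ++ l') x y ↔ wd_ilt l' x y := by
  rw [wd_ilt, List.idxOf_append_of_notMem hx, List.idxOf_append_of_notMem hy,
    Nat.add_lt_add_iff_left, wd_ilt]

theorem wd_ilt_total {l : List N} {x y : N} (hx : x ∈ l) (hxy : x ≠ y) (h : ¬ wd_ilt l x y) :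
    wd_ilt l y x := by
  rcases lt_trichotomy (l.idxOf x) (l.idxOf y) with h' | h' | h'
  · exact absurd h' h
  · exact absurd ((List.idxOf_inj hx).1 h') hxy
  · exact h'

theorem wd_ilt_of_nodup {l l' : List N} (h : (l ++ l').Nodup) {x y : N} (hx : x ∈ l) (hy : y ∈ l') :
    wd_ilt (l ++ l') x y :=
  wd_ilt_of_mem hx fun hy' => (List.nodup_append.1 h).2.2 y hy' y hy rfl

theorem wd_ilt_dblList (l : List N) {x y : N ⊕ {a // D a = true}} (h : wd_und x ≠ wd_und y) :
    wd_ilt (dblList D aft l) x y ↔ wd_ilt l (wd_und x) (wd_und y) := by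
  induction l with
  | nil => exact iff_of_false (wd_ilt_nil _ _) (wd_ilt_nil _ _)
  | cons a l ih =>
    rw [wd_dblList_cons, ← List.singleton_append (l := l)]
    by_cases hx : wd_und x = a
    · have hy : wd_und y ≠ a := fun e => h (hx.trans e.symm)
      exact iff_of_true (wd_ilt_of_mem (wd_mem_dblList_single.2 hx) fun e => hy (wd_mem_dblList_single.1 e))
        (wd_ilt_of_mem (List.mem_singleton.2 hx) fun e => hy (List.mem_singleton.1 e))
    · by_cases hy : wd_und y = a
      · exact iff_of_false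
          (wd_ilt_of_mem (wd_mem_dblList_single.2 hy) fun e => hx (wd_mem_dblList_single.1 e)).asymm
          (wd_ilt_of_mem (List.mem_singleton.2 hy) fun e => hx (List.mem_singleton.1 e)).asymm
      · rw [wd_ilt_append (fun e => hx (wd_mem_dblList_single.1 e)) fun e => hy (wd_mem_dblList_single.1 e),
          wd_ilt_append (fun e => hx (List.mem_singleton.1 e)) fun e => hy (List.mem_singleton.1 e), ih]

theorem wd_ilt_dblList_same {l : List N} {e : N} (he : e ∈ l) (h : D e = true) :
    wd_ilt (dblList D aft l) (wd_lf (!aft e) e h) (wd_lf (aft e) e h) := by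
  induction l with
  | nil => simp at he
  | cons a l ih =>
    rw [wd_dblList_cons]
    by_cases ha : e = a
    · subst ha
      have : wd_lf (aft e) e h ≠ wd_lf (!aft e) e h := fun e => by simpa using congrArg Sum.isRight e
      rw [wd_dblList_pos h, List.cons_append, ← List.singleton_append]
      exact wd_ilt_of_mem (List.mem_singleton_self _) (by simpa using this)
    · rw [wd_ilt_append (fun e => ha (by simpa using wd_mem_dblList_single.1 e))
        fun e => ha (by simpa using wd_mem_dblList_single.1 e)]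
      exact ih ((List.mem_cons.1 he).resolve_left ha)

end lists

end Pool.Agent.P.MP_ac4909_gt.B
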