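import Pool.Agent.P.MP_ac4909_gt.B.WEvs
import Pool.Agent.P.MP_ac4909_gt.B.WDbl_x

/-! Doubling of components of a grid gives the blackboard cable of the word. -/

namespace Pool.Agent.P.MP_ac4909_gt.B

open Rev

variable {α β N : Type} [Rev α] [Rev β] [DecidableEq N]

namespace Grid
variable {G : Grid N α} {R : Rz N} {D : N → Bool} {hD : ∀ a s, D (G.nb a s) = D a}
  {d rt : α → Bool} {o c : α → β}

/-- the realisation of the doubled grid in which the copies are planar parallels -/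
def dblRz (G : Grid N α) (R : Rz N) (D : N → Bool) (rt : α → Bool)
    (z' : N ⊕ {a // D a = true} → ℝ) : Rz (N ⊕ {a // D a = true}) :=
  ⟨dblList D (fun v => rt (G.upl R v)) R.X, dblList D (fun e => !rt (G.rtl R e)) R.Y, z'⟩

/-- the relabelling of originals (`t = false`) and copies (`t = true`) -/
def wd_tlab (o c : α → β) (t : Bool) (x : α) : β := if t then c x else o x

section basic
omit [Rev α] [Rev β] [DecidableEq N]

theorem wd_und_nb (x : N ⊕ {a // D a = true}) (s : Bool) :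
    wd_und ((G.dbl D hD o c).nb x s) = G.nb (wd_und x) s := by
  cases x <;> rfl

theorem wd_isRight_nb (x : N ⊕ {a // D a = true}) (s : Bool) :
    ((G.dbl D hD o c).nb x s).isRight = x.isRight := by
  cases x <;> rfl

theorem wd_col_dbl (x : N ⊕ {a // D a = true}) : (G.dbl D hD o c).col x = G.col (wd_und x) := by
  cases x <;> rfl

theorem wd_dl_nb_left (x : N ⊕ {a // D a = true}) (s : Bool) :
    (G.dbl D hD o c).dl ((G.dbl D hD o c).nb x s) x =
      wd_tlab o c x.isRight (G.dl (G.nb (wd_und x) s) (wd_und x)) := by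
  cases x <;> rfl

theorem wd_dl_nb_right (x : N ⊕ {a // D a = true}) (s : Bool) :
    (G.dbl D hD o c).dl x ((G.dbl D hD o c).nb x s) =
      wd_tlab o c x.isRight (G.dl (wd_und x) (G.nb (wd_und x) s)) := by
  cases x <;> rfl

theorem wd_dblLab_pos {x : α} (h : d x = true) :
    dblLab d rt o c x = [wd_tlab o c (!rt x) x, wd_tlab o c (rt x) x] := by
  cases h' : rt x <;> simp [dblLab, h, h', wd_tlab]

theorem wd_dblLab_neg {x : α} (h : d x = false) : dblLab d rt o c x = [o x] := by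
  simp [dblLab, h]

theorem wd_dblLab_ne_nil (x : α) : dblLab d rt o c x ≠ [] := by
  cases h : d x
  · simp [wd_dblLab_neg h]
  · simp [wd_dblLab_pos h]

theorem wd_map_dblList_single {aft : N → Bool} {v : N} {x : α} (h : d x = D v) (h' : aft v = rt x) :
    (dblList D aft [v]).map (fun v' => wd_tlab o c v'.isRight x) = dblLab d rt o c x := by
  cases hv : D v
  · rw [wd_dblList_neg hv, wd_dblLab_neg (h.trans hv)]
    rfl
  · rw [wd_dblList_pos hv, wd_dblLab_pos (h.trans hv), h']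
    simp

end basic

omit [DecidableEq N] in
theorem wd_dblLab_rev (hd : ∀ x, d (rev x) = d x) (hrt : ∀ x, d x = true → rt (rev x) = !rt x)
    (ho : ∀ x, o (rev x) = rev (o x)) (hc : ∀ x, c (rev x) = rev (c x)) (x : α) :
    dblLab d rt o c (rev x) = ((dblLab d rt o c x).map rev).reverse := by
  cases h : d x
  · simp [dblLab, hd, h, ho]
  · cases h' : rt x <;> simp [dblLab, hd, h, ho, hc, hrt x h, h']

omit [DecidableEq N] in
theorem OK.dbl (hG : G.OK) (ho : ∀ x, o (rev x) = rev (o x)) (hc : ∀ x, c (rev x) = rev (c x)) :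
    (G.dbl D hD o c).OK where
  col_nb a s := by rw [wd_col_dbl, wd_col_dbl, wd_und_nb, hG.col_nb]
  nb_ne a h := hG.nb_ne (wd_und a) (by
    rw [← wd_und_nb (hD := hD) (o := o) (c := c), h, wd_und_nb])
  adj_symm a s := by
    obtain ⟨s', h⟩ := hG.adj_symm (wd_und a) s
    exact ⟨s', wd_und_ext (by rw [wd_und_nb, wd_und_nb, h]) (by rw [wd_isRight_nb, wd_isRight_nb])⟩
  dl_rev a s := by
    rw [wd_dl_nb_left, wd_dl_nb_right, hG.dl_rev]
    cases a.isRight
    · exact ho _
    · exact hc _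
  dl_thru a := by rw [wd_dl_nb_left, wd_dl_nb_right, hG.dl_thru]

omit [Rev α] [Rev β] in
theorem dblRz_ok (hR : R.OK G.col) (z' : N ⊕ {a // D a = true} → ℝ) :
    (G.dblRz R D rt z').OK (G.dbl D hD o c).col where
  nodupX := wd_nodup_dblList hR.nodupX
  nodupY := wd_nodup_dblList hR.nodupY
  memX a := by rw [wd_col_dbl, ← hR.memX]; exact wd_mem_dblList
  memY a := by rw [wd_col_dbl, ← hR.memY]; exact wd_mem_dblList

omit [Rev α] in
/-- distinct segments are ordered in the doubled lists as before -/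
theorem dblRz_ltX (hR : R.OK G.col) (z' : N ⊕ {a // D a = true} → ℝ)
    {a b : N ⊕ {a // D a = true}} (ha : G.col (Sum.elim id Subtype.val a) = true)
    (hb : G.col (Sum.elim id Subtype.val b) = true)
    (hab : Sum.elim id Subtype.val a ≠ Sum.elim id Subtype.val b) :
    (G.dblRz R D rt z').ltX a b ↔
      R.ltX (Sum.elim id Subtype.val a) (Sum.elim id Subtype.val b) := wd_ilt_dblList R.X hab

omit [Rev α] in
theorem dblRz_ltY (hR : R.OK G.col) (z' : N ⊕ {a // D a = true} → ℝ)
    {a b : N ⊕ {a // D a = true}} (ha : G.col (Sum.elim id Subtype.val a) = false)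
    (hb : G.col (Sum.elim id Subtype.val b) = false)
    (hab : Sum.elim id Subtype.val a ≠ Sum.elim id Subtype.val b) :
    (G.dblRz R D rt z').ltY a b ↔
      R.ltY (Sum.elim id Subtype.val a) (Sum.elim id Subtype.val b) := wd_ilt_dblList R.Y hab

section cells
omit [Rev β]

omit [DecidableEq N] in
theorem wd_dl_thru' (hG : G.OK) (v : N) (s : Bool) : G.dl (G.nb v s) v = G.dl v (G.nb v (!s)) := by
  cases s
  · exact hG.dl_thru v
  · rw [hG.dl_rev, ← hG.dl_thru, hG.dl_rev, rev_rev]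
    rfl

omit [DecidableEq N] in
theorem wd_nb_ne' (hG : G.OK) (v : N) (s : Bool) : G.nb v s ≠ G.nb v (!s) := by
  cases s
  · exact hG.nb_ne v
  · exact (hG.nb_ne v).symm

omit [DecidableEq N] in
theorem wd_nb_memY (hG : G.OK) (hR : R.OK G.col) {v : N} (hv : G.col v = true) (s : Bool) :
    G.nb v s ∈ R.Y := by
  rw [hR.memY, hG.col_nb, hv]
  rfl

omit [Rev α] in
theorem wd_upl_eq {v : N} {s : Bool} (h : R.ltY (G.nb v s) (G.nb v (!s))) :
    G.upl R v = G.dl (G.nb v s) v := by
  cases s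
  · exact if_pos h
  · exact if_neg (wd_ilt.asymm h)

omit [Rev α] in
theorem wd_rtl_eq {e : N} {s : Bool} (h : R.ltX (G.nb e s) (G.nb e (!s))) :
    G.rtl R e = G.dl (G.nb e s) e := by
  cases s
  · exact if_pos h
  · exact if_neg (wd_ilt.asymm h)

theorem wd_ltY_total (hG : G.OK) (hR : R.OK G.col) {v : N} (hv : G.col v = true) (s : Bool)
    (h : ¬ R.ltY (G.nb v s) (G.nb v (!s))) : R.ltY (G.nb v (!s)) (G.nb v s) :=
  wd_ilt_total (wd_nb_memY hG hR hv s) (wd_nb_ne' hG v s) h

theorem wd_upl_eq_ite (hG : G.OK) (hR : R.OK G.col) {v : N} (hv : G.col v = true) (s : Bool) :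
    G.upl R v = if R.ltY (G.nb v s) (G.nb v (!s)) then G.dl (G.nb v s) v else G.dl v (G.nb v s) := by
  split_ifs with h
  · exact wd_upl_eq h
  · rw [wd_upl_eq (s := !s) (by rw [Bool.not_not]; exact wd_ltY_total hG hR hv s h), wd_dl_thru' hG,
      Bool.not_not]

theorem wd_d_upl (hG : G.OK) (hd : ∀ x, d (rev x) = d x) (hDd : ∀ a s, D a = d (G.dl a (G.nb a s)))
    (v : N) : d (G.upl R v) = D v := by
  unfold upl
  split_ifs
  · rw [hG.dl_rev, hd, ← hDd]
  · rw [hG.dl_rev, hd, ← hDd]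

theorem wd_cell_adj (hG : G.OK) (hR : R.OK G.col) {v e : N} (hv : G.col v = true) {s : Bool}
    (h : G.nb v s = e) :
    G.cell R e v = some (.fin (G.upl R v) (decide (R.ltY e (G.nb v (!s))))) := by
  subst h
  rw [wd_upl_eq_ite hG hR hv s]
  cases s
  · rw [cell, if_pos rfl]
    by_cases h : R.ltY (G.nb v false) (G.nb v true) <;> simp [h]
  · rw [cell, if_neg (hG.nb_ne v), if_pos rfl]
    by_cases h : R.ltY (G.nb v true) (G.nb v false) <;> simp [h]

/-- the column passes through the height of the row -/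
def wd_Thru (G : Grid N α) (R : Rz N) (v e : N) : Prop :=
  ∃ s, R.ltY (G.nb v s) e ∧ R.ltY e (G.nb v (!s))

omit [Rev α] in
theorem wd_cell_thru {v e : N} (h : ∀ s, G.nb v s ≠ e) (h' : G.wd_Thru R v e) :
    G.cell R e v = some (.thru (G.upl R v) (decide (R.z e < R.z v))) := by
  obtain ⟨s, h1, h2⟩ := h'
  rw [wd_upl_eq (s := s) (wd_ilt.trans h1 h2), cell, if_neg (h false), if_neg (h true)]
  cases s
  · rw [if_pos ⟨h1, h2⟩]
  · rw [if_neg fun h3 => wd_ilt.asymm h3.1 h2, if_pos ⟨h1, h2⟩]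

omit [Rev α] in
theorem wd_cell_none {v e : N} (h : ∀ s, G.nb v s ≠ e) (h' : ¬ G.wd_Thru R v e) :
    G.cell R e v = none := by
  rw [cell, if_neg (h false), if_neg (h true), if_neg, if_neg]
  · exact fun h3 => h' ⟨true, h3⟩
  · exact fun h3 => h' ⟨false, h3⟩

end cells

section dcells
variable {z' : N ⊕ {a // D a = true} → ℝ}

omit [Rev α] [Rev β] in
theorem wd_ltY_dbl {a b : N ⊕ {a // D a = true}} (hab : wd_und a ≠ wd_und b) :
    (G.dblRz R D rt z').ltY a b ↔ R.ltY (wd_und a) (wd_und b) := wd_ilt_dblList R.Y hab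

omit [Rev β] in
theorem wd_upl_dbl (hG : G.OK) (v : N ⊕ {a // D a = true}) :
    (G.dbl D hD o c).upl (G.dblRz R D rt z') v = wd_tlab o c v.isRight (G.upl R (wd_und v)) := by
  have h : (G.dblRz R D rt z').ltY ((G.dbl D hD o c).nb v false) ((G.dbl D hD o c).nb v true) ↔
      R.ltY (G.nb (wd_und v) false) (G.nb (wd_und v) true) := by
    rw [wd_ltY_dbl (by rw [wd_und_nb, wd_und_nb]; exact hG.nb_ne _), wd_und_nb, wd_und_nb]
  unfold upl
  split_ifs with h1 h2 h2
  · exact wd_dl_nb_left v false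
  · exact absurd (h.1 h1) h2
  · exact absurd (h.2 h2) h1
  · exact wd_dl_nb_left v true

omit [Rev α] [Rev β] in
theorem wd_thru_dbl {v e : N ⊕ {a // D a = true}} (h : ∀ s, G.nb (wd_und v) s ≠ wd_und e) :
    (G.dbl D hD o c).wd_Thru (G.dblRz R D rt z') v e ↔ G.wd_Thru R (wd_und v) (wd_und e) := by
  refine exists_congr fun s => and_congr ?_ ?_
  · rw [wd_ltY_dbl (by rw [wd_und_nb]; exact h s), wd_und_nb]
  · rw [wd_ltY_dbl (by rw [wd_und_nb]; exact (h _).symm), wd_und_nb]

omit [Rev α] [Rev β] in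
theorem wd_nadj_dbl {v e : N ⊕ {a // D a = true}} (h : ∀ s, G.nb (wd_und v) s ≠ wd_und e) (s : Bool) :
    (G.dbl D hD o c).nb v s ≠ e := fun h' => h s (by
  rw [← wd_und_nb (hD := hD) (o := o) (c := c), h'])

/-- the cells of the columns that are not ends of the row -/
theorem wd_side_cells (hG : G.OK) (hR : R.OK G.col) (hd : ∀ x, d (rev x) = d x)
    (hDd : ∀ a s, D a = d (G.dl a (G.nb a s))) (e : N ⊕ {a // D a = true}) (Xs : List N)
    (hXs : ∀ v ∈ Xs, G.col v = true) (L : List (α × Bool))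
    (h : Xs.filterMap (G.cell R (wd_und e)) = L.map fun x => Cell.thru x.1 x.2) :
    ∃ L' : List (β × Bool), (dblList D (fun v => rt (G.upl R v)) Xs).filterMap
        ((G.dbl D hD o c).cell (G.dblRz R D rt z') e) = L'.map (fun x => Cell.thru x.1 x.2) ∧
      L'.map Prod.fst = (L.map Prod.fst).flatMap (dblLab d rt o c) ∧
      ((∀ v, wd_und v ∈ Xs → G.wd_Thru R (wd_und v) (wd_und e) →
        (z' e < z' v ↔ R.z (wd_und e) < R.z (wd_und v))) → L' = wd_cabM (dblLab d rt o c) L) := by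
  induction Xs generalizing L with
  | nil =>
    obtain rfl : L = [] := by simpa using h.symm
    exact ⟨[], rfl, rfl, fun _ => rfl⟩
  | cons v Xs ih =>
    have hv := hXs v List.mem_cons_self
    have ih' := ih fun w hw => hXs w (List.mem_cons_of_mem _ hw)
    have hn : ∀ s, G.nb v s ≠ wd_und e := fun s hs => by
      rw [List.filterMap_cons_some (wd_cell_adj hG hR hv hs)] at h
      cases L <;> simp at h
    have hn' : ∀ v' ∈ dblList D (fun v => rt (G.upl R v)) [v], ∀ s, G.nb (wd_und v') s ≠ wd_und e :=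
      fun v' hv' => by rw [wd_mem_dblList_single.1 hv']; exact hn
    rw [wd_dblList_cons, List.filterMap_append]
    by_cases ht : G.wd_Thru R v (wd_und e)
    · rw [List.filterMap_cons_some (wd_cell_thru hn ht)] at h
      obtain ⟨x, L, rfl⟩ : ∃ x L', L = x :: L' := by
        cases L with
        | nil => simp at h
        | cons x L => exact ⟨x, L, rfl⟩
      rw [List.map_cons, List.cons.injEq, Cell.thru.injEq] at h
      obtain ⟨⟨hx1, hx2⟩, h⟩ := h
      obtain ⟨L', h1, h2, h3⟩ := ih' L h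
      have h4 := wd_map_dblList_single (rt := rt) (o := o) (c := c)
        (aft := fun v => rt (G.upl R v)) (wd_d_upl (R := R) hG hd hDd v) rfl
      refine ⟨((dblList D (fun v => rt (G.upl R v)) [v]).map fun v' =>
        (wd_tlab o c v'.isRight (G.upl R v), decide (z' e < z' v'))) ++ L', ?_, ?_, fun hz => ?_⟩
      · rw [h1, List.map_append, List.map_map]
        congr 1
        rw [← List.filterMap_eq_map]
        refine List.filterMap_congr fun v' hv' => ?_
        have h5 := wd_mem_dblList_single.1 hv'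
        rw [wd_cell_thru (wd_nadj_dbl (hn' v' hv')) ((wd_thru_dbl (hn' v' hv')).2 (h5 ▸ ht)), wd_upl_dbl hG, h5]
        rfl
      · rw [List.map_append, h2, List.map_map, List.map_cons, List.flatMap_cons, ← hx1, ← h4]
        rfl
      · rw [h3 fun w hw => hz w (List.mem_cons_of_mem _ hw), wd_cabM_cons, ← hx1, ← h4, List.map_map]
        congr 1
        refine List.map_congr_left fun v' hv' => ?_
        have h5 := wd_mem_dblList_single.1 hv'
        have h6 := hz v' (h5 ▸ List.mem_cons_self) (h5 ▸ ht)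
        rw [h5] at h6
        rw [← hx2, Function.comp_apply, decide_eq_decide.2 h6]
    · rw [List.filterMap_cons_none (wd_cell_none hn ht)] at h
      obtain ⟨L', h1, h2, h3⟩ := ih' L h
      refine ⟨L', ?_, h2, fun hz => h3 fun w hw => hz w (List.mem_cons_of_mem _ hw)⟩
      rw [h1, List.filterMap_eq_nil_iff.2, List.nil_append]
      intro v' hv'
      have h5 := wd_mem_dblList_single.1 hv'
      exact wd_cell_none (wd_nadj_dbl (hn' v' hv')) fun h6 => ht (h5 ▸ (wd_thru_dbl (hn' v' hv')).1 h6)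

theorem wd_cell_same (hG : G.OK) (hR : R.OK G.col) (ho : ∀ x, o (rev x) = rev (o x))
    (hc : ∀ x, c (rev x) = rev (c x)) {v e : N ⊕ {a // D a = true}} (hv : G.col (wd_und v) = true)
    {s : Bool} (h : G.nb (wd_und v) s = wd_und e) (ht : v.isRight = e.isRight) :
    (G.dbl D hD o c).cell (G.dblRz R D rt z') e v =
      some (.fin (wd_tlab o c v.isRight (G.upl R (wd_und v)))
        (decide (R.ltY (wd_und e) (G.nb (wd_und v) (!s))))) := by
  rw [wd_cell_adj (hG.dbl ho hc) (dblRz_ok hR z') (by rw [wd_col_dbl, hv]) (s := s)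
    (wd_und_ext (by rw [wd_und_nb, h]) (by rw [wd_isRight_nb, ht])), wd_upl_dbl hG]
  congr 2
  refine decide_eq_decide.2 ?_
  rw [wd_ltY_dbl (by rw [wd_und_nb, ← h]; exact wd_nb_ne' hG _ s), wd_und_nb]

omit [Rev β] in
theorem wd_thru_other (hG : G.OK) (hR : R.OK G.col) {v e : N} (hv : G.col v = true) {s : Bool}
    (h : G.nb v s = e) (hDv : D v = true) (hDe : D e = true) (t : Bool) :
    (G.dbl D hD o c).wd_Thru (G.dblRz R D rt z') (wd_lf (!t) v hDv) (wd_lf t e hDe) ↔
      decide (R.ltY e (G.nb v (!s))) = (t == !rt (G.rtl R e)) := by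
  have he : e ∈ R.Y := h ▸ wd_nb_memY hG hR hv s
  have h0 := wd_ilt_dblList_same (aft := fun e => !rt (G.rtl R e)) he hDe
  have h1 : (G.dbl D hD o c).nb (wd_lf (!t) v hDv) s = wd_lf (!t) e hDe :=
    wd_und_ext (by rw [wd_und_nb, wd_und_lf, wd_und_lf, h]) (by rw [wd_isRight_nb, wd_isRight_lf, wd_isRight_lf])
  have h2 : G.nb v (!s) ≠ e := h ▸ (wd_nb_ne' hG v s).symm
  have h3 : (G.dblRz R D rt z').ltY (wd_lf t e hDe) ((G.dbl D hD o c).nb (wd_lf (!t) v hDv) (!s)) ↔
      R.ltY e (G.nb v (!s)) := by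
    rw [wd_ltY_dbl (by rw [wd_und_nb, wd_und_lf, wd_und_lf]; exact h2.symm), wd_und_nb, wd_und_lf, wd_und_lf]
  have h4 : (G.dblRz R D rt z').ltY ((G.dbl D hD o c).nb (wd_lf (!t) v hDv) (!s)) (wd_lf t e hDe) ↔
      ¬ R.ltY e (G.nb v (!s)) := by
    rw [wd_ltY_dbl (by rw [wd_und_nb, wd_und_lf, wd_und_lf]; exact h2), wd_und_nb, wd_und_lf, wd_und_lf]
    exact ⟨wd_ilt.asymm, wd_ilt_total he h2.symm⟩
  have h5 : (G.dbl D hD o c).wd_Thru (G.dblRz R D rt z') (wd_lf (!t) v hDv) (wd_lf t e hDe) ↔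
      ((G.dblRz R D rt z').ltY (wd_lf (!t) e hDe) (wd_lf t e hDe) ∧ R.ltY e (G.nb v (!s))) ∨
      (¬ R.ltY e (G.nb v (!s)) ∧ (G.dblRz R D rt z').ltY (wd_lf t e hDe) (wd_lf (!t) e hDe)) := by
    rw [← h3, ← h1]
    rw [← h3] at h4
    rw [← h4]
    constructor
    · rintro ⟨s', h6⟩
      by_cases h7 : s' = s
      · exact Or.inl (h7 ▸ h6)
      · obtain rfl : s' = !s := Bool.eq_not.2 h7
        rw [Bool.not_not] at h6
        exact Or.inr h6
    · rintro (h6 | h6)
      · exact ⟨s, h6⟩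
      · exact ⟨!s, by rwa [Bool.not_not]⟩
  rw [h5]
  by_cases h6 : t = !rt (G.rtl R e)
  · have h7 : (G.dblRz R D rt z').ltY (wd_lf (!t) e hDe) (wd_lf t e hDe) := h6 ▸ h0
    have h8 : ¬ (G.dblRz R D rt z').ltY (wd_lf t e hDe) (wd_lf (!t) e hDe) := wd_ilt.asymm h7
    have h9 : (t == !rt (G.rtl R e)) = true := by simpa using h6
    simp [h7, h8, h9]
  · have h6' : t = !!rt (G.rtl R e) := Bool.eq_not.2 h6
    have h7 : (G.dblRz R D rt z').ltY (wd_lf t e hDe) (wd_lf (!t) e hDe) := by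
      rw [h6', Bool.not_not (!_)]
      exact h0
    have h8 : ¬ (G.dblRz R D rt z').ltY (wd_lf (!t) e hDe) (wd_lf t e hDe) := wd_ilt.asymm h7
    have h9 : (t == !rt (G.rtl R e)) = false := by simpa using h6
    simp [h7, h8, h9]

/-- the cells of a doubled end column in one of the two rows -/
theorem wd_pair_cells (hG : G.OK) (hR : R.OK G.col) (ho : ∀ x, o (rev x) = rev (o x))
    (hc : ∀ x, c (rev x) = rev (c x)) {v e : N} (hv : G.col v = true) {s : Bool}
    (h : G.nb v s = e) (hDv : D v = true) (hDe : D e = true) (t : Bool) {x : α} {u : Bool}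
    (hx : G.upl R v = x) (hu : decide (R.ltY e (G.nb v (!s))) = u) :
    ∃ b : Bool, (dblList D (fun v => rt (G.upl R v)) [v]).filterMap
        ((G.dbl D hD o c).cell (G.dblRz R D rt z') (wd_lf t e hDe)) =
      (if t = rt x ∧ u = (t == !rt (G.rtl R e)) then [(wd_tlab o c (!t) x, b)] else []).map
          (fun x => Cell.thru x.1 x.2) ++ Cell.fin (wd_tlab o c t x) u ::
        (if t = (!rt x) ∧ u = (t == !rt (G.rtl R e)) then [(wd_tlab o c (!t) x, b)] else []).map
          fun x => Cell.thru x.1 x.2 := by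
  have h1 := wd_cell_same (hD := hD) (rt := rt) (z' := z') hG hR ho hc (v := wd_lf t v hDv)
    (e := wd_lf t e hDe) (s := s) (by rwa [wd_und_lf]) (by rwa [wd_und_lf, wd_und_lf])
    (by rw [wd_isRight_lf, wd_isRight_lf])
  rw [wd_und_lf, wd_und_lf, wd_isRight_lf, hx, hu] at h1
  have h2 : ∀ s', (G.dbl D hD o c).nb (wd_lf (!t) v hDv) s' ≠ wd_lf t e hDe := fun s' h' => by
    have := congrArg Sum.isRight h'
    rw [wd_isRight_nb, wd_isRight_lf, wd_isRight_lf] at this
    simp at this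
  have h3 := wd_thru_other (hD := hD) (rt := rt) (o := o) (c := c) (z' := z') hG hR hv h hDv hDe t
  rw [hu] at h3
  refine ⟨decide (z' (wd_lf t e hDe) < z' (wd_lf (!t) v hDv)), ?_⟩
  have h4 : (G.dbl D hD o c).cell (G.dblRz R D rt z') (wd_lf t e hDe) (wd_lf (!t) v hDv) =
      if u = (t == !rt (G.rtl R e)) then
        some (.thru (wd_tlab o c (!t) x) (decide (z' (wd_lf t e hDe) < z' (wd_lf (!t) v hDv)))) else none := by
    split_ifs with h5
    · rw [wd_cell_thru h2 (h3.2 h5), wd_upl_dbl hG, wd_und_lf, wd_isRight_lf, hx]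
      rfl
    · exact wd_cell_none h2 fun h6 => h5 (h3.1 h6)
  rw [wd_dblList_pos hDv, hx]
  by_cases h6 : t = rt x
  · rw [← h6]
    by_cases h5 : u = (t == !rt (G.rtl R e))
    · rw [if_pos h5] at h4
      simp [h1, h4, ← h5]
    · rw [if_neg h5] at h4
      simp [h1, h4, h5]
  · have h7 : rt x = !t := Bool.eq_not.2 (Ne.symm h6)
    rw [h7, Bool.not_not]
    by_cases h5 : u = (t == !rt (G.rtl R e))
    · rw [if_pos h5] at h4
      simp [h1, h4, ← h5]
    · rw [if_neg h5] at h4
      simp [h1, h4, h5]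

omit [Rev α] [Rev β] [DecidableEq N] in
theorem wd_evOf_gen (L lA rA M lB rB R' : List (β × Bool)) (x y : β) (u u' : Bool) (hA : rA = [])
    (hB : lB = []) :
    evOf (L.map (fun x => Cell.thru x.1 x.2) ++ ((lA.map (fun x => Cell.thru x.1 x.2) ++
      Cell.fin x u :: rA.map fun x => Cell.thru x.1 x.2) ++ (M.map (fun x => Cell.thru x.1 x.2) ++
      ((lB.map (fun x => Cell.thru x.1 x.2) ++ Cell.fin y u' :: rB.map fun x => Cell.thru x.1 x.2) ++
        R'.map fun x => Cell.thru x.1 x.2)))) =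
      event (L.map Prod.fst ++ lA.map Prod.fst) x u M y u' (rB.map Prod.fst ++ R'.map Prod.fst) := by
  subst hA hB
  rw [← List.map_append, ← List.map_append, ← evOf_eq]
  simp

/-- one row -/
theorem wd_row_dbl (hG : G.OK) (hR : R.OK G.col) (hd : ∀ x, d (rev x) = d x)
    (hrt : ∀ x, d x = true → rt (rev x) = !rt x) (ho : ∀ x, o (rev x) = rev (o x))
    (hc : ∀ x, c (rev x) = rev (c x)) (hDd : ∀ a s, D a = d (G.dl a (G.nb a s)))
    (hz : ∀ v e, G.Crossing R (wd_und v) (wd_und e) → (z' e < z' v ↔ R.z (wd_und e) < R.z (wd_und v)))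
    {e : N} (he : G.col e = false) {ρ σ : List α} (h : Run ρ (G.evs R R.X [e]) σ) :
    Eqv true (ρ.flatMap (dblLab d rt o c)) (σ.flatMap (dblLab d rt o c))
      ((G.dbl D hD o c).evs (G.dblRz R D rt z') (G.dblRz R D rt z').X
        (dblList D (fun e => !rt (G.rtl R e)) [e]))
      (cable (dblLab d rt o c) (G.evs R R.X [e])) := by
  obtain ⟨s, X₁, X₂, X₃, L, M, R', a, b, u, u', hX, h1, h2, h3, h4, h5, hab⟩ := cells_eq hG hR he
  have hk := wd_dblLab_rev hd hrt ho hc
  have hev : G.evs R R.X [e] = event (L.map Prod.fst) a u M b u' (R'.map Prod.fst) := by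
    rw [← evOf_eq, evs, List.flatMap_singleton, hX, List.filterMap_append,
      List.filterMap_cons_some h4, List.filterMap_append, List.filterMap_cons_some h5, h1, h2, h3]
  rw [hev] at h ⊢
  have hcol : ∀ v ∈ X₁ ++ G.nb e s :: (X₂ ++ G.nb e (!s) :: X₃), G.col v = true := fun v hv =>
    (hR.memX v).1 (hX ▸ hv)
  have hnd : (X₁ ++ G.nb e s :: (X₂ ++ G.nb e (!s) :: X₃)).Nodup := hX ▸ hR.nodupX
  have hlt1 : ∀ v ∈ X₂ ++ G.nb e (!s) :: X₃, R.ltX (G.nb e s) v := fun v hv => by
    change wd_ilt R.X _ _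
    rw [hX, List.append_cons]
    rw [List.append_cons] at hnd
    exact wd_ilt_of_nodup hnd (by simp) hv
  have hlt2 : ∀ v ∈ X₂, R.ltX v (G.nb e (!s)) := fun v hv => by
    change wd_ilt R.X _ _
    rw [hX, ← List.cons_append, ← List.append_assoc]
    rw [← List.cons_append, ← List.append_assoc] at hnd
    exact wd_ilt_of_nodup hnd (by simp [hv]) (by simp)
  have ha' : G.col (G.nb e s) = true := hcol _ (by simp)
  have hb' : G.col (G.nb e (!s)) = true := hcol _ (by simp)
  obtain ⟨sa, hsa⟩ := hG.adj_symm e s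
  obtain ⟨sb, hsb⟩ := hG.adj_symm e (!s)
  rw [wd_cell_adj hG hR ha' hsa, Option.some.injEq, Cell.fin.injEq] at h4
  rw [wd_cell_adj hG hR hb' hsb, Option.some.injEq, Cell.fin.injEq] at h5
  have hda : d a = D e := by rw [← h4.1, wd_d_upl hG hd hDd, hD]
  have hdb : d b = D e := by rw [← h5.1, wd_d_upl hG hd hDd, hD]
  have hcells : ∀ e' : N ⊕ {a // D a = true}, wd_und e' = e → ∃ L' R'' : List (β × Bool),
      L'.map Prod.fst = (L.map Prod.fst).flatMap (dblLab d rt o c) ∧
      R''.map Prod.fst = (R'.map Prod.fst).flatMap (dblLab d rt o c) ∧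
      (G.dblRz R D rt z').X.filterMap ((G.dbl D hD o c).cell (G.dblRz R D rt z') e') =
        L'.map (fun x => Cell.thru x.1 x.2) ++
          ((dblList D (fun v => rt (G.upl R v)) [G.nb e s]).filterMap
            ((G.dbl D hD o c).cell (G.dblRz R D rt z') e') ++
          ((wd_cabM (dblLab d rt o c) M).map (fun x => Cell.thru x.1 x.2) ++
            ((dblList D (fun v => rt (G.upl R v)) [G.nb e (!s)]).filterMap
              ((G.dbl D hD o c).cell (G.dblRz R D rt z') e') ++
            R''.map fun x => Cell.thru x.1 x.2))) := by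
    rintro e' rfl
    obtain ⟨L', a1, a2, -⟩ := wd_side_cells (hD := hD) (rt := rt) (o := o) (c := c) (z' := z') hG hR hd
      hDd e' X₁ (fun v hv => hcol v (by simp [hv])) L h1
    obtain ⟨M', b1, -, b3⟩ := wd_side_cells (hD := hD) (rt := rt) (o := o) (c := c) (z' := z') hG hR hd
      hDd e' X₂ (fun v hv => hcol v (by simp [hv])) M h2
    obtain ⟨R'', c1, c2, -⟩ := wd_side_cells (hD := hD) (rt := rt) (o := o) (c := c) (z' := z') hG hR hd
      hDd e' X₃ (fun v hv => hcol v (by simp [hv])) R' h3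
    refine ⟨L', R'', a2, c2, ?_⟩
    rw [← b3 fun v hv ht => hz v e' ⟨ht, s, hlt1 _ (by simp [hv]), hlt2 _ hv⟩, ← a1, ← b1, ← c1]
    change (dblList D (fun v => rt (G.upl R v)) R.X).filterMap _ = _
    rw [hX, wd_dblList_append, wd_dblList_cons, wd_dblList_append, wd_dblList_cons (G.nb (wd_und e') (!s))]
    simp only [List.filterMap_append]
  cases hDe : D e
  · rw [wd_dblList_neg hDe, wd_cable_event1 (wd_dblLab_neg (hda.trans hDe)) (wd_dblLab_neg (hdb.trans hDe))]
    have hr := run_cable _ hk h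
    rw [wd_cable_event1 (wd_dblLab_neg (hda.trans hDe)) (wd_dblLab_neg (hdb.trans hDe))] at hr
    refine (Eqv.refl hr).wd_cast rfl rfl ?_ rfl
    obtain ⟨L', R'', a2, c2, h6⟩ := hcells (.inl e) rfl
    have h7 := wd_cell_same (hD := hD) (rt := rt) (z' := z') hG hR ho hc (v := .inl (G.nb e s))
      (e := .inl e) (s := sa) ha' hsa rfl
    have h8 := wd_cell_same (hD := hD) (rt := rt) (z' := z') hG hR ho hc (v := .inl (G.nb e (!s)))
      (e := .inl e) (s := sb) hb' hsb rfl
    rw [evs, List.flatMap_singleton, h6, wd_dblList_neg ((hD e s).trans hDe),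
      wd_dblList_neg ((hD e (!s)).trans hDe), List.filterMap_cons_some h7, List.filterMap_cons_some h8,
      ← a2, ← c2, ← evOf_eq, ← h4.1, ← h4.2, ← h5.1, ← h5.2]
    rfl
  · have hrtl : rt (G.rtl R e) = if u then !rt a else rt a := by
      have e1 := wd_upl_eq_ite hG hR ha' sa
      rw [h4.1, hsa] at e1
      rw [wd_rtl_eq (hlt1 _ (by simp))]
      cases u
      · rw [if_neg (by simpa using h4.2)] at e1
        rw [e1]
        rfl
      · rw [if_pos (by simpa using h4.2)] at e1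
        rw [hG.dl_rev, ← e1, hrt a (hda.trans hDe)]
        rfl
    have hrb : rt b = if u = u' then !rt a else rt a := by
      rw [hab]
      split_ifs
      · exact hrt a (hda.trans hDe)
      · rfl
    refine (wd_cable_event2 hk wd_dblLab_ne_nil (wd_dblLab_pos (hda.trans hDe)) (wd_dblLab_pos (hdb.trans hDe))
      _ _ u u' M hab h).wd_cast rfl rfl ?_ rfl
    rw [wd_dblList_pos hDe, evs, List.flatMap_cons, List.flatMap_singleton]
    congr 1
    · obtain ⟨L', R'', a2, c2, h6⟩ := hcells _ (wd_und_lf (!!rt (G.rtl R e)) e hDe)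
      obtain ⟨ba, h7⟩ := wd_pair_cells (hD := hD) (rt := rt) (z' := z') hG hR ho hc ha' hsa
        ((hD e s).trans hDe) hDe (!!rt (G.rtl R e)) h4.1 h4.2
      obtain ⟨bb, h8⟩ := wd_pair_cells (hD := hD) (rt := rt) (z' := z') hG hR ho hc hb' hsb
        ((hD e (!s)).trans hDe) hDe (!!rt (G.rtl R e)) h5.1 h5.2
      rw [h6, h7, h8, wd_evOf_gen, a2, c2, wd_evLo, hrtl, hrb]
      · cases u <;> cases u' <;> cases rt a <;> rfl
      · rw [hrtl]
        cases u <;> cases rt a <;> rfl
      · rw [hrtl, hrb]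
        cases u <;> cases u' <;> cases rt a <;> rfl
    · obtain ⟨L', R'', a2, c2, h6⟩ := hcells _ (wd_und_lf (!rt (G.rtl R e)) e hDe)
      obtain ⟨ba, h7⟩ := wd_pair_cells (hD := hD) (rt := rt) (z' := z') hG hR ho hc ha' hsa
        ((hD e s).trans hDe) hDe (!rt (G.rtl R e)) h4.1 h4.2
      obtain ⟨bb, h8⟩ := wd_pair_cells (hD := hD) (rt := rt) (z' := z') hG hR ho hc hb' hsb
        ((hD e (!s)).trans hDe) hDe (!rt (G.rtl R e)) h5.1 h5.2
      rw [h6, h7, h8, wd_evOf_gen, a2, c2, wd_evHi, hrtl, hrb]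
      · cases u <;> cases u' <;> cases rt a <;> rfl
      · rw [hrtl]
        cases u <;> cases rt a <;> rfl
      · rw [hrtl, hrb]
        cases u <;> cases u' <;> cases rt a <;> rfl

end dcells

theorem rowAt_dbl (hG : G.OK) (hR : R.OK G.col) (hd : ∀ x, d (rev x) = d x)
    (hDd : ∀ a s, D a = d (G.dl a (G.nb a s))) {Y₁ Y₂ : List N} (hY : R.Y = Y₁ ++ Y₂)
    (Xs : List N) (hXs : ∀ v ∈ Xs, G.col v = true) :
    (G.dbl D hD o c).rowAt (dblList D (fun e => !rt (G.rtl R e)) Y₁)
      (dblList D (fun v => rt (G.upl R v)) Xs) = (G.rowAt Y₁ Xs).flatMap (dblLab d rt o c) := by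
  induction Xs with
  | nil => rfl
  | cons v Xs ih =>
    have hv := hXs v List.mem_cons_self
    have ih' := ih fun w hw => hXs w (List.mem_cons_of_mem _ hw)
    have h4 := wd_map_dblList_single (rt := rt) (o := o) (c := c)
      (aft := fun v => rt (G.upl R v)) (wd_d_upl (R := R) hG hd hDd v) rfl
    have hup : ∀ s, G.nb v s ∈ Y₁ → G.nb v (!s) ∉ Y₁ → G.upl R v = G.dl (G.nb v s) v :=
      fun s h h' => wd_upl_eq (by
        change wd_ilt R.Y _ _
        rw [hY]
        exact wd_ilt_of_mem h h')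
    have hm : ∀ v' ∈ dblList D (fun v => rt (G.upl R v)) [v], ∀ s,
        (G.dbl D hD o c).nb v' s ∈ dblList D (fun e => !rt (G.rtl R e)) Y₁ ↔ G.nb v s ∈ Y₁ :=
      fun v' hv' s => by rw [wd_mem_dblList, wd_und_nb, wd_mem_dblList_single.1 hv']
    unfold rowAt at ih' ⊢
    rw [wd_dblList_cons, List.filterMap_append, ih']
    by_cases h1 : G.nb v false ∈ Y₁ ∧ G.nb v true ∉ Y₁
    · rw [List.filterMap_cons, if_pos h1, List.flatMap_cons, ← hup false h1.1 h1.2, ← h4,
        ← List.filterMap_eq_map]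
      congr 1
      refine List.filterMap_congr fun v' hv' => ?_
      rw [if_pos (by rw [hm v' hv', hm v' hv']; exact h1), wd_dl_nb_left, wd_mem_dblList_single.1 hv',
        hup false h1.1 h1.2]
      rfl
    · by_cases h2 : G.nb v true ∈ Y₁ ∧ G.nb v false ∉ Y₁
      · rw [List.filterMap_cons, if_neg h1, if_pos h2, List.flatMap_cons,
          ← hup true h2.1 h2.2, ← h4, ← List.filterMap_eq_map]
        congr 1
        refine List.filterMap_congr fun v' hv' => ?_
        rw [if_neg (by rw [hm v' hv', hm v' hv']; exact h1),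
          if_pos (by rw [hm v' hv', hm v' hv']; exact h2), wd_dl_nb_left, wd_mem_dblList_single.1 hv',
          hup true h2.1 h2.2]
        rfl
      · rw [List.filterMap_cons, if_neg h1, if_neg h2, List.filterMap_eq_nil_iff.2,
          List.nil_append]
        intro v' hv'
        rw [if_neg (by rw [hm v' hv', hm v' hv']; exact h1),
          if_neg (by rw [hm v' hv', hm v' hv']; exact h2)]

theorem evs_dbl (hG : G.OK) (hR : R.OK G.col) (hd : ∀ x, d (rev x) = d x)
    (hrt : ∀ x, d x = true → rt (rev x) = !rt x) (ho : ∀ x, o (rev x) = rev (o x))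
    (hc : ∀ x, c (rev x) = rev (c x)) (hDd : ∀ a s, D a = d (G.dl a (G.nb a s)))
    (z' : N ⊕ {a // D a = true} → ℝ)
    (hz : ∀ v e, G.Crossing R (Sum.elim id Subtype.val v) (Sum.elim id Subtype.val e) →
      (z' e < z' v ↔ R.z (Sum.elim id Subtype.val e) < R.z (Sum.elim id Subtype.val v)))
    {Y₁ Y₂ Y₃ : List N} (hY : R.Y = Y₁ ++ Y₂ ++ Y₃) :
    Eqv true ((G.rowAt Y₁ R.X).flatMap (dblLab d rt o c))
      ((G.rowAt (Y₁ ++ Y₂) R.X).flatMap (dblLab d rt o c))
      ((G.dbl D hD o c).evs (G.dblRz R D rt z') (G.dblRz R D rt z').X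
        (dblList D (fun e => !rt (G.rtl R e)) Y₂))
      (cable (dblLab d rt o c) (G.evs R R.X Y₂)) := by
  induction Y₂ generalizing Y₁ with
  | nil => exact Eqv.refl (w := []) (by rw [List.append_nil]; rfl)
  | cons e Y₂ ih =>
    have he : G.col e = false := (hR.memY e).1 (by simp [hY])
    have h1 := wd_row_dbl (hD := hD) hG hR hd hrt ho hc hDd hz he
      (run_evs hG hR (Y₁ := Y₁) (Y₂ := [e]) (Y₃ := Y₂ ++ Y₃) (by simp [hY]))
    have h2 := ih (Y₁ := Y₁ ++ [e]) (by simp [hY])
    refine (h1.append h2).wd_cast rfl (by simp) ?_ ?_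
    · rw [wd_dblList_cons e Y₂, evs_append]
    · rw [← cable_append, ← evs_append]
      rfl

end Grid

end Pool.Agent.P.MP_ac4909_gt.B
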