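import Pool.Agent.P.MP_ac4909_gt.B.WEvs
import Pool.Agent.P.MP_ac4909_gt.Ref

/-! Words of grids whose names are the components are framed link diagrams. -/

namespace Pool.Agent.P.MP_ac4909_gt.B

open Rev

section Lift

variable {α β : Type}

/-- lifts with the same marks on cups are equal -/
theorem WF_unique [Rev α] {A A' : List (Sl (α × ℕ))} {ρ σ σ' : List (α × ℕ)}
    (h : A.map (Sl.map Prod.fst) = A'.map (Sl.map Prod.fst)) (hA : Run ρ A σ) (hA' : Run ρ A' σ')
    (hc : ∀ s ∈ A, ∀ t ∈ A', ∀ x y, s.g = .cup x → t.g = .cup y → x.2 = y.2) : A = A' := by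
  induction A generalizing A' ρ with
  | nil => exact (List.map_eq_nil_iff.1 h.symm).symm
  | cons s A ih =>
    obtain ⟨t, B, rfl, h1, h2⟩ := List.map_eq_cons_iff.1 h.symm
    have h3 : s = t := by
      refine ref_unique h1.symm (hA.1.symm.trans hA'.1) ?_
      have h4 := hc s List.mem_cons_self t List.mem_cons_self
      have h5 := congrArg Sl.g h1
      obtain ⟨l, g, r⟩ := s
      obtain ⟨l', g', r'⟩ := t
      cases g <;> cases g' <;> first | exact h4 _ _ rfl rfl | rfl | cases h5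
    subst h3
    rw [ih h2.symm hA.2 hA'.2 fun u hu v hv =>
      hc u (List.mem_cons_of_mem _ hu) v (List.mem_cons_of_mem _ hv)]

theorem WF_crossL_map (f : α → β) (b : α) (r l : List α) (M : List (α × Bool)) :
    (crossL b r l M).map (Sl.map f) =
      crossL (f b) (r.map f) (l.map f) (M.map (Prod.map f id)) := by
  induction M generalizing l with
  | nil => rfl
  | cons x M ih => simp [crossL, ih, Sl.map, Gen.map]

theorem WF_crossR_map (f : α → β) (b : α) (r l : List α) (M : List (α × Bool)) :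
    (crossR b r l M).map (Sl.map f) =
      crossR (f b) (r.map f) (l.map f) (M.map (Prod.map f id)) := by
  induction M generalizing l with
  | nil => rfl
  | cons x M ih => simp [crossR, ih, Sl.map, Gen.map]

theorem WF_crossL_cup (b : α) (r l : List α) (M : List (α × Bool)) :
    ∀ s ∈ crossL b r l M, ∀ x, s.g ≠ .cup x := by
  induction M generalizing l with
  | nil => exact fun s hs => by cases hs
  | cons x M ih =>
    intro s hs y
    rcases List.mem_append.1 hs with h | h
    · exact ih _ s h y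
    · rw [List.mem_singleton.1 h]
      exact fun e => by cases e

theorem WF_crossR_cup (b : α) (r l : List α) (M : List (α × Bool)) :
    ∀ s ∈ crossR b r l M, ∀ x, s.g ≠ .cup x := by
  induction M generalizing l with
  | nil => exact fun s hs => by cases hs
  | cons x M ih =>
    intro s hs y
    rcases List.mem_cons.1 hs with h | h
    · rw [h]
      exact fun e => by cases e
    · exact ih _ s h y

theorem WF_zip (m : List (α × ℕ)) (M : List (α × Bool)) (h : m.map Prod.fst = M.map Prod.fst) :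
    ∃ M' : List ((α × ℕ) × Bool), M'.map Prod.fst = m ∧ M'.map (Prod.map Prod.fst id) = M := by
  induction M generalizing m with
  | nil => exact ⟨[], (List.map_eq_nil_iff.1 h).symm, rfl⟩
  | cons x M ih =>
    obtain ⟨y, m', rfl, h1, h2⟩ := List.map_eq_cons_iff.1 h
    obtain ⟨M', e1, e2⟩ := ih m' h2
    exact ⟨(y, x.2) :: M', by rw [List.map_cons, e1], by
      rw [List.map_cons, e2, Prod.map_apply, h1]; rfl⟩

theorem WF_crossL [Rev α] {A : List (Sl (α × ℕ))} {σ l m r : List (α × ℕ)} {b : α × ℕ}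
    {M : List (α × Bool)} (hM : m.map Prod.fst = M.map Prod.fst)
    (hA : A.map (Sl.map Prod.fst) = crossL b.1 (r.map Prod.fst) (l.map Prod.fst) M)
    (hr : Run (l ++ m ++ b :: r) A σ) :
    σ = l ++ b :: (m ++ r) ∧ ∀ s ∈ A, ∀ x, s.g ≠ .cup x := by
  obtain ⟨M', rfl, rfl⟩ := WF_zip m M hM
  have h1 := run_crossL b l r M'
  obtain rfl := WF_unique (hA.trans (WF_crossL_map Prod.fst b r l M').symm) hr h1
    fun _ _ t ht _ y _ e => absurd e (WF_crossL_cup _ _ _ _ t ht y)
  exact ⟨hr.unique h1, WF_crossL_cup _ _ _ _⟩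

theorem WF_crossR [Rev α] {A : List (Sl (α × ℕ))} {σ l m r : List (α × ℕ)} {b : α × ℕ}
    {M : List (α × Bool)} (hM : m.map Prod.fst = M.map Prod.fst)
    (hA : A.map (Sl.map Prod.fst) = crossR b.1 (r.map Prod.fst) (l.map Prod.fst) M)
    (hr : Run (l ++ b :: (m ++ r)) A σ) :
    σ = l ++ m ++ b :: r ∧ ∀ s ∈ A, ∀ x, s.g ≠ .cup x := by
  obtain ⟨M', rfl, rfl⟩ := WF_zip m M hM
  have h1 := run_crossR b l r M'
  obtain rfl := WF_unique (hA.trans (WF_crossR_map Prod.fst b r l M').symm) hr h1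
    fun _ _ t ht _ y _ e => absurd e (WF_crossR_cup _ _ _ _ t ht y)
  exact ⟨hr.unique h1, WF_crossR_cup _ _ _ _⟩

/-- markings of one event -/
theorem WF_event [Rev α] {A : List (Sl (α × ℕ))} {σ l m r : List (α × ℕ)} {a b : α} {u u' : Bool}
    {n₁ n₂ : ℕ} {M : List (α × Bool)} (hM : m.map Prod.fst = M.map Prod.fst)
    (hb : b = if u = u' then rev a else a)
    (hA : A.map (Sl.map Prod.fst) = event (l.map Prod.fst) a u M b u' (r.map Prod.fst))
    (hr : Run (l ++ (if u then [] else [(a, n₁)]) ++ m ++ (if u' then [] else [(b, n₂)]) ++ r)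
      A σ) :
    ∃ n, (u = false → n₁ = n) ∧ (u' = false → n₂ = n) ∧
      σ = l ++ (if u then [(a, n)] else []) ++ m ++ (if u' then [(b, n)] else []) ++ r ∧
      ∀ s ∈ A, ∀ x, s.g = .cup x → x = (a, n) := by
  cases u <;> cases u' <;> simp only [event, if_true, if_false, Bool.false_eq_true,
    Bool.true_eq_false, List.append_nil, List.append_assoc, List.cons_append,
    List.nil_append] at hA hr hb ⊢ <;> subst hb
  · obtain ⟨A₁, A₂, rfl, e1, e2⟩ := List.map_eq_append_iff.1 hA
    obtain ⟨⟨l', g', r'⟩, A₃, rfl, e3, e4⟩ := List.map_eq_cons_iff.1 e2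
    obtain rfl := List.map_eq_nil_iff.1 e4
    obtain ⟨τ, r1, r2, rfl⟩ := run_append.1 hr
    obtain ⟨rfl, h2⟩ := WF_crossL (l := l ++ [(a, n₁)]) (b := (rev a, n₂)) hM
      (by simpa using e1) (by simpa using r1)
    have h4 := congrArg Sl.g e3
    have hl : l.length = l'.length := by simpa [Sl.map] using (congrArg (·.l.length) e3).symm
    rcases g' with _ | ⟨o, n⟩ | _ <;> cases h4
    simp only [Sl.src, Gen.src, List.append_assoc, List.cons_append, List.nil_append,
      rev_pair] at r2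
    obtain ⟨rfl, h5⟩ := List.append_inj r2 hl
    simp only [List.cons.injEq, Prod.mk.injEq, true_and] at h5
    refine ⟨n, fun _ => h5.1, fun _ => h5.2.1, by simp [Sl.tgt, Gen.tgt, h5.2.2],
      fun s hs x e => ?_⟩
    rcases List.mem_append.1 hs with h | h
    · exact absurd e (h2 s h x)
    · rw [List.mem_singleton.1 h] at e
      cases e
  · obtain ⟨rfl, h2⟩ := WF_crossR (b := (b, n₁)) hM hA hr
    exact ⟨n₁, fun _ => rfl, False.elim, by simp, fun s hs x e => absurd e (h2 s hs x)⟩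
  · obtain ⟨rfl, h2⟩ := WF_crossL (b := (b, n₂)) hM hA (by simpa using hr)
    exact ⟨n₂, False.elim, fun _ => rfl, by simp, fun s hs x e => absurd e (h2 s hs x)⟩
  · obtain ⟨⟨l', g', r'⟩, A₁, rfl, e1, e2⟩ := List.map_eq_cons_iff.1 hA
    have h4 := congrArg Sl.g e1
    have hl : l.length = l'.length := by simpa [Sl.map] using (congrArg (·.l.length) e1).symm
    rcases g' with ⟨o, n⟩ | _ | _ <;> cases h4
    obtain ⟨r1, r2⟩ := hr
    simp only [Sl.src, Gen.src, List.append_nil] at r1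
    obtain ⟨rfl, rfl⟩ := List.append_inj r1 hl
    obtain ⟨rfl, h2⟩ := WF_crossR (l := l ++ [(o, n)]) (b := (rev o, n)) hM
      (by simpa using e2) (by simpa [Sl.tgt, Gen.tgt] using r2)
    refine ⟨n, False.elim, False.elim, by simp, fun s hs x e => ?_⟩
    rcases List.mem_cons.1 hs with h | h
    · rw [h] at e
      cases e
      rfl
    · exact absurd e (h2 s h x)

/-- marked version of a relabelling -/
def WF_psi (φ : α → Option β) (x : α × ℕ) : Option (β × ℕ) := (φ x.1).map (·, x.2)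

theorem WF_psi_fst (φ : α → Option β) :
    Option.map Prod.fst ∘ WF_psi φ = φ ∘ Prod.fst := by
  funext x
  simp only [Function.comp_apply, WF_psi]
  cases φ x.1 <;> rfl

/-- a marking of the erased word lifts to the word -/
theorem WF_lift [Rev α] [Rev β] (φ : α → Option β) (hφ : ∀ x, φ (rev x) = rev (φ x))
    {w : List (Sl α)} {σ : List α} {ρ : List (α × ℕ)} {L : List (Sl (β × ℕ))} {τ : List (β × ℕ)}
    (hw : Run (ρ.map Prod.fst) w σ) (h0 : ∀ x ∈ ρ, φ x.1 = none → x.2 = 0)
    (hL : L.map (Sl.map Prod.fst) = erase (w.map (Sl.map φ)))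
    (hr : Run (ρ.map (WF_psi φ)).reduceOption L τ) :
    ∃ W σ', Run ρ W σ' ∧ W.map (Sl.map Prod.fst) = w ∧
      erase (W.map (Sl.map (WF_psi φ))) = L := by
  have hψ : ∀ x, WF_psi φ (rev x) = rev (WF_psi φ x) := by
    rintro ⟨x, n⟩
    simp only [WF_psi, rev_pair, hφ]
    cases φ x <;> rfl
  induction w generalizing ρ L with
  | nil => exact ⟨[], ρ, rfl, rfl, (List.map_eq_nil_iff.1 hL).symm⟩
  | cons s w ih =>
    obtain ⟨l, g, r⟩ := s
    obtain ⟨h1, h2⟩ := hw
    obtain ⟨lm, r', rfl, h3, rfl⟩ := List.map_eq_append_iff.1 h1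
    obtain ⟨l', m', rfl, rfl, h4⟩ := List.map_eq_append_iff.1 h3
    obtain ⟨L₀, L₁, rfl, e0, e1⟩ := List.map_eq_append_iff.1 (hL.trans (erase_append [_] _))
    obtain ⟨τ', r0, r1⟩ := run_append.1 hr
    have hex : ∃ g' : Gen (α × ℕ), g'.map Prod.fst = g ∧ g'.src = m' ∧
        (∀ x ∈ g'.tgt, φ x.1 = none → x.2 = 0) ∧
        ∀ y, g' = .cup y → ∀ t ∈ L₀, ∀ x, t.g = .cup x → x.2 = y.2 := by
      have h5 : ∀ x ∈ m', φ x.1 = none → x.2 = 0 := fun x hx => h0 x (by simp [hx])
      rcases g with o | o | ⟨x, y, b⟩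
      · obtain rfl := List.map_eq_nil_iff.1 h4
        rcases ho : φ o with _ | o'
        · refine ⟨.cup (o, 0), rfl, rfl, by simp [Gen.tgt], fun _ _ t ht => ?_⟩
          simp only [erase, Sl.map, Gen.map, ho, Gen.erase, List.filterMap_cons, Option.map_none,
            List.filterMap_nil, List.map_eq_nil_iff] at e0
          rw [e0] at ht
          cases ht
        · simp only [erase, Sl.map, Gen.map, ho, Gen.erase, List.filterMap_cons, Option.map_some,
            List.filterMap_nil] at e0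
          obtain ⟨t, L₂, rfl, -, e3⟩ := List.map_eq_cons_iff.1 e0
          obtain rfl := List.map_eq_nil_iff.1 e3
          refine ⟨.cup (o, refCm t), rfl, rfl, by simp [Gen.tgt, hφ, ho], ?_⟩
          rintro _ ⟨rfl⟩ t' ht' x e
          rw [List.mem_singleton.1 ht'] at e
          simp [refCm, e]
      · obtain ⟨⟨_, n₁⟩, m₁, rfl, rfl, h6⟩ := List.map_eq_cons_iff.1 h4
        obtain ⟨⟨o', n₂⟩, m₂, rfl, h7, h8⟩ := List.map_eq_cons_iff.1 h6
        obtain rfl := List.map_eq_nil_iff.1 h8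
        rename_i o
        obtain rfl : o' = rev o := h7
        obtain rfl : n₁ = n₂ := by
          rcases ho : φ o with _ | o'
          · exact (h5 (o, n₁) (by simp) ho).trans
              (h5 (rev o, n₂) (by simp) (by simp [hφ, ho])).symm
          · simp only [erase, Sl.map, Gen.map, ho, Gen.erase, List.filterMap_cons,
              Option.map_some, List.filterMap_nil] at e0
            obtain ⟨⟨l₀, g₀, r₀⟩, L₂, rfl, e2, -⟩ := List.map_eq_cons_iff.1 e0
            have e4 := congrArg Sl.g e2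
            have hl : (l'.map (WF_psi φ)).reduceOption.length = l₀.length := by
              have e5 := congrArg (·.l.length) e2
              simp only [Sl.map, List.length_map, List.map_map] at e5
              rw [e5, ← WF_psi_fst, ← List.map_map, List.reduceOption_map, List.length_map]
            rcases g₀ with _ | ⟨o₀, n⟩ | _ <;> cases e4
            have e6 := r0.1
            simp only [Sl.src, Gen.src, List.append_assoc, List.map_append,
              List.reduceOption_append] at e6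
            have e7 := (List.append_inj e6 hl).2
            simp only [WF_psi, List.map_cons, hφ, ho, rev_some, Option.map_some,
              List.reduceOption_cons_of_some, List.cons_append, List.cons.injEq, Prod.mk.injEq,
              rev_pair] at e7
            exact e7.1.2.trans e7.2.1.2.symm
        exact ⟨.cap (o, n₁), rfl, rfl, by simp [Gen.tgt], fun _ e => by cases e⟩
      · obtain ⟨x', m₁, rfl, rfl, h6⟩ := List.map_eq_cons_iff.1 h4
        obtain ⟨y', m₂, rfl, rfl, h8⟩ := List.map_eq_cons_iff.1 h6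
        obtain rfl := List.map_eq_nil_iff.1 h8
        refine ⟨.cr x' y' b, rfl, rfl, fun z hz => h5 z ?_, fun _ e => by cases e⟩
        simpa [Gen.tgt, or_comm] using hz
    obtain ⟨g', rfl, rfl, h5, h6⟩ := hex
    have hone : Run (Sl.src ⟨l', g', r'⟩) [⟨l', g', r'⟩] (Sl.tgt ⟨l', g', r'⟩) := ⟨rfl, rfl⟩
    have hrun := ref_run_erase (hone.map (WF_psi φ) hψ)
    have e2 : L₀ = erase ([⟨l', g', r'⟩].map (Sl.map (WF_psi φ))) := by
      refine WF_unique ?_ r0 hrun fun s hs t ht x y ex ey => ?_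
      · rw [e0, ref_erase_map, List.map_cons, List.map_cons, ref_map_map, WF_psi_fst,
          ← ref_map_map]
        rfl
      · obtain ⟨t', ht', ey'⟩ := ref_mem_erase.1 ⟨t, ht, ey⟩
        rw [List.mem_singleton.1 ht'] at ey'
        rcases g' with z | _ | _
        · rw [h6 z rfl s hs x ex]
          have e3 : WF_psi φ z = some y := Gen.cup.inj ey'
          obtain ⟨_, -, rfl⟩ := Option.map_eq_some_iff.1 e3
          rfl
        · cases ey'
        · cases ey'
    subst e2
    obtain rfl := r0.unique hrun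
    obtain ⟨W, σ', w1, w2, w3⟩ := ih (ρ := Sl.tgt ⟨l', g', r'⟩)
      (by rw [← Sl.tgt_map Prod.fst fun _ => rfl]; exact h2)
      (fun x hx => by
        simp only [Sl.tgt, List.mem_append] at hx
        rcases hx with (hx | hx) | hx
        · exact h0 x (by simp [hx])
        · exact h5 x hx
        · exact h0 x (by simp [hx])) e1 r1
    refine ⟨⟨l', g', r'⟩ :: W, σ', ⟨rfl, w1⟩, by rw [List.map_cons, w2]; rfl, ?_⟩
    rw [← w3, ← erase_append, ← List.map_append]
    rfl

end Lift

section GridPart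

variable {α N : Type} [DecidableEq N]

/-- the label of column `v` above the rows `Ys` -/
def WF_ent (G : Grid N α) (Ys : List N) (v : N) : Option α :=
  if G.nb v false ∈ Ys ∧ G.nb v true ∉ Ys then some (G.dl (G.nb v false) v)
  else if G.nb v true ∈ Ys ∧ G.nb v false ∉ Ys then some (G.dl (G.nb v true) v) else none

/-- the marked row -/
def WF_row (G : Grid N α) (μ : N → ℕ) (Ys Xs : List N) : List (α × ℕ) :=
  Xs.filterMap fun v => (WF_ent G Ys v).map (·, μ v)

theorem WF_row_append (G : Grid N α) (μ : N → ℕ) (Ys X₁ X₂ : List N) :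
    WF_row G μ Ys (X₁ ++ X₂) = WF_row G μ Ys X₁ ++ WF_row G μ Ys X₂ := List.filterMap_append

theorem WF_row_cons (G : Grid N α) (μ : N → ℕ) (Ys : List N) (v : N) (Xs : List N) :
    WF_row G μ Ys (v :: Xs) = ((WF_ent G Ys v).map (·, μ v)).toList ++ WF_row G μ Ys Xs := by
  simp only [WF_row, List.filterMap_cons]
  cases WF_ent G Ys v <;> rfl

theorem WF_lt {R : Rz N} {Y₁ Y₃ : List N} {e a : N} (hn : R.Y.Nodup) (hY : R.Y = Y₁ ++ e :: Y₃)
    (hae : a ≠ e) : e ∉ Y₁ ∧ (R.ltY a e ↔ a ∈ Y₁) ∧ (R.ltY e a ↔ a ∉ Y₁) := by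
  rw [hY] at hn
  have he : e ∉ Y₁ := fun h => (List.nodup_append.1 hn).2.2 e h e List.mem_cons_self rfl
  have h1 : R.Y.idxOf e = Y₁.length := by
    rw [hY, List.idxOf_append_of_notMem he, List.idxOf_cons_self, add_zero]
  refine ⟨he, ?_⟩
  unfold Rz.ltY
  by_cases h : a ∈ Y₁
  · have h2 : R.Y.idxOf a < Y₁.length := by
      rw [hY, List.idxOf_append_of_mem h]
      exact List.idxOf_lt_length_iff.2 h
    simp only [h, iff_true, not_true, iff_false]
    omega
  · have h2 : Y₁.length < R.Y.idxOf a := by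
      rw [hY, List.idxOf_append_of_notMem h, List.idxOf_cons_ne _ hae.symm]
      omega
    simp only [h, iff_true, not_false_iff, iff_false]
    omega

variable [Rev α] {G : Grid N α} {R : Rz N} {Y₁ Y₃ : List N} {e v : N}

omit [Rev α] in
/-- a column that does not end at `e` -/
theorem WF_thru (hn : R.Y.Nodup) (hY : R.Y = Y₁ ++ e :: Y₃) (hv : ∀ t, G.nb v t ≠ e) :
    (G.cell R e v).map Cell.lab = WF_ent G Y₁ v ∧ WF_ent G (Y₁ ++ [e]) v = WF_ent G Y₁ v := by
  obtain ⟨-, a1, a2⟩ := WF_lt hn hY (hv false)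
  obtain ⟨-, b1, b2⟩ := WF_lt hn hY (hv true)
  constructor
  · simp only [Grid.cell, WF_ent, hv, if_false, a1, a2, b1, b2]
    split_ifs <;> rfl
  · simp only [WF_ent, List.mem_append, List.mem_singleton, hv, or_false]

/-- a column that ends at `e` -/
theorem WF_fin (hG : G.OK) (hn : R.Y.Nodup) (hY : R.Y = Y₁ ++ e :: Y₃) {t : Bool}
    (hv : G.nb v t = e) {a : α} {u : Bool} (hc : G.cell R e v = some (.fin a u)) :
    WF_ent G Y₁ v = (if u then none else some a) ∧
      WF_ent G (Y₁ ++ [e]) v = (if u then some a else none) ∧ (u = false → ∃ t, G.nb v t ∈ Y₁) ∧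
      (u = true → ∀ t, G.nb v t ∉ Y₁) ∧ (a = G.dl e v ∨ a = G.dl v e) := by
  have hne := hG.nb_ne v
  have ht := hG.dl_thru v
  have h0 := hG.dl_rev v false
  have h1 := hG.dl_rev v true
  cases t
  · obtain ⟨he, -, b2⟩ := WF_lt hn hY (hv ▸ hne.symm)
    simp only [Grid.cell, hv, if_true, b2, Option.some.injEq] at hc
    rw [hv] at hne ht h0
    have e1 : G.dl (G.nb v true) v = G.dl v e := by rw [h1, ← ht, h0, rev_rev]
    by_cases h : G.nb v true ∈ Y₁ <;> simp only [h, not_true, not_false_iff, if_true, if_false,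
      Cell.fin.injEq] at hc <;> obtain ⟨rfl, rfl⟩ := hc
    · refine ⟨?_, ?_, fun _ => ⟨_, h⟩, fun h => (by cases h), Or.inr rfl⟩ <;>
        simp [WF_ent, hv, he, h, e1]
    · refine ⟨?_, ?_, fun h => (by cases h), fun _ t => ?_, Or.inl rfl⟩
      · simp [WF_ent, hv, he, h]
      · simp [WF_ent, hv, h, hne.symm]
      · cases t
        · exact hv ▸ he
        · exact h
  · obtain ⟨he, -, b2⟩ := WF_lt hn hY (hv ▸ hne)
    rw [hv] at hne ht h1
    simp only [Grid.cell, hv, hne, if_true, if_false, b2, Option.some.injEq] at hc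
    by_cases h : G.nb v false ∈ Y₁ <;> simp only [h, not_true, not_false_iff, if_true, if_false,
      Cell.fin.injEq] at hc <;> obtain ⟨rfl, rfl⟩ := hc
    · refine ⟨?_, ?_, fun _ => ⟨_, h⟩, fun h => (by cases h), Or.inr rfl⟩ <;>
        simp [WF_ent, hv, he, h, ht]
    · refine ⟨?_, ?_, fun h => (by cases h), fun _ t => ?_, Or.inl rfl⟩
      · simp [WF_ent, hv, he, h]
      · simp [WF_ent, hv, h, hne]
      · cases t
        · exact h
        · exact hv ▸ he

omit [Rev α] in
theorem WF_block (hn : R.Y.Nodup) (hY : R.Y = Y₁ ++ e :: Y₃) {Xs : List N}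
    (hv : ∀ v ∈ Xs, ∀ t, G.nb v t ≠ e) {L : List (α × Bool)}
    (hL : Xs.filterMap (G.cell R e) = L.map fun x => Cell.thru x.1 x.2) {μ μ' : N → ℕ}
    (hμ : ∀ v ∈ Xs, μ' v = μ v) :
    (WF_row G μ Y₁ Xs).map Prod.fst = L.map Prod.fst ∧
      WF_row G μ' (Y₁ ++ [e]) Xs = WF_row G μ Y₁ Xs := by
  constructor
  · have h1 := congrArg (List.map Cell.lab) hL
    rw [List.map_map, List.map_filterMap] at h1
    rw [WF_row, List.map_filterMap]
    refine Eq.trans (List.filterMap_congr fun v h => ?_) h1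
    rw [(WF_thru hn hY (hv v h)).1]
    cases WF_ent G Y₁ v <;> rfl
  · refine List.filterMap_congr fun v h => ?_
    rw [(WF_thru hn hY (hv v h)).2, hμ v h]

/-- the marks of the columns along the word -/
theorem WF_marks (hG : G.OK) (hR : R.OK G.col) (Y₂ : List N) : ∀ (Y₁ : List N) (μ₀ : N → ℕ)
    (A : List (Sl (α × ℕ))) (σ : List (α × ℕ)), R.Y = Y₁ ++ Y₂ →
    A.map (Sl.map Prod.fst) = G.evs R R.X Y₂ → Run (WF_row G μ₀ Y₁ R.X) A σ →
    ∃ μ : N → ℕ, (∀ v t, G.nb v t ∈ Y₁ → μ v = μ₀ v) ∧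
      (∀ e ∈ Y₂, μ (G.nb e false) = μ (G.nb e true)) ∧
      ∀ s ∈ A, ∀ x, s.g = .cup x → ∃ v t, G.col v = true ∧ x.2 = μ v ∧
        (x.1 = G.dl (G.nb v t) v ∨ x.1 = G.dl v (G.nb v t)) := by
  induction Y₂ with
  | nil =>
    intro Y₁ μ₀ A σ _ hA _
    obtain rfl := List.map_eq_nil_iff.1 hA
    exact ⟨μ₀, fun _ _ _ => rfl, fun _ h => (by cases h), fun _ h => by cases h⟩
  | cons e Y₃ ih =>
    intro Y₁ μ₀ A σ hY hA hr
    have he : G.col e = false := (hR.memY e).1 (by simp [hY])
    obtain ⟨s, X₁, X₂, X₃, L, M, R', a, b, u, u', hX, c1, c2, c3, c4, c5, hb⟩ :=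
      Grid.cells_eq hG hR he
    obtain ⟨A₁, A₂, rfl, e1, e2⟩ :=
      List.map_eq_append_iff.1 (hA.trans (G.evs_append R R.X [e] Y₃))
    obtain ⟨τ, r1, r2⟩ := run_append.1 hr
    obtain ⟨tp, hp⟩ := hG.adj_symm e s
    obtain ⟨tq, hq⟩ := hG.adj_symm e (!s)
    obtain ⟨p1, p2, -, p4, p5⟩ := WF_fin hG hR.nodupY hY hp c4
    obtain ⟨q1, q2, -, q4, -⟩ := WF_fin hG hR.nodupY hY hq c5
    have hn := hR.nodupX
    rw [hX] at hn
    have hno : ∀ v ∈ X₁ ++ X₂ ++ X₃, v ≠ G.nb e s ∧ v ≠ G.nb e (!s) := by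
      intro v hv
      simp only [List.nodup_append, List.nodup_cons, List.mem_append, List.mem_cons] at hn hv
      constructor <;> rintro rfl <;> grind
    have hno' : ∀ v ∈ X₁ ++ X₂ ++ X₃, ∀ t, G.nb v t ≠ e := by
      rintro v hv t rfl
      obtain ⟨t', h⟩ := hG.adj_symm v t
      obtain ⟨h1, h2⟩ := hno v hv
      cases s <;> cases t' <;> first | exact h1 h.symm | exact h2 h.symm
    have e3 : G.evs R R.X [e] = event (L.map Prod.fst) a u M b u' (R'.map Prod.fst) := by
      rw [← evOf_eq, ← c1, ← c2, ← c3, Grid.evs, List.flatMap_singleton]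
      conv_lhs => rw [hX]
      simp only [List.filterMap_append, List.filterMap_cons, c4, c5]
    have b1 := fun μ' hμ => WF_block (μ := μ₀) (μ' := μ') hR.nodupY hY
      (fun v hv => hno' v (by simp [hv])) c1 hμ
    have b2 := fun μ' hμ => WF_block (μ := μ₀) (μ' := μ') hR.nodupY hY
      (fun v hv => hno' v (by simp [hv])) c2 hμ
    have b3 := fun μ' hμ => WF_block (μ := μ₀) (μ' := μ') hR.nodupY hY
      (fun v hv => hno' v (by simp [hv])) c3 hμ
    obtain ⟨n, n1, n2, rfl, hcup⟩ := WF_event (A := A₁) (σ := τ) (l := WF_row G μ₀ Y₁ X₁)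
      (m := WF_row G μ₀ Y₁ X₂) (r := WF_row G μ₀ Y₁ X₃) (n₁ := μ₀ (G.nb e s))
      (n₂ := μ₀ (G.nb e (!s))) (b2 μ₀ fun _ _ => rfl).1 hb
      (by rw [e1, e3, (b1 μ₀ fun _ _ => rfl).1, (b3 μ₀ fun _ _ => rfl).1]) (by
        rw [hX, WF_row_append, WF_row_cons, WF_row_append, WF_row_cons, p1, q1] at r1
        cases u <;> cases u' <;> simpa using r1)
    let μ₁ : N → ℕ := fun v => if v = G.nb e s ∨ v = G.nb e (!s) then n else μ₀ v
    have m1 : μ₁ (G.nb e s) = n := if_pos (Or.inl rfl)
    have m2 : μ₁ (G.nb e (!s)) = n := if_pos (Or.inr rfl)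
    have m3 : ∀ v ∈ X₁ ++ X₂ ++ X₃, μ₁ v = μ₀ v := fun v hv => if_neg (not_or.2 (hno v hv))
    obtain ⟨μ, k1, k2, k3⟩ := ih (Y₁ ++ [e]) μ₁ A₂ σ (by simp [hY]) e2 (by
      rw [hX, WF_row_append, WF_row_cons, WF_row_append, WF_row_cons, p2, q2, m1, m2,
        (b1 μ₁ fun v hv => m3 v (by simp [hv])).2, (b2 μ₁ fun v hv => m3 v (by simp [hv])).2,
        (b3 μ₁ fun v hv => m3 v (by simp [hv])).2]
      cases u <;> cases u' <;> simpa using r2)
    have l1 : μ (G.nb e s) = n := (k1 _ tp (by simp [hp])).trans m1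
    have l2 : μ (G.nb e (!s)) = n := (k1 _ tq (by simp [hq])).trans m2
    refine ⟨μ, fun v t hv => (k1 v t (by simp [hv])).trans ?_, fun e' he' => ?_,
      fun s' hs' x ex => ?_⟩
    · by_cases h1 : v = G.nb e s
      · subst h1
        cases u
        · rw [m1, n1 rfl]
        · exact absurd hv (p4 rfl t)
      · by_cases h2 : v = G.nb e (!s)
        · subst h2
          cases u'
          · rw [m2, n2 rfl]
          · exact absurd hv (q4 rfl t)
        · exact if_neg (not_or.2 ⟨h1, h2⟩)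
    · rcases List.mem_cons.1 he' with rfl | h
      · cases s
        · exact l1.trans l2.symm
        · exact l2.trans l1.symm
      · exact k2 e' h
    · rcases List.mem_append.1 hs' with h | h
      · rw [hcup s' h x ex]
        exact ⟨G.nb e s, tp, by rw [hG.col_nb, he]; rfl, l1.symm, by rw [hp]; exact p5⟩
      · exact k3 s' h x ex

theorem WF_split {p q : N} (hpq : p ≠ q) {Y : List N} (hp : p ∈ Y) :
    ∃ Y₁ Y₂, Y = Y₁ ++ Y₂ ∧ ((p ∈ Y₁ ∧ q ∉ Y₁) ∨ (q ∈ Y₁ ∧ p ∉ Y₁)) := by
  induction Y with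
  | nil => cases hp
  | cons y Y ih =>
    by_cases h1 : y = p
    · exact ⟨[y], Y, rfl, Or.inl ⟨by simp [h1], by simp [h1, hpq.symm]⟩⟩
    · by_cases h2 : y = q
      · exact ⟨[y], Y, rfl, Or.inr ⟨by simp [h2], by simp [h2, hpq]⟩⟩
      · obtain ⟨Y₁, Y₂, rfl, h⟩ := ih ((List.mem_cons.1 hp).resolve_left (Ne.symm h1))
        exact ⟨y :: Y₁, Y₂, rfl, by simpa [Ne.symm h1, Ne.symm h2] using h⟩

end GridPart

variable {κ ι N : Type} [DecidableEq N]

omit [DecidableEq N] in
theorem WF_name {G : Grid N (Arc κ)} (hG : G.OK) (a : N) (t : Bool) :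
    (G.dl a (G.nb a t)).name = (G.dl a (G.nb a false)).name ∧
      (G.dl (G.nb a t) a).name = (G.dl a (G.nb a false)).name := by
  have h1 : (G.dl a (G.nb a t)).name = (G.dl a (G.nb a false)).name := by
    cases t
    · rfl
    · rw [← hG.dl_thru, hG.dl_rev, rev_name]
  exact ⟨h1, by rw [hG.dl_rev, rev_name, h1]⟩

theorem Grid.isFramedLink_word {G : Grid N (Arc κ)} {R : Rz N} (hG : G.OK) (hR : R.OK G.col)
    (hsurj : ∀ c : κ, ∃ a, (G.dl a (G.nb a false)).name = c)
    (hconn : ∀ a b, (G.dl a (G.nb a false)).name = (G.dl b (G.nb b false)).name →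
      Relation.ReflTransGen (fun x y => ∃ s, G.nb x s = y) a b) :
    IsFramedLink (G.word R) := by
  refine ⟨Grid.run_word hG hR, fun c => ?_, fun L' hL hw => ?_⟩
  · obtain ⟨v, hv, rfl⟩ : ∃ v, G.col v = true ∧ (G.dl v (G.nb v false)).name = c := by
      obtain ⟨a, rfl⟩ := hsurj c
      rcases ha : G.col a with _ | _
      · obtain ⟨t, ht⟩ := hG.adj_symm a false
        refine ⟨G.nb a false, by rw [hG.col_nb, ha]; rfl, ?_⟩
        rw [← (WF_name hG (G.nb a false) t).1, ht, (WF_name hG a false).2]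
      · exact ⟨a, ha, rfl⟩
    obtain ⟨Y₁, Y₂, hY, h⟩ := WF_split (hG.nb_ne v)
      ((hR.memY (G.nb v false)).2 (by rw [hG.col_nb, hv]; rfl))
    have h1 := Grid.run_evs hG hR (Y₁ := []) (Y₂ := Y₁) (Y₃ := Y₂) hY
    rw [Grid.rowAt_nil] at h1
    have h2 := (ref_pred (fun x : Arc κ => ∃ s ∈ G.evs R R.X Y₁, ∃ b, s.g = .cup ⟨x.name, b⟩)
      (fun _ h => h) h1 (fun s hs x e => ⟨s, hs, x.up, e⟩) fun x hx => by cases hx).2
    obtain ⟨x, hx, e⟩ : ∃ x ∈ G.rowAt ([] ++ Y₁) R.X, x.name = (G.dl v (G.nb v false)).name := by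
      rcases h with h | h
      · exact ⟨_, List.mem_filterMap.2 ⟨v, (hR.memX v).2 hv, if_pos h⟩, (WF_name hG v false).2⟩
      · exact ⟨_, List.mem_filterMap.2 ⟨v, (hR.memX v).2 hv,
          (if_neg fun h' => h.2 h'.1).trans (if_pos h)⟩, (WF_name hG v true).2⟩
    obtain ⟨s, hs, b, e'⟩ := h2 x hx
    refine ⟨s, ?_, b, e ▸ e'⟩
    rw [Grid.word, hY, Grid.evs_append]
    exact List.mem_append_left _ hs
  · obtain ⟨μ, -, k2, k3⟩ := WF_marks hG hR R.Y [] (fun _ => 0) L' [] rfl hw (by
      have : WF_row G (fun _ => 0) [] R.X = [] := by simp [WF_row, WF_ent]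
      rw [this]
      exact hL)
    let ν : N → ℕ := fun a => if G.col a = true then μ a else μ (G.nb a false)
    have h1 : ∀ e t, G.col e = false → μ (G.nb e t) = μ (G.nb e false) := by
      intro e t he
      cases t
      · rfl
      · exact (k2 e ((hR.memY e).2 he)).symm
    have h2 : ∀ a t, ν (G.nb a t) = ν a := by
      intro a t
      rcases ha : G.col a with _ | _
      · simp only [ν, hG.col_nb, ha, Bool.not_false, if_true, Bool.false_eq_true, if_false]
        exact h1 a t ha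
      · obtain ⟨t', ht⟩ := hG.adj_symm a t
        simp only [ν, hG.col_nb, ha, Bool.not_true, if_true, Bool.false_eq_true, if_false]
        rw [← h1 _ t' (by rw [hG.col_nb, ha]; rfl), ht]
    have h3 : ∀ a b, Relation.ReflTransGen (fun x y => ∃ s, G.nb x s = y) a b → ν b = ν a := by
      intro a b h
      induction h with
      | refl => rfl
      | tail _ h ih =>
        obtain ⟨t, rfl⟩ := h
        rw [h2, ih]
    choose f hf using hsurj
    refine ⟨fun c => ν (f c), ?_⟩
    have h5 := (ref_pred (fun x : Arc κ × ℕ => (x.1, ν (f x.1.name)) = x)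
      (fun x h => Prod.ext rfl (Prod.ext_iff.1 h).2) hL (fun s hs x e => by
        obtain ⟨v, t, hv, e1, e2⟩ := k3 s hs x e
        have e3 : x.1.name = (G.dl v (G.nb v false)).name := by
          rcases e2 with e2 | e2 <;> rw [e2]
          · exact (WF_name hG v t).2
          · exact (WF_name hG v t).1
        refine Prod.ext rfl ?_
        rw [e1, ← h3 _ _ (hconn _ v ((hf _).trans e3))]
        exact if_pos hv) fun x hx => by cases hx).1
    rw [← hw, List.map_map]
    symm
    refine (List.map_congr_left (g := id) fun s hs => ?_).trans (List.map_id _)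
    rw [Function.comp_apply, ref_map_map]
    exact ref_map_fix _ s (h5 s hs).1 (h5 s hs).2

theorem WF_lbA_rev (ℓ : κ → Option ι) (x : Arc κ) : lbA ℓ (rev x) = rev (lbA ℓ x) := by
  simp only [lbA, rev_name, rev_up]
  cases ℓ x.name <;> rfl

theorem isFramedLink_erase {w : List (Sl (Arc κ))} (hw : IsFramedLink w) (ℓ : κ → Option ι)
    (hℓ : ∀ i, ∃! c, ℓ c = some i) : IsFramedLink (erase (w.map (Sl.map (lbA ℓ)))) := by
  refine ⟨ref_run_erase (hw.1.map _ (WF_lbA_rev ℓ)), fun i => ?_, fun L' hL e => ?_⟩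
  · obtain ⟨c, hc, -⟩ := hℓ i
    obtain ⟨s, hs, b, e⟩ := hw.2.1 c
    obtain ⟨t, ht, e'⟩ := (ref_mem_erase (w := w.map (Sl.map (lbA ℓ))) (o := ⟨i, b⟩)).2
      ⟨_, List.mem_map_of_mem hs, by simp [Sl.map, e, Gen.map, lbA, hc]⟩
    exact ⟨t, ht, b, e'⟩
  · obtain ⟨W, σ, w1, w2, w3⟩ := WF_lift (lbA ℓ) (WF_lbA_rev ℓ) (ρ := []) hw.1
      (fun x hx => by cases hx) e hL
    have h4 := w1.map Prod.fst fun _ => rfl
    rw [w2] at h4
    obtain rfl := List.map_eq_nil_iff.1 (h4.unique hw.1)
    obtain ⟨g, rfl⟩ := hw.2.2 W w1 w2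
    choose f hf hf' using hℓ
    refine ⟨fun i => g (f i), ?_⟩
    rw [← w3, ref_erase_map, List.map_map, List.map_map]
    congr 1
    refine List.map_congr_left fun s _ => ?_
    rw [Function.comp_apply, Function.comp_apply, ref_map_map, ref_map_map]
    congr 1
    funext a
    simp only [Function.comp_apply, WF_psi, lbA]
    rcases h : ℓ a.name with _ | i
    · rfl
    · simp only [Option.map_some, ← hf' i _ h]

/-- if no component is labelled `none`, nothing is erased -/
theorem lift_erase (w : List (Sl (Arc κ))) (ℓ : κ → Option ι) (hℓ : ∀ c, ℓ c ≠ none) :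
    lift (erase (w.map (Sl.map (lbA ℓ)))) = w.map (Sl.map (lbA ℓ)) := by
  choose f hf using fun c => Option.ne_none_iff_exists'.1 (hℓ c)
  have h : w.map (Sl.map (lbA ℓ)) =
      lift (w.map (Sl.map fun a => (⟨f a.name, a.up⟩ : Arc ι))) := by
    rw [lift, List.map_map]
    refine List.map_congr_left fun s _ => ?_
    rw [Function.comp_apply, ref_map_map]
    congr 1
    funext a
    simp [lbA, hf]
  rw [h, erase_lift]

end Pool.Agent.P.MP_ac4909_gt.B
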