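import Pool.Agent.P.MP_ac4909_gt.B.GDefs
import Pool.Agent.P.MP_ac4909_gt.B.WCell
import Pool.Agent.P.MP_ac4909_gt.B.WDbl
import Pool.Agent.P.MP_ac4909_gt.B.WFramed
import Pool.Agent.P.MP_ac4909_gt.B.GC_Val

/-! Layer G, core: well-definedness and isotopy invariance of the value of a link. -/

namespace Pool.Agent.P.MP_ac4909_gt.B

open scoped ContDiff
open Set Filter Topology

variable {κ ι P N : Type} {fa : Bool} {γ : κ → ℝ → E3} {C : Conf N}

theorem Conf.Valid.pt_inj (hC : C.Valid fa) : Function.Injective C.pt := hC.pt_inj'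

theorem exists_lab [Fintype κ] (hγ : IsU γ) (hC : C.Valid fa) (hs : C.supp = trace γ) :
    ∃ dl, C.Lab γ dl := exists_lab' hγ hC hs

theorem Conf.Lab.ok (hγ : IsU γ) (hC : C.Valid fa) {dl : N → N → Arc κ} (h : C.Lab γ dl) :
    (C.grid dl).OK := h.ok' hγ hC

theorem exists_canon [Fintype N] (C : Conf N) : ∃ R, C.Canon R := exists_canon' C

theorem Conf.Canon.good [DecidableEq N] (hC : C.Valid fa) {R : Rz N} (h : C.Canon R) :
    C.Good fa R := h.good' hC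

theorem HasWord.run (hγ : IsU γ) {w : List (Sl (Arc κ))} (h : HasWord fa γ w) :
    Run [] w [] := h.run' hγ

theorem HasWord.isFramedLink [Fintype κ] (hγ : IsU γ) {w : List (Sl (Arc κ))}
    (h : HasWord fa γ w) : IsFramedLink w := h.isFramedLink' hγ

theorem HasWord.eqv [Fintype κ] (hγ : IsU γ) (hv : fa = true → NonVert γ)
    {w w' : List (Sl (Arc κ))} (h : HasWord fa γ w) (h' : HasWord fa γ w') :
    Eqv fa [] [] w w' := h.eqv' hγ hv h'

/-- fine subdivisions with prescribed short arcs and a height margin that does not depend on the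
fineness -/
theorem exists_fine [Fintype κ] (hγ : IsU γ) (hv : NonVert γ) :
    ∃ d > 0, ∀ (B : Type) [Fintype B] (cp : B → κ) (τ : B → ℝ),
      (Function.Injective fun b => γ (cp b) (τ b)) → ∀ η > 0, ∃ h > 0, ∀ σ : B → ℝ,
      (∀ b, σ b ≠ τ b ∧ |σ b - τ b| < h) →
      ∃ (N : Type) (_ : Fintype N) (C : Conf N) (bc ρ : B → N),
        C.Valid true ∧ C.supp = trace γ ∧ C.Margin d ∧
        (∀ a, ∀ p ∈ C.star a, ∀ q ∈ C.star a, dist p q < η) ∧
        ∀ b, C.col (bc b) = true ∧ (∃ s, C.nb (bc b) s = ρ b) ∧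
          C.pt (bc b) = γ (cp b) (τ b) ∧ C.pt (ρ b) = γ (cp b) (σ b) ∧
          C.arc (bc b) (ρ b) = γ (cp b) '' uIcc (τ b) (σ b) := exists_fine' hγ hv

/-- a smooth curve inside a link is locally a smooth reparametrisation -/
theorem exists_reparam_local [Fintype κ] (hγ : IsU γ) {g : ℝ → E3} {t₀ s₀ : ℝ} {c : κ}
    (hg : ContDiffAt ℝ ∞ g t₀) (hm : ∀ᶠ t in 𝓝 t₀, g t ∈ trace γ) (h₀ : g t₀ = γ c s₀) :
    ∃ φ : ℝ → ℝ, ContDiffAt ℝ ∞ φ t₀ ∧ φ t₀ = s₀ ∧ ∀ᶠ t in 𝓝 t₀, g t = γ c (φ t) :=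
  exists_reparam_local' hγ hg hm h₀

/-- two parametrisations of the same link -/
theorem exists_reparam {κ' : Type} [Fintype κ] [Fintype κ'] {γ' : κ' → ℝ → E3} (hγ : IsU γ)
    (hγ' : IsU γ') (h : trace γ' = trace γ) :
    ∃ (β : κ' ≃ κ) (φ : κ' → ℝ → ℝ) (σ : κ' → ℝ), ∀ c, (σ c = 1 ∨ σ c = -1) ∧
      ContDiff ℝ ∞ (φ c) ∧ (∀ t, 0 < σ c * deriv (φ c) t) ∧ (∀ t, φ c (t + 1) = φ c t + σ c) ∧
      ∀ t, γ' c t = γ (β c) (φ c t) := exists_reparam' hγ hγ' h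

theorem Lk.IsLink.exists_small [Fintype κ] {L : Lk κ} (hL : L.IsLink) : ∃ δ, L.Small δ :=
  hL.exists_small'

theorem zv_iso (E : EvSys ι P) {S S' : LS ι} (h : GIso S S') : zv E S = zv E S' :=
  zv_iso' E h

theorem zv_vertical [Fintype κ] (E : EvSys ι P) {L : Lk κ} (hL : L.IsLink)
    (hν : ∀ c t, L.ν c t = ez) (ℓ : κ → Option ι) {w : List (Sl (Arc κ))}
    (hw : HasWord true L.γ w) (p : P) :
    zv E (L.set ℓ) p = E.ev p (w.map (Sl.map (lbN ℓ))) := zv_vertical' E hL hν ℓ hw p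

end Pool.Agent.P.MP_ac4909_gt.B
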