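import Pool.Agent.P.MP_ac4909_gt.B.WDefs
import Pool.Agent.P.MP_ac4909_gt.Root

/-! Layer A: the algebraic facts on the evaluation of words that the geometry uses. -/

namespace Pool.Agent.P.MP_ac4909_gt.B

open Filter

variable {ι : Type} [Fintype ι] [DecidableEq ι]

/-- Kirby colour at level `t` of a function of the colouring -/
noncomputable def kirby (t : ℕ) (x : ℕ × (ι → ℕ) → ℂ) : ℂ :=
  ∑ m ∈ Fintype.piFinset fun _ : ι => Finset.range (2 ^ t - 1),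
    (∏ i, Dl (aa t) (m i)) * x (t, m)

structure AFacts (E : EvSys ι (ℕ × (ι → ℕ))) : Prop where
  skein : ∀ p w₁ w₂ l r, E.ev p (w₁ ++ [⟨l, .cr Nm.no Nm.no true, r⟩] ++ w₂) =
    aa p.1 * E.ev p (w₁ ++ w₂) +
      (aa p.1)⁻¹ * E.ev p (w₁ ++ [⟨l, .cap Nm.no, r⟩, ⟨l, .cup Nm.no, r⟩] ++ w₂)
  loop : ∀ p w₁ w₂ l r, E.ev p (w₁ ++ encW l [] r ++ w₂) = dlt (aa p.1) * E.ev p (w₁ ++ w₂)
  mer : ∀ p w₁ w₂ l r i, Run [] w₁ (l ++ [⟨some i⟩] ++ r) →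
    E.ev p (w₁ ++ encW l [⟨some i⟩] r ++ w₂) = mu (aa p.1) (p.2 i) * E.ev p (w₁ ++ w₂)
  enc : ∀ t n w₁ w₂ l r,
    (∀ w : List ℕ, w ≠ [] → w.length ≤ 2 * n → (∀ i ∈ w, i + 2 ≤ n) →
      kirby t (fun p => E.ev p (w₁ ++ eW l n r w ++ w₂)) = 0) →
    kirby t (fun p => E.ev p (w₁ ++ encW l (List.replicate n Nm.no) r ++ w₂)) =
      mu (aa t) n * kirby t fun p => E.ev p (w₁ ++ w₂)
  slide : ∀ t w₁ w₂ l r a, Run [] w₁ (l ++ some a :: none :: r) → Run [] (w₁ ++ w₂) [] →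
    IsFramedLink (erase (w₁ ++ w₂)) →
    kirby t (fun p => E.ev p ((slideW w₁ w₂ l r a).map (Sl.map fg))) =
      kirby t fun p => E.ev p ((w₁ ++ w₂).map (Sl.map fg))
  nonvan : ∀ L : List (Sl (Arc ι)), IsFramedLink L →
    (∀ j : ι → ℕ, ∀ᶠ t in atTop, kirby t (fun p => (∏ i, mu (aa p.1) (p.2 i) ^ j i) *
      E.ev p ((lift L).map (Sl.map fg))) = 0) → False

end Pool.Agent.P.MP_ac4909_gt.B
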