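import Pool.Agent.P.MP_ac4909_gt.Main

/-! The non-vanishing theorem in functional form; germs. -/

namespace Pool.Agent.P.MP_ac4909_gt.B

open Filter

theorem nonvan_JP {ι : Type} [Fintype ι] [DecidableEq ι] {L : List (Sl (Arc ι))}
    (hL : IsFramedLink L)
    (h : ∀ j : ι → ℕ, ∀ᶠ t in atTop,
      ∑ m ∈ Fintype.piFinset fun _ : ι => Finset.range (2 ^ t - 1),
        (∏ i, Dl (aa t) (m i)) * ((∏ i, mu (aa t) (m i) ^ j i) *
          lev (aa t) (aa_ne t) (JP L fun i => (m i : ℤ) + 1)) = 0) : False := by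
  have hz := h
  clear h
  choose Dj hDj using exists_merids hL
  have hlev : ∀ t, ∃ lam : List (Sl (Option (Arc ι))) → ℂ, 2 ≤ t → _ := fun t => by
    by_cases ht : 2 ≤ t
    · obtain ⟨lam, h⟩ := level_facts hL ht Dj hDj
      exact ⟨lam, fun _ => h⟩
    · exact ⟨0, fun h => absurd h ht⟩
  choose lam hlam using hlev
  have hev : ∀ᶠ t in atTop, 2 ≤ t := eventually_ge_atTop 2
  set J : ℕ → (ι → ℤ) → ℂ := fun t k => lev (aa t) (aa_ne t) (JP L k) with hJ
  have hodd : ∀ t k i, J t (Function.update k i (-k i)) = -J t k := by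
    intro t k i; simp only [hJ, JP_neg, map_neg]
  have hperJ : ∀ᶠ t in atTop, ∀ k i, J t (k + Pi.single i (2 * 2 ^ t)) = J t k :=
    hev.mono fun t ht => (hlam t ht).2.2.1
  set G : ℕ → (ι → ℤ) → ℂ := fun t k => lev (aa t) (aa_ne t) (GP L k) with hG
  have hGJ : G = fun t k => (∏ i, (-1 : ℂ) ^ (k i - 1)) * J t k := by
    funext t k; simp only [hG, hJ, lev_GP]
  have hperG : ∀ᶠ t in atTop, ∀ k i, G t (k + Pi.single i (2 * 2 ^ t)) = G t k := by
    filter_upwards [hperJ] with t ht k i
    rw [hGJ]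
    simp only [ht]
    congr 1
    refine Finset.prod_congr rfl fun j _ => ?_
    by_cases hj : j = i
    · subst hj
      simp only [Pi.add_apply, Pi.single_eq_same]
      rw [show k j + 2 * 2 ^ t - 1 = (k j - 1) + 2 * 2 ^ t by ring, zpow_add₀ (by norm_num),
        zpow_mul]
      norm_num
    · simp [Pi.single_eq_of_ne hj]
  have hpt : ∀ n, ∀ᶠ t in atTop, Psi G t n = 0 := by
    rw [hGJ]
    exact Psi_eventually_zero J hodd hperJ hz
  have hhol : HolG (Psi G) := by
    refine holG_Psi (GP L) (HolF.sq ?_) hperG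
    have h₁ : HolF uA fun k : ι → ℤ => ∏ i, (-1 : RatFunc ℚ) ^ (k i - 1) :=
      HolF.finset_prod uA_nontorsion _ fun i _ =>
        holF_sign uA_nontorsion ((isAff_coord i).sub (isAff_const 1))
    refine (h₁.mul uA_nontorsion (holF_JP uA_nontorsion hL)).congr fun k => ?_
    rw [lev_GP]; rfl
  obtain ⟨ε, hε, hvan⟩ := HolG.vanish _ ι rfl _ hhol hpt
  refine fourier_contra G L.length ε hε hperG ?_ ?_ hvan
  · filter_upwards [hev] with t ht k hk
    have hnorm : ∀ k, ‖G t k‖ = ‖J t k‖ := by
      intro k; rw [hGJ]; simp [norm_prod, norm_zpow]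
    rw [hnorm]
    have habs : ∀ s : Finset ι, ‖J t fun i => if i ∈ s then |k i| else k i‖ = ‖J t k‖ := by
      intro s
      induction s using Finset.induction_on with
      | empty => simp
      | insert j s hj ih =>
        rw [← ih]
        rcases abs_choice (k j) with h | h
        · congr 2; funext i
          by_cases hi : i = j
          · subst hi; simp [hj, h]
          · simp [hi]
        · rw [← norm_neg (J t fun i => if i ∈ s then |k i| else k i), ← hodd _ _ j]
          congr 2; funext i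
          by_cases hi : i = j
          · subst hi; simp [hj, h]
          · simp [hi]
    rw [← habs Finset.univ]
    simp only [Finset.mem_univ, if_true]
    by_cases h0 : ∃ i, k i = 0
    · obtain ⟨i, hi⟩ := h0
      have := hodd t (fun i => |k i|) i
      simp only [hi, abs_zero, neg_zero] at this
      rw [Function.update_eq_self_iff.2 (by simp [hi])] at this
      rw [self_eq_neg.1 this, norm_zero]
      positivity
    · push Not at h0
      have hm : (fun i => |k i|) = fun i => (((k i).natAbs - 1 : ℕ) : ℤ) + 1 := by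
        funext i; have := h0 i; rw [Int.abs_eq_natAbs]; omega
      rw [hm]
      refine ((hlam t ht).2.2.2 (fun i => (k i).natAbs - 1) fun i => ?_).trans ?_
      · have h₁ := hk i
        rw [Int.abs_eq_natAbs] at h₁
        have : (k i).natAbs ≤ 2 ^ t := by exact_mod_cast h₁
        omega
      · refine pow_le_pow_left₀ (Finset.prod_nonneg fun i _ => by positivity)
          (Finset.prod_le_prod (fun i _ => by positivity) fun i _ => ?_) _
        have h₁ : (((k i).natAbs - 1 : ℕ) : ℤ) ≤ |k i| := by rw [Int.abs_eq_natAbs]; omega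
        have h₂ : (((k i).natAbs - 1 : ℕ) : ℝ) ≤ |(k i : ℝ)| := by exact_mod_cast h₁
        linarith
  · intro k
    have := tendsto_lev aa_ne (by simp : (-1 : ℂ) ≠ 0) tendsto_aa (GP L k)
    rw [lev_GP, lev_JP_neg_one hL, ← Finset.prod_mul_distrib] at this
    convert this using 3 with i
    rw [← mul_assoc, ← mul_zpow]; simp

theorem mu_ne_dlt {n : ℕ} (hn : n ≠ 0) : ∀ᶠ t in atTop, mu (aa t) n ≠ dlt (aa t) := by
  filter_upwards [root_ev_lt (2 * n + 4)] with t ht h
  have ha := aa_ne t
  have h1 : (aa t ^ (2 * n) - 1) * (aa t ^ (2 * n + 4) - 1) = 0 := by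
    rw [mu, dlt] at h
    have h2 : aa t ^ (2 * n + 2) * (aa t)⁻¹ ^ (2 * n + 2) = 1 := by
      rw [← mul_pow, mul_inv_cancel₀ ha, one_pow]
    have h3 : aa t ^ 2 * (aa t)⁻¹ ^ 2 = 1 := by
      rw [← mul_pow, mul_inv_cancel₀ ha, one_pow]
    linear_combination (-(aa t ^ (2 * n + 2))) * h - h2 + aa t ^ (2 * n) * h3
  rcases mul_eq_zero.1 h1 with h2 | h2
  · have := Nat.le_of_dvd (by omega) ((aa_prim t).dvd_of_pow_eq_one _ (sub_eq_zero.1 h2))
    omega
  · have := Nat.le_of_dvd (by omega) ((aa_prim t).dvd_of_pow_eq_one _ (sub_eq_zero.1 h2))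
    omega

/-- If a quotient of a free `ℚ(A)`-module by isotopy, skein and loop relations is zero, every
sequence of functions that eventually respects each relation vanishes eventually. -/
theorem eventually_zero {X : Type*} (Rl : (X →₀ RatFunc ℚ) → Prop)
    [Subsingleton ((X →₀ RatFunc ℚ) ⧸ Submodule.span (RatFunc ℚ) {x | Rl x})]
    (lam : ℕ → X → ℂ)
    (h : ∀ x, Rl x →
      (∃ a b, x = Finsupp.single a 1 - Finsupp.single b 1 ∧ ∀ᶠ t in atTop, lam t a = lam t b) ∨
      (∃ a b c, x = Finsupp.single a 1 - Finsupp.single b RatFunc.X -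
          Finsupp.single c RatFunc.X⁻¹ ∧
        ∀ᶠ t in atTop, lam t a = aa t * lam t b + (aa t)⁻¹ * lam t c) ∨
      ∃ a b, x = Finsupp.single a 1 - Finsupp.single b (-RatFunc.X ^ 2 - RatFunc.X⁻¹ ^ 2) ∧
        ∀ᶠ t in atTop, lam t a = dlt (aa t) * lam t b)
    (a : X) : ∀ᶠ t in atTop, lam t a = 0 := by
  obtain ⟨Λ, hΛ⟩ : ∃ Λ : (X →₀ RatFunc ℚ) →+ Germ (atTop : Filter ℕ) ℂ, ∀ E c,
      Λ (Finsupp.single E c) = theta c * ((fun t => lam t E : ℕ → ℂ) : Germ atTop ℂ) :=
    ⟨Finsupp.liftAddHom fun E => (AddMonoidHom.mulRight _).comp theta.toAddMonoidHom,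
      fun E c => Finsupp.liftAddHom_apply_single _ _ _⟩
  have h1 : ∀ c x, Λ (c • x) = theta c * Λ x := by
    intro c x
    induction x using Finsupp.induction_linear with
    | zero => simp
    | add x y hx hy => rw [smul_add, map_add, map_add, hx, hy, mul_add]
    | single E a => rw [Finsupp.smul_single, hΛ, hΛ, smul_eq_mul, map_mul, mul_assoc]
  have hX := lambda_zp true
  have hX' := lambda_zp false
  simp only [if_true, Bool.false_eq_true, if_false] at hX hX'
  have h2 : ∀ x ∈ Submodule.span (RatFunc ℚ) {x | Rl x}, Λ x = 0 := by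
    intro x hx
    induction hx using Submodule.span_induction with
    | zero => exact map_zero _
    | add x y _ _ hx hy => rw [map_add, hx, hy, add_zero]
    | smul c x _ hx => rw [h1, hx, mul_zero]
    | mem x hx =>
      rcases h x hx with ⟨a, b, rfl, he⟩ | ⟨a, b, c, rfl, he⟩ | ⟨a, b, rfl, he⟩
      · rw [map_sub, hΛ, hΛ, map_one, one_mul, one_mul, sub_eq_zero, Germ.coe_eq]
        exact he
      · rw [map_sub, map_sub, hΛ, hΛ, hΛ, map_one, one_mul, sub_sub, sub_eq_zero, hX, hX',
          ← Germ.coe_mul, ← Germ.coe_mul, ← Germ.coe_add, Germ.coe_eq]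
        exact he
      · rw [map_sub, hΛ, hΛ, map_one, one_mul, sub_eq_zero, lambda_dlt, ← Germ.coe_mul, Germ.coe_eq]
        exact he
  have h3 := h2 (Finsupp.single a 1)
    ((Submodule.Quotient.mk_eq_zero _).1 (Subsingleton.elim _ _))
  rw [hΛ, map_one, one_mul] at h3
  exact Germ.coe_eq.1 h3

end Pool.Agent.P.MP_ac4909_gt.B
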