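import Pool.Agent.P.MP_ac4909_gt.B.WDefs
import Pool.Agent.P.MP_ac4909_gt.Moves
import Pool.Agent.P.MP_ac4909_gt.Merid

/-! Curls on Jones-Wenzl coloured strands; loops around plain strands. -/

namespace Pool.Agent.P.MP_ac4909_gt.B

variable {K : Type} [Field K] {R : Type} [Ring R] [Algebra K R] {ι : Type} (T : TL K R)

/-- Jones-Wenzl colouring of unoriented labels -/
def colN (m : ι → ℕ) : Col (Nm ι) R :=
  ⟨fun x => x.val.elim 1 m, fun x => x.val.elim (fun _ => 1) fun i => T.f (m i)⟩

theorem colN_comap (m : ι → ℕ) : (colN T m).comap fg = T.jw m := by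
  unfold colN Col.comap
  dsimp only [TL.jw, TL.jc, TL.jcA, Col.opt]
  congr 1
  · funext x
    cases x <;> rfl
  · funext x p
    cases x with
    | none => rfl
    | some a => simp [fg]

theorem good_colN {m : ι → ℕ} (h : ∀ i, Adm T.a (m i)) : T.Good (colN T m) := by
  refine ⟨fun _ => rfl, ?_, ?_, ?_⟩
  · rintro ⟨_ | i⟩
    · exact .one 1
    · exact T.loc_f _
  · rintro ⟨_ | i⟩ p
    · exact one_mul _
    · exact T.f_idem (h i) p
  · rintro ⟨_ | i⟩
    · exact T.rot_one 1
    · exact T.rot_f (h i)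

/-- twist eigenvalue of the colour `n` -/
def twist (a : K) (n : ℕ) : K := (-1) ^ n * a ^ (n * (n + 2))

theorem ATwist_scal (a : K) (n : ℕ) (s : Bool) :
    twist a n ^ (if s then -1 else 1 : ℤ) = (-1) ^ n * zp a (!s) ^ (n * (n + 2)) := by
  cases s
  · simp [twist, zp]
  · simp only [twist, zp, if_true, zpow_neg_one, mul_inv, ← inv_pow, inv_neg_one, Bool.not_true,
      Bool.false_eq_true, if_false]

theorem ATwist_mul_sig {G : R} {q : ℕ} (h : G * T.U q = 0) (s : Bool) :
    G * T.sig s q = zp T.a s • G := by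
  rw [TL.sig, mul_add, mul_smul_comm, mul_smul_comm, mul_one, ← mul_assoc, h, zero_mul, smul_zero,
    add_zero]

theorem ATwist_mul_left {G : R} {q n : ℕ} (h : ∀ j, j < n → G * T.U (q + j) = 0) (s : Bool) :
    G * T.crC s n 1 q = zp T.a s ^ n • G := by
  induction n with
  | zero => rw [TL.crC_zero_left, mul_one, pow_zero, one_smul]
  | succ n ih =>
    rw [TL.hexL, TL.crC_one_one, ← mul_assoc, ih fun j hj => h j (by omega), smul_mul_assoc,
      ATwist_mul_sig T (h n (by omega)), smul_smul, pow_succ]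

theorem ATwist_mul_right {G : R} {q n : ℕ} (h : ∀ j, j < n → G * T.U (q + j) = 0) (s : Bool) :
    G * T.crC s 1 n q = zp T.a s ^ n • G := by
  induction n with
  | zero => rw [TL.crC, mul_one, pow_zero, one_smul]
  | succ n ih =>
    rw [TL.hexR, TL.crC_one_one, ← mul_assoc, ATwist_mul_sig T (h n (by omega)), smul_mul_assoc,
      ih fun j hj => h j (by omega), smul_smul, pow_succ']

theorem ATwist_curl (s : Bool) (q : ℕ) : T.sig s q * T.U q = -zp T.a (!s) ^ 3 • T.U q := by
  have h2 := mul_inv_cancel₀ T.ha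
  rw [TL.sig, add_mul, smul_mul_assoc, smul_mul_assoc, one_mul, mul_assoc, T.loop,
    Algebra.algebraMap_eq_smul_one, mul_smul_comm, mul_one]
  cases s
  · simp only [zp, dlt, Bool.not_false, if_true, Bool.false_eq_true, if_false]
    match_scalars
    linear_combination (-T.a⁻¹) * h2
  · simp only [zp, dlt, Bool.not_true, if_true, Bool.false_eq_true, if_false]
    match_scalars
    linear_combination (-T.a) * h2

theorem ATwist_step (s : Bool) (n p : ℕ) :
    T.crC s (n + 1) (n + 1) p * T.U (p + n) = -zp T.a (!s) ^ 3 •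
      (T.crC (!s) 1 n (p + (n + 1)) * T.crC (!s) n 1 p * T.U (p + n) * T.crC s n n p) := by
  have hx : T.Loc n (1 + n + 1) fun q => T.crC s 1 n (q + 1) * T.U q :=
    (((T.loc_crC s 1 n).padL 1).cast (m' := 2 + n) (by omega) (by omega) fun _ => rfl).mul
      ((T.loc_U.padR n).cast (by omega) rfl fun _ => rfl)
  have h1 := hx.natR s n p
  beta_reduce at h1
  rw [TL.hexR, TL.hexR] at h1
  have h2 := T.cupSlC (!s) n 1 p
  rw [TL.cupC_one, TL.cupC_one, Bool.not_not] at h2
  have h3 := T.r2C s n 1 (p + (1 + n))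
  have h4 := (T.loc_crC s n 1).far' (T.loc_crC s 1 n) p (p + n + 1) (p + n + 1) (by omega)
    (by omega)
  have h5 : T.crC s (n + 1) (n + 1) p = T.crC s n n (p + 1) * T.crC s 1 n (p + n + 1) *
      (T.crC s n 1 p * T.sig s (p + n)) := by
    rw [← TL.crC_one_one, ← TL.hexL, show p + n + 1 = p + 1 + n by omega, ← TL.hexL, ← TL.hexR,
      add_comm 1 n]
  rw [h5, mul_assoc, mul_assoc (T.crC s n 1 p), ATwist_curl, mul_smul_comm, mul_smul_comm]
  congr 1
  rw [mul_assoc (T.crC (!s) 1 n (p + (n + 1))), h2, mul_assoc _ _ (T.crC s n n p),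
    ← h1, show p + (n + 1) = p + (1 + n) by omega]
  simp only [← mul_assoc]
  rw [h3, one_mul, mul_assoc (T.crC s n n (p + 1)) (T.crC s n 1 p), h4, ← mul_assoc]

theorem ATwist_gen (s : Bool) (n p : ℕ) (G : R) (h1 : ∀ j, j + 2 ≤ n → G * T.U (p + j) = 0)
    (h2 : ∀ j, j + 2 ≤ n → G * T.U (p + n + j) = 0) :
    G * T.crC s n n p * T.cupC n p =
      ((-1) ^ n * zp T.a (!s) ^ (n * (n + 2))) • (G * T.cupC n p) := by
  induction n generalizing G with
  | zero => simp [TL.crC]
  | succ n ih =>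
    have e := ih (G * T.U (p + n)) (fun j hj => by
      obtain ⟨k, rfl⟩ : ∃ k, n = k + 2 := ⟨n - 2, by omega⟩
      rw [mul_assoc, ← add_assoc, T.UU _ _ (by omega), ← mul_assoc, h1 j (by omega), zero_mul])
      (fun j hj => by
        rw [mul_assoc, ← T.UU _ _ (by omega), ← mul_assoc,
          show p + n + j + 2 = p + (n + 1) + (j + 1) by omega, h2 _ (by omega), zero_mul])
    rw [TL.cupC_add, TL.cupC_one, ← mul_assoc, mul_assoc G, ATwist_step, mul_smul_comm,
      smul_mul_assoc]
    simp only [← mul_assoc]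
    rw [ATwist_mul_right T fun j hj => h2 j (by omega), smul_mul_assoc,
      ATwist_mul_left T fun j hj => h1 j (by omega)]
    simp only [smul_mul_assoc]
    rw [e]
    simp only [smul_smul]
    congr 1
    ring

theorem twist_cup {n : ℕ} (h : Adm T.a n) (s : Bool) (p : ℕ) :
    T.crC s n n p * (T.f n p * T.cupC n p) =
      twist T.a n ^ (if s then -1 else 1 : ℤ) • (T.f n p * T.cupC n p) := by
  have hc : T.f n p * T.f n (p + n) = T.f n (p + n) * T.f n p := (T.loc_f n).far (T.loc_f n) p 0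
  have hy : T.f n p * T.f n (p + n) * T.cupC n p = T.f n p * T.cupC n p := by
    rw [mul_assoc, ← T.rot_f h p, ← mul_assoc, T.f_idem h]
  have e := ATwist_gen T s n p (T.f n p * T.f n (p + n))
    (fun j hj => by rw [hc, mul_assoc, T.f_mul_U h hj, mul_zero])
    (fun j hj => by rw [mul_assoc, T.f_mul_U h hj, mul_zero])
  rw [hy] at e
  rw [ATwist_scal, ← e, ← hy, hc, mul_assoc (T.f n (p + n)) _ (T.crC s n n p),
    ← (T.loc_f n).natR, ← mul_assoc (T.f n (p + n)), ← (T.loc_f n).natL, ← hc]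
  simp only [mul_assoc]

theorem twist_cap {n : ℕ} (h : Adm T.a n) (s : Bool) (p : ℕ) :
    T.capC n p * T.f n p * T.crC s n n p =
      twist T.a n ^ (if s then -1 else 1 : ℤ) • (T.capC n p * T.f n p) := by
  have a1 := (T.loc_capC n).far' (((T.loc_capC n).mul (T.loc_crC s n n))) p (p + n + n) p
    (by omega) (by omega)
  have a2 := T.cupSlC (!s) n n (p + n)
  have a3 := T.capSlC (!s) n n (p + n)
  rw [Bool.not_not] at a2 a3
  have a4 : T.capC n p * T.crC s n n p = T.capC n p * (T.capC n (p + n) *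
      (T.crC s n n (p + n + n) * T.cupC n (p + n + n))) := by
    rw [← mul_assoc (T.capC n (p + n)), ← a3, mul_assoc (T.capC n (p + n + n)), a2,
      ← mul_assoc (T.capC n (p + n + n)), ← mul_assoc, a1, mul_assoc, TL.zagC, mul_one]
  have b1 := (T.loc_f n).far' ((T.loc_crC s n n).mul (T.loc_cupC n)) (p + n) (p + n + n)
    (p + n + n) (by omega) (by omega)
  have b2 := (T.loc_f n).far' (T.loc_cupC n) (p + n) (p + n + n) (p + n + n) (by omega) (by omega)
  have c1 := fun q => (T.rot_f h).cap (T.loc_f n) (T.loc_f n) q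
  have d := twist_cup T h s (p + n + n)
  rw [T.rot_f h, ← mul_assoc, (T.loc_f n).natR, mul_assoc, ← T.rot_f h] at d
  rw [mul_assoc, ← (T.loc_f n).natR, ← mul_assoc, a4, mul_assoc, mul_assoc, ← b1,
    ← mul_assoc (T.capC n (p + n)), ← c1, mul_assoc (T.capC n (p + n)), d, mul_smul_comm,
    mul_smul_comm, ← mul_assoc (T.capC n (p + n)), c1, mul_assoc (T.capC n (p + n)), b2,
    ← mul_assoc (T.capC n (p + n)), TL.zagC, one_mul, c1]

/-- a product of Temperley-Lieb generators (the first entry is applied first) -/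
def eProd : List ℕ → ℕ → R
  | [], _ => 1
  | i :: w, p => eProd w p * (T.U (p + i) * T.C (p + i))

/-- the span of the words of length at most `k` on `n` strands -/
def ATwist_sp (n k : ℕ) : Submodule K (ℕ → R) := Submodule.span K
  {x : ℕ → R | ∃ w : List ℕ, w ≠ [] ∧ w.length ≤ k ∧ (∀ i ∈ w, i + 2 ≤ n) ∧ x = eProd T w}

theorem ATwist_sp_mono {n n' k k' : ℕ} (hn : n ≤ n') (hk : k ≤ k') :
    ATwist_sp T n k ≤ ATwist_sp T n' k' :=
  Submodule.span_mono fun _ ⟨w, a, b, c, d⟩ =>
    ⟨w, a, b.trans hk, fun i hi => (c i hi).trans hn, d⟩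

theorem ATwist_sp_e {n k i : ℕ} (hi : i + 2 ≤ n) {x : ℕ → R} (hx : x ∈ ATwist_sp T n k) :
    (fun p => x p * (T.U (p + i) * T.C (p + i))) ∈ ATwist_sp T n (k + 1) := by
  induction hx using Submodule.span_induction with
  | mem x hx =>
    obtain ⟨w, -, b, c, rfl⟩ := hx
    exact Submodule.subset_span ⟨i :: w, List.cons_ne_nil _ _, Nat.succ_le_succ b,
      List.forall_mem_cons.2 ⟨hi, c⟩, rfl⟩
  | zero =>
    convert (ATwist_sp T n (k + 1)).zero_mem using 1
    funext p
    simp
  | add x y _ _ hx hy =>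
    convert (ATwist_sp T n (k + 1)).add_mem hx hy using 1
    funext p
    simp [add_mul]
  | smul c x _ hx =>
    convert (ATwist_sp T n (k + 1)).smul_mem c hx using 1
    funext p
    simp

theorem ATwist_sp_sig {n k i : ℕ} (hi : i + 2 ≤ n) (s : Bool) {x : ℕ → R} {c : K}
    (hx : (fun p => x p - c • (1 : R)) ∈ ATwist_sp T n k) :
    (fun p => x p * T.sig s (p + i) - (c * zp T.a s) • (1 : R)) ∈ ATwist_sp T n (k + 1) := by
  have h1 := ATwist_sp_e T hi hx
  have h2 : eProd T [i] ∈ ATwist_sp T n (k + 1) := Submodule.subset_span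
    ⟨[i], List.cons_ne_nil _ _, Nat.succ_le_succ (Nat.zero_le k), by simpa using hi, rfl⟩
  have h3 := ATwist_sp_mono T le_rfl (Nat.le_succ k) hx
  convert add_mem (add_mem (Submodule.smul_mem _ (zp T.a s) h3)
    (Submodule.smul_mem _ (zp T.a (!s)) h1)) (Submodule.smul_mem _ (zp T.a (!s) * c) h2) using 1
  funext p
  simp only [TL.sig, eProd, Pi.add_apply, Pi.smul_apply, mul_add, sub_mul, mul_smul_comm,
    smul_mul_assoc, one_mul, mul_one]
  module

theorem ATwist_sp_left {N k n : ℕ} (hn : n + 1 ≤ N) (s : Bool) {x : ℕ → R} {c : K}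
    (hx : (fun p => x p - c • (1 : R)) ∈ ATwist_sp T N k) :
    (fun p => x p * T.crC s n 1 p - (c * zp T.a s ^ n) • (1 : R)) ∈ ATwist_sp T N (k + n) := by
  induction n with
  | zero => simpa [TL.crC_zero_left] using hx
  | succ n ih =>
    have := ATwist_sp_sig T (i := n) hn s (ih (by omega))
    rw [← add_assoc]
    simpa only [TL.hexL, TL.crC_one_one, mul_assoc, pow_succ] using this

theorem ATwist_sp_right {N k n : ℕ} (hn : n + 1 ≤ N) (s : Bool) {x : ℕ → R} {c : K}
    (hx : (fun p => x p - c • (1 : R)) ∈ ATwist_sp T N k) :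
    (fun p => x p * T.crC s 1 n p - (c * zp T.a s ^ n) • (1 : R)) ∈ ATwist_sp T N (k + n) := by
  induction n generalizing x c k with
  | zero => simpa [TL.crC] using hx
  | succ n ih =>
    have := ih (by omega) (ATwist_sp_sig T (i := n) hn s hx)
    rw [show k + (n + 1) = k + 1 + n by omega]
    simpa only [TL.hexR, TL.crC_one_one, mul_assoc, pow_succ'] using this

/-- a loop around `n` strands is the scalar `mu` modulo words in the generators -/
theorem enc_span (n : ℕ) :
    (fun p => T.C p * T.crC true n 1 (p + 1) * T.crC true 1 n (p + 1) * T.U p -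
      mu T.a n • (1 : R)) ∈ Submodule.span K
        {x : ℕ → R | ∃ w : List ℕ, w ≠ [] ∧ w.length ≤ 2 * n ∧ (∀ i ∈ w, i + 2 ≤ n) ∧
          x = eProd T w} := by
  change _ ∈ ATwist_sp T n (2 * n)
  induction n with
  | zero =>
    convert (ATwist_sp T 0 0).zero_mem using 1
    funext p
    rw [TL.crC_zero_left, TL.crC, mul_one, mul_one, T.loop, Algebra.algebraMap_eq_smul_one]
    exact sub_self _
  | succ n ih =>
    have h0 : (fun _ => (1 : R) - (1 : K) • (1 : R)) ∈ ATwist_sp T (n + 1) 0 := by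
      convert (ATwist_sp T (n + 1) 0).zero_mem using 1
      funext p
      simp
    have h1 := ATwist_sp_left T le_rfl false (ATwist_sp_right T le_rfl false h0)
    convert add_mem (Submodule.smul_mem _ (T.a ^ 2)
      (ATwist_sp_mono T (Nat.le_succ n) (by omega : 2 * n ≤ 2 * (n + 1)) ih))
      (Submodule.smul_mem _ (1 - T.a⁻¹ ^ 4)
        (ATwist_sp_mono T le_rfl (by omega : 0 + n + n ≤ 2 * (n + 1)) h1)) using 1
    funext p
    have h3 : T.C p * T.crC true (n + 1) 1 (p + 1) * T.crC true 1 (n + 1) (p + 1) * T.U p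
        = T.a ^ 2 • (T.C p * T.crC true n 1 (p + 1) * T.crC true 1 n (p + 1) * T.U p)
          + (1 - T.a⁻¹ ^ 4) • (T.crC false 1 n p * T.crC false n 1 p) := by
      rw [TL.hexL, TL.hexR, TL.crC_one_one, ← TL.jwmer_A, ← TL.jwmer_B]
      have h4 := congrArg (fun x => T.C p * T.crC true n 1 (p + 1) * x *
        (T.crC true 1 n (p + 1) * T.U p)) (T.jwmer_sq (p + 1 + n))
      simpa only [mul_add, add_mul, smul_mul_assoc, mul_smul_comm, mul_one, one_mul, mul_assoc]
        using h4
    have h5 := mul_inv_cancel₀ T.ha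
    simp only [h3, Pi.add_apply, Pi.smul_apply, one_mul, mu, zp, Bool.false_eq_true, if_false]
    match_scalars
    · ring
    · ring
    · linear_combination (-(T.a⁻¹ ^ (2 * n)) * (1 + T.a * T.a⁻¹)) * h5

end Pool.Agent.P.MP_ac4909_gt.B
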