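import Pool.Agent.P.MP_ac4909_gt.B.ADefs
import Pool.Agent.P.MP_ac4909_gt.B.ATwist
import Pool.Agent.P.MP_ac4909_gt.B.ANon

/-! The evaluation system given by the unitary models. -/

namespace Pool.Agent.P.MP_ac4909_gt.B

open Filter

section Generic
variable {K : Type} [Field K] {R : Type} [Ring R] [Algebra K R] {ι α : Type} (T : TL K R)

theorem AEv_crossR (c : Col α R) (b : α) (r l ρ : List α) :
    T.ev c (crossR b r l (ρ.map fun x => (x, false))) =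
      T.crC true (c.n b) (wid c.n ρ) (wid c.n l) := by
  induction ρ generalizing l with
  | nil => simp [crossR, TL.ev, TL.crC]
  | cons x ρ ih =>
    simp only [List.map_cons, crossR, TL.ev, ih, TL.val, TL.gval, wid_append, wid_cons, wid_nil,
      add_zero, Bool.not_false]
    rw [T.hexR]

theorem AEv_crossL (c : Col α R) (b : α) (r l ρ : List α) :
    T.ev c (crossL b r l (ρ.map fun x => (x, true))) =
      T.crC true (wid c.n ρ) (c.n b) (wid c.n l) := by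
  induction ρ generalizing l with
  | nil => simp [crossL, TL.ev, TL.crC_zero_left]
  | cons x ρ ih =>
    simp only [List.map_cons, crossL, TL.ev_append, TL.ev, ih, TL.val, TL.gval, wid_append,
      wid_cons, wid_nil, add_zero, one_mul]
    rw [T.hexL]

theorem AEv_n_no (m : ι → ℕ) : (colN T m).n Nm.no = 1 := rfl

theorem AEv_F_no (m : ι → ℕ) (p : ℕ) : (colN T m).F Nm.no p = 1 := rfl

theorem AEv_F (m : ι → ℕ) (o : Nm ι) (p : ℕ) : (colN T m).F o p = T.f ((colN T m).n o) p := by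
  obtain ⟨_ | i⟩ := o <;> rfl

theorem AEv_adm {m : ι → ℕ} (h : ∀ i, Adm T.a (m i)) (o : Nm ι) : Adm T.a ((colN T m).n o) := by
  obtain ⟨_ | i⟩ := o
  exacts [adm_one _, h i]

theorem AEv_encW (m : ι → ℕ) (l ρ r : List (Nm ι)) :
    T.ev (colN T m) (encW l ρ r) =
      T.C (wid (colN T m).n l) * T.crC true (wid (colN T m).n ρ) 1 (wid (colN T m).n l + 1) *
        T.crC true 1 (wid (colN T m).n ρ) (wid (colN T m).n l + 1) * T.U (wid (colN T m).n l) := by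
  simp only [encW, TL.ev_append, TL.ev, AEv_crossR, AEv_crossL, TL.val, TL.gval, wid_append,
    wid_cons, wid_nil, add_zero, one_mul, mul_one, AEv_n_no, AEv_F_no, TL.cupC_one, TL.capC_one,
    mul_assoc]

theorem AEv_wid_rep (m : ι → ℕ) (n : ℕ) : wid (colN T m).n (List.replicate n Nm.no) = n := by
  induction n with
  | zero => rfl
  | succ n ih => rw [List.replicate_succ, wid_cons, ih, AEv_n_no, add_comm]

theorem AEv_eW (m : ι → ℕ) (l r : List (Nm ι)) (n : ℕ) (w : List ℕ) :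
    T.ev (colN T m) (eW l n r w) = eProd T w (wid (colN T m).n l) := by
  induction w with
  | nil => rfl
  | cons i w ih =>
    unfold eW at ih ⊢
    rw [List.flatMap_cons, TL.ev_append, ih, eProd]
    simp only [TL.ev, TL.val, TL.gval, wid_append, AEv_wid_rep, one_mul, mul_one, AEv_n_no,
      AEv_F_no, TL.cupC_one, TL.capC_one]

theorem AEv_skein (m : ι → ℕ) (w₁ w₂ : List (Sl (Nm ι))) (l r : List (Nm ι)) :
    T.ev (colN T m) (w₁ ++ [⟨l, .cr Nm.no Nm.no true, r⟩] ++ w₂) =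
      T.a • T.ev (colN T m) (w₁ ++ w₂) +
        T.a⁻¹ • T.ev (colN T m) (w₁ ++ [⟨l, .cap Nm.no, r⟩, ⟨l, .cup Nm.no, r⟩] ++ w₂) := by
  simp only [TL.ev_append, TL.ev, TL.val, TL.gval, one_mul, mul_one, AEv_n_no, AEv_F_no,
    TL.crC_one_one, TL.cupC_one, TL.capC_one, TL.sig, add_mul, mul_add, smul_mul_assoc,
    mul_smul_comm, zp, Bool.not_true, if_true, Bool.false_eq_true, if_false]

theorem AEv_loop (m : ι → ℕ) (w₁ w₂ : List (Sl (Nm ι))) (l r : List (Nm ι)) :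
    T.ev (colN T m) (w₁ ++ encW l [] r ++ w₂) = dlt T.a • T.ev (colN T m) (w₁ ++ w₂) := by
  rw [TL.ev_append, TL.ev_append, TL.ev_append, AEv_encW, wid_nil, TL.crC_zero_left, TL.crC,
    mul_one, mul_one, T.loop, ← Algebra.smul_def, mul_smul_comm]

theorem AEv_mer {m : ι → ℕ} (h : ∀ i, Adm T.a (m i)) (w₁ w₂ : List (Sl (Nm ι)))
    (l r : List (Nm ι)) (i : ι) (hw : Run [] w₁ (l ++ [⟨some i⟩] ++ r)) :
    T.ev (colN T m) (w₁ ++ encW l [⟨some i⟩] r ++ w₂) =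
      mu T.a (m i) • T.ev (colN T m) (w₁ ++ w₂) := by
  rw [List.append_assoc, List.singleton_append] at hw
  have h1 := (good_colN T h).F_mul_ev hw
  have h2 : wid (colN T m).n [(⟨some i⟩ : Nm ι)] = m i := rfl
  change T.f (m i) _ * _ = _ at h1
  rw [TL.ev_append, TL.ev_append, TL.ev_append, AEv_encW, h2, ← h1, ← mul_assoc _ (T.f (m i) _),
    T.f_merid (h i), smul_mul_assoc, mul_smul_comm]

theorem AEv_curl_cup {m : ι → ℕ} (h : ∀ i, Adm T.a (m i)) (w₁ w₂ : List (Sl (Nm ι)))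
    (l r : List (Nm ι)) (o : Nm ι) (s : Bool) :
    T.ev (colN T m) (w₁ ++ [⟨l, .cup o, r⟩, ⟨l, .cr o o s, r⟩] ++ w₂) =
      twist T.a (o.val.elim 1 m) ^ (if s then -1 else 1 : ℤ) •
        T.ev (colN T m) (w₁ ++ [⟨l, .cup o, r⟩] ++ w₂) := by
  simp only [TL.ev_append, TL.ev, TL.val, TL.gval, one_mul, AEv_F]
  rw [twist_cup T (AEv_adm T h o), smul_mul_assoc, mul_smul_comm]
  rfl

theorem AEv_curl_cap {m : ι → ℕ} (h : ∀ i, Adm T.a (m i)) (w₁ w₂ : List (Sl (Nm ι)))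
    (l r : List (Nm ι)) (o : Nm ι) (s : Bool) :
    T.ev (colN T m) (w₁ ++ [⟨l, .cr o o s, r⟩, ⟨l, .cap o, r⟩] ++ w₂) =
      twist T.a (o.val.elim 1 m) ^ (if s then -1 else 1 : ℤ) •
        T.ev (colN T m) (w₁ ++ [⟨l, .cap o, r⟩] ++ w₂) := by
  simp only [TL.ev_append, TL.ev, TL.val, TL.gval, one_mul, AEv_F]
  rw [twist_cap T (AEv_adm T h o), smul_mul_assoc, mul_smul_comm]
  rfl

theorem AEv_map (m : ι → ℕ) (w : List (Sl (Option (Arc ι)))) :
    T.ev (colN T m) (w.map (Sl.map fg)) = T.ev (T.jw m) w := by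
  rw [T.ev_map, colN_comap]

/-- the loop around `n` plain strands, seen through a weighted sum of evaluations -/
theorem AEv_enc (φ : R →ₗ[K] K) (S : Finset (ι → ℕ)) (c : (ι → ℕ) → K) (n : ℕ)
    (w₁ w₂ : List (Sl (Nm ι))) (l r : List (Nm ι))
    (h : ∀ w : List ℕ, w ≠ [] → w.length ≤ 2 * n → (∀ i ∈ w, i + 2 ≤ n) →
      ∑ m ∈ S, c m * φ (T.ev (colN T m) (w₁ ++ eW l n r w ++ w₂)) = 0) :
    ∑ m ∈ S, c m * φ (T.ev (colN T m) (w₁ ++ encW l (List.replicate n Nm.no) r ++ w₂)) =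
      mu T.a n * ∑ m ∈ S, c m * φ (T.ev (colN T m) (w₁ ++ w₂)) := by
  have key : ∀ x ∈ Submodule.span K
      {x : ℕ → R | ∃ w : List ℕ, w ≠ [] ∧ w.length ≤ 2 * n ∧ (∀ i ∈ w, i + 2 ≤ n) ∧
        x = eProd T w}, ∑ m ∈ S, c m * φ (T.ev (colN T m) w₂ *
          (x (wid (colN T m).n l) * T.ev (colN T m) w₁)) = 0 := by
    intro x hx
    induction hx using Submodule.span_induction with
    | mem x hx =>
      obtain ⟨w, h1, h2, h3, rfl⟩ := hx
      rw [← h w h1 h2 h3]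
      refine Finset.sum_congr rfl fun m _ => ?_
      rw [TL.ev_append, TL.ev_append, AEv_eW]
    | zero => simp
    | add x y _ _ hx hy =>
      simp only [Pi.add_apply, add_mul, mul_add, map_add, Finset.sum_add_distrib, hx, hy, add_zero]
    | smul a x _ hx =>
      simp only [Pi.smul_apply, smul_mul_assoc, mul_smul_comm, map_smul, smul_eq_mul]
      simp only [mul_left_comm _ a, ← Finset.mul_sum, hx, mul_zero]
  have h0 := key _ (enc_span T n)
  rw [Finset.mul_sum, ← sub_eq_zero, ← Finset.sum_sub_distrib, ← h0]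
  refine Finset.sum_congr rfl fun m _ => ?_
  rw [TL.ev_append, TL.ev_append, TL.ev_append, AEv_encW, AEv_wid_rep, sub_mul, mul_sub, map_sub,
    smul_mul_assoc, one_mul, mul_smul_comm, map_smul, smul_eq_mul]
  ring

end Generic

variable {ι : Type} [Fintype ι] [DecidableEq ι]

/-- the facts on the evaluation at one level -/
structure AEv_Lvl (t : ℕ) (e : (ι → ℕ) → List (Sl (Nm ι)) → ℂ) : Prop where
  move : ∀ m w₁ u u' w₂, Move u u' → Run [] (w₁ ++ u ++ w₂) [] →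
    e m (w₁ ++ u ++ w₂) = e m (w₁ ++ u' ++ w₂)
  curl_cup : ∀ m w₁ w₂ l r o s, e m (w₁ ++ [⟨l, .cup o, r⟩, ⟨l, .cr o o s, r⟩] ++ w₂) =
    twist (aa t) (o.val.elim 1 m) ^ (if s then -1 else 1 : ℤ) * e m (w₁ ++ [⟨l, .cup o, r⟩] ++ w₂)
  curl_cap : ∀ m w₁ w₂ l r o s, e m (w₁ ++ [⟨l, .cr o o s, r⟩, ⟨l, .cap o, r⟩] ++ w₂) =
    twist (aa t) (o.val.elim 1 m) ^ (if s then -1 else 1 : ℤ) * e m (w₁ ++ [⟨l, .cap o, r⟩] ++ w₂)
  skein : ∀ m w₁ w₂ l r, e m (w₁ ++ [⟨l, .cr Nm.no Nm.no true, r⟩] ++ w₂) =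
    aa t * e m (w₁ ++ w₂) + (aa t)⁻¹ * e m (w₁ ++ [⟨l, .cap Nm.no, r⟩, ⟨l, .cup Nm.no, r⟩] ++ w₂)
  loop : ∀ m w₁ w₂ l r, e m (w₁ ++ encW l [] r ++ w₂) = dlt (aa t) * e m (w₁ ++ w₂)
  mer : ∀ m w₁ w₂ l r i, Run [] w₁ (l ++ [⟨some i⟩] ++ r) →
    e m (w₁ ++ encW l [⟨some i⟩] r ++ w₂) = mu (aa t) (m i) * e m (w₁ ++ w₂)
  enc : ∀ n w₁ w₂ l r,
    (∀ w : List ℕ, w ≠ [] → w.length ≤ 2 * n → (∀ i ∈ w, i + 2 ≤ n) →
      kirby t (fun p => e p.2 (w₁ ++ eW l n r w ++ w₂)) = 0) →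
    kirby t (fun p => e p.2 (w₁ ++ encW l (List.replicate n Nm.no) r ++ w₂)) =
      mu (aa t) n * kirby t fun p => e p.2 (w₁ ++ w₂)
  slide : ∀ w₁ w₂ l r a, Run [] w₁ (l ++ some a :: none :: r) → Run [] (w₁ ++ w₂) [] →
    IsFramedLink (erase (w₁ ++ w₂)) →
    kirby t (fun p => e p.2 ((slideW w₁ w₂ l r a).map (Sl.map fg))) =
      kirby t fun p => e p.2 ((w₁ ++ w₂).map (Sl.map fg))
  jp : 2 ≤ t → ∀ L : List (Sl (Arc ι)), IsFramedLink L → ∀ m : ι → ℕ, (∀ i, m i < 2 ^ t - 1) →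
    e m ((lift L).map (Sl.map fg)) = lev (aa t) (aa_ne t) (JP L fun i => (m i : ℤ) + 1)

theorem AEv_lvl_zero {t : ℕ} (ht : ¬ 2 ≤ t) : AEv_Lvl (ι := ι) t fun _ _ => 0 := by
  refine ⟨?_, ?_, ?_, ?_, ?_, ?_, ?_, ?_, fun h => absurd h ht⟩ <;> intros <;> simp [kirby]

theorem AEv_lvl {t : ℕ} (ht : 2 ≤ t) : ∃ e, AEv_Lvl (ι := ι) t e := by
  obtain ⟨M⟩ := exists_uModel ht
  have h4 : 4 ≤ 2 ^ t := by
    calc 4 = 2 ^ 2 := by norm_num
      _ ≤ 2 ^ t := Nat.pow_le_pow_right (by norm_num) ht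
  obtain ⟨N, hN⟩ : ∃ N, 2 ^ t - 1 = N + 1 := ⟨2 ^ t - 2, by omega⟩
  have hadm : Adm M.T.a (N + 1) := by rw [M.a_eq, ← hN]; exact adm_aa (by omega)
  have hf : ∀ p, M.T.f (N + 1) p = 0 := fun p =>
    M.f_eq_zero (norm_aa t) (by rw [← hN]; exact adm_aa (by omega))
      (by rw [← hN]; exact Dl_aa (by omega)) p
  obtain ⟨φ, hφ⟩ : ∃ φ : Module.End ℂ M.V →ₗ[ℂ] ℂ, φ 1 = 1 := by
    obtain ⟨ψ, hψ⟩ :=
      Module.Projective.exists_dual_ne_zero ℂ (one_ne_zero : (1 : Module.End ℂ M.V) ≠ 0)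
    exact ⟨(ψ 1)⁻¹ • ψ, by simp [hψ]⟩
  have hlev : ∀ c, lev M.T.a M.T.ha c = lev (aa t) (aa_ne t) c := by
    intro c; have := M.a_eq; congr 1; simp only [this]
  have hmem : ∀ m : ι → ℕ, (∀ i, m i < 2 ^ t - 1) → ∀ i, Adm M.T.a (m i) := fun m hm i =>
    hadm.mono (by have := hm i; omega)
  have hk : ∀ w : List (Sl (Nm ι)),
      kirby t (fun p : ℕ × (ι → ℕ) =>
        if ∀ i, p.2 i < 2 ^ t - 1 then φ (M.T.ev (colN M.T p.2) w) else 0) =
      ∑ m ∈ Fintype.piFinset fun _ : ι => Finset.range (N + 1),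
        (∏ i, Dl (aa t) (m i)) * φ (M.T.ev (colN M.T m) w) := fun w => by
    unfold kirby
    rw [hN]
    refine Finset.sum_congr rfl fun m hm => ?_
    dsimp only
    rw [if_pos fun i => Finset.mem_range.1 (Fintype.mem_piFinset.1 hm i)]
  have hom : ∀ w : List (Sl (Option (Arc ι))),
      ∑ m ∈ Fintype.piFinset fun _ : ι => Finset.range (N + 1),
        (∏ i, Dl (aa t) (m i)) * φ (M.T.ev (colN M.T m) (w.map (Sl.map fg))) =
      φ (M.T.om N w) := fun w => by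
    simp only [TL.om, map_sum, map_smul, smul_eq_mul, AEv_map, M.a_eq]
  refine ⟨fun m w => if ∀ i, m i < 2 ^ t - 1 then φ (M.T.ev (colN M.T m) w) else 0,
    ?_, ?_, ?_, ?_, ?_, ?_, ?_, ?_, ?_⟩
  · intro m w₁ u u' w₂ h hw
    split_ifs with hm
    · rw [(good_colN M.T (hmem m hm)).ev_move h hw]
    · rfl
  · intro m w₁ w₂ l r o s
    split_ifs with hm
    all_goals first
      | rw [mul_zero]
      | (rw [AEv_curl_cup M.T (hmem m hm), map_smul, smul_eq_mul, M.a_eq]; simp [*])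
  · intro m w₁ w₂ l r o s
    split_ifs with hm
    all_goals first
      | rw [mul_zero]
      | (rw [AEv_curl_cap M.T (hmem m hm), map_smul, smul_eq_mul, M.a_eq]; simp [*])
  · intro m w₁ w₂ l r
    split_ifs with hm
    · rw [AEv_skein, map_add, map_smul, map_smul, smul_eq_mul, smul_eq_mul, M.a_eq]
    · simp
  · intro m w₁ w₂ l r
    split_ifs with hm
    · rw [AEv_loop, map_smul, smul_eq_mul, M.a_eq]
    · simp
  · intro m w₁ w₂ l r i hw
    split_ifs with hm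
    · rw [AEv_mer M.T (hmem m hm) _ _ _ _ _ hw, map_smul, smul_eq_mul, M.a_eq]
    · simp
  · intro n w₁ w₂ l r h
    simp only [hk] at h ⊢
    rw [AEv_enc M.T φ _ _ n w₁ w₂ l r h, M.a_eq]
  · intro w₁ w₂ l r a h₁ h₂ hL
    rw [hk, hk, hom, hom]
    exact congrArg φ (M.T.om_slide hL N hadm hf ⟨w₁ ++ w₂, h₂, rfl⟩ h₁ rfl).symm
  · intro _ L hL m hm
    rw [if_pos hm, AEv_map]
    have h1 : M.T.ev (M.T.jw m) (lift L) = M.T.ev (M.T.jcA m 0 fun _ => true) L :=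
      M.T.ev_lift _ L
    rw [h1, M.T.ev_eq_JP hL m (hmem m hm), hlev, Algebra.algebraMap_eq_smul_one, map_smul, hφ,
      smul_eq_mul, mul_one]

theorem exists_evSys (ι : Type) [Fintype ι] [DecidableEq ι] :
    ∃ E : EvSys ι (ℕ × (ι → ℕ)), AFacts E := by
  have h : ∀ t, ∃ e, AEv_Lvl (ι := ι) t e := fun t => by
    by_cases ht : 2 ≤ t
    · exact AEv_lvl ht
    · exact ⟨_, AEv_lvl_zero ht⟩
  choose e he using h
  have hk : ∀ (t : ℕ) (w : List (Sl (Nm ι))),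
      kirby t (fun p : ℕ × (ι → ℕ) => e p.1 p.2 w) = kirby t fun p => e t p.2 w :=
    fun _ _ => rfl
  refine ⟨⟨fun p => e p.1 p.2, fun p o => twist (aa p.1) (o.elim 1 p.2), fun p o => ?_,
    fun p => (he p.1).move p.2, fun p w₁ w₂ l r o s _ => (he p.1).curl_cup p.2 w₁ w₂ l r o s,
    fun p w₁ w₂ l r o s _ => (he p.1).curl_cap p.2 w₁ w₂ l r o s⟩,
    fun p => (he p.1).skein p.2, fun p => (he p.1).loop p.2, fun p => (he p.1).mer p.2,
    fun t => (he t).enc, fun t => (he t).slide, fun L hL h => nonvan_JP hL fun j => ?_⟩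
  · exact mul_ne_zero (pow_ne_zero _ (neg_ne_zero.2 one_ne_zero)) (pow_ne_zero _ (aa_ne _))
  · filter_upwards [h j, eventually_ge_atTop 2] with t h₁ ht
    rw [← h₁]
    refine Finset.sum_congr rfl fun m hm => ?_
    rw [← (he t).jp ht L hL m fun i => Finset.mem_range.1 (Fintype.mem_piFinset.1 hm i)]

end Pool.Agent.P.MP_ac4909_gt.B
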