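import Pool.Agent.P.MP_ac4909_gt.B.H.All

/-! Existence of handle data. -/

namespace Pool.Agent.P.MP_ac4909_gt.B

open scoped Manifold ContDiff

theorem exists_HD (M : Type*) [TopologicalSpace M] [T2Space M] [CompactSpace M]
    [ChartedSpace E3 M] [IsManifold (𝓡 3) ∞ M] (hM : OrientedAtlas M) :
    ∃ (ι Vx : Type) (_ : Fintype ι) (_ : Fintype Vx), Nonempty (HD M ι Vx) := H.exists_HD' M hM

end Pool.Agent.P.MP_ac4909_gt.B
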