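import Pool.Agent.P.MP_ac4909_gt.B.MInit_GB

/-! Finitely many framed directions can be gathered in a sector. -/

namespace Pool.Agent.P.MP_ac4909_gt.B

open scoped ContDiff
open Set Filter Topology

/-- paths of framed directions from the given ones to the standard position in a sector -/
structure MI_Gath (G : Set E3) {I : Type} (d n : I → E3) (b u w : E3) (x : I → ℝ)
    (δ ν : I → ℝ → E3) : Prop where
  norm_b : ‖b‖ = 1
  norm_uw : ‖u‖ = ‖w‖
  bu : inner ℝ b u = 0
  bw : inner ℝ b w = 0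
  uw : inner ℝ u w = 0
  det : 0 < Matrix.det (Matrix.of ![u.ofLp, b.ofLp, w.ofLp])
  free : ∀ x z : ℝ, |x| ≤ 2 → |z| ≤ 2 → b + x • u + z • w ∉ G
  free' : -b ∉ G
  x_inj : Function.Injective x
  x_le : ∀ i, |x i| ≤ 1 / 4
  δ_smooth : ∀ i, ContDiff ℝ ∞ (δ i)
  ν_smooth : ∀ i, ContDiff ℝ ∞ (ν i)
  δ_norm : ∀ i m, ‖δ i m‖ = 1
  δ_zero : ∀ i, δ i 0 = ‖d i‖⁻¹ • d i
  ν_zero : ∀ i, ν i 0 = ‖d i‖⁻¹ • n i
  δ_one : ∀ i, δ i 1 = ‖b + x i • u‖⁻¹ • (b + x i • u)
  ν_one : ∀ i, ν i 1 = ‖b + x i • u‖⁻¹ • w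
  δ_off : ∀ i m, δ i m ∉ G
  δ_ne : ∀ i i' m, δ i m = δ i' m → i = i'
  indep : ∀ i m (r : ℝ), LinearIndependent ℝ ![δ i m + r • deriv (δ i) m, ν i m]

theorem MI_exists_mu {I : Type} [Finite I] (c a : I → ℝ) {κ : ℝ} (hκ : 0 < κ) :
    ∃ μ : ℝ, ∀ i, 0 < c i + μ ∧ a i ≤ κ * (c i + μ) := by
  have h : ∀ i, ∀ᶠ μ : ℝ in atTop, 0 < c i + μ ∧ a i ≤ κ * (c i + μ) := by
    intro i
    filter_upwards [eventually_gt_atTop (-c i), eventually_ge_atTop (a i / κ - c i)] with μ h1 h2
    refine ⟨by linarith, ?_⟩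
    rw [← div_le_iff₀' hκ]
    linarith
  exact (eventually_all.2 h).exists

theorem MI_gather {G F : Set E3} (hGc : IsClosed G) (hF : F.Finite)
    (hG : ∀ p ∈ G, p = 0 ∨ ∃ f ∈ F, ∃ a : ℝ, p = a • f)
    (hcone : ∀ p (a : ℝ), 0 < a → a • p ∈ G → p ∈ G) {I : Type} [Finite I] {d n : I → E3}
    (hd : ∀ i, d i ∉ G) (hn : ∀ i, LinearIndependent ℝ ![d i, n i])
    (hne : ∀ i i' (a : ℝ), 0 < a → d i = a • d i' → i = i') :
    ∃ b u w x δ ν, MI_Gath G d n b u w x δ ν := by
  obtain ⟨b, hb1, hb⟩ := MI_exists_b (F ∪ range d) (hF.union (finite_range d))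
  have hbd : ∀ i i', b ∉ Submodule.span ℝ ({d i, d i'} : Set E3) := fun i i' =>
    hb _ (Or.inr ⟨i, rfl⟩) _ (Or.inr ⟨i', rfl⟩)
  have hA : ∀ i (μ : ℝ), d i + μ • b ∉ G := fun i =>
    MI_not_mem hG (hd i) (hbd i i) fun f hf => hb _ (Or.inr ⟨i, rfl⟩) _ (Or.inl hf)
  have hB : ∀ i i' (μ l : ℝ), 0 < l → d i + μ • b = l • (d i' + μ • b) → i = i' := by
    intro i i' μ l hl h
    by_contra hii
    exact MI_no_prop (hbd i i') (fun a ha e => hii (hne i i' a ha e)) μ hl h
  have hb0 : b ≠ 0 := by rintro rfl; simp at hb1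
  have hsb : ∀ σ : ℝ, σ ≠ 0 → σ • b ∉ G := by
    intro σ hσ h
    rcases hG _ h with h1 | ⟨f, hf, a, h1⟩
    · exact smul_ne_zero hσ hb0 h1
    · apply hb f (Or.inl hf) f (Or.inl hf)
      have : b = σ⁻¹ • a • f := by rw [← h1, smul_smul, inv_mul_cancel₀ hσ, one_smul]
      rw [this]
      exact Submodule.smul_mem _ _ (Submodule.smul_mem _ _ (Submodule.subset_span (by simp)))
  obtain ⟨r, hr, hball⟩ := Metric.isOpen_iff.1 hGc.isOpen_compl b
    (by simpa using hsb 1 one_ne_zero)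
  set κ : ℝ := r / 5 with hκ
  have hκ0 : 0 < κ := by positivity
  have hbb : inner ℝ b b = (1 : ℝ) := by rw [real_inner_self_eq_norm_sq, hb1]; norm_num
  obtain ⟨μ, hμ⟩ := MI_exists_mu (fun i => inner ℝ b (d i))
    (fun i => ‖d i - inner ℝ b (d i) • b‖) (κ := κ / 4) (by positivity)
  set C : I → ℝ := fun i => inner ℝ b (d i) + μ with hC
  have hC0 : ∀ i, 0 < C i := fun i => (hμ i).1
  set y : I → E3 := fun i => (C i)⁻¹ • (d i - inner ℝ b (d i) • b) with hy
  have hdy : ∀ i, d i + μ • b = C i • (b + y i) := by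
    intro i
    rw [smul_add, hy, smul_smul, mul_inv_cancel₀ (hC0 i).ne', one_smul]
    simp only [hC]
    module
  have hby : ∀ i, inner ℝ b (y i) = (0 : ℝ) := by
    intro i
    simp only [hy, inner_smul_right, inner_sub_right, hbb]
    ring
  have hyn : ∀ i, ‖y i‖ ≤ κ / 4 := by
    intro i
    simp only [hy]
    rw [norm_smul, Real.norm_of_nonneg (inv_pos.2 (hC0 i)).le, inv_mul_le_iff₀ (hC0 i), mul_comm]
    exact (hμ i).2
  have hy0 : ∀ i, y i ≠ 0 := by
    intro i h
    have e := hdy i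
    rw [h, add_zero] at e
    have e' : d i = (C i - μ) • b := by linear_combination (norm := module) e
    have hd0 : d i ≠ 0 := by simpa using (hn i).ne_zero 0
    have h1 : C i - μ ≠ 0 := by
      intro h1
      rw [h1, zero_smul] at e'
      exact hd0 e'
    apply hbd i i
    have : b = (C i - μ)⁻¹ • d i := by rw [e', smul_smul, inv_mul_cancel₀ h1, one_smul]
    rw [this]
    exact Submodule.smul_mem _ _ (Submodule.subset_span (by simp))
  have hyi : ∀ i i', y i = y i' → i = i' := by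
    intro i i' h
    refine hB i i' μ (C i * (C i')⁻¹) (mul_pos (hC0 i) (inv_pos.2 (hC0 i'))) ?_
    rw [hdy, hdy, h, smul_smul, mul_assoc, inv_mul_cancel₀ (hC0 i').ne', mul_one]
  obtain ⟨u, hu1, hbu, hu⟩ := MI_exists_u hb1
    (range y ∪ {h | h ≠ 0 ∧ h ∈ range fun p : I × I => y p.1 - y p.2})
    ((finite_range y).union ((finite_range _).subset fun h hh => hh.2))
    (by rintro h (⟨i, rfl⟩ | hh); exacts [hy0 i, hh.1])
    (by
      rintro h (⟨i, rfl⟩ | ⟨-, p, rfl⟩)
      · exact hby i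
      · simp only [inner_sub_right, hby, sub_self])
  obtain ⟨w, hFr⟩ := MI_exists_w hb1 hu1 hbu
  have huu : inner ℝ u u = (1 : ℝ) := by rw [real_inner_self_eq_norm_sq, hu1]; norm_num
  have hww : inner ℝ w w = (1 : ℝ) := by rw [real_inner_self_eq_norm_sq, hFr.nw]; norm_num
  have hub : inner ℝ u b = (0 : ℝ) := by rw [real_inner_comm]; exact hbu
  have hwb : inner ℝ w b = (0 : ℝ) := by rw [real_inner_comm]; exact hFr.bw
  have hwu : inner ℝ w u = (0 : ℝ) := by rw [real_inner_comm]; exact hFr.uw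
  set x : I → ℝ := fun i => inner ℝ u (y i) / κ with hx
  set z : I → ℝ := fun i => inner ℝ w (y i) / κ with hz
  have hyr : ∀ i, y i = x i • κ • u + z i • κ • w := by
    intro i
    have := hFr.repr (y i)
    rw [hby, zero_smul, zero_add] at this
    rw [smul_smul, smul_smul, hx, hz, div_mul_cancel₀ _ hκ0.ne', div_mul_cancel₀ _ hκ0.ne']
    exact this
  have hle : ∀ a : E3, ‖a‖ = 1 → ∀ i, |inner ℝ a (y i) / κ| ≤ 1 / 4 := by
    intro a ha i
    rw [abs_div, abs_of_pos hκ0, div_le_iff₀ hκ0]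
    have := abs_real_inner_le_norm a (y i)
    rw [ha, one_mul] at this
    linarith [hyn i]
  have hx0 : ∀ i, x i ≠ 0 := fun i => div_ne_zero (hu _ (Or.inl ⟨i, rfl⟩)) hκ0.ne'
  have hxi : Function.Injective x := by
    intro i i' h
    by_contra hii
    refine hu (y i - y i') (Or.inr ⟨fun e => hii (hyi i i' (sub_eq_zero.1 e)), (i, i'), rfl⟩) ?_
    rw [inner_sub_right, sub_eq_zero]
    exact (div_left_inj' hκ0.ne').1 h
  have hfree : ∀ x z : ℝ, |x| ≤ 2 → |z| ≤ 2 → b + x • κ • u + z • κ • w ∉ G := by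
    intro x z h1 h2
    apply hball
    rw [mem_ball_iff_norm, add_assoc, add_sub_cancel_left]
    refine (norm_add_le _ _).trans_lt ?_
    rw [norm_smul, norm_smul, norm_smul, norm_smul, hu1, hFr.nw, Real.norm_of_nonneg hκ0.le,
      Real.norm_eq_abs, Real.norm_eq_abs]
    nlinarith
  set q : I → ℝ → E3 := fun i m => d i + (μ * Real.smoothTransition (3 * m - 1)) • b -
    (Real.smoothTransition (3 * m - 2) * (C i * z i * κ)) • w with hq
  have hqs : ∀ i, ContDiff ℝ ∞ (q i) := by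
    intro i
    have h3 : ∀ a : ℝ, ContDiff ℝ ∞ fun m : ℝ => Real.smoothTransition (3 * m - a) := fun a =>
      Real.smoothTransition.contDiff.comp ((contDiff_const.mul contDiff_id).sub contDiff_const)
    exact (contDiff_const.add ((contDiff_const.mul (h3 1)).smul contDiff_const)).sub
      (((h3 2).mul contDiff_const).smul contDiff_const)
  have hq1 : ∀ i m, m ≤ 2 / 3 → q i m = d i + (μ * Real.smoothTransition (3 * m - 1)) • b := by
    intro i m hm
    simp only [hq]
    rw [Real.smoothTransition.zero_of_nonpos (x := 3 * m - 2) (by linarith)]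
    simp
  have hq2 : ∀ i m, 2 / 3 ≤ m → q i m = C i • (b + x i • κ • u +
      ((1 - Real.smoothTransition (3 * m - 2)) * z i) • κ • w) := by
    intro i m hm
    simp only [hq]
    rw [Real.smoothTransition.one_of_one_le (x := 3 * m - 1) (by linarith), mul_one, hdy, hyr]
    module
  have hq0 : ∀ i m, m < 1 / 3 → q i m = d i := by
    intro i m hm
    rw [hq1 i m (by linarith), Real.smoothTransition.zero_of_nonpos (by linarith)]
    simp
  have hq3 : ∀ i, q i 1 = C i • (b + x i • κ • u) := by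
    intro i
    rw [hq2 i 1 (by norm_num), Real.smoothTransition.one_of_one_le (by norm_num)]
    simp
  have hud : ∀ i, inner ℝ u (d i) = C i * (x i * κ) := by
    intro i
    have := congrArg (inner ℝ u) (hdy i)
    rw [hyr] at this
    simpa only [inner_add_right, inner_smul_right, hub, huu, hFr.uw, mul_zero, add_zero,
      zero_add, mul_one] using this
  have huq : ∀ i m, inner ℝ u (q i m) = C i * (x i * κ) := by
    intro i m
    simp only [hq, inner_sub_right, inner_add_right, inner_smul_right, hub, hFr.uw, hud]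
    ring
  have huq' : ∀ i m, inner ℝ u (q i m) ≠ 0 := fun i m => by
    rw [huq]
    exact mul_ne_zero (hC0 i).ne' (mul_ne_zero (hx0 i) hκ0.ne')
  have hqne : ∀ i m, q i m ≠ 0 := fun i m h => huq' i m (by rw [h, inner_zero_right])
  have hN : ∀ i, 0 < ‖b + x i • κ • u‖ := by
    intro i
    refine norm_pos_iff.2 fun h => hqne i 1 ?_
    rw [hq3, h, smul_zero]
  have hP := fun i => MI_path hFr (hqs i) (huq' i)
    (fun m hm => by rw [hq0 i m hm, hq0 i 0 (by norm_num)])
    (by rw [hq3]; simp only [inner_add_right, inner_smul_right, hwb, hwu]; ring)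
    (n := n i) (by rw [hq0 i 0 (by norm_num)]; exact hn i)
    (c := ‖b + x i • κ • u‖⁻¹ * κ) (mul_pos (inv_pos.2 (hN i)) hκ0)
  choose ν hν hν0 hν1 hνi using hP
  refine ⟨b, κ • u, κ • w, x, fun i m => MI_un (q i m), ν, hb1, ?_, ?_, ?_, ?_, ?_, hfree, ?_,
    hxi, hle u hu1, fun i => MI_un_contDiff (hqs i) (hqne i), hν,
    fun i m => MI_norm_un (hqne i m), fun i => ?_, fun i => ?_, fun i => ?_, fun i => ?_,
    fun i m h => ?_, fun i i' m h => ?_, hνi⟩
  · rw [norm_smul, norm_smul, hu1, hFr.nw]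
  · rw [inner_smul_right, hbu, mul_zero]
  · rw [inner_smul_right, hFr.bw, mul_zero]
  · rw [inner_smul_right, real_inner_smul_left, hFr.uw, mul_zero, mul_zero]
  · have h := hFr.det
    rw [Matrix.det_fin_three] at h ⊢
    simp only [Matrix.of_apply, Matrix.cons_val', Matrix.cons_val_zero, Matrix.cons_val_one,
      Matrix.cons_val_two, Matrix.cons_val_fin_one, Matrix.tail_cons,
      Matrix.empty_val', Matrix.head_fin_const, WithLp.ofLp_smul, Pi.smul_apply,
      smul_eq_mul] at h ⊢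
    have : 0 < κ * κ := by positivity
    convert this using 1
    linear_combination (κ * κ) * h
  · simpa using hsb (-1) (by norm_num)
  · rw [hq0 i 0 (by norm_num), MI_un]
  · rw [hν0, hq0 i 0 (by norm_num)]
  · rw [hq3, MI_un_smul (hC0 i), MI_un]
  · rw [hν1, mul_smul]
  · have h' := hcone _ _ (inv_pos.2 (norm_pos_iff.2 (hqne i m))) h
    rcases le_total m (2 / 3) with hm | hm
    · rw [hq1 i m hm] at h'
      exact hA i _ h'
    · rw [hq2 i m hm] at h'
      refine hfree _ _ ((hle u hu1 i).trans (by norm_num)) ?_ (hcone _ _ (hC0 i) h')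
      have h1 := Real.smoothTransition.nonneg (3 * m - 2)
      have h2 := Real.smoothTransition.le_one (3 * m - 2)
      have h3 : |z i| ≤ 1 / 4 := hle w hFr.nw i
      rw [abs_mul, abs_of_nonneg (by linarith)]
      nlinarith [abs_nonneg (z i)]
  · obtain ⟨a, ha, e⟩ := MI_un_eq (hqne i m) (hqne i' m) h
    rcases le_total m (2 / 3) with hm | hm
    · rw [hq1 i m hm, hq1 i' m hm] at e
      exact hB i i' _ a ha e
    · have e1 := congrArg (inner ℝ u) e
      rw [inner_smul_right, huq, huq] at e1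
      rw [hq2 i m hm, hq2 i' m hm] at e
      have e2 := congrArg (inner ℝ b) e
      simp only [inner_add_right, inner_smul_right, hbb, hbu, hFr.bw, mul_zero, add_zero,
        mul_one] at e2
      apply hxi
      rw [← mul_assoc a, ← e2] at e1
      exact mul_right_cancel₀ hκ0.ne' (mul_left_cancel₀ (hC0 i).ne' e1)

end Pool.Agent.P.MP_ac4909_gt.B
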