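import Pool.Agent.P.MP_ac4909_gt.B.GB_Col

/-! Layer G, blocks: the crossing and its smoothings. -/

namespace Pool.Agent.P.MP_ac4909_gt.B

open scoped ContDiff
open Set Filter Topology

variable (ι : Type)

/-- the sign of a side -/
def gdiag_sg (s : Bool) : ℝ := if s then 1 else -1

/-- two strands that end on the four collars of `dcol` -/
structure gdiag_Data where
  g : Bool → ℝ → E3
  e : Bool → Bool → Fin 2 × Bool
  sj : Fin 2 × Bool → Bool
  sd : Fin 2 × Bool → Bool
  i : Fin 3
  e_inv : ∀ b, e (sj b) (sd b) = b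
  sj_e : ∀ j s, sj (e j s) = j
  sd_e : ∀ j s, sd (e j s) = s
  cont : ∀ j, Continuous (g j)
  ray : ∀ j s y, 1 / 2 ≤ y → g j (gdiag_sg s * y) = (dcol ι).cl (e j s) y
  i_ne : i ≠ 2
  mono : ∀ j, StrictMono fun t => g j t i
  sep : ∃ k, Sep k (range (g false)) (range (g true)) ∨ Sep k (range (g true)) (range (g false))
  box : ∀ j t, |t| ≤ 1 / 2 → ∀ k, |g j t k| ≤ 3 / 4
  zlo : ∀ b b', (dcol ι).ζ b < (dcol ι).ζ b' → g (sj b) 0 2 < (dcol ι).ζ b'
  zhi : ∀ b b', (dcol ι).ζ b < (dcol ι).ζ b' → (dcol ι).ζ b < g (sj b') 0 2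
  sortY : g false 0 1 ≤ g true 0 1

namespace gdiag_Data

variable {ι} (D : gdiag_Data ι)

/-- the subdivision: four boundary columns, two inner rows, four virtual rows -/
noncomputable def conf : Conf (((Fin 2 × Bool) ⊕ Bool) ⊕ Fin 2 × Bool) where
  col a := match a with
    | .inl (.inl _) => true
    | _ => false
  nb a s := match a, s with
    | .inl (.inl b), false => .inr b
    | .inl (.inl b), true => .inl (.inr (D.sj b))
    | .inl (.inr j), s => .inl (.inl (D.e j s))
    | .inr b, _ => .inl (.inl b)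
  pt a := match a with
    | .inl (.inl b) => (dcol ι).cl b (1 / 2)
    | .inl (.inr j) => D.g j 0
    | .inr b => (dcol ι).cl b 1
  arc a a' := match a, a' with
    | .inl (.inl _), .inr b => (dcol ι).cl b '' Ici (1 / 2)
    | .inr b, .inl (.inl _) => (dcol ι).cl b '' Ici (1 / 2)
    | .inl (.inl b), .inl (.inr j) => (fun y => D.g j (gdiag_sg (D.sd b) * y)) '' Icc 0 (1 / 2)
    | .inl (.inr j), .inl (.inl b) => (fun y => D.g j (gdiag_sg (D.sd b) * y)) '' Icc 0 (1 / 2)
    | _, _ => ∅

theorem ray' (b : Fin 2 × Bool) {y : ℝ} (hy : 1 / 2 ≤ y) :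
    (dcol ι).cl b y = D.g (D.sj b) (gdiag_sg (D.sd b) * y) := by
  rw [D.ray _ _ _ hy, D.e_inv]

theorem inj (j : Bool) : Function.Injective (D.g j) := fun s t h =>
  (D.mono j).injective (by simp only [h])

theorem injOn (j : Bool) : InjOn (fun p : E3 => p D.i) (range (D.g j)) := by
  rintro _ ⟨s, rfl⟩ _ ⟨t, rfl⟩ h
  rw [(D.mono j).injective h]

theorem ray_sub (b : Fin 2 × Bool) : (dcol ι).cl b '' Ici (1 / 2) ⊆ range (D.g (D.sj b)) := by
  rintro _ ⟨y, hy, rfl⟩
  exact ⟨_, (D.ray' b hy).symm⟩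

theorem star_col (b : Fin 2 × Bool) : D.conf.star (.inl (.inl b)) ⊆ range (D.g (D.sj b)) := by
  rintro p (hp | ⟨y, -, rfl⟩)
  · exact D.ray_sub b hp
  · exact ⟨_, rfl⟩

theorem star_row (j : Bool) : D.conf.star (.inl (.inr j)) ⊆ range (D.g j) := by
  rintro p (⟨y, -, rfl⟩ | ⟨y, -, rfl⟩) <;> exact ⟨_, rfl⟩

theorem star_inr (b : Fin 2 × Bool) : D.conf.star (.inr b) ⊆ range (D.g (D.sj b)) := by
  rintro p (hp | hp) <;> exact D.ray_sub b hp

theorem win_col (b : Fin 2 × Bool) : D.conf.win (.inl (.inl b)) ⊆ range (D.g (D.sj b)) := by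
  rintro p (hp | hp)
  · exact D.star_inr b hp
  · exact D.star_row _ hp

theorem win_row (j : Bool) : D.conf.win (.inl (.inr j)) ⊆ range (D.g j) := by
  rintro p (hp | hp)
  · have := D.star_col _ hp
    rwa [D.sj_e] at this
  · have := D.star_col _ hp
    rwa [D.sj_e] at this

theorem mem_star (j : Bool) (t : ℝ) : ∃ b, D.g j t ∈ D.conf.star (.inl (.inl b)) := by
  have key : ∀ s y, 0 ≤ y → D.g j (gdiag_sg s * y) ∈ D.conf.star (.inl (.inl (D.e j s))) := by
    intro s y hy
    rcases le_total y (1 / 2) with h | h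
    · refine Or.inr ⟨y, ⟨hy, h⟩, ?_⟩
      simp only [D.sj_e, D.sd_e]
    · exact Or.inl ⟨y, h, (D.ray j s y h).symm⟩
  rcases le_total 0 t with h | h
  · refine ⟨D.e j true, ?_⟩
    simpa [gdiag_sg] using key true t h
  · refine ⟨D.e j false, ?_⟩
    simpa [gdiag_sg] using key false (-t) (by linarith)

theorem isArc_half (j s : Bool) :
    IsArc ((fun y => D.g j (gdiag_sg s * y)) '' Icc 0 (1 / 2)) (D.g j 0)
      (D.g j (gdiag_sg s * (1 / 2))) := by
  refine ⟨fun u => D.g j (gdiag_sg s * (u / 2)),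
    ((D.cont j).comp (by fun_prop)).continuousOn, fun u _ v _ h => ?_, by simp, rfl, ?_⟩
  · have := D.inj j h
    cases s <;> simp [gdiag_sg] at this <;> linarith
  · ext p
    constructor
    · rintro ⟨y, hy, rfl⟩
      exact ⟨2 * y, ⟨by linarith [hy.1], by linarith [hy.2]⟩, by simp⟩
    · rintro ⟨u, hu, rfl⟩
      exact ⟨u / 2, ⟨by linarith [hu.1], by linarith [hu.2]⟩, rfl⟩

theorem isArc_half' (j s : Bool) :
    IsArc ((fun y => D.g j (gdiag_sg s * y)) '' Icc 0 (1 / 2))
      (D.g j (gdiag_sg s * (1 / 2))) (D.g j 0) := by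
  refine ⟨fun u => D.g j (gdiag_sg s * ((1 - u) / 2)),
    ((D.cont j).comp (by fun_prop)).continuousOn, fun u _ v _ h => ?_, by simp, by simp, ?_⟩
  · have := D.inj j h
    cases s <;> simp [gdiag_sg] at this <;> linarith
  · ext p
    constructor
    · rintro ⟨y, hy, rfl⟩
      refine ⟨1 - 2 * y, ⟨by linarith [hy.2], by linarith [hy.1]⟩, ?_⟩
      simp
    · rintro ⟨u, hu, rfl⟩
      exact ⟨(1 - u) / 2, ⟨by linarith [hu.2], by linarith [hu.1]⟩, rfl⟩

theorem box_half (j s : Bool) :
    ∀ p ∈ (fun y => D.g j (gdiag_sg s * y)) '' Icc 0 (1 / 2), ∀ k, |p k| ≤ 3 / 4 := by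
  rintro _ ⟨y, hy, rfl⟩
  refine D.box j _ ?_
  cases s <;> simp [gdiag_sg, abs_le] <;> constructor <;> linarith [hy.1, hy.2]

theorem sep_of_ne {j j' : Bool} (h : j ≠ j') {A B : Set E3} (hA : A ⊆ range (D.g j))
    (hB : B ⊆ range (D.g j')) : ∃ k, Sep k A B ∨ Sep k B A := by
  obtain ⟨k, hk⟩ := D.sep
  refine ⟨k, ?_⟩
  cases j <;> cases j'
  · exact absurd rfl h
  · exact hk.imp (fun H p hp q hq => H p (hA hp) q (hB hq)) fun H p hp q hq =>
      H p (hB hp) q (hA hq)
  · exact hk.symm.imp (fun H p hp q hq => H p (hA hp) q (hB hq)) fun H p hp q hq =>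
      H p (hB hp) q (hA hq)
  · exact absurd rfl h

theorem mono_row (j : Bool) : D.conf.Mono D.i (.inl (.inr j)) false where
  inj := (D.injOn j).mono (D.win_row j)
  lo₂ t ht := by
    cases t
    · change (dcol ι).cl (D.e j false) 1 D.i < (dcol ι).cl (D.e j false) (1 / 2) D.i
      rw [← D.ray j false 1 (by norm_num), ← D.ray j false (1 / 2) le_rfl]
      exact D.mono j (by norm_num [gdiag_sg])
    · exact absurd (by simp [conf, D.sj_e]) ht
  lo₁ := by
    change (dcol ι).cl (D.e j false) (1 / 2) D.i < D.g j 0 D.i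
    rw [← D.ray j false (1 / 2) le_rfl]
    exact D.mono j (by norm_num [gdiag_sg])
  hi₁ := by
    change D.g j 0 D.i < (dcol ι).cl (D.e j true) (1 / 2) D.i
    rw [← D.ray j true (1 / 2) le_rfl]
    exact D.mono j (by norm_num [gdiag_sg])
  hi₂ t ht := by
    cases t
    · change (dcol ι).cl (D.e j true) (1 / 2) D.i < (dcol ι).cl (D.e j true) 1 D.i
      rw [← D.ray j true 1 (by norm_num), ← D.ray j true (1 / 2) le_rfl]
      exact D.mono j (by norm_num [gdiag_sg])
    · exact absurd (by simp [conf, D.sj_e]) ht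

theorem mono_col_false (j : Bool) : D.conf.Mono D.i (.inl (.inl (D.e j false))) false where
  inj := (D.injOn _).mono (D.win_col _)
  lo₂ _ ht := absurd rfl ht
  lo₁ := by
    change (dcol ι).cl (D.e j false) 1 D.i < (dcol ι).cl (D.e j false) (1 / 2) D.i
    rw [← D.ray j false 1 (by norm_num), ← D.ray j false (1 / 2) le_rfl]
    exact D.mono j (by norm_num [gdiag_sg])
  hi₁ := by
    change (dcol ι).cl (D.e j false) (1 / 2) D.i < D.g (D.sj (D.e j false)) 0 D.i
    rw [D.sj_e, ← D.ray j false (1 / 2) le_rfl]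
    exact D.mono j (by norm_num [gdiag_sg])
  hi₂ t ht := by
    cases t
    · exact absurd (by simp [conf, D.sj_e]) ht
    · change D.g (D.sj (D.e j false)) 0 D.i <
        (dcol ι).cl (D.e (D.sj (D.e j false)) true) (1 / 2) D.i
      rw [D.sj_e, ← D.ray j true (1 / 2) le_rfl]
      exact D.mono j (by norm_num [gdiag_sg])

theorem mono_col_true (j : Bool) : D.conf.Mono D.i (.inl (.inl (D.e j true))) true where
  inj := (D.injOn _).mono (D.win_col _)
  lo₂ t ht := by
    cases t
    · change (dcol ι).cl (D.e (D.sj (D.e j true)) false) (1 / 2) D.i <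
        D.g (D.sj (D.e j true)) 0 D.i
      rw [D.sj_e, ← D.ray j false (1 / 2) le_rfl]
      exact D.mono j (by norm_num [gdiag_sg])
    · exact absurd (by simp [conf, D.sj_e]) ht
  lo₁ := by
    change D.g (D.sj (D.e j true)) 0 D.i < (dcol ι).cl (D.e j true) (1 / 2) D.i
    rw [D.sj_e, ← D.ray j true (1 / 2) le_rfl]
    exact D.mono j (by norm_num [gdiag_sg])
  hi₁ := by
    change (dcol ι).cl (D.e j true) (1 / 2) D.i < (dcol ι).cl (D.e j true) 1 D.i
    rw [← D.ray j true 1 (by norm_num), ← D.ray j true (1 / 2) le_rfl]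
    exact D.mono j (by norm_num [gdiag_sg])
  hi₂ _ ht := absurd rfl ht

theorem far_ne {a a' : (Fin 2 × Bool) ⊕ Bool} (h : D.conf.Far (.inl a) (.inl a')) :
    Sum.elim D.sj id a ≠ Sum.elim D.sj id a' := by
  obtain ⟨h₁, h₂, h₃⟩ := h
  intro H
  rcases a with b | j <;> rcases a' with b' | j' <;> simp only [Sum.elim_inl, Sum.elim_inr, id] at H
  · exact h₃ true true (by simp [conf, H])
  · exact h₂ true (by simp [conf, H])
  · exact h₂ (D.sd b') (by simp [conf, H, D.e_inv])
  · exact h₁ (by rw [H])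

theorem star_sub (a : (Fin 2 × Bool) ⊕ Bool) :
    D.conf.star (.inl a) ⊆ range (D.g (Sum.elim D.sj id a)) := by
  rcases a with b | j
  · exact D.star_col b
  · exact D.star_row j

/-- the content drawn by the two strands -/
noncomputable def ct : Content (dcol ι) ((Fin 2 × Bool) ⊕ Bool) where
  C := D.conf
  bc := .inl
  lv _ := 1 / 2
  lb _ := none
  Xb := [.inl (0, false), .inl (0, true), .inl (1, false), .inl (1, true)]
  Yb := [.inr false, .inr true]
  lv_pos _ := by norm_num
  lv_le _ := by norm_num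
  col_inr _ := rfl
  nb_inr _ _ := rfl
  nb_eq_inr a s b := by
    rcases a with b' | j <;> cases s <;> simp [conf]
  col_nb a s := by
    rcases a with b' | j <;> cases s <;> rfl
  nb_ne a := by
    rcases a with b' | j
    · simp [conf]
    · intro h
      have h' : D.e j false = D.e j true := by simpa [conf] using h
      have := congrArg D.sd h'
      simp [D.sd_e] at this
  adj_symm a s := by
    rcases a with b' | j
    · cases s
      · exact ⟨false, rfl⟩
      · exact ⟨D.sd b', by simp [conf, D.e_inv]⟩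
    · exact ⟨true, by simp [conf, D.sj_e]⟩
  pt_bc _ := rfl
  pt_inr _ := rfl
  arc_bc _ := rfl
  arc_symm a s := by
    rcases a with b' | j <;> cases s <;> rfl
  isArc a s a' h := by
    rcases a with b' | j
    · cases s
      · simp [conf] at h
      · obtain rfl : Sum.inr (D.sj b') = a' := by simpa [conf] using h
        have := D.isArc_half' (D.sj b') (D.sd b')
        rwa [← D.ray' b' le_rfl] at this
    · obtain rfl : Sum.inl (D.e j s) = a' := by simpa [conf] using h
      have := D.isArc_half j (D.sd (D.e j s))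
      rw [D.ray j _ _ le_rfl] at this
      simpa only [conf, D.sd_e] using this
  box a s a' h := by
    rcases a with b' | j
    · cases s
      · simp [conf] at h
      · obtain rfl : Sum.inr (D.sj b') = a' := by simpa [conf] using h
        exact D.box_half _ _
    · obtain rfl : Sum.inl (D.e j s) = a' := by simpa [conf] using h
      exact D.box_half _ _
  sep a a' h := D.sep_of_ne (D.far_ne h) (D.star_sub a) (D.star_sub a')
  mono a := by
    rcases a with b | j
    · rw [← D.e_inv b]
      cases D.sd b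
      · exact ⟨D.i, false, D.i_ne, D.mono_col_false _⟩
      · exact ⟨D.i, true, D.i_ne, D.mono_col_true _⟩
    · exact ⟨D.i, false, D.i_ne, D.mono_row j⟩
  zr b b' _ h := ⟨D.zlo b b' h, D.zhi b b' h⟩
  lb_nb _ _ _ _ := rfl
  lb_bc _ := rfl
  nodupX := by decide
  nodupY := by decide
  memX a := by
    rcases a with ⟨k, σ⟩ | j
    · fin_cases k <;> cases σ <;> simp [conf]
    · simp [conf]
  memY a := by
    rcases a with b | j
    · simp [conf]
    · cases j <;> simp [conf]
  sortX := by
    simp [conf, dcol]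
    norm_num
  sortY := by
    simpa [conf] using D.sortY
  subX σ := by
    cases σ <;> decide

theorem pic_eq : D.ct.pic = nn (range (D.g false) ∪ range (D.g true)) := by
  ext ⟨o, p⟩
  constructor
  · rintro ⟨a, ha, ho⟩
    refine ⟨ho, ?_⟩
    have := D.star_sub a ha
    cases h : Sum.elim D.sj id a <;> rw [h] at this
    · exact Or.inl this
    · exact Or.inr this
  · rintro ⟨ho, ⟨t, rfl⟩ | ⟨t, rfl⟩⟩
    · obtain ⟨b, hb⟩ := D.mem_star false t
      exact ⟨.inl b, hb, ho⟩
    · obtain ⟨b, hb⟩ := D.mem_star true t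
      exact ⟨.inl b, hb, ho⟩

theorem hasContent {A : Set E3} (hA : A = range (D.g false) ∪ range (D.g true))
    {w : List (Sl (Nm ι))} (hw : D.ct.word = w) : HasContent (dcol ι) (nn A) w :=
  ⟨_, inferInstance, inferInstance, D.ct, fun y _ => by rw [D.pic_eq, hA], hw⟩

end gdiag_Data

theorem gdiag_st_zero : st 0 = 0 := by
  have := st_neg 0
  rw [neg_zero] at this
  linarith

theorem gdiag_st_sg (s : Bool) {y : ℝ} (hy : 1 / 2 ≤ y) : st (gdiag_sg s * y) = gdiag_sg s := by
  cases s
  · simpa [gdiag_sg] using st_of_le (t := -y) (by linarith)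
  · simpa [gdiag_sg] using st_of_ge hy

theorem gdiag_sab_sg (s : Bool) {y : ℝ} (hy : 1 / 2 ≤ y) : sab (gdiag_sg s * y) = y := by
  have h : |gdiag_sg s * y| = y := by
    cases s <;> simp [gdiag_sg, abs_of_nonneg (by linarith : 0 ≤ y)]
  rw [sab_of_le_abs (by rw [h]; exact hy), h]

/-- the crossing; the first strand is the upper one -/
noncomputable def gdiag_cr : gdiag_Data ι where
  g j := match j with
    | false => fun t => !₂[t / 2, t, 1 / 2]
    | true => fun t => !₂[-t / 2, t, -1 / 2]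
  e j s := (if j = s then 0 else 1, s)
  sj b := if b.1 = 0 then b.2 else !b.2
  sd b := b.2
  i := 1
  e_inv := by decide
  sj_e := by decide
  sd_e := by decide
  cont j := by cases j <;> fun_prop
  ray j s y _ := by
    ext k
    cases j <;> cases s <;> fin_cases k <;> simp [gdiag_sg, dcol, Collar.cl]
  i_ne := by decide
  mono j := by cases j <;> exact fun _ _ h => h
  sep := ⟨2, Or.inr (by
    rintro _ ⟨s, rfl⟩ _ ⟨t, rfl⟩
    simp
    norm_num)⟩
  box j t ht k := by
    obtain ⟨h₁, h₂⟩ := abs_le.1 ht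
    cases j <;> fin_cases k <;> simp [abs_le] <;> (try constructor) <;> linarith
  zlo b b' h := by
    obtain ⟨k, σ⟩ := b
    refine lt_of_eq_of_lt ?_ h
    fin_cases k <;> cases σ <;> simp [dcol]
  zhi b b' h := by
    obtain ⟨k, σ⟩ := b'
    refine lt_of_lt_of_eq h ?_
    fin_cases k <;> cases σ <;> simp [dcol]
  sortY := le_rfl

theorem gdiag_z {b b' : Fin 2 × Bool} (h : (dcol ι).ζ b < (dcol ι).ζ b') :
    (dcol ι).ζ b < 0 ∧ 0 < (dcol ι).ζ b' := by
  simp only [dcol] at h ⊢
  split_ifs at h ⊢ <;> constructor <;> linarith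

/-- the first smoothing; the first strand is the left one -/
noncomputable def gdiag_s₀ : gdiag_Data ι where
  g j := match j with
    | false => fun t => !₂[-sab t / 2, t, -st t / 2]
    | true => fun t => !₂[sab t / 2, t, st t / 2]
  e j s := (if j then 1 else 0, s)
  sj b := decide (b.1 = 1)
  sd b := b.2
  i := 1
  e_inv := by decide
  sj_e := by decide
  sd_e := by decide
  cont j := by
    have := st_contDiff.continuous
    have := sab_contDiff.continuous
    cases j <;> fun_prop
  ray j s y hy := by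
    ext k
    have h₁ := gdiag_st_sg s hy
    have h₂ := gdiag_sab_sg s hy
    cases j <;> cases s <;> fin_cases k <;> simp [gdiag_sg, dcol, Collar.cl] at h₁ h₂ ⊢ <;>
      simp [h₁, h₂]
  i_ne := by decide
  mono j := by cases j <;> exact fun _ _ h => h
  sep := ⟨0, Or.inl (by
    rintro _ ⟨s, rfl⟩ _ ⟨t, rfl⟩
    have := sab_pos s
    have := sab_pos t
    simp
    linarith)⟩
  box j t ht k := by
    obtain ⟨h₁, h₂⟩ := abs_le.1 ht
    obtain ⟨h₃, h₄⟩ := abs_le.1 (abs_st_le t)
    have := sab_pos t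
    have := sab_lt ht
    cases j <;> fin_cases k <;> simp [abs_le] <;> (try constructor) <;> linarith
  zlo b b' h := by
    refine lt_of_eq_of_lt ?_ (gdiag_z ι h).2
    cases decide (b.1 = 1) <;> simp [gdiag_st_zero]
  zhi b b' h := by
    refine lt_of_lt_of_eq (gdiag_z ι h).1 ?_
    cases decide (b'.1 = 1) <;> simp [gdiag_st_zero]
  sortY := le_rfl

/-- the second smoothing; the first strand is the lower one -/
noncomputable def gdiag_s₁ : gdiag_Data ι where
  g j := match j with
    | false => fun t => !₂[t / 2, -sab t, -st t / 2]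
    | true => fun t => !₂[t / 2, sab t, st t / 2]
  e j s := (if s then 1 else 0, j)
  sj b := b.2
  sd b := decide (b.1 = 1)
  i := 0
  e_inv := by decide
  sj_e := by decide
  sd_e := by decide
  cont j := by
    have := st_contDiff.continuous
    have := sab_contDiff.continuous
    cases j <;> fun_prop
  ray j s y hy := by
    ext k
    have h₁ := gdiag_st_sg s hy
    have h₂ := gdiag_sab_sg s hy
    cases j <;> cases s <;> fin_cases k <;> simp [gdiag_sg, dcol, Collar.cl] at h₁ h₂ ⊢ <;>
      simp [h₁, h₂]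
  i_ne := by decide
  mono j := by
    cases j <;> intro a b h <;> simp <;> linarith
  sep := ⟨1, Or.inl (by
    rintro _ ⟨s, rfl⟩ _ ⟨t, rfl⟩
    have := sab_pos s
    have := sab_pos t
    simp
    linarith)⟩
  box j t ht k := by
    obtain ⟨h₁, h₂⟩ := abs_le.1 ht
    obtain ⟨h₃, h₄⟩ := abs_le.1 (abs_st_le t)
    have := sab_pos t
    have := sab_lt ht
    cases j <;> fin_cases k <;> simp [abs_le] <;> (try constructor) <;> linarith
  zlo b b' h := by
    refine lt_of_eq_of_lt ?_ (gdiag_z ι h).2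
    cases b.2 <;> simp [gdiag_st_zero]
  zhi b b' h := by
    refine lt_of_lt_of_eq (gdiag_z ι h).1 ?_
    cases b'.2 <;> simp [gdiag_st_zero]
  sortY := by
    have := sab_pos 0
    simp
    linarith

theorem hasContent_crossing :
    HasContent (dcol ι) (nn crossing) [⟨[], .cr Nm.no Nm.no true, []⟩] := by
  refine (gdiag_cr ι).hasContent rfl ?_
  have h : (gdiag_cr ι).ct.word = [⟨[], .cr Nm.no Nm.no
      (!decide ((gdiag_cr ι).g false 0 2 < (dcol ι).cl (1, false) (1 / 2) 2)), []⟩] := rfl
  rw [h, decide_eq_false]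
  · rfl
  · simp [gdiag_cr, dcol]
    norm_num

theorem hasContent_smoothing₀ : HasContent (dcol ι) (nn smoothing₀) [] :=
  (gdiag_s₀ ι).hasContent rfl rfl

theorem hasContent_smoothing₁ :
    HasContent (dcol ι) (nn smoothing₁) [⟨[], .cap Nm.no, []⟩, ⟨[], .cup Nm.no, []⟩] :=
  (gdiag_s₁ ι).hasContent rfl rfl

end Pool.Agent.P.MP_ac4909_gt.B
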