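import Pool.Agent.P.MP_ac4909_gt.B.GB_Red
import Pool.Agent.P.MP_ac4909_gt.B.GB_Diag
import Pool.Agent.P.MP_ac4909_gt.B.GB_Loop

/-! Layer G, blocks: links that differ inside an embedded cube. -/

namespace Pool.Agent.P.MP_ac4909_gt.B

open scoped ContDiff
open Set Filter Topology

variable {ι P : Type} (E : EvSys ι P) {ψ : E3 → E3}

theorem bl_skein (hψ : PosOn ψ (Qb (9 / 8))) {S S₀ S₁ : LS ι} (hS : IsLL S) (hS₀ : IsLL S₀)
    (hS₁ : IsLL S₁) (h : GIns ψ S (nn crossing)) (h₀ : GIns ψ S₀ (nn smoothing₀))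
    (h₁ : GIns ψ S₁ (nn smoothing₁)) (o₀ : GOut ψ S₀ = GOut ψ S) (o₁ : GOut ψ S₁ = GOut ψ S) :
    ∃ w₁ w₂ l r, ∀ p, zv E S p = E.ev p (w₁ ++ [⟨l, .cr Nm.no Nm.no true, r⟩] ++ w₂) ∧
      zv E S₀ p = E.ev p (w₁ ++ w₂) ∧
      zv E S₁ p = E.ev p (w₁ ++ [⟨l, .cap Nm.no, r⟩, ⟨l, .cup Nm.no, r⟩] ++ w₂) := by
  obtain ⟨w₁, w₂, l, r, -, H⟩ := block (P := P) hψ hS h (hasContent_crossing ι)
  refine ⟨w₁, w₂, l, r, fun p => ⟨?_, ?_, ?_⟩⟩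
  · simpa [pad] using H S _ _ hS rfl h (hasContent_crossing ι) E p
  · simpa using H S₀ _ _ hS₀ o₀ h₀ (hasContent_smoothing₀ ι) E p
  · simpa [pad] using H S₁ _ _ hS₁ o₁ h₁ (hasContent_smoothing₁ ι) E p

theorem bl_vert (hψ : PosOn ψ (Qb (9 / 8))) {S : LS ι} (hS : IsLL S) {xs : List (ℝ × Option ι)}
    (hxs : PosOK (xs.map Prod.fst)) (h : GIns ψ S (strands xs)) :
    ∃ w₁ w₂ l r, Run [] w₁ (l ++ xs.map (fun x => (⟨x.2⟩ : Nm ι)) ++ r) ∧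
      (∀ p, zv E S p = E.ev p (w₁ ++ w₂)) ∧
      ∀ S', IsLL S' → GOut ψ S' = GOut ψ S →
        (GIns ψ S' (strands xs ∪ nn encLoop) → ∀ p, zv E S' p =
          E.ev p (w₁ ++ encW l (xs.map fun x => (⟨x.2⟩ : Nm ι)) r ++ w₂)) ∧
        (xs = [] → GIns ψ S' (nn unknot) → ∀ p, zv E S' p = E.ev p (w₁ ++ encW l [] r ++ w₂)) ∧
        ((∀ x ∈ xs, x.2 = none) → ∀ w : List ℕ, (∀ i ∈ w, i + 2 ≤ xs.length) →
          GIns ψ S' (nn (stackSet (xs.map Prod.fst) w)) →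
          ∀ p, zv E S' p = E.ev p (w₁ ++ eW l xs.length r w ++ w₂)) := by
  have hc := (hasPic_id xs hxs).hasContent
  obtain ⟨w₁, w₂, l, r, hr, H⟩ := block (P := P) hψ hS h hc
  rw [vcol_lab] at hr
  refine ⟨w₁, w₂, l, r, hr, fun p => by simpa using H S _ _ hS rfl h hc E p,
    fun S' hS' ho => ⟨fun h' p => ?_, ?_, fun hn w hw h' p => ?_⟩⟩
  · rw [← encW_pad]
    exact H S' _ _ hS' ho h' (hasContent_loop xs hxs) E p
  · rintro rfl h' p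
    rw [← encW_pad]
    exact H S' _ _ hS' ho h' (hasContent_unknot hxs) E p
  · rw [← eW_pad]
    exact H S' _ _ hS' ho h' (hasPic_stackSet hxs hn w hw).hasContent E p

theorem bl_slide [DecidableEq ι] (hψ : PosOn ψ (Qb (9 / 8))) {S : LS ι} (hS : IsPL S) {i : ι}
    (h : GIns ψ S (strands [(-1 / 4, some i), (1 / 4, none)])) {G : ℝ × ℝ → E3} {η : ℝ}
    (hη : 0 < η) (hG : ContDiffOn ℝ ∞ G (univ ×ˢ Ioo (-η) η))
    (hper : ∀ t r, G (t + 1, r) = G (t, r))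
    (hinj : ∀ s t, G (s, 0) = G (t, 0) → ∃ k : ℤ, t = s + k)
    (himm : ∀ t, deriv (fun u => G (u, 0)) t ≠ 0)
    (hGi : {x ∈ S | x.1 = some i} =
      range fun t => (some i, G (t, 0), deriv (fun r => G (t, r)) 0))
    (hv : ∀ t, ∀ p ∈ Qb (9 / 8), G (t, 0) = ψ p → ∀ r, |r| < η → p + r • ez ∈ Qb (9 / 8) →
      G (t, r) = ψ (p + r • ez))
    {hx hy : ℝ → ℝ} {a u₁ u₀ u₂ b : ℝ} (hc : CapData (-1 / 4) (1 / 4) hx hy a u₁ u₀ u₂ b) :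
    ∃ (D₁ D₂ : List (Sl (Option (Arc ι)))) (l r : List (Option (Arc ι))) (x : Arc ι),
      Run [] D₁ (l ++ some x :: none :: r) ∧ Run [] (D₁ ++ D₂) [] ∧
      IsFramedLink (erase (D₁ ++ D₂)) ∧
      (∀ p, zv E S p = E.ev p ((D₁ ++ D₂).map (Sl.map fg))) ∧
      ∀ᶠ δ in 𝓝[>] (0 : ℝ), ∀ S', IsLL S' →
        ({x ∈ S' | x.1 = some i} =
          range fun t => (some i, G (t, -δ), deriv (fun r => G (t, r)) (-δ))) →
        GOut ψ {x ∈ S' | x.1 ≠ some i} =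
          (fun x => (if x.1 = some i then none else x.1, x.2)) '' GOut ψ S →
        GIns ψ {x ∈ S' | x.1 ≠ some i} (nn (capCup hx hy a b)) →
        ∀ p, zv E S' p = E.ev p ((slideW D₁ D₂ l r x).map (Sl.map fg)) :=
  bl_slide' E hψ hS h hη hG hper hinj himm hGi hv hc

theorem exists_diagram {S : LS ι} (hS : IsPL S) (h : ∀ x ∈ S, x.1 ≠ none) :
    ∃ L : List (Sl (Arc ι)), IsFramedLink L ∧
      ∀ p, zv E S p = E.ev p ((lift L).map (Sl.map fg)) := exists_diagram' E hS h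

end Pool.Agent.P.MP_ac4909_gt.B
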