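import Pool.Agent.P.MP_ac4909_gt.B.MHd
import Pool.Agent.P.MP_ac4909_gt.B.GBlock

/-! The properties of the value of links in the complement of the graph. -/

namespace Pool.Agent.P.MP_ac4909_gt.B

open scoped Manifold ContDiff
open Set Filter Topology

variable {M : Type*} [TopologicalSpace M] [T2Space M] [ChartedSpace E3 M]
  [IsManifold (𝓡 3) ∞ M] {ι Vx : Type} [Fintype ι] [DecidableEq ι] [Fintype Vx]

/-- a smooth map to `ℝ³` that is a positive embedding along `K` -/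
structure MLift_Emb (F : M → E3) (K : Set M) : Prop where
  smooth : ContMDiff (𝓡 3) (𝓡 3) ∞ F
  inj : InjOn F K
  pos : ∀ x ∈ K, 0 < (jac F x).det

section aux

omit [T2Space M] [Fintype ι] [DecidableEq ι]

variable {F : M → E3} {K C : Set M} {ψ : E3 → M} {S S' : LM ι M}

omit [IsManifold (𝓡 3) ∞ M] in
theorem MLift_Emb.mono (h : MLift_Emb F K) (hC : C ⊆ K) : MLift_Emb F C :=
  ⟨h.smooth, h.inj.mono hC, fun x hx => h.pos x (hC hx)⟩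

omit [IsManifold (𝓡 3) ∞ M] in
theorem MLift_Emb.md (h : MLift_Emb F K) (x : M) : MDifferentiableAt (𝓡 3) (𝓡 3) F x :=
  h.smooth.mdifferentiableAt (by simp)

omit [IsManifold (𝓡 3) ∞ M] in
theorem MLift_lbase {κ : Type} (Γ : κ → ℝ → TM M) (ℓ : κ → Option ι) :
    lbase (lset Γ ℓ) = base (trace Γ) := by
  ext x
  constructor
  · rintro ⟨_, ⟨c, t, rfl⟩, rfl⟩
    exact ⟨_, mem_iUnion.2 ⟨c, t, rfl⟩, rfl⟩
  · rintro ⟨y, hy, rfl⟩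
    obtain ⟨c, t, rfl⟩ := mem_iUnion.1 hy
    exact ⟨_, ⟨c, t, rfl⟩, rfl⟩

omit [IsManifold (𝓡 3) ∞ M] in
theorem MLift_set {κ : Type} (F : M → E3) (Γ : κ → ℝ → TM M) (ℓ : κ → Option ι) :
    toE F (lset Γ ℓ) = (⟨fun c t => F (Γ c t).proj,
      fun c t => jac F (Γ c t).proj (Γ c t).snd⟩ : Lk κ).set ℓ := by
  ext x
  constructor
  · rintro ⟨_, ⟨c, t, rfl⟩, rfl⟩
    exact ⟨c, t, rfl⟩
  · rintro ⟨c, t, rfl⟩
    exact ⟨_, ⟨c, t, rfl⟩, rfl⟩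

theorem MLift_Emb.pull {κ : Type} {Γ : κ → ℝ → TM M} (h : MLift_Emb F (base (trace Γ)))
    (hΓ : IsLink Γ) :
    (⟨fun c t => F (Γ c t).proj, fun c t => jac F (Γ c t).proj (Γ c t).snd⟩ : Lk κ).IsLink :=
  hΓ.pull (fun x _ => h.smooth x) h.inj fun x hx => (h.pos x hx).ne'

theorem MLift_Emb.isLL (h : MLift_Emb F K) (hS : IsLM S) (hK : lbase S ⊆ K) : IsLL (toE F S) := by
  obtain ⟨κ, _, Γ, ℓ, hΓ, rfl⟩ := hS
  exact ⟨κ, inferInstance, _, ℓ, (h.mono (MLift_lbase Γ ℓ ▸ hK)).pull hΓ, MLift_set F Γ ℓ⟩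

theorem MLift_Emb.isPL (h : MLift_Emb F K) (hS : IsPM S) (hK : lbase S ⊆ K) : IsPL (toE F S) := by
  obtain ⟨κ, _, Γ, ℓ, hΓ, rfl, h1⟩ := hS
  exact ⟨κ, inferInstance, _, ℓ, (h.mono (MLift_lbase Γ ℓ ▸ hK)).pull hΓ, MLift_set F Γ ℓ, h1⟩

omit [IsManifold (𝓡 3) ∞ M] in
theorem MLift_sep (F : M → E3) (S : LM ι M) {P : Option ι × E3 × E3 → Prop}
    {Q : Option ι × TM M → Prop}
    (h : ∀ x ∈ S, P (x.1, F x.2.proj, jac F x.2.proj x.2.snd) ↔ Q x) :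
    {x ∈ toE F S | P x} = toE F {x ∈ S | Q x} := by
  ext x
  constructor
  · rintro ⟨⟨y, hy, rfl⟩, h1⟩
    exact ⟨y, ⟨hy, (h y hy).1 h1⟩, rfl⟩
  · rintro ⟨y, hy, rfl⟩
    exact ⟨⟨y, hy.1, rfl⟩, (h y hy.1).2 hy.2⟩

omit [IsManifold (𝓡 3) ∞ M] in
theorem MLift_Emb.mem_iff (h : MLift_Emb F (C ∪ ψ '' Qb (9 / 8))) {x : M}
    (hx : x ∈ C ∪ ψ '' Qb (9 / 8)) : F x ∈ (F ∘ ψ) '' Qb (9 / 8) ↔ x ∈ ψ '' Qb (9 / 8) := by
  rw [image_comp]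
  exact h.inj.mem_image_iff subset_union_right hx

omit [IsManifold (𝓡 3) ∞ M] in
theorem MLift_Emb.out (h : MLift_Emb F (C ∪ ψ '' Qb (9 / 8)))
    (hK : lbase S ⊆ C ∪ ψ '' Qb (9 / 8)) : GOut (F ∘ ψ) (toE F S) = toE F (MOut ψ S) :=
  MLift_sep F S fun x hx => not_congr (h.mem_iff (hK ⟨x, hx, rfl⟩))

omit [IsManifold (𝓡 3) ∞ M] in
theorem MLift_Emb.ins (h : MLift_Emb F (C ∪ ψ '' Qb (9 / 8))) (hψ : MPosOn ψ (Qb (9 / 8)))
    (hK : lbase S ⊆ C ∪ ψ '' Qb (9 / 8)) {A : Pic ι} (hA : MIns ψ S A) :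
    GIns (F ∘ ψ) (toE F S) A := by
  refine (MLift_sep F S fun x hx => h.mem_iff (hK ⟨x, hx, rfl⟩)).trans ?_
  rw [hA, toE, image_image]
  refine image_congr fun y hy => ?_
  rw [← jac_eq_fderiv, jac_comp (h.md _)
    ((hψ.smooth.contMDiffAt ((isOpen_Qb _).mem_nhds hy.2)).mdifferentiableAt (by simp))]
  rfl

omit [IsManifold (𝓡 3) ∞ M] in
theorem MLift_Emb.posOn (h : MLift_Emb F (C ∪ ψ '' Qb (9 / 8))) (hψ : MPosOn ψ (Qb (9 / 8))) :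
    PosOn (F ∘ ψ) (Qb (9 / 8)) :=
  (hψ.comp_left (isOpen_Qb _) h.smooth (h.inj.mono subset_union_right)
    fun p hp => h.pos _ (Or.inr ⟨p, hp, rfl⟩)).posOn

omit [IsManifold (𝓡 3) ∞ M] in
theorem MLift_sub (hK : lbase S ⊆ C) (o : MOut ψ S' = MOut ψ S) :
    lbase S' ⊆ C ∪ ψ '' Qb (9 / 8) := by
  rintro _ ⟨x, hx, rfl⟩
  by_cases h : x.2.proj ∈ ψ '' Qb (9 / 8)
  · exact Or.inr h
  · have h1 : x ∈ MOut ψ S := o ▸ ⟨hx, h⟩
    exact Or.inl (hK ⟨x, h1.1, rfl⟩)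

omit [IsManifold (𝓡 3) ∞ M] in
theorem MLift_Emb.curve (h : MLift_Emb F K) {G : ℝ × ℝ → M} {η r₀ : ℝ}
    (hG : ContMDiffOn 𝓘(ℝ, ℝ × ℝ) (𝓡 3) ∞ G (univ ×ˢ Ioo (-η) η)) (hr : r₀ ∈ Ioo (-η) η) {i : ι}
    (hGi : {x ∈ S | x.1 = some i} =
      range fun t => (some i, (⟨G (t, r₀), vel (fun r => G (t, r)) r₀⟩ : TM M))) :
    {x ∈ toE F S | x.1 = some i} =
      range fun t => (some i, (F ∘ G) (t, r₀), deriv (fun r => (F ∘ G) (t, r)) r₀) := by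
  rw [MLift_sep F S (Q := fun x => x.1 = some i) fun _ _ => Iff.rfl, hGi, toE, ← range_comp]
  congr 1
  funext t
  have h1 : ContMDiffAt 𝓘(ℝ, ℝ) (𝓡 3) ∞ (fun r => G (t, r)) r₀ :=
    (hG.contMDiffAt ((isOpen_univ.prod isOpen_Ioo).mem_nhds ⟨trivial, hr⟩)).comp r₀
      (f := fun r : ℝ => (t, r)) (contDiff_const.prodMk contDiff_id).contMDiff.contMDiffAt
  have h2 := vel_comp (h.md _) (h1.mdifferentiableAt (by simp))
  rw [vel_eq_deriv] at h2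
  exact congrArg (fun v => (some i, F (G (t, r₀)), v)) h2.symm

end aux

theorem MLift_kirby_add (t : ℕ) (x y : ℕ × (ι → ℕ) → ℂ) (a b : ℕ → ℂ) :
    kirby t (fun p => a p.1 * x p + b p.1 * y p) = a t * kirby t x + b t * kirby t y := by
  simp only [kirby, Finset.mul_sum, ← Finset.sum_add_distrib]
  exact Finset.sum_congr rfl fun _ _ => by ring

theorem MLift_kirby_mul (t : ℕ) (x : ℕ × (ι → ℕ) → ℂ) (a : ℕ → ℂ) :
    kirby t (fun p => a p.1 * x p) = a t * kirby t x := by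
  simp only [kirby, Finset.mul_sum]
  exact Finset.sum_congr rfl fun _ _ => by ring

namespace HD
variable (H : HD M ι Vx) {E : EvSys ι (ℕ × (ι → ℕ))} {ψ : E3 → M} {S S' S₀ S₁ : LM ι M}

omit [T2Space M] [IsManifold (𝓡 3) ∞ M] [Fintype ι] [DecidableEq ι] [Fintype Vx] in
theorem MLift_jac (T : ℝ) (x : M) :
    jac (H.j ∘ H.Φ T) x = (jac H.j (H.Φ T x)).comp (jac (H.Φ T) x) :=
  jac_comp (H.j_smooth.mdifferentiableAt (by simp)) ((H.contMDiff_Φ T).mdifferentiableAt (by simp))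

omit [T2Space M] [IsManifold (𝓡 3) ∞ M] [Fintype ι] [DecidableEq ι] [Fintype Vx] in
theorem MLift_emb {T : ℝ} {K : Set M} (h : MapsTo (H.Φ T) K H.U) : MLift_Emb (H.j ∘ H.Φ T) K := by
  refine ⟨H.j_smooth.comp (H.contMDiff_Φ T), H.j_inj.comp (H.Φ_injective T).injOn h, fun x hx => ?_⟩
  rw [det_jac_comp (H.j_smooth.mdifferentiableAt (by simp))
    ((H.contMDiff_Φ T).mdifferentiableAt (by simp))]
  exact mul_pos (H.j_pos _ (h hx)) (H.Φ_pos T x)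

omit [T2Space M] [Fintype ι] [DecidableEq ι] [Fintype Vx] in
theorem MLift_iso {κ : Type} [Fintype κ] {A : Set M} {Γ : ℝ → κ → ℝ → TM M} (hΓ : IsIso A Γ)
    (ℓ : κ → Option ι) {τ : ℝ → ℝ} (hτ : ContDiff ℝ ∞ τ)
    (hU : ∀ s ∈ Icc (0 : ℝ) 1, MapsTo (H.Φ (τ s)) (base (trace (Γ s))) H.U) :
    GIso (toE (H.j ∘ H.Φ (τ 0)) (lset (Γ 0) ℓ)) (toE (H.j ∘ H.Φ (τ 1)) (lset (Γ 1) ℓ)) := by
  refine ⟨κ, inferInstance, fun s => ⟨fun c t => (H.j ∘ H.Φ (τ s)) (Γ s c t).proj,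
    fun c t => jac (H.j ∘ H.Φ (τ s)) (Γ s c t).proj (Γ s c t).snd⟩, ℓ, fun c => ?_,
    fun s hs => (H.MLift_emb (hU s hs)).pull (hΓ.link s hs), MLift_set _ _ _, MLift_set _ _ _⟩
  have h1 : ContMDiff (𝓘(ℝ, ℝ × ℝ).prod (𝓡 3)) (𝓡 3) ∞
      fun q : (ℝ × ℝ) × M => H.Φ (τ q.1.1) q.2 :=
    H.Φ_smooth.comp (f := fun q : (ℝ × ℝ) × M => (τ q.1.1, q.2))
      (((hτ.comp contDiff_fst).contMDiff.comp contMDiff_fst).prodMk contMDiff_snd)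
  have h2 : ∀ p : ℝ × ℝ, _ := fun p => contDiffAt_pull (H.j_smooth _)
    (contMDiffAt_tm (h := fun p : ℝ × ℝ => H.Φ (τ p.1)) (h1 _) (hΓ.smooth c p))
  refine ⟨contDiff_iff_contDiffAt.2 fun p => (h2 p).1, contDiff_iff_contDiffAt.2 fun p => ?_⟩
  simp only [H.MLift_jac]
  exact (h2 p).2

theorem zv_eq_of_time (hS : IsLM S) (hd : Disjoint (lbase S) H.gs) {T : ℝ}
    (hT : ∀ t ≥ T, MapsTo (H.Φ t) (lbase S) H.U) :
    H.zv E S = B.zv E (toE (H.j ∘ H.Φ T) S) := by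
  have h0 : ∀ t ≥ H.T S, MapsTo (H.Φ t) (lbase S) H.U :=
    Classical.epsilon_spec (p := fun T => ∀ t ≥ T, MapsTo (H.Φ t) (lbase S) H.U) ⟨T, hT⟩
  obtain ⟨κ, _, Γ, ℓ, hΓ, rfl⟩ := hS
  unfold HD.zv
  generalize H.T (lset Γ ℓ) = T₀ at h0
  rw [MLift_lbase] at h0 hT
  have h1 := H.MLift_iso hΓ.isIso_const ℓ (τ := fun s => T₀ + s * (T - T₀)) (by fun_prop)
    fun s hs => by
      rcases le_total T₀ T with h | h
      · exact h0 _ (le_add_of_nonneg_right (mul_nonneg hs.1 (sub_nonneg.2 h)))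
      · exact hT _ (by nlinarith [mul_nonneg (sub_nonneg.2 hs.2) (sub_nonneg.2 h)])
  simp only [zero_mul, add_zero, one_mul, add_sub_cancel] at h1
  exact zv_iso E h1

theorem zv_isoM (h : IsoM H.gsᶜ S S') : H.zv E S = H.zv E S' := by
  obtain ⟨κ, _, Γ, ℓ, hΓ, rfl, rfl⟩ := h
  have h1 : ∀ s ∈ Icc (0 : ℝ) 1,
      base (trace (Γ s)) ⊆ {x | ∃ s ∈ Icc (0 : ℝ) 1, ∃ c t, x = (Γ s c t).proj} := by
    rintro s hs _ ⟨y, hy, rfl⟩
    obtain ⟨c, t, rfl⟩ := mem_iUnion.1 hy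
    exact ⟨s, hs, c, t, rfl⟩
  have h2 : Disjoint {x | ∃ s ∈ Icc (0 : ℝ) 1, ∃ c t, x = (Γ s c t).proj} H.gs := by
    refine disjoint_left.2 ?_
    rintro _ ⟨s, hs, c, t, rfl⟩
    exact hΓ.mem s hs c t
  obtain ⟨T, hT⟩ := H.attract _ hΓ.isCompact_track h2
  have h3 : ∀ s ∈ Icc (0 : ℝ) 1,
      H.zv E (lset (Γ s) ℓ) = B.zv E (toE (H.j ∘ H.Φ T) (lset (Γ s) ℓ)) := fun s hs =>
    H.zv_eq_of_time ⟨κ, inferInstance, _, ℓ, hΓ.link s hs, rfl⟩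
      (by rw [MLift_lbase]; exact h2.mono_left (h1 s hs))
      fun t ht => by rw [MLift_lbase]; exact (hT t ht).mono_left (h1 s hs)
  rw [h3 0 (by simp), h3 1 (by simp)]
  exact zv_iso E (H.MLift_iso hΓ ℓ (τ := fun _ => T) contDiff_const
    fun s hs => (hT T le_rfl).mono_left (h1 s hs))

theorem MLift_time (E : EvSys ι (ℕ × (ι → ℕ))) {K : Set M} (hK : IsCompact K)
    (hd : Disjoint K H.gs) : ∃ F, MLift_Emb F K ∧
      ∀ S, IsLM S → lbase S ⊆ K → H.zv E S = B.zv E (toE F S) := by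
  obtain ⟨T, hT⟩ := H.attract K hK hd
  exact ⟨_, H.MLift_emb (hT T le_rfl), fun S hS h =>
    H.zv_eq_of_time hS (hd.mono_left h) fun t ht => (hT t ht).mono_left h⟩

theorem MLift_box (E : EvSys ι (ℕ × (ι → ℕ))) (hψ : MPosOn ψ (Qb (5 / 4)))
    (hg : MapsTo ψ (Qb (5 / 4)) H.gsᶜ) {C : Set M} (hC : IsCompact C) (hd : Disjoint C H.gs) :
    ∃ F, MLift_Emb F (C ∪ ψ '' Qb (9 / 8)) ∧ MPosOn ψ (Qb (9 / 8)) ∧
      ∀ S, IsLM S → lbase S ⊆ C ∪ ψ '' Qb (9 / 8) → H.zv E S = B.zv E (toE F S) := by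
  have h1 : closure (Qb (9 / 8)) ⊆ Qb (5 / 4) := closure_Qb_subset (by norm_num)
  obtain ⟨F, hF, h⟩ := H.MLift_time E (hC.union
    ((isCompact_closure_Qb (9 / 8)).image_of_continuousOn (hψ.smooth.continuousOn.mono h1)))
    (disjoint_union_left.2 ⟨hd, disjoint_left.2 (by
      rintro _ ⟨p, hp, rfl⟩
      exact hg (h1 hp))⟩)
  have h2 := union_subset_union_right C (image_mono (f := ψ) (subset_closure (s := Qb (9 / 8))))
  exact ⟨F, hF.mono h2, hψ.mono (subset_closure.trans h1), fun S hS hs => h S hS (hs.trans h2)⟩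

/-- the block lemma for straight strands in the manifold -/
theorem MLift_vert (E : EvSys ι (ℕ × (ι → ℕ))) (hψ : MPosOn ψ (Qb (5 / 4)))
    (hg : MapsTo ψ (Qb (5 / 4)) H.gsᶜ) (hS : IsLM S)
    {xs : List (ℝ × Option ι)} (hxs : PosOK (xs.map Prod.fst)) (h : MIns ψ S (strands xs))
    (hb : IsLM S₀) (hb' : Disjoint (lbase S₀) H.gs) (ob : MOut ψ S = MOut ψ S₀) :
    ∃ w₁ w₂ l r, Run [] w₁ (l ++ xs.map (fun x => (⟨x.2⟩ : Nm ι)) ++ r) ∧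
      (∀ p, H.zv E S p = E.ev p (w₁ ++ w₂)) ∧
      ∀ S', IsLM S' → MOut ψ S' = MOut ψ S →
        (MIns ψ S' (strands xs ∪ nn encLoop) → ∀ p, H.zv E S' p =
          E.ev p (w₁ ++ encW l (xs.map fun x => (⟨x.2⟩ : Nm ι)) r ++ w₂)) ∧
        (xs = [] → MIns ψ S' (nn unknot) → ∀ p, H.zv E S' p = E.ev p (w₁ ++ encW l [] r ++ w₂)) ∧
        ((∀ x ∈ xs, x.2 = none) → ∀ w : List ℕ, (∀ i ∈ w, i + 2 ≤ xs.length) →
          MIns ψ S' (nn (stackSet (xs.map Prod.fst) w)) →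
          ∀ p, H.zv E S' p = E.ev p (w₁ ++ eW l xs.length r w ++ w₂)) := by
  obtain ⟨F, hF, hψ', hz⟩ := H.MLift_box E hψ hg hb.isCompact_lbase hb'
  have k := MLift_sub subset_rfl ob
  obtain ⟨w₁, w₂, l, r, h1, h2, h3⟩ :=
    bl_vert E (hF.posOn hψ') (hF.isLL hS k) hxs (hF.ins hψ' k h)
  refine ⟨w₁, w₂, l, r, h1, hz S hS k ▸ h2, fun S' hS' o => ?_⟩
  have k' := MLift_sub subset_rfl (o.trans ob)
  obtain ⟨h4, h5, h6⟩ := h3 _ (hF.isLL hS' k') (by rw [hF.out k', hF.out k, o])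
  rw [hz S' hS' k']
  exact ⟨fun h => h4 (hF.ins hψ' k' h), fun e h => h5 e (hF.ins hψ' k' h),
    fun e w hw h => h6 e w hw (hF.ins hψ' k' h)⟩

theorem m_skein (hE : AFacts E) (hψ : MPosOn ψ (Qb (5 / 4))) (hg : MapsTo ψ (Qb (5 / 4)) H.gsᶜ)
    (hS : IsLM S) (hS₀ : IsLM S₀) (hS₁ : IsLM S₁) (hd : Disjoint (lbase S) H.gs)
    (h : MIns ψ S (nn crossing)) (h₀ : MIns ψ S₀ (nn smoothing₀))
    (h₁ : MIns ψ S₁ (nn smoothing₁)) (o₀ : MOut ψ S₀ = MOut ψ S) (o₁ : MOut ψ S₁ = MOut ψ S)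
    (t : ℕ) : H.val E t S = aa t * H.val E t S₀ + (aa t)⁻¹ * H.val E t S₁ := by
  obtain ⟨F, hF, hψ', hz⟩ := H.MLift_box E hψ hg hS.isCompact_lbase hd
  have k : lbase S ⊆ lbase S ∪ ψ '' Qb (9 / 8) := subset_union_left
  have k₀ := MLift_sub subset_rfl o₀
  have k₁ := MLift_sub subset_rfl o₁
  obtain ⟨w₁, w₂, l, r, hw⟩ := bl_skein E (hF.posOn hψ') (hF.isLL hS k) (hF.isLL hS₀ k₀)
    (hF.isLL hS₁ k₁) (hF.ins hψ' k h) (hF.ins hψ' k₀ h₀) (hF.ins hψ' k₁ h₁)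
    (by rw [hF.out k₀, hF.out k, o₀]) (by rw [hF.out k₁, hF.out k, o₁])
  rw [← hz S hS k, ← hz S₀ hS₀ k₀, ← hz S₁ hS₁ k₁] at hw
  refine Eq.trans (congrArg (kirby t) (funext fun p => ?_))
    (MLift_kirby_add t _ _ aa fun t => (aa t)⁻¹)
  rw [(hw p).1, (hw p).2.1, (hw p).2.2, hE.skein]

theorem m_loop (hE : AFacts E) (hψ : MPosOn ψ (Qb (5 / 4))) (hg : MapsTo ψ (Qb (5 / 4)) H.gsᶜ)
    (hS : IsLM S) (hS₀ : IsLM S₀) (hd : Disjoint (lbase S) H.gs) (h : MIns ψ S (nn unknot))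
    (h₀ : MIns ψ S₀ ∅) (o₀ : MOut ψ S₀ = MOut ψ S) (t : ℕ) :
    H.val E t S = dlt (aa t) * H.val E t S₀ := by
  have e : (strands [] : Pic ι) = ∅ := by simp [strands]
  obtain ⟨w₁, w₂, l, r, -, h2, h3⟩ := H.MLift_vert E hψ hg hS₀ (xs := []) (by simp [PosOK])
    (e ▸ h₀) hS hd o₀
  refine Eq.trans (congrArg (kirby t) (funext fun p => ?_))
    (MLift_kirby_mul t _ fun t => dlt (aa t))
  rw [(h3 S hS o₀.symm).2.1 rfl h, h2, hE.loop]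

theorem m_mer (hE : AFacts E) (hψ : MPosOn ψ (Qb (5 / 4))) (hg : MapsTo ψ (Qb (5 / 4)) H.gsᶜ)
    (hS : IsLM S) (hS' : IsLM S') (hd : Disjoint (lbase S) H.gs) {i : ι}
    (h : MIns ψ S (strands [(0, some i)]))
    (h' : MIns ψ S' (strands [(0, some i)] ∪ nn encLoop)) (o : MOut ψ S' = MOut ψ S)
    (p : ℕ × (ι → ℕ)) : H.zv E S' p = mu (aa p.1) (p.2 i) * H.zv E S p := by
  obtain ⟨w₁, w₂, l, r, h1, h2, h3⟩ := H.MLift_vert E hψ hg hS (by simp [PosOK]) h hS hd rfl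
  rw [(h3 S' hS' o).1 h', h2]
  exact hE.mer p w₁ w₂ l r i h1

theorem m_enc (hE : AFacts E) (hψ : MPosOn ψ (Qb (5 / 4))) (hg : MapsTo ψ (Qb (5 / 4)) H.gsᶜ)
    (hS : IsLM S) (hS' : IsLM S') (hd : Disjoint (lbase S) H.gs) {xs : List ℝ} (hxs : PosOK xs)
    (h : MIns ψ S (nn (vlines xs))) (h' : MIns ψ S' (nn (vlines xs ∪ encLoop)))
    (o : MOut ψ S' = MOut ψ S) (t : ℕ)
    (hw : ∀ w : List ℕ, w ≠ [] → w.length ≤ 2 * xs.length → (∀ i ∈ w, i + 2 ≤ xs.length) →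
      ∃ Sw, IsLM Sw ∧ MOut ψ Sw = MOut ψ S ∧ MIns ψ Sw (nn (stackSet xs w)) ∧ H.val E t Sw = 0) :
    H.val E t S' = mu (aa t) xs.length * H.val E t S := by
  have e1 : (xs.map fun x => (x, (none : Option ι))).map Prod.fst = xs := by
    simp [Function.comp_def]
  have e2 : (strands (xs.map fun x => (x, none)) : Pic ι) = nn (vlines xs) := by
    ext y
    simp [strands, nn, vlines]
    tauto
  have e3 : ((xs.map fun x => (x, (none : Option ι))).map fun x => (⟨x.2⟩ : Nm ι)) =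
      List.replicate xs.length Nm.no := by
    simp [Function.comp_def, Nm.no]
  obtain ⟨w₁, w₂, l, r, -, h2, h3⟩ := H.MLift_vert E hψ hg hS
    (xs := xs.map fun x => (x, none)) (by rwa [e1]) (by rwa [e2]) hS hd rfl
  rw [e1, e2, e3, List.length_map] at h3
  have h4 := hE.enc t xs.length w₁ w₂ l r fun w w1 w2 w3 => by
    obtain ⟨Sw, a1, a2, a3, a4⟩ := hw w w1 w2 w3
    rw [← a4]
    exact congrArg (kirby t) (funext ((h3 Sw a1 a2).2.2 (by simp) w w3 a3)).symm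
  rw [← funext h2, ← funext ((h3 S' hS' o).1 (by rwa [nn, nn, ← prod_union]))] at h4
  exact h4

theorem m_slide (hE : AFacts E) (hψ : MPosOn ψ (Qb (5 / 4))) (hg : MapsTo ψ (Qb (5 / 4)) H.gsᶜ)
    (hS : IsPM S) (hd : Disjoint (lbase S) H.gs) {i : ι}
    (h : MIns ψ S (strands [(-1 / 4, some i), (1 / 4, none)])) {G : ℝ × ℝ → M} {η : ℝ}
    (hη : 0 < η) (hG : ContMDiffOn 𝓘(ℝ, ℝ × ℝ) (𝓡 3) ∞ G (univ ×ˢ Ioo (-η) η))
    (hper : ∀ t r, G (t + 1, r) = G (t, r))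
    (hinj : ∀ s t, G (s, 0) = G (t, 0) → ∃ k : ℤ, t = s + k)
    (himm : ∀ t, vel (fun u => G (u, 0)) t ≠ 0)
    (hGi : {x ∈ S | x.1 = some i} =
      range fun t => (some i, (⟨G (t, 0), vel (fun r => G (t, r)) 0⟩ : TM M)))
    (hv : ∀ t, ∀ p ∈ Qb (9 / 8), G (t, 0) = ψ p → ∀ r, |r| < η → p + r • ez ∈ Qb (9 / 8) →
      G (t, r) = ψ (p + r • ez))
    {hx hy : ℝ → ℝ} {a u₁ u₀ u₂ b : ℝ} (hc : CapData (-1 / 4) (1 / 4) hx hy a u₁ u₀ u₂ b) :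
    ∀ᶠ δ in 𝓝[>] (0 : ℝ), ∀ S', IsLM S' →
      ({x ∈ S' | x.1 = some i} =
        range fun t => (some i, (⟨G (t, -δ), vel (fun r => G (t, r)) (-δ)⟩ : TM M))) →
      MOut ψ {x ∈ S' | x.1 ≠ some i} =
        (fun x => (if x.1 = some i then none else x.1, x.2)) '' MOut ψ S →
      MIns ψ {x ∈ S' | x.1 ≠ some i} (nn (capCup hx hy a b)) →
      ∀ t, H.val E t S' = H.val E t S := by
  have ho : IsOpen ((univ : Set ℝ) ×ˢ Ioo (-η) η) := isOpen_univ.prod isOpen_Ioo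
  have h0 : (0 : ℝ) ∈ Ioo (-η) η := ⟨by linarith, hη⟩
  have g0 : ∀ t, G (t, 0) ∈ lbase S := fun t =>
    ⟨_, (hGi.ge (mem_range_self t)).1, rfl⟩
  have g1 : ∀ᶠ r in 𝓝 (0 : ℝ), ∀ t ∈ Icc (0 : ℝ) 1, G (t, r) ∈ H.gsᶜ := by
    refine isCompact_Icc.eventually_forall_of_forall_eventually fun t _ => ?_
    have h1 : ContinuousAt (fun z : ℝ × ℝ => G z.swap) (0, t) :=
      ContinuousAt.comp (g := G) (hG.continuousOn.continuousAt (ho.mem_nhds ⟨trivial, h0⟩))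
        continuous_swap.continuousAt
    exact h1.eventually (H.isCompact_gs.isClosed.isOpen_compl.mem_nhds (disjoint_left.1 hd (g0 t)))
  obtain ⟨e, e0, he⟩ := Metric.eventually_nhds_iff.1 (g1.and (Ioo_mem_nhds h0.1 h0.2))
  have g2 : ∀ r ∈ Icc (-(e / 2)) 0, dist r 0 < e := fun r hr => by
    rw [Real.dist_eq, sub_zero, abs_lt]
    constructor <;> linarith [hr.1, hr.2]
  obtain ⟨F, hF, hψ', hz⟩ := H.MLift_box E hψ hg
    (C := lbase S ∪ G '' (Icc 0 1 ×ˢ Icc (-(e / 2)) 0))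
    (hS.isLM.isCompact_lbase.union ((isCompact_Icc.prod isCompact_Icc).image_of_continuousOn
      (hG.continuousOn.mono fun z hz => ⟨trivial, (he (g2 _ hz.2)).2⟩)))
    (disjoint_union_left.2 ⟨hd, disjoint_left.2 (by
      rintro _ ⟨z, hz, rfl⟩
      exact (he (g2 _ hz.2)).1 _ hz.1)⟩)
  have k := (subset_union_left (s := lbase S) (t := G '' (Icc 0 1 ×ˢ Icc (-(e / 2)) 0))).trans
    (subset_union_left (t := ψ '' Qb (9 / 8)))
  obtain ⟨D₁, D₂, l, r, x, a1, a2, a3, a4, a5⟩ := bl_slide E (hF.posOn hψ') (hF.isPL hS k)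
    (hF.ins hψ' k h) (G := F ∘ G) hη (contMDiffOn_iff_contDiffOn.1 (hF.smooth.comp_contMDiffOn hG))
    (fun t r => congrArg F (hper t r)) (fun s t h => hinj s t (hF.inj (k (g0 s)) (k (g0 t)) h))
    (fun t => by
      have h1 : ContMDiffAt 𝓘(ℝ, ℝ) (𝓡 3) ∞ (fun u => G (u, 0)) t :=
        (hG.contMDiffAt (ho.mem_nhds ⟨trivial, h0⟩)).comp t
          (f := fun u : ℝ => (u, 0)) (contDiff_id.prodMk contDiff_const).contMDiff.contMDiffAt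
      have h2 := vel_comp (hF.md _) (h1.mdifferentiableAt (by simp))
      rw [vel_eq_deriv] at h2
      exact fun h3 => himm t (injective_of_det_ne (hF.pos _ (k (g0 t))).ne'
        ((h2.symm.trans h3).trans (map_zero _).symm)))
    (hF.curve hG h0 hGi)
    (fun t p hp h r h1 h2 =>
      congrArg F (hv t p hp (hF.inj (k (g0 t)) (Or.inr ⟨p, hp, rfl⟩) h) r h1 h2)) hc
  filter_upwards [a5, Ioo_mem_nhdsGT (half_pos e0)] with δ b hδ S' hS' b1 b2 b3 t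
  have hδ' : -δ ∈ Icc (-(e / 2)) 0 := ⟨by linarith [hδ.2], by linarith [hδ.1]⟩
  have k' : lbase S' ⊆ lbase S ∪ G '' (Icc 0 1 ×ˢ Icc (-(e / 2)) 0) ∪ ψ '' Qb (9 / 8) := by
    rintro _ ⟨y, hy, rfl⟩
    by_cases h1 : y.1 = some i
    · obtain ⟨u, rfl⟩ := b1.le ⟨hy, h1⟩
      obtain ⟨v, hv, e1⟩ := Function.Periodic.exists_mem_Ico₀ (f := fun u => G (u, -δ))
        (fun u => hper u _) one_pos u
      exact Or.inl (Or.inr ⟨(v, -δ), ⟨Ico_subset_Icc_self hv, hδ'⟩, e1.symm⟩)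
    by_cases h2 : y.2.proj ∈ ψ '' Qb (9 / 8)
    · exact Or.inr h2
    · obtain ⟨z, hz, e1⟩ := b2.le ⟨⟨hy, h1⟩, h2⟩
      exact k ⟨z, hz.1, congrArg (fun y => y.2.proj) e1⟩
  have k'' : lbase {x ∈ S' | x.1 ≠ some i} ⊆ _ := (image_mono (sep_subset _ _)).trans k'
  have e2 : {x ∈ toE F S' | x.1 ≠ some i} = toE F {x ∈ S' | x.1 ≠ some i} :=
    MLift_sep F S' fun _ _ => Iff.rfl
  have c := b _ (hF.isLL hS' k') (hF.curve hG (he (g2 _ hδ')).2 b1)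
    (by rw [e2, hF.out k'', hF.out k, b2, toE, toE, image_image, image_image])
    (e2 ▸ hF.ins hψ' k'' b3)
  unfold HD.val
  rw [hz S' hS' k', hz S hS.isLM k, funext c, funext a4]
  exact hE.slide t D₁ D₂ l r x a1 a2 a3

theorem m_nonvan (hE : AFacts E) (hS : IsPM S) (hd : Disjoint (lbase S) H.gs)
    (hn : ∀ x ∈ S, x.1 ≠ none)
    (h : ∀ j : ι → ℕ, ∃ S', (∀ p, H.zv E S' p = (∏ i, mu (aa p.1) (p.2 i) ^ j i) * H.zv E S p) ∧
      ∀ᶠ t in atTop, H.val E t S' = 0) : False := by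
  obtain ⟨F, hF, hz⟩ := H.MLift_time E hS.isLM.isCompact_lbase hd
  obtain ⟨L, hL, h1⟩ := exists_diagram E (hF.isPL hS subset_rfl) (by
    rintro _ ⟨x, hx, rfl⟩
    exact hn x hx)
  rw [← hz S hS.isLM subset_rfl] at h1
  refine hE.nonvan L hL fun j => ?_
  obtain ⟨S', h2, h3⟩ := h j
  refine h3.mono fun t ht => Eq.trans (congrArg (kirby t) (funext fun p => ?_)) ht
  rw [h2, h1]

end HD

end Pool.Agent.P.MP_ac4909_gt.B
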