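import Pool.Agent.P.MP_ac4909_gt.B.MInit_MB
import Pool.Agent.P.MP_ac4909_gt.B.MLift

/-! The value of the surgery curves together with long meridians. -/

namespace Pool.Agent.P.MP_ac4909_gt.B

open scoped Manifold ContDiff
open Set Filter Topology

variable {M : Type*} [TopologicalSpace M] [ChartedSpace E3 M] {ι Vx κ : Type}

namespace HD
variable (H : HD M ι Vx)

/-- the union of some of the meridians -/
def MI_K (e : κ → ι) (s : ℝ) (θ : κ → ℝ) (η : ℝ) (F : Set κ) : Set (TM M) :=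
  {x | ∃ c ∈ F, ∃ t, x = H.MI_mer (e c) s (θ c) η t}

theorem MI_enc_ne {t : ℝ} (h0 : MI_enc t 0 = 0) (h2 : MI_enc t 2 = 0) : False := by
  have e0 : Real.cos (2 * Real.pi * t) / 2 = 0 := h0
  have e2 : -st (Real.sin (2 * Real.pi * t)) / 2 = 0 := h2
  have h := Real.cos_sq_add_sin_sq (2 * Real.pi * t)
  have hc : Real.cos (2 * Real.pi * t) = 0 := by linarith
  rw [hc] at h
  rcases lt_trichotomy (Real.sin (2 * Real.pi * t)) 0 with h1 | h1 | h1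
  · have := MI_st_pos (neg_pos.2 h1)
    rw [st_neg] at this
    linarith
  · rw [h1] at h
    norm_num at h
  · have := MI_st_pos h1
    linarith

theorem MI_K_disj_Y (e : κ → ι) {s : ℝ} (hs : 0 ≤ s) (θ : κ → ℝ) (η : ℝ) (F : Set κ) :
    Disjoint (base (H.MI_K e s θ η F)) (lbase (H.Y (Real.exp (-s)))) := by
  rw [disjoint_left]
  rintro _ ⟨_, ⟨c, -, t, rfl⟩, rfl⟩ ⟨y, hy, h⟩
  obtain ⟨h0, h2, -⟩ := H.MI_Y_of_psi hs (MI_enc_mem' t) hy h.symm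
  exact MI_enc_ne h0 h2

theorem MI_K_disj_gs (e : κ → ι) (s : ℝ) (θ : κ → ℝ) (η : ℝ) (F : Set κ) :
    Disjoint (base (H.MI_K e s θ η F)) H.gs := by
  rw [disjoint_left]
  rintro _ ⟨_, ⟨c, -, t, rfl⟩, rfl⟩
  exact H.MI_psi_mapsTo (e c) s (θ c) η (MI_enc_mem' t)

theorem MI_Y_disj_gs (s : ℝ) : Disjoint (lbase (H.Y (Real.exp (-s)))) H.gs := by
  rw [disjoint_left]
  rintro _ ⟨_, ⟨e, t, rfl⟩, rfl⟩
  change H.ce e (circ (Real.exp (-s)) 0 t) ∉ H.gs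
  rw [MI_circ]
  exact H.MI_cyl_not_mem e (by simp)

theorem MI_lbase_tot (X : Set (TM M)) (ε : ℝ) :
    lbase (H.tot X ε) = base X ∪ lbase (H.Y ε) := by
  ext x
  constructor
  · rintro ⟨y, hy | hy, rfl⟩
    · exact Or.inl ⟨y.2, hy.2, rfl⟩
    · exact Or.inr ⟨y, hy, rfl⟩
  · rintro (⟨y, hy, rfl⟩ | ⟨y, hy, rfl⟩)
    · exact ⟨(none, y), Or.inl ⟨rfl, hy⟩, rfl⟩
    · exact ⟨y, Or.inr hy, rfl⟩

theorem MI_tot_iff {θ : κ → ℝ} {η s : ℝ} (hA : MI_Ang θ η) (hs : 0 ≤ s) (e : κ → ι) (F : Set κ)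
    (c : κ) (x : Option ι × TM M) :
    (x ∈ H.tot (H.MI_K e s θ η F) (Real.exp (-s)) ∧
      x.2.proj ∈ H.MI_psi (e c) s (θ c) η '' Qb (9 / 8)) ↔
    (∃ p ∈ Qb (9 / 8), p 0 = 0 ∧ p 2 = 0 ∧
      x = (some (e c), pushT (H.MI_psi (e c) s (θ c) η) p ez)) ∨
    (c ∈ F ∧ ∃ t, x = (none, H.MI_mer (e c) s (θ c) η t)) := by
  have hq : Qb (9 / 8) ⊆ Qb (5 / 4) := MI_Qb_mono (by norm_num)
  constructor
  · rintro ⟨hx | hx, p, hp, h⟩
    · obtain ⟨h1, c', hc', t, h2⟩ := hx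
      rw [h2] at h
      obtain ⟨rfl, -⟩ := H.MI_psi_eq hA hs (hq hp) (MI_enc_mem' t) h
      exact Or.inr ⟨hc', t, Prod.ext h1 h2⟩
    · exact Or.inl ⟨p, hp, H.MI_Y_of_psi hs (hq hp) hx h⟩
  · rintro (⟨p, hp, h0, h2, rfl⟩ | ⟨hc, t, rfl⟩)
    · exact ⟨Or.inr (H.MI_psi_mem_Y _ _ _ _ (hq hp) h0 h2), p, hp, rfl⟩
    · exact ⟨Or.inl ⟨rfl, c, hc, t, rfl⟩, MI_enc t, MI_Qb_mono (by norm_num) (MI_enc_mem t), rfl⟩

variable [IsManifold (𝓡 3) ∞ M]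

theorem MI_K_isLS [Fintype κ] {θ : κ → ℝ} {η s : ℝ} (hA : MI_Ang θ η) (hs : 0 ≤ s) (e : κ → ι)
    (F : Set κ) : IsLS (H.MI_K e s θ η F) := by
  classical
  refine ⟨F, Fintype.ofFinite _, _, (H.MI_mer_isLink hA hs e).comp Subtype.val_injective, ?_⟩
  ext x
  simp only [MI_K, trace, mem_iUnion, mem_range, mem_ofPred_eq, Subtype.exists, exists_prop,
    eq_comm]

variable [T2Space M] [Fintype ι] [DecidableEq ι] [Fintype Vx]

theorem MI_value_step [Fintype κ] {E : EvSys ι (ℕ × (ι → ℕ))} (hE : AFacts E) {θ : κ → ℝ}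
    {η s : ℝ} (hA : MI_Ang θ η) (hs : 0 ≤ s) (e : κ → ι) {F : Set κ} {c : κ} (hc : c ∉ F)
    (p : ℕ × (ι → ℕ)) :
    H.zv E (H.tot (H.MI_K e s θ η (insert c F)) (Real.exp (-s))) p =
      mu (aa p.1) (p.2 (e c)) * H.zv E (H.tot (H.MI_K e s θ η F) (Real.exp (-s))) p := by
  have hL := fun F => (H.isPM_tot (H.MI_K_isLS hA hs e F) (Real.exp_pos (-s))
    (H.MI_K_disj_Y e hs θ η F)).isLM
  refine H.m_mer hE (H.MI_psi_posOn hA hs (e c) c) (H.MI_psi_mapsTo _ _ _ _) (hL F) (hL _) ?_ ?_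
    ?_ ?_ p
  · rw [MI_lbase_tot, disjoint_union_left]
    exact ⟨H.MI_K_disj_gs e s θ η F, H.MI_Y_disj_gs s⟩
  · ext x
    rw [mem_ofPred_eq, H.MI_tot_iff hA hs]
    constructor
    · rintro (⟨q, hq, h0, h2, rfl⟩ | ⟨h, -⟩)
      · exact ⟨(some (e c), q), ⟨⟨_, List.mem_singleton.2 rfl, rfl, h0, h2⟩, hq⟩, rfl⟩
      · exact absurd h hc
    · rintro ⟨⟨l, q⟩, ⟨⟨y, hy, h1, h0, h2⟩, hq⟩, rfl⟩
      rw [List.mem_singleton.1 hy] at h1 h0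
      exact Or.inl ⟨q, hq, h0, h2, Prod.ext h1 rfl⟩
  · ext x
    rw [mem_ofPred_eq, H.MI_tot_iff hA hs]
    constructor
    · rintro (⟨q, hq, h0, h2, rfl⟩ | ⟨-, t, rfl⟩)
      · exact ⟨(some (e c), q), ⟨Or.inl ⟨_, List.mem_singleton.2 rfl, rfl, h0, h2⟩, hq⟩, rfl⟩
      · exact ⟨(none, MI_enc t), ⟨Or.inr ⟨rfl, MI_range_enc ▸ mem_range_self t⟩,
          MI_Qb_mono (by norm_num) (MI_enc_mem t)⟩, rfl⟩
    · rintro ⟨⟨l, q⟩, ⟨⟨y, hy, h1, h0, h2⟩ | ⟨h1, h2⟩, hq⟩, rfl⟩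
      · rw [List.mem_singleton.1 hy] at h1 h0
        exact Or.inl ⟨q, hq, h0, h2, Prod.ext h1 rfl⟩
      · rw [← MI_range_enc] at h2
        obtain ⟨t, rfl⟩ := h2
        exact Or.inr ⟨mem_insert _ _, t, Prod.ext h1 rfl⟩
  · ext x
    constructor
    · rintro ⟨⟨h1, c', hc' | hc', t, h2⟩ | hx, h⟩
      · subst hc'
        exact absurd ⟨MI_enc t, MI_Qb_mono (by norm_num) (MI_enc_mem t), by rw [h2]; rfl⟩ h
      · exact ⟨Or.inl ⟨h1, c', hc', t, h2⟩, h⟩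
      · exact ⟨Or.inr hx, h⟩
    · rintro ⟨⟨h1, c', hc', t, h2⟩ | hx, h⟩
      · exact ⟨Or.inl ⟨h1, c', Or.inr hc', t, h2⟩, h⟩
      · exact ⟨Or.inr hx, h⟩

theorem MI_value_Y (E : EvSys ι (ℕ × (ι → ℕ))) {s : ℝ} (hs : 0 ≤ s) :
    H.zv E (H.tot ∅ (Real.exp (-s))) = H.zv E (H.Y 1) := by
  have h := H.zv_isoM (E := E) (H.isoM_back isLS_empty isLS_empty one_pos (O := univ)
    (fun _ _ => mapsTo_univ _ _) (subset_univ _) (subset_univ _) (by simp [base])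
    (by simp [base]) (by simp [base]) (by simp [base]) hs)
  have e : H.tot (∅ ∪ ∅) 1 = H.Y 1 := by simp [tot, nl]
  rw [e] at h
  simpa using h.symm

theorem MI_value [Fintype κ] {E : EvSys ι (ℕ × (ι → ℕ))} (hE : AFacts E) {θ : κ → ℝ}
    {η s : ℝ} (hA : MI_Ang θ η) (hs : 0 ≤ s) (e : κ → ι) (p : ℕ × (ι → ℕ)) :
    H.zv E (H.tot (trace fun c => H.MI_mer (e c) s (θ c) η) (Real.exp (-s))) p =
      (∏ c, mu (aa p.1) (p.2 (e c))) * H.zv E (H.Y 1) p := by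
  classical
  have key : ∀ F : Finset κ, H.zv E (H.tot (H.MI_K e s θ η F) (Real.exp (-s))) p =
      (∏ c ∈ F, mu (aa p.1) (p.2 (e c))) * H.zv E (H.Y 1) p := by
    intro F
    induction F using Finset.induction_on with
    | empty =>
      have : H.MI_K e s θ η ((∅ : Finset κ) : Set κ) = ∅ := by simp [MI_K]
      rw [this, H.MI_value_Y E hs]
      simp
    | insert c F hc ih =>
      rw [Finset.coe_insert, H.MI_value_step hE hA hs e (by simpa using hc), ih,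
        Finset.prod_insert hc, mul_assoc]
  rw [← key]
  congr 2
  ext x
  simp [MI_K, trace, eq_comm]

end HD

end Pool.Agent.P.MP_ac4909_gt.B
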