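import Pool.Agent.P.MP_ac4909_gt.B.MHd

/-! The sector charts at the vertices. -/

namespace Pool.Agent.P.MP_ac4909_gt.B

open scoped Manifold ContDiff
open Set Filter Topology

variable {M : Type*} [TopologicalSpace M] [ChartedSpace E3 M] {ι Vx : Type} {H : HD M ι Vx}
  {v : Vx} {D : Sec}

theorem MSec_det (A : E3 →L[ℝ] E3) : A.det = Matrix.det (Matrix.of
    ![(A !₂[1, 0, 0]).ofLp, (A !₂[0, 1, 0]).ofLp, (A !₂[0, 0, 1]).ofLp]) := by
  have e0 : EuclideanSpace.single (0 : Fin 3) (1 : ℝ) = !₂[1, 0, 0] := by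
    ext i; fin_cases i <;> simp
  have e1 : EuclideanSpace.single (1 : Fin 3) (1 : ℝ) = !₂[0, 1, 0] := by
    ext i; fin_cases i <;> simp
  have e2 : EuclideanSpace.single (2 : Fin 3) (1 : ℝ) = !₂[0, 0, 1] := by
    ext i; fin_cases i <;> simp
  rw [ContinuousLinearMap.det, ← LinearMap.det_toMatrix (EuclideanSpace.basisFun (Fin 3) ℝ).toBasis,
    ← Matrix.det_transpose]
  congr 1
  ext i j
  rw [Matrix.transpose_apply, LinearMap.toMatrix_apply]
  fin_cases i <;> simp [e0, e1, e2]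

/-- the direction -/
noncomputable def MSec_n (D : Sec) (p : E3) : E3 := D.b + p 0 • D.u + p 2 • D.w

/-- the scale -/
noncomputable def MSec_s (D : Sec) (p : E3) : ℝ := D.ρ * Real.exp (D.η * p 1) / ‖MSec_n D p‖

theorem MSec_map (D : Sec) (p : E3) : D.map p = MSec_s D p • MSec_n D p := rfl

theorem MSec_hasFDerivAt (D : Sec) (p : E3) : HasFDerivAt (MSec_n D)
    ((EuclideanSpace.proj (0 : Fin 3) : E3 →L[ℝ] ℝ).smulRight D.u +
      (EuclideanSpace.proj (2 : Fin 3) : E3 →L[ℝ] ℝ).smulRight D.w) p := by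
  have h := (((EuclideanSpace.proj (0 : Fin 3) : E3 →L[ℝ] ℝ).smulRight D.u +
    (EuclideanSpace.proj (2 : Fin 3) : E3 →L[ℝ] ℝ).smulRight D.w).hasFDerivAt (x := p)).const_add D.b
  refine h.congr_of_eventuallyEq (Eventually.of_forall fun q => ?_)
  simp [MSec_n, add_assoc]

namespace HD.SecOK

theorem MSec_b (h : H.SecOK v D) (x z : ℝ) : inner ℝ D.b (D.b + x • D.u + z • D.w) = 1 := by
  rw [inner_add_right, inner_add_right, real_inner_smul_right, real_inner_smul_right, h.bu, h.bw,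
    real_inner_self_eq_norm_sq, h.norm_b]
  ring

theorem MSec_u (h : H.SecOK v D) (x z : ℝ) :
    inner ℝ D.u (D.b + x • D.u + z • D.w) = x * ‖D.u‖ ^ 2 := by
  rw [inner_add_right, inner_add_right, real_inner_smul_right, real_inner_smul_right,
    real_inner_comm, h.bu, h.uw, real_inner_self_eq_norm_sq]
  ring

theorem MSec_w (h : H.SecOK v D) (x z : ℝ) :
    inner ℝ D.w (D.b + x • D.u + z • D.w) = z * ‖D.u‖ ^ 2 := by
  rw [inner_add_right, inner_add_right, real_inner_smul_right, real_inner_smul_right,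
    real_inner_comm, h.bw, real_inner_comm D.u, h.uw, real_inner_self_eq_norm_sq, h.norm_uw]
  ring

theorem one_le_norm (h : H.SecOK v D) (x z : ℝ) : 1 ≤ ‖D.b + x • D.u + z • D.w‖ := by
  have h1 := real_inner_le_norm D.b (D.b + x • D.u + z • D.w)
  rwa [h.MSec_b, h.norm_b, one_mul] at h1

theorem u_ne (h : H.SecOK v D) : D.u ≠ 0 := fun h0 => by
  have h1 := h.det
  rw [h0, Matrix.det_fin_three] at h1
  simp at h1

theorem MSec_npos (h : H.SecOK v D) (p : E3) : 0 < ‖MSec_n D p‖ :=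
  one_pos.trans_le (h.one_le_norm _ _)

theorem MSec_spos (h : H.SecOK v D) (p : E3) : 0 < MSec_s D p :=
  div_pos (mul_pos h.ρ_pos (Real.exp_pos _)) (h.MSec_npos p)

theorem MSec_contDiff (h : H.SecOK v D) :
    ContDiff ℝ ∞ (MSec_n D) ∧ ContDiff ℝ ∞ (MSec_s D) := by
  have h1 : ContDiff ℝ ∞ (MSec_n D) := by
    unfold MSec_n
    fun_prop
  refine ⟨h1, ContDiff.div (by fun_prop) (h1.norm ℝ fun p => norm_pos_iff.1 (h.MSec_npos p))
    fun p => (h.MSec_npos p).ne'⟩

theorem contDiff_map (h : H.SecOK v D) : ContDiff ℝ ∞ D.map :=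
  h.MSec_contDiff.2.smul h.MSec_contDiff.1

theorem norm_map (h : H.SecOK v D) (p : E3) : ‖D.map p‖ = D.ρ * Real.exp (D.η * p 1) := by
  rw [MSec_map, norm_smul, Real.norm_of_nonneg (h.MSec_spos p).le, MSec_s,
    div_mul_cancel₀ _ (h.MSec_npos p).ne']

theorem fderiv_map_ey (h : H.SecOK v D) (p : E3) :
    fderiv ℝ D.map p !₂[0, 1, 0] = D.η • D.map p := by
  have h1 : HasDerivAt (fun t : ℝ => p + t • (!₂[0, 1, 0] : E3)) !₂[0, 1, 0] 0 := by
    simpa using ((hasDerivAt_id (0 : ℝ)).smul_const (!₂[0, 1, 0] : E3)).const_add p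
  have h2 := (h.contDiff_map.differentiable (by simp) p).hasFDerivAt.comp_hasDerivAt_of_eq
    (0 : ℝ) h1 (by simp)
  have h3 : HasDerivAt (fun t : ℝ => Real.exp (D.η * t) • D.map p) (D.η • D.map p) 0 := by
    simpa using (((hasDerivAt_id (0 : ℝ)).const_mul D.η).exp).smul_const (D.map p)
  refine h2.unique (h3.congr_of_eventuallyEq (Eventually.of_forall fun t => ?_))
  simp only [Function.comp_apply, Sec.map, PiLp.add_apply, PiLp.smul_apply, smul_eq_mul,
    Matrix.cons_val, mul_zero, add_zero, mul_one, mul_add, Real.exp_add, smul_smul]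
  congr 1
  ring

theorem posOn_map (h : H.SecOK v D) : PosOn D.map univ := by
  refine ⟨h.contDiff_map.contDiffOn, fun p _ q _ hpq => ?_, fun p _ => ?_⟩
  · have h1 := congrArg norm hpq
    rw [h.norm_map, h.norm_map] at h1
    have h2 := mul_left_cancel₀ h.η_pos.ne' (Real.exp_injective (mul_left_cancel₀ h.ρ_pos.ne' h1))
    rw [MSec_map, MSec_map] at hpq
    have h3 := congrArg (inner ℝ D.b) hpq
    rw [real_inner_smul_right, real_inner_smul_right, MSec_n, MSec_n, h.MSec_b, h.MSec_b, mul_one,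
      mul_one] at h3
    rw [h3] at hpq
    have h4 := smul_right_injective E3 (h.MSec_spos q).ne' hpq
    have h5 := congrArg (inner ℝ D.u) h4
    have h6 := congrArg (inner ℝ D.w) h4
    have h7 : ‖D.u‖ ^ 2 ≠ 0 := pow_ne_zero 2 (norm_ne_zero_iff.2 h.u_ne)
    rw [MSec_n, MSec_n, h.MSec_u, h.MSec_u] at h5
    rw [MSec_n, MSec_n, h.MSec_w, h.MSec_w] at h6
    ext i
    fin_cases i
    · exact mul_right_cancel₀ h7 h5
    · exact h2
    · exact mul_right_cancel₀ h7 h6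
  · have h1 : fderiv ℝ D.map p = _ :=
      ((h.MSec_contDiff.2.differentiable (by simp) p).hasFDerivAt.smul (MSec_hasFDerivAt D p)).fderiv
    have h2 : fderiv ℝ D.map p !₂[1, 0, 0] =
        MSec_s D p • D.u + fderiv ℝ (MSec_s D) p !₂[1, 0, 0] • MSec_n D p := by
      rw [h1]
      simp
    have h3 : fderiv ℝ D.map p !₂[0, 0, 1] =
        MSec_s D p • D.w + fderiv ℝ (MSec_s D) p !₂[0, 0, 1] • MSec_n D p := by
      rw [h1]
      simp
    have h4 := mul_pos (mul_pos h.η_pos (pow_pos (h.MSec_spos p) 3)) h.det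
    rw [MSec_det, h2, h3, h.fderiv_map_ey, MSec_map]
    refine h4.trans_eq ?_
    simp only [Matrix.det_fin_three, Matrix.of_apply, Matrix.cons_val, MSec_n, PiLp.add_apply,
      PiLp.smul_apply, smul_eq_mul]
    ring

theorem map_mem_shell (h : H.SecOK v D) {p : E3} : D.map p ∈ D.shell ↔ |p 1| < 9 / 8 := by
  have h1 := h.η_pos
  rw [Sec.shell, mem_ofPred_eq, h.norm_map, mul_lt_mul_iff_right₀ h.ρ_pos,
    mul_lt_mul_iff_right₀ h.ρ_pos, Real.exp_lt_exp, Real.exp_lt_exp, abs_lt]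
  constructor
  · exact fun h2 => ⟨by nlinarith [h2.1], by nlinarith [h2.2]⟩
  · exact fun h2 => ⟨by nlinarith [h2.1], by nlinarith [h2.2]⟩

theorem mPosOn (h : H.SecOK v D) : MPosOn (H.cv v ∘ D.map) univ := by
  have h1 := (H.cv_chart v).mPosOn
  rw [H.cv_source] at h1
  exact h1.comp isOpen_univ h.posOn_map isOpen_univ (mapsTo_univ _ _)

theorem mapsTo (h : H.SecOK v D) : MapsTo (H.cv v ∘ D.map) (Qb 2) H.gsᶜ := fun p hp h1 =>
  h.free (p 0) (p 2) (hp 0).le (hp 2).le ((H.cv_smul_mem_gs (h.MSec_spos p)).1 h1)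

/-- every point of the open half space on the side of `b` lies in the image of the chart -/
theorem exists_map_eq (h : H.SecOK v D) {q : E3} (hq : 0 < inner ℝ D.b q) :
    ∃ p, D.map p = q := by
  have h7 : ‖D.u‖ ≠ 0 := norm_ne_zero_iff.2 h.u_ne
  obtain ⟨x, hx⟩ : ∃ x, inner ℝ D.b q * (x * ‖D.u‖ ^ 2) = inner ℝ D.u q :=
    ⟨inner ℝ D.u q / (inner ℝ D.b q * ‖D.u‖ ^ 2), by field_simp⟩
  obtain ⟨z, hz⟩ : ∃ z, inner ℝ D.b q * (z * ‖D.u‖ ^ 2) = inner ℝ D.w q :=
    ⟨inner ℝ D.w q / (inner ℝ D.b q * ‖D.u‖ ^ 2), by field_simp⟩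
  have h1 : q - inner ℝ D.b q • (D.b + x • D.u + z • D.w) = 0 := by
    have e : ∀ a r : E3, a.ofLp ⬝ᵥ r.ofLp = inner ℝ a r := fun a r => by
      rw [EuclideanSpace.inner_eq_star_dotProduct, dotProduct_comm]
      simp
    have h2 := Matrix.eq_zero_of_mulVec_eq_zero h.det.ne'
      (v := (q - inner ℝ D.b q • (D.b + x • D.u + z • D.w)).ofLp) (by
        ext i
        fin_cases i
        · show D.u.ofLp ⬝ᵥ _ = 0
          rw [e, inner_sub_right, real_inner_smul_right, h.MSec_u, hx, sub_self]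
        · show D.b.ofLp ⬝ᵥ _ = 0
          rw [e, inner_sub_right, real_inner_smul_right, h.MSec_b, mul_one, sub_self]
        · show D.w.ofLp ⬝ᵥ _ = 0
          rw [e, inner_sub_right, real_inner_smul_right, h.MSec_w, hz, sub_self])
    exact (WithLp.ofLp_eq_zero 2).1 h2
  have h3 : 0 < ‖D.b + x • D.u + z • D.w‖ := one_pos.trans_le (h.one_le_norm _ _)
  have h4 := h.ρ_pos
  have h5 := h.η_pos
  refine ⟨!₂[x, Real.log (inner ℝ D.b q * ‖D.b + x • D.u + z • D.w‖ / D.ρ) / D.η, z], ?_⟩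
  simp only [Sec.map, Matrix.cons_val]
  rw [mul_div_cancel₀ _ h5.ne', Real.exp_log (by positivity), mul_div_cancel₀ _ h4.ne',
    mul_div_cancel_right₀ _ h3.ne']
  exact (sub_eq_zero.1 h1).symm

end HD.SecOK

end Pool.Agent.P.MP_ac4909_gt.B
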