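import Pool.Agent.P.MP_ac4909_gt.B.MInit_I
import Pool.Agent.P.MP_ac4909_gt.B.MInit_GC
import Pool.Agent.P.MP_ac4909_gt.B.MInit_MC
import Pool.Agent.P.MP_ac4909_gt.B.MSec

/-! Sectors for the radial segments; position of the other parts of the meridians. -/

namespace Pool.Agent.P.MP_ac4909_gt.B

open scoped Manifold ContDiff
open Set Filter Topology Metric

variable {M : Type*} [TopologicalSpace M] [ChartedSpace E3 M] {ι Vx κ : Type}

theorem MI_map_plane (D : Sec) (x y : ℝ) : D.map !₂[x, y, 0] =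
    (D.ρ * Real.exp (D.η * y)) • ‖D.b + x • D.u‖⁻¹ • (D.b + x • D.u) := by
  simp [Sec.map, smul_smul, div_eq_mul_inv, mul_assoc]

theorem HD.SecOK.MI_fderiv_ez {H : HD M ι Vx} {v : Vx} {D : Sec} (h : H.SecOK v D) (x y : ℝ) :
    fderiv ℝ D.map !₂[x, y, 0] ez =
      (D.ρ * Real.exp (D.η * y)) • ‖D.b + x • D.u‖⁻¹ • D.w := by
  set q := D.b + x • D.u with hq
  have hq0 : 0 < ‖q‖ := by
    have := h.one_le_norm x 0
    rw [zero_smul, add_zero] at this
    linarith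
  have hqw : inner ℝ q D.w = (0 : ℝ) := by
    rw [hq, inner_add_left, real_inner_smul_left, h.bw, h.uw]
    simp
  have h1 : HasDerivAt (fun z : ℝ => (!₂[x, y, 0] : E3) + z • ez) ez 0 := by
    simpa using ((hasDerivAt_id (0 : ℝ)).smul_const ez).const_add (!₂[x, y, 0] : E3)
  have h2 : HasFDerivAt D.map (fderiv ℝ D.map !₂[x, y, 0]) ((!₂[x, y, 0] : E3) + (0 : ℝ) • ez) := by
    rw [zero_smul, add_zero]
    exact (h.contDiff_map.differentiable (by simp) _).hasFDerivAt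
  have h3 := h2.comp_hasDerivAt (0 : ℝ) h1
  have h4 : HasDerivAt (fun z : ℝ => q + z • D.w) D.w 0 := by
    simpa using ((hasDerivAt_id (0 : ℝ)).smul_const D.w).const_add q
  have h5 : HasDerivAt (fun z : ℝ => ‖q + z • D.w‖) 0 0 := by
    have h6 := h4.norm_sq.sqrt (by simpa using hq0.ne')
    simp only [Real.sqrt_sq (norm_nonneg _), zero_smul, add_zero, hqw, mul_zero, zero_div] at h6
    exact h6
  have h7 := ((hasDerivAt_const (0 : ℝ) (D.ρ * Real.exp (D.η * y))).div h5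
    (by simpa using hq0.ne')).smul h4
  have e : (D.map ∘ fun z : ℝ => (!₂[x, y, 0] : E3) + z • ez) =
      fun z : ℝ => (D.ρ * Real.exp (D.η * y) / ‖q + z • D.w‖) • (q + z • D.w) := by
    funext z
    simp [Sec.map, ez, hq]
  rw [e] at h3
  rw [h3.unique h7]
  simp [smul_smul, div_eq_mul_inv]

theorem MI_exists_chi (τ₀ : ℝ) : ∃ χ : ℝ → ℝ, ContDiff ℝ ∞ χ ∧ (∀ τ, 3 ≤ |τ - τ₀| → χ τ = 0) ∧
    (∀ τ, |τ - τ₀| ≤ 2 → χ τ = 1) ∧ ∀ τ, χ τ ∈ Icc (0 : ℝ) 1 := by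
  let f : ContDiffBump τ₀ := ⟨2, 3, by norm_num, by norm_num⟩
  exact ⟨f, f.contDiff, fun τ h => f.zero_of_le_dist h, fun τ h => f.one_of_mem_closedBall h,
    fun τ => ⟨f.nonneg, f.le_one⟩⟩

theorem MI_exists_param {s τ₀ τ : ℝ} {d : E3} (h1 : τ₀ + 4 ≤ Real.log ‖d‖)
    (h2 : Real.log ‖d‖ - s ≤ τ₀ - 4) (hτ : |τ - τ₀| < 9 / 8) (b : Bool) :
    ∃ t, 1 / 2 < MI_sg b * Real.sin (2 * Real.pi * t) ∧ MI_tau s d t = τ := by
  rw [abs_lt] at hτ
  obtain ⟨x, hx, hxe⟩ := intermediate_value_Icc (show (-2 / 5 : ℝ) ≤ 2 / 5 by norm_num)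
    (MI_L_contDiff s).continuous.continuousOn (show τ - Real.log ‖d‖ ∈ _ from
      ⟨by rw [MI_L_of_le (by norm_num)]; linarith, by rw [MI_L_of_ge (by norm_num)]; linarith⟩)
  have e : 2 * Real.pi * (MI_sg b * Real.arccos (2 * x) / (2 * Real.pi)) =
      MI_sg b * Real.arccos (2 * x) := by field_simp
  have hc := Real.cos_arccos (x := 2 * x) (by linarith [hx.1]) (by linarith [hx.2])
  have hs : 1 / 2 < Real.sin (Real.arccos (2 * x)) := by
    rw [Real.sin_arccos]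
    apply Real.lt_sqrt_of_sq_lt
    nlinarith [hx.1, hx.2]
  refine ⟨MI_sg b * Real.arccos (2 * x) / (2 * Real.pi), ?_, ?_⟩
  · rw [e]
    rcases MI_sg_cases b with h | h <;> rw [h] <;> simpa using hs
  · have : Real.cos (MI_sg b * Real.arccos (2 * x)) / 2 = x := by
      rcases MI_sg_cases b with h | h <;> rw [h] <;> simp [hc]
    rw [MI_tau, e, this, hxe]
    ring

namespace HD
variable (H : HD M ι Vx)

theorem MI_mer_proj (e : ι) (s θ η t : ℝ) :
    (H.MI_mer e s θ η t).proj = H.ce e (cylc (MI_aff s θ η (MI_enc t))) := rfl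

theorem MI_mer_not_cyl (e : ι) {s : ℝ} (hs : 0 ≤ s) (θ η t : ℝ) {R : ℝ}
    (hR : Real.exp (-s) * R < 1 / 4) : (H.MI_mer e s θ η t).proj ∉ H.cyl R (Real.exp (-s)) := by
  intro h
  simp only [cyl, mem_iUnion] at h
  obtain ⟨e', q, ⟨hq1, hq2⟩, h⟩ := h
  have hε := Real.exp_pos (-s)
  have hq : q ∈ Dom := by
    change rad q * |q 2| < 1
    rw [hq1]
    nlinarith
  have hp := cylc_mem_Dom.2 (MI_aff_lt (s := s) (θ := θ) (η := η) (MI_enc_mem' t))
  rw [MI_mer_proj] at h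
  have he : e' = e := by
    by_contra he
    exact disjoint_left.1 (H.ce_disj he) ((H.ce e').map_source (by rwa [H.ce_source]))
      (h ▸ (H.ce e).map_source (by rwa [H.ce_source]))
  subst he
  have h1 := (H.ce e').injOn (by rwa [H.ce_source]) (by rwa [H.ce_source]) h
  rw [h1, rad_cylc, Real.exp_eq_exp] at hq1
  have h0 : Real.cos (2 * Real.pi * t) / 2 = 0 := by
    apply (MI_L_strictMono hs).injective
    rw [MI_L_of_le (x := 0) (by norm_num), zero_sub]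
    exact hq1
  have h2 : q 2 = -st (Real.sin (2 * Real.pi * t)) / 2 / 2 * Real.exp s := by
    rw [h1]
    change _ * Real.exp (-MI_aff s θ η (MI_enc t) 0) = _
    rw [hq1, neg_neg]
    rfl
  have h3 := Real.cos_sq_add_sin_sq (2 * Real.pi * t)
  have h4 : |st (Real.sin (2 * Real.pi * t))| = 1 := by
    rcases MI_sg_or (Real.sin (2 * Real.pi * t)) with h5 | ⟨b, h5⟩
    · rw [abs_le] at h5
      nlinarith
    · rw [MI_st_sg h5.le]
      rcases MI_sg_cases b with h | h <;> simp [h]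
  rw [h2, abs_mul, abs_div, abs_div, abs_neg, h4, abs_two, abs_of_pos (Real.exp_pos s)] at hq2
  have h6 : Real.exp (-s) * Real.exp s = 1 := by rw [← Real.exp_add]; simp
  nlinarith

theorem MI_mer_tubes (e : ι) (s θ η : ℝ) {t : ℝ} (ht : |Real.sin (2 * Real.pi * t)| ≤ 1 / 2)
    {ρ ρ' C R : ℝ} (hρ' : 0 < ρ') (hC : 0 < C)
    (hfar : ∀ p ∈ Dom, p 2 ≠ 0 → C < ρ' * |p 2| → H.ce e p ∈ H.balls ρ') (hR : C < ρ' * R)
    (hout : (H.MI_mer e 0 θ η t).proj ∉ H.balls ρ) {v : Vx} {p : E3} (h1 : ρ' ≤ ‖p‖)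
    (h2 : ‖p‖ < ρ) (h : (H.MI_mer e s θ η t).proj = H.cv v p) :
    H.cv v p ∈ H.tubes R (Real.exp (-s)) := by
  have h3 := Real.cos_sq_add_sin_sq (2 * Real.pi * t)
  rw [abs_le] at ht
  rcases le_total 0 (Real.cos (2 * Real.pi * t)) with hc | hc
  · exfalso
    apply hout
    have hx : 1 / 5 ≤ MI_enc t 0 := by
      change 1 / 5 ≤ Real.cos (2 * Real.pi * t) / 2
      nlinarith
    have : MI_aff 0 θ η (MI_enc t) = MI_aff s θ η (MI_enc t) := by
      rw [MI_aff, MI_aff, MI_L_of_ge hx, MI_L_of_ge hx]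
    rw [MI_mer_proj, this, ← MI_mer_proj, h]
    exact mem_iUnion.2 ⟨v, p, by simpa using h2, rfl⟩
  · have hx : MI_enc t 0 < 0 := by
      change Real.cos (2 * Real.pi * t) / 2 < 0
      nlinarith
    have hp := cylc_mem_Dom.2 (MI_aff_lt (s := s) (θ := θ) (η := η) (MI_enc_mem' t))
    rw [MI_mer_proj] at h
    set q := cylc (MI_aff s θ η (MI_enc t)) with hq
    rcases le_or_gt |q 2| R with h4 | h4
    · refine mem_iUnion.2 ⟨e, q, ⟨?_, h4⟩, h⟩
      rw [hq, rad_cylc, Real.exp_lt_exp]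
      change MI_L s (MI_enc t 0) < -s
      rw [MI_L_of_le (by linarith)]
      linarith
    · have hR0 : 0 < R := by
        by_contra hR0
        nlinarith
      have h5 := hfar q hp (abs_pos.1 (by linarith)) (by nlinarith)
      obtain ⟨v', p', hp', h6⟩ := mem_iUnion.1 h5
      rw [h] at h6
      obtain ⟨-, rfl⟩ := H.MI_cv_eq h6
      rw [mem_ball_zero_iff] at hp'
      linarith

/-- sectors at all vertices and paths of framed directions into them -/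
structure MI_All {I : Type} (vv : I → Vx) (d n : I → E3) (D : Vx → Sec) (x : I → ℝ)
    (δ ν : I → ℝ → E3) : Prop where
  ok : ∀ v, H.SecOK v (D v)
  xs : ∀ v a, a ∈ (D v).xs ↔ ∃ i, vv i = v ∧ x i = a
  δ_smooth : ∀ i, ContDiff ℝ ∞ (δ i)
  ν_smooth : ∀ i, ContDiff ℝ ∞ (ν i)
  δ_norm : ∀ i m, ‖δ i m‖ = 1
  δ_zero : ∀ i, δ i 0 = ‖d i‖⁻¹ • d i
  ν_zero : ∀ i, ν i 0 = ‖d i‖⁻¹ • n i
  δ_one : ∀ i, δ i 1 = ‖(D (vv i)).b + x i • (D (vv i)).u‖⁻¹ • ((D (vv i)).b + x i • (D (vv i)).u)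
  ν_one : ∀ i, ν i 1 = ‖(D (vv i)).b + x i • (D (vv i)).u‖⁻¹ • (D (vv i)).w
  δ_off : ∀ i m, H.cv (vv i) (δ i m) ∉ H.gs
  δ_ne : ∀ i i' m, vv i = vv i' → δ i m = δ i' m → i = i'
  indep : ∀ i m (r : ℝ), LinearIndependent ℝ ![δ i m + r • deriv (δ i) m, ν i m]

theorem MI_exists_all [Fintype ι] [Fintype Vx] [T2Space M] {I : Type} [Fintype I] {vv : I → Vx}
    {d n : I → E3} (hi : ∀ i, LinearIndependent ℝ ![d i, n i])
    (hoff : ∀ i, H.cv (vv i) (d i) ∉ H.gs)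
    (hne : ∀ i i' (a : ℝ), vv i = vv i' → 0 < a → d i = a • d i' → i = i') {ρ : ℝ} (hρ : 0 < ρ) :
    ∃ D x δ ν, H.MI_All vv d n D x δ ν ∧ ∀ v, (D v).ρ = ρ ∧ (D v).η = 1 := by
  classical
  have key : ∀ v, ∃ b u w x δ ν, MI_Gath (H.cv v ⁻¹' H.gs) (fun i : {i // vv i = v} => d i)
      (fun i => n i) b u w x δ ν := by
    intro v
    obtain ⟨F, hF, -, hG⟩ := H.exists_rays v
    refine MI_gather (H.isCompact_gs.isClosed.preimage
      (continuous_iff_continuousAt.2 fun p => (H.MI_cv_smooth v p).continuousAt)) hF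
      (fun p hp => ?_) (fun p a ha hp => (H.cv_smul_mem_gs ha).1 hp) (fun i => ?_)
      (fun i => hi i) fun i i' a ha h => Subtype.ext (hne _ _ a (i.2.trans i'.2.symm) ha h)
    · rcases (hG p).1 hp with h | ⟨f, hf, a, -, h⟩
      · exact Or.inl h
      · exact Or.inr ⟨f, hf, a, h⟩
    · have := hoff i
      rwa [i.2] at this
  choose b u w x δ ν h using key
  refine ⟨fun v => ⟨b v, u v, w v, ρ, 1, (Finset.univ.image (x v)).sort⟩,
    fun i => x (vv i) ⟨i, rfl⟩, fun i => δ (vv i) ⟨i, rfl⟩, fun i => ν (vv i) ⟨i, rfl⟩,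
    ⟨fun v => ⟨hρ, one_pos, (h v).norm_b, (h v).norm_uw, (h v).bu, (h v).bw, (h v).uw, (h v).det,
      ⟨?_, fun a ha => ?_⟩, (h v).free, (h v).free'⟩, fun v a => ?_, fun i => (h _).δ_smooth _,
      fun i => (h _).ν_smooth _, fun i => (h _).δ_norm _, fun i => (h _).δ_zero _,
      fun i => (h _).ν_zero _, fun i => (h _).δ_one _, fun i => (h _).ν_one _,
      fun i => (h _).δ_off _, fun i i' m hv e => ?_, fun i => (h _).indep _⟩,
    fun _ => ⟨rfl, rfl⟩⟩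
  · exact (Finset.sortedLT_sort _).pairwise
  · simp only [Finset.mem_sort, Finset.mem_image] at ha
    obtain ⟨i, -, rfl⟩ := ha
    exact (h v).x_le i
  · simp only [Finset.mem_sort, Finset.mem_image, Finset.mem_univ, true_and]
    constructor
    · rintro ⟨⟨i, rfl⟩, rfl⟩
      exact ⟨i, rfl, rfl⟩
    · rintro ⟨i, rfl, rfl⟩
      exact ⟨_, rfl⟩
  · have e' : ∀ v (hv : vv i' = v), δ (vv i') ⟨i', rfl⟩ = δ v ⟨i', hv⟩ := by
      rintro v rfl
      rfl
    rw [e' _ hv.symm] at e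
    exact congrArg Subtype.val ((h _).δ_ne _ _ m e)

end HD

end Pool.Agent.P.MP_ac4909_gt.B
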