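import Pool.Agent.P.MP_ac4909_gt.B.MLift
import Pool.Agent.P.MP_ac4909_gt.B.MSec
import Pool.Agent.P.MP_ac4909_gt.B.MInit_S

/-! Meridians of the surgery curves in radial position. -/

namespace Pool.Agent.P.MP_ac4909_gt.B

open scoped Manifold ContDiff
open Set Filter Topology

variable {M : Type*} [TopologicalSpace M] [T2Space M] [ChartedSpace E3 M]
  [IsManifold (𝓡 3) ∞ M] {ι Vx : Type} [Fintype ι] [DecidableEq ι] [Fintype Vx]

omit [T2Space M] [IsManifold (𝓡 3) ∞ M] [Fintype ι] [DecidableEq ι] in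
theorem HD.MI_exists_Z (H : HD M ι Vx) {I : Type} [Fintype I] {vv : I → Vx} {d n : I → E3}
    {D : Vx → Sec} {x : I → ℝ} {δ ν : I → ℝ → E3} (h : H.MI_All vv d n D x δ ν) {τ₀ : ℝ}
    (hD : ∀ v, (D v).ρ = Real.exp τ₀ ∧ (D v).η = 1) :
    ∃ Z : Set M, IsCompact Z ∧ Disjoint Z H.gs ∧
      (∀ i τ, |τ - τ₀| ≤ 3 → ∀ m ∈ Icc (0 : ℝ) 1, H.cv (vv i) (Real.exp τ • δ i m) ∈ Z) ∧
      (∀ v, ∀ p ∈ Qb (9 / 8), H.cv v ((D v).map p) ∈ Z) ∧
      ∀ z ∈ Z, ∃ v p, z = H.cv v p ∧ Real.exp (τ₀ - 4) ≤ ‖p‖ ∧ ‖p‖ < Real.exp (τ₀ + 4) := by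
  have hcv : ∀ v, Continuous (H.cv v) := fun v =>
    continuous_iff_continuousAt.2 fun p => (H.MI_cv_smooth v p).continuousAt
  refine ⟨(⋃ i, (fun q : ℝ × ℝ => H.cv (vv i) (Real.exp q.1 • δ i q.2)) ''
      (Icc (τ₀ - 3) (τ₀ + 3) ×ˢ Icc 0 1)) ∪ ⋃ v, (H.cv v ∘ (D v).map) '' closure (Qb (9 / 8)),
    IsCompact.union (isCompact_iUnion fun i => (isCompact_Icc.prod isCompact_Icc).image ?_)
      (isCompact_iUnion fun v => (isCompact_closure_Qb _).image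
        ((hcv v).comp (h.ok v).contDiff_map.continuous)), ?_, fun i τ hτ m hm => ?_,
    fun v p hp => Or.inr (mem_iUnion.2 ⟨v, p, subset_closure hp, rfl⟩), ?_⟩
  · exact (hcv _).comp ((Real.continuous_exp.comp continuous_fst).smul
      ((h.δ_smooth i).continuous.comp continuous_snd))
  · rw [disjoint_left]
    rintro z (hz | hz)
    · obtain ⟨i, q, -, rfl⟩ := mem_iUnion.1 hz
      exact fun hg => h.δ_off i _ ((H.cv_smul_mem_gs (Real.exp_pos _)).1 hg)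
    · obtain ⟨v, p, hp, rfl⟩ := mem_iUnion.1 hz
      exact (h.ok v).mapsTo (closure_Qb_subset (by norm_num) hp)
  · rw [abs_le] at hτ
    exact Or.inl (mem_iUnion.2 ⟨i, (τ, m), ⟨⟨by linarith [hτ.1], by linarith [hτ.2]⟩, hm⟩, rfl⟩)
  · rintro z (hz | hz)
    · obtain ⟨i, q, ⟨hq, -⟩, rfl⟩ := mem_iUnion.1 hz
      refine ⟨_, _, rfl, ?_⟩
      rw [norm_smul, h.δ_norm, mul_one, Real.norm_of_nonneg (Real.exp_pos _).le, Real.exp_le_exp,
        Real.exp_lt_exp]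
      exact ⟨by linarith [hq.1], by linarith [hq.2]⟩
    · obtain ⟨v, p, hp, rfl⟩ := mem_iUnion.1 hz
      refine ⟨_, _, rfl, ?_⟩
      have h1 := abs_lt.1 (closure_Qb_subset (show (9 / 8 : ℝ) < 2 by norm_num) hp 1)
      rw [(h.ok v).norm_map, (hD v).1, (hD v).2, one_mul, ← Real.exp_add, Real.exp_le_exp,
        Real.exp_lt_exp]
      exact ⟨by linarith [h1.1], by linarith [h1.2]⟩

omit [T2Space M] [IsManifold (𝓡 3) ∞ M] [Fintype ι] [DecidableEq ι] [Fintype Vx] in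
theorem HD.MI_seg_mid (H : HD M ι Vx) {I : Type} {vv : I → Vx} {d n : I → E3}
    {D : Vx → Sec} {x : I → ℝ} {δ ν : I → ℝ → E3} (h : H.MI_All vv d n D x δ ν) {τ₀ : ℝ}
    (hD : ∀ v, (D v).ρ = Real.exp τ₀ ∧ (D v).η = 1) {τ χ : ℝ → ℝ}
    (hχ : ∀ τ, |τ - τ₀| ≤ 2 → χ τ = 1) (i : I) {t : ℝ} (ht : |τ t - τ₀| ≤ 2) :
    H.MI_seg (vv i) τ χ (δ i) (ν i) 1 t =
      pushT (H.cv (vv i) ∘ (D (vv i)).map) !₂[x i, τ t - τ₀, 0] ez := by
  rw [pushT_comp ((H.MI_cv_smooth _ _).mdifferentiableAt (by simp))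
    ((h.ok _).contDiff_map.differentiable (by simp) _), (h.ok _).MI_fderiv_ez, MI_map_plane,
    (hD _).1, (hD _).2, one_mul, ← Real.exp_add, add_sub_cancel, HD.MI_seg, hχ _ ht, mul_one,
    h.δ_one, h.ν_one]

theorem HD.init (H : HD M ι Vx) {E : EvSys ι (ℕ × (ι → ℕ))} (hE : AFacts E) (j : ι → ℕ) :
    ∃ D : Vx → Sec, (∀ v, H.SecOK v (D v)) ∧ ∀ᶠ R in atTop, ∀ᶠ ε in 𝓝[>] (0 : ℝ),
      ∃ K, IsLS K ∧ H.Radial D R ε K ∧ ∀ p, H.zv E (H.tot K ε) p =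
        (∏ i, mu (aa p.1) (p.2 i) ^ j i) * H.zv E (H.Y 1) p := by
  classical
  obtain ⟨θ, η, hA⟩ := MI_exists_ang (Σ e, Fin (j e))
  obtain ⟨vv, d, n, hrad⟩ := H.MI_exists_rad hA Sigma.fst
  have hd0 : ∀ i, d i ≠ 0 := fun i => (hrad.indep i).ne_zero 0
  have hdn : ∀ i, 0 < ‖d i‖ := fun i => norm_pos_iff.2 (hd0 i)
  obtain ⟨ρ, ⟨hρ1, hρ2⟩, hρ⟩ := (((H.eventually_thin
    (H.MI_K_isLS hA le_rfl Sigma.fst univ).isCompact_base (H.MI_K_disj_gs _ _ _ _ _)).1.and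
    (eventually_all.2 fun i => (eventually_lt_nhds (hdn i)).filter_mono nhdsWithin_le_nhds)).and
    self_mem_nhdsWithin).exists
  set τ₀ := Real.log ρ - 4 with hτ₀
  have hρe : Real.exp (τ₀ + 4) = ρ := by rw [hτ₀, sub_add_cancel, Real.exp_log hρ]
  obtain ⟨D, x, δ, ν, hall, hD⟩ :=
    H.MI_exists_all hrad.indep hrad.off hrad.ne (Real.exp_pos τ₀)
  obtain ⟨Z, hZc, hZg, hZ1, hZ2, hZ3⟩ := H.MI_exists_Z hall hD
  obtain ⟨χ, hχ, hχ0, hχ1, hχ2⟩ := MI_exists_chi τ₀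
  obtain ⟨C, hC, hfar⟩ := H.exists_far
  refine ⟨D, hall.ok, ?_⟩
  filter_upwards [eventually_gt_atTop (C / Real.exp (τ₀ - 4))] with R hR
  have hR0 : 0 < R := lt_trans (by positivity) hR
  rw [div_lt_iff₀' (Real.exp_pos _)] at hR
  have hsm : ∀ a : ℝ, 0 < a → ∀ᶠ ε in 𝓝[>] (0 : ℝ), ε < a := fun a ha =>
    (eventually_lt_nhds ha).filter_mono nhdsWithin_le_nhds
  filter_upwards [(H.eventually_thin hZc hZg).2 R, hsm (1 / 4 / R) (by positivity),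
    hsm 1 one_pos, eventually_all.2 fun i => hsm (Real.exp (τ₀ - 4) / ‖d i‖)
      (div_pos (Real.exp_pos _) (hdn i)), self_mem_nhdsWithin] with ε hε1 hε2 hε3 hε4 hε0
  obtain ⟨s, rfl⟩ : ∃ s, ε = Real.exp (-s) := ⟨-Real.log ε, by rw [neg_neg, Real.exp_log hε0]⟩
  have hs : 0 ≤ s := by
    rw [Real.exp_lt_one_iff] at hε3
    linarith
  rw [lt_div_iff₀ hR0] at hε2
  rw [disjoint_union_right] at hε1
  have hp1 : ∀ i, τ₀ + 4 ≤ Real.log ‖d i‖ := fun i => by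
    rw [hτ₀, sub_add_cancel]
    exact Real.log_le_log hρ (hρ2 i).le
  have hp2 : ∀ i, Real.log ‖d i‖ - s ≤ τ₀ - 4 := fun i => by
    have := hε4 i
    rw [← Real.exp_log (hdn i), ← Real.exp_sub, Real.exp_lt_exp] at this
    linarith
  set Γ : (Σ e, Fin (j e)) → ℝ → TM M := fun c => H.MI_mer c.1 s (θ c) η with hΓ
  have hΓK : trace Γ = H.MI_K Sigma.fst s θ η univ := by
    ext y
    simp [HD.MI_K, trace, eq_comm, hΓ]
  have hNS : ∀ c t, |Real.sin (2 * Real.pi * t)| ≤ 1 / 2 → ∀ v p, Real.exp (τ₀ - 4) ≤ ‖p‖ →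
      ‖p‖ < Real.exp (τ₀ + 4) → (Γ c t).proj = H.cv v p → H.cv v p ∈ H.tubes R (Real.exp (-s)) :=
    fun c t ht v p h1 h2 h => H.MI_mer_tubes c.1 s (θ c) η ht (Real.exp_pos _) hC
      (fun q hq => hfar c.1 q hq _) hR
      (disjoint_left.1 hρ1 ⟨_, ⟨c, mem_univ _, t, rfl⟩, rfl⟩) h1 (hρe ▸ h2) h
  have hB : ∀ c t, |Real.sin (2 * Real.pi * t)| ≤ 1 / 2 → (Γ c t).proj ∉ Z := by
    intro c t ht hz
    obtain ⟨v, p, h, h1, h2⟩ := hZ3 _ hz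
    exact disjoint_left.1 hε1.1 hz (h ▸ hNS c t ht v p h1 h2 h)
  obtain ⟨J, hJ, hJ0, hJ1, hJ2⟩ := H.MI_iso (H.MI_mer_isLink hA hs Sigma.fst) hs hd0 (hrad.mer s)
    hall.δ_smooth hall.ν_smooth hall.δ_norm hall.δ_zero hall.ν_zero hall.δ_ne hall.indep hχ hχ0
    hχ2 hZ1 hB
  have hsub : base (trace (J 1)) ⊆ Z ∪ base (trace Γ) := by
    rintro _ ⟨y, hy, rfl⟩
    obtain ⟨c, t, rfl⟩ := mem_iUnion.1 hy
    exact hJ.mem 1 (by simp) c t
  have hg : Disjoint (Z ∪ base (trace Γ)) H.gs :=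
    disjoint_union_left.2 ⟨hZg, hΓK ▸ H.MI_K_disj_gs _ _ _ _ _⟩
  have hseg : ∀ (i : (Σ e, Fin (j e)) × Bool) t v p,
      1 / 2 < MI_sg i.2 * Real.sin (2 * Real.pi * t) → p ∈ (D v).shell →
      (J 1 i.1 t).proj = H.cv v p → vv i = v ∧ |MI_tau s (d i) t - τ₀| < 9 / 8 := by
    intro i t v p ht hp h
    rw [hJ2 i t ht] at h
    obtain ⟨hv, rfl⟩ := H.MI_cv_eq h
    refine ⟨hv, ?_⟩
    obtain ⟨h1, h2⟩ := hp
    rw [norm_smul, hall.δ_norm, mul_one, Real.norm_of_nonneg (Real.exp_pos _).le, (hD v).1,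
      (hD v).2, ← Real.exp_add, Real.exp_lt_exp] at h1 h2
    rw [abs_lt]
    constructor <;> linarith
  have hmid : ∀ (i : (Σ e, Fin (j e)) × Bool) t,
      1 / 2 < MI_sg i.2 * Real.sin (2 * Real.pi * t) → |MI_tau s (d i) t - τ₀| < 9 / 8 →
      J 1 i.1 t = pushT (H.cv (vv i) ∘ (D (vv i)).map) !₂[x i, MI_tau s (d i) t - τ₀, 0] ez ∧
        (!₂[x i, MI_tau s (d i) t - τ₀, 0] : E3) ∈ Qb (9 / 8) := by
    intro i t ht h
    refine ⟨by rw [hJ2 i t ht, H.MI_seg_mid hall hD hχ1 i (by linarith)], fun k => ?_⟩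
    have := (hall.ok (vv i)).pos.2 _ ((hall.xs _ _).2 ⟨i, rfl, rfl⟩)
    fin_cases k
    · exact this.trans_lt (by norm_num)
    · exact h
    · change |(0 : ℝ)| < 9 / 8
      norm_num
  refine ⟨trace (J 1), ⟨_, inferInstance, _, hJ.link 1 (by simp), rfl⟩,
    ⟨hg.mono_left hsub, fun v => ?_, fun v p hp h => ?_, ?_⟩, fun p => ?_⟩
  · ext ⟨l, y⟩
    constructor
    · rintro ⟨⟨hl, hy⟩, p, hp, h⟩
      obtain ⟨c, t, rfl⟩ := mem_iUnion.1 hy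
      rcases MI_sg_or (Real.sin (2 * Real.pi * t)) with ht | ⟨b, ht⟩
      · rw [hJ1 c t ht] at h
        exact absurd (h ▸ hZ2 v p hp) (hB c t ht)
      · obtain ⟨rfl, h1⟩ := hseg (c, b) t v _ ht ((hall.ok v).map_mem_shell.2 (hp 1)) h.symm
        obtain ⟨h2, h3⟩ := hmid (c, b) t ht h1
        exact ⟨(none, _), ⟨⟨rfl, (hall.xs _ _).2 ⟨(c, b), rfl, rfl⟩, rfl⟩, h3⟩,
          Prod.ext hl.symm h2.symm⟩
    · rintro ⟨⟨l', p⟩, ⟨⟨hl, h0, h2⟩, hp⟩, h⟩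
      obtain ⟨i, rfl, hx⟩ := (hall.xs _ _).1 h0
      obtain ⟨t, ht, hτ⟩ := MI_exists_param (τ := τ₀ + p 1) (hp1 i) (hp2 i)
        (by rw [add_sub_cancel_left]; exact hp 1) i.2
      have h3 := (hmid i t ht (by rw [hτ, add_sub_cancel_left]; exact hp 1)).1
      have e : (!₂[x i, MI_tau s (d i) t - τ₀, 0] : E3) = p := by
        rw [hτ, add_sub_cancel_left]
        ext k
        fin_cases k
        · exact hx
        · rfl
        · exact h2.symm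
      rw [e] at h3
      rw [← h]
      exact ⟨⟨hl, mem_iUnion.2 ⟨i.1, t, h3⟩⟩, p, hp, rfl⟩
  · obtain ⟨y, hy, h⟩ := h
    obtain ⟨c, t, rfl⟩ := mem_iUnion.1 hy
    rcases MI_sg_or (Real.sin (2 * Real.pi * t)) with ht | ⟨b, ht⟩
    · right
      rw [hJ1 c t ht] at h
      obtain ⟨h1, h2⟩ := hp
      rw [(hD v).1, (hD v).2, ← Real.exp_add] at h1 h2
      exact hNS c t ht v p ((Real.exp_le_exp.2 (by linarith)).trans h1.le)
        (h2.trans (Real.exp_lt_exp.2 (by linarith))) h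
    · left
      obtain ⟨rfl, h1⟩ := hseg (c, b) t v p ht hp h
      obtain ⟨h2, h3⟩ := hmid (c, b) t ht h1
      exact ⟨_, h3, (H.MI_cv_eq ((congrArg (fun y : TM M => y.proj) h2).symm.trans h)).2⟩
  · refine Disjoint.mono_left hsub (disjoint_union_left.2 ⟨hε1.2, disjoint_left.2 ?_⟩)
    rintro _ ⟨y, hy, rfl⟩
    obtain ⟨c, t, rfl⟩ := mem_iUnion.1 hy
    exact H.MI_mer_not_cyl _ hs _ _ _ hε2
  · have h1 : IsoIn (Z ∪ base (trace Γ)) (trace Γ) (trace (J 1)) :=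
      ⟨_, inferInstance, J, hJ, by rw [hJ0], rfl⟩
    have h2 := (h1.nl (ι := ι)).union (H.isPM_Y (Real.exp_pos (-s))).isLM
      (disjoint_union_right.2
        ⟨hε1.2.symm.mono_left (H.lbase_Y_subset (Real.exp_pos _).le hR0.le),
          hΓK ▸ (H.MI_K_disj_Y _ hs _ _ _).symm⟩)
    have h3 := H.zv_isoM (E := E) (h2.mono (union_subset hg.subset_compl_right
      (H.MI_Y_disj_gs s).subset_compl_right))
    have h4 := H.MI_value hE hA hs Sigma.fst p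
    rw [Fintype.prod_sigma] at h4
    simp only [Finset.prod_const, Finset.card_univ, Fintype.card_fin] at h4
    rw [← h4]
    exact (congrFun h3 p).symm

end Pool.Agent.P.MP_ac4909_gt.B
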