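import Pool.Agent.P.MP_ac4909_gt.B.MSphere
import Pool.Agent.P.MP_ac4909_gt.B.MInit
import Pool.Agent.P.MP_ac4909_gt.B.HMain
import Pool.Agent.P.MP_ac4909_gt.B.AEv

/-! Assembly. -/

namespace Pool.Agent.P.MP_ac4909_gt.B

open scoped Manifold ContDiff
open Set Filter Topology

theorem nontrivial_Skein (M : Type*) [TopologicalSpace M] [T2Space M] [CompactSpace M]
    [ChartedSpace E3 M] [IsManifold (𝓡 3) ∞ M] (hM : OrientedAtlas M) : Nontrivial (Skein M) := by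
  classical
  by_contra hnt
  rw [not_nontrivial_iff_subsingleton] at hnt
  obtain ⟨ι, Vx, _, _, ⟨H⟩⟩ := exists_HD M hM
  obtain ⟨E, hE⟩ := exists_evSys ι
  refine H.m_nonvan hE (H.isPM_Y one_pos) ?_ ?_ fun j => ?_
  · exact (H.disjoint_cyl_gs (R := 0) one_pos (by norm_num)).mono_left
      (H.lbase_Y_subset zero_le_one le_rfl)
  · rintro x ⟨e, t, rfl⟩
    simp
  · obtain ⟨D, hD, h⟩ := H.init hE j
    obtain ⟨R, h₁, h₂⟩ := (h.and (H.sphere hE (H.van hE) D hD)).exists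
    obtain ⟨ε, ⟨K, hK, hr, hz⟩, h₃⟩ := (h₁.and h₂).exists
    exact ⟨_, hz, h₃ K hK hr⟩

end Pool.Agent.P.MP_ac4909_gt.B
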