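import Pool.Agent.P.MP_ac4909_gt.B.GDefs
import Pool.Agent.P.MP_ac4909_gt.B.WCell
import Pool.Agent.P.MP_ac4909_gt.B.WDbl
import Pool.Agent.P.MP_ac4909_gt.B.WFramed

/-! Layer G, core: auxiliary definitions (parametrised subdivisions, insertion, doubling). -/

namespace Pool.Agent.P.MP_ac4909_gt.B

open scoped ContDiff
open Set

variable {κ κ' N : Type}

/-- periodic subdivisions of the parameter lines, `2 * n c` points in each period -/
structure PC (n : κ → ℕ) (τ : κ → ℤ → ℝ) : Prop where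
  mono : ∀ c, StrictMono (τ c)
  per : ∀ c k, τ c (k + 2 * n c) = τ c k + 1

/-- all gaps are smaller than `η` -/
def Mesh (η : ℝ) (τ : κ → ℤ → ℝ) : Prop := ∀ c k, τ c (k + 1) - τ c k < η

/-- the piece of the link between two marked parameters -/
def seg (γ : κ → ℝ → E3) (τ : κ → ℤ → ℝ) (c : κ) (k l : ℤ) : Set E3 :=
  γ c '' Icc (τ c k) (τ c l)

/-- the two arcs at a marked parameter -/
def st1 (γ : κ → ℝ → E3) (τ : κ → ℤ → ℝ) (c : κ) (k : ℤ) : Set E3 := seg γ τ c (k - 1) (k + 1)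

/-- the parameter interval of the four arcs centred at a marked parameter -/
def wnd (τ : κ → ℤ → ℝ) (c : κ) (k : ℤ) : Set ℝ := Icc (τ c (k - 2)) (τ c (k + 2))

/-- indices at cyclic distance at least three -/
def FarI (n : κ → ℕ) (c : κ) (k : ℤ) (c' : κ) (k' : ℤ) : Prop :=
  c = c' → ∀ j : ℤ, 3 ≤ |k' - k + 2 * n c * j|

/-- `C` is the subdivision of `γ` at the parameters `τ` -/
structure Mdl (γ : κ → ℝ → E3) (n : κ → ℕ) (τ : κ → ℤ → ℝ) (C : Conf N) (ix : κ → ℤ → N) :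
    Prop where
  pc : PC n τ
  surj : ∀ a, ∃ c k, ix c k = a
  inj : ∀ c k c' k', ix c k = ix c' k' ↔ c = c' ∧ (2 * n c : ℤ) ∣ k' - k
  col : ∀ c k, C.col (ix c k) = true ↔ Even k
  nb : ∀ c k, ∃ s, C.nb (ix c k) s = ix c (k + 1) ∧ C.nb (ix c k) (!s) = ix c (k - 1)
  pt : ∀ c k, C.pt (ix c k) = γ c (τ c k)
  arc : ∀ c k, C.arc (ix c k) (ix c (k + 1)) = seg γ τ c k (k + 1)
  arc' : ∀ c k, C.arc (ix c (k + 1)) (ix c k) = seg γ τ c k (k + 1)

/-- validity in terms of parameters -/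
structure PV (fa : Bool) (γ : κ → ℝ → E3) (n : κ → ℕ) (τ : κ → ℤ → ℝ) : Prop where
  sep : ∀ c k c' k', FarI n c k c' k' →
    ∃ i, Sep i (st1 γ τ c k) (st1 γ τ c' k') ∨ Sep i (st1 γ τ c' k') (st1 γ τ c k)
  mono : ∀ c k, ∃ i : Fin 3, (fa = true → i ≠ 2) ∧
    (StrictMonoOn (fun t => γ c t i) (wnd τ c k) ∨ StrictAntiOn (fun t => γ c t i) (wnd τ c k))

/-- a common certificate in terms of parameters -/
structure PJ (fa : Bool) (n : κ → ℕ) (γ : κ → ℝ → E3) (τ : κ → ℤ → ℝ) (γ' : κ → ℝ → E3)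
    (τ' : κ → ℤ → ℝ) : Prop where
  sep : ∀ c k c' k', FarI n c k c' k' → ∃ i,
    (Sep i (st1 γ τ c k) (st1 γ τ c' k') ∧ Sep i (st1 γ' τ' c k) (st1 γ' τ' c' k')) ∨
    (Sep i (st1 γ τ c' k') (st1 γ τ c k) ∧ Sep i (st1 γ' τ' c' k') (st1 γ' τ' c k))
  mono : ∀ c k, ∃ i : Fin 3, (fa = true → i ≠ 2) ∧
    ((StrictMonoOn (fun t => γ c t i) (wnd τ c k) ∧
      StrictMonoOn (fun t => γ' c t i) (wnd τ' c k)) ∨
    (StrictAntiOn (fun t => γ c t i) (wnd τ c k) ∧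
      StrictAntiOn (fun t => γ' c t i) (wnd τ' c k)))

/-- the height margin in terms of parameters -/
def PM (d : ℝ) (γ : κ → ℝ → E3) (n : κ → ℕ) (τ : κ → ℤ → ℝ) : Prop :=
  ∀ c k c' k', FarI n c k c' k' →
    (∃ i, i ≠ 2 ∧ (Sep i (st1 γ τ c k) (st1 γ τ c' k') ∨ Sep i (st1 γ τ c' k') (st1 γ τ c k))) ∨
    (∀ p ∈ st1 γ τ c k, ∀ q ∈ st1 γ τ c' k', p 2 + d < q 2) ∨
    ∀ p ∈ st1 γ τ c k, ∀ q ∈ st1 γ τ c' k', q 2 + d < p 2

/-- `w` is a word of the subdivision of `γ` at the parameters `τ` -/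
def MW (fa : Bool) (γ : κ → ℝ → E3) (n : κ → ℕ) (τ : κ → ℤ → ℝ) (w : List (Sl (Arc κ))) : Prop :=
  ∃ (N : Type) (_ : Fintype N) (_ : DecidableEq N) (C : Conf N) (dl : N → N → Arc κ) (R : Rz N)
    (ix : κ → ℤ → N), Mdl γ n τ C ix ∧ C.Valid fa ∧ C.Lab γ dl ∧ C.Good fa R ∧
      w = (C.grid dl).word R

/-- uniform estimates along a family of links -/
structure Unif (fa : Bool) (Γ : ℝ → κ → ℝ → E3) : Prop where
  per : ∀ s ∈ Icc (0 : ℝ) 1, ∀ c t, Γ s c (t + 1) = Γ s c t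
  mono : ∃ ρ > 0, ∀ s₀ ∈ Icc (0 : ℝ) 1, ∀ c t₀, ∃ i : Fin 3, (fa = true → i ≠ 2) ∧
    ((∀ s ∈ Icc (0 : ℝ) 1, |s - s₀| < ρ →
      StrictMonoOn (fun t => Γ s c t i) (Icc (t₀ - ρ) (t₀ + ρ))) ∨
    ∀ s ∈ Icc (0 : ℝ) 1, |s - s₀| < ρ →
      StrictAntiOn (fun t => Γ s c t i) (Icc (t₀ - ρ) (t₀ + ρ)))
  far : ∀ ρ > (0 : ℝ), ∃ d > 0, ∀ s ∈ Icc (0 : ℝ) 1, ∀ c c' (t t' : ℝ),
    (c = c' → ∀ j : ℤ, ρ ≤ |t' - t + j|) → d ≤ dist (Γ s c t) (Γ s c' t')
  cont : ∀ ε > 0, ∃ δ > 0, ∀ s ∈ Icc (0 : ℝ) 1, ∀ s' ∈ Icc (0 : ℝ) 1, ∀ c t t',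
    |s - s'| < δ → |t - t'| < δ → dist (Γ s c t) (Γ s' c t') < ε

/-- reparametrisations of the circle; `fl` records the reversal of the direction -/
structure Rp (φ : κ → ℝ → ℝ) (fl : κ → Bool) : Prop where
  cont : ∀ c, Continuous (φ c)
  up : ∀ c, fl c = false → StrictMono (φ c) ∧ ∀ t, φ c (t + 1) = φ c t + 1
  dn : ∀ c, fl c = true → StrictAnti (φ c) ∧ ∀ t, φ c (t + 1) = φ c t - 1

/-- renaming of the labels of strands -/
def ren (β : κ' → κ) (fl : κ' → Bool) (x : Arc κ') : Arc κ := ⟨β x.name, xor x.up (fl x.name)⟩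

/-- the vertical shifts in a doubled subdivision -/
def dsh (D : N → Bool) (x y : ℝ) : N ⊕ {a // D a = true} → ℝ :=
  Sum.elim (fun a => if D a then x else 0) fun _ => y

namespace Conf

/-- two subdivisions with the same combinatorics and a common certificate -/
structure Joint (fa : Bool) (C C' : Conf N) : Prop where
  col : C'.col = C.col
  nb : C'.nb = C.nb
  sep : ∀ a b, C.Far a b → ∃ i,
    (Sep i (C.star a) (C.star b) ∧ Sep i (C'.star a) (C'.star b)) ∨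
    (Sep i (C.star b) (C.star a) ∧ Sep i (C'.star b) (C'.star a))
  mono : ∀ a, ∃ i s, (fa = true → i ≠ 2) ∧ C.Mono i a s ∧ C'.Mono i a s

/-- the lists share a certificate with the true coordinates, with a height margin `d` -/
structure GoodM [DecidableEq N] (C : Conf N) (d : ℝ) (R : Rz N) : Prop where
  ok : R.OK C.col
  z_eq : ∀ a, R.z a = C.pt a 2
  cpt : (C.grid fun _ _ => ()).Cpt true (fun a b => R.ltX a b ∧ C.pt a 0 < C.pt b 0)
    (fun a b => R.ltY a b ∧ C.pt a 1 < C.pt b 1) (fun a b => C.pt a 2 + d < C.pt b 2)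
    fun v e => C.pt v 2 + d < C.pt e 2 ∨ C.pt e 2 + d < C.pt v 2

/-- two new marked points `g u₁`, `g u₂` on the arc `g` from `v` to `C.nb v s` -/
def ins [DecidableEq N] (C : Conf N) (v : N) (s : Bool) (g : ℝ → E3) (u₁ u₂ : ℝ) :
    Conf (N ⊕ Bool) where
  col := ((C.grid fun _ _ => ()).ins v s).col
  nb := ((C.grid fun _ _ => ()).ins v s).nb
  pt := Sum.elim C.pt fun b => if b then g u₂ else g u₁
  arc := fun a b => match a, b with
    | .inl a, .inl b => C.arc a b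
    | .inl _, .inr false => g '' Icc 0 u₁
    | .inr false, .inl _ => g '' Icc 0 u₁
    | .inl _, .inr true => g '' Icc u₂ 1
    | .inr true, .inl _ => g '' Icc u₂ 1
    | .inr _, .inr _ => g '' Icc u₁ u₂

theorem ins_grid [DecidableEq N] {α : Type} (C : Conf N) (v : N) (s : Bool) (g : ℝ → E3)
    (u₁ u₂ : ℝ) (dl : N → N → α) :
    (C.ins v s g u₁ u₂).grid ((C.grid dl).ins v s).dl = (C.grid dl).ins v s := rfl

/-- Double the components on which `D` holds: the originals are lifted by `x`, the copies by `y`. -/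
noncomputable def dbl (C : Conf N) (D : N → Bool) (hD : ∀ a s, D (C.nb a s) = D a) (x y : ℝ) :
    Conf (N ⊕ {a // D a = true}) where
  col := ((C.grid fun _ _ => ()).dbl D hD id id).col
  nb := ((C.grid fun _ _ => ()).dbl D hD id id).nb
  pt := fun a => C.pt (Sum.elim id Subtype.val a) + dsh D x y a • ez
  arc := fun a b => (fun p => p + dsh D x y a • ez) ''
    C.arc (Sum.elim id Subtype.val a) (Sum.elim id Subtype.val b)

theorem dbl_grid {α β : Type} (C : Conf N) (D : N → Bool) (hD : ∀ a s, D (C.nb a s) = D a)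
    (x y : ℝ) (dl : N → N → α) (o c : α → β) :
    (C.dbl D hD x y).grid ((C.grid dl).dbl D hD o c).dl = (C.grid dl).dbl D hD o c := rfl

end Conf

end Pool.Agent.P.MP_ac4909_gt.B
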