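import Pool.Agent.P.MP_ac4909_gt.B.MDefs

/-! Calculus for `jac`, `vel`, `tm`, `pushT`. -/

namespace Pool.Agent.P.MP_ac4909_gt.B

open scoped Manifold ContDiff
open Set Filter Topology

variable {M N O : Type*} [TopologicalSpace M] [ChartedSpace E3 M] [TopologicalSpace N]
  [ChartedSpace E3 N] [TopologicalSpace O] [ChartedSpace E3 O]
  {X : Type*} [NormedAddCommGroup X] [NormedSpace ℝ X]

theorem jac_eq_fderiv (f : E3 → E3) (p : E3) : jac f p = fderiv ℝ f p := mfderiv_eq_fderiv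

theorem vel_eq_deriv (γ : ℝ → E3) (t : ℝ) : vel γ t = deriv γ t := by
  rw [vel, mfderiv_eq_fderiv]
  rfl

theorem jac_id (x : M) : jac (id : M → M) x = ContinuousLinearMap.id ℝ E3 := mfderiv_id

theorem jac_congr {f g : M → N} {x : M} (h : f =ᶠ[𝓝 x] g) : jac f x = jac g x :=
  h.mfderiv_eq

theorem vel_congr {γ γ' : ℝ → M} {t : ℝ} (h : γ =ᶠ[𝓝 t] γ') : vel γ t = vel γ' t := by
  rw [vel, vel, h.mfderiv_eq]
  rfl

theorem jac_comp {f : M → N} {g : N → O} {x : M} (hg : MDifferentiableAt (𝓡 3) (𝓡 3) g (f x))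
    (hf : MDifferentiableAt (𝓡 3) (𝓡 3) f x) :
    jac (g ∘ f) x = (jac g (f x)).comp (jac f x) := mfderiv_comp x hg hf

theorem det_jac_comp {f : M → N} {g : N → O} {x : M}
    (hg : MDifferentiableAt (𝓡 3) (𝓡 3) g (f x)) (hf : MDifferentiableAt (𝓡 3) (𝓡 3) f x) :
    (jac (g ∘ f) x).det = (jac g (f x)).det * (jac f x).det := by
  rw [jac_comp hg hf]
  exact LinearMap.det_comp _ _

theorem vel_comp {h : M → N} {γ : ℝ → M} {t : ℝ} (hh : MDifferentiableAt (𝓡 3) (𝓡 3) h (γ t))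
    (hγ : MDifferentiableAt 𝓘(ℝ, ℝ) (𝓡 3) γ t) :
    vel (fun u => h (γ u)) t = jac h (γ t) (vel γ t) :=
  mfderiv_comp_apply t hh hγ (1 : ℝ)

theorem vel_reparam {γ : ℝ → M} {φ : ℝ → ℝ} {t : ℝ}
    (hγ : MDifferentiableAt 𝓘(ℝ, ℝ) (𝓡 3) γ (φ t)) (hφ : DifferentiableAt ℝ φ t) :
    vel (fun u => γ (φ u)) t = deriv φ t • vel γ (φ t) := by
  have h1 : vel (fun u => γ (φ u)) t =
      mfderiv 𝓘(ℝ, ℝ) (𝓡 3) γ (φ t) (mfderiv 𝓘(ℝ, ℝ) 𝓘(ℝ, ℝ) φ t (1 : ℝ)) :=
    mfderiv_comp_apply t hγ hφ.mdifferentiableAt (1 : ℝ)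
  have h2 : mfderiv 𝓘(ℝ, ℝ) 𝓘(ℝ, ℝ) φ t (1 : ℝ) = deriv φ t • (1 : ℝ) := by
    rw [mfderiv_eq_fderiv, smul_eq_mul, mul_one]
    rfl
  rw [h1, h2]
  exact (mfderiv 𝓘(ℝ, ℝ) (𝓡 3) γ (φ t)).map_smul _ _

theorem injective_of_det_ne {A : E3 →L[ℝ] E3} (h : A.det ≠ 0) : Function.Injective A :=
  (A.toContinuousLinearEquivOfDetNeZero h).injective

theorem indep_map {A : E3 →L[ℝ] E3} (h : Function.Injective A) {a b : E3}
    (hab : LinearIndependent ℝ ![a, b]) : LinearIndependent ℝ ![A a, A b] := by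
  rw [LinearIndependent.pair_iff] at hab ⊢
  intro s t hst
  exact hab s t (h (by simpa using hst))

theorem tm_id (x : TM M) : tm id x = x := by
  rw [tm, jac_id]
  rfl

theorem tm_congr {f g : M → N} {x : TM M} (h : f =ᶠ[𝓝 x.proj] g) : tm f x = tm g x := by
  rw [tm, tm, jac_congr h]
  exact congrArg (fun y => (⟨y, jac g x.proj x.snd⟩ : TM N)) h.eq_of_nhds

theorem tm_comp {f : M → N} {g : N → O} {x : TM M}
    (hg : MDifferentiableAt (𝓡 3) (𝓡 3) g (f x.proj))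
    (hf : MDifferentiableAt (𝓡 3) (𝓡 3) f x.proj) : tm (g ∘ f) x = tm g (tm f x) := by
  rw [tm, jac_comp hg hf]
  rfl

theorem tm_pushT {ψ : E3 → M} {h : M → N} {p v : E3}
    (hh : MDifferentiableAt (𝓡 3) (𝓡 3) h (ψ p)) (hψ : MDifferentiableAt (𝓡 3) (𝓡 3) ψ p) :
    tm h (pushT ψ p v) = pushT (h ∘ ψ) p v := by
  rw [pushT, pushT, jac_comp hh hψ]
  rfl

theorem pushT_comp {ψ : E3 → M} {f : E3 → E3} {p v : E3}
    (hψ : MDifferentiableAt (𝓡 3) (𝓡 3) ψ (f p)) (hf : DifferentiableAt ℝ f p) :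
    pushT (ψ ∘ f) p v = pushT ψ (f p) (fderiv ℝ f p v) := by
  rw [pushT, pushT, jac_comp hψ hf.mdifferentiableAt, jac_eq_fderiv]
  rfl

theorem MPosOn.posOn {ψ : E3 → E3} {D : Set E3} (h : MPosOn ψ D) : PosOn ψ D :=
  ⟨h.smooth.contDiffOn, h.inj, fun p hp => jac_eq_fderiv ψ p ▸ h.pos p hp⟩

theorem PosOn.mPosOn {ψ : E3 → E3} {D : Set E3} (h : PosOn ψ D) : MPosOn ψ D :=
  ⟨h.smooth.contMDiffOn, h.inj, fun p hp => (jac_eq_fderiv ψ p).symm ▸ h.pos p hp⟩

theorem MPosOn.mono {ψ : E3 → M} {D D' : Set E3} (h : MPosOn ψ D) (hD : D' ⊆ D) :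
    MPosOn ψ D' :=
  ⟨h.smooth.mono hD, h.inj.mono hD, fun p hp => h.pos p (hD hp)⟩

theorem MPosOn.comp {ψ : E3 → M} {f : E3 → E3} {D D' : Set E3} (h : MPosOn ψ D) (hD : IsOpen D)
    (hf : PosOn f D') (hD' : IsOpen D') (hm : MapsTo f D' D) : MPosOn (ψ ∘ f) D' := by
  refine ⟨h.smooth.comp hf.mPosOn.smooth hm, h.inj.comp hf.inj hm, fun p hp => ?_⟩
  rw [det_jac_comp ((h.smooth.contMDiffAt (hD.mem_nhds (hm hp))).mdifferentiableAt (by simp))
    ((hf.mPosOn.smooth.contMDiffAt (hD'.mem_nhds hp)).mdifferentiableAt (by simp))]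
  exact mul_pos (h.pos _ (hm hp)) (hf.mPosOn.pos p hp)

theorem MPosOn.comp_left {ψ : E3 → M} {h : M → N} {D : Set E3} (hψ : MPosOn ψ D) (hD : IsOpen D)
    (hh : ContMDiff (𝓡 3) (𝓡 3) ∞ h) (hi : InjOn h (ψ '' D))
    (hp : ∀ p ∈ D, 0 < (jac h (ψ p)).det) : MPosOn (h ∘ ψ) D := by
  refine ⟨hh.comp_contMDiffOn hψ.smooth, hi.comp hψ.inj (mapsTo_image ψ D), fun p hp' => ?_⟩
  rw [det_jac_comp (hh.mdifferentiableAt (by simp))
    ((hψ.smooth.contMDiffAt (hD.mem_nhds hp')).mdifferentiableAt (by simp))]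
  exact mul_pos (hp p hp') (hψ.pos p hp')

theorem IsPChart.mPosOn {e : OpenPartialHomeomorph E3 M} (h : IsPChart e) :
    MPosOn e e.source := ⟨h.smooth, e.injOn, h.pos⟩

theorem PosEmb.mPosOn {φ : E3 → M} (h : PosEmb φ) : MPosOn φ univ :=
  ⟨h.smooth.contMDiffOn, h.inj.injOn, fun p _ => h.pos p⟩

theorem isOpen_Qb (r : ℝ) : IsOpen (Qb r) := by
  rw [Qb, ofPred_forall]
  exact isOpen_iInter_of_finite fun i => isOpen_lt (by fun_prop) continuous_const

theorem isCompact_closure_Qb (r : ℝ) : IsCompact (closure (Qb r)) := by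
  refine Bornology.IsBounded.isCompact_closure
    ((Metric.isBounded_closedBall (x := (0 : E3)) (r := 2 * |r|)).subset fun p hp => ?_)
  have h : ∀ i, p i ^ 2 ≤ |r| ^ 2 := fun i => by
    rw [← sq_abs]
    exact pow_le_pow_left₀ (abs_nonneg _) ((hp i).le.trans (le_abs_self r)) 2
  rw [mem_closedBall_zero_iff]
  refine abs_le_of_sq_le_sq' ?_ (by positivity) |>.2
  rw [EuclideanSpace.real_norm_sq_eq, Fin.sum_univ_three]
  nlinarith [h 0, h 1, h 2, sq_nonneg |r|]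

theorem closure_Qb_subset {r r' : ℝ} (h : r < r') : closure (Qb r) ⊆ Qb r' := by
  have hc : IsClosed {p : E3 | ∀ i, |p i| ≤ r} := by
    rw [ofPred_forall]
    exact isClosed_iInter fun i => isClosed_le (by fun_prop) continuous_const
  exact fun p hp i => (closure_minimal (fun q hq i => (hq i).le) hc hp i).trans_lt h

variable [IsManifold (𝓡 3) ∞ M] [IsManifold (𝓡 3) ∞ N]

/-- the inverse function theorem for maps into a manifold -/
theorem MCalcA_local {ψ : E3 → M} {p : E3} (hψ : ContMDiffAt (𝓡 3) (𝓡 3) ∞ ψ p)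
    (hd : (jac ψ p).det ≠ 0) : ∃ σ : M → E3, ContMDiffAt (𝓡 3) (𝓡 3) ∞ σ (ψ p) ∧ σ (ψ p) = p ∧
      ∀ᶠ y in 𝓝 (ψ p), ψ (σ y) = y := by
  have hs : (chartAt E3 (ψ p)).source ∈ 𝓝 (ψ p) := chart_source_mem_nhds E3 (ψ p)
  have hc : ContMDiffAt (𝓡 3) (𝓡 3) ∞ (chartAt E3 (ψ p)) (ψ p) :=
    contMDiffOn_chart.contMDiffAt hs
  have hf : ContDiffAt ℝ ∞ (chartAt E3 (ψ p) ∘ ψ) p := (hc.comp p hψ).contDiffAt
  have hf' : HasFDerivAt (chartAt E3 (ψ p) ∘ ψ)
      ((jac ψ p).toContinuousLinearEquivOfDetNeZero hd : E3 →L[ℝ] E3) p := by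
    have h1 := (hψ.mdifferentiableAt (by simp)).hasMFDerivAt.2
    simp only [writtenInExtChartAt, mfld_simps, hasFDerivWithinAt_univ] at h1
    rw [ContinuousLinearMap.coe_toContinuousLinearEquivOfDetNeZero]
    exact h1
  have hn : (∞ : WithTop ℕ∞) ≠ 0 := by simp
  have h1 : ContMDiffAt (𝓡 3) (𝓡 3) ∞ (hf.localInverse hf' hn ∘ chartAt E3 (ψ p)) (ψ p) :=
    (hf.to_localInverse hf' hn).contMDiffAt.comp (ψ p) hc
  have h2 : (hf.localInverse hf' hn ∘ chartAt E3 (ψ p)) (ψ p) = p :=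
    hf.localInverse_apply_image hf' hn
  refine ⟨_, h1, h2, ?_⟩
  have h3 : ContinuousAt (ψ ∘ hf.localInverse hf' hn ∘ chartAt E3 (ψ p)) (ψ p) :=
    ContinuousAt.comp (by rw [h2]; exact hψ.continuousAt) h1.continuousAt
  have h4 : ∀ᶠ y in 𝓝 (ψ p),
      (ψ ∘ hf.localInverse hf' hn ∘ chartAt E3 (ψ p)) y ∈ (chartAt E3 (ψ p)).source :=
    h3.eventually_mem (by rw [Function.comp_apply, h2]; exact hs)
  have h5 := hc.continuousAt.tendsto.eventually
    (hf.hasStrictFDerivAt' hf' hn).eventually_right_inverse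
  filter_upwards [hs, h4, h5] with y hy hy4 hy5
  exact (chartAt E3 (ψ p)).injOn hy4 hy hy5

/-- a positive embedding of an open set is a positive chart -/
theorem MPosOn.exists_chart {ψ : E3 → M} {D : Set E3} (h : MPosOn ψ D) (hD : IsOpen D) :
    ∃ e : OpenPartialHomeomorph E3 M, IsPChart e ∧ e.source = D ∧ (e : E3 → M) = ψ := by
  have key : ∀ y ∈ ψ '' D, ψ '' D ∈ 𝓝 y ∧
      ContMDiffAt (𝓡 3) (𝓡 3) ∞ (Function.invFunOn ψ D) y := by
    rintro _ ⟨p, hp, rfl⟩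
    obtain ⟨σ, h1, h2, h3⟩ := MCalcA_local (h.smooth.contMDiffAt (hD.mem_nhds hp)) (h.pos p hp).ne'
    have h4 : ∀ᶠ y in 𝓝 (ψ p), σ y ∈ D :=
      h1.continuousAt.eventually_mem (by rw [h2]; exact hD.mem_nhds hp)
    refine ⟨?_, h1.congr_of_eventuallyEq ?_⟩
    · filter_upwards [h3, h4] with y hy hy' using ⟨σ y, hy', hy⟩
    · filter_upwards [h3, h4] with y hy hy'
      rw [← h.inj.leftInvOn_invFunOn hy', hy]
  exact ⟨{ toPartialEquiv := h.inj.toPartialEquiv ψ D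
           open_source := hD
           open_target := isOpen_iff_mem_nhds.2 fun y hy => (key y hy).1
           continuousOn_toFun := h.smooth.continuousOn
           continuousOn_invFun := fun y hy => (key y hy).2.continuousAt.continuousWithinAt },
    ⟨h.smooth, fun y hy => (key y hy).2.contMDiffWithinAt, h.pos⟩, rfl, rfl⟩

omit [IsManifold (𝓡 3) ∞ M] in
theorem IsPChart.pushT_symm {e : OpenPartialHomeomorph E3 M} (h : IsPChart e) {x : TM M}
    (hx : x.proj ∈ e.target) : pushT e (e.symm x.proj) (jac e.symm x.proj x.snd) = x := by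
  have h1 := tm_comp (x := x)
    ((h.smooth.contMDiffAt (e.open_source.mem_nhds (e.map_target hx))).mdifferentiableAt (by simp))
    ((h.smooth_symm.contMDiffAt (e.open_target.mem_nhds hx)).mdifferentiableAt (by simp))
  rw [tm_congr (f := e ∘ e.symm) (g := id) (e.eventually_right_inverse hx), tm_id] at h1
  exact h1.symm

omit [IsManifold (𝓡 3) ∞ M] in
theorem IsPChart.jac_symm {e : OpenPartialHomeomorph E3 M} (h : IsPChart e) {p : E3}
    (hp : p ∈ e.source) (v : E3) : jac e.symm (e p) (jac e p v) = v := by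
  have h1 := jac_comp
    ((h.smooth_symm.contMDiffAt (e.open_target.mem_nhds (e.map_source hp))).mdifferentiableAt
      (by simp)) ((h.smooth.contMDiffAt (e.open_source.mem_nhds hp)).mdifferentiableAt (by simp))
  rw [jac_congr (f := e.symm ∘ e) (g := id) (e.eventually_left_inverse hp), jac_id] at h1
  exact (DFunLike.congr_fun h1 v).symm

theorem mcb_model {g n : X → E3} {x : X} (hg : ContDiffAt ℝ ∞ g x) (hn : ContDiffAt ℝ ∞ n x) :
    ContMDiffAt 𝓘(ℝ, X) (𝓡 3).tangent ∞ (fun y => (⟨g y, n y⟩ : TM E3)) x := by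
  refine Bundle.contMDiffAt_totalSpace.2 ⟨hg.contMDiffAt, ?_⟩
  simp only [trivializationAt_model_space_apply]
  exact hn.contMDiffAt

theorem mcb_glue (x : ℝ) : HasDerivAt expNegInvGlue (x⁻¹ ^ 2 * expNegInvGlue x) x := by
  simpa using expNegInvGlue.hasDerivAt_polynomial_eval_inv_mul 1 x

theorem mcb_one_sub (x : ℝ) : Real.smoothTransition (1 - x) = 1 - Real.smoothTransition x := by
  have h := (Real.smoothTransition.pos_denom x).ne'
  simp only [Real.smoothTransition, sub_sub_cancel]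
  rw [add_comm (expNegInvGlue (1 - x))]
  field_simp
  ring

theorem mcb_deriv {x : ℝ} (h0 : 0 < x) (h1 : x < 1) :
    ∃ d, 0 < d ∧ HasDerivAt Real.smoothTransition d x := by
  have ha := mcb_glue x
  have hb := (mcb_glue (1 - x)).comp_const_sub 1 x
  have hd := Real.smoothTransition.pos_denom x
  have h := ha.div (ha.add hb) hd.ne'
  refine ⟨_, ?_, h⟩
  have p1 := expNegInvGlue.pos_of_pos h0
  have p2 := expNegInvGlue.pos_of_pos (sub_pos.2 h1)
  have p3 : 0 < x⁻¹ ^ 2 := by positivity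
  have p4 : 0 < (1 - x)⁻¹ ^ 2 := pow_pos (inv_pos.2 (sub_pos.2 h1)) 2
  refine div_pos ?_ (pow_pos hd 2)
  simp only [Pi.add_apply]
  nlinarith [mul_pos (mul_pos p3 p1) p2, mul_pos (mul_pos p4 p1) p2]

theorem contMDiffAt_proj {Γ : X → TM M} {x : X}
    (h : ContMDiffAt 𝓘(ℝ, X) (𝓡 3).tangent ∞ Γ x) :
    ContMDiffAt 𝓘(ℝ, X) (𝓡 3) ∞ (fun y => (Γ y).proj) x :=
  (Bundle.contMDiffAt_totalSpace.1 h).1

/-- push-forward by a smooth family of maps -/
theorem contMDiffAt_tm {h : X → M → N} {Γ : X → TM M} {x : X}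
    (hh : ContMDiffAt (𝓘(ℝ, X).prod (𝓡 3)) (𝓡 3) ∞ (fun q : X × M => h q.1 q.2) (x, (Γ x).proj))
    (hΓ : ContMDiffAt 𝓘(ℝ, X) (𝓡 3).tangent ∞ Γ x) :
    ContMDiffAt 𝓘(ℝ, X) (𝓡 3).tangent ∞ (fun y => tm (h y) (Γ y)) x := by
  have hp := contMDiffAt_proj hΓ
  have h1 := ContMDiffAt.mfderiv (m := ∞) (n := ∞) h (fun y => (Γ y).proj) hh hp le_rfl
  have h2 : ContMDiffAt 𝓘(ℝ, X) (𝓡 3) ∞ (fun y => h y (Γ y).proj) x :=
    hh.comp x (contMDiffAt_id.prodMk hp)
  exact ContMDiffAt.clm_apply_of_inCoordinates (b₁ := fun y => (Γ y).proj)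
    (b₂ := fun y => h y (Γ y).proj) (v := fun y => (Γ y).snd) h1 hΓ h2

theorem contMDiffAt_pushT {ψ : E3 → M} {g n : X → E3} {x : X}
    (hψ : ContMDiffAt (𝓡 3) (𝓡 3) ∞ ψ (g x)) (hg : ContDiffAt ℝ ∞ g x) (hn : ContDiffAt ℝ ∞ n x) :
    ContMDiffAt 𝓘(ℝ, X) (𝓡 3).tangent ∞ (fun y => pushT ψ (g y) (n y)) x :=
  contMDiffAt_tm (h := fun _ => ψ) (Γ := fun y => (⟨g y, n y⟩ : TM E3))
    (hψ.comp (x, g x) contMDiffAt_snd) (mcb_model hg hn)

theorem contDiffAt_pull {F : M → E3} {Γ : X → TM M} {x : X}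
    (hF : ContMDiffAt (𝓡 3) (𝓡 3) ∞ F (Γ x).proj)
    (hΓ : ContMDiffAt 𝓘(ℝ, X) (𝓡 3).tangent ∞ Γ x) :
    ContDiffAt ℝ ∞ (fun y => F (Γ y).proj) x ∧
      ContDiffAt ℝ ∞ (fun y => jac F (Γ y).proj (Γ y).snd) x := by
  have h := contMDiffAt_tm (h := fun _ => F) (hF.comp (x, (Γ x).proj) contMDiffAt_snd) hΓ
  exact ⟨(contMDiffAt_proj h).contDiffAt,
    ((contMDiff_snd_tangentBundle_modelSpace E3 (𝓡 3)).contMDiffAt.comp x h).contDiffAt⟩

/-- scaling of the framing vector -/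
theorem contMDiffAt_smul {Γ : X → TM M} {a : X → ℝ} {x : X}
    (hΓ : ContMDiffAt 𝓘(ℝ, X) (𝓡 3).tangent ∞ Γ x) (ha : ContDiffAt ℝ ∞ a x) :
    ContMDiffAt 𝓘(ℝ, X) (𝓡 3).tangent ∞
      (fun y => (⟨(Γ y).proj, a y • (Γ y).snd⟩ : TM M)) x := by
  obtain ⟨h1, h2⟩ := Bundle.contMDiffAt_totalSpace.1 hΓ
  refine Bundle.contMDiffAt_totalSpace.2 ⟨h1, (ha.contMDiffAt.smul h2).congr_of_eventuallyEq ?_⟩
  have h3 : ∀ᶠ y in 𝓝 x, (Γ y).proj ∈
      (trivializationAt E3 (TangentSpace (𝓡 3)) (Γ x).proj).baseSet :=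
    h1.continuousAt.preimage_mem_nhds ((Bundle.Trivialization.open_baseSet _).mem_nhds
      (FiberBundle.mem_baseSet_trivializationAt' _))
  filter_upwards [h3] with y hy
  exact ((trivializationAt E3 (TangentSpace (𝓡 3)) (Γ x).proj).linear ℝ hy).map_smul (a y) (Γ y).snd

/-- a smooth function without zeros has a smooth logarithm -/
theorem exists_smooth_log {f : ℝ → ℂ} (hf : ContDiff ℝ ∞ f) (h0 : ∀ t, f t ≠ 0) :
    ∃ g : ℝ → ℂ, ContDiff ℝ ∞ g ∧ ∀ t, f t = Complex.exp (g t) := by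
  have hq : ContDiff ℝ ∞ fun t => deriv f t / f t := by
    simp only [div_eq_mul_inv]
    exact (contDiff_infty_iff_deriv.1 hf).2.mul (hf.inv h0)
  have hg : ∀ t, HasDerivAt (fun t => Complex.log (f 0) + ∫ s in (0 : ℝ)..t, deriv f s / f s)
      (deriv f t / f t) t := fun t => 
    (hq.continuous.integral_hasStrictDerivAt 0 t).hasDerivAt.const_add _
  refine ⟨fun t => Complex.log (f 0) + ∫ s in (0 : ℝ)..t, deriv f s / f s, ?_, fun t => ?_⟩
  · refine contDiff_infty_iff_deriv.2 ⟨fun t => (hg t).differentiableAt, ?_⟩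
    rw [funext fun t => (hg t).deriv]
    exact hq
  · have hd : ∀ t, HasDerivAt (fun t => f t *
        Complex.exp (-(Complex.log (f 0) + ∫ s in (0 : ℝ)..t, deriv f s / f s))) 0 t := fun t => by
      have h1 := ((contDiff_infty_iff_deriv.1 hf).1 t).hasDerivAt
      have h2 := h1.mul (hg t).neg.cexp
      refine h2.congr_deriv ?_
      have := h0 t
      simp only [Pi.neg_apply]
      field_simp
      ring
    have h3 := is_const_of_deriv_eq_zero (fun t => (hd t).differentiableAt)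
      (fun t => (hd t).deriv) t 0
    rw [intervalIntegral.integral_same, add_zero, Complex.exp_neg, Complex.exp_neg,
      Complex.exp_log (h0 0), mul_inv_cancel₀ (h0 0), mul_inv_eq_one₀ (Complex.exp_ne_zero _)] at h3
    exact h3

theorem st_contDiff : ContDiff ℝ ∞ st :=
  (contDiff_const.mul (Real.smoothTransition.contDiff.comp (contDiff_id.add contDiff_const))).sub
    contDiff_const

theorem st_of_le {t : ℝ} (h : t ≤ -1 / 2) : st t = -1 := by
  rw [st, Real.smoothTransition.zero_of_nonpos (by linarith)]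
  ring

theorem st_of_ge {t : ℝ} (h : 1 / 2 ≤ t) : st t = 1 := by
  rw [st, Real.smoothTransition.one_of_one_le (by linarith)]
  ring

theorem st_neg (t : ℝ) : st (-t) = -st t := by
  rw [st, st, show -t + 1 / 2 = 1 - (t + 1 / 2) by ring, mcb_one_sub]
  ring

theorem abs_st_le (t : ℝ) : |st t| ≤ 1 := by
  have h0 := Real.smoothTransition.nonneg (t + 1 / 2)
  have h1 := Real.smoothTransition.le_one (t + 1 / 2)
  rw [st, abs_le]
  constructor <;> linarith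

theorem st_monotone : Monotone st := fun a b h => by
  have := Real.smoothTransition.monotone (show a + 1 / 2 ≤ b + 1 / 2 by linarith)
  rw [st, st]
  linarith

theorem st_strictMonoOn : StrictMonoOn st (Icc (-1 / 2) (1 / 2)) := by
  refine strictMonoOn_of_deriv_pos (convex_Icc _ _) st_contDiff.continuous.continuousOn
    fun t ht => ?_
  rw [interior_Icc] at ht
  obtain ⟨d, hd, h⟩ := mcb_deriv (x := t + 1 / 2) (by linarith [ht.1]) (by linarith [ht.2])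
  have h1 : HasDerivAt st (2 * d) t := ((h.comp_add_const t (1 / 2)).const_mul 2).sub_const 1
  rw [h1.deriv]
  linarith

theorem deriv_st_pos {t : ℝ} (h : |t| < 1 / 2) : 0 < deriv st t := by
  obtain ⟨h0, h1⟩ := abs_lt.1 h
  obtain ⟨d, hd, h⟩ := mcb_deriv (x := t + 1 / 2) (by linarith) (by linarith)
  have h1 : HasDerivAt st (2 * d) t := ((h.comp_add_const t (1 / 2)).const_mul 2).sub_const 1
  rw [h1.deriv]
  linarith

theorem mcb_sab_pos (t : ℝ) : 0 < t ^ 2 + (1 - st t ^ 2) / 16 := by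
  have h1 : st t ^ 2 ≤ 1 := by
    rw [sq_le_one_iff_abs_le_one]
    exact abs_st_le t
  rcases eq_or_ne t 0 with rfl | h
  · have h2 := st_neg 0
    rw [neg_zero] at h2
    have h3 : st 0 = 0 := by linarith
    rw [h3]
    norm_num
  · have := sq_pos_of_ne_zero h
    linarith

theorem sab_contDiff : ContDiff ℝ ∞ sab :=
  ContDiff.sqrt ((contDiff_id.pow 2).add ((contDiff_const.sub (st_contDiff.pow 2)).div_const 16))
    fun t => (mcb_sab_pos t).ne'

theorem sab_pos (t : ℝ) : 0 < sab t := Real.sqrt_pos.2 (mcb_sab_pos t)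

theorem sab_of_le_abs {t : ℝ} (h : 1 / 2 ≤ |t|) : sab t = |t| := by
  have h1 : st t ^ 2 = 1 := by
    rcases le_abs'.1 h with h2 | h2
    · rw [st_of_le (by linarith)]
      norm_num
    · rw [st_of_ge h2]
      norm_num
  rw [sab, h1, sub_self, zero_div, add_zero, Real.sqrt_sq_eq_abs]

theorem sab_lt {t : ℝ} (h : |t| ≤ 1 / 2) : sab t < 3 / 5 := by
  rw [sab, Real.sqrt_lt' (by norm_num)]
  have h1 : t ^ 2 ≤ (1 / 2) ^ 2 := sq_le_sq' (abs_le.1 h).1 (abs_le.1 h).2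
  nlinarith [sq_nonneg (st t)]

end Pool.Agent.P.MP_ac4909_gt.B
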