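import Pool.Agent.P.MP_ac4909_gt.B.GCore
import Pool.Agent.P.MP_ac4909_gt.B.GC_Defs
import Pool.Agent.P.MP_ac4909_gt.B.MCalc

/-!
Layer G, blocks: standard position, collars, inner and outer parts of a subdivision.
-/

namespace Pool.Agent.P.MP_ac4909_gt.B

open scoped ContDiff
open Set

variable {ι κ : Type}

/-- push-forward of a labelled set of framing vectors -/
noncomputable def gpush (h : E3 → E3) (S : LS ι) : LS ι :=
  (fun x => (x.1, h x.2.1, fderiv ℝ h x.2.1 x.2.2)) '' S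

/-- chains of isotopies -/
def GEq (S S' : LS ι) : Prop := Relation.EqvGen GIso S S'

/-- an embedding of `ℝ³` that moves every link to an isotopic link -/
structure GAmb (h : E3 → E3) : Prop where
  smooth : ContDiff ℝ ∞ h
  inj : Function.Injective h
  det_ne : ∀ p, (fderiv ℝ h p).det ≠ 0
  geq : ∀ (ι : Type) (S : LS ι), IsLL S → GEq S (gpush h S)

/-- a picture with the vertical framing -/
def vert (A : Pic ι) : LS ι := (fun y => (y.1, y.2, ez)) '' A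

/-- over the cube of radius `r`, `S` is the picture `A` with the vertical framing -/
def Std (r : ℝ) (S : LS ι) (A : Pic ι) : Prop :=
  {x ∈ S | x.2.1 ∈ Qb r} = vert {y ∈ A | y.2 ∈ Qb r}

/-- the part of `S` outside the cube of radius `r` -/
def SOut (r : ℝ) (S : LS ι) : LS ι := {x ∈ S | x.2.1 ∉ Qb r}

/-- all framing vectors are vertical -/
def Vertical (S : LS ι) : Prop := ∀ x ∈ S, x.2.2 = ez

/-- the labelled points that carry a vertical vector -/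
def picOf (S : LS ι) : Pic ι := {y | (y.1, y.2, ez) ∈ S}

/-- push-forward of a parametrised link -/
noncomputable def Lk.push (L : Lk κ) (h : E3 → E3) : Lk κ :=
  ⟨fun c t => h (L.γ c t), fun c t => fderiv ℝ h (L.γ c t) (L.ν c t)⟩

/-- an isotopy whose moving points stay outside `Cl` -/
def RelIso (Cl : Set E3) (L L' : Lk κ) : Prop :=
  ∃ (H : ℝ → Lk κ) (Mv : κ → Set ℝ), SmoothFam H ∧ (∀ s ∈ Icc (0 : ℝ) 1, (H s).IsLink) ∧
    H 0 = L ∧ H 1 = L' ∧ (∀ c, IsClosed (Mv c)) ∧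
    (∀ s ∈ Icc (0 : ℝ) 1, ∀ c t, t ∉ Mv c → (H s).γ c t = L.γ c t ∧ (H s).ν c t = L.ν c t) ∧
    ∀ s ∈ Icc (0 : ℝ) 1, ∀ c, ∀ t ∈ Mv c, (H s).γ c t ∉ Cl

/-- chains of such isotopies -/
def Chain (Cl : Set E3) : Lk κ → Lk κ → Prop := Relation.ReflTransGen (RelIso Cl)

/-- the parameter `t` of component `c` is at distance at least `r` from the site `c₀`, `t₀` -/
def Off (c₀ : κ) (t₀ r : ℝ) (c : κ) (t : ℝ) : Prop := c = c₀ → ∀ j : ℤ, r ≤ |t - t₀ - j|

/-- the horizontal normal -/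
noncomputable def hn (v : E3) : E3 := !₂[-v 1, v 0, 0]

/-- the framing at angle `θ` from the vertical one -/
noncomputable def ang (γ : κ → ℝ → E3) (θ : κ → ℝ → ℝ) : Lk κ :=
  ⟨γ, fun c t => Real.cos (θ c t) • ez + Real.sin (θ c t) • hn (deriv (γ c) t)⟩

structure AngOK (θ : κ → ℝ → ℝ) : Prop where
  smooth : ∀ c, ContDiff ℝ ∞ (θ c)
  per : ∀ c, ∃ m : ℤ, ∀ t, θ c (t + 1) = θ c t + 2 * Real.pi * m

/-- a multiple of the full angle -/
def Z2 (x : ℝ) : Prop := ∃ k : ℤ, x = 2 * Real.pi * k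

/-- the link together with a push-off of the component `c₀` against the framing -/
noncomputable def Lk.pull (L : Lk κ) (c₀ : κ) (δ : ℝ) : Lk (Option κ) :=
  ⟨fun c => c.elim (fun t => L.γ c₀ t - δ • L.ν c₀ t) L.γ, fun c => c.elim (L.ν c₀) L.ν⟩

/-- the label `some i` is replaced by `none` -/
def unlab [DecidableEq ι] (i : ι) (o : Option ι) : Option ι := if o = some i then none else o

/-- `n` strands leave the block at the bottom (`false`) and `n` at the top (`true`); they are graphs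
over the distance `y > 0` from the middle level, of constant height. -/
structure Collar (n : ℕ) (ι : Type) where
  ξ : Fin n × Bool → ℝ → ℝ
  ζ : Fin n × Bool → ℝ
  lab : Fin n × Bool → Option ι
  cont : ∀ b, ContinuousOn (ξ b) (Ioi 0)
  boxx : ∀ b, ∀ y ∈ Ioc (0 : ℝ) 1, |ξ b y| ≤ 3 / 4
  boxz : ∀ b, |ζ b| ≤ 3 / 4
  order : ∀ k k' σ, k < k' → ζ (k, σ) = ζ (k', σ) → ∀ y > 0, ∀ y' > 0, ξ (k, σ) y < ξ (k', σ) y'

variable {n : ℕ}

/-- the point of collar `b` at level `y` -/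
noncomputable def Collar.cl (Co : Collar n ι) (b : Fin n × Bool) (y : ℝ) : E3 :=
  !₂[Co.ξ b y, (if b.2 then 1 else -1) * y, Co.ζ b]

/-- The inner part of a subdivision.  The object `inr b` is a virtual row at the far end of the
ray that continues collar `b` outwards. -/
structure Content (Co : Collar n ι) (I : Type) where
  C : Conf (I ⊕ Fin n × Bool)
  bc : Fin n × Bool → I
  lv : Fin n × Bool → ℝ
  lb : I → Option ι
  Xb : List I
  Yb : List I
  lv_pos : ∀ b, 0 < lv b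
  lv_le : ∀ b, lv b ≤ 3 / 4
  col_inr : ∀ b, C.col (.inr b) = false
  nb_inr : ∀ b s, C.nb (.inr b) s = .inl (bc b)
  nb_eq_inr : ∀ a s b, C.nb (.inl a) s = .inr b ↔ a = bc b ∧ s = false
  col_nb : ∀ a s, C.col (C.nb (.inl a) s) = !C.col (.inl a)
  nb_ne : ∀ a, C.nb (.inl a) false ≠ C.nb (.inl a) true
  adj_symm : ∀ a s, ∃ s', C.nb (C.nb (.inl a) s) s' = .inl a
  pt_bc : ∀ b, C.pt (.inl (bc b)) = Co.cl b (lv b)
  pt_inr : ∀ b, C.pt (.inr b) = Co.cl b 1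
  arc_bc : ∀ b, C.arc (.inl (bc b)) (.inr b) = Co.cl b '' Ici (lv b)
  arc_symm : ∀ a s, C.arc (C.nb (.inl a) s) (.inl a) = C.arc (.inl a) (C.nb (.inl a) s)
  isArc : ∀ a s a', C.nb (.inl a) s = .inl a' →
    IsArc (C.arc (.inl a) (.inl a')) (C.pt (.inl a)) (C.pt (.inl a'))
  box : ∀ a s a', C.nb (.inl a) s = .inl a' → ∀ p ∈ C.arc (.inl a) (.inl a'), ∀ i, |p i| ≤ 3 / 4
  sep : ∀ a a', C.Far (.inl a) (.inl a') → ∃ i, Sep i (C.star (.inl a)) (C.star (.inl a')) ∨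
    Sep i (C.star (.inl a')) (C.star (.inl a))
  mono : ∀ a, ∃ i s, i ≠ 2 ∧ C.Mono i (.inl a) s
  zr : ∀ b b', b.2 = b'.2 → Co.ζ b < Co.ζ b' →
    C.pt (C.nb (.inl (bc b)) true) 2 < Co.ζ b' ∧ Co.ζ b < C.pt (C.nb (.inl (bc b')) true) 2
  lb_nb : ∀ a s a', C.nb (.inl a) s = .inl a' → lb a' = lb a
  lb_bc : ∀ b, lb (bc b) = Co.lab b
  nodupX : Xb.Nodup
  nodupY : Yb.Nodup
  memX : ∀ a, a ∈ Xb ↔ C.col (.inl a) = true
  memY : ∀ a, a ∈ Yb ↔ C.col (.inl a) = false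
  sortX : Xb.Pairwise fun a b => C.pt (.inl a) 0 ≤ C.pt (.inl b) 0
  sortY : Yb.Pairwise fun a b => C.pt (.inl a) 1 ≤ C.pt (.inl b) 1
  subX : ∀ σ, (List.ofFn fun k => bc (k, σ)).Sublist Xb

namespace Content
variable {Co : Collar n ι} {I : Type} (Ct : Content Co I)

/-- the picture drawn by the content, with the collars continued to infinity -/
def pic : Pic ι := {y | ∃ a, y.2 ∈ Ct.C.star (.inl a) ∧ y.1 = Ct.lb a}

def grid : Grid (I ⊕ Fin n × Bool) (Nm ι) :=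
  Ct.C.grid fun a _ => ⟨Sum.elim Ct.lb Co.lab a⟩

noncomputable def rz : Rz (I ⊕ Fin n × Bool) :=
  ⟨Ct.Xb.map .inl, (List.ofFn fun k => .inr (k, false)) ++ Ct.Yb.map .inl ++
    List.ofFn fun k => .inr (k, true), fun a => Ct.C.pt a 2⟩

/-- the word of the content -/
noncomputable def word [DecidableEq I] : List (Sl (Nm ι)) :=
  Ct.grid.evs Ct.rz (Ct.Xb.map .inl) (Ct.Yb.map .inl)

/-- the stars of the boundary columns are vertical -/
def Vert : Prop := ∀ b, ∀ p ∈ Ct.C.star (.inl (Ct.bc b)), p 0 = Co.ξ b 1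

end Content

/-- `A` is the picture of a content on `Co` whose word is `w`, inside the cube of radius `9/8` -/
def HasContent (Co : Collar n ι) (A : Pic ι) (w : List (Sl (Nm ι))) : Prop :=
  ∃ (I : Type) (_ : Fintype I) (_ : DecidableEq I) (Ct : Content Co I),
    (∀ y : Option ι × E3, y.2 ∈ Qb (9 / 8) → (y ∈ Ct.pic ↔ y ∈ A)) ∧ Ct.word = w

/-- `A` is exactly the picture of a content with vertical boundary stars -/
def HasPic (Co : Collar n ι) (A : Pic ι) (w : List (Sl (Nm ι))) : Prop :=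
  ∃ (I : Type) (_ : Fintype I) (_ : DecidableEq I) (Ct : Content Co I),
    Ct.Vert ∧ Ct.pic = A ∧ Ct.word = w

/-- collars of straight strands in the plane `z = 0` -/
structure Straight (Co : Collar n ι) (x : Fin n → ℝ) : Prop where
  ξ : ∀ b y, Co.ξ b y = x b.1
  ζ : ∀ b, Co.ζ b = 0
  lab : ∀ k, Co.lab (k, true) = Co.lab (k, false)

/-- a cap and its mirror image, continued to infinity -/
def capPic (x₀ x₁ : ℝ) (hx hy : ℝ → ℝ) (u₁ u₂ : ℝ) : Set E3 :=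
  capCup hx hy u₁ u₂ ∪ ({p | p 0 = x₀ ∧ -hy u₁ ≤ |p 1| ∧ p 2 = 0} ∪
    {p | p 0 = x₁ ∧ -hy u₂ ≤ |p 1| ∧ p 2 = 0})

/-- A fine subdivision of the whole link with a marked pair of points on each collar. -/
structure Pre (Co : Collar n ι) (A : Pic ι) (d η : ℝ) (N : Type) where
  C : Conf N
  bc : Fin n × Bool → N
  ρ : Fin n × Bool → N
  tb : Fin n × Bool → ℝ
  lv : Fin n × Bool → ℝ
  lb : N → Option ι
  valid : C.Valid true
  margin : C.Margin d
  diam : ∀ a, ∀ p ∈ C.star a, ∀ q ∈ C.star a, dist p q < η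
  η_lt : η < 1 / 64
  tb_gt : ∀ b, 3 / 4 + 4 * η < tb b
  tb_lt : ∀ b, tb b < lv b
  lv_lt : ∀ b, lv b + 4 * η < 13 / 16
  stagger : ∀ k k' σ, k < k' → lv (k, σ) < lv (k', σ)
  col_bc : ∀ b, C.col (bc b) = true
  nb_bc : ∀ b, ∃ s, C.nb (bc b) s = ρ b
  pt_bc : ∀ b, C.pt (bc b) = Co.cl b (tb b)
  pt_ρ : ∀ b, C.pt (ρ b) = Co.cl b (lv b)
  lb_nb : ∀ a s, lb (C.nb a s) = lb a
  out : ∀ y : Option ι × E3, y ∈ A ↔ ∃ a, y.2 ∈ C.star a ∧ y.1 = lb a
  mid : ∀ y : Option ι × E3, y.2 ∈ Qb (7 / 8) → (∃ i, 3 / 4 < |y.2 i|) →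
    (y ∈ A ↔ ∃ b t, 3 / 4 < t ∧ y.2 = Co.cl b t ∧ y.1 = Co.lab b)

/-- a set that lies on one side of the block -/
def FarBox (A : Set E3) : Prop :=
  ∃ i, (∀ p ∈ A, p i < -13 / 16) ∨ ∀ p ∈ A, 13 / 16 < p i

/-- The outer part of a subdivision.  The object `inr b` is a virtual column at the inner end of
collar `b`.  `A` is the labelled picture outside the cube of radius `7/8`. -/
structure Outer (Co : Collar n ι) (A : Pic ι) (O : Type) where
  C : Conf (O ⊕ Fin n × Bool)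
  ρ : Fin n × Bool → O
  sd : Fin n × Bool → Bool
  lv : Fin n × Bool → ℝ
  lb : O → Option ι
  X₁ : List O
  X₂ : List O
  Y₁ : List O
  Y₂ : List O
  lv_gt : ∀ b, 3 / 4 < lv b
  lv_lt : ∀ b, lv b < 13 / 16
  stagger : ∀ k k' σ, k < k' → Co.ζ (k, σ) = Co.ζ (k', σ) → lv (k, σ) < lv (k', σ)
  col_inr : ∀ b, C.col (.inr b) = true
  nb_inr : ∀ b s, C.nb (.inr b) s = .inl (ρ b)
  nb_eq_inr : ∀ a s b, C.nb (.inl a) s = .inr b ↔ a = ρ b ∧ s = sd b
  ρ_inj : Function.Injective ρ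
  col_nb : ∀ a s, C.col (C.nb (.inl a) s) = !C.col (.inl a)
  nb_ne : ∀ a, C.nb (.inl a) false ≠ C.nb (.inl a) true
  adj_symm : ∀ a s, ∃ s', C.nb (C.nb (.inl a) s) s' = .inl a
  pt_ρ : ∀ b, C.pt (.inl (ρ b)) = Co.cl b (lv b)
  arc_ρ : ∀ b, C.arc (.inl (ρ b)) (.inr b) = Co.cl b '' Ioc 0 (lv b)
  arc_symm : ∀ a s, C.arc (C.nb (.inl a) s) (.inl a) = C.arc (.inl a) (C.nb (.inl a) s)
  isArc : ∀ a s a', C.nb (.inl a) s = .inl a' →
    IsArc (C.arc (.inl a) (.inl a')) (C.pt (.inl a)) (C.pt (.inl a'))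
  sep : ∀ a a', C.Far (.inl a) (.inl a') → ∃ i, Sep i (C.star (.inl a)) (C.star (.inl a')) ∨
    Sep i (C.star (.inl a')) (C.star (.inl a))
  mono : ∀ a, (∀ b, a ≠ ρ b) → ∃ i s, i ≠ 2 ∧ C.Mono i (.inl a) s
  pos : ∀ a, (∀ b, a ≠ ρ b) → FarBox (C.star (.inl a)) ∨
    ∃ b, C.star (.inl a) ⊆ Co.cl b '' Icc (lv b) 1
  pos_ρ : ∀ b, C.star (.inl (ρ b)) ⊆ Co.cl b '' Ioo 0 (13 / 16)
  pos_nb : ∀ b, C.star (C.nb (.inl (ρ b)) (!sd b)) ⊆ Co.cl b '' Icc (lv b) 1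
  lb_nb : ∀ a s a', C.nb (.inl a) s = .inl a' → lb a' = lb a
  lb_ρ : ∀ b, lb (ρ b) = Co.lab b
  out : ∀ y : Option ι × E3, y.2 ∉ Qb (7 / 8) → (y ∈ A ↔
    ∃ a s a', C.nb (.inl a) s = .inl a' ∧ y.2 ∈ C.arc (.inl a) (.inl a') ∧ y.1 = lb a)
  ins : ∀ y : Option ι × E3, y.2 ∈ Qb (7 / 8) →
    ((∃ a s a', C.nb (.inl a) s = .inl a' ∧ y.2 ∈ C.arc (.inl a) (.inl a') ∧ y.1 = lb a) ↔
      ∃ b t, lv b ≤ t ∧ y.2 = Co.cl b t ∧ y.1 = Co.lab b)
  nodupX : (X₁ ++ X₂).Nodup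
  nodupY : (Y₁ ++ Y₂).Nodup
  memX : ∀ a, a ∈ X₁ ++ X₂ ↔ C.col (.inl a) = true
  memY : ∀ a, a ∈ Y₁ ++ Y₂ ↔ C.col (.inl a) = false
  sortX : (X₁ ++ X₂).Pairwise fun a b => C.pt (.inl a) 0 ≤ C.pt (.inl b) 0
  sortY : (Y₁ ++ Y₂).Pairwise fun a b => C.pt (.inl a) 1 ≤ C.pt (.inl b) 1
  ltX₁ : ∀ a ∈ X₁, C.pt (.inl a) 0 < 25 / 32
  leX₂ : ∀ a ∈ X₂, 25 / 32 ≤ C.pt (.inl a) 0
  ltY₁ : ∀ a ∈ Y₁, C.pt (.inl a) 1 < 0
  leY₂ : ∀ a ∈ Y₂, 0 ≤ C.pt (.inl a) 1

namespace Outer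
variable {Co : Collar n ι} {A : Pic ι} {O I : Type} (Ou : Outer Co A O) (Ct : Content Co I)

/-- far stars are separated in the plane or by a height gap `d` -/
def Margin (d : ℝ) : Prop :=
  ∀ a a', Ou.C.Far (.inl a) (.inl a') →
    (∃ i, i ≠ 2 ∧ (Sep i (Ou.C.star (.inl a)) (Ou.C.star (.inl a')) ∨
      Sep i (Ou.C.star (.inl a')) (Ou.C.star (.inl a)))) ∨
    (∀ p ∈ Ou.C.star (.inl a), ∀ q ∈ Ou.C.star (.inl a'), p 2 + d < q 2) ∨
    ∀ p ∈ Ou.C.star (.inl a), ∀ q ∈ Ou.C.star (.inl a'), q 2 + d < p 2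

/-- margins that allow a vertical doubling -/
structure Fine (d η : ℝ) : Prop where
  margin : Ou.Margin d
  zdiam : ∀ a, ∀ p ∈ Ou.C.star (.inl a), ∀ q ∈ Ou.C.star (.inl a), |p 2 - q 2| < η
  far : ∀ a, (∀ b, a ≠ Ou.ρ b) → (∃ i, (∀ p ∈ Ou.C.star (.inl a), p i < -53 / 64) ∨
    ∀ p ∈ Ou.C.star (.inl a), 53 / 64 < p i) ∨
    ∃ b, Ou.C.star (.inl a) ⊆ Co.cl b '' Icc (Ou.lv b) 1

open Classical in
/-- the subdivision obtained from an outer and an inner part -/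
noncomputable def glue : Conf (O ⊕ I) where
  col := Sum.elim (fun a => Ou.C.col (.inl a)) fun a => Ct.C.col (.inl a)
  nb := Sum.elim (fun a s => Sum.elim .inl (fun b => .inr (Ct.bc b)) (Ou.C.nb (.inl a) s))
    fun a s => Sum.elim .inr (fun b => .inl (Ou.ρ b)) (Ct.C.nb (.inl a) s)
  pt := Sum.elim (fun a => Ou.C.pt (.inl a)) fun a => Ct.C.pt (.inl a)
  arc := fun a a' => match a, a' with
    | .inl a, .inl a' => Ou.C.arc (.inl a) (.inl a')
    | .inr a, .inr a' => Ct.C.arc (.inl a) (.inl a')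
    | .inl a, .inr _ => ⋃ b ∈ {b | a = Ou.ρ b}, Co.cl b '' Icc (Ct.lv b) (Ou.lv b)
    | .inr _, .inl a => ⋃ b ∈ {b | a = Ou.ρ b}, Co.cl b '' Icc (Ct.lv b) (Ou.lv b)

/-- the realisation in which the inner columns and the inner rows are contiguous -/
noncomputable def glueRz : Rz (O ⊕ I) :=
  ⟨Ou.X₁.map .inl ++ Ct.Xb.map .inr ++ Ou.X₂.map .inl,
    Ou.Y₁.map .inl ++ Ct.Yb.map .inr ++ Ou.Y₂.map .inl, fun a => (Ou.glue Ct).pt a 2⟩

/-- the glued grid with unoriented labels -/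
noncomputable def glueN : Grid (O ⊕ I) (Nm ι) :=
  (Ou.glue Ct).grid fun a _ => ⟨Sum.elim Ou.lb Ct.lb a⟩

end Outer

/-- a grid with a block of contiguous columns and rows -/
structure Blk {N O α : Type} [Rev α] (G : Grid N α) (R : Rz N) (φ : O → N)
    (X₁ X₂ Y₁ Y₂ : List O) (Xb Yb : List N) (ρ : Fin n × Bool → O) (bc : Fin n × Bool → N) :
    Prop where
  ok : G.OK
  rok : R.OK G.col
  inj : Function.Injective φ
  hX : R.X = X₁.map φ ++ Xb ++ X₂.map φ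
  hY : R.Y = Y₁.map φ ++ Yb ++ Y₂.map φ
  outer : ∀ v ∈ X₁ ++ X₂, ∀ s, G.nb (φ v) s ∉ Yb
  bc_out : ∀ b, G.nb (bc b) false = φ (ρ b)
  bc_in : ∀ b, G.nb (bc b) true ∈ Yb
  ρ_lo : ∀ k, ρ (k, false) ∈ Y₁
  ρ_hi : ∀ k, ρ (k, true) ∈ Y₂
  inner : ∀ v ∈ Xb, (∃ b, v = bc b) ∨ ∀ s, G.nb v s ∈ Yb
  sub : ∀ σ, (List.ofFn fun k => bc (k, σ)).Sublist Xb

/-- vertical collars in the plane `z = 0` -/
noncomputable def vcol (xs : List (ℝ × Option ι)) (h : PosOK (xs.map Prod.fst)) :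
    Collar xs.length ι where
  ξ b _ := (xs.get b.1).1
  ζ _ := 0
  lab b := (xs.get b.1).2
  cont _ := continuousOn_const
  boxx b _ _ := (h.2 _ (List.mem_map_of_mem (List.get_mem xs b.1))).trans (by norm_num)
  boxz _ := by norm_num
  order k k' _ hk _ _ _ _ _ := List.pairwise_iff_get.1 (List.pairwise_map.1 h.1) k k' hk

/-- the collars of the crossing and of its smoothings -/
noncomputable def dcol (ι : Type) : Collar 2 ι where
  ξ b y := (if b.1 = 0 then -1 else 1) * y / 2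
  ζ b := if (b.1 = 0 ↔ b.2 = false) then 1 / 2 else -1 / 2
  lab _ := none
  cont _ := by fun_prop
  boxx b y hy := by
    rw [abs_le]; split_ifs <;> constructor <;> linarith [hy.1, hy.2]
  boxz b := by split_ifs <;> norm_num [abs_le]
  order k k' σ hk h := by
    exfalso
    fin_cases k <;> fin_cases k' <;> cases σ <;> simp at hk h <;> norm_num at h

/-- two vertical collars -/
noncomputable def col2 (x₀ x₁ : ℝ) (o₀ o₁ : Option ι) (h : PosOK [x₀, x₁]) : Collar 2 ι where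
  ξ b _ := if b.1 = 0 then x₀ else x₁
  ζ _ := 0
  lab b := if b.1 = 0 then o₀ else o₁
  cont _ := continuousOn_const
  boxx b _ _ := by
    split_ifs
    · exact (h.2 x₀ (by simp)).trans (by norm_num)
    · exact (h.2 x₁ (by simp)).trans (by norm_num)
  boxz _ := by norm_num
  order k k' σ hk _ _ _ _ _ := by
    have : x₀ < x₁ := by simpa using h.1
    fin_cases k <;> fin_cases k' <;> simp at hk ⊢
    exact this

theorem posOK_q : PosOK [-1 / 4, 1 / 4] := by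
  refine ⟨by norm_num, fun x hx => ?_⟩
  simp only [List.mem_cons, List.not_mem_nil, or_false] at hx
  rcases hx with rfl | rfl <;> norm_num [abs_le]

/-- the collars of a surgery strand and a skein strand -/
noncomputable def tcol (i : ι) : Collar 2 ι := col2 (-1 / 4) (1 / 4) (some i) none posOK_q

/-- the picture in which the strands labelled `some i` are lowered by `δ` and replaced by skein
strands -/
def dblPic (i : ι) (δ : ℝ) (A : Pic ι) : Pic ι :=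
  {y | (y.1 = some i ∧ (some i, y.2 + δ • ez) ∈ A) ∨
    (y.1 ≠ some i ∧ (y ∈ A ∨ (y.1 = none ∧ (some i, y.2) ∈ A)))}

/-- the collars of a handle slide: the surgery strand below its copy, and a skein strand -/
noncomputable def scol (i : ι) (δ : ℝ) (hδ : δ ∈ Ioc (0 : ℝ) (1 / 2)) : Collar 3 ι where
  ξ b _ := if b.1 = 2 then 1 / 4 else -1 / 4
  ζ b := if b.1 = 0 then -δ else 0
  lab b := if b.1 = 0 then some i else none
  cont _ := continuousOn_const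
  boxx b _ _ := by split_ifs <;> norm_num [abs_le]
  boxz b := by
    rw [abs_le]; split_ifs <;> constructor <;> linarith [hδ.1, hδ.2]
  order k k' σ hk h _ _ _ _ := by
    have := hδ.1
    fin_cases k <;> fin_cases k' <;> simp at hk h ⊢ <;> linarith

end Pool.Agent.P.MP_ac4909_gt.B
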