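import Pool.Agent.P.MP_ac4909_gt.B.GB_Amb
import Pool.Agent.P.MP_ac4909_gt.B.H.RGLP

/-! Layer G, blocks: affine maps. -/

namespace Pool.Agent.P.MP_ac4909_gt.B

open scoped ContDiff
open Set Filter Topology

variable {ψ : E3 → E3}

theorem gamb_affine (A : E3 →L[ℝ] E3) (hA : 0 < A.det) (b : E3) : GAmb fun p => A p + b := by
  obtain ⟨P, h1, h2, h3, h4⟩ := H.glp_of (ContinuousLinearMap.id ℝ E3) A
    (by rw [H.det_id]; exact one_pos) hA
  have k := gamb_of_iso (Q := fun s p => P s p + s • b)
    (((h1.comp contDiff_fst).clm_apply contDiff_snd).add (contDiff_fst.smul contDiff_const))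
    (fun p => by simp [h3 0 le_rfl])
    (fun s _ p q e => injective_of_det_ne (h2 s).ne' (add_right_cancel e))
    fun s _ p => by
      rw [fderiv_add_const, ContinuousLinearMap.fderiv]
      exact (h2 s).ne'
  simpa only [h4 1 le_rfl, one_smul] using k

end Pool.Agent.P.MP_ac4909_gt.B
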