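import Pool.Agent.P.MP_ac4909_gt.B.GB_Geq

/-! Layer G, blocks: ambient isotopies. -/

namespace Pool.Agent.P.MP_ac4909_gt.B

open scoped ContDiff
open Set Filter Topology

variable {ι κ P : Type} {S S' : LS ι} {h g : E3 → E3}

theorem gamb_push_id (hh : ∀ p, h p = p) (S : LS ι) : gpush h S = S := by
  obtain rfl : h = id := funext hh
  simp [gpush]

theorem gamb_push_comp (hg : ContDiff ℝ ∞ g) (hh : ContDiff ℝ ∞ h) (S : LS ι) :
    gpush (g ∘ h) S = gpush g (gpush h S) := by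
  rw [gpush, gpush, gpush, image_image]
  refine image_congr fun x _ => ?_
  rw [fderiv_comp _ (hg.differentiable (by simp) _) (hh.differentiable (by simp) _)]
  rfl

theorem gamb_det_comp (hg : ContDiff ℝ ∞ g) (hh : ContDiff ℝ ∞ h) (p : E3) :
    (fderiv ℝ (g ∘ h) p).det = (fderiv ℝ g (h p)).det * (fderiv ℝ h p).det := by
  rw [fderiv_comp _ (hg.differentiable (by simp) _) (hh.differentiable (by simp) _)]
  exact LinearMap.det_comp _ _

theorem gamb_isLL (hs : ContDiff ℝ ∞ h) (hi : Function.Injective h)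
    (hd : ∀ p, (fderiv ℝ h p).det ≠ 0) (hS : IsLL S) : IsLL (gpush h S) := by
  obtain ⟨κ, _, L, ℓ, hL, rfl⟩ := hS
  exact ⟨κ, ‹_›, L.push h, ℓ, hL.gpush hs hi hd, (L.push_set h ℓ).symm⟩

theorem gamb_of_iso {Q : ℝ → E3 → E3} (hQ : ContDiff ℝ ∞ fun p : ℝ × E3 => Q p.1 p.2)
    (h₀ : ∀ p, Q 0 p = p) (hi : ∀ s ∈ Icc (0 : ℝ) 1, Function.Injective (Q s))
    (hd : ∀ s ∈ Icc (0 : ℝ) 1, ∀ p, (fderiv ℝ (Q s) p).det ≠ 0) : GAmb (Q 1) := by
  have hs : ∀ s, ContDiff ℝ ∞ (Q s) := fun s => hQ.comp (contDiff_const.prodMk contDiff_id)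
  have h1 : (1 : ℝ) ∈ Icc (0 : ℝ) 1 := right_mem_Icc.2 zero_le_one
  refine ⟨hs 1, hi 1 h1, hd 1 h1, ?_⟩
  rintro ι S ⟨κ, _, L, ℓ, hL, rfl⟩
  refine GIso.gEq ⟨κ, ‹_›, fun s => L.push (Q s), ℓ, fun c => ⟨?_, ?_⟩,
    fun s h => hL.gpush (hs s) (hi s h) (hd s h), ?_, (L.push_set _ ℓ).symm⟩
  · exact hQ.comp (contDiff_fst.prodMk ((hL.isU.smooth c).comp contDiff_snd))
  · exact ContDiff.fderiv_apply (m := ∞) (f := fun p : ℝ × ℝ => Q p.1)
      (hQ.comp (contDiff_fst.fst.prodMk contDiff_snd)) ((hL.isU.smooth c).comp contDiff_snd)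
      ((hL.smooth c).comp contDiff_snd) (by simp)
  · rw [L.push_set, gamb_push_id h₀]

theorem GAmb.comp (hg : GAmb g) (hh : GAmb h) : GAmb (g ∘ h) := by
  refine ⟨hg.smooth.comp hh.smooth, hg.inj.comp hh.inj, fun p => ?_, fun ι S hS => ?_⟩
  · rw [gamb_det_comp hg.smooth hh.smooth]
    exact mul_ne_zero (hg.det_ne _) (hh.det_ne _)
  · rw [gamb_push_comp hg.smooth hh.smooth]
    exact (hh.geq ι S hS).trans (hg.geq ι _ (hh.isLL hS))

theorem GAmb.inv (hh : GAmb h) (hg : ContDiff ℝ ∞ g) (h₁ : ∀ p, g (h p) = p)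
    (h₂ : ∀ p, h (g p) = p) : GAmb g := by
  have _ := h₁
  have hi : Function.Injective g := Function.LeftInverse.injective h₂
  have hd : ∀ p, (fderiv ℝ g p).det ≠ 0 := fun p h0 => by
    have h1 := gamb_det_comp hh.smooth hg p
    rw [h0, mul_zero, show h ∘ g = id from funext h₂, fderiv_id] at h1
    exact one_ne_zero (LinearMap.det_id.symm.trans h1)
  refine ⟨hg, hi, hd, fun ι S hS => ?_⟩
  have h1 := hh.geq ι _ (gamb_isLL hg hi hd hS)
  rw [← gamb_push_comp hh.smooth hg, gamb_push_id (h := h ∘ g) h₂] at h1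
  exact h1.symm

theorem gamb_det_ne {A : E3 →L[ℝ] E3} (hA : ‖A‖ ≤ 1 / 2) :
    (ContinuousLinearMap.id ℝ E3 + A).det ≠ 0 := by
  refine (LinearMap.isUnit_det _ ((LinearMap.isUnit_iff_ker_eq_bot _).2
    (LinearMap.ker_eq_bot'.2 fun v hv => ?_))).ne_zero
  have h1 : v = -A v := eq_neg_of_add_eq_zero_left hv
  have h2 := A.le_of_opNorm_le hA v
  rw [← norm_neg, ← h1] at h2
  exact norm_le_zero_iff.1 (by linarith)

/-- small perturbations of the identity and their inverses -/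
theorem gamb_small {u : E3 → E3} (hu : ContDiff ℝ ∞ u) (hs : ∀ p, ‖fderiv ℝ u p‖ ≤ 1 / 2) :
    GAmb (fun p => p + u p) ∧ ∃ g, GAmb g ∧ ∀ p, g (p + u p) = p := by
  have hd : Differentiable ℝ u := hu.differentiable (by simp)
  have hl : ∀ p q, ‖u p - u q‖ ≤ 1 / 2 * ‖p - q‖ := fun p q =>
    convex_univ.norm_image_sub_le_of_norm_fderiv_le (fun x _ => hd x) (fun x _ => hs x)
      (mem_univ q) (mem_univ p)
  have h1 : GAmb fun p => p + (1 : ℝ) • u p := by
    refine gamb_of_iso (Q := fun s p => p + s • u p)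
      (contDiff_snd.add (contDiff_fst.smul (hu.comp contDiff_snd))) (fun p => by simp)
      (fun s h p q e => ?_) fun s h p => ?_
    · have e1 : p - q = -(s • (u p - u q)) := by
        rw [smul_sub, neg_sub, sub_eq_sub_iff_add_eq_add, add_comm (s • u q)]
        exact e
      have e2 := congrArg norm e1
      rw [norm_neg, norm_smul, Real.norm_of_nonneg h.1] at e2
      have e3 := mul_le_of_le_one_left (norm_nonneg (u p - u q)) h.2
      exact sub_eq_zero.1 (norm_le_zero_iff.1 (by linarith [hl p q]))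
    · have e : HasFDerivAt (fun p => p + s • u p)
          (ContinuousLinearMap.id ℝ E3 + s • fderiv ℝ u p) p :=
        (hasFDerivAt_id p).add ((hd p).hasFDerivAt.const_smul s)
      rw [e.fderiv]
      refine gamb_det_ne ?_
      rw [norm_smul, Real.norm_of_nonneg h.1]
      exact (mul_le_of_le_one_left (norm_nonneg _) h.2).trans (hs p)
  simp only [one_smul] at h1
  have hsur : Function.Surjective fun p => p + u p := fun y => by
    have hc : ContractingWith (1 / 2) fun p => y - u p :=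
      ⟨by norm_num, LipschitzWith.of_dist_le_mul fun p q => by
        rw [dist_sub_left, dist_eq_norm, dist_eq_norm]
        exact_mod_cast hl p q⟩
    exact ⟨_, eq_sub_iff_add_eq.1 hc.fixedPoint_isFixedPt.eq.symm⟩
  obtain ⟨g, g1, g2⟩ := Function.bijective_iff_has_inverse.1 ⟨h1.inj, hsur⟩
  refine ⟨h1, g, h1.inv (contDiff_iff_contDiffAt.2 fun y => ?_) g1 g2, g1⟩
  obtain ⟨p, rfl⟩ := hsur y
  obtain ⟨σ, s1, -, s3⟩ := MCalcA_local (M := E3) (p := p) h1.smooth.contDiffAt.contMDiffAt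
    (by rw [jac_eq_fderiv]; exact h1.det_ne p)
  exact s1.contDiffAt.congr_of_eventuallyEq (s3.mono fun y hy => by
    conv_lhs => rw [← hy]
    exact g1 _)

end Pool.Agent.P.MP_ac4909_gt.B
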