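import Pool.Agent.P.MP_ac4909_gt.B.GB_Loc

/-! Layer G, blocks: framings in angle form. -/

namespace Pool.Agent.P.MP_ac4909_gt.B

open scoped ContDiff
open Set Filter Topology

variable {κ : Type} {Cl : Set E3} {γ : κ → ℝ → E3} {θ θ' : κ → ℝ → ℝ}

theorem indep_ang {v : E3} (hv : v 0 ≠ 0 ∨ v 1 ≠ 0) {α a b : ℝ} (h : a ≠ 0 ∨ b ≠ 0) :
    LinearIndependent ℝ ![v, α • v + a • ez + b • hn v] := by
  refine LinearIndependent.pair_iff.2 fun s t e => ?_
  have e0 : s * v 0 + t * (α * v 0 - b * v 1) = 0 := by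
    have := congrArg (fun w : E3 => w 0) e
    simp [ez, hn] at this
    linear_combination this
  have e1 : s * v 1 + t * (α * v 1 + b * v 0) = 0 := by
    have := congrArg (fun w : E3 => w 1) e
    simp [ez, hn] at this
    linear_combination this
  have e2 : s * v 2 + t * (α * v 2 + a) = 0 := by
    have := congrArg (fun w : E3 => w 2) e
    simp [ez, hn] at this
    linear_combination this
  have hn0 : v 0 ^ 2 + v 1 ^ 2 ≠ 0 := by
    rcases hv with h' | h' <;> positivity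
  have h1 : s + t * α = 0 :=
    (mul_eq_zero.1 (show (s + t * α) * (v 0 ^ 2 + v 1 ^ 2) = 0 by
      linear_combination v 0 * e0 + v 1 * e1)).resolve_right hn0
  have h2 : t * b = 0 :=
    (mul_eq_zero.1 (show (t * b) * (v 0 ^ 2 + v 1 ^ 2) = 0 by
      linear_combination v 0 * e1 - v 1 * e0)).resolve_right hn0
  have h3 : t * a = 0 := by linear_combination e2 - v 2 * h1
  have h4 : t = 0 := by
    rcases h with h | h
    · exact (mul_eq_zero.1 h3).resolve_right h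
    · exact (mul_eq_zero.1 h2).resolve_right h
  refine ⟨?_, h4⟩
  rw [h4, zero_mul, add_zero] at h1
  exact h1

theorem gang_coord (i : Fin 3) : ContDiff ℝ ∞ fun v : E3 => v i :=
  (contDiff_euclidean.1 (contDiff_id : ContDiff ℝ ∞ (id : E3 → E3))) i

theorem contDiff_hn : ContDiff ℝ ∞ hn := by
  refine contDiff_euclidean.2 fun i => ?_
  fin_cases i
  · exact (gang_coord 1).neg
  · exact gang_coord 0
  · exact contDiff_const

theorem gang_deriv_smooth (hγ : IsU γ) (c : κ) : ContDiff ℝ ∞ (deriv (γ c)) :=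
  (contDiff_infty_iff_deriv.1 (hγ.smooth c)).2

theorem gang_deriv_per (hγ : IsU γ) (c : κ) (t : ℝ) : deriv (γ c) (t + 1) = deriv (γ c) t := by
  have e : (fun u => γ c (u + 1)) = γ c := funext (hγ.per c)
  rw [← deriv_comp_add_const, e]

theorem gang_cos_sin (x : ℝ) : Real.cos x ≠ 0 ∨ Real.sin x ≠ 0 := by
  by_contra h
  push Not at h
  have h1 := Real.cos_sq_add_sin_sq x
  rw [h.1, h.2] at h1
  norm_num at h1

theorem ang_isLink (hγ : IsU γ) (hv : NonVert γ) (hθ : AngOK θ) : (ang γ θ).IsLink := by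
  refine ⟨hγ, fun c => ?_, fun c t => ?_, fun c t => ?_⟩
  · exact ((hθ.smooth c).cos.smul contDiff_const).add
      ((hθ.smooth c).sin.smul (contDiff_hn.comp (gang_deriv_smooth hγ c)))
  · obtain ⟨m, hm⟩ := hθ.per c
    show Real.cos (θ c (t + 1)) • ez + Real.sin (θ c (t + 1)) • hn (deriv (γ c) (t + 1)) =
      Real.cos (θ c t) • ez + Real.sin (θ c t) • hn (deriv (γ c) t)
    rw [hm, gang_deriv_per hγ, mul_comm (2 * Real.pi), Real.cos_add_int_mul_two_pi,
      Real.sin_add_int_mul_two_pi]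
  · have h := indep_ang (α := 0) (hv c t) (gang_cos_sin (θ c t))
    rw [zero_smul, zero_add] at h
    exact h

theorem ang_of_z2 {c : κ} {t : ℝ} (h : Z2 (θ c t)) : (ang γ θ).ν c t = ez := by
  obtain ⟨k, hk⟩ := h
  show Real.cos (θ c t) • ez + Real.sin (θ c t) • hn (deriv (γ c) t) = ez
  have h1 : Real.sin (k * (2 * Real.pi)) = 0 := by
    rw [← zero_add ((k : ℝ) * (2 * Real.pi)), Real.sin_add_int_mul_two_pi, Real.sin_zero]
  rw [hk, mul_comm (2 * Real.pi), Real.cos_int_mul_two_pi, h1, one_smul, zero_smul, add_zero]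

theorem gang_half (k : ℤ) : ¬ Z2 (2 * Real.pi * (k + 1 / 2)) := by
  rintro ⟨j, hj⟩
  have h1 : (k : ℝ) + 1 / 2 = j := mul_left_cancel₀ (by positivity) hj
  have h2 : (2 * k + 1 : ℤ) = 2 * j := by
    have : (2 * k + 1 : ℝ) = 2 * j := by linarith
    exact_mod_cast this
  omega

theorem gang_le {f : ℝ → ℝ} {a b : ℝ} (hf : ContinuousOn f (Icc a b))
    (h : ∀ t ∈ Icc a b, Z2 (f t)) {s t : ℝ} (hs : s ∈ Icc a b) (ht : t ∈ Icc a b) :
    f s ≤ f t := by
  by_contra hlt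
  obtain ⟨k, hk⟩ := h t ht
  obtain ⟨j, hj⟩ := h s hs
  have hπ : 0 < 2 * Real.pi := by positivity
  have h1 : (k : ℝ) < j := by
    rw [hk, hj, not_le] at hlt
    exact lt_of_mul_lt_mul_left hlt hπ.le
  have h2 : (k : ℝ) + 1 ≤ j := by
    have : k < j := by exact_mod_cast h1
    exact_mod_cast this
  have h3 : 2 * Real.pi * (k + 1 / 2) ∈ Icc (f t) (f s) := by
    rw [hk, hj]
    exact ⟨mul_le_mul_of_nonneg_left (by linarith) hπ.le,
      mul_le_mul_of_nonneg_left (by linarith) hπ.le⟩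
  obtain ⟨u, hu, e⟩ := isPreconnected_Icc.intermediate_value ht hs hf h3
  exact gang_half k (e ▸ h u hu)

theorem Z2.const {f : ℝ → ℝ} {a b : ℝ} (hf : ContinuousOn f (Icc a b))
    (h : ∀ t ∈ Icc a b, Z2 (f t)) : ∃ k : ℤ, ∀ t ∈ Icc a b, f t = 2 * Real.pi * k := by
  by_cases hab : a ≤ b
  · have ha : a ∈ Icc a b := left_mem_Icc.2 hab
    obtain ⟨k, hk⟩ := h a ha
    exact ⟨k, fun t ht => (le_antisymm (gang_le hf h ht ha) (gang_le hf h ha ht)).trans hk⟩
  · exact ⟨0, fun t ht => absurd (ht.1.trans ht.2) hab⟩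

theorem gang_const {f : ℝ → ℝ} (hf : Continuous f) (h : ∀ t, Z2 (f t)) :
    ∃ k : ℤ, ∀ t, f t = 2 * Real.pi * k := by
  obtain ⟨k, hk⟩ := h 0
  refine ⟨k, fun t => ?_⟩
  obtain ⟨j, hj⟩ := Z2.const (a := -|t|) (b := |t|) hf.continuousOn fun u _ => h u
  rw [hj t ⟨neg_abs_le t, le_abs_self t⟩, ← hk,
    hj 0 ⟨neg_nonpos.2 (abs_nonneg t), abs_nonneg t⟩]

theorem AngOK.z2_add_int (hθ : AngOK θ) {c : κ} {t : ℝ} (h : Z2 (θ c t)) (j : ℤ) :
    Z2 (θ c (t + j)) := by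
  obtain ⟨m, hm⟩ := hθ.per c
  induction j using Int.induction_on with
  | zero => rwa [Int.cast_zero, add_zero]
  | succ i ih =>
    obtain ⟨k, hk⟩ := ih
    refine ⟨k + m, ?_⟩
    rw [Int.cast_add, Int.cast_one, ← add_assoc, hm, hk, Int.cast_add, mul_add]
  | pred i ih =>
    obtain ⟨k, hk⟩ := ih
    refine ⟨k - m, ?_⟩
    have h1 := hm (t + ((-(i : ℤ) - 1 : ℤ) : ℝ))
    have h2 : t + ((-(i : ℤ) - 1 : ℤ) : ℝ) + 1 = t + ((-(i : ℤ) : ℤ) : ℝ) := by
      push_cast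
      ring
    rw [h2, hk] at h1
    rw [Int.cast_sub k m]
    linear_combination -h1

/-- coordinates in the frame `v`, `ez`, `hn v` -/
theorem gang_dec {v : E3} (hv : v 0 ≠ 0 ∨ v 1 ≠ 0) (w : E3) :
    w = ((w 0 * v 0 + w 1 * v 1) / (v 0 ^ 2 + v 1 ^ 2)) • v +
      (w 2 - (w 0 * v 0 + w 1 * v 1) / (v 0 ^ 2 + v 1 ^ 2) * v 2) • ez +
      ((w 1 * v 0 - w 0 * v 1) / (v 0 ^ 2 + v 1 ^ 2)) • hn v := by
  have hn0 : v 0 ^ 2 + v 1 ^ 2 ≠ 0 := by
    rcases hv with h' | h' <;> positivity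
  ext i
  fin_cases i
  · simp [ez, hn]
    field_simp
    ring
  · simp [ez, hn]
    field_simp
    ring
  · simp [ez, hn]

theorem gang_im {z w : ℂ} (h : Complex.exp z = Complex.exp w) : Z2 (z.im - w.im) := by
  obtain ⟨n, hn⟩ := Complex.exp_eq_exp_iff_exists_int.1 h
  refine ⟨n, ?_⟩
  rw [hn]
  simp
  ring

theorem gang_one {v ν : ℝ → E3} (hv : ContDiff ℝ ∞ v) (hν : ContDiff ℝ ∞ ν)
    (pv : ∀ t, v (t + 1) = v t) (pν : ∀ t, ν (t + 1) = ν t) (h0 : ∀ t, v t 0 ≠ 0 ∨ v t 1 ≠ 0)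
    (hi : ∀ t, LinearIndependent ℝ ![v t, ν t]) :
    ∃ φ : ℝ → ℝ, ContDiff ℝ ∞ φ ∧ (∃ m : ℤ, ∀ t, φ (t + 1) = φ t + 2 * Real.pi * m) ∧
      (∀ t, ∃ α r : ℝ, 0 < r ∧
        ν t = α • v t + (r * Real.cos (φ t)) • ez + (r * Real.sin (φ t)) • hn (v t)) ∧
      ∀ t, ν t = ez → Z2 (φ t) := by
  obtain ⟨α, hα⟩ : ∃ α : ℝ → ℝ, α = fun t =>
    (ν t 0 * v t 0 + ν t 1 * v t 1) / (v t 0 ^ 2 + v t 1 ^ 2) := ⟨_, rfl⟩
  obtain ⟨a, ha⟩ : ∃ a : ℝ → ℝ, a = fun t => ν t 2 - α t * v t 2 := ⟨_, rfl⟩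
  obtain ⟨b, hb⟩ : ∃ b : ℝ → ℝ, b = fun t =>
    (ν t 1 * v t 0 - ν t 0 * v t 1) / (v t 0 ^ 2 + v t 1 ^ 2) := ⟨_, rfl⟩
  have hn0 : ∀ t, v t 0 ^ 2 + v t 1 ^ 2 ≠ 0 := fun t => by
    rcases h0 t with h' | h' <;> positivity
  have cv : ∀ i, ContDiff ℝ ∞ fun t => v t i := fun i => (gang_coord i).comp hv
  have cν : ∀ i, ContDiff ℝ ∞ fun t => ν t i := fun i => (gang_coord i).comp hν
  have sα : ContDiff ℝ ∞ α := by
    rw [hα]
    exact (((cν 0).mul (cv 0)).add ((cν 1).mul (cv 1))).div (((cv 0).pow 2).add ((cv 1).pow 2)) hn0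
  have sa : ContDiff ℝ ∞ a := by
    rw [ha]
    exact (cν 2).sub (sα.mul (cv 2))
  have sb : ContDiff ℝ ∞ b := by
    rw [hb]
    exact (((cν 1).mul (cv 0)).sub ((cν 0).mul (cv 1))).div (((cv 0).pow 2).add ((cv 1).pow 2)) hn0
  have hdec : ∀ t, ν t = α t • v t + a t • ez + b t • hn (v t) := fun t => by
    rw [ha, hb, hα]
    exact gang_dec (h0 t) (ν t)
  have sf : ContDiff ℝ ∞ fun t => (a t : ℂ) + (b t : ℂ) * Complex.I :=
    (Complex.ofRealCLM.contDiff.comp sa).add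
      ((Complex.ofRealCLM.contDiff.comp sb).mul contDiff_const)
  have f0 : ∀ t, (a t : ℂ) + (b t : ℂ) * Complex.I ≠ 0 := fun t h => by
    have h1 : a t = 0 := by simpa using congrArg Complex.re h
    have h2 : b t = 0 := by simpa using congrArg Complex.im h
    have h3 := hdec t
    rw [h1, h2, zero_smul, zero_smul, add_zero, add_zero] at h3
    have h4 := LinearIndependent.pair_iff.1 (hi t) (α t) (-1) (by
      rw [neg_one_smul, ← h3, add_neg_cancel])
    exact absurd h4.2 (by norm_num)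
  obtain ⟨g, sg, hg⟩ := exists_smooth_log sf f0
  have sφ : ContDiff ℝ ∞ fun t => (g t).im := Complex.imCLM.contDiff.comp sg
  refine ⟨fun t => (g t).im, sφ, ?_, fun t => ⟨α t, Real.exp (g t).re, Real.exp_pos _, ?_⟩,
    fun t ht => ?_⟩
  · have h1 : ∀ t, Z2 ((g (t + 1)).im - (g t).im) := fun t => gang_im (by
      rw [← hg, ← hg, ha, hb, hα]
      simp only [pv, pν])
    obtain ⟨m, hm⟩ := gang_const (f := fun t => (g (t + 1)).im - (g t).im)
      ((sφ.continuous.comp (continuous_id.add continuous_const)).sub sφ.continuous) h1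
    exact ⟨m, fun t => by linear_combination hm t⟩
  · have h1 : a t = Real.exp (g t).re * Real.cos (g t).im := by
      rw [← Complex.exp_re, ← hg]
      simp
    have h2 : b t = Real.exp (g t).re * Real.sin (g t).im := by
      rw [← Complex.exp_im, ← hg]
      simp
    rw [← h1, ← h2]
    exact hdec t
  · have h1 : Complex.exp (g t) = Complex.exp 0 := by
      rw [← hg, ha, hb, hα]
      simp [ht, ez]
    have h2 := gang_im h1
    rwa [Complex.zero_im, sub_zero] at h2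

/-- every framing is homotopic to one in angle form -/
theorem exists_ang {L : Lk κ} (hL : L.IsLink) (hv : NonVert L.γ) {W : Set E3} (hW : IsOpen W)
    (hCW : Cl ⊆ W) (hν : ∀ c t, L.γ c t ∈ W → L.ν c t = ez) :
    ∃ θ, AngOK θ ∧ RelIso Cl L (ang L.γ θ) ∧ ∀ c t, L.γ c t ∈ W → Z2 (θ c t) := by
  choose φ h1 h2 h3 h4 using fun c => gang_one (gang_deriv_smooth hL.isU c) (hL.smooth c)
    (gang_deriv_per hL.isU c) (hL.per c) (hv c) (hL.indep c)
  have hφ : AngOK φ := ⟨h1, h2⟩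
  have hA := ang_isLink hL.isU hv hφ
  refine ⟨φ, hφ, ⟨fun s => ⟨L.γ, fun c t => (1 - s) • L.ν c t + s • (ang L.γ φ).ν c t⟩,
    fun c => {t | L.γ c t ∉ W}, fun c => ⟨(hL.isU.smooth c).comp contDiff_snd, ?_⟩,
    fun s hs => ⟨hL.isU, fun c => ?_, fun c t => ?_, fun c t => ?_⟩, ?_, ?_, fun c => ?_,
    fun s _ c t ht => ⟨rfl, ?_⟩, fun s _ c t ht h => ht (hCW h)⟩,
    fun c t h => h4 c t (hν c t h)⟩
  · exact ((contDiff_const.sub contDiff_fst).smul ((hL.smooth c).comp contDiff_snd)).add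
      (contDiff_fst.smul ((hA.smooth c).comp contDiff_snd))
  · exact ((hL.smooth c).const_smul _).add ((hA.smooth c).const_smul _)
  · show (1 - s) • L.ν c (t + 1) + s • (ang L.γ φ).ν c (t + 1) =
      (1 - s) • L.ν c t + s • (ang L.γ φ).ν c t
    rw [hL.per, hA.per]
  · obtain ⟨α, r, hr, e⟩ := h3 c t
    have hp : (1 - s) * r + s ≠ 0 := by
      rcases hs.1.eq_or_lt with h | h
      · rw [← h, sub_zero, one_mul, add_zero]
        exact hr.ne'
      · exact (add_pos_of_nonneg_of_pos (mul_nonneg (sub_nonneg.2 hs.2) hr.le) h).ne'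
    have h := indep_ang (α := (1 - s) * α) (hv c t)
      ((gang_cos_sin (φ c t)).imp (mul_ne_zero hp) (mul_ne_zero hp))
    have e' : (1 - s) • L.ν c t + s • (ang L.γ φ).ν c t = ((1 - s) * α) • deriv (L.γ c) t +
        (((1 - s) * r + s) * Real.cos (φ c t)) • ez +
        (((1 - s) * r + s) * Real.sin (φ c t)) • hn (deriv (L.γ c) t) := by
      show (1 - s) • L.ν c t + s • (Real.cos (φ c t) • ez +
        Real.sin (φ c t) • hn (deriv (L.γ c) t)) = _
      rw [e]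
      module
    rw [← e'] at h
    exact h
  · simp only [sub_zero, one_smul, zero_smul, add_zero]
  · simp only [sub_self, one_smul, zero_smul, zero_add]
    rfl
  · exact (hW.preimage (hL.isU.smooth c).continuous).isClosed_compl
  · have h : L.γ c t ∈ W := not_not.1 ht
    show (1 - s) • L.ν c t + s • (ang L.γ φ).ν c t = L.ν c t
    rw [ang_of_z2 (h4 c t (hν c t h)), hν c t h, ← add_smul, sub_add_cancel, one_smul]

theorem relIso_ang (hγ : IsU γ) (hv : NonVert γ) (hθ : AngOK θ)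
    (hs : ∀ c, ContDiff ℝ ∞ (θ' c)) (hp : ∀ c t, θ' c (t + 1) - θ c (t + 1) = θ' c t - θ c t)
    (he : ∀ c t, γ c t ∈ Cl → θ' c =ᶠ[𝓝 t] θ c) :
    AngOK θ' ∧ RelIso Cl (ang γ θ) (ang γ θ') := by
  have hok : ∀ s : ℝ, AngOK fun c t => (1 - s) * θ c t + s * θ' c t := fun s => by
    refine ⟨fun c => (contDiff_const.mul (hθ.smooth c)).add (contDiff_const.mul (hs c)),
      fun c => ?_⟩
    obtain ⟨m, hm⟩ := hθ.per c
    exact ⟨m, fun t => by linear_combination hm t + s * hp c t⟩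
  refine ⟨⟨hs, fun c => ?_⟩, fun s => ang γ fun c t => (1 - s) * θ c t + s * θ' c t,
    fun c => closure {t | θ' c t ≠ θ c t}, fun c => ⟨(hγ.smooth c).comp contDiff_snd, ?_⟩,
    fun s _ => ang_isLink hγ hv (hok s), ?_, ?_, fun c => isClosed_closure,
    fun s _ c t ht => ⟨rfl, ?_⟩, fun s _ c t ht h => ?_⟩
  · obtain ⟨m, hm⟩ := hθ.per c
    exact ⟨m, fun t => by linear_combination hm t + hp c t⟩
  · have h1 : ContDiff ℝ ∞ fun p : ℝ × ℝ => (1 - p.1) * θ c p.2 + p.1 * θ' c p.2 :=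
      ((contDiff_const.sub contDiff_fst).mul ((hθ.smooth c).comp contDiff_snd)).add
        (contDiff_fst.mul ((hs c).comp contDiff_snd))
    exact (h1.cos.smul contDiff_const).add
      (h1.sin.smul ((contDiff_hn.comp (gang_deriv_smooth hγ c)).comp contDiff_snd))
  · simp only [sub_zero, one_mul, zero_mul, add_zero]
  · simp only [sub_self, one_mul, zero_mul, zero_add]
  · have h1 : θ' c t = θ c t := by
      by_contra h
      exact ht (subset_closure h)
    have h2 : (1 - s) * θ c t + s * θ' c t = θ c t := by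
      rw [h1]
      ring
    show Real.cos ((1 - s) * θ c t + s * θ' c t) • ez +
      Real.sin ((1 - s) * θ c t + s * θ' c t) • hn (deriv (γ c) t) = _
    rw [h2]
    rfl
  · obtain ⟨u, h1, h2⟩ := ((mem_closure_iff_frequently.1 ht).and_eventually (he c t h)).exists
    exact h1 h2

end Pool.Agent.P.MP_ac4909_gt.B
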