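import Pool.Agent.P.MP_ac4909_gt.B.GB_Blk

/-! Layer G, blocks: doubling of a grid with a block of two straight strands. -/

namespace Pool.Agent.P.MP_ac4909_gt.B

variable {N O ι : Type} [DecidableEq N] [DecidableEq ι] {G : Grid N (Option (Arc ι))} {R : Rz N}
  {φ : O → N} {X₁ X₂ Y₁ Y₂ : List O} {Xb Yb : List N} {ρ : Fin 2 × Bool → O}
  {bc : Fin 2 × Bool → N}

/-- the embedding of the doubled outer part -/
def dblMap (φ : O → N) (D : N → Bool) :
    O ⊕ {a // D (φ a) = true} → N ⊕ {a // D a = true} := Sum.map φ fun a => ⟨φ a.1, a.2⟩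

omit [DecidableEq N] in
theorem gbdbl_pushoff (x : Arc ι) :
    dblLab (fun z : Option (Arc ι) => decide (z.map Arc.name = some x.name))
      (fun z => decide (z = some x)) id (fun _ => none) = pushoff x := by
  funext z
  obtain ⟨i, u⟩ := x
  rcases z with _ | ⟨j, w⟩
  · simp [dblLab, pushoff]
  · by_cases hij : j = i
    · subst hij
      cases u <;> cases w <;> simp [dblLab, pushoff, Rev.rev]
    · simp [dblLab, pushoff, Rev.rev, hij]

omit [DecidableEq N] [DecidableEq ι] in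
theorem gbdbl_map (φ : O → N) (D aft : N → Bool) (L : List O) :
    (dblList (fun a => D (φ a)) (fun a => aft (φ a)) L).map (dblMap φ D) =
      dblList D aft (L.map φ) := by
  induction L with
  | nil => rfl
  | cons a L ih =>
    rw [wd_dblList_cons, List.map_append, ih, List.map_cons, wd_dblList_cons (φ a)]
    congr 1
    cases hv : D (φ a)
    · rw [wd_dblList_neg hv, wd_dblList_neg (D := fun a => D (φ a)) hv]
      rfl
    · rw [wd_dblList_pos hv, wd_dblList_pos (D := fun a => D (φ a)) hv]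
      cases aft (φ a) <;> rfl

omit [DecidableEq N] [DecidableEq ι] in
theorem gbdbl_und (φ : O → N) (D : N → Bool) (v : O ⊕ {a // D (φ a) = true}) :
    wd_und (dblMap φ D v) = φ (wd_und (D := fun a => D (φ a)) v) := by
  cases v <;> rfl

omit [DecidableEq N] [DecidableEq ι] in
theorem gbdbl_inj (hφ : Function.Injective φ) (D : N → Bool) :
    Function.Injective (dblMap φ D) :=
  hφ.sumMap fun _ _ hab => Subtype.ext (hφ (congrArg Subtype.val hab))

omit [DecidableEq ι] in
/-- nothing lies between two adjacent entries -/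
theorem gbdbl_adj {l A B : List N} {a b : N} (hl : l = A ++ a :: b :: B) (hn : l.Nodup) (v : N) :
    ¬ (wd_ilt l a v ∧ wd_ilt l v b) ∧ ¬ (wd_ilt l b v ∧ wd_ilt l v a) := by
  subst hl
  have ha : a ∉ A := fun h => (List.nodup_append.1 hn).2.2 a h a (by simp) rfl
  have hb : b ∉ A := fun h => (List.nodup_append.1 hn).2.2 b h b (by simp) rfl
  have hab : a ≠ b := fun h => by
    have := (List.nodup_append.1 hn).2.1
    rw [h] at this
    simp at this
  have e1 : (A ++ a :: b :: B).idxOf a = A.length := by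
    rw [List.idxOf_append_of_notMem ha, List.idxOf_cons_self, add_zero]
  have e2 : (A ++ a :: b :: B).idxOf b = A.length + 1 := by
    rw [List.idxOf_append_of_notMem hb, List.idxOf_cons_ne _ hab, List.idxOf_cons_self]
  unfold wd_ilt
  rw [e1, e2]
  constructor <;> omega

section
omit [DecidableEq ι]
variable {e : Fin 2 → N}

omit [DecidableEq N] in
theorem gbdbl_nodupXb (h : Blk G R φ X₁ X₂ Y₁ Y₂ Xb Yb ρ bc) : Xb.Nodup := by
  have h3 := h.rok.nodupX
  rw [h.hX] at h3
  exact h3.of_append_left.of_append_right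

omit [DecidableEq N] in
/-- the two neighbours of a row of the block -/
theorem gbdbl_nb (h : Blk G R φ X₁ X₂ Y₁ Y₂ Xb Yb ρ bc)
    (hXb : Xb = [bc (0, false), bc (0, true), bc (1, false), bc (1, true)])
    (hnb : ∀ b, G.nb (bc b) true = e b.1) (k : Fin 2) :
    ∃ s, G.nb (e k) s = bc (k, false) ∧ G.nb (e k) (!s) = bc (k, true) := by
  have hn := gbdbl_nodupXb h
  rw [hXb] at hn
  have hne : bc (k, false) ≠ bc (k, true) := by
    fin_cases k
    · intro h'
      simp [show bc (0, false) = bc (0, true) from h'] at hn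
    · intro h'
      simp [show bc (1, false) = bc (1, true) from h'] at hn
  obtain ⟨s, hs⟩ := h.ok.adj_symm (bc (k, false)) true
  obtain ⟨t, ht⟩ := h.ok.adj_symm (bc (k, true)) true
  rw [hnb] at hs ht
  refine ⟨s, hs, ?_⟩
  have hst : t ≠ s := fun h' => hne (by rw [← hs, ← ht, h'])
  rw [← Bool.eq_not.2 hst, ht]

omit [DecidableEq N] in
theorem gbdbl_col (h : Blk G R φ X₁ X₂ Y₁ Y₂ Xb Yb ρ bc)
    (hXb : Xb = [bc (0, false), bc (0, true), bc (1, false), bc (1, true)]) (b : Fin 2 × Bool) :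
    G.col (bc b) = true := by
  rw [← h.rok.memX, h.hX, hXb]
  obtain ⟨k, σ⟩ := b
  fin_cases k <;> cases σ <;> simp

theorem gbdbl_lo (h : Blk G R φ X₁ X₂ Y₁ Y₂ Xb Yb ρ bc) (k : Fin 2) {f : N} (hf : f ∈ Yb) :
    R.ltY (φ (ρ (k, false))) f := by
  change wd_ilt R.Y _ _
  have hn := h.rok.nodupY
  rw [h.hY, List.append_assoc] at hn ⊢
  exact wd_ilt_of_nodup hn (List.mem_map_of_mem (h.ρ_lo k)) (List.mem_append_left _ hf)

theorem gbdbl_hi (h : Blk G R φ X₁ X₂ Y₁ Y₂ Xb Yb ρ bc) (k : Fin 2) {f : N} (hf : f ∈ Yb) :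
    R.ltY f (φ (ρ (k, true))) := by
  change wd_ilt R.Y _ _
  have hn := h.rok.nodupY
  rw [h.hY] at hn ⊢
  exact wd_ilt_of_nodup hn (List.mem_append_right _ hf) (List.mem_map_of_mem (h.ρ_hi k))

theorem gbdbl_notMem (h : Blk G R φ X₁ X₂ Y₁ Y₂ Xb Yb ρ bc) (b : Fin 2 × Bool) :
    φ (ρ b) ∉ Yb := by
  obtain ⟨k, σ⟩ := b
  intro hf
  cases σ
  · exact lt_irrefl _ (gbdbl_lo h k hf)
  · exact lt_irrefl _ (gbdbl_hi h k hf)

/-- both columns of a strand carry the same label -/
theorem gbdbl_upl (h : Blk G R φ X₁ X₂ Y₁ Y₂ Xb Yb ρ bc)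
    (hXb : Xb = [bc (0, false), bc (0, true), bc (1, false), bc (1, true)])
    (hnb : ∀ b, G.nb (bc b) true = e b.1) (k : Fin 2) (σ : Bool) :
    G.upl R (bc (k, σ)) = G.dl (φ (ρ (k, false))) (bc (k, false)) := by
  cases σ
  · rw [Grid.wd_upl_eq (s := false) (by
      rw [h.bc_out]; exact gbdbl_lo h k (h.bc_in (k, false))), h.bc_out]
  · obtain ⟨s, h1, h2⟩ := gbdbl_nb h hXb hnb k
    rw [Grid.wd_upl_eq (s := true) (by
      rw [Bool.not_true, h.bc_out]; exact gbdbl_hi h k (h.bc_in (k, true))), hnb, ← h.bc_out,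
      h.ok.dl_thru, hnb, ← h1, Grid.wd_dl_thru' h.ok, h2]

/-- no column crosses a row of the block -/
theorem gbdbl_cross (h : Blk G R φ X₁ X₂ Y₁ Y₂ Xb Yb ρ bc)
    (hXb : Xb = [bc (0, false), bc (0, true), bc (1, false), bc (1, true)])
    (hYb : Yb = [e 0, e 1]) (hnb : ∀ b, G.nb (bc b) true = e b.1) {v f : N}
    (hc : G.Crossing R v f) : ∃ o, f = φ o := by
  obtain ⟨⟨s, -, h1⟩, t, h2⟩ := hc
  have hf : f ∈ R.Y := List.idxOf_lt_length_iff.1 (lt_of_lt_of_le h1 List.idxOf_le_length)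
  rw [h.hY, List.mem_append, List.mem_append, List.mem_map, List.mem_map] at hf
  rcases hf with (⟨o, -, ho⟩ | hf) | ⟨o, -, ho⟩
  · exact ⟨o, ho.symm⟩
  · exfalso
    obtain ⟨k, rfl⟩ : ∃ k, f = e k := by
      rw [hYb] at hf
      simp only [List.mem_cons, List.not_mem_nil, or_false] at hf
      rcases hf with rfl | rfl
      exacts [⟨0, rfl⟩, ⟨1, rfl⟩]
    obtain ⟨A, B, hAB⟩ : ∃ A B, R.X = A ++ bc (k, false) :: bc (k, true) :: B := by
      fin_cases k
      · exact ⟨X₁.map φ, bc (1, false) :: bc (1, true) :: X₂.map φ, by rw [h.hX, hXb]; simp⟩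
      · exact ⟨X₁.map φ ++ [bc (0, false), bc (0, true)], X₂.map φ, by rw [h.hX, hXb]; simp⟩
    obtain ⟨u, h3, h4⟩ := gbdbl_nb h hXb hnb k
    have h5 := gbdbl_adj hAB h.rok.nodupX v
    by_cases htu : t = u
    · rw [htu, h3, h4] at h2
      exact h5.1 h2
    · rw [Bool.eq_not.2 htu, Bool.not_not, h3, h4] at h2
      exact h5.2 h2
  · exact ⟨o, ho.symm⟩

/-- the block of two straight strands has the empty word -/
theorem gbdbl_evs (h : Blk G R φ X₁ X₂ Y₁ Y₂ Xb Yb ρ bc)
    (hXb : Xb = [bc (0, false), bc (0, true), bc (1, false), bc (1, true)])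
    (hYb : Yb = [e 0, e 1]) (hnb : ∀ b, G.nb (bc b) true = e b.1) : G.evs R Xb Yb = [] := by
  have hm : ∀ k, e k ∈ Yb := fun k => hnb (k, false) ▸ h.bc_in (k, false)
  have c0 : ∀ k, G.cell R (e k) (bc (k, false)) = some (.fin (G.upl R (bc (k, false))) false) :=
    fun k => by
      rw [Grid.wd_cell_adj h.ok h.rok (gbdbl_col h hXb _) (hnb (k, false)), Bool.not_true, h.bc_out,
        decide_eq_false (p := R.ltY _ _) (wd_ilt.asymm (gbdbl_lo h k (hm k)))]
  have c1 : ∀ k, G.cell R (e k) (bc (k, true)) = some (.fin (G.upl R (bc (k, true))) true) :=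
    fun k => by
      rw [Grid.wd_cell_adj h.ok h.rok (gbdbl_col h hXb _) (hnb (k, true)), Bool.not_true, h.bc_out,
        decide_eq_true (gbdbl_hi h k (hm k))]
  have hne : e 0 ≠ e 1 := fun h' => by
    have h3 := h.rok.nodupY
    rw [h.hY] at h3
    have h4 := h3.of_append_left.of_append_right
    rw [hYb, h'] at h4
    simp at h4
  have e0 : evOf (Xb.filterMap (G.cell R (e 0))) = [] := by
    rw [hXb, List.filterMap_cons_some (c0 0), List.filterMap_cons_some (c1 0)]
    exact Grid.evb_evLeft_nil [] _ (by simp) _ _ false []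
  have e1 : evOf (Xb.filterMap (G.cell R (e 1))) = [] := by
    have h3 : Xb = [bc (0, false), bc (0, true)] ++ [bc (1, false), bc (1, true)] := hXb
    rw [h3, List.filterMap_append, List.filterMap_cons_some (c0 1), List.filterMap_cons_some (c1 1)]
    refine Grid.evb_evLeft_nil _ _ (fun c hc => ?_) _ _ false []
    obtain ⟨v, hv, hvc⟩ := List.mem_filterMap.1 hc
    refine Grid.WEvs_cell_thru (fun s => ?_) hvc
    obtain ⟨σ, rfl⟩ : ∃ σ, v = bc (0, σ) := by
      simp only [List.mem_cons, List.not_mem_nil, or_false] at hv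
      rcases hv with rfl | rfl
      exacts [⟨false, rfl⟩, ⟨true, rfl⟩]
    cases s
    · rw [h.bc_out]
      exact fun h' => gbdbl_notMem h (0, σ) (h' ▸ hm 1)
    · rw [hnb]
      exact hne
  rw [Grid.evs]
  conv_lhs => rw [hYb]
  rw [List.flatMap_cons, List.flatMap_singleton, e0, e1]
  rfl

/-- the row of strands above the block is the row below it -/
theorem gbdbl_row (h : Blk G R φ X₁ X₂ Y₁ Y₂ Xb Yb ρ bc)
    (hXb : Xb = [bc (0, false), bc (0, true), bc (1, false), bc (1, true)])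
    (hYb : Yb = [e 0, e 1]) (hnb : ∀ b, G.nb (bc b) true = e b.1) :
    G.rowAt (Y₁.map φ ++ Yb) R.X = G.rowAt (Y₁.map φ) R.X := by
  have h1 := Grid.evs_block h.ok h.rok h.hX h.hY (fun f hf s => by
    obtain ⟨k, rfl⟩ : ∃ k, f = e k := by
      rw [hYb] at hf
      simp only [List.mem_cons, List.not_mem_nil, or_false] at hf
      rcases hf with rfl | rfl
      exacts [⟨0, rfl⟩, ⟨1, rfl⟩]
    obtain ⟨u, h3, h4⟩ := gbdbl_nb h hXb hnb k
    have hm : ∀ σ, bc (k, σ) ∈ Xb := fun σ => by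
      rw [hXb]
      fin_cases k <;> cases σ <;> simp
    by_cases hs : s = u
    · rw [hs, h3]
      exact hm _
    · rw [Bool.eq_not.2 hs, h4]
      exact hm _) fun v hv s => by
    rw [← List.map_append, List.mem_map] at hv
    obtain ⟨o, ho, rfl⟩ := hv
    exact h.outer o ho s
  have h2 := Grid.run_evs h.ok h.rok h.hY
  rw [h1, gbdbl_evs h hXb hYb hnb] at h2
  exact Eq.symm h2

end

theorem Blk.dbl_slide (h : Blk G R φ X₁ X₂ Y₁ Y₂ Xb Yb ρ bc) {x : Arc ι} {e : Fin 2 → N}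
    (hXb : Xb = [bc (0, false), bc (0, true), bc (1, false), bc (1, true)])
    (hYb : Yb = [e 0, e 1]) (hnb : ∀ b, G.nb (bc b) true = e b.1)
    (hx : G.dl (φ (ρ (0, false))) (bc (0, false)) = some x)
    (hn : G.dl (φ (ρ (1, false))) (bc (1, false)) = none)
    {D : N → Bool} (hD : ∀ a s, D (G.nb a s) = D a)
    (hDd : ∀ a s, D a = true ↔ (G.dl a (G.nb a s)).map Arc.name = some x.name)
    (z' : N ⊕ {a // D a = true} → ℝ)
    (hz : ∀ v f, G.Crossing R (Sum.elim id Subtype.val v) (Sum.elim id Subtype.val f) →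
      ((∃ o, Sum.elim id Subtype.val v = φ o) ∨ ∃ o, Sum.elim id Subtype.val f = φ o) →
      (z' f < z' v ↔ R.z (Sum.elim id Subtype.val f) < R.z (Sum.elim id Subtype.val v))) :
    G.evs R Xb Yb = [] ∧
    ∃ (fX fY : O → Bool) (R' : Rz (N ⊕ {a // D a = true})) (Xb' Yb' : List (N ⊕ {a // D a = true}))
      (ρ' : Fin 3 × Bool → O ⊕ {a // D (φ a) = true}) (bc' : Fin 3 × Bool → N ⊕ {a // D a = true}),
      R'.z = z' ∧
      Blk (G.dbl D hD id fun _ => none) R' (dblMap φ D) (dblList (fun a => D (φ a)) fX X₁)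
        (dblList (fun a => D (φ a)) fX X₂) (dblList (fun a => D (φ a)) fY Y₁)
        (dblList (fun a => D (φ a)) fY Y₂) Xb' Yb' ρ' bc' ∧
      (∀ σ, ρ' (0, σ) = .inl (ρ (0, σ)) ∧ (∃ h, ρ' (1, σ) = .inr ⟨ρ (0, σ), h⟩) ∧
        ρ' (2, σ) = .inl (ρ (1, σ)) ∧ bc' (0, σ) = .inl (bc (0, σ)) ∧
        (∃ h, bc' (1, σ) = .inr ⟨bc (0, σ), h⟩) ∧ bc' (2, σ) = .inl (bc (1, σ))) ∧
      (G.dbl D hD id fun _ => none).rowAt ((dblList (fun a => D (φ a)) fY Y₁).map (dblMap φ D))
        ((dblList (fun a => D (φ a)) fX X₁).map (dblMap φ D)) =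
          (G.rowAt (Y₁.map φ) (X₁.map φ)).flatMap (pushoff x) ∧
      (G.dbl D hD id fun _ => none).rowAt ((dblList (fun a => D (φ a)) fY Y₁).map (dblMap φ D))
        ((dblList (fun a => D (φ a)) fX X₂).map (dblMap φ D)) =
          (G.rowAt (Y₁.map φ) (X₂.map φ)).flatMap (pushoff x) ∧
      Eqv true [] ((G.rowAt (Y₁.map φ) R.X).flatMap (pushoff x))
        ((G.dbl D hD id fun _ => none).evs R' R'.X
          ((dblList (fun a => D (φ a)) fY Y₁).map (dblMap φ D)))
        (cable (pushoff x) (G.evs R R.X (Y₁.map φ))) ∧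
      Eqv true ((G.rowAt (Y₁.map φ) R.X).flatMap (pushoff x)) []
        ((G.dbl D hD id fun _ => none).evs R' R'.X
          ((dblList (fun a => D (φ a)) fY Y₂).map (dblMap φ D)))
        (cable (pushoff x) (G.evs R R.X (Y₂.map φ))) := by
  have hG := h.ok
  have hR := h.rok
  set d : Option (Arc ι) → Bool := fun z => decide (z.map Arc.name = some x.name) with hdd
  set rt : Option (Arc ι) → Bool := fun z => decide (z = some x) with hrr
  have hk : dblLab d rt id (fun _ => none) = pushoff x := gbdbl_pushoff x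
  have hd : ∀ z, d (Rev.rev z) = d z := fun z => by
    rcases z with _ | ⟨j, w⟩ <;> rfl
  have hrt : ∀ z, d z = true → rt (Rev.rev z) = !rt z := fun z hz => by
    obtain ⟨i, u⟩ := x
    rcases z with _ | ⟨j, w⟩
    · simp [hdd] at hz
    · obtain rfl : j = i := by simpa [hdd] using hz
      cases u <;> cases w <;> simp [hrr, Rev.rev]
  have ho : ∀ z : Option (Arc ι), id (Rev.rev z) = Rev.rev (id z) := fun _ => rfl
  have hc : ∀ z : Option (Arc ι), (fun _ => none : Option (Arc ι) → Option (Arc ι)) (Rev.rev z) =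
      Rev.rev ((fun _ => none : Option (Arc ι) → Option (Arc ι)) z) := fun _ => rfl
  have hDd' : ∀ a s, D a = d (G.dl a (G.nb a s)) := fun a s => by
    rw [Bool.eq_iff_iff, hDd a s, hdd, decide_eq_true_iff]
  have hz' : ∀ v f, G.Crossing R (Sum.elim id Subtype.val v) (Sum.elim id Subtype.val f) →
      (z' f < z' v ↔ R.z (Sum.elim id Subtype.val f) < R.z (Sum.elim id Subtype.val v)) :=
    fun v f hvf => hz v f hvf (Or.inr (gbdbl_cross h hXb hYb hnb hvf))
  have u0 : ∀ σ, G.upl R (bc (0, σ)) = some x := fun σ => (gbdbl_upl h hXb hnb 0 σ).trans hx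
  have u1 : ∀ σ, G.upl R (bc (1, σ)) = none := fun σ => (gbdbl_upl h hXb hnb 1 σ).trans hn
  have D0 : ∀ σ, D (bc (0, σ)) = true := fun σ => by
    rw [← Grid.wd_d_upl (R := R) hG hd hDd', u0]
    simp [hdd]
  have D1 : ∀ σ, D (bc (1, σ)) = false := fun σ => by
    rw [← Grid.wd_d_upl (R := R) hG hd hDd', u1]
    simp [hdd]
  have Dρ : ∀ σ, D (φ (ρ (0, σ))) = true := fun σ => by rw [← h.bc_out, hD, D0]
  have h3 : ∀ k : Fin 3, k = 0 ∨ k = 1 ∨ k = 2 := by decide
  have mX := gbdbl_map φ D fun v => rt (G.upl R v)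
  have mY := gbdbl_map φ D fun f => !rt (G.rtl R f)
  have hcol : ∀ v ∈ X₁.map φ ++ Xb ++ X₂.map φ, G.col v = true := fun v hv =>
    (hR.memX v).1 (h.hX ▸ hv)
  refine ⟨gbdbl_evs h hXb hYb hnb, fun a => rt (G.upl R (φ a)), fun a => !rt (G.rtl R (φ a)),
    G.dblRz R D rt z', dblList D (fun v => rt (G.upl R v)) Xb,
    dblList D (fun f => !rt (G.rtl R f)) Yb,
    fun b => ![.inl (ρ (0, b.2)), .inr ⟨ρ (0, b.2), Dρ b.2⟩, .inl (ρ (1, b.2))] b.1,
    fun b => ![.inl (bc (0, b.2)), .inr ⟨bc (0, b.2), D0 b.2⟩, .inl (bc (1, b.2))] b.1, rfl,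
    ?_, fun σ => ⟨rfl, ⟨Dρ σ, rfl⟩, rfl, rfl, ⟨D0 σ, rfl⟩, rfl⟩, ?_, ?_, ?_, ?_⟩
  · refine ⟨hG.dbl ho hc, Grid.dblRz_ok hR z', gbdbl_inj h.inj D, ?_, ?_, ?_, ?_, ?_, ?_, ?_, ?_, ?_⟩
    · rw [mX, mX, ← wd_dblList_append, ← wd_dblList_append, ← h.hX]
      rfl
    · rw [mY, mY, ← wd_dblList_append, ← wd_dblList_append, ← h.hY]
      rfl
    · intro v hv s
      rw [wd_mem_dblList, Grid.wd_und_nb, gbdbl_und]
      rw [← wd_dblList_append, wd_mem_dblList] at hv
      exact h.outer _ hv s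
    · rintro ⟨k, σ⟩
      rcases h3 k with rfl | rfl | rfl
      · exact congrArg Sum.inl (h.bc_out (0, σ))
      · exact congrArg Sum.inr (Subtype.ext (h.bc_out (0, σ)))
      · exact congrArg Sum.inl (h.bc_out (1, σ))
    · rintro ⟨k, σ⟩
      rw [wd_mem_dblList, Grid.wd_und_nb]
      rcases h3 k with rfl | rfl | rfl
      · exact h.bc_in (0, σ)
      · exact h.bc_in (0, σ)
      · exact h.bc_in (1, σ)
    · intro k
      rw [wd_mem_dblList]
      rcases h3 k with rfl | rfl | rfl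
      · exact h.ρ_lo 0
      · exact h.ρ_lo 0
      · exact h.ρ_lo 1
    · intro k
      rw [wd_mem_dblList]
      rcases h3 k with rfl | rfl | rfl
      · exact h.ρ_hi 0
      · exact h.ρ_hi 0
      · exact h.ρ_hi 1
    · intro v hv
      left
      rw [wd_mem_dblList, hXb] at hv
      obtain ⟨σ, hv⟩ : ∃ σ, wd_und v = bc (0, σ) ∨ wd_und v = bc (1, σ) := by
        simp only [List.mem_cons, List.not_mem_nil, or_false] at hv
        rcases hv with hv | hv | hv | hv
        exacts [⟨_, Or.inl hv⟩, ⟨_, Or.inl hv⟩, ⟨_, Or.inr hv⟩, ⟨_, Or.inr hv⟩]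
      rcases v with v | v
      · rcases hv with hv | hv
        · exact ⟨(0, σ), congrArg Sum.inl hv⟩
        · exact ⟨(2, σ), congrArg Sum.inl hv⟩
      · rcases hv with hv | hv
        · exact ⟨(1, σ), congrArg Sum.inr (Subtype.ext hv)⟩
        · have h4 := v.2
          rw [show v.1 = bc (1, σ) from hv, D1] at h4
          exact absurd h4 (by simp)
    · intro σ
      have r0 : ∀ σ, rt (G.upl R (bc (0, σ))) = true := fun σ => by
        rw [u0]
        simp [hrr]
      have h4 : dblList D (fun v => rt (G.upl R v)) Xb =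
          [.inl (bc (0, false)), .inr ⟨bc (0, false), D0 false⟩, .inl (bc (0, true)),
            .inr ⟨bc (0, true), D0 true⟩, .inl (bc (1, false)), .inl (bc (1, true))] := by
        rw [hXb, wd_dblList_cons, wd_dblList_cons (bc (0, true)), wd_dblList_cons (bc (1, false)),
          wd_dblList_pos (D0 false), wd_dblList_pos (D0 true), wd_dblList_neg (D1 false),
          wd_dblList_neg (D1 true), r0, r0]
        rfl
      rw [h4]
      cases σ
      · exact .cons_cons _ (.cons_cons _ (.cons _ (.cons _ (.cons_cons _ (.cons _ .slnil)))))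
      · exact .cons _ (.cons _ (.cons_cons _ (.cons_cons _ (.cons _ (.cons_cons _ .slnil)))))
  · rw [mX, mY, ← hk]
    exact Grid.rowAt_dbl hG hR hd hDd' (Y₂ := Yb ++ Y₂.map φ) (by rw [h.hY, List.append_assoc]) _
      fun v hv => hcol v (by simp only [List.mem_append, hv, true_or])
  · rw [mX, mY, ← hk]
    exact Grid.rowAt_dbl hG hR hd hDd' (Y₂ := Yb ++ Y₂.map φ) (by rw [h.hY, List.append_assoc]) _
      fun v hv => hcol v (by simp only [List.mem_append, hv, or_true])
  · rw [mY, ← hk]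
    exact (Grid.evs_dbl (hD := hD) hG hR hd hrt ho hc hDd' z' hz' (Y₁ := []) (Y₂ := Y₁.map φ)
      (Y₃ := Yb ++ Y₂.map φ) (by rw [h.hY, List.append_assoc, List.nil_append])).wd_cast
      (by rw [Grid.rowAt_nil]; rfl) rfl rfl rfl
  · rw [mY, ← hk]
    exact (Grid.evs_dbl (hD := hD) hG hR hd hrt ho hc hDd' z' hz' (Y₁ := Y₁.map φ ++ Yb)
      (Y₂ := Y₂.map φ) (Y₃ := []) (by rw [h.hY, List.append_nil])).wd_cast
      (by rw [gbdbl_row h hXb hYb hnb]) (by rw [← h.hY, Grid.rowAt_all hG hR]; rfl) rfl rfl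

end Pool.Agent.P.MP_ac4909_gt.B
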