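import Pool.Agent.P.MP_ac4909_gt.B.GB_Col

/-! Layer G, blocks: a cap and a cup; the subdivision. -/

namespace Pool.Agent.P.MP_ac4909_gt.B

open scoped ContDiff
open Set Filter Topology

variable {ι : Type}

/-- the objects of the subdivision: nine on each of the two curves, and the virtual rows -/
abbrev gcap_N : Type := (Bool × Fin 9) ⊕ Fin 2 × Bool

/-- position along the curve -/
def gcap_P : gcap_N → ℕ
  | .inl a => a.2.val + 1
  | .inr b => if b.1 = 0 then 0 else 10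

/-- the curve (cap or cup) -/
def gcap_S : gcap_N → Bool
  | .inl a => a.1
  | .inr b => b.2

def gcap_bc (b : Fin 2 × Bool) : Bool × Fin 9 := (b.2, if b.1 = 0 then 0 else 8)

def gcap_nb : gcap_N → Bool → gcap_N
  | .inl a, s => if a.2 = 0 then (if s then .inl (a.1, 1) else .inr (0, a.1))
      else if a.2 = 8 then (if s then .inl (a.1, 7) else .inr (1, a.1))
      else .inl (a.1, if s then a.2 + 1 else a.2 - 1)
  | .inr b, _ => .inl (gcap_bc b)

def gcap_col (a : gcap_N) : Bool := decide (gcap_P a % 2 = 1)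

def gcap_X : List (Bool × Fin 9) :=
  [(false, 0), (true, 0), (false, 2), (true, 2), (false, 4), (true, 4), (false, 6), (true, 6),
    (false, 8), (true, 8)]

def gcap_Y : Bool → List (Bool × Fin 9)
  | true => [(false, 1), (false, 7), (false, 3), (false, 5), (true, 5), (true, 3), (true, 7),
      (true, 1)]
  | false => [(false, 7), (false, 1), (false, 3), (false, 5), (true, 5), (true, 3), (true, 1),
      (true, 7)]

theorem gcap_word (c : Bool) (z : gcap_N → ℝ) (dl : gcap_N → gcap_N → Nm ι)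
    (hdl : ∀ a b, dl a b = Nm.no) :
    (Grid.mk gcap_col gcap_nb dl).evs ⟨gcap_X.map .inl, (List.ofFn fun k => .inr (k, false)) ++
      (gcap_Y c).map .inl ++ List.ofFn fun k => .inr (k, true), z⟩ (gcap_X.map .inl)
      ((gcap_Y c).map .inl) = [⟨[], .cap Nm.no, []⟩, ⟨[], .cup Nm.no, []⟩] := by
  obtain rfl : dl = fun _ _ => Nm.no := by
    funext a b
    exact hdl a b
  cases c <;> rfl

theorem gcap_S_nb : ∀ a s, gcap_S (gcap_nb a s) = gcap_S a := by decide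

theorem gcap_P_nb : ∀ a s, gcap_P (gcap_nb a s) = gcap_P a + 1 ∨
    gcap_P (gcap_nb a s) + 1 = gcap_P a := by decide

theorem gcap_P_le : ∀ a, gcap_P a ≤ 10 := by decide

theorem gcap_dir : ∀ a : Bool × Fin 9, ∃ s,
    (∀ t, gcap_nb (gcap_nb (.inl a) s) t ≠ .inl a →
      gcap_P (gcap_nb (gcap_nb (.inl a) s) t) + 2 = gcap_P (.inl a)) ∧
    gcap_P (gcap_nb (.inl a) s) + 1 = gcap_P (.inl a) ∧
    gcap_P (gcap_nb (.inl a) (!s)) = gcap_P (.inl a) + 1 ∧
    ∀ t, gcap_nb (gcap_nb (.inl a) (!s)) t ≠ .inl a →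
      gcap_P (gcap_nb (gcap_nb (.inl a) (!s)) t) = gcap_P (.inl a) + 2 := by decide

theorem gcap_far : ∀ a a' : Bool × Fin 9, (.inl a : gcap_N) ≠ .inl a' →
    (∀ s, gcap_nb (.inl a) s ≠ .inl a') → (∀ s s', gcap_nb (.inl a) s ≠ gcap_nb (.inl a') s') →
    a.1 ≠ a'.1 ∨ gcap_P (.inl a) + 3 ≤ gcap_P (.inl a') ∨
      gcap_P (.inl a') + 3 ≤ gcap_P (.inl a) := by decide

theorem gcap_occ : ∀ σ, ∀ m ≤ 9, ∃ a : Bool × Fin 9, ∃ s, a.1 = σ ∧
    min (gcap_P (.inl a)) (gcap_P (gcap_nb (.inl a) s)) = m := by decide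

theorem gcap_nb_eq : ∀ a s b, gcap_nb (.inl a) s = .inr b ↔ a = gcap_bc b ∧ s = false := by
  decide

theorem gcap_col_nb : ∀ a s, gcap_col (gcap_nb a s) = !gcap_col a := by decide

theorem gcap_nb_ne : ∀ a, gcap_nb (.inl a) false ≠ gcap_nb (.inl a) true := by decide

theorem gcap_adj : ∀ a s, ∃ s', gcap_nb (gcap_nb (.inl a) s) s' = .inl a := by decide

theorem gcap_memX : ∀ a, a ∈ gcap_X ↔ gcap_col (.inl a) = true := by decide

theorem gcap_memY : ∀ c a, a ∈ gcap_Y c ↔ gcap_col (.inl a) = false := by decide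

theorem gcap_ndX : gcap_X.Nodup := by decide

theorem gcap_ndY : ∀ c, (gcap_Y c).Nodup := by decide

theorem gcap_sub : ∀ σ, (List.ofFn fun k => gcap_bc (k, σ)).Sublist gcap_X := by decide

theorem gcap_sortP : gcap_X.Pairwise fun a b => gcap_P (.inl a) ≤ gcap_P (.inl b) := by decide

theorem gcap_min : ∀ a s, min (gcap_P a) (gcap_P (gcap_nb a s)) ≤ gcap_P a ∧
    gcap_P a ≤ min (gcap_P a) (gcap_P (gcap_nb a s)) + 1 := by decide

/-- a curve `u ↦ (X u, ± L u)` with marked parameters `τ` -/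
structure gcap_D (x₀ x₁ : ℝ) (X L : ℝ → ℝ) (τ : ℕ → ℝ) : Prop where
  contX : Continuous X
  contL : Continuous L
  mono : StrictMono τ
  left : ∀ u ≤ τ 2, X u = x₀
  right : ∀ u, τ 8 ≤ u → X u = x₁
  monoX : StrictMonoOn X (Icc (τ 2) (τ 8))
  anti : StrictAntiOn L (Iic (τ 5))
  monoL : StrictMonoOn L (Ici (τ 5))
  pos : 0 < L (τ 5)
  l0 : L (τ 0) = 1
  l1 : L (τ 1) = 3 / 4
  l9 : L (τ 9) = 3 / 4
  l10 : L (τ 10) = 1
  surj₁ : ∀ y, 3 / 4 ≤ y → ∃ u ≤ τ 1, L u = y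
  surj₂ : ∀ y, 3 / 4 ≤ y → ∃ u, τ 9 ≤ u ∧ L u = y
  l46 : L (τ 4) = L (τ 6)

noncomputable def gcap_g (X L : ℝ → ℝ) (σ : Bool) (u : ℝ) : E3 :=
  !₂[X u, (if σ then 1 else -1) * L u, 0]

/-- the parameters of the arc number `j` -/
def gcap_J (τ : ℕ → ℝ) (j : ℕ) : Set ℝ := {u | (j ≠ 0 → τ j ≤ u) ∧ (j ≠ 9 → u ≤ τ (j + 1))}

/-- the parameters of the arcs within distance `r` of position `m` -/
def gcap_W (τ : ℕ → ℝ) (m r : ℕ) : Set ℝ :=
  {u | (r < m → τ (m - r) ≤ u) ∧ (m + r < 10 → u ≤ τ (m + r))}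

noncomputable def gcap_C (X L : ℝ → ℝ) (τ : ℕ → ℝ) : Conf gcap_N where
  col := gcap_col
  nb := gcap_nb
  pt a := gcap_g X L (gcap_S a) (τ (gcap_P a))
  arc a a' := gcap_g X L (gcap_S a) '' gcap_J τ (min (gcap_P a) (gcap_P a'))

theorem gcap_ext {p q : E3} (h0 : p 0 = q 0) (h1 : p 1 = q 1) (h2 : p 2 = q 2) : p = q := by
  ext i
  fin_cases i
  exacts [h0, h1, h2]

theorem gcap_isArc {g : ℝ → E3} {s t : ℝ} (h : s < t) (hc : ContinuousOn g (Icc s t))
    (hi : InjOn g (Icc s t)) : IsArc (g '' Icc s t) (g s) (g t) := by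
  have hd : 0 < t - s := sub_pos.2 h
  have hm : ∀ r ∈ Icc (0 : ℝ) 1, s + r * (t - s) ∈ Icc s t := fun r hr =>
    ⟨by nlinarith [hr.1], by nlinarith [hr.2]⟩
  refine ⟨fun r => g (s + r * (t - s)), hc.comp (by fun_prop) hm, fun r hr r' hr' e => ?_,
    by simp, by simp, ?_⟩
  · have := hi (hm r hr) (hm r' hr') e
    exact mul_right_cancel₀ hd.ne' (by linarith)
  · ext p
    constructor
    · rintro ⟨u, hu, rfl⟩
      refine ⟨(u - s) / (t - s), ⟨div_nonneg (sub_nonneg.2 hu.1) hd.le,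
        (div_le_one hd).2 (by linarith [hu.2])⟩, ?_⟩
      simp only
      rw [div_mul_cancel₀ _ hd.ne', add_sub_cancel]
    · rintro ⟨r, hr, rfl⟩
      exact ⟨_, hm r hr, rfl⟩

variable {x₀ x₁ : ℝ} {X L : ℝ → ℝ} {τ : ℕ → ℝ}

theorem gcap_g0 (σ : Bool) (u : ℝ) : gcap_g X L σ u 0 = X u := rfl

theorem gcap_g1 (σ : Bool) (u : ℝ) : gcap_g X L σ u 1 = (if σ then 1 else -1) * L u := rfl

theorem gcap_g2 (σ : Bool) (u : ℝ) : gcap_g X L σ u 2 = 0 := rfl

namespace gcap_D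
variable (D : gcap_D x₀ x₁ X L τ)
include D

theorem le {i j : ℕ} (h : i ≤ j) : τ i ≤ τ j := D.mono.monotone h

theorem monoX' : Monotone X := by
  have h28 : τ 2 ≤ τ 8 := D.le (by norm_num)
  have hm : ∀ u, max (τ 2) (min u (τ 8)) ∈ Icc (τ 2) (τ 8) := fun u =>
    ⟨le_max_left _ _, max_le h28 (min_le_right _ _)⟩
  have he : ∀ u, X u = X (max (τ 2) (min u (τ 8))) := fun u => by
    rcases le_total u (τ 2) with h | h
    · rw [D.left u h, D.left _ (max_le le_rfl ((min_le_left _ _).trans h))]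
    · rcases le_total u (τ 8) with h' | h'
      · rw [min_eq_left h', max_eq_right h]
      · rw [D.right u h', D.right _ (le_max_of_le_right (le_min h' le_rfl))]
  intro u v huv
  rw [he u, he v]
  exact D.monoX.monotoneOn (hm u) (hm v) (max_le_max le_rfl (min_le_min huv le_rfl))

theorem pos' (u : ℝ) : 0 < L u := by
  rcases le_total u (τ 5) with h | h
  · exact D.pos.trans_le (D.anti.antitoneOn h self_mem_Iic h)
  · exact D.pos.trans_le (D.monoL.monotoneOn self_mem_Ici h h)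

theorem cont (σ : Bool) : Continuous (gcap_g X L σ) := by
  refine (PiLp.continuous_toLp 2 _).comp (continuous_pi fun i => ?_)
  fin_cases i
  · exact D.contX
  · exact continuous_const.mul D.contL
  · exact continuous_const

theorem J_sub {j m r : ℕ} (h₁ : m ≤ j + r) (h₂ : j + 1 ≤ m + r) :
    gcap_J τ j ⊆ gcap_W τ m r := fun _ hu =>
  ⟨fun h => (D.le (by omega)).trans (hu.1 (by omega)),
    fun h => (hu.2 (by omega)).trans (D.le h₂)⟩

theorem mem_W {j m r : ℕ} (h₁ : m ≤ j + r) (h₂ : j ≤ m + r) : τ j ∈ gcap_W τ m r :=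
  ⟨fun _ => D.le (by omega), fun _ => D.le h₂⟩

theorem star_sub (a : gcap_N) :
    (gcap_C X L τ).star a ⊆ gcap_g X L (gcap_S a) '' gcap_W τ (gcap_P a) 1 := by
  have : ∀ s, (gcap_C X L τ).arc a (gcap_nb a s) ⊆
      gcap_g X L (gcap_S a) '' gcap_W τ (gcap_P a) 1 := fun s =>
    image_mono (D.J_sub (gcap_min a s).2 (Nat.succ_le_succ (gcap_min a s).1))
  exact union_subset (this false) (this true)

theorem win_sub (a : gcap_N) :
    (gcap_C X L τ).win a ⊆ gcap_g X L (gcap_S a) '' gcap_W τ (gcap_P a) 2 := by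
  have : ∀ s t, (gcap_C X L τ).arc (gcap_nb a s) (gcap_nb (gcap_nb a s) t) ⊆
      gcap_g X L (gcap_S a) '' gcap_W τ (gcap_P a) 2 := fun s t => by
    have h₁ := gcap_min (gcap_nb a s) t
    have h₂ := gcap_P_nb a s
    rw [← gcap_S_nb a s]
    exact image_mono (D.J_sub (by omega) (by omega))
  exact union_subset (union_subset (this false false) (this false true))
    (union_subset (this true false) (this true true))

omit D in
theorem pt_nb (a : gcap_N) (s : Bool) :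
    (gcap_C X L τ).pt ((gcap_C X L τ).nb a s) =
      gcap_g X L (gcap_S a) (τ (gcap_P (gcap_nb a s))) := by
  rw [← gcap_S_nb a s]
  rfl

omit D in
theorem pt_nb₂ (a : gcap_N) (s t : Bool) :
    (gcap_C X L τ).pt ((gcap_C X L τ).nb ((gcap_C X L τ).nb a s) t) =
      gcap_g X L (gcap_S a) (τ (gcap_P (gcap_nb (gcap_nb a s) t))) := by
  rw [← gcap_S_nb a s]
  exact pt_nb _ t

theorem inj_win {a : gcap_N} {i : Fin 3}
    (h : InjOn (fun u => gcap_g X L (gcap_S a) u i) (gcap_W τ (gcap_P a) 2)) :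
    InjOn (fun p : E3 => p i) ((gcap_C X L τ).win a) := by
  intro p hp q hq e
  obtain ⟨u, hu, rfl⟩ := D.win_sub a hp
  obtain ⟨v, hv, rfl⟩ := D.win_sub a hq
  rw [h hu hv e]

theorem mono_up {a : Bool × Fin 9} {i : Fin 3}
    (h : StrictMonoOn (fun u => gcap_g X L a.1 u i) (gcap_W τ (gcap_P (.inl a)) 2)) :
    ∃ s, (gcap_C X L τ).Mono i (.inl a) s := by
  obtain ⟨s, h₁, h₂, h₃, h₄⟩ := gcap_dir a
  have k : ∀ j j', j' = j + 1 → gcap_P (.inl a) ≤ j + 2 → j' ≤ gcap_P (.inl a) + 2 →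
      gcap_g X L a.1 (τ j) i < gcap_g X L a.1 (τ j') i := fun j j' e l₁ l₂ =>
    h (D.mem_W l₁ (by omega)) (D.mem_W (by omega) l₂) (D.mono (by omega))
  refine ⟨s, D.inj_win h.injOn, fun t ht => ?_, ?_, ?_, fun t ht => ?_⟩
  · have := h₁ t ht
    rw [pt_nb₂, pt_nb]
    exact k _ _ (by omega) (by omega) (by omega)
  · rw [pt_nb]
    exact k _ (gcap_P (.inl a)) (by omega) (by omega) (by omega)
  · rw [pt_nb]
    exact k (gcap_P (.inl a)) _ (by omega) (by omega) (by omega)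
  · have := h₄ t ht
    rw [pt_nb₂, pt_nb]
    exact k _ _ (by omega) (by omega) (by omega)

theorem mono_down {a : Bool × Fin 9} {i : Fin 3}
    (h : StrictAntiOn (fun u => gcap_g X L a.1 u i) (gcap_W τ (gcap_P (.inl a)) 2)) :
    ∃ s, (gcap_C X L τ).Mono i (.inl a) s := by
  obtain ⟨s, h₁, h₂, h₃, h₄⟩ := gcap_dir a
  have k : ∀ j j', j' = j + 1 → gcap_P (.inl a) ≤ j + 2 → j' ≤ gcap_P (.inl a) + 2 →
      gcap_g X L a.1 (τ j') i < gcap_g X L a.1 (τ j) i := fun j j' e l₁ l₂ =>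
    h (D.mem_W l₁ (by omega)) (D.mem_W (by omega) l₂) (D.mono (by omega))
  refine ⟨!s, D.inj_win h.injOn, fun t ht => ?_, ?_, ?_, fun t ht => ?_⟩
  · have := h₄ t ht
    rw [pt_nb₂, pt_nb]
    exact k _ _ (by omega) (by omega) (by omega)
  · rw [pt_nb]
    exact k (gcap_P (.inl a)) _ (by omega) (by omega) (by omega)
  · rw [Bool.not_not, pt_nb]
    exact k _ (gcap_P (.inl a)) (by omega) (by omega) (by omega)
  · rw [Bool.not_not] at ht ⊢
    have := h₁ t ht
    rw [pt_nb₂, pt_nb]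
    exact k _ _ (by omega) (by omega) (by omega)

theorem mono_win (a : Bool × Fin 9) : ∃ i s, i ≠ 2 ∧ (gcap_C X L τ).Mono i (.inl a) s := by
  have hP : gcap_P (.inl a) ≤ 3 ∨ (4 ≤ gcap_P (.inl a) ∧ gcap_P (.inl a) ≤ 6) ∨
      7 ≤ gcap_P (.inl a) := by omega
  obtain ⟨σ, k⟩ := a
  rcases hP with h | h | h
  · have hs : gcap_W τ (gcap_P (.inl (σ, k))) 2 ⊆ Iic (τ 5) := fun u hu =>
      (hu.2 (by omega)).trans (D.le (by omega))
    cases σ
    · obtain ⟨s, hs⟩ := D.mono_up (a := (false, k)) (i := 1) fun u hu v hv huv => by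
        have := D.anti (hs hu) (hs hv) huv
        simp only [gcap_g1, Bool.false_eq_true, if_false]
        linarith
      exact ⟨1, s, by decide, hs⟩
    · obtain ⟨s, hs⟩ := D.mono_down (a := (true, k)) (i := 1) fun u hu v hv huv => by
        have := D.anti (hs hu) (hs hv) huv
        simp only [gcap_g1, if_true]
        linarith
      exact ⟨1, s, by decide, hs⟩
  · have hs : gcap_W τ (gcap_P (.inl (σ, k))) 2 ⊆ Icc (τ 2) (τ 8) := fun u hu =>
      ⟨(D.le (by omega)).trans (hu.1 (by omega)), (hu.2 (by omega)).trans (D.le (by omega))⟩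
    obtain ⟨s, hs⟩ := D.mono_up (a := (σ, k)) (i := 0) fun u hu v hv huv =>
      D.monoX (hs hu) (hs hv) huv
    exact ⟨0, s, by decide, hs⟩
  · have hs : gcap_W τ (gcap_P (.inl (σ, k))) 2 ⊆ Ici (τ 5) := fun u hu =>
      (D.le (by omega)).trans (hu.1 (by omega))
    cases σ
    · obtain ⟨s, hs⟩ := D.mono_down (a := (false, k)) (i := 1) fun u hu v hv huv => by
        have := D.monoL (hs hu) (hs hv) huv
        simp only [gcap_g1, Bool.false_eq_true, if_false]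
        linarith
      exact ⟨1, s, by decide, hs⟩
    · obtain ⟨s, hs⟩ := D.mono_up (a := (true, k)) (i := 1) fun u hu v hv huv => by
        have := D.monoL (hs hu) (hs hv) huv
        simp only [gcap_g1, if_true]
        linarith
      exact ⟨1, s, by decide, hs⟩

theorem sep_x {a a' : Bool × Fin 9} (h : gcap_P (.inl a) + 3 ≤ gcap_P (.inl a')) :
    Sep 0 ((gcap_C X L τ).star (.inl a)) ((gcap_C X L τ).star (.inl a')) := by
  intro p hp q hq
  obtain ⟨u, hu, rfl⟩ := D.star_sub _ hp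
  obtain ⟨v, hv, rfl⟩ := D.star_sub _ hq
  have h₁ : 1 ≤ gcap_P (.inl a) := Nat.succ_le_succ (Nat.zero_le _)
  have h₂ : gcap_P (.inl a') ≤ 9 := a'.2.isLt
  calc X u ≤ X (τ (gcap_P (.inl a) + 1)) := D.monoX' (hu.2 (by omega))
    _ < X (τ (gcap_P (.inl a') - 1)) := D.monoX ⟨D.le (by omega), D.le (by omega)⟩
        ⟨D.le (by omega), D.le (by omega)⟩ (D.mono (by omega))
    _ ≤ X v := D.monoX' (hv.1 (by omega))

theorem sep_y (k k' : Fin 9) :
    Sep 1 ((gcap_C X L τ).star (.inl (false, k))) ((gcap_C X L τ).star (.inl (true, k'))) := by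
  intro p hp q hq
  obtain ⟨u, -, rfl⟩ := D.star_sub _ hp
  obtain ⟨v, -, rfl⟩ := D.star_sub _ hq
  have := D.pos' u
  have := D.pos' v
  change -1 * L u < 1 * L v
  linarith

theorem inj_arc (σ : Bool) {j : ℕ} : InjOn (gcap_g X L σ) (Icc (τ j) (τ (j + 1))) := by
  intro u hu v hv e
  have e₁ : (if σ then 1 else -1) * L u = (if σ then 1 else -1) * L v :=
    congrArg (fun p : E3 => p 1) e
  have e₂ : L u = L v := by
    cases σ <;> simp only [Bool.false_eq_true, if_false, if_true] at e₁ <;> linarith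
  rcases le_or_gt 5 j with h | h
  · exact D.monoL.injOn ((D.le h).trans hu.1) ((D.le h).trans hv.1) e₂
  · exact D.anti.injOn (hu.2.trans (D.le h)) (hv.2.trans (D.le h)) e₂

omit D in
theorem J_eq {j : ℕ} (h₀ : j ≠ 0) (h₉ : j ≠ 9) : gcap_J τ j = Icc (τ j) (τ (j + 1)) := by
  ext u
  simp [gcap_J, h₀, h₉]

theorem isArc (a : Bool × Fin 9) (s : Bool) (a' : Bool × Fin 9)
    (h : gcap_nb (.inl a) s = .inl a') :
    IsArc ((gcap_C X L τ).arc (.inl a) (.inl a')) ((gcap_C X L τ).pt (.inl a))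
      ((gcap_C X L τ).pt (.inl a')) := by
  have hS : gcap_S (.inl a') = gcap_S (.inl a) := h ▸ gcap_S_nb (.inl a) s
  have hP := gcap_P_nb (.inl a) s
  rw [h] at hP
  have h₁ : 1 ≤ gcap_P (.inl a) := Nat.succ_le_succ (Nat.zero_le _)
  have h₂ : gcap_P (.inl a) ≤ 9 := a.2.isLt
  have h₃ : 1 ≤ gcap_P (.inl a') := Nat.succ_le_succ (Nat.zero_le _)
  have h₄ : gcap_P (.inl a') ≤ 9 := a'.2.isLt
  simp only [gcap_C, hS]
  rcases hP with e | e
  · rw [min_eq_left (by omega), J_eq (by omega) (by omega), e]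
    exact gcap_isArc (D.mono (Nat.lt_succ_self _)) (D.cont _).continuousOn (D.inj_arc _)
  · rw [min_eq_right (by omega), J_eq (by omega) (by omega), ← e]
    exact (gcap_isArc (D.mono (Nat.lt_succ_self _)) (D.cont _).continuousOn (D.inj_arc _)).symm

theorem box (h : PosOK [x₀, x₁]) (a : Bool × Fin 9) (s : Bool) (a' : Bool × Fin 9)
    (e : gcap_nb (.inl a) s = .inl a') :
    ∀ p ∈ (gcap_C X L τ).arc (.inl a) (.inl a'), ∀ i, |p i| ≤ 3 / 4 := by
  rintro _ ⟨u, hu, rfl⟩ i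
  have hP := gcap_P_nb (.inl a) s
  rw [e] at hP
  have h₁ : 1 ≤ gcap_P (.inl a) := Nat.succ_le_succ (Nat.zero_le _)
  have h₂ : gcap_P (.inl a) ≤ 9 := a.2.isLt
  have h₃ : 1 ≤ gcap_P (.inl a') := Nat.succ_le_succ (Nat.zero_le _)
  have h₄ : gcap_P (.inl a') ≤ 9 := a'.2.isLt
  have l₁ : τ 1 ≤ u := (D.le (by omega)).trans (hu.1 (by omega))
  have l₉ : u ≤ τ 9 := (hu.2 (by omega)).trans (D.le (by omega))
  fin_cases i
  · have b₀ := abs_le.1 (h.2 x₀ (by simp))
    have b₁ := abs_le.1 (h.2 x₁ (by simp))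
    have c₀ := D.monoX' l₁
    have c₁ := D.monoX' l₉
    rw [D.left _ (D.le (by norm_num))] at c₀
    rw [D.right (τ 9) (D.le (by norm_num))] at c₁
    change |X u| ≤ 3 / 4
    rw [abs_le]
    constructor <;> linarith [b₀.1, b₁.2]
  · have c : L u ≤ 3 / 4 := by
      rcases le_total u (τ 5) with h' | h'
      · exact D.l1 ▸ D.anti.antitoneOn (D.le (by norm_num) : τ 1 ≤ τ 5) h' l₁
      · exact D.l9 ▸ D.monoL.monotoneOn h' (D.le (by norm_num) : τ 5 ≤ τ 9) l₉
    have := D.pos' u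
    change |(if gcap_S (.inl a) then 1 else -1) * L u| ≤ 3 / 4
    rw [abs_le]
    split_ifs <;> constructor <;> linarith
  · change |(0 : ℝ)| ≤ 3 / 4
    norm_num

omit D in
theorem cl_eq (h : PosOK [x₀, x₁]) (b : Fin 2 × Bool) {u : ℝ}
    (hu : X u = if b.1 = 0 then x₀ else x₁) :
    gcap_g X L b.2 u = (col2 x₀ x₁ (none : Option ι) none h).cl b (L u) :=
  gcap_ext hu rfl rfl

theorem arc_bc (h : PosOK [x₀, x₁]) (b : Fin 2 × Bool) :
    (gcap_C X L τ).arc (.inl (gcap_bc b)) (.inr b) =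
      (col2 x₀ x₁ (none : Option ι) none h).cl b '' Ici (3 / 4) := by
  obtain ⟨k, σ⟩ := b
  ext p
  fin_cases k
  · change p ∈ gcap_g X L σ '' gcap_J τ 0 ↔ _
    constructor
    · rintro ⟨u, hu, rfl⟩
      have h₁ : u ≤ τ 1 := hu.2 (by norm_num)
      refine ⟨L u, ?_, (cl_eq h (0, σ) (D.left u (h₁.trans (D.le (by norm_num))))).symm⟩
      exact D.l1 ▸ D.anti.antitoneOn (h₁.trans (D.le (by norm_num)) : u ≤ τ 5)
        (D.le (by norm_num) : τ 1 ≤ τ 5) h₁
    · rintro ⟨y, hy, rfl⟩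
      obtain ⟨u, hu, rfl⟩ := D.surj₁ y hy
      exact ⟨u, ⟨fun e => absurd rfl e, fun _ => hu⟩,
        cl_eq h (0, σ) (D.left u (hu.trans (D.le (by norm_num))))⟩
  · change p ∈ gcap_g X L σ '' gcap_J τ 9 ↔ _
    constructor
    · rintro ⟨u, hu, rfl⟩
      have h₁ : τ 9 ≤ u := hu.1 (by norm_num)
      refine ⟨L u, ?_, (cl_eq h (1, σ) (D.right u ((D.le (by norm_num)).trans h₁))).symm⟩
      exact D.l9 ▸ D.monoL.monotoneOn (D.le (by norm_num) : τ 5 ≤ τ 9)
        ((D.le (by norm_num)).trans h₁ : τ 5 ≤ u) h₁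
    · rintro ⟨y, hy, rfl⟩
      obtain ⟨u, hu, rfl⟩ := D.surj₂ y hy
      exact ⟨u, ⟨fun _ => hu, fun e => absurd rfl e⟩,
        cl_eq h (1, σ) (D.right u ((D.le (by norm_num)).trans hu))⟩

theorem pt_bc (h : PosOK [x₀, x₁]) (b : Fin 2 × Bool) :
    (gcap_C X L τ).pt (.inl (gcap_bc b)) =
      (col2 x₀ x₁ (none : Option ι) none h).cl b (3 / 4) := by
  obtain ⟨k, σ⟩ := b
  fin_cases k
  · rw [← D.l1]
    exact cl_eq h (0, σ) (D.left (τ 1) (D.le (by norm_num)))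
  · rw [← D.l9]
    exact cl_eq h (1, σ) (D.right (τ 9) (D.le (by norm_num)))

theorem pt_inr (h : PosOK [x₀, x₁]) (b : Fin 2 × Bool) :
    (gcap_C X L τ).pt (.inr b) = (col2 x₀ x₁ (none : Option ι) none h).cl b 1 := by
  obtain ⟨k, σ⟩ := b
  fin_cases k
  · rw [← D.l0]
    exact cl_eq h (0, σ) (D.left (τ 0) (D.le (by norm_num)))
  · rw [← D.l10]
    exact cl_eq h (1, σ) (D.right (τ 10) (D.le (by norm_num)))

theorem sortY : (gcap_Y (decide (L (τ 8) ≤ L (τ 2)))).Pairwise fun a b =>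
    (gcap_C X L τ).pt (.inl a) 1 ≤ (gcap_C X L τ).pt (.inl b) 1 := by
  have h₁ : L (τ 4) < L (τ 2) := D.anti (D.le (by norm_num) : τ 2 ≤ τ 5)
    (D.le (by norm_num) : τ 4 ≤ τ 5) (D.mono (by norm_num))
  have h₂ : L (τ 6) < L (τ 8) := D.monoL (D.le (by norm_num) : τ 5 ≤ τ 6)
    (D.le (by norm_num) : τ 5 ≤ τ 8) (D.mono (by norm_num))
  have h₃ := D.l46
  have h₄ := D.pos' (τ 4)
  have e : ∀ a : Bool × Fin 9, (gcap_C X L τ).pt (.inl a) 1 =
      (if a.1 then 1 else -1) * L (τ (a.2.val + 1)) := fun _ => rfl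
  simp only [e]
  rcases le_or_gt (L (τ 8)) (L (τ 2)) with h | h
  · rw [decide_eq_true h]
    simp [gcap_Y]
    repeat' constructor
    all_goals linarith
  · rw [decide_eq_false (not_le.2 h)]
    simp [gcap_Y]
    repeat' constructor
    all_goals linarith

/-- the subdivision of the cap and the cup -/
noncomputable def content (ι : Type) (h : PosOK [x₀, x₁]) :
    Content (col2 x₀ x₁ (none : Option ι) none h) (Bool × Fin 9) where
  C := gcap_C X L τ
  bc := gcap_bc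
  lv _ := 3 / 4
  lb _ := none
  Xb := gcap_X
  Yb := gcap_Y (decide (L (τ 8) ≤ L (τ 2)))
  lv_pos _ := by norm_num
  lv_le _ := le_rfl
  col_inr b := by
    revert b
    change ∀ b, gcap_col (.inr b) = false
    decide
  nb_inr _ _ := rfl
  nb_eq_inr := gcap_nb_eq
  col_nb a := gcap_col_nb (.inl a)
  nb_ne := gcap_nb_ne
  adj_symm := gcap_adj
  pt_bc := D.pt_bc h
  pt_inr := D.pt_inr h
  arc_bc := D.arc_bc h
  arc_symm a s := by
    simp only [gcap_C]
    rw [gcap_S_nb, min_comm]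
  isArc := D.isArc
  box := D.box h
  sep a a' hf := by
    rcases gcap_far a a' hf.1 hf.2.1 hf.2.2 with e | e | e
    · obtain ⟨σ, k⟩ := a
      obtain ⟨σ', k'⟩ := a'
      cases σ <;> cases σ'
      · exact absurd rfl e
      · exact ⟨1, .inl (D.sep_y k k')⟩
      · exact ⟨1, .inr (D.sep_y k' k)⟩
      · exact absurd rfl e
    · exact ⟨0, .inl (D.sep_x e)⟩
    · exact ⟨0, .inr (D.sep_x e)⟩
  mono := D.mono_win
  zr _ _ _ hz := absurd hz (lt_irrefl (0 : ℝ))
  lb_nb _ _ _ _ := rfl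
  lb_bc b := by
    change none = if b.1 = 0 then none else none
    rw [ite_self]
  nodupX := gcap_ndX
  nodupY := gcap_ndY _
  memX := gcap_memX
  memY := gcap_memY _
  sortX := gcap_sortP.imp fun hab => D.monoX' (D.le hab)
  sortY := D.sortY
  subX := gcap_sub

omit D in
theorem cover (u : ℝ) : ∀ n, ∃ m ≤ n, (m ≠ 0 → τ m ≤ u) ∧ (m ≠ n → u ≤ τ (m + 1))
  | 0 => ⟨0, le_rfl, fun h => absurd rfl h, fun h => absurd rfl h⟩
  | n + 1 => by
    rcases le_total (τ (n + 1)) u with h | h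
    · exact ⟨n + 1, le_rfl, fun _ => h, fun h => absurd rfl h⟩
    · obtain ⟨m, hm, h₁, h₂⟩ := cover u n
      refine ⟨m, by omega, h₁, fun _ => ?_⟩
      by_cases e : m = n
      · exact e ▸ h
      · exact h₂ e

theorem hasPic (h : PosOK [x₀, x₁]) :
    HasPic (col2 x₀ x₁ (none : Option ι) none h) (nn {p | ∃ σ u, p = gcap_g X L σ u})
      [⟨[], .cap Nm.no, []⟩, ⟨[], .cup Nm.no, []⟩] := by
  refine ⟨Bool × Fin 9, inferInstance, inferInstance, D.content ι h, fun b p hp => ?_, ?_, ?_⟩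
  · obtain ⟨u, hu, rfl⟩ := D.star_sub _ hp
    obtain ⟨k, σ⟩ := b
    fin_cases k
    · exact D.left u (hu.2 (show 1 + 1 < 10 by norm_num))
    · exact D.right u (hu.1 (show 1 < 9 by norm_num))
  · ext ⟨o, p⟩
    constructor
    · rintro ⟨a, hp, ho⟩
      obtain ⟨u, -, rfl⟩ := D.star_sub _ hp
      exact ⟨ho, _, u, rfl⟩
    · rintro ⟨ho, σ, u, rfl⟩
      obtain ⟨m, hm, hu⟩ := cover (τ := τ) u 9
      obtain ⟨a, s, rfl, rfl⟩ := gcap_occ σ m hm
      refine ⟨a, ?_, ho⟩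
      cases s
      · exact .inl ⟨u, hu, rfl⟩
      · exact .inr ⟨u, hu, rfl⟩
  · refine gcap_word _ _ _ fun a _ => ?_
    rcases a with a | b
    · rfl
    · change (⟨if b.1 = 0 then none else none⟩ : Nm ι) = _
      rw [ite_self]
      rfl

end gcap_D

end Pool.Agent.P.MP_ac4909_gt.B
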