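import Pool.Agent.P.MP_ac4909_gt.B.GB_Col
import Pool.Agent.P.MP_ac4909_gt.B.GB_Cap_x

/-! Layer G, blocks: a cap and a cup. -/

namespace Pool.Agent.P.MP_ac4909_gt.B

open scoped ContDiff
open Set Filter Topology

variable {ι : Type} {x₀ x₁ : ℝ} {hx hy : ℝ → ℝ} {a u₁ u₀ u₂ b : ℝ}

theorem gcap_pm {x y : ℝ} (hy : 0 ≤ y) (p : E3) :
    (p = !₂[x, -y, 0] ∨ p = !₂[x, y, 0]) ↔ p 0 = x ∧ |p 1| = y ∧ p 2 = 0 := by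
  constructor
  · rintro (rfl | rfl)
    · exact ⟨rfl, (abs_neg y).trans (abs_of_nonneg hy), rfl⟩
    · exact ⟨rfl, abs_of_nonneg hy, rfl⟩
  · rintro ⟨h₀, h₁, h₂⟩
    rcases (abs_eq hy).1 h₁ with e | e
    · exact .inr (gcap_ext h₀ e h₂)
    · exact .inl (gcap_ext h₀ e h₂)

theorem CapData.gcap_neg (hc : CapData x₀ x₁ hx hy a u₁ u₀ u₂ b) {u : ℝ} (hu : u ∈ Icc a b) :
    hy u < 0 := by
  have h₁ : a ≤ u₀ := (hc.lt₁.trans hc.lt₂).le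
  have h₂ : u₀ ≤ b := (hc.lt₃.trans hc.lt₄).le
  refine lt_of_le_of_lt ?_ hc.top
  rcases le_total u u₀ with h | h
  · exact hc.up.monotoneOn ⟨hu.1, h⟩ ⟨h₁, le_rfl⟩ h
  · exact hc.down.antitoneOn ⟨le_rfl, h₂⟩ ⟨h, hu.2⟩ h

theorem CapData.gcap_mem (hc : CapData x₀ x₁ hx hy a u₁ u₀ u₂ b) {s t : ℝ} (hs : a ≤ s)
    (ht : t ≤ b) (p : E3) :
    p ∈ capCup hx hy s t ↔ ∃ u ∈ Icc s t, p 0 = hx u ∧ |p 1| = -hy u ∧ p 2 = 0 := by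
  have k : ∀ u ∈ Icc s t, (p = !₂[hx u, hy u, 0] ∨ p = !₂[hx u, -hy u, 0]) ↔
      p 0 = hx u ∧ |p 1| = -hy u ∧ p 2 = 0 := fun u hu => by
    rw [← gcap_pm (neg_pos.2 (hc.gcap_neg ⟨hs.trans hu.1, hu.2.trans ht⟩)).le, neg_neg]
  constructor
  · rintro (⟨u, hu, e⟩ | ⟨u, hu, e⟩)
    · exact ⟨u, hu, (k u hu).1 (.inl e.symm)⟩
    · exact ⟨u, hu, (k u hu).1 (.inr e.symm)⟩
  · rintro ⟨u, hu, e⟩
    rcases (k u hu).2 e with e | e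
    · exact .inl ⟨u, hu, e.symm⟩
    · exact .inr ⟨u, hu, e.symm⟩

theorem CapData.gcap_pic (hc : CapData x₀ x₁ hx hy a u₁ u₀ u₂ b) (p : E3) :
    p ∈ capPic x₀ x₁ hx hy u₁ u₂ ↔ (∃ u ∈ Icc u₁ u₂, p 0 = hx u ∧ |p 1| = -hy u ∧ p 2 = 0) ∨
      (p 0 = x₀ ∧ -hy u₁ ≤ |p 1| ∧ p 2 = 0) ∨ (p 0 = x₁ ∧ -hy u₂ ≤ |p 1| ∧ p 2 = 0) := by
  rw [← hc.gcap_mem hc.lt₁.le hc.lt₄.le]
  rfl

/-- projection of the line to `[u₁, u₂]` -/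
noncomputable def gcap_cl (u₁ u₂ u : ℝ) : ℝ := max u₁ (min u u₂)

/-- the level along the cap, continued by two rays -/
noncomputable def gcap_L (hy : ℝ → ℝ) (u₁ u₂ u : ℝ) : ℝ :=
  -hy (gcap_cl u₁ u₂ u) + |u - gcap_cl u₁ u₂ u|

/-- the marked parameters -/
noncomputable def gcap_τ (c₁ c₂ u₁ s u₀ s' u₂ : ℝ) : ℕ → ℝ
  | 0 => u₁ - (c₁ + 1)
  | 1 => u₁ - (c₁ + 3 / 4)
  | 2 => u₁
  | 3 => (u₁ + s) / 2
  | 4 => s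
  | 5 => u₀
  | 6 => s'
  | 7 => (s' + u₂) / 2
  | 8 => u₂
  | j + 9 => u₂ + (c₂ + 3 / 4 + j / 4)

theorem gcap_cl_mem (h : u₁ ≤ u₂) (u : ℝ) : gcap_cl u₁ u₂ u ∈ Icc u₁ u₂ :=
  ⟨le_max_left _ _, max_le h (min_le_right _ _)⟩

theorem gcap_cl_lo {u : ℝ} (hu : u ≤ u₁) : gcap_cl u₁ u₂ u = u₁ :=
  max_eq_left ((min_le_left _ _).trans hu)

theorem gcap_cl_mid {u : ℝ} (hu : u ∈ Icc u₁ u₂) : gcap_cl u₁ u₂ u = u := by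
  rw [gcap_cl, min_eq_left hu.2, max_eq_right hu.1]

theorem gcap_cl_hi (h : u₁ ≤ u₂) {u : ℝ} (hu : u₂ ≤ u) : gcap_cl u₁ u₂ u = u₂ := by
  rw [gcap_cl, min_eq_right hu, max_eq_right h]

theorem gcap_L_lo {u : ℝ} (hu : u ≤ u₁) : gcap_L hy u₁ u₂ u = -hy u₁ + (u₁ - u) := by
  rw [gcap_L, gcap_cl_lo hu, abs_sub_comm, abs_of_nonneg (sub_nonneg.2 hu)]

theorem gcap_L_mid {u : ℝ} (hu : u ∈ Icc u₁ u₂) : gcap_L hy u₁ u₂ u = -hy u := by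
  rw [gcap_L, gcap_cl_mid hu, sub_self, abs_zero, add_zero]

theorem gcap_L_hi (h : u₁ ≤ u₂) {u : ℝ} (hu : u₂ ≤ u) :
    gcap_L hy u₁ u₂ u = -hy u₂ + (u - u₂) := by
  rw [gcap_L, gcap_cl_hi h hu, abs_of_nonneg (sub_nonneg.2 hu)]

theorem CapData.gcap_data (hc : CapData x₀ x₁ hx hy a u₁ u₀ u₂ b) :
    ∃ τ, gcap_D x₀ x₁ (fun u => hx (gcap_cl u₁ u₂ u)) (gcap_L hy u₁ u₂) τ := by
  have l₁ := hc.lt₁
  have l₂ := hc.lt₂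
  have l₃ := hc.lt₃
  have l₄ := hc.lt₄
  have lo₁ := hc.lo₁
  have lo₂ := hc.lo₂
  have h12 : u₁ ≤ u₂ := by linarith
  have t₁ : hy u₁ < hy u₀ := hc.up ⟨l₁.le, l₂.le⟩ ⟨by linarith, le_rfl⟩ l₂
  have t₂ : hy u₂ < hy u₀ := hc.down ⟨le_rfl, by linarith⟩ ⟨l₃.le, l₄.le⟩ l₃
  have m₁ := le_max_left (hy u₁) (hy u₂)
  have m₂ := le_max_right (hy u₁) (hy u₂)
  have m₃ := max_lt t₁ t₂
  obtain ⟨s, hs, es⟩ := intermediate_value_Ioo l₂.le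
    (hc.conty.mono (Icc_subset_Icc l₁.le (by linarith)))
    (show (max (hy u₁) (hy u₂) + hy u₀) / 2 ∈ Ioo (hy u₁) (hy u₀) from
      ⟨by linarith, by linarith⟩)
  obtain ⟨s', hs', es'⟩ := intermediate_value_Ioo' l₃.le
    (hc.conty.mono (Icc_subset_Icc (by linarith) l₄.le))
    (show (max (hy u₁) (hy u₂) + hy u₀) / 2 ∈ Ioo (hy u₂) (hy u₀) from
      ⟨by linarith, by linarith⟩)
  have ccl : Continuous (gcap_cl u₁ u₂) := continuous_const.max (continuous_id.min continuous_const)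
  have mcl : ∀ u, gcap_cl u₁ u₂ u ∈ Icc a b := fun u =>
    Icc_subset_Icc l₁.le l₄.le (gcap_cl_mem h12 u)
  refine ⟨gcap_τ (hy u₁) (hy u₂) u₁ s u₀ s' u₂, hc.contx.comp_continuous ccl mcl,
    (hc.conty.comp_continuous ccl mcl).neg.add (continuous_id.sub ccl).abs,
    strictMono_nat_of_lt_succ fun j => ?_, fun u hu => ?_, fun u hu => ?_, fun u hu v hv h => ?_,
    ?_, ?_, ?_, ?_, ?_, ?_, ?_, fun y hy' => ?_, fun y hy' => ?_, ?_⟩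
  · match j with
    | 0 | 1 | 2 | 3 | 4 | 5 | 6 | 7 | 8 =>
      simp only [gcap_τ, Nat.cast_zero]
      linarith [hs.1, hs.2, hs'.1, hs'.2]
    | j + 9 =>
      change u₂ + (hy u₂ + 3 / 4 + (j : ℝ) / 4) < u₂ + (hy u₂ + 3 / 4 + ((j + 1 : ℕ) : ℝ) / 4)
      push_cast
      linarith
  · rw [gcap_cl_lo (u₁ := u₁) hu]
    exact hc.left _ ⟨l₁.le, le_rfl⟩
  · rw [gcap_cl_hi h12 hu]
    exact hc.right _ ⟨le_rfl, l₄.le⟩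
  · have hu' : u ∈ Icc u₁ u₂ := hu
    have hv' : v ∈ Icc u₁ u₂ := hv
    simp only [gcap_cl_mid hu', gcap_cl_mid hv']
    exact hc.monox hu hv h
  · change StrictAntiOn _ (Iic u₀)
    rw [← Iic_union_Icc_eq_Iic l₂.le]
    refine StrictAntiOn.union (fun u hu v hv h => ?_) (fun u hu v hv h => ?_) isGreatest_Iic
      (isLeast_Icc l₂.le)
    · rw [gcap_L_lo hu, gcap_L_lo hv]
      linarith
    · rw [gcap_L_mid ⟨hu.1, hu.2.trans l₃.le⟩, gcap_L_mid ⟨hv.1, hv.2.trans l₃.le⟩]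
      exact neg_lt_neg (hc.up ⟨l₁.le.trans hu.1, hu.2⟩ ⟨l₁.le.trans hv.1, hv.2⟩ h)
  · change StrictMonoOn _ (Ici u₀)
    rw [← Icc_union_Ici_eq_Ici l₃.le]
    refine StrictMonoOn.union (fun u hu v hv h => ?_) (fun u hu v hv h => ?_)
      (isGreatest_Icc l₃.le) isLeast_Ici
    · rw [gcap_L_mid ⟨l₂.le.trans hu.1, hu.2⟩, gcap_L_mid ⟨l₂.le.trans hv.1, hv.2⟩]
      exact neg_lt_neg (hc.down ⟨hu.1, hu.2.trans l₄.le⟩ ⟨hv.1, hv.2.trans l₄.le⟩ h)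
    · rw [gcap_L_hi h12 hu, gcap_L_hi h12 hv]
      linarith
  · change 0 < gcap_L hy u₁ u₂ u₀
    rw [gcap_L_mid ⟨l₂.le, l₃.le⟩]
    exact neg_pos.2 hc.top
  · change gcap_L hy u₁ u₂ (u₁ - (hy u₁ + 1)) = 1
    rw [gcap_L_lo (by linarith)]
    ring
  · change gcap_L hy u₁ u₂ (u₁ - (hy u₁ + 3 / 4)) = 3 / 4
    rw [gcap_L_lo (by linarith)]
    ring
  · change gcap_L hy u₁ u₂ (u₂ + (hy u₂ + 3 / 4 + ((0 : ℕ) : ℝ) / 4)) = 3 / 4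
    rw [Nat.cast_zero, gcap_L_hi h12 (by linarith)]
    ring
  · change gcap_L hy u₁ u₂ (u₂ + (hy u₂ + 3 / 4 + ((1 : ℕ) : ℝ) / 4)) = 1
    rw [Nat.cast_one, gcap_L_hi h12 (by linarith)]
    ring
  · refine ⟨u₁ - (hy u₁ + y), show _ ≤ u₁ - (hy u₁ + 3 / 4) by linarith, ?_⟩
    rw [gcap_L_lo (by linarith)]
    ring
  · refine ⟨u₂ + (hy u₂ + y), show u₂ + (hy u₂ + 3 / 4 + ((0 : ℕ) : ℝ) / 4) ≤ _ by
      rw [Nat.cast_zero]; linarith, ?_⟩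
    rw [gcap_L_hi h12 (by linarith)]
    ring
  · change gcap_L hy u₁ u₂ s = gcap_L hy u₁ u₂ s'
    rw [gcap_L_mid ⟨hs.1.le, by linarith [hs.2]⟩, gcap_L_mid ⟨by linarith [hs'.1], hs'.2.le⟩,
      es, es']

theorem hasPic_cap (h : PosOK [x₀, x₁]) (hc : CapData x₀ x₁ hx hy a u₁ u₀ u₂ b) :
    HasPic (col2 x₀ x₁ (none : Option ι) none h) (nn (capPic x₀ x₁ hx hy u₁ u₂))
      [⟨[], .cap Nm.no, []⟩, ⟨[], .cup Nm.no, []⟩] := by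
  obtain ⟨τ, D⟩ := hc.gcap_data
  have h12 : u₁ ≤ u₂ := (hc.lt₂.trans hc.lt₃).le
  have x1 : hx u₁ = x₀ := hc.left _ ⟨hc.lt₁.le, le_rfl⟩
  have x2 : hx u₂ = x₁ := hc.right _ ⟨le_rfl, hc.lt₄.le⟩
  have k : ∀ (p : E3) u, (∃ σ, p = gcap_g (fun u => hx (gcap_cl u₁ u₂ u)) (gcap_L hy u₁ u₂) σ u) ↔
      p 0 = hx (gcap_cl u₁ u₂ u) ∧ |p 1| = gcap_L hy u₁ u₂ u ∧ p 2 = 0 := fun p u => by
    rw [← gcap_pm (D.pos' u).le, Bool.exists_bool]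
    simp only [gcap_g, Bool.false_eq_true, if_false, if_true, neg_one_mul, one_mul]
  convert D.hasPic h using 2
  ext p
  rw [hc.gcap_pic, mem_ofPred_eq, exists_comm]
  simp only [k]
  constructor
  · rintro (⟨u, hu, e⟩ | ⟨e₀, e₁, e₂⟩ | ⟨e₀, e₁, e₂⟩)
    · exact ⟨u, by rwa [gcap_cl_mid hu, gcap_L_mid hu]⟩
    · have hu : u₁ - (hy u₁ + |p 1|) ≤ u₁ := by linarith
      refine ⟨_, by rw [gcap_cl_lo hu, x1, e₀], ?_, e₂⟩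
      rw [gcap_L_lo hu]
      ring
    · have hu : u₂ ≤ u₂ + (hy u₂ + |p 1|) := by linarith
      refine ⟨_, by rw [gcap_cl_hi h12 hu, x2, e₀], ?_, e₂⟩
      rw [gcap_L_hi h12 hu]
      ring
  · rintro ⟨u, e₀, e₁, e₂⟩
    rcases le_total u u₁ with hu | hu
    · rw [gcap_cl_lo hu, x1] at e₀
      rw [gcap_L_lo hu] at e₁
      exact .inr (.inl ⟨e₀, by linarith, e₂⟩)
    · rcases le_total u u₂ with hu' | hu'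
      · rw [gcap_cl_mid ⟨hu, hu'⟩] at e₀
        rw [gcap_L_mid ⟨hu, hu'⟩] at e₁
        exact .inl ⟨u, ⟨hu, hu'⟩, e₀, e₁, e₂⟩
      · rw [gcap_cl_hi h12 hu', x2] at e₀
        rw [gcap_L_hi h12 hu'] at e₁
        exact .inr (.inr ⟨e₀, by linarith, e₂⟩)

theorem CapData.capPic_iff (hc : CapData x₀ x₁ hx hy a u₁ u₀ u₂ b) {p : E3}
    (hp : p ∈ Qb (9 / 8)) : p ∈ capPic x₀ x₁ hx hy u₁ u₂ ↔ p ∈ capCup hx hy a b := by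
  have l₁ := hc.lt₁
  have l₂ := hc.lt₂
  have l₃ := hc.lt₃
  have l₄ := hc.lt₄
  have hp₁ := hp 1
  rw [hc.gcap_pic, hc.gcap_mem le_rfl le_rfl]
  constructor
  · rintro (⟨u, hu, e⟩ | ⟨e₀, e₁, e₂⟩ | ⟨e₀, e₁, e₂⟩)
    · exact ⟨u, Icc_subset_Icc l₁.le l₄.le hu, e⟩
    · obtain ⟨u, hu, e⟩ := intermediate_value_Icc l₁.le
        (hc.conty.mono (Icc_subset_Icc le_rfl (by linarith)))
        (show -|p 1| ∈ Icc (hy a) (hy u₁) from ⟨by linarith [hc.bot₁], by linarith⟩)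
      exact ⟨u, ⟨hu.1, by linarith [hu.2]⟩, e₀.trans (hc.left u hu).symm, by rw [e, neg_neg], e₂⟩
    · obtain ⟨u, hu, e⟩ := intermediate_value_Icc' l₄.le
        (hc.conty.mono (Icc_subset_Icc (by linarith) le_rfl))
        (show -|p 1| ∈ Icc (hy b) (hy u₂) from ⟨by linarith [hc.bot₂], by linarith⟩)
      exact ⟨u, ⟨by linarith [hu.1], hu.2⟩, e₀.trans (hc.right u hu).symm, by rw [e, neg_neg], e₂⟩
  · rintro ⟨u, hu, e₀, e₁, e₂⟩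
    rcases le_total u u₁ with h | h
    · have := hc.up.monotoneOn ⟨hu.1, h.trans l₂.le⟩ ⟨l₁.le, l₂.le⟩ h
      exact .inr (.inl ⟨e₀.trans (hc.left u ⟨hu.1, h⟩), by linarith, e₂⟩)
    · rcases le_total u u₂ with h' | h'
      · exact .inl ⟨u, ⟨h, h'⟩, e₀, e₁, e₂⟩
      · have := hc.down.antitoneOn ⟨l₃.le, l₄.le⟩ ⟨l₃.le.trans h', hu.2⟩ h'
        exact .inr (.inr ⟨e₀.trans (hc.right u ⟨h', hu.2⟩), by linarith, e₂⟩)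

theorem CapData.capPic_mem (hc : CapData x₀ x₁ hx hy a u₁ u₀ u₂ b) {p : E3}
    (hp : p ∈ capPic x₀ x₁ hx hy u₁ u₂) : x₀ ≤ p 0 ∧ p 0 ≤ x₁ ∧ p 2 = 0 := by
  have h12 : u₁ ≤ u₂ := (hc.lt₂.trans hc.lt₃).le
  have x1 : hx u₁ = x₀ := hc.left _ ⟨hc.lt₁.le, le_rfl⟩
  have x2 : hx u₂ = x₁ := hc.right _ ⟨le_rfl, hc.lt₄.le⟩
  have k : ∀ u ∈ Icc u₁ u₂, x₀ ≤ hx u ∧ hx u ≤ x₁ := fun u hu =>
    ⟨x1 ▸ hc.monox.monotoneOn (left_mem_Icc.2 h12) hu hu.1,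
      x2 ▸ hc.monox.monotoneOn hu (right_mem_Icc.2 h12) hu.2⟩
  have l : x₀ ≤ x₁ := (k u₁ (left_mem_Icc.2 h12)).1.trans (k u₁ (left_mem_Icc.2 h12)).2
  rcases (hc.gcap_pic p).1 hp with ⟨u, hu, e₀, -, e₂⟩ | ⟨e₀, -, e₂⟩ | ⟨e₀, -, e₂⟩
  · exact ⟨e₀ ▸ (k u hu).1, e₀ ▸ (k u hu).2, e₂⟩
  · exact ⟨e₀.ge, e₀ ▸ l, e₂⟩
  · exact ⟨e₀ ▸ l, e₀.le, e₂⟩

theorem CapData.capPic_out (hc : CapData x₀ x₁ hx hy a u₁ u₀ u₂ b) {p : E3}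
    (hp : 3 / 4 ≤ |p 1|) : p ∈ capPic x₀ x₁ hx hy u₁ u₂ ↔ (p 0 = x₀ ∨ p 0 = x₁) ∧ p 2 = 0 := by
  have l₁ := hc.lt₁
  have l₂ := hc.lt₂
  have l₃ := hc.lt₃
  have l₄ := hc.lt₄
  have lo₁ := hc.lo₁
  have lo₂ := hc.lo₂
  rw [hc.gcap_pic]
  constructor
  · rintro (⟨u, hu, -, e₁, -⟩ | ⟨e₀, -, e₂⟩ | ⟨e₀, -, e₂⟩)
    · exfalso
      rcases le_total u u₀ with h | h
      · have := hc.up.monotoneOn ⟨l₁.le, l₂.le⟩ ⟨l₁.le.trans hu.1, h⟩ hu.1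
        linarith
      · have := hc.down.antitoneOn ⟨h, hu.2.trans l₄.le⟩ ⟨l₃.le, l₄.le⟩ hu.2
        linarith
    · exact ⟨.inl e₀, e₂⟩
    · exact ⟨.inr e₀, e₂⟩
  · rintro ⟨e₀ | e₀, e₂⟩
    · exact .inr (.inl ⟨e₀, by linarith, e₂⟩)
    · exact .inr (.inr ⟨e₀, by linarith, e₂⟩)

end Pool.Agent.P.MP_ac4909_gt.B
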