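import Pool.Agent.P.MP_ac4909_gt.B.MHd

/-! General position with respect to the graph; compression of a ball. -/

namespace Pool.Agent.P.MP_ac4909_gt.B

open scoped Manifold ContDiff
open Set Filter Topology Metric

variable {M : Type*} [TopologicalSpace M] [T2Space M] [ChartedSpace E3 M]
  [IsManifold (𝓡 3) ∞ M] {ι Vx κ : Type} [Fintype ι] [Fintype Vx] [Fintype κ]

/-! ### Linear algebra and null sets -/

theorem pert_det {c : ℝ} (f : E3 →L[ℝ] ℝ) (v : E3) (hc : 0 < c) (h : 0 < c + f v) :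
    0 < (c • ContinuousLinearMap.id ℝ E3 + f.smulRight v).det := by
  have e : ((c • ContinuousLinearMap.id ℝ E3 + f.smulRight v : E3 →L[ℝ] E3) : E3 →ₗ[ℝ] E3) =
      c • LinearMap.transvection (c⁻¹ • (f : E3 →ₗ[ℝ] ℝ)) v := by
    refine LinearMap.ext fun x => ?_
    have h1 : c • ((c⁻¹ * f x) • v) = f x • v := by
      rw [smul_smul, mul_inv_cancel_left₀ hc.ne']
    simp [LinearMap.transvection.apply, h1]
  have h1 : 1 + c⁻¹ * f v = c⁻¹ * (c + f v) := by field_simp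
  unfold ContinuousLinearMap.det
  rw [e, LinearMap.det_smul, LinearMap.transvection.det]
  simp only [LinearMap.smul_apply, ContinuousLinearMap.coe_coe, smul_eq_mul]
  rw [h1]
  positivity

open MeasureTheory in
theorem pert_null {E : Type*} [NormedAddCommGroup E] [NormedSpace ℝ E] [FiniteDimensional ℝ E]
    [MeasurableSpace E] [BorelSpace E] (μ : Measure E) [μ.IsAddHaarMeasure] {f : E → E}
    {s : Set E} {v : E} (hv : v ≠ 0) (hd : ∀ x ∈ s, DifferentiableAt ℝ f x)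
    (hk : ∀ x ∈ s, fderiv ℝ f x v = 0) : μ (f '' s) = 0 := by
  refine addHaar_image_eq_zero_of_det_fderivWithin_eq_zero μ (f' := fderiv ℝ f)
    (fun x hx => (hd x hx).hasFDerivAt.hasFDerivWithinAt) fun x hx => ?_
  refine LinearMap.det_eq_zero_iff_ker_ne_bot.2 fun h0 => hv ?_
  exact (Submodule.eq_bot_iff _).1 h0 v (hk x hx)

open MeasureTheory in
/-- the smooth image of a space of smaller dimension is a null set -/
theorem pert_null_low {E Y : Type*} [NormedAddCommGroup E] [NormedSpace ℝ E]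
    [FiniteDimensional ℝ E] [MeasurableSpace E] [BorelSpace E] (μ : Measure E)
    [μ.IsAddHaarMeasure] [NormedAddCommGroup Y] [NormedSpace ℝ Y] (P : E →L[ℝ] Y)
    (hP : Function.Surjective P) {v : E} (hv : v ≠ 0) (hPv : P v = 0) {g : Y → E} {s : Set Y}
    (hg : ∀ y ∈ s, DifferentiableAt ℝ g y) : μ (g '' s) = 0 := by
  have e : g '' s = (g ∘ P) '' (P ⁻¹' s) := by rw [image_comp, image_preimage_eq _ hP]
  rw [e]
  refine pert_null μ hv (fun x hx => (hg _ hx).comp x P.differentiableAt) fun x hx => ?_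
  rw [fderiv_comp x (hg _ hx) P.differentiableAt, P.fderiv, ContinuousLinearMap.comp_apply, hPv,
    map_zero]

/-- the horizontal part -/
noncomputable def pert_hor : E3 →L[ℝ] ℝ × ℝ :=
  (EuclideanSpace.proj (0 : Fin 3)).prod (EuclideanSpace.proj (1 : Fin 3))

theorem pert_hor_apply (p : E3) : pert_hor p = (p 0, p 1) := rfl

theorem pert_mem_axis {p : E3} : p ∈ axis ↔ pert_hor p = 0 := by
  rw [pert_hor_apply, Prod.mk_eq_zero]
  rfl

theorem pert_induct {X I : Type*} [Fintype I] (B : X → Prop) (G : I → X → Prop) {x₀ : X}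
    (h0 : B x₀) (step : ∀ x, B x → ∀ i, ∃ y, B y ∧ G i y ∧ ∀ j, j ≠ i → G j x → G j y) :
    ∃ y, B y ∧ ∀ i, G i y := by
  classical
  have h : ∀ S : Finset I, ∃ y, B y ∧ ∀ i ∈ S, G i y := by
    intro S
    induction S using Finset.induction_on with
    | empty => exact ⟨x₀, h0, by simp⟩
    | insert i S _ ih =>
      obtain ⟨x, hx, hG⟩ := ih
      obtain ⟨y, hy, hi, hj⟩ := step x hx i
      refine ⟨y, hy, fun j hjS => ?_⟩
      by_cases hji : j = i
      · exact hji ▸ hi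
      · exact hj j hji (hG j ((Finset.mem_insert.1 hjS).resolve_left hji))
  obtain ⟨y, hy, hG⟩ := h Finset.univ
  exact ⟨y, hy, fun i => hG i (Finset.mem_univ i)⟩

/-! ### Compactly supported isotopies in a chart -/

omit [T2Space M] [IsManifold (𝓡 3) ∞ M] in
theorem pert_det_symm {e : OpenPartialHomeomorph E3 M} (he : IsPChart e) {x : M}
    (hx : x ∈ e.target) : 0 < (jac e.symm x).det := by
  have hp := e.map_target hx
  have h1 : (jac e.symm x).comp (jac e (e.symm x)) = ContinuousLinearMap.id ℝ E3 := by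
    refine ContinuousLinearMap.ext fun v => ?_
    have := he.jac_symm hp v
    rwa [e.right_inv hx] at this
  have h2 : (jac e.symm x).det * (jac e (e.symm x)).det = 1 := by
    unfold ContinuousLinearMap.det
    rw [← LinearMap.det_comp, ← ContinuousLinearMap.toLinearMap_comp, h1]
    simp
  exact (mul_pos_iff_of_pos_right (he.pos _ hp)).1 (by rw [h2]; exact one_pos)

omit [IsManifold (𝓡 3) ∞ M] [ChartedSpace E3 M] in
theorem pert_closed {e : OpenPartialHomeomorph E3 M} {C : Set E3} (hC : IsCompact C)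
    (hCe : C ⊆ e.source) : IsClosed (e '' C) :=
  (hC.image_of_continuousOn (e.continuousOn.mono hCe)).isClosed

omit [IsManifold (𝓡 3) ∞ M] in
/-- extension by the identity -/
theorem pert_extend {e : OpenPartialHomeomorph E3 M} (he : IsPChart e) {C : Set E3}
    (hC : IsCompact C) (hCe : C ⊆ e.source) {g : ℝ → E3 → E3}
    (hg : ContDiff ℝ ∞ fun q : ℝ × E3 => g q.1 q.2) (h0 : ∀ p, g 0 p = p)
    (hoff : ∀ u, ∀ p, p ∉ C → g u p = p)
    (hinj : ∀ u ∈ Icc (0 : ℝ) 1, Function.Injective (g u))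
    (hdet : ∀ u ∈ Icc (0 : ℝ) 1, ∀ p, 0 < (fderiv ℝ (g u) p).det) :
    ∃ Q : ℝ → M → M, AmbIso Q ∧ (∀ u, ∀ x, x ∉ e '' C → Q u x = x) ∧
      ∀ p ∈ e.source, g 1 p ∈ e.source ∧ Q 1 (e p) = e (g 1 p) := by
  classical
  have hτ : ∀ u, Real.smoothTransition u ∈ Icc (0 : ℝ) 1 := fun u =>
    ⟨Real.smoothTransition.nonneg u, Real.smoothTransition.le_one u⟩
  have hmaps : ∀ u ∈ Icc (0 : ℝ) 1, ∀ p ∈ e.source, g u p ∈ e.source := by
    intro u hu p hp
    by_cases h : g u p ∈ C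
    · exact hCe h
    · rw [hinj u hu (hoff u _ h)]
      exact hp
  obtain ⟨Q, hQ⟩ : ∃ Q : ℝ → M → M, Q = fun u x =>
      if x ∈ e.target then e (g (Real.smoothTransition u) (e.symm x)) else x := ⟨_, rfl⟩
  have hin : ∀ u, ∀ x ∈ e.target, Q u x = e (g (Real.smoothTransition u) (e.symm x)) :=
    fun u x hx => by rw [hQ]; exact if_pos hx
  have hout : ∀ u, ∀ x, x ∉ e.target → Q u x = x := fun u x hx => by rw [hQ]; exact if_neg hx
  have hQoff : ∀ u, ∀ x, x ∉ e '' C → Q u x = x := by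
    intro u x hx
    by_cases ht : x ∈ e.target
    · rw [hin u x ht, hoff _ _ fun h => hx ⟨_, h, e.right_inv ht⟩, e.right_inv ht]
    · exact hout u x ht
  have hsub : e '' C ⊆ e.target := by
    rintro _ ⟨p, hp, rfl⟩
    exact e.map_source (hCe hp)
  have hcl := pert_closed hC hCe
  have hgu : ∀ u, ContDiff ℝ ∞ (g u) := fun u => hg.comp (contDiff_const.prodMk contDiff_id)
  refine ⟨Q, ⟨?_, fun x => ?_, fun u _ x y hxy => ?_, fun u _ x => ?_⟩, hQoff, fun p hp => ?_⟩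
  · rintro ⟨u, x⟩
    by_cases hx : x ∈ e.target
    · have h1 : ContMDiffAt (𝓘(ℝ, ℝ).prod (𝓡 3)) (𝓡 3) ∞ (fun q : ℝ × M => e.symm q.2) (u, x) :=
        (he.smooth_symm.contMDiffAt (e.open_target.mem_nhds hx)).comp (u, x) contMDiffAt_snd
      have h2 : ContMDiffAt (𝓘(ℝ, ℝ).prod (𝓡 3)) 𝓘(ℝ, ℝ) ∞
          (fun q : ℝ × M => Real.smoothTransition q.1) (u, x) :=
        Real.smoothTransition.contDiff.comp_contMDiffAt contMDiffAt_fst
      have h4 := hg.comp_contMDiffAt (h2.prodMk_space h1)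
      have h5 := (he.smooth.contMDiffAt (e.open_source.mem_nhds
        (hmaps _ (hτ u) _ (e.map_target hx)))).comp (u, x) h4
      refine h5.congr_of_eventuallyEq ?_
      filter_upwards [continuous_snd.continuousAt.preimage_mem_nhds
        (e.open_target.mem_nhds hx)] with q hq
      exact hin q.1 q.2 hq
    · refine contMDiffAt_snd.congr_of_eventuallyEq ?_
      filter_upwards [continuous_snd.continuousAt.preimage_mem_nhds
        (hcl.isOpen_compl.mem_nhds fun h => hx (hsub h))] with q hq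
      exact hQoff q.1 q.2 hq
  · by_cases hx : x ∈ e.target
    · rw [hin 0 x hx, Real.smoothTransition.zero, h0, e.right_inv hx]
    · exact hout 0 x hx
  · have hmem : ∀ z ∈ e.target, Q u z ∈ e.target := fun z hz => by
      rw [hin u z hz]
      exact e.map_source (hmaps _ (hτ u) _ (e.map_target hz))
    by_cases hx : x ∈ e.target <;> by_cases hy : y ∈ e.target
    · rw [hin u x hx, hin u y hy] at hxy
      have h1 := hinj _ (hτ u) (e.injOn (hmaps _ (hτ u) _ (e.map_target hx))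
        (hmaps _ (hτ u) _ (e.map_target hy)) hxy)
      exact e.symm.injOn hx hy h1
    · have := hmem x hx
      rw [hxy, hout u y hy] at this
      exact absurd this hy
    · have := hmem y hy
      rw [← hxy, hout u x hx] at this
      exact absurd this hx
    · rwa [hout u x hx, hout u y hy] at hxy
  · by_cases hx : x ∈ e.target
    · have hp := hmaps _ (hτ u) _ (e.map_target hx)
      have e1 : Q u =ᶠ[𝓝 x] e ∘ g (Real.smoothTransition u) ∘ e.symm := by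
        filter_upwards [e.open_target.mem_nhds hx] with z hz
        exact hin u z hz
      have d1 : MDifferentiableAt (𝓡 3) (𝓡 3) e.symm x :=
        (he.smooth_symm.contMDiffAt (e.open_target.mem_nhds hx)).mdifferentiableAt (by simp)
      have d2 : MDifferentiableAt (𝓡 3) (𝓡 3) (g (Real.smoothTransition u)) (e.symm x) :=
        (hgu _).contMDiff.mdifferentiableAt (by simp)
      have d3 : MDifferentiableAt (𝓡 3) (𝓡 3) e (g (Real.smoothTransition u) (e.symm x)) :=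
        (he.smooth.contMDiffAt (e.open_source.mem_nhds hp)).mdifferentiableAt (by simp)
      rw [jac_congr e1, det_jac_comp (f := g (Real.smoothTransition u) ∘ e.symm) d3
        (d2.comp x d1), det_jac_comp d2 d1, jac_eq_fderiv]
      exact mul_pos (he.pos _ hp) (mul_pos (hdet _ (hτ u) _) (pert_det_symm he hx))
    · have e1 : Q u =ᶠ[𝓝 x] id := by
        filter_upwards [hcl.isOpen_compl.mem_nhds fun h => hx (hsub h)] with z hz
        exact hQoff u z hz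
      rw [jac_congr e1, jac_id]
      simp [ContinuousLinearMap.det]
  · refine ⟨hmaps 1 ⟨zero_le_one, le_rfl⟩ p hp, ?_⟩
    rw [hin 1 _ (e.map_source hp), Real.smoothTransition.one, e.left_inv hp]

/-- a small translation, cut off -/
theorem pert_transl {β : E3 → ℝ} (hβ : ContDiff ℝ ∞ β) {L : ℝ} (hL : ∀ p, ‖fderiv ℝ β p‖ ≤ L)
    {a : E3} (ha : L * ‖a‖ < 1) {u : ℝ} (hu : u ∈ Icc (0 : ℝ) 1) :
    Function.Injective (fun p => p + (u * β p) • a) ∧
      ∀ p, 0 < (fderiv ℝ (fun p => p + (u * β p) • a) p).det := by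
  have hd : Differentiable ℝ β := hβ.differentiable (by simp)
  have hL0 : 0 ≤ L := (norm_nonneg _).trans (hL 0)
  refine ⟨fun p q hpq => ?_, fun p => ?_⟩
  · have h1 : p - q = (u * (β q - β p)) • a := by
      have h2 : p + (u * β p) • a = q + (u * β q) • a := hpq
      linear_combination (norm := module) h2
    have h2 := convex_univ.norm_image_sub_le_of_norm_fderiv_le (𝕜 := ℝ) (f := β)
      (fun x _ => hd x) (fun x _ => hL x) (mem_univ p) (mem_univ q)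
    rw [norm_sub_rev q p] at h2
    have h3 : ‖p - q‖ ≤ L * ‖a‖ * ‖p - q‖ := by
      calc ‖p - q‖ = u * ‖β q - β p‖ * ‖a‖ := by
            conv_lhs => rw [h1]
            rw [norm_smul, norm_mul, Real.norm_of_nonneg hu.1]
        _ ≤ 1 * (L * ‖p - q‖) * ‖a‖ := by gcongr; exact hu.2
        _ = L * ‖a‖ * ‖p - q‖ := by ring
    by_contra hne
    have h4 : 0 < ‖p - q‖ := norm_pos_iff.2 (sub_ne_zero.2 hne)
    nlinarith
  · have h1 : HasFDerivAt (fun p => p + (u * β p) • a)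
        ((1 : ℝ) • ContinuousLinearMap.id ℝ E3 + (u • fderiv ℝ β p).smulRight a) p := by
      rw [one_smul]
      exact (hasFDerivAt_id p).add (((hd p).hasFDerivAt.const_mul u).smul_const a)
    rw [h1.fderiv]
    refine pert_det _ _ one_pos ?_
    have h2 : |fderiv ℝ β p a| ≤ L * ‖a‖ :=
      ((fderiv ℝ β p).le_opNorm a).trans (mul_le_mul_of_nonneg_right (hL p) (norm_nonneg _))
    have h3 := mul_le_mul hu.2 h2 (abs_nonneg _) zero_le_one
    have h4 := mul_le_mul_of_nonneg_left (neg_abs_le (fderiv ℝ β p a)) hu.1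
    simp only [smul_apply, smul_eq_mul]
    linarith

omit [IsManifold (𝓡 3) ∞ M] in
/-- small translations near a compact set `A` in a chart -/
theorem pert_shift {e : OpenPartialHomeomorph E3 M} (he : IsPChart e) {A : Set E3}
    (hA : IsCompact A) (hAe : A ⊆ e.source) {K T F : Set M} (hK : IsCompact K)
    (hAK : ∀ p ∈ A, e p ∉ K) (hT : IsCompact T) (hF : IsClosed F) (hTF : ∀ x ∈ T, x ∉ F) :
    ∃ (β : E3 → ℝ) (δ : ℝ), 0 < δ ∧ (∀ p, β p ∈ Icc (0 : ℝ) 1) ∧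
      (∀ q ∈ A, ∀ p ∈ ball q δ, β p = 1) ∧ ∀ a : E3, ‖a‖ < δ → ∃ Q : ℝ → M → M, AmbIso Q ∧
        (∀ u, ∀ x ∈ K, Q u =ᶠ[𝓝 x] id) ∧ (∀ x ∈ T, Q 1 x ∉ F) ∧
        (∀ x, x ∉ e.target → Q 1 x = x) ∧
        ∀ p ∈ e.source, p + β p • a ∈ e.source ∧ Q 1 (e p) = e (p + β p • a) := by
  obtain ⟨C, hC, hAC, hCW⟩ := exists_compact_between hA
    (e.isOpen_inter_preimage hK.isClosed.isOpen_compl) fun p hp => ⟨hAe hp, hAK p hp⟩
  obtain ⟨C₁, hC₁, hAC₁, hC₁C⟩ := exists_compact_between hA isOpen_interior hAC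
  have hCe : C ⊆ e.source := fun p hp => (hCW hp).1
  obtain ⟨b, hb0, hb1, hb⟩ := exists_contMDiffMap_zero_one_of_isClosed (n := ⊤) 𝓘(ℝ, E3)
    (isOpen_interior (s := C)).isClosed_compl hC₁.isClosed
    (disjoint_left.2 fun p hp hp' => hp (hC₁C hp'))
  have hβ : ContDiff ℝ ∞ (b : E3 → ℝ) := b.contMDiff.contDiff
  have hβ0 : ∀ p, p ∉ C → b p = 0 := fun p hp => hb0 fun h => hp (interior_subset h)
  obtain ⟨L, hL⟩ := (hβ.continuous_fderiv (by simp)).bounded_above_of_compact_support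
    ((HasCompactSupport.intro hC hβ0).fderiv ℝ)
  have hL0 : 0 ≤ L := (norm_nonneg _).trans (hL 0)
  obtain ⟨δ₁, hδ₁, h₁⟩ := hA.exists_thickening_subset_open isOpen_interior hAC₁
  have hT' : IsCompact (C ∩ e ⁻¹' T) := hC.of_isClosed_subset
    ((e.continuousOn.mono hCe).preimage_isClosed_of_isClosed hC.isClosed hT.isClosed)
    inter_subset_left
  obtain ⟨δ₂, hδ₂, h₂⟩ := hT'.exists_thickening_subset_open
    (e.isOpen_inter_preimage hF.isOpen_compl) fun p hp => ⟨hCe hp.1, hTF _ hp.2⟩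
  refine ⟨b, min (min δ₁ δ₂) (1 / (L + 1)), by positivity, hb, fun q hq p hp => ?_, fun a ha => ?_⟩
  · refine hb1 (interior_subset (h₁ (mem_thickening_iff.2 ⟨q, hq, ?_⟩)))
    exact (mem_ball.1 hp).trans_le ((min_le_left _ _).trans (min_le_left _ _))
  have ha2 : ‖a‖ < δ₂ := ha.trans_le ((min_le_left _ _).trans (min_le_right _ _))
  have ha3 : L * ‖a‖ < 1 := by
    have h1 := ha.trans_le (min_le_right _ _)
    rw [lt_div_iff₀ (by positivity)] at h1
    nlinarith [norm_nonneg a]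
  obtain ⟨Q, hQ, hoff, hin⟩ := pert_extend he hC hCe (g := fun u p => p + (u * b p) • a)
    (contDiff_snd.add ((contDiff_fst.mul (hβ.comp contDiff_snd)).smul contDiff_const))
    (fun p => by simp) (fun u p hp => by simp [hβ0 p hp])
    (fun u hu => (pert_transl hβ hL ha3 hu).1) fun u hu => (pert_transl hβ hL ha3 hu).2
  simp only [one_mul] at hin
  refine ⟨Q, hQ, fun u x hx => ?_, fun x hx => ?_, fun x hx => hoff 1 x ?_, hin⟩
  · have h1 : x ∉ e '' C := by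
      rintro ⟨p, hp, rfl⟩
      exact (hCW hp).2 hx
    filter_upwards [(pert_closed hC hCe).isOpen_compl.mem_nhds h1] with z hz
    exact hoff u z hz
  · by_cases h1 : x ∈ e '' C
    · obtain ⟨p, hp, rfl⟩ := h1
      rw [(hin p (hCe hp)).2]
      refine (h₂ (mem_thickening_iff.2 ⟨p, ⟨hp, hx⟩, ?_⟩)).2
      rw [dist_eq_norm, add_sub_cancel_left, norm_smul, Real.norm_of_nonneg (hb p).1]
      exact (mul_le_of_le_one_left (norm_nonneg _) (hb p).2).trans_lt ha2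
    · rw [hoff 1 x h1]
      exact hTF x hx
  · rintro ⟨p, hp, rfl⟩
    exact hx (e.map_source (hCe hp))

/-! ### The two steps -/

/-- the track of the homotopies -/
def pert_track (h : κ → ℝ × ℝ → M) : Set M := ⋃ c, h c '' (Icc 0 1 ×ˢ Icc 0 1)

omit [T2Space M] [IsManifold (𝓡 3) ∞ M] in
theorem pert_track_compact {h : κ → ℝ × ℝ → M}
    (hh : ∀ c, ContMDiff 𝓘(ℝ, ℝ × ℝ) (𝓡 3) ∞ (h c)) : IsCompact (pert_track h) :=
  isCompact_iUnion fun c => (isCompact_Icc.prod isCompact_Icc).image (hh c).continuous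

omit [TopologicalSpace M] [T2Space M] [ChartedSpace E3 M] [IsManifold (𝓡 3) ∞ M] [Fintype κ] in
theorem pert_mem_track {h : κ → ℝ × ℝ → M} (hper : ∀ c s t, h c (s, t + 1) = h c (s, t)) (c : κ)
    {s : ℝ} (hs : s ∈ Icc (0 : ℝ) 1) (t : ℝ) : h c (s, t) ∈ pert_track h := by
  have hp : Function.Periodic (fun t => h c (s, t)) 1 := hper c s
  obtain ⟨y, hy, e⟩ := hp.exists_mem_Ico₀ one_pos t
  exact mem_iUnion.2 ⟨c, (s, y), ⟨hs, Ico_subset_Icc_self hy⟩, e.symm⟩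

omit [TopologicalSpace M] [T2Space M] [ChartedSpace E3 M] [IsManifold (𝓡 3) ∞ M] [Fintype κ] in
theorem pert_track_forall {h : κ → ℝ × ℝ → M} {P : M → Prop}
    (hP : ∀ c, ∀ s ∈ Icc (0 : ℝ) 1, ∀ t, P (h c (s, t))) : ∀ x ∈ pert_track h, P x := by
  intro x hx
  obtain ⟨c, ⟨s, t⟩, hst, rfl⟩ := mem_iUnion.1 hx
  exact hP c s hst.1 t

omit [T2Space M] [IsManifold (𝓡 3) ∞ M] in
theorem pert_diff {e : OpenPartialHomeomorph E3 M} (he : IsPChart e) {f : ℝ × ℝ → M}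
    (hf : ContMDiff 𝓘(ℝ, ℝ × ℝ) (𝓡 3) ∞ f) {x : ℝ × ℝ} (hx : f x ∈ e.target) :
    DifferentiableAt ℝ (fun y => e.symm (f y)) x :=
  (contMDiffAt_iff_contDiffAt.1 ((he.smooth_symm.contMDiffAt
    (e.open_target.mem_nhds hx)).comp x (hf x))).differentiableAt (by simp)

omit [IsManifold (𝓡 3) ∞ M] [Fintype ι] [Fintype Vx] in
open MeasureTheory in
theorem pert_vertex (H : HD M ι Vx) {h : κ → ℝ × ℝ → M}
    (hh : ∀ c, ContMDiff 𝓘(ℝ, ℝ × ℝ) (𝓡 3) ∞ (h c)) (hper : ∀ c s t, h c (s, t + 1) = h c (s, t))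
    {K F : Set M} (hK : IsCompact K) (hKg : Disjoint K H.gs) (hF : IsClosed F)
    (hhF : ∀ c, ∀ s ∈ Icc (0 : ℝ) 1, ∀ t, h c (s, t) ∉ F) (v : Vx) :
    ∃ Q : ℝ → M → M, AmbIso Q ∧ (∀ u, ∀ x ∈ K, Q u =ᶠ[𝓝 x] id) ∧
      (∀ c, ∀ s ∈ Icc (0 : ℝ) 1, ∀ t, Q 1 (h c (s, t)) ∉ F) ∧
      (∀ x, x ∉ (H.cv v).target → Q 1 x = x) ∧ ∀ c x, Q 1 (h c x) ≠ H.cv v 0 := by
  have hsrc : ∀ p, p ∈ (H.cv v).source := fun p => by rw [H.cv_source]; exact mem_univ p
  obtain ⟨β, δ, hδ, -, hβ1, hQ⟩ := pert_shift (H.cv_chart v) (isCompact_singleton (x := (0 : E3)))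
    (fun p _ => hsrc p) hK
    (fun p hp hx => disjoint_left.1 hKg hx (Or.inr ⟨v, by rw [mem_singleton_iff.1 hp]⟩))
    (pert_track_compact hh) hF (pert_track_forall hhF)
  have hnull : ∀ᵐ b : E3, ∀ c, b ∉ (fun y => (H.cv v).symm (h c y)) ''
      {y | h c y ∈ (H.cv v).target} := by
    refine ae_all_iff.2 fun c => measure_eq_zero_iff_ae_notMem.1 ?_
    refine pert_null_low volume pert_hor (fun y => ⟨!₂[y.1, y.2, 0], rfl⟩) (v := ez) ?_ ?_
      fun y hy => pert_diff (H.cv_chart v) (hh c) hy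
    · intro h0
      have := congrArg (fun p : E3 => p 2) h0
      simp [ez] at this
    · rw [pert_hor_apply]
      simp [ez]
  obtain ⟨b, hb, hb'⟩ := (Measure.dense_of_ae hnull).exists_mem_open isOpen_ball
    (nonempty_ball.2 hδ : (ball (0 : E3) δ).Nonempty)
  obtain ⟨Q, hA, h1, h2, h3, h4⟩ := hQ (-b) (by rwa [norm_neg, ← mem_ball_zero_iff])
  refine ⟨Q, hA, h1, fun c s hs t => h2 _ (pert_mem_track hper c hs t), h3, fun c x hx => ?_⟩
  have h5 := (h4 b (hsrc b)).2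
  rw [hβ1 0 rfl b hb', one_smul, add_neg_cancel, ← hx] at h5
  have h6 := hA.inj 1 ⟨zero_le_one, le_rfl⟩ h5
  refine hb c ⟨x, ?_, ?_⟩
  · rw [mem_ofPred_eq, ← h6]
    exact (H.cv v).map_source (hsrc b)
  · simp only [← h6]
    exact (H.cv v).left_inv (hsrc b)

omit [IsManifold (𝓡 3) ∞ M] in
/-- a compact set off the vertices meets the edge charts at bounded height -/
theorem pert_height (H : HD M ι Vx) {T : Set M} (hT : IsCompact T)
    (hv : ∀ x ∈ T, ∀ v, x ≠ H.cv v 0) :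
    ∃ R : ℝ, ∀ e, ∀ p ∈ Dom, H.ce e p ∈ T → |p 2| ≤ R := by
  have h1 : ∀ᶠ ρ in 𝓝[>] (0 : ℝ), ∀ v, ∀ p ∈ ball (0 : E3) ρ, H.cv v p ∉ T := by
    refine eventually_all.2 fun v => ?_
    have hc : ContinuousAt (H.cv v) 0 :=
      (H.cv v).continuousAt (by rw [H.cv_source]; exact mem_univ _)
    obtain ⟨r, hr, hb⟩ := Metric.mem_nhds_iff.1 (hc.preimage_mem_nhds
      (hT.isClosed.isOpen_compl.mem_nhds fun hx => hv _ hx v rfl))
    filter_upwards [Ioo_mem_nhdsGT hr] with ρ hρ p hp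
    exact hb (ball_subset_ball hρ.2.le hp)
  obtain ⟨ρ, hρ, hρ0⟩ := (h1.and self_mem_nhdsWithin).exists
  obtain ⟨C, hC, hfar⟩ := H.exists_far
  have hρ0' : 0 < ρ := hρ0
  refine ⟨C / ρ, fun e p hp hx => ?_⟩
  by_contra hlt
  rw [not_le, div_lt_iff₀ hρ0', mul_comm] at hlt
  have h2 : p 2 ≠ 0 := fun h0 => by
    rw [h0, abs_zero, mul_zero] at hlt
    exact lt_asymm hC hlt
  obtain ⟨v, q, hq, e'⟩ := mem_iUnion.1 (hfar e p hp ρ h2 hlt)
  exact hρ v q hq (e' ▸ hx)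

theorem pert_segment (R : ℝ) : IsCompact {p : E3 | p ∈ axis ∧ |p 2| ≤ R} := by
  have e : {p : E3 | p ∈ axis ∧ |p 2| ≤ R} = (fun z : ℝ => z • ez) '' Icc (-R) R := by
    ext p
    constructor
    · rintro ⟨⟨h0, h1⟩, h2⟩
      refine ⟨p 2, abs_le.1 h2, ?_⟩
      ext i
      fin_cases i <;> simp [ez, h0, h1]
    · rintro ⟨z, hz, rfl⟩
      refine ⟨⟨?_, ?_⟩, ?_⟩ <;> simp [ez, abs_le.2 hz]
  rw [e]
  exact isCompact_Icc.image (continuous_id.smul continuous_const)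

omit [IsManifold (𝓡 3) ∞ M] in
open MeasureTheory in
theorem pert_edge (H : HD M ι Vx) {h : κ → ℝ × ℝ → M}
    (hh : ∀ c, ContMDiff 𝓘(ℝ, ℝ × ℝ) (𝓡 3) ∞ (h c)) (hper : ∀ c s t, h c (s, t + 1) = h c (s, t))
    {K F : Set M} (hK : IsCompact K) (hKg : Disjoint K H.gs) (hF : IsClosed F)
    (hhF : ∀ c, ∀ s ∈ Icc (0 : ℝ) 1, ∀ t, h c (s, t) ∉ F)
    (hv : ∀ c, ∀ s ∈ Icc (0 : ℝ) 1, ∀ t v, h c (s, t) ≠ H.cv v 0) (e : ι) :
    ∃ Q : ℝ → M → M, AmbIso Q ∧ (∀ u, ∀ x ∈ K, Q u =ᶠ[𝓝 x] id) ∧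
      (∀ c, ∀ s ∈ Icc (0 : ℝ) 1, ∀ t, Q 1 (h c (s, t)) ∉ F) ∧
      (∀ x, x ∉ (H.ce e).target → Q 1 x = x) ∧
      (∀ c, ∀ q : ℚ, (q : ℝ) ∈ Icc (0 : ℝ) 1 → ∀ t, Q 1 (h c (q, t)) ∉ H.ce e '' axis) ∧
      ∀ c, ∀ s ∈ Icc (0 : ℝ) 1, ∀ t, Q 1 (h c (s, t)) ∈ H.ce e '' axis →
        deriv (fun u => (H.ce e).symm (Q 1 (h c (s, u)))) t ∉ axis := by
  obtain ⟨R, hR⟩ := pert_height H (pert_track_compact hh) (pert_track_forall hv)
  have hax : axis ⊆ (H.ce e).source := by rw [H.ce_source]; exact axis_subset_Dom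
  obtain ⟨β, δ, hδ, hβ, hβ1, hQ⟩ := pert_shift (H.ce_chart e) (pert_segment R)
    (fun p hp => hax hp.1) hK
    (fun p hp hx => disjoint_left.1 hKg hx (Or.inl (mem_iUnion.2 ⟨e, p, hp.1, rfl⟩)))
    (pert_track_compact hh) hF (pert_track_forall hhF)
  have hd : ∀ c x, h c x ∈ (H.ce e).target →
      DifferentiableAt ℝ (fun y => pert_hor ((H.ce e).symm (h c y))) x := fun c x hx =>
    pert_hor.differentiableAt.comp x (pert_diff (H.ce_chart e) (hh c) hx)
  have hn1 : ∀ᵐ b : ℝ × ℝ, ∀ c, b ∉ (fun y => pert_hor ((H.ce e).symm (h c y))) ''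
      {y | h c y ∈ (H.ce e).target ∧
        fderiv ℝ (fun y => pert_hor ((H.ce e).symm (h c y))) y (0, 1) = 0} := by
    refine ae_all_iff.2 fun c => measure_eq_zero_iff_ae_notMem.1 ?_
    exact pert_null volume (v := (0, 1)) (by simp) (fun y hy => hd c y hy.1) fun y hy => hy.2
  have hn2 : ∀ᵐ b : ℝ × ℝ, ∀ c, ∀ q : ℚ,
      b ∉ (fun t : ℝ => pert_hor ((H.ce e).symm (h c (q, t)))) ''
        {t | h c (q, t) ∈ (H.ce e).target} := by
    refine ae_all_iff.2 fun c => ae_all_iff.2 fun q => measure_eq_zero_iff_ae_notMem.1 ?_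
    exact pert_null_low volume (ContinuousLinearMap.snd ℝ ℝ ℝ) (fun y => ⟨(0, y), rfl⟩)
      (v := (1, 0)) (by simp) rfl fun t ht =>
        (hd c _ ht).comp t ((differentiableAt_const _).prodMk differentiableAt_id)
  have hU : IsOpen {b : ℝ × ℝ | ‖(!₂[-b.1, -b.2, 0] : E3)‖ < δ} :=
    isOpen_lt (by fun_prop) continuous_const
  have hU0 : (0 : ℝ × ℝ) ∈ {b : ℝ × ℝ | ‖(!₂[-b.1, -b.2, 0] : E3)‖ < δ} := by
    have : (!₂[-(0 : ℝ × ℝ).1, -(0 : ℝ × ℝ).2, 0] : E3) = 0 := by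
      ext i
      fin_cases i <;> simp
    rw [mem_ofPred_eq, this, norm_zero]
    exact hδ
  obtain ⟨b, ⟨hb1, hb2⟩, hb⟩ := (Measure.dense_of_ae (hn1.and hn2)).exists_mem_open hU ⟨0, hU0⟩
  obtain ⟨a, ha⟩ : ∃ a : E3, a = !₂[-b.1, -b.2, 0] := ⟨_, rfl⟩
  rw [mem_ofPred_eq, ← ha] at hb
  have ha2 : a 2 = 0 := by rw [ha]; rfl
  have hah : pert_hor a = -b := by rw [ha]; rfl
  obtain ⟨Q, hA, h1, h2, h3, h4⟩ := hQ a hb
  have key : ∀ x ∈ pert_track h, Q 1 x ∈ H.ce e '' axis → x ∈ (H.ce e).target ∧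
      pert_hor ((H.ce e).symm x) = b ∧
      ∀ᶠ y in 𝓝 x, (H.ce e).symm (Q 1 y) = (H.ce e).symm y + a := by
    rintro x hx ⟨q, hq, hqx⟩
    have hxt : x ∈ (H.ce e).target := by
      by_contra hn
      rw [h3 x hn] at hqx
      exact hn (hqx ▸ (H.ce e).map_source (hax hq))
    have hp := (H.ce e).map_target hxt
    have h5 := h4 _ hp
    rw [(H.ce e).right_inv hxt, ← hqx] at h5
    have h6 := (H.ce e).injOn (hax hq) h5.1 h5.2
    have h7 : |(H.ce e).symm x 2| ≤ R :=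
      hR e _ (H.ce_source e ▸ hp) (by rwa [(H.ce e).right_inv hxt])
    have hqA : q ∈ {p : E3 | p ∈ axis ∧ |p 2| ≤ R} := ⟨hq, by rw [h6]; simpa [ha2] using h7⟩
    have hpb : (H.ce e).symm x ∈ ball q δ := by
      rw [mem_ball, dist_comm, dist_eq_norm]
      conv_lhs => rw [h6]
      rw [add_sub_cancel_left, norm_smul, Real.norm_of_nonneg (hβ _).1]
      exact (mul_le_of_le_one_left (norm_nonneg _) (hβ _).2).trans_lt hb
    refine ⟨hxt, ?_, ?_⟩
    · have h8 := pert_mem_axis.1 hq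
      rw [h6, hβ1 q hqA _ hpb, one_smul, map_add, hah] at h8
      exact add_neg_eq_zero.1 h8
    · filter_upwards [(H.ce e).open_target.mem_nhds hxt,
        ((H.ce e).continuousAt_symm hxt).preimage_mem_nhds (isOpen_ball.mem_nhds hpb)]
        with y hy hy'
      have h8 := h4 _ ((H.ce e).map_target hy)
      rw [(H.ce e).right_inv hy, hβ1 q hqA _ hy', one_smul] at h8
      rw [h8.2, (H.ce e).left_inv h8.1]
  refine ⟨Q, hA, h1, fun c s hs t => h2 _ (pert_mem_track hper c hs t), h3,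
    fun c q hq t hx => ?_, fun c s hs t hx hder => ?_⟩
  · obtain ⟨k1, k2, -⟩ := key _ (pert_mem_track hper c hq t) hx
    exact hb2 c q ⟨t, k1, k2⟩
  · obtain ⟨k1, k2, k3⟩ := key _ (pert_mem_track hper c hs t) hx
    refine hb1 c ⟨(s, t), ⟨k1, ?_⟩, k2⟩
    have hl : HasDerivAt (fun u : ℝ => (s, u)) ((0 : ℝ), (1 : ℝ)) t :=
      (hasDerivAt_const t s).prodMk (hasDerivAt_id t)
    have hc : ContinuousAt (fun u : ℝ => h c (s, u)) t :=
      ((hh c).continuous.comp (continuous_const.prodMk continuous_id)).continuousAt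
    have d1 := (pert_diff (H.ce_chart e) (hh c) k1).hasFDerivAt
    have d2 := ((d1.comp_hasDerivAt t hl).add_const a).congr_of_eventuallyEq
      (f₁ := fun u => (H.ce e).symm (Q 1 (h c (s, u)))) (hc.eventually k3)
    rw [d2.deriv, pert_mem_axis] at hder
    have d3 : HasFDerivAt (fun y => pert_hor ((H.ce e).symm (h c y))) _ (s, t) :=
      pert_hor.hasFDerivAt.comp (s, t) d1
    rw [d3.fderiv]
    exact hder

omit [T2Space M] [IsManifold (𝓡 3) ∞ M] in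
theorem pert_id : AmbIso fun (_ : ℝ) (x : M) => x :=
  ⟨contMDiff_snd, fun _ => rfl, fun _ _ _ _ h => h, fun _ _ x => by
    have := jac_id x
    rw [show jac (fun x : M => x) x = _ from this]
    simp [ContinuousLinearMap.det]⟩

omit [T2Space M] [IsManifold (𝓡 3) ∞ M] [ChartedSpace E3 M] in
theorem pert_near {K : Set M} {Q Q' : ℝ → M → M} (h : ∀ u, ∀ x ∈ K, Q u =ᶠ[𝓝 x] id)
    (h' : ∀ u, ∀ x ∈ K, Q' u =ᶠ[𝓝 x] id) : ∀ u, ∀ x ∈ K, Q u ∘ Q' u =ᶠ[𝓝 x] id := by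
  intro u x hx
  filter_upwards [h u x hx, h' u x hx] with y hy hy'
  rw [Function.comp, hy']
  exact hy

/-- A finite family of smooth periodic homotopies can be put in general position with respect to
the graph by an ambient isotopy that is the identity near a given compact set. -/
theorem HD.pert (H : HD M ι Vx) {h : κ → ℝ × ℝ → M}
    (hh : ∀ c, ContMDiff 𝓘(ℝ, ℝ × ℝ) (𝓡 3) ∞ (h c)) (hper : ∀ c s t, h c (s, t + 1) = h c (s, t))
    {K F : Set M} (hK : IsCompact K) (hKg : Disjoint K H.gs) (hF : IsClosed F)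
    (hhF : ∀ c, ∀ s ∈ Icc (0 : ℝ) 1, ∀ t, h c (s, t) ∉ F) :
    ∃ Q : ℝ → M → M, AmbIso Q ∧ (∀ u, ∀ x ∈ K, Q u =ᶠ[𝓝 x] id) ∧
      (∀ c, ∀ s ∈ Icc (0 : ℝ) 1, ∀ t, Q 1 (h c (s, t)) ∉ F) ∧
      (∀ c, ∀ s ∈ Icc (0 : ℝ) 1, ∀ t v, Q 1 (h c (s, t)) ≠ H.cv v 0) ∧
      (∀ c, ∀ q : ℚ, (q : ℝ) ∈ Icc (0 : ℝ) 1 → ∀ t, Q 1 (h c (q, t)) ∉ H.gs) ∧
      ∀ c, ∀ s ∈ Icc (0 : ℝ) 1, ∀ t e, Q 1 (h c (s, t)) ∈ H.ce e '' axis →
        deriv (fun u => (H.ce e).symm (Q 1 (h c (s, u)))) t ∉ axis := by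
  have I1 : (1 : ℝ) ∈ Icc (0 : ℝ) 1 := ⟨zero_le_one, le_rfl⟩
  have hsm : ∀ {Q : ℝ → M → M}, AmbIso Q → ∀ c,
      ContMDiff 𝓘(ℝ, ℝ × ℝ) (𝓡 3) ∞ fun x => Q 1 (h c x) :=
    fun hQ c => (hQ.contMDiff 1).comp (hh c)
  have hpr : ∀ (Q : ℝ → M → M) c s t, Q 1 (h c (s, t + 1)) = Q 1 (h c (s, t)) :=
    fun Q c s t => by rw [hper]
  obtain ⟨Q₁, hB₁, hV₁⟩ := pert_induct
    (fun Q : ℝ → M → M => AmbIso Q ∧ (∀ u, ∀ x ∈ K, Q u =ᶠ[𝓝 x] id) ∧
      ∀ c, ∀ s ∈ Icc (0 : ℝ) 1, ∀ t, Q 1 (h c (s, t)) ∉ F)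
    (fun (v : Vx) Q => ∀ c, ∀ s ∈ Icc (0 : ℝ) 1, ∀ t, Q 1 (h c (s, t)) ≠ H.cv v 0)
    ⟨pert_id, fun _ _ _ => EventuallyEq.rfl, hhF⟩ (by
      rintro Q₀ ⟨hA₀, hK₀, hF₀⟩ v
      obtain ⟨Q, hA, h1, h2, h3, h4⟩ := pert_vertex H (h := fun c x => Q₀ 1 (h c x)) (hsm hA₀)
        (hpr Q₀) hK hKg hF hF₀ v
      refine ⟨fun u => Q u ∘ Q₀ u, ⟨hA.comp hA₀, pert_near h1 hK₀, h2⟩,
        fun c s _ t => h4 c (s, t), fun w hw hG c s hs t hx => hG c s hs t ?_⟩
      refine hA.inj 1 I1 (hx.trans (h3 _ fun h5 => ?_).symm)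
      refine disjoint_left.1 (H.cv_disj hw) ((H.cv w).map_source ?_) h5
      rw [H.cv_source]
      exact mem_univ _)
  obtain ⟨Q₂, ⟨⟨hA₂, hK₂, hF₂⟩, hV₂⟩, hE₂⟩ := pert_induct
    (fun Q : ℝ → M → M => (AmbIso Q ∧ (∀ u, ∀ x ∈ K, Q u =ᶠ[𝓝 x] id) ∧
      ∀ c, ∀ s ∈ Icc (0 : ℝ) 1, ∀ t, Q 1 (h c (s, t)) ∉ F) ∧
      ∀ c, ∀ s ∈ Icc (0 : ℝ) 1, ∀ t v, Q 1 (h c (s, t)) ≠ H.cv v 0)
    (fun (e : ι) Q =>
      (∀ c, ∀ q : ℚ, (q : ℝ) ∈ Icc (0 : ℝ) 1 → ∀ t, Q 1 (h c (q, t)) ∉ H.ce e '' axis) ∧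
      ∀ c, ∀ s ∈ Icc (0 : ℝ) 1, ∀ t, Q 1 (h c (s, t)) ∈ H.ce e '' axis →
        deriv (fun u => (H.ce e).symm (Q 1 (h c (s, u)))) t ∉ axis)
    ⟨hB₁, fun c s hs t v => hV₁ v c s hs t⟩ (by
      rintro Q₀ ⟨⟨hA₀, hK₀, hF₀⟩, hV₀⟩ e
      obtain ⟨Q, hA, h1, h2, h3, h4⟩ := pert_edge H (h := fun c x => Q₀ 1 (h c x)) (hsm hA₀)
        (hpr Q₀) hK hKg hF hF₀ hV₀ e
      refine ⟨fun u => Q u ∘ Q₀ u, ⟨⟨hA.comp hA₀, pert_near h1 hK₀, h2⟩,
        fun c s hs t v hx => hV₀ c s hs t v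
          (hA.inj 1 I1 (hx.trans (h3 _ (H.cv_zero v e)).symm))⟩, h4, fun e' he' hG => ?_⟩
      have hfix : ∀ y ∈ (H.ce e').target, Q 1 y = y := fun y hy =>
        h3 y (disjoint_left.1 (H.ce_disj he') hy)
      have htgt : H.ce e' '' axis ⊆ (H.ce e').target := by
        rintro _ ⟨p, hp, rfl⟩
        exact (H.ce e').map_source (by rw [H.ce_source]; exact axis_subset_Dom hp)
      have hback : ∀ x, Q 1 x ∈ H.ce e' '' axis → x ∈ H.ce e' '' axis := fun x hx => by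
        rwa [hA.inj 1 I1 (hfix _ (htgt hx))] at hx
      refine ⟨fun c q hq t hx => hG.1 c q hq t (hback _ hx), fun c s hs t hx => ?_⟩
      have hx' := hback _ hx
      have hc : ContinuousAt (fun u : ℝ => Q₀ 1 (h c (s, u))) t :=
        ((hsm hA₀ c).continuous.comp (continuous_const.prodMk continuous_id)).continuousAt
      have e1 : (fun u => (H.ce e').symm ((Q 1 ∘ Q₀ 1) (h c (s, u)))) =ᶠ[𝓝 t]
          fun u => (H.ce e').symm (Q₀ 1 (h c (s, u))) := by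
        filter_upwards [hc.preimage_mem_nhds ((H.ce e').open_target.mem_nhds (htgt hx'))]
          with u hu
        rw [Function.comp, hfix _ hu]
      rw [e1.deriv_eq]
      exact hG.2 c s hs t hx')
  refine ⟨Q₂, hA₂, hK₂, hF₂, hV₂, fun c q hq t hx => ?_, fun c s hs t e => (hE₂ e).2 c s hs t⟩
  rcases hx with hx | ⟨v, hx⟩
  · obtain ⟨e, he⟩ := mem_iUnion.1 hx
    exact (hE₂ e).1 c q hq t he
  · exact hV₂ c q hq t v hx.symm

/-- a radial map with a positive monotone factor -/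
theorem pert_radial {m : ℝ → ℝ} (hm : Differentiable ℝ m) (hmono : Monotone m)
    (hpos : ∀ r, 0 < m r) : Function.Injective (fun p : E3 => m (‖p‖ ^ 2) • p) ∧
      ∀ p, 0 < (fderiv ℝ (fun p : E3 => m (‖p‖ ^ 2) • p) p).det := by
  refine ⟨fun p q hpq => ?_, fun p => ?_⟩
  · have h0 : m (‖p‖ ^ 2) • p = m (‖q‖ ^ 2) • q := hpq
    have h1 := congrArg norm h0
    rw [norm_smul, norm_smul, Real.norm_of_nonneg (hpos _).le,
      Real.norm_of_nonneg (hpos _).le] at h1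
    have hlt : ∀ a b : ℝ, 0 ≤ a → a < b → m (a ^ 2) * a < m (b ^ 2) * b := fun a b ha hab =>
      mul_lt_mul' (hmono (pow_le_pow_left₀ ha hab.le 2)) hab ha (hpos _)
    have h2 : ‖p‖ = ‖q‖ := by
      rcases lt_trichotomy ‖p‖ ‖q‖ with h | h | h
      · exact absurd h1 (hlt _ _ (norm_nonneg _) h).ne
      · exact h
      · exact absurd h1 (hlt _ _ (norm_nonneg _) h).ne'
    rw [h2] at h0
    exact smul_right_injective _ (hpos _).ne' h0
  · have h1 := ((hm (‖p‖ ^ 2)).hasDerivAt.comp_hasFDerivAt p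
      (hasStrictFDerivAt_norm_sq p).hasFDerivAt).smul (hasFDerivAt_id p)
    have h2 : HasFDerivAt (fun p : E3 => m (‖p‖ ^ 2) • p) _ p := h1
    rw [h2.fderiv]
    refine pert_det _ _ (hpos _) ?_
    have h3 : 0 ≤ deriv m (‖p‖ ^ 2) := hmono.deriv_nonneg
    have h4 := hpos (‖p‖ ^ 2)
    simp only [Function.comp, smul_apply, innerSL_apply_apply,
      real_inner_self_eq_norm_sq, smul_eq_mul, nsmul_eq_mul, id]
    positivity

/-- radial compression inside an embedded copy of `ℝ³` -/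
theorem PosEmb.exists_compress {φ : E3 → M} (hφ : PosEmb φ) {ε : ℝ} (hε : 0 < ε) (hε₁ : ε ≤ 1) :
    ∃ Q : ℝ → M → M, AmbIso Q ∧ ∀ p ∈ ball (0 : E3) 3, Q 1 (φ p) = φ (ε • p) := by
  obtain ⟨e, he, hs, rfl⟩ := hφ.mPosOn.exists_chart isOpen_univ
  have hm : ContDiff ℝ ∞ fun q : ℝ × ℝ =>
      1 - q.1 * (1 - ε) * (1 - Real.smoothTransition (q.2 - 9)) :=
    contDiff_const.sub ((contDiff_fst.mul contDiff_const).mul (contDiff_const.sub
      (Real.smoothTransition.contDiff.comp (contDiff_snd.sub contDiff_const))))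
  have hr : ∀ u ∈ Icc (0 : ℝ) 1, _ := fun u hu => pert_radial
    (m := fun r => 1 - u * (1 - ε) * (1 - Real.smoothTransition (r - 9)))
    ((hm.comp (contDiff_const.prodMk contDiff_id)).differentiable (by simp))
    (fun r r' hrr => by
      have h1 := Real.smoothTransition.monotone (sub_le_sub_right hrr 9)
      have h2 := mul_le_mul_of_nonneg_left h1 (mul_nonneg hu.1 (sub_nonneg.2 hε₁))
      simp only
      linarith)
    (fun r => by
      have h1 := Real.smoothTransition.nonneg (r - 9)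
      have h2 := mul_nonneg (mul_nonneg hu.1 (sub_nonneg.2 hε₁)) h1
      have h3 := mul_le_mul_of_nonneg_right hu.2 (sub_nonneg.2 hε₁)
      linarith)
  obtain ⟨Q, hQ, -, hin⟩ := pert_extend he (isCompact_closedBall (0 : E3) 4)
    (by rw [hs]; exact subset_univ _)
    (g := fun u p => (1 - u * (1 - ε) * (1 - Real.smoothTransition (‖p‖ ^ 2 - 9))) • p)
    ((hm.comp (contDiff_fst.prodMk ((contDiff_norm_sq ℝ).comp contDiff_snd))).smul contDiff_snd)
    (fun p => by simp) (fun u p hp => by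
      rw [mem_closedBall_zero_iff, not_le] at hp
      rw [Real.smoothTransition.one_of_one_le (by nlinarith)]
      simp)
    (fun u hu => (hr u hu).1) fun u hu => (hr u hu).2
  refine ⟨Q, hQ, fun p hp => ?_⟩
  rw [(hin p (by rw [hs]; exact mem_univ _)).2, Real.smoothTransition.zero_of_nonpos (by
    have := mem_ball_zero_iff.1 hp
    nlinarith [norm_nonneg p])]
  simp

end Pool.Agent.P.MP_ac4909_gt.B
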