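import Pool.Agent.P.MP_ac4909_gt.B.GB_Amb
import Pool.Agent.P.MP_ac4909_gt.B.MPert

/-! Layer G, blocks: compression of an embedded cube. -/

namespace Pool.Agent.P.MP_ac4909_gt.B

open scoped ContDiff
open Set Filter Topology

variable {ψ : E3 → E3}

/-- a smooth gauge whose sublevel sets are close to cubes -/
noncomputable def gcmp_N (p : E3) : ℝ := ∑ i, p i ^ 12

theorem gcmp_smooth : ContDiff ℝ ∞ gcmp_N := by
  unfold gcmp_N
  fun_prop

theorem gcmp_le (p : E3) (i : Fin 3) : p i ^ 12 ≤ gcmp_N p :=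
  Finset.single_le_sum (f := fun i => p i ^ 12) (fun _ _ => by positivity) (Finset.mem_univ i)

theorem gcmp_nonneg (p : E3) : 0 ≤ gcmp_N p := Finset.sum_nonneg fun _ _ => by positivity

theorem gcmp_smul (c : ℝ) (p : E3) : gcmp_N (c • p) = c ^ 12 * gcmp_N p := by
  simp only [gcmp_N, PiLp.smul_apply, smul_eq_mul, mul_pow, Finset.mul_sum]

theorem gcmp_euler (p : E3) : fderiv ℝ gcmp_N p p = 12 * gcmp_N p := by
  have h1 : HasDerivAt (fun c : ℝ => c • p) p 1 := by
    simpa using (hasDerivAt_id (1 : ℝ)).smul_const p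
  have h2 : HasFDerivAt gcmp_N (fderiv ℝ gcmp_N p) ((1 : ℝ) • p) := by
    rw [one_smul]
    exact (gcmp_smooth.differentiable (by simp) p).hasFDerivAt
  have h3 := h2.comp_hasDerivAt (1 : ℝ) h1
  have h4 : HasDerivAt (gcmp_N ∘ fun c : ℝ => c • p) (12 * gcmp_N p) 1 := by
    have h5 : (gcmp_N ∘ fun c : ℝ => c • p) = fun c : ℝ => c ^ 12 * gcmp_N p :=
      funext fun c => gcmp_smul c p
    rw [h5]
    simpa using (hasDerivAt_pow 12 (1 : ℝ)).mul_const (gcmp_N p)
  exact h3.unique h4

theorem gcmp_radial {m : ℝ → ℝ} (hm : Differentiable ℝ m) (hmono : Monotone m)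
    (hpos : ∀ r, 0 < m r) : Function.Injective (fun p : E3 => m (gcmp_N p) • p) ∧
      ∀ p, 0 < (fderiv ℝ (fun p : E3 => m (gcmp_N p) • p) p).det := by
  refine ⟨fun p q hpq => ?_, fun p => ?_⟩
  · have h0 : m (gcmp_N p) • p = m (gcmp_N q) • q := hpq
    have h1 := congrArg gcmp_N h0
    rw [gcmp_smul, gcmp_smul] at h1
    have hlt : ∀ a b : ℝ, 0 ≤ a → a < b → m a ^ 12 * a < m b ^ 12 * b := fun a b ha hab =>
      mul_lt_mul' (pow_le_pow_left₀ (hpos _).le (hmono hab.le) 12) hab ha (pow_pos (hpos _) 12)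
    have h2 : gcmp_N p = gcmp_N q := by
      rcases lt_trichotomy (gcmp_N p) (gcmp_N q) with h | h | h
      · exact absurd h1 (hlt _ _ (gcmp_nonneg _) h).ne
      · exact h
      · exact absurd h1 (hlt _ _ (gcmp_nonneg _) h).ne'
    rw [h2] at h0
    exact smul_right_injective _ (hpos _).ne' h0
  · have h1 := ((hm (gcmp_N p)).hasDerivAt.comp_hasFDerivAt p
      (gcmp_smooth.differentiable (by simp) p).hasFDerivAt).smul (hasFDerivAt_id p)
    have h2 : HasFDerivAt (fun p : E3 => m (gcmp_N p) • p) _ p := h1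
    rw [h2.fderiv]
    refine pert_det _ _ (hpos _) ?_
    have h3 : 0 ≤ deriv m (gcmp_N p) := hmono.deriv_nonneg
    have h4 := hpos (gcmp_N p)
    have h5 := gcmp_nonneg p
    simp only [Function.comp, smul_apply, smul_eq_mul, id, gcmp_euler]
    positivity

theorem gcmp_out {p : E3} (hp : p ∉ closure (Qb (281 / 250))) : 4 ≤ gcmp_N p := by
  by_contra h
  refine hp (subset_closure fun i => ?_)
  by_contra h1
  have h2 := pow_le_pow_left₀ (by norm_num) (not_lt.1 h1) 12
  rw [← abs_pow, abs_of_nonneg (by positivity)] at h2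
  have h3 := gcmp_le p i
  norm_num at h2
  linarith

theorem gcmp_in {p : E3} (hp : p ∈ Qb 1) : gcmp_N p ≤ 3 := by
  have h : ∀ i, p i ^ 12 ≤ 1 := fun i => by
    have h2 := pow_le_pow_left₀ (abs_nonneg _) (hp i).le 12
    rwa [← abs_pow, abs_of_nonneg (by positivity), one_pow] at h2
  rw [gcmp_N, Fin.sum_univ_three]
  linarith [h 0, h 1, h 2]

theorem gcmp_amb {Q : ℝ → E3 → E3} (hQ : AmbIso Q) : GAmb (Q 1) := by
  refine gamb_of_iso ?_ hQ.zero hQ.inj fun s hs p => ?_
  · have h := hQ.smooth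
    rw [← modelWithCornersSelf_prod, chartedSpaceSelf_prod] at h
    exact h.contDiff
  · rw [← jac_eq_fderiv]
    exact (hQ.pos s hs p).ne'

/-- the image of the cube is compressed towards its centre -/
theorem exists_compress (hψ : PosOn ψ (Qb (9 / 8))) {ε : ℝ} (h₀ : 0 < ε) (h₁ : ε ≤ 1) :
    ∃ h, GAmb h ∧ ∀ p ∈ Qb 1, h (ψ p) = ψ (ε • p) := by
  obtain ⟨e, he, hs, rfl⟩ := hψ.mPosOn.exists_chart (isOpen_Qb _)
  have hm : ContDiff ℝ ∞ fun q : ℝ × ℝ =>
      1 - q.1 * (1 - ε) * (1 - Real.smoothTransition (q.2 - 3)) :=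
    contDiff_const.sub ((contDiff_fst.mul contDiff_const).mul (contDiff_const.sub
      (Real.smoothTransition.contDiff.comp (contDiff_snd.sub contDiff_const))))
  have hr : ∀ u ∈ Icc (0 : ℝ) 1, _ := fun u hu => gcmp_radial
    (m := fun r => 1 - u * (1 - ε) * (1 - Real.smoothTransition (r - 3)))
    ((hm.comp (contDiff_const.prodMk contDiff_id)).differentiable (by simp))
    (fun r r' hrr => by
      have h1 := Real.smoothTransition.monotone (sub_le_sub_right hrr 3)
      have h2 := mul_le_mul_of_nonneg_left h1 (mul_nonneg hu.1 (sub_nonneg.2 h₁))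
      simp only
      linarith)
    (fun r => by
      have h1 := Real.smoothTransition.nonneg (r - 3)
      have h2 := mul_nonneg (mul_nonneg hu.1 (sub_nonneg.2 h₁)) h1
      have h3 := mul_le_mul_of_nonneg_right hu.2 (sub_nonneg.2 h₁)
      linarith)
  obtain ⟨Q, hQ, -, hin⟩ := pert_extend he (isCompact_closure_Qb (281 / 250))
    (by rw [hs]; exact closure_Qb_subset (by norm_num))
    (g := fun u p => (1 - u * (1 - ε) * (1 - Real.smoothTransition (gcmp_N p - 3))) • p)
    ((hm.comp (contDiff_fst.prodMk (gcmp_smooth.comp contDiff_snd))).smul contDiff_snd)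
    (fun p => by simp) (fun u p hp => by
      rw [Real.smoothTransition.one_of_one_le (by linarith [gcmp_out hp])]
      simp)
    (fun u hu => (hr u hu).1) fun u hu => (hr u hu).2
  refine ⟨Q 1, gcmp_amb hQ, fun p hp => ?_⟩
  rw [(hin p (by rw [hs]; exact fun i => (hp i).trans (by norm_num))).2,
    Real.smoothTransition.zero_of_nonpos (by linarith [gcmp_in hp])]
  simp

end Pool.Agent.P.MP_ac4909_gt.B
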