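import Pool.Agent.P.MP_ac4909_gt.B.GC_Arc

/-! Layer G, core: certificates and realisations. -/

namespace Pool.Agent.P.MP_ac4909_gt.B

open scoped ContDiff
open Set Filter Topology

variable {κ α N : Type} {fa : Bool} {γ : κ → ℝ → E3} {C C' : Conf N} {R R' : Rz N} {a b : N}

theorem Grid.Leg.mono {G : Grid N α} {lt lz lt' lz' : N → N → Prop} (h : G.Leg fa lt lz a b)
    (h₁ : ∀ s s', lt (G.nb a s) (G.nb b s') → lt' (G.nb a s) (G.nb b s'))
    (h₂ : ∀ s s', lt (G.nb a s) (G.nb a s') → lt' (G.nb a s) (G.nb a s'))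
    (h₃ : ∀ s s', lt (G.nb b s) (G.nb b s') → lt' (G.nb b s) (G.nb b s'))
    (hz : ∀ x y, lz x y → lz' x y) : G.Leg fa lt' lz' a b := by
  rcases h with h | ⟨k1, k2, k3, k4⟩ | ⟨s, t, k1, k2, k3⟩ | ⟨k0, s, t, k1, k2, k3, k4, k5⟩
  · exact Or.inl fun s t => h₁ _ _ (h s t)
  · exact Or.inr (Or.inl ⟨hz _ _ k1, fun s => hz _ _ (k2 s), fun s => hz _ _ (k3 s),
      fun s t => hz _ _ (k4 s t)⟩)
  · exact Or.inr (Or.inr (Or.inl ⟨s, t, k1, h₂ _ _ k2, h₃ _ _ k3⟩))
  · exact Or.inr (Or.inr (Or.inr ⟨k0, s, t, k1, hz _ _ k2, hz _ _ k3, hz _ _ k4, hz _ _ k5⟩))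
theorem Grid.Cpt.mono {G : Grid N α} (hc : ∀ a s, G.col (G.nb a s) = !G.col a)
    {lx ly lz sm lx' ly' lz' sm' : N → N → Prop} (h : G.Cpt fa lx ly lz sm)
    (hx : ∀ a b, G.col a = true → G.col b = true → lx a b → lx' a b)
    (hy : ∀ a b, G.col a = false → G.col b = false → ly a b → ly' a b)
    (hz : ∀ a b, lz a b → lz' a b) (hs : ∀ a b, sm a b → sm' a b) :
    G.Cpt fa lx' ly' lz' sm' := by
  have ht : ∀ a s, G.col a = true → G.col (G.nb a s) = false := fun a s h => by rw [hc, h]; rfl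
  have hf : ∀ a s, G.col a = false → G.col (G.nb a s) = true := fun a s h => by rw [hc, h]; rfl
  have k1 : ∀ a b, G.col a = true → G.col b = true → G.Leg fa ly lz a b → G.Leg fa ly' lz' a b :=
    fun a b ha hb h => h.mono (fun s s' => hy _ _ (ht a s ha) (ht b s' hb))
      (fun s s' => hy _ _ (ht a s ha) (ht a s' ha)) (fun s s' => hy _ _ (ht b s hb) (ht b s' hb)) hz
  have k2 : ∀ a b, G.col a = false → G.col b = false → G.Leg fa lx lz a b → G.Leg fa lx' lz' a b :=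
    fun a b ha hb h => h.mono (fun s s' => hx _ _ (hf a s ha) (hf b s' hb))
      (fun s s' => hx _ _ (hf a s ha) (hf a s' ha)) (fun s s' => hx _ _ (hf b s hb) (hf b s' hb)) hz
  refine ⟨fun a b ha hb hab => ?_, fun a b ha hb hab => ?_, fun v e hv he hve => ?_⟩
  · exact (h.cols a b ha hb hab).imp (hx a b ha hb)
      (Or.imp (hx b a hb ha) (Or.imp (k1 a b ha hb) (k1 b a hb ha)))
  · exact (h.rows a b ha hb hab).imp (hy a b ha hb)
      (Or.imp (hy b a hb ha) (Or.imp (k2 a b ha hb) (k2 b a hb ha)))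
  · exact (h.mixed v e hv he hve).imp (hs v e)
      (Or.imp (fun k s => hx _ _ hv (hf e s he) (k s))
        (Or.imp (fun k s => hx _ _ (hf e s he) hv (k s))
          (Or.imp (fun k s => hy _ _ he (ht v s hv) (k s))
            fun k s => hy _ _ (ht v s hv) he (k s))))

/-- monotonicity of certificates without colour conditions -/
theorem GCCert_mono {G : Grid N α} {lx ly lz sm lx' ly' lz' sm' : N → N → Prop}
    (h : G.Cpt fa lx ly lz sm) (hx : ∀ a b, lx a b → lx' a b) (hy : ∀ a b, ly a b → ly' a b)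
    (hz : ∀ a b, lz a b → lz' a b) (hs : ∀ a b, sm a b → sm' a b) :
    G.Cpt fa lx' ly' lz' sm' :=
  ⟨fun a b ha hb hab => (h.cols a b ha hb hab).imp (hx a b)
      (Or.imp (hx b a) (Or.imp (WC.leg_mono hy hz) (WC.leg_mono hy hz))),
    fun a b ha hb hab => (h.rows a b ha hb hab).imp (hy a b)
      (Or.imp (hy b a) (Or.imp (WC.leg_mono hx hz) (WC.leg_mono hx hz))),
    fun v e hv he hve => (h.mixed v e hv he hve).imp (hs v e)
      (Or.imp (fun k s => hx _ _ (k s)) (Or.imp (fun k s => hx _ _ (k s))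
        (Or.imp (fun k s => hy _ _ (k s)) fun k s => hy _ _ (k s))))⟩

theorem Grid.Cpt.weaken {G : Grid N α} {lx ly lz sm : N → N → Prop} (h : G.Cpt true lx ly lz sm) :
    G.Cpt fa lx ly lz sm := by
  have k : ∀ (lt : N → N → Prop) (a b : N), G.Leg true lt lz a b → G.Leg fa lt lz a b :=
    fun lt a b h => h.imp id (Or.imp id (Or.imp id fun k => absurd k.1 (by decide)))
  exact ⟨fun a b ha hb hab => (h.cols a b ha hb hab).imp id (Or.imp id (Or.imp (k _ _ _) (k _ _ _))),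
    fun a b ha hb hab => (h.rows a b ha hb hab).imp id (Or.imp id (Or.imp (k _ _ _) (k _ _ _))),
    h.mixed⟩

theorem GCCert_sort [Fintype N] (p : N → Prop) (f : N → ℝ) :
    ∃ l : List N, l.Nodup ∧ (∀ a, a ∈ l ↔ p a) ∧ l.Pairwise fun a b => f a ≤ f b := by
  classical
  have hp := List.mergeSort_perm (Finset.univ.filter p).toList fun a b => decide (f a ≤ f b)
  refine ⟨_, hp.nodup_iff.2 (Finset.nodup_toList _), fun a => by rw [hp.mem_iff]; simp, ?_⟩
  refine (List.pairwise_mergeSort (le := fun a b => decide (f a ≤ f b)) ?_ ?_ _).imp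
    fun h => of_decide_eq_true h
  · intro a b c h1 h2
    exact decide_eq_true ((of_decide_eq_true h1).trans (of_decide_eq_true h2))
  · intro a b
    simpa using le_total (f a) (f b)

theorem exists_canon' [Fintype N] (C : Conf N) : ∃ R, C.Canon R := by
  obtain ⟨X, h1, h2, h3⟩ := GCCert_sort (fun a => C.col a = true) fun a => C.pt a 0
  obtain ⟨Y, k1, k2, k3⟩ := GCCert_sort (fun a => C.col a = false) fun a => C.pt a 1
  exact ⟨⟨X, Y, fun a => C.pt a 2⟩, ⟨h1, k1, h2, k2⟩, fun _ => rfl, h3, k3⟩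

namespace Conf

theorem Valid.weaken (h : C.Valid true) : C.Valid fa :=   ⟨h.col_nb, h.nb_ne, h.adj_symm, h.arc_symm, h.isArc, h.sep, fun a =>
    (h.mono a).imp fun _ k => k.imp fun _ k => ⟨fun _ => k.1 rfl, k.2⟩⟩
theorem Valid.joint (h : C.Valid fa) : C.Joint fa C :=   ⟨rfl, rfl, fun a b hab => (h.sep a b hab).imp fun _ k => k.imp (fun k => ⟨k, k⟩) fun k => ⟨k, k⟩,
    fun a => (h.mono a).imp fun _ k => k.imp fun _ k => ⟨k.1, k.2, k.2⟩⟩
/-- the certificate does not depend on the labels -/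
theorem cpt_iff {β : Type} (dl : N → N → α) (dl' : N → N → β) {lx ly lz sm : N → N → Prop} :
    (C.grid dl).Cpt fa lx ly lz sm ↔ (C.grid dl').Cpt fa lx ly lz sm :=   ⟨fun h => ⟨h.cols, h.rows, h.mixed⟩, fun h => ⟨h.cols, h.rows, h.mixed⟩⟩

/-- `x` is a marked point of the star of `a` -/
def GCCert_In (C : Conf N) (a x : N) : Prop := x = a ∨ ∃ s, x = C.nb a s

theorem GCCert_mem (hC : C.Valid fa) {x : N} (h : GCCert_In C a x) : C.pt x ∈ C.star a := by
  rcases h with rfl | ⟨s, rfl⟩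
  · exact hC.pt_mem_star _
  · exact hC.nb_mem_star _ _

theorem GCCert_chain (hC : C.Valid fa) {k : Fin 3} {m : N} {s t t' : Bool} (h : C.Mono k m s)
    (ht : C.nb (C.nb m s) t = m) (ht' : C.nb (C.nb m (!s)) t' = m) :
    C.pt (C.nb m s) k < C.pt (C.nb m (!s)) k ∧ C.pt (C.nb m s) k < C.pt m k ∧
      C.pt (C.nb (C.nb m s) (!t)) k < C.pt m k ∧ C.pt m k < C.pt (C.nb m (!s)) k ∧
      C.pt m k < C.pt (C.nb (C.nb m (!s)) (!t')) k :=
  ⟨h.lo₁.trans h.hi₁, h.lo₁,
    (h.lo₂ _ fun e => Bool.not_ne_self t (hC.nb_inj (e.trans ht.symm))).trans h.lo₁, h.hi₁,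
    h.hi₁.trans (h.hi₂ _ fun e => Bool.not_ne_self t' (hC.nb_inj (e.trans ht'.symm)))⟩

/-- a certificate from separation of far stars and monotone windows -/
theorem GCCert_cpt (hC : C.Valid fa) (dl : N → N → α) {P : Fin 3 → N → N → Prop}
    {sm : N → N → Prop}
    (hfar : ∀ a b, C.Far a b → ∃ k, (∀ x y, GCCert_In C a x → GCCert_In C b y → P k x y) ∨
      ∀ x y, GCCert_In C b x → GCCert_In C a y → P k x y)
    (hmono : ∀ m, ∃ k s, (fa = true → k ≠ 2) ∧ ∀ t t', C.nb (C.nb m s) t = m →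
      C.nb (C.nb m (!s)) t' = m → P k (C.nb m s) (C.nb m (!s)) ∧ P k (C.nb m s) m ∧
      P k (C.nb (C.nb m s) (!t)) m ∧ P k m (C.nb m (!s)) ∧ P k m (C.nb (C.nb m (!s)) (!t')))
    (hsm : ∀ v e, P 2 v e ∨ P 2 e v → sm v e) :
    (C.grid dl).Cpt fa (P 0) (P 1) (P 2) sm := by
  have i0 : ∀ a, GCCert_In C a a := fun a => Or.inl rfl
  have i1 : ∀ a s, GCCert_In C a (C.nb a s) := fun a s => Or.inr ⟨s, rfl⟩
  have par : ∀ i j : Fin 3, (∀ k : Fin 3, k = i ∨ k = j ∨ k = 2) → ∀ a b, a ≠ b →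
      C.col a = C.col b → P i a b ∨ P i b a ∨ (C.grid dl).Leg fa (P j) (P 2) a b ∨
        (C.grid dl).Leg fa (P j) (P 2) b a := by
    intro i j hij a b hab hc
    have sw : ∀ a b, P i a b ∨ (C.grid dl).Leg fa (P j) (P 2) a b →
        (P i a b ∨ P i b a ∨ (C.grid dl).Leg fa (P j) (P 2) a b ∨
          (C.grid dl).Leg fa (P j) (P 2) b a) ∧
        (P i b a ∨ P i a b ∨ (C.grid dl).Leg fa (P j) (P 2) b a ∨
          (C.grid dl).Leg fa (P j) (P 2) a b) := fun a b h => by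
      rcases h with h | h
      · exact ⟨Or.inl h, Or.inr (Or.inl h)⟩
      · exact ⟨Or.inr (Or.inr (Or.inl h)), Or.inr (Or.inr (Or.inr h))⟩
    have far : ∀ a b k, (∀ x y, GCCert_In C a x → GCCert_In C b y → P k x y) →
        P i a b ∨ (C.grid dl).Leg fa (P j) (P 2) a b := fun a b k h => by
      rcases hij k with rfl | rfl | rfl
      · exact Or.inl (h _ _ (i0 a) (i0 b))
      · exact Or.inr (Or.inl fun s s' => h _ _ (i1 a s) (i1 b s'))
      · exact Or.inr (Or.inr (Or.inl ⟨h _ _ (i0 a) (i0 b), fun s => h _ _ (i0 a) (i1 b s),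
          fun s => h _ _ (i1 a s) (i0 b), fun s s' => h _ _ (i1 a s) (i1 b s')⟩))
    have near : ∀ m, ∃ s, P i (C.nb m s) (C.nb m (!s)) ∨
        (C.grid dl).Leg fa (P j) (P 2) (C.nb m s) (C.nb m (!s)) := fun m => by
      obtain ⟨k, s, h0, h⟩ := hmono m
      obtain ⟨t, ht⟩ := hC.adj_symm m s
      obtain ⟨t', ht'⟩ := hC.adj_symm m (!s)
      obtain ⟨a1, a2, a3, a4, a5⟩ := h t t' ht ht'
      refine ⟨s, ?_⟩
      rcases hij k with rfl | rfl | rfl
      · exact Or.inl a1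
      · refine Or.inr (Or.inr (Or.inr (Or.inl ⟨t, t', ht.trans ht'.symm, ?_, ?_⟩)))
        · show P k (C.nb (C.nb m s) (!t)) (C.nb (C.nb m s) t)
          rw [ht]; exact a3
        · show P k (C.nb (C.nb m (!s)) t') (C.nb (C.nb m (!s)) (!t'))
          rw [ht']; exact a5
      · refine Or.inr (Or.inr (Or.inr (Or.inr ⟨?_, t, t', ht.trans ht'.symm, ?_, ?_, ?_, ?_⟩)))
        · cases fa
          · rfl
          · exact absurd rfl (h0 rfl)
        · show P 2 (C.nb m s) (C.nb (C.nb m s) t)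
          rw [ht]; exact a2
        · show P 2 (C.nb (C.nb m s) (!t)) (C.nb (C.nb m s) t)
          rw [ht]; exact a3
        · show P 2 (C.nb (C.nb m (!s)) t') (C.nb m (!s))
          rw [ht']; exact a4
        · show P 2 (C.nb (C.nb m (!s)) t') (C.nb (C.nb m (!s)) (!t'))
          rw [ht']; exact a5
    rcases hC.far_or hab hc with hf | ⟨m, hm⟩
    · obtain ⟨k, hk | hk⟩ := hfar a b hf
      · exact (sw a b (far a b k hk)).1
      · exact (sw b a (far b a k hk)).2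
    · obtain ⟨s, hs⟩ := near m
      have := sw _ _ hs
      rcases hm with ⟨rfl, rfl⟩ | ⟨rfl, rfl⟩ <;> cases s
      exacts [this.1, this.2, this.2, this.1]
  refine ⟨fun a b ha hb hab => par 0 1 (by decide) a b hab (ha.trans hb.symm),
    fun a b ha hb hab => par 1 0 (by decide) a b hab (ha.trans hb.symm),
    fun v e hv he hve => ?_⟩
  have hne : C.col v ≠ C.col e := fun k => Bool.false_ne_true (he.symm.trans (k.symm.trans hv))
  have h3 : ∀ k : Fin 3, k = 0 ∨ k = 1 ∨ k = 2 := by decide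
  obtain ⟨k, hk | hk⟩ := hfar v e (hC.far_of_col hne hve)
  · rcases h3 k with rfl | rfl | rfl
    · exact Or.inr (Or.inl fun s => hk _ _ (i0 v) (i1 e s))
    · exact Or.inr (Or.inr (Or.inr (Or.inr fun s => hk _ _ (i1 v s) (i0 e))))
    · exact Or.inl (hsm v e (Or.inl (hk _ _ (i0 v) (i0 e))))
  · rcases h3 k with rfl | rfl | rfl
    · exact Or.inr (Or.inr (Or.inl fun s => hk _ _ (i1 e s) (i0 v)))
    · exact Or.inr (Or.inr (Or.inr (Or.inl fun s => hk _ _ (i0 e) (i1 v s))))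
    · exact Or.inl (hsm v e (Or.inr (hk _ _ (i0 e) (i0 v))))

/-- the common certificate of two subdivisions -/
theorem Joint.cpt (h : C.Joint fa C') (hC : C.Valid fa) (hC' : C'.Valid fa) (dl : N → N → α) :
    (C.grid dl).Cpt fa (fun a b => C.pt a 0 < C.pt b 0 ∧ C'.pt a 0 < C'.pt b 0)
      (fun a b => C.pt a 1 < C.pt b 1 ∧ C'.pt a 1 < C'.pt b 1)
      (fun a b => C.pt a 2 < C.pt b 2 ∧ C'.pt a 2 < C'.pt b 2)
      fun v e => (C.pt e 2 < C.pt v 2 ↔ C'.pt e 2 < C'.pt v 2) := by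
  have hm : ∀ a x, GCCert_In C a x → C'.pt x ∈ C'.star a := fun a x hx =>
    GCCert_mem hC' (by rw [GCCert_In, h.nb]; exact hx)
  refine GCCert_cpt hC dl (P := fun k a b => C.pt a k < C.pt b k ∧ C'.pt a k < C'.pt b k)
    (fun a b hab => ?_) (fun m => ?_) (fun v e k => ?_)
  · obtain ⟨k, hk⟩ := h.sep a b hab
    exact ⟨k, hk.imp
      (fun j x y hx hy => ⟨j.1 _ (GCCert_mem hC hx) _ (GCCert_mem hC hy), j.2 _ (hm _ _ hx) _ (hm _ _ hy)⟩)
      fun j x y hx hy => ⟨j.1 _ (GCCert_mem hC hx) _ (GCCert_mem hC hy), j.2 _ (hm _ _ hx) _ (hm _ _ hy)⟩⟩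
  · obtain ⟨k, s, h0, h1, h2⟩ := h.mono m
    refine ⟨k, s, h0, fun t t' ht ht' => ?_⟩
    obtain ⟨a1, a2, a3, a4, a5⟩ := GCCert_chain hC h1 ht ht'
    have h3 := GCCert_chain hC' h2 (t := t) (t' := t') (by rw [h.nb]; exact ht)
      (by rw [h.nb]; exact ht')
    rw [h.nb] at h3
    obtain ⟨b1, b2, b3, b4, b5⟩ := h3
    exact ⟨⟨a1, b1⟩, ⟨a2, b2⟩, ⟨a3, b3⟩, ⟨a4, b4⟩, ⟨a5, b5⟩⟩
  · rcases k with k | k
    · exact iff_of_false (lt_asymm k.1) (lt_asymm k.2)
    · exact iff_of_true k.1 k.2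

variable [DecidableEq N]

theorem GCCert_idx {l : List N} {f : N → ℝ} (hp : l.Pairwise fun a b => f a ≤ f b) (ha : a ∈ l)
    (hb : b ∈ l) (hab : f a < f b) : l.idxOf a < l.idxOf b := by
  have h1 := List.idxOf_lt_length_of_mem ha
  have h2 := List.idxOf_lt_length_of_mem hb
  rcases lt_trichotomy (l.idxOf a) (l.idxOf b) with h | h | h
  · exact h
  · rw [(List.idxOf_inj ha).1 h] at hab
    exact absurd hab (lt_irrefl _)
  · have := List.pairwise_iff_getElem.1 hp _ _ h2 h1 h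
    rw [List.getElem_idxOf, List.getElem_idxOf] at this
    exact absurd hab (not_lt.2 this)

theorem Canon.ltX (h : C.Canon R) (ha : C.col a = true) (hb : C.col b = true)
    (hab : C.pt a 0 < C.pt b 0) : R.ltX a b :=   GCCert_idx h.sortX ((h.ok.memX a).2 ha) ((h.ok.memX b).2 hb) hab
theorem Canon.ltY (h : C.Canon R) (ha : C.col a = false) (hb : C.col b = false)
    (hab : C.pt a 1 < C.pt b 1) : R.ltY a b :=   GCCert_idx h.sortY ((h.ok.memY a).2 ha) ((h.ok.memY b).2 hb) hab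
theorem Canon.good' (hC : C.Valid fa) (h : C.Canon R) : C.Good fa R :=   ⟨h.ok, h.z_eq, (hC.joint.cpt hC hC _).mono hC.col_nb
    (fun _ _ ha hb k => ⟨h.ltX ha hb k.1, k.1⟩) (fun _ _ ha hb k => ⟨h.ltY ha hb k.1, k.1⟩)
    (fun _ _ k => k.1) fun _ _ _ => trivial⟩
theorem Good.weaken (h : C.Good true R) : C.Good fa R :=   ⟨h.ok, h.z_eq, h.cpt.weaken⟩
theorem Canon.goodM (hC : C.Valid true) {d : ℝ} (hM : C.Margin d)
    (hd : 0 ≤ d) (h : C.Canon R) : C.GoodM d R := by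
  have _ := hd
  have key := GCCert_cpt hC (fun _ _ => ())
    (P := fun k a b => C.pt a k + (if k = 2 then d else 0) < C.pt b k)
    (sm := fun v e => C.pt v 2 + d < C.pt e 2 ∨ C.pt e 2 + d < C.pt v 2)
    (fun a b hab => ?_) (fun m => ?_) (fun v e k => by simpa using k)
  · refine ⟨h.ok, h.z_eq, key.mono hC.col_nb (fun a b ha hb k => ?_) (fun a b ha hb k => ?_)
      (fun a b k => by simpa using k) fun _ _ k => k⟩
    · have k' : C.pt a 0 < C.pt b 0 := by simpa using k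
      exact ⟨h.ltX ha hb k', k'⟩
    · have k' : C.pt a 1 < C.pt b 1 := by simpa using k
      exact ⟨h.ltY ha hb k', k'⟩
  · rcases hM a b hab with ⟨i, hi, k⟩ | k | k
    · refine ⟨i, k.imp (fun k x y hx hy => ?_) fun k x y hx hy => ?_⟩
      · simpa [hi] using k _ (GCCert_mem hC hx) _ (GCCert_mem hC hy)
      · simpa [hi] using k _ (GCCert_mem hC hx) _ (GCCert_mem hC hy)
    · exact ⟨2, Or.inl fun x y hx hy => by
        simpa using k _ (GCCert_mem hC hx) _ (GCCert_mem hC hy)⟩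
    · exact ⟨2, Or.inr fun x y hx hy => by
        simpa using k _ (GCCert_mem hC hy) _ (GCCert_mem hC hx)⟩
  · obtain ⟨k, s, h0, h1⟩ := hC.mono m
    refine ⟨k, s, h0, fun t t' ht ht' => ?_⟩
    simpa [h0 rfl] using GCCert_chain hC h1 ht ht'
theorem GoodM.good {d : ℝ} (hd : 0 ≤ d) (h : C.GoodM d R) : C.Good true R :=   ⟨h.ok, h.z_eq, GCCert_mono h.cpt (fun _ _ k => k) (fun _ _ k => k)
    (fun _ _ k => lt_of_le_of_lt (le_add_of_nonneg_right hd) k) fun _ _ _ => trivial⟩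
theorem Joint.eqv [Rev α] (h : C.Joint fa C') (hC : C.Valid fa) (hC' : C'.Valid fa)
    (hR : C.Canon R) (hR' : C'.Canon R') {dl : N → N → α} (hG : (C.grid dl).OK) :
    Eqv fa [] [] ((C.grid dl).word R) ((C'.grid dl).word R') := by
  have e : C'.grid dl = C.grid dl := by rw [grid, grid, h.col, h.nb]
  have ok' : R'.OK C.col := h.col ▸ hR'.ok
  rw [e]
  refine Grid.cell_theorem hG hR.ok ok' ((h.cpt hC hC' dl).mono hC.col_nb
    (fun a b ha hb k => ⟨hR.ltX ha hb k.1,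
      hR'.ltX (by rw [h.col]; exact ha) (by rw [h.col]; exact hb) k.2⟩)
    (fun a b ha hb k => ⟨hR.ltY ha hb k.1,
      hR'.ltY (by rw [h.col]; exact ha) (by rw [h.col]; exact hb) k.2⟩)
    (fun a b k => ?_) fun a b k => ?_)
  · simpa only [hR.z_eq, hR'.z_eq] using k
  · simpa only [hR.z_eq, hR'.z_eq] using k
theorem Good.eqv_canon [Rev α] (hC : C.Valid fa) (hR : C.Good fa R) (hR' : C.Canon R')
    {dl : N → N → α} (hG : (C.grid dl).OK) :
    Eqv fa [] [] ((C.grid dl).word R) ((C.grid dl).word R') := by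
  refine Grid.cell_theorem hG hR.ok hR'.ok (((cpt_iff _ dl).1 hR.cpt).mono hC.col_nb
    (fun a b ha hb k => ⟨k.1, hR'.ltX ha hb k.2⟩) (fun a b ha hb k => ⟨k.1, hR'.ltY ha hb k.2⟩)
    (fun a b k => ?_) fun a b _ => ?_)
  · simp only [hR.z_eq, hR'.z_eq]
    exact ⟨k, k⟩
  · simp only [hR.z_eq, hR'.z_eq]
theorem Good.eqv [Fintype N] [Rev α] (hC : C.Valid fa) (hR : C.Good fa R) (hR' : C.Good fa R')
    {dl : N → N → α} (hG : (C.grid dl).OK) :
    Eqv fa [] [] ((C.grid dl).word R) ((C.grid dl).word R') := by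
  obtain ⟨R₀, h₀⟩ := exists_canon' C
  exact (hR.eqv_canon hC h₀ hG).trans (hR'.eqv_canon hC h₀ hG).symm

end Conf

theorem HasWord.weaken {w : List (Sl (Arc κ))} (h : HasWord true γ w) : HasWord fa γ w := by
  obtain ⟨N, i1, i2, C, dl, R, h1, h2, h3, h4, h5⟩ := h
  exact ⟨N, i1, i2, C, dl, R, h1.weaken, h2, h3, h4.weaken, h5⟩
theorem HasWord.run' (hγ : IsU γ) {w : List (Sl (Arc κ))} (h : HasWord fa γ w) :
    Run [] w [] := by
  obtain ⟨N, i1, i2, C, dl, R, h1, h2, h3, h4, rfl⟩ := h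
  exact Grid.run_word (h3.ok' hγ h1) h4.ok
theorem Conf.Valid.hasWord [Fintype κ] [Fintype N] (hγ : IsU γ) (hC : C.Valid fa)
    (hs : C.supp = trace γ) : ∃ w, HasWord fa γ w := by
  classical
  obtain ⟨dl, h1⟩ := exists_lab' hγ hC hs
  obtain ⟨R, h2⟩ := exists_canon' C
  exact ⟨_, N, inferInstance, inferInstance, C, dl, R, hC, hs, h1, h2.good' hC, rfl⟩

end Pool.Agent.P.MP_ac4909_gt.B
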