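import Pool.Agent.P.MP_ac4909_gt.B.GBDefs
import Pool.Agent.P.MP_ac4909_gt.B.GC_Cert

/-! Layer G, blocks: collars. -/

namespace Pool.Agent.P.MP_ac4909_gt.B

open scoped ContDiff
open Set Filter Topology

variable {ι I : Type} {n : ℕ} {Co : Collar n ι} {b b' : Fin n × Bool} {t t' : ℝ}

namespace Collar

@[simp] theorem cl_zero (Co : Collar n ι) (b : Fin n × Bool) (t : ℝ) :
    Co.cl b t 0 = Co.ξ b t := rfl

@[simp] theorem cl_one (Co : Collar n ι) (b : Fin n × Bool) (t : ℝ) :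
    Co.cl b t 1 = (if b.2 then 1 else -1) * t := rfl

@[simp] theorem cl_two (Co : Collar n ι) (b : Fin n × Bool) (t : ℝ) : Co.cl b t 2 = Co.ζ b := rfl

theorem gcol0_lev (Co : Collar n ι) (b : Fin n × Bool) (t : ℝ) :
    (if b.2 then 1 else -1) * Co.cl b t 1 = t := by
  rw [cl_one]
  split_ifs <;> ring

theorem cl_inj (h : Co.cl b t = Co.cl b t') : t = t' := by
  rw [← gcol0_lev Co b t, h, gcol0_lev]

theorem cl_eq (ht : 0 < t) (h : Co.cl b t = Co.cl b' t') (ht' : 0 < t') : b = b' ∧ t = t' := by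
  have h0 : Co.ξ b t = Co.ξ b' t' := congrArg (fun p : E3 => p 0) h
  have h1 : (if b.2 then 1 else -1) * t = (if b'.2 then 1 else -1) * t' :=
    congrArg (fun p : E3 => p 1) h
  have h2 : Co.ζ b = Co.ζ b' := congrArg (fun p : E3 => p 2) h
  obtain ⟨k, σ⟩ := b
  obtain ⟨k', σ'⟩ := b'
  have hσ : σ = σ' := by
    cases σ <;> cases σ' <;> simp at h1 ⊢ <;> linarith
  subst hσ
  have hk : k = k' := by
    rcases lt_trichotomy k k' with hk | hk | hk
    · exact absurd h0 (Co.order k k' σ hk h2 t ht t' ht').ne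
    · exact hk
    · exact absurd h0 (Co.order k' k σ hk h2.symm t' ht' t ht).ne'
  subst hk
  exact ⟨rfl, cl_inj h⟩

theorem continuousOn_cl (Co : Collar n ι) (b : Fin n × Bool) :
    ContinuousOn (Co.cl b) (Ioi 0) := by
  refine (PiLp.continuous_toLp 2 _).comp_continuousOn (continuousOn_pi.2 fun i => ?_)
  fin_cases i
  · exact Co.cont b
  · exact (continuous_const.mul continuous_id).continuousOn
  · exact continuousOn_const

theorem isArc_cl (ht : 0 < t) (h : t < t') :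
    IsArc (Co.cl b '' Icc t t') (Co.cl b t) (Co.cl b t') := by
  have hd : 0 < t' - t := sub_pos.2 h
  refine ⟨fun s => Co.cl b (t + s * (t' - t)), ?_, fun s _ s' _ e => ?_, by simp, by simp, ?_⟩
  · refine (Co.continuousOn_cl b).comp (by fun_prop) fun s hs => ?_
    have := mul_nonneg hs.1 hd.le
    exact mem_Ioi.2 (by linarith)
  · have := cl_inj e
    exact mul_right_cancel₀ hd.ne' (by linarith)
  · ext p
    constructor
    · rintro ⟨u, hu, rfl⟩
      refine ⟨(u - t) / (t' - t), ⟨div_nonneg (sub_nonneg.2 hu.1) hd.le,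
        (div_le_one hd).2 (by linarith [hu.2])⟩, ?_⟩
      dsimp only
      rw [div_mul_cancel₀ _ hd.ne', add_sub_cancel]
    · rintro ⟨s, hs, rfl⟩
      refine ⟨_, ⟨?_, ?_⟩, rfl⟩
      · nlinarith [hs.1]
      · nlinarith [hs.2]

theorem cl_box (ht : 0 < t) {r : ℝ} (h₁ : t ≤ r) (h₂ : 3 / 4 ≤ r) (h₃ : t ≤ 1) (i : Fin 3) :
    |Co.cl b t i| ≤ r := by
  fin_cases i
  · exact (Co.boxx b t ⟨ht, h₃⟩).trans h₂
  · change |(if b.2 then 1 else -1) * t| ≤ r
    split_ifs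
    · rwa [one_mul, abs_of_pos ht]
    · rwa [neg_one_mul, abs_neg, abs_of_pos ht]
  · exact (Co.boxz b).trans h₂

theorem cl_mem_Qb (ht : 0 < t) {r : ℝ} (h₁ : t < r) (h₂ : 3 / 4 < r) (h₃ : t ≤ 1) :
    Co.cl b t ∈ Qb r := fun i =>
  (cl_box ht (le_max_left t (3 / 4)) (le_max_right _ _) h₃ i).trans_lt (max_lt h₁ h₂)

theorem gcol0_mono {f : ℝ → ℝ} {J : Set ℝ} (hJ : J.OrdConnected) (hc : ContinuousOn f J)
    (hi : InjOn f J) : StrictMonoOn f J ∨ StrictAntiOn f J := by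
  by_contra hn
  rw [not_or] at hn
  obtain ⟨h1, h2⟩ := hn
  simp only [StrictMonoOn, StrictAntiOn, not_forall] at h1 h2
  obtain ⟨a, ha, a', ha', hl, h1⟩ := h1
  obtain ⟨c, hc', c', hc'', hl', h2⟩ := h2
  have hm : min a c ∈ J := by
    rcases min_choice a c with e | e <;> rw [e] <;> assumption
  have hM : max a' c' ∈ J := by
    rcases max_choice a' c' with e | e <;> rw [e] <;> assumption
  have hsub : Icc (min a c) (max a' c') ⊆ J := hJ.out hm hM
  have hle : min a c ≤ max a' c' := (min_le_left _ _).trans (hl.le.trans (le_max_left _ _))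
  rcases ContinuousOn.strictMonoOn_of_injOn_Icc' hle (hc.mono hsub) (hi.mono hsub) with h | h
  · exact h1 (h ⟨min_le_left _ _, hl.le.trans (le_max_left _ _)⟩
      ⟨(min_le_left _ _).trans hl.le, le_max_left _ _⟩ hl)
  · exact h2 (h ⟨min_le_right _ _, hl'.le.trans (le_max_right _ _)⟩
      ⟨(min_le_right _ _).trans hl'.le, le_max_right _ _⟩ hl')

/-- an injective coordinate is monotone along a collar -/
theorem cl_mono {J : Set ℝ} (hJ : J.OrdConnected) (h₀ : J ⊆ Ioi 0) {i : Fin 3}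
    (h : InjOn (fun p : E3 => p i) (Co.cl b '' J)) :
    StrictMonoOn (fun t => Co.cl b t i) J ∨ StrictAntiOn (fun t => Co.cl b t i) J := by
  refine gcol0_mono hJ ?_ fun s hs s' hs' e => ?_
  · exact (EuclideanSpace.proj i : E3 →L[ℝ] ℝ).continuous.comp_continuousOn
      ((Co.continuousOn_cl b).mono h₀)
  · exact cl_inj (h (mem_image_of_mem _ hs) (mem_image_of_mem _ hs') e)

/-- distinct collars are separated by a coordinate -/
theorem sep_cl (h : b ≠ b') : (b.2 ≠ b'.2 ∧ (Sep 1 (Co.cl b '' Ioi 0) (Co.cl b' '' Ioi 0) ∨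
      Sep 1 (Co.cl b' '' Ioi 0) (Co.cl b '' Ioi 0))) ∨
    (Co.ζ b = Co.ζ b' ∧ (Sep 0 (Co.cl b '' Ioi 0) (Co.cl b' '' Ioi 0) ∨
      Sep 0 (Co.cl b' '' Ioi 0) (Co.cl b '' Ioi 0))) ∨ Co.ζ b ≠ Co.ζ b' := by
  have key : ∀ k k' : Fin n, Sep 1 (Co.cl (k, false) '' Ioi 0) (Co.cl (k', true) '' Ioi 0) := by
    rintro k k' _ ⟨s, hs, rfl⟩ _ ⟨s', hs', rfl⟩
    have h1 : (0 : ℝ) < s := hs
    have h2 : (0 : ℝ) < s' := hs'
    simp only [cl_one, Bool.false_eq_true, if_false, if_true]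
    linarith
  have key0 : ∀ (k k' : Fin n) (σ : Bool), k < k' → Co.ζ (k, σ) = Co.ζ (k', σ) →
      Sep 0 (Co.cl (k, σ) '' Ioi 0) (Co.cl (k', σ) '' Ioi 0) := by
    rintro k k' σ hk hz _ ⟨s, hs, rfl⟩ _ ⟨s', hs', rfl⟩
    exact Co.order k k' σ hk hz s hs s' hs'
  obtain ⟨k, σ⟩ := b
  obtain ⟨k', σ'⟩ := b'
  by_cases hσ : σ = σ'
  · subst hσ
    by_cases hz : Co.ζ (k, σ) = Co.ζ (k', σ)
    · refine Or.inr (Or.inl ⟨hz, ?_⟩)
      rcases lt_trichotomy k k' with hk | hk | hk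
      · exact Or.inl (key0 k k' σ hk hz)
      · exact absurd (by rw [hk]) h
      · exact Or.inr (key0 k' k σ hk hz.symm)
    · exact Or.inr (Or.inr hz)
  · refine Or.inl ⟨hσ, ?_⟩
    cases σ <;> cases σ'
    · exact absurd rfl hσ
    · exact Or.inl (key k k')
    · exact Or.inr (key k' k)
    · exact absurd rfl hσ

/-- a connected set inside the union of the collars lies in one collar -/
theorem subset_cl {A : Set E3} (hA : IsPreconnected A) {r r' : ℝ} (hr : 0 < r)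
    (h : A ⊆ ⋃ b, Co.cl b '' Icc r r') {p : E3} (hp : p ∈ A) (hb : p ∈ Co.cl b '' Icc r r') :
    A ⊆ Co.cl b '' Icc r r' := by
  have hcl : ∀ c : Fin n × Bool, IsClosed (Co.cl c '' Icc r r') := fun c =>
    (isCompact_Icc.image_of_continuousOn
      ((Co.continuousOn_cl c).mono fun s hs => hr.trans_le hs.1)).isClosed
  have hdis : ∀ q ∈ Co.cl b '' Icc r r',
      q ∉ ⋃ c : {c : Fin n × Bool // c ≠ b}, Co.cl c.1 '' Icc r r' := by
    rintro _ ⟨s, hs, rfl⟩ hq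
    obtain ⟨c, s', hs', e⟩ := mem_iUnion.1 hq
    exact c.2 (cl_eq (hr.trans_le hs'.1) e (hr.trans_le hs.1)).1
  rcases isPreconnected_iff_subset_of_disjoint_closed.1 hA (Co.cl b '' Icc r r')
    (⋃ c : {c : Fin n × Bool // c ≠ b}, Co.cl c.1 '' Icc r r') (hcl b)
    (isClosed_iUnion_of_finite fun c => hcl c.1) (fun q hq => by
      obtain ⟨c, hc⟩ := mem_iUnion.1 (h hq)
      by_cases e : c = b
      · exact Or.inl (e ▸ hc)
      · exact Or.inr (mem_iUnion.2 ⟨⟨c, e⟩, hc⟩))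
    (eq_empty_of_forall_notMem fun q hq => hdis q hq.2.1 hq.2.2) with h1 | h1
  · exact h1
  · exact absurd (h1 hp) (hdis p hb)

end Collar

theorem IsArc.isPreconnected {A : Set E3} {p q : E3} (h : IsArc A p q) : IsPreconnected A := by
  obtain ⟨g, hg, -, -, -, rfl⟩ := h
  exact isPreconnected_Icc.image g hg

theorem IsArc.ne {A : Set E3} {p q : E3} (h : IsArc A p q) : p ≠ q := by
  obtain ⟨g, -, hg, rfl, rfl, -⟩ := h
  intro e
  exact zero_ne_one (hg (left_mem_Icc.2 zero_le_one) (right_mem_Icc.2 zero_le_one) e)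

theorem IsArc.eq_cl {A : Set E3} (h : IsArc A (Co.cl b t) (Co.cl b t'))
    (hA : A ⊆ Co.cl b '' Ioi 0) : A = Co.cl b '' uIcc t t' := by
  obtain ⟨g, hc, hi, h0, h1, rfl⟩ := h
  set φ : ℝ → ℝ := fun s => (if b.2 then 1 else -1) * g s 1 with hφ
  have hg : ∀ s ∈ Icc (0 : ℝ) 1, Co.cl b (φ s) = g s := by
    intro s hs
    obtain ⟨u, -, hu⟩ := hA (mem_image_of_mem g hs)
    simp only [hφ]
    rw [← hu, Collar.gcol0_lev]
  have hφc : ContinuousOn φ (Icc 0 1) :=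
    continuousOn_const.mul
      ((EuclideanSpace.proj (1 : Fin 3) : E3 →L[ℝ] ℝ).continuous.comp_continuousOn hc)
  have hφi : InjOn φ (Icc 0 1) := fun s hs s' hs' e => hi hs hs' (by rw [← hg s hs, e, hg s' hs'])
  have hφ0 : φ 0 = t := by simp only [hφ]; rw [h0, Collar.gcol0_lev]
  have hφ1 : φ 1 = t' := by simp only [hφ]; rw [h1, Collar.gcol0_lev]
  have z0 : (0 : ℝ) ∈ Icc (0 : ℝ) 1 := left_mem_Icc.2 zero_le_one
  have z1 : (1 : ℝ) ∈ Icc (0 : ℝ) 1 := right_mem_Icc.2 zero_le_one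
  ext p
  constructor
  · rintro ⟨s, hs, rfl⟩
    refine ⟨φ s, ?_, hg s hs⟩
    rw [← hφ0, ← hφ1]
    rcases ContinuousOn.strictMonoOn_of_injOn_Icc' zero_le_one hφc hφi with hm | hm
    · exact mem_uIcc_of_le (hm.monotoneOn z0 hs hs.1) (hm.monotoneOn hs z1 hs.2)
    · exact mem_uIcc_of_ge (hm.antitoneOn hs z1 hs.2) (hm.antitoneOn z0 hs hs.1)
  · rintro ⟨u, hu, rfl⟩
    rw [← hφ0, ← hφ1] at hu
    have h2 := intermediate_value_uIcc (f := φ) (a := 0) (b := 1)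
      (by rwa [uIcc_of_le zero_le_one]) hu
    rw [uIcc_of_le zero_le_one] at h2
    obtain ⟨s, hs, rfl⟩ := h2
    exact ⟨s, hs, (hg s hs).symm⟩

end Pool.Agent.P.MP_ac4909_gt.B
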