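import Pool.Agent.P.MP_ac4909_gt.B.GBDefs
import Pool.Agent.P.MP_ac4909_gt.B.GC_Small

/-! Layer G, blocks: chains of isotopies and ambient embeddings. -/

namespace Pool.Agent.P.MP_ac4909_gt.B

open scoped ContDiff
open Set Filter Topology

variable {ι κ P : Type} {S S' : LS ι} {h g : E3 → E3}

theorem IsPL.isLL (hS : IsPL S) : IsLL S := by
  obtain ⟨κ, _, L, ℓ, h1, h2, -⟩ := hS
  exact ⟨κ, inferInstance, L, ℓ, h1, h2⟩

theorem GIso.gEq (h : GIso S S') : GEq S S' := Relation.EqvGen.rel _ _ h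

theorem GEq.refl (S : LS ι) : GEq S S := Relation.EqvGen.refl S

theorem GEq.symm (h : GEq S S') : GEq S' S := Relation.EqvGen.symm _ _ h

theorem GEq.trans {S'' : LS ι} (h : GEq S S') (h' : GEq S' S'') : GEq S S'' :=
  Relation.EqvGen.trans _ _ _ h h'

theorem ggeq_inv {X : Type} (F : LS ι → X) (hF : ∀ S S', GIso S S' → F S = F S')
    (h : GEq S S') : F S = F S' := by
  unfold GEq at h
  induction h with
  | rel _ _ h => exact hF _ _ h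
  | refl => rfl
  | symm _ _ _ ih => exact ih.symm
  | trans _ _ _ _ _ ih ih' => exact ih.trans ih'

theorem ggeq_pl [Fintype κ] {L : Lk κ} {ℓ : κ → Option ι} (hL : L.IsLink)
    (hS : IsPL (L.set ℓ)) (i : ι) : ∃! c, ℓ c = some i := by
  obtain ⟨κ', _, L', ℓ', h1, h2, h3⟩ := hS
  obtain ⟨β, φ, σ, hβ⟩ := exists_reparam hL.isU h1.isU
    (Subset.antisymm (Lk.trace_eq h2.symm) (Lk.trace_eq h2))
  have h4 : ∀ c, ℓ (β c) = ℓ' c := fun c => by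
    have h5 : (ℓ' c, L'.γ c 0, L'.ν c 0) ∈ L.set ℓ := h2 ▸ ⟨c, 0, rfl⟩
    obtain ⟨d, t, h6⟩ := h5
    simp only [Prod.mk.injEq] at h6
    have h7 := (hL.isU.inj _ _ _ _ (((hβ c).2.2.2.2 0).symm.trans h6.2.1)).1
    rw [h7, h6.1]
  obtain ⟨c, hc, hu⟩ := h3 i
  refine ⟨β c, (h4 c).trans hc, fun d hd => ?_⟩
  obtain ⟨d, rfl⟩ := β.surjective d
  rw [hu d ((h4 d).symm.trans hd)]

theorem ggeq_fst (L : Lk κ) (ℓ : κ → Option ι) : Prod.fst '' L.set ℓ = range ℓ := by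
  ext o
  constructor
  · rintro ⟨x, ⟨c, t, rfl⟩, rfl⟩
    exact ⟨c, rfl⟩
  · rintro ⟨c, rfl⟩
    exact ⟨_, ⟨c, 0, rfl⟩, rfl⟩

theorem GEq.zv_eq (E : EvSys ι P) (h : GEq S S') : zv E S = zv E S' :=
  ggeq_inv (zv E) (fun _ _ h => zv_iso E h) h

theorem GEq.isLL (h : GEq S S') (hS : IsLL S) : IsLL S' := by
  refine (ggeq_inv IsLL (fun S S' h => ?_) h).mp hS
  obtain ⟨κ, _, H, ℓ, -, h2, rfl, rfl⟩ := h
  exact propext (iff_of_true ⟨κ, inferInstance, H 0, ℓ, h2 0 ⟨le_rfl, zero_le_one⟩, rfl⟩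
    ⟨κ, inferInstance, H 1, ℓ, h2 1 ⟨zero_le_one, le_rfl⟩, rfl⟩)

theorem GEq.isPL (h : GEq S S') (hS : IsPL S) : IsPL S' := by
  refine (ggeq_inv IsPL (fun S S' h => ?_) h).mp hS
  obtain ⟨κ, _, H, ℓ, -, h2, rfl, rfl⟩ := h
  have h0 := h2 0 ⟨le_rfl, zero_le_one⟩
  have h1 := h2 1 ⟨zero_le_one, le_rfl⟩
  exact propext ⟨fun h => ⟨κ, inferInstance, H 1, ℓ, h1, rfl, ggeq_pl h0 h⟩,
    fun h => ⟨κ, inferInstance, H 0, ℓ, h0, rfl, ggeq_pl h1 h⟩⟩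

theorem GEq.labels (h : GEq S S') : Prod.fst '' S = Prod.fst '' S' := by
  refine ggeq_inv (fun S => Prod.fst '' S) (fun S S' h => ?_) h
  obtain ⟨κ, _, H, ℓ, -, -, rfl, rfl⟩ := h
  rw [ggeq_fst, ggeq_fst]

/-- a base point carries only one element of a link -/
theorem IsLL.eq_of_base (hS : IsLL S) {x y : Option ι × E3 × E3} (hx : x ∈ S) (hy : y ∈ S)
    (h : x.2.1 = y.2.1) : x = y := by
  obtain ⟨κ, _, L, ℓ, hL, rfl⟩ := hS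
  obtain ⟨c, t, rfl⟩ := hx
  obtain ⟨c', t', rfl⟩ := hy
  obtain ⟨rfl, k, rfl⟩ := hL.isU.inj _ _ _ _ h
  rw [GCSmall_per (hL.isU.per c), GCSmall_per (hL.per c)]

theorem IsLL.sep_label (hS : IsLL S) (q : Option ι → Prop) : IsLL {x ∈ S | q x.1} := by
  obtain ⟨κ, _, L, ℓ, hL, rfl⟩ := hS
  refine ⟨{c // q (ℓ c)}, Fintype.ofFinite _, ⟨fun c => L.γ c.1, fun c => L.ν c.1⟩,
    fun c => ℓ c.1, ⟨⟨fun c => hL.isU.smooth c.1, fun c => hL.isU.per c.1, fun c c' s t h => ?_,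
      fun c => hL.isU.imm c.1⟩, fun c => hL.smooth c.1, fun c => hL.per c.1,
      fun c => hL.indep c.1⟩, ?_⟩
  · obtain ⟨h1, h2⟩ := hL.isU.inj _ _ _ _ h
    exact ⟨Subtype.ext h1, h2⟩
  · ext x
    constructor
    · rintro ⟨⟨c, t, rfl⟩, hq⟩
      exact ⟨⟨c, hq⟩, t, rfl⟩
    · rintro ⟨c, t, rfl⟩
      exact ⟨⟨c.1, t, rfl⟩, c.2⟩

theorem IsLL.isCompact_base (hS : IsLL S) : IsCompact ((fun x => x.2.1) '' S) := by
  obtain ⟨κ, _, L, ℓ, hL, rfl⟩ := hS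
  have h1 : (fun x => x.2.1) '' L.set ℓ = ⋃ c, range (L.γ c) := by
    ext p
    constructor
    · rintro ⟨x, ⟨c, t, rfl⟩, rfl⟩
      exact mem_iUnion.2 ⟨c, t, rfl⟩
    · intro hp
      obtain ⟨c, t, rfl⟩ := mem_iUnion.1 hp
      exact ⟨_, ⟨c, t, rfl⟩, rfl⟩
  rw [h1]
  exact isCompact_iUnion fun c => Function.Periodic.compact_of_continuous
    (c := 1) (hL.isU.per c) one_ne_zero (hL.isU.smooth c).continuous

theorem Lk.push_set (L : Lk κ) (h : E3 → E3) (ℓ : κ → Option ι) :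
    (L.push h).set ℓ = gpush h (L.set ℓ) := by
  ext x
  constructor
  · rintro ⟨c, t, rfl⟩
    exact ⟨_, ⟨c, t, rfl⟩, rfl⟩
  · rintro ⟨_, ⟨c, t, rfl⟩, rfl⟩
    exact ⟨c, t, rfl⟩

theorem Lk.IsLink.gpush {L : Lk κ} (hL : L.IsLink) (hs : ContDiff ℝ ∞ h)
    (hi : Function.Injective h) (hd : ∀ p, (fderiv ℝ h p).det ≠ 0) : (L.push h).IsLink := by
  have hder : ∀ c t, deriv ((L.push h).γ c) t = fderiv ℝ h (L.γ c t) (deriv (L.γ c) t) :=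
    fun c t => ((hs.differentiable (by simp) _).hasFDerivAt.comp_hasDerivAt t
      ((hL.isU.smooth c).differentiable (by simp) t).hasDerivAt).deriv
  refine ⟨⟨fun c => hs.comp (hL.isU.smooth c), fun c t => congrArg h (hL.isU.per c t),
    fun c c' s t e => hL.isU.inj _ _ _ _ (hi e), fun c t => ?_⟩, fun c => ?_, fun c t => ?_,
    fun c t => ?_⟩
  · rw [hder]
    exact fun e => hL.isU.imm c t (injective_of_det_ne (hd _) (e.trans (map_zero _).symm))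
  · exact ((hs.fderiv_right (m := ∞) le_rfl).comp (hL.isU.smooth c)).clm_apply (hL.smooth c)
  · change fderiv ℝ h (L.γ c (t + 1)) (L.ν c (t + 1)) = fderiv ℝ h (L.γ c t) (L.ν c t)
    rw [hL.isU.per, hL.per]
  · rw [hder]
    exact indep_map (injective_of_det_ne (hd _)) (hL.indep c t)

theorem GAmb.isLL (hh : GAmb h) (hS : IsLL S) : IsLL (gpush h S) := (hh.geq ι S hS).isLL hS

/-- one component moves in the complement of the others -/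
theorem giso_move (hS : IsLL S) {H : ℝ → Lk Unit} (hH : SmoothFam H)
    (hL : ∀ s ∈ Icc (0 : ℝ) 1, (H s).IsLink)
    (hd : ∀ s ∈ Icc (0 : ℝ) 1, ∀ t, ∀ x ∈ S, x.2.1 ≠ (H s).γ () t) (o : Option ι) :
    GIso (S ∪ (H 0).set fun _ => o) (S ∪ (H 1).set fun _ => o) := by
  obtain ⟨κ, _, L, ℓ, hL0, rfl⟩ := hS
  have hset : ∀ s, L.set ℓ ∪ (H s).set (fun _ => o) =
      (⟨Sum.elim L.γ (H s).γ, Sum.elim L.ν (H s).ν⟩ : Lk (κ ⊕ Unit)).set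
        (Sum.elim ℓ fun _ => o) := fun s => by
    ext x
    constructor
    · rintro (⟨c, t, rfl⟩ | ⟨c, t, rfl⟩)
      · exact ⟨.inl c, t, rfl⟩
      · exact ⟨.inr c, t, rfl⟩
    · rintro ⟨c | c, t, rfl⟩
      · exact Or.inl ⟨c, t, rfl⟩
      · exact Or.inr ⟨c, t, rfl⟩
  refine ⟨κ ⊕ Unit, inferInstance, fun s => ⟨Sum.elim L.γ (H s).γ, Sum.elim L.ν (H s).ν⟩,
    Sum.elim ℓ fun _ => o, ?_, fun s hs => ?_, hset 0, hset 1⟩
  · rintro (c | c)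
    · exact hL0.smoothFam c
    · exact hH c
  · have h1 := hL s hs
    refine ⟨⟨?_, ?_, ?_, ?_⟩, ?_, ?_, ?_⟩
    · rintro (c | c)
      · exact hL0.isU.smooth c
      · exact h1.isU.smooth c
    · rintro (c | c)
      · exact hL0.isU.per c
      · exact h1.isU.per c
    · rintro (c | c) (c' | c') t t' e
      · obtain ⟨h2, h3⟩ := hL0.isU.inj _ _ _ _ e
        exact ⟨congrArg _ h2, h3⟩
      · exact absurd e (hd s hs t' _ ⟨c, t, rfl⟩)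
      · exact absurd (Eq.symm e) (hd s hs t _ ⟨c', t', rfl⟩)
      · obtain ⟨h2, h3⟩ := h1.isU.inj _ _ _ _ e
        exact ⟨congrArg _ h2, h3⟩
    · rintro (c | c)
      · exact hL0.isU.imm c
      · exact h1.isU.imm c
    · rintro (c | c)
      · exact hL0.smooth c
      · exact h1.smooth c
    · rintro (c | c)
      · exact hL0.per c
      · exact h1.per c
    · rintro (c | c)
      · exact hL0.indep c
      · exact h1.indep c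

theorem ggeq_Qb {r r' : ℝ} (hr : r ≤ r') : Qb r ⊆ Qb r' := fun _ hp i => (hp i).trans_le hr

theorem ggeq_std {A : Pic ι} {r : ℝ} : Std r S A ↔
    ∀ x : Option ι × E3 × E3, x.2.1 ∈ Qb r → (x ∈ S ↔ (x.1, x.2.1) ∈ A ∧ x.2.2 = ez) := by
  have h1 : ∀ x : Option ι × E3 × E3, x ∈ vert {y ∈ A | y.2 ∈ Qb r} ↔
      ((x.1, x.2.1) ∈ A ∧ x.2.2 = ez) ∧ x.2.1 ∈ Qb r := fun x => by
    constructor
    · rintro ⟨y, hy, rfl⟩
      exact ⟨⟨hy.1, rfl⟩, hy.2⟩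
    · rintro ⟨⟨h1, h2⟩, h3⟩
      exact ⟨(x.1, x.2.1), ⟨h1, h3⟩, by rw [← h2]⟩
  unfold Std
  rw [Set.ext_iff]
  refine forall_congr' fun x => ?_
  rw [h1, mem_setOf_eq]
  exact and_congr_left_iff

theorem ggeq_der {ψ : E3 → E3} {r : ℝ} (hψ : PosOn ψ (Qb (9 / 8))) (hh : GAmb h)
    (hr : r ≤ 9 / 8) (hk : ∀ p ∈ Qb r, h (ψ p) = p) {p : E3} (hp : p ∈ Qb r) (v : E3) :
    fderiv ℝ h (ψ p) (fderiv ℝ ψ p v) = v := by
  have h1 : DifferentiableAt ℝ ψ p := (hψ.smooth.contDiffAt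
    ((isOpen_Qb _).mem_nhds (ggeq_Qb hr hp))).differentiableAt (by simp)
  have h2 := (hh.smooth.differentiable (by simp) (ψ p)).hasFDerivAt.comp p h1.hasFDerivAt
  have h3 : (h ∘ ψ) =ᶠ[𝓝 p] id := Filter.mem_of_superset ((isOpen_Qb r).mem_nhds hp) hk
  have h4 := h2.unique ((hasFDerivAt_id p).congr_of_eventuallyEq h3)
  exact DFunLike.congr_fun h4 v

theorem ggeq_ins {ψ : E3 → E3} {A : Pic ι} (hA : GIns ψ S A) {y : Option ι × E3} (hy : y ∈ A)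
    (hq : y.2 ∈ Qb (9 / 8)) : (y.1, ψ y.2, fderiv ℝ ψ y.2 ez) ∈ S :=
  (hA.symm.subset ⟨y, ⟨hy, hq⟩, rfl⟩).1

theorem GIns.std {ψ : E3 → E3} {A : Pic ι} {r : ℝ} (hψ : PosOn ψ (Qb (9 / 8))) (hh : GAmb h)
    (hr : r ≤ 9 / 8) (hk : ∀ p ∈ Qb r, h (ψ p) = p) (hA : GIns ψ S A) :
    Std r (gpush h S) A := by
  refine ggeq_std.2 fun x hx => ⟨?_, ?_⟩
  · rintro ⟨z, hz, rfl⟩
    have h1 : ψ (h z.2.1) = z.2.1 := hh.inj (hk _ hx)
    obtain ⟨y, hy, rfl⟩ := hA.subset ⟨hz, _, ggeq_Qb hr hx, h1⟩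
    have h2 : h (ψ y.2) = y.2 := hψ.inj (ggeq_Qb hr hx) hy.2 h1
    dsimp only at hx ⊢
    rw [h2] at hx ⊢
    exact ⟨hy.1, ggeq_der hψ hh hr hk hx _⟩
  · rintro ⟨h1, h2⟩
    refine ⟨_, ggeq_ins hA h1 (ggeq_Qb hr hx), ?_⟩
    dsimp only
    rw [hk _ hx, ggeq_der hψ hh hr hk hx, ← h2]

theorem GIns.sOut {ψ : E3 → E3} {A : Pic ι} {r : ℝ} (hψ : PosOn ψ (Qb (9 / 8))) (hh : GAmb h)
    (hr : r ≤ 9 / 8) (hk : ∀ p ∈ Qb r, h (ψ p) = p) (hA : GIns ψ S A) :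
    SOut r (gpush h S) = gpush h (GOut ψ S ∪ (fun y => (y.1, ψ y.2, fderiv ℝ ψ y.2 ez)) ''
      {y ∈ A | y.2 ∈ Qb (9 / 8) ∧ y.2 ∉ Qb r}) := by
  ext x
  constructor
  · rintro ⟨⟨z, hz, rfl⟩, hx⟩
    refine ⟨z, ?_, rfl⟩
    by_cases h1 : z.2.1 ∈ ψ '' Qb (9 / 8)
    · obtain ⟨y, hy, rfl⟩ := hA.subset ⟨hz, h1⟩
      refine Or.inr ⟨y, ⟨hy.1, hy.2, fun h2 => hx ?_⟩, rfl⟩
      dsimp only
      rw [hk _ h2]
      exact h2
    · exact Or.inl ⟨hz, h1⟩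
  · rintro ⟨z, hz | ⟨y, hy, rfl⟩, rfl⟩
    · exact ⟨⟨z, hz.1, rfl⟩, fun hx => hz.2 ⟨_, ggeq_Qb hr hx, hh.inj (hk _ hx)⟩⟩
    · refine ⟨⟨_, ggeq_ins hA hy.1 hy.2.1, rfl⟩, fun hx => hy.2.2 ?_⟩
      have h2 : h (ψ y.2) = y.2 := hψ.inj (ggeq_Qb hr hx) hy.2.1 (hh.inj (hk _ hx))
      exact h2 ▸ hx

theorem Std.mono {A : Pic ι} {r r' : ℝ} (h : Std r S A) (hr : r' ≤ r) : Std r' S A :=
  ggeq_std.2 fun x hx => ggeq_std.1 h x (ggeq_Qb hr hx)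

theorem Std.congr {A A' : Pic ι} {r : ℝ} (h : Std r S A)
    (hA : ∀ y : Option ι × E3, y.2 ∈ Qb r → (y ∈ A ↔ y ∈ A')) : Std r S A' :=
  ggeq_std.2 fun x hx => (ggeq_std.1 h x hx).trans (and_congr_left' (hA (x.1, x.2.1) hx))

theorem Std.mem_iff {A : Pic ι} {r : ℝ} (h : Std r S A) {x : Option ι × E3 × E3}
    (hx : x.2.1 ∈ Qb r) : x ∈ S ↔ (x.1, x.2.1) ∈ A ∧ x.2.2 = ez := ggeq_std.1 h x hx

end Pool.Agent.P.MP_ac4909_gt.B
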