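import Pool.Agent.P.MP_ac4909_gt.B.GB_Good
import Pool.Agent.P.MP_ac4909_gt.B.GB_Blk
import Pool.Agent.P.MP_ac4909_gt.B.GB_Geq

/-! Layer G, blocks: the word of a glued subdivision. -/

namespace Pool.Agent.P.MP_ac4909_gt.B

open scoped ContDiff
open Set Filter Topology

variable {ι I O κ P : Type} {n : ℕ} {Co : Collar n ι} {A : Pic ι}

namespace Outer
variable (Ou : Outer Co A O) (Ct : Content Co I)

theorem gc0_mem_star {N : Type} (C : Conf N) (a : N) (p : E3) :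
    p ∈ C.star a ↔ ∃ s, p ∈ C.arc a (C.nb a s) := by
  rw [Conf.star, mem_union, Bool.exists_bool]

theorem gc0_lb_nb (a : O ⊕ I) (s : Bool) :
    Sum.elim Ou.lb Ct.lb ((Ou.glue Ct).nb a s) = Sum.elim Ou.lb Ct.lb a := by
  rcases a with a | a
  · rcases h : Ou.C.nb (.inl a) s with a' | b
    · rw [Ou.glue_nb_out Ct h]
      exact Ou.lb_nb a s a' h
    · obtain ⟨rfl, rfl⟩ := (Ou.nb_eq_inr a s b).1 h
      rw [Ou.glue_nb_ρ Ct b]
      exact (Ct.lb_bc b).trans (Ou.lb_ρ b).symm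
  · rcases h : Ct.C.nb (.inl a) s with a' | b
    · rw [Ou.glue_nb_in Ct h]
      exact Ct.lb_nb a s a' h
    · obtain ⟨rfl, rfl⟩ := (Ct.nb_eq_inr a s b).1 h
      rw [Ou.glue_nb_bc Ct b]
      exact (Ou.lb_ρ b).trans (Ct.lb_bc b).symm

omit Ou in
/-- the picture of a content consists of inner arcs and rays -/
theorem gc0_pic (y : Option ι × E3) : y ∈ Ct.pic ↔
    (∃ a s a', Ct.C.nb (.inl a) s = .inl a' ∧ y.2 ∈ Ct.C.arc (.inl a) (.inl a') ∧ y.1 = Ct.lb a) ∨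
      ∃ b t, Ct.lv b ≤ t ∧ y.2 = Co.cl b t ∧ y.1 = Co.lab b := by
  constructor
  · rintro ⟨a, h1, h2⟩
    obtain ⟨s, h1⟩ := (gc0_mem_star _ _ _).1 h1
    rcases h : Ct.C.nb (.inl a) s with a' | b
    · rw [h] at h1
      exact Or.inl ⟨a, s, a', h, h1, h2⟩
    · rw [h] at h1
      obtain ⟨rfl, rfl⟩ := (Ct.nb_eq_inr a s b).1 h
      rw [Ct.arc_bc] at h1
      obtain ⟨t, ht, h1⟩ := h1
      exact Or.inr ⟨b, t, ht, h1.symm, h2.trans (Ct.lb_bc b)⟩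
  · rintro (⟨a, s, a', h, h1, h2⟩ | ⟨b, t, ht, h1, h2⟩)
    · exact ⟨a, (gc0_mem_star _ _ _).2 ⟨s, by rwa [h]⟩, h2⟩
    · exact ⟨Ct.bc b, Ct.ray_subset b ⟨t, ht, h1.symm⟩, h2.trans (Ct.lb_bc b).symm⟩

/-- the glued picture consists of outer arcs, inner arcs and pieces of collars -/
theorem gc0_glue (y : Option ι × E3) :
    (∃ a, y.2 ∈ (Ou.glue Ct).star a ∧ y.1 = Sum.elim Ou.lb Ct.lb a) ↔
    (∃ a s a', Ou.C.nb (.inl a) s = .inl a' ∧ y.2 ∈ Ou.C.arc (.inl a) (.inl a') ∧ y.1 = Ou.lb a) ∨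
    (∃ a s a', Ct.C.nb (.inl a) s = .inl a' ∧ y.2 ∈ Ct.C.arc (.inl a) (.inl a') ∧ y.1 = Ct.lb a) ∨
      ∃ b t, Ct.lv b ≤ t ∧ t ≤ Ou.lv b ∧ y.2 = Co.cl b t ∧ y.1 = Co.lab b := by
  constructor
  · rintro ⟨a, h1, h2⟩
    obtain ⟨s, h1⟩ := (gc0_mem_star _ _ _).1 h1
    rcases a with a | a
    · rcases h : Ou.C.nb (.inl a) s with a' | b
      · rw [Ou.glue_nb_out Ct h] at h1
        exact Or.inl ⟨a, s, a', h, h1, h2⟩
      · obtain ⟨rfl, rfl⟩ := (Ou.nb_eq_inr a s b).1 h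
        rw [Ou.glue_nb_ρ Ct b, (Ou.glue_arc Ct b).1] at h1
        obtain ⟨t, ht, h1⟩ := h1
        exact Or.inr (Or.inr ⟨b, t, ht.1, ht.2, h1.symm, h2.trans (Ou.lb_ρ b)⟩)
    · rcases h : Ct.C.nb (.inl a) s with a' | b
      · rw [Ou.glue_nb_in Ct h] at h1
        exact Or.inr (Or.inl ⟨a, s, a', h, h1, h2⟩)
      · obtain ⟨rfl, rfl⟩ := (Ct.nb_eq_inr a s b).1 h
        rw [Ou.glue_nb_bc Ct b, (Ou.glue_arc Ct b).2] at h1
        obtain ⟨t, ht, h1⟩ := h1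
        exact Or.inr (Or.inr ⟨b, t, ht.1, ht.2, h1.symm, h2.trans (Ct.lb_bc b)⟩)
  · rintro (⟨a, s, a', h, h1, h2⟩ | ⟨a, s, a', h, h1, h2⟩ | ⟨b, t, ht, ht', h1, h2⟩)
    · refine ⟨.inl a, (gc0_mem_star _ _ _).2 ⟨s, ?_⟩, h2⟩
      rw [Ou.glue_nb_out Ct h]
      exact h1
    · refine ⟨.inr a, (gc0_mem_star _ _ _).2 ⟨s, ?_⟩, h2⟩
      rw [Ou.glue_nb_in Ct h]
      exact h1
    · refine ⟨.inr (Ct.bc b), (gc0_mem_star _ _ _).2 ⟨false, ?_⟩, h2.trans (Ct.lb_bc b).symm⟩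
      rw [Ou.glue_nb_bc Ct b, (Ou.glue_arc Ct b).2]
      exact ⟨t, ⟨ht, ht'⟩, h1.symm⟩

theorem glue_pic {T : LS ι} (ho : ∀ y : Option ι × E3, y.2 ∉ Qb (7 / 8) → (y ∈ picOf T ↔ y ∈ A))
    (hi : Std (7 / 8) T Ct.pic) (y : Option ι × E3) :
    y ∈ picOf T ↔ ∃ a, y.2 ∈ (Ou.glue Ct).star a ∧ y.1 = Sum.elim Ou.lb Ct.lb a := by
  rw [gc0_glue]
  by_cases hy : y.2 ∈ Qb (7 / 8)
  · have h1 : y ∈ picOf T ↔ y ∈ Ct.pic :=
      (hi.mem_iff (x := (y.1, y.2, ez)) hy).trans (and_iff_left rfl)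
    rw [h1, gc0_pic, Ou.ins y hy]
    constructor
    · rintro (h | ⟨b, t, ht, h2, h3⟩)
      · exact Or.inr (Or.inl h)
      · rcases le_total t (Ou.lv b) with h4 | h4
        · exact Or.inr (Or.inr ⟨b, t, ht, h4, h2, h3⟩)
        · exact Or.inl ⟨b, t, h4, h2, h3⟩
    · rintro (⟨b, t, ht, h2, h3⟩ | h | ⟨b, t, ht, -, h2, h3⟩)
      · exact Or.inr ⟨b, t, ((Ct.lv_le b).trans (Ou.lv_gt b).le).trans ht, h2, h3⟩
      · exact Or.inl h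
      · exact Or.inr ⟨b, t, ht, h2, h3⟩
  · rw [ho y hy, Ou.out y hy]
    refine ⟨Or.inl, ?_⟩
    rintro (h | ⟨a, s, a', h, h1, -⟩ | ⟨b, t, ht, ht', h2, -⟩)
    · exact h
    · exact absurd (fun i => (Ct.box a s a' h _ h1 i).trans_lt (by norm_num)) hy
    · have h3 := Ou.lv_lt b
      rw [h2] at hy
      exact absurd (Collar.cl_mem_Qb ((Ct.lv_pos b).trans_le ht) (by linarith) (by norm_num)
        (by linarith)) hy

theorem glueN_ok : (Ou.glueN Ct).OK :=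
  ⟨(Ou.glue_valid Ct).col_nb, (Ou.glue_valid Ct).nb_ne, (Ou.glue_valid Ct).adj_symm,
    fun a s => congrArg Nm.mk (Ou.gc0_lb_nb Ct a s),
    fun a => congrArg Nm.mk (Ou.gc0_lb_nb Ct a false)⟩

/-- positions in a list with a block in the middle -/
theorem gc0_idx_mid {N N' : Type} [DecidableEq N] [DecidableEq N'] {φ : N → N'}
    (hφ : Function.Injective φ) {L₁ L₂ : List N'} {Y : List N} (h₁ : ∀ a, φ a ∉ L₁) {a : N}
    (ha : a ∈ Y) : (L₁ ++ Y.map φ ++ L₂).idxOf (φ a) = L₁.length + Y.idxOf a := by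
  rw [List.append_assoc, List.idxOf_append_of_notMem (h₁ a),
    List.idxOf_append_of_mem (List.mem_map_of_mem ha), Grid.evb_idxOf_map hφ]

omit Ou in
theorem gc0_rz_in [DecidableEq I] {a a' : I} (ha : a ∈ Ct.Yb) (ha' : a' ∈ Ct.Yb) :
    Ct.rz.ltY (.inl a) (.inl a') ↔ Ct.Yb.idxOf a < Ct.Yb.idxOf a' := by
  have h : ∀ x : I, (Sum.inl x : I ⊕ Fin n × Bool) ∉ List.ofFn fun k => .inr (k, false) := by
    intro x hx
    obtain ⟨k, hk⟩ := List.mem_ofFn.1 hx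
    exact Sum.inr_ne_inl hk
  rw [Rz.ltY, Content.rz, gc0_idx_mid Sum.inl_injective h ha, gc0_idx_mid Sum.inl_injective h ha',
    Nat.add_lt_add_iff_left]

theorem gc0_glueRz_in [DecidableEq O] [DecidableEq I] {a a' : I} (ha : a ∈ Ct.Yb)
    (ha' : a' ∈ Ct.Yb) :
    (Ou.glueRz Ct).ltY (.inr a) (.inr a') ↔ Ct.Yb.idxOf a < Ct.Yb.idxOf a' := by
  have h : ∀ x : I, (Sum.inr x : O ⊕ I) ∉ Ou.Y₁.map .inl := by
    intro x hx
    obtain ⟨k, -, hk⟩ := List.mem_map.1 hx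
    exact Sum.inl_ne_inr hk
  rw [Rz.ltY, glueRz, gc0_idx_mid Sum.inr_injective h ha, gc0_idx_mid Sum.inr_injective h ha',
    Nat.add_lt_add_iff_left]

theorem gc0_idx_lo {N : Type} [DecidableEq N] {L₁ L₂ L₃ : List N} {a : N} (ha : a ∈ L₁) :
    (L₁ ++ L₂ ++ L₃).idxOf a < L₁.length := by
  rw [List.append_assoc, List.idxOf_append_of_mem ha]
  exact List.idxOf_lt_length_iff.2 ha

theorem gc0_idx_hi {N : Type} [DecidableEq N] {L₁ L₂ L₃ : List N} {a : N} (ha : a ∉ L₁ ++ L₂) :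
    L₁.length + L₂.length ≤ (L₁ ++ L₂ ++ L₃).idxOf a := by
  rw [List.idxOf_append_of_notMem ha, List.length_append]
  omega

omit Ou in
theorem gc0_rz_virt [DecidableEq I] {a : I} (ha : a ∈ Ct.Yb) (b : Fin n × Bool) :
    (Ct.rz.ltY (.inr b) (.inl a) ↔ b.2 = false) ∧ (Ct.rz.ltY (.inl a) (.inr b) ↔ b.2 = true) := by
  have h : ∀ x : I, (Sum.inl x : I ⊕ Fin n × Bool) ∉ List.ofFn fun k => .inr (k, false) := by
    intro x hx
    obtain ⟨k, hk⟩ := List.mem_ofFn.1 hx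
    exact Sum.inr_ne_inl hk
  have h1 := List.idxOf_lt_length_iff.2 ha
  obtain ⟨k, σ⟩ := b
  rw [Rz.ltY, Rz.ltY, Content.rz, gc0_idx_mid Sum.inl_injective h ha]
  cases σ
  · have hm : (Sum.inr (k, false) : I ⊕ Fin n × Bool) ∈ List.ofFn fun k => .inr (k, false) :=
      List.mem_ofFn.2 ⟨k, rfl⟩
    have h2 := gc0_idx_lo (L₂ := Ct.Yb.map .inl) (L₃ := List.ofFn fun k => .inr (k, true)) hm
    exact ⟨iff_of_true (h2.trans_le (Nat.le_add_right _ _)) rfl,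
      iff_of_false (not_lt.2 (h2.le.trans (Nat.le_add_right _ _))) Bool.false_ne_true⟩
  · have hm : (Sum.inr (k, true) : I ⊕ Fin n × Bool) ∉
        (List.ofFn fun k => .inr (k, false)) ++ Ct.Yb.map .inl := by
      intro hx
      rcases List.mem_append.1 hx with hx | hx
      · obtain ⟨k', hk⟩ := List.mem_ofFn.1 hx
        exact Bool.false_ne_true (congrArg Prod.snd (Sum.inr_injective hk))
      · obtain ⟨x, -, hk⟩ := List.mem_map.1 hx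
        exact Sum.inl_ne_inr hk
    have h2 := gc0_idx_hi (L₃ := List.ofFn fun k => .inr (k, true)) hm
    rw [List.length_map] at h2
    have h3 := (Nat.add_lt_add_left h1 _).trans_le h2
    exact ⟨iff_of_false (not_lt.2 h3.le) (Ne.symm Bool.false_ne_true), iff_of_true h3 rfl⟩

theorem gc0_glueRz_virt [DecidableEq O] [DecidableEq I] {a : I} (ha : a ∈ Ct.Yb)
    (b : Fin n × Bool) :
    ((Ou.glueRz Ct).ltY (.inl (Ou.ρ b)) (.inr a) ↔ b.2 = false) ∧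
      ((Ou.glueRz Ct).ltY (.inr a) (.inl (Ou.ρ b)) ↔ b.2 = true) := by
  have h0 : 0 < Ou.lv b := lt_trans (by norm_num) (Ou.lv_gt b)
  rw [Ou.glue_ltY_lo Ct (Ou.col_ρ b) ((Ct.memY a).1 ha),
    Ou.glue_ltY_hi Ct (Ou.col_ρ b) ((Ct.memY a).1 ha), Ou.pt_ρ, Collar.cl_one]
  cases b.2
  · rw [if_neg Bool.false_ne_true]
    exact ⟨iff_of_true (by linarith) rfl, iff_of_false (by linarith) Bool.false_ne_true⟩
  · rw [if_pos rfl]
    exact ⟨iff_of_false (by linarith) (Ne.symm Bool.false_ne_true), iff_of_true (by linarith) rfl⟩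

/-- the cells of the block -/
theorem gc0_cell [DecidableEq O] [DecidableEq I] {e v : I} (he : e ∈ Ct.Yb) (hv : v ∈ Ct.Xb) :
    (Ou.glueN Ct).cell (Ou.glueRz Ct) (.inr e) (.inr v) =
      Ct.grid.cell Ct.rz (.inl e) (.inl v) := by
  have key : ∀ s, (∃ a ∈ Ct.Yb, Ct.grid.nb (.inl v) s = .inl a ∧
      (Ou.glueN Ct).nb (.inr v) s = .inr a) ∨
      ∃ b, Ct.grid.nb (.inl v) s = .inr b ∧ (Ou.glueN Ct).nb (.inr v) s = .inl (Ou.ρ b) := by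
    intro s
    rcases h : Ct.C.nb (.inl v) s with a | b
    · have h1 := Ct.col_nb v s
      rw [h, (Ct.memX v).1 hv] at h1
      exact Or.inl ⟨a, (Ct.memY a).2 h1, h, Ou.glue_nb_in Ct h⟩
    · obtain ⟨rfl, rfl⟩ := (Ct.nb_eq_inr v s b).1 h
      exact Or.inr ⟨b, h, Ou.glue_nb_bc Ct b⟩
  refine cell_congr₀ (fun s => ?_) (fun s => ?_) (fun s => ?_) (fun _ => ⟨rfl, rfl⟩) (fun s => ?_)
    Iff.rfl
  · rcases key s with ⟨a, -, h1, h2⟩ | ⟨b, h1, h2⟩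
    · rw [h1, h2, Sum.inl_injective.eq_iff, Sum.inr_injective.eq_iff]
    · rw [h1, h2]
      exact iff_of_false Sum.inr_ne_inl Sum.inl_ne_inr
  · rcases key s with ⟨a, ha, h1, h2⟩ | ⟨b, h1, h2⟩
    · rw [h1, h2, gc0_rz_in Ct ha he, Ou.gc0_glueRz_in Ct ha he]
    · rw [h1, h2, (gc0_rz_virt Ct he b).1, (Ou.gc0_glueRz_virt Ct he b).1]
  · rcases key s with ⟨a, ha, h1, h2⟩ | ⟨b, h1, h2⟩
    · rw [h1, h2, gc0_rz_in Ct he ha, Ou.gc0_glueRz_in Ct he ha]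
    · rw [h1, h2, (gc0_rz_virt Ct he b).2, (Ou.gc0_glueRz_virt Ct he b).2]
  · rcases key s with ⟨a, -, h1, h2⟩ | ⟨b, h1, h2⟩
    · rw [h1, h2]
      rfl
    · rw [h1, h2]
      exact congrArg Nm.mk (Ou.lb_ρ b)

variable [Fintype O] [Fintype I] [DecidableEq O] [DecidableEq I]

theorem glue_hasWord [Fintype κ] {L : Lk κ} (hL : L.IsLink) (hν : ∀ c t, L.ν c t = ez)
    {ℓ : κ → Option ι}
    (ho : ∀ y : Option ι × E3, y.2 ∉ Qb (7 / 8) → (y ∈ picOf (L.set ℓ) ↔ y ∈ A))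
    (hi : Std (7 / 8) (L.set ℓ) Ct.pic) :
    ∃ dl : O ⊕ I → O ⊕ I → Arc κ, ((Ou.glue Ct).grid dl).OK ∧
      HasWord true L.γ (((Ou.glue Ct).grid dl).word (Ou.glueRz Ct)) ∧
      ∀ a s, ℓ (dl a ((Ou.glue Ct).nb a s)).name = Sum.elim Ou.lb Ct.lb a := by
  have hp := Ou.glue_pic Ct ho hi
  have hV := Ou.glue_valid Ct
  have hs : (Ou.glue Ct).supp = trace L.γ := by
    ext p
    rw [Conf.supp, trace, mem_iUnion, mem_iUnion]
    constructor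
    · rintro ⟨a, ha⟩
      obtain ⟨c, t, h⟩ := (hp (Sum.elim Ou.lb Ct.lb a, p)).2 ⟨a, ha, rfl⟩
      exact ⟨c, t, (congrArg (fun x => x.2.1) h).symm⟩
    · rintro ⟨c, t, rfl⟩
      obtain ⟨a, ha, -⟩ := (hp (ℓ c, L.γ c t)).1 ⟨c, t, by rw [hν]⟩
      exact ⟨a, ha⟩
  obtain ⟨dl, hdl⟩ := exists_lab hL.isU hV hs
  refine ⟨dl, hdl.ok hL.isU hV, ⟨O ⊕ I, inferInstance, inferInstance, Ou.glue Ct, dl,
    Ou.glueRz Ct, hV, hs, hdl, Ou.glue_good Ct, rfl⟩, fun a s => ?_⟩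
  obtain ⟨c, t, t', h1, -, h2, h3⟩ := hdl a s
  have h4 : (dl a ((Ou.glue Ct).nb a s)).name = c := by
    rcases h3 with ⟨-, -, h3⟩ | ⟨-, -, h3⟩ <;> rw [h3]
  have h5 : L.γ c t ∈ (Ou.glue Ct).star a :=
    (gc0_mem_star _ _ _).2 ⟨s, h2 ▸ ⟨t, ⟨le_rfl, h1.le⟩, rfl⟩⟩
  obtain ⟨c', u, h⟩ := (hp (Sum.elim Ou.lb Ct.lb a, L.γ c t)).2 ⟨a, h5, rfl⟩
  have h6 : c = c' := (hL.isU.inj c c' t u (congrArg (fun x => x.2.1) h)).1
  rw [h4, h6]
  exact (congrArg Prod.fst h).symm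

theorem zv_glue (E : EvSys ι P) {T : LS ι} (hT : IsLL T) (hv : Vertical T)
    (ho : ∀ y : Option ι × E3, y.2 ∉ Qb (7 / 8) → (y ∈ picOf T ↔ y ∈ A))
    (hi : Std (7 / 8) T Ct.pic) (p : P) :
    zv E T p = E.ev p ((Ou.glueN Ct).word (Ou.glueRz Ct)) := by
  obtain ⟨κ, _, L, ℓ, hL, rfl⟩ := hT
  have hν : ∀ c t, L.ν c t = ez := fun c t => hv _ ⟨c, t, rfl⟩
  obtain ⟨dl, hG, hw, hl⟩ := Ou.glue_hasWord Ct hL hν ho hi
  rw [zv_vertical E hL hν ℓ hw p, Grid.word_iso (R := Ou.glueRz Ct) (R' := Ou.glueRz Ct) hG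
    (Ou.glueN_ok Ct) id Function.injective_id (lbN ℓ) (fun _ => rfl) (fun _ s => ⟨s, rfl⟩)
    (fun a s => congrArg Nm.mk (hl a s).symm) (List.map_id _).symm (List.map_id _).symm
    fun _ _ => Iff.rfl]

omit [Fintype O] [Fintype I] in
theorem evs_in : (Ou.glueN Ct).evs (Ou.glueRz Ct) (Ct.Xb.map .inr) (Ct.Yb.map .inr) = Ct.word := by
  rw [Content.word, Grid.evs, Grid.evs, List.flatMap_map, List.flatMap_map]
  refine List.flatMap_congr fun e he => ?_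
  rw [List.filterMap_map, List.filterMap_map]
  exact congrArg evOf (List.filterMap_congr fun v hv => Ou.gc0_cell Ct he hv)

end Outer

end Pool.Agent.P.MP_ac4909_gt.B
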