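import Pool.Agent.P.MP_ac4909_gt.B.GB_Ang

/-! Layer G, blocks: twists of the framing are traded for curls. -/

namespace Pool.Agent.P.MP_ac4909_gt.B

open scoped ContDiff
open Set Filter Topology

variable {κ : Type} [Fintype κ] {Cl : Set E3} {γ : κ → ℝ → E3}

theorem gad_prim {f : ℝ → ℝ} (hf : ContDiff ℝ ∞ f) (a : ℝ) :
    ContDiff ℝ ∞ (fun u => ∫ x in a..u, f x) ∧
      ∀ u, HasDerivAt (fun u => ∫ x in a..u, f x) (f u) u := by
  have h : ∀ u, HasDerivAt (fun u => ∫ x in a..u, f x) (f u) u := fun u =>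
    (hf.continuous.integral_hasStrictDerivAt a u).hasDerivAt
  refine ⟨contDiff_infty_iff_deriv.2 ⟨fun u => (h u).differentiableAt, ?_⟩, h⟩
  have : deriv (fun u => ∫ x in a..u, f x) = f := funext fun u => (h u).deriv
  rw [this]
  exact hf

theorem gad_trig (n : ℤ) {u : ℝ} (hu : 1 / 2 ≤ |u|) :
    Real.cos (n * Real.pi * (1 + st u)) = 1 ∧ Real.sin (n * Real.pi * (1 + st u)) = 0 := by
  rcases le_abs'.1 hu with h | h
  · rw [st_of_le (by linarith)]
    simp
  · rw [st_of_ge h]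
    have : (n : ℝ) * Real.pi * (1 + 1) = n * (2 * Real.pi) := by ring
    rw [this]
    exact ⟨Real.cos_int_mul_two_pi n, by simpa using Real.sin_add_int_mul_two_pi 0 n⟩

theorem gad_odd (n : ℤ) (u : ℝ) :
    Real.sin (n * Real.pi * (1 + st (-u))) = -Real.sin (n * Real.pi * (1 + st u)) := by
  rw [st_neg, ← Real.sin_neg, ← Real.sin_add_int_mul_two_pi (-(n * Real.pi * (1 + st u))) n]
  congr 1
  ring

theorem gad_step : ∃ B : ℝ → ℝ, ContDiff ℝ ∞ B ∧ (∀ u, 0 ≤ deriv B u) ∧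
    (∀ u, u ≤ 1 / 2 → B u = 0 ∧ deriv B u = 0) ∧ ∀ u, 1 ≤ u → B u = 1 ∧ deriv B u = 0 := by
  refine ⟨fun u => Real.smoothTransition (4 * u - 5 / 2), ?_, fun u => ?_, fun u hu => ⟨?_, ?_⟩,
    fun u hu => ⟨?_, ?_⟩⟩
  · exact Real.smoothTransition.contDiff.comp (by fun_prop)
  · apply Monotone.deriv_nonneg
    intro a b hab
    exact Real.smoothTransition.monotone (by linarith)
  · exact Real.smoothTransition.zero_of_nonpos (by linarith)
  · have : (fun u : ℝ => Real.smoothTransition (4 * u - 5 / 2)) =ᶠ[𝓝 u] fun _ => 0 := by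
      filter_upwards [Iio_mem_nhds (show u < 5 / 8 by linarith)] with x hx
      exact Real.smoothTransition.zero_of_nonpos (by linarith [mem_Iio.1 hx])
    rw [this.deriv_eq, deriv_const]
  · exact Real.smoothTransition.one_of_one_le (by linarith)
  · have : (fun u : ℝ => Real.smoothTransition (4 * u - 5 / 2)) =ᶠ[𝓝 u] fun _ => 1 := by
      filter_upwards [Ioi_mem_nhds (show 7 / 8 < u by linarith)] with x hx
      exact Real.smoothTransition.one_of_one_le (by linarith [mem_Ioi.1 hx])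
    rw [this.deriv_eq, deriv_const]

theorem gad_int_const {f : ℝ → ℝ} {a b c : ℝ} (h : ∀ x ∈ uIcc a b, f x = c) :
    ∫ x in a..b, f x = (b - a) * c := by
  rw [intervalIntegral.integral_congr (g := fun _ => c) h]
  simp

/-- a plane curve whose direction turns like the angle of the framing -/
theorem exists_curl (n : ℤ) : ∃ P Q ρ : ℝ → ℝ, ContDiff ℝ ∞ P ∧ ContDiff ℝ ∞ Q ∧
    ContDiff ℝ ∞ ρ ∧ (∀ u, 0 < ρ u) ∧ (∀ u, 1 ≤ |u| → P u = u ∧ Q u = 0 ∧ ρ u = 1) ∧
    ∀ u, deriv P u = ρ u * Real.cos (n * Real.pi * (1 + st u)) ∧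
      deriv Q u = -(ρ u * Real.sin (n * Real.pi * (1 + st u))) := by
  obtain ⟨B, hB, hB0, hBl, hBr⟩ := gad_step
  have hφ : ContDiff ℝ ∞ fun u : ℝ => n * Real.pi * (1 + st u) :=
    contDiff_const.mul (contDiff_const.add st_contDiff)
  have hc : ContDiff ℝ ∞ fun u : ℝ => Real.cos (n * Real.pi * (1 + st u)) := hφ.cos
  have hs : ContDiff ℝ ∞ fun u : ℝ => Real.sin (n * Real.pi * (1 + st u)) := hφ.sin
  obtain ⟨hC, hC'⟩ := gad_prim hc (-1)
  obtain ⟨hS, hS'⟩ := gad_prim hs (-1)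
  obtain ⟨I, hI⟩ : ∃ I, I = ∫ x in (-1 : ℝ)..1, Real.cos (n * Real.pi * (1 + st x)) := ⟨_, rfl⟩
  have hI2 : I ≤ 2 := by
    have h1 : I ≤ ∫ _ in (-1 : ℝ)..1, (1 : ℝ) := by
      rw [hI]
      exact intervalIntegral.integral_mono_on (by norm_num)
        (hc.continuous.intervalIntegrable _ _) (continuous_const.intervalIntegrable _ _)
        fun x _ => Real.cos_le_one _
    have h2 : ∫ _ in (-1 : ℝ)..1, (1 : ℝ) = 2 := by
      simp
      norm_num
    linarith
  have hS0 : ∫ x in (-1 : ℝ)..1, Real.sin (n * Real.pi * (1 + st x)) = 0 := by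
    have h1 := intervalIntegral.integral_comp_neg (a := -1) (b := 1)
      fun x : ℝ => Real.sin (n * Real.pi * (1 + st x))
    simp only [gad_odd, intervalIntegral.integral_neg, neg_neg] at h1
    linarith
  have hBd : ContDiff ℝ ∞ (deriv B) := (contDiff_infty_iff_deriv.1 hB).2
  have hlo : ∀ u ≤ (-1 : ℝ), ∀ x ∈ uIcc (-1 : ℝ) u, 1 / 2 ≤ |x| := by
    intro u hu x hx
    rw [uIcc_of_ge hu] at hx
    exact le_abs'.2 (Or.inl (by linarith [hx.2]))
  have hhi : ∀ u ≥ (1 : ℝ), ∀ x ∈ uIcc (1 : ℝ) u, 1 / 2 ≤ |x| := by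
    intro u hu x hx
    rw [uIcc_of_le hu] at hx
    exact le_abs'.2 (Or.inr (by linarith [hx.1]))
  refine ⟨fun u => -1 + (∫ x in (-1 : ℝ)..u, Real.cos (n * Real.pi * (1 + st x))) + (2 - I) * B u,
    fun u => -∫ x in (-1 : ℝ)..u, Real.sin (n * Real.pi * (1 + st x)),
    fun u => 1 + (2 - I) * deriv B u, (contDiff_const.add hC).add (contDiff_const.mul hB),
    hS.neg, contDiff_const.add (contDiff_const.mul hBd), fun u => ?_, fun u hu => ?_,
    fun u => ⟨?_, ?_⟩⟩
  · have := mul_nonneg (sub_nonneg.2 hI2) (hB0 u)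
    show 0 < 1 + (2 - I) * deriv B u
    linarith
  · rcases le_abs'.1 hu with h | h
    · obtain ⟨h1, h2⟩ := hBl u (by linarith)
      simp only [h1, h2]
      rw [gad_int_const (c := 1) fun x hx => (gad_trig n (hlo u h x hx)).1,
        gad_int_const (c := 0) fun x hx => (gad_trig n (hlo u h x hx)).2]
      refine ⟨by ring, by ring, by ring⟩
    · obtain ⟨h1, h2⟩ := hBr u h
      simp only [h1, h2]
      rw [← intervalIntegral.integral_add_adjacent_intervals (b := 1)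
          (hc.continuous.intervalIntegrable _ _) (hc.continuous.intervalIntegrable _ _),
        ← intervalIntegral.integral_add_adjacent_intervals (b := 1)
          (hs.continuous.intervalIntegrable _ _) (hs.continuous.intervalIntegrable _ _),
        ← hI, hS0, gad_int_const (c := 1) fun x hx => (gad_trig n (hhi u h x hx)).1,
        gad_int_const (c := 0) fun x hx => (gad_trig n (hhi u h x hx)).2]
      refine ⟨by ring, by ring, by ring⟩
  · have h1 := (((hC' u).const_add (-1)).add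
      (((hB.differentiable (by simp)) u).hasDerivAt.const_mul (2 - I))).deriv
    refine Eq.trans h1 ?_
    by_cases hu : u ≤ 1 / 2
    · simp only [(hBl u hu).2]
      ring
    · simp only [(gad_trig n (le_abs'.2 (Or.inr (not_le.1 hu).le))).1]
      ring
  · refine Eq.trans (hS' u).neg.deriv ?_
    by_cases hu : u ≤ 1 / 2
    · simp only [(hBl u hu).2]
      ring
    · simp only [(gad_trig n (le_abs'.2 (Or.inr (not_le.1 hu).le))).2]
      ring

theorem gad_indep {D A : E3} {c : ℝ} (hD : D 2 = 1) (hA : A 2 = 0) (hA' : A ≠ 0) :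
    LinearIndependent ℝ ![D, A + c • D] := by
  rw [LinearIndependent.pair_iff]
  intro a b h
  have h2 := congrArg (fun x : E3 => x 2) h
  simp only [PiLp.add_apply, PiLp.smul_apply, smul_eq_mul, hD, hA, PiLp.zero_apply] at h2
  have h3 : a + b * c = 0 := by linarith
  have h4 : b • A = 0 := by
    have : b • A = a • D + b • (A + c • D) - (a + b * c) • D := by module
    rw [this, h, h3]
    simp
  have hb : b = 0 := (smul_eq_zero.1 h4).resolve_right hA'
  refine ⟨?_, hb⟩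
  rw [hb] at h3
  linarith

theorem gad_nonvert {D : E3} (h : LinearIndependent ℝ ![D, ez]) : D 0 ≠ 0 ∨ D 1 ≠ 0 := by
  by_contra hc
  rw [not_or, not_not, not_not] at hc
  rw [LinearIndependent.pair_iff] at h
  have : (1 : ℝ) • D + (-D 2) • ez = 0 := by
    ext i
    fin_cases i <;> simp [ez, hc.1, hc.2]
  exact one_ne_zero (h _ _ this).1

theorem gad_rot {v : E3} (hv₀ : v 0 ≠ 0 ∨ v 1 ≠ 0) (x : ℝ) :
    Real.cos x • (v - ez) - Real.sin x • hn v ≠ 0 := by
  intro h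
  have h0 := congrArg (fun y : E3 => y 0) h
  have h1 := congrArg (fun y : E3 => y 1) h
  simp [ez, hn] at h0 h1
  have h2 := Real.cos_sq_add_sin_sq x
  have e0 : v 0 = 0 := by
    linear_combination Real.cos x * h0 - Real.sin x * h1 - v 0 * h2
  have e1 : v 1 = 0 := by
    linear_combination Real.sin x * h0 + Real.cos x * h1 - v 1 * h2
  exact hv₀.elim (fun h => h e0) fun h => h e1

/-- the local model of the isotopy -/
theorem gad_model {v : E3} (hv₀ : v 0 ≠ 0 ∨ v 1 ≠ 0) (hv₂ : v 2 = 1) (n : ℤ) (p : E3) :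
    ∃ M > 0, ∀ ε > (0 : ℝ), ∃ g m : ℝ → ℝ → E3,
      (ContDiff ℝ ∞ fun q : ℝ × ℝ => g q.1 q.2) ∧ (ContDiff ℝ ∞ fun q : ℝ × ℝ => m q.1 q.2) ∧
      (∀ s u, (s = 0 ∨ ε ≤ |u|) → g s u = p + u • v ∧
        m s u = Real.cos (n * Real.pi * (1 + st (u / ε))) • ez +
          Real.sin (n * Real.pi * (1 + st (u / ε))) • hn v) ∧
      (∀ s, Function.Injective (g s)) ∧
      (∀ s ∈ Icc (0 : ℝ) 1, ∀ u, LinearIndependent ℝ ![deriv (g s) u, m s u]) ∧
      (∀ s ∈ Icc (0 : ℝ) 1, ∀ u, |u| ≤ ε → ‖g s u - p‖ ≤ ε * M) ∧ ∀ u, m 1 u = ez := by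
  obtain ⟨P, Q, ρ, hP, hQ, hρ, hρ0, hout, hd⟩ := exists_curl n
  have hst := st_contDiff
  have hF : Continuous fun w : ℝ => (P w - w) • (v - ez) + Q w • hn v := by
    have := hP.continuous
    have := hQ.continuous
    fun_prop
  obtain ⟨M, hM⟩ := (isCompact_Icc (a := (-1 : ℝ)) (b := 1)).exists_bound_of_continuousOn
    hF.continuousOn
  have hM0 : 0 ≤ M := (norm_nonneg _).trans (hM 0 (by norm_num))
  refine ⟨‖v‖ + M + 1, by positivity, fun ε hε => ?_⟩
  obtain ⟨D, hD⟩ : ∃ D : ℝ → ℝ → E3, ∀ s u, D s u = v + s •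
      ((ρ (u / ε) * Real.cos (n * Real.pi * (1 + st (u / ε))) - 1) • (v - ez) -
        (ρ (u / ε) * Real.sin (n * Real.pi * (1 + st (u / ε)))) • hn v) := ⟨_, fun _ _ => rfl⟩
  obtain ⟨g, hg⟩ : ∃ g : ℝ → ℝ → E3, ∀ s u, g s u = p + u • v +
      (s * ε) • ((P (u / ε) - u / ε) • (v - ez) + Q (u / ε) • hn v) := ⟨_, fun _ _ => rfl⟩
  have hder : ∀ s u, deriv (g s) u = D s u := by
    intro s u
    have hw : HasDerivAt (fun u : ℝ => u / ε) (1 / ε) u := (hasDerivAt_id u).div_const ε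
    have hP' := (((hP.differentiable (by simp)) (u / ε)).hasDerivAt).comp u hw
    have hQ' := (((hQ.differentiable (by simp)) (u / ε)).hasDerivAt).comp u hw
    have h1 := (((hasDerivAt_id u).smul_const v).const_add p).add
      ((((hP'.sub hw).smul_const (v - ez)).add (hQ'.smul_const (hn v))).const_smul (s * ε))
    have h2 : g s = fun u => p + u • v +
        (s * ε) • ((P (u / ε) - u / ε) • (v - ez) + Q (u / ε) • hn v) := funext (hg s)
    rw [h2]
    refine Eq.trans h1.deriv ?_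
    rw [hD, (hd _).1, (hd _).2]
    have e1 : ∀ x : ℝ, s * ε * (x * (1 / ε) - 1 / ε) = s * (x - 1) := fun x => by field_simp
    have e2 : ∀ x : ℝ, s * ε * (-x * (1 / ε)) = -(s * x) := fun x => by field_simp
    rw [smul_add, smul_smul, smul_smul, e1, e2]
    module
  have hez : (v - ez) 2 = 0 := by simp [ez, hv₂]
  have hez' : ez 2 = 1 := by simp [ez]
  have hhn : hn v 2 = 0 := by simp [hn]
  refine ⟨g, fun s u => (-(1 + s * (ρ (u / ε) - 1))) •
      (Real.cos (n * Real.pi * (1 + st (u / ε))) • (v - ez) -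
        Real.sin (n * Real.pi * (1 + st (u / ε))) • hn v) +
      ((1 - s) * Real.cos (n * Real.pi * (1 + st (u / ε))) + s) • D s u,
    ?_, ?_, fun s u h => ?_, fun s a b hab => ?_, fun s hs u => ?_, fun s hs u hu => ?_,
    fun u => ?_⟩
  · simp only [hg]
    fun_prop
  · simp only [hD]
    fun_prop
  · rcases h with rfl | h
    · simp only [hg, hD]
      constructor <;> module
    · have h1 : 1 ≤ |u / ε| := by
        rw [abs_div, abs_of_pos hε, le_div_iff₀ hε, one_mul]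
        exact h
      obtain ⟨e1, e2, e3⟩ := hout _ h1
      obtain ⟨e4, e5⟩ := gad_trig n (u := u / ε) (by linarith)
      simp only [hg, hD, e1, e2, e3, e4, e5]
      constructor <;> module
  · have h2 := congrArg (fun x : E3 => x 2) hab
    simp only [hg, PiLp.add_apply, PiLp.smul_apply, smul_eq_mul, hv₂, hez, hhn] at h2
    linarith
  · rw [hder]
    apply gad_indep
    · simp only [hD, PiLp.add_apply, PiLp.sub_apply, PiLp.smul_apply, smul_eq_mul, hv₂, hez', hhn]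
      ring
    · simp only [PiLp.sub_apply, PiLp.smul_apply, smul_eq_mul, hv₂, hez', hhn]
      ring
    · refine smul_ne_zero ?_ (gad_rot hv₀ _)
      have h1 := mul_nonneg hs.1 (hρ0 (u / ε)).le
      have h2 : 0 < 1 + s * (ρ (u / ε) - 1) := by
        rcases hs.2.eq_or_lt with h | h
        · rw [h]
          linarith [hρ0 (u / ε)]
        · linarith
      linarith
  · have h1 : u / ε ∈ Icc (-1 : ℝ) 1 := by
      rw [mem_Icc, ← abs_le, abs_div, abs_of_pos hε, div_le_one hε]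
      exact hu
    have h2 : g s u - p = u • v +
        (s * ε) • ((P (u / ε) - u / ε) • (v - ez) + Q (u / ε) • hn v) := by
      rw [hg]
      abel
    rw [h2]
    refine (norm_add_le _ _).trans ?_
    rw [norm_smul, norm_smul, Real.norm_eq_abs, Real.norm_eq_abs,
      abs_of_nonneg (mul_nonneg hs.1 hε.le)]
    have h3 := mul_le_mul_of_nonneg_right hu (norm_nonneg v)
    have h4 : s * ε ≤ ε := mul_le_of_le_one_left hε.le hs.2
    have h5 := mul_le_mul h4 (hM _ h1) (norm_nonneg _) hε.le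
    linarith
  · simp only [hD]
    module

theorem gad_z2_sub {x y : ℝ} (hx : Z2 x) (hy : Z2 y) : Z2 (x - y) := by
  obtain ⟨a, rfl⟩ := hx
  obtain ⟨b, rfl⟩ := hy
  exact ⟨a - b, by push_cast; ring⟩

theorem gad_trig_sub {x y : ℝ} (hy : Z2 y) :
    Real.cos (x - y) = Real.cos x ∧ Real.sin (x - y) = Real.sin x := by
  obtain ⟨b, rfl⟩ := hy
  rw [mul_comm]
  exact ⟨Real.cos_sub_int_mul_two_pi x b, Real.sin_sub_int_mul_two_pi x b⟩

theorem exists_gadget (hγ : IsU γ) (hv : NonVert γ) (hCl : IsClosed Cl) {c₀ : κ} {t₀ ε₁ : ℝ}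
    (h₀ : γ c₀ t₀ ∉ Cl) (h₁ : 0 < ε₁) (h₂ : ε₁ < 1 / 2) {v : E3} (hv₀ : v 0 ≠ 0 ∨ v 1 ≠ 0)
    (hv₂ : v 2 = 1) (hl : ∀ u, |u| ≤ ε₁ → γ c₀ (t₀ + u) = γ c₀ t₀ + u • v) (n : ℤ) :
    ∃ ε ∈ Ioo 0 ε₁, ∀ θ, AngOK θ → ∀ k : ℤ,
      (∀ u, |u| ≤ ε₁ → θ c₀ (t₀ + u) = 2 * Real.pi * k + n * Real.pi * (1 + st (u / ε))) →
      ∃ γ' θ', IsU γ' ∧ NonVert γ' ∧ AngOK θ' ∧ RelIso Cl (ang γ θ) (ang γ' θ') ∧
        (∀ c t, Z2 (θ c t) → Z2 (θ' c t)) ∧ ∀ u, |u| ≤ ε₁ → Z2 (θ' c₀ (t₀ + u)) := by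
  classical
  obtain ⟨d, hd, hdC, hdL⟩ := hγ.exists_ball hCl (c₀ := c₀) (t₀ := t₀) (half_pos h₁) h₀
  obtain ⟨M, hM, hmod⟩ := gad_model hv₀ hv₂ n (γ c₀ t₀)
  obtain ⟨ε, hε, hε₁, hεM⟩ : ∃ ε > (0 : ℝ), ε < ε₁ / 2 ∧ ε * M < d := by
    refine ⟨min (ε₁ / 4) (d / (2 * M)), lt_min (by linarith) (by positivity),
      (min_le_left _ _).trans_lt (by linarith), ?_⟩
    have h1 : min (ε₁ / 4) (d / (2 * M)) * M ≤ d / (2 * M) * M :=
      mul_le_mul_of_nonneg_right (min_le_right _ _) hM.le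
    have h2 : d / (2 * M) * M = d / 2 := by field_simp
    linarith
  refine ⟨ε, ⟨hε, by linarith⟩, fun θ hθ k hk => ?_⟩
  obtain ⟨g, m, hg, hm, hout, hinj, hind, hbd, hm1⟩ := hmod ε hε
  have hder : ∀ u, |u| ≤ ε₁ / 2 → deriv (γ c₀) (t₀ + u) = v := by
    intro u hu
    rw [abs_le] at hu
    have h1 : γ c₀ =ᶠ[𝓝 (t₀ + u)] fun t => γ c₀ t₀ + (t - t₀) • v := by
      filter_upwards [Ioo_mem_nhds (show t₀ - ε₁ < t₀ + u by linarith)
        (show t₀ + u < t₀ + ε₁ by linarith)] with t ht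
      have := hl (t - t₀) (abs_le.2 ⟨by linarith [ht.1], by linarith [ht.2]⟩)
      rwa [add_sub_cancel] at this
    rw [h1.deriv_eq]
    have h2 := ((((hasDerivAt_id (t₀ + u)).sub_const t₀).smul_const v).const_add (γ c₀ t₀)).deriv
    rw [one_smul] at h2
    exact h2
  have hagree : ∀ s u, (s = 0 ∨ ε ≤ |u|) → |u| ≤ ε₁ / 2 →
      g s u = (ang γ θ).γ c₀ (t₀ + u) ∧ m s u = (ang γ θ).ν c₀ (t₀ + u) := by
    intro s u h hu
    obtain ⟨e1, e2⟩ := hout s u h
    refine ⟨e1.trans (hl u (by linarith)).symm, e2.trans ?_⟩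
    show _ = Real.cos (θ c₀ (t₀ + u)) • ez + Real.sin (θ c₀ (t₀ + u)) • hn (deriv (γ c₀) (t₀ + u))
    rw [hder u hu, hk u (by linarith), add_comm (2 * Real.pi * k), mul_comm (2 * Real.pi),
      Real.cos_add_int_mul_two_pi, Real.sin_add_int_mul_two_pi]
  obtain ⟨L', hrel, hoff, hnear⟩ := relIso_local (Cl := Cl) (ang_isLink hγ hv hθ)
    (V := Metric.ball (γ c₀ t₀) d) c₀ t₀ hε hε₁ (by linarith) hg hm
    (fun u hu => hagree 0 u (Or.inl rfl) hu) (fun s _ u h hu => hagree s u (Or.inr h) hu)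
    (fun s _ => (hinj s).injOn) (fun s hs u _ => hind s hs u)
    (fun s hs u hu => by
      rw [mem_ball_iff_norm]
      exact (hbd s hs u hu).trans_lt hεM) hdC hdL
  have hL' := hrel.isLink
  obtain ⟨Θ, hΘ, hΘp, hΘn, hΘz⟩ := exists_stair t₀ hε (by linarith) n
  obtain ⟨θ', hθ'⟩ : ∃ θ' : κ → ℝ → ℝ, ∀ c t, θ' c t = θ c t - if c = c₀ then Θ t else 0 :=
    ⟨_, fun _ _ => rfl⟩
  have hok : AngOK θ' := by
    refine ⟨fun c => ?_, fun c => ?_⟩
    · have : θ' c = fun t => θ c t - if c = c₀ then Θ t else 0 := funext (hθ' c)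
      rw [this]
      by_cases hc : c = c₀
      · simp only [if_pos hc]
        exact (hθ.smooth c).sub hΘ
      · simp only [if_neg hc]
        exact (hθ.smooth c).sub contDiff_const
    · obtain ⟨j, hj⟩ := hθ.per c
      by_cases hc : c = c₀
      · refine ⟨j - n, fun t => ?_⟩
        rw [hθ', hθ', if_pos hc, if_pos hc, hj, hΘp]
        push_cast
        ring
      · refine ⟨j, fun t => ?_⟩
        rw [hθ', hθ', if_neg hc, if_neg hc, hj]
        ring
  have hsite : ∀ u, |u| ≤ ε₁ → Z2 (θ' c₀ (t₀ + u)) := by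
    intro u hu
    refine ⟨k, ?_⟩
    rw [hθ', if_pos rfl, hk u hu, hΘn u (by linarith)]
    ring
  have hA : ∀ c t, Off c₀ t₀ (ε₁ / 2) c t → deriv (L'.γ c) t = deriv (γ c) t ∧
      L'.ν c t = (ang γ θ).ν c t ∧ Z2 (if c = c₀ then Θ t else 0) := by
    intro c t h
    refine ⟨?_, (hoff c t (h.mono hε₁.le)).2, ?_⟩
    · apply Filter.EventuallyEq.deriv_eq
      filter_upwards [h.eventually hε₁] with t' ht'
      exact (hoff c t' ht').1
    · by_cases hc : c = c₀
      · rw [if_pos hc]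
        exact hΘz t fun j => le_trans (by linarith) (h hc j)
      · rw [if_neg hc]
        exact ⟨0, by simp⟩
  have hB : ∀ c t, ¬ Off c₀ t₀ (ε₁ / 2) c t → L'.ν c t = ez ∧ Z2 (θ' c t) := by
    intro c t h
    simp only [Off, not_forall, not_le] at h
    obtain ⟨rfl, j, hj⟩ := h
    have ht : t = t₀ + (t - t₀ - j) + j := by ring
    constructor
    · have hp : Function.Periodic (L'.ν c) 1 := hL'.per c
      have h1 := hp.int_mul j (t₀ + (t - t₀ - j))
      rw [mul_one, ← ht] at h1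
      rw [h1, (hnear _ hj.le).2, hm1]
    · rw [ht]
      exact hok.z2_add_int (hsite _ (by linarith)) j
  have heq : L' = ang L'.γ θ' := by
    have : L'.ν = (ang L'.γ θ').ν := by
      funext c t
      by_cases h : Off c₀ t₀ (ε₁ / 2) c t
      · obtain ⟨e1, e2, e3⟩ := hA c t h
        rw [e2]
        show Real.cos (θ c t) • ez + Real.sin (θ c t) • hn (deriv (γ c) t) =
          Real.cos (θ' c t) • ez + Real.sin (θ' c t) • hn (deriv (L'.γ c) t)
        rw [e1, hθ', (gad_trig_sub e3).1, (gad_trig_sub e3).2]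
      · obtain ⟨e1, e2⟩ := hB c t h
        rw [e1, ang_of_z2 e2]
    obtain ⟨γ', ν'⟩ := L'
    exact congrArg (Lk.mk γ') this
  refine ⟨L'.γ, θ', hL'.isU, fun c t => ?_, hok, heq ▸ hrel, fun c t hz => ?_, hsite⟩
  · by_cases h : Off c₀ t₀ (ε₁ / 2) c t
    · rw [(hA c t h).1]
      exact hv c t
    · apply gad_nonvert
      rw [← (hB c t h).1]
      exact hL'.indep c t
  · by_cases h : Off c₀ t₀ (ε₁ / 2) c t
    · rw [hθ']
      exact gad_z2_sub hz (hA c t h).2.2
    · exact (hB c t h).2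

end Pool.Agent.P.MP_ac4909_gt.B
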