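import Pool.Agent.P.MP_ac4909_gt.B.GB_Good0

/-! Layer G, blocks: height gaps at the crossings outside the block. -/

namespace Pool.Agent.P.MP_ac4909_gt.B

open scoped ContDiff
open Set Filter Topology

variable {ι I O : Type} {n : ℕ} {Co : Collar n ι} {A : Pic ι} (Ou : Outer Co A O)
  (Ct : Content Co I) [DecidableEq O] [DecidableEq I]

theorem ggap_asymmX {N : Type} [DecidableEq N] {R : Rz N} {a b : N} (h : R.ltX a b)
    (h' : R.ltX b a) : False := lt_asymm h h'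

theorem ggap_asymmY {N : Type} [DecidableEq N] {R : Rz N} {a b : N} (h : R.ltY a b)
    (h' : R.ltY b a) : False := lt_asymm h h'

theorem ggap_colX {N : Type} [DecidableEq N] {R : Rz N} {col : N → Bool} (hR : R.OK col) {a b : N}
    (h : R.ltX a b) : col a = true :=
  (hR.memX a).1 (List.idxOf_lt_length_iff.1 (lt_of_lt_of_le h List.idxOf_le_length))

theorem ggap_colY {N : Type} [DecidableEq N] {R : Rz N} {col : N → Bool} (hR : R.OK col) {a b : N}
    (h : R.ltY a b) : col a = false :=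
  (hR.memY a).1 (List.idxOf_lt_length_iff.1 (lt_of_lt_of_le h List.idxOf_le_length))

theorem ggap_x (b : Fin n × Bool) {t : ℝ} (h0 : 0 < t) (h1 : t ≤ 1) :
    -(3 / 4) ≤ Co.cl b t 0 ∧ Co.cl b t 0 ≤ 3 / 4 := abs_le.1 (Co.boxx b t ⟨h0, h1⟩)

omit [DecidableEq O] in
theorem ggap_lv (b : Fin n × Bool) : 0 < Ou.lv b ∧ Ou.lv b ≤ 1 :=
  ⟨by linarith [Ou.lv_gt b], by linarith [Ou.lv_lt b]⟩

omit [DecidableEq O] in
theorem ggap_ρx (b : Fin n × Bool) : -(3 / 4) ≤ Ou.C.pt (.inl (Ou.ρ b)) 0 ∧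
    Ou.C.pt (.inl (Ou.ρ b)) 0 ≤ 3 / 4 := by
  rw [Ou.pt_ρ]
  exact ggap_x b (ggap_lv Ou b).1 (ggap_lv Ou b).2

omit [DecidableEq O] in
theorem ggap_ρy (b : Fin n × Bool) : -13 / 16 < Ou.C.pt (.inl (Ou.ρ b)) 1 ∧
    Ou.C.pt (.inl (Ou.ρ b)) 1 < 13 / 16 := by
  rw [Ou.pt_ρ, Collar.cl_one]
  have h1 := Ou.lv_gt b
  have h2 := Ou.lv_lt b
  split_ifs <;> constructor <;> linarith

omit [DecidableEq O] [DecidableEq I] in
/-- the neighbours of an outer object -/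
theorem ggap_nb_out (c : O) (s : Bool) :
    (∃ m, Ou.C.nb (.inl c) s = .inl m ∧ (Ou.glue Ct).nb (.inl c) s = .inl m) ∨
      ∃ b, c = Ou.ρ b ∧ s = Ou.sd b ∧ (Ou.glue Ct).nb (.inl c) s = .inr (Ct.bc b) := by
  rcases h : Ou.C.nb (.inl c) s with m | b
  · exact Or.inl ⟨m, rfl, Ou.glue_nb_out Ct h⟩
  · obtain ⟨rfl, rfl⟩ := (Ou.nb_eq_inr c s b).1 h
    exact Or.inr ⟨b, rfl, rfl, Ou.glue_nb_ρ Ct b⟩

omit [DecidableEq O] [DecidableEq I] in
/-- the neighbours of an inner object -/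
theorem ggap_nb_in (c : I) (s : Bool) :
    (∃ m, Ct.C.nb (.inl c) s = .inl m ∧ (Ou.glue Ct).nb (.inr c) s = .inr m) ∨
      ∃ b, c = Ct.bc b ∧ s = false ∧ (Ou.glue Ct).nb (.inr c) s = .inl (Ou.ρ b) := by
  rcases h : Ct.C.nb (.inl c) s with m | b
  · exact Or.inl ⟨m, rfl, Ou.glue_nb_in Ct h⟩
  · obtain ⟨rfl, rfl⟩ := (Ct.nb_eq_inr c s b).1 h
    exact Or.inr ⟨b, rfl, rfl, Ou.glue_nb_bc Ct b⟩

omit [DecidableEq O] in
theorem ggap_col_out {c m : O} {s : Bool} (h : Ou.C.nb (.inl c) s = .inl m) :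
    Ou.C.col (.inl m) = !Ou.C.col (.inl c) := by
  rw [← h, Ou.col_nb]

omit [DecidableEq I] in
theorem ggap_col_in {c m : I} {s : Bool} (h : Ct.C.nb (.inl c) s = .inl m) :
    Ct.C.col (.inl m) = !Ct.C.col (.inl c) := by
  rw [← h, Ct.col_nb]

/-- an outer column does not cross an inner row -/
theorem ggap_out_in {a : O} {c : I} (ha : Ou.C.col (.inl a) = true)
    (hc : Ct.C.col (.inl c) = false) {s : Bool}
    (h1 : (Ou.glueRz Ct).ltX ((Ou.glue Ct).nb (.inr c) s) (.inl a))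
    (h2 : (Ou.glueRz Ct).ltX (.inl a) ((Ou.glue Ct).nb (.inr c) (!s))) : False := by
  have key : ∀ t, ∃ m, Ct.C.col (.inl m) = true ∧ (Ou.glue Ct).nb (.inr c) t = .inr m := by
    intro t
    rcases ggap_nb_in Ou Ct c t with ⟨m, e1, e2⟩ | ⟨b, rfl, -, -⟩
    · exact ⟨m, by rw [ggap_col_in Ct e1, hc]; rfl, e2⟩
    · rw [Ct.col_bc] at hc
      exact absurd hc (by simp)
  obtain ⟨m, hm, e⟩ := key s
  obtain ⟨m', hm', e'⟩ := key (!s)
  rw [e, Ou.glue_ltX_hi Ct ha hm] at h1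
  rw [e', Ou.glue_ltX_lo Ct ha hm'] at h2
  linarith

/-- an outer row that crosses an inner column lies between the block and a collar row -/
theorem ggap_in_out_y {a : I} {c : O} (ha : Ct.C.col (.inl a) = true)
    (hc : Ou.C.col (.inl c) = false) {s : Bool}
    (h1 : (Ou.glueRz Ct).ltY ((Ou.glue Ct).nb (.inr a) s) (.inl c))
    (h2 : (Ou.glueRz Ct).ltY (.inl c) ((Ou.glue Ct).nb (.inr a) (!s))) :
    ∃ b, a = Ct.bc b ∧ c ≠ Ou.ρ b ∧
      ((b.2 = false ∧ -Ou.lv b ≤ Ou.C.pt (.inl c) 1 ∧ Ou.C.pt (.inl c) 1 < 0) ∨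
        (b.2 = true ∧ 0 ≤ Ou.C.pt (.inl c) 1 ∧ Ou.C.pt (.inl c) 1 ≤ Ou.lv b)) := by
  have hcol : ∀ {t m}, Ct.C.nb (.inl a) t = .inl m → Ct.C.col (.inl m) = false := by
    intro t m e
    rw [ggap_col_in Ct e, ha]
    rfl
  rcases ggap_nb_in Ou Ct a s with ⟨m, e1, e2⟩ | ⟨b, rfl, rfl, e2⟩
  · rw [e2, Ou.glue_ltY_hi Ct hc (hcol e1)] at h1
    rcases ggap_nb_in Ou Ct a (!s) with ⟨m', e3, e4⟩ | ⟨b, rfl, -, e4⟩
    · rw [e4, Ou.glue_ltY_lo Ct hc (hcol e3)] at h2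
      linarith
    · rw [e4] at h2
      have h3 : Ou.C.pt (.inl c) 1 ≤ Ou.C.pt (.inl (Ou.ρ b)) 1 := not_lt.1 fun h =>
        ggap_asymmY h2 (Ou.glue_ltY_out Ct (Ou.col_ρ b) hc h)
      refine ⟨b, rfl, ?_, Or.inr ?_⟩
      · rintro rfl
        exact ggap_asymmY h2 h2
      · rw [Ou.pt_ρ, Collar.cl_one] at h3
        have := (ggap_lv Ou b).1
        cases hb : b.2
        · simp only [hb, Bool.false_eq_true, if_false] at h3
          linarith
        · simp only [hb, if_true] at h3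
          exact ⟨rfl, h1, by linarith⟩
  · obtain ⟨r, hr⟩ := Ct.exists_in b
    have e3 : (Ou.glue Ct).nb (.inr (Ct.bc b)) (!false) = .inr r := Ou.glue_nb_in Ct hr
    rw [e3, Ou.glue_ltY_lo Ct hc (hcol hr)] at h2
    rw [e2] at h1
    have h3 : Ou.C.pt (.inl (Ou.ρ b)) 1 ≤ Ou.C.pt (.inl c) 1 := not_lt.1 fun h =>
      ggap_asymmY h1 (Ou.glue_ltY_out Ct hc (Ou.col_ρ b) h)
    refine ⟨b, rfl, ?_, Or.inl ?_⟩
    · rintro rfl
      exact ggap_asymmY h1 h1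
    · rw [Ou.pt_ρ, Collar.cl_one] at h3
      have := (ggap_lv Ou b).1
      cases hb : b.2
      · simp only [hb, Bool.false_eq_true, if_false] at h3
        exact ⟨rfl, by linarith, h2⟩
      · simp only [hb, if_true] at h3
        linarith

/-- a collar row that crosses an inner column comes from the left -/
theorem ggap_ρ_in {a : I} (ha : Ct.C.col (.inl a) = true) (b : Fin n × Bool) {s : Bool}
    (h2 : (Ou.glueRz Ct).ltX (.inr a) ((Ou.glue Ct).nb (.inl (Ou.ρ b)) (!s))) :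
    (Ou.glueRz Ct).ltX (.inr a) (.inr (Ct.bc b)) := by
  rcases ggap_nb_out Ou Ct (Ou.ρ b) (!s) with ⟨m, e1, e2⟩ | ⟨b', e1, -, e2⟩
  · exfalso
    have hm : Ou.C.col (.inl m) = true := by
      rw [ggap_col_out Ou e1, Ou.col_ρ]
      rfl
    rw [e2, Ou.glue_ltX_hi Ct hm ha] at h2
    obtain ⟨t, ht, e⟩ := Ou.pos_ρ b (Ou.nb_mem_star e1)
    have := (ggap_x (Co := Co) b ht.1 (by linarith [ht.2])).2
    rw [e] at this
    linarith
  · rw [e2, ← Ou.ρ_inj e1] at h2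
    exact h2

theorem ggap_in_out (hζ : ∀ b, Co.ζ b = 0) {a : I} {c : O} (ha : Ct.C.col (.inl a) = true)
    (hc : Ou.C.col (.inl c) = false) {s s' : Bool}
    (h1 : (Ou.glueRz Ct).ltY ((Ou.glue Ct).nb (.inr a) s) (.inl c))
    (h2 : (Ou.glueRz Ct).ltY (.inl c) ((Ou.glue Ct).nb (.inr a) (!s)))
    (h3 : (Ou.glueRz Ct).ltX ((Ou.glue Ct).nb (.inl c) s') (.inr a))
    (h4 : (Ou.glueRz Ct).ltX (.inr a) ((Ou.glue Ct).nb (.inl c) (!s'))) :
    13 / 16 < |Ct.C.pt (.inl a) 2 - Ou.C.pt (.inl c) 2| := by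
  obtain ⟨b, rfl, hne, hy⟩ := ggap_in_out_y Ou Ct ha hc h1 h2
  have l1 := Ou.lv_gt b
  have l2 := Ou.lv_lt b
  by_cases hρ : ∃ b', c = Ou.ρ b'
  · exfalso
    obtain ⟨b', rfl⟩ := hρ
    have h5 := ggap_ρ_in Ou Ct ha b' h4
    have l3 := Ou.lv_gt b'
    rw [Ou.pt_ρ, Collar.cl_one] at hy
    obtain ⟨k, σ⟩ := b
    obtain ⟨k', σ'⟩ := b'
    have key : σ' = σ ∧ Ou.lv (k', σ') ≤ Ou.lv (k, σ) := by
      cases σ <;> cases σ' <;> simp at hy ⊢ <;> linarith [hy.1, hy.2]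
    obtain ⟨rfl, hle⟩ := key
    rcases lt_trichotomy k k' with h | rfl | h
    · exact absurd (Ou.stagger k k' σ' h (by rw [hζ, hζ])) (not_lt.2 hle)
    · exact hne rfl
    · refine ggap_asymmX h5 (Ou.glue_ltX_in Ct (Ct.col_bc _) (Ct.col_bc _) ?_)
      rw [Ct.pt_bc, Ct.pt_bc, Collar.cl_zero, Collar.cl_zero]
      exact Co.order k' k σ' h (by rw [hζ, hζ]) _ (Ct.lv_pos _) _ (Ct.lv_pos _)
  · have hρ' : ∀ b', c ≠ Ou.ρ b' := fun b' e => hρ ⟨b', e⟩
    obtain ⟨m, e1⟩ := Ou.nb_inl hρ' s'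
    obtain ⟨m', e2⟩ := Ou.nb_inl hρ' (!s')
    have hm : Ou.C.col (.inl m) = true := by
      rw [ggap_col_out Ou e1, hc]
      rfl
    have hm' : Ou.C.col (.inl m') = true := by
      rw [ggap_col_out Ou e2, hc]
      rfl
    rw [Ou.glue_nb_out Ct e1, Ou.glue_ltX_lo Ct hm ha] at h3
    rw [Ou.glue_nb_out Ct e2, Ou.glue_ltX_hi Ct hm' ha] at h4
    have p1 := Ou.nb_mem_star e1
    have p2 := Ou.nb_mem_star e2
    have p3 := Ou.pt_mem_star c
    have hy' : -Ou.lv b ≤ Ou.C.pt (.inl c) 1 ∧ Ou.C.pt (.inl c) 1 ≤ Ou.lv b := by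
      rcases hy with ⟨-, q1, q2⟩ | ⟨-, q1, q2⟩ <;> constructor <;> linarith
    rw [Ct.pt_bc, Collar.cl_two, hζ, zero_sub, abs_neg]
    rcases Ou.pos c hρ' with ⟨i, hi⟩ | ⟨b', hb'⟩
    · fin_cases i
      · exfalso
        rcases hi with hi | hi
        · have : Ou.C.pt (.inl m') 0 < -13 / 16 := hi _ p2
          linarith
        · have : 13 / 16 < Ou.C.pt (.inl m) 0 := hi _ p1
          linarith
      · exfalso
        rcases hi with hi | hi
        · have : Ou.C.pt (.inl c) 1 < -13 / 16 := hi _ p3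
          linarith [hy'.1]
        · have : 13 / 16 < Ou.C.pt (.inl c) 1 := hi _ p3
          linarith [hy'.2]
      · rcases hi with hi | hi
        · have : Ou.C.pt (.inl c) 2 < -13 / 16 := hi _ p3
          exact lt_abs.2 (Or.inr (by linarith))
        · have : 13 / 16 < Ou.C.pt (.inl c) 2 := hi _ p3
          exact lt_abs.2 (Or.inl this)
    · exfalso
      obtain ⟨t, ht, e⟩ := hb' p2
      have := (ggap_x (Co := Co) b' (by linarith [ht.1, (ggap_lv Ou b').1]) ht.2).2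
      rw [e] at this
      linarith

omit [DecidableEq O] in
/-- a column inside a collar that passes the level of a collar row on its left -/
theorem ggap_collar (hζ : ∀ b, Co.ζ b = 0) {b b' : Fin n × Bool} {p q r : E3}
    (hp : p ∈ Co.cl b' '' Icc (Ou.lv b') 1) (hq : q ∈ Co.cl b' '' Icc (Ou.lv b') 1)
    (hr : r ∈ Co.cl b' '' Icc (Ou.lv b') 1) (h1 : p 1 ≤ Co.cl b (Ou.lv b) 1)
    (h2 : Co.cl b (Ou.lv b) 1 ≤ q 1) (h3 : Co.cl b (Ou.lv b) 0 < r 0) :
    p = Co.cl b (Ou.lv b) ∨ q = Co.cl b (Ou.lv b) := by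
  obtain ⟨t, ht, rfl⟩ := hp
  obtain ⟨t', ht', rfl⟩ := hq
  obtain ⟨u, hu, rfl⟩ := hr
  have l1 := (ggap_lv Ou b).1
  have l2 := (ggap_lv Ou b').1
  obtain ⟨k, σ⟩ := b
  obtain ⟨k', σ'⟩ := b'
  simp only [Collar.cl_one, Collar.cl_zero] at h1 h2 h3
  have key : σ' = σ ∧ Ou.lv (k', σ') ≤ Ou.lv (k, σ) := by
    cases σ <;> cases σ' <;> simp at h1 h2 ⊢ <;> linarith [ht.1, ht'.1]
  obtain ⟨rfl, hle⟩ := key
  rcases lt_trichotomy k k' with h | rfl | h
  · exact absurd (Ou.stagger k k' σ' h (by rw [hζ, hζ])) (not_lt.2 hle)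
  · cases σ'
    · right
      simp at h2
      rw [le_antisymm h2 ht'.1]
    · left
      simp at h1
      rw [le_antisymm h1 ht.1]
  · exact absurd (Co.order k' k σ' h (by rw [hζ, hζ]) _ (by linarith [hu.1]) _ l1) (not_lt.2 h3.le)

theorem ggap_out_out (hζ : ∀ b, Co.ζ b = 0) {d : ℝ} (hM : Ou.Margin d) (hd : d ≤ 1 / 16)
    {a c : O} (ha : Ou.C.col (.inl a) = true) (hc : Ou.C.col (.inl c) = false) {s s' : Bool}
    (h1 : (Ou.glueRz Ct).ltY ((Ou.glue Ct).nb (.inl a) s) (.inl c))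
    (h2 : (Ou.glueRz Ct).ltY (.inl c) ((Ou.glue Ct).nb (.inl a) (!s)))
    (h3 : (Ou.glueRz Ct).ltX ((Ou.glue Ct).nb (.inl c) s') (.inl a))
    (h4 : (Ou.glueRz Ct).ltX (.inl a) ((Ou.glue Ct).nb (.inl c) (!s'))) :
    d < |Ou.C.pt (.inl a) 2 - Ou.C.pt (.inl c) 2| := by
  have hρ : ∀ b, a ≠ Ou.ρ b := by
    rintro b rfl
    rw [Ou.col_ρ] at ha
    exact absurd ha (by simp)
  obtain ⟨r, e1⟩ := Ou.nb_inl hρ s
  obtain ⟨r', e2⟩ := Ou.nb_inl hρ (!s)
  have hr : Ou.C.col (.inl r) = false := by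
    rw [ggap_col_out Ou e1, ha]
    rfl
  have hr' : Ou.C.col (.inl r') = false := by
    rw [ggap_col_out Ou e2, ha]
    rfl
  rw [Ou.glue_nb_out Ct e1] at h1
  rw [Ou.glue_nb_out Ct e2] at h2
  have y1 : Ou.C.pt (.inl r) 1 ≤ Ou.C.pt (.inl c) 1 := not_lt.1 fun h =>
    ggap_asymmY h1 (Ou.glue_ltY_out Ct hc hr h)
  have y2 : Ou.C.pt (.inl c) 1 ≤ Ou.C.pt (.inl r') 1 := not_lt.1 fun h =>
    ggap_asymmY h2 (Ou.glue_ltY_out Ct hr' hc h)
  have n1 : r ≠ c := by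
    rintro rfl
    exact ggap_asymmY h1 h1
  have n2 : r' ≠ c := by
    rintro rfl
    exact ggap_asymmY h2 h2
  have p1 := Ou.nb_mem_star e1
  have p2 := Ou.nb_mem_star e2
  have pa := Ou.pt_mem_star a
  have pc := Ou.pt_mem_star c
  have hfar : Ou.C.Far (.inl a) (.inl c) := by
    refine ⟨fun e => ?_, fun t e => ?_, fun t t' e => ?_⟩
    · rw [e, hc] at ha
      exact absurd ha (by simp)
    · by_cases ht : t = s
      · rw [ht, e1] at e
        exact n1 (Sum.inl.inj e)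
      · rw [Bool.eq_not_of_ne ht, e2] at e
        exact n2 (Sum.inl.inj e)
    · have q1 := Ou.col_nb a t
      have q2 := Ou.col_nb c t'
      rw [e, q2, ha, hc] at q1
      exact absurd q1 (by simp)
  have hcol : ∀ {t m}, Ou.C.nb (.inl c) t = .inl m → Ou.C.col (.inl m) = true := by
    intro t m e
    rw [ggap_col_out Ou e, hc]
    rfl
  rcases hM a c hfar with ⟨i, hi, hs⟩ | hz | hz
  · fin_cases i
    · rcases hs with hs | hs
      · exfalso
        rcases ggap_nb_out Ou Ct c s' with ⟨m, e3, e4⟩ | ⟨b, rfl, -, e4⟩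
        · rw [e4] at h3
          exact ggap_asymmX h3 (Ou.glue_ltX_out Ct ha (hcol e3) (hs _ pa _ (Ou.nb_mem_star e3)))
        · rw [e4, Ou.glue_ltX_hi Ct ha (Ct.col_bc b)] at h3
          have q1 : Ou.C.pt (.inl a) 0 < Ou.C.pt (.inl (Ou.ρ b)) 0 := hs _ pa _ pc
          linarith [(ggap_ρx Ou b).2]
      · rcases ggap_nb_out Ou Ct c (!s') with ⟨m, e3, e4⟩ | ⟨b, rfl, -, e4⟩
        · rw [e4] at h4
          exact (ggap_asymmX h4
            (Ou.glue_ltX_out Ct (hcol e3) ha (hs _ (Ou.nb_mem_star e3) _ pa))).elim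
        · rw [e4, Ou.glue_ltX_lo Ct ha (Ct.col_bc b)] at h4
          have q1 : Ou.C.pt (.inl (Ou.ρ b)) 0 < Ou.C.pt (.inl a) 0 := hs _ pc _ pa
          rcases Ou.pos a hρ with ⟨j, hj⟩ | ⟨b', hb'⟩
          · fin_cases j
            · exfalso
              rcases hj with hj | hj
              · have : Ou.C.pt (.inl a) 0 < -13 / 16 := hj _ pa
                linarith [(ggap_ρx Ou b).1]
              · have : 13 / 16 < Ou.C.pt (.inl a) 0 := hj _ pa
                linarith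
            · exfalso
              rcases hj with hj | hj
              · have : Ou.C.pt (.inl r') 1 < -13 / 16 := hj _ p2
                linarith [(ggap_ρy Ou b).1]
              · have : 13 / 16 < Ou.C.pt (.inl r) 1 := hj _ p1
                linarith [(ggap_ρy Ou b).2]
            · rw [Ou.pt_ρ, Collar.cl_two, hζ, sub_zero]
              rcases hj with hj | hj
              · have : Ou.C.pt (.inl a) 2 < -13 / 16 := hj _ pa
                exact lt_abs.2 (Or.inr (by linarith))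
              · have : 13 / 16 < Ou.C.pt (.inl a) 2 := hj _ pa
                exact lt_abs.2 (Or.inl (by linarith))
          · exfalso
            rw [Ou.pt_ρ] at y1 y2 q1
            have hinj := (Ou.glue_valid Ct).pt_inj
            rcases ggap_collar Ou hζ (hb' p1) (hb' p2) (hb' pa) y1 y2 q1 with e | e
            · rw [← Ou.pt_ρ] at e
              exact n1 (Sum.inl.inj (hinj (a₁ := .inl r) (a₂ := .inl (Ou.ρ b)) e))
            · rw [← Ou.pt_ρ] at e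
              exact n2 (Sum.inl.inj (hinj (a₁ := .inl r') (a₂ := .inl (Ou.ρ b)) e))
    · exfalso
      rcases hs with hs | hs
      · exact absurd (hs _ p2 _ pc) (not_lt.2 y2)
      · exact absurd (hs _ pc _ p1) (not_lt.2 y1)
    · exact absurd rfl hi
  · exact lt_abs.2 (Or.inr (by linarith [hz _ pa _ pc]))
  · exact lt_abs.2 (Or.inl (by linarith [hz _ pa _ pc]))

theorem Outer.cross_gap (hζ : ∀ b, Co.ζ b = 0) {d : ℝ} (hM : Ou.Margin d) (hd : d ≤ 1 / 16)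
    {α : Type} (dl : O ⊕ I → O ⊕ I → α) {v e : O ⊕ I}
    (h : ((Ou.glue Ct).grid dl).Crossing (Ou.glueRz Ct) v e)
    (hve : v.isLeft = true ∨ e.isLeft = true) :
    d < |(Ou.glue Ct).pt v 2 - (Ou.glue Ct).pt e 2| := by
  obtain ⟨⟨s, h1, h2⟩, s', h3, h4⟩ := h
  have hv := ggap_colX (Ou.glueRz_ok Ct) h4
  have he := ggap_colY (Ou.glueRz_ok Ct) h2
  rcases v with a | a <;> rcases e with c | c
  · exact ggap_out_out Ou Ct hζ hM hd hv he h1 h2 h3 h4
  · exact (ggap_out_in Ou Ct hv he h3 h4).elim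
  · have := ggap_in_out Ou Ct hζ hv he h1 h2 h3 h4
    exact lt_of_le_of_lt (hd.trans (by norm_num)) this
  · simp at hve

end Pool.Agent.P.MP_ac4909_gt.B
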