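import Pool.Agent.P.MP_ac4909_gt.B.GB_Good0

/-! Layer G, blocks: the glued lists are certified. -/

namespace Pool.Agent.P.MP_ac4909_gt.B

open scoped ContDiff
open Set Filter Topology

variable {ι I O : Type} {n : ℕ} {Co : Collar n ι} {A : Pic ι} (Ou : Outer Co A O)
  (Ct : Content Co I) [DecidableEq O] [DecidableEq I]

section Leg
variable {N : Type} {C : Conf N} {lt : N → N → Prop} {a b : N}

/-- legal pairs of parallel segments -/
def ggood_L (C : Conf N) (lt : N → N → Prop) (a b : N) : Prop :=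
  (C.grid fun _ _ => ()).Leg true lt (fun x y => C.pt x 2 < C.pt y 2) a b

theorem ggood_mk1 (h : ∀ s s', lt (C.nb a s) (C.nb b s')) : ggood_L C lt a b := Or.inl h

theorem ggood_mk3 {s s' : Bool} (e : C.nb a s = C.nb b s') (h : lt (C.nb a (!s)) (C.nb a s))
    (h' : lt (C.nb b s') (C.nb b (!s'))) : ggood_L C lt a b :=
  Or.inr (Or.inr (Or.inl ⟨s, s', e, h, h'⟩))

theorem ggood_leg2 (θ : ℝ) (h₁ : C.pt a 2 ≤ θ) (h₂ : ∀ s, C.pt (C.nb a s) 2 ≤ θ)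
    (h₃ : θ < C.pt b 2) (h₄ : ∀ s, θ < C.pt (C.nb b s) 2) : ggood_L C lt a b :=
  Or.inr (Or.inl ⟨h₁.trans_lt h₃, fun s => h₁.trans_lt (h₄ s), fun s => (h₂ s).trans_lt h₃,
    fun s s' => (h₂ s).trans_lt (h₄ s')⟩)

theorem ggood_leg2' (θ : ℝ) (h₁ : C.pt a 2 < θ) (h₂ : ∀ s, C.pt (C.nb a s) 2 < θ)
    (h₃ : θ ≤ C.pt b 2) (h₄ : ∀ s, θ ≤ C.pt (C.nb b s) 2) : ggood_L C lt a b :=
  Or.inr (Or.inl ⟨h₁.trans_le h₃, fun s => h₁.trans_le (h₄ s), fun s => (h₂ s).trans_le h₃,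
    fun s s' => (h₂ s).trans_le (h₄ s')⟩)

/-- two segments of constant, different heights -/
theorem ggood_leg2_ne {u w : ℝ} (h : u ≠ w) (h₁ : C.pt a 2 = u) (h₂ : ∀ s, C.pt (C.nb a s) 2 = u)
    (h₃ : C.pt b 2 = w) (h₄ : ∀ s, C.pt (C.nb b s) 2 = w) :
    ggood_L C lt a b ∨ ggood_L C lt b a := by
  rcases h.lt_or_gt with h | h
  · exact Or.inl (ggood_leg2 u h₁.le (fun s => (h₂ s).le) (h₃ ▸ h) fun s => (h₄ s).symm ▸ h)
  · exact Or.inr (ggood_leg2 w h₃.le (fun s => (h₄ s).le) (h₁ ▸ h) fun s => (h₂ s).symm ▸ h)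

end Leg

/-- the signed level of a point -/
noncomputable def ggood_lev (σ : Bool) (p : E3) : ℝ := (if σ then 1 else -1) * p 1

theorem ggood_lev_cl (b : Fin n × Bool) (t : ℝ) : ggood_lev b.2 (Co.cl b t) = t := by
  rcases b with ⟨k, _ | _⟩ <;> simp [ggood_lev]

theorem ggood_lev_ne {b : Fin n × Bool} {σ : Bool} (h : b.2 ≠ σ) (t : ℝ) :
    ggood_lev σ (Co.cl b t) = -t := by
  rcases b with ⟨k, _ | _⟩ <;> cases σ <;> simp [ggood_lev] at h ⊢

theorem ggood_lev_le (σ : Bool) (p : E3) : ggood_lev σ p ≤ |p 1| := by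
  cases σ
  · simpa [ggood_lev] using neg_le_abs (p 1)
  · simpa [ggood_lev] using le_abs_self (p 1)

theorem ggood_abs_cl (b : Fin n × Bool) {t : ℝ} (ht : 0 < t) : |Co.cl b t 1| = t := by
  rcases b with ⟨k, _ | _⟩ <;> simp [abs_of_pos ht]

theorem ggood_side {b b' : Fin n × Bool} {t t' : ℝ} (ht : 0 < t) (ht' : 0 < t')
    (h : Co.cl b t 1 = Co.cl b' t' 1) : b.2 = b'.2 ∧ t = t' := by
  rcases b with ⟨k, _ | _⟩ <;> rcases b' with ⟨k', _ | _⟩ <;> simp at h ⊢ <;> linarith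

namespace Outer

/-- the certified order of columns -/
def ggood_LX (a b : O ⊕ I) : Prop :=
  (Ou.glueRz Ct).ltX a b ∧ (Ou.glue Ct).pt a 0 < (Ou.glue Ct).pt b 0

/-- the certified order of rows -/
def ggood_LY (a b : O ⊕ I) : Prop :=
  (Ou.glueRz Ct).ltY a b ∧ (Ou.glue Ct).pt a 1 < (Ou.glue Ct).pt b 1

/-- inner rows and outer rows that are above or below the box -/
def ggood_TY (e : O ⊕ I) : Prop :=
  (Ou.glue Ct).col e = false ∧ ∀ a, e = .inl a → 3 / 4 < |(Ou.glue Ct).pt e 1|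

variable {Ou Ct}

theorem ggood_lx {v v' : O ⊕ I} (hv : (Ou.glue Ct).col v = true) (hv' : (Ou.glue Ct).col v' = true)
    (h : (Ou.glue Ct).pt v 0 < (Ou.glue Ct).pt v' 0)
    (h' : ∀ c a, v = .inr c → v' = .inl a → 25 / 32 ≤ (Ou.glue Ct).pt v' 0) :
    ggood_LX Ou Ct v v' := by
  refine ⟨?_, h⟩
  rcases v with a | c <;> rcases v' with a' | c'
  · exact Ou.glue_ltX_out Ct hv hv' h
  · refine (Ou.glue_ltX_lo Ct hv hv').2 (lt_trans h ?_)
    exact ((le_abs_self _).trans (Ct.pt_box c' 0)).trans_lt (by norm_num)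
  · exact (Ou.glue_ltX_hi Ct hv' hv).2 (h' _ _ rfl rfl)
  · exact Ou.glue_ltX_in Ct hv hv' h

theorem ggood_ly {e e' : O ⊕ I} (he : ggood_TY Ou Ct e) (he' : ggood_TY Ou Ct e')
    (h : (Ou.glue Ct).pt e 1 < (Ou.glue Ct).pt e' 1) : ggood_LY Ou Ct e e' := by
  refine ⟨?_, h⟩
  rcases e with a | c <;> rcases e' with a' | c'
  · exact Ou.glue_ltY_out Ct he.1 he'.1 h
  · refine (Ou.glue_ltY_lo Ct he.1 he'.1).2 (not_le.1 fun h0 => ?_)
    have h1 : 3 / 4 < |Ou.C.pt (.inl a) 1| := he.2 a rfl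
    rw [abs_of_nonneg h0] at h1
    exact (h1.trans h).not_ge ((le_abs_self _).trans (Ct.pt_box c' 1))
  · refine (Ou.glue_ltY_hi Ct he'.1 he.1).2 (not_lt.1 fun h0 => ?_)
    have h1 : 3 / 4 < |Ou.C.pt (.inl a') 1| := he'.2 a' rfl
    rw [abs_of_neg h0] at h1
    exact (h.trans (lt_neg.1 h1)).not_ge (abs_le.1 (Ct.pt_box c 1)).1
  · exact Ou.glue_ltY_in Ct he.1 he'.1 h

theorem ggood_leg1 {c v : O ⊕ I} (σ : Bool) (hc : ∀ s, ggood_TY Ou Ct ((Ou.glue Ct).nb c s))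
    (hv : ∀ s, ggood_TY Ou Ct ((Ou.glue Ct).nb v s))
    (h : ∀ s s', ggood_lev σ ((Ou.glue Ct).pt ((Ou.glue Ct).nb c s)) <
      ggood_lev σ ((Ou.glue Ct).pt ((Ou.glue Ct).nb v s'))) :
    ggood_L (Ou.glue Ct) (ggood_LY Ou Ct) v c ∨ ggood_L (Ou.glue Ct) (ggood_LY Ou Ct) c v := by
  cases σ
  · exact Or.inl (ggood_mk1 fun s s' => ggood_ly (hv s) (hc s') (by simpa [ggood_lev] using h s' s))
  · exact Or.inr (ggood_mk1 fun s s' => ggood_ly (hc s) (hv s') (by simpa [ggood_lev] using h s s'))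

theorem ggood_leg3 {c v : O ⊕ I} (σ : Bool) (hc : ∀ s, ggood_TY Ou Ct ((Ou.glue Ct).nb c s))
    (hv : ∀ s, ggood_TY Ou Ct ((Ou.glue Ct).nb v s)) {s s' : Bool}
    (e : (Ou.glue Ct).nb c s = (Ou.glue Ct).nb v s')
    (h : ggood_lev σ ((Ou.glue Ct).pt ((Ou.glue Ct).nb c (!s))) <
      ggood_lev σ ((Ou.glue Ct).pt ((Ou.glue Ct).nb c s)))
    (h' : ggood_lev σ ((Ou.glue Ct).pt ((Ou.glue Ct).nb v s')) <
      ggood_lev σ ((Ou.glue Ct).pt ((Ou.glue Ct).nb v (!s')))) :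
    ggood_L (Ou.glue Ct) (ggood_LY Ou Ct) v c ∨ ggood_L (Ou.glue Ct) (ggood_LY Ou Ct) c v := by
  cases σ
  · exact Or.inl (ggood_mk3 e.symm (ggood_ly (hv _) (hv _) (by simpa [ggood_lev] using h'))
      (ggood_ly (hc _) (hc _) (by simpa [ggood_lev] using h)))
  · exact Or.inr (ggood_mk3 e (ggood_ly (hc _) (hc _) (by simpa [ggood_lev] using h))
      (ggood_ly (hv _) (hv _) (by simpa [ggood_lev] using h')))

section Nb
omit [DecidableEq O] [DecidableEq I]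

theorem ggood_col (a : O ⊕ I) (s : Bool) :
    (Ou.glue Ct).col ((Ou.glue Ct).nb a s) = !(Ou.glue Ct).col a := (Ou.glue_valid Ct).col_nb a s

theorem ggood_nb_in (c : I) (s : Bool) : (∃ r, (Ou.glue Ct).nb (.inr c) s = .inr r) ∨
    ∃ b, c = Ct.bc b ∧ s = false ∧ (Ou.glue Ct).nb (.inr c) s = .inl (Ou.ρ b) := by
  rcases h : Ct.C.nb (.inl c) s with r | b
  · exact Or.inl ⟨r, Ou.glue_nb_in Ct h⟩
  · obtain ⟨rfl, rfl⟩ := (Ct.nb_eq_inr _ _ _).1 h
    exact Or.inr ⟨b, rfl, rfl, Ou.glue_nb_bc Ct b⟩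

theorem ggood_nb_row {f : I} (hf : (Ou.glue Ct).col (.inr f) = false) (s : Bool) :
    ∃ c, (Ou.glue Ct).nb (.inr f) s = .inr c :=
  (ggood_nb_in f s).resolve_right fun ⟨b, e, _⟩ =>
    Bool.noConfusion ((e ▸ hf : Ct.C.col (.inl (Ct.bc b)) = false).symm.trans (Ct.col_bc b))

theorem ggood_nb_out {a : O} (ha : ∀ b, a ≠ Ou.ρ b) (s : Bool) :
    ∃ a', (Ou.glue Ct).nb (.inl a) s = .inl a' :=
  (Ou.nb_inl ha s).imp fun _ h => Ou.glue_nb_out Ct h

theorem ggood_ne_ρ {v : O} (hv : (Ou.glue Ct).col (.inl v) = true) (b : Fin n × Bool) :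
    v ≠ Ou.ρ b := fun e =>
  Bool.noConfusion ((e ▸ hv : Ou.C.col (.inl (Ou.ρ b)) = true).symm.trans (Ou.col_ρ b))

theorem ggood_mem (a : O) (s : Bool) :
    (Ou.glue Ct).pt ((Ou.glue Ct).nb (.inl a) s) ∈ Ou.C.star (.inl a) :=
  Ou.glue_star_out Ct a ((Ou.glue_valid Ct).nb_mem_star _ s)

theorem ggood_mem0 (a : O) : (Ou.glue Ct).pt (.inl a) ∈ Ou.C.star (.inl a) := Ou.pt_mem_star a

theorem ggood_box (c : I) (s : Bool) (i : Fin 3) :
    |(Ou.glue Ct).pt ((Ou.glue Ct).nb (.inr c) s) i| < 13 / 16 :=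
  Ou.glue_star_box Ct c _ ((Ou.glue_valid Ct).nb_mem_star _ s) i

theorem ggood_box0 (c : I) (i : Fin 3) : |(Ou.glue Ct).pt (.inr c) i| ≤ 3 / 4 := Ct.pt_box c i

theorem ggood_pt_ρ (b : Fin n × Bool) :
    (Ou.glue Ct).pt (.inl (Ou.ρ b)) = Co.cl b (Ou.lv b) := Ou.pt_ρ b

theorem ggood_lv_pos (b : Fin n × Bool) : 0 < Ou.lv b := lt_trans (by norm_num) (Ou.lv_gt b)

theorem ggood_ty_ρ (b : Fin n × Bool) : ggood_TY Ou Ct (.inl (Ou.ρ b)) :=
  ⟨Ou.col_ρ b, fun _ _ => by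
    rw [ggood_pt_ρ, ggood_abs_cl b (ggood_lv_pos b)]
    exact Ou.lv_gt b⟩

theorem ggood_ty_in {c : I} (hc : (Ou.glue Ct).col (.inr c) = true) (s : Bool) :
    ggood_TY Ou Ct ((Ou.glue Ct).nb (.inr c) s) := by
  rcases ggood_nb_in (Ou := Ou) (Ct := Ct) c s with ⟨r, e⟩ | ⟨b, -, -, e⟩
  · exact ⟨by rw [ggood_col, hc]; rfl, fun a h => by rw [e] at h; cases h⟩
  · exact e ▸ ggood_ty_ρ b

/-- the neighbours of a boundary row lie on its collar -/
theorem ggood_nb_ρ (b : Fin n × Bool) (s : Bool) : ∃ t, 0 < t ∧ t < 13 / 16 ∧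
    (Ou.glue Ct).pt ((Ou.glue Ct).nb (.inl (Ou.ρ b)) s) = Co.cl b t := by
  obtain ⟨t, ht, e⟩ := Ou.pos_ρ b (ggood_mem (Ct := Ct) (Ou.ρ b) s)
  exact ⟨t, ht.1, ht.2, e.symm⟩

end Nb

/-- an outer column on a collar against an inner column -/
theorem ggood_cols_cl {v : O} {c : I} (hv : (Ou.glue Ct).col (.inl v) = true)
    (hc : (Ou.glue Ct).col (.inr c) = true)
    (hx : (Ou.glue Ct).pt (.inr c) 0 ≤ (Ou.glue Ct).pt (.inl v) 0) {b : Fin n × Bool}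
    (hb : Ou.C.star (.inl v) ⊆ Co.cl b '' Icc (Ou.lv b) 1) :
    ggood_L (Ou.glue Ct) (ggood_LY Ou Ct) (.inl v) (.inr c) ∨
      ggood_L (Ou.glue Ct) (ggood_LY Ou Ct) (.inr c) (.inl v) := by
  have hV := Ou.glue_valid Ct
  choose t ht et using fun s => hb (ggood_mem (Ct := Ct) v s)
  obtain ⟨t₀, ht₀, e₀⟩ := hb (ggood_mem0 (Ct := Ct) v)
  have hl := Ou.lv_gt b
  have tv : ∀ s, ggood_TY Ou Ct ((Ou.glue Ct).nb (.inl v) s) := fun s =>
    ⟨by rw [ggood_col, hv]; rfl, fun _ _ => by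
      rw [← et, ggood_abs_cl b ((ggood_lv_pos b).trans_le (ht s).1)]
      exact hl.trans_le (ht s).1⟩
  have lv : ∀ s, ggood_lev b.2 ((Ou.glue Ct).pt ((Ou.glue Ct).nb (.inl v) s)) = t s := fun s => by
    rw [← et, ggood_lev_cl]
  have hin : ∀ r, ggood_lev b.2 ((Ou.glue Ct).pt (.inr r)) < Ou.lv b := fun r =>
    ((ggood_lev_le _ _).trans (ggood_box0 r 1)).trans_lt hl
  have L1 : (∀ b', c = Ct.bc b' → ∀ s, ggood_lev b.2 (Co.cl b' (Ou.lv b')) < t s) →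
      ggood_L (Ou.glue Ct) (ggood_LY Ou Ct) (.inl v) (.inr c) ∨
        ggood_L (Ou.glue Ct) (ggood_LY Ou Ct) (.inr c) (.inl v) := fun h =>
    ggood_leg1 b.2 (ggood_ty_in hc) tv fun s s' => by
      rw [lv]
      rcases ggood_nb_in (Ou := Ou) (Ct := Ct) c s with ⟨r, e⟩ | ⟨b', e', -, e⟩
      · exact e ▸ (hin r).trans_le (ht s').1
      · rw [e, ggood_pt_ρ]
        exact h b' e' s'
  by_cases h1 : ∃ b', c = Ct.bc b'
  swap
  · exact L1 fun b' e => absurd ⟨b', e⟩ h1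
  obtain ⟨b', rfl⟩ := h1
  replace L1 := fun h : ∀ s, ggood_lev b.2 (Co.cl b' (Ou.lv b')) < t s =>
    L1 fun b'' e s => Ct.bc_inj e ▸ h s
  obtain ⟨r, hr⟩ := Ct.exists_in b'
  have er := Ou.glue_nb_in Ct hr
  have e0 := Ou.glue_nb_bc Ct b'
  by_cases h2 : b'.2 = b.2
  swap
  · refine L1 fun s => ?_
    rw [ggood_lev_ne h2]
    linarith [ggood_lv_pos (Ou := Ou) b', (ht s).1]
  by_cases h3 : b' = b
  · subst h3
    by_cases h4 : ∃ s, t s = Ou.lv b'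
    swap
    · refine L1 fun s => ?_
      rw [ggood_lev_cl]
      exact (ht s).1.lt_of_ne fun e => h4 ⟨s, e.symm⟩
    obtain ⟨s, hs⟩ := h4
    refine ggood_leg3 b'.2 (ggood_ty_in hc) tv (s := false) (s' := s)
      (hV.pt_inj (by rw [e0, ggood_pt_ρ, ← et, hs])) ?_ ?_
    · rw [Bool.not_false, er, e0, ggood_pt_ρ, ggood_lev_cl]
      exact hin r
    · rw [lv, lv, hs]
      refine (ht _).1.lt_of_ne fun e => ?_
      have := hV.nb_inj (hV.pt_inj ((et s).symm.trans (by rw [hs, e, et])) :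
        (Ou.glue Ct).nb (.inl v) s = (Ou.glue Ct).nb (.inl v) (!s))
      simp at this
  have pc : (Ou.glue Ct).pt (.inr (Ct.bc b')) = Co.cl b' (Ct.lv b') := Ct.pt_bc b'
  have zr : (Ou.glue Ct).pt (.inr r) 2 = Ct.C.pt (Ct.C.nb (.inl (Ct.bc b')) true) 2 := by
    rw [hr]
    rfl
  rcases lt_trichotomy (Co.ζ b) (Co.ζ b') with hz | hz | hz
  · refine Or.inl (ggood_leg2 (Co.ζ b) (by rw [← e₀]; rfl)
      (fun s => ?_) (by rwa [pc]) ?_)
    · exact (congrArg (fun p : E3 => p 2) (et s)).ge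
    · rintro (_ | _)
      · rwa [e0, ggood_pt_ρ]
      · rw [er, zr]
        exact (Ct.zr b b' h2.symm hz).2
  · obtain ⟨k, σ⟩ := b
    obtain ⟨k', σ'⟩ := b'
    obtain rfl : σ' = σ := h2
    rcases lt_trichotomy k k' with hk | hk | hk
    · rw [pc, ← e₀] at hx
      exact absurd (Co.order k k' σ' hk hz t₀ ((ggood_lv_pos _).trans_le ht₀.1) _ (Ct.lv_pos _))
        hx.not_gt
    · exact absurd (by rw [hk]) h3
    · refine L1 fun s => ?_
      rw [ggood_lev_cl (k', σ')]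
      exact (Ou.stagger k' k σ' hk hz.symm).trans_le (ht s).1
  · refine Or.inr (ggood_leg2' (Co.ζ b) (by rwa [pc]) ?_
      (by rw [← e₀]; rfl) fun s => ?_)
    · rintro (_ | _)
      · rwa [e0, ggood_pt_ρ]
      · rw [er, zr]
        exact (Ct.zr b' b h2 hz).1
    · exact (congrArg (fun p : E3 => p 2) (et s)).le

omit [DecidableEq O] [DecidableEq I] in
/-- a star above or below the block against a segment near the block -/
theorem ggood_far_z {lt : O ⊕ I → O ⊕ I → Prop} {v : O} {c : O ⊕ I}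
    (h : (∀ p ∈ Ou.C.star (.inl v), p 2 < -13 / 16) ∨ ∀ p ∈ Ou.C.star (.inl v), 13 / 16 < p 2)
    (h₀ : |(Ou.glue Ct).pt c 2| < 13 / 16)
    (h₁ : ∀ s, |(Ou.glue Ct).pt ((Ou.glue Ct).nb c s) 2| < 13 / 16) :
    ggood_L (Ou.glue Ct) lt (.inl v) c ∨ ggood_L (Ou.glue Ct) lt c (.inl v) := by
  rcases h with h | h
  · exact Or.inl (ggood_leg2' (-13 / 16) (h _ (ggood_mem0 v))
      (fun s => h _ (ggood_mem v s)) (by linarith [(abs_lt.1 h₀).1])
      fun s => le_trans (by norm_num) (abs_lt.1 (h₁ s)).1.le)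
  · exact Or.inr (ggood_leg2 (13 / 16) (abs_lt.1 h₀).2.le
      (fun s => (abs_lt.1 (h₁ s)).2.le) (h _ (ggood_mem0 v)) fun s => h _ (ggood_mem v s))

/-- a row to the left or to the right of the block against a row near the block -/
theorem ggood_far_x {e : O} {f : O ⊕ I} (he : (Ou.glue Ct).col (.inl e) = false)
    (hρ : ∀ b, e ≠ Ou.ρ b) (hf : (Ou.glue Ct).col f = false)
    (h : (∀ p ∈ Ou.C.star (.inl e), p 0 < -13 / 16) ∨ ∀ p ∈ Ou.C.star (.inl e), 13 / 16 < p 0)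
    (h₁ : ∀ s, |(Ou.glue Ct).pt ((Ou.glue Ct).nb f s) 0| < 13 / 16) :
    ggood_L (Ou.glue Ct) (ggood_LX Ou Ct) (.inl e) f ∨ ggood_L (Ou.glue Ct) (ggood_LX Ou Ct) f (.inl e) := by
  have c1 : ∀ s, (Ou.glue Ct).col ((Ou.glue Ct).nb (.inl e) s) = true := fun s => by
    rw [ggood_col, he]; rfl
  have c2 : ∀ s, (Ou.glue Ct).col ((Ou.glue Ct).nb f s) = true := fun s => by
    rw [ggood_col, hf]; rfl
  rcases h with h | h
  · refine Or.inl (ggood_mk1 fun s s' => ggood_lx (c1 s) (c2 s') ?_ fun c a e1 _ => ?_)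
    · linarith [h _ (ggood_mem (Ct := Ct) e s), (abs_lt.1 (h₁ s')).1]
    · obtain ⟨a', e2⟩ := ggood_nb_out (Ct := Ct) hρ s
      cases e2.symm.trans e1
  · refine Or.inr (ggood_mk1 fun s s' => ggood_lx (c2 s) (c1 s') ?_ fun _ _ _ _ => ?_)
    · linarith [h _ (ggood_mem (Ct := Ct) e s'), (abs_lt.1 (h₁ s)).2]
    · linarith [h _ (ggood_mem (Ct := Ct) e s')]

theorem ggood_cols_oi {v : O} {c : I} (hv : (Ou.glue Ct).col (.inl v) = true)
    (hc : (Ou.glue Ct).col (.inr c) = true) :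
    ggood_LX Ou Ct (.inl v) (.inr c) ∨ ggood_LX Ou Ct (.inr c) (.inl v) ∨
      ggood_L (Ou.glue Ct) (ggood_LY Ou Ct) (.inl v) (.inr c) ∨
      ggood_L (Ou.glue Ct) (ggood_LY Ou Ct) (.inr c) (.inl v) := by
  have hb := abs_le.1 (ggood_box0 (Ou := Ou) (Ct := Ct) c 0)
  rcases lt_or_ge ((Ou.glue Ct).pt (.inl v) 0) ((Ou.glue Ct).pt (.inr c) 0) with hx | hx
  · exact Or.inl (ggood_lx hv hc hx fun _ _ e => by cases e)
  rcases le_or_gt (25 / 32) ((Ou.glue Ct).pt (.inl v) 0) with hx' | hx'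
  · exact Or.inr (Or.inl (ggood_lx hc hv (by linarith [hb.2]) fun _ _ _ _ => hx'))
  refine Or.inr (Or.inr ?_)
  rcases Ou.pos v (ggood_ne_ρ hv) with ⟨i, h⟩ | ⟨b, h⟩
  swap
  · exact ggood_cols_cl hv hc hx h
  fin_cases i
  · rcases h with h | h
    · exact absurd (h _ (ggood_mem0 (Ct := Ct) v)) (not_lt.2 (by linarith [hb.1] :
        -13 / 16 ≤ (Ou.glue Ct).pt (.inl v) 0))
    · exact absurd (h _ (ggood_mem0 (Ct := Ct) v)) (not_lt.2 (by linarith :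
        (Ou.glue Ct).pt (.inl v) 0 ≤ 13 / 16))
  · obtain ⟨σ, hσ⟩ : ∃ σ, ∀ p ∈ Ou.C.star (.inl v), 13 / 16 < ggood_lev σ p := by
      rcases h with h | h
      · refine ⟨false, fun p hp => ?_⟩
        have : p 1 < -13 / 16 := h p hp
        simp only [ggood_lev, Bool.false_eq_true, if_false]
        linarith
      · exact ⟨true, fun p hp => by simpa [ggood_lev] using h p hp⟩
    refine ggood_leg1 σ (ggood_ty_in hc) (fun s => ⟨by rw [ggood_col, hv]; rfl, fun _ _ => ?_⟩)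
      fun s s' => ((ggood_lev_le _ _).trans_lt (ggood_box c s 1)).trans (hσ _ (ggood_mem v s'))
    exact lt_trans (by norm_num) ((hσ _ (ggood_mem v s)).trans_le (ggood_lev_le _ _))
  · exact ggood_far_z h ((ggood_box0 c 2).trans_lt (by norm_num)) fun s => ggood_box c s 2

theorem ggood_rows_oi {e : O} {f : I} (he : (Ou.glue Ct).col (.inl e) = false)
    (hf : (Ou.glue Ct).col (.inr f) = false) :
    ggood_LY Ou Ct (.inl e) (.inr f) ∨ ggood_LY Ou Ct (.inr f) (.inl e) ∨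
      ggood_L (Ou.glue Ct) (ggood_LX Ou Ct) (.inl e) (.inr f) ∨
      ggood_L (Ou.glue Ct) (ggood_LX Ou Ct) (.inr f) (.inl e) := by
  have hb := ggood_box0 (Ou := Ou) (Ct := Ct) f 1
  by_cases hy : 3 / 4 < |(Ou.glue Ct).pt (.inl e) 1|
  · have t1 : ggood_TY Ou Ct (.inl e) := ⟨he, fun _ _ => hy⟩
    have t2 : ggood_TY Ou Ct (.inr f) := ⟨hf, fun _ e => by cases e⟩
    rcases lt_trichotomy ((Ou.glue Ct).pt (.inl e) 1) ((Ou.glue Ct).pt (.inr f) 1) with h | h | h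
    · exact Or.inl (ggood_ly t1 t2 h)
    · exact absurd (h ▸ hy) hb.not_gt
    · exact Or.inr (Or.inl (ggood_ly t2 t1 h))
  refine Or.inr (Or.inr ?_)
  have hρ : ∀ b, e ≠ Ou.ρ b := fun b h => hy (h ▸ (ggood_ty_ρ b).2 _ rfl)
  have hy' := abs_le.1 (not_lt.1 hy)
  rcases Ou.pos e hρ with ⟨i, h⟩ | ⟨b, h⟩
  swap
  · obtain ⟨t, ht, et⟩ := h (ggood_mem0 (Ct := Ct) e)
    rw [← et, ggood_abs_cl b ((ggood_lv_pos b).trans_le ht.1)] at hy
    exact absurd ((Ou.lv_gt b).trans_le ht.1) hy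
  fin_cases i
  · exact ggood_far_x he hρ hf h fun s => ggood_box f s 0
  · rcases h with h | h
    · exact absurd (h _ (ggood_mem0 (Ct := Ct) e)) (not_lt.2 (by linarith [hy'.1] :
        -13 / 16 ≤ (Ou.glue Ct).pt (.inl e) 1))
    · exact absurd (h _ (ggood_mem0 (Ct := Ct) e)) (not_lt.2 (by linarith [hy'.2] :
        (Ou.glue Ct).pt (.inl e) 1 ≤ 13 / 16))
  · exact ggood_far_z h ((ggood_box0 f 2).trans_lt (by norm_num)) fun s => ggood_box f s 2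

/-- a boundary row against an outer row at the same level -/
theorem ggood_rows_ρ {e : O} {b : Fin n × Bool} (he : (Ou.glue Ct).col (.inl e) = false)
    (hne : e ≠ Ou.ρ b) (hy : (Ou.glue Ct).pt (.inl e) 1 = (Ou.glue Ct).pt (.inl (Ou.ρ b)) 1) :
    ggood_L (Ou.glue Ct) (ggood_LX Ou Ct) (.inl e) (.inl (Ou.ρ b)) ∨
      ggood_L (Ou.glue Ct) (ggood_LX Ou Ct) (.inl (Ou.ρ b)) (.inl e) := by
  have hV := Ou.glue_valid Ct
  choose t t0 t1 et using ggood_nb_ρ (Ou := Ou) (Ct := Ct) b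
  have hbox : ∀ s i, |(Ou.glue Ct).pt ((Ou.glue Ct).nb (.inl (Ou.ρ b)) s) i| < 13 / 16 :=
    fun s i => et s ▸ Collar.cl_mem_Qb (t0 s) (t1 s) (by norm_num)
      ((t1 s).le.trans (by norm_num)) i
  have z0 : (Ou.glue Ct).pt (.inl (Ou.ρ b)) 2 = Co.ζ b := by rw [ggood_pt_ρ]; rfl
  have z1 : ∀ s, (Ou.glue Ct).pt ((Ou.glue Ct).nb (.inl (Ou.ρ b)) s) 2 = Co.ζ b := fun s => by
    rw [et]; rfl
  rw [ggood_pt_ρ] at hy
  by_cases hρ : ∃ b', e = Ou.ρ b'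
  · obtain ⟨b', rfl⟩ := hρ
    rw [ggood_pt_ρ] at hy
    obtain ⟨h1, h2⟩ := ggood_side (ggood_lv_pos b') (ggood_lv_pos b) hy
    refine ggood_leg2_ne (u := Co.ζ b') (fun hz => ?_)
      (by rw [ggood_pt_ρ]; rfl) (fun s => ?_) z0 z1
    · obtain ⟨k, σ⟩ := b
      obtain ⟨k', σ'⟩ := b'
      obtain rfl : σ' = σ := h1
      rcases lt_trichotomy k k' with hk | hk | hk
      · exact (Ou.stagger k k' σ' hk hz.symm).ne' h2
      · exact hne (by rw [hk])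
      · exact (Ou.stagger k' k σ' hk hz).ne h2
    · obtain ⟨u, -, -, eu⟩ := ggood_nb_ρ (Ou := Ou) (Ct := Ct) b' s
      exact congrArg (fun p : E3 => p 2) eu
  replace hρ : ∀ b', e ≠ Ou.ρ b' := fun b' h => hρ ⟨b', h⟩
  rcases Ou.pos e hρ with ⟨i, h⟩ | ⟨b', h⟩
  · have ha : |(Ou.glue Ct).pt (.inl e) 1| < 13 / 16 := by
      rw [hy, ggood_abs_cl b (ggood_lv_pos b)]
      exact Ou.lv_lt b
    fin_cases i
    · exact ggood_far_x he hρ (Ou.col_ρ b) h fun s => hbox s 0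
    · rcases h with h | h
      · exact absurd (h _ (ggood_mem0 (Ct := Ct) e)) (not_lt.2 (by linarith [(abs_lt.1 ha).1] :
          -13 / 16 ≤ (Ou.glue Ct).pt (.inl e) 1))
      · exact absurd (h _ (ggood_mem0 (Ct := Ct) e)) (not_lt.2 (abs_lt.1 ha).2.le)
    · exact ggood_far_z h (z0 ▸ (Co.boxz b).trans_lt (by norm_num)) fun s => hbox s 2
  obtain ⟨u₀, hu₀, e₀⟩ := h (ggood_mem0 (Ct := Ct) e)
  choose u hu eu using fun s => h (ggood_mem (Ct := Ct) e s)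
  rw [← e₀] at hy
  obtain ⟨h1, h2⟩ := ggood_side ((ggood_lv_pos b').trans_le hu₀.1) (ggood_lv_pos b) hy
  by_cases hz : Co.ζ b' = Co.ζ b
  swap
  · exact ggood_leg2_ne hz (by rw [← e₀]; rfl)
      (fun s => (congrArg (fun p : E3 => p 2) (eu s)).symm) z0 z1
  obtain ⟨k, σ⟩ := b
  obtain ⟨k', σ'⟩ := b'
  obtain rfl : σ' = σ := h1
  rcases lt_trichotomy k k' with hk | hk | hk
  · exact absurd (Ou.stagger k k' σ' hk hz.symm) (h2 ▸ hu₀.1).not_gt
  · subst hk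
    exact absurd (Sum.inl.inj (hV.pt_inj (by rw [← e₀, ggood_pt_ρ, h2]))) hne
  · refine Or.inl (ggood_mk1 fun s s' => ggood_lx (by rw [ggood_col, he]; rfl)
      (by rw [ggood_col, (ggood_ty_ρ _).1]; rfl) ?_ fun c a e1 _ => ?_)
    · rw [← eu, et]
      exact Co.order k' k σ' hk hz _ ((ggood_lv_pos _).trans_le (hu s).1) _ (t0 s')
    · obtain ⟨a', e2⟩ := ggood_nb_out (Ct := Ct) hρ s
      cases e2.symm.trans e1

variable (Ou Ct)

theorem glue_good : (Ou.glue Ct).Good true (Ou.glueRz Ct) := by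
  have hV := Ou.glue_valid Ct
  have H := hV.joint.cpt hV hV fun _ _ => ()
  have swap : ∀ {p q r s : Prop}, p ∨ q ∨ r ∨ s → q ∨ p ∨ s ∨ r := fun h => by tauto
  have LegY : ∀ a b, (∀ x y s s', x = a ∨ x = b → y = a ∨ y = b →
      (Ou.glue Ct).pt ((Ou.glue Ct).nb x s) 1 < (Ou.glue Ct).pt ((Ou.glue Ct).nb y s') 1 →
      ggood_LY Ou Ct ((Ou.glue Ct).nb x s) ((Ou.glue Ct).nb y s')) →
      (Ou.glue Ct).col a = true → (Ou.glue Ct).col b = true → a ≠ b →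
      (∀ c d, ¬ (a = .inr c ∧ b = .inl d) ∧ ¬ (b = .inr c ∧ a = .inl d)) →
      ggood_LX Ou Ct a b ∨ ggood_LX Ou Ct b a ∨ ggood_L (Ou.glue Ct) (ggood_LY Ou Ct) a b ∨
        ggood_L (Ou.glue Ct) (ggood_LY Ou Ct) b a := fun a b k ha hb hab hm =>
    (H.cols a b ha hb hab).imp
      (fun h => ggood_lx ha hb h.1 fun c d e1 e2 => absurd ⟨e1, e2⟩ (hm c d).1) <| Or.imp
      (fun h => ggood_lx hb ha h.1 fun c d e1 e2 => absurd ⟨e1, e2⟩ (hm c d).2) <| Or.imp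
      (fun h => h.mono (fun _ _ h => k _ _ _ _ (.inl rfl) (.inr rfl) h.1)
        (fun _ _ h => k _ _ _ _ (.inl rfl) (.inl rfl) h.1)
        (fun _ _ h => k _ _ _ _ (.inr rfl) (.inr rfl) h.1) fun _ _ h => h.1)
      fun h => h.mono (fun _ _ h => k _ _ _ _ (.inr rfl) (.inl rfl) h.1)
        (fun _ _ h => k _ _ _ _ (.inr rfl) (.inr rfl) h.1)
        (fun _ _ h => k _ _ _ _ (.inl rfl) (.inl rfl) h.1) fun _ _ h => h.1
  have LegX : ∀ a b, (∀ x y s s' c d, x = a ∨ x = b → y = a ∨ y = b →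
      (Ou.glue Ct).nb x s = .inr c → (Ou.glue Ct).nb y s' ≠ .inl d) →
      (Ou.glue Ct).col a = false → (Ou.glue Ct).col b = false → a ≠ b →
      ((Ou.glue Ct).pt a 1 < (Ou.glue Ct).pt b 1 → ggood_LY Ou Ct a b) →
      ((Ou.glue Ct).pt b 1 < (Ou.glue Ct).pt a 1 → ggood_LY Ou Ct b a) →
      ggood_LY Ou Ct a b ∨ ggood_LY Ou Ct b a ∨ ggood_L (Ou.glue Ct) (ggood_LX Ou Ct) a b ∨
        ggood_L (Ou.glue Ct) (ggood_LX Ou Ct) b a := fun a b k₀ ha hb hab h1 h2 => by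
    have k : ∀ x y s s', x = a ∨ x = b → y = a ∨ y = b →
        (Ou.glue Ct).pt ((Ou.glue Ct).nb x s) 0 < (Ou.glue Ct).pt ((Ou.glue Ct).nb y s') 0 →
        ggood_LX Ou Ct ((Ou.glue Ct).nb x s) ((Ou.glue Ct).nb y s') := fun x y s s' hx hy h =>
      ggood_lx (by rcases hx with rfl | rfl <;> simp [ggood_col, ha, hb])
        (by rcases hy with rfl | rfl <;> simp [ggood_col, ha, hb]) h
        fun c d e1 e2 => absurd e2 (k₀ x y s s' c d hx hy e1)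
    exact (H.rows a b ha hb hab).imp (fun h => h1 h.1) <| Or.imp (fun h => h2 h.1) <| Or.imp
      (fun h => h.mono (fun _ _ h => k _ _ _ _ (.inl rfl) (.inr rfl) h.1)
        (fun _ _ h => k _ _ _ _ (.inl rfl) (.inl rfl) h.1)
        (fun _ _ h => k _ _ _ _ (.inr rfl) (.inr rfl) h.1) fun _ _ h => h.1)
      fun h => h.mono (fun _ _ h => k _ _ _ _ (.inr rfl) (.inl rfl) h.1)
        (fun _ _ h => k _ _ _ _ (.inr rfl) (.inr rfl) h.1)
        (fun _ _ h => k _ _ _ _ (.inl rfl) (.inl rfl) h.1) fun _ _ h => h.1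
  refine ⟨Ou.glueRz_ok Ct, fun _ => rfl, ?_, ?_, fun _ _ _ _ _ => Or.inl trivial⟩
  · rintro (a | a) (b | b) ha hb hab
    · refine LegY _ _ (fun x y s s' hx hy h => ?_) ha hb hab fun c d => by simp
      have key : ∀ x s, x = Sum.inl a ∨ x = Sum.inl b → ∃ e, (Ou.glue Ct).nb x s = .inl e ∧
          (Ou.glue Ct).col (.inl e) = false := fun x s hx => by
        have hc : (Ou.glue Ct).col x = true := by rcases hx with rfl | rfl <;> assumption
        obtain ⟨e, he⟩ : ∃ e, (Ou.glue Ct).nb x s = .inl e := by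
          rcases hx with rfl | rfl <;> exact ggood_nb_out (ggood_ne_ρ hc) s
        exact ⟨e, he, by rw [← he, ggood_col, hc]; rfl⟩
      obtain ⟨e, he, ce⟩ := key x s hx
      obtain ⟨e', he', ce'⟩ := key y s' hy
      rw [he, he'] at h ⊢
      exact ⟨Ou.glue_ltY_out Ct ce ce' h, h⟩
    · exact ggood_cols_oi ha hb
    · exact swap (ggood_cols_oi hb ha)
    · refine LegY _ _ (fun x y s s' hx hy h => ggood_ly ?_ ?_ h) ha hb hab fun c d => by simp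
      · rcases hx with rfl | rfl
        exacts [ggood_ty_in ha s, ggood_ty_in hb s]
      · rcases hy with rfl | rfl
        exacts [ggood_ty_in ha s', ggood_ty_in hb s']
  · rintro (a | a) (b | b) ha hb hab
    · have h1 : (Ou.glue Ct).pt (.inl a) 1 < (Ou.glue Ct).pt (.inl b) 1 →
          ggood_LY Ou Ct (.inl a) (.inl b) := fun h => ⟨Ou.glue_ltY_out Ct ha hb h, h⟩
      have h2 : (Ou.glue Ct).pt (.inl b) 1 < (Ou.glue Ct).pt (.inl a) 1 →
          ggood_LY Ou Ct (.inl b) (.inl a) := fun h => ⟨Ou.glue_ltY_out Ct hb ha h, h⟩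
      rcases lt_trichotomy ((Ou.glue Ct).pt (.inl a) 1) ((Ou.glue Ct).pt (.inl b) 1) with h | h | h
      · exact Or.inl (h1 h)
      swap
      · exact Or.inr (Or.inl (h2 h))
      by_cases hb' : ∃ c, b = Ou.ρ c
      · obtain ⟨c, rfl⟩ := hb'
        exact Or.inr (Or.inr (ggood_rows_ρ ha (fun e => hab (congrArg _ e)) h))
      by_cases ha' : ∃ c, a = Ou.ρ c
      · obtain ⟨c, rfl⟩ := ha'
        exact Or.inr (Or.inr (ggood_rows_ρ hb (fun e => hab (congrArg _ e.symm)) h.symm).symm)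
      refine LegX _ _ (fun x y s s' c d hx _ e => ?_) ha hb hab h1 h2
      obtain ⟨e', he⟩ : ∃ e, (Ou.glue Ct).nb x s = .inl e := by
        rcases hx with rfl | rfl
        exacts [ggood_nb_out (fun c h => ha' ⟨c, h⟩) s, ggood_nb_out (fun c h => hb' ⟨c, h⟩) s]
      cases he.symm.trans e
    · exact ggood_rows_oi ha hb
    · exact swap (ggood_rows_oi hb ha)
    · refine LegX _ _ (fun x y s s' c d _ hy _ e => ?_) ha hb hab
        (fun h => ⟨Ou.glue_ltY_in Ct ha hb h, h⟩) fun h => ⟨Ou.glue_ltY_in Ct hb ha h, h⟩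
      obtain ⟨e', he⟩ : ∃ e, (Ou.glue Ct).nb y s' = .inr e := by
        rcases hy with rfl | rfl
        exacts [ggood_nb_row ha s', ggood_nb_row hb s']
      cases he.symm.trans e

end Outer

end Pool.Agent.P.MP_ac4909_gt.B
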