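import Pool.Agent.P.MP_ac4909_gt.B.GB_Val

/-! Layer G, blocks: the order of the glued lists. -/

namespace Pool.Agent.P.MP_ac4909_gt.B

open scoped ContDiff
open Set Filter Topology

variable {ι I O : Type} {n : ℕ} {Co : Collar n ι} {A : Pic ι} (Ou : Outer Co A O)
  (Ct : Content Co I) [DecidableEq O] [DecidableEq I]

/-- a list with an inner block -/
def good0_L (L₁ : List O) (M : List I) (L₂ : List O) : List (O ⊕ I) :=
  L₁.map .inl ++ M.map .inr ++ L₂.map .inl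

/-- the position in a list -/
def good0_ix {α : Type} [DecidableEq α] (l : List α) (x : α) : ℕ := l.idxOf x

section ix

variable {α β : Type} [DecidableEq α] [DecidableEq β] {l l' : List α} {x : α}

theorem good0_map {g : α → β} (hg : Function.Injective g) (l : List α) (x : α) :
    good0_ix (l.map g) (g x) = good0_ix l x := by
  unfold good0_ix
  induction l with
  | nil => rfl
  | cons y l ih =>
    by_cases h : y = x
    · rw [List.map_cons, List.idxOf_cons_eq _ h, List.idxOf_cons_eq _ (congrArg g h)]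
    · rw [List.map_cons, List.idxOf_cons_ne _ h, List.idxOf_cons_ne _ (hg.ne h), ih]

theorem good0_mem (h : x ∈ l) : good0_ix (l ++ l') x = good0_ix l x :=
  List.idxOf_append_of_mem h

theorem good0_notMem (h : x ∉ l) : good0_ix (l ++ l') x = l.length + good0_ix l' x :=
  List.idxOf_append_of_notMem h

theorem good0_len (h : x ∈ l) : good0_ix l x < l.length := List.idxOf_lt_length_of_mem h

end ix

section lists

variable {L₁ L₂ : List O} {M : List I} {a a' : O} {b b' : I} {f : O → ℝ} {c : ℝ}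

omit [DecidableEq O] [DecidableEq I] in
theorem good0_mem_inl : .inl a ∈ good0_L L₁ M L₂ ↔ a ∈ L₁ ++ L₂ := by simp [good0_L]

omit [DecidableEq O] [DecidableEq I] in
theorem good0_mem_inr : .inr b ∈ good0_L L₁ M L₂ ↔ b ∈ M := by simp [good0_L]

omit [DecidableEq O] [DecidableEq I] in
theorem good0_nodup (h : (L₁ ++ L₂).Nodup) (h' : M.Nodup) : (good0_L L₁ M L₂).Nodup := by
  have e : (good0_L L₁ M L₂).Perm ((L₁ ++ L₂).map .inl ++ M.map .inr) := by
    rw [good0_L, List.map_append, List.append_assoc, List.append_assoc]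
    exact List.perm_append_comm.append_left _
  refine e.nodup_iff.2 (List.nodup_append.2
    ⟨h.map Sum.inl_injective, h'.map Sum.inr_injective, fun x hx y hy => ?_⟩)
  obtain ⟨x, -, rfl⟩ := List.mem_map.1 hx
  obtain ⟨y, -, rfl⟩ := List.mem_map.1 hy
  exact Sum.inl_ne_inr

theorem good0_lo (h : a ∈ L₁) : good0_ix (good0_L L₁ M L₂) (.inl a) = good0_ix L₁ a := by
  rw [good0_L, List.append_assoc, good0_mem (List.mem_map_of_mem h), good0_map Sum.inl_injective]

theorem good0_hi (h : a ∉ L₁) :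
    good0_ix (good0_L L₁ M L₂) (.inl a) = L₁.length + M.length + good0_ix L₂ a := by
  rw [good0_L, good0_notMem (by simpa using h), good0_map Sum.inl_injective,
    List.length_append, List.length_map, List.length_map]

theorem good0_mid (h : b ∈ M) :
    good0_ix (good0_L L₁ M L₂) (.inr b) = L₁.length + good0_ix M b := by
  rw [good0_L, good0_mem (List.mem_append_right _ (List.mem_map_of_mem h)),
    good0_notMem (by simp), good0_map Sum.inr_injective, List.length_map]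

theorem good0_out (h : good0_ix (L₁ ++ L₂) a < good0_ix (L₁ ++ L₂) a') :
    good0_ix (good0_L L₁ M L₂) (.inl a) < good0_ix (good0_L L₁ M L₂) (.inl a') := by
  by_cases h1 : a ∈ L₁ <;> by_cases h2 : a' ∈ L₁
  · rwa [good0_lo h1, good0_lo h2, ← good0_mem (l' := L₂) h1, ← good0_mem (l' := L₂) h2]
  · have := good0_len h1
    rw [good0_lo h1, good0_hi h2]
    omega
  · have := good0_len h2
    rw [good0_notMem h1, good0_mem h2] at h
    omega
  · rw [good0_notMem h1, good0_notMem h2] at h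
    rw [good0_hi h1, good0_hi h2]
    omega

theorem good0_in (hb : b ∈ M) (hb' : b' ∈ M) (h : good0_ix M b < good0_ix M b') :
    good0_ix (good0_L L₁ M L₂) (.inr b) < good0_ix (good0_L L₁ M L₂) (.inr b') := by
  rw [good0_mid hb, good0_mid hb']
  omega

theorem good0_lt (h₁ : ∀ a ∈ L₁, f a < c) (h₂ : ∀ a ∈ L₂, c ≤ f a) (ha : a ∈ L₁ ++ L₂)
    (hb : b ∈ M) :
    (good0_ix (good0_L L₁ M L₂) (.inl a) < good0_ix (good0_L L₁ M L₂) (.inr b) ↔ f a < c) ∧
      (good0_ix (good0_L L₁ M L₂) (.inr b) < good0_ix (good0_L L₁ M L₂) (.inl a) ↔ c ≤ f a) := by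
  rw [good0_mid hb]
  by_cases h : a ∈ L₁
  · have := good0_len h
    rw [good0_lo h]
    exact ⟨iff_of_true (by omega) (h₁ a h), iff_of_false (by omega) (h₁ a h).not_ge⟩
  · have := good0_len hb
    have h3 := h₂ a ((List.mem_append.1 ha).resolve_left h)
    rw [good0_hi h]
    exact ⟨iff_of_false (by omega) h3.not_gt, iff_of_true (by omega) h3⟩

end lists

namespace Outer

omit [DecidableEq O] [DecidableEq I] in
theorem glueRz_ok : (Ou.glueRz Ct).OK (Ou.glue Ct).col := by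
  refine ⟨good0_nodup Ou.nodupX Ct.nodupX, good0_nodup Ou.nodupY Ct.nodupY, ?_, ?_⟩
  · rintro (a | a)
    · exact good0_mem_inl.trans (Ou.memX a)
    · exact good0_mem_inr.trans (Ct.memX a)
  · rintro (a | a)
    · exact good0_mem_inl.trans (Ou.memY a)
    · exact good0_mem_inr.trans (Ct.memY a)

theorem glue_ltX_out {a a' : O} (ha : Ou.C.col (.inl a) = true) (ha' : Ou.C.col (.inl a') = true)
    (h : Ou.C.pt (.inl a) 0 < Ou.C.pt (.inl a') 0) : (Ou.glueRz Ct).ltX (.inl a) (.inl a') :=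
  good0_out (Conf.GCCert_idx Ou.sortX ((Ou.memX a).2 ha) ((Ou.memX a').2 ha') h)

theorem glue_ltX_in {a a' : I} (ha : Ct.C.col (.inl a) = true) (ha' : Ct.C.col (.inl a') = true)
    (h : Ct.C.pt (.inl a) 0 < Ct.C.pt (.inl a') 0) : (Ou.glueRz Ct).ltX (.inr a) (.inr a') :=
  good0_in ((Ct.memX a).2 ha) ((Ct.memX a').2 ha')
    (Conf.GCCert_idx Ct.sortX ((Ct.memX a).2 ha) ((Ct.memX a').2 ha') h)

theorem glue_ltX_lo {a : O} {a' : I} (ha : Ou.C.col (.inl a) = true)
    (ha' : Ct.C.col (.inl a') = true) :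
    (Ou.glueRz Ct).ltX (.inl a) (.inr a') ↔ Ou.C.pt (.inl a) 0 < 25 / 32 :=
  (good0_lt Ou.ltX₁ Ou.leX₂ ((Ou.memX a).2 ha) ((Ct.memX a').2 ha')).1

theorem glue_ltX_hi {a : O} {a' : I} (ha : Ou.C.col (.inl a) = true)
    (ha' : Ct.C.col (.inl a') = true) :
    (Ou.glueRz Ct).ltX (.inr a') (.inl a) ↔ 25 / 32 ≤ Ou.C.pt (.inl a) 0 :=
  (good0_lt Ou.ltX₁ Ou.leX₂ ((Ou.memX a).2 ha) ((Ct.memX a').2 ha')).2

theorem glue_ltY_out {a a' : O} (ha : Ou.C.col (.inl a) = false)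
    (ha' : Ou.C.col (.inl a') = false) (h : Ou.C.pt (.inl a) 1 < Ou.C.pt (.inl a') 1) :
    (Ou.glueRz Ct).ltY (.inl a) (.inl a') :=
  good0_out (Conf.GCCert_idx Ou.sortY ((Ou.memY a).2 ha) ((Ou.memY a').2 ha') h)

theorem glue_ltY_in {a a' : I} (ha : Ct.C.col (.inl a) = false)
    (ha' : Ct.C.col (.inl a') = false) (h : Ct.C.pt (.inl a) 1 < Ct.C.pt (.inl a') 1) :
    (Ou.glueRz Ct).ltY (.inr a) (.inr a') :=
  good0_in ((Ct.memY a).2 ha) ((Ct.memY a').2 ha')
    (Conf.GCCert_idx Ct.sortY ((Ct.memY a).2 ha) ((Ct.memY a').2 ha') h)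

theorem glue_ltY_lo {a : O} {a' : I} (ha : Ou.C.col (.inl a) = false)
    (ha' : Ct.C.col (.inl a') = false) :
    (Ou.glueRz Ct).ltY (.inl a) (.inr a') ↔ Ou.C.pt (.inl a) 1 < 0 :=
  (good0_lt Ou.ltY₁ Ou.leY₂ ((Ou.memY a).2 ha) ((Ct.memY a').2 ha')).1

theorem glue_ltY_hi {a : O} {a' : I} (ha : Ou.C.col (.inl a) = false)
    (ha' : Ct.C.col (.inl a') = false) :
    (Ou.glueRz Ct).ltY (.inr a') (.inl a) ↔ 0 ≤ Ou.C.pt (.inl a) 1 :=
  (good0_lt Ou.ltY₁ Ou.leY₂ ((Ou.memY a).2 ha) ((Ct.memY a').2 ha')).2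

theorem glue_blk {α : Type} [Rev α] {dl : O ⊕ I → O ⊕ I → α} (hG : ((Ou.glue Ct).grid dl).OK) :
    Blk ((Ou.glue Ct).grid dl) (Ou.glueRz Ct) .inl Ou.X₁ Ou.X₂ Ou.Y₁ Ou.Y₂ (Ct.Xb.map .inr)
      (Ct.Yb.map .inr) Ou.ρ fun b => .inr (Ct.bc b) := by
  have hρ : ∀ b, Ou.ρ b ∈ Ou.Y₁ ++ Ou.Y₂ := fun b => (Ou.memY _).2 (Ou.col_ρ b)
  have hin : ∀ a ∈ Ct.Xb, ∀ s a', Ct.C.nb (.inl a) s = .inl a' →
      (Ou.glue Ct).nb (.inr a) s ∈ Ct.Yb.map .inr := fun a ha s a' h => by
    have h1 := Ct.col_nb a s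
    rw [h, (Ct.memX a).1 ha] at h1
    rw [Ou.glue_nb_in Ct h]
    exact List.mem_map_of_mem ((Ct.memY a').2 h1)
  refine ⟨hG, Ou.glueRz_ok Ct, Sum.inl_injective, rfl, rfl, fun v hv s hm => ?_,
    Ou.glue_nb_bc Ct, fun b => ?_, fun k => ?_, fun k => ?_, fun v hv => ?_, fun σ => ?_⟩
  · obtain ⟨a', h⟩ := Ou.nb_inl (a := v) (fun b e => by
      have h1 := (Ou.memX v).1 hv
      rw [e, Ou.col_ρ] at h1
      exact Bool.false_ne_true h1) s
    have h1 : (Ou.glue Ct).nb (.inl v) s ∈ Ct.Yb.map .inr := hm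
    rw [Ou.glue_nb_out Ct h] at h1
    simp at h1
  · obtain ⟨r, hr⟩ := Ct.exists_in b
    exact hin _ ((Ct.memX _).2 (Ct.col_bc b)) true r hr
  · refine (List.mem_append.1 (hρ _)).resolve_right fun h => ?_
    have h1 := Ou.leY₂ _ h
    have h2 := Ou.lv_gt (k, false)
    rw [Ou.pt_ρ, Collar.cl_one, if_neg Bool.false_ne_true] at h1
    linarith
  · refine (List.mem_append.1 (hρ _)).resolve_left fun h => ?_
    have h1 := Ou.ltY₁ _ h
    have h2 := Ou.lv_gt (k, true)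
    rw [Ou.pt_ρ, Collar.cl_one, if_pos rfl] at h1
    linarith
  · obtain ⟨a, ha, rfl⟩ := List.mem_map.1 hv
    by_cases h : ∃ b, a = Ct.bc b
    · exact Or.inl (h.imp fun b e => congrArg _ e)
    · refine Or.inr fun s => ?_
      rcases e : Ct.C.nb (.inl a) s with a' | b
      · exact hin a ha s a' e
      · exact absurd ⟨b, ((Ct.nb_eq_inr a s b).1 e).1⟩ h
  · have h := (Ct.subX σ).map (Sum.inr : I → O ⊕ I)
    rwa [List.map_ofFn] at h

end Outer

end Pool.Agent.P.MP_ac4909_gt.B
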