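import Pool.Agent.P.MP_ac4909_gt.B.GB_Ang

/-! Layer G, blocks: the angle along a grid. -/

namespace Pool.Agent.P.MP_ac4909_gt.B

open scoped ContDiff
open Set Filter Topology

variable {κ : Type} {Cl : Set E3} {γ : κ → ℝ → E3} {θ θ' : κ → ℝ → ℝ}

/-- smooth interpolation of a sequence, constant near the integers -/
noncomputable def ggridF (k : ℤ → ℝ) (y : ℝ) : ℝ :=
  k ⌊y⌋ + (k (⌊y⌋ + 1) - k ⌊y⌋) * Real.smoothTransition (2 * (y - ⌊y⌋) - 1 / 2)

theorem ggrid_eq (k : ℤ → ℝ) (j : ℤ) {y : ℝ} (h₀ : j - 1 / 4 ≤ y) (h₁ : y < j + 1) :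
    ggridF k y = k j + (k (j + 1) - k j) * Real.smoothTransition (2 * (y - j) - 1 / 2) := by
  rcases le_or_gt (j : ℝ) y with h | h
  · have h₂ : ⌊y⌋ = j := Int.floor_eq_iff.2 ⟨h, h₁⟩
    rw [ggridF, h₂]
  · have h₂ : ⌊y⌋ = j - 1 :=
      Int.floor_eq_iff.2 ⟨by push_cast; linarith, by push_cast; linarith⟩
    rw [ggridF, h₂, Real.smoothTransition.one_of_one_le (by push_cast; linarith),
      Real.smoothTransition.zero_of_nonpos (by linarith), sub_add_cancel]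
    ring

theorem ggrid_contDiff (k : ℤ → ℝ) : ContDiff ℝ ∞ (ggridF k) := by
  refine contDiff_iff_contDiffAt.2 fun y => ?_
  have h : ContDiff ℝ ∞ fun z : ℝ => k ⌊y⌋ + (k (⌊y⌋ + 1) - k ⌊y⌋) *
      Real.smoothTransition (2 * (z - ⌊y⌋) - 1 / 2) :=
    contDiff_const.add (contDiff_const.mul (Real.smoothTransition.contDiff.comp
      ((contDiff_const.mul (contDiff_id.sub contDiff_const)).sub contDiff_const)))
  refine h.contDiffAt.congr_of_eventuallyEq ?_
  filter_upwards [Ioo_mem_nhds (show (⌊y⌋ : ℝ) - 1 / 4 < y by linarith [Int.floor_le y])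
    (Int.lt_floor_add_one y)] with z hz
  exact ggrid_eq k _ hz.1.le hz.2

theorem ggrid_near (k : ℤ → ℝ) (j : ℤ) {x : ℝ} (h : |x| ≤ 1 / 4) : ggridF k (j + x) = k j := by
  obtain ⟨h₀, h₁⟩ := abs_le.1 h
  rw [ggrid_eq k j (by linarith) (by linarith),
    Real.smoothTransition.zero_of_nonpos (by linarith), mul_zero, add_zero]

theorem ggrid_shift {k : ℤ → ℝ} {n : ℤ} {a : ℝ} (h : ∀ j, k (j + n) = k j + a) (y : ℝ) :
    ggridF k (y + n) = ggridF k y + a := by
  rw [ggridF, ggridF, Int.floor_add_intCast, add_right_comm _ n, h, h]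
  push_cast
  rw [add_sub_add_right_eq_sub, add_sub_add_right_eq_sub]
  ring

theorem ggrid_const {k : ℤ → ℝ} {a y : ℝ} (h : ∀ j : ℤ, |j - y| ≤ 1 → k j = a) :
    ggridF k y = a := by
  have h₀ := Int.floor_le y
  have h₁ := Int.lt_floor_add_one y
  rw [ggridF, h ⌊y⌋ (abs_le.2 ⟨by linarith, by linarith⟩),
    h (⌊y⌋ + 1) (abs_le.2 ⟨by push_cast; linarith, by push_cast; linarith⟩)]
  ring

theorem ggrid_leb (hγ : IsU γ) (hCl : IsClosed Cl) {W : Set E3} (hW : IsOpen W) (hCW : Cl ⊆ W)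
    (c : κ) : ∀ᶠ N : ℕ in atTop, ∀ t : ℝ, (∀ s : ℝ, |s - t| ≤ 2 / (N : ℝ) → γ c s ∈ W) ∨
      ∀ s : ℝ, |s - t| ≤ 2 / (N : ℝ) → γ c s ∉ Cl := by
  have hc := (hγ.smooth c).continuous
  obtain ⟨δ, hδ, h⟩ := lebesgue_number_lemma_of_metric (s := Icc (0 : ℝ) 1)
    (c := fun b : Bool => γ c ⁻¹' (if b then W else Clᶜ)) isCompact_Icc
    (fun b => IsOpen.preimage hc (by
      cases b
      · exact hCl.isOpen_compl
      · exact hW))
    (fun t _ => by
      by_cases ht : γ c t ∈ Cl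
      · exact mem_iUnion.2 ⟨true, hCW ht⟩
      · exact mem_iUnion.2 ⟨false, ht⟩)
  have hp : Function.Periodic (γ c) 1 := hγ.per c
  filter_upwards [(tendsto_const_div_atTop_nhds_zero_nat (2 : ℝ)).eventually (gt_mem_nhds hδ)]
    with N hN t
  obtain ⟨b, hb⟩ := h (t - ⌊t⌋) ⟨by linarith [Int.floor_le t], by linarith [Int.lt_floor_add_one t]⟩
  have key : ∀ s : ℝ, |s - t| ≤ 2 / (N : ℝ) → γ c s ∈ (if b then W else Clᶜ) := fun s hs => by
    have h₁ : s - ⌊t⌋ ∈ Metric.ball (t - ⌊t⌋) δ := by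
      rw [Metric.mem_ball, Real.dist_eq, sub_sub_sub_cancel_right]
      exact hs.trans_lt hN
    have h₂ := hb h₁
    rw [mem_preimage, ← mul_one (⌊t⌋ : ℝ), hp.sub_int_mul_eq] at h₂
    exact h₂
  cases b
  · exact Or.inr key
  · exact Or.inl key

/-- the angle becomes a multiple of the full angle near all points of a uniform grid -/
theorem exists_grid [Fintype κ] (hγ : IsU γ) (hv : NonVert γ) (hθ : AngOK θ) (hCl : IsClosed Cl)
    {W : Set E3} (hW : IsOpen W) (hCW : Cl ⊆ W) (hz : ∀ c t, γ c t ∈ W → Z2 (θ c t)) :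
    ∃ (N : ℕ) (θ' : κ → ℝ → ℝ), 2 ≤ N ∧ AngOK θ' ∧ RelIso Cl (ang γ θ) (ang γ θ') ∧
      ∀ c (j : ℤ), (∀ x, |x| ≤ 1 / 4 → Z2 (θ' c ((j + x) / N))) ∧
        ((∀ x ∈ Icc (0 : ℝ) 1, γ c ((j + x) / N) ∉ Cl) ∨
          ∀ x ∈ Icc (0 : ℝ) 1, Z2 (θ' c ((j + x) / N))) := by
  obtain ⟨N, hN, hL⟩ := ((eventually_ge_atTop 2).and
    (eventually_all.2 (ggrid_leb hγ hCl hW hCW))).exists
  have hN0 : (0 : ℝ) < N := by exact_mod_cast (by omega : 0 < N)
  have hpi : (0 : ℝ) < 2 * Real.pi := by positivity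
  set k : κ → ℤ → ℝ := fun c j => 2 * Real.pi * ⌊θ c (j / N) / (2 * Real.pi)⌋ with hk
  have key : ∀ c (t : ℝ), (∀ s : ℝ, |s - t| ≤ 2 / (N : ℝ) → γ c s ∈ W) →
      ∀ s : ℝ, |s - t| ≤ 1 / (N : ℝ) → ggridF (k c) (N * s) = θ c s ∧ Z2 (θ c s) := by
    intro c t ht s hs
    obtain ⟨m, hm⟩ := Z2.const (f := θ c) (a := t - 2 / N) (b := t + 2 / N)
      (hθ.smooth c).continuous.continuousOn fun u hu =>
        hz c u (ht u (abs_le.2 ⟨by linarith [hu.1], by linarith [hu.2]⟩))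
    have e₂ : (2 : ℝ) / N = 1 / N + 1 / N := by ring
    have e₁ : (0 : ℝ) < 1 / N := by positivity
    obtain ⟨s₀, s₁⟩ := abs_le.1 hs
    have h₁ := hm s ⟨by linarith, by linarith⟩
    refine ⟨?_, m, h₁⟩
    rw [h₁]
    refine ggrid_const fun j hj => ?_
    have h₂ : |(j : ℝ) / N - s| ≤ 1 / N := by
      rw [show (j : ℝ) / N - s = (j - N * s) / N by field_simp, abs_div, abs_of_pos hN0]
      exact div_le_div_of_nonneg_right hj hN0.le
    obtain ⟨j₀, j₁⟩ := abs_le.1 h₂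
    simp only [hk]
    rw [hm _ ⟨by linarith, by linarith⟩, mul_div_cancel_left₀ _ hpi.ne', Int.floor_intCast]
  have hrel := relIso_ang (Cl := Cl) (θ' := fun c t => ggridF (k c) (N * t)) hγ hv hθ
    (fun c => (ggrid_contDiff _).comp (contDiff_const.mul contDiff_id))
    (fun c t => by
      obtain ⟨m, hm⟩ := hθ.per c
      have h₁ : ∀ j : ℤ, k c (j + N) = k c j + 2 * Real.pi * m := fun j => by
        simp only [hk]
        rw [show ((j + N : ℤ) : ℝ) / N = j / N + 1 by push_cast; field_simp, hm, add_div,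
          mul_div_cancel_left₀ _ hpi.ne', Int.floor_add_intCast]
        push_cast
        ring
      have h₂ := ggrid_shift h₁ (N * t)
      rw [Int.cast_natCast] at h₂
      rw [mul_add, mul_one, h₂, hm]
      ring)
    (fun c t ht => by
      rcases hL c t with h | h
      · filter_upwards [Metric.closedBall_mem_nhds t (show (0 : ℝ) < 1 / N by positivity)]
          with s hs
        exact (key c t h s hs).1
      · exact absurd ht (h t (by rw [sub_self, abs_zero]; positivity)))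
  refine ⟨N, _, hN, hrel.1, hrel.2, fun c j => ⟨fun x hx => ?_, ?_⟩⟩
  · refine ⟨⌊θ c (j / N) / (2 * Real.pi)⌋, ?_⟩
    rw [mul_div_cancel₀ _ hN0.ne', ggrid_near _ j hx]
  · have h₁ : ∀ x ∈ Icc (0 : ℝ) 1, |((j : ℝ) + x) / N - j / N| ≤ 1 / N := fun x hx => by
      rw [← sub_div, add_sub_cancel_left, abs_div, abs_of_pos hN0, abs_of_nonneg hx.1]
      exact div_le_div_of_nonneg_right hx.2 hN0.le
    rcases hL c (j / N) with h | h
    · refine Or.inr fun x hx => ?_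
      obtain ⟨h₂, h₃⟩ := key c _ h _ (h₁ x hx)
      rw [h₂]
      exact h₃
    · exact Or.inl fun x hx => h _ ((h₁ x hx).trans
        (div_le_div_of_nonneg_right one_le_two hN0.le))

end Pool.Agent.P.MP_ac4909_gt.B
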