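import Pool.Agent.P.MP_ac4909_gt.B.GB_Thick

/-! Layer G, blocks: linearisation of the push-off of a surgery curve. -/

namespace Pool.Agent.P.MP_ac4909_gt.B

open scoped ContDiff
open Set Filter Topology

variable {ι κ : Type}

theorem ghom_open (η : ℝ) : IsOpen ((univ : Set ℝ) ×ˢ Ioo (-η) η) := isOpen_univ.prod isOpen_Ioo

theorem ghom_at {G : ℝ × ℝ → E3} {η : ℝ} (hG : ContDiffOn ℝ ∞ G (univ ×ˢ Ioo (-η) η)) (t : ℝ)
    {r : ℝ} (hr : r ∈ Ioo (-η) η) : ContDiffAt ℝ ∞ G (t, r) :=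
  hG.contDiffAt ((ghom_open η).mem_nhds ⟨mem_univ _, hr⟩)

theorem ghom_dr {G : ℝ × ℝ → E3} {η : ℝ} (hG : ContDiffOn ℝ ∞ G (univ ×ˢ Ioo (-η) η)) (t : ℝ)
    {r : ℝ} (hr : r ∈ Ioo (-η) η) :
    HasDerivAt (fun u => G (t, u)) (fderiv ℝ G (t, r) (0, 1)) r :=
  ((ghom_at hG t hr).differentiableAt (by simp)).hasFDerivAt.comp_hasDerivAt r
    ((hasDerivAt_const r t).prodMk (hasDerivAt_id r))

theorem ghom_comp {X : Type} [NormedAddCommGroup X] [NormedSpace ℝ X] {G : ℝ × ℝ → E3} {η : ℝ}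
    (hG : ContDiffOn ℝ ∞ G (univ ×ˢ Ioo (-η) η)) {a b : X → ℝ} (ha : ContDiff ℝ ∞ a)
    (hb : ContDiff ℝ ∞ b) (h : ∀ x, b x ∈ Ioo (-η) η) :
    ContDiff ℝ ∞ fun x => G (a x, b x) :=
  contDiff_iff_contDiffAt.2 fun x =>
    (ghom_at hG (a x) (h x)).comp x (f := fun x => (a x, b x)) (ha.prodMk hb).contDiffAt

theorem ghom_comp' {X : Type} [NormedAddCommGroup X] [NormedSpace ℝ X] {G : ℝ × ℝ → E3} {η : ℝ}
    (hG : ContDiffOn ℝ ∞ G (univ ×ˢ Ioo (-η) η)) {a b : X → ℝ} (ha : ContDiff ℝ ∞ a)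
    (hb : ContDiff ℝ ∞ b) (h : ∀ x, b x ∈ Ioo (-η) η) :
    ContDiff ℝ ∞ fun x => deriv (fun r => G (a x, r)) (b x) := by
  have h1 : ContDiffOn ℝ ∞ (fun p => fderiv ℝ G p (0, 1)) (univ ×ˢ Ioo (-η) η) :=
    (hG.fderiv_of_isOpen (ghom_open η) (by simp)).clm_apply contDiffOn_const
  have h2 : (fun x => deriv (fun r => G (a x, r)) (b x)) =
      fun x => fderiv ℝ G (a x, b x) (0, 1) := funext fun x => (ghom_dr hG (a x) (h x)).deriv
  rw [h2]
  exact ghom_comp h1 ha hb h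

/-- the surgery curve may be parametrised by the given ribbon -/
theorem exists_param {S : LS ι} (hS : IsPL S) {i : ι} {G : ℝ × ℝ → E3} {η : ℝ}
    (hη : 0 < η) (hG : ContDiffOn ℝ ∞ G (univ ×ˢ Ioo (-η) η))
    (hper : ∀ t r, G (t + 1, r) = G (t, r))
    (hinj : ∀ s t, G (s, 0) = G (t, 0) → ∃ k : ℤ, t = s + k)
    (himm : ∀ t, deriv (fun u => G (u, 0)) t ≠ 0)
    (hGi : {x ∈ S | x.1 = some i} =
      range fun t => (some i, G (t, 0), deriv (fun r => G (t, r)) 0)) :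
    ∃ (κ : Type) (_ : Fintype κ) (L : Lk κ) (ℓ : κ → Option ι) (c₀ : κ), L.IsLink ∧
      S = L.set ℓ ∧ (∀ c, ℓ c = some i ↔ c = c₀) ∧ (∀ t, L.γ c₀ t = G (t, 0)) ∧
      ∀ t, L.ν c₀ t = deriv (fun r => G (t, r)) 0 := by
  classical
  obtain ⟨κ, inst, L, ℓ, hL, rfl, hu⟩ := hS
  obtain ⟨c₀, hc₀, huniq⟩ := hu i
  have h0 : (0 : ℝ) ∈ Ioo (-η) η := ⟨by linarith, hη⟩
  have hA : ∀ t, ∃ s, G (t, 0) = L.γ c₀ s ∧ deriv (fun r => G (t, r)) 0 = L.ν c₀ s := by
    intro t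
    have h1 : (some i, G (t, 0), deriv (fun r => G (t, r)) 0) ∈ {x ∈ L.set ℓ | x.1 = some i} := by
      rw [hGi]; exact ⟨t, rfl⟩
    obtain ⟨⟨c, s, h2⟩, -⟩ := h1
    simp only [Prod.mk.injEq] at h2
    obtain rfl := huniq c h2.1.symm
    exact ⟨s, h2.2.1, h2.2.2⟩
  have hB : ∀ s, ∃ t, G (t, 0) = L.γ c₀ s ∧ deriv (fun r => G (t, r)) 0 = L.ν c₀ s := by
    intro s
    have h1 : (ℓ c₀, L.γ c₀ s, L.ν c₀ s) ∈ {x ∈ L.set ℓ | x.1 = some i} := ⟨⟨c₀, s, rfl⟩, hc₀⟩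
    rw [hGi] at h1
    obtain ⟨t, h2⟩ := h1
    simp only [Prod.mk.injEq] at h2
    exact ⟨t, h2.2.1, h2.2.2⟩
  have hg : ContDiff ℝ ∞ fun t : ℝ => G (t, 0) :=
    ghom_comp hG contDiff_id contDiff_const fun _ => h0
  have hn : ContDiff ℝ ∞ fun t : ℝ => deriv (fun r => G (t, r)) 0 :=
    ghom_comp' hG contDiff_id contDiff_const fun _ => h0
  refine ⟨κ, inst, ⟨Function.update L.γ c₀ fun t => G (t, 0),
    Function.update L.ν c₀ fun t => deriv (fun r => G (t, r)) 0⟩, ℓ, c₀,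
    ⟨⟨fun c => ?_, fun c t => ?_, fun c c' s t => ?_, fun c t => ?_⟩, fun c => ?_, fun c t => ?_,
      fun c t => ?_⟩, ?_, fun c => ⟨huniq c, fun h => h ▸ hc₀⟩, fun t => by simp, fun t => by simp⟩
  · rcases eq_or_ne c c₀ with rfl | h
    · simpa using hg
    · simpa [h] using hL.isU.smooth c
  · rcases eq_or_ne c c₀ with rfl | h
    · simpa using hper t 0
    · simpa [h] using hL.isU.per c t
  · rcases eq_or_ne c c₀ with rfl | h <;> rcases eq_or_ne c' c with rfl | h'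
    · simpa using hinj s t
    · obtain ⟨u, hu, -⟩ := hA s
      simp only [Function.update_self, Function.update_of_ne h', hu]
      exact fun e => absurd (hL.isU.inj _ _ _ _ e).1.symm h'
    · simpa [h] using fun e => (hL.isU.inj c' c' s t e).2
    · rcases eq_or_ne c' c₀ with rfl | h''
      · obtain ⟨u, hu, -⟩ := hA t
        simp only [Function.update_self, Function.update_of_ne h, hu]
        exact fun e => absurd (hL.isU.inj _ _ _ _ e).1 h
      · simp only [Function.update_of_ne h, Function.update_of_ne h'']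
        exact hL.isU.inj c c' s t
  · rcases eq_or_ne c c₀ with rfl | h
    · simpa using himm t
    · simpa [h] using hL.isU.imm c t
  · rcases eq_or_ne c c₀ with rfl | h
    · simpa using hn
    · simpa [h] using hL.smooth c
  · rcases eq_or_ne c c₀ with rfl | h
    · simp [hper]
    · simpa [h] using hL.per c t
  · rcases eq_or_ne c c₀ with rfl | h
    · obtain ⟨s, h1, h2⟩ := hA t
      obtain ⟨φ, hφ, h3, h4⟩ := exists_reparam_local hL.isU (hg.contDiffAt (x := t))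
        (Eventually.of_forall fun u => by
          obtain ⟨v, hv, -⟩ := hA u
          exact mem_iUnion.2 ⟨c, v, hv.symm⟩) h1
      have h5 : HasDerivAt (fun u => L.γ c (φ u)) (deriv φ t • deriv (L.γ c) s) t := by
        have := ((hL.isU.smooth c).differentiable (by simp) (φ t)).hasDerivAt.scomp t
          (hφ.differentiableAt (by simp)).hasDerivAt
        rw [h3] at this
        exact this
      have h6 : deriv (fun u => G (u, 0)) t = deriv φ t • deriv (L.γ c) s :=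
        (h5.congr_of_eventuallyEq h4).deriv
      have h7 : deriv φ t ≠ 0 := fun e => himm t (by rw [h6, e, zero_smul])
      simp only [Function.update_self, h6, h2]
      refine LinearIndependent.pair_iff.2 fun a b hab => ?_
      have h8 := LinearIndependent.pair_iff.1 (hL.indep c s) (a * deriv φ t) b
        (by rw [mul_smul]; exact hab)
      exact ⟨(mul_eq_zero.1 h8.1).resolve_right h7, h8.2⟩
    · simpa [h] using hL.indep c t
  · ext x
    constructor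
    · rintro ⟨c, s, rfl⟩
      rcases eq_or_ne c c₀ with rfl | h
      · obtain ⟨t, h1, h2⟩ := hB s
        exact ⟨c, t, by simp [h1, h2]⟩
      · exact ⟨c, s, by simp [h]⟩
    · rintro ⟨c, t, rfl⟩
      rcases eq_or_ne c c₀ with rfl | h
      · obtain ⟨s, h1, h2⟩ := hA t
        exact ⟨c, s, by simp [h1, h2]⟩
      · exact ⟨c, t, by simp [h]⟩

/-- the other components stay away from a given one -/
theorem ghom_gap [Fintype κ] {γ : κ → ℝ → E3} (hγ : IsU γ) (c₀ : κ) :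
    ∃ ε > 0, ∀ c u t, dist (γ c u) (γ c₀ t) < ε → c = c₀ := by
  have hK : ∀ c, IsCompact (range (γ c)) := fun c =>
    Function.Periodic.compact_of_continuous (c := (1 : ℝ)) (hγ.per c) one_ne_zero
      (hγ.smooth c).continuous
  have hU : IsOpen (⋃ c ∈ {c | c ≠ c₀}, range (γ c))ᶜ :=
    ((toFinite _).isClosed_biUnion fun c _ => (hK c).isClosed).isOpen_compl
  obtain ⟨ε, h1, h2⟩ := (hK c₀).exists_thickening_subset_open hU (by
    rintro _ ⟨t, rfl⟩ h
    simp only [mem_iUnion] at h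
    obtain ⟨c, hc, u, hu⟩ := h
    exact hc (hγ.inj _ _ _ _ hu).1)
  refine ⟨ε, h1, fun c u t h => ?_⟩
  by_contra hc
  refine h2 (Metric.mem_thickening_iff.2 ⟨_, ⟨t, rfl⟩, h⟩) ?_
  simp only [mem_iUnion]
  exact ⟨c, hc, u, rfl⟩

theorem slide_homotopy [Fintype κ] {L : Lk κ} (hL : L.IsLink) {c₀ : κ} {G : ℝ × ℝ → E3} {η : ℝ}
    (hη : 0 < η) (hG : ContDiffOn ℝ ∞ G (univ ×ˢ Ioo (-η) η))
    (hper : ∀ t r, G (t + 1, r) = G (t, r)) (hγ : ∀ t, L.γ c₀ t = G (t, 0))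
    (hν : ∀ t, L.ν c₀ t = deriv (fun r => G (t, r)) 0)
    (hz : ∀ t, G (t, 0) ∈ Qb (15 / 16) → G (t, 0) 2 = 0 ∧ L.ν c₀ t = ez)
    (hv : ∀ t, G (t, 0) ∈ Qb (15 / 16) → ∀ r, |r| < η → G (t, 0) + r • ez ∈ Qb (15 / 16) →
      G (t, r) = G (t, 0) + r • ez) (o : Option ι) :
    ∀ᶠ δ₁ in 𝓝[>] (0 : ℝ), ∀ δ ∈ Ioc 0 δ₁, ∀ S : LS ι, IsLL S →
      (∀ x ∈ S, x.2.1 ∈ trace L.γ ∨ ((∀ j, |x.2.1 j| ≤ 3 / 4) ∧ x.2.1 2 = 0)) →
      GIso (S ∪ range fun t => (o, G (t, -δ), deriv (fun r => G (t, r)) (-δ)))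
        (S ∪ range fun t => (o, L.γ c₀ t - δ₁ • L.ν c₀ t, L.ν c₀ t)) := by
  obtain ⟨ε, hε, hgap⟩ := ghom_gap hL.isU c₀
  have h0 : (0 : ℝ) ∈ Ioo (-η) η := ⟨by linarith, hη⟩
  have hg := hL.isU.smooth c₀
  have hn := hL.smooth c₀
  obtain ⟨F, hF⟩ : ∃ F : ℝ × ℝ × ℝ → E3, ∀ s t r, F (s, t, r) =
      (1 - s) • G (t, r) + s • (L.γ c₀ t + r • L.ν c₀ t) :=
    ⟨fun p => (1 - p.1) • G p.2 + p.1 • (L.γ c₀ p.2.1 + p.2.2 • L.ν c₀ p.2.1), fun _ _ _ => rfl⟩
  have hF0 : ∀ s t, F (s, t, 0) = L.γ c₀ t := fun s t => by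
    rw [hF, ← hγ, zero_smul, add_zero, ← add_smul, sub_add_cancel, one_smul]
  have hFr : ∀ s t, ∀ r ∈ Ioo (-η) η, deriv (fun r => F (s, t, r)) r =
      (1 - s) • deriv (fun r => G (t, r)) r + s • L.ν c₀ t := fun s t r hr => by
    simp only [hF]
    have h1 := ((hasDerivAt_id r).smul_const (L.ν c₀ t)).const_add (L.γ c₀ t)
    rw [one_smul] at h1
    exact (((ghom_dr hG t hr).differentiableAt.hasDerivAt.const_smul (1 - s)).add
      (h1.const_smul s)).deriv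
  have hFs : ContDiffOn ℝ ∞ F (univ ×ˢ univ ×ˢ Ioo (-η) η) := by
    have e : F = fun p => (1 - p.1) • G p.2 + p.1 • (L.γ c₀ p.2.1 + p.2.2 • L.ν c₀ p.2.1) :=
      funext fun p => hF p.1 p.2.1 p.2.2
    rw [e]
    refine ((contDiff_const.sub contDiff_fst).contDiffOn.smul
      (hG.comp contDiff_snd.contDiffOn fun p hp => hp.2)).add ?_
    exact (contDiff_fst.smul ((hg.comp (contDiff_fst.comp contDiff_snd)).add
      ((contDiff_snd.comp contDiff_snd).smul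
        (hn.comp (contDiff_fst.comp contDiff_snd))))).contDiffOn
  have hp : ∀ s t r, F (s, t + 1, r) = F (s, t, r) := fun s t r => by
    rw [hF, hF, hper, hL.isU.per, hL.per]
  obtain ⟨δ₀, hδ₀, hT⟩ := exists_thick hη hFs hp
    (fun s _ t t' h => by
      rw [hF0, hF0] at h
      exact (hL.isU.inj _ _ _ _ h).2)
    (fun s _ t => by
      simp only [hF0]
      rw [hFr s t 0 h0, ← hν, ← add_smul, sub_add_cancel, one_smul]
      exact hL.indep c₀ t) (lt_min hε (show (0 : ℝ) < 1 / 16 by norm_num))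
  filter_upwards [Ioo_mem_nhdsGT (lt_min hδ₀.1 (show (0 : ℝ) < 1 / 2 by norm_num))]
    with δ₁ hδ₁ δ hδ S hS hx
  have hd₁ := lt_min_iff.1 hδ₁.2
  obtain ⟨σ, hσs, hσ, hσ0, hσ1⟩ : ∃ σ : ℝ → ℝ, ContDiff ℝ ∞ σ ∧ (∀ s, σ s ∈ Icc (0 : ℝ) 1) ∧
      σ 0 = 0 ∧ σ 1 = 1 :=
    ⟨Real.smoothTransition, Real.smoothTransition.contDiff,
      fun s => ⟨Real.smoothTransition.nonneg s, Real.smoothTransition.le_one s⟩,
      Real.smoothTransition.zero, Real.smoothTransition.one⟩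
  obtain ⟨ρ, hρs, hρ, hρ0, hρ1⟩ : ∃ ρ : ℝ → ℝ, ContDiff ℝ ∞ ρ ∧ (∀ s, ρ s ∈ Icc (-δ₁) (-δ)) ∧
      ρ 0 = -δ ∧ ρ 1 = -δ₁ := by
    refine ⟨fun s => -δ - σ s * (δ₁ - δ), contDiff_const.sub (hσs.mul contDiff_const),
      fun s => ⟨?_, ?_⟩, by simp [hσ0], by simp only [hσ1]; ring⟩ <;>
      nlinarith [(hσ s).1, (hσ s).2, hδ.2]
  have hρa : ∀ s, |ρ s| ≤ δ₁ := fun s =>
    abs_le.2 ⟨(hρ s).1, by linarith [(hρ s).2, hδ.1, hδ₁.1]⟩
  have hρb : ∀ s, |ρ s| ≤ δ₀ := fun s => (hρa s).trans hd₁.1.le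
  have hρc : ∀ s, ρ s ∈ Ioo (-η) η := fun s => abs_lt.1 ((hρb s).trans_lt hδ₀.2)
  have hρn : ∀ s, ρ s ≠ 0 := fun s => by linarith [(hρ s).2, hδ.1]
  have hfam : SmoothFam fun s => (⟨fun _ t => F (σ s, t, ρ s),
      fun _ t => deriv (fun r => F (σ s, t, r)) (ρ s)⟩ : Lk Unit) := by
    intro _
    have h1 : ContDiff ℝ ∞ fun p : ℝ × ℝ => σ p.1 := hσs.comp contDiff_fst
    have h2 : ContDiff ℝ ∞ fun p : ℝ × ℝ => ρ p.1 := hρs.comp contDiff_fst
    constructor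
    · simp only [hF]
      exact ((contDiff_const.sub h1).smul (ghom_comp hG contDiff_snd h2 fun p => hρc p.1)).add
        (h1.smul ((hg.comp contDiff_snd).add (h2.smul (hn.comp contDiff_snd))))
    · simp only [fun s t => hFr (σ s) t (ρ s) (hρc s)]
      exact ((contDiff_const.sub h1).smul (ghom_comp' hG contDiff_snd h2 fun p => hρc p.1)).add
        (h1.smul (hn.comp contDiff_snd))
  have key := giso_move hS hfam (fun s _ => ⟨⟨fun c => (hfam c).1.comp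
      (contDiff_const.prodMk contDiff_id), fun _ t => hp _ _ _,
      fun _ _ t t' h => ⟨rfl, ((hT _ (hσ s) t _ (hρb s)).2.2 t' _ (hρb s) h).2⟩,
      fun _ t => (hT _ (hσ s) t _ (hρb s)).2.1.ne_zero 0⟩,
      fun c => (hfam c).2.comp (contDiff_const.prodMk contDiff_id), fun _ t => by simp only [hp],
      fun _ t => (hT _ (hσ s) t _ (hρb s)).2.1⟩) (fun s _ t x hxS e => ?_) o
  · convert key using 2
    · ext x
      simp only [Lk.set, hσ0, hρ0, hF, sub_zero, one_smul, zero_smul, add_zero, mem_range,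
        mem_ofPred_eq, exists_const, eq_comm]
    · ext x
      simp only [Lk.set, hFr _ _ _ (hρc 1)]
      simp only [hσ1, hρ1, hF, sub_self, one_smul, zero_smul, zero_add, mem_range,
        mem_ofPred_eq, exists_const, eq_comm, neg_smul, sub_eq_add_neg]
  · obtain ⟨h1, -, h3⟩ := hT _ (hσ s) t _ (hρb s)
    change x.2.1 = F (σ s, t, ρ s) at e
    rw [hF0, ← e, lt_min_iff] at h1
    rcases hx x hxS with h | ⟨h, h'⟩
    · obtain ⟨c, u, hu⟩ := mem_iUnion.1 h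
      rw [← hu] at h1
      obtain rfl := hgap c u t h1.1
      refine hρn s (h3 u 0 (by simpa using hδ₀.1.le) ?_).1
      rw [hF0, ← e, hu]
    · have h4 : G (t, 0) ∈ Qb (15 / 16) := fun j => by
        have h5 := (PiLp.dist_apply_le x.2.1 (L.γ c₀ t) j).trans_lt h1.2
        rw [Real.dist_eq, hγ, abs_lt] at h5
        have h6 := abs_le.1 (h j)
        rw [abs_lt]
        constructor <;> linarith [h5.1, h5.2, h6.1, h6.2]
      obtain ⟨h5, h6⟩ := hz t h4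
      have h7 := hv t h4 (ρ s) (abs_lt.2 (hρc s)) fun j => by
        fin_cases j
        · simpa [ez] using h4 0
        · simpa [ez] using h4 1
        · have := hρa s
          simp only [Fin.reduceFinMk, PiLp.add_apply, h5, PiLp.smul_apply, ez]
          simp
          linarith [hd₁.2]
      rw [hF, h7, hγ, h6, ← add_smul, sub_add_cancel, one_smul] at e
      rw [e] at h'
      simp only [PiLp.add_apply, h5, PiLp.smul_apply, ez] at h'
      exact hρn s (by simpa using h')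

end Pool.Agent.P.MP_ac4909_gt.B
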