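import Pool.Agent.P.MP_ac4909_gt.B.GB_Ang

/-! Layer G, blocks: a short arc can be made straight and ascending. -/

namespace Pool.Agent.P.MP_ac4909_gt.B

open scoped ContDiff
open Set Filter Topology

variable {κ : Type} [Fintype κ] {Cl : Set E3} {γ : κ → ℝ → E3} {θ : κ → ℝ → ℝ}

theorem glin_bump : ∃ (β : ℝ → ℝ) (C : ℝ), ContDiff ℝ ∞ β ∧ (∀ x, β x ∈ Icc (0 : ℝ) 1) ∧
    (∀ x, |x| ≤ 1 → β x = 1) ∧ (∀ x, 2 ≤ |x| → β x = 0 ∧ deriv β x = 0) ∧
    ∀ x, |x * deriv β x| ≤ C := by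
  let β : ContDiffBump (0 : ℝ) := ⟨1, 2, one_pos, one_lt_two⟩
  obtain ⟨C, hC⟩ := (continuous_id.mul (β.contDiff.continuous_deriv le_rfl)
    ).bounded_above_of_compact_support β.hasCompactSupport.deriv.mul_left
  refine ⟨β, C, β.contDiff, fun x => ⟨β.nonneg, β.le_one⟩,
    fun x hx => β.one_of_mem_closedBall (by simpa using hx), fun x hx => ?_, hC⟩
  have h : β x = 0 := β.zero_of_le_dist (by simpa using hx)
  exact ⟨h, IsLocalMin.deriv_eq_zero (Eventually.of_forall fun y => h.trans_le β.nonneg)⟩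

theorem glin_coord {f : ℝ → E3} {w : E3} {u : ℝ} (h : HasDerivAt f w u) (i : Fin 3) :
    HasDerivAt (fun x => f x i) (w i) u :=
  (EuclideanSpace.proj (𝕜 := ℝ) i).hasFDerivAt.comp_hasDerivAt u h

/-- the local model of the deformation -/
theorem glin_model {f f' : ℝ → E3} (hf : ContDiff ℝ ∞ f) (hf' : ContDiff ℝ ∞ f')
    (hd : ∀ u, HasDerivAt f (f' u) u) {v : E3} {i : Fin 3} (hi : f' 0 i = v i) (hv : v i ≠ 0) :
    ∃ ε₁ > 0, ε₁ < 1 / 2 ∧ ∀ e > 0, ∃ g g' : ℝ → ℝ → E3,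
      (ContDiff ℝ ∞ fun p : ℝ × ℝ => g p.1 p.2) ∧ (ContDiff ℝ ∞ fun p : ℝ × ℝ => g' p.1 p.2) ∧
      (∀ s u, HasDerivAt (g s) (g' s u) u) ∧ (∀ u, g 0 u = f u ∧ g' 0 u = f' u) ∧
      (∀ s u, 2 * e ≤ |u| → g s u = f u ∧ g' s u = f' u) ∧
      (∀ s ∈ Icc (0 : ℝ) 1, ∀ u, |u| ≤ ε₁ → 0 < v i * g' s u i) ∧
      (∀ s ∈ Icc (0 : ℝ) 1, ∀ u, g s u ∈ segment ℝ (f u) (f 0 + u • v)) ∧
      ∀ u, |u| ≤ e → g 1 u = f 0 + u • v := by
  obtain ⟨β, C, hβ, b1, b2, b3, b4⟩ := glin_bump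
  have hC : 0 ≤ C := (abs_nonneg _).trans (b4 0)
  have ha := abs_pos.2 hv
  obtain ⟨η, hη, hη'⟩ : ∃ η > 0, η * (C + 3) = |v i| := ⟨|v i| / (C + 3), by positivity, by
    field_simp⟩
  have hc : ContinuousAt (fun u => f' u i) 0 :=
    ((EuclideanSpace.proj (𝕜 := ℝ) i).continuous.comp hf'.continuous).continuousAt
  obtain ⟨δ, hδ, h1⟩ := Metric.continuousAt_iff.1 hc η hη
  have h2 : ∀ u, |u| ≤ min (δ / 2) (1 / 4) → |v i - f' u i| ≤ η := fun u hu => by
    have := h1 (x := u) (by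
      rw [Real.dist_0_eq_abs]
      linarith [min_le_left (δ / 2) (1 / 4)])
    rw [hi, Real.dist_eq, abs_sub_comm] at this
    exact this.le
  have h0 : 0 < min (δ / 2) (1 / 4) := lt_min (by linarith) (by norm_num)
  have h3 : ∀ u, |u| ≤ min (δ / 2) (1 / 4) → |f 0 i + u * v i - f u i| ≤ η * |u| := fun u hu => by
    have := (convex_Icc (-min (δ / 2) (1 / 4)) (min (δ / 2) (1 / 4))
      ).norm_image_sub_le_of_norm_hasDerivWithin_le (f := fun x => x * v i - f x i)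
      (f' := fun x => v i - f' x i) (fun x _ => ((hasDerivAt_mul_const (v i)).sub
          (glin_coord (hd x) i)).hasDerivWithinAt)
      (fun x hx => h2 x (abs_le.2 hx)) ⟨by linarith, h0.le⟩ (abs_le.1 hu)
    rwa [show u * v i - f u i - (0 * v i - f 0 i) = f 0 i + u * v i - f u i by ring, sub_zero]
      at this
  refine ⟨_, h0, (min_le_right _ _).trans_lt (by norm_num), fun e he =>
    ⟨fun s u => f u + (s * β (u / e)) • (f 0 + u • v - f u),
      fun s u => f' u + ((s * β (u / e)) • (v - f' u) +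
        (s * (deriv β (u / e) / e)) • (f 0 + u • v - f u)), by fun_prop, ?_, fun s u => ?_,
      fun u => by simp, fun s u hu => ?_, fun s hs u hu => ?_, fun s hs u => ?_,
      fun u hu => ?_⟩⟩
  · have := (contDiff_infty_iff_deriv.1 hβ).2
    fun_prop
  · have d1 : HasDerivAt (fun x => s * β (x / e)) (s * (deriv β (u / e) / e)) u := by
      simpa [div_eq_mul_inv] using ((hβ.differentiable (by simp) (u / e)).hasDerivAt.comp u
        ((hasDerivAt_id u).div_const e)).const_mul s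
    have d2 : HasDerivAt (fun x => f 0 + x • v - f x) (v - f' u) u := by
      have := (((hasDerivAt_id u).smul_const v).const_add (f 0)).sub (hd u)
      rwa [one_smul] at this
    exact (hd u).add (d1.smul d2)
  · have := b3 (u / e) (by rwa [abs_div, abs_of_pos he, le_div_iff₀ he])
    simp [this.1, this.2]
  · simp only [PiLp.add_apply, PiLp.smul_apply, PiLp.sub_apply, smul_eq_mul]
    have e1 := h2 u hu
    have e2 : |s * β (u / e) * (v i - f' u i)| ≤ η := by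
      rw [abs_mul, abs_of_nonneg (mul_nonneg hs.1 (b1 _).1)]
      exact (mul_le_of_le_one_left (abs_nonneg _) (mul_le_one₀ hs.2 (b1 _).1 (b1 _).2)).trans e1
    have e3 : |s * (deriv β (u / e) / e) * (f 0 i + u * v i - f u i)| ≤ η * C := by
      rw [mul_assoc, abs_mul, abs_of_nonneg hs.1, abs_mul]
      refine (mul_le_of_le_one_left (by positivity) hs.2).trans
        ((mul_le_mul_of_nonneg_left (h3 u hu) (abs_nonneg _)).trans ?_)
      rw [mul_left_comm, ← abs_mul, show deriv β (u / e) / e * u = u / e * deriv β (u / e) by ring]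
      exact mul_le_mul_of_nonneg_left (b4 _) hη.le
    rw [abs_le] at e1 e2 e3
    rcases hv.lt_or_gt with h | h
    · rw [abs_of_neg h] at hη'
      exact mul_pos_of_neg_of_neg h (by linarith [e1.1, e2.2, e3.2])
    · rw [abs_of_pos h] at hη'
      exact mul_pos h (by linarith [e1.2, e2.1, e3.1])
  · rw [segment_eq_image']
    exact ⟨_, ⟨mul_nonneg hs.1 (b1 _).1, mul_le_one₀ hs.2 (b1 _).1 (b1 _).2⟩, rfl⟩
  · simp [b2 (u / e) (by rwa [abs_div, abs_of_pos he, div_le_one he])]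

theorem exists_lin (hγ : IsU γ) (hv : NonVert γ) (hθ : AngOK θ) (hCl : IsClosed Cl) {c₀ : κ}
    {t₀ r : ℝ} (hr : 0 < r) (h₀ : γ c₀ t₀ ∉ Cl) :
    ∃ (γ' : κ → ℝ → E3) (ε₁ : ℝ) (v : E3), 0 < ε₁ ∧ ε₁ < r ∧ IsU γ' ∧ NonVert γ' ∧
      RelIso Cl (ang γ θ) (ang γ' θ) ∧ (v 0 ≠ 0 ∨ v 1 ≠ 0) ∧ v 2 = 1 ∧
      ∀ u, |u| ≤ ε₁ → γ' c₀ (t₀ + u) = γ' c₀ t₀ + u • v := by
  obtain ⟨v, hv⟩ : ∃ v : E3, v = !₂[deriv (γ c₀) t₀ 0, deriv (γ c₀) t₀ 1, 1] := ⟨_, rfl⟩
  obtain ⟨i, hi, i1, i2⟩ : ∃ i : Fin 3, (i = 0 ∨ i = 1) ∧ deriv (γ c₀) (t₀ + 0) i = v i ∧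
      v i ≠ 0 := by
    rw [add_zero, hv]
    exact (‹NonVert γ› c₀ t₀).elim (fun h => ⟨0, Or.inl rfl, rfl, h⟩)
      fun h => ⟨1, Or.inr rfl, rfl, h⟩
  have nv : ∀ w : E3, w i ≠ 0 → w 0 ≠ 0 ∨ w 1 ≠ 0 := fun w h => by
    rcases hi with rfl | rfl
    exacts [Or.inl h, Or.inr h]
  have hs := hγ.smooth c₀
  have hs' := (contDiff_infty_iff_deriv.1 hs).2
  obtain ⟨ε₁, e0, e1, hm⟩ := glin_model (f := fun u => γ c₀ (t₀ + u))
    (f' := fun u => deriv (γ c₀) (t₀ + u)) (by fun_prop) (by fun_prop)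
    (fun u => (hs.differentiable (by simp) _).hasDerivAt.comp_const_add t₀ u) i1 i2
  obtain ⟨d, hd, d1, d2⟩ := hγ.exists_ball hCl e0 h₀
  have hb : ∀ F : ℝ → E3, Continuous F → F 0 = γ c₀ t₀ →
      ∀ᶠ u in 𝓝 0, F u ∈ Metric.ball (γ c₀ t₀) d := fun F h1 h2 =>
    h1.continuousAt (h2 ▸ Metric.ball_mem_nhds _ hd)
  have := hs.continuous
  obtain ⟨δ, hδ, h1⟩ := Metric.eventually_nhds_iff.1
    ((hb (fun u => γ c₀ (t₀ + u)) (by fun_prop) (by simp)).and
      (hb (fun u => γ c₀ (t₀ + 0) + u • v) (by fun_prop) (by simp)))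
  obtain ⟨e, he, l1, l2, l3⟩ : ∃ e > 0, e < r ∧ 2 * e < ε₁ ∧ 2 * e < δ :=
    ⟨min r (min ε₁ δ) / 3, by positivity, by linarith [min_le_left r (min ε₁ δ)],
      by linarith [min_le_right r (min ε₁ δ), min_le_left ε₁ δ],
      by linarith [min_le_right r (min ε₁ δ), min_le_right ε₁ δ]⟩
  obtain ⟨g, g', g1, g2, g3, g4, g5, g6, g7, g8⟩ := hm e he
  have g9 : ∀ s ∈ Icc (0 : ℝ) 1, ∀ u, |u| ≤ ε₁ → g' s u 0 ≠ 0 ∨ g' s u 1 ≠ 0 := fun s h u hu =>
    nv _ (right_ne_zero_of_mul (g6 s h u hu).ne')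
  have hθs := hθ.smooth c₀
  have hhn := contDiff_hn
  obtain ⟨L, r1, r2, r3⟩ := relIso_local (ang_isLink hγ ‹NonVert γ› hθ) c₀ t₀
    (show 0 < 2 * e by positivity) l2 e1 g1
    (m := fun s u => Real.cos (θ c₀ (t₀ + u)) • ez + Real.sin (θ c₀ (t₀ + u)) • hn (g' s u))
    (by fun_prop) (fun u _ => ⟨(g4 u).1, by rw [(g4 u).2]; rfl⟩)
    (fun s _ u h _ => ⟨(g5 s u h).1, by rw [(g5 s u h).2]; rfl⟩)
    (fun s h => InjOn.of_comp (g := fun w : E3 => v i * w i) (strictMonoOn_of_deriv_pos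
      (convex_Icc _ _)
      (fun u _ => ((glin_coord (g3 s u) i).const_mul _).continuousAt.continuousWithinAt)
      fun u hu => (g6 s h u (abs_le.2 (mem_Icc.1 (interior_subset hu)))).trans_eq
        ((glin_coord (g3 s u) i).const_mul _).deriv.symm).injOn)
    (fun s h u hu => by
      have := indep_ang (g9 s h u hu) (α := 0) (a := Real.cos (θ c₀ (t₀ + u)))
        (b := Real.sin (θ c₀ (t₀ + u))) (by
          by_contra h0
          push Not at h0
          simpa [h0.1, h0.2] using Real.cos_sq_add_sin_sq (θ c₀ (t₀ + u)))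
      rw [(g3 s u).deriv]
      rwa [zero_smul, zero_add] at this)
    (fun s h u hu => by
      have := h1 (y := u) (by rw [Real.dist_0_eq_abs]; linarith)
      exact (convex_ball _ _).segment_subset this.1 this.2 (g7 s h u)) d1 d2
  have hL := r1.isLink
  have key : ∀ c t, (deriv (L.γ c) t 0 ≠ 0 ∨ deriv (L.γ c) t 1 ≠ 0) ∧
      L.ν c t = (ang L.γ θ).ν c t := by
    intro c t
    by_cases h : Off c₀ t₀ ε₁ c t
    · have h2 : deriv (L.γ c) t = deriv (γ c) t :=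
        EventuallyEq.deriv_eq ((h.eventually l2).mono fun t' h' => (r2 c t' h').1)
      exact ⟨h2 ▸ ‹NonVert γ› c t, by rw [(r2 c t (h.mono l2.le)).2]; simp only [ang, h2]⟩
    · simp only [Off, not_forall, not_le] at h
      obtain ⟨rfl, j, hj⟩ := h
      have h2 := per_int (g := fun t => (deriv (L.γ c) t 0 ≠ 0 ∨ deriv (L.γ c) t 1 ≠ 0) ∧
        L.ν c t = (ang L.γ θ).ν c t) (fun t => by
          obtain ⟨n, hn⟩ := hθ.per c
          have h3 : deriv (L.γ c) (t + 1) = deriv (L.γ c) t := by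
            rw [← deriv_comp_add_const, funext (hL.isU.per c)]
          simp only [ang, h3, hL.per, hn, mul_comm _ (n : ℝ), Real.cos_add_int_mul_two_pi,
            Real.sin_add_int_mul_two_pi]) (t₀ + (t - t₀ - j)) j
      rw [show t₀ + (t - t₀ - j) + j = t by ring] at h2
      rw [h2]
      have h3 : deriv (L.γ c) (t₀ + (t - t₀ - j)) = g' 1 (t - t₀ - j) := by
        rw [← deriv_comp_const_add, ← (g3 1 _).deriv]
        refine EventuallyEq.deriv_eq ?_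
        filter_upwards [(isOpen_lt continuous_abs continuous_const).mem_nhds hj] with u hu
        exact (r3 u (le_of_lt hu)).1
      exact ⟨h3 ▸ g9 1 ⟨zero_le_one, le_rfl⟩ _ hj.le, by rw [(r3 _ hj.le).2]; simp only [ang, h3]⟩
  have hL' : ang L.γ θ = L := by
    obtain ⟨a, b⟩ := L
    exact congrArg (Lk.mk a) (funext₂ fun c t => (key c t).2.symm)
  refine ⟨L.γ, e, v, he, l1, hL.isU, fun c t => (key c t).1, hL'.symm ▸ r1, nv v i2, hv ▸ rfl,
    fun u hu => ?_⟩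
  have h2 := (r3 0 (by simpa using e0.le)).1
  rw [add_zero, g8 0 (by simpa using he.le)] at h2
  rw [(r3 u (by linarith)).1, g8 u hu, h2]
  simp

end Pool.Agent.P.MP_ac4909_gt.B
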