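import Pool.Agent.P.MP_ac4909_gt.B.GB_Rel

/-! Layer G, blocks: local modifications of a link. -/

namespace Pool.Agent.P.MP_ac4909_gt.B

open scoped ContDiff
open Set Filter Topology

variable {κ : Type} {Cl : Set E3}

theorem gloc_cont (t₀ : ℝ) : Continuous fun t : ℝ => |t - t₀ - round (t - t₀)| := by
  refine (LipschitzWith.of_le_add fun x y => ?_).continuous
  have h1 := round_le (x - t₀) (round (y - t₀))
  have h2 : |x - t₀ - round (y - t₀)| ≤ |y - t₀ - round (y - t₀)| + |x - y| := by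
    have := abs_add_le (y - t₀ - round (y - t₀)) (x - y)
    rwa [show y - t₀ - round (y - t₀) + (x - y) = x - t₀ - round (y - t₀) by ring] at this
  rw [Real.dist_eq]
  linarith

theorem gloc_round {x : ℝ} {j : ℤ} (h : |x - j| < 1 / 2) : round x = j := by
  rw [abs_lt] at h
  rw [round_eq_iff]
  constructor <;> linarith [h.1, h.2]

theorem gloc_ev (t₀ : ℝ) {t r : ℝ} {j : ℤ} (h : |t - t₀ - j| < r) :
    ∀ᶠ t' in 𝓝 t, |t' - t₀ - j| < r :=
  (by fun_prop : Continuous fun t' : ℝ => |t' - t₀ - j|).continuousAt.eventually_lt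
    continuousAt_const h

/-- periodic extension of a family of functions supported in a short interval -/
theorem contDiff_per {X : Type} [NormedAddCommGroup X] [NormedSpace ℝ X] {f : ℝ × ℝ → X}
    {r r' : ℝ} (h₁ : r < r') (h₂ : r' ≤ 1 / 2) (hf : ContDiffOn ℝ ∞ f (univ ×ˢ Ioo (-r') r'))
    (h₀ : ∀ s u, r ≤ |u| → f (s, u) = 0) (t₀ : ℝ) :
    ContDiff ℝ ∞ fun p : ℝ × ℝ => f (p.1, p.2 - t₀ - round (p.2 - t₀)) := by
  refine contDiff_iff_contDiffAt.2 fun p => ?_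
  by_cases hp : |p.2 - t₀ - round (p.2 - t₀)| < r'
  · have h1 : ∀ᶠ q : ℝ × ℝ in 𝓝 p, |q.2 - t₀ - round (p.2 - t₀)| < r' :=
      continuous_snd.continuousAt.eventually (gloc_ev t₀ hp)
    have h2 : ContDiffAt ℝ ∞ f (p.1, p.2 - t₀ - round (p.2 - t₀)) :=
      hf.contDiffAt ((isOpen_univ.prod isOpen_Ioo).mem_nhds ⟨mem_univ _, abs_lt.1 hp⟩)
    have h3 : ContDiffAt ℝ ∞ (fun q : ℝ × ℝ => f (q.1, q.2 - t₀ - round (p.2 - t₀))) p :=
      h2.comp p (f := fun q : ℝ × ℝ => (q.1, q.2 - t₀ - (round (p.2 - t₀) : ℝ))) (by fun_prop)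
    refine h3.congr_of_eventuallyEq (h1.mono fun q hq => ?_)
    simp only [gloc_round (hq.trans_le h₂)]
  · have h1 : ∀ᶠ q : ℝ × ℝ in 𝓝 p, r < |q.2 - t₀ - round (q.2 - t₀)| :=
      continuous_snd.continuousAt.eventually
        (continuousAt_const.eventually_lt (gloc_cont t₀).continuousAt (h₁.trans_le (not_lt.1 hp)))
    exact (contDiffAt_const (c := (0 : X))).congr_of_eventuallyEq
      (h1.mono fun q hq => h₀ _ _ hq.le)

/-- a smooth staircase -/
theorem exists_stair (t₀ : ℝ) {ε : ℝ} (h₀ : 0 < ε) (h₁ : ε < 1) (n : ℤ) :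
    ∃ Θ : ℝ → ℝ, ContDiff ℝ ∞ Θ ∧ (∀ t, Θ (t + 1) = Θ t + 2 * Real.pi * n) ∧
      (∀ u, |u| ≤ 1 / 2 → Θ (t₀ + u) = n * Real.pi * (1 + st (u / ε))) ∧
      ∀ t, (∀ j : ℤ, ε / 2 ≤ |t - t₀ - j|) → Z2 (Θ t) := by
  have hge : ∀ u, ε / 2 ≤ u → st (u / ε) = 1 := fun u hu =>
    st_of_ge (by rw [le_div_iff₀ h₀]; linarith)
  have hle : ∀ u, u ≤ -(ε / 2) → st (u / ε) = -1 := fun u hu =>
    st_of_le (by rw [div_le_iff₀ h₀]; linarith)
  set Θ : ℝ → ℝ := fun t => 2 * Real.pi * n * round (t - t₀) +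
    n * Real.pi * (1 + st ((t - t₀ - round (t - t₀)) / ε)) with hΘ
  have key : ∀ (t : ℝ) (j : ℤ), |t - t₀ - j| ≤ 1 - ε / 2 →
      Θ t = 2 * Real.pi * n * j + n * Real.pi * (1 + st ((t - t₀ - j) / ε)) := by
    intro t j h
    have h2 := abs_sub_round (t - t₀)
    have h3 := round_le (t - t₀) j
    rw [abs_le] at h h2
    have h4 : |round (t - t₀) - j| < 2 := by
      rw [abs_lt]
      constructor
      · have : (-2 : ℝ) < round (t - t₀) - j := by linarith [h.1, h2.2]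
        exact_mod_cast this
      · have : (round (t - t₀) : ℝ) - j < 2 := by linarith [h.2, h2.1]
        exact_mod_cast this
    rw [abs_lt] at h4
    obtain h5 | h5 | h5 : round (t - t₀) = j ∨ round (t - t₀) = j + 1 ∨ round (t - t₀) = j - 1 := by
      omega
    · simp only [hΘ, h5]
    · simp only [hΘ, h5] at h2 ⊢
      push_cast at h2 ⊢
      rw [hle _ (by linarith [h.2]), hge _ (by linarith [h2.1])]
      ring
    · simp only [hΘ, h5] at h2 ⊢
      push_cast at h2 ⊢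
      rw [hge _ (by linarith [h.1]), hle _ (by linarith [h2.2])]
      ring
  refine ⟨Θ, contDiff_iff_contDiffAt.2 fun t => ?_, fun t => ?_, fun u hu => ?_, fun t ht => ?_⟩
  · have h1 : |t - t₀ - round (t - t₀)| < 1 - ε / 2 :=
      (abs_sub_round (t - t₀)).trans_lt (by linarith)
    have h2 : ContDiff ℝ ∞ fun x : ℝ => 2 * Real.pi * n * round (t - t₀) +
        n * Real.pi * (1 + st ((x - t₀ - round (t - t₀)) / ε)) :=
      contDiff_const.add (contDiff_const.mul (contDiff_const.add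
        (st_contDiff.comp (by fun_prop))))
    exact h2.contDiffAt.congr_of_eventuallyEq
      ((gloc_ev t₀ h1).mono fun x hx => key x _ hx.le)
  · simp only [hΘ, show t + 1 - t₀ = t - t₀ + 1 by ring, round_add_one]
    push_cast
    rw [show t - t₀ + 1 - (round (t - t₀) + 1) = t - t₀ - round (t - t₀) by ring]
    ring
  · rw [key (t₀ + u) 0 (by simpa using hu.trans (by linarith))]
    simp
  · have h1 := ht (round (t - t₀))
    rcases le_abs.1 h1 with h | h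
    · refine ⟨n * (round (t - t₀) + 1), ?_⟩
      simp only [hΘ, hge _ h]
      push_cast
      ring
    · refine ⟨n * round (t - t₀), ?_⟩
      simp only [hΘ, hle _ (le_neg.1 h)]
      push_cast
      ring

theorem Off.mono {c₀ c : κ} {t₀ r r' t : ℝ} (h : Off c₀ t₀ r c t) (hr : r' ≤ r) :
    Off c₀ t₀ r' c t := fun e j => hr.trans (h e j)

theorem Off.eventually {c₀ c : κ} {t₀ r r' t : ℝ} (h : Off c₀ t₀ r c t) (hr : r' < r) :
    ∀ᶠ t' in 𝓝 t, Off c₀ t₀ r' c t' := by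
  by_cases e : c = c₀
  · have h1 : ∀ᶠ t' in 𝓝 t, r' < |t' - t₀ - round (t' - t₀)| :=
      continuousAt_const.eventually_lt (gloc_cont t₀).continuousAt (hr.trans_le (h e _))
    exact h1.mono fun x hx _ j => hx.le.trans (round_le _ j)
  · exact Eventually.of_forall fun _ e' => absurd e' e

theorem gloc_closed (c₀ c : κ) (t₀ r : ℝ) : IsClosed {t | Off c₀ t₀ r c t} := by
  by_cases e : c = c₀
  · have : {t | Off c₀ t₀ r c t} = ⋂ j : ℤ, {t : ℝ | r ≤ |t - t₀ - j|} := by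
      ext t
      simp [Off, e]
    rw [this]
    exact isClosed_iInter fun j => isClosed_le continuous_const (by fun_prop)
  · have : {t | Off c₀ t₀ r c t} = univ := eq_univ_of_forall fun _ e' => absurd e' e
    rw [this]
    exact isClosed_univ

/-- the rest of the link keeps a positive distance from a site -/
theorem IsU.exists_ball [Fintype κ] {γ : κ → ℝ → E3} (hγ : IsU γ) (hCl : IsClosed Cl) {c₀ : κ}
    {t₀ r : ℝ} (hr : 0 < r) (h₀ : γ c₀ t₀ ∉ Cl) :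
    ∃ d > 0, Disjoint (Metric.ball (γ c₀ t₀) d) Cl ∧
      ∀ c t, Off c₀ t₀ r c t → γ c t ∉ Metric.ball (γ c₀ t₀) d := by
  have hK : IsCompact (⋃ c, γ c '' (Icc 0 1 ∩ {t | Off c₀ t₀ r c t})) :=
    isCompact_iUnion fun c =>
      (isCompact_Icc.inter_right (gloc_closed c₀ c t₀ r)).image (hγ.smooth c).continuous
  have h1 : γ c₀ t₀ ∉ (⋃ c, γ c '' (Icc 0 1 ∩ {t | Off c₀ t₀ r c t})) ∪ Cl := by
    rintro (h | h)
    · obtain ⟨c, t, ⟨-, ht⟩, e⟩ := mem_iUnion.1 h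
      obtain ⟨rfl, k, hk⟩ := hγ.inj _ _ _ _ e
      have := ht rfl (-k)
      rw [hk] at this
      simp at this
      linarith
    · exact h₀ h
  obtain ⟨d, hd, hb⟩ := Metric.isOpen_iff.1 (hK.isClosed.union hCl).isOpen_compl _ h1
  refine ⟨d, hd, disjoint_left.2 fun x hx hx' => hb hx (Or.inr hx'), fun c t ht hx => hb hx ?_⟩
  refine Or.inl (mem_iUnion.2 ⟨c, Int.fract t, ⟨⟨Int.fract_nonneg t, (Int.fract_lt_one t).le⟩,
    fun e j => ?_⟩, ?_⟩)
  · have := ht e (j + ⌊t⌋)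
    rw [Int.fract]
    push_cast at this
    rwa [show t - ⌊t⌋ - t₀ - j = t - t₀ - (j + ⌊t⌋) by ring]
  · rw [← per_int (hγ.per c) (Int.fract t) ⌊t⌋, Int.fract_add_floor]

theorem gloc_mod {b : ℝ → E3} (hb : ContDiff ℝ ∞ b) (hp : ∀ t, b (t + 1) = b t) (t₀ : ℝ)
    {ε ε₁ : ℝ} (h₁ : ε < ε₁) (h₂ : ε₁ < 1 / 2) {G : ℝ → ℝ → E3}
    (hG : ContDiff ℝ ∞ fun p : ℝ × ℝ => G p.1 p.2)
    (ho : ∀ s u, ε ≤ |u| → |u| ≤ ε₁ → G s u = b (t₀ + u)) :
    ∃ M : ℝ → ℝ → E3, (ContDiff ℝ ∞ fun p : ℝ × ℝ => M p.1 p.2) ∧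
      (∀ s t, M s (t + 1) = M s t) ∧ (∀ s u, |u| ≤ ε₁ → M s (t₀ + u) = G s u) ∧
      ∀ s t, (∀ j : ℤ, ε ≤ |t - t₀ - j|) → M s t = b t := by
  set F : ℝ × ℝ → E3 := fun p => if |p.2| < ε₁ then G p.1 p.2 - b (t₀ + p.2) else 0 with hF
  have hF1 : ContDiffOn ℝ ∞ F (univ ×ˢ Ioo (-ε₁) ε₁) := by
    have h : ContDiff ℝ ∞ fun p : ℝ × ℝ => G p.1 p.2 - b (t₀ + p.2) :=
      hG.sub (hb.comp (contDiff_const.add contDiff_snd))
    refine h.contDiffOn.congr fun p hp => ?_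
    simp only [hF, if_pos (abs_lt.2 hp.2)]
  have hF0 : ∀ s u, ε ≤ |u| → F (s, u) = 0 := by
    intro s u hu
    simp only [hF]
    split_ifs with h
    · rw [ho s u hu h.le, sub_self]
    · rfl
  refine ⟨fun s t => b t + F (s, t - t₀ - round (t - t₀)),
    (hb.comp contDiff_snd).add (contDiff_per h₁ h₂.le hF1 hF0 t₀), fun s t => ?_,
    fun s u hu => ?_, fun s t ht => ?_⟩
  · simp only [hp, show t + 1 - t₀ = t - t₀ + 1 by ring, round_add_one]
    push_cast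
    rw [show t - t₀ + 1 - (round (t - t₀) + 1) = t - t₀ - round (t - t₀) by ring]
  · have h : round u = 0 := gloc_round (by simpa using hu.trans_lt h₂)
    simp only [add_sub_cancel_left, h, Int.cast_zero, sub_zero, hF]
    split_ifs with h'
    · abel
    · rw [add_zero, ho s u (h₁.le.trans (not_lt.1 h')) hu]
  · simp only [hF0 _ _ (ht _), add_zero]

theorem gloc_dich (c₀ : κ) (t₀ r : ℝ) (c : κ) (t : ℝ) :
    Off c₀ t₀ r c t ∨ c = c₀ ∧ ∃ (u : ℝ) (j : ℤ), |u| < r ∧ t = t₀ + u + j := by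
  by_cases h : Off c₀ t₀ r c t
  · exact Or.inl h
  · simp only [Off, not_forall, not_le] at h
    obtain ⟨e, j, hj⟩ := h
    exact Or.inr ⟨e, t - t₀ - j, j, hj, by ring⟩

/-- a local isotopy of an arc is an isotopy of the link -/
theorem relIso_local {L : Lk κ} (hL : L.IsLink) {V : Set E3} (c₀ : κ) (t₀ : ℝ) {ε ε₁ : ℝ}
    (h₀ : 0 < ε) (h₁ : ε < ε₁) (h₂ : ε₁ < 1 / 2) {g m : ℝ → ℝ → E3}
    (hg : ContDiff ℝ ∞ fun p : ℝ × ℝ => g p.1 p.2) (hm : ContDiff ℝ ∞ fun p : ℝ × ℝ => m p.1 p.2)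
    (hz : ∀ u, |u| ≤ ε₁ → g 0 u = L.γ c₀ (t₀ + u) ∧ m 0 u = L.ν c₀ (t₀ + u))
    (ho : ∀ s ∈ Icc (0 : ℝ) 1, ∀ u, ε ≤ |u| → |u| ≤ ε₁ →
      g s u = L.γ c₀ (t₀ + u) ∧ m s u = L.ν c₀ (t₀ + u))
    (hi : ∀ s ∈ Icc (0 : ℝ) 1, InjOn (g s) (Icc (-ε₁) ε₁))
    (hd : ∀ s ∈ Icc (0 : ℝ) 1, ∀ u, |u| ≤ ε₁ → LinearIndependent ℝ ![deriv (g s) u, m s u])
    (hV : ∀ s ∈ Icc (0 : ℝ) 1, ∀ u, |u| ≤ ε → g s u ∈ V) (hVC : Disjoint V Cl)
    (hVL : ∀ c t, Off c₀ t₀ ε₁ c t → L.γ c t ∉ V) :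
    ∃ L', RelIso Cl L L' ∧
      (∀ c t, Off c₀ t₀ ε c t → L'.γ c t = L.γ c t ∧ L'.ν c t = L.ν c t) ∧
      ∀ u, |u| ≤ ε₁ → L'.γ c₀ (t₀ + u) = g 1 u ∧ L'.ν c₀ (t₀ + u) = m 1 u := by
  classical
  have hσ : ∀ s, Real.smoothTransition s ∈ Icc (0 : ℝ) 1 := fun s =>
    ⟨Real.smoothTransition.nonneg s, Real.smoothTransition.le_one s⟩
  have hσs : ContDiff ℝ ∞ fun p : ℝ × ℝ => (Real.smoothTransition p.1, p.2) :=
    (Real.smoothTransition.contDiff.comp contDiff_fst).prodMk contDiff_snd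
  obtain ⟨Mg, g1, g2, g3, g4⟩ := gloc_mod (hL.isU.smooth c₀) (hL.isU.per c₀) t₀ h₁ h₂
    (G := fun s => g (Real.smoothTransition s)) (hg.comp hσs)
    fun s u a b => (ho _ (hσ s) u a b).1
  obtain ⟨Mm, m1, m2, m3, m4⟩ := gloc_mod (hL.smooth c₀) (hL.per c₀) t₀ h₁ h₂
    (G := fun s => m (Real.smoothTransition s)) (hm.comp hσs)
    fun s u a b => (ho _ (hσ s) u a b).2
  obtain ⟨H, hHγ, hHν⟩ : ∃ H : ℝ → Lk κ,
      (∀ s c, (H s).γ c = if c = c₀ then Mg s else L.γ c) ∧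
      ∀ s c, (H s).ν c = if c = c₀ then Mm s else L.ν c :=
    ⟨fun s => ⟨fun c => if c = c₀ then Mg s else L.γ c, fun c => if c = c₀ then Mm s else L.ν c⟩,
      fun _ _ => rfl, fun _ _ => rfl⟩
  have hA : ∀ s c t, Off c₀ t₀ ε c t → (H s).γ c t = L.γ c t ∧ (H s).ν c t = L.ν c t := by
    intro s c t ht
    rw [hHγ, hHν]
    split_ifs with e
    · subst e
      exact ⟨g4 s t (ht rfl), m4 s t (ht rfl)⟩
    · exact ⟨rfl, rfl⟩
  have hB : ∀ s u (j : ℤ), |u| ≤ ε₁ →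
      (H s).γ c₀ (t₀ + u + j) = g (Real.smoothTransition s) u ∧
      (H s).ν c₀ (t₀ + u + j) = m (Real.smoothTransition s) u := by
    intro s u j hu
    rw [hHγ, hHν, if_pos rfl, if_pos rfl, per_int (g2 s), per_int (m2 s)]
    exact ⟨g3 s u hu, m3 s u hu⟩
  have hS : SmoothFam H := by
    intro c
    simp only [hHγ, hHν]
    split_ifs
    · exact ⟨g1, m1⟩
    · exact ⟨(hL.isU.smooth c).comp contDiff_snd, (hL.smooth c).comp contDiff_snd⟩
  have hI : ∀ s c t, LinearIndependent ℝ ![deriv ((H s).γ c) t, (H s).ν c t] := by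
    intro s c t
    rcases gloc_dich c₀ t₀ ε₁ c t with h | ⟨rfl, u, j, hu, rfl⟩
    · have h1 : (H s).γ c =ᶠ[𝓝 t] L.γ c := (h.eventually h₁).mono fun x hx => (hA s c x hx).1
      rw [h1.deriv_eq, (hA s c t (h.mono h₁.le)).2]
      exact hL.indep c t
    · have h1 : (H s).γ c =ᶠ[𝓝 (t₀ + u + j)]
          fun x => g (Real.smoothTransition s) (x - (t₀ + j)) := by
        refine (gloc_ev t₀ (t := t₀ + u + j) (j := j) (r := ε₁)
          (by rwa [show t₀ + u + j - t₀ - j = u by ring])).mono fun x hx => ?_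
        have := (hB s (x - t₀ - j) j hx.le).1
        rwa [show t₀ + (x - t₀ - j) + j = x by ring, sub_sub] at this
      rw [h1.deriv_eq, deriv_comp_sub_const, (hB s u j hu.le).2,
        show t₀ + u + j - (t₀ + j) = u by ring]
      exact hd _ (hσ s) u hu.le
  have hJ : ∀ s c c' x y, (H s).γ c x = (H s).γ c' y → ¬ Off c₀ t₀ ε c x →
      c = c' ∧ ∃ k : ℤ, y = x + k := by
    intro s c c' x y e hx
    obtain ⟨rfl, u, j, hu, rfl⟩ := (gloc_dich c₀ t₀ ε c x).resolve_left hx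
    rw [(hB s u j (hu.le.trans h₁.le)).1] at e
    rcases gloc_dich c t₀ ε₁ c' y with h | ⟨rfl, u', j', hu', rfl⟩
    · rw [(hA s c' y (h.mono h₁.le)).1] at e
      exact absurd (e ▸ hV _ (hσ s) u hu.le) (hVL c' y h)
    · rw [(hB s u' j' hu'.le).1] at e
      have := hi _ (hσ s) (abs_le.1 (hu.le.trans h₁.le)) (abs_le.1 hu'.le) e
      refine ⟨rfl, j' - j, ?_⟩
      rw [this]
      push_cast
      ring
  have hK : ∀ s, (H s).IsLink := by
    intro s
    have hs : ContDiff ℝ ∞ fun t : ℝ => (s, t) := contDiff_const.prodMk contDiff_id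
    refine ⟨⟨fun c => (hS c).1.comp hs, fun c t => ?_, fun c c' x y e => ?_, fun c t => ?_⟩,
      fun c => (hS c).2.comp hs, fun c t => ?_, hI s⟩
    · rw [hHγ]
      split_ifs
      · exact g2 s t
      · exact hL.isU.per c t
    · by_cases hx : Off c₀ t₀ ε c x
      · by_cases hy : Off c₀ t₀ ε c' y
        · rw [(hA s c x hx).1, (hA s c' y hy).1] at e
          exact hL.isU.inj _ _ _ _ e
        · obtain ⟨e', k, hk⟩ := hJ s c' c y x e.symm hy
          refine ⟨e'.symm, -k, ?_⟩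
          rw [hk]
          push_cast
          ring
      · exact hJ s c c' x y e hx
    · simpa using (hI s c t).ne_zero 0
    · rw [hHν]
      split_ifs
      · exact m2 s t
      · exact hL.per c t
  have hZ : ∀ c t, (H 0).γ c t = L.γ c t ∧ (H 0).ν c t = L.ν c t := by
    intro c t
    rcases gloc_dich c₀ t₀ ε₁ c t with h | ⟨rfl, u, j, hu, rfl⟩
    · exact hA 0 c t (h.mono h₁.le)
    · rw [(hB 0 u j hu.le).1, (hB 0 u j hu.le).2, Real.smoothTransition.zero,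
        per_int (hL.isU.per c), per_int (hL.per c)]
      exact hz u hu.le
  refine ⟨H 1, ⟨H, fun c => {t | c = c₀ ∧ |t - t₀ - round (t - t₀)| ≤ ε}, hS, fun s _ => hK s,
    ?_, rfl, fun c => ?_, fun s _ c t ht => hA s c t fun e j => ?_, fun s _ c t ht => ?_⟩,
    hA 1, fun u hu => ?_⟩
  · have e1 : (H 0).γ = L.γ := funext fun c => funext fun t => (hZ c t).1
    have e2 : (H 0).ν = L.ν := funext fun c => funext fun t => (hZ c t).2
    calc H 0 = ⟨(H 0).γ, (H 0).ν⟩ := rfl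
      _ = L := by rw [e1, e2]
  · exact isClosed_const.and (isClosed_le (gloc_cont t₀) continuous_const)
  · simp only [mem_setOf_eq, not_and, not_le] at ht
    exact (ht e).le.trans (round_le _ j)
  · obtain ⟨rfl, ht⟩ := ht
    have := (hB s _ (round (t - t₀)) (ht.trans h₁.le)).1
    rw [show t₀ + (t - t₀ - round (t - t₀)) + round (t - t₀) = t by ring] at this
    rw [this]
    exact disjoint_left.1 hVC (hV _ (hσ s) _ ht)
  · simpa [Real.smoothTransition.one] using hB 1 u 0 hu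

end Pool.Agent.P.MP_ac4909_gt.B
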