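import Pool.Agent.P.MP_ac4909_gt.B.GB_Val0

/-! Layer G, blocks: doubling of the outer part along a surgery curve. -/

namespace Pool.Agent.P.MP_ac4909_gt.B

open scoped ContDiff
open Set Filter Topology

section cover

variable {N N' : Type}

/-- a partial two-sheeted cover of a subdivision with vertical shifts -/
structure odbl_Cov (C : Conf N) (N' : Type) where
  pr : N' → N
  sh : N' → Bool
  t : N' → ℝ
  nb : N' → Bool → N'
  pr_nb : ∀ x s, pr (nb x s) = C.nb (pr x) s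
  sh_nb : ∀ x s, sh (nb x s) = sh x
  t_nb : ∀ x s, t (nb x s) = t x
  ext : ∀ {x y}, pr x = pr y → sh x = sh y → x = y

namespace odbl_Cov
variable {C : Conf N} (K : odbl_Cov C N')

noncomputable def conf : Conf N' where
  col x := C.col (K.pr x)
  nb := K.nb
  pt x := C.pt (K.pr x) + K.t x • ez
  arc x y := (fun p => p + K.t x • ez) '' C.arc (K.pr x) (K.pr y)

theorem conf_col (x : N') : K.conf.col x = C.col (K.pr x) := rfl
theorem conf_nb (x : N') (s : Bool) : K.conf.nb x s = K.nb x s := rfl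
theorem conf_pt (x : N') : K.conf.pt x = C.pt (K.pr x) + K.t x • ez := rfl
theorem conf_arc (x y : N') :
    K.conf.arc x y = (fun p => p + K.t x • ez) '' C.arc (K.pr x) (K.pr y) := rfl

theorem conf_star (x : N') :
    K.conf.star x = (fun p => p + K.t x • ez) '' C.star (K.pr x) := by
  unfold Conf.star
  rw [image_union, conf_arc, conf_arc, conf_nb, conf_nb, K.pr_nb, K.pr_nb]

theorem conf_win (x : N') :
    K.conf.win x = (fun p => p + K.t x • ez) '' C.win (K.pr x) := by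
  unfold Conf.win
  rw [image_union, conf_star, conf_star, conf_nb, conf_nb, K.pr_nb, K.pr_nb, K.t_nb, K.t_nb]

theorem conf_pt_ne {i : Fin 3} (hi : i ≠ 2) (x : N') : K.conf.pt x i = C.pt (K.pr x) i :=
  GCDbl_ne hi _ _

theorem conf_mono {i : Fin 3} (hi : i ≠ 2) {x : N'} {s : Bool} (h : C.Mono i (K.pr x) s) :
    K.conf.Mono i x s := by
  have key : ∀ s t, K.conf.nb (K.conf.nb x s) t ≠ x → C.nb (C.nb (K.pr x) s) t ≠ K.pr x := by
    intro s t hne e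
    refine hne (K.ext ?_ ?_)
    · rw [conf_nb, conf_nb, K.pr_nb, K.pr_nb, e]
    · rw [conf_nb, conf_nb, K.sh_nb, K.sh_nb]
  refine ⟨?_, fun t ht => ?_, ?_, ?_, fun t ht => ?_⟩
  · rw [conf_win]
    rintro _ ⟨p, hp, rfl⟩ _ ⟨q, hq, rfl⟩ e
    simp only [GCDbl_ne hi] at e
    rw [h.inj hp hq e]
  · simp only [conf_pt_ne K hi, conf_nb, K.pr_nb]
    exact h.lo₂ t (key _ _ ht)
  · simp only [conf_pt_ne K hi, conf_nb, K.pr_nb]
    exact h.lo₁
  · simp only [conf_pt_ne K hi, conf_nb, K.pr_nb]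
    exact h.hi₁
  · simp only [conf_pt_ne K hi, conf_nb, K.pr_nb]
    exact h.hi₂ t (key _ _ ht)

theorem far_of_sh {x y : N'} (h : K.conf.Far x y) (e : K.sh x = K.sh y) :
    C.Far (K.pr x) (K.pr y) := by
  refine ⟨fun k => h.1 (K.ext k e), fun s k => h.2.1 s (K.ext ?_ ?_),
    fun s s' k => h.2.2 s s' (K.ext ?_ ?_)⟩
  · rw [conf_nb, K.pr_nb, k]
  · rw [conf_nb, K.sh_nb, e]
  · rw [conf_nb, conf_nb, K.pr_nb, K.pr_nb, k]
  · rw [conf_nb, conf_nb, K.sh_nb, K.sh_nb, e]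

end odbl_Cov

theorem odbl_pairwise {D aft : N → Bool} {r : N → N → Prop} (hr : ∀ a, r a a) {l : List N}
    (hl : l.Pairwise r) : (dblList D aft l).Pairwise fun x y => r (wd_und x) (wd_und y) := by
  induction l with
  | nil => exact List.Pairwise.nil
  | cons a l ih =>
    rw [List.pairwise_cons] at hl
    rw [wd_dblList_cons, List.pairwise_append]
    refine ⟨?_, ih hl.2, fun x hx y hy => ?_⟩
    · refine List.pairwise_of_forall_mem_list fun x hx y hy => ?_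
      rw [wd_mem_dblList_single] at hx hy
      rw [hx, hy]
      exact hr a
    · rw [wd_mem_dblList_single] at hx
      rw [wd_mem_dblList] at hy
      rw [hx]
      exact hl.1 _ hy

end cover

variable {ι O : Type} {i : ι} {A : Pic ι}

/-- projection of the three collars to the two collars -/
def odbl_pk (b : Fin 3 × Bool) : Fin 2 × Bool := (if b.1 = 2 then 1 else 0, b.2)

/-- the doubled objects, virtual columns included -/
def odbl_D (D : O → Bool) : O ⊕ Fin 2 × Bool → Bool := Sum.elim D fun b => decide (b.1 = 0)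

def odbl_pr (D : O → Bool) : (O ⊕ {a // D a = true}) ⊕ Fin 3 × Bool → O ⊕ Fin 2 × Bool :=
  Sum.map wd_und odbl_pk

def odbl_sh (D : O → Bool) : (O ⊕ {a // D a = true}) ⊕ Fin 3 × Bool → Bool :=
  Sum.elim Sum.isRight fun b => decide (b.1 = 1)

def odbl_t (D : O → Bool) (δ : ℝ) : (O ⊕ {a // D a = true}) ⊕ Fin 3 × Bool → ℝ :=
  Sum.elim (dsh D (-δ) 0) fun b => if b.1 = 0 then -δ else 0

def odbl_up (D : O → Bool) (c : Bool) : O ⊕ Fin 2 × Bool → (O ⊕ {a // D a = true}) ⊕ Fin 3 × Bool :=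
  Sum.elim (fun a => .inl (if h : c = true ∧ D a = true then .inr ⟨a, h.2⟩ else .inl a))
    fun b => .inr (if b.1 = 0 then (if c then 1 else 0) else 2, b.2)

variable {D : O → Bool} {δ : ℝ}

theorem odbl_pr_inl (a : O ⊕ {a // D a = true}) : odbl_pr D (.inl a) = .inl (wd_und a) := rfl
theorem odbl_pr_inr (b : Fin 3 × Bool) : odbl_pr D (.inr b) = .inr (odbl_pk b) := rfl

theorem odbl_pr_up (c : Bool) (z : O ⊕ Fin 2 × Bool) : odbl_pr D (odbl_up D c z) = z := by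
  rcases z with a | ⟨k, σ⟩
  · change Sum.inl (wd_und (if h : c = true ∧ D a = true then .inr ⟨a, h.2⟩ else .inl a)) = _
    split_ifs <;> rfl
  · fin_cases k <;> cases c <;> rfl

theorem odbl_sh_up (c : Bool) (z : O ⊕ Fin 2 × Bool) :
    odbl_sh D (odbl_up D c z) = (c && odbl_D D z) := by
  rcases z with a | ⟨k, σ⟩
  · change (if h : c = true ∧ D a = true then Sum.inr (⟨a, h.2⟩ : {a // D a = true})
      else Sum.inl a).isRight = (c && D a)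
    split_ifs with h
    · simp [h.1, h.2]
    · cases c <;> cases h' : D a <;> simp_all
  · fin_cases k <;> cases c <;> rfl

theorem odbl_sh_D {x : (O ⊕ {a // D a = true}) ⊕ Fin 3 × Bool} (h : odbl_sh D x = true) :
    odbl_D D (odbl_pr D x) = true := by
  rcases x with (a | a) | ⟨k, σ⟩
  · exact absurd h (by simp [odbl_sh])
  · exact a.2
  · fin_cases k
    · rfl
    · rfl
    · exact absurd h (by simp [odbl_sh])

theorem odbl_ext {x y : (O ⊕ {a // D a = true}) ⊕ Fin 3 × Bool} (h : odbl_pr D x = odbl_pr D y)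
    (h' : odbl_sh D x = odbl_sh D y) : x = y := by
  rcases x with x | ⟨k, σ⟩ <;> rcases y with y | ⟨k', σ'⟩
  · exact congrArg _ (wd_und_ext (Sum.inl_injective h) h')
  · exact absurd h (by simp [odbl_pr])
  · exact absurd h (by simp [odbl_pr])
  · have h1 := Sum.inr_injective h
    revert h1 h'
    fin_cases k <;> fin_cases k' <;> simp [odbl_pk, odbl_sh]

theorem odbl_t_eq (x : (O ⊕ {a // D a = true}) ⊕ Fin 3 × Bool) :
    odbl_t D δ x = if odbl_D D (odbl_pr D x) = true ∧ odbl_sh D x = false then -δ else 0 := by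
  rcases x with (a | a) | ⟨k, σ⟩
  · simp [odbl_t, dsh, odbl_D, odbl_pr, odbl_sh]
  · simp [odbl_t, dsh, odbl_D, odbl_pr, odbl_sh]
  · fin_cases k <;> simp [odbl_t, odbl_D, odbl_pr, odbl_sh, odbl_pk]

theorem odbl_t_congr {x y : (O ⊕ {a // D a = true}) ⊕ Fin 3 × Bool}
    (h : odbl_D D (odbl_pr D x) = odbl_D D (odbl_pr D y)) (h' : odbl_sh D x = odbl_sh D y) :
    odbl_t D δ x = odbl_t D δ y := by
  rw [odbl_t_eq, odbl_t_eq, h, h']

theorem odbl_t_mem (hδ : 0 ≤ δ) (x : (O ⊕ {a // D a = true}) ⊕ Fin 3 × Bool) :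
    -δ ≤ odbl_t D δ x ∧ odbl_t D δ x ≤ 0 := by
  rw [odbl_t_eq]
  split_ifs <;> constructor <;> linarith

theorem odbl_lift (b : Fin 2 × Bool) {c : Bool} (h : c = true → odbl_D D (.inr b) = true) :
    ∃ b', odbl_pk b' = b ∧ odbl_sh D (.inr b') = c := by
  obtain ⟨k, σ⟩ := b
  cases c
  · fin_cases k
    · exact ⟨(0, σ), rfl, rfl⟩
    · exact ⟨(2, σ), rfl, rfl⟩
  · fin_cases k
    · exact ⟨(1, σ), rfl, rfl⟩
    · exact absurd (h rfl) (by simp [odbl_D])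

theorem odbl_cl (hδ : δ ∈ Ioc (0 : ℝ) (1 / 2)) (b : Fin 3 × Bool) (y : ℝ) :
    (scol i δ hδ).cl b y = (tcol i).cl (odbl_pk b) y + odbl_t D δ (.inr b) • ez := by
  obtain ⟨k, σ⟩ := b
  ext j
  fin_cases j
  · change _ = ((tcol i).cl (odbl_pk (k, σ)) y + odbl_t D δ (.inr (k, σ)) • ez) 0
    rw [GCDbl_ne (by decide)]
    fin_cases k <;> simp [scol, tcol, col2, odbl_pk, Collar.cl]
  · change _ = ((tcol i).cl (odbl_pk (k, σ)) y + odbl_t D δ (.inr (k, σ)) • ez) 1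
    rw [GCDbl_ne (by decide)]
    rfl
  · change _ = ((tcol i).cl (odbl_pk (k, σ)) y + odbl_t D δ (.inr (k, σ)) • ez) 2
    rw [GCDbl_two]
    simp [scol, tcol, col2, Collar.cl, odbl_t]

theorem odbl_cl_image (hδ : δ ∈ Ioc (0 : ℝ) (1 / 2)) (b : Fin 3 × Bool) (J : Set ℝ) :
    (scol i δ hδ).cl b '' J =
      (fun p => p + odbl_t D δ (.inr b) • ez) '' ((tcol i).cl (odbl_pk b) '' J) := by
  rw [image_image]
  exact image_congr fun y _ => odbl_cl hδ b y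

theorem odbl_lab (b : Fin 2 × Bool) : (tcol i).lab b = some i ↔ odbl_D D (.inr b) = true := by
  obtain ⟨k, σ⟩ := b
  fin_cases k <;> simp [tcol, col2, odbl_D]

theorem odbl_cl_two (b : Fin 2 × Bool) (y : ℝ) : (tcol i).cl b y 2 = 0 := rfl

namespace Outer
variable (Ou : Outer (tcol i) A O) (hD : ∀ a, D a = true ↔ Ou.lb a = some i)
include hD

theorem odbl_D_ρ (b : Fin 2 × Bool) : D (Ou.ρ b) = odbl_D D (.inr b) := by
  rw [Bool.eq_iff_iff, hD, Ou.lb_ρ, odbl_lab]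

theorem odbl_D_nb (z : O ⊕ Fin 2 × Bool) (s : Bool) : odbl_D D (Ou.C.nb z s) = odbl_D D z := by
  rcases z with a | b
  · rcases h : Ou.C.nb (.inl a) s with a' | b
    · change D a' = D a
      rw [Bool.eq_iff_iff, hD, hD, Ou.lb_nb a s a' h]
    · rw [((Ou.nb_eq_inr a s b).1 h).1]
      exact (Ou.odbl_D_ρ hD b).symm
  · rw [Ou.nb_inr]
    exact Ou.odbl_D_ρ hD b

/-- the cover given by the doubling -/
def odbl_cov (δ : ℝ) : odbl_Cov Ou.C ((O ⊕ {a // D a = true}) ⊕ Fin 3 × Bool) where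
  pr := odbl_pr D
  sh := odbl_sh D
  t := odbl_t D δ
  nb x s := odbl_up D (odbl_sh D x) (Ou.C.nb (odbl_pr D x) s)
  pr_nb x s := odbl_pr_up _ _
  sh_nb x s := by
    rw [odbl_sh_up, Ou.odbl_D_nb hD]
    cases h : odbl_sh D x
    · rfl
    · exact odbl_sh_D h
  t_nb x s := by
    refine odbl_t_congr (by rw [odbl_pr_up, Ou.odbl_D_nb hD]) ?_
    rw [odbl_sh_up, Ou.odbl_D_nb hD]
    cases h : odbl_sh D x
    · rfl
    · exact odbl_sh_D h
  ext := odbl_ext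

/-- the rows at the inner ends of the outer part -/
def odbl_ρ (b : Fin 3 × Bool) : O ⊕ {a // D a = true} :=
  if h : b.1 = 1 then .inr ⟨Ou.ρ (odbl_pk b), by
    rw [Ou.odbl_D_ρ hD]; simp [odbl_D, odbl_pk, h]⟩ else .inl (Ou.ρ (odbl_pk b))

theorem odbl_und_ρ (b : Fin 3 × Bool) : wd_und (Ou.odbl_ρ hD b) = Ou.ρ (odbl_pk b) := by
  unfold odbl_ρ
  split_ifs <;> rfl

theorem odbl_pr_ρ (b : Fin 3 × Bool) :
    odbl_pr D (.inl (Ou.odbl_ρ hD b)) = .inl (Ou.ρ (odbl_pk b)) := by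
  rw [odbl_pr_inl, odbl_und_ρ]

theorem odbl_sh_ρ (b : Fin 3 × Bool) :
    odbl_sh D (.inl (Ou.odbl_ρ hD b)) = odbl_sh D (.inr b) := by
  change (Ou.odbl_ρ hD b).isRight = decide (b.1 = 1)
  unfold odbl_ρ
  split_ifs with h <;> simp [h]

theorem odbl_t_ρ (b : Fin 3 × Bool) :
    odbl_t D δ (.inl (Ou.odbl_ρ hD b)) = odbl_t D δ (.inr b) := by
  refine odbl_t_congr ?_ (Ou.odbl_sh_ρ hD b)
  rw [odbl_pr_ρ, odbl_pr_inr]
  exact Ou.odbl_D_ρ hD _

theorem odbl_ne_ρ {a : O ⊕ {a // D a = true}} (ha : ∀ b, a ≠ Ou.odbl_ρ hD b) (b : Fin 2 × Bool) :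
    wd_und a ≠ Ou.ρ b := by
  intro e
  obtain ⟨b', h1, h2⟩ := odbl_lift (D := D) b (c := odbl_sh D (.inl a)) fun h => by
    have := odbl_sh_D h
    rw [odbl_pr_inl, e] at this
    rw [← Ou.odbl_D_ρ hD]
    exact this
  refine ha b' (Sum.inl_injective (odbl_ext ?_ ?_))
  · rw [odbl_pr_ρ, h1, odbl_pr_inl, e]
  · rw [odbl_sh_ρ, h2]

theorem odbl_cov_pr (x : (O ⊕ {a // D a = true}) ⊕ Fin 3 × Bool) :
    (Ou.odbl_cov hD δ).pr x = odbl_pr D x := rfl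

theorem odbl_cov_t (x : (O ⊕ {a // D a = true}) ⊕ Fin 3 × Bool) :
    (Ou.odbl_cov hD δ).t x = odbl_t D δ x := rfl

theorem odbl_pr_nb (x : (O ⊕ {a // D a = true}) ⊕ Fin 3 × Bool) (s : Bool) :
    odbl_pr D ((Ou.odbl_cov hD δ).conf.nb x s) = Ou.C.nb (odbl_pr D x) s :=
  (Ou.odbl_cov hD δ).pr_nb x s

theorem odbl_sh_nb (x : (O ⊕ {a // D a = true}) ⊕ Fin 3 × Bool) (s : Bool) :
    odbl_sh D ((Ou.odbl_cov hD δ).conf.nb x s) = odbl_sh D x :=
  (Ou.odbl_cov hD δ).sh_nb x s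

theorem odbl_t_nb (x : (O ⊕ {a // D a = true}) ⊕ Fin 3 × Bool) (s : Bool) :
    odbl_t D δ ((Ou.odbl_cov hD δ).conf.nb x s) = odbl_t D δ x :=
  (Ou.odbl_cov hD δ).t_nb x s

theorem odbl_star (x : (O ⊕ {a // D a = true}) ⊕ Fin 3 × Bool) :
    (Ou.odbl_cov hD δ).conf.star x =
      (fun p => p + odbl_t D δ x • ez) '' Ou.C.star (odbl_pr D x) :=
  (Ou.odbl_cov hD δ).conf_star x

theorem odbl_nb_down {a a' : O ⊕ {a // D a = true}} {s : Bool}
    (h : (Ou.odbl_cov hD δ).conf.nb (.inl a) s = .inl a') :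
    Ou.C.nb (.inl (wd_und a)) s = .inl (wd_und a') ∧ a'.isRight = a.isRight ∧
      odbl_t D δ (.inl a') = odbl_t D δ (.inl a) := by
  have h1 := Ou.odbl_pr_nb hD (δ := δ) (.inl a) s
  have h2 := Ou.odbl_sh_nb hD (δ := δ) (.inl a) s
  have h3 := Ou.odbl_t_nb hD (δ := δ) (.inl a) s
  rw [h] at h1 h2 h3
  exact ⟨h1.symm, h2, h3⟩

theorem odbl_nb_up {a : O ⊕ {a // D a = true}} {a' : O} {s : Bool}
    (h : Ou.C.nb (.inl (wd_und a)) s = .inl a') :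
    ∃ a'', (Ou.odbl_cov hD δ).conf.nb (.inl a) s = .inl a'' ∧ wd_und a'' = a' := by
  have h1 := Ou.odbl_pr_nb hD (δ := δ) (.inl a) s
  rw [odbl_pr_inl, h] at h1
  rcases h2 : (Ou.odbl_cov hD δ).conf.nb (.inl a) s with a'' | b
  · rw [h2] at h1
    exact ⟨a'', rfl, Sum.inl_injective h1⟩
  · rw [h2] at h1
    exact absurd h1 (by simp [odbl_pr])

theorem odbl_nb_inr (b : Fin 3 × Bool) (s : Bool) :
    (Ou.odbl_cov hD δ).conf.nb (.inr b) s = .inl (Ou.odbl_ρ hD b) := by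
  refine odbl_ext ?_ ?_
  · rw [odbl_pr_nb, odbl_pr_inr, Ou.nb_inr, odbl_pr_ρ]
  · rw [odbl_sh_nb, odbl_sh_ρ]

theorem odbl_nb_eq_inr (a : O ⊕ {a // D a = true}) (s : Bool) (b : Fin 3 × Bool) :
    (Ou.odbl_cov hD δ).conf.nb (.inl a) s = .inr b ↔
      a = Ou.odbl_ρ hD b ∧ s = Ou.sd (odbl_pk b) := by
  constructor
  · intro h
    have h1 := Ou.odbl_pr_nb hD (δ := δ) (.inl a) s
    have h2 := Ou.odbl_sh_nb hD (δ := δ) (.inl a) s
    rw [h] at h1 h2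
    rw [odbl_pr_inr, odbl_pr_inl] at h1
    obtain ⟨h3, h4⟩ := (Ou.nb_eq_inr _ _ _).1 h1.symm
    refine ⟨Sum.inl_injective (odbl_ext ?_ ?_), h4⟩
    · rw [odbl_pr_ρ, odbl_pr_inl, h3]
    · rw [odbl_sh_ρ, h2]
  · rintro ⟨rfl, rfl⟩
    refine odbl_ext ?_ ?_
    · rw [odbl_pr_nb, odbl_pr_ρ, odbl_pr_inr]
      exact (Ou.nb_eq_inr _ _ _).2 ⟨rfl, rfl⟩
    · rw [odbl_sh_nb, odbl_sh_ρ]

theorem odbl_sep {d η : ℝ} (hF : Ou.Fine d η) (hδ : 0 < δ) (h₁ : 2 * η ≤ δ) (h₂ : δ ≤ d)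
    (a a' : O ⊕ {a // D a = true}) (h : (Ou.odbl_cov hD δ).conf.Far (.inl a) (.inl a')) :
    ∃ j, Sep j ((Ou.odbl_cov hD δ).conf.star (.inl a)) ((Ou.odbl_cov hD δ).conf.star (.inl a')) ∨
      Sep j ((Ou.odbl_cov hD δ).conf.star (.inl a'))
        ((Ou.odbl_cov hD δ).conf.star (.inl a)) := by
  have k1 := odbl_t_mem (D := D) hδ.le (.inl a)
  have k2 := odbl_t_mem (D := D) hδ.le (.inl a')
  rw [odbl_star, odbl_star, odbl_pr_inl, odbl_pr_inl]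
  by_cases hf : Ou.C.Far (.inl (wd_und a)) (.inl (wd_und a'))
  · rcases hF.margin _ _ hf with ⟨j, hj, h | h⟩ | h | h
    · exact ⟨j, Or.inl (GCDbl_sep hj h _ _)⟩
    · exact ⟨j, Or.inr (GCDbl_sep hj h _ _)⟩
    · refine ⟨2, Or.inl (GCDbl_sep_two fun p hp q hq => ?_)⟩
      linarith [h p hp q hq, k1.2, k2.1]
    · refine ⟨2, Or.inr (GCDbl_sep_two fun q hq p hp => ?_)⟩
      linarith [h p hp q hq, k1.1, k2.2]
  have hs : odbl_sh D (.inl a) ≠ odbl_sh D (.inl a') := fun e =>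
    hf ((Ou.odbl_cov hD δ).far_of_sh h e)
  obtain ⟨e, m, hm, hm'⟩ : odbl_D D (.inl (wd_und a)) = odbl_D D (.inl (wd_und a')) ∧
      ∃ m, m ∈ Ou.C.star (.inl (wd_und a)) ∧ m ∈ Ou.C.star (.inl (wd_und a')) := by
    by_cases h1 : wd_und a = wd_und a'
    · rw [h1]
      exact ⟨rfl, _, Ou.pt_mem_star _, Ou.pt_mem_star _⟩
    by_cases h2 : ∃ s, Ou.C.nb (.inl (wd_und a)) s = .inl (wd_und a')
    · obtain ⟨s, hs⟩ := h2
      refine ⟨?_, _, Ou.nb_mem_star hs, Ou.pt_mem_star _⟩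
      rw [← hs, Ou.odbl_D_nb hD]
    have h3 : ∃ s s', Ou.C.nb (.inl (wd_und a)) s = Ou.C.nb (.inl (wd_und a')) s' := by
      by_contra h3
      exact hf ⟨fun e => h1 (Sum.inl_injective e), fun s e => h2 ⟨s, e⟩,
        fun s s' e => h3 ⟨s, s', e⟩⟩
    obtain ⟨s, s', hs⟩ := h3
    rcases h4 : Ou.C.nb (.inl (wd_und a)) s with m | b
    · refine ⟨by rw [← Ou.odbl_D_nb hD _ s, hs, Ou.odbl_D_nb hD], _, Ou.nb_mem_star h4,
        Ou.nb_mem_star (hs.symm.trans h4)⟩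
    · exact absurd (((Ou.nb_eq_inr _ _ _).1 h4).1.trans
        ((Ou.nb_eq_inr _ _ _).1 (hs.symm.trans h4)).1.symm) h1
  have h5 : ∀ p ∈ Ou.C.star (.inl (wd_und a)), ∀ q ∈ Ou.C.star (.inl (wd_und a')),
      |p 2 - q 2| < δ := by
    intro p hp q hq
    have l1 := abs_lt.1 (hF.zdiam _ p hp m hm)
    have l2 := abs_lt.1 (hF.zdiam _ m hm' q hq)
    rw [abs_lt]
    constructor <;> linarith [l1.1, l1.2, l2.1, l2.2]
  rw [odbl_t_eq, odbl_t_eq, odbl_pr_inl, odbl_pr_inl]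
  cases h6 : odbl_sh D (.inl a) <;> cases h7 : odbl_sh D (.inl a')
  · exact absurd (h6.trans h7.symm) hs
  · have h8 := odbl_sh_D h7
    rw [odbl_pr_inl] at h8
    rw [e, h8]
    refine ⟨2, Or.inl (GCDbl_sep_two fun p hp q hq => ?_)⟩
    simp only [and_self, if_true, Bool.true_eq_false, and_false, if_false]
    linarith [(abs_lt.1 (h5 p hp q hq)).2]
  · have h8 := odbl_sh_D h6
    rw [odbl_pr_inl] at h8
    rw [← e, h8]
    refine ⟨2, Or.inr (GCDbl_sep_two fun q hq p hp => ?_)⟩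
    simp only [and_self, if_true, Bool.true_eq_false, and_false, if_false]
    linarith [(abs_lt.1 (h5 p hp q hq)).1]
  · exact absurd (h6.trans h7.symm) hs

theorem odbl_pos {d η : ℝ} (hF : Ou.Fine d η) (hδ : δ ∈ Ioc (0 : ℝ) (1 / 2)) (h₃ : δ ≤ 1 / 64)
    (a : O ⊕ {a // D a = true}) (ha : ∀ b, a ≠ Ou.odbl_ρ hD b) :
    FarBox ((Ou.odbl_cov hD δ).conf.star (.inl a)) ∨
      ∃ b, (Ou.odbl_cov hD δ).conf.star (.inl a) ⊆
        (scol i δ hδ).cl b '' Icc (Ou.lv (odbl_pk b)) 1 := by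
  have k1 := odbl_t_mem (D := D) hδ.1.le (.inl a)
  have ha' := Ou.odbl_ne_ρ hD ha
  rw [odbl_star, odbl_pr_inl]
  rcases hF.far _ ha' with ⟨j, h⟩ | ⟨b, h⟩
  · refine Or.inl ⟨j, h.imp (fun h => ?_) fun h => ?_⟩
    · rintro _ ⟨p, hp, rfl⟩
      have := h p hp
      by_cases hj : j = 2
      · subst hj
        simp only [GCDbl_two]
        linarith [k1.2]
      · simp only [GCDbl_ne hj]
        linarith
    · rintro _ ⟨p, hp, rfl⟩
      have := h p hp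
      by_cases hj : j = 2
      · subst hj
        simp only [GCDbl_two]
        linarith [k1.1]
      · simp only [GCDbl_ne hj]
        linarith
  by_cases h1 : ∃ t ∈ Icc (Ou.lv b) (13 / 16), (tcol i).cl b t ∈ Ou.C.star (.inl (wd_und a))
  · obtain ⟨t, ht, hp⟩ := h1
    have ht0 : 0 < t := by linarith [Ou.lv_gt b, ht.1]
    have hQ : (tcol i).cl b t ∈ Qb (7 / 8) :=
      Collar.cl_mem_Qb ht0 (by linarith [ht.2]) (by norm_num) (by linarith [ht.2])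
    obtain ⟨s, hs⟩ : ∃ s, (tcol i).cl b t ∈
        Ou.C.arc (.inl (wd_und a)) (Ou.C.nb (.inl (wd_und a)) s) := by
      rcases hp with hp | hp
      · exact ⟨false, hp⟩
      · exact ⟨true, hp⟩
    obtain ⟨a', ha''⟩ := Ou.nb_inl ha' s
    rw [ha''] at hs
    obtain ⟨b₁, t₁, h2, h3, h4⟩ := (Ou.ins (Ou.lb (wd_und a), (tcol i).cl b t) hQ).1
      ⟨wd_und a, s, a', ha'', hs, rfl⟩
    obtain ⟨rfl, -⟩ := Collar.cl_eq ht0 h3 (by linarith [Ou.lv_gt b₁])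
    have h5 : odbl_D D (.inl (wd_und a)) = odbl_D D (.inr b) := by
      change D (wd_und a) = _
      rw [Bool.eq_iff_iff, hD, ← odbl_lab (i := i)]
      exact Eq.congr_left h4
    obtain ⟨b', h6, h7⟩ := odbl_lift (D := D) b (c := odbl_sh D (.inl a)) fun h => by
      have := odbl_sh_D h
      rw [odbl_pr_inl, h5] at this
      exact this
    refine Or.inr ⟨b', ?_⟩
    rw [odbl_cl_image (D := D), h6, odbl_t_congr (x := .inr b') (y := .inl a)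
      (by rw [odbl_pr_inr, odbl_pr_inl, h6, h5]) h7]
    exact image_mono h
  · have h2 : ∀ p ∈ Ou.C.star (.inl (wd_und a)), ∃ t, 13 / 16 < t ∧ p = (tcol i).cl b t := by
      intro p hp
      obtain ⟨t, ht, rfl⟩ := h hp
      refine ⟨t, ?_, rfl⟩
      by_contra h3
      exact h1 ⟨t, ⟨ht.1, not_lt.1 h3⟩, hp⟩
    refine Or.inl ⟨1, ?_⟩
    cases hb : b.2
    · refine Or.inl ?_
      rintro _ ⟨p, hp, rfl⟩
      obtain ⟨t, ht, rfl⟩ := h2 p hp
      simp only [GCDbl_ne (show (1 : Fin 3) ≠ 2 by decide), Collar.cl_one, hb]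
      norm_num
      linarith
    · refine Or.inr ?_
      rintro _ ⟨p, hp, rfl⟩
      obtain ⟨t, ht, rfl⟩ := h2 p hp
      simp only [GCDbl_ne (show (1 : Fin 3) ≠ 2 by decide), Collar.cl_one, hb]
      norm_num
      linarith

/-- the outer arcs of the doubling -/
theorem odbl_arcs (y : Option ι × E3) :
    (∃ a s a', (Ou.odbl_cov hD δ).conf.nb (.inl a) s = .inl a' ∧
      y.2 ∈ (Ou.odbl_cov hD δ).conf.arc (.inl a) (.inl a') ∧
        y.1 = Sum.elim Ou.lb (fun _ => none) a) ↔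
    y ∈ dblPic i δ {z | ∃ a s a', Ou.C.nb (.inl a) s = .inl a' ∧
      z.2 ∈ Ou.C.arc (.inl a) (.inl a') ∧ z.1 = Ou.lb a} := by
  constructor
  · rintro ⟨a, s, a', h1, ⟨p, hp, h2⟩, h3⟩
    obtain ⟨h4, -, -⟩ := Ou.odbl_nb_down hD h1
    rw [odbl_cov_pr, odbl_cov_pr, odbl_pr_inl, odbl_pr_inl] at hp
    rw [odbl_cov_t] at h2
    rcases a with a | a
    · have h5 : odbl_t D δ (.inl (.inl a)) = if D a then -δ else 0 := rfl
      have h3' : y.1 = Ou.lb a := h3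
      by_cases h6 : D a = true
      · rw [h5, if_pos h6] at h2
        refine Or.inl ⟨h3'.trans ((hD a).1 h6), a, s, _, h4, ?_, ((hD a).1 h6).symm⟩
        have : y.2 + δ • ez = p := by
          rw [← h2]
          simp
        rw [this]
        exact hp
      · rw [h5, if_neg h6] at h2
        refine Or.inr ⟨fun e => h6 ((hD a).2 (h3'.symm.trans e)), Or.inl ⟨a, s, _, h4, ?_, h3'⟩⟩
        have : y.2 = p := by
          rw [← h2]
          simp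
        rw [this]
        exact hp
    · have h5 : odbl_t D δ (.inl (.inr a)) = 0 := rfl
      have h3' : y.1 = none := h3
      rw [h5] at h2
      refine Or.inr ⟨by simp [h3'], Or.inr ⟨h3', a.1, s, _, h4, ?_, ((hD _).1 a.2).symm⟩⟩
      have : y.2 = p := by
        rw [← h2]
        simp
      rw [this]
      exact hp
  · rintro (⟨h1, a, s, a', h2, h3, h4⟩ | ⟨h1, ⟨a, s, a', h2, h3, h4⟩ | ⟨h0, a, s, a', h2, h3, h4⟩⟩)
    · obtain ⟨a'', h5, rfl⟩ := Ou.odbl_nb_up hD (δ := δ) (a := .inl a) h2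
      refine ⟨.inl a, s, a'', h5, ⟨_, h3, ?_⟩, h1.trans h4⟩
      have h6 : (Ou.odbl_cov hD δ).t (.inl (.inl a)) = if D a then -δ else 0 := rfl
      rw [h6, if_pos ((hD a).2 h4.symm)]
      simp
    · obtain ⟨a'', h5, rfl⟩ := Ou.odbl_nb_up hD (δ := δ) (a := .inl a) h2
      refine ⟨.inl a, s, a'', h5, ⟨_, h3, ?_⟩, h4⟩
      have h6 : (Ou.odbl_cov hD δ).t (.inl (.inl a)) = if D a then -δ else 0 := rfl
      rw [h6, if_neg fun e => h1 (h4.trans ((hD a).1 e))]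
      simp
    · obtain ⟨a'', h5, rfl⟩ :=
        Ou.odbl_nb_up hD (δ := δ) (a := .inr ⟨a, (hD a).2 h4.symm⟩) h2
      refine ⟨.inr ⟨a, (hD a).2 h4.symm⟩, s, a'', h5, ⟨_, h3, ?_⟩, h0⟩
      have h6 : (Ou.odbl_cov hD δ).t (.inl (.inr ⟨a, (hD a).2 h4.symm⟩)) = 0 := rfl
      rw [h6]
      simp

omit hD in
/-- the rays of the doubling -/
theorem odbl_rays (hδ : δ ∈ Ioc (0 : ℝ) (1 / 2)) (y : Option ι × E3) :
    (∃ b t, Ou.lv (odbl_pk b) ≤ t ∧ y.2 = (scol i δ hδ).cl b t ∧ y.1 = (scol i δ hδ).lab b) ↔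
    y ∈ dblPic i δ {z | ∃ b t, Ou.lv b ≤ t ∧ z.2 = (tcol i).cl b t ∧ z.1 = (tcol i).lab b} := by
  have e0 : ∀ σ t, (scol i δ hδ).cl (0, σ) t + δ • ez = (tcol i).cl (0, σ) t := by
    intro σ t
    rw [odbl_cl (D := fun _ : O => true)]
    simp [odbl_t, odbl_pk]
  have e1 : ∀ σ t, (scol i δ hδ).cl (1, σ) t = (tcol i).cl (0, σ) t := by
    intro σ t
    rw [odbl_cl (D := fun _ : O => true)]
    simp [odbl_t, odbl_pk]
  have e2 : ∀ σ t, (scol i δ hδ).cl (2, σ) t = (tcol i).cl (1, σ) t := by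
    intro σ t
    rw [odbl_cl (D := fun _ : O => true)]
    simp [odbl_t, odbl_pk]
  constructor
  · rintro ⟨⟨k, σ⟩, t, h1, h2, h3⟩
    fin_cases k
    · exact Or.inl ⟨h3, (0, σ), t, h1, by rw [h2]; exact e0 σ t, rfl⟩
    · have h3' : y.1 = none := h3
      exact Or.inr ⟨by simp [h3'], Or.inr ⟨h3', (0, σ), t, h1, by rw [h2]; exact e1 σ t, rfl⟩⟩
    · have h3' : y.1 = none := h3
      exact Or.inr ⟨by simp [h3'], Or.inl ⟨(1, σ), t, h1, by rw [h2]; exact e2 σ t, h3'⟩⟩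
  · rintro (⟨h1, ⟨k, σ⟩, t, h2, h3, h4⟩ |
      ⟨h1, ⟨⟨k, σ⟩, t, h2, h3, h4⟩ | ⟨h0, ⟨k, σ⟩, t, h2, h3, h4⟩⟩)
    · fin_cases k
      · refine ⟨(0, σ), t, h2, ?_, h1⟩
        have := h3.trans (e0 σ t).symm
        exact add_right_cancel this
      · exact absurd h4 (by simp [tcol, col2])
    · fin_cases k
      · exact absurd h4 h1
      · exact ⟨(2, σ), t, h2, h3.trans (e2 σ t).symm, h4⟩
    · fin_cases k
      · exact ⟨(1, σ), t, h2, h3.trans (e1 σ t).symm, h0⟩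
      · exact absurd h4 (by simp [tcol, col2])

end Outer

theorem odbl_pic_congr {B B' : Pic ι} {y : Option ι × E3}
    (h₁ : ∀ o, (o, y.2) ∈ B ↔ (o, y.2) ∈ B')
    (h₂ : (some i, y.2 + δ • ez) ∈ B ↔ (some i, y.2 + δ • ez) ∈ B') :
    y ∈ dblPic i δ B ↔ y ∈ dblPic i δ B' := by
  unfold dblPic
  simp only [mem_ofPred_eq]
  rw [h₂, h₁ (some i), show (y ∈ B ↔ y ∈ B') from h₁ y.1]

namespace Outer
variable (Ou : Outer (tcol i) A O)

theorem odbl_out (hδ : δ ∈ Ioc (0 : ℝ) (1 / 2)) (h₃ : δ ≤ 1 / 64)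
    (hA : ∀ y ∈ A, y.2 ∈ Qb (29 / 32) → y.2 2 = 0) (y : Option ι × E3) (hy : y.2 ∉ Qb (7 / 8)) :
    y ∈ dblPic i δ A ↔ y ∈ dblPic i δ {z | ∃ a s a', Ou.C.nb (.inl a) s = .inl a' ∧
      z.2 ∈ Ou.C.arc (.inl a) (.inl a') ∧ z.1 = Ou.lb a} := by
  refine odbl_pic_congr (fun o => Ou.out (o, y.2) hy) ?_
  by_cases hq : y.2 + δ • ez ∈ Qb (7 / 8)
  · have h0 : (y.2 + δ • ez) 2 ≠ 0 := by
      intro e
      refine hy fun j => ?_
      by_cases hj : j = 2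
      · subst hj
        rw [GCDbl_two] at e
        rw [abs_lt]
        constructor <;> linarith [hδ.1]
      · have := hq j
        rwa [GCDbl_ne hj] at this
    refine iff_of_false (fun h => h0 (hA _ h fun j => (hq j).trans (by norm_num))) fun h => h0 ?_
    obtain ⟨b, t, -, h2, -⟩ := (Ou.ins (some i, y.2 + δ • ez) hq).1 h
    exact (congrArg (fun p : E3 => p 2) h2).trans (odbl_cl_two b t)
  · exact Ou.out (some i, y.2 + δ • ez) hq

theorem odbl_ins (hδ : δ ∈ Ioc (0 : ℝ) (1 / 2)) (h₃ : δ ≤ 1 / 64)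
    (hA : ∀ y ∈ A, y.2 ∈ Qb (29 / 32) → y.2 2 = 0) (y : Option ι × E3) (hy : y.2 ∈ Qb (7 / 8)) :
    y ∈ dblPic i δ {z | ∃ a s a', Ou.C.nb (.inl a) s = .inl a' ∧
      z.2 ∈ Ou.C.arc (.inl a) (.inl a') ∧ z.1 = Ou.lb a} ↔
    y ∈ dblPic i δ {z | ∃ b t, Ou.lv b ≤ t ∧ z.2 = (tcol i).cl b t ∧ z.1 = (tcol i).lab b} := by
  refine odbl_pic_congr (fun o => Ou.ins (o, y.2) hy) ?_
  by_cases hq : y.2 + δ • ez ∈ Qb (7 / 8)
  · exact Ou.ins (some i, y.2 + δ • ez) hq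
  · have h0 : (y.2 + δ • ez) 2 ≠ 0 := by
      intro e
      refine hq fun j => ?_
      by_cases hj : j = 2
      · subst hj
        rw [e]
        norm_num
      · rw [GCDbl_ne hj]
        exact hy j
    have h1 : y.2 + δ • ez ∈ Qb (29 / 32) := by
      intro j
      by_cases hj : j = 2
      · subst hj
        have := abs_lt.1 (hy 2)
        rw [GCDbl_two, abs_lt]
        constructor <;> linarith [hδ.1, this.1, this.2]
      · rw [GCDbl_ne hj]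
        exact (hy j).trans (by norm_num)
    refine iff_of_false (fun h => h0 (hA _ ((Ou.out (some i, y.2 + δ • ez) hq).2 h) h1)) ?_
    rintro ⟨b, t, -, h2, -⟩
    exact h0 ((congrArg (fun p : E3 => p 2) h2).trans (odbl_cl_two b t))

/-- the doubled outer part -/
noncomputable def odbl_outer {d η : ℝ} (hF : Ou.Fine d η)
    (hδ : δ ∈ Ioc (0 : ℝ) (1 / 2)) (h₁ : 2 * η ≤ δ) (h₂ : δ ≤ d) (h₃ : δ ≤ 1 / 64)
    (hA : ∀ y ∈ A, y.2 ∈ Qb (29 / 32) → y.2 2 = 0)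
    (hD : ∀ a, D a = true ↔ Ou.lb a = some i) (fX fY : O → Bool) :
    Outer (scol i δ hδ) (dblPic i δ A) (O ⊕ {a // D a = true}) where
  C := (Ou.odbl_cov hD δ).conf
  ρ := Ou.odbl_ρ hD
  sd b := Ou.sd (odbl_pk b)
  lv b := Ou.lv (odbl_pk b)
  lb := Sum.elim Ou.lb fun _ => none
  X₁ := dblList D fX Ou.X₁
  X₂ := dblList D fX Ou.X₂
  Y₁ := dblList D fY Ou.Y₁
  Y₂ := dblList D fY Ou.Y₂
  lv_gt b := Ou.lv_gt _
  lv_lt b := Ou.lv_lt _
  stagger k k' σ hk h := by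
    have := hδ.1
    fin_cases k <;> fin_cases k' <;> simp [scol] at hk h
    · linarith
    · linarith
    · exact Ou.stagger 0 1 σ (by decide) rfl
  col_inr b := Ou.col_inr _
  nb_inr := Ou.odbl_nb_inr hD
  nb_eq_inr := Ou.odbl_nb_eq_inr hD
  ρ_inj b b' h := by
    refine Sum.inr_injective (odbl_ext (D := D) ?_ ?_)
    · have e : Ou.ρ (odbl_pk b) = Ou.ρ (odbl_pk b') := by
        rw [← Ou.odbl_und_ρ hD, h, odbl_und_ρ]
      rw [odbl_pr_inr, odbl_pr_inr, Ou.ρ_inj e]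
    · rw [← Ou.odbl_sh_ρ hD, h, odbl_sh_ρ]
  col_nb a s := by
    rw [odbl_Cov.conf_col, odbl_Cov.conf_col, odbl_cov_pr, odbl_cov_pr, odbl_pr_nb, odbl_pr_inl,
      Ou.col_nb]
  nb_ne a e := by
    refine Ou.nb_ne (wd_und a) ?_
    rw [← odbl_pr_inl, ← Ou.odbl_pr_nb hD (δ := δ), e, odbl_pr_nb]
  adj_symm a s := by
    obtain ⟨s', h⟩ := Ou.adj_symm (wd_und a) s
    refine ⟨s', odbl_ext ?_ ?_⟩
    · rw [odbl_pr_nb, odbl_pr_nb, odbl_pr_inl, h]
    · rw [odbl_sh_nb, odbl_sh_nb]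
  pt_ρ b := by
    rw [odbl_Cov.conf_pt, odbl_cov_pr, odbl_cov_t, odbl_pr_ρ, odbl_t_ρ, Ou.pt_ρ,
      odbl_cl (D := D)]
  arc_ρ b := by
    rw [odbl_Cov.conf_arc, odbl_cov_pr, odbl_cov_pr, odbl_cov_t, odbl_pr_ρ, odbl_t_ρ, odbl_pr_inr,
      Ou.arc_ρ, odbl_cl_image (D := D)]
  arc_symm a s := by
    rw [odbl_Cov.conf_arc, odbl_Cov.conf_arc, odbl_cov_pr, odbl_cov_pr, odbl_cov_t, odbl_cov_t,
      odbl_t_nb, odbl_pr_nb, odbl_pr_inl, Ou.arc_symm]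
  isArc a s a' h := by
    obtain ⟨h4, -, h5⟩ := Ou.odbl_nb_down hD h
    rw [odbl_Cov.conf_arc, odbl_Cov.conf_pt, odbl_Cov.conf_pt, odbl_cov_t, odbl_cov_t, h5]
    exact GCDbl_isArc (Ou.isArc _ s _ h4) _
  sep := Ou.odbl_sep hD hF hδ.1 h₁ h₂
  mono a ha := by
    obtain ⟨j, s, hj, h⟩ := Ou.mono _ (Ou.odbl_ne_ρ hD ha)
    exact ⟨j, s, hj, (Ou.odbl_cov hD δ).conf_mono hj h⟩
  pos := Ou.odbl_pos hD hF hδ h₃
  pos_ρ b := by
    rw [odbl_star, odbl_pr_ρ, odbl_t_ρ, odbl_cl_image (D := D)]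
    exact image_mono (Ou.pos_ρ _)
  pos_nb b := by
    rw [odbl_star, odbl_pr_nb, odbl_t_nb, odbl_pr_ρ, odbl_t_ρ, odbl_cl_image (D := D)]
    exact image_mono (Ou.pos_nb _)
  lb_nb a s a' h := by
    obtain ⟨h4, h5, -⟩ := Ou.odbl_nb_down hD h
    rcases a with a | a <;> rcases a' with a' | a'
    · exact Ou.lb_nb _ s _ h4
    · simp at h5
    · simp at h5
    · rfl
  lb_ρ b := by
    obtain ⟨k, σ⟩ := b
    fin_cases k
    · exact Ou.lb_ρ (0, σ)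
    · rfl
    · exact Ou.lb_ρ (1, σ)
  out y hy := (Ou.odbl_out hδ h₃ hA y hy).trans (Ou.odbl_arcs hD y).symm
  ins y hy := (Ou.odbl_arcs hD y).trans
    ((Ou.odbl_ins hδ h₃ hA y hy).trans (Ou.odbl_rays hδ y).symm)
  nodupX := by
    rw [← wd_dblList_append]
    exact wd_nodup_dblList Ou.nodupX
  nodupY := by
    rw [← wd_dblList_append]
    exact wd_nodup_dblList Ou.nodupY
  memX a := by
    rw [← wd_dblList_append, wd_mem_dblList]
    exact Ou.memX _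
  memY a := by
    rw [← wd_dblList_append, wd_mem_dblList]
    exact Ou.memY _
  sortX := by
    rw [← wd_dblList_append]
    refine (odbl_pairwise (by intro; exact le_rfl) Ou.sortX).imp fun {a b} h => ?_
    rw [odbl_Cov.conf_pt_ne _ (by decide), odbl_Cov.conf_pt_ne _ (by decide)]
    exact h
  sortY := by
    rw [← wd_dblList_append]
    refine (odbl_pairwise (by intro; exact le_rfl) Ou.sortY).imp fun {a b} h => ?_
    rw [odbl_Cov.conf_pt_ne _ (by decide), odbl_Cov.conf_pt_ne _ (by decide)]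
    exact h
  ltX₁ a ha := by
    rw [odbl_Cov.conf_pt_ne _ (by decide)]
    exact Ou.ltX₁ _ (wd_mem_dblList.1 ha)
  leX₂ a ha := by
    rw [odbl_Cov.conf_pt_ne _ (by decide)]
    exact Ou.leX₂ _ (wd_mem_dblList.1 ha)
  ltY₁ a ha := by
    rw [odbl_Cov.conf_pt_ne _ (by decide)]
    exact Ou.ltY₁ _ (wd_mem_dblList.1 ha)
  leY₂ a ha := by
    rw [odbl_Cov.conf_pt_ne _ (by decide)]
    exact Ou.leY₂ _ (wd_mem_dblList.1 ha)

end Outer

theorem Outer.exists_dbl (Ou : Outer (tcol i) A O) {d η δ : ℝ} (hF : Ou.Fine d η)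
    (hδ : δ ∈ Ioc (0 : ℝ) (1 / 2)) (h₁ : 2 * η ≤ δ) (h₂ : δ ≤ d) (h₃ : δ ≤ 1 / 64)
    (hA : ∀ y ∈ A, y.2 ∈ Qb (29 / 32) → y.2 2 = 0) {D : O → Bool}
    (hD : ∀ a, D a = true ↔ Ou.lb a = some i) (fX fY : O → Bool) :
    ∃ Ou' : Outer (scol i δ hδ) (dblPic i δ A) (O ⊕ {a // D a = true}),
      Ou'.X₁ = dblList D fX Ou.X₁ ∧ Ou'.X₂ = dblList D fX Ou.X₂ ∧
      Ou'.Y₁ = dblList D fY Ou.Y₁ ∧ Ou'.Y₂ = dblList D fY Ou.Y₂ ∧
      (∀ σ, Ou'.ρ (0, σ) = .inl (Ou.ρ (0, σ)) ∧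
        (∃ h, Ou'.ρ (1, σ) = .inr ⟨Ou.ρ (0, σ), h⟩) ∧ Ou'.ρ (2, σ) = .inl (Ou.ρ (1, σ))) ∧
      (∀ a s a', Ou.C.nb (.inl a) s = .inl a' → Ou'.C.nb (.inl (.inl a)) s = .inl (.inl a') ∧
        ∀ h, ∃ h', Ou'.C.nb (.inl (.inr ⟨a, h⟩)) s = .inl (.inr ⟨a', h'⟩)) ∧
      (∀ a, Ou'.C.pt (.inl a) 2 =
        Ou.C.pt (.inl (Sum.elim id Subtype.val a)) 2 + dsh D (-δ) 0 a) ∧
      (∀ a, Ou'.lb (.inl a) = Ou.lb a) ∧ ∀ a, Ou'.lb (.inr a) = none := by
  refine ⟨Ou.odbl_outer hF hδ h₁ h₂ h₃ hA hD fX fY, rfl, rfl, rfl, rfl,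
    fun σ => ⟨rfl, ⟨_, rfl⟩, rfl⟩, fun a s a' h => ⟨?_, fun ha => ⟨?_, ?_⟩⟩,
    fun a => GCDbl_two _ _, fun _ => rfl, fun _ => rfl⟩
  · refine odbl_ext ?_ ?_
    · exact (Ou.odbl_pr_nb hD (δ := δ) _ s).trans h
    · exact Ou.odbl_sh_nb hD (δ := δ) _ s
  · rw [hD, Ou.lb_nb a s a' h, ← hD]
    exact ha
  · refine odbl_ext ?_ ?_
    · exact (Ou.odbl_pr_nb hD (δ := δ) _ s).trans h
    · exact Ou.odbl_sh_nb hD (δ := δ) _ s

end Pool.Agent.P.MP_ac4909_gt.B
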