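import Pool.Agent.P.MP_ac4909_gt.B.GB_Lin
import Pool.Agent.P.MP_ac4909_gt.B.GB_Gad
import Pool.Agent.P.MP_ac4909_gt.B.GB_Grid

/-! Layer G, blocks: removal of all twists. -/

namespace Pool.Agent.P.MP_ac4909_gt.B

open scoped ContDiff
open Set Filter Topology

variable {ι κ : Type} [Fintype κ] {Cl : Set E3}

theorem gone_round {u : ℝ} (hu : |u| < 1 / 2) : round u = 0 := by
  rw [round_eq_zero_iff]
  exact ⟨(abs_lt.1 hu).1.le, (abs_lt.1 hu).2⟩

theorem gone_st_lo {ε u : ℝ} (hε : 0 < ε) (hu : u ≤ -ε) : st (u / ε) = -1 := by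
  refine st_of_le ?_
  rw [div_le_iff₀ hε]
  linarith

theorem gone_st_hi {ε u : ℝ} (hε : 0 < ε) (hu : ε ≤ u) : st (u / ε) = 1 := by
  refine st_of_ge ?_
  rw [le_div_iff₀ hε]
  linarith

omit [Fintype κ] in
/-- the angle is replaced by a standard one near a site -/
theorem gone_std {γ : κ → ℝ → E3} {θ : κ → ℝ → ℝ} (hγ : IsU γ) (hv : NonVert γ)
    (hθ : AngOK θ) {c₀ : κ} {t₀ r : ℝ} (h₀ : 0 < r) (h₁ : r < 1 / 2)
    (hC : ∀ u, |u| ≤ r → γ c₀ (t₀ + u) ∉ Cl) {g : ℝ → ℝ} (hg : ContDiff ℝ ∞ g)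
    (he : ∀ u, r / 2 ≤ |u| → |u| ≤ r → θ c₀ (t₀ + u) = g u) :
    ∃ θ', AngOK θ' ∧ RelIso Cl (ang γ θ) (ang γ θ') ∧ (∀ u, |u| ≤ r → θ' c₀ (t₀ + u) = g u) ∧
      ∀ c t, (c = c₀ → r / 2 ≤ |t - t₀ - round (t - t₀)|) → θ' c t = θ c t := by
  classical
  let f : ℝ × ℝ → ℝ := fun p => if |p.2| < r then g p.2 - θ c₀ (t₀ + p.2) else 0
  have hf0 : ∀ s u, r / 2 ≤ |u| → f (s, u) = 0 := by
    intro s u hu
    by_cases h : |u| < r
    · simp only [f, if_pos h]
      rw [he u hu h.le, sub_self]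
    · simp only [f, if_neg h]
  have hf : ContDiffOn ℝ ∞ f (univ ×ˢ Ioo (-r) r) := by
    have h1 : ContDiff ℝ ∞ fun p : ℝ × ℝ => g p.2 - θ c₀ (t₀ + p.2) :=
      (hg.comp contDiff_snd).sub ((hθ.smooth c₀).comp (contDiff_const.add contDiff_snd))
    refine h1.contDiffOn.congr fun p hp => ?_
    simp only [f, if_pos (abs_lt.2 hp.2)]
  have hF := contDiff_per (by linarith : r / 2 < r) h₁.le hf hf0 t₀
  have hF' : ContDiff ℝ ∞ fun t : ℝ => f (0, t - t₀ - round (t - t₀)) :=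
    hF.comp (contDiff_const.prodMk contDiff_id : ContDiff ℝ ∞ fun t : ℝ => ((0 : ℝ), t))
  let θ' : κ → ℝ → ℝ := fun c t =>
    θ c t + if c = c₀ then f (0, t - t₀ - round (t - t₀)) else 0
  have hoff : ∀ c t, (c = c₀ → r / 2 ≤ |t - t₀ - round (t - t₀)|) → θ' c t = θ c t := by
    intro c t h
    by_cases hc : c = c₀
    · simp only [θ', if_pos hc]
      rw [hf0 _ _ (h hc), add_zero]
    · simp only [θ', if_neg hc, add_zero]
  have hmain := relIso_ang (Cl := Cl) (θ' := θ') hγ hv hθ (fun c => ?_) (fun c t => ?_)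
    (fun c t ht => ?_)
  · refine ⟨θ', hmain.1, hmain.2, fun u hu => ?_, hoff⟩
    have e1 : t₀ + u - t₀ = u := by ring
    simp only [θ', if_true, e1, gone_round (hu.trans_lt h₁), Int.cast_zero, sub_zero]
    by_cases h : |u| < r
    · simp only [f, if_pos h]
      ring
    · have h2 : r / 2 ≤ |u| := by linarith [not_lt.1 h]
      rw [hf0 _ _ h2, add_zero, he u h2 hu]
  · by_cases hc : c = c₀
    · simp only [θ', if_pos hc]
      exact (hθ.smooth c).add hF'
    · simp only [θ', if_neg hc, add_zero]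
      exact hθ.smooth c
  · have e1 : t + 1 - t₀ = t - t₀ + 1 := by ring
    have e2 : t - t₀ + 1 - ((round (t - t₀) + 1 : ℤ) : ℝ) = t - t₀ - round (t - t₀) := by
      push_cast
      ring
    simp only [θ', add_sub_cancel_left, e1, round_add_one, e2]
  · have hO : Off c₀ t₀ r c t := by
      intro hc j
      by_contra hj
      refine hC (t - t₀ - j) (not_le.1 hj).le ?_
      have hp : Function.Periodic (γ c₀) 1 := hγ.per c₀
      have e : t₀ + (t - t₀ - j) = t - j * 1 := by ring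
      rw [e, (hp.int_mul j).sub_eq, ← hc]
      exact ht
    filter_upwards [hO.eventually (by linarith : r / 2 < r)] with t' ht'
    exact hoff c t' fun hc => ht' hc _

theorem exists_one {γ : κ → ℝ → E3} {θ : κ → ℝ → ℝ} (hγ : IsU γ) (hv : NonVert γ)
    (hθ : AngOK θ) (hCl : IsClosed Cl) {c₀ : κ} {t₀ r : ℝ} (h₀ : 0 < r) (h₁ : r < 1 / 2)
    (hC : ∀ u, |u| ≤ r → γ c₀ (t₀ + u) ∉ Cl)
    (hz : ∀ u, r / 2 ≤ |u| → |u| ≤ r → Z2 (θ c₀ (t₀ + u))) :
    ∃ γ' θ', IsU γ' ∧ NonVert γ' ∧ AngOK θ' ∧ Chain Cl (ang γ θ) (ang γ' θ') ∧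
      (∀ c t, Z2 (θ c t) → Z2 (θ' c t)) ∧ ∀ u, |u| ≤ r → Z2 (θ' c₀ (t₀ + u)) := by
  have hcont : Continuous fun u => θ c₀ (t₀ + u) :=
    (hθ.smooth c₀).continuous.comp (continuous_const.add continuous_id)
  obtain ⟨k, hk⟩ := Z2.const (a := -r) (b := -(r / 2)) hcont.continuousOn fun u hu => by
    have h : |u| = -u := abs_of_nonpos (by linarith [hu.2])
    exact hz u (by linarith [hu.2]) (by linarith [hu.1])
  obtain ⟨k', hk'⟩ := Z2.const (a := r / 2) (b := r) hcont.continuousOn fun u hu => by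
    have h : |u| = u := abs_of_nonneg (by linarith [hu.1])
    exact hz u (by linarith [hu.1]) (by linarith [hu.2])
  have h00 : γ c₀ t₀ ∉ Cl := by simpa using hC 0 (by simpa using h₀.le)
  obtain ⟨γ₁, ε₁, v, hε₁, hε₁r, hγ₁, hv₁, hR₁, hv₀, hv₂, hl⟩ :=
    exists_lin hγ hv hθ hCl (half_pos h₀) h00
  have hC₁ : ∀ u, |u| ≤ r → γ₁ c₀ (t₀ + u) ∉ Cl := fun u hu h =>
    hC u hu ((hR₁.chain.mem_iff c₀ (t₀ + u)).1 h)
  have h01 : γ₁ c₀ t₀ ∉ Cl := by simpa using hC₁ 0 (by simpa using h₀.le)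
  obtain ⟨ε, hε, hgad⟩ :=
    exists_gadget hγ₁ hv₁ hCl h01 hε₁ (by linarith) hv₀ hv₂ hl (k' - k)
  let g : ℝ → ℝ := fun u => 2 * Real.pi * k + (k' - k : ℤ) * Real.pi * (1 + st (u / ε))
  have hg : ContDiff ℝ ∞ g :=
    contDiff_const.add (contDiff_const.mul (contDiff_const.add
      (st_contDiff.comp (contDiff_id.div_const ε))))
  have hglo : ∀ u, u ≤ -ε → g u = 2 * Real.pi * k := fun u hu => by
    simp only [g, gone_st_lo hε.1 hu]
    ring
  have hghi : ∀ u, ε ≤ u → g u = 2 * Real.pi * k' := fun u hu => by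
    simp only [g, gone_st_hi hε.1 hu]
    push_cast
    ring
  obtain ⟨θ₂, hθ₂, hR₂, hg₂, hoff⟩ := gone_std hγ₁ hv₁ hθ h₀ h₁ hC₁ hg fun u hu hu' => by
    rcases le_total 0 u with h | h
    · rw [abs_of_nonneg h] at hu hu'
      rw [hghi u (by linarith [hε.2])]
      exact hk' u ⟨hu, hu'⟩
    · rw [abs_of_nonpos h] at hu hu'
      rw [hglo u (by linarith [hε.2])]
      exact hk u ⟨by linarith, by linarith⟩
  obtain ⟨γ', θ', hγ', hv', hθ', hR₃, hZ, hZ'⟩ :=
    hgad θ₂ hθ₂ k fun u hu => hg₂ u (by linarith)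
  have hb : ∀ u, |u| ≤ r → Z2 (θ' c₀ (t₀ + u)) := by
    intro u hu
    by_cases h : |u| ≤ ε₁
    · exact hZ' u h
    · refine hZ _ _ ?_
      rw [hg₂ u hu]
      have h2 := not_le.1 h
      rcases le_total 0 u with h3 | h3
      · rw [abs_of_nonneg h3] at h2
        exact ⟨k', hghi u (by linarith [hε.2])⟩
      · rw [abs_of_nonpos h3] at h2
        exact ⟨k, hglo u (by linarith [hε.2])⟩
  refine ⟨γ', θ', hγ', hv', hθ', (hR₁.chain.trans hR₂.chain).trans hR₃.chain, fun c t ht => ?_, hb⟩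
  by_cases h : c = c₀ → r / 2 ≤ |t - t₀ - round (t - t₀)|
  · refine hZ c t ?_
    rw [hoff c t h]
    exact ht
  · obtain ⟨rfl, h2⟩ := Classical.not_imp.1 h
    have h3 := hθ'.z2_add_int (hb _ (by linarith [not_le.1 h2])) (round (t - t₀))
    have e : t₀ + (t - t₀ - round (t - t₀)) + round (t - t₀) = t := by ring
    rwa [e] at h3

theorem exists_norm {L : Lk κ} (hL : L.IsLink) (hv : NonVert L.γ) (hCl : IsClosed Cl)
    {W : Set E3} (hW : IsOpen W) (hCW : Cl ⊆ W) (hν : ∀ c t, L.γ c t ∈ W → L.ν c t = ez) :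
    ∃ L', Chain Cl L L' ∧ ∀ c t, L'.ν c t = ez := by
  classical
  obtain ⟨θ, hθ, hR, hz⟩ := exists_ang hL hv hW hCW hν
  obtain ⟨N, θ₁, hN, hθ₁, hR₁, hgr⟩ := exists_grid hL.isU hv hθ hCl hW hCW hz
  have hN2 : (2 : ℝ) ≤ N := by exact_mod_cast hN
  have hN0 : (0 : ℝ) < N := by linarith
  have key : ∀ S : Finset (κ × ℤ), ∃ γ' θ', IsU γ' ∧ NonVert γ' ∧ AngOK θ' ∧
      Chain Cl (ang L.γ θ₁) (ang γ' θ') ∧ (∀ c t, Z2 (θ₁ c t) → Z2 (θ' c t)) ∧
      ∀ p ∈ S, ∀ x ∈ Icc (0 : ℝ) 1, Z2 (θ' p.1 ((p.2 + x) / N)) := by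
    intro S
    induction S using Finset.induction_on with
    | empty =>
      exact ⟨L.γ, θ₁, hL.isU, hv, hθ₁, Relation.ReflTransGen.refl, fun _ _ h => h, by simp⟩
    | insert p S _ ih =>
      obtain ⟨γ', θ', hγ', hv', hθ', hch, hZ, hS⟩ := ih
      obtain ⟨c, j⟩ := p
      rcases (hgr c j).2 with h | h
      · have hx : ∀ u : ℝ, (j + 1 / 2) / N + u = (j + (1 / 2 + N * u)) / N := fun u => by
          field_simp
          ring
        have hb : ∀ u : ℝ, |u| ≤ 1 / (2 * N) → |N * u| ≤ 1 / 2 := fun u hu => by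
          rw [abs_mul, abs_of_pos hN0]
          rw [le_div_iff₀ (by positivity)] at hu
          linarith
        have hb' : ∀ u : ℝ, 1 / (2 * N) / 2 ≤ |u| → 1 / 4 ≤ |N * u| := fun u hu => by
          rw [abs_mul, abs_of_pos hN0]
          rw [div_div, div_le_iff₀ (by positivity)] at hu
          linarith
        obtain ⟨γ'', θ'', hγ'', hv'', hθ'', hch', hZ', hS'⟩ :=
          exists_one (Cl := Cl) (c₀ := c) (t₀ := (j + 1 / 2) / N) (r := 1 / (2 * N)) hγ' hv' hθ' hCl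
            (by positivity)
            (by rw [div_lt_div_iff₀ (by positivity) (by positivity)]; linarith)
            (fun u hu hm => by
              have h1 := (hch.mem_iff c _).1 hm
              have h2 := abs_le.1 (hb u hu)
              rw [hx] at h1
              exact h _ ⟨by linarith [h2.1], by linarith [h2.2]⟩ h1)
            (fun u hu hu' => by
              refine hZ _ _ ?_
              have h2 := abs_le.1 (hb u hu')
              rw [hx]
              rcases le_abs.1 (hb' u hu) with h3 | h3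
              · have h4 := (hgr c (j + 1)).1 (N * u - 1 / 2)
                  (abs_le.2 ⟨by linarith, by linarith [h2.2]⟩)
                have e : (((j + 1 : ℤ) : ℝ) + (N * u - 1 / 2)) = j + (1 / 2 + N * u) := by
                  push_cast
                  ring
                rwa [e] at h4
              · exact (hgr c j).1 _ (abs_le.2 ⟨by linarith [h2.1], by linarith⟩))
        refine ⟨γ'', θ'', hγ'', hv'', hθ'', hch.trans hch', fun c t h => hZ' c t (hZ c t h), ?_⟩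
        intro p hp x hx'
        rcases Finset.mem_insert.1 hp with rfl | hp
        · have h1 := hS' ((x - 1 / 2) / N) (by
            rw [abs_div, abs_of_pos hN0, div_le_div_iff₀ hN0 (by positivity)]
            have : |x - 1 / 2| ≤ 1 / 2 := abs_le.2 ⟨by linarith [hx'.1], by linarith [hx'.2]⟩
            nlinarith)
          have e : ((j : ℝ) + 1 / 2) / N + (x - 1 / 2) / N = (j + x) / N := by ring
          rwa [e] at h1
        · exact hZ' _ _ (hS p hp x hx')
      · refine ⟨γ', θ', hγ', hv', hθ', hch, hZ, fun p hp x hx => ?_⟩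
        rcases Finset.mem_insert.1 hp with rfl | hp
        · exact hZ _ _ (h x hx)
        · exact hS p hp x hx
  obtain ⟨γ', θ', -, -, hθ', hch, -, hS⟩ := key (Finset.univ ×ˢ Finset.Ico (0 : ℤ) N)
  refine ⟨ang γ' θ', (hR.chain.trans hR₁.chain).trans hch, fun c t => ang_of_z2 ?_⟩
  have hf0 : 0 ≤ N * Int.fract t := mul_nonneg hN0.le (Int.fract_nonneg t)
  have hf1 : N * Int.fract t < N := mul_lt_of_lt_one_right hN0 (Int.fract_lt_one t)
  have h1 := hS (c, ⌊N * Int.fract t⌋) (Finset.mem_product.2 ⟨Finset.mem_univ _,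
    Finset.mem_Ico.2 ⟨Int.floor_nonneg.2 hf0, Int.floor_lt.2 (by exact_mod_cast hf1)⟩⟩)
    (Int.fract (N * Int.fract t)) ⟨Int.fract_nonneg _, (Int.fract_lt_one _).le⟩
  have h2 := hθ'.z2_add_int h1 ⌊t⌋
  have e : ((⌊N * Int.fract t⌋ : ℝ) + Int.fract (N * Int.fract t)) / N + ⌊t⌋ = t := by
    rw [Int.floor_add_fract, mul_div_cancel_left₀ _ hN0.ne', Int.fract_add_floor]
  rwa [e] at h2

end Pool.Agent.P.MP_ac4909_gt.B
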