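import Pool.Agent.P.MP_ac4909_gt.B.GB_Col
import Pool.Agent.P.MP_ac4909_gt.B.GB_Blk

/-! Layer G, blocks: straight strands on both sides of a planar content. -/

namespace Pool.Agent.P.MP_ac4909_gt.B

open scoped ContDiff
open Set Filter Topology

section Aux

variable {ι I K : Type} {n m : ℕ} {Co : Collar m ι}

/-- the old objects among the objects of the padded content -/
def gpad_emb (K : Type) (e : Fin m ⊕ K ≃ Fin n) :
    I ⊕ Fin m × Bool → (I ⊕ K × Option Bool) ⊕ Fin n × Bool :=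
  Sum.map .inl fun b => (e (.inl b.1), b.2)

/-- boundary columns of the padded content -/
def gpad_bc (Ct : Content Co I) (e : Fin m ⊕ K ≃ Fin n) (b : Fin n × Bool) :
    I ⊕ K × Option Bool :=
  Sum.elim (fun j => .inl (Ct.bc (j, b.2))) (fun k => .inr (k, some b.2)) (e.symm b.1)

/-- levels of the boundary columns of the padded content -/
noncomputable def gpad_lv (Ct : Content Co I) (e : Fin m ⊕ K ≃ Fin n) (b : Fin n × Bool) : ℝ :=
  Sum.elim (fun j => Ct.lv (j, b.2)) (fun _ => 3 / 4) (e.symm b.1)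

/-- the subdivision of the padded content -/
noncomputable def gpad_C (Ct : Content Co I) (Co' : Collar n ι) (e : Fin m ⊕ K ≃ Fin n) :
    Conf ((I ⊕ K × Option Bool) ⊕ Fin n × Bool) where
  col := fun v => match v with
    | .inl (.inl a) => Ct.C.col (.inl a)
    | .inl (.inr (_, some _)) => true
    | .inl (.inr (_, none)) => false
    | .inr _ => false
  nb := fun v s => match v, s with
    | .inl (.inl a), s => gpad_emb K e (Ct.C.nb (.inl a) s)
    | .inl (.inr (k, some σ)), false => .inr (e (.inr k), σ)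
    | .inl (.inr (k, some _)), true => .inl (.inr (k, none))
    | .inl (.inr (k, none)), s => .inl (.inr (k, some s))
    | .inr b, _ => .inl (gpad_bc Ct e b)
  pt := fun v => match v with
    | .inl (.inl a) => Ct.C.pt (.inl a)
    | .inl (.inr (k, some σ)) => Co'.cl (e (.inr k), σ) (3 / 4)
    | .inl (.inr (k, none)) => Co'.cl (e (.inr k), true) 0
    | .inr b => Co'.cl b 1
  arc := fun u v => match u, v with
    | .inr b, _ => Co'.cl b '' Ici (gpad_lv Ct e b)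
    | .inl _, .inr b => Co'.cl b '' Ici (gpad_lv Ct e b)
    | .inl (.inl a), .inl (.inl a') => Ct.C.arc (.inl a) (.inl a')
    | .inl (.inl _), .inl (.inr _) => ∅
    | .inl (.inr _), .inl (.inl _) => ∅
    | .inl (.inr (k, some σ)), .inl (.inr _) => Co'.cl (e (.inr k), σ) '' Icc 0 (3 / 4)
    | .inl (.inr (_, none)), .inl (.inr (k, some σ)) => Co'.cl (e (.inr k), σ) '' Icc 0 (3 / 4)
    | .inl (.inr (_, none)), .inl (.inr (_, none)) => ∅

/-- the hypotheses of the padding -/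
structure gpad_H (Ct : Content Co I) (Co' : Collar n ι) (e : Fin m ⊕ K ≃ Fin n) (x z : K → ℝ)
    (o : K → Option ι) (L R : List K) : Prop where
  hin : ∀ j σ, Co'.ξ (e (.inl j), σ) = Co.ξ (j, σ) ∧ Co'.ζ (e (.inl j), σ) = Co.ζ (j, σ) ∧
    Co'.lab (e (.inl j), σ) = Co.lab (j, σ)
  hout : ∀ k σ, (∀ y, Co'.ξ (e (.inr k), σ) y = x k) ∧ Co'.ζ (e (.inr k), σ) = z k ∧
    Co'.lab (e (.inr k), σ) = o k
  hpl : ∀ a, ∀ p ∈ Ct.C.star (.inl a), p 2 = 0
  hl : ∀ k ∈ L, (∀ a, ∀ p ∈ Ct.C.star (.inl a), x k < p 0) ∨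
    (z k < 0 ∧ ∀ a, ∀ p ∈ Ct.C.star (.inl a), x k ≤ p 0)
  hr : ∀ k ∈ R, ∀ a, ∀ p ∈ Ct.C.star (.inl a), p 0 < x k
  mem : ∀ k, k ∈ L ++ R
  hx : (L ++ R).Pairwise fun k k' => x k < x k'
  fr : List.finRange n = L.map (fun k => e (.inr k)) ++
    (List.finRange m).map (fun j => e (.inl j)) ++ R.map fun k => e (.inr k)

variable {Ct : Content Co I} {Co' : Collar n ι} {e : Fin m ⊕ K ≃ Fin n} {x z : K → ℝ}
  {o : K → Option ι} {L R : List K}

theorem gpad_emb_inj (e : Fin m ⊕ K ≃ Fin n) :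
    Function.Injective (gpad_emb K e : I ⊕ Fin m × Bool → _) := by
  refine Sum.map_injective.2 ⟨Sum.inl_injective, ?_⟩
  rintro ⟨j, σ⟩ ⟨j', σ'⟩ h
  simpa using h

theorem gpad_bc_inl (Ct : Content Co I) (e : Fin m ⊕ K ≃ Fin n) (j : Fin m) (σ : Bool) :
    gpad_bc Ct e (e (.inl j), σ) = .inl (Ct.bc (j, σ)) := by simp [gpad_bc]

theorem gpad_bc_inr (Ct : Content Co I) (e : Fin m ⊕ K ≃ Fin n) (k : K) (σ : Bool) :
    gpad_bc Ct e (e (.inr k), σ) = .inr (k, some σ) := by simp [gpad_bc]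

theorem gpad_lv_inl (Ct : Content Co I) (e : Fin m ⊕ K ≃ Fin n) (j : Fin m) (σ : Bool) :
    gpad_lv Ct e (e (.inl j), σ) = Ct.lv (j, σ) := by simp [gpad_lv]

theorem gpad_lv_inr (Ct : Content Co I) (e : Fin m ⊕ K ≃ Fin n) (k : K) (σ : Bool) :
    gpad_lv Ct e (e (.inr k), σ) = 3 / 4 := by simp [gpad_lv]

theorem gpad_cases (e : Fin m ⊕ K ≃ Fin n) (b : Fin n × Bool) :
    (∃ j σ, b = (e (.inl j), σ)) ∨ ∃ k σ, b = (e (.inr k), σ) := by
  obtain ⟨i, σ⟩ := b
  obtain ⟨u, rfl⟩ := e.surjective i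
  rcases u with j | k
  · exact .inl ⟨j, σ, rfl⟩
  · exact .inr ⟨k, σ, rfl⟩

theorem gpad_nb_emb (Ct : Content Co I) (Co' : Collar n ι) (e : Fin m ⊕ K ≃ Fin n)
    (v : I ⊕ Fin m × Bool) (s : Bool) :
    (gpad_C Ct Co' e).nb (gpad_emb K e v) s = gpad_emb K e (Ct.C.nb v s) := by
  rcases v with a | ⟨j, σ⟩
  · rfl
  · rw [Ct.nb_inr]
    exact congrArg Sum.inl (gpad_bc_inl Ct e j σ)

theorem gpad_col_emb (Ct : Content Co I) (Co' : Collar n ι) (e : Fin m ⊕ K ≃ Fin n)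
    (v : I ⊕ Fin m × Bool) : (gpad_C Ct Co' e).col (gpad_emb K e v) = Ct.C.col v := by
  rcases v with a | b
  · rfl
  · rw [Ct.col_inr]
    rfl

theorem gpad_H.cl_inl (H : gpad_H Ct Co' e x z o L R) (j : Fin m) (σ : Bool) :
    Co'.cl (e (.inl j), σ) = Co.cl (j, σ) := by
  funext t
  simp only [Collar.cl, (H.hin j σ).1, (H.hin j σ).2.1]

theorem gpad_H.pt_emb (H : gpad_H Ct Co' e x z o L R) (v : I ⊕ Fin m × Bool) :
    (gpad_C Ct Co' e).pt (gpad_emb K e v) = Ct.C.pt v := by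
  rcases v with a | ⟨j, σ⟩
  · rfl
  · rw [Ct.pt_inr, ← H.cl_inl]
    rfl

theorem gpad_H.arc_emb (H : gpad_H Ct Co' e x z o L R) (a : I) (s : Bool) :
    (gpad_C Ct Co' e).arc (.inl (.inl a)) (gpad_emb K e (Ct.C.nb (.inl a) s)) =
      Ct.C.arc (.inl a) (Ct.C.nb (.inl a) s) := by
  rcases h : Ct.C.nb (.inl a) s with a' | ⟨j, σ⟩
  · rfl
  · obtain ⟨rfl, -⟩ := (Ct.nb_eq_inr a s _).1 h
    rw [Ct.arc_bc, ← H.cl_inl, ← gpad_lv_inl Ct e]
    rfl

theorem gpad_star_inr (Ct : Content Co I) (Co' : Collar n ι) (e : Fin m ⊕ K ≃ Fin n)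
    (b : Fin n × Bool) :
    (gpad_C Ct Co' e).star (.inr b) = Co'.cl b '' Ici (gpad_lv Ct e b) := union_self _

theorem gpad_H.star_emb (H : gpad_H Ct Co' e x z o L R) (v : I ⊕ Fin m × Bool) :
    (gpad_C Ct Co' e).star (gpad_emb K e v) = Ct.C.star v := by
  rcases v with a | ⟨j, σ⟩
  · exact congrArg₂ (· ∪ ·) (H.arc_emb a false) (H.arc_emb a true)
  · rw [Ct.star_inr, ← H.cl_inl, ← gpad_lv_inl Ct e]
    exact gpad_star_inr Ct Co' e _

theorem gpad_H.mono_emb (H : gpad_H Ct Co' e x z o L R) {v : I ⊕ Fin m × Bool} {i : Fin 3}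
    {s : Bool} (h : Ct.C.Mono i v s) : (gpad_C Ct Co' e).Mono i (gpad_emb K e v) s := by
  refine ⟨?_, fun t ht => ?_, ?_, ?_, fun t ht => ?_⟩
  · simpa only [Conf.win, gpad_nb_emb, H.star_emb] using h.inj
  · simp only [gpad_nb_emb, H.pt_emb, ne_eq, (gpad_emb_inj e).eq_iff] at ht ⊢
    exact h.lo₂ t ht
  · simpa only [gpad_nb_emb, H.pt_emb] using h.lo₁
  · simpa only [gpad_nb_emb, H.pt_emb] using h.hi₁
  · simp only [gpad_nb_emb, H.pt_emb, ne_eq, (gpad_emb_inj e).eq_iff] at ht ⊢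
    exact h.hi₂ t ht

theorem gpad_far_emb {u v : I ⊕ Fin m × Bool}
    (h : (gpad_C Ct Co' e).Far (gpad_emb K e u) (gpad_emb K e v)) : Ct.C.Far u v := by
  simpa only [Conf.Far, gpad_nb_emb, ne_eq, (gpad_emb_inj e).eq_iff] using h

/-- the straight line of a new strand -/
def gpad_line (x z : ℝ) : Set E3 := {p | p 0 = x ∧ p 2 = z}

theorem gpad_H.cl_line (H : gpad_H Ct Co' e x z o L R) (k : K) (σ : Bool) (J : Set ℝ) :
    Co'.cl (e (.inr k), σ) '' J ⊆ gpad_line (x k) (z k) := by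
  rintro _ ⟨t, -, rfl⟩
  exact ⟨(H.hout k σ).1 t, (H.hout k σ).2.1⟩

theorem gpad_star_col (Ct : Content Co I) (Co' : Collar n ι) (e : Fin m ⊕ K ≃ Fin n) (k : K)
    (σ : Bool) : (gpad_C Ct Co' e).star (.inl (.inr (k, some σ))) =
      Co'.cl (e (.inr k), σ) '' Ici 0 := by
  change Co'.cl (e (.inr k), σ) '' Ici (gpad_lv Ct e _) ∪ Co'.cl (e (.inr k), σ) '' Icc 0 (3 / 4) = _
  rw [gpad_lv_inr, ← image_union, union_comm, Icc_union_Ici_eq_Ici (by norm_num)]

theorem gpad_H.star_line (H : gpad_H Ct Co' e x z o L R) (k : K) (u : Option Bool) :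
    (gpad_C Ct Co' e).star (.inl (.inr (k, u))) ⊆ gpad_line (x k) (z k) := by
  rcases u with _ | σ
  · exact union_subset (H.cl_line k false _) (H.cl_line k true _)
  · rw [gpad_star_col]
    exact H.cl_line k σ _

theorem gpad_line_inj (x z : ℝ) : InjOn (fun p : E3 => p 1) (gpad_line x z) := by
  intro p hp q hq h
  ext i
  fin_cases i
  · exact hp.1.trans hq.1.symm
  · exact h
  · exact hp.2.trans hq.2.symm

theorem gpad_H.cl_mid (H : gpad_H Ct Co' e x z o L R) (k : K) (σ : Bool) :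
    Co'.cl (e (.inr k), σ) 0 = Co'.cl (e (.inr k), true) 0 :=
  gpad_line_inj (x k) (z k) (H.cl_line k σ univ ⟨0, trivial, rfl⟩)
    (H.cl_line k true univ ⟨0, trivial, rfl⟩) (by simp)

theorem gpad_H.isArc (H : gpad_H Ct Co' e x z o L R) (k : K) (σ : Bool) :
    IsArc (Co'.cl (e (.inr k), σ) '' Icc 0 (3 / 4)) (Co'.cl (e (.inr k), true) 0)
      (Co'.cl (e (.inr k), σ) (3 / 4)) := by
  refine ⟨fun t => Co'.cl (e (.inr k), σ) (3 / 4 * t), ?_, fun t _ t' _ h => ?_, ?_, ?_, ?_⟩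
  · refine Continuous.continuousOn ?_
    simp only [Collar.cl, (H.hout k σ).1]
    fun_prop
  · have := Collar.cl_inj h
    linarith
  · simpa using H.cl_mid k σ
  · simp
  · refine Subset.antisymm ?_ ?_
    · rintro _ ⟨t, ht, rfl⟩
      exact ⟨4 / 3 * t, ⟨by linarith [ht.1], by linarith [ht.2]⟩, congrArg _ (by ring)⟩
    · rintro _ ⟨t, ht, rfl⟩
      exact ⟨3 / 4 * t, ⟨by linarith [ht.1], by linarith [ht.2]⟩, rfl⟩

theorem gpad_H.box (H : gpad_H Ct Co' e x z o L R) (k : K) (σ : Bool) :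
    ∀ p ∈ Co'.cl (e (.inr k), σ) '' Icc 0 (3 / 4), ∀ i, |p i| ≤ 3 / 4 := by
  rintro _ ⟨t, ht, rfl⟩ i
  fin_cases i
  · have := Co'.boxx (e (.inr k), σ) 1 ⟨one_pos, le_rfl⟩
    rw [(H.hout k σ).1] at this
    simpa [(H.hout k σ).1] using this
  · cases σ <;> simpa [abs_of_nonneg ht.1] using ht.2
  · exact Co'.boxz _

theorem gpad_H.mono_mid (H : gpad_H Ct Co' e x z o L R) (k : K) :
    (gpad_C Ct Co' e).Mono 1 (.inl (.inr (k, none))) false := by
  refine ⟨(gpad_line_inj (x k) (z k)).mono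
    (union_subset (H.star_line k _) (H.star_line k _)), fun t ht => ?_, ?_, ?_, fun t ht => ?_⟩
  · cases t
    · change Co'.cl _ 1 1 < Co'.cl _ (3 / 4) 1
      norm_num
    · exact absurd rfl ht
  · change Co'.cl _ (3 / 4) 1 < Co'.cl _ 0 1
    norm_num
  · change Co'.cl _ 0 1 < Co'.cl _ (3 / 4) 1
    norm_num
  · cases t
    · change Co'.cl _ (3 / 4) 1 < Co'.cl _ 1 1
      norm_num
    · exact absurd rfl ht

theorem gpad_H.mono_col (H : gpad_H Ct Co' e x z o L R) (k : K) (σ : Bool) :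
    (gpad_C Ct Co' e).Mono 1 (.inl (.inr (k, some σ))) σ := by
  have hb : ∀ t, (gpad_C Ct Co' e).nb (.inr (e (.inr k), σ)) t = .inl (.inr (k, some σ)) :=
    fun _ => congrArg Sum.inl (gpad_bc_inr Ct e k σ)
  refine ⟨(gpad_line_inj (x k) (z k)).mono (union_subset ?_ (H.star_line k _)), fun t ht => ?_,
    ?_, ?_, fun t ht => ?_⟩
  · exact (gpad_star_inr Ct Co' e _).subset.trans (H.cl_line k σ _)
  · cases σ
    · exact absurd (hb t) ht
    · cases t
      · change Co'.cl _ (3 / 4) 1 < Co'.cl _ 0 1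
        norm_num
      · exact absurd rfl ht
  · cases σ
    · change Co'.cl _ 1 1 < Co'.cl _ (3 / 4) 1
      norm_num
    · change Co'.cl _ 0 1 < Co'.cl _ (3 / 4) 1
      norm_num
  · cases σ
    · change Co'.cl _ (3 / 4) 1 < Co'.cl _ 0 1
      norm_num
    · change Co'.cl _ (3 / 4) 1 < Co'.cl _ 1 1
      norm_num
  · cases σ
    · cases t
      · exact absurd rfl ht
      · change Co'.cl _ 0 1 < Co'.cl _ (3 / 4) 1
        norm_num
    · exact absurd (hb t) ht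

theorem gpad_H.sep_new (H : gpad_H Ct Co' e x z o L R) (a : I) (k : K) :
    ∃ i, Sep i (Ct.C.star (.inl a)) (gpad_line (x k) (z k)) ∨
      Sep i (gpad_line (x k) (z k)) (Ct.C.star (.inl a)) := by
  rcases List.mem_append.1 (H.mem k) with hk | hk
  · rcases H.hl k hk with h | h
    · exact ⟨0, .inr fun p hp q hq => hp.1.trans_lt (h a q hq)⟩
    · exact ⟨2, .inr fun p hp q hq => hp.2.trans_lt (h.1.trans_eq (H.hpl a q hq).symm)⟩
  · exact ⟨0, .inl fun p hp q hq => (H.hr k hk a p hp).trans_eq hq.1.symm⟩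

theorem gpad_H.x_ne (H : gpad_H Ct Co' e x z o L R) {k k' : K} (h : k ≠ k') : x k ≠ x k' :=
  List.Pairwise.forall_of_forall_of_flip (R := fun k k' => k ≠ k' → x k ≠ x k')
    (fun _ _ h => absurd rfl h) (H.hx.imp fun h _ => h.ne) (H.hx.imp fun h _ => h.ne')
    (H.mem k) (H.mem k') h

theorem gpad_H.sep (H : gpad_H Ct Co' e x z o L R) (a a' : I ⊕ K × Option Bool)
    (h : (gpad_C Ct Co' e).Far (.inl a) (.inl a')) :
    ∃ i, Sep i ((gpad_C Ct Co' e).star (.inl a)) ((gpad_C Ct Co' e).star (.inl a')) ∨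
      Sep i ((gpad_C Ct Co' e).star (.inl a')) ((gpad_C Ct Co' e).star (.inl a)) := by
  rcases a with a | ⟨k, u⟩ <;> rcases a' with a' | ⟨k', u'⟩
  · have := Ct.sep a a' (gpad_far_emb (u := .inl a) (v := .inl a') h)
    rwa [← H.star_emb, ← H.star_emb] at this
  · obtain ⟨i, hi⟩ := H.sep_new a k'
    rw [← H.star_emb] at hi
    exact ⟨i, hi.imp (·.mono subset_rfl (H.star_line k' u')) (·.mono (H.star_line k' u') subset_rfl)⟩
  · obtain ⟨i, hi⟩ := H.sep_new a' k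
    rw [← H.star_emb] at hi
    exact ⟨i, hi.symm.imp (·.mono (H.star_line k u) subset_rfl)
      (·.mono subset_rfl (H.star_line k u))⟩
  · by_cases hk : k = k'
    · subst hk
      exfalso
      rcases u with _ | σ <;> rcases u' with _ | σ'
      · exact h.1 rfl
      · exact h.2.1 σ' rfl
      · exact h.2.1 true rfl
      · exact h.2.2 true true rfl
    · refine ⟨0, (lt_or_gt_of_ne (H.x_ne hk)).imp (fun hx p hp q hq => ?_) fun hx p hp q hq => ?_⟩
      · rwa [(H.star_line k u hp).1, (H.star_line k' u' hq).1]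
      · rwa [(H.star_line k' u' hp).1, (H.star_line k u hq).1]

theorem gpad_H.z_in (H : gpad_H Ct Co' e x z o L R) (b : Fin n × Bool) :
    (gpad_C Ct Co' e).pt ((gpad_C Ct Co' e).nb (.inl (gpad_bc Ct e b)) true) 2 = Co'.ζ b := by
  rcases gpad_cases e b with ⟨j, σ, rfl⟩ | ⟨k, σ, rfl⟩
  · rw [gpad_bc_inl, (H.hin j σ).2.1]
    have h1 := H.hpl _ _ (Ct.nb_mem_star (Ct.bc (j, σ)) true)
    have h2 := H.hpl _ _ (Ct.pt_mem_star (Ct.bc (j, σ)))
    rw [Ct.pt_bc, Collar.cl_two] at h2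
    rw [h2, ← h1, ← H.pt_emb]
    rfl
  · rw [gpad_bc_inr, (H.hout k σ).2.1]
    exact (H.hout k true).2.1

/-- the new boundary columns -/
def gpad_cols (I : Type) (L : List K) : List (I ⊕ K × Option Bool) :=
  L.flatMap fun k => [.inr (k, some false), .inr (k, some true)]

theorem gpad_mem_cols {v : I ⊕ K × Option Bool} :
    v ∈ gpad_cols I L ↔ ∃ k ∈ L, ∃ σ, v = .inr (k, some σ) := by
  simp [gpad_cols]

theorem gpad_nodup_cols (h : L.Nodup) : (gpad_cols I L).Nodup := by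
  refine List.nodup_flatMap.2 ⟨by simp, h.imp fun {k k'} hk => ?_⟩
  simp [Function.onFun, hk.symm]

theorem gpad_H.nodup (H : gpad_H Ct Co' e x z o L R) : (L ++ R).Nodup :=
  H.hx.imp fun h hk => by simp [hk] at h

theorem gpad_H.nodupX (H : gpad_H Ct Co' e x z o L R) :
    (gpad_cols I L ++ Ct.Xb.map Sum.inl ++ gpad_cols I R).Nodup := by
  have hp : (gpad_cols I L ++ Ct.Xb.map Sum.inl ++ gpad_cols I R).Perm
      (gpad_cols I (L ++ R) ++ Ct.Xb.map Sum.inl) := by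
    rw [gpad_cols, gpad_cols, gpad_cols, List.flatMap_append, List.append_assoc, List.append_assoc]
    exact List.perm_append_comm.append_left _
  refine hp.nodup_iff.2 (List.nodup_append.2 ⟨gpad_nodup_cols H.nodup,
    Ct.nodupX.map Sum.inl_injective, fun u hu v hv h => ?_⟩)
  obtain ⟨k, -, σ, rfl⟩ := gpad_mem_cols.1 hu
  obtain ⟨a, -, rfl⟩ := List.mem_map.1 hv
  cases h

theorem gpad_H.nodupY (H : gpad_H Ct Co' e x z o L R) {Y₁ Y₂ : List I} (hY : Ct.Yb = Y₁ ++ Y₂) :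
    (Y₁.map .inl ++ (L ++ R).map (fun k => .inr (k, none)) ++ Y₂.map .inl :
      List (I ⊕ K × Option Bool)).Nodup := by
  have hp : (Y₁.map .inl ++ (L ++ R).map (fun k => .inr (k, none)) ++ Y₂.map .inl :
      List (I ⊕ K × Option Bool)).Perm
      (Ct.Yb.map .inl ++ (L ++ R).map fun k => .inr (k, none)) := by
    rw [hY, List.map_append (l₁ := Y₁), List.append_assoc, List.append_assoc]
    exact List.perm_append_comm.append_left _
  refine hp.nodup_iff.2 (List.nodup_append.2 ⟨Ct.nodupY.map Sum.inl_injective,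
    H.nodup.map fun k k' h => by simpa using h, fun u hu v hv h => ?_⟩)
  obtain ⟨a, -, rfl⟩ := List.mem_map.1 hu
  obtain ⟨k, -, rfl⟩ := List.mem_map.1 hv
  cases h

theorem gpad_H.pt_col (H : gpad_H Ct Co' e x z o L R) (k : K) (σ : Bool) :
    (gpad_C Ct Co' e).pt (.inl (.inr (k, some σ))) 0 = x k := (H.hout k σ).1 _

theorem gpad_H.sort_cols (H : gpad_H Ct Co' e x z o L R) {M : List K}
    (h : M.Pairwise fun k k' => x k < x k') : (gpad_cols I M).Pairwise fun a b =>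
      (gpad_C Ct Co' e).pt (.inl a) 0 ≤ (gpad_C Ct Co' e).pt (.inl b) 0 := by
  refine List.pairwise_flatMap.2 ⟨fun k _ => ?_, h.imp fun {k k'} hk => ?_⟩
  · simp [H.pt_col]
  · simp [H.pt_col, hk.le]

theorem gpad_H.sortX (H : gpad_H Ct Co' e x z o L R) :
    (gpad_cols I L ++ Ct.Xb.map Sum.inl ++ gpad_cols I R).Pairwise fun a b =>
      (gpad_C Ct Co' e).pt (.inl a) 0 ≤ (gpad_C Ct Co' e).pt (.inl b) 0 := by
  obtain ⟨hL, hR, hLR⟩ := List.pairwise_append.1 H.hx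
  refine List.pairwise_append.2 ⟨List.pairwise_append.2 ⟨H.sort_cols hL,
    List.pairwise_map.2 Ct.sortX, fun u hu v hv => ?_⟩, H.sort_cols hR, fun u hu v hv => ?_⟩
  · obtain ⟨k, hk, σ, rfl⟩ := gpad_mem_cols.1 hu
    obtain ⟨a, -, rfl⟩ := List.mem_map.1 hv
    rw [H.pt_col]
    exact (H.hl k hk).elim (fun h => (h a _ (Ct.pt_mem_star a)).le)
      fun h => h.2 a _ (Ct.pt_mem_star a)
  · obtain ⟨k', hk', σ', rfl⟩ := gpad_mem_cols.1 hv
    rw [H.pt_col]
    rcases List.mem_append.1 hu with hu | hu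
    · obtain ⟨k, hk, σ, rfl⟩ := gpad_mem_cols.1 hu
      rw [H.pt_col]
      exact (hLR k hk k' hk').le
    · obtain ⟨a, -, rfl⟩ := List.mem_map.1 hu
      exact (H.hr k' hk' a _ (Ct.pt_mem_star a)).le

theorem gpad_pt_mid (Ct : Content Co I) (Co' : Collar n ι) (e : Fin m ⊕ K ≃ Fin n) (k : K) :
    (gpad_C Ct Co' e).pt (.inl (.inr (k, none))) 1 = 0 := by
  change Co'.cl _ 0 1 = 0
  simp

theorem gpad_sortY (Co' : Collar n ι) (e : Fin m ⊕ K ≃ Fin n) (M : List K) {Y₁ Y₂ : List I}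
    (hY : Ct.Yb = Y₁ ++ Y₂) (h₁ : ∀ a ∈ Y₁, Ct.C.pt (.inl a) 1 ≤ 0)
    (h₂ : ∀ a ∈ Y₂, 0 ≤ Ct.C.pt (.inl a) 1) :
    (Y₁.map .inl ++ M.map (fun k => .inr (k, none)) ++ Y₂.map .inl :
      List (I ⊕ K × Option Bool)).Pairwise fun a b =>
      (gpad_C Ct Co' e).pt (.inl a) 1 ≤ (gpad_C Ct Co' e).pt (.inl b) 1 := by
  obtain ⟨s₁, s₂, s₃⟩ := List.pairwise_append.1 (hY ▸ Ct.sortY)
  refine List.pairwise_append.2 ⟨List.pairwise_append.2 ⟨List.pairwise_map.2 s₁,
    List.pairwise_map.2 (List.pairwise_of_forall fun k k' => ?_), fun u hu v hv => ?_⟩,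
    List.pairwise_map.2 s₂, fun u hu v hv => ?_⟩
  · rw [gpad_pt_mid, gpad_pt_mid]
  · obtain ⟨a, ha, rfl⟩ := List.mem_map.1 hu
    obtain ⟨k, -, rfl⟩ := List.mem_map.1 hv
    rw [gpad_pt_mid]
    exact h₁ a ha
  · obtain ⟨a', ha', rfl⟩ := List.mem_map.1 hv
    rcases List.mem_append.1 hu with hu | hu
    · obtain ⟨a, ha, rfl⟩ := List.mem_map.1 hu
      exact s₃ a ha a' ha'
    · obtain ⟨k, -, rfl⟩ := List.mem_map.1 hu
      rw [gpad_pt_mid]
      exact h₂ a' ha'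

theorem gpad_sub_cols (M : List K) (σ : Bool) :
    (M.map fun k => (.inr (k, some σ) : I ⊕ K × Option Bool)).Sublist (gpad_cols I M) := by
  rw [List.map_eq_flatMap]
  refine List.Sublist.flatMap_right _ fun k _ => ?_
  cases σ <;> simp

theorem gpad_H.subX (H : gpad_H Ct Co' e x z o L R) (σ : Bool) :
    (List.ofFn fun i => gpad_bc Ct e (i, σ)).Sublist
      (gpad_cols I L ++ Ct.Xb.map Sum.inl ++ gpad_cols I R) := by
  rw [List.ofFn_eq_map, H.fr]
  simp only [List.map_append, List.map_map, Function.comp_def, gpad_bc_inl, gpad_bc_inr]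
  refine ((gpad_sub_cols L σ).append ?_).append (gpad_sub_cols R σ)
  have := (Ct.subX σ).map (Sum.inl : I → I ⊕ K × Option Bool)
  rwa [List.ofFn_eq_map, List.map_map] at this

theorem gpad_emb_eq_inl {v : I ⊕ Fin m × Bool} {u : I ⊕ K × Option Bool}
    (h : gpad_emb K e v = .inl u) : ∃ a, v = .inl a ∧ u = .inl a := by
  rcases v with a | b
  · exact ⟨a, rfl, (Sum.inl_injective h).symm⟩
  · cases h

/-- the padded content -/
noncomputable def gpad_H.ct (H : gpad_H Ct Co' e x z o L R) {Y₁ Y₂ : List I}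
    (hY : Ct.Yb = Y₁ ++ Y₂) (h₁ : ∀ a ∈ Y₁, Ct.C.pt (.inl a) 1 ≤ 0)
    (h₂ : ∀ a ∈ Y₂, 0 ≤ Ct.C.pt (.inl a) 1) : Content Co' (I ⊕ K × Option Bool) where
  C := gpad_C Ct Co' e
  bc := gpad_bc Ct e
  lv := gpad_lv Ct e
  lb := Sum.elim Ct.lb fun u => o u.1
  Xb := gpad_cols I L ++ Ct.Xb.map Sum.inl ++ gpad_cols I R
  Yb := Y₁.map .inl ++ (L ++ R).map (fun k => .inr (k, none)) ++ Y₂.map .inl
  lv_pos b := by
    rcases gpad_cases e b with ⟨j, σ, rfl⟩ | ⟨k, σ, rfl⟩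
    · rw [gpad_lv_inl]
      exact Ct.lv_pos _
    · rw [gpad_lv_inr]
      norm_num
  lv_le b := by
    rcases gpad_cases e b with ⟨j, σ, rfl⟩ | ⟨k, σ, rfl⟩
    · rw [gpad_lv_inl]
      exact Ct.lv_le _
    · rw [gpad_lv_inr]
  col_inr _ := rfl
  nb_inr _ _ := rfl
  nb_eq_inr a s b := by
    rcases gpad_cases e b with ⟨j, σ, rfl⟩ | ⟨k, σ, rfl⟩
    · rw [gpad_bc_inl]
      rcases a with a | ⟨k', _ | σ'⟩
      · refine ((gpad_emb_inj e).eq_iff (a := Ct.C.nb (.inl a) s) (b := .inr (j, σ))).trans ?_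
        rw [Ct.nb_eq_inr, Sum.inl.injEq]
      · simp [gpad_C]
      · cases s <;> simp [gpad_C]
    · rw [gpad_bc_inr]
      rcases a with a | ⟨k', _ | σ'⟩
      · change gpad_emb K e (Ct.C.nb (.inl a) s) = _ ↔ _
        rcases Ct.C.nb (.inl a) s with a' | b' <;> simp [gpad_emb]
      · simp [gpad_C]
      · cases s <;> simp [gpad_C]
  col_nb a s := by
    rcases a with a | ⟨k, _ | σ⟩
    · exact (gpad_col_emb Ct Co' e _).trans (Ct.col_nb a s)
    · rfl
    · cases s <;> rfl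
  nb_ne a := by
    rcases a with a | ⟨k, _ | σ⟩
    · exact fun h => Ct.nb_ne a (gpad_emb_inj e h)
    · simp [gpad_C]
    · simp [gpad_C]
  adj_symm a s := by
    rcases a with a | ⟨k, _ | σ⟩
    · obtain ⟨s', hs⟩ := Ct.adj_symm a s
      exact ⟨s', (gpad_nb_emb Ct Co' e _ s').trans (congrArg _ hs)⟩
    · exact ⟨true, rfl⟩
    · cases s
      · exact ⟨true, congrArg Sum.inl (gpad_bc_inr Ct e k σ)⟩
      · exact ⟨σ, rfl⟩
  pt_bc b := by
    rcases gpad_cases e b with ⟨j, σ, rfl⟩ | ⟨k, σ, rfl⟩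
    · rw [gpad_bc_inl, gpad_lv_inl, H.cl_inl]
      exact Ct.pt_bc _
    · rw [gpad_bc_inr, gpad_lv_inr]
      rfl
  pt_inr _ := rfl
  arc_bc _ := rfl
  arc_symm a s := by
    rcases a with a | ⟨k, _ | σ⟩
    · change (gpad_C Ct Co' e).arc (gpad_emb K e (Ct.C.nb (.inl a) s)) _ =
        (gpad_C Ct Co' e).arc _ (gpad_emb K e (Ct.C.nb (.inl a) s))
      have := Ct.arc_symm a s
      revert this
      rcases Ct.C.nb (.inl a) s with a' | b'
      · exact id
      · exact fun _ => rfl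
    · rfl
    · cases s <;> rfl
  isArc a s a' h := by
    rcases a with a | ⟨k, _ | σ⟩
    · obtain ⟨a'', h', rfl⟩ := gpad_emb_eq_inl h
      exact Ct.isArc a s a'' h'
    · cases h
      exact H.isArc k s
    · cases s
      · cases h
      · cases h
        exact (H.isArc k σ).symm
  box a s a' h := by
    rcases a with a | ⟨k, _ | σ⟩
    · obtain ⟨a'', h', rfl⟩ := gpad_emb_eq_inl h
      exact Ct.box a s a'' h'
    · cases h
      exact H.box k s
    · cases s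
      · cases h
      · cases h
        exact H.box k σ
  sep := H.sep
  mono a := by
    rcases a with a | ⟨k, _ | σ⟩
    · obtain ⟨i, s, hi, h⟩ := Ct.mono a
      exact ⟨i, s, hi, H.mono_emb h⟩
    · exact ⟨1, false, by decide, H.mono_mid k⟩
    · exact ⟨1, σ, by decide, H.mono_col k σ⟩
  zr b b' _ h := by
    rw [H.z_in, H.z_in]
    exact ⟨h, h⟩
  lb_nb a s a' h := by
    rcases a with a | ⟨k, _ | σ⟩
    · obtain ⟨a'', h', rfl⟩ := gpad_emb_eq_inl h
      exact Ct.lb_nb a s a'' h'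
    · cases h
      rfl
    · cases s
      · cases h
      · cases h
        rfl
  lb_bc b := by
    rcases gpad_cases e b with ⟨j, σ, rfl⟩ | ⟨k, σ, rfl⟩
    · rw [gpad_bc_inl, (H.hin j σ).2.2]
      exact Ct.lb_bc _
    · rw [gpad_bc_inr, (H.hout k σ).2.2]
      rfl
  nodupX := H.nodupX
  nodupY := H.nodupY hY
  memX a := by
    rcases a with a | ⟨k, _ | σ⟩
    · refine Iff.trans ?_ (Ct.memX a)
      simp [gpad_mem_cols]
    · simp [gpad_mem_cols, gpad_C]
    · simpa [gpad_mem_cols, gpad_C] using H.mem k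
  memY a := by
    rcases a with a | ⟨k, _ | σ⟩
    · refine Iff.trans ?_ (Ct.memY a)
      simp [hY]
    · simpa [gpad_C] using H.mem k
    · simp [gpad_C]
  sortX := H.sortX
  sortY := gpad_sortY Co' e _ hY h₁ h₂
  subX := H.subX

variable {Y₁ Y₂ : List I} {hY : Ct.Yb = Y₁ ++ Y₂} {h₁ : ∀ a ∈ Y₁, Ct.C.pt (.inl a) 1 ≤ 0}
  {h₂ : ∀ a ∈ Y₂, 0 ≤ Ct.C.pt (.inl a) 1}

theorem gpad_H.vert (H : gpad_H Ct Co' e x z o L R) (h : Ct.Vert) : (H.ct hY h₁ h₂).Vert := by
  intro b p hp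
  change p ∈ (gpad_C Ct Co' e).star (.inl (gpad_bc Ct e b)) at hp
  rcases gpad_cases e b with ⟨j, σ, rfl⟩ | ⟨k, σ, rfl⟩
  · rw [gpad_bc_inl] at hp
    rw [(H.hin j σ).1]
    exact h _ p ((H.star_emb (.inl _)).subset hp)
  · rw [gpad_bc_inr] at hp
    rw [(H.hout k σ).1]
    exact (H.star_line k _ hp).1

theorem gpad_H.pic (H : gpad_H Ct Co' e x z o L R) : (H.ct hY h₁ h₂).pic =
    Ct.pic ∪ {y | ∃ k, y.1 = o k ∧ y.2 0 = x k ∧ y.2 2 = z k} := by
  ext y
  constructor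
  · rintro ⟨a | ⟨k, u⟩, hp, hl⟩
    · exact .inl ⟨a, (H.star_emb (.inl a)).subset hp, hl⟩
    · exact .inr ⟨k, hl, H.star_line k u hp⟩
  · rintro (⟨a, hp, hl⟩ | ⟨k, hl, hp⟩)
    · exact ⟨.inl a, (H.star_emb (.inl a)).superset hp, hl⟩
    · rcases le_total 0 (y.2 1) with h | h
      · refine ⟨.inr (k, some true), (gpad_star_col Ct Co' e k true).superset
          ⟨y.2 1, h, gpad_line_inj (x k) (z k) (H.cl_line k true univ ⟨_, trivial, rfl⟩) hp ?_⟩, hl⟩
        simp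
      · refine ⟨.inr (k, some false), (gpad_star_col Ct Co' e k false).superset
          ⟨-y.2 1, neg_nonneg.2 h,
            gpad_line_inj (x k) (z k) (H.cl_line k false univ ⟨_, trivial, rfl⟩) hp ?_⟩, hl⟩
        simp

theorem gpad_idx {α β : Type} [DecidableEq α] [DecidableEq β] {f : α → β} {l : List α}
    {l' : List β} (hn : l.Nodup) (hn' : l'.Nodup) (hs : (l.map f).Sublist l') {u v : α}
    (hu : u ∈ l) (hv : v ∈ l) : l.idxOf u < l.idxOf v ↔ l'.idxOf (f u) < l'.idxOf (f v) := by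
  have key : ∀ u v, v ∈ l → l.idxOf u < l.idxOf v → l'.idxOf (f u) < l'.idxOf (f v) := by
    intro u v hv h
    obtain ⟨A, B, rfl⟩ := List.append_of_mem hv
    have h1 : List.Sublist [u, v] (A ++ v :: B) :=
      (List.singleton_sublist.2 ((WC.idx_lt_iff hn).1 h)).append
        (List.singleton_sublist.2 List.mem_cons_self)
    exact WC.idx_lt_of_sublist hn' ((h1.map f).trans hs)
  refine ⟨key u v hv, fun h => ?_⟩
  rcases lt_trichotomy (l.idxOf u) (l.idxOf v) with h' | h' | h'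
  · exact h'
  · rw [(List.idxOf_inj hu).1 h'] at h
    exact absurd h (lt_irrefl _)
  · exact absurd (key v u hu h') h.not_gt

theorem gpad_nodup_rz (Ct : Content Co I) : Ct.rz.Y.Nodup := by
  refine List.nodup_append.2 ⟨List.nodup_append.2 ⟨List.nodup_ofFn_ofInjective fun _ _ h => ?_,
    Ct.nodupY.map Sum.inl_injective, fun u hu v hv h => ?_⟩,
    List.nodup_ofFn_ofInjective fun _ _ h => ?_, fun u hu v hv h => ?_⟩
  · simpa using h
  · obtain ⟨k, rfl⟩ := List.mem_ofFn.1 hu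
    obtain ⟨a, -, rfl⟩ := List.mem_map.1 hv
    cases h
  · simpa using h
  · obtain ⟨k', rfl⟩ := List.mem_ofFn.1 hv
    rcases List.mem_append.1 hu with hu | hu
    · obtain ⟨k, rfl⟩ := List.mem_ofFn.1 hu
      simp at h
    · obtain ⟨a, -, rfl⟩ := List.mem_map.1 hu
      cases h

theorem gpad_mem_rz (Ct : Content Co I) {v : I ⊕ Fin m × Bool} (h : Ct.C.col v = false) :
    v ∈ Ct.rz.Y := by
  rcases v with a | ⟨k, _ | _⟩
  · exact List.mem_append_left _ (List.mem_append_right _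
      (List.mem_map_of_mem ((Ct.memY a).2 h)))
  · exact List.mem_append_left _ (List.mem_append_left _ (List.mem_ofFn.2 ⟨k, rfl⟩))
  · exact List.mem_append_right _ (List.mem_ofFn.2 ⟨k, rfl⟩)

theorem gpad_H.sub_ofFn (H : gpad_H Ct Co' e x z o L R) {β : Type} (f : Fin n → β) :
    (List.ofFn fun j => f (e (.inl j))).Sublist (List.ofFn f) := by
  rw [List.ofFn_eq_map, List.ofFn_eq_map, H.fr, List.map_append, List.map_append, List.map_map,
    List.map_map]
  exact (List.sublist_append_right _ _).trans (List.sublist_append_left _ _)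

theorem gpad_H.sub_rz (H : gpad_H Ct Co' e x z o L R) :
    (Ct.rz.Y.map (gpad_emb K e)).Sublist (H.ct hY h₁ h₂).rz.Y := by
  simp only [Content.rz, List.map_append, List.map_ofFn]
  refine ((H.sub_ofFn fun i => Sum.inr (i, false)).append ?_).append
    (H.sub_ofFn fun i => Sum.inr (i, true))
  have : (Ct.Yb.map Sum.inl).Sublist (H.ct hY h₁ h₂).Yb := by
    rw [hY, List.map_append]
    exact (List.sublist_append_left _ _).append_right _
  have := this.map (Sum.inl : _ → (I ⊕ K × Option Bool) ⊕ Fin n × Bool)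
  rw [List.map_map] at this ⊢
  exact this

theorem gpad_H.dl_emb (H : gpad_H Ct Co' e x z o L R) (u : I ⊕ Fin m × Bool) (v v') :
    (H.ct hY h₁ h₂).grid.dl (gpad_emb K e u) v' = Ct.grid.dl u v := by
  rcases u with a | ⟨j, σ⟩
  · rfl
  · exact congrArg Nm.mk (H.hin j σ).2.2

variable [DecidableEq I]

theorem gpad_lt_lo (Ct : Content Co I) (k : Fin m) {a : I} (ha : a ∈ Ct.Yb) :
    Ct.rz.ltY (.inr (k, false)) (.inl a) := by
  refine WC.idx_lt_of_sublist (gpad_nodup_rz Ct) (.trans ?_ (List.sublist_append_left _ _))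
  exact List.Sublist.append (l₁ := [_]) (List.singleton_sublist.2 (List.mem_ofFn.2 ⟨k, rfl⟩))
    (List.singleton_sublist.2 (List.mem_map_of_mem ha))

theorem gpad_lt_hi (Ct : Content Co I) (k : Fin m) {a : I} (ha : a ∈ Ct.Yb) :
    Ct.rz.ltY (.inl a) (.inr (k, true)) :=
  WC.idx_lt_of_sublist (gpad_nodup_rz Ct)
    ((List.singleton_sublist.2 (List.mem_append_right _ (List.mem_map_of_mem ha))).append
      (List.singleton_sublist.2 (List.mem_ofFn.2 ⟨k, rfl⟩)))

theorem gpad_lt_in (Ct : Content Co I) {a a' : I} (h : List.Sublist [a, a'] Ct.Yb) :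
    Ct.rz.ltY (.inl a) (.inl a') :=
  WC.idx_lt_of_sublist (gpad_nodup_rz Ct) (((h.map Sum.inl).trans
    (List.sublist_append_right _ _)).trans (List.sublist_append_left _ _))

theorem gpad_asymm {N : Type} [DecidableEq N] {R : Rz N} {a b : N} (h : R.ltY a b) :
    ¬ R.ltY b a := Nat.lt_asymm h

theorem gpad_cell_fin {N α : Type} [DecidableEq N] {G : Grid N α} (R : Rz N) {r v : N}
    (h : G.nb v false ≠ r) (h' : G.nb v true = r) : G.cell R r v =
      some (if R.ltY r (G.nb v false) then .fin (G.dl r v) true else .fin (G.dl v r) false) := by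
  unfold Grid.cell
  rw [if_neg h, if_pos h']

theorem gpad_count {N α : Type} [DecidableEq N] (G : Grid N α) (R : Rz N) (r : N)
    {P : Cell α → Bool} (hP : ∀ a u, P (.fin a u) = true) (hP' : ∀ a u, P (.thru a u) = false)
    (Xs : List N) : ((Xs.filterMap (G.cell R r)).filter P).length =
      (Xs.filter fun v => G.nb v false = r ∨ G.nb v true = r).length := by
  induction Xs with
  | nil => rfl
  | cons v Xs ih =>
    by_cases h : G.nb v false = r ∨ G.nb v true = r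
    · have : ∃ a u, G.cell R r v = some (.fin a u) := by
        unfold Grid.cell
        split_ifs <;> first | exact ⟨_, _, rfl⟩ | (exfalso; tauto)
      obtain ⟨a, u, hc⟩ := this
      rw [List.filterMap_cons_some hc, List.filter_cons_of_pos (hP a u),
        List.filter_cons_of_pos (by simpa using h), List.length_cons, List.length_cons, ih]
    · rw [List.filter_cons_of_neg (by simpa using h), ← ih]
      rcases hc : G.cell R r v with _ | c
      · rw [List.filterMap_cons_none hc]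
      · obtain ⟨a, u, rfl⟩ := Grid.WEvs_cell_thru (fun s hs => h (by cases s <;> simp [hs])) hc
        rw [List.filterMap_cons_some hc, List.filter_cons_of_neg (by simp [hP'])]

theorem gpad_two (Ct : Content Co I) {r : I} (hr : r ∈ Ct.Yb) {P : Cell (Nm ι) → Bool}
    (hP : ∀ a u, P (.fin a u) = true) (hP' : ∀ a u, P (.thru a u) = false) :
    (((Ct.Xb.map Sum.inl).filterMap (Ct.grid.cell Ct.rz (.inl r))).filter P).length = 2 := by
  rw [gpad_count _ _ _ hP hP']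
  refine List.Perm.length_eq (l₂ := [Ct.C.nb (.inl r) false, Ct.C.nb (.inl r) true]) ?_
  refine (List.perm_ext_iff_of_nodup ((Ct.nodupX.map Sum.inl_injective).filter _)
    (by simpa using Ct.nb_ne r)).2 fun v => ?_
  rw [List.mem_filter, decide_eq_true_eq, ← Bool.exists_bool (p := fun s => Ct.grid.nb v s = _),
    List.mem_pair, ← Bool.exists_bool (p := fun s => v = Ct.C.nb (.inl r) s)]
  constructor
  · rintro ⟨hv, s, hs⟩
    obtain ⟨a, -, rfl⟩ := List.mem_map.1 hv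
    obtain ⟨s', hs'⟩ := Ct.adj_symm a s
    exact ⟨s', hs'.symm.trans (congrArg (Ct.C.nb · s') hs)⟩
  · rintro ⟨s, rfl⟩
    refine ⟨?_, Ct.adj_symm r s⟩
    have hc := Ct.col_nb r s
    rw [(Ct.memY r).1 hr] at hc
    revert hc
    rcases Ct.C.nb (.inl r) s with a | b
    · exact fun hc => List.mem_map_of_mem ((Ct.memX a).2 hc)
    · rw [Ct.col_inr]
      exact fun hc => absurd hc (by decide)

variable [DecidableEq K]

theorem gpad_H.cell_old (H : gpad_H Ct Co' e x z o L R) {a r : I} (ha : a ∈ Ct.Xb)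
    (hr : r ∈ Ct.Yb) :
    (H.ct hY h₁ h₂).grid.cell (H.ct hY h₁ h₂).rz (.inl (.inl r)) (.inl (.inl a)) =
      Ct.grid.cell Ct.rz (.inl r) (.inl a) := by
  have hm : ∀ s, Ct.C.nb (.inl a) s ∈ Ct.rz.Y := fun s =>
    gpad_mem_rz Ct (by rw [Ct.col_nb, (Ct.memX a).1 ha]; rfl)
  have hm' : Sum.inl r ∈ Ct.rz.Y := gpad_mem_rz Ct ((Ct.memY r).1 hr)
  exact cell_congr₀ (fun s => ((gpad_emb_inj e).eq_iff (b := .inl r)).symm)
    (fun s => gpad_idx (gpad_nodup_rz _) (gpad_nodup_rz _) H.sub_rz (hm s) hm')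
    (fun s => gpad_idx (gpad_nodup_rz _) (gpad_nodup_rz _) H.sub_rz hm' (hm s))
    (fun _ => ⟨rfl, rfl⟩) (fun s => H.dl_emb _ _ _) Iff.rfl

theorem gpad_H.cell_new (H : gpad_H Ct Co' e x z o L R) {r : I} (hr : r ∈ Ct.Yb) (k : K) :
    ∃ u, [Sum.inl (Sum.inr (k, some false)), Sum.inl (Sum.inr (k, some true))].filterMap
      ((H.ct hY h₁ h₂).grid.cell (H.ct hY h₁ h₂).rz (.inl (.inl r))) = [.thru ⟨o k⟩ u] := by
  have hm : Sum.inl r ∈ (H.ct hY h₁ h₂).Yb := ((H.ct hY h₁ h₂).memY _).2 ((Ct.memY r).1 hr)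
  have lo := gpad_lt_lo (H.ct hY h₁ h₂) (e (.inr k)) hm
  have hi := gpad_lt_hi (H.ct hY h₁ h₂) (e (.inr k)) hm
  have hk : Sum.inr (k, none) ∈ (L ++ R).map fun k => (.inr (k, none) : I ⊕ K × Option Bool) :=
    List.mem_map_of_mem (H.mem k)
  have hne : ∀ σ s, (H.ct hY h₁ h₂).grid.nb (.inl (.inr (k, some σ))) s ≠ .inl (.inl r) := by
    intro σ s h
    cases s <;> cases h
  rcases List.mem_append.1 (hY ▸ hr) with h | h
  · have lt := gpad_lt_in (H.ct hY h₁ h₂) (((List.singleton_sublist.2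
      (List.mem_map_of_mem h)).append (List.singleton_sublist.2 hk)).trans
      (List.sublist_append_left _ _))
    rw [List.filterMap_cons_some (Grid.evb_cell_thru _ false (hne false) lo lt),
      List.filterMap_cons_none (Grid.evb_cell_none _ (hne true) fun s hs => ?_)]
    · exact ⟨_, congrArg (fun a => [Cell.thru (Nm.mk a) _]) (H.hout k false).2.2⟩
    · cases s
      · exact gpad_asymm hi hs.1
      · exact gpad_asymm lt hs.1
  · have lt := gpad_lt_in (H.ct hY h₁ h₂) ((List.singleton_sublist.2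
      (List.mem_append_right _ hk)).append (List.singleton_sublist.2 (List.mem_map_of_mem h)))
    rw [List.filterMap_cons_none (Grid.evb_cell_none _ (hne false) fun s hs => ?_),
      List.filterMap_cons_some (Grid.evb_cell_thru _ true (hne true) lt hi)]
    · exact ⟨_, rfl⟩
    · cases s
      · exact gpad_asymm lt hs.2
      · exact gpad_asymm lo hs.2

theorem gpad_H.cells_new (H : gpad_H Ct Co' e x z o L R) {r : I} (hr : r ∈ Ct.Yb) (M : List K) :
    ∃ T : List (Nm ι × Bool), ((gpad_cols I M).map Sum.inl).filterMap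
      ((H.ct hY h₁ h₂).grid.cell (H.ct hY h₁ h₂).rz (.inl (.inl r))) =
        T.map (fun x => Cell.thru x.1 x.2) ∧ T.map Prod.fst = M.map fun k => ⟨o k⟩ := by
  induction M with
  | nil => exact ⟨[], rfl, rfl⟩
  | cons k M ih =>
    obtain ⟨T, hT, hT'⟩ := ih
    obtain ⟨u, hu⟩ := H.cell_new (hY := hY) (h₁ := h₁) (h₂ := h₂) hr k
    refine ⟨(⟨o k⟩, u) :: T, ?_, congrArg _ hT'⟩
    rw [gpad_cols, List.flatMap_cons, List.map_append, List.filterMap_append]
    exact congrArg₂ (· ++ ·) hu hT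

theorem gpad_H.row_old (H : gpad_H Ct Co' e x z o L R) {r : I} (hr : r ∈ Ct.Yb) :
    evOf (((H.ct hY h₁ h₂).Xb.map Sum.inl).filterMap
      ((H.ct hY h₁ h₂).grid.cell (H.ct hY h₁ h₂).rz (.inl (.inl r)))) =
      (evOf ((Ct.Xb.map Sum.inl).filterMap (Ct.grid.cell Ct.rz (.inl r)))).map
        (pad (L.map fun k => ⟨o k⟩) (R.map fun k => ⟨o k⟩)) := by
  obtain ⟨T, hT, hT'⟩ := H.cells_new (hY := hY) (h₁ := h₁) (h₂ := h₂) hr L
  obtain ⟨U, hU, hU'⟩ := H.cells_new (hY := hY) (h₁ := h₁) (h₂ := h₂) hr R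
  rw [← hT', ← hU', ← evOf_pad T U _ (gpad_two Ct hr (fun _ _ => rfl) fun _ _ => rfl), ← hT, ← hU]
  change evOf (((gpad_cols I L ++ Ct.Xb.map Sum.inl ++ gpad_cols I R).map Sum.inl).filterMap _) = _
  rw [List.map_append, List.map_append, List.filterMap_append, List.filterMap_append]
  congr 3
  rw [List.map_map, List.filterMap_map, List.filterMap_map]
  exact List.filterMap_congr fun a ha => H.cell_old ha hr

omit [DecidableEq I] [DecidableEq K] in
theorem gpad_cols_split {k : K} {M : List K} (hk : k ∈ M) :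
    ∃ A B, gpad_cols I M = A ++ .inr (k, some false) :: .inr (k, some true) :: B := by
  obtain ⟨A, B, rfl⟩ := List.append_of_mem hk
  exact ⟨gpad_cols I A, gpad_cols I B, by simp [gpad_cols]⟩

theorem gpad_H.row_new (H : gpad_H Ct Co' e x z o L R) (k : K) :
    evOf (((H.ct hY h₁ h₂).Xb.map Sum.inl).filterMap
      ((H.ct hY h₁ h₂).grid.cell (H.ct hY h₁ h₂).rz (.inl (.inr (k, none))))) = [] := by
  have hm : Sum.inr (k, none) ∈ (H.ct hY h₁ h₂).Yb := ((H.ct hY h₁ h₂).memY _).2 rfl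
  have lo := gpad_lt_lo (H.ct hY h₁ h₂) (e (.inr k)) hm
  have hi := gpad_lt_hi (H.ct hY h₁ h₂) (e (.inr k)) hm
  obtain ⟨A, B, hX⟩ : ∃ A B, (H.ct hY h₁ h₂).Xb =
      A ++ .inr (k, some false) :: .inr (k, some true) :: B := by
    change ∃ A B, gpad_cols I L ++ Ct.Xb.map Sum.inl ++ gpad_cols I R = _
    rcases List.mem_append.1 (H.mem k) with h | h <;> obtain ⟨A, B, h⟩ := gpad_cols_split (I := I) h
    · exact ⟨A, B ++ (Ct.Xb.map Sum.inl ++ gpad_cols I R), by simp [h]⟩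
    · exact ⟨gpad_cols I L ++ Ct.Xb.map Sum.inl ++ A, B, by simp [h]⟩
  have hn := hX ▸ (H.ct hY h₁ h₂).nodupX
  have hA : ∀ v ∈ A.map Sum.inl, ∀ s, (H.ct hY h₁ h₂).grid.nb v s ≠ .inl (.inr (k, none)) := by
    intro v hv s hs
    obtain ⟨u, hu, rfl⟩ := List.mem_map.1 hv
    obtain ⟨s', hs'⟩ := (H.ct hY h₁ h₂).adj_symm u s
    rw [show (H.ct hY h₁ h₂).C.nb (.inl u) s = _ from hs] at hs'
    refine (List.nodup_append.1 hn).2.2 u hu _ ?_ (Sum.inl_injective hs').symm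
    cases s' <;> simp
  obtain ⟨T, hT⟩ := Grid.WEvs_cells_thru (R := (H.ct hY h₁ h₂).rz) hA
  have c₁ := (gpad_cell_fin (G := (H.ct hY h₁ h₂).grid) (v := .inl (.inr (k, some false))) _
    (fun h => by cases h) rfl).trans (congrArg some (if_neg (gpad_asymm lo)))
  have c₂ := (gpad_cell_fin (G := (H.ct hY h₁ h₂).grid) (v := .inl (.inr (k, some true))) _
    (fun h => by cases h) rfl).trans (congrArg some (if_pos hi))
  rw [hX, List.map_append, List.filterMap_append, hT, List.map_cons, List.map_cons,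
    List.filterMap_cons_some (by exact c₁), List.filterMap_cons_some (by exact c₂)]
  refine Grid.evb_evLeft_nil _ _ (fun c hc => ?_) _ _ false []
  obtain ⟨y, -, rfl⟩ := List.mem_map.1 hc
  exact ⟨_, _, rfl⟩

theorem gpad_H.word (H : gpad_H Ct Co' e x z o L R) : (H.ct hY h₁ h₂).word =
    Ct.word.map (pad (L.map fun k => ⟨o k⟩) (R.map fun k => ⟨o k⟩)) := by
  have key : ∀ Y : List I, (∀ r ∈ Y, r ∈ Ct.Yb) →
      (H.ct hY h₁ h₂).grid.evs (H.ct hY h₁ h₂).rz ((H.ct hY h₁ h₂).Xb.map Sum.inl)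
        ((Y.map Sum.inl).map Sum.inl) =
      (Ct.grid.evs Ct.rz (Ct.Xb.map Sum.inl) (Y.map Sum.inl)).map
        (pad (L.map fun k => ⟨o k⟩) (R.map fun k => ⟨o k⟩)) := by
    intro Y hYs
    simp only [Grid.evs, List.map_flatMap, List.flatMap_map]
    exact List.flatMap_congr fun r hr => H.row_old (hYs r hr)
  have mid : (H.ct hY h₁ h₂).grid.evs (H.ct hY h₁ h₂).rz ((H.ct hY h₁ h₂).Xb.map Sum.inl)
      (((L ++ R).map fun k => .inr (k, none)).map Sum.inl) = [] := by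
    simp only [Grid.evs, List.flatMap_map]
    exact List.flatMap_eq_nil_iff.2 fun k _ => H.row_new k
  change (H.ct hY h₁ h₂).grid.evs _ _ ((Y₁.map Sum.inl ++
    (L ++ R).map (fun k => Sum.inr (k, none)) ++ Y₂.map Sum.inl).map Sum.inl) = _
  rw [List.map_append, List.map_append (l₁ := Y₁.map _), Grid.evs_append, Grid.evs_append, mid,
    key Y₁ fun r hr => hY ▸ List.mem_append_left _ hr,
    key Y₂ fun r hr => hY ▸ List.mem_append_right _ hr, List.append_nil, ← List.map_append,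
    ← Grid.evs_append, ← List.map_append, ← hY]
  rfl

omit [DecidableEq I] in
theorem gpad_split (f : I → ℝ) {Y : List I} (h : Y.Pairwise fun a b => f a ≤ f b) :
    ∃ Y₁ Y₂, Y = Y₁ ++ Y₂ ∧ (∀ a ∈ Y₁, f a ≤ 0) ∧ ∀ a ∈ Y₂, 0 ≤ f a := by
  induction Y with
  | nil => exact ⟨[], [], rfl, by simp, by simp⟩
  | cons a Y ih =>
    obtain ⟨ha, hY⟩ := List.pairwise_cons.1 h
    rcases le_total (f a) 0 with h0 | h0
    · obtain ⟨Y₁, Y₂, rfl, k₁, k₂⟩ := ih hY
      exact ⟨a :: Y₁, Y₂, rfl, List.forall_mem_cons.2 ⟨h0, k₁⟩, k₂⟩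
    · exact ⟨[], a :: Y, rfl, by simp,
        List.forall_mem_cons.2 ⟨h0, fun b hb => h0.trans (ha b hb)⟩⟩

/-- the old and the new strands among all strands -/
def gpad_equiv (a : ℕ) (ha : a + m ≤ n) :
    Fin m ⊕ {k : Fin n // (k : ℕ) < a ∨ a + m ≤ k} ≃ Fin n where
  toFun := Sum.elim (fun j => ⟨a + j, by omega⟩) Subtype.val
  invFun k := if h : (k : ℕ) < a ∨ a + m ≤ k then .inr ⟨k, h⟩ else .inl ⟨k - a, by omega⟩
  left_inv := by
    rintro (j | ⟨k, hk⟩)
    · have := j.2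
      dsimp only [Sum.elim_inl]
      rw [dif_neg (by omega)]
      simp
    · exact dif_pos hk
  right_inv k := by
    dsimp only
    split_ifs with h
    · rfl
    · exact Fin.ext (by dsimp only [Sum.elim_inl]; omega)

/-- the new strands on the left -/
def gpad_L (a : ℕ) (ha : a + m ≤ n) : List {k : Fin n // (k : ℕ) < a ∨ a + m ≤ k} :=
  List.ofFn fun i : Fin a => ⟨⟨i, by omega⟩, .inl i.2⟩

/-- the new strands on the right -/
def gpad_R (a : ℕ) (ha : a + m ≤ n) : List {k : Fin n // (k : ℕ) < a ∨ a + m ≤ k} :=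
  List.ofFn fun i : Fin (n - (a + m)) => ⟨⟨a + m + i, by omega⟩, .inr (Nat.le_add_right _ _)⟩

theorem gpad_fr (a : ℕ) (ha : a + m ≤ n) :
    List.finRange n = (gpad_L a ha).map (fun k => gpad_equiv a ha (.inr k)) ++
      (List.finRange m).map (fun j => gpad_equiv a ha (.inl j)) ++
      (gpad_R a ha).map fun k => gpad_equiv a ha (.inr k) := by
  refine List.ext_getElem (by simp [gpad_L, gpad_R]; omega) fun i h₁ h₂ => Fin.ext ?_
  simp only [gpad_L, gpad_R, gpad_equiv, List.getElem_append, List.getElem_map, List.getElem_ofFn,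
    List.getElem_finRange, List.length_append, List.length_map, List.length_ofFn,
    List.length_finRange]
  split_ifs <;> simp <;> omega

theorem gpad_mem_L {a : ℕ} {ha : a + m ≤ n} {k} : k ∈ gpad_L a ha ↔ (k.1 : ℕ) < a := by
  rw [gpad_L, List.mem_ofFn]
  exact ⟨by rintro ⟨i, rfl⟩; exact i.2, fun h => ⟨⟨_, h⟩, rfl⟩⟩

theorem gpad_mem_R {a : ℕ} {ha : a + m ≤ n} {k} : k ∈ gpad_R a ha ↔ a + m ≤ (k.1 : ℕ) := by
  rw [gpad_R, List.mem_ofFn]
  refine ⟨by rintro ⟨i, rfl⟩; exact Nat.le_add_right _ _, fun h => ⟨⟨k.1 - (a + m), by omega⟩, ?_⟩⟩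
  exact Subtype.ext (Fin.ext (by dsimp only; omega))

end Aux

variable {ι : Type} {n m : ℕ}

theorem HasPic.pad {Co : Collar m ι} {Co' : Collar n ι} {A : Pic ι} {w : List (Sl (Nm ι))}
    (h : HasPic Co A w) (a : ℕ) (ha : a + m ≤ n) (x z : Fin n → ℝ) (o : Fin n → Option ι)
    (hin : ∀ (k : Fin m) σ, Co'.ξ (⟨a + k, by omega⟩, σ) = Co.ξ (k, σ) ∧
      Co'.ζ (⟨a + k, by omega⟩, σ) = Co.ζ (k, σ) ∧ Co'.lab (⟨a + k, by omega⟩, σ) = Co.lab (k, σ))
    (hout : ∀ (k : Fin n) σ, (k : ℕ) < a ∨ a + m ≤ k →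
      (∀ y, Co'.ξ (k, σ) y = x k) ∧ Co'.ζ (k, σ) = z k ∧ Co'.lab (k, σ) = o k)
    (hpl : ∀ y ∈ A, y.2 2 = 0)
    (hl : ∀ k : Fin n, (k : ℕ) < a → (∀ y ∈ A, x k < y.2 0) ∨ (z k < 0 ∧ ∀ y ∈ A, x k ≤ y.2 0))
    (hr : ∀ k : Fin n, a + m ≤ k → ∀ y ∈ A, y.2 0 < x k)
    (hx : ∀ k k' : Fin n, k < k' → (k : ℕ) < a ∨ a + m ≤ k → (k' : ℕ) < a ∨ a + m ≤ k' →
      x k < x k') :
    HasPic Co' (A ∪ {y | ∃ k : Fin n, ((k : ℕ) < a ∨ a + m ≤ k) ∧ y.1 = o k ∧ y.2 0 = x k ∧
      y.2 2 = z k}) (w.map (B.pad ((List.ofFn fun k => (⟨o k⟩ : Nm ι)).take a)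
        ((List.ofFn fun k => (⟨o k⟩ : Nm ι)).drop (a + m)))) := by
  obtain ⟨I, _, _, Ct, hV, rfl, rfl⟩ := h
  have hm : ∀ c, ∀ p ∈ Ct.C.star (.inl c), (Ct.lb c, p) ∈ Ct.pic := fun c p hp => ⟨c, hp, rfl⟩
  have fr := gpad_fr a ha
  have H : gpad_H Ct Co' (gpad_equiv a ha) (fun k => x k.1) (fun k => z k.1) (fun k => o k.1)
      (gpad_L a ha) (gpad_R a ha) := by
    refine ⟨hin, fun k σ => hout k.1 σ k.2, fun c p hp => hpl _ (hm c p hp), fun k hk => ?_,
      fun k hk c p hp => hr k.1 (gpad_mem_R.1 hk) _ (hm c p hp), fun k => ?_, ?_, fr⟩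
    · exact (hl k.1 (gpad_mem_L.1 hk)).imp (fun h c p hp => h _ (hm c p hp))
        fun h => ⟨h.1, fun c p hp => h.2 _ (hm c p hp)⟩
    · exact List.mem_append.2 (k.2.imp gpad_mem_L.2 gpad_mem_R.2)
    · have hs : ((gpad_L a ha ++ gpad_R a ha).map Subtype.val).Sublist (List.finRange n) := by
        rw [fr, List.map_append]
        exact (List.sublist_append_left _ _).append_right _
      exact (List.pairwise_map.1 ((List.pairwise_lt_finRange n).sublist hs)).imp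
        fun {k k'} h => hx k.1 k'.1 h k.2 k'.2
  obtain ⟨Y₁, Y₂, hY, h₁, h₂⟩ := gpad_split _ Ct.sortY
  refine ⟨_, inferInstance, inferInstance, H.ct hY h₁ h₂, H.vert hV, ?_, ?_⟩
  · rw [H.pic]
    congr 1
    ext y
    exact ⟨fun ⟨k, hk⟩ => ⟨k.1, k.2, hk⟩, fun ⟨k, hk, hk'⟩ => ⟨⟨k, hk⟩, hk'⟩⟩
  · rw [H.word, List.ofFn_eq_map, fr, List.map_append, List.map_append,
      List.drop_left' (by simp [gpad_L]), List.append_assoc, List.take_left' (by simp [gpad_L]),
      List.map_map, List.map_map]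
    rfl

end Pool.Agent.P.MP_ac4909_gt.B
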