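import Pool.Agent.P.MP_ac4909_gt.B.GB_Col
import Pool.Agent.P.MP_ac4909_gt.B.GB_Geq

/-! Layer G, blocks: fine subdivisions adapted to the collars. -/

namespace Pool.Agent.P.MP_ac4909_gt.B

open scoped ContDiff
open Set Filter Topology

variable {ι I : Type} {n : ℕ} {Co : Collar n ι}

theorem gpre_abs (Co : Collar n ι) (b : Fin n × Bool) {t : ℝ} (ht : 0 < t) :
    |Co.cl b t 1| = t := by
  rw [Collar.cl_one]
  split_ifs
  · rw [one_mul, abs_of_pos ht]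
  · rw [neg_one_mul, abs_neg, abs_of_pos ht]

theorem gpre_mid (Ct : Content Co I) {T : LS ι} (hi : Std (7 / 8) T Ct.pic) (y : Option ι × E3)
    (hy : y.2 ∈ Qb (7 / 8)) (hy' : ∃ i, 3 / 4 < |y.2 i|) :
    y ∈ picOf T ↔ ∃ b t, 3 / 4 < t ∧ y.2 = Co.cl b t ∧ y.1 = Co.lab b := by
  rw [← Ct.pic_out hy']
  exact (hi.mem_iff (x := (y.1, y.2, ez)) hy).trans (and_iff_left rfl)

theorem gpre_pic {κ : Type} {L : Lk κ} {ℓ : κ → Option ι} (hν : ∀ c t, L.ν c t = ez)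
    (y : Option ι × E3) : y ∈ picOf (L.set ℓ) ↔ ∃ c t, y.1 = ℓ c ∧ y.2 = L.γ c t := by
  constructor
  · rintro ⟨c, t, h⟩
    exact ⟨c, t, congrArg Prod.fst h, congrArg (fun x => x.2.1) h⟩
  · rintro ⟨c, t, h1, h2⟩
    exact ⟨c, t, by rw [h1, h2, hν]⟩

/-- near a point of a collar the link runs along the collar -/
theorem gpre_local {κ : Type} {γ : κ → ℝ → E3} (hγ : IsU γ)
    (hm : ∀ c t, γ c t ∈ Qb (7 / 8) → 3 / 4 < |γ c t 1| →
      ∃ b u, 3 / 4 < u ∧ γ c t = Co.cl b u) {b : Fin n × Bool} {c : κ} {τ y ε h : ℝ}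
    (hy : 3 / 4 < y) (hy' : y < 7 / 8) (hε : 0 < ε) (hh : 0 < h) (e : γ c τ = Co.cl b y) :
    ∃ σ l, (σ ≠ τ ∧ |σ - τ| < h) ∧ y < l ∧ l < y + ε ∧ γ c σ = Co.cl b l := by
  have hy0 : 0 < y := by linarith
  have hc : Continuous (γ c) := (hγ.smooth c).continuous
  have hci : ∀ i, Continuous fun t => |γ c t i| := fun i => by fun_prop
  have h0 : |γ c τ 1| = y := by rw [e, gpre_abs Co b hy0]
  have h1 : ∀ᶠ t in 𝓝 τ, γ c t ∈ Qb (7 / 8) := by
    have hq : γ c τ ∈ Qb (7 / 8) := by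
      rw [e]
      exact Collar.cl_mem_Qb hy0 hy' (by norm_num) (by linarith)
    exact eventually_all.2 fun i => (hci i).continuousAt.eventually_lt continuousAt_const (hq i)
  have h2 : ∀ᶠ t in 𝓝 τ, 3 / 4 < |γ c t 1| :=
    continuousAt_const.eventually_lt (hci 1).continuousAt (by rw [h0]; exact hy)
  have h3 : ∀ᶠ t in 𝓝 τ, |γ c t 1| < y + ε :=
    (hci 1).continuousAt.eventually_lt continuousAt_const (by rw [h0]; linarith)
  obtain ⟨r, hr, hb⟩ := Metric.eventually_nhds_iff.1 (h1.and (h2.and h3))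
  obtain ⟨δ, hδ, hδr, hδh, hδ1⟩ : ∃ δ : ℝ, 0 < δ ∧ δ < r ∧ δ < h ∧ δ < 1 / 2 :=
    ⟨min r (min h (1 / 2)) / 2, by positivity,
      (half_lt_self (by positivity)).trans_le (min_le_left _ _),
      (half_lt_self (by positivity)).trans_le ((min_le_right _ _).trans (min_le_left _ _)),
      (half_lt_self (by positivity)).trans_le ((min_le_right _ _).trans (min_le_right _ _))⟩
  have hb' : ∀ t ∈ Icc (τ - δ) (τ + δ),
      γ c t ∈ Qb (7 / 8) ∧ 3 / 4 < |γ c t 1| ∧ |γ c t 1| < y + ε := fun t ht =>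
    hb (by rw [Real.dist_eq, abs_lt]; constructor <;> linarith [ht.1, ht.2])
  have hτ : τ ∈ Icc (τ - δ) (τ + δ) := ⟨by linarith, by linarith⟩
  have hA : γ c '' Icc (τ - δ) (τ + δ) ⊆ Co.cl b '' Icc (3 / 4) 1 := by
    refine Collar.subset_cl (isPreconnected_Icc.image _ hc.continuousOn) (by norm_num) ?_
      (mem_image_of_mem _ hτ) ⟨y, ⟨hy.le, by linarith⟩, e.symm⟩
    rintro _ ⟨t, ht, rfl⟩
    obtain ⟨b', u, hu, eu⟩ := hm c t (hb' t ht).1 (hb' t ht).2.1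
    refine mem_iUnion.2 ⟨b', u, ⟨hu.le, ?_⟩, eu.symm⟩
    have h4 := (hb' t ht).1 1
    rw [eu, gpre_abs Co b' (by linarith)] at h4
    linarith
  have hl : ∀ t ∈ Icc (τ - δ) (τ + δ), γ c t = Co.cl b |γ c t 1| := fun t ht => by
    obtain ⟨u, hu, eu⟩ := hA (mem_image_of_mem _ ht)
    rw [← eu, gpre_abs Co b (by linarith [hu.1])]
  have hinj : InjOn (fun t => |γ c t 1|) (Icc (τ - δ) (τ + δ)) := fun t ht t' ht' h4 => by
    refine hγ.injOn c (by linarith) ht ht' ?_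
    have h5 : |γ c t 1| = |γ c t' 1| := h4
    rw [hl t ht, hl t' ht', h5]
  have hp : τ + δ ∈ Icc (τ - δ) (τ + δ) := ⟨by linarith, le_rfl⟩
  have hn : τ - δ ∈ Icc (τ - δ) (τ + δ) := ⟨le_rfl, by linarith⟩
  rcases ContinuousOn.strictMonoOn_of_injOn_Icc' (by linarith) (hci 1).continuousOn hinj with
    h4 | h4
  · refine ⟨τ + δ, |γ c (τ + δ) 1|, ⟨by linarith, ?_⟩, ?_, (hb' _ hp).2.2, hl _ hp⟩
    · rwa [add_sub_cancel_left, abs_of_pos hδ]
    · rw [← h0]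
      exact h4 hτ hp (by linarith)
  · refine ⟨τ - δ, |γ c (τ - δ) 1|, ⟨by linarith, ?_⟩, ?_, (hb' _ hn).2.2, hl _ hn⟩
    · rwa [sub_sub_cancel_left, abs_neg, abs_of_pos hδ]
    · rw [← h0]
      exact h4 hn hτ (by linarith)

/-- the component that carries a star -/
theorem gpre_comp {κ N : Type} [Fintype κ] {γ : κ → ℝ → E3} (hγ : IsU γ) {C : Conf N}
    (hC : C.Valid true) (hs : C.supp = trace γ) :
    ∃ cm : N → κ, (∀ a, C.star a ⊆ range (γ (cm a))) ∧ ∀ a s, cm (C.nb a s) = cm a := by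
  have h1 : ∀ a, ∃ c, C.pt a ∈ range (γ c) := fun a =>
    mem_iUnion.1 (show C.pt a ∈ trace γ from hs ▸ C.star_subset_supp a (hC.pt_mem_star a))
  choose cm hcm using h1
  have h2 : ∀ a, C.star a ⊆ range (γ (cm a)) := fun a p hp => by
    obtain ⟨s, hp⟩ := Conf.GCArc_star hp
    obtain ⟨c, t, t', -, -, hA, he⟩ := (hC.isArc a s).exists_param hγ
      (hs ▸ (C.arc_subset_star a s).trans (C.star_subset_supp a))
    obtain ⟨u, hu⟩ := hcm a
    have hc : cm a = c := by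
      rcases he with he | he
      · exact (hγ.inj _ _ _ _ (hu.trans he.1)).1
      · exact (hγ.inj _ _ _ _ (hu.trans he.1)).1
    rw [hc]
    rw [hA] at hp
    exact image_subset_range _ _ hp
  refine ⟨cm, h2, fun a s => ?_⟩
  obtain ⟨u, hu⟩ := hcm (C.nb a s)
  obtain ⟨v, hv⟩ := h2 a (hC.nb_mem_star a s)
  exact (hγ.inj _ _ _ _ (hu.trans hv.symm)).1

theorem exists_pre (Ct : Content Co I) {T : LS ι} (hT : IsLL T) (hv : Vertical T)
    (hi : Std (7 / 8) T Ct.pic) : ∃ d > 0, ∀ᶠ η in 𝓝[>] (0 : ℝ),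
      ∃ (N : Type) (_ : Fintype N), Nonempty (Pre Co (picOf T) d η N) := by
  obtain ⟨κ, _, L, ℓ, hL, rfl⟩ := hT
  have hν : ∀ c t, L.ν c t = ez := fun c t => hv _ ⟨c, t, rfl⟩
  have hmid := gpre_mid Ct hi
  obtain ⟨d, hd, hf⟩ := exists_fine hL.isU (hL.nonVert hν)
  refine ⟨d, hd, ?_⟩
  obtain ⟨g, hg, hgn⟩ : ∃ g : ℝ, 0 < g ∧ (n + 1) * g = 1 / 16 :=
    ⟨1 / (16 * (n + 1)), by positivity, by field_simp⟩
  have hn0 : (0 : ℝ) ≤ n := Nat.cast_nonneg n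
  let tb : Fin n × Bool → ℝ := fun b => 3 / 4 + ((b.1 : ℕ) + 1) * g
  have tb1 : ∀ b, 3 / 4 + g ≤ tb b := fun b => by
    have h0 : (0 : ℝ) ≤ (b.1 : ℕ) := Nat.cast_nonneg _
    simp only [tb]
    nlinarith
  have tb2 : ∀ b, tb b + g ≤ 13 / 16 := fun b => by
    have h0 : ((b.1 : ℕ) : ℝ) + 1 ≤ n := by exact_mod_cast b.1.2
    simp only [tb]
    nlinarith
  have tb3 : ∀ (k k' : Fin n) (σ : Bool), k < k' → tb (k, σ) + g ≤ tb (k', σ) :=
    fun k k' σ hk => by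
      have h0 : ((k : ℕ) : ℝ) + 1 ≤ (k' : ℕ) := by exact_mod_cast hk
      simp only [tb]
      nlinarith
  have hpt : ∀ b, ∃ c t, L.γ c t = Co.cl b (tb b) := fun b => by
    have h0 : 0 < tb b := by linarith [tb1 b]
    have h1 := (hmid (Co.lab b, Co.cl b (tb b))
      (Collar.cl_mem_Qb h0 (by linarith [tb2 b]) (by norm_num) (by linarith [tb2 b]))
      ⟨1, by rw [gpre_abs Co b h0]; linarith [tb1 b]⟩).2 ⟨b, tb b, by linarith [tb1 b], rfl, rfl⟩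
    obtain ⟨c, t, -, h2⟩ := (gpre_pic hν _).1 h1
    exact ⟨c, t, h2.symm⟩
  choose cp τ hτ using hpt
  have hinj : Function.Injective fun b => L.γ (cp b) (τ b) := fun b b' h => by
    have h1 : L.γ (cp b) (τ b) = L.γ (cp b') (τ b') := h
    rw [hτ, hτ] at h1
    exact (Collar.cl_eq (by linarith [tb1 b]) h1 (by linarith [tb1 b'])).1
  have hm : ∀ c t, L.γ c t ∈ Qb (7 / 8) → 3 / 4 < |L.γ c t 1| →
      ∃ b u, 3 / 4 < u ∧ L.γ c t = Co.cl b u := fun c t h1 h2 => by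
    obtain ⟨b, u, h3, h4, -⟩ := (hmid (ℓ c, L.γ c t) h1 ⟨1, h2⟩).1
      ((gpre_pic hν _).2 ⟨c, t, rfl, rfl⟩)
    exact ⟨b, u, h3, h4⟩
  filter_upwards [Ioo_mem_nhdsGT (show (0 : ℝ) < g / 8 by positivity)] with η hη
  obtain ⟨h, hh, hσ⟩ := hf (Fin n × Bool) cp τ hinj η hη.1
  have hloc := fun b => gpre_local hL.isU hm (b := b) (c := cp b) (τ := τ b) (y := tb b)
    (ε := g / 2) (h := h) (by linarith [tb1 b]) (by linarith [tb2 b]) (by positivity) hh (hτ b)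
  choose σ lv h1 h2 h3 h4 using hloc
  obtain ⟨N, hN, C, bc, ρ, hC, hs, hmar, hdiam, hb⟩ := hσ σ h1
  obtain ⟨cm, hcm, hcm'⟩ := gpre_comp hL.isU hC hs
  refine ⟨N, hN, ⟨{
    C := C
    bc := bc
    ρ := ρ
    tb := tb
    lv := lv
    lb := fun a => ℓ (cm a)
    valid := hC
    margin := hmar
    diam := hdiam
    η_lt := by nlinarith [hη.2]
    tb_gt := fun b => by linarith [hη.2, tb1 b]
    tb_lt := h2
    lv_lt := fun b => by linarith [hη.2, tb2 b, h3 b]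
    stagger := fun k k' σ hk => by linarith [tb3 k k' σ hk, h3 (k, σ), h2 (k', σ)]
    col_bc := fun b => (hb b).1
    nb_bc := fun b => (hb b).2.1
    pt_bc := fun b => (hb b).2.2.1.trans (hτ b)
    pt_ρ := fun b => (hb b).2.2.2.1.trans (h4 b)
    lb_nb := fun a s => congrArg ℓ (hcm' a s)
    out := fun y => ?_
    mid := hmid }⟩⟩
  rw [gpre_pic hν]
  constructor
  · rintro ⟨c, t, e1, e2⟩
    have h5 : y.2 ∈ C.supp := by
      rw [hs, e2]
      exact mem_iUnion.2 ⟨c, t, rfl⟩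
    obtain ⟨a, ha⟩ := mem_iUnion.1 h5
    obtain ⟨u, hu⟩ := hcm a ha
    exact ⟨a, ha, e1.trans (congrArg ℓ (hL.isU.inj _ _ _ _ (hu.trans e2)).1.symm)⟩
  · rintro ⟨a, ha, e1⟩
    obtain ⟨u, hu⟩ := hcm a ha
    exact ⟨cm a, u, e1, hu.symm⟩

end Pool.Agent.P.MP_ac4909_gt.B
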