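import Pool.Agent.P.MP_ac4909_gt.B.GB_Sln
import Pool.Agent.P.MP_ac4909_gt.B.GB_Hom

/-! Layer G, blocks: the handle slide. -/

namespace Pool.Agent.P.MP_ac4909_gt.B

open scoped ContDiff
open Set Filter Topology

variable {ι κ P : Type} [DecidableEq ι]

/-- the closed cube -/
def gred_K (r : ℝ) : Set E3 := {p | ∀ j, |p j| ≤ r}

theorem gred_K_closed (r : ℝ) : IsClosed (gred_K r) := by
  have : gred_K r = ⋂ j, {p : E3 | |p j| ≤ r} := by
    ext p; simp [gred_K]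
  rw [this]
  exact isClosed_iInter fun j => isClosed_le (by fun_prop) continuous_const

theorem gred_Qb_open (r : ℝ) : IsOpen (Qb r) := by
  have : Qb r = ⋂ j, {p : E3 | |p j| < r} := by
    ext p; simp [Qb]
  rw [this]
  exact isOpen_iInter_of_finite fun j => isOpen_lt (by fun_prop) continuous_const

theorem gred_K_sub {r r' : ℝ} (h : r < r') : gred_K r ⊆ Qb r' :=
  fun _ hp j => (hp j).trans_lt h

theorem gred_Qb_sub {r r' : ℝ} (h : r ≤ r') : Qb r ⊆ gred_K r' :=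
  fun _ hp j => (hp j).le.trans h

theorem gred_Qb_mono {r r' : ℝ} (h : r ≤ r') : Qb r ⊆ Qb r' :=
  fun _ hp j => (hp j).trans_le h

theorem gred_dist {p q : E3} (hp : p ∉ gred_K (59 / 64)) (hq : q ∈ gred_K (29 / 32)) :
    1 / 64 ≤ dist p q := by
  simp only [gred_K, mem_ofPred_eq, not_forall, not_le] at hp
  obtain ⟨j, hj⟩ := hp
  have h₁ := hq j
  have h₂ : dist (p j) (q j) ≤ dist p q := PiLp.dist_apply_le p q j
  rw [Real.dist_eq] at h₂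
  have h₃ := abs_sub_abs_le_abs_sub (p j) (q j)
  linarith

/-- outside the small cube the cap and the cup are straight -/
theorem gred_shell {hx hy : ℝ → ℝ} {a u₁ u₀ u₂ b : ℝ}
    (hc : CapData (-1 / 4) (1 / 4) hx hy a u₁ u₀ u₂ b) {p : E3} (h₁ : p ∈ Qb (9 / 8))
    (h₂ : p ∉ Qb (3 / 4)) :
    p ∈ capCup hx hy a b ↔ (p 0 = -1 / 4 ∨ p 0 = 1 / 4) ∧ p 2 = 0 := by
  have key : |p 0| ≤ 1 / 4 → p 2 = 0 → 3 / 4 ≤ |p 1| := by
    intro h0 h2
    by_contra hlt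
    apply h₂
    intro j
    fin_cases j
    · exact h0.trans_lt (by norm_num)
    · exact not_le.1 hlt
    · show |p 2| < 3 / 4
      rw [h2]; norm_num
  rw [← hc.capPic_iff h₁]
  constructor
  · intro hp
    obtain ⟨h0, h0', h2⟩ := hc.capPic_mem hp
    exact (hc.capPic_out (key (abs_le.2 ⟨by linarith, h0'⟩) h2)).1 hp
  · intro hp
    refine (hc.capPic_out (key ?_ hp.2)).2 hp
    rcases hp.1 with h0 | h0 <;> rw [h0] <;> norm_num [abs_le]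

omit [DecidableEq ι] in
theorem gred_mem_strands {i : ι} {o : Option ι} {p : E3} :
    (o, p) ∈ strands [((-1 / 4 : ℝ), some i), (1 / 4, none)] ↔
      (o = some i ∧ p 0 = -1 / 4 ∧ p 2 = 0) ∨ (o = none ∧ p 0 = 1 / 4 ∧ p 2 = 0) := by
  simp only [strands, mem_ofPred_eq, List.mem_cons, List.not_mem_nil, or_false,
    exists_eq_or_imp, exists_eq_left]

omit [DecidableEq ι] in
theorem gred_mem_nn {A : Set E3} {o : Option ι} {p : E3} :
    (o, p) ∈ (nn A : Pic ι) ↔ o = none ∧ p ∈ A := by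
  simp [nn]

theorem gred_unlab_ne (i : ι) (o : Option ι) : unlab i o ≠ some i := by
  unfold unlab
  split_ifs with h
  · simp
  · exact h

theorem gred_unlab_some (i : ι) : unlab i (some i) = none := by simp [unlab]

theorem gred_unlab_none (i : ι) : unlab i (none : Option ι) = none := by simp [unlab]

/-- in the shell the cap and the cup are the unlabelled strands -/
theorem gred_shell' {hx hy : ℝ → ℝ} {a u₁ u₀ u₂ b : ℝ}
    (hc : CapData (-1 / 4) (1 / 4) hx hy a u₁ u₀ u₂ b) (i : ι) {o : Option ι} {p : E3}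
    (h₁ : p ∈ Qb (9 / 8)) (h₂ : p ∉ Qb (3 / 4)) :
    (o, p) ∈ (nn (capCup hx hy a b) : Pic ι) ↔
      ∃ o', (o', p) ∈ strands [((-1 / 4 : ℝ), some i), (1 / 4, none)] ∧ unlab i o' = o := by
  rw [gred_mem_nn, gred_shell hc h₁ h₂]
  constructor
  · rintro ⟨rfl, h0 | h0, h2⟩
    · exact ⟨some i, gred_mem_strands.2 (Or.inl ⟨rfl, h0, h2⟩), gred_unlab_some i⟩
    · exact ⟨none, gred_mem_strands.2 (Or.inr ⟨rfl, h0, h2⟩), gred_unlab_none i⟩
  · rintro ⟨o', ho', rfl⟩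
    rcases gred_mem_strands.1 ho' with ⟨rfl, h0, h2⟩ | ⟨rfl, h0, h2⟩
    · exact ⟨gred_unlab_some i, Or.inl h0, h2⟩
    · exact ⟨gred_unlab_none i, Or.inr h0, h2⟩

theorem gred_mem_unlab {i : ι} {S : LS ι} {x : Option ι × E3 × E3} :
    x ∈ (fun x : Option ι × E3 × E3 => (unlab i x.1, x.2)) '' S ↔
      ∃ o, (o, x.2) ∈ S ∧ unlab i o = x.1 := by
  constructor
  · rintro ⟨y, hy, rfl⟩
    exact ⟨y.1, hy, rfl⟩
  · rintro ⟨o, ho, h⟩
    exact ⟨(o, x.2), ho, Prod.ext h rfl⟩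

theorem gred_pull_ne {L : Lk κ} {c₀ : κ} {δ : ℝ} {ℓ : κ → Option ι} {i : ι}
    {x : Option ι × E3 × E3} (hx : x.1 ≠ some i) :
    x ∈ (L.pull c₀ δ).set (fun c => c.elim (some i) fun c => unlab i (ℓ c)) ↔
      ∃ o, (o, x.2) ∈ L.set ℓ ∧ unlab i o = x.1 := by
  rw [Lk.pull_set, mem_union, gred_mem_unlab]
  refine or_iff_left ?_
  rintro ⟨t, rfl⟩
  exact hx rfl

theorem gred_pull_eq {L : Lk κ} {c₀ : κ} {δ : ℝ} {ℓ : κ → Option ι} {i : ι}
    {x : Option ι × E3 × E3} (hx : x.1 = some i) :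
    x ∈ (L.pull c₀ δ).set (fun c => c.elim (some i) fun c => unlab i (ℓ c)) ↔
      x ∈ range fun t => (some i, L.γ c₀ t - δ • L.ν c₀ t, L.ν c₀ t) := by
  rw [Lk.pull_set, mem_union, gred_mem_unlab]
  refine or_iff_right ?_
  rintro ⟨o, -, ho⟩
  exact gred_unlab_ne i o (ho.trans hx)

omit [DecidableEq ι] in
theorem gred_sep_iff {S S' : LS ι} {q : Option ι × E3 × E3 → Prop}
    (h : {x ∈ S | q x} = {x ∈ S' | q x}) {x : Option ι × E3 × E3} (hx : q x) :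
    x ∈ S ↔ x ∈ S' := by
  have := Set.ext_iff.1 h x
  simp only [mem_ofPred_eq] at this
  exact ⟨fun h => (this.1 ⟨h, hx⟩).1, fun h => (this.2 ⟨h, hx⟩).1⟩

/-- the slide in standard position -/
theorem slide_std [Fintype κ] (E : EvSys ι P) {L : Lk κ} (hL : L.IsLink) (hnv : NonVert L.γ)
    {ℓ : κ → Option ι} (hS : IsPL (L.set ℓ)) {i : ι} {c₀ : κ} (hℓ : ∀ c, ℓ c = some i ↔ c = c₀)
    (h : Std (15 / 16) (L.set ℓ) (strands [(-1 / 4, some i), (1 / 4, none)]))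
    {hx hy : ℝ → ℝ} {a u₁ u₀ u₂ b : ℝ} (hc : CapData (-1 / 4) (1 / 4) hx hy a u₁ u₀ u₂ b) :
    ∀ᶠ δ in 𝓝[>] (0 : ℝ),
      ∃ (D₁ D₂ : List (Sl (Option (Arc ι)))) (l r : List (Option (Arc ι))) (x : Arc ι),
        Run [] D₁ (l ++ some x :: none :: r) ∧ Run [] (D₁ ++ D₂) [] ∧
        IsFramedLink (erase (D₁ ++ D₂)) ∧
        (∀ p, zv E (L.set ℓ) p = E.ev p ((D₁ ++ D₂).map (Sl.map fg))) ∧
        ∀ S', IsLL S' → ({x ∈ S' | x.1 = some i} =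
            range fun t => (some i, L.γ c₀ t - δ • L.ν c₀ t, L.ν c₀ t)) →
          SOut (15 / 16) {x ∈ S' | x.1 ≠ some i} =
            (fun x => (unlab i x.1, x.2)) '' SOut (15 / 16) (L.set ℓ) →
          Std (15 / 16) {x ∈ S' | x.1 ≠ some i} (nn (capCup hx hy a b)) →
          ∀ p, zv E S' p = E.ev p ((slideW D₁ D₂ l r x).map (Sl.map fg)) := by
  have hν : ∀ c t, L.γ c t ∈ Qb (15 / 16) → L.ν c t = ez := fun c t ht =>
    ((h.mem_iff (x := (ℓ c, L.γ c t, L.ν c t)) ht).1 ⟨c, t, rfl⟩).2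
  obtain ⟨L', hch, hν'⟩ := exists_norm hL hnv (gred_K_closed (59 / 64))
    (gred_Qb_open (15 / 16)) (gred_K_sub (by norm_num)) hν
  have hg : GEq (L.set ℓ) (L'.set ℓ) := hch.gEq ℓ
  have hT : IsPL (L'.set ℓ) := hg.isPL hS
  have hvT : Vertical (L'.set ℓ) := by
    rintro x ⟨c, t, rfl⟩
    exact hν' c t
  have hsT : Std (29 / 32) (L'.set ℓ) (strands [(-1 / 4, some i), (1 / 4, none)]) := by
    have h₁ : Std (29 / 32) (L.set ℓ) (strands [(-1 / 4, some i), (1 / 4, none)]) :=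
      h.mono (by norm_num)
    unfold Std at h₁ ⊢
    rw [← h₁]
    ext x
    simp only [mem_ofPred_eq]
    refine and_congr_left fun hx => ?_
    exact gred_sep_iff (hch.inside ℓ) (gred_Qb_sub (by norm_num) hx)
  filter_upwards [slide_norm E hT hvT hsT hc,
    hch.pull (Cl' := gred_K (29 / 32)) (d := 1 / 64) (by norm_num)
      (fun p hp q hq => gred_dist hp hq) c₀] with δ hδ hpl
  obtain ⟨D₁, D₂, l, r, x, h₁, h₂, h₃, h₄, h₅⟩ := hδ
  refine ⟨D₁, D₂, l, r, x, h₁, h₂, h₃, fun p => by rw [hg.zv_eq E, h₄], ?_⟩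
  intro S' hS' hi ho hs p
  set ℓ' : Option κ → Option ι := fun c => c.elim (some i) fun c => unlab i (ℓ c) with hℓ'
  have hA : ∀ y : Option ι × E3 × E3, y.1 = some i ∨ y.2.1 ∉ Qb (7 / 8) →
      (y ∈ S' ↔ y ∈ (L.pull c₀ δ).set ℓ') := by
    intro y hy
    by_cases hy₁ : y.1 = some i
    · rw [gred_pull_eq hy₁, ← hi]
      simp only [mem_ofPred_eq, hy₁, and_true]
    have hy₂ : y.2.1 ∉ Qb (7 / 8) := hy.resolve_left hy₁
    rw [gred_pull_ne hy₁]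
    by_cases hy₃ : y.2.1 ∈ Qb (15 / 16)
    · have e₁ := hs.mem_iff hy₃
      simp only [mem_ofPred_eq, ne_eq, hy₁, not_false_eq_true, and_true] at e₁
      rw [e₁, gred_shell' hc i (gred_Qb_mono (by norm_num) hy₃)
        fun h' => hy₂ (gred_Qb_mono (by norm_num) h')]
      constructor
      · rintro ⟨⟨o, ho₁, ho₂⟩, hz⟩
        exact ⟨o, (h.mem_iff (x := (o, y.2)) hy₃).2 ⟨ho₁, hz⟩, ho₂⟩
      · rintro ⟨o, ho₁, ho₂⟩
        obtain ⟨e₂, e₃⟩ := (h.mem_iff (x := (o, y.2)) hy₃).1 ho₁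
        exact ⟨⟨o, e₂, ho₂⟩, e₃⟩
    · have e₁ := Set.ext_iff.1 ho y
      rw [gred_mem_unlab] at e₁
      simp only [SOut, mem_ofPred_eq, ne_eq, hy₁, hy₃, not_false_eq_true, and_true] at e₁
      exact e₁
  obtain ⟨T', hT₁, hT₂, hT₃⟩ := hpl.transfer (gred_K_closed _) ℓ' hS' (by
    ext y
    simp only [mem_ofPred_eq]
    refine and_congr_left fun hy => hA y (Or.inr fun h' => hy ?_)
    exact gred_Qb_sub (by norm_num) h')
  have hB : ∀ y : Option ι × E3 × E3, y.1 = some i ∨ y.2.1 ∉ Qb (7 / 8) →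
      (y ∈ T' ↔ y ∈ (L'.pull c₀ δ).set ℓ') := by
    intro y hy
    by_cases hy₁ : y.2.1 ∈ gred_K (29 / 32)
    · rw [gred_sep_iff hT₂ hy₁, hA y hy]
      exact (gred_sep_iff (hpl.inside ℓ') hy₁).symm
    · exact gred_sep_iff hT₃ hy₁
  rw [hT₁.zv_eq E]
  refine h₅ T' (hT₁.isLL hS') ?_ ?_ ?_ p
  · ext y
    simp only [mem_ofPred_eq]
    constructor
    · rintro ⟨hy, hy₁⟩
      obtain ⟨t, rfl⟩ := (gred_pull_eq hy₁).1 ((hB y (Or.inl hy₁)).1 hy)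
      refine ⟨(some i, L'.γ c₀ t, L'.ν c₀ t), ⟨⟨c₀, t, ?_⟩, rfl⟩, ?_⟩
      · rw [(hℓ c₀).2 rfl]
      · simp only [hν']
    · rintro ⟨y, ⟨⟨c, t, rfl⟩, hy₁⟩, rfl⟩
      have hc₀ : c = c₀ := (hℓ c).1 hy₁
      subst hc₀
      refine ⟨(hB (ℓ c, L'.γ c t - δ • ez, L'.ν c t) (Or.inl hy₁)).2
        ((gred_pull_eq (x := (ℓ c, L'.γ c t - δ • ez, L'.ν c t)) hy₁).2 ⟨t, ?_⟩), hy₁⟩
      simp only [hν']
      exact Prod.ext hy₁.symm rfl
  · ext y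
    rw [gred_mem_unlab]
    simp only [SOut, mem_ofPred_eq]
    constructor
    · rintro ⟨⟨hy, hy₁⟩, hy₂⟩
      obtain ⟨o, e₁, e₂⟩ := (gred_pull_ne hy₁).1 ((hB y (Or.inr hy₂)).1 hy)
      exact ⟨o, ⟨e₁, hy₂⟩, e₂⟩
    · rintro ⟨o, ⟨e₁, hy₂⟩, e₂⟩
      have hy₁ : y.1 ≠ some i := e₂ ▸ gred_unlab_ne i o
      exact ⟨⟨(hB y (Or.inr hy₂)).2 ((gred_pull_ne hy₁).2 ⟨o, e₁, e₂⟩), hy₁⟩, hy₂⟩
  · have e₁ : Std (7 / 8) {x ∈ S' | x.1 ≠ some i} (nn (capCup hx hy a b)) :=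
      hs.mono (by norm_num)
    unfold Std at e₁ ⊢
    rw [← e₁]
    ext y
    simp only [mem_ofPred_eq]
    refine and_congr_left fun hy => and_congr_left fun _ => ?_
    exact gred_sep_iff hT₂ (gred_Qb_sub (by norm_num) hy)

theorem gred_deriv {k : E3 → E3} (hk : ContDiff ℝ ∞ k) {G : ℝ × ℝ → E3} {η : ℝ}
    (hG : ContDiffOn ℝ ∞ G (univ ×ˢ Ioo (-η) η)) (t : ℝ) {r : ℝ} (hr : r ∈ Ioo (-η) η) :
    deriv (fun r => k (G (t, r))) r = fderiv ℝ k (G (t, r)) (deriv (fun r => G (t, r)) r) := by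
  have h₁ : DifferentiableAt ℝ G (t, r) :=
    (hG.contDiffAt ((isOpen_univ.prod isOpen_Ioo).mem_nhds ⟨trivial, hr⟩)).differentiableAt
      (by simp)
  have h₂ : DifferentiableAt ℝ (fun r => G (t, r)) r :=
    h₁.comp r ((differentiableAt_const t).prodMk differentiableAt_id)
  exact ((hk.differentiable (by simp) _).hasFDerivAt.comp_hasDerivAt r h₂.hasDerivAt).deriv

theorem gred_unlab_gpush (k : E3 → E3) (i : ι) (S : LS ι) :
    (fun x : Option ι × E3 × E3 => (unlab i x.1, x.2)) '' gpush k S =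
      gpush k ((fun x : Option ι × E3 × E3 => (unlab i x.1, x.2)) '' S) := by
  simp only [gpush, image_image]

theorem bl_slide' (E : EvSys ι P) {ψ : E3 → E3} (hψ : PosOn ψ (Qb (9 / 8))) {S : LS ι}
    (hS : IsPL S) {i : ι}
    (h : GIns ψ S (strands [(-1 / 4, some i), (1 / 4, none)])) {G : ℝ × ℝ → E3} {η : ℝ}
    (hη : 0 < η) (hG : ContDiffOn ℝ ∞ G (univ ×ˢ Ioo (-η) η))
    (hper : ∀ t r, G (t + 1, r) = G (t, r))
    (hinj : ∀ s t, G (s, 0) = G (t, 0) → ∃ k : ℤ, t = s + k)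
    (himm : ∀ t, deriv (fun u => G (u, 0)) t ≠ 0)
    (hGi : {x ∈ S | x.1 = some i} =
      range fun t => (some i, G (t, 0), deriv (fun r => G (t, r)) 0))
    (hv : ∀ t, ∀ p ∈ Qb (9 / 8), G (t, 0) = ψ p → ∀ r, |r| < η → p + r • ez ∈ Qb (9 / 8) →
      G (t, r) = ψ (p + r • ez))
    {hx hy : ℝ → ℝ} {a u₁ u₀ u₂ b : ℝ} (hc : CapData (-1 / 4) (1 / 4) hx hy a u₁ u₀ u₂ b) :
    ∃ (D₁ D₂ : List (Sl (Option (Arc ι)))) (l r : List (Option (Arc ι))) (x : Arc ι),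
      Run [] D₁ (l ++ some x :: none :: r) ∧ Run [] (D₁ ++ D₂) [] ∧
      IsFramedLink (erase (D₁ ++ D₂)) ∧
      (∀ p, zv E S p = E.ev p ((D₁ ++ D₂).map (Sl.map fg))) ∧
      ∀ᶠ δ in 𝓝[>] (0 : ℝ), ∀ S', IsLL S' →
        ({x ∈ S' | x.1 = some i} =
          range fun t => (some i, G (t, -δ), deriv (fun r => G (t, r)) (-δ))) →
        GOut ψ {x ∈ S' | x.1 ≠ some i} =
          (fun x => (if x.1 = some i then none else x.1, x.2)) '' GOut ψ S →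
        GIns ψ {x ∈ S' | x.1 ≠ some i} (nn (capCup hx hy a b)) →
        ∀ p, zv E S' p = E.ev p ((slideW D₁ D₂ l r x).map (Sl.map fg)) := by
  obtain ⟨κ, _, L, ℓ, c₀, hL, rfl, hℓ, hγ, hν⟩ := exists_param hS hη hG hper hinj himm hGi
  obtain ⟨k, hk, hkψ, hnv⟩ := exists_std hψ hL h
  have hL₂ : (L.push k).IsLink := hL.gpush hk.smooth hk.inj hk.det_ne
  have hset : (L.push k).set ℓ = gpush k (L.set ℓ) := L.push_set k ℓ
  have hg : GEq (L.set ℓ) ((L.push k).set ℓ) := hset ▸ hk.geq ι _ hS.isLL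
  have hstd : Std (15 / 16) ((L.push k).set ℓ) (strands [(-1 / 4, some i), (1 / 4, none)]) :=
    hset ▸ GIns.std hψ hk (by norm_num) hkψ h
  have h0 : (0 : ℝ) ∈ Ioo (-η) η := ⟨by linarith, hη⟩
  have hγ₂ : ∀ t, (L.push k).γ c₀ t = k (G (t, 0)) := fun t => by
    simp only [Lk.push, hγ]
  have hν₂ : ∀ t, (L.push k).ν c₀ t = deriv (fun r => k (G (t, r))) 0 := fun t => by
    rw [gred_deriv hk.smooth hG t h0]
    simp only [Lk.push, hγ, hν]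
  have hhom := slide_homotopy (G := fun q => k (G q)) (c₀ := c₀) hL₂ hη
    (hk.smooth.comp_contDiffOn hG) (fun t r => by rw [hper]) hγ₂ hν₂
    (fun t ht => by
      rw [← hγ₂] at ht ⊢
      obtain ⟨e₁, e₂⟩ := (hstd.mem_iff
        (x := (ℓ c₀, (L.push k).γ c₀ t, (L.push k).ν c₀ t)) ht).1 ⟨c₀, t, rfl⟩
      refine ⟨?_, e₂⟩
      rcases gred_mem_strands.1 e₁ with e | e
      · exact e.2.2
      · exact e.2.2)
    (fun t ht r hr hq => by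
      have e₁ : G (t, 0) = ψ (k (G (t, 0))) := hk.inj (hkψ _ ht).symm
      have e₂ := hv t _ (gred_Qb_mono (by norm_num) ht) e₁ r hr
        (gred_Qb_mono (by norm_num) hq)
      show k (G (t, r)) = k (G (t, 0)) + r • ez
      rw [e₂, hkψ _ hq]) (some i)
  have hsm : ∀ᶠ δ in 𝓝[>] (0 : ℝ), δ ∈ Ioo 0 η := Ioo_mem_nhdsGT hη
  obtain ⟨δ₁, ⟨⟨D₁, D₂, l, r, x, h₁, h₂, h₃, h₄, h₅⟩, hh⟩, hδ₁⟩ :=
    (((slide_std E hL₂ hnv (hg.isPL hS) hℓ hstd hc).and hhom).and hsm).exists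
  refine ⟨D₁, D₂, l, r, x, h₁, h₂, h₃, fun p => by rw [hg.zv_eq E, h₄], ?_⟩
  filter_upwards [Ioc_mem_nhdsGT hδ₁.1] with δ hδ S' hS' hi ho hs p
  have hδη : -δ ∈ Ioo (-η) η := ⟨by linarith [hδ.2, hδ₁.2], by linarith [hδ.1]⟩
  set S₀ : LS ι := gpush k {x ∈ S' | x.1 ≠ some i} with hS₀
  have hS₀L : IsLL S₀ := hk.isLL (hS'.sep_label fun o => o ≠ some i)
  have hlab : ∀ y ∈ S₀, y.1 ≠ some i := by
    rintro y ⟨z, hz, rfl⟩
    exact hz.2
  have hstd₀ : Std (15 / 16) S₀ (nn (capCup hx hy a b)) :=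
    GIns.std hψ hk (by norm_num) hkψ hs
  have hout₀ : SOut (15 / 16) S₀ =
      (fun x => (unlab i x.1, x.2)) '' SOut (15 / 16) ((L.push k).set ℓ) := by
    rw [hset, GIns.sOut hψ hk (by norm_num) hkψ hs, GIns.sOut hψ hk (by norm_num) hkψ h,
      gred_unlab_gpush, image_union, ho]
    congr 2
    ext y
    constructor
    · rintro ⟨⟨o, q⟩, ⟨e₁, e₂, e₃⟩, rfl⟩
      obtain ⟨o', e₄, rfl⟩ := (gred_shell' hc i e₂
        fun h' => e₃ (gred_Qb_mono (by norm_num) h')).1 e₁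
      exact ⟨_, ⟨(o', q), ⟨e₄, e₂, e₃⟩, rfl⟩, rfl⟩
    · rintro ⟨_, ⟨⟨o, q⟩, ⟨e₁, e₂, e₃⟩, rfl⟩, rfl⟩
      exact ⟨(unlab i o, q), ⟨(gred_shell' hc i e₂
        fun h' => e₃ (gred_Qb_mono (by norm_num) h')).2 ⟨o, e₁, rfl⟩, e₂, e₃⟩, rfl⟩
  have htr : ∀ o q v, (o, q, v) ∈ (L.push k).set ℓ → q ∈ trace (L.push k).γ := by
    rintro o q v ⟨c, t, e⟩
    simp only [Prod.mk.injEq] at e
    exact mem_iUnion.2 ⟨c, t, e.2.1.symm⟩
  have hpos : ∀ y ∈ S₀, y.2.1 ∈ trace (L.push k).γ ∨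
      ((∀ j, |y.2.1 j| ≤ 3 / 4) ∧ y.2.1 2 = 0) := by
    intro y hy
    by_cases hy₁ : y.2.1 ∈ Qb (15 / 16)
    · obtain ⟨e₁, e₂⟩ := (hstd₀.mem_iff hy₁).1 hy
      have e₃ : y.2.1 ∈ Qb (9 / 8) := gred_Qb_mono (by norm_num) hy₁
      by_cases hy₂ : y.2.1 ∈ Qb (3 / 4)
      · exact Or.inr ⟨fun j => (hy₂ j).le,
          (hc.capPic_mem ((hc.capPic_iff e₃).2 (gred_mem_nn.1 e₁).2)).2.2⟩
      · obtain ⟨o, e₄, -⟩ := (gred_shell' hc i e₃ hy₂).1 e₁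
        exact Or.inl (htr o _ _ ((hstd.mem_iff (x := (o, y.2.1, ez)) hy₁).2 ⟨e₄, rfl⟩))
    · have e₁ : y ∈ SOut (15 / 16) S₀ := ⟨hy, hy₁⟩
      rw [hout₀, gred_mem_unlab] at e₁
      obtain ⟨o, e₂, -⟩ := e₁
      exact Or.inl (htr o _ _ e₂.1)
  have hiso := hh δ hδ S₀ hS₀L hpos
  have hsplit : gpush k S' = S₀ ∪ range fun t =>
      (some i, k (G (t, -δ)), deriv (fun r => k (G (t, r))) (-δ)) := by
    have e₁ : S' = {x ∈ S' | x.1 ≠ some i} ∪ {x ∈ S' | x.1 = some i} := by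
      ext y
      simp only [mem_union, mem_ofPred_eq]
      tauto
    have e₂ : gpush k S' = gpush k {x ∈ S' | x.1 ≠ some i} ∪ gpush k {x ∈ S' | x.1 = some i} := by
      unfold gpush
      rw [← image_union, ← e₁]
    rw [e₂, hi]
    congr 1
    unfold gpush
    rw [← range_comp]
    congr 1
    ext1 t
    simp only [Function.comp_apply, gred_deriv hk.smooth hG t hδη]
  have hg' : GEq S' (S₀ ∪ range fun t => (some i,
      (L.push k).γ c₀ t - δ₁ • (L.push k).ν c₀ t, (L.push k).ν c₀ t)) :=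
    (hk.geq ι S' hS').trans (hsplit ▸ hiso.gEq)
  have hne : {y ∈ S₀ ∪ range fun t => (some i,
      (L.push k).γ c₀ t - δ₁ • (L.push k).ν c₀ t, (L.push k).ν c₀ t) | y.1 ≠ some i} = S₀ := by
    ext y
    simp only [mem_ofPred_eq, mem_union]
    constructor
    · rintro ⟨e | ⟨t, rfl⟩, e'⟩
      · exact e
      · exact absurd rfl e'
    · exact fun e => ⟨Or.inl e, hlab y e⟩
  rw [hg'.zv_eq E]
  refine h₅ _ (hg'.isLL hS') ?_ ?_ ?_ p
  · ext y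
    simp only [mem_ofPred_eq, mem_union]
    constructor
    · rintro ⟨e | e, e'⟩
      · exact absurd e' (hlab y e)
      · exact e
    · rintro ⟨t, rfl⟩
      exact ⟨Or.inr ⟨t, rfl⟩, rfl⟩
  · rw [hne]; exact hout₀
  · rw [hne]; exact hstd₀

end Pool.Agent.P.MP_ac4909_gt.B
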