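import Pool.Agent.P.MP_ac4909_gt.B.GB_Geq

/-! Layer G, blocks: isotopies relative to a closed set. -/

namespace Pool.Agent.P.MP_ac4909_gt.B

open scoped ContDiff
open Set Filter Topology

variable {ι κ : Type} {Cl : Set E3} {L L' : Lk κ}

theorem GBRel_intγ {M : Lk κ} (hM : M.IsLink) (c : κ) (t : ℝ) (k : ℤ) :
    M.γ c (t + k) = M.γ c t := by
  simpa using (show Function.Periodic (M.γ c) 1 from hM.isU.per c).int_mul k t

theorem GBRel_intν {M : Lk κ} (hM : M.IsLink) (c : κ) (t : ℝ) (k : ℤ) :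
    M.ν c (t + k) = M.ν c t := by
  simpa using (show Function.Periodic (M.ν c) 1 from hM.per c).int_mul k t

/-- normal form: the family consists of links for all times and the moving points form a closed
set that misses `Cl` -/
theorem GBRel_norm [Fintype κ] (h : RelIso Cl L L') :
    ∃ (G : ℝ → Lk κ) (K : Set E3), SmoothFam G ∧ (∀ s, (G s).IsLink) ∧ G 0 = L ∧ G 1 = L' ∧
      IsClosed K ∧ (∀ p ∈ K, p ∉ Cl) ∧
      (∀ s c t, L.γ c t ∉ K → (G s).γ c t = L.γ c t ∧ (G s).ν c t = L.ν c t) ∧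
      ∀ s c t, (G s).γ c t ∈ Cl ↔ L.γ c t ∈ Cl := by
  obtain ⟨H, Mv, hs, hl, h0, h1, hc, hst, hout⟩ := h
  have hI : ∀ s : ℝ, Real.smoothTransition s ∈ Icc (0 : ℝ) 1 := fun s =>
    ⟨Real.smoothTransition.nonneg s, Real.smoothTransition.le_one s⟩
  have hz : (0 : ℝ) ∈ Icc (0 : ℝ) 1 := ⟨le_rfl, zero_le_one⟩
  have hL : L.IsLink := h0 ▸ hl 0 hz
  have hm : ContDiff ℝ ∞ fun p : ℝ × ℝ => (Real.smoothTransition p.1, p.2) :=
    (Real.smoothTransition.contDiff.comp contDiff_fst).prodMk contDiff_snd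
  refine ⟨fun s => H (Real.smoothTransition s),
    ⋃ c, L.γ c '' ({t | ∀ j : ℤ, t + j ∈ Mv c} ∩ Icc 0 1), fun c => ⟨(hs c).1.comp hm,
      (hs c).2.comp hm⟩, fun s => hl _ (hI s), by simpa using h0, by simpa using h1, ?_, ?_, ?_, ?_⟩
  · refine isClosed_iUnion_of_finite fun c => IsCompact.isClosed ?_
    refine (isCompact_Icc.inter_left ?_).image (hL.isU.smooth c).continuous
    rw [ofPred_forall]
    exact isClosed_iInter fun j => (hc c).preimage (continuous_id.add continuous_const)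
  · intro p hp
    obtain ⟨c, t, ⟨ht, -⟩, rfl⟩ := mem_iUnion.1 hp
    have := hout 0 hz c t (by simpa using ht 0)
    rwa [h0] at this
  · intro s c t ht
    have hj : ∃ j : ℤ, t + j ∉ Mv c := by
      by_contra hn
      push Not at hn
      refine ht (mem_iUnion.2 ⟨c, Int.fract t, ⟨fun j => ?_, Int.fract_nonneg t,
        (Int.fract_lt_one t).le⟩, ?_⟩)
      · have := hn (j - ⌊t⌋)
        rwa [show t + ((j - ⌊t⌋ : ℤ) : ℝ) = Int.fract t + j by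
          rw [Int.fract]; push_cast; ring] at this
      · rw [← GBRel_intγ hL c (Int.fract t) ⌊t⌋, Int.fract_add_floor]
    obtain ⟨j, hj⟩ := hj
    obtain ⟨a1, a2⟩ := hst _ (hI s) c _ hj
    rw [GBRel_intγ (hl _ (hI s)), GBRel_intγ hL] at a1
    rw [GBRel_intν (hl _ (hI s)), GBRel_intν hL] at a2
    exact ⟨a1, a2⟩
  · intro s c t
    by_cases ht : t ∈ Mv c
    · have := hout 0 hz c t ht
      rw [h0] at this
      exact iff_of_false (hout _ (hI s) c t ht) this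
    · rw [(hst _ (hI s) c t ht).1]

theorem GBRel_mem (h : RelIso Cl L L') (c : κ) (t : ℝ) : L'.γ c t ∈ Cl ↔ L.γ c t ∈ Cl := by
  obtain ⟨H, Mv, -, -, h0, h1, -, hst, hout⟩ := h
  by_cases ht : t ∈ Mv c
  · have a := hout 0 ⟨le_rfl, zero_le_one⟩ c t ht
    have b := hout 1 ⟨zero_le_one, le_rfl⟩ c t ht
    rw [h0] at a
    rw [h1] at b
    exact iff_of_false b a
  · rw [← (hst 1 ⟨zero_le_one, le_rfl⟩ c t ht).1, h1]

theorem GBRel_eq (h : RelIso Cl L L') {c : κ} {t : ℝ} (ht : L.γ c t ∈ Cl) :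
    L'.γ c t = L.γ c t ∧ L'.ν c t = L.ν c t := by
  obtain ⟨H, Mv, -, -, h0, h1, -, hst, hout⟩ := h
  have hm : t ∉ Mv c := fun hm => hout 0 ⟨le_rfl, zero_le_one⟩ c t hm (h0 ▸ ht)
  exact h1 ▸ hst 1 ⟨zero_le_one, le_rfl⟩ c t hm

theorem GBRel_indep {v w : E3} {a : ℝ} (ha : a ≠ 0) (h : LinearIndependent ℝ ![v, w]) :
    LinearIndependent ℝ ![a • v, w] := by
  rw [LinearIndependent.pair_iff] at h ⊢
  intro s t e
  rw [smul_smul] at e
  obtain ⟨b1, b2⟩ := h _ _ e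
  exact ⟨(mul_eq_zero.1 b1).resolve_right ha, b2⟩

theorem RelIso.isLink (h : RelIso Cl L L') : L'.IsLink := by
  obtain ⟨H, Mv, -, hl, -, h1, -⟩ := h
  exact h1 ▸ hl 1 ⟨zero_le_one, le_rfl⟩

theorem RelIso.chain (h : RelIso Cl L L') : Chain Cl L L' := Relation.ReflTransGen.single h

theorem Chain.trans {L'' : Lk κ} (h : Chain Cl L L') (h' : Chain Cl L' L'') : Chain Cl L L'' :=
  Relation.ReflTransGen.trans h h'

theorem Chain.isLink (h : Chain Cl L L') (hL : L.IsLink) : L'.IsLink := by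
  induction h with
  | refl => exact hL
  | tail _ h _ => exact h.isLink

theorem Chain.mem_iff (h : Chain Cl L L') (c : κ) (t : ℝ) : L'.γ c t ∈ Cl ↔ L.γ c t ∈ Cl := by
  induction h with
  | refl => exact Iff.rfl
  | tail _ h ih => exact (GBRel_mem h c t).trans ih

theorem Chain.eq_of_mem (h : Chain Cl L L') {c : κ} {t : ℝ} (ht : L.γ c t ∈ Cl) :
    L'.γ c t = L.γ c t ∧ L'.ν c t = L.ν c t := by
  induction h with
  | refl => exact ⟨rfl, rfl⟩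
  | tail _ h ih =>
    obtain ⟨a1, a2⟩ := GBRel_eq h (c := c) (t := t) (ih.1 ▸ ht)
    exact ⟨a1.trans ih.1, a2.trans ih.2⟩

theorem Chain.inside (h : Chain Cl L L') (ℓ : κ → Option ι) :
    {x ∈ L'.set ℓ | x.2.1 ∈ Cl} = {x ∈ L.set ℓ | x.2.1 ∈ Cl} := by
  ext x
  constructor
  · rintro ⟨⟨c, t, rfl⟩, hx⟩
    obtain ⟨a1, a2⟩ := h.eq_of_mem ((h.mem_iff c t).1 hx)
    exact ⟨⟨c, t, by rw [a1, a2]⟩, hx⟩
  · rintro ⟨⟨c, t, rfl⟩, hx⟩
    obtain ⟨a1, a2⟩ := h.eq_of_mem hx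
    exact ⟨⟨c, t, by rw [a1, a2]⟩, hx⟩

theorem Chain.gEq [Fintype κ] (h : Chain Cl L L') (ℓ : κ → Option ι) :
    GEq (L.set ℓ) (L'.set ℓ) := by
  induction h with
  | refl => exact GEq.refl _
  | tail _ h ih =>
    obtain ⟨H, Mv, hs, hl, h0, h1, -⟩ := h
    exact ih.trans (GIso.gEq ⟨κ, inferInstance, H, ℓ, hs, hl, by rw [h0], by rw [h1]⟩)

/-- the isotopy can be applied to every link that agrees with `L` outside `Cl` -/
theorem RelIso.transfer [Fintype κ] (hCl : IsClosed Cl) (h : RelIso Cl L L') (ℓ : κ → Option ι)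
    {S : LS ι} (hS : IsLL S) (ho : {x ∈ S | x.2.1 ∉ Cl} = {x ∈ L.set ℓ | x.2.1 ∉ Cl}) :
    ∃ T, GIso S T ∧ {x ∈ T | x.2.1 ∈ Cl} = {x ∈ S | x.2.1 ∈ Cl} ∧
      {x ∈ T | x.2.1 ∉ Cl} = {x ∈ L'.set ℓ | x.2.1 ∉ Cl} := by
  obtain ⟨G, K, hs, hl, h0, h1, hK, hKC, hst, hmem⟩ := GBRel_norm h
  obtain ⟨κ₂, _, M, m, hM, rfl⟩ := hS
  have hL : L.IsLink := h0 ▸ hl 0
  have out : ∀ c' t, M.γ c' t ∉ Cl →
      ∃ c u, m c' = ℓ c ∧ M.γ c' t = L.γ c u ∧ M.ν c' t = L.ν c u := fun c' t ht => by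
    have : (m c', M.γ c' t, M.ν c' t) ∈ {x ∈ L.set ℓ | x.2.1 ∉ Cl} := ho ▸ ⟨⟨c', t, rfl⟩, ht⟩
    obtain ⟨⟨c, u, e⟩, -⟩ := this
    simp only [Prod.mk.injEq] at e
    exact ⟨c, u, e⟩
  have key : ∀ c' t, ∃ f : ℝ → E3 × E3, (M.γ c' t ∈ Cl → ∀ s, f s = (M.γ c' t, M.ν c' t)) ∧
      ∀ c u, M.γ c' t ∉ Cl → M.γ c' t = L.γ c u → ∀ s, f s = ((G s).γ c u, (G s).ν c u) := by
    intro c' t
    by_cases ht : M.γ c' t ∈ Cl
    · exact ⟨fun _ => (M.γ c' t, M.ν c' t), fun _ _ => rfl, fun _ _ h => absurd ht h⟩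
    · obtain ⟨c, u, -, e, -⟩ := out c' t ht
      refine ⟨fun s => ((G s).γ c u, (G s).ν c u), fun h => absurd h ht, fun c₁ u₁ _ e₁ s => ?_⟩
      obtain ⟨rfl, k, rfl⟩ := hL.isU.inj _ _ _ _ (e.symm.trans e₁)
      rw [GBRel_intγ (hl s), GBRel_intν (hl s)]
  choose F hF1 hF2 using key
  have loc : ∀ c' t₀, (∀ᶠ t in 𝓝 t₀, ∀ s, F c' t s = (M.γ c' t, M.ν c' t)) ∨
      ∃ c φ, ContDiffAt ℝ ∞ φ t₀ ∧ deriv φ t₀ ≠ 0 ∧
        ∀ᶠ t in 𝓝 t₀, ∀ s, F c' t s = ((G s).γ c (φ t), (G s).ν c (φ t)) := by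
    intro c' t₀
    have hc : ContinuousAt (M.γ c') t₀ := (hM.isU.smooth c').continuous.continuousAt
    by_cases ht : M.γ c' t₀ ∈ Cl
    · left
      filter_upwards [hc.eventually (hK.isOpen_compl.mem_nhds fun hk => hKC _ hk ht)] with t hk s
      by_cases hx : M.γ c' t ∈ Cl
      · exact hF1 c' t hx s
      · obtain ⟨c, u, -, e, e'⟩ := out c' t hx
        obtain ⟨a1, a2⟩ := hst s c u (e ▸ hk)
        rw [hF2 c' t c u hx e s, a1, a2, e, e']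
    · right
      have hev : ∀ᶠ t in 𝓝 t₀, M.γ c' t ∉ Cl := hc.eventually (hCl.isOpen_compl.mem_nhds ht)
      obtain ⟨c, u, -, e, -⟩ := out c' t₀ ht
      obtain ⟨φ, a1, -, a3⟩ := exists_reparam_local hL.isU
        ((hM.isU.smooth c').contDiffAt (x := t₀)) (hev.mono fun t hx => by
          obtain ⟨c, u, -, e, -⟩ := out c' t hx
          exact mem_iUnion.2 ⟨c, u, e.symm⟩) e
      refine ⟨c, φ, a1, fun hd => hM.isU.imm c' t₀ ?_, ?_⟩
      · have b : HasDerivAt (fun t => L.γ c (φ t)) (deriv φ t₀ • deriv (L.γ c) (φ t₀)) t₀ :=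
          ((hL.isU.smooth c).differentiable (by simp) (φ t₀)).hasDerivAt.scomp t₀
            (a1.differentiableAt (by simp)).hasDerivAt
        rw [EventuallyEq.deriv_eq (f₁ := M.γ c') a3, b.deriv, hd, zero_smul]
      · filter_upwards [hev, a3] with t b1 b2 s
        exact hF2 c' t c (φ t) b1 b2 s
  have sm : ∀ c', ContDiff ℝ ∞ fun p : ℝ × ℝ => F c' p.2 p.1 := fun c' => by
    refine contDiff_iff_contDiffAt.2 fun p => ?_
    rcases loc c' p.2 with a | ⟨c, φ, a1, -, a⟩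
    · refine ContDiffAt.congr_of_eventuallyEq
        (f := fun q : ℝ × ℝ => (M.γ c' q.2, M.ν c' q.2)) ?_
        ((continuous_snd.tendsto p).eventually a |>.mono fun q hq => hq q.1)
      exact (((hM.isU.smooth c').comp contDiff_snd).prodMk
        ((hM.smooth c').comp contDiff_snd)).contDiffAt
    · refine ContDiffAt.congr_of_eventuallyEq
        (f := fun q : ℝ × ℝ => ((G q.1).γ c (φ q.2), (G q.1).ν c (φ q.2))) ?_
        ((continuous_snd.tendsto p).eventually a |>.mono fun q hq => hq q.1)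
      have b : ContDiffAt ℝ ∞ (fun q : ℝ × ℝ => (q.1, φ q.2)) p :=
        contDiffAt_fst.prodMk (a1.comp p contDiffAt_snd)
      exact (((hs c).1.prodMk (hs c).2).contDiffAt.comp p b :)
  have per : ∀ c' t s, F c' (t + 1) s = F c' t s := fun c' t s => by
    have e := hM.isU.per c' t
    by_cases hx : M.γ c' t ∈ Cl
    · rw [hF1 c' t hx, hF1 c' (t + 1) (e ▸ hx), e, hM.per]
    · obtain ⟨c, u, -, e', -⟩ := out c' t hx
      rw [hF2 c' t c u hx e', hF2 c' (t + 1) c u (e ▸ hx) (e.trans e')]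
  have ind : ∀ c' t s,
      LinearIndependent ℝ ![deriv (fun t => (F c' t s).1) t, (F c' t s).2] := fun c' t₀ s => by
    rcases loc c' t₀ with a | ⟨c, φ, a1, a2, a⟩
    · rw [EventuallyEq.deriv_eq (f := M.γ c') (a.mono fun t ht => congrArg Prod.fst (ht s)),
        a.self_of_nhds s]
      exact hM.indep c' t₀
    · have b : HasDerivAt (fun t => (G s).γ c (φ t))
          (deriv φ t₀ • deriv ((G s).γ c) (φ t₀)) t₀ :=
        (((hl s).isU.smooth c).differentiable (by simp) (φ t₀)).hasDerivAt.scomp t₀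
          (a1.differentiableAt (by simp)).hasDerivAt
      rw [EventuallyEq.deriv_eq (f := fun t => (G s).γ c (φ t))
        (a.mono fun t ht => congrArg Prod.fst (ht s)), a.self_of_nhds s, b.deriv]
      exact GBRel_indep a2 ((hl s).indep c (φ t₀))
  have mem : ∀ c' t s, (F c' t s).1 ∈ Cl ↔ M.γ c' t ∈ Cl := fun c' t s => by
    by_cases hx : M.γ c' t ∈ Cl
    · rw [hF1 c' t hx]
    · obtain ⟨c, u, -, e, -⟩ := out c' t hx
      rw [hF2 c' t c u hx e, e]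
      exact hmem s c u
  have inj : ∀ s c₁ c₂ t₁ t₂, (F c₁ t₁ s).1 = (F c₂ t₂ s).1 → M.γ c₁ t₁ = M.γ c₂ t₂ := by
    intro s c₁ c₂ t₁ t₂ e
    have hi : M.γ c₁ t₁ ∈ Cl ↔ M.γ c₂ t₂ ∈ Cl := by rw [← mem c₁ t₁ s, e, mem]
    by_cases hx : M.γ c₁ t₁ ∈ Cl
    · rwa [hF1 c₁ t₁ hx, hF1 c₂ t₂ (hi.1 hx)] at e
    · have hy : M.γ c₂ t₂ ∉ Cl := fun hy => hx (hi.2 hy)
      obtain ⟨c, u, -, e₁, -⟩ := out c₁ t₁ hx
      obtain ⟨d, v, -, e₂, -⟩ := out c₂ t₂ hy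
      rw [hF2 c₁ t₁ c u hx e₁, hF2 c₂ t₂ d v hy e₂] at e
      obtain ⟨rfl, k, rfl⟩ := (hl s).isU.inj _ _ _ _ e
      rw [e₁, e₂, GBRel_intγ hL]
  have zero : ∀ c' t, F c' t 0 = (M.γ c' t, M.ν c' t) := fun c' t => by
    by_cases hx : M.γ c' t ∈ Cl
    · exact hF1 c' t hx 0
    · obtain ⟨c, u, -, e, e'⟩ := out c' t hx
      rw [hF2 c' t c u hx e, h0, e, e']
  have sl : ∀ c' s, ContDiff ℝ ∞ fun t => F c' t s := fun c' s =>
    ((sm c').comp (contDiff_const.prodMk contDiff_id : ContDiff ℝ ∞ fun t : ℝ => (s, t)) :)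
  refine ⟨Lk.set ⟨fun c' t => (F c' t 1).1, fun c' t => (F c' t 1).2⟩ m,
    ⟨κ₂, inferInstance, fun s => ⟨fun c' t => (F c' t s).1, fun c' t => (F c' t s).2⟩, m,
      fun c' => ⟨(sm c').fst, (sm c').snd⟩, fun s _ => ⟨⟨fun c' => (sl c' s).fst,
        fun c' t => congrArg Prod.fst (per c' t s),
        fun c₁ c₂ t₁ t₂ e => hM.isU.inj _ _ _ _ (inj s c₁ c₂ t₁ t₂ e),
        fun c' t => (ind c' t s).ne_zero 0⟩, fun c' => (sl c' s).snd,
        fun c' t => congrArg Prod.snd (per c' t s), fun c' t => ind c' t s⟩, ?_, rfl⟩, ?_, ?_⟩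
  · simp only [zero]
  · ext x
    constructor
    · rintro ⟨⟨c', t, rfl⟩, hx⟩
      exact ⟨⟨c', t, congrArg (Prod.mk (m c')) (hF1 c' t ((mem c' t 1).1 hx) 1)⟩, hx⟩
    · rintro ⟨⟨c', t, rfl⟩, hx⟩
      exact ⟨⟨c', t, congrArg (Prod.mk (m c')) (hF1 c' t hx 1).symm⟩, hx⟩
  · ext x
    constructor
    · rintro ⟨⟨c', t, rfl⟩, hx⟩
      have hy : M.γ c' t ∉ Cl := fun hy => hx ((mem c' t 1).2 hy)
      obtain ⟨c, u, e₀, e, -⟩ := out c' t hy
      refine ⟨⟨c, u, Prod.ext e₀ ?_⟩, hx⟩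
      have := hF2 c' t c u hy e 1
      rwa [h1] at this
    · rintro ⟨⟨c, u, rfl⟩, hx⟩
      have hy : L.γ c u ∉ Cl := fun hy => hx (h1 ▸ (hmem 1 c u).2 hy)
      have : (ℓ c, L.γ c u, L.ν c u) ∈ {x ∈ M.set m | x.2.1 ∉ Cl} := ho ▸ ⟨⟨c, u, rfl⟩, hy⟩
      obtain ⟨⟨c', t, e⟩, -⟩ := this
      simp only [Prod.mk.injEq] at e
      refine ⟨⟨c', t, Prod.ext e.1 ?_⟩, hx⟩
      have := hF2 c' t c u (e.2.1 ▸ hy) e.2.1.symm 1
      rw [h1] at this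
      exact this.symm

theorem Chain.transfer [Fintype κ] (hCl : IsClosed Cl) (h : Chain Cl L L') (ℓ : κ → Option ι)
    {S : LS ι} (hS : IsLL S) (ho : {x ∈ S | x.2.1 ∉ Cl} = {x ∈ L.set ℓ | x.2.1 ∉ Cl}) :
    ∃ T, GEq S T ∧ {x ∈ T | x.2.1 ∈ Cl} = {x ∈ S | x.2.1 ∈ Cl} ∧
      {x ∈ T | x.2.1 ∉ Cl} = {x ∈ L'.set ℓ | x.2.1 ∉ Cl} := by
  induction h with
  | refl => exact ⟨S, GEq.refl S, rfl, ho⟩
  | tail _ h ih =>
    obtain ⟨T, a1, a2, a3⟩ := ih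
    obtain ⟨T', b1, b2, b3⟩ := h.transfer hCl ℓ (a1.isLL hS) a3
    exact ⟨T', a1.trans b1.gEq, b2.trans a2, b3⟩

end Pool.Agent.P.MP_ac4909_gt.B
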