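import Pool.Agent.P.MP_ac4909_gt.B.GB_Val0

/-! Layer G, blocks: far stars of the glued subdivision are separated. -/

namespace Pool.Agent.P.MP_ac4909_gt.B

open scoped ContDiff
open Set Filter Topology

variable {ι I O : Type} {n : ℕ} {Co : Collar n ι} {A : Pic ι} (Ou : Outer Co A O)
  (Ct : Content Co I)

theorem gsep_mono {S T S' T' : Set E3} (h : ∃ i, Sep i S T ∨ Sep i T S) (hS : S' ⊆ S)
    (hT : T' ⊆ T) : ∃ i, Sep i S' T' ∨ Sep i T' S' := by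
  obtain ⟨i, h | h⟩ := h
  · exact ⟨i, .inl (h.mono hS hT)⟩
  · exact ⟨i, .inr (h.mono hT hS)⟩

theorem gsep_two {N : Type} {C : Conf N} {m x y : N} {s₁ s₂ : Bool} (h₁ : C.nb m s₁ = x)
    (h₂ : C.nb m s₂ = y) (hne : x ≠ y) (t : Bool) :
    (C.nb m t = x ∧ C.nb m (!t) = y) ∨ (C.nb m t = y ∧ C.nb m (!t) = x) := by
  subst h₁ h₂
  cases s₁ <;> cases s₂ <;> cases t <;> simp at hne ⊢

/-- high levels of a collar are separated from a slab -/
theorem gsep_level {S T : Set E3} {b : Fin n × Bool} {L : ℝ} (hS : S ⊆ Co.cl b '' Ioi L)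
    (hT : ∀ q ∈ T, |q 1| ≤ L) : ∃ i, Sep i S T ∨ Sep i T S := by
  refine ⟨1, ?_⟩
  rcases hb : b.2 with _ | _
  · refine .inl fun p hp q hq => ?_
    obtain ⟨t, ht, rfl⟩ := hS hp
    have h1 := (abs_le.1 (hT q hq)).1
    have h2 : L < t := ht
    simp only [Collar.cl_one, hb]
    norm_num
    linarith
  · refine .inr fun q hq p hp => ?_
    obtain ⟨t, ht, rfl⟩ := hS hp
    have h1 := (abs_le.1 (hT q hq)).2
    have h2 : L < t := ht
    simp only [Collar.cl_one, hb]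
    norm_num
    linarith

/-- the ray of a collar is separated from the stars of the points that are not next to it -/
theorem gsep_ray {a : I} {b : Fin n × Bool} (hne : a ≠ Ct.bc b)
    (hadj : ∀ s, Ct.C.nb (.inl (Ct.bc b)) s ≠ .inl a) :
    ∃ i, Sep i (Co.cl b '' Ici (Ct.lv b)) (Ct.C.star (.inl a)) ∨
      Sep i (Ct.C.star (.inl a)) (Co.cl b '' Ici (Ct.lv b)) := by
  by_cases hf : Ct.C.Far (.inl (Ct.bc b)) (.inl a)
  · exact gsep_mono (Ct.sep _ _ hf) (Ct.ray_subset b) Subset.rfl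
  have hne' : (Sum.inl (Ct.bc b) : I ⊕ Fin n × Bool) ≠ .inl a := fun e =>
    hne (Sum.inl.inj e).symm
  obtain ⟨s, s', e⟩ : ∃ s s', Ct.C.nb (.inl (Ct.bc b)) s = Ct.C.nb (.inl a) s' := by
    by_contra hc
    push Not at hc
    exact hf ⟨hne', hadj, hc⟩
  rcases hr : Ct.C.nb (.inl a) s' with r | b'
  · rw [hr] at e
    obtain ⟨s₁, h₁⟩ := Ct.adj_symm (Ct.bc b) s
    obtain ⟨s₂, h₂⟩ := Ct.adj_symm a s'
    rw [e] at h₁
    rw [hr] at h₂
    obtain ⟨i, t, -, hm⟩ := Ct.mono r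
    rcases gsep_two h₁ h₂ hne' t with ⟨e₁, e₂⟩ | ⟨e₁, e₂⟩
    · refine ⟨i, .inl ?_⟩
      rintro _ ⟨u, hu, rfl⟩ q hq
      have k₁ := (Content.ray_lo hm e₁).antitoneOn self_mem_Ici hu hu
      have k₂ := hm.lo₁
      rw [e₁, Ct.pt_bc] at k₂
      have k₃ := (Content.star_hi hm q (e₂ ▸ hq)).1
      exact lt_of_le_of_lt k₁ (lt_of_lt_of_le k₂ k₃)
    · refine ⟨i, .inr ?_⟩
      rintro q hq _ ⟨u, hu, rfl⟩
      have k₁ := (Content.ray_hi hm e₂).monotoneOn self_mem_Ici hu hu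
      have k₂ := hm.hi₁
      rw [e₂, Ct.pt_bc] at k₂
      have k₃ := (Content.star_lo hm q (e₁ ▸ hq)).1
      exact lt_of_le_of_lt k₃ (lt_of_lt_of_le k₂ k₁)
  · rw [hr] at e
    exact absurd (((Ct.nb_eq_inr _ _ _).1 hr).1.trans ((Ct.nb_eq_inr _ _ _).1 e).1.symm) hne

namespace Outer

theorem gsep_coord {o : O} (ho : ∀ b, o ≠ Ou.ρ b) {i : Fin 3}
    (hi : InjOn (fun p : E3 => p i) (Ou.C.star (.inl o))) {p : E3}
    (hp : p ∈ Ou.C.star (.inl o)) :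
    ∃ s, p i ∈ uIcc (Ou.C.pt (.inl o) i) (Ou.C.pt (Ou.C.nb (.inl o) s) i) := by
  obtain ⟨s, hs⟩ := Conf.GCArc_star hp
  obtain ⟨o', e⟩ := Ou.nb_inl ho s
  have hsub := Ou.C.arc_subset_star (.inl o) s
  refine ⟨s, ?_⟩
  rw [e] at hs hsub ⊢
  exact (Ou.isArc o s o' e).coord_mem (hi.mono hsub) p hs

/-- the point at the inner end of a collar is not in the star of a point not next to it -/
theorem gsep_not_mem {o : O} (ho : ∀ b, o ≠ Ou.ρ b) {b : Fin n × Bool}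
    (hadj : ∀ s, Ou.C.nb (.inl o) s ≠ .inl (Ou.ρ b)) :
    Ou.C.pt (.inl (Ou.ρ b)) ∉ Ou.C.star (.inl o) := by
  intro hp
  have hne : (Sum.inl o : O ⊕ Fin n × Bool) ≠ .inl (Ou.ρ b) := fun e => ho b (Sum.inl.inj e)
  by_cases hf : Ou.C.Far (.inl o) (.inl (Ou.ρ b))
  · obtain ⟨i, h | h⟩ := Ou.sep _ _ hf
    · exact lt_irrefl _ (h _ hp _ (Ou.pt_mem_star _))
    · exact lt_irrefl _ (h _ (Ou.pt_mem_star _) _ hp)
  obtain ⟨s, s', e⟩ : ∃ s s', Ou.C.nb (.inl o) s = Ou.C.nb (.inl (Ou.ρ b)) s' := by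
    by_contra hc
    push Not at hc
    exact hf ⟨hne, hadj, hc⟩
  obtain ⟨m, hm⟩ := Ou.nb_inl ho s
  rw [hm] at e
  have hmρ : ∀ b', m ≠ Ou.ρ b' := by
    rintro b' rfl
    have := Ou.col_nb (Ou.ρ b) s'
    rw [← e, Ou.col_ρ, Ou.col_ρ] at this
    simp at this
  obtain ⟨s₁, h₁⟩ := Ou.adj_symm o s
  obtain ⟨s₂, h₂⟩ := Ou.adj_symm (Ou.ρ b) s'
  rw [hm] at h₁
  rw [← e] at h₂
  obtain ⟨i, t, -, hM⟩ := Ou.mono m hmρ
  rcases gsep_two h₁ h₂ hne t with ⟨e₁, e₂⟩ | ⟨e₁, e₂⟩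
  · have hw := Ou.C.star_nb_subset_win (.inl m) t
    rw [e₁] at hw
    obtain ⟨u, hu⟩ := Ou.gsep_coord ho (hM.inj.mono hw) hp
    have k₁ := hM.lo₁
    have k₂ := hM.hi₁
    have k₃ := hM.lo₂ u
    rw [e₁] at k₁ k₃
    rw [e₂] at k₂
    by_cases hu' : Ou.C.nb (.inl o) u = .inl m
    · rw [hu'] at hu
      rcases mem_uIcc.1 hu with h | h <;> linarith [h.1, h.2]
    · have := k₃ hu'
      rcases mem_uIcc.1 hu with h | h <;> linarith [h.1, h.2]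
  · have hw := Ou.C.star_nb_subset_win (.inl m) (!t)
    rw [e₂] at hw
    obtain ⟨u, hu⟩ := Ou.gsep_coord ho (hM.inj.mono hw) hp
    have k₁ := hM.lo₁
    have k₂ := hM.hi₁
    have k₃ := hM.hi₂ u
    rw [e₂] at k₂ k₃
    rw [e₁] at k₁
    by_cases hu' : Ou.C.nb (.inl o) u = .inl m
    · rw [hu'] at hu
      rcases mem_uIcc.1 hu with h | h <;> linarith [h.1, h.2]
    · have := k₃ hu'
      rcases mem_uIcc.1 hu with h | h <;> linarith [h.1, h.2]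

theorem gsep_bc_box {b : Fin n × Bool} {q : E3} (hq : q ∈ (Ou.glue Ct).star (.inr (Ct.bc b))) :
    |q 1| ≤ Ou.lv b := by
  rcases hq with hq | hq
  · rw [Ou.glue_nb_bc Ct b, (Ou.glue_arc Ct b).2] at hq
    obtain ⟨t, ht, rfl⟩ := hq
    have h0 : 0 < t := (Ct.lv_pos b).trans_le ht.1
    rw [Collar.cl_one, abs_mul, abs_of_pos h0]
    split_ifs <;> simpa using ht.2
  · obtain ⟨r, hr⟩ := Ct.exists_in b
    rw [Ou.glue_nb_in Ct hr] at hq
    exact (Ct.box _ _ _ hr q hq 1).trans (Ou.lv_gt b).le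

theorem gsep_mixed {o : O} {a : I}
    (H₁ : ∀ b, a = Ct.bc b → o ≠ Ou.ρ b ∧ ∀ s, Ou.C.nb (.inl o) s ≠ .inl (Ou.ρ b))
    (H₂ : ∀ b, o = Ou.ρ b → ∀ s, Ct.C.nb (.inl a) s ≠ .inl (Ct.bc b)) :
    ∃ i, Sep i ((Ou.glue Ct).star (.inl o)) ((Ou.glue Ct).star (.inr a)) ∨
      Sep i ((Ou.glue Ct).star (.inr a)) ((Ou.glue Ct).star (.inl o)) := by
  by_cases ho : ∀ b, o ≠ Ou.ρ b
  · rcases Ou.pos o ho with ⟨i, h | h⟩ | ⟨b, h⟩
    · refine ⟨i, .inl fun p hp q hq => ?_⟩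
      have h1 := h p (Ou.glue_star_out Ct o hp)
      have h2 := (abs_lt.1 (Ou.glue_star_box Ct a q hq i)).1
      linarith
    · refine ⟨i, .inr fun q hq p hp => ?_⟩
      have h1 := h p (Ou.glue_star_out Ct o hp)
      have h2 := (abs_lt.1 (Ou.glue_star_box Ct a q hq i)).2
      linarith
    · by_cases ha : a = Ct.bc b
      · subst ha
        refine gsep_level (Co := Co) (b := b) (L := Ou.lv b) (fun p hp => ?_)
          fun q hq => Ou.gsep_bc_box Ct hq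
        have hp' := Ou.glue_star_out Ct o hp
        obtain ⟨t, ht, rfl⟩ := h hp'
        refine ⟨t, lt_of_le_of_ne ht.1 ?_, rfl⟩
        rintro rfl
        exact Ou.gsep_not_mem ho (H₁ b rfl).2 (Ou.pt_ρ b ▸ hp')
      · by_cases hadj : ∀ s, Ct.C.nb (.inl (Ct.bc b)) s ≠ .inl a
        · refine gsep_mono (gsep_ray Ct ha hadj) (fun p hp => ?_) (Ou.glue_star_in Ct a)
          obtain ⟨t, ht, rfl⟩ := h (Ou.glue_star_out Ct o hp)
          exact ⟨t, ((Ct.lv_le b).trans (Ou.lv_gt b).le).trans ht.1, rfl⟩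
        · push Not at hadj
          obtain ⟨s, hs⟩ := hadj
          refine gsep_level (Co := Co) (b := b) (L := 3 / 4) (fun p hp => ?_) fun q hq => ?_
          · obtain ⟨t, ht, rfl⟩ := h (Ou.glue_star_out Ct o hp)
            exact ⟨t, (Ou.lv_gt b).trans_le ht.1, rfl⟩
          · rcases Ct.mem_star (Ou.glue_star_in Ct a hq) with h1 | ⟨b', t, rfl, -, -⟩
            · exact h1 1
            · have := Ct.col_nb (Ct.bc b) s
              rw [hs, Ct.col_bc, Ct.col_bc] at this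
              simp at this
  · push Not at ho
    obtain ⟨b, rfl⟩ := ho
    refine gsep_mono (gsep_ray Ct (b := b) (fun e => (H₁ b e).1 rfl) fun s hs => ?_)
      (Ou.glue_star_ρ Ct b) (Ou.glue_star_in Ct a)
    obtain ⟨s', hs'⟩ := Ct.adj_symm (Ct.bc b) s
    rw [hs] at hs'
    exact H₂ b rfl s' hs'

theorem glue_sep {a b : O ⊕ I} (h : (Ou.glue Ct).Far a b) :
    ∃ i, Sep i ((Ou.glue Ct).star a) ((Ou.glue Ct).star b) ∨
      Sep i ((Ou.glue Ct).star b) ((Ou.glue Ct).star a) := by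
  obtain ⟨h₀, h₁, h₂⟩ := h
  rcases a with o | a <;> rcases b with o' | a'
  · refine gsep_mono (Ou.sep o o' ⟨fun e => h₀ ?_, fun s e => h₁ s ?_, fun s s' e => h₂ s s' ?_⟩)
      (Ou.glue_star_out Ct o) (Ou.glue_star_out Ct o')
    · rw [Sum.inl.inj e]
    · exact Ou.glue_nb_out Ct e
    · exact congrArg (Sum.elim Sum.inl fun b => (Sum.inr (Ct.bc b) : O ⊕ I)) e
  · refine Ou.gsep_mixed Ct ?_ ?_
    · rintro b rfl
      refine ⟨?_, fun s e => h₂ s false ?_⟩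
      · rintro rfl
        exact h₁ _ (Ou.glue_nb_ρ Ct b)
      · rw [Ou.glue_nb_out Ct e, Ou.glue_nb_bc Ct b]
    · rintro b rfl s e
      exact h₂ (Ou.sd b) s (by rw [Ou.glue_nb_ρ Ct b, Ou.glue_nb_in Ct e])
  · obtain ⟨i, hi⟩ := Ou.gsep_mixed Ct (o := o') (a := a) (by
      rintro b rfl
      refine ⟨?_, fun s e => h₂ false s ?_⟩
      · rintro rfl
        exact h₁ _ (Ou.glue_nb_bc Ct b)
      · rw [Ou.glue_nb_out Ct e, Ou.glue_nb_bc Ct b]) (by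
      rintro b rfl s e
      exact h₂ s (Ou.sd b) (by rw [Ou.glue_nb_ρ Ct b, Ou.glue_nb_in Ct e]))
    exact ⟨i, hi.symm⟩
  · refine gsep_mono (Ct.sep a a' ⟨fun e => h₀ ?_, fun s e => h₁ s ?_, fun s s' e => h₂ s s' ?_⟩)
      (Ou.glue_star_in Ct a) (Ou.glue_star_in Ct a')
    · rw [Sum.inl.inj e]
    · exact Ou.glue_nb_in Ct e
    · exact congrArg (Sum.elim Sum.inr fun b => (Sum.inl (Ou.ρ b) : O ⊕ I)) e

end Outer

end Pool.Agent.P.MP_ac4909_gt.B
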