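import Pool.Agent.P.MP_ac4909_gt.B.GB_Stack_z

/-! Layer G, blocks: one content on top of another. -/

namespace Pool.Agent.P.MP_ac4909_gt.B

open scoped ContDiff
open Set Filter Topology

variable {ι : Type} {n : ℕ}

namespace Gstk

section one
variable {Co : Collar n ι} {I : Type} (D : Content Co I)

theorem rz_nodup : D.rz.Y.Nodup := by
  refine List.nodup_append.2 ⟨List.nodup_append.2 ⟨List.nodup_ofFn.2 fun k k' e => by simpa using e,
    D.nodupY.map Sum.inl_injective, ?_⟩, List.nodup_ofFn.2 fun k k' e => by simpa using e, ?_⟩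
  · rintro a ha b hb rfl
    obtain ⟨c, rfl⟩ := List.mem_ofFn.1 ha
    simp at hb
  · rintro a ha b hb rfl
    obtain ⟨c, rfl⟩ := List.mem_ofFn.1 hb
    simp at ha

theorem inl_mem {e : I} (he : e ∈ D.Yb) : Sum.inl e ∈ D.rz.Y :=
  List.mem_append_left _ (List.mem_append_right _ (List.mem_map_of_mem he))

theorem inr_mem (b : Fin n × Bool) : Sum.inr b ∈ D.rz.Y := by
  obtain ⟨k, _ | _⟩ := b
  · exact List.mem_append_left _ (List.mem_append_left _ (List.mem_ofFn.2 ⟨k, rfl⟩))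
  · exact List.mem_append_right _ (List.mem_ofFn.2 ⟨k, rfl⟩)

theorem nb_row {v r : I} (hv : v ∈ D.Xb) {s : Bool} (e : D.C.nb (.inl v) s = .inl r) :
    r ∈ D.Yb := by
  rw [D.memY, ← e, D.col_nb, (D.memX v).1 hv]
  rfl

theorem nb_mem {v : I} (hv : v ∈ D.Xb) (s : Bool) : D.C.nb (.inl v) s ∈ D.rz.Y := by
  rcases e : D.C.nb (.inl v) s with r | b
  · exact inl_mem D (nb_row D hv e)
  · exact inr_mem D b

end one

variable {Co : Collar n ι} {x : Fin n → ℝ} {J : Bool → Type} [∀ σ, DecidableEq (J σ)]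
  {Ct : ∀ σ, Content Co (J σ)} {h : Straight Co x} {hv : ∀ σ, (Ct σ).Vert} {L : List (II J n)}
  {hL₁ : L.Perm (em false (Ct false).Xb ++ em true (Ct true).Xb)}
  {hL₂ : L.Pairwise fun a b => (cf x Ct).pt (.inl a) 0 ≤ (cf x Ct).pt (.inl b) 0}
  {hL₃ : ∀ σ, (em σ (Ct σ).Xb).Sublist L}

omit [∀ σ, DecidableEq (J σ)] in
theorem Y_lo : (stk Ct h hv L hL₁ hL₂ hL₃).rz.Y = (Ct false).rz.Y.map (ph false) ++
    ((em true (Ct true).Yb).map .inl ++ List.ofFn fun k => .inr (k, true)) := by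
  simp only [Content.rz, stk, YY, em, List.map_append, List.map_map, List.map_ofFn,
    List.append_assoc]
  rfl

omit [∀ σ, DecidableEq (J σ)] in
theorem Y_hi : (stk Ct h hv L hL₁ hL₂ hL₃).rz.Y =
    ((List.ofFn fun k => .inr (k, false)) ++ (em false (Ct false).Yb).map .inl) ++
      (Ct true).rz.Y.map (ph true) := by
  simp only [Content.rz, stk, YY, em, List.map_append, List.map_map, List.map_ofFn,
    List.append_assoc]
  rfl

theorem lt_iff (σ : Bool) {u w : J σ ⊕ Fin n × Bool} (hu : u ∈ (Ct σ).rz.Y)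
    (hw : w ∈ (Ct σ).rz.Y) :
    (Ct σ).rz.ltY u w ↔ (stk Ct h hv L hL₁ hL₂ hL₃).rz.ltY (ph σ u) (ph σ w) := by
  obtain ⟨P, Q, e⟩ : ∃ P Q, (stk Ct h hv L hL₁ hL₂ hL₃).rz.Y =
      P ++ (Ct σ).rz.Y.map (ph σ) ++ Q := by
    cases σ
    · exact ⟨[], _, Y_lo⟩
    · exact ⟨_, [], Y_hi.trans (List.append_nil _).symm⟩
  have hn := rz_nodup (stk Ct h hv L hL₁ hL₂ hL₃)
  rw [e] at hn
  rw [Rz.ltY, Rz.ltY, e, gstk_idx_eq (ph_inj σ) hn hu, gstk_idx_eq (ph_inj σ) hn hw]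
  omega

theorem cross_lo {w : J false ⊕ Fin n × Bool} (hw : w ∈ (Ct false).rz.Y)
    (hw' : ∀ k, w ≠ .inr (k, true)) {u : J true ⊕ Fin n × Bool} (hu : u ∈ (Ct true).rz.Y) :
    (stk Ct h hv L hL₁ hL₂ hL₃).rz.ltY (ph false w) (ph true u) := by
  have hn := rz_nodup (stk Ct h hv L hL₁ hL₂ hL₃)
  rw [Y_hi] at hn
  rw [Rz.ltY, Y_hi]
  refine gstk_idx_lt hn ?_ (List.mem_map_of_mem hu)
  rcases tri false w with ⟨a, rfl⟩ | ⟨k, rfl⟩ | ⟨k, rfl⟩
  · refine List.mem_append_right _ (List.mem_map_of_mem (mem_em'.2 ?_))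
    simpa [Content.rz] using hw
  · exact List.mem_append_left _ (List.mem_ofFn.2 ⟨k, rfl⟩)
  · exact absurd rfl (hw' k)

theorem cross_hi {w : J true ⊕ Fin n × Bool} (hw : w ∈ (Ct true).rz.Y)
    (hw' : ∀ k, w ≠ .inr (k, false)) {u : J false ⊕ Fin n × Bool} (hu : u ∈ (Ct false).rz.Y) :
    (stk Ct h hv L hL₁ hL₂ hL₃).rz.ltY (ph false u) (ph true w) := by
  have hn := rz_nodup (stk Ct h hv L hL₁ hL₂ hL₃)
  rw [Y_lo] at hn
  rw [Rz.ltY, Y_lo]
  refine gstk_idx_lt hn (List.mem_map_of_mem hu) ?_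
  rcases tri true w with ⟨a, rfl⟩ | ⟨k, rfl⟩ | ⟨k, rfl⟩
  · refine List.mem_append_left _ (List.mem_map_of_mem (mem_em'.2 ?_))
    simpa [Content.rz] using hw
  · exact List.mem_append_right _ (List.mem_ofFn.2 ⟨k, rfl⟩)
  · exact absurd rfl (hw' k)

/-- a column whose two rows lie on one side of `e` is invisible -/
theorem cell_side {N α : Type} [DecidableEq N] {G : Grid N α} {R : Rz N} {e v : N}
    (k : (∀ s, R.ltY (G.nb v s) e) ∨ ∀ s, R.ltY e (G.nb v s)) : G.cell R e v = none := by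
  refine Grid.evb_cell_none R (fun s e' => ?_) fun s k' => ?_
  · rcases k with k | k <;> exact lt_irrefl _ (e' ▸ k s :)
  · rcases k with k | k
    · exact lt_asymm (k _) k'.2
    · exact lt_asymm (k _) k'.1

omit [∀ σ, DecidableEq (J σ)] in
theorem lab_ph (h : Straight Co x) (σ : Bool) (u : J σ ⊕ Fin n × Bool) :
    Sum.elim (lb Ct) Co.lab (ph σ u) = Sum.elim (Ct σ).lb Co.lab u := by
  rcases tri σ u with ⟨a, rfl⟩ | ⟨k, rfl⟩ | ⟨k, rfl⟩
  · rfl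
  · rw [ph_out]
    rfl
  · rw [ph_in]
    exact (h.glab k _).symm

theorem cells_side (σ : Bool) {e : J σ} (he : e ∈ (Ct σ).Yb) :
    (L.map .inl).filterMap ((stk Ct h hv L hL₁ hL₂ hL₃).grid.cell
        (stk Ct h hv L hL₁ hL₂ hL₃).rz (ph σ (.inl e))) =
      ((Ct σ).Xb.map .inl).filterMap ((Ct σ).grid.cell (Ct σ).rz (.inl e)) := by
  have hp : L.Perm (em σ (Ct σ).Xb ++ em (!σ) (Ct (!σ)).Xb) := by
    cases σ
    · exact hL₁
    · exact hL₁.trans List.perm_append_comm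
  rw [List.filterMap_map, List.filterMap_map, gstk_filterMap hp (hL₃ σ), em, List.filterMap_map]
  · refine List.filterMap_congr fun v hv' => ?_
    exact cell_congr₀ (G := (Ct σ).grid) (e := .inl e) (v := .inl v) (v' := ph σ (.inl v))
      (fun s => (ph_inj σ).eq_iff.symm) (fun s => lt_iff σ (nb_mem _ hv' s) (inl_mem _ he))
      (fun s => lt_iff σ (inl_mem _ he) (nb_mem _ hv' s)) (fun _ => ⟨rfl, rfl⟩)
      (fun s => congrArg Nm.mk (lab_ph h σ _)) Iff.rfl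
  · intro v hv'
    obtain ⟨c, hc, rfl⟩ := mem_em.1 hv'
    cases σ
    · exact cell_side (Or.inr fun s => cross_lo (inl_mem _ he) (by simp) (nb_mem _ hc s))
    · exact cell_side (Or.inl fun s => cross_hi (inl_mem _ he) (by simp) (nb_mem _ hc s))

theorem evs_side (σ : Bool) :
    (stk Ct h hv L hL₁ hL₂ hL₃).grid.evs (stk Ct h hv L hL₁ hL₂ hL₃).rz (L.map .inl)
      ((em σ (Ct σ).Yb).map .inl) = (Ct σ).word := by
  rw [Content.word, Grid.evs, Grid.evs, em, List.map_map, List.flatMap_map, List.flatMap_map]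
  exact List.flatMap_congr fun e he => congrArg evOf (cells_side σ he)

theorem cell_end (k : Fin n) (σ : Bool) :
    ∃ a, (stk Ct h hv L hL₁ hL₂ hL₃).grid.cell (stk Ct h hv L hL₁ hL₂ hL₃).rz (.inl (.inr k))
      (ph σ (.inl ((Ct σ).bc (k, !σ)))) = some (.fin a σ) := by
  have e₀ : (stk Ct h hv L hL₁ hL₂ hL₃).grid.nb (ph σ (.inl ((Ct σ).bc (k, !σ)))) false =
      .inl (.inr k) := (congrArg (ph σ) ((Ct σ).nb_bc _)).trans (ph_in σ k)
  obtain ⟨r, hr⟩ := (Ct σ).exists_in (k, !σ)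
  have e₁ : (stk Ct h hv L hL₁ hL₂ hL₃).grid.nb (ph σ (.inl ((Ct σ).bc (k, !σ)))) true =
      ph σ (.inl r) := congrArg (ph σ) hr
  have hr' := inl_mem _ (nb_row _ (((Ct σ).memX _).2 ((Ct σ).col_bc _)) hr)
  rw [Grid.cell, if_pos e₀, e₁]
  cases σ
  · have := cross_lo (h := h) (hv := hv) (hL₁ := hL₁) (hL₂ := hL₂) (hL₃ := hL₃) hr' (by simp)
      (inr_mem (Ct true) (k, false))
    exact ⟨_, congrArg some (if_neg (lt_asymm this))⟩
  · have := cross_hi (h := h) (hv := hv) (hL₁ := hL₁) (hL₂ := hL₂) (hL₃ := hL₃) hr' (by simp)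
      (inr_mem (Ct false) (k, true))
    exact ⟨_, congrArg some (if_pos this)⟩

omit [∀ σ, DecidableEq (J σ)] in
theorem mem_L (hL₁ : L.Perm (em false (Ct false).Xb ++ em true (Ct true).Xb)) {v : II J n}
    (hv : v ∈ L) : ∃ σ, ∃ c ∈ (Ct σ).Xb, v = .inl ⟨σ, c⟩ := by
  rcases List.mem_append.1 (hL₁.subset hv) with k | k
  · exact ⟨false, mem_em.1 k⟩
  · exact ⟨true, mem_em.1 k⟩

theorem cell_between (k : Fin n) {v : II J n} (hvL : v ∈ L)
    (hne : ∀ σ, v ≠ .inl ⟨σ, (Ct σ).bc (k, !σ)⟩) (hx : (cf x Ct).pt (.inl v) 0 = x k) :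
    (stk Ct h hv L hL₁ hL₂ hL₃).grid.cell (stk Ct h hv L hL₁ hL₂ hL₃).rz (.inl (.inr k))
      (.inl v) = none := by
  obtain ⟨σ, c, hc, rfl⟩ := mem_L hL₁ hvL
  have key : ∀ s k', (Ct σ).C.nb (.inl c) s ≠ .inr (k', !σ) := fun s k' e => by
    obtain ⟨rfl, -⟩ := ((Ct σ).nb_eq_inr c s _).1 e
    rw [← ph_inl, pt_inl, (Ct σ).pt_bc, gstk_sq0, Collar.cl_zero, h.ξ] at hx
    obtain rfl : k' = k := h.gx_inj hx
    exact hne σ rfl
  cases σ
  · exact cell_side (Or.inl fun s => cross_lo (nb_mem _ hc s) (key s) (inr_mem (Ct true) (k, false)))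
  · exact cell_side (Or.inr fun s => cross_hi (nb_mem _ hc s) (key s) (inr_mem (Ct false) (k, true)))

theorem row_mid (k : Fin n) :
    evOf ((L.map .inl).filterMap ((stk Ct h hv L hL₁ hL₂ hL₃).grid.cell
      (stk Ct h hv L hL₁ hL₂ hL₃).rz (.inl (.inr k)))) = [] := by
  have hm : ∀ σ, (.inl ⟨σ, (Ct σ).bc (k, !σ)⟩ : II J n) ∈ L := fun σ =>
    (hL₃ σ).subset (mem_em'.2 (((Ct σ).memX _).2 ((Ct σ).col_bc _)))
  have hx : ∀ σ, (cf x Ct).pt (.inl (.inl ⟨σ, (Ct σ).bc (k, !σ)⟩)) 0 = x k := fun σ => by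
    rw [← ph_inl, pt_inl, (Ct σ).pt_bc, gstk_sq0, Collar.cl_zero, h.ξ]
  obtain ⟨s, X₁, X₂, X₃, hX⟩ : ∃ s X₁ X₂ X₃, L = X₁ ++ .inl ⟨s, (Ct s).bc (k, !s)⟩ ::
      (X₂ ++ .inl ⟨!s, (Ct (!s)).bc (k, !!s)⟩ :: X₃) := by
    rcases WEvs_two (hm false) (hm true) (by simp) with e | e
    · exact ⟨false, e⟩
    · exact ⟨true, e⟩
  have hn : L.Nodup := (stk Ct h hv L hL₁ hL₂ hL₃).nodupX
  have hs := hL₂
  have hL : ∀ v, v ∈ X₁ ∨ v ∈ X₂ → v ∈ L := fun v k => by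
    rw [hX]
    rcases k with k | k <;> simp [k]
  rw [hX] at hn hs
  simp only [List.nodup_append, List.nodup_cons, List.mem_append, List.mem_cons] at hn
  have hne : ∀ v, v ∈ X₁ ∨ v ∈ X₂ → ∀ σ, v ≠ .inl ⟨σ, (Ct σ).bc (k, !σ)⟩ := fun v k σ => by
    rcases Content.gstk_bool s σ with rfl | rfl <;> rcases k with k | k
    · exact hn.2.2 v k _ (Or.inl rfl)
    · exact fun e => hn.2.1.1 (Or.inl (e ▸ k))
    · exact hn.2.2 v k _ (Or.inr (Or.inr (Or.inl rfl)))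
    · exact hn.2.1.2.2.2 v k _ (Or.inl rfl)
  have hs₁ := List.pairwise_cons.1 (List.pairwise_append.1 hs).2.1
  have hs₂ := (List.pairwise_append.1 hs₁.2).2.2
  obtain ⟨a, ha⟩ := cell_end (h := h) (hv := hv) (hL₁ := hL₁) (hL₂ := hL₂) (hL₃ := hL₃) k s
  obtain ⟨b, hb⟩ := cell_end (h := h) (hv := hv) (hL₁ := hL₁) (hL₂ := hL₂) (hL₃ := hL₃) k (!s)
  have h₂ : (X₂.map Sum.inl).filterMap ((stk Ct h hv L hL₁ hL₂ hL₃).grid.cell
      (stk Ct h hv L hL₁ hL₂ hL₃).rz (.inl (.inr k))) = [] := by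
    rw [List.filterMap_map, List.filterMap_eq_nil_iff]
    intro v k₂
    refine cell_between k (hL v (Or.inr k₂)) (hne v (Or.inr k₂)) (le_antisymm ?_ ?_)
    · exact hx (!s) ▸ hs₂ v k₂ _ List.mem_cons_self
    · exact hx s ▸ hs₁.1 v (List.mem_append_left _ k₂)
  have h₁ : ∀ c ∈ (X₁.map Sum.inl).filterMap ((stk Ct h hv L hL₁ hL₂ hL₃).grid.cell
      (stk Ct h hv L hL₁ hL₂ hL₃).rz (.inl (.inr k))), ∃ x o, c = Cell.thru x o := by
    intro c hc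
    obtain ⟨_, k₀, e⟩ := List.mem_filterMap.1 hc
    obtain ⟨v, k₁, rfl⟩ := List.mem_map.1 k₀
    refine Grid.WEvs_cell_thru (fun t e' => ?_) e
    obtain ⟨σ, c, -, rfl⟩ := mem_L hL₁ (hL v (Or.inl k₁))
    obtain ⟨rfl, -⟩ := ((Ct σ).nb_eq_inr c t _).1 (ph_eq_mid e')
    exact hne _ (Or.inl k₁) σ rfl
  generalize (stk Ct h hv L hL₁ hL₂ hL₃).grid.cell (stk Ct h hv L hL₁ hL₂ hL₃).rz
    (.inl (.inr k)) = f at ha hb h₁ h₂
  rw [ph_inl] at ha hb
  rw [hX, List.map_append, List.map_cons, List.map_append, List.map_cons, List.filterMap_append,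
    List.filterMap_cons_some ha, List.filterMap_append, List.filterMap_cons_some hb, h₂]
  exact Grid.evb_evLeft_nil _ _ h₁ a b s []

theorem stk_word : (stk Ct h hv L hL₁ hL₂ hL₃).word = (Ct false).word ++ (Ct true).word := by
  rw [← evs_side (h := h) (hv := hv) (hL₁ := hL₁) (hL₂ := hL₂) (hL₃ := hL₃) false,
    ← evs_side (h := h) (hv := hv) (hL₁ := hL₁) (hL₂ := hL₂) (hL₃ := hL₃) true]
  have e : (stk Ct h hv L hL₁ hL₂ hL₃).grid.evs (stk Ct h hv L hL₁ hL₂ hL₃).rz (L.map .inl)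
      ((List.ofFn fun k => .inr k).map .inl) = [] := by
    rw [Grid.evs, List.flatMap_eq_nil_iff]
    intro e he
    obtain ⟨_, he', rfl⟩ := List.mem_map.1 he
    obtain ⟨k, rfl⟩ := List.mem_ofFn.1 he'
    exact row_mid k
  show Grid.evs _ _ (L.map Sum.inl) ((YY Ct).map Sum.inl) = _
  rw [YY, List.map_append, List.map_append, Grid.evs_append, Grid.evs_append, e, List.append_nil]

theorem hasPic [∀ σ, Fintype (J σ)] (Ct : ∀ σ, Content Co (J σ)) (h : Straight Co x)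
    (hv : ∀ σ, (Ct σ).Vert) :
    HasPic Co (Prod.map id (sq (-1)) '' {y ∈ (Ct false).pic | y.2 1 ≤ 1} ∪
      Prod.map id (sq 1) '' {y ∈ (Ct true).pic | -1 ≤ y.2 1})
      ((Ct false).word ++ (Ct true).word) := by
  have k : ∀ σ, (em σ (Ct σ).Xb : List (II J n)).Pairwise
      fun a b => (cf x Ct).pt (.inl a) 0 ≤ (cf x Ct).pt (.inl b) 0 := fun σ =>
    List.pairwise_map.2 (Ct σ).sortX
  obtain ⟨L, h1, h2, h3, h4⟩ := gstk_merge (fun a => (cf x Ct).pt (.inl a) 0) _ _ (k false) (k true)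
  refine ⟨II J n, inferInstance, inferInstance, stk Ct h hv L h1 h2 (Bool.rec h3 h4), stk_vert,
    ?_, stk_word⟩
  ext y
  rw [stk_pic, Bool.exists_bool]
  simp only [gsg, if_true, Bool.false_eq_true, if_false, neg_mul, one_mul, neg_le_neg_iff]
  rfl

end Gstk

theorem HasPic.stack {Co : Collar n ι} {x : Fin n → ℝ} (h : Straight Co x) {A₁ A₂ : Pic ι}
    {w₁ w₂ : List (Sl (Nm ι))} (h₁ : HasPic Co A₁ w₁) (h₂ : HasPic Co A₂ w₂) :
    HasPic Co (Prod.map id (sq (-1)) '' {y ∈ A₁ | y.2 1 ≤ 1} ∪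
      Prod.map id (sq 1) '' {y ∈ A₂ | -1 ≤ y.2 1}) (w₁ ++ w₂) := by
  obtain ⟨I₁, f₁, d₁, C₁, v₁, rfl, rfl⟩ := h₁
  obtain ⟨I₂, f₂, d₂, C₂, v₂, rfl, rfl⟩ := h₂
  exact @Gstk.hasPic ι n Co x (fun σ => Bool.rec I₁ I₂ σ) (fun σ => Bool.rec d₁ d₂ σ)
    (fun σ => Bool.rec f₁ f₂ σ) (fun σ => Bool.rec C₁ C₂ σ) h (fun σ => Bool.rec v₁ v₂ σ)

end Pool.Agent.P.MP_ac4909_gt.B
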