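import Pool.Agent.P.MP_ac4909_gt.B.GB_Id
import Pool.Agent.P.MP_ac4909_gt.B.GB_Pad
import Pool.Agent.P.MP_ac4909_gt.B.GB_Cap
import Pool.Agent.P.MP_ac4909_gt.B.GB_Stack

/-! Layer G, blocks: Temperley-Lieb pictures and the band of a handle slide. -/

namespace Pool.Agent.P.MP_ac4909_gt.B

open scoped ContDiff
open Set Filter Topology

variable {ι : Type}

theorem capData_std {x₀ x₁ : ℝ} (h : x₀ < x₁) :
    CapData x₀ x₁ (capx x₀ x₁) (fun u => -1 / 4 - u ^ 2) (-1) (-1 / 2) 0 (1 / 2) 1 := by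
  refine ⟨by norm_num, by norm_num, by norm_num, by norm_num, ?_, by fun_prop, fun u hu => ?_,
    fun u hu => ?_, fun u hu v hv huv => ?_, fun u hu v hv huv => ?_, fun u hu v hv huv => ?_,
    by norm_num, by norm_num, by norm_num, by norm_num, by norm_num⟩
  · exact (continuous_const.add (continuous_const.mul st_contDiff.continuous)).continuousOn
  · rw [capx, st_of_le hu.2]
    ring
  · rw [capx, st_of_ge hu.1]
    ring
  · have := mul_lt_mul_of_pos_left (st_strictMonoOn hu hv huv) (half_pos (sub_pos.2 h))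
    simp only [capx]
    linarith
  · nlinarith [hv.2]
  · nlinarith [hu.1]

theorem gtl_ext {p : E3} {a b : ℝ} (h0 : p 0 = a) (h1 : p 1 = b) (h2 : p 2 = 0) :
    (!₂[a, b, 0] : E3) = p := by
  ext k
  fin_cases k
  · exact h0.symm
  · exact h1.symm
  · exact h2.symm

theorem gtl_ray {x₀ x₁ u : ℝ} {p : E3} (h0 : p 0 = capx x₀ x₁ u) (h1 : u ^ 2 = |p 1| - 1 / 4)
    (h2 : p 2 = 0) : p ∈ range (fun u : ℝ => (!₂[capx x₀ x₁ u, -1 / 4 - u ^ 2, 0] : E3)) ∪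
      range fun u : ℝ => (!₂[capx x₀ x₁ u, 1 / 4 + u ^ 2, 0] : E3) := by
  rcases le_total (p 1) 0 with h | h
  · rw [abs_of_nonpos h] at h1
    exact Or.inl ⟨u, gtl_ext h0 (by linarith) h2⟩
  · rw [abs_of_nonneg h] at h1
    exact Or.inr ⟨u, gtl_ext h0 (by linarith) h2⟩

theorem gtl_capPic (x₀ x₁ : ℝ) :
    capPic x₀ x₁ (capx x₀ x₁) (fun u => -1 / 4 - u ^ 2) (-1 / 2) (1 / 2) =
      range (fun u : ℝ => (!₂[capx x₀ x₁ u, -1 / 4 - u ^ 2, 0] : E3)) ∪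
        range fun u : ℝ => (!₂[capx x₀ x₁ u, 1 / 4 + u ^ 2, 0] : E3) := by
  have l : ∀ u, u ≤ -1 / 2 → capx x₀ x₁ u = x₀ := fun u hu => by
    rw [capx, st_of_le hu]
    ring
  have r : ∀ u, 1 / 2 ≤ u → capx x₀ x₁ u = x₁ := fun u hu => by
    rw [capx, st_of_ge hu]
    ring
  have key : ∀ (u : ℝ) (p : E3), p 0 = capx x₀ x₁ u → 1 / 4 + u ^ 2 ≤ |p 1| → p 2 = 0 →
      u ∉ Icc (-1 / 2 : ℝ) (1 / 2) →
      p ∈ capPic x₀ x₁ (capx x₀ x₁) (fun u => -1 / 4 - u ^ 2) (-1 / 2) (1 / 2) := by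
    intro u p h0 h1 h2 hu
    rcases not_and_or.1 hu with h | h
    · have h := (not_le.1 h).le
      exact Or.inr (Or.inl ⟨h0.trans (l u h), by nlinarith, h2⟩)
    · have h := (not_le.1 h).le
      exact Or.inr (Or.inr ⟨h0.trans (r u h), by nlinarith, h2⟩)
  refine Subset.antisymm ?_ ?_
  · rintro p ((⟨u, -, rfl⟩ | ⟨u, -, rfl⟩) | ⟨h0, h1, h2⟩ | ⟨h0, h1, h2⟩)
    · exact Or.inl ⟨u, rfl⟩
    · exact Or.inr ⟨u, gtl_ext rfl (show -(-1 / 4 - u ^ 2) = _ by ring) rfl⟩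
    · have h3 : (1 : ℝ) / 2 ≤ √(|p 1| - 1 / 4) := Real.le_sqrt_of_sq_le (by linarith)
      refine gtl_ray (u := -√(|p 1| - 1 / 4)) (h0.trans (l _ (by linarith)).symm) ?_ h2
      rw [neg_sq, Real.sq_sqrt (by linarith)]
    · have h3 : (1 : ℝ) / 2 ≤ √(|p 1| - 1 / 4) := Real.le_sqrt_of_sq_le (by linarith)
      exact gtl_ray (h0.trans (r _ h3).symm) (Real.sq_sqrt (by linarith)) h2
  · rintro p (⟨u, rfl⟩ | ⟨u, rfl⟩)
    · by_cases hu : u ∈ Icc (-1 / 2 : ℝ) (1 / 2)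
      · exact Or.inl (Or.inl ⟨u, hu, rfl⟩)
      · refine key u _ rfl (le_trans (le_of_eq ?_) (neg_le_abs _)) rfl hu
        show _ = -(-1 / 4 - u ^ 2)
        ring
    · by_cases hu : u ∈ Icc (-1 / 2 : ℝ) (1 / 2)
      · exact Or.inl (Or.inr ⟨u, hu, gtl_ext rfl (show 1 / 4 + u ^ 2 = _ by ring) rfl⟩)
      · exact key u _ rfl (le_abs_self _) rfl hu

theorem gtl_mem {xs : List (ℝ × Option ι)} {i : ℕ} {t : ℝ} :
    t ∈ (xs.map Prod.fst).take i ++ (xs.map Prod.fst).drop (i + 2) ↔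
      ∃ k : Fin xs.length, ((k : ℕ) < i ∨ i + 2 ≤ k) ∧ t = (xs.get k).1 := by
  rw [List.mem_append, List.mem_take_iff_getElem, List.mem_drop_iff_getElem]
  constructor
  · rintro (⟨j, hj, rfl⟩ | ⟨j, hj, rfl⟩)
    · rw [List.length_map] at hj
      exact ⟨⟨j, by omega⟩, Or.inl (by simp only; omega), by simp⟩
    · rw [List.length_map] at hj
      exact ⟨⟨i + 2 + j, by omega⟩, Or.inr (by simp only; omega), by simp⟩
  · rintro ⟨k, hk | hk, rfl⟩
    · exact Or.inl ⟨k, by rw [List.length_map]; omega, by simp⟩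
    · refine Or.inr ⟨k - (i + 2), by rw [List.length_map]; omega, ?_⟩
      simp only [List.getElem_map, List.get_eq_getElem, Nat.add_sub_cancel' hk]

theorem hasPic_e {xs : List (ℝ × Option ι)} (h : PosOK (xs.map Prod.fst))
    (hn : ∀ x ∈ xs, x.2 = none) {i : ℕ} (hi : i + 2 ≤ xs.length) :
    HasPic (vcol xs h) (nn (eSet (xs.map Prod.fst) i)) (eW [] xs.length [] [i]) := by
  have mono : ∀ k k' : Fin xs.length, k < k' → (xs.get k).1 < (xs.get k').1 :=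
    List.pairwise_iff_get.1 (List.pairwise_map.1 h.1)
  let k₀ : Fin xs.length := ⟨i, by omega⟩
  let k₁ : Fin xs.length := ⟨i + 1, by omega⟩
  have h01 : (xs.get k₀).1 < (xs.get k₁).1 := mono _ _ (Nat.lt_succ_self i)
  have hp : PosOK [(xs.get k₀).1, (xs.get k₁).1] := by
    refine ⟨by simpa using h01, fun x hx => ?_⟩
    simp only [List.mem_cons, List.not_mem_nil, or_false] at hx
    rcases hx with rfl | rfl <;> exact h.2 _ (List.mem_map_of_mem (List.get_mem xs _))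
  have hc := capData_std h01
  have key := (hasPic_cap (ι := ι) hp hc).pad (Co' := vcol xs h) i hi (fun k => (xs.get k).1)
    (fun _ => 0) (fun _ => none)
    (fun k σ => by
      fin_cases k
      · exact ⟨rfl, rfl, hn _ (List.get_mem xs _)⟩
      · exact ⟨rfl, rfl, hn _ (List.get_mem xs _)⟩)
    (fun k σ _ => ⟨fun _ => rfl, rfl, hn _ (List.get_mem xs _)⟩)
    (fun y hy => (hc.capPic_mem hy.2).2.2)
    (fun k hk => Or.inl fun y hy => (mono k k₀ hk).trans_le (hc.capPic_mem hy.2).1)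
    (fun k hk y hy => (hc.capPic_mem hy.2).2.1.trans_lt (mono k₁ k hk))
    (fun k k' hk _ _ => mono k k' hk)
  have e0 : (xs.map Prod.fst).getD i 0 = (xs.get k₀).1 := by
    rw [List.getD_eq_getElem _ _ (by rw [List.length_map]; omega), List.getElem_map]
    rfl
  have e1 : (xs.map Prod.fst).getD (i + 1) 0 = (xs.get k₁).1 := by
    rw [List.getD_eq_getElem _ _ (by rw [List.length_map]; omega), List.getElem_map]
    rfl
  convert key using 1
  · rw [eSet, e0, e1, ← gtl_capPic]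
    ext y
    constructor
    · rintro ⟨h1, h2 | h2⟩
      · obtain ⟨k, hk, h3⟩ := gtl_mem.1 h2.1
        exact Or.inr ⟨k, hk, h1, h3, h2.2⟩
      · exact Or.inl ⟨h1, h2⟩
    · rintro (⟨h1, h2⟩ | ⟨k, hk, h1, h2, h3⟩)
      · exact ⟨h1, Or.inr h2⟩
      · exact ⟨h1, Or.inl ⟨gtl_mem.2 ⟨k, hk, h2⟩, h3⟩⟩
  · rw [List.ofFn_const, List.take_replicate, List.drop_replicate, min_eq_left (by omega)]
    simp [eW, pad, Nm.no]

theorem gtl_nn (f : E3 → E3) (A : Set E3) (P : E3 → Prop) :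
    Prod.map id f '' {y ∈ (nn A : Pic ι) | P y.2} = nn (f '' (A ∩ {p | P p})) := by
  ext y
  constructor
  · rintro ⟨z, ⟨h1, h2⟩, rfl⟩
    exact ⟨h1.1, z.2, ⟨h1.2, h2⟩, rfl⟩
  · rintro ⟨h1, p, ⟨h2, h3⟩, h4⟩
    exact ⟨(y.1, p), ⟨⟨h1, h2⟩, h3⟩, Prod.ext rfl h4⟩

theorem hasPic_stackSet {xs : List (ℝ × Option ι)} (h : PosOK (xs.map Prod.fst))
    (hn : ∀ x ∈ xs, x.2 = none) (w : List ℕ) (hw : ∀ i ∈ w, i + 2 ≤ xs.length) :
    HasPic (vcol xs h) (nn (stackSet (xs.map Prod.fst) w)) (eW [] xs.length [] w) := by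
  induction w with
  | nil =>
    refine (congrArg (fun A => HasPic (vcol xs h) A []) ?_).mpr (hasPic_id xs h)
    ext y
    constructor
    · rintro ⟨h1, h2, h3⟩
      obtain ⟨x, hx, h4⟩ := List.mem_map.1 h2
      exact ⟨x, hx, (mem_singleton_iff.1 h1).trans (hn x hx).symm, h4.symm, h3⟩
    · rintro ⟨x, hx, h1, h2, h3⟩
      exact ⟨h1.trans (hn x hx), List.mem_map.2 ⟨x, hx, h2.symm⟩, h3⟩
  | cons i w ih =>
    have key := HasPic.stack (vcol_straight xs h) (hasPic_e h hn (hw i List.mem_cons_self))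
      (ih fun j hj => hw j (List.mem_cons_of_mem _ hj))
    rw [gtl_nn _ _ fun p => p 1 ≤ 1, gtl_nn _ _ fun p => -1 ≤ p 1] at key
    convert key using 1
    · rw [stackSet, nn, nn, nn, prod_union]
    · simp [eW]

theorem hasContent_band (i : ι) {δ : ℝ} (hδ : δ ∈ Ioc (0 : ℝ) (1 / 2)) {hx hy : ℝ → ℝ}
    {a u₁ u₀ u₂ b : ℝ} (hc : CapData (-1 / 4) (1 / 4) hx hy a u₁ u₀ u₂ b) :
    HasContent (scol i δ hδ)
      (nn (capCup hx hy a b) ∪ {y | y.1 = some i ∧ y.2 0 = -1 / 4 ∧ y.2 2 = -δ})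
      [⟨[⟨some i⟩], .cap Nm.no, []⟩, ⟨[⟨some i⟩], .cup Nm.no, []⟩] := by
  obtain ⟨I, i1, i2, Ct, -, h1, h2⟩ := (hasPic_cap (ι := ι) posOK_q hc).pad (Co' := scol i δ hδ) 1
    le_rfl (fun _ => -1 / 4) (fun _ => -δ) (fun _ => some i)
    (fun k σ => by fin_cases k <;> exact ⟨rfl, rfl, rfl⟩)
    (fun k σ hk => by
      obtain rfl : k = 0 := Fin.ext (by have := k.2; simp only [Fin.val_zero]; omega)
      exact ⟨fun _ => rfl, rfl, rfl⟩)
    (fun y hy => (hc.capPic_mem hy.2).2.2)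
    (fun k _ => Or.inr ⟨neg_neg_of_pos hδ.1, fun y hy => (hc.capPic_mem hy.2).1⟩)
    (fun k hk => by have := k.2; omega)
    (fun k k' hk h1 h2 => by have := k.2; have := k'.2; have : (k : ℕ) < k' := hk; omega)
  refine ⟨I, i1, i2, Ct, fun y hy => ?_, h2⟩
  rw [h1]
  refine or_congr (and_congr_right fun _ => hc.capPic_iff hy) ⟨?_, fun h => ?_⟩
  · rintro ⟨k, -, h⟩
    exact h
  · exact ⟨0, Or.inl Nat.zero_lt_one, h⟩

end Pool.Agent.P.MP_ac4909_gt.B
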