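import Pool.Agent.P.MP_ac4909_gt.B.GB_Core
import Pool.Agent.P.MP_ac4909_gt.B.GB_Gap
import Pool.Agent.P.MP_ac4909_gt.B.GB_ODbl
import Pool.Agent.P.MP_ac4909_gt.B.GB_TL
import Pool.Agent.P.MP_ac4909_gt.B.GB_BDbl

/-! Layer G, blocks: the handle slide for vertical framings. -/

namespace Pool.Agent.P.MP_ac4909_gt.B

open scoped ContDiff
open Set Filter Topology

variable {ι P : Type} [DecidableEq ι]

section Geo
variable {T T' : LS ι} {i : ι} {δ : ℝ} {B : Set E3}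

omit [DecidableEq ι] in
theorem gsln_low (h : {x ∈ T' | x.1 = some i} =
    (fun x => (x.1, x.2.1 - δ • ez, x.2.2)) '' {x ∈ T | x.1 = some i}) (p v : E3) :
    (some i, p, v) ∈ T' ↔ (some i, p + δ • ez, v) ∈ T := by
  have := Set.ext_iff.1 h (some i, p, v)
  simp only [mem_ofPred_eq, and_true, mem_image] at this
  rw [this]
  constructor
  · rintro ⟨⟨o, q, w⟩, ⟨hx, -⟩, e⟩
    simp only [Prod.mk.injEq] at e
    obtain ⟨rfl, rfl, rfl⟩ := e
    simpa using hx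
  · intro hx
    exact ⟨_, ⟨hx, rfl⟩, by simp⟩

theorem gsln_out (h : SOut (7 / 8) {x ∈ T' | x.1 ≠ some i} =
    (fun x => (unlab i x.1, x.2)) '' SOut (7 / 8) T) {o : Option ι} (ho : o ≠ some i) {p : E3}
    (hp : p ∉ Qb (7 / 8)) (v : E3) :
    (o, p, v) ∈ T' ↔ (o, p, v) ∈ T ∨ (o = none ∧ (some i, p, v) ∈ T) := by
  have := Set.ext_iff.1 h (o, p, v)
  simp only [SOut, mem_ofPred_eq, mem_image, hp, not_false_eq_true, and_true, ne_eq, ho] at this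
  rw [this]
  constructor
  · rintro ⟨⟨o', q, w⟩, ⟨hx, -⟩, e⟩
    simp only [Prod.mk.injEq] at e
    obtain ⟨e, rfl, rfl⟩ := e
    by_cases h' : o' = some i
    · subst h'
      exact Or.inr ⟨by simpa [unlab] using e.symm, hx⟩
    · rw [unlab, if_neg h'] at e
      exact Or.inl (e ▸ hx)
  · rintro (hx | ⟨rfl, hx⟩)
    · exact ⟨_, ⟨hx, hp⟩, by simp [unlab, ho]⟩
    · exact ⟨_, ⟨hx, hp⟩, by simp [unlab]⟩

theorem gsln_vert (hv : Vertical T) (h₁ : {x ∈ T' | x.1 = some i} =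
    (fun x => (x.1, x.2.1 - δ • ez, x.2.2)) '' {x ∈ T | x.1 = some i})
    (h₂ : SOut (7 / 8) {x ∈ T' | x.1 ≠ some i} = (fun x => (unlab i x.1, x.2)) '' SOut (7 / 8) T)
    (h₃ : Std (7 / 8) {x ∈ T' | x.1 ≠ some i} (nn B)) : Vertical T' := by
  rintro ⟨o, p, v⟩ hx
  by_cases ho : o = some i
  · subst ho
    exact hv (some i, p + δ • ez, v) ((gsln_low h₁ p v).1 hx)
  by_cases hp : p ∈ Qb (7 / 8)
  · exact ((h₃.mem_iff (x := (o, p, v)) hp).1 ⟨hx, ho⟩).2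
  · rcases (gsln_out h₂ ho hp v).1 hx with h | ⟨-, h⟩
    · exact hv _ h
    · exact hv (some i, p, v) h

theorem gsln_pic (h₁ : {x ∈ T' | x.1 = some i} =
    (fun x => (x.1, x.2.1 - δ • ez, x.2.2)) '' {x ∈ T | x.1 = some i})
    (h₂ : SOut (7 / 8) {x ∈ T' | x.1 ≠ some i} = (fun x => (unlab i x.1, x.2)) '' SOut (7 / 8) T)
    (y : Option ι × E3) (hy : y.2 ∉ Qb (7 / 8)) :
    y ∈ picOf T' ↔ y ∈ dblPic i δ (picOf T) := by
  obtain ⟨o, p⟩ := y
  by_cases ho : o = some i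
  · subst ho
    simp only [picOf, dblPic, mem_ofPred_eq, gsln_low h₁, true_and, ne_eq, not_true_eq_false,
      false_and, or_false]
  · simp only [picOf, dblPic, mem_ofPred_eq, gsln_out h₂ ho hy, ho, false_and, false_or, ne_eq,
      not_false_eq_true, true_and]

theorem gsln_std (h : Std (29 / 32) T (strands [(-1 / 4, some i), (1 / 4, none)]))
    (h₀ : 0 < δ) (hδ : δ ≤ 1 / 64) (h₁ : {x ∈ T' | x.1 = some i} =
    (fun x => (x.1, x.2.1 - δ • ez, x.2.2)) '' {x ∈ T | x.1 = some i})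
    (h₃ : Std (7 / 8) {x ∈ T' | x.1 ≠ some i} (nn B)) :
    Std (7 / 8) T' (nn B ∪ {y | y.1 = some i ∧ y.2 0 = -1 / 4 ∧ y.2 2 = -δ}) := by
  refine ggeq_std.2 ?_
  rintro ⟨o, p, v⟩ hp
  by_cases ho : o = some i
  · subst ho
    have hq : p + δ • ez ∈ Qb (29 / 32) := fun j => by
      have := abs_lt.1 (hp j)
      rw [abs_lt]
      fin_cases j <;> simp [ez] at this ⊢ <;> constructor <;> linarith [this.1, this.2]
    rw [gsln_low h₁, h.mem_iff (x := (some i, p + δ • ez, v)) hq]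
    simp [strands, nn, ez, add_eq_zero_iff_eq_neg]
  · have := h₃.mem_iff (x := (o, p, v)) hp
    simp only [mem_ofPred_eq, ne_eq, ho, not_false_eq_true, and_true] at this
    rw [this]
    simp [ho]

end Geo

omit [DecidableEq ι] in
theorem gsln_margin {n : ℕ} {Co : Collar n ι} {A : Pic ι} {O : Type} {Ou : Outer Co A O}
    {d d' : ℝ} (h : Ou.Margin d) (hd : d' ≤ d) : Ou.Margin d' := fun a a' hf => by
  rcases h a a' hf with h | h | h
  · exact Or.inl h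
  · exact Or.inr (Or.inl fun p hp q hq => by linarith [h p hp q hq])
  · exact Or.inr (Or.inr fun p hp q hq => by linarith [h p hp q hq])

omit [DecidableEq ι] in
theorem gsln_fg_rev (x : Option (Arc ι)) : fg (Rev.rev x) = Rev.rev (fg x) := by
  cases x <;> rfl

omit [DecidableEq ι] in
/-- labels are constant along the chain -/
theorem gsln_lab {N : Type} {G : Grid N (Option (Arc ι))} (hG : G.OK) {lb : N → Option ι}
    (h : ∀ a s, (G.dl a (G.nb a s)).map Arc.name = lb a) (a : N) (s : Bool) :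
    (G.dl (G.nb a s) a).map Arc.name = lb (G.nb a s) ∧ lb (G.nb a s) = lb a := by
  obtain ⟨s', hs⟩ := hG.adj_symm a s
  have h₁ := h (G.nb a s) s'
  rw [hs] at h₁
  refine ⟨h₁, ?_⟩
  rw [← h₁, hG.dl_rev, ← h a s]
  cases G.dl a (G.nb a s) <;> rfl

theorem gsln_dsh {N : Type} (D : N → Bool) {δ : ℝ} (hδ : 0 < δ) (a : N ⊕ {a // D a = true}) :
    -δ ≤ dsh D (-δ) 0 a ∧ dsh D (-δ) 0 a ≤ 0 := by
  rcases a with a | a
  · simp only [dsh, Sum.elim_inl]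
    split_ifs <;> constructor <;> linarith
  · simp only [dsh, Sum.elim_inr]
    constructor <;> linarith

/-- the combinatorial part of the slide -/
theorem gsln_eqv {x : Arc ι} {D₁ D₂ E₁ E₂ : List (Sl (Option (Arc ι)))}
    {l r : List (Option (Arc ι))}
    (h₁ : Eqv true [] ((l ++ [some x, none] ++ r).flatMap (pushoff x)) E₁ (cable (pushoff x) D₁))
    (h₂ : Eqv true ((l ++ [some x, none] ++ r).flatMap (pushoff x)) [] E₂ (cable (pushoff x) D₂)) :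
    Eqv true [] [] (E₁.map (Sl.map fg) ++
      [(⟨[⟨some x.name⟩], .cap Nm.no, []⟩ : Sl (Nm ι)), ⟨[⟨some x.name⟩], .cup Nm.no, []⟩].map
        (pad ((l.flatMap (pushoff x)).map fg) ((r.flatMap (pushoff x)).map fg)) ++
      E₂.map (Sl.map fg)) ((slideW D₁ D₂ l r x).map (Sl.map fg)) := by
  have e : (l ++ [some x, none] ++ r).flatMap (pushoff x) =
      l.flatMap (pushoff x) ++ [some x] ++ [none, none] ++ r.flatMap (pushoff x) := by
    simp [pushoff]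
  rw [e] at h₁ h₂
  have h₃ : Run (l.flatMap (pushoff x) ++ [some x] ++ [none, none] ++ r.flatMap (pushoff x))
      [⟨l.flatMap (pushoff x) ++ [some x], .cap none, r.flatMap (pushoff x)⟩,
        ⟨l.flatMap (pushoff x) ++ [some x], .cup none, r.flatMap (pushoff x)⟩]
      (l.flatMap (pushoff x) ++ [some x] ++ [none, none] ++ r.flatMap (pushoff x)) :=
    ⟨rfl, rfl, rfl⟩
  have h₄ := ((h₁.append (Eqv.refl h₃)).append h₂).map fg gsln_fg_rev
  refine h₄.wd_cast rfl rfl ?_ rfl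
  simp [Sl.map, Gen.map, pad, fg, Nm.no]

theorem gsln_main (E : EvSys ι P) {i : ι} {A : Pic ι} {O I : Type} [Fintype O] [DecidableEq O]
    [DecidableEq I] (Ou : Outer (tcol i) A O) (Ct : Content (tcol i) I)
    {dl : O ⊕ I → O ⊕ I → Option (Arc ι)} (hG : ((Ou.glue Ct).grid dl).OK)
    (hl : ∀ a s, (dl a ((Ou.glue Ct).nb a s)).map Arc.name = Sum.elim Ou.lb Ct.lb a)
    {e : Fin 2 → I} (hXb : Ct.Xb = [Ct.bc (0, false), Ct.bc (0, true), Ct.bc (1, false),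
      Ct.bc (1, true)]) (hYb : Ct.Yb = [e 0, e 1])
    (hnb : ∀ b, Ct.C.nb (.inl (Ct.bc b)) true = .inl (e b.1))
    {d η δ : ℝ} (hF : Ou.Fine d η) (hδ : δ ∈ Ioc (0 : ℝ) (1 / 2)) (h₁ : 2 * η ≤ δ) (h₂ : δ ≤ d)
    (h₃ : δ ≤ 1 / 64) (hA : ∀ y ∈ A, y.2 ∈ Qb (29 / 32) → y.2 2 = 0) :
    ∃ (D₁ D₂ : List (Sl (Option (Arc ι)))) (l r : List (Option (Arc ι))) (x : Arc ι),
      Run [] D₁ (l ++ some x :: none :: r) ∧
      ((Ou.glue Ct).grid dl).word (Ou.glueRz Ct) = D₁ ++ D₂ ∧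
      ∀ T' A', IsLL T' → Vertical T' →
        (∀ y : Option ι × E3, y.2 ∉ Qb (7 / 8) → (y ∈ picOf T' ↔ y ∈ dblPic i δ A)) →
        Std (7 / 8) T' A' → HasContent (scol i δ hδ) A'
          [⟨[⟨some i⟩], .cap Nm.no, []⟩, ⟨[⟨some i⟩], .cup Nm.no, []⟩] →
        ∀ p, zv E T' p = E.ev p ((slideW D₁ D₂ l r x).map (Sl.map fg)) := by
  have hB := Ou.glue_blk Ct hG
  have hρ : ∀ b, (dl (.inl (Ou.ρ b)) (.inr (Ct.bc b))).map Arc.name = (tcol i).lab b := fun b => by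
    have := hl (.inl (Ou.ρ b)) (Ou.sd b)
    rwa [Ou.glue_nb_ρ, Sum.elim_inl, Ou.lb_ρ] at this
  obtain ⟨x, hx, hxi⟩ : ∃ x, dl (.inl (Ou.ρ (0, false))) (.inr (Ct.bc (0, false))) = some x ∧
      x.name = i := Option.map_eq_some_iff.1 (hρ (0, false))
  have hn : dl (.inl (Ou.ρ (1, false))) (.inr (Ct.bc (1, false))) = none :=
    Option.map_eq_none_iff.1 (hρ (1, false))
  obtain ⟨D, hDi⟩ : ∃ D : O ⊕ I → Bool, ∀ a, D a = true ↔ Sum.elim Ou.lb Ct.lb a = some i :=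
    ⟨fun a => decide (Sum.elim Ou.lb Ct.lb a = some i), fun a => decide_eq_true_iff⟩
  have hlb := gsln_lab (lb := Sum.elim Ou.lb Ct.lb) hG hl
  have hD : ∀ a s, D (((Ou.glue Ct).grid dl).nb a s) = D a := fun a s => by
    rw [Bool.eq_iff_iff, hDi, hDi, (hlb a s).2]
  obtain ⟨h0, fX, fY, R', Xb', Yb', ρ', bc', hz', hB', hρ', hr₁, hr₂, he₁, he₂⟩ :=
    hB.dbl_slide (x := x) (e := fun k => .inr (e k)) (by rw [hXb]; rfl) (by rw [hYb]; rfl)
      (fun b => Ou.glue_nb_in Ct (hnb b)) hx hn hD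
      (fun a s => by rw [hDi, hxi, ← hl a s]; rfl)
      (fun a => (Ou.glue Ct).pt (Sum.elim id Subtype.val a) 2 + dsh D (-δ) 0 a)
      (fun v f hc hvf => by
        have hg := Ou.cross_gap Ct (fun _ => rfl) (gsln_margin hF.margin h₂)
          (h₃.trans (by norm_num)) dl hc (by
            rcases hvf with ⟨o, ho⟩ | ⟨o, ho⟩
            · exact Or.inl (by rw [ho]; rfl)
            · exact Or.inr (by rw [ho]; rfl))
        have a₁ := gsln_dsh D hδ.1 v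
        have a₂ := gsln_dsh D hδ.1 f
        change _ ↔ (Ou.glue Ct).pt _ 2 < (Ou.glue Ct).pt _ 2
        rcases lt_abs.1 hg with hg | hg <;> constructor <;> intro h <;>
          linarith [a₁.1, a₁.2, a₂.1, a₂.2])
  have hrow := hB.rowAt_lo
  have hof : (List.ofFn fun k : Fin 2 => ((Ou.glue Ct).grid dl).dl (.inl (Ou.ρ (k, false)))
      (.inr (Ct.bc (k, false)))) = [some x, none] := by
    rw [← hx, ← hn]; rfl
  rw [hof] at hrow
  have hrun := hB.run_lo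
  rw [hof, List.append_assoc] at hrun
  have hwd := hB.word
  rw [h0, List.map_nil, List.append_nil] at hwd
  refine ⟨_, _, _, _, x, hrun, hwd, ?_⟩
  rintro T' A' hT' hv' ho hi ⟨J, _, _, Ct', hp, hw⟩ p
  obtain ⟨Ou', hX₁, hX₂, hY₁, hY₂, kρ, knb, kz, kl, kr⟩ :=
    Ou.exists_dbl hF hδ h₁ h₂ h₃ hA (D := fun a => D (.inl a)) (fun a => hDi (.inl a)) fX fY
  have eρ : ρ' = Ou'.ρ := by
    funext ⟨k, σ⟩
    obtain ⟨a₀, ⟨_, a₁⟩, a₂, -⟩ := hρ' σ
    obtain ⟨b₀, ⟨_, b₁⟩, b₂⟩ := kρ σ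
    fin_cases k
    · exact a₀.trans b₀.symm
    · exact a₁.trans b₁.symm
    · exact a₂.trans b₂.symm
  have hB₂ := hB'.map fg gsln_fg_rev
  rw [← hX₁, ← hX₂, ← hY₁, ← hY₂, eρ] at hB₂
  have hB₃ := Ou'.glue_blk Ct' (Ou'.glueN_ok Ct')
  have hzo : ∀ a, R'.z (dblMap Sum.inl D a) = (Ou'.glueRz Ct').z (.inl a) := fun a => by
    rw [hz']
    refine Eq.trans ?_ (kz a).symm
    rcases a with a | a <;> rfl
  have hzb : ∀ b, R'.z (bc' b) = (Ou'.glueRz Ct').z (.inr (Ct'.bc b)) := by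
    rintro ⟨k, σ⟩
    obtain ⟨-, -, -, a₀, ⟨_, a₁⟩, a₂⟩ := hρ' σ
    have b₀ : D (.inr (Ct.bc (0, σ))) = true := (hDi _).2 (Ct.lb_bc _)
    have b₁ : D (.inr (Ct.bc (1, σ))) = false := by
      rw [← Bool.not_eq_true, hDi, Sum.elim_inr, Ct.lb_bc]
      simp [tcol, col2]
    have c : ∀ b, (Ou.glue Ct).pt (.inr (Ct.bc b)) 2 = 0 := fun b => by
      change Ct.C.pt (.inl (Ct.bc b)) 2 = 0
      rw [Ct.pt_bc]; rfl
    change _ = Ct'.C.pt (.inl (Ct'.bc (k, σ))) 2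
    rw [Ct'.pt_bc, Collar.cl_two, hz']
    fin_cases k
    · simp [a₀, dsh, b₀, c, scol]
    · simp [a₁, dsh, c, scol]
    · simp [a₂, dsh, b₁, c, scol]
  obtain ⟨c₁, c₂, c₃, c₄⟩ := Blk.congr hB₂ hB₃ (fun v hv s => by
      have hc : Ou.C.col (.inl (wd_und v)) = true := by
        rw [← Ou.memX]
        rw [hX₁, hX₂, ← wd_dblList_append, wd_mem_dblList] at hv
        exact hv
      obtain ⟨a', ha⟩ := Ou.nb_inl (a := wd_und v) (fun b hb => by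
        rw [hb, Ou.col_ρ] at hc
        exact Bool.false_ne_true hc) s
      have hg := Ou.glue_nb_out Ct ha
      obtain ⟨k₁, k₂⟩ := knb _ s a' ha
      rcases v with v | ⟨v, hv'⟩
      · refine ⟨.inl a', congrArg Sum.inl hg, Ou'.glue_nb_out Ct' k₁, ?_⟩
        have := (hlb (.inl v) s).1
        rw [show ((Ou.glue Ct).grid dl).nb (.inl v) s = .inl a' from hg] at this
        exact congrArg Nm.mk ((kl a').trans this.symm)
      · obtain ⟨h', k₃⟩ := k₂ hv'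
        exact ⟨.inr ⟨a', h'⟩, congrArg Sum.inr (Subtype.ext hg), Ou'.glue_nb_out Ct' k₃,
          congrArg Nm.mk (kr _)⟩)
    (by
      rintro ⟨k, σ⟩
      obtain ⟨-, -, -, a₀, ⟨_, a₁⟩, a₂⟩ := hρ' σ
      obtain ⟨b₀, ⟨_, b₁⟩, b₂⟩ := kρ σ
      refine Eq.trans (congrArg Nm.mk (Ou'.lb_ρ (k, σ))) ?_
      fin_cases k
      · simp only [Fin.zero_eta, a₀, b₀]
        exact congrArg Nm.mk (hρ (0, σ)).symm
      · simp only [Fin.mk_one, a₁, b₁]
        rfl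
      · simp only [Fin.reduceFinMk, a₂, b₂]
        exact congrArg Nm.mk (hρ (1, σ)).symm)
    (fun e v => by rw [hzo, hzo]) (fun e b => by rw [hzo, hzb])
  rw [Ou'.zv_glue Ct' E hT' hv' ho (gcore_std hi hp) p]
  refine Eqv.ev_eq E ?_ p
  rw [hrow] at he₁ he₂
  refine (gsln_eqv he₁ he₂).wd_cast rfl rfl ?_ rfl
  refine Eq.trans ?_ hB₃.word.symm
  rw [c₁, c₂, c₃, c₄, hX₁, hX₂, hY₁, hY₂, Grid.evs_map, Grid.evs_map, Grid.rowAt_map,
    Grid.rowAt_map, hr₁, hr₂, hxi, ← hw, ← Ou'.evs_in Ct']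
  rfl

theorem slide_norm (E : EvSys ι P) {T : LS ι} (hT : IsPL T) (hv : Vertical T) {i : ι}
    (h : Std (29 / 32) T (strands [(-1 / 4, some i), (1 / 4, none)]))
    {hx hy : ℝ → ℝ} {a u₁ u₀ u₂ b : ℝ} (hc : CapData (-1 / 4) (1 / 4) hx hy a u₁ u₀ u₂ b) :
    ∀ᶠ δ in 𝓝[>] (0 : ℝ),
      ∃ (D₁ D₂ : List (Sl (Option (Arc ι)))) (l r : List (Option (Arc ι))) (x : Arc ι),
        Run [] D₁ (l ++ some x :: none :: r) ∧ Run [] (D₁ ++ D₂) [] ∧
        IsFramedLink (erase (D₁ ++ D₂)) ∧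
        (∀ p, zv E T p = E.ev p ((D₁ ++ D₂).map (Sl.map fg))) ∧
        ∀ T', IsLL T' → ({x ∈ T' | x.1 = some i} =
            (fun x => (x.1, x.2.1 - δ • ez, x.2.2)) '' {x ∈ T | x.1 = some i}) →
          SOut (7 / 8) {x ∈ T' | x.1 ≠ some i} = (fun x => (unlab i x.1, x.2)) '' SOut (7 / 8) T →
          Std (7 / 8) {x ∈ T' | x.1 ≠ some i} (nn (capCup hx hy a b)) →
          ∀ p, zv E T' p = E.ev p ((slideW D₁ D₂ l r x).map (Sl.map fg)) := by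
  classical
  obtain ⟨Ct, -, hbc, hnb, -, hXb, hYb, hpic, -⟩ := exists_idContent (Co := tcol i)
    (x := fun k => if k = 0 then -1 / 4 else 1 / 4) ⟨fun _ _ => rfl, fun _ => rfl, fun _ => rfl⟩
  have hi : Std (7 / 8) T Ct.pic := (h.mono (by norm_num)).congr fun y _ => by
    rw [hpic]
    simp [strands, tcol, col2, Fin.exists_fin_two]
  obtain ⟨d, hd₀, hd⟩ := exists_outer Ct hT.isLL hv hi
  filter_upwards [Ioc_mem_nhdsGT (lt_min hd₀ (by norm_num : (0 : ℝ) < 1 / 64))] with δ hδ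
  obtain ⟨η, ⟨O, _, Ou, hF⟩, hη⟩ := (hd.and (Ioc_mem_nhdsGT (half_pos hδ.1))).exists
  have h₂ : δ ≤ d := hδ.2.trans (min_le_left _ _)
  have h₃ : δ ≤ 1 / 64 := hδ.2.trans (min_le_right _ _)
  have hδ' : δ ∈ Ioc (0 : ℝ) (1 / 2) := ⟨hδ.1, h₃.trans (by norm_num)⟩
  obtain ⟨K, _, L, ℓ, hL, rfl, hℓ⟩ := hT
  have hν : ∀ c t, L.ν c t = ez := fun c t => hv _ ⟨c, t, rfl⟩
  obtain ⟨dl, hG, hw, hl⟩ := Ou.glue_hasWord Ct hL hν (fun _ _ => Iff.rfl) hi
  have hG' := hG.map (lbA ℓ) (WF_lbA_rev ℓ)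
  obtain ⟨D₁, D₂, l, r, x, hr, hD, H⟩ := gsln_main E Ou Ct (dl := fun a b => lbA ℓ (dl a b)) hG'
    (fun a s => by
      rw [← hl a s, lbA]
      cases ℓ (dl a ((Ou.glue Ct).nb a s)).name <;> rfl)
    (e := .inr) (by rw [hXb, hbc]; rfl) (by rw [hYb]; rfl) (by rw [hbc]; exact hnb) hF hδ'
    (by linarith [hη.2]) h₂ h₃ fun y hy hq => by
      have := ((h.mem_iff (x := (y.1, y.2, ez)) hq).1 hy).1
      obtain ⟨_, -, -, -, h'⟩ := this
      exact h'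
  have hW : D₁ ++ D₂ = (((Ou.glue Ct).grid dl).word (Ou.glueRz Ct)).map (Sl.map (lbA ℓ)) :=
    hD.symm.trans (Grid.evs_map ((Ou.glue Ct).grid dl) (lbA ℓ) _ _ _)
  refine ⟨D₁, D₂, l, r, x, hr, ?_, ?_, fun p => ?_, fun T' hT' k₁ k₂ k₃ =>
    H T' _ hT' (gsln_vert hv k₁ k₂ k₃) (gsln_pic k₁ k₂) (gsln_std h hδ.1 h₃ k₁ k₃)
      (hasContent_band i hδ' hc)⟩
  · rw [hW]
    exact (hw.run hL.isU).map (lbA ℓ) (WF_lbA_rev ℓ)
  · rw [hW]
    exact isFramedLink_erase (hw.isFramedLink hL.isU) ℓ hℓ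
  · rw [hW, zv_vertical E hL hν ℓ hw p, GCVal_map_map, gcore_fg]

end Pool.Agent.P.MP_ac4909_gt.B
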