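import Pool.Agent.P.MP_ac4909_gt.B.GB_Col
import Pool.Agent.P.MP_ac4909_gt.B.GB_Blk

/-! Layer G, blocks: lemmas for stacking two contents. -/

namespace Pool.Agent.P.MP_ac4909_gt.B

open Set

theorem gstk_merge {N : Type} (f : N → ℝ) (A B : List N) (hA : A.Pairwise fun a b => f a ≤ f b)
    (hB : B.Pairwise fun a b => f a ≤ f b) :
    ∃ L : List N, L.Perm (A ++ B) ∧ (L.Pairwise fun a b => f a ≤ f b) ∧ A.Sublist L ∧
      B.Sublist L := by
  induction A generalizing B with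
  | nil => exact ⟨B, by simp, hB, by simp, List.Sublist.refl _⟩
  | cons a A ihA =>
    induction B with
    | nil => exact ⟨a :: A, by simp, hA, List.Sublist.refl _, by simp⟩
    | cons b B ihB =>
      have hA' := List.pairwise_cons.1 hA
      have hB' := List.pairwise_cons.1 hB
      by_cases h : f a ≤ f b
      · obtain ⟨L, h1, h2, h3, h4⟩ := ihA (b :: B) hA'.2 hB
        refine ⟨a :: L, h1.cons a, List.pairwise_cons.2 ⟨fun c hc => ?_, h2⟩, h3.cons_cons a,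
          h4.cons a⟩
        rcases List.mem_append.1 (h1.subset hc) with hc | hc
        · exact hA'.1 c hc
        · rcases List.mem_cons.1 hc with rfl | hc
          · exact h
          · exact h.trans (hB'.1 c hc)
      · obtain ⟨L, h1, h2, h3, h4⟩ := ihB hB'.2
        refine ⟨b :: L, (h1.cons b).trans List.perm_middle.symm,
          List.pairwise_cons.2 ⟨fun c hc => ?_, h2⟩, h3.cons b, h4.cons_cons b⟩
        rcases List.mem_append.1 (h1.subset hc) with hc | hc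
        · rcases List.mem_cons.1 hc with rfl | hc
          · exact (not_le.1 h).le
          · exact (not_le.1 h).le.trans (hA'.1 c hc)
        · exact hB'.1 c hc

theorem gstk_filterMap {N β : Type} {A B L : List N} (hp : L.Perm (A ++ B)) (hs : A.Sublist L)
    (f : N → Option β) (hB : ∀ v ∈ B, f v = none) : L.filterMap f = A.filterMap f := by
  have h1 := (hp.filterMap f).length_eq
  rw [List.filterMap_append, List.filterMap_eq_nil_iff.2 hB, List.append_nil] at h1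
  exact ((hs.filterMap f).eq_of_length h1.symm).symm

theorem gstk_idx_lt {N : Type} [DecidableEq N] {A B : List N} (hn : (A ++ B).Nodup) {u w : N}
    (hu : u ∈ A) (hw : w ∈ B) : (A ++ B).idxOf u < (A ++ B).idxOf w := by
  have h : w ∉ A := fun h => (List.nodup_append.1 hn).2.2 w h w hw rfl
  rw [List.idxOf_append_of_mem hu, List.idxOf_append_of_notMem h]
  have := List.idxOf_lt_length_of_mem hu
  omega

theorem gstk_idx_eq {N N' : Type} [DecidableEq N] [DecidableEq N'] {φ : N → N'}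
    (hφ : Function.Injective φ) {P Q : List N'} {l : List N} (hn : (P ++ l.map φ ++ Q).Nodup)
    {u : N} (hu : u ∈ l) : (P ++ l.map φ ++ Q).idxOf (φ u) = P.length + l.idxOf u := by
  have h1 : φ u ∈ l.map φ := List.mem_map_of_mem hu
  have h : φ u ∉ P := fun h => (List.nodup_append.1 hn.of_append_left).2.2 _ h _ h1 rfl
  rw [List.idxOf_append_of_mem (List.mem_append_right _ h1), List.idxOf_append_of_notMem h,
    Grid.evb_idxOf_map hφ]

/-- the sign of a side -/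
noncomputable def gsg (σ : Bool) : ℝ := if σ then 1 else -1

theorem gsg_not (σ : Bool) : gsg (!σ) = -gsg σ := by cases σ <;> simp [gsg]

theorem gsg_sq (σ : Bool) : gsg σ * gsg σ = 1 := by cases σ <;> simp [gsg]

theorem gsg_abs (σ : Bool) : |gsg σ| = 1 := by cases σ <;> simp [gsg]

@[simp] theorem gstk_sq0 (c : ℝ) (p : E3) : sq c p 0 = p 0 := rfl

@[simp] theorem gstk_sq1 (c : ℝ) (p : E3) : sq c p 1 = 3 / 8 * (p 1 + c) := rfl

@[simp] theorem gstk_sq2 (c : ℝ) (p : E3) : sq c p 2 = p 2 := rfl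

theorem gstk_ext {p q : E3} (h0 : p 0 = q 0) (h1 : p 1 = q 1) (h2 : p 2 = q 2) : p = q := by
  ext i
  fin_cases i
  exacts [h0, h1, h2]

theorem gstk_sq_lt (c : ℝ) (p q : E3) (i : Fin 3) : sq c p i < sq c q i ↔ p i < q i := by
  fin_cases i
  · exact Iff.rfl
  · show 3 / 8 * (p 1 + c) < 3 / 8 * (q 1 + c) ↔ p 1 < q 1
    constructor <;> intro h <;> linarith
  · exact Iff.rfl

theorem gstk_sq_eq (c : ℝ) {p q : E3} {i : Fin 3} (h : sq c p i = sq c q i) : p i = q i :=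
  le_antisymm (not_lt.1 fun h' => ((gstk_sq_lt c q p i).2 h').ne h.symm)
    (not_lt.1 fun h' => ((gstk_sq_lt c p q i).2 h').ne h)

theorem gstk_sq_inj (c : ℝ) : Function.Injective (sq c) := fun p q h =>
  gstk_ext (gstk_sq_eq c (by rw [h])) (gstk_sq_eq c (by rw [h])) (gstk_sq_eq c (by rw [h]))

theorem gstk_sq_cont (c : ℝ) : Continuous (sq c) := by
  unfold sq
  fun_prop

theorem gstk_isArc (c : ℝ) {A : Set E3} {p q : E3} (h : IsArc A p q) :
    IsArc (sq c '' A) (sq c p) (sq c q) := by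
  obtain ⟨g, hc, hi, rfl, rfl, rfl⟩ := h
  exact ⟨fun t => sq c (g t), (gstk_sq_cont c).comp_continuousOn hc,
    fun t ht t' ht' e => hi ht ht' (gstk_sq_inj c e), rfl, rfl, image_image _ _ _⟩

theorem gstk_sep (c : ℝ) {i : Fin 3} {A B : Set E3} (h : Sep i A B) :
    Sep i (sq c '' A) (sq c '' B) := by
  rintro _ ⟨p, hp, rfl⟩ _ ⟨q, hq, rfl⟩
  exact (gstk_sq_lt c p q i).2 (h p hp q hq)

theorem gstk_injOn (c : ℝ) {i : Fin 3} {A : Set E3} (h : InjOn (fun p : E3 => p i) A) :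
    InjOn (fun p : E3 => p i) (sq c '' A) := by
  rintro _ ⟨p, hp, rfl⟩ _ ⟨q, hq, rfl⟩ e
  rw [h hp hq (gstk_sq_eq c e)]

/-- truncate and squeeze -/
def gS (σ : Bool) (A : Set E3) : Set E3 := sq (gsg σ) '' (A ∩ {p | -1 ≤ gsg σ * p 1})

theorem gS_subset (σ : Bool) (A : Set E3) : gS σ A ⊆ sq (gsg σ) '' A :=
  image_mono inter_subset_left

theorem gS_mono (σ : Bool) {A B : Set E3} (h : A ⊆ B) : gS σ A ⊆ gS σ B :=
  image_mono (inter_subset_inter_left _ h)

theorem gS_union (σ : Bool) (A B : Set E3) : gS σ (A ∪ B) = gS σ A ∪ gS σ B := by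
  rw [gS, union_inter_distrib_right, image_union]
  rfl

theorem gS_box (σ : Bool) {A : Set E3} (h : ∀ p ∈ A, ∀ i, |p i| ≤ 3 / 4) :
    gS σ A = sq (gsg σ) '' A := by
  rw [gS, inter_eq_left.2]
  intro p hp
  have := abs_le.1 (h p hp 1)
  cases σ <;> simp only [gsg, mem_ofPred_eq] <;> norm_num <;> linarith [this.1, this.2]

theorem gS_sign {σ : Bool} {A : Set E3} {p : E3} (h : p ∈ gS σ A) : 0 ≤ gsg σ * p 1 := by
  obtain ⟨q, ⟨-, hq⟩, rfl⟩ := h
  have h1 : -1 ≤ gsg σ * q 1 := hq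
  have h2 := gsg_sq σ
  rw [gstk_sq1]
  nlinarith

variable {ι I : Type} {n : ℕ} {Co : Collar n ι} {x : Fin n → ℝ}

theorem gstk_cl1 (Co : Collar n ι) (b : Fin n × Bool) (t : ℝ) : Co.cl b t 1 = gsg b.2 * t := rfl

theorem Straight.gx_inj (h : Straight Co x) : Function.Injective x := by
  have k : StrictMono x := fun k k' hk => by
    have := Co.order k k' true hk (by rw [h.ζ, h.ζ]) 1 one_pos 1 one_pos
    rwa [h.ξ, h.ξ] at this
  exact k.injective

theorem Straight.gx_box (h : Straight Co x) (k : Fin n) : |x k| ≤ 3 / 4 := by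
  have := Co.boxx (k, true) 1 ⟨one_pos, le_rfl⟩
  rwa [h.ξ] at this

theorem Straight.glab (h : Straight Co x) (k : Fin n) (σ : Bool) :
    Co.lab (k, σ) = Co.lab (k, false) := by
  cases σ
  · rfl
  · exact h.lab k

theorem Straight.sq_cl (h : Straight Co x) (k : Fin n) (σ : Bool) (t : ℝ) :
    sq (gsg σ) (Co.cl (k, σ) t) = Co.cl (k, σ) (3 / 8 * (t + 1)) := by
  refine gstk_ext ?_ ?_ rfl
  · rw [gstk_sq0, Collar.cl_zero, Collar.cl_zero, h.ξ, h.ξ]
  · rw [gstk_sq1, gstk_cl1, gstk_cl1]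
    ring

theorem Straight.sq_cl' (h : Straight Co x) (k : Fin n) (σ : Bool) (t : ℝ) :
    sq (gsg (!σ)) (Co.cl (k, σ) t) = sq (gsg σ) (Co.cl (k, !σ) (2 - t)) := by
  refine gstk_ext ?_ ?_ ?_
  · rw [gstk_sq0, gstk_sq0, Collar.cl_zero, Collar.cl_zero, h.ξ, h.ξ]
  · rw [gstk_sq1, gstk_sq1, gstk_cl1, gstk_cl1, gsg_not]
    ring
  · rw [gstk_sq2, gstk_sq2, Collar.cl_two, Collar.cl_two, h.ζ, h.ζ]

theorem Straight.sq_one (h : Straight Co x) (k : Fin n) (σ : Bool) :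
    sq (gsg σ) (Co.cl (k, !σ) 1) = !₂[x k, 0, 0] := by
  refine gstk_ext ?_ ?_ ?_
  · rw [gstk_sq0, Collar.cl_zero, h.ξ]
    rfl
  · rw [gstk_sq1, gstk_cl1, gsg_not]
    simp
  · rw [gstk_sq2, Collar.cl_two, h.ζ]
    rfl

theorem Straight.gS_out (h : Straight Co x) (k : Fin n) (σ : Bool) {l : ℝ} (hl : 0 < l) :
    gS σ (Co.cl (k, σ) '' Ici l) = Co.cl (k, σ) '' Ici (3 / 8 * (l + 1)) := by
  ext p
  constructor
  · rintro ⟨_, ⟨⟨t, ht, rfl⟩, -⟩, rfl⟩
    exact ⟨_, mem_Ici.2 (by linarith [mem_Ici.1 ht]), (h.sq_cl k σ t).symm⟩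
  · rintro ⟨t, ht, rfl⟩
    have ht' : 3 / 8 * (l + 1) ≤ t := ht
    refine ⟨Co.cl (k, σ) (8 / 3 * t - 1), ⟨⟨_, mem_Ici.2 (by linarith), rfl⟩, ?_⟩, ?_⟩
    · show -1 ≤ gsg σ * (gsg σ * (8 / 3 * t - 1))
      rw [← mul_assoc, gsg_sq]
      linarith
    · rw [h.sq_cl]
      congr 1
      ring

theorem gS_in (Co : Collar n ι) (k : Fin n) (σ : Bool) (l : ℝ) :
    gS σ (Co.cl (k, !σ) '' Ici l) = sq (gsg σ) '' (Co.cl (k, !σ) '' Icc l 1) := by
  have e : ∀ t, gsg σ * Co.cl (k, !σ) t 1 = -t := fun t => by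
    rw [gstk_cl1, gsg_not, ← mul_assoc, mul_neg, gsg_sq]
    ring
  rw [gS]
  congr 1
  ext p
  constructor
  · rintro ⟨⟨t, ht, rfl⟩, h⟩
    have h' : -1 ≤ gsg σ * Co.cl (k, !σ) t 1 := h
    rw [e] at h'
    exact ⟨t, ⟨ht, by linarith⟩, rfl⟩
  · rintro ⟨t, ht, rfl⟩
    refine ⟨⟨t, ht.1, rfl⟩, ?_⟩
    show -1 ≤ gsg σ * Co.cl (k, !σ) t 1
    rw [e]
    linarith [ht.2]

namespace Content
variable (Ct : Content Co I)

theorem gstk_bool (s t : Bool) : t = s ∨ t = !s := by cases s <;> cases t <;> simp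

/-- a ray is separated from the stars that are not next to its boundary column -/
theorem gstk_ray {a : I} {b : Fin n × Bool} (h₁ : a ≠ Ct.bc b)
    (h₂ : ∀ s, Ct.C.nb (.inl a) s ≠ .inl (Ct.bc b)) :
    ∃ i, Sep i (Ct.C.star (.inl a)) (Co.cl b '' Ici (Ct.lv b)) ∨
      Sep i (Co.cl b '' Ici (Ct.lv b)) (Ct.C.star (.inl a)) := by
  by_cases hf : Ct.C.Far (.inl a) (.inl (Ct.bc b))
  · obtain ⟨i, h | h⟩ := Ct.sep a _ hf
    · exact ⟨i, Or.inl (h.mono Subset.rfl (Ct.ray_subset b))⟩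
    · exact ⟨i, Or.inr (h.mono (Ct.ray_subset b) Subset.rfl)⟩
  have h₃ : ∃ s s', Ct.C.nb (.inl a) s = Ct.C.nb (.inl (Ct.bc b)) s' := by
    by_contra hc
    exact hf ⟨fun e => h₁ (Sum.inl.inj e), h₂, fun s s' e => hc ⟨s, s', e⟩⟩
  obtain ⟨s, s', e⟩ := h₃
  cases s'
  · rw [Ct.nb_bc] at e
    exact absurd ((Ct.nb_eq_inr a s b).1 e).1 h₁
  obtain ⟨r, hr⟩ := Ct.exists_in b
  obtain ⟨t, ht⟩ := Ct.adj_symm a s
  obtain ⟨t', ht'⟩ := Ct.adj_symm (Ct.bc b) true
  rw [e, hr] at ht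
  rw [hr] at ht'
  have htt : t ≠ t' := fun e' => h₁ (Sum.inl.inj (ht.symm.trans (e' ▸ ht')))
  obtain ⟨i, m, -, hm⟩ := Ct.mono r
  rcases gstk_bool m t' with rfl | rfl
  · have ht₂ : t = !t' := (gstk_bool t' t).resolve_left htt
    refine ⟨i, Or.inr ?_⟩
    rintro _ ⟨u, hu, rfl⟩ q hq
    have k1 := (ray_lo hm ht').antitoneOn self_mem_Ici hu hu
    have k2 := hm.lo₁
    have k3 := (star_hi hm q (by rwa [← ht₂, ht])).1
    rw [ht', Ct.pt_bc] at k2
    exact (k1.trans_lt k2).trans_le k3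
  · have ht₂ : t = m := (gstk_bool m t).resolve_right htt
    refine ⟨i, Or.inl ?_⟩
    rintro q hq _ ⟨u, hu, rfl⟩
    have k1 := (ray_hi hm ht').monotoneOn self_mem_Ici hu hu
    have k2 := hm.hi₁
    have k3 := (star_lo hm q (by rwa [← ht₂, ht])).1
    rw [ht', Ct.pt_bc] at k2
    exact (k3.trans_lt k2).trans_le k1

/-- on a straight collar the window of a boundary column is monotone in `y` -/
theorem gstk_bc (h : Straight Co x) (b : Fin n × Bool) :
    Ct.C.Mono 1 (.inl (Ct.bc b)) b.2 := by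
  obtain ⟨i, s, hi, hm⟩ := Ct.mono (Ct.bc b)
  have h0 : Ct.lv b ∈ Ici (Ct.lv b) := self_mem_Ici
  have h1 : Ct.lv b + 1 ∈ Ici (Ct.lv b) := mem_Ici.2 (by linarith)
  have h2 : Ct.lv b < Ct.lv b + 1 := by linarith
  fin_cases i
  · exfalso
    rcases ray_self hm with ⟨-, k⟩ | ⟨-, k⟩
    · have : Co.ξ b _ < Co.ξ b _ := k h0 h1 h2
      rw [h.ξ, h.ξ] at this
      exact lt_irrefl _ this
    · have : Co.ξ b _ < Co.ξ b _ := k h0 h1 h2
      rw [h.ξ, h.ξ] at this
      exact lt_irrefl _ this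
  · obtain ⟨k, σ⟩ := b
    rcases ray_self hm with ⟨rfl, e⟩ | ⟨rfl, e⟩
    · cases σ
      · have : gsg false * _ < gsg false * _ := e h0 h1 h2
        simp [gsg] at this
        linarith
      · exact hm
    · cases σ
      · exact hm
      · have : gsg true * _ < gsg true * _ := e h0 h1 h2
        simp [gsg] at this
        linarith
  · exact absurd rfl hi

/-- a point of a truncated star on the middle level -/
theorem gstk_zero (h : Straight Co x) {σ : Bool} {a : I} {p : E3}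
    (hp : p ∈ gS σ (Ct.C.star (.inl a))) (h0 : p 1 = 0) :
    ∃ k, a = Ct.bc (k, !σ) ∧ p = !₂[x k, 0, 0] := by
  obtain ⟨q, ⟨hq, -⟩, rfl⟩ := hp
  have h1 : q 1 = -gsg σ := by rw [gstk_sq1] at h0; linarith
  rcases Ct.mem_star hq with k | ⟨⟨k, τ⟩, t, rfl, ht, rfl⟩
  · have := k 1
    rw [h1, abs_neg, gsg_abs] at this
    norm_num at this
  · rw [gstk_cl1] at h1
    rcases gstk_bool σ τ with rfl | rfl
    · exfalso
      have := gsg_sq τ
      have h2 : gsg τ * (gsg τ * t) = gsg τ * -gsg τ := congrArg _ h1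
      rw [← mul_assoc, this, mul_neg, this] at h2
      linarith
    · have := gsg_sq σ
      rw [gsg_not] at h1
      have h2 : gsg σ * (-gsg σ * t) = gsg σ * -gsg σ := congrArg _ h1
      rw [← mul_assoc, mul_neg, this] at h2
      obtain rfl : t = 1 := by linarith
      exact ⟨k, rfl, h.sq_one k σ⟩

end Content

end Pool.Agent.P.MP_ac4909_gt.B
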