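import Pool.Agent.P.MP_ac4909_gt.B.GB_Stack_x

/-! Layer G, blocks: the configuration obtained by stacking two contents. -/

namespace Pool.Agent.P.MP_ac4909_gt.B

open Set

namespace Gstk

variable {ι : Type} {n : ℕ} {Co : Collar n ι} {x : Fin n → ℝ} {J : Bool → Type}

/-- objects of the two contents and middle rows -/
abbrev II (J : Bool → Type) (n : ℕ) : Type := (Σ σ, J σ) ⊕ Fin n

/-- the objects of side `σ` inside the stack -/
def ph (σ : Bool) : J σ ⊕ Fin n × Bool → II J n ⊕ Fin n × Bool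
  | .inl a => .inl (.inl ⟨σ, a⟩)
  | .inr b => if b.2 = σ then .inr b else .inl (.inr b.1)

theorem ph_inl (σ : Bool) (a : J σ) :
    (ph σ (.inl a) : II J n ⊕ Fin n × Bool) = .inl (.inl ⟨σ, a⟩) := rfl

theorem ph_out (σ : Bool) (k : Fin n) :
    (ph σ (.inr (k, σ)) : II J n ⊕ Fin n × Bool) = .inr (k, σ) := if_pos rfl

theorem ph_in (σ : Bool) (k : Fin n) :
    (ph σ (.inr (k, !σ)) : II J n ⊕ Fin n × Bool) = .inl (.inr k) :=
  if_neg (by cases σ <;> simp)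

theorem tri (σ : Bool) (u : J σ ⊕ Fin n × Bool) :
    (∃ a, u = .inl a) ∨ (∃ k, u = .inr (k, σ)) ∨ ∃ k, u = .inr (k, !σ) := by
  rcases u with a | ⟨k, τ⟩
  · exact Or.inl ⟨a, rfl⟩
  · rcases Content.gstk_bool σ τ with rfl | rfl
    · exact Or.inr (Or.inl ⟨k, rfl⟩)
    · exact Or.inr (Or.inr ⟨k, rfl⟩)

theorem ph_inj (σ : Bool) : Function.Injective (ph (J := J) (n := n) σ) := by
  intro u v h
  rcases tri σ u with ⟨a, rfl⟩ | ⟨a, rfl⟩ | ⟨a, rfl⟩ <;>
    rcases tri σ v with ⟨b, rfl⟩ | ⟨b, rfl⟩ | ⟨b, rfl⟩ <;>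
    simp only [ph_inl, ph_out, ph_in] at h <;> simp_all

theorem ph_side {σ σ' : Bool} {u : J σ' ⊕ Fin n × Bool} {a : J σ}
    (h : ph σ' u = ph σ (.inl a)) : σ' = σ := by
  rcases tri σ' u with ⟨b, rfl⟩ | ⟨b, rfl⟩ | ⟨b, rfl⟩ <;>
    simp only [ph_inl, ph_out, ph_in] at h
  · exact congrArg Sigma.fst (Sum.inl.inj (Sum.inl.inj h))
  · simp at h
  · simp at h

theorem ph_eq_inr {σ : Bool} {u : J σ ⊕ Fin n × Bool} {b : Fin n × Bool}
    (h : ph σ u = .inr b) : b.2 = σ ∧ u = .inr b := by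
  rcases tri σ u with ⟨a, rfl⟩ | ⟨a, rfl⟩ | ⟨a, rfl⟩ <;> simp only [ph_inl, ph_out, ph_in] at h
  · simp at h
  · obtain rfl := Sum.inr.inj h
    exact ⟨rfl, rfl⟩
  · simp at h

theorem ph_eq_mid {σ : Bool} {u : J σ ⊕ Fin n × Bool} {k : Fin n}
    (h : ph σ u = .inl (.inr k)) : u = .inr (k, !σ) := ph_inj σ (h.trans (ph_in σ k).symm)

variable (Ct : ∀ σ, Content Co (J σ)) (x)

/-- the stacked configuration -/
noncomputable def cf : Conf (II J n ⊕ Fin n × Bool) where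
  col := Sum.elim (Sum.elim (fun a => (Ct a.1).C.col (.inl a.2)) fun _ => false) fun _ => false
  nb := Sum.elim (Sum.elim (fun a s => ph a.1 ((Ct a.1).C.nb (.inl a.2) s))
    fun k s => ph s (.inl ((Ct s).bc (k, !s)))) fun b _ => ph b.2 (.inl ((Ct b.2).bc b))
  pt := Sum.elim (Sum.elim (fun a => sq (gsg a.1) ((Ct a.1).C.pt (.inl a.2)))
    fun k => !₂[x k, 0, 0]) fun b => Co.cl b 1
  arc u v := {p | ∃ σ u₀ v₀, ph σ u₀ = u ∧ ph σ v₀ = v ∧ p ∈ gS σ ((Ct σ).C.arc u₀ v₀)}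

theorem nb_inl (σ : Bool) (a : J σ) (s : Bool) :
    (cf x Ct).nb (ph σ (.inl a)) s = ph σ ((Ct σ).C.nb (.inl a) s) := rfl

theorem nb_mid (k : Fin n) (s : Bool) :
    (cf x Ct).nb (.inl (.inr k)) s = ph s (.inl ((Ct s).bc (k, !s))) := rfl

theorem nb_out (σ : Bool) (k : Fin n) (s : Bool) :
    (cf x Ct).nb (.inr (k, σ)) s = ph σ (.inl ((Ct σ).bc (k, σ))) := rfl

theorem pt_inl (σ : Bool) (a : J σ) :
    (cf x Ct).pt (ph σ (.inl a)) = sq (gsg σ) ((Ct σ).C.pt (.inl a)) := rfl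

theorem col_ph (σ : Bool) (u : J σ ⊕ Fin n × Bool) : (cf x Ct).col (ph σ u) = (Ct σ).C.col u := by
  rcases tri σ u with ⟨a, rfl⟩ | ⟨a, rfl⟩ | ⟨a, rfl⟩
  · rfl
  · rw [ph_out, (Ct σ).col_inr]
    rfl
  · rw [ph_in, (Ct σ).col_inr]
    rfl

theorem nb_ph (σ : Bool) (u : J σ ⊕ Fin n × Bool) (s : Bool) :
    ∃ s', (cf x Ct).nb (ph σ u) s' = ph σ ((Ct σ).C.nb u s) := by
  rcases tri σ u with ⟨a, rfl⟩ | ⟨a, rfl⟩ | ⟨a, rfl⟩
  · exact ⟨s, rfl⟩
  · exact ⟨s, by rw [ph_out, (Ct σ).nb_inr, nb_out]⟩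
  · exact ⟨σ, by rw [ph_in, (Ct σ).nb_inr, nb_mid]⟩

theorem arc_l (σ : Bool) (a : J σ) (v : J σ ⊕ Fin n × Bool) :
    (cf x Ct).arc (ph σ (.inl a)) (ph σ v) = gS σ ((Ct σ).C.arc (.inl a) v) := by
  ext p
  constructor
  · rintro ⟨σ', u₀, v₀, h1, h2, h3⟩
    obtain rfl := ph_side h1
    rwa [ph_inj _ h1, ph_inj _ h2] at h3
  · exact fun h => ⟨σ, _, _, rfl, rfl, h⟩

theorem arc_r (σ : Bool) (a : J σ) (v : J σ ⊕ Fin n × Bool) :
    (cf x Ct).arc (ph σ v) (ph σ (.inl a)) = gS σ ((Ct σ).C.arc v (.inl a)) := by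
  ext p
  constructor
  · rintro ⟨σ', u₀, v₀, h1, h2, h3⟩
    obtain rfl := ph_side h2
    rwa [ph_inj _ h1, ph_inj _ h2] at h3
  · exact fun h => ⟨σ, _, _, rfl, rfl, h⟩

theorem arc_inr {I : Type} (D : Content Co I) (b : Fin n × Bool) :
    D.C.arc (.inr b) (.inl (D.bc b)) = Co.cl b '' Ici (D.lv b) := by
  have := D.arc_symm (D.bc b) false
  rwa [D.nb_bc, D.arc_bc] at this

theorem arc_mid (k : Fin n) (s : Bool) :
    (cf x Ct).arc (.inl (.inr k)) (ph s (.inl ((Ct s).bc (k, !s)))) =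
      gS s (Co.cl (k, !s) '' Ici ((Ct s).lv (k, !s))) := by
  rw [← ph_in s k, arc_r, arc_inr]

theorem star_inl (σ : Bool) (a : J σ) :
    (cf x Ct).star (ph σ (.inl a)) = gS σ ((Ct σ).C.star (.inl a)) := by
  rw [Conf.star, nb_inl, nb_inl, arc_l, arc_l, ← gS_union]
  rfl

theorem mem_mid {k : Fin n} {p : E3} : p ∈ (cf x Ct).star (.inl (.inr k)) ↔
    ∃ s, p ∈ gS s (Co.cl (k, !s) '' Ici ((Ct s).lv (k, !s))) := by
  rw [Conf.star, nb_mid, nb_mid, arc_mid, arc_mid, Bool.exists_bool]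
  rfl

variable {x}

theorem mid_subset (h : Straight Co x) (σ : Bool) (k : Fin n) :
    (cf x Ct).star (.inl (.inr k)) ⊆
      sq (gsg σ) '' (Co.cl (k, !σ) '' Ici ((Ct σ).lv (k, !σ))) := by
  intro p hp
  obtain ⟨s, hs⟩ := (mem_mid x Ct).1 hp
  rcases Content.gstk_bool σ s with rfl | rfl
  · exact gS_subset _ _ hs
  · rw [gS_in, Bool.not_not] at hs
    obtain ⟨_, ⟨t, ht, rfl⟩, rfl⟩ := hs
    refine ⟨_, ⟨2 - t, mem_Ici.2 ?_, rfl⟩, (h.sq_cl' k σ t).symm⟩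
    linarith [ht.2, (Ct σ).lv_le (k, !σ)]

theorem mid_x (h : Straight Co x) {k : Fin n} {p : E3} (hp : p ∈ (cf x Ct).star (.inl (.inr k))) :
    p 0 = x k := by
  obtain ⟨_, ⟨t, -, rfl⟩, rfl⟩ := mid_subset Ct h true k hp
  exact h.ξ _ _

theorem star_ph (h : Straight Co x) (σ : Bool) (u : J σ ⊕ Fin n × Bool) :
    (cf x Ct).star (ph σ u) ⊆ sq (gsg σ) '' (Ct σ).C.star u := by
  rcases tri σ u with ⟨a, rfl⟩ | ⟨k, rfl⟩ | ⟨k, rfl⟩
  · rw [star_inl]
    exact gS_subset _ _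
  · rw [(Ct σ).star_inr, Conf.star, ph_out, nb_out, nb_out, union_self, ← ph_out, arc_r, arc_inr]
    exact gS_subset _ _
  · rw [(Ct σ).star_inr, ph_in]
    exact mid_subset Ct h σ k

theorem pt_inr (h : Straight Co x) (σ : Bool) (b : Fin n × Bool) :
    ∃ T, 1 ≤ T ∧ (b.2 = !σ → T = 1) ∧ (cf x Ct).pt (ph σ (.inr b)) = sq (gsg σ) (Co.cl b T) := by
  obtain ⟨k, τ⟩ := b
  rcases Content.gstk_bool σ τ with rfl | rfl
  · refine ⟨5 / 3, by norm_num, fun e => by simp at e, ?_⟩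
    rw [ph_out, h.sq_cl]
    norm_num
    rfl
  · refine ⟨1, le_rfl, fun _ => rfl, ?_⟩
    rw [ph_in, h.sq_one]
    rfl

/-- one half of a monotonicity certificate -/
theorem side (h : Straight Co x) {σ : Bool} {a : J σ} {i : Fin 3} {s : Bool} (lt : ℝ → ℝ → Prop)
    (hlt : ∀ p q : E3, lt (p i) (q i) → lt (sq (gsg σ) p i) (sq (gsg σ) q i))
    (h₁ : lt ((Ct σ).C.pt ((Ct σ).C.nb (.inl a) s) i) ((Ct σ).C.pt (.inl a) i))
    (h₂ : ∀ t, (Ct σ).C.nb ((Ct σ).C.nb (.inl a) s) t ≠ .inl a →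
      lt ((Ct σ).C.pt ((Ct σ).C.nb ((Ct σ).C.nb (.inl a) s) t) i)
        ((Ct σ).C.pt ((Ct σ).C.nb (.inl a) s) i))
    (hr : ∀ b, (a = (Ct σ).bc b ∧ s = false) ∨ (Ct σ).C.nb (.inl a) s = .inl ((Ct σ).bc b) →
      ∀ t t', (Ct σ).lv b ≤ t → t < t' → lt (Co.cl b t' i) (Co.cl b t i)) :
    lt ((cf x Ct).pt ((cf x Ct).nb (ph σ (.inl a)) s) i) ((cf x Ct).pt (ph σ (.inl a)) i) ∧
      ∀ t, (cf x Ct).nb ((cf x Ct).nb (ph σ (.inl a)) s) t ≠ ph σ (.inl a) →
        lt ((cf x Ct).pt ((cf x Ct).nb ((cf x Ct).nb (ph σ (.inl a)) s) t) i)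
          ((cf x Ct).pt ((cf x Ct).nb (ph σ (.inl a)) s) i) := by
  have hlv : ∀ τ b, (Ct τ).lv b < 1 := fun τ b => by linarith [(Ct τ).lv_le b]
  rw [nb_inl]
  rcases e : (Ct σ).C.nb (.inl a) s with u | b
  · rw [e] at h₁ h₂
    refine ⟨hlt _ _ h₁, fun t ht => ?_⟩
    rw [nb_inl] at ht ⊢
    have h3 := h₂ t fun e' => ht (congrArg _ e')
    rcases e' : (Ct σ).C.nb (.inl u) t with w | b
    · rw [e'] at h3
      exact hlt _ _ h3
    · obtain ⟨rfl, -⟩ := ((Ct σ).nb_eq_inr u t b).1 e'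
      obtain ⟨T, hT, -, eT⟩ := pt_inr Ct h σ b
      rw [eT, pt_inl, (Ct σ).pt_bc]
      exact hlt _ _ (hr b (Or.inr e) _ _ le_rfl ((hlv σ b).trans_le hT))
  · have hb := ((Ct σ).nb_eq_inr a s b).1 e
    obtain ⟨T, hT, hT1, eT⟩ := pt_inr Ct h σ b
    have hr' := hr b (Or.inl hb)
    obtain ⟨rfl, rfl⟩ := hb
    refine ⟨?_, fun t ht => ?_⟩
    · rw [eT, pt_inl, (Ct σ).pt_bc]
      exact hlt _ _ (hr' _ _ le_rfl ((hlv σ b).trans_le hT))
    · obtain ⟨k, τ⟩ := b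
      rcases Content.gstk_bool σ τ with rfl | rfl
      · rw [ph_out, nb_out] at ht
        exact absurd rfl ht
      · rw [eT, hT1 rfl]
        rw [ph_in, nb_mid] at ht ⊢
        rcases Content.gstk_bool σ t with rfl | rfl
        · exact absurd rfl ht
        · rw [pt_inl, (Ct (!σ)).pt_bc, Bool.not_not, h.sq_cl']
          exact hlt _ _ (hr' _ _ (hlv _ _).le (by linarith [hlv (!σ) (k, σ)]))

theorem mono_inl (h : Straight Co x) {σ : Bool} {a : J σ} {i : Fin 3} {s : Bool}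
    (hm : (Ct σ).C.Mono i (.inl a) s) : (cf x Ct).Mono i (ph σ (.inl a)) s := by
  have k1 := side Ct h (· < ·) (fun p q k => (gstk_sq_lt _ p q i).2 k) hm.lo₁ hm.lo₂
    (fun b hb t t' h1 h2 => by
      have : StrictAntiOn (fun t => Co.cl b t i) (Ici ((Ct σ).lv b)) := by
        rcases hb with ⟨rfl, rfl⟩ | hb
        · rcases Content.ray_self hm with ⟨e, -⟩ | ⟨-, e⟩
          · exact absurd e (by simp)
          · exact e
        · exact Content.ray_lo hm hb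
      exact this (mem_Ici.2 h1) (mem_Ici.2 (h1.trans h2.le)) h2)
  have k2 := side Ct h (fun p q => q < p) (fun p q k => (gstk_sq_lt _ q p i).2 k) hm.hi₁ hm.hi₂
    (fun b hb t t' h1 h2 => by
      have : StrictMonoOn (fun t => Co.cl b t i) (Ici ((Ct σ).lv b)) := by
        rcases hb with ⟨rfl, hs⟩ | hb
        · rcases Content.ray_self hm with ⟨-, e⟩ | ⟨e, -⟩
          · exact e
          · rw [e] at hs
            exact absurd hs (by simp)
        · exact Content.ray_hi hm hb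
      exact this (mem_Ici.2 h1) (mem_Ici.2 (h1.trans h2.le)) h2)
  refine ⟨(gstk_injOn (gsg σ) hm.inj).mono ?_, k1.2, k1.1, k2.1, k2.2⟩
  rw [Conf.win, Conf.win, image_union]
  exact union_subset_union (star_ph Ct h σ _) (star_ph Ct h σ _)

theorem mid_step (h : Straight Co x) (k : Fin n) (s t : Bool)
    (ht : (cf x Ct).nb ((cf x Ct).nb (.inl (.inr k)) s) t ≠ .inl (.inr k)) :
    gsg s * (cf x Ct).pt ((cf x Ct).nb (.inl (.inr k)) s) 1 <
      gsg s * (cf x Ct).pt ((cf x Ct).nb ((cf x Ct).nb (.inl (.inr k)) s) t) 1 := by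
  rw [nb_mid, nb_inl] at ht ⊢
  cases t
  · rw [(Ct s).nb_bc, ph_in] at ht
    exact absurd rfl ht
  obtain ⟨r, hr⟩ := (Ct s).exists_in (k, !s)
  have hm := (Ct s).gstk_bc h (k, !s)
  rw [hr, pt_inl, pt_inl, gstk_sq1, gstk_sq1]
  cases s
  · have := hm.lo₁
    simp only [Bool.not_false] at this hr
    rw [hr] at this
    simp only [gsg, Bool.not_false]
    norm_num
    linarith
  · have := hm.hi₁
    simp only [Bool.not_true, Bool.not_false] at this hr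
    rw [hr] at this
    simp only [gsg, Bool.not_true]
    norm_num
    linarith

theorem mid_pt (k : Fin n) (s : Bool) :
    0 < gsg s * (cf x Ct).pt ((cf x Ct).nb (.inl (.inr k)) s) 1 := by
  rw [nb_mid, pt_inl, (Ct s).pt_bc, gstk_sq1, gstk_cl1, gsg_not]
  have h1 := gsg_sq s
  have h2 := (Ct s).lv_le (k, !s)
  have h3 : gsg s * (3 / 8 * (-gsg s * (Ct s).lv (k, !s) + gsg s)) =
    3 / 8 * (gsg s * gsg s) * (1 - (Ct s).lv (k, !s)) := by ring
  rw [h3, h1]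
  linarith

theorem mono_mid (h : Straight Co x) (k : Fin n) : (cf x Ct).Mono 1 (.inl (.inr k)) false := by
  have inj : ∀ s, InjOn (fun p : E3 => p 1) (gS s ((Ct s).C.star (.inl ((Ct s).bc (k, !s))))) :=
    fun s => (gstk_injOn (gsg s) (((Ct s).gstk_bc h _).inj.mono
      ((Ct s).star_subset_win _))).mono (gS_subset _ _)
  have zero : ∀ s, ∀ p ∈ gS s ((Ct s).C.star (.inl ((Ct s).bc (k, !s)))), p 1 = 0 →
      p = !₂[x k, 0, 0] := fun s p hp h0 => by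
    obtain ⟨k', e, rfl⟩ := (Ct s).gstk_zero h hp h0
    obtain rfl : k = k' := congrArg Prod.fst ((Ct s).bc_inj e)
    rfl
  have mix : ∀ p ∈ gS false ((Ct false).C.star (.inl ((Ct false).bc (k, true)))),
      ∀ q ∈ gS true ((Ct true).C.star (.inl ((Ct true).bc (k, false)))), p 1 = q 1 → p = q :=
    fun p hp q hq e => by
      have h1 := gS_sign hp
      have h2 := gS_sign hq
      simp only [gsg, if_true, Bool.false_eq_true, if_false] at h1 h2
      rw [zero false p hp (by linarith), zero true q hq (by linarith)]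
  have z0 : (cf x Ct).pt (.inl (.inr k)) 1 = 0 := rfl
  refine ⟨?_, fun t ht => ?_, ?_, ?_, fun t ht => ?_⟩
  · rw [Conf.win, nb_mid, nb_mid, star_inl, star_inl]
    rintro p (hp | hp) q (hq | hq) e
    exacts [inj false hp hq e, mix p hp q hq e, (mix q hq p hp e.symm).symm, inj true hp hq e]
  · have := mid_step Ct h k false t ht
    simp only [gsg, Bool.false_eq_true, if_false] at this
    linarith
  · have := mid_pt (x := x) Ct k false
    simp only [gsg, Bool.false_eq_true, if_false] at this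
    linarith
  · have := mid_pt (x := x) Ct k true
    simp only [gsg, if_true] at this
    rw [Bool.not_false]
    linarith
  · have := mid_step Ct h k true t ht
    simp only [gsg, if_true] at this
    rw [Bool.not_false]
    linarith

theorem sep_x {A B : Set E3} {u v : ℝ} (huv : u ≠ v) (hA : ∀ p ∈ A, p 0 = u)
    (hB : ∀ p ∈ B, p 0 = v) : ∃ i, Sep i A B ∨ Sep i B A := by
  rcases lt_or_gt_of_ne huv with k | k
  · exact ⟨0, Or.inl fun p hp q hq => by rwa [hA p hp, hB q hq]⟩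
  · exact ⟨0, Or.inr fun p hp q hq => by rwa [hB p hp, hA q hq]⟩

theorem sep_sq {σ : Bool} {A B A' B' : Set E3} (h : ∃ i, Sep i A B ∨ Sep i B A)
    (hA : A' ⊆ sq (gsg σ) '' A) (hB : B' ⊆ sq (gsg σ) '' B) : ∃ i, Sep i A' B' ∨ Sep i B' A' :=
  h.imp fun _ k => k.imp (fun k => (gstk_sep _ k).mono hA hB) fun k => (gstk_sep _ k).mono hB hA

theorem vert_x (h : Straight Co x) (hv : ∀ σ, (Ct σ).Vert) {σ : Bool} {b : Fin n × Bool} :
    ∀ p ∈ gS σ ((Ct σ).C.star (.inl ((Ct σ).bc b))), p 0 = x b.1 := by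
  rintro _ ⟨q, ⟨hq, -⟩, rfl⟩
  rw [gstk_sq0, hv σ b q hq, h.ξ]

theorem sep_cross (h : Straight Co x) (hv : ∀ σ, (Ct σ).Vert) (a : J false) (a' : J true)
    (hf : ∀ s s', (cf x Ct).nb (ph false (.inl a)) s ≠ (cf x Ct).nb (ph true (.inl a')) s') :
    ∃ i, Sep i ((cf x Ct).star (ph false (.inl a))) ((cf x Ct).star (ph true (.inl a'))) ∨
      Sep i ((cf x Ct).star (ph true (.inl a'))) ((cf x Ct).star (ph false (.inl a))) := by
  rw [star_inl, star_inl]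
  by_cases hs : Sep 1 (gS false ((Ct false).C.star (.inl a))) (gS true ((Ct true).C.star (.inl a')))
  · exact ⟨1, Or.inl hs⟩
  simp only [Sep, not_forall, not_lt] at hs
  obtain ⟨p, hp, q, hq, e⟩ := hs
  have h1 := gS_sign hp
  have h2 := gS_sign hq
  simp only [gsg, if_true, Bool.false_eq_true, if_false] at h1 h2
  obtain ⟨k, rfl, -⟩ := (Ct false).gstk_zero h hp (by linarith)
  obtain ⟨k', rfl, -⟩ := (Ct true).gstk_zero h hq (by linarith)
  refine sep_x (h.gx_inj.ne fun e' : k = k' => hf false false ?_) (vert_x Ct h hv) (vert_x Ct h hv)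
  rw [nb_inl, nb_inl, (Ct false).nb_bc, (Ct true).nb_bc, ph_in, ph_in, e']

theorem sep_mid (h : Straight Co x) (σ : Bool) (a : J σ) (k : Fin n)
    (h₁ : ph σ (.inl a) ≠ (cf x Ct).nb (.inl (.inr k)) σ)
    (h₂ : ∀ s, (cf x Ct).nb (ph σ (.inl a)) s ≠ (cf x Ct).nb (.inl (.inr k)) σ) :
    ∃ i, Sep i ((cf x Ct).star (ph σ (.inl a))) ((cf x Ct).star (.inl (.inr k))) ∨
      Sep i ((cf x Ct).star (.inl (.inr k))) ((cf x Ct).star (ph σ (.inl a))) :=
  sep_sq ((Ct σ).gstk_ray (b := (k, !σ)) (fun e => h₁ (by rw [e, nb_mid]))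
    fun s e => h₂ s (by rw [nb_inl, e, nb_mid])) (star_ph Ct h σ _) (mid_subset Ct h σ k)

theorem sep_all (h : Straight Co x) (hv : ∀ σ, (Ct σ).Vert) (a a' : II J n)
    (hf : (cf x Ct).Far (.inl a) (.inl a')) :
    ∃ i, Sep i ((cf x Ct).star (.inl a)) ((cf x Ct).star (.inl a')) ∨
      Sep i ((cf x Ct).star (.inl a')) ((cf x Ct).star (.inl a)) := by
  rcases a with ⟨σ, a⟩ | k <;> rcases a' with ⟨σ', a'⟩ | k'
  · by_cases e : σ' = σ
    · subst e
      refine sep_sq ((Ct σ').sep a a' ⟨fun e => hf.1 (congrArg (ph σ') e),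
        fun s e => hf.2.1 s (congrArg (ph σ') e), fun s s' e => hf.2.2 s s' (congrArg (ph σ') e)⟩)
        (star_ph Ct h σ' (.inl a)) (star_ph Ct h σ' (.inl a'))
    · cases σ <;> cases σ'
      · exact absurd rfl e
      · exact sep_cross Ct h hv a a' hf.2.2
      · exact (sep_cross Ct h hv a' a fun s s' => (hf.2.2 s' s).symm).imp fun _ k => k.symm
      · exact absurd rfl e
  · refine sep_mid Ct h σ a k' (fun e => hf.2.1 false ?_) fun s => hf.2.2 s σ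
    rw [← ph_inl, e, nb_mid, nb_inl, (Ct σ).nb_bc, ph_in]
  · exact (sep_mid Ct h σ' a' k (hf.2.1 σ').symm fun s => (hf.2.2 σ' s).symm).imp fun _ k => k.symm
  · exact sep_x (h.gx_inj.ne fun e : k = k' => hf.1 (by rw [e])) (fun p hp => mid_x Ct h hp)
      fun p hp => mid_x Ct h hp

end Gstk

end Pool.Agent.P.MP_ac4909_gt.B
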