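import Pool.Agent.P.MP_ac4909_gt.B.GB_Stack_y

/-! Layer G, blocks: the content obtained by stacking two contents. -/

namespace Pool.Agent.P.MP_ac4909_gt.B

open Set

namespace Gstk

variable {ι : Type} {n : ℕ} {Co : Collar n ι} {x : Fin n → ℝ} {J : Bool → Type}
  (Ct : ∀ σ, Content Co (J σ))

/-- the objects of side `σ` in a list -/
def em (σ : Bool) (l : List (J σ)) : List (II J n) := l.map fun a => .inl ⟨σ, a⟩

theorem em_inj (σ : Bool) : Function.Injective fun a : J σ => (.inl ⟨σ, a⟩ : II J n) :=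
  fun _ _ e => Sum.inl.inj (ph_inj (n := n) σ (congrArg Sum.inl e))

theorem mem_em {σ : Bool} {l : List (J σ)} {u : II J n} :
    u ∈ em σ l ↔ ∃ a ∈ l, u = .inl ⟨σ, a⟩ := by
  simp only [em, List.mem_map, eq_comm]

theorem mem_em' {σ : Bool} {l : List (J σ)} {a : J σ} :
    (.inl ⟨σ, a⟩ : II J n) ∈ em σ l ↔ a ∈ l := List.mem_map_of_injective (em_inj σ)

theorem notMem_em {σ : Bool} {l : List (J σ)} {a : J (!σ)} :
    (.inl ⟨!σ, a⟩ : II J n) ∉ em σ l := fun h => by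
  obtain ⟨b, -, e⟩ := mem_em.1 h
  have := congrArg Sigma.fst (Sum.inl.inj e)
  simp at this

theorem em_nodup {σ : Bool} {l : List (J σ)} (h : l.Nodup) : (em σ l : List (II J n)).Nodup :=
  h.map (em_inj σ)

theorem em_disj {l : List (J false)} {l' : List (J true)} :
    ∀ a ∈ (em false l : List (II J n)), ∀ b ∈ em true l', a ≠ b := by
  rintro a ha _ hb rfl
  obtain ⟨c, -, rfl⟩ := mem_em.1 ha
  exact notMem_em (σ := true) hb

theorem mem_em₂ {l : ∀ σ, List (J σ)} {σ : Bool} {a : J σ} :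
    (.inl ⟨σ, a⟩ : II J n) ∈ em false (l false) ∨ (.inl ⟨σ, a⟩ : II J n) ∈ em true (l true) ↔
      a ∈ l σ := by
  cases σ
  · exact (or_iff_left (notMem_em (σ := true))).trans mem_em'
  · exact (or_iff_right (notMem_em (σ := false))).trans mem_em'

/-- labels of the stack -/
def lb : II J n → Option ι := Sum.elim (fun a => (Ct a.1).lb a.2) fun k => Co.lab (k, false)

/-- rows of the stack -/
def YY : List (II J n) :=
  em false (Ct false).Yb ++ (List.ofFn fun k => .inr k) ++ em true (Ct true).Yb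

theorem pt_sign (σ : Bool) (a : J σ) : 0 < gsg σ * (cf x Ct).pt (ph σ (.inl a)) 1 := by
  rw [pt_inl, gstk_sq1]
  have := abs_le.1 ((Ct σ).pt_box a 1)
  cases σ <;> simp only [gsg] <;> norm_num <;> linarith [this.1, this.2]

theorem seg_arc (h : Straight Co x) (σ : Bool) (k : Fin n) :
    IsArc (gS σ (Co.cl (k, !σ) '' Ici ((Ct σ).lv (k, !σ))))
      ((cf x Ct).pt (ph σ (.inl ((Ct σ).bc (k, !σ))))) ((cf x Ct).pt (.inl (.inr k))) := by
  rw [gS_in, pt_inl, (Ct σ).pt_bc]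
  have := gstk_isArc (gsg σ) (Collar.isArc_cl (Co := Co) (b := (k, !σ)) ((Ct σ).lv_pos (k, !σ))
    (show (Ct σ).lv (k, !σ) < 1 by linarith [(Ct σ).lv_le (k, !σ)]))
  rwa [h.sq_one] at this

theorem seg_box (h : Straight Co x) (σ : Bool) (k : Fin n) :
    ∀ p ∈ gS σ (Co.cl (k, !σ) '' Ici ((Ct σ).lv (k, !σ))), ∀ i, |p i| ≤ 3 / 4 := by
  rw [gS_in]
  rintro _ ⟨_, ⟨t, ht, rfl⟩, rfl⟩ i
  have h1 := (Ct σ).lv_pos (k, !σ)
  fin_cases i
  · exact (congrArg abs (h.ξ _ _)).trans_le (h.gx_box k)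
  · show |3 / 8 * (gsg (!σ) * t + gsg σ)| ≤ 3 / 4
    rw [abs_le]
    cases σ <;> simp only [gsg] <;> norm_num <;> constructor <;> linarith [ht.1, ht.2]
  · exact Co.boxz _

theorem sq_box (σ : Bool) {p : E3} (hp : ∀ i, |p i| ≤ 3 / 4) (i : Fin 3) :
    |sq (gsg σ) p i| ≤ 3 / 4 := by
  fin_cases i
  · exact hp 0
  · show |3 / 8 * (p 1 + gsg σ)| ≤ 3 / 4
    have := abs_le.1 (hp 1)
    rw [abs_le]
    cases σ <;> simp only [gsg] <;> norm_num <;> constructor <;> linarith [this.1, this.2]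
  · exact hp 2

/-- the inner arcs of the stack -/
theorem inner_cases {a a' : II J n} {s : Bool} (e : (cf x Ct).nb (.inl a) s = .inl a') :
    (∃ σ u w, a = .inl ⟨σ, u⟩ ∧ a' = .inl ⟨σ, w⟩ ∧ (Ct σ).C.nb (.inl u) s = .inl w) ∨
      (∃ σ k, a = .inl ⟨σ, (Ct σ).bc (k, !σ)⟩ ∧ a' = .inr k) ∨
      ∃ σ k, a = .inr k ∧ a' = .inl ⟨σ, (Ct σ).bc (k, !σ)⟩ := by
  rcases a with ⟨σ, u⟩ | k
  · rw [← ph_inl, nb_inl] at e
    rcases tri σ ((Ct σ).C.nb (.inl u) s) with ⟨w, hw⟩ | ⟨k, hw⟩ | ⟨k, hw⟩ <;> rw [hw] at e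
    · exact Or.inl ⟨σ, u, w, rfl, (Sum.inl.inj e).symm, hw⟩
    · rw [ph_out] at e
      exact absurd e (by simp)
    · rw [ph_in] at e
      exact Or.inr (Or.inl ⟨σ, k, by rw [(((Ct σ).nb_eq_inr u s _).1 hw).1], (Sum.inl.inj e).symm⟩)
  · exact Or.inr (Or.inr ⟨s, k, rfl, (Sum.inl.inj e).symm⟩)

theorem arc_mid' (σ : Bool) (k : Fin n) :
    (cf x Ct).arc (ph σ (.inl ((Ct σ).bc (k, !σ)))) (.inl (.inr k)) =
      gS σ (Co.cl (k, !σ) '' Ici ((Ct σ).lv (k, !σ))) := by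
  rw [← ph_in σ k, arc_l, (Ct σ).arc_bc]

/-- the stacked content -/
noncomputable def stk (h : Straight Co x) (hv : ∀ σ, (Ct σ).Vert) (L : List (II J n))
    (hL₁ : L.Perm (em false (Ct false).Xb ++ em true (Ct true).Xb))
    (hL₂ : L.Pairwise fun a b => (cf x Ct).pt (.inl a) 0 ≤ (cf x Ct).pt (.inl b) 0)
    (hL₃ : ∀ σ, (em σ (Ct σ).Xb).Sublist L) : Content Co (II J n) where
  C := cf x Ct
  bc b := .inl ⟨b.2, (Ct b.2).bc b⟩
  lv b := 3 / 8 * ((Ct b.2).lv b + 1)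
  lb := lb Ct
  Xb := L
  Yb := YY Ct
  lv_pos b := by linarith [(Ct b.2).lv_pos b]
  lv_le b := by linarith [(Ct b.2).lv_le b]
  col_inr _ := rfl
  nb_inr _ _ := rfl
  nb_eq_inr := by
    rintro (⟨σ, a⟩ | k) s ⟨k', τ⟩
    · rw [← ph_inl, nb_inl]
      constructor
      · intro e
        obtain ⟨rfl, e'⟩ := ph_eq_inr e
        obtain ⟨rfl, rfl⟩ := ((Ct _).nb_eq_inr a s _).1 e'
        exact ⟨rfl, rfl⟩
      · rintro ⟨e, rfl⟩
        obtain rfl : σ = τ := congrArg Sigma.fst (Sum.inl.inj e)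
        rw [em_inj σ e, (Ct σ).nb_bc, ph_out]
    · rw [nb_mid, ph_inl]
      simp
  col_nb := by
    rintro (⟨σ, a⟩ | k) s
    · rw [← ph_inl, nb_inl, col_ph, col_ph, (Ct σ).col_nb]
    · rw [nb_mid, col_ph, (Ct s).col_bc]
      rfl
  nb_ne := by
    rintro (⟨σ, a⟩ | k)
    · exact fun e => (Ct σ).nb_ne a (ph_inj σ e)
    · exact fun e => absurd (ph_side ((nb_mid x Ct k false).symm.trans e)) (by simp)
  adj_symm := by
    rintro (⟨σ, a⟩ | k) s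
    · obtain ⟨t, ht⟩ := (Ct σ).adj_symm a s
      obtain ⟨t', ht'⟩ := nb_ph x Ct σ ((Ct σ).C.nb (.inl a) s) t
      exact ⟨t', ht'.trans (congrArg _ ht)⟩
    · exact ⟨false, by rw [nb_mid, nb_inl, (Ct s).nb_bc, ph_in]⟩
  pt_bc := by
    rintro ⟨k, σ⟩
    rw [← ph_inl, pt_inl, (Ct σ).pt_bc, h.sq_cl]
  pt_inr _ := rfl
  arc_bc := by
    rintro ⟨k, σ⟩
    rw [← ph_inl, ← ph_out, arc_l, (Ct σ).arc_bc, h.gS_out k σ ((Ct σ).lv_pos _)]
  arc_symm := by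
    rintro (⟨σ, a⟩ | k) s
    · rw [← ph_inl, nb_inl, arc_l, arc_r, (Ct σ).arc_symm]
    · rw [nb_mid, arc_mid, arc_mid']
  isArc a s a' e := by
    rcases inner_cases Ct e with ⟨σ, u, w, rfl, rfl, e'⟩ | ⟨σ, k, rfl, rfl⟩ | ⟨σ, k, rfl, rfl⟩
    · rw [← ph_inl, ← ph_inl, arc_l, gS_box σ ((Ct σ).box u s w e')]
      exact gstk_isArc _ ((Ct σ).isArc u s w e')
    · rw [← ph_inl, arc_mid']
      exact seg_arc Ct h σ k
    · rw [← ph_inl, arc_mid]
      exact (seg_arc Ct h σ k).symm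
  box a s a' e := by
    rcases inner_cases Ct e with ⟨σ, u, w, rfl, rfl, e'⟩ | ⟨σ, k, rfl, rfl⟩ | ⟨σ, k, rfl, rfl⟩
    · rw [← ph_inl, ← ph_inl, arc_l]
      rintro _ ⟨p, ⟨hp, -⟩, rfl⟩
      exact sq_box σ ((Ct σ).box u s w e' p hp)
    · rw [← ph_inl, arc_mid']
      exact seg_box Ct h σ k
    · rw [← ph_inl, arc_mid]
      exact seg_box Ct h σ k
  sep := sep_all Ct h hv
  mono := by
    rintro (⟨σ, a⟩ | k)
    · obtain ⟨i, s, hi, hm⟩ := (Ct σ).mono a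
      exact ⟨i, s, hi, mono_inl Ct h hm⟩
    · exact ⟨1, false, by simp, mono_mid Ct h k⟩
  zr b b' _ k := by
    rw [h.ζ, h.ζ] at k
    exact absurd k (lt_irrefl _)
  lb_nb a s a' e := by
    rcases inner_cases Ct e with ⟨σ, u, w, rfl, rfl, e'⟩ | ⟨σ, k, rfl, rfl⟩ | ⟨σ, k, rfl, rfl⟩
    · exact (Ct σ).lb_nb u s w e'
    · exact (((Ct σ).lb_bc _).trans (h.glab k _)).symm
    · exact ((Ct σ).lb_bc _).trans (h.glab k _)
  lb_bc b := (Ct b.2).lb_bc b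
  nodupX := hL₁.nodup_iff.2 (List.nodup_append.2
    ⟨em_nodup (Ct false).nodupX, em_nodup (Ct true).nodupX, em_disj⟩)
  nodupY := by
    refine List.nodup_append.2 ⟨List.nodup_append.2 ⟨em_nodup (Ct false).nodupY,
      List.nodup_ofFn.2 Sum.inr_injective, ?_⟩, em_nodup (Ct true).nodupY, ?_⟩
    · rintro a ha b hb rfl
      obtain ⟨c, -, rfl⟩ := mem_em.1 ha
      simp at hb
    · intro a ha b hb
      rcases List.mem_append.1 ha with ha | ha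
      · exact em_disj a ha b hb
      · rintro rfl
        obtain ⟨c, -, rfl⟩ := mem_em.1 hb
        simp at ha
  memX := by
    rintro (⟨σ, a⟩ | k)
    · rw [hL₁.mem_iff, List.mem_append, mem_em₂ (l := fun σ => (Ct σ).Xb), (Ct σ).memX]
      rfl
    · rw [hL₁.mem_iff, List.mem_append, mem_em, mem_em]
      simp [cf]
  memY := by
    rintro (⟨σ, a⟩ | k)
    · refine Iff.trans ?_ ((mem_em₂ (n := n) (l := fun σ => (Ct σ).Yb)).trans ((Ct σ).memY a))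
      rw [YY, List.mem_append, List.mem_append, or_iff_left (b := _ ∈ List.ofFn _) (by simp)]
    · simp [YY, cf]
  sortX := hL₂
  sortY := by
    have k1 : ∀ σ, (em σ (Ct σ).Yb : List (II J n)).Pairwise
        fun a b => (cf x Ct).pt (.inl a) 1 ≤ (cf x Ct).pt (.inl b) 1 := fun σ =>
      List.pairwise_map.2 ((Ct σ).sortY.imp fun {a b} k =>
        not_lt.1 fun k' => not_lt.2 k ((gstk_sq_lt _ _ _ 1).1 k'))
    have k2 : ∀ a ∈ (em false (Ct false).Yb : List (II J n)), (cf x Ct).pt (.inl a) 1 ≤ 0 := by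
      intro a ha
      obtain ⟨c, -, rfl⟩ := mem_em.1 ha
      have := pt_sign (x := x) Ct false c
      simp only [gsg, Bool.false_eq_true, if_false, ph_inl] at this
      linarith
    have k3 : ∀ a ∈ (em true (Ct true).Yb : List (II J n)), 0 ≤ (cf x Ct).pt (.inl a) 1 := by
      intro a ha
      obtain ⟨c, -, rfl⟩ := mem_em.1 ha
      have := pt_sign (x := x) Ct true c
      simp only [gsg, if_true, ph_inl] at this
      linarith
    have k4 : ∀ a ∈ (List.ofFn fun k => .inr k : List (II J n)), (cf x Ct).pt (.inl a) 1 = 0 := by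
      intro a ha
      obtain ⟨c, rfl⟩ := List.mem_ofFn.1 ha
      rfl
    refine List.pairwise_append.2 ⟨List.pairwise_append.2 ⟨k1 false, List.pairwise_of_forall_mem_list
      fun a ha b hb => by rw [k4 a ha, k4 b hb], fun a ha b hb => (k4 b hb).symm ▸ k2 a ha⟩,
      k1 true, fun a ha b hb => le_trans ?_ (k3 b hb)⟩
    rcases List.mem_append.1 ha with ha | ha
    · exact k2 a ha
    · exact (k4 a ha).le
  subX σ := by
    refine List.Sublist.trans ?_ (hL₃ σ)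
    have := ((Ct σ).subX σ).map fun a => (.inl ⟨σ, a⟩ : II J n)
    rwa [List.map_ofFn] at this

variable {Ct} {h : Straight Co x} {hv : ∀ σ, (Ct σ).Vert} {L : List (II J n)}
  {hL₁ : L.Perm (em false (Ct false).Xb ++ em true (Ct true).Xb)}
  {hL₂ : L.Pairwise fun a b => (cf x Ct).pt (.inl a) 0 ≤ (cf x Ct).pt (.inl b) 0}
  {hL₃ : ∀ σ, (em σ (Ct σ).Xb).Sublist L}

theorem stk_vert : (stk Ct h hv L hL₁ hL₂ hL₃).Vert := by
  rintro ⟨k, σ⟩ p hp
  rw [h.ξ]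
  exact vert_x Ct h hv p (star_inl x Ct σ _ ▸ hp)

theorem stk_pic {y : Option ι × E3} : y ∈ (stk Ct h hv L hL₁ hL₂ hL₃).pic ↔
    ∃ σ, y ∈ Prod.map id (sq (gsg σ)) '' {y ∈ (Ct σ).pic | -1 ≤ gsg σ * y.2 1} := by
  obtain ⟨o, p⟩ := y
  constructor
  · rintro ⟨⟨σ, a⟩ | k, hp, ho⟩
    · obtain ⟨q, ⟨hq, hq'⟩, rfl⟩ : p ∈ gS σ _ := star_inl x Ct σ a ▸ hp
      exact ⟨σ, (o, q), ⟨⟨a, hq, ho⟩, hq'⟩, rfl⟩
    · obtain ⟨σ, q, ⟨hq, hq'⟩, rfl⟩ := (mem_mid x Ct).1 hp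
      exact ⟨σ, (o, q), ⟨⟨_, (Ct σ).ray_subset _ hq,
        ho.trans (((Ct σ).lb_bc _).trans (h.glab k _)).symm⟩, hq'⟩, rfl⟩
  · rintro ⟨σ, ⟨o', q⟩, ⟨⟨a, hq, ho⟩, hq'⟩, e⟩
    obtain ⟨rfl, rfl⟩ := Prod.mk.inj e
    exact ⟨.inl ⟨σ, a⟩, (star_inl x Ct σ a).symm.subset ⟨q, ⟨hq, hq'⟩, rfl⟩, ho⟩

end Gstk

end Pool.Agent.P.MP_ac4909_gt.B
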