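import Pool.Agent.P.MP_ac4909_gt.B.GB_Aff
import Pool.Agent.P.MP_ac4909_gt.B.GB_Cmp

/-! Layer G, blocks: an embedded cube can be straightened. -/

namespace Pool.Agent.P.MP_ac4909_gt.B

open scoped ContDiff
open Set Filter Topology

variable {ψ : E3 → E3}

theorem gstr_norm {p : E3} (hp : p ∈ Qb 1) : ‖p‖ ≤ 2 := by
  have h : ∀ i, p i ^ 2 ≤ 1 := fun i => by
    have := hp i
    rw [← sq_abs]
    nlinarith [abs_nonneg (p i)]
  rw [EuclideanSpace.norm_eq, Real.sqrt_le_iff, Fin.sum_univ_three]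
  simp only [Real.norm_eq_abs, sq_abs]
  exact ⟨by norm_num, by linarith [h 0, h 1, h 2]⟩

/-- a map that vanishes to first order becomes small after rescaling and cutting off -/
theorem gstr_small {φ : E3 → E3} {U : Set E3} (hU : IsOpen U) (h0 : (0 : E3) ∈ U)
    (hφ : ContDiffOn ℝ ∞ φ U) (hz : φ 0 = 0) (hd : fderiv ℝ φ 0 = 0) :
    ∃ ε : ℝ, 0 < ε ∧ ε ≤ 1 ∧ ∃ u : E3 → E3, ContDiff ℝ ∞ u ∧ (∀ p, ‖fderiv ℝ u p‖ ≤ 1 / 2) ∧
      ∀ p, ‖p‖ ≤ 2 → u p = ε⁻¹ • φ (ε • p) := by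
  let χ : ContDiffBump (0 : E3) := ⟨2, 3, by norm_num, by norm_num⟩
  have hχ : ContDiff ℝ ∞ χ := χ.contDiff
  obtain ⟨M, hM⟩ := (hχ.continuous_fderiv (by simp)).bounded_above_of_compact_support
    (χ.hasCompactSupport.fderiv ℝ)
  have M0 : 0 ≤ M := (norm_nonneg _).trans (hM 0)
  set η : ℝ := 1 / (2 * (1 + 4 * M)) with hη
  have η0 : 0 < η := by positivity
  have hc : ContinuousAt (fderiv ℝ φ) 0 :=
    ((hφ.continuousOn_fderiv_of_isOpen hU (by simp)).continuousAt (hU.mem_nhds h0))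
  have h1 : ∀ᶠ q in 𝓝 (0 : E3), q ∈ U ∧ ‖fderiv ℝ φ q‖ < η := by
    refine (hU.eventually_mem h0).and (hc.norm.eventually_lt continuousAt_const ?_)
    rwa [hd, norm_zero]
  obtain ⟨δ, δ0, hδ⟩ := Metric.eventually_nhds_iff_ball.1 h1
  have hat : ∀ q ∈ Metric.ball (0 : E3) δ, ContDiffAt ℝ ∞ φ q := fun q hq =>
    hφ.contDiffAt (hU.mem_nhds (hδ q hq).1)
  have hmv : ∀ q ∈ Metric.ball (0 : E3) δ, ‖φ q‖ ≤ η * ‖q‖ := fun q hq => by
    have := (convex_ball (0 : E3) δ).norm_image_sub_le_of_norm_fderiv_le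
      (fun x hx => (hat x hx).differentiableAt (by simp)) (fun x hx => (hδ x hx).2.le)
      (Metric.mem_ball_self δ0) hq
    rwa [hz, sub_zero, sub_zero] at this
  set ε : ℝ := min 1 (δ / 4) with hε
  have ε0 : 0 < ε := lt_min one_pos (by positivity)
  have hin : ∀ p : E3, ‖p‖ < 4 → ε • p ∈ Metric.ball (0 : E3) δ := fun p hp => by
    rw [mem_ball_zero_iff, norm_smul, Real.norm_of_nonneg ε0.le]
    have : ε ≤ δ / 4 := min_le_right _ _
    nlinarith [norm_nonneg p]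
  have hout : ∀ p : E3, ¬ ‖p‖ < 4 →
      (fun p => χ p • ε⁻¹ • φ (ε • p)) =ᶠ[𝓝 p] fun _ => 0 := fun p hp => by
    have : ∀ᶠ q in 𝓝 p, 3 < ‖q‖ :=
      continuousAt_const.eventually_lt continuous_norm.continuousAt (by linarith [not_lt.1 hp])
    filter_upwards [this] with q hq
    rw [χ.zero_of_le_dist (by rw [dist_zero_right]; exact hq.le), zero_smul]
  refine ⟨ε, ε0, min_le_left _ _, fun p => χ p • ε⁻¹ • φ (ε • p), ?_, fun p => ?_, fun p hp => ?_⟩
  · refine contDiff_iff_contDiffAt.2 fun p => ?_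
    by_cases hp : ‖p‖ < 4
    · exact hχ.contDiffAt.smul
        (((hat _ (hin p hp)).comp p (contDiff_const_smul ε).contDiffAt).const_smul ε⁻¹)
    · exact contDiffAt_const.congr_of_eventuallyEq (hout p hp)
  · by_cases hp : ‖p‖ < 4
    · have a1 := ((hat _ (hin p hp)).differentiableAt (by simp)).hasFDerivAt
      have a2 := (a1.comp p ((hasFDerivAt_id p).const_smul ε)).const_smul ε⁻¹
      have a3 := ((hχ.differentiable (by simp)) p).hasFDerivAt.smul a2
      refine (congrArg norm a3.fderiv).le.trans ((norm_add_le _ _).trans ?_)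
      have b1 : ‖χ p • ε⁻¹ • (fderiv ℝ φ (ε • p)).comp (ε • ContinuousLinearMap.id ℝ E3)‖ ≤ η := by
        rw [ContinuousLinearMap.comp_smul, ContinuousLinearMap.comp_id, inv_smul_smul₀ ε0.ne',
          norm_smul, Real.norm_of_nonneg χ.nonneg]
        exact (mul_le_of_le_one_left (norm_nonneg _) χ.le_one).trans (hδ _ (hin p hp)).2.le
      have b2 : ‖ε⁻¹ • φ (ε • p)‖ ≤ η * 4 := by
        have := hmv _ (hin p hp)
        rw [norm_smul, Real.norm_of_nonneg ε0.le] at this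
        rw [norm_smul, Real.norm_of_nonneg (inv_pos.2 ε0).le, inv_mul_le_iff₀ ε0]
        nlinarith [mul_pos ε0 η0]
      have b3 : ‖(fderiv ℝ χ p).smulRight (ε⁻¹ • φ (ε • p))‖ ≤ M * (η * 4) := by
        rw [ContinuousLinearMap.norm_smulRight_apply]
        exact mul_le_mul (hM p) b2 (norm_nonneg _) M0
      refine (add_le_add b1 b3).trans (le_of_eq ?_)
      rw [hη]
      field_simp
    · rw [(hout p hp).fderiv_eq]
      simp
  · dsimp only
    rw [χ.one_of_mem_closedBall (mem_closedBall_zero_iff.2 hp), one_smul]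

theorem exists_straighten (hψ : PosOn ψ (Qb (9 / 8))) :
    ∃ h, GAmb h ∧ ∀ p ∈ Qb 1, h (ψ p) = p := by
  have h0 : (0 : E3) ∈ Qb (9 / 8) := fun i => by norm_num
  have hU := isOpen_Qb (9 / 8)
  have hA := hψ.pos 0 h0
  set A := fderiv ℝ ψ 0 with hAd
  let e := A.toContinuousLinearEquivOfDetNeZero hA.ne'
  let B : E3 →L[ℝ] E3 := e.symm
  have hBA : B.comp A = ContinuousLinearMap.id ℝ E3 := by
    ext1 v
    exact e.symm_apply_apply v
  have hB : 0 < B.det := by
    have h1 : B.det * A.det = 1 := by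
      have h2 : (B.comp A).det = B.det * A.det := LinearMap.det_comp (B : E3 →ₗ[ℝ] E3) A
      rw [← h2, hBA]
      exact LinearMap.det_id
    exact (mul_pos_iff_of_pos_right hA).1 (h1 ▸ one_pos)
  have hd : HasFDerivAt ψ A 0 :=
    ((hψ.smooth.contDiffAt (hU.mem_nhds h0)).differentiableAt (by simp)).hasFDerivAt
  obtain ⟨ε, ε0, ε1, u, hu, hs, hup⟩ := gstr_small (φ := fun q => B (ψ q - ψ 0) - q) hU h0
    ((B.contDiff.comp_contDiffOn (hψ.smooth.sub contDiffOn_const)).sub contDiffOn_id) (by simp)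
    (by
      have := (B.hasFDerivAt.comp (0 : E3) (hd.sub_const (ψ 0))).sub (hasFDerivAt_id (0 : E3))
      rw [hBA, sub_self] at this
      exact this.fderiv)
  obtain ⟨-, g, hg, hgu⟩ := gamb_small hu hs
  obtain ⟨c, hc, hcp⟩ := exists_compress hψ ε0 ε1
  have hE : 0 < (ε⁻¹ • B).det := by
    rw [ContinuousLinearMap.det, ContinuousLinearMap.toLinearMap_smul, LinearMap.det_smul]
    exact mul_pos (pow_pos (inv_pos.2 ε0) _) hB
  refine ⟨_, hg.comp ((gamb_affine _ hE (-(ε⁻¹ • B) (ψ 0))).comp hc), fun p hp => ?_⟩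
  rw [Function.comp_apply, Function.comp_apply, hcp p hp]
  refine Eq.trans (congrArg g ?_) (hgu p)
  rw [hup p (gstr_norm hp), smul_sub, inv_smul_smul₀ ε0.ne', map_sub, smul_sub,
    smul_apply, smul_apply]
  abel

end Pool.Agent.P.MP_ac4909_gt.B
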