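import Pool.Agent.P.MP_ac4909_gt.B.GB_Rel

/-! Layer G, blocks: thickened curves and push-offs. -/

namespace Pool.Agent.P.MP_ac4909_gt.B

open scoped ContDiff
open Set Filter Topology

variable {ι κ : Type}

theorem gth_dt {G : ℝ × ℝ × ℝ → E3} {s t r : ℝ} (hG : DifferentiableAt ℝ G (s, t, r)) :
    HasDerivAt (fun u => G (s, u, r)) (fderiv ℝ G (s, t, r) (0, 1, 0)) t :=
  hG.hasFDerivAt.comp_hasDerivAt t
    ((hasDerivAt_const t s).prodMk ((hasDerivAt_id t).prodMk (hasDerivAt_const t r)))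

theorem gth_dr {G : ℝ × ℝ × ℝ → E3} {s t r : ℝ} (hG : DifferentiableAt ℝ G (s, t, r)) :
    HasDerivAt (fun u => G (s, t, u)) (fderiv ℝ G (s, t, r) (0, 0, 1)) r :=
  hG.hasFDerivAt.comp_hasDerivAt r
    ((hasDerivAt_const r s).prodMk ((hasDerivAt_const r t).prodMk (hasDerivAt_id r)))

/-- local injectivity on the slices -/
theorem gth_loc {G : ℝ × ℝ × ℝ → E3} {p₀ : ℝ × ℝ × ℝ} (hG : ContDiffAt ℝ ∞ G p₀)
    (hi : LinearIndependent ℝ ![fderiv ℝ G p₀ (0, 1, 0), fderiv ℝ G p₀ (0, 0, 1)]) :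
    ∃ U ∈ 𝓝 p₀, ∀ p ∈ U, ∀ q ∈ U, p.1 = q.1 → G p = G q → p = q := by
  obtain ⟨K, hK, hA⟩ := LinearMap.exists_antilipschitzWith
    ((fderiv ℝ G p₀).toLinearMap.comp (LinearMap.inr ℝ ℝ (ℝ × ℝ))) (by
      rw [LinearMap.ker_eq_bot']
      rintro ⟨a, b⟩ hab
      have e : ((0 : ℝ), a, b) =
          a • ((0 : ℝ), (1 : ℝ), (0 : ℝ)) + b • ((0 : ℝ), (0 : ℝ), (1 : ℝ)) := by
        simp
      have h1 : fderiv ℝ G p₀ ((0 : ℝ), a, b) = 0 := hab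
      rw [e, map_add, map_smul, map_smul] at h1
      obtain ⟨rfl, rfl⟩ := LinearIndependent.pair_iff.1 hi a b h1
      rfl)
  obtain ⟨U, hU, hap⟩ := (hG.hasStrictFDerivAt
    (by simp)).approximates_deriv_on_nhds (c := (2 * K)⁻¹) (Or.inr (by positivity))
  refine ⟨U, hU, fun p hp q hq h1 h2 => ?_⟩
  have e : p - q = ((0 : ℝ), p.2 - q.2) := Prod.ext (by simp [h1]) rfl
  have h3 := hap p hp q hq
  rw [h2, sub_self, zero_sub, norm_neg, e, Prod.norm_def, norm_zero,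
    max_eq_right (norm_nonneg _)] at h3
  have h4 : ‖p.2 - q.2‖ ≤ K * ‖fderiv ℝ G p₀ ((0 : ℝ), p.2 - q.2)‖ :=
    ZeroHomClass.bound_of_antilipschitz _ hA (p.2 - q.2)
  have hK' : (0 : ℝ) < K := hK
  have h5 : (K : ℝ) * (((2 * K)⁻¹ : NNReal) * ‖p.2 - q.2‖) = ‖p.2 - q.2‖ / 2 := by
    push_cast
    field_simp
  have h6 := mul_le_mul_of_nonneg_left h3 hK'.le
  have h7 : ‖p.2 - q.2‖ ≤ 0 := by linarith
  exact Prod.ext h1 (sub_eq_zero.1 (norm_le_zero_iff.1 h7))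

/-- independence of the two slice derivatives is an open condition -/
theorem gth_indep {G : ℝ × ℝ × ℝ → E3} {p₀ : ℝ × ℝ × ℝ} (hG : ContDiffAt ℝ ∞ G p₀)
    (hi : LinearIndependent ℝ ![fderiv ℝ G p₀ (0, 1, 0), fderiv ℝ G p₀ (0, 0, 1)]) :
    ∀ᶠ p in 𝓝 p₀, LinearIndependent ℝ ![fderiv ℝ G p (0, 1, 0), fderiv ℝ G p (0, 0, 1)] := by
  have hc : ContinuousAt (fderiv ℝ G) p₀ :=
    (hG.fderiv_right (m := 0) (by simp)).continuousAt
  have h1 : ContinuousAt (fun p => ![fderiv ℝ G p (0, 1, 0), fderiv ℝ G p (0, 0, 1)]) p₀ := by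
    refine continuousAt_pi.2 fun i => ?_
    fin_cases i
    · exact hc.clm_apply continuousAt_const
    · exact hc.clm_apply continuousAt_const
  exact h1.eventually hi.eventually

theorem gth_thick {F : ℝ × ℝ × ℝ → E3} {η : ℝ} (hη : 0 < η)
    (hF : ContDiffOn ℝ ∞ F (univ ×ˢ univ ×ˢ Ioo (-η) η))
    (hp : ∀ s ∈ Icc (0 : ℝ) 1, ∀ t r, F (s, t + 1, r) = F (s, t, r))
    (hi : ∀ s ∈ Icc (0 : ℝ) 1, ∀ t t', F (s, t, 0) = F (s, t', 0) → ∃ k : ℤ, t' = t + k)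
    (hd : ∀ s ∈ Icc (0 : ℝ) 1, ∀ t, LinearIndependent ℝ
      ![deriv (fun u => F (s, u, 0)) t, deriv (fun r => F (s, t, r)) 0]) {ε : ℝ} (hε : 0 < ε) :
    ∃ δ₀ ∈ Ioo 0 η, ∀ s ∈ Icc (0 : ℝ) 1, ∀ t r, |r| ≤ δ₀ →
      dist (F (s, t, r)) (F (s, t, 0)) < ε ∧
      LinearIndependent ℝ ![deriv (fun u => F (s, u, r)) t, deriv (fun r => F (s, t, r)) r] ∧
      ∀ t' r', |r'| ≤ δ₀ → F (s, t, r) = F (s, t', r') → r = r' ∧ ∃ k : ℤ, t' = t + k := by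
  have hO : IsOpen ((univ : Set ℝ) ×ˢ (univ : Set ℝ) ×ˢ Ioo (-η) η) :=
    isOpen_univ.prod (isOpen_univ.prod isOpen_Ioo)
  have hA : ∀ s t r, |r| < η → ContDiffAt ℝ ∞ F (s, t, r) := fun s t r hr =>
    hF.contDiffAt (hO.mem_nhds ⟨mem_univ _, mem_univ _, abs_lt.1 hr⟩)
  have hA0 : ∀ s t, ContDiffAt ℝ ∞ F (s, t, 0) := fun s t => hA s t 0 (by simpa using hη)
  have hD : ∀ s t r, |r| < η → DifferentiableAt ℝ F (s, t, r) := fun s t r hr =>
    (hA s t r hr).differentiableAt (by simp)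
  have hD0 : ∀ s t, DifferentiableAt ℝ F (s, t, 0) := fun s t => hD s t 0 (by simpa using hη)
  have hb : ∀ (s t t' r ρ : ℝ), |t' - t| < ρ → |r| < ρ →
      (s, t', r) ∈ Metric.ball (s, t, (0 : ℝ)) ρ := fun s t t' r ρ h1 h2 => by
    simp only [Metric.mem_ball, Prod.dist_eq, dist_self, Real.dist_eq, sub_zero, max_lt_iff]
    exact ⟨(abs_nonneg r).trans_lt h2, h1, h2⟩
  have hf : ∀ t : ℝ, t - ⌊t⌋ ∈ Icc (0 : ℝ) 1 := fun t =>
    ⟨Int.fract_nonneg t, (Int.fract_lt_one t).le⟩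
  have pa : ∀ s ∈ Icc (0 : ℝ) 1, ∀ t r (k : ℤ), F (s, t + k, r) = F (s, t, r) :=
    fun s hs t r k => GCSmall_per (f := fun u => F (s, u, r)) (fun u => hp s hs u r) t k
  have ps : ∀ s ∈ Icc (0 : ℝ) 1, ∀ t r (k : ℤ), F (s, t - k, r) = F (s, t, r) :=
    fun s hs t r k => by rw [← pa s hs (t - k) r k, sub_add_cancel]
  obtain ⟨ρ, h0, h1⟩ := GCSmall_leb (P := fun U => (∀ p ∈ U, ∀ q ∈ U, p.1 = q.1 → F p = F q →
      p = q) ∧ ∀ p ∈ U, LinearIndependent ℝ ![fderiv ℝ F p (0, 1, 0), fderiv ℝ F p (0, 0, 1)])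
    (fun U V h hU => ⟨fun p hp q hq => hU.1 p (h hp) q (h hq), fun p hp => hU.2 p (h hp)⟩)
    (fun s hs t => by
      have h2 := hd s hs t
      rw [(gth_dt (hD0 s t)).deriv, (gth_dr (hD0 s t)).deriv] at h2
      obtain ⟨U, hU, hP⟩ := gth_loc (hA0 s t) h2
      exact ⟨_, inter_mem hU (gth_indep (hA0 s t) h2),
        fun p hp q hq => hP p hp.1 q hq.1, fun p hp => hp.2⟩)
  have hc0 : ContDiff ℝ ∞ fun p : ℝ × ℝ => F (p.1, p.2, 0) := contDiff_iff_contDiffAt.2 fun p =>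
    (hA0 p.1 p.2).comp (f := fun p : ℝ × ℝ => (p.1, p.2, (0 : ℝ))) p (by fun_prop)
  obtain ⟨d, hd0, hfar⟩ := GCUnif_far (κ := Unit) (Γ := fun s _ t => F (s, t, 0))
    (fun _ => hc0.continuous) (fun s hs => ⟨fun _ => hc0.comp (f := fun t : ℝ => (s, t))
      (by fun_prop), fun _ t => hp s hs t 0, fun _ _ t t' h => ⟨rfl, hi s hs t t' h⟩,
      fun _ t => (hd s hs t).ne_zero 0⟩) h0 () ()
  obtain ⟨ρ', h0', h2⟩ := GCSmall_leb
    (P := fun U => ∀ p ∈ U, dist (F p) (F (p.1, p.2.1, 0)) < min ε (d / 2))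
    (fun U V h hU p hp => hU p (h hp))
    (fun s _ t => by
      have c1 : ContinuousAt (fun p : ℝ × ℝ × ℝ => dist (F p) (F (p.1, p.2.1, 0))) (s, t, 0) :=
        (hA0 s t).continuousAt.dist ((hc0.continuous.comp'
          (f := fun p : ℝ × ℝ × ℝ => (p.1, p.2.1)) (by fun_prop)).continuousAt)
      exact ⟨_, c1.eventually_lt (g := fun _ => min ε (d / 2)) continuousAt_const
        (by simpa using ⟨hε, hd0⟩), fun p hp => hp⟩)
  have hm : 0 < min (min ρ ρ') η := by positivity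
  have a1 : ∀ r : ℝ, |r| ≤ min (min ρ ρ') η / 2 → |r| < ρ ∧ |r| < ρ' ∧ |r| < η := fun r hr => by
    have h3 : |r| < min (min ρ ρ') η := by linarith
    simp only [lt_min_iff] at h3
    exact ⟨h3.1.1, h3.1.2, h3.2⟩
  have a2 : ∀ s ∈ Icc (0 : ℝ) 1, ∀ t r, |r| < ρ' →
      dist (F (s, t, r)) (F (s, t, 0)) < min ε (d / 2) := fun s hs t r hr => by
    have h3 := h2 s hs _ (hf t) (s, t - ⌊t⌋, r) (hb _ _ _ _ _ (by simpa using h0') hr)
    rwa [ps s hs, ps s hs] at h3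
  refine ⟨min (min ρ ρ') η / 2, ⟨by positivity, by linarith [min_le_right (min ρ ρ') η]⟩,
    fun s hs t r hr => ⟨(a2 s hs t r (a1 r hr).2.1).trans_le (min_le_left _ _), ?_,
      fun t' r' hr' e => ?_⟩⟩
  · have h3 := (h1 s hs _ (hf t)).2 (s, t - ⌊t⌋, r)
      (hb _ _ _ _ _ (by simpa using h0) (a1 r hr).1)
    rw [← (gth_dt (hD s (t - ⌊t⌋) r (a1 r hr).2.2)).deriv,
      ← (gth_dr (hD s (t - ⌊t⌋) r (a1 r hr).2.2)).deriv,
      ← deriv_comp_sub_const (fun u => F (s, u, r)) (⌊t⌋ : ℝ) t] at h3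
    simpa only [ps s hs] using h3
  · have h3 : dist (F (s, t, 0)) (F (s, t', 0)) < d := by
      have h4 := (a2 s hs t r (a1 r hr).2.1).trans_le (min_le_right _ _)
      have h5 := (a2 s hs t' r' (a1 r' hr').2.1).trans_le (min_le_right _ _)
      rw [← e] at h5
      exact (dist_triangle_left _ _ (F (s, t, r))).trans_lt (by linarith)
    have h6 := mt (hfar s hs t t') (not_le.2 h3)
    push Not at h6
    obtain ⟨-, j, hj⟩ := h6
    have h7 := (h1 s hs _ (hf t)).1 (s, t - ⌊t⌋, r)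
      (hb _ _ _ _ _ (by simpa using h0) (a1 r hr).1) (s, t' + j - ⌊t⌋, r')
      (hb _ _ _ _ _ (by rw [sub_sub_sub_cancel_right, add_sub_right_comm]; exact hj)
        (a1 r' hr').1) rfl (by rw [ps s hs, ps s hs, pa s hs, e])
    simp only [Prod.mk.injEq, sub_left_inj, true_and] at h7
    exact ⟨h7.2, -j, by rw [h7.1]; push_cast; ring⟩

/-- a family of ribbons is embedded near its cores -/
theorem exists_thick {F : ℝ × ℝ × ℝ → E3} {η : ℝ} (hη : 0 < η)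
    (hF : ContDiffOn ℝ ∞ F (univ ×ˢ univ ×ˢ Ioo (-η) η))
    (hp : ∀ s t r, F (s, t + 1, r) = F (s, t, r))
    (hi : ∀ s ∈ Icc (0 : ℝ) 1, ∀ t t', F (s, t, 0) = F (s, t', 0) → ∃ k : ℤ, t' = t + k)
    (hd : ∀ s ∈ Icc (0 : ℝ) 1, ∀ t, LinearIndependent ℝ
      ![deriv (fun u => F (s, u, 0)) t, deriv (fun r => F (s, t, r)) 0]) {ε : ℝ} (hε : 0 < ε) :
    ∃ δ₀ ∈ Ioo 0 η, ∀ s ∈ Icc (0 : ℝ) 1, ∀ t r, |r| ≤ δ₀ →
      dist (F (s, t, r)) (F (s, t, 0)) < ε ∧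
      LinearIndependent ℝ ![deriv (fun u => F (s, u, r)) t, deriv (fun r => F (s, t, r)) r] ∧
      ∀ t' r', |r'| ≤ δ₀ → F (s, t, r) = F (s, t', r') → r = r' ∧ ∃ k : ℤ, t' = t + k :=
  gth_thick hη hF (fun s _ => hp s) hi hd hε

theorem Lk.pull_set [DecidableEq ι] (L : Lk κ) (c₀ : κ) (δ : ℝ) (ℓ : κ → Option ι) (i : ι) :
    (L.pull c₀ δ).set (fun c => c.elim (some i) fun c => unlab i (ℓ c)) =
      (fun x => (unlab i x.1, x.2)) '' L.set ℓ ∪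
        range fun t => (some i, L.γ c₀ t - δ • L.ν c₀ t, L.ν c₀ t) := by
  ext x
  constructor
  · rintro ⟨c, t, rfl⟩
    rcases c with _ | c
    · exact Or.inr ⟨t, rfl⟩
    · exact Or.inl ⟨_, ⟨c, t, rfl⟩, rfl⟩
  · rintro (⟨_, ⟨c, t, rfl⟩, rfl⟩ | ⟨t, rfl⟩)
    · exact ⟨some c, t, rfl⟩
    · exact ⟨none, t, rfl⟩

/-- small push-offs along a family of links -/
theorem gth_fam [Fintype κ] {H : ℝ → Lk κ} (hs : SmoothFam H)
    (hL : ∀ s ∈ Icc (0 : ℝ) 1, (H s).IsLink) (c₀ : κ) {d : ℝ} (hd : 0 < d) :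
    ∀ᶠ δ in 𝓝[>] (0 : ℝ), ∀ s ∈ Icc (0 : ℝ) 1, ((H s).pull c₀ δ).IsLink ∧
      ∀ t, dist ((H s).γ c₀ t) ((H s).γ c₀ t - δ • (H s).ν c₀ t) < d := by
  obtain ⟨e, he, hfar⟩ := (unif_of_smooth (fa := false) (Γ := fun s => (H s).γ)
    (fun c => (hs c).1) (fun s h => (hL s h).isU) (by simp)).far 1 one_pos
  have hπ : ContDiff ℝ ∞ fun p : ℝ × ℝ × ℝ => (p.1, p.2.1) := by fun_prop
  have hG : ContDiff ℝ ∞ fun p : ℝ × ℝ × ℝ =>
      (H p.1).γ c₀ p.2.1 + p.2.2 • (H p.1).ν c₀ p.2.1 :=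
    ((hs c₀).1.comp hπ).add (contDiff_snd.snd.smul ((hs c₀).2.comp hπ))
  have hr : ∀ (a v : E3) (r : ℝ), deriv (fun r : ℝ => a + r • v) r = v := fun a v r => by
    simpa using (((hasDerivAt_id r).smul_const v).const_add a).deriv
  obtain ⟨δ₀, hδ₀, hth⟩ := gth_thick (η := 1) one_pos hG.contDiffOn
    (fun s h t r => by simp only [(hL s h).isU.per, (hL s h).per])
    (fun s h t t' e => ((hL s h).isU.inj c₀ c₀ t t' (by simpa using e)).2)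
    (fun s h t => by
      simp only [hr, zero_smul, add_zero]
      exact (hL s h).indep c₀ t) (lt_min hd he)
  simp only [hr, zero_smul, add_zero] at hth
  filter_upwards [Ioc_mem_nhdsGT hδ₀.1] with δ hδ s h
  have a1 : |-δ| ≤ δ₀ := by rw [abs_neg, abs_of_pos hδ.1]; exact hδ.2
  have a2 : |(0 : ℝ)| ≤ δ₀ := by rw [abs_zero]; exact hδ₀.1.le
  have b1 : ∀ t, dist ((H s).γ c₀ t) ((H s).γ c₀ t - δ • (H s).ν c₀ t) < min d e := fun t => by
    rw [dist_comm, sub_eq_add_neg, ← neg_smul]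
    exact (hth s h t _ a1).1
  have b2 : ∀ t, LinearIndependent ℝ
      ![deriv (fun u => (H s).γ c₀ u - δ • (H s).ν c₀ u) t, (H s).ν c₀ t] := fun t => by
    simp only [sub_eq_add_neg, ← neg_smul]
    exact (hth s h t _ a1).2.1
  have b3 : ∀ c t t', (H s).γ c₀ t - δ • (H s).ν c₀ t ≠ (H s).γ c t' := fun c t t' e1 => by
    by_cases hc : c₀ = c
    · subst hc
      have h1 := ((hth s h t _ a1).2.2 t' 0 a2 (by
        rw [neg_smul, ← sub_eq_add_neg, zero_smul, add_zero, e1])).1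
      linarith [hδ.1]
    · have h1 := hfar s h c₀ c t t' fun h2 => absurd h2 hc
      have h2 := (b1 t).trans_le (min_le_right _ _)
      rw [e1] at h2
      exact absurd h1 (not_le.2 h2)
  refine ⟨⟨⟨?_, ?_, ?_, ?_⟩, ?_, ?_, ?_⟩, fun t => (b1 t).trans_le (min_le_left _ _)⟩
  · rintro (_ | c)
    · exact ((hL s h).isU.smooth c₀).sub (((hL s h).smooth c₀).const_smul δ)
    · exact (hL s h).isU.smooth c
  · rintro (_ | c) t
    · show (H s).γ c₀ (t + 1) - δ • (H s).ν c₀ (t + 1) = (H s).γ c₀ t - δ • (H s).ν c₀ t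
      rw [(hL s h).isU.per, (hL s h).per]
    · exact (hL s h).isU.per c t
  · rintro (_ | c) (_ | c') t t' e1
    · refine ⟨rfl, ((hth s h t _ a1).2.2 t' _ a1 ?_).2⟩
      rw [neg_smul, neg_smul, ← sub_eq_add_neg, ← sub_eq_add_neg]
      exact e1
    · exact absurd e1 (b3 c' t t')
    · exact absurd e1.symm (b3 c t' t)
    · obtain ⟨h1, h2⟩ := (hL s h).isU.inj c c' t t' e1
      exact ⟨congrArg _ h1, h2⟩
  · rintro (_ | c) t
    · exact (b2 t).ne_zero 0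
    · exact (hL s h).isU.imm c t
  · rintro (_ | c)
    · exact (hL s h).smooth c₀
    · exact (hL s h).smooth c
  · rintro (_ | c) t
    · exact (hL s h).per c₀ t
    · exact (hL s h).per c t
  · rintro (_ | c) t
    · exact b2 t
    · exact (hL s h).indep c t

theorem Lk.IsLink.pull [Fintype κ] {L : Lk κ} (hL : L.IsLink) (c₀ : κ) :
    ∀ᶠ δ in 𝓝[>] (0 : ℝ), (L.pull c₀ δ).IsLink := by
  filter_upwards [gth_fam hL.smoothFam (fun _ _ => hL) c₀ one_pos] with δ h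
  exact (h 0 ⟨le_rfl, zero_le_one⟩).1

theorem gth_rel [Fintype κ] {Cl Cl' : Set E3} {d : ℝ} (hd : 0 < d)
    (hC : ∀ p ∉ Cl, ∀ q ∈ Cl', d ≤ dist p q) {L L' : Lk κ} (h : RelIso Cl L L') (c₀ : κ) :
    ∀ᶠ δ in 𝓝[>] (0 : ℝ), RelIso Cl' (L.pull c₀ δ) (L'.pull c₀ δ) := by
  obtain ⟨H, Mv, hs, hL, h0, h1, hc, hst, hmv⟩ := h
  filter_upwards [gth_fam hs hL c₀ hd] with δ h
  refine ⟨fun s => (H s).pull c₀ δ, fun c => c.elim (Mv c₀) Mv, ?_, fun s hs => (h s hs).1,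
    by rw [← h0], by rw [← h1], ?_, ?_, ?_⟩
  · rintro (_ | c)
    · exact ⟨(hs c₀).1.sub ((hs c₀).2.const_smul δ), (hs c₀).2⟩
    · exact hs c
  · rintro (_ | c)
    · exact hc c₀
    · exact hc c
  · rintro s hs (_ | c) t ht
    · obtain ⟨e1, e2⟩ := hst s hs c₀ t ht
      refine ⟨?_, e2⟩
      show (H s).γ c₀ t - δ • (H s).ν c₀ t = L.γ c₀ t - δ • L.ν c₀ t
      rw [e1, e2]
    · exact hst s hs c t ht
  · rintro s hs (_ | c) t ht hq
    · exact absurd (hC _ (hmv s hs c₀ t ht) _ hq) (not_le.2 ((h s hs).2 t))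
    · have h2 := hC _ (hmv s hs c t ht) _ hq
      have h3 : d ≤ dist ((H s).γ c t) ((H s).γ c t) := h2
      rw [dist_self] at h3
      linarith

theorem Chain.pull [Fintype κ] {Cl Cl' : Set E3} {d : ℝ} (hd : 0 < d)
    (hC : ∀ p ∉ Cl, ∀ q ∈ Cl', d ≤ dist p q) {L L' : Lk κ} (h : Chain Cl L L') (c₀ : κ) :
    ∀ᶠ δ in 𝓝[>] (0 : ℝ), Chain Cl' (L.pull c₀ δ) (L'.pull c₀ δ) := by
  induction h with
  | refl => exact Eventually.of_forall fun _ => Relation.ReflTransGen.refl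
  | tail _ h ih =>
    filter_upwards [ih, gth_rel hd hC h c₀] with δ h1 h2
    exact Relation.ReflTransGen.tail h1 h2

end Pool.Agent.P.MP_ac4909_gt.B
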