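import Pool.Agent.P.MP_ac4909_gt.B.GB_Sep

/-! Layer G, blocks: the glued subdivision is valid. -/

namespace Pool.Agent.P.MP_ac4909_gt.B

open scoped ContDiff
open Set Filter Topology

variable {ι I O : Type} {n : ℕ} {Co : Collar n ι} {A : Pic ι} (Ou : Outer Co A O)
  (Ct : Content Co I)

/-- the function `f` decreases along the two steps from `a` on side `s` -/
def GvalH {N : Type} (C : Conf N) (f : E3 → ℝ) (a : N) (s : Bool) : Prop :=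
  f (C.pt (C.nb a s)) < f (C.pt a) ∧
    ∀ t, C.nb (C.nb a s) t ≠ a → f (C.pt (C.nb (C.nb a s) t)) < f (C.pt (C.nb a s))

theorem gval_iff {N : Type} {C : Conf N} {i : Fin 3} {a : N} {s : Bool} :
    C.Mono i a s ↔ InjOn (fun p : E3 => p i) (C.win a) ∧ GvalH C (fun p => p i) a s ∧
      GvalH C (fun p => -p i) a (!s) :=
  ⟨fun h => ⟨h.inj, ⟨h.lo₁, h.lo₂⟩, neg_lt_neg h.hi₁, fun t ht => neg_lt_neg (h.hi₂ t ht)⟩,
    fun ⟨h1, h2, h3⟩ => ⟨h1, h2.2, h2.1, neg_lt_neg_iff.1 h3.1,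
      fun t ht => neg_lt_neg_iff.1 (h3.2 t ht)⟩⟩

theorem gval_star_win {N : Type} (C : Conf N) (a : N) (s : Bool) :
    C.star (C.nb a s) ⊆ C.win a := by
  cases s
  exacts [subset_union_left, subset_union_right]

theorem gval_arc_star {N : Type} (C : Conf N) (a : N) (s : Bool) :
    C.arc a (C.nb a s) ⊆ C.star a := by
  cases s
  exacts [subset_union_left, subset_union_right]

theorem gval_win {N : Type} {C : Conf N} {a : N} {S : Set E3}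
    (h : ∀ s, C.star (C.nb a s) ⊆ S) : C.win a ⊆ S := union_subset (h false) (h true)

theorem gval_not {s t : Bool} (h : t ≠ s) : t = !s := by
  cases s <;> cases t <;> simp at h ⊢

namespace Outer

theorem gval_out (a : O) (s : Bool) : (∃ a', Ou.C.nb (.inl a) s = .inl a' ∧
    (Ou.glue Ct).nb (.inl a) s = .inl a') ∨ ∃ b, a = Ou.ρ b ∧ s = Ou.sd b := by
  rcases h : Ou.C.nb (.inl a) s with a' | b
  · exact .inl ⟨a', rfl, Ou.glue_nb_out Ct h⟩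
  · exact .inr ⟨b, (Ou.nb_eq_inr a s b).1 h⟩

theorem gval_in (a : I) (s : Bool) : (∃ a', Ct.C.nb (.inl a) s = .inl a' ∧
    (Ou.glue Ct).nb (.inr a) s = .inr a') ∨ ∃ b, a = Ct.bc b ∧ s = false := by
  rcases h : Ct.C.nb (.inl a) s with a' | b
  · exact .inl ⟨a', rfl, Ou.glue_nb_in Ct h⟩
  · exact .inr ⟨b, (Ct.nb_eq_inr a s b).1 h⟩

theorem gval_lv (b : Fin n × Bool) : Ct.lv b < Ou.lv b := (Ct.lv_le b).trans_lt (Ou.lv_gt b)

theorem gval_pos (b : Fin n × Bool) : 0 < Ou.lv b := lt_trans (by norm_num) (Ou.lv_gt b)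

theorem gval_pt_ρ (b : Fin n × Bool) :
    (Ou.glue Ct).pt (.inl (Ou.ρ b)) = Co.cl b (Ou.lv b) := Ou.pt_ρ b

theorem gval_pt_bc (b : Fin n × Bool) :
    (Ou.glue Ct).pt (.inr (Ct.bc b)) = Co.cl b (Ct.lv b) := Ct.pt_bc b

/-- the outer neighbour of `ρ b` -/
theorem gval_next {b : Fin n × Bool} {m : O} (h : Ou.C.nb (.inl (Ou.ρ b)) (!Ou.sd b) = .inl m) :
    ∃ y, Ou.lv b < y ∧ Ou.C.pt (.inl m) = Co.cl b y ∧
      Co.cl b '' Ioc 0 y ⊆ Ou.C.star (.inl (Ou.ρ b)) := by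
  obtain ⟨y, hy, e⟩ := (h ▸ Ou.pos_nb b :) (Ou.pt_mem_star m)
  have h1 := Ou.isArc _ _ _ h
  have h2 := gval_arc_star Ou.C (.inl (Ou.ρ b)) (!Ou.sd b)
  have h3 := gval_arc_star Ou.C (.inl (Ou.ρ b)) (Ou.sd b)
  rw [h] at h2
  rw [Ou.nb_ρ, Ou.arc_ρ] at h3
  rw [Ou.pt_ρ, ← e] at h1
  have hlt : Ou.lv b < y := hy.1.lt_of_ne fun e' => h1.ne (by rw [e'])
  rw [h1.eq_cl (h2.trans ((Ou.pos_ρ b).trans (image_mono Ioo_subset_Ioi_self))),
    uIcc_of_le hlt.le] at h2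
  refine ⟨y, hlt, e.symm, ?_⟩
  rintro _ ⟨t, ht, rfl⟩
  rcases le_total t (Ou.lv b) with h4 | h4
  · exact h3 ⟨t, ⟨ht.1, h4⟩, rfl⟩
  · exact h2 ⟨t, ⟨h4, ht.2⟩, rfl⟩

theorem gval_ne {b : Fin n × Bool} {m : O} (h : Ou.C.nb (.inl (Ou.ρ b)) (!Ou.sd b) = .inl m)
    (b' : Fin n × Bool) : m ≠ Ou.ρ b' := by
  rintro rfl
  have := Ou.col_nb (Ou.ρ b) (!Ou.sd b)
  rw [h, Ou.col_ρ, Ou.col_ρ] at this
  simp at this

/-- a neighbour of `ρ b` among the outer points is the next point -/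
theorem gval_back {b : Fin n × Bool} {m : O} {s : Bool}
    (h : Ou.C.nb (.inl m) s = .inl (Ou.ρ b)) : Ou.C.nb (.inl (Ou.ρ b)) (!Ou.sd b) = .inl m := by
  obtain ⟨t, ht⟩ := Ou.adj_symm m s
  rw [h] at ht
  have : t ≠ Ou.sd b := by
    rintro rfl
    rw [Ou.nb_ρ] at ht
    exact Sum.inr_ne_inl ht
  rwa [gval_not this] at ht

/-- the second point beyond `ρ b` -/
theorem gval_next₂ {b : Fin n × Bool} {m m' : O} {t : Bool} {y : ℝ}
    (h : Ou.C.nb (.inl (Ou.ρ b)) (!Ou.sd b) = .inl m) (h' : Ou.C.nb (.inl m) t = .inl m')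
    (hne : m' ≠ Ou.ρ b) (hy : Ou.lv b < y) (e : Ou.C.pt (.inl m) = Co.cl b y)
    (hs : Co.cl b '' Ioc 0 y ⊆ Ou.C.star (.inl (Ou.ρ b))) :
    ∃ y', y < y' ∧ Ou.C.pt (.inl m') = Co.cl b y' := by
  obtain ⟨y', hy', e'⟩ := Ou.pos_nb b (h ▸ Ou.nb_mem_star h')
  refine ⟨y', lt_of_not_ge fun hle => ?_, e'.symm⟩
  obtain ⟨i, s, -, hm⟩ := Ou.mono m (Ou.gval_ne h)
  obtain ⟨u, hu⟩ := Ou.adj_symm (Ou.ρ b) (!Ou.sd b)
  rw [h] at hu
  have hut : t = !u := gval_not fun e => hne (Sum.inl_injective (by rw [← h', e, hu]))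
  have h0 := Ou.gval_pos b
  have k := Collar.cl_mono ordConnected_Ioc Ioc_subset_Ioi_self
    (hm.inj.mono (hs.trans (hu ▸ gval_star_win Ou.C (.inl m) u)))
  have m1 : Ou.lv b ∈ Ioc 0 y := ⟨h0, hy.le⟩
  have m2 : y ∈ Ioc 0 y := ⟨h0.trans hy, le_rfl⟩
  have m3 : y' ∈ Ioc 0 y := ⟨h0.trans_le hy'.1, hle⟩
  have a1 := hm.lo₁
  have a2 := hm.hi₁
  by_cases hsu : s = u
  · rw [hsu, hu, Ou.pt_ρ, e] at a1
    rw [hsu, ← hut, h', ← e', e] at a2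
    rcases k with k | k
    · exact a2.not_ge (k.monotoneOn m3 m2 hle)
    · exact a1.not_gt (k m1 m2 hy)
  · rw [gval_not hsu, ← hut, h', ← e', e] at a1
    rw [gval_not hsu, Bool.not_not, hu, Ou.pt_ρ, e] at a2
    rcases k with k | k
    · exact a2.not_gt (k m1 m2 hy)
    · exact a1.not_ge (k.antitoneOn m3 m2 hle)

variable {f : E3 → ℝ}

theorem gval_half_in {a : I} {s : Bool} (h : GvalH Ct.C f (.inl a) s)
    (h1 : ∀ b, a = Ct.bc b → s = false → StrictAntiOn (fun t => f (Co.cl b t)) (Ici (Ct.lv b)))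
    (h2 : ∀ b, Ct.C.nb (.inl a) s = .inl (Ct.bc b) →
      StrictAntiOn (fun t => f (Co.cl b t)) (Ici (Ct.lv b))) :
    GvalH (Ou.glue Ct) f (.inr a) s := by
  obtain ⟨k1, k2⟩ := h
  rcases Ou.gval_in Ct a s with ⟨a', e1, e2⟩ | ⟨b, rfl, rfl⟩
  · rw [e1] at k1 k2
    rw [GvalH, e2]
    refine ⟨k1, fun t ht => ?_⟩
    rcases Ou.gval_in Ct a' t with ⟨a'', e3, e4⟩ | ⟨b, rfl, rfl⟩
    · have := k2 t (by rw [e3]; exact fun e => ht (by rw [e4, Sum.inl_injective e]))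
      rw [e3] at this
      rw [e4]
      exact this
    · rw [Ou.glue_nb_bc, gval_pt_ρ, gval_pt_bc]
      exact h2 b e1 self_mem_Ici (Ou.gval_lv Ct b).le (Ou.gval_lv Ct b)
  · have hl := Ou.gval_lv Ct b
    rw [GvalH, Ou.glue_nb_bc, gval_pt_ρ, gval_pt_bc]
    refine ⟨h1 b rfl rfl self_mem_Ici hl.le hl, fun t ht => ?_⟩
    obtain ⟨m, hm⟩ := Ou.exists_out b
    obtain ⟨y, hy, e, -⟩ := Ou.gval_next hm
    rw [gval_not (s := Ou.sd b) (t := t) fun e => ht (by rw [e, Ou.glue_nb_ρ]),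
      Ou.glue_nb_out Ct hm]
    exact (congrArg f e).trans_lt (h1 b rfl rfl hl.le (hl.trans hy).le hy)

theorem gval_half_out {a : O} {s : Bool} (ha : ∀ b, a ≠ Ou.ρ b) (h : GvalH Ou.C f (.inl a) s)
    (h1 : ∀ b y, Co.cl b '' Ioc 0 y ⊆ Ou.C.win (.inl a) →
      StrictMonoOn (fun t => f (Co.cl b t)) (Ioc 0 y) ∨
        StrictAntiOn (fun t => f (Co.cl b t)) (Ioc 0 y)) :
    GvalH (Ou.glue Ct) f (.inl a) s := by
  obtain ⟨k1, k2⟩ := h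
  obtain ⟨a', e1⟩ := Ou.nb_inl ha s
  rw [e1] at k1 k2
  rw [GvalH, Ou.glue_nb_out Ct e1]
  refine ⟨k1, fun t ht => ?_⟩
  rcases Ou.gval_out Ct a' t with ⟨a'', e3, e4⟩ | ⟨b, rfl, rfl⟩
  · have := k2 t (by rw [e3]; exact fun e => ht (by rw [e4, Sum.inl_injective e]))
    rw [e3] at this
    rw [e4]
    exact this
  · obtain ⟨y, hy, e, hs⟩ := Ou.gval_next (Ou.gval_back e1)
    have hl := Ou.gval_lv Ct b
    have h0 := Ou.gval_pos b
    rw [Ou.pt_ρ, e] at k1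
    rw [Ou.glue_nb_ρ, gval_pt_ρ, gval_pt_bc]
    rcases h1 b y (hs.trans (e1 ▸ gval_star_win Ou.C (.inl a) s)) with k | k
    · exact k ⟨Ct.lv_pos b, (hl.trans hy).le⟩ ⟨h0, hy.le⟩ hl
    · exact absurd (k ⟨h0, hy.le⟩ ⟨h0.trans hy, le_rfl⟩ hy) k1.not_gt

theorem gval_half_ρ₁ {b : Fin n × Bool}
    (h1 : StrictMonoOn (fun t => f (Co.cl b t)) (Ici (Ct.lv b)))
    (h2 : GvalH Ct.C f (.inl (Ct.bc b)) true) :
    GvalH (Ou.glue Ct) f (.inl (Ou.ρ b)) (Ou.sd b) := by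
  have hl := Ou.gval_lv Ct b
  rw [GvalH, Ou.glue_nb_ρ]
  refine ⟨?_, fun t ht => ?_⟩
  · rw [gval_pt_ρ, gval_pt_bc]
    exact h1 self_mem_Ici hl.le hl
  · obtain ⟨r, hr⟩ := Ct.exists_in b
    have k := h2.1
    rw [hr] at k
    rw [gval_not (s := false) (t := t) fun e => ht (by rw [e, Ou.glue_nb_bc]), Bool.not_false,
      Ou.glue_nb_in Ct hr]
    exact k

theorem gval_half_ρ₂ {b : Fin n × Bool}
    (h1 : StrictAntiOn (fun t => f (Co.cl b t)) (Ici (Ct.lv b))) :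
    GvalH (Ou.glue Ct) f (.inl (Ou.ρ b)) (!Ou.sd b) := by
  have hl := Ou.gval_lv Ct b
  obtain ⟨m, hm⟩ := Ou.exists_out b
  obtain ⟨y, hy, e, hs⟩ := Ou.gval_next hm
  rw [GvalH, Ou.glue_nb_out Ct hm]
  refine ⟨?_, fun t ht => ?_⟩
  · rw [gval_pt_ρ]
    exact (congrArg f e).trans_lt (h1 hl.le (hl.trans hy).le hy)
  · obtain ⟨m', hm'⟩ := Ou.nb_inl (Ou.gval_ne hm) t
    rw [Ou.glue_nb_out Ct hm'] at ht ⊢
    obtain ⟨y', hy', e'⟩ := Ou.gval_next₂ hm hm' (fun e => ht (by rw [e])) hy e hs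
    exact (congrArg f e').trans_lt ((h1 (hl.trans hy).le (hl.trans (hy.trans hy')).le hy').trans_eq
      (congrArg f e).symm)

theorem gval_mono_in (a : I) : ∃ i s, i ≠ 2 ∧ (Ou.glue Ct).Mono i (.inr a) s := by
  obtain ⟨i, s, hi, hm⟩ := Ct.mono a
  obtain ⟨k1, k2, k3⟩ := gval_iff.1 hm
  refine ⟨i, s, hi, gval_iff.2 ⟨k1.mono (gval_win fun t => ?_), Ou.gval_half_in Ct k2 ?_
    fun b hb => Content.ray_lo hm hb, Ou.gval_half_in Ct k3 ?_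
    fun b hb => (Content.ray_hi hm hb).neg⟩⟩
  · refine Subset.trans ?_ (gval_star_win Ct.C (.inl a) t)
    rcases Ou.gval_in Ct a t with ⟨a', e1, e2⟩ | ⟨b, rfl, rfl⟩
    · rw [e1, e2]
      exact Ou.glue_star_in Ct a'
    · rw [Ou.glue_nb_bc, Ct.nb_bc, Ct.star_inr]
      exact Ou.glue_star_ρ Ct b
  · rintro b rfl rfl
    exact ((Content.ray_self hm).resolve_left (by simp)).2
  · rintro b rfl hs
    exact ((Content.ray_self hm).resolve_right (by rintro ⟨rfl, -⟩; simp at hs)).2.neg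

theorem gval_mono_out {a : O} (ha : ∀ b, a ≠ Ou.ρ b) :
    ∃ i s, i ≠ 2 ∧ (Ou.glue Ct).Mono i (.inl a) s := by
  obtain ⟨i, s, hi, hm⟩ := Ou.mono a ha
  obtain ⟨k1, k2, k3⟩ := gval_iff.1 hm
  have k := fun b y (h : Co.cl b '' Ioc 0 y ⊆ Ou.C.win (.inl a)) =>
    Collar.cl_mono ordConnected_Ioc Ioc_subset_Ioi_self (k1.mono h)
  refine ⟨i, s, hi, gval_iff.2 ⟨k1.mono (gval_win fun t => ?_), Ou.gval_half_out Ct ha k2 k,
    Ou.gval_half_out Ct ha k3 fun b y h => (k b y h).symm.imp (·.neg) (·.neg)⟩⟩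
  obtain ⟨a', e⟩ := Ou.nb_inl ha t
  rw [Ou.glue_nb_out Ct e]
  exact (Ou.glue_star_out Ct a').trans (e ▸ gval_star_win Ou.C (.inl a) t)

theorem gval_mono_ρ (b : Fin n × Bool) :
    ∃ i s, i ≠ 2 ∧ (Ou.glue Ct).Mono i (.inl (Ou.ρ b)) s := by
  obtain ⟨i, s, hi, hm⟩ := Ct.mono (Ct.bc b)
  obtain ⟨k1, k2, k3⟩ := gval_iff.1 hm
  have k0 : InjOn (fun p : E3 => p i) ((Ou.glue Ct).win (.inl (Ou.ρ b))) := by
    refine k1.mono ((gval_win fun t => ?_).trans (Ct.star_subset_win _))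
    by_cases ht : t = Ou.sd b
    · rw [ht, Ou.glue_nb_ρ]
      exact Ou.glue_star_in Ct _
    · obtain ⟨m, hm⟩ := Ou.exists_out b
      rw [gval_not ht, Ou.glue_nb_out Ct hm]
      exact (Ou.glue_star_out Ct m).trans ((hm ▸ Ou.pos_nb b).trans ((image_mono
        (Icc_subset_Ici_self.trans (Ici_subset_Ici.2 (Ou.gval_lv Ct b).le))).trans (Ct.ray_subset b)))
  rcases Content.ray_self hm with ⟨rfl, k⟩ | ⟨rfl, k⟩
  · exact ⟨i, Ou.sd b, hi, gval_iff.2 ⟨k0, Ou.gval_half_ρ₁ Ct k k2, Ou.gval_half_ρ₂ Ct k.neg⟩⟩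
  · refine ⟨i, !Ou.sd b, hi, gval_iff.2 ⟨k0, Ou.gval_half_ρ₂ Ct k, ?_⟩⟩
    rw [Bool.not_not]
    exact Ou.gval_half_ρ₁ Ct k.neg k3

theorem glue_mono (a : O ⊕ I) : ∃ i s, i ≠ 2 ∧ (Ou.glue Ct).Mono i a s := by
  rcases a with a | a
  · by_cases ha : ∀ b, a ≠ Ou.ρ b
    · exact Ou.gval_mono_out Ct ha
    · obtain ⟨b, hb⟩ := not_forall.1 ha
      rw [not_not.1 hb]
      exact Ou.gval_mono_ρ Ct b
  · exact Ou.gval_mono_in Ct a

theorem glue_valid : (Ou.glue Ct).Valid true := by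
  refine ⟨?_, ?_, ?_, ?_, ?_, fun a b h => Ou.glue_sep Ct h, fun a => ?_⟩
  · rintro (a | a) s
    · rcases Ou.gval_out Ct a s with ⟨a', e1, e2⟩ | ⟨b, rfl, rfl⟩
      · have k := Ou.col_nb a s
        rw [e1] at k
        rw [e2]
        exact k
      · rw [Ou.glue_nb_ρ]
        exact (Ct.col_bc b).trans (congrArg (!·) (Ou.col_ρ b)).symm
    · rcases Ou.gval_in Ct a s with ⟨a', e1, e2⟩ | ⟨b, rfl, rfl⟩
      · have k := Ct.col_nb a s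
        rw [e1] at k
        rw [e2]
        exact k
      · rw [Ou.glue_nb_bc]
        exact (Ou.col_ρ b).trans (congrArg (!·) (Ct.col_bc b)).symm
  · rintro (a | a) h
    · exact Ou.nb_ne a (Function.Injective.sumElim (γ := O ⊕ I) Sum.inl_injective
        (Sum.inr_injective.comp Ct.bc_inj) (fun _ _ => Sum.inl_ne_inr) h)
    · exact Ct.nb_ne a (Function.Injective.sumElim (γ := O ⊕ I) Sum.inr_injective
        (Sum.inl_injective.comp Ou.ρ_inj) (fun _ _ => Sum.inr_ne_inl) h)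
  · rintro (a | a) s
    · rcases Ou.gval_out Ct a s with ⟨a', e1, e2⟩ | ⟨b, rfl, rfl⟩
      · obtain ⟨t, ht⟩ := Ou.adj_symm a s
        exact ⟨t, e2 ▸ Ou.glue_nb_out Ct (e1 ▸ ht)⟩
      · exact ⟨false, by rw [Ou.glue_nb_ρ, Ou.glue_nb_bc]⟩
    · rcases Ou.gval_in Ct a s with ⟨a', e1, e2⟩ | ⟨b, rfl, rfl⟩
      · obtain ⟨t, ht⟩ := Ct.adj_symm a s
        exact ⟨t, e2 ▸ Ou.glue_nb_in Ct (e1 ▸ ht)⟩
      · exact ⟨Ou.sd b, by rw [Ou.glue_nb_bc, Ou.glue_nb_ρ]⟩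
  · rintro (a | a) s
    · rcases Ou.gval_out Ct a s with ⟨a', e1, e2⟩ | ⟨b, rfl, rfl⟩
      · have k := Ou.arc_symm a s
        rw [e1] at k
        rw [e2]
        exact k
      · rw [Ou.glue_nb_ρ, (Ou.glue_arc Ct b).1, (Ou.glue_arc Ct b).2]
    · rcases Ou.gval_in Ct a s with ⟨a', e1, e2⟩ | ⟨b, rfl, rfl⟩
      · have k := Ct.arc_symm a s
        rw [e1] at k
        rw [e2]
        exact k
      · rw [Ou.glue_nb_bc, (Ou.glue_arc Ct b).1, (Ou.glue_arc Ct b).2]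
  · rintro (a | a) s
    · rcases Ou.gval_out Ct a s with ⟨a', e1, e2⟩ | ⟨b, rfl, rfl⟩
      · rw [e2]
        exact Ou.isArc a s a' e1
      · rw [Ou.glue_nb_ρ, (Ou.glue_arc Ct b).1, gval_pt_ρ, gval_pt_bc]
        exact (Collar.isArc_cl (Ct.lv_pos b) (Ou.gval_lv Ct b)).symm
    · rcases Ou.gval_in Ct a s with ⟨a', e1, e2⟩ | ⟨b, rfl, rfl⟩
      · rw [e2]
        exact Ct.isArc a s a' e1
      · rw [Ou.glue_nb_bc, (Ou.glue_arc Ct b).2, gval_pt_ρ, gval_pt_bc]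
        exact Collar.isArc_cl (Ct.lv_pos b) (Ou.gval_lv Ct b)
  · obtain ⟨i, s, hi, hm⟩ := Ou.glue_mono Ct a
    exact ⟨i, s, fun _ => hi, hm⟩

end Outer

end Pool.Agent.P.MP_ac4909_gt.B
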