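import Pool.Agent.P.MP_ac4909_gt.B.GB_Col

/-! Layer G, blocks: the glued subdivision. -/

namespace Pool.Agent.P.MP_ac4909_gt.B

open scoped ContDiff
open Set Filter Topology

variable {ι I O : Type} {n : ℕ} {Co : Collar n ι} {A : Pic ι} (Ou : Outer Co A O)
  (Ct : Content Co I)

namespace Outer

theorem gval0_arc_subset {N : Type} (C : Conf N) (a : N) (s : Bool) :
    C.arc a (C.nb a s) ⊆ C.star a := by
  cases s
  · exact subset_union_left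
  · exact subset_union_right

theorem gval0_star_subset {N : Type} (C : Conf N) (a : N) {S : Set E3}
    (h : ∀ s, C.arc a (C.nb a s) ⊆ S) : C.star a ⊆ S := union_subset (h false) (h true)

theorem gval0_left_mem {B : Set E3} {p q : E3} (h : IsArc B p q) : p ∈ B := by
  obtain ⟨g, -, -, h0, -, rfl⟩ := h
  exact ⟨0, by norm_num, h0⟩

theorem gval0_right_mem {B : Set E3} {p q : E3} (h : IsArc B p q) : q ∈ B := by
  obtain ⟨g, -, -, -, h1, rfl⟩ := h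
  exact ⟨1, by norm_num, h1⟩

theorem gval0_union (b : Fin n × Bool) (S : Fin n × Bool → Set E3) :
    ⋃ b' ∈ {b' | Ou.ρ b = Ou.ρ b'}, S b' = S b := by
  ext p
  simp only [mem_iUnion, exists_prop]
  constructor
  · rintro ⟨b', hb', hp⟩
    have : b = b' := Ou.ρ_inj hb'
    rw [this]; exact hp
  · exact fun hp => ⟨b, rfl, hp⟩

theorem col_ρ (b : Fin n × Bool) : Ou.C.col (.inl (Ou.ρ b)) = false := by
  have h := Ou.col_nb (Ou.ρ b) (Ou.sd b)
  rw [(Ou.nb_eq_inr _ _ b).2 ⟨rfl, rfl⟩, Ou.col_inr] at h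
  revert h
  cases Ou.C.col (.inl (Ou.ρ b)) <;> simp

theorem nb_ρ (b : Fin n × Bool) : Ou.C.nb (.inl (Ou.ρ b)) (Ou.sd b) = .inr b :=
  (Ou.nb_eq_inr _ _ b).2 ⟨rfl, rfl⟩

theorem exists_out (b : Fin n × Bool) : ∃ m, Ou.C.nb (.inl (Ou.ρ b)) (!Ou.sd b) = .inl m := by
  cases h : Ou.C.nb (.inl (Ou.ρ b)) (!Ou.sd b) with
  | inl m => exact ⟨m, rfl⟩
  | inr b' =>
    obtain ⟨h₁, h₂⟩ := (Ou.nb_eq_inr _ _ _).1 h
    obtain rfl : b = b' := Ou.ρ_inj h₁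
    simp at h₂

theorem nb_inl {a : O} (ha : ∀ b, a ≠ Ou.ρ b) (s : Bool) : ∃ a', Ou.C.nb (.inl a) s = .inl a' := by
  cases h : Ou.C.nb (.inl a) s with
  | inl m => exact ⟨m, rfl⟩
  | inr b' => exact absurd ((Ou.nb_eq_inr _ _ _).1 h).1 (ha b')

theorem pt_mem_star (a : O) : Ou.C.pt (.inl a) ∈ Ou.C.star (.inl a) := by
  have H : ∃ s a', Ou.C.nb (.inl a) s = .inl a' := by
    by_cases ha : ∃ b, a = Ou.ρ b
    · obtain ⟨b, rfl⟩ := ha
      exact ⟨_, Ou.exists_out b⟩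
    · exact ⟨false, Ou.nb_inl (fun b hb => ha ⟨b, hb⟩) false⟩
  obtain ⟨s, a', h⟩ := H
  refine gval0_arc_subset Ou.C _ s ?_
  rw [h]
  exact gval0_left_mem (Ou.isArc a s a' h)

theorem nb_mem_star {a a' : O} {s : Bool} (h : Ou.C.nb (.inl a) s = .inl a') :
    Ou.C.pt (.inl a') ∈ Ou.C.star (.inl a) := by
  refine gval0_arc_subset Ou.C _ s ?_
  rw [h]
  exact gval0_right_mem (Ou.isArc a s a' h)

theorem glue_nb_out {a a' : O} {s : Bool} (h : Ou.C.nb (.inl a) s = .inl a') :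
    (Ou.glue Ct).nb (.inl a) s = .inl a' := by
  change Sum.elim Sum.inl (fun b => Sum.inr (Ct.bc b)) (Ou.C.nb (.inl a) s) = _
  rw [h]; rfl

theorem glue_nb_ρ (b : Fin n × Bool) :
    (Ou.glue Ct).nb (.inl (Ou.ρ b)) (Ou.sd b) = .inr (Ct.bc b) := by
  change Sum.elim Sum.inl (fun b => Sum.inr (Ct.bc b)) (Ou.C.nb (.inl (Ou.ρ b)) (Ou.sd b)) = _
  rw [Ou.nb_ρ]; rfl

theorem glue_nb_in {a a' : I} {s : Bool} (h : Ct.C.nb (.inl a) s = .inl a') :
    (Ou.glue Ct).nb (.inr a) s = .inr a' := by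
  change Sum.elim Sum.inr (fun b => Sum.inl (Ou.ρ b)) (Ct.C.nb (.inl a) s) = _
  rw [h]; rfl

theorem glue_nb_bc (b : Fin n × Bool) :
    (Ou.glue Ct).nb (.inr (Ct.bc b)) false = .inl (Ou.ρ b) := by
  change Sum.elim Sum.inr (fun b => Sum.inl (Ou.ρ b)) (Ct.C.nb (.inl (Ct.bc b)) false) = _
  rw [(Ct.nb_eq_inr _ _ b).2 ⟨rfl, rfl⟩]; rfl

theorem glue_arc (b : Fin n × Bool) :
    (Ou.glue Ct).arc (.inl (Ou.ρ b)) (.inr (Ct.bc b)) = Co.cl b '' Icc (Ct.lv b) (Ou.lv b) ∧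
      (Ou.glue Ct).arc (.inr (Ct.bc b)) (.inl (Ou.ρ b)) = Co.cl b '' Icc (Ct.lv b) (Ou.lv b) :=
  ⟨gval0_union Ou b fun b => Co.cl b '' Icc (Ct.lv b) (Ou.lv b),
    gval0_union Ou b fun b => Co.cl b '' Icc (Ct.lv b) (Ou.lv b)⟩

theorem glue_star_out (a : O) : (Ou.glue Ct).star (.inl a) ⊆ Ou.C.star (.inl a) := by
  refine gval0_star_subset _ _ fun s => ?_
  refine Subset.trans ?_ (gval0_arc_subset Ou.C (.inl a) s)
  cases h : Ou.C.nb (.inl a) s with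
  | inl a' => rw [Ou.glue_nb_out Ct h]; exact Subset.rfl
  | inr b =>
    obtain ⟨rfl, rfl⟩ := (Ou.nb_eq_inr _ _ _).1 h
    rw [Ou.glue_nb_ρ, (Ou.glue_arc Ct b).1, Ou.arc_ρ]
    exact image_mono fun t ht => ⟨(Ct.lv_pos b).trans_le ht.1, ht.2⟩

theorem glue_star_in (a : I) : (Ou.glue Ct).star (.inr a) ⊆ Ct.C.star (.inl a) := by
  refine gval0_star_subset _ _ fun s => ?_
  refine Subset.trans ?_ (gval0_arc_subset Ct.C (.inl a) s)
  cases h : Ct.C.nb (.inl a) s with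
  | inl a' => rw [Ou.glue_nb_in Ct h]; exact Subset.rfl
  | inr b =>
    obtain ⟨rfl, rfl⟩ := (Ct.nb_eq_inr _ _ _).1 h
    rw [Ou.glue_nb_bc, (Ou.glue_arc Ct b).2, Ct.arc_bc]
    exact image_mono fun t ht => ht.1

theorem glue_star_box (a : I) : ∀ p ∈ (Ou.glue Ct).star (.inr a), ∀ i, |p i| < 13 / 16 := by
  refine gval0_star_subset (S := {p | ∀ i, |p i| < 13 / 16}) _ _ fun s => ?_
  cases h : Ct.C.nb (.inl a) s with
  | inl a' =>
    rw [Ou.glue_nb_in Ct h]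
    intro p hp i
    exact (Ct.box a s a' h p hp i).trans_lt (by norm_num)
  | inr b =>
    obtain ⟨rfl, rfl⟩ := (Ct.nb_eq_inr _ _ _).1 h
    rw [Ou.glue_nb_bc, (Ou.glue_arc Ct b).2]
    rintro _ ⟨t, ht, rfl⟩ i
    have h0 : 0 < t := (Ct.lv_pos b).trans_le ht.1
    have h1 : t < 13 / 16 := ht.2.trans_lt (Ou.lv_lt b)
    fin_cases i
    · exact (Co.boxx b t ⟨h0, by linarith⟩).trans_lt (by norm_num)
    · change |(if b.2 then 1 else -1) * t| < 13 / 16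
      rw [abs_lt]
      split_ifs <;> constructor <;> linarith
    · exact (Co.boxz b).trans_lt (by norm_num)

theorem glue_star_ρ (b : Fin n × Bool) :
    (Ou.glue Ct).star (.inl (Ou.ρ b)) ⊆ Co.cl b '' Ici (Ct.lv b) := by
  refine gval0_star_subset _ _ fun s => ?_
  by_cases hs : s = Ou.sd b
  · subst hs
    rw [Ou.glue_nb_ρ, (Ou.glue_arc Ct b).1]
    exact image_mono fun t ht => ht.1
  · obtain rfl : s = !Ou.sd b := by
      revert hs
      cases s <;> cases Ou.sd b <;> simp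
    obtain ⟨m, hm⟩ := Ou.exists_out b
    rw [Ou.glue_nb_out Ct hm]
    change Ou.C.arc (.inl (Ou.ρ b)) (.inl m) ⊆ _
    have h₁ := Ou.arc_symm (Ou.ρ b) (!Ou.sd b)
    obtain ⟨s', h₂⟩ := Ou.adj_symm (Ou.ρ b) (!Ou.sd b)
    have h₃ := Ou.pos_nb b
    rw [hm] at h₁ h₂ h₃
    have h₄ := gval0_arc_subset Ou.C (.inl m) s'
    rw [h₂, h₁] at h₄
    refine (h₄.trans h₃).trans (image_mono fun t ht => ?_)
    have := Ct.lv_le b
    have := Ou.lv_gt b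
    have := ht.1
    change Ct.lv b ≤ t
    linarith

end Outer

end Pool.Agent.P.MP_ac4909_gt.B
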