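import Pool.Agent.P.MP_ac4909_gt.B.GC_Defs

/-! Layer G, core: arcs, stars and labels. -/

namespace Pool.Agent.P.MP_ac4909_gt.B

open scoped ContDiff
open Set Filter Topology

variable {κ N : Type} {fa : Bool} {γ : κ → ℝ → E3} {C : Conf N} {A B : Set E3} {p q : E3}
  {a b m : N} {s : Bool} {i : Fin 3}

theorem GCArc_image {f : ℝ → ℝ} (hc : ContinuousOn f (Icc 0 1)) (hi : InjOn f (Icc 0 1)) :
    f '' Icc 0 1 = uIcc (f 0) (f 1) := by
  have h0 : (0 : ℝ) ∈ Icc (0 : ℝ) 1 := left_mem_Icc.2 zero_le_one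
  have h1 : (1 : ℝ) ∈ Icc (0 : ℝ) 1 := right_mem_Icc.2 zero_le_one
  refine Subset.antisymm ?_ ?_
  · rintro _ ⟨t, ht, rfl⟩
    rcases hc.strictMonoOn_of_injOn_Icc' zero_le_one hi with h | h
    · exact mem_uIcc_of_le (h.monotoneOn h0 ht ht.1) (h.monotoneOn ht h1 ht.2)
    · exact mem_uIcc_of_ge (h.antitoneOn ht h1 ht.2) (h.antitoneOn h0 ht ht.1)
  · have := intermediate_value_uIcc (a := 0) (b := 1) (f := f) (by rwa [uIcc_of_le zero_le_one])
    rwa [uIcc_of_le zero_le_one] at this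

theorem GCArc_int {k : ℤ} (h₁ : (-1 : ℝ) < k) (h₂ : (k : ℝ) < 1) : k = 0 := by
  have h₃ : -1 < k := by exact_mod_cast h₁
  have h₄ : k < 1 := by exact_mod_cast h₂
  omega

theorem IsArc.symm (h : IsArc A p q) : IsArc A q p := by
  obtain ⟨g, hc, hi, h0, h1, rfl⟩ := h
  have hm : MapsTo (fun t : ℝ => 1 - t) (Icc 0 1) (Icc 0 1) := fun t ht =>
    ⟨by linarith [ht.2], by linarith [ht.1]⟩
  refine ⟨fun t => g (1 - t), hc.comp (by fun_prop) hm, fun t ht t' ht' e => ?_, by simpa using h1,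
    by simpa using h0, Subset.antisymm ?_ ?_⟩
  · have := hi (hm ht) (hm ht') e
    linarith
  · rintro _ ⟨t, ht, rfl⟩
    exact ⟨1 - t, hm ht, by simp⟩
  · rintro _ ⟨t, ht, rfl⟩
    exact ⟨1 - t, hm ht, rfl⟩
theorem IsArc.left_mem (h : IsArc A p q) : p ∈ A := by
  obtain ⟨g, -, -, h0, -, rfl⟩ := h
  exact ⟨0, left_mem_Icc.2 zero_le_one, h0⟩
theorem IsArc.right_mem (h : IsArc A p q) : q ∈ A := h.symm.left_mem
theorem GCArc_ne (h : IsArc A p q) : p ≠ q := by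
  obtain ⟨g, -, hi, h0, h1, -⟩ := h
  intro e
  exact zero_ne_one (hi (left_mem_Icc.2 zero_le_one) (right_mem_Icc.2 zero_le_one)
    (h0.trans (e.trans h1.symm)))
/-- an injective coordinate is monotone along the arc -/
theorem IsArc.coord_mem (h : IsArc A p q) (hi : InjOn (fun x : E3 => x i) A) :
    ∀ x ∈ A, x i ∈ uIcc (p i) (q i) := by
  obtain ⟨g, hc, hg, rfl, rfl, rfl⟩ := h
  rintro _ ⟨t, ht, rfl⟩
  rw [← GCArc_image (f := fun t => g t i)
    ((show Continuous fun x : E3 => x i by fun_prop).comp_continuousOn hc)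
    fun u hu u' hu' e => hg hu hu' (hi ⟨u, hu, rfl⟩ ⟨u', hu', rfl⟩ e)]
  exact ⟨t, ht, rfl⟩
theorem Sep.mono {A' B' : Set E3} (h : Sep i A B) (hA : A' ⊆ A) (hB : B' ⊆ B) : Sep i A' B' :=
  fun p hp q hq => h p (hA hp) q (hB hq)

theorem per_int {X : Type} {g : ℝ → X} (h : ∀ t, g (t + 1) = g t) (t : ℝ) (j : ℤ) :
    g (t + j) = g t := by
  simpa using (show Function.Periodic g 1 from h).int_mul j t
theorem image_Icc_int {X : Type} {g : ℝ → X} (h : ∀ t, g (t + 1) = g t) (t t' : ℝ) (j : ℤ) :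
    g '' Icc (t + j) (t' + j) = g '' Icc t t' := by
  rw [← image_add_const_Icc, image_image]
  simp only [per_int h]
theorem IsU.injOn (hγ : IsU γ) (c : κ) {t t' : ℝ} (h : t' < t + 1) : InjOn (γ c) (Icc t t') := by
  intro u hu u' hu' e
  obtain ⟨-, k, hk⟩ := hγ.inj _ _ _ _ e
  have := GCArc_int (k := k) (by linarith [hu.2, hu'.1]) (by linarith [hu.1, hu'.2])
  rw [hk, this, Int.cast_zero, add_zero]
theorem IsU.isArc (hγ : IsU γ) (c : κ) {t t' : ℝ} (h : t < t') (h' : t' < t + 1) :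
    IsArc (γ c '' Icc t t') (γ c t) (γ c t') := by
  have h0 : 0 < t' - t := sub_pos.2 h
  have hm : MapsTo (fun u : ℝ => t + u * (t' - t)) (Icc 0 1) (Icc t t') := fun u hu =>
    ⟨by nlinarith [hu.1], by nlinarith [hu.2]⟩
  refine ⟨fun u => γ c (t + u * (t' - t)),
    ((hγ.smooth c).continuous.comp (by fun_prop)).continuousOn, fun u hu u' hu' e => ?_,
    by simp, by simp, Subset.antisymm ?_ ?_⟩
  · exact mul_right_cancel₀ h0.ne' (add_left_cancel (hγ.injOn c h' (hm hu) (hm hu') e))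
  · rintro _ ⟨u, hu, rfl⟩
    refine ⟨(u - t) / (t' - t), ⟨div_nonneg (sub_nonneg.2 hu.1) h0.le,
      (div_le_one h0).2 (by linarith [hu.2])⟩, ?_⟩
    simp only [div_mul_cancel₀ _ h0.ne', add_sub_cancel]
  · rintro _ ⟨u, hu, rfl⟩
    exact ⟨_, hm hu, rfl⟩
theorem IsU.same_seg (hγ : IsU γ) {c c' : κ} {t t' u u' : ℝ} (h₁ : t < t') (h₂ : t' < t + 1)
    (h₃ : u < u') (h₄ : u' < u + 1) (e : γ c t = γ c' u) (e' : γ c t' = γ c' u') :
    c = c' ∧ ∃ j : ℤ, u = t + j ∧ u' = t' + j := by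
  obtain ⟨hc, j, hj⟩ := hγ.inj _ _ _ _ e
  obtain ⟨-, k, hk⟩ := hγ.inj _ _ _ _ e'
  have := GCArc_int (k := k - j) (by push_cast; linarith) (by push_cast; linarith)
  exact ⟨hc, j, hj, by rw [hk, sub_eq_zero.1 this]⟩
/-- the direction of a parametrised arc is determined by its image and its ends -/
theorem IsU.not_flip (hγ : IsU γ) {c c' : κ} {t t' u u' : ℝ} (h₁ : t < t') (h₂ : t' < t + 1)
    (h₃ : u < u') (h₄ : u' < u + 1) (e : γ c t = γ c' u') (e' : γ c t' = γ c' u) :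
    γ c '' Icc t t' ≠ γ c' '' Icc u u' := by
  intro h
  obtain ⟨-, j, hj⟩ := hγ.inj _ _ _ _ e
  obtain ⟨-, k, hk⟩ := hγ.inj _ _ _ _ e'
  obtain ⟨v, hv, ev⟩ : γ c ((t + t') / 2) ∈ γ c' '' Icc u u' :=
    h ▸ ⟨_, ⟨by linarith, by linarith⟩, rfl⟩
  obtain ⟨-, l, hl⟩ := hγ.inj _ _ _ _ ev.symm
  have a1 : (k : ℝ) < l := by linarith [hv.1]
  have a2 : (l : ℝ) < j := by linarith [hv.2]
  have a3 : (j : ℝ) < k + 2 := by linarith
  have b1 : k < l := by exact_mod_cast a1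
  have b2 : l < j := by exact_mod_cast a2
  have b3 : j < k + 2 := by exact_mod_cast a3
  omega

theorem GCArc_lift (hγ : IsU γ) (c : κ) {g : ℝ → E3} (hc : ContinuousOn g (Icc 0 1))
    (hs : ∀ t ∈ Icc (0 : ℝ) 1, g t ∈ range (γ c)) :
    ∃ ψ : ℝ → ℝ, Continuous ψ ∧ ∀ t ∈ Icc (0 : ℝ) 1, γ c (ψ t) = g t := by
  have hp : Function.Periodic (γ c) 1 := hγ.per c
  let Γ : AddCircle (1 : ℝ) → E3 := hp.lift
  have hΓ : ∀ x : ℝ, Γ x = γ c x := fun x => hp.lift_coe x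
  have h1 : Continuous Γ := continuous_coinduced_dom.2 (hγ.smooth c).continuous
  have h2 : Function.Injective Γ := by
    intro x y
    induction x using QuotientAddGroup.induction_on with | _ x =>
    induction y using QuotientAddGroup.induction_on with | _ y =>
    intro e
    rw [hΓ, hΓ] at e
    obtain ⟨-, k, rfl⟩ := hγ.inj _ _ _ _ e
    rw [QuotientAddGroup.eq, neg_add_cancel_left]
    exact ⟨k, by simp⟩
  have h3 := (h1.isClosedEmbedding h2).isInducing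
  have h4 : ∀ t : unitInterval, Γ (Function.invFun Γ (g t)) = g t := fun t => by
    obtain ⟨x, hx⟩ := hs t t.2
    exact Function.invFun_eq ⟨x, (hΓ x).trans hx⟩
  have h5 : Continuous fun t : unitInterval => Function.invFun Γ (g t) := by
    rw [h3.continuous_iff]
    exact (funext h4 : (Γ ∘ fun t : unitInterval => Function.invFun Γ (g t)) = _) ▸ hc.domRestrict
  obtain ⟨x, hx⟩ := QuotientAddGroup.mk_surjective (Function.invFun Γ (g (0 : unitInterval)))
  obtain ⟨φ, hφ, -⟩ := (AddCircle.isCoveringMap_coe (1 : ℝ)).exists_path_lifts ⟨_, h5⟩ x hx.symm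
  refine ⟨fun t => φ (projIcc 0 1 zero_le_one t), φ.continuous.comp continuous_projIcc,
    fun t ht => ?_⟩
  have h6 : ((φ ⟨t, ht⟩ : ℝ) : AddCircle (1 : ℝ)) = Function.invFun Γ (g t) :=
    congrFun hφ ⟨t, ht⟩
  simp only [projIcc_of_mem _ ht]
  rw [← hΓ, h6]
  exact h4 ⟨t, ht⟩

theorem GCArc_closed (hγ : IsU γ) (c : κ) : IsClosed (range (γ c)) :=
  ((show Function.Periodic (γ c) 1 from hγ.per c).compact_of_continuous one_ne_zero
    (hγ.smooth c).continuous).isClosed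

/-- lifting of an arc to the parameter line -/
theorem IsArc.exists_param [Fintype κ] (hγ : IsU γ) (h : IsArc A p q) (hs : A ⊆ trace γ) :
    ∃ c t t', t < t' ∧ t' < t + 1 ∧ A = γ c '' Icc t t' ∧
      ((p = γ c t ∧ q = γ c t') ∨ (p = γ c t' ∧ q = γ c t)) := by
  obtain ⟨c, hc⟩ := mem_iUnion.1 (hs h.left_mem)
  have hp := h.left_mem
  obtain ⟨g, hg, hi, rfl, rfl, rfl⟩ := h
  have h0 : (0 : ℝ) ∈ Icc (0 : ℝ) 1 := left_mem_Icc.2 zero_le_one
  have h1 : (1 : ℝ) ∈ Icc (0 : ℝ) 1 := right_mem_Icc.2 zero_le_one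
  have hd : ∀ x ∈ range (γ c), x ∉ ⋃ c' : {c' // c' ≠ c}, range (γ c') := by
    rintro _ ⟨t, rfl⟩ hx
    obtain ⟨c', u, e⟩ := mem_iUnion.1 hx
    exact c'.2 (hγ.inj _ _ _ _ e).1
  have hA : g '' Icc 0 1 ⊆ range (γ c) := by
    refine (isPreconnected_iff_subset_of_disjoint_closed.1 (isPreconnected_Icc.image g hg) _ _
      (GCArc_closed hγ c) (isClosed_iUnion_of_finite fun c' : {c' // c' ≠ c} => GCArc_closed hγ c')
      (fun x hx => ?_) (eq_empty_of_forall_notMem fun x hx => hd x hx.2.1 hx.2.2)).resolve_right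
      fun h' => hd _ hc (h' hp)
    obtain ⟨c', hc'⟩ := mem_iUnion.1 (hs hx)
    by_cases e : c' = c
    · exact Or.inl (e ▸ hc')
    · exact Or.inr (mem_iUnion.2 ⟨⟨c', e⟩, hc'⟩)
  obtain ⟨ψ, hψ, he⟩ := GCArc_lift hγ c hg fun t ht => hA ⟨t, ht, rfl⟩
  have hψi : InjOn ψ (Icc 0 1) := fun t ht t' ht' e =>
    hi ht ht' (by rw [← he t ht, ← he t' ht', e])
  have him := GCArc_image hψ.continuousOn hψi
  have hA' : g '' Icc 0 1 = γ c '' uIcc (ψ 0) (ψ 1) := by
    rw [← him, image_image]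
    exact image_congr fun t ht => (he t ht).symm
  have hlt : ∀ r ∈ Icc (0 : ℝ) 1, ψ r + 1 ∉ uIcc (ψ 0) (ψ 1) := by
    intro r hr hm
    rw [← him] at hm
    obtain ⟨r', hr', e⟩ := hm
    have e' : r' = r := hi hr' hr (by rw [← he r' hr', e, hγ.per, he r hr])
    rw [e'] at e
    linarith
  rcases lt_or_gt_of_ne (fun e => zero_ne_one (hψi h0 h1 e) : ψ 0 ≠ ψ 1) with h | h
  · rw [uIcc_of_le h.le] at hA' hlt
    exact ⟨c, ψ 0, ψ 1, h, not_le.1 fun h' => hlt 0 h0 ⟨by linarith, h'⟩, hA',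
      Or.inl ⟨(he 0 h0).symm, (he 1 h1).symm⟩⟩
  · rw [uIcc_of_ge h.le] at hA' hlt
    exact ⟨c, ψ 1, ψ 0, h, not_le.1 fun h' => hlt 1 h1 ⟨by linarith, h'⟩, hA',
      Or.inr ⟨(he 0 h0).symm, (he 1 h1).symm⟩⟩

namespace Conf

theorem arc_subset_star (C : Conf N) (a : N) (s : Bool) : C.arc a (C.nb a s) ⊆ C.star a := by
  cases s
  · exact subset_union_left
  · exact subset_union_right
theorem star_nb_subset_win (C : Conf N) (a : N) (s : Bool) : C.star (C.nb a s) ⊆ C.win a := by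
  cases s
  · exact subset_union_left
  · exact subset_union_right
theorem star_subset_supp (C : Conf N) (a : N) : C.star a ⊆ C.supp := subset_iUnion C.star a
theorem GCArc_star (h : p ∈ C.star a) : ∃ s, p ∈ C.arc a (C.nb a s) :=
  h.elim (fun h => ⟨false, h⟩) fun h => ⟨true, h⟩
theorem Far.symm (hC : C.Valid fa) (h : C.Far a b) : C.Far b a := by
  refine ⟨h.1.symm, fun s e => ?_, fun s s' => (h.2.2 s' s).symm⟩
  obtain ⟨s', e'⟩ := hC.adj_symm b s
  exact h.2.1 s' (e ▸ e')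
theorem Valid.nb_inj (hC : C.Valid fa) {s s' : Bool} (h : C.nb a s = C.nb a s') : s = s' := by
  cases s <;> cases s'
  · rfl
  · exact absurd h (hC.nb_ne a)
  · exact absurd h.symm (hC.nb_ne a)
  · rfl
theorem Valid.nb_ne_self (hC : C.Valid fa) (a : N) (s : Bool) : C.nb a s ≠ a := fun e => by
  have := hC.col_nb a s
  rw [e] at this
  exact absurd this (Bool.eq_not_self _).1
theorem Valid.pt_mem_star (hC : C.Valid fa) (a : N) : C.pt a ∈ C.star a :=
  C.arc_subset_star a false (hC.isArc a false).left_mem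
theorem Valid.nb_mem_star (hC : C.Valid fa) (a : N) (s : Bool) :
    C.pt (C.nb a s) ∈ C.star a := C.arc_subset_star a s (hC.isArc a s).right_mem
theorem Valid.arc_subset_star_nb (hC : C.Valid fa) (a : N) (s : Bool) :
    C.arc a (C.nb a s) ⊆ C.star (C.nb a s) := by
  obtain ⟨s', e⟩ := hC.adj_symm a s
  have := C.arc_subset_star (C.nb a s) s'
  rwa [e, hC.arc_symm] at this
theorem Valid.star_subset_win (hC : C.Valid fa) (a : N) : C.star a ⊆ C.win a :=
  union_subset_union (hC.arc_subset_star_nb a false) (hC.arc_subset_star_nb a true)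
/-- parallel segments are far apart or have a common neighbour -/
theorem Valid.far_or (hC : C.Valid fa) (hab : a ≠ b) (hc : C.col a = C.col b) :
    C.Far a b ∨ ∃ m, (a = C.nb m false ∧ b = C.nb m true) ∨ (a = C.nb m true ∧ b = C.nb m false) := by
  by_cases h : ∃ s s', C.nb a s = C.nb b s'
  · obtain ⟨s, s', e⟩ := h
    obtain ⟨x, hx⟩ := hC.adj_symm a s
    obtain ⟨y, hy⟩ := hC.adj_symm b s'
    rw [← e] at hy
    refine Or.inr ⟨C.nb a s, ?_⟩
    cases x <;> cases y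
    · exact absurd (hx.symm.trans hy) hab
    · exact Or.inl ⟨hx.symm, hy.symm⟩
    · exact Or.inr ⟨hx.symm, hy.symm⟩
    · exact absurd (hx.symm.trans hy) hab
  · refine Or.inl ⟨hab, fun s e => ?_, fun s s' e => h ⟨s, s', e⟩⟩
    have := hC.col_nb a s
    rw [e, hc] at this
    exact absurd this (Bool.eq_not_self _).1
theorem Valid.far_of_col (hC : C.Valid fa) (hc : C.col a ≠ C.col b) (h : ∀ s, C.nb a s ≠ b) :
    C.Far a b := by
  refine ⟨fun e => hc (e ▸ rfl), h, fun s s' e => hc ?_⟩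
  have := hC.col_nb a s
  rw [e, hC.col_nb] at this
  exact (Bool.not_inj this).symm
theorem Mono.star_lo (hC : C.Valid fa) (h : C.Mono i m s) :
    ∀ p ∈ C.star (C.nb m s), p i ≤ C.pt m i ∧ (p i = C.pt m i → p = C.pt m) := by
  intro p hp
  refine ⟨?_, h.inj (C.star_nb_subset_win m s hp) (hC.star_subset_win m (hC.pt_mem_star m))⟩
  obtain ⟨t, ht⟩ := GCArc_star hp
  have h1 := ((hC.isArc _ t).coord_mem
    (h.inj.mono ((C.arc_subset_star _ t).trans (C.star_nb_subset_win m s))) p ht).2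
  refine h1.trans (max_le h.lo₁.le ?_)
  by_cases e : C.nb (C.nb m s) t = m
  · rw [e]
  · exact ((h.lo₂ t e).trans h.lo₁).le
theorem Mono.star_hi (hC : C.Valid fa) (h : C.Mono i m s) :
    ∀ p ∈ C.star (C.nb m (!s)), C.pt m i ≤ p i ∧ (p i = C.pt m i → p = C.pt m) := by
  intro p hp
  refine ⟨?_, h.inj (C.star_nb_subset_win m _ hp) (hC.star_subset_win m (hC.pt_mem_star m))⟩
  obtain ⟨t, ht⟩ := GCArc_star hp
  have h1 := ((hC.isArc _ t).coord_mem
    (h.inj.mono ((C.arc_subset_star _ t).trans (C.star_nb_subset_win m _))) p ht).1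
  refine (le_min h.hi₁.le ?_).trans h1
  by_cases e : C.nb (C.nb m (!s)) t = m
  · rw [e]
  · exact (h.hi₁.trans (h.hi₂ t e)).le
theorem GCArc_side (hC : C.Valid fa) (h : C.pt (C.nb m (!s)) ∈ C.star (C.nb m s)) : False := by
  obtain ⟨i, s', -, hm⟩ := hC.mono m
  by_cases e : s' = s
  · subst e
    exact absurd (hm.star_lo hC _ h).1 (not_le.2 hm.hi₁)
  · obtain rfl : s' = !s := Bool.eq_not.2 e
    have := hm.star_hi hC (C.pt (C.nb m (!s))) (by rwa [Bool.not_not])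
    exact absurd this.1 (not_le.2 hm.lo₁)
theorem GCArc_par (hC : C.Valid fa) (hc : C.col a = C.col b) (h : C.pt b ∈ C.star a) : b = a := by
  by_contra hn
  rcases hC.far_or (Ne.symm hn) hc with hf | ⟨m, ⟨rfl, rfl⟩ | ⟨rfl, rfl⟩⟩
  · obtain ⟨i, h' | h'⟩ := hC.sep a b hf
    · exact lt_irrefl _ (h' _ h _ (hC.pt_mem_star b))
    · exact lt_irrefl _ (h' _ (hC.pt_mem_star b) _ h)
  · exact GCArc_side hC (s := false) h
  · exact GCArc_side hC (s := true) h
theorem GCArc_mem (hC : C.Valid fa) (h : C.pt b ∈ C.arc a (C.nb a s)) :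
    b = a ∨ b = C.nb a s := by
  by_cases hc : C.col a = C.col b
  · exact Or.inl (GCArc_par hC hc (C.arc_subset_star a s h))
  · refine Or.inr (GCArc_par hC ?_ (hC.arc_subset_star_nb a s h))
    rw [hC.col_nb]
    exact (Bool.eq_not.2 (Ne.symm hc)).symm
theorem GCArc_inter (hC : C.Valid fa) (h : p ∈ C.arc a (C.nb a false))
    (h' : p ∈ C.arc a (C.nb a true)) : p = C.pt a := by
  obtain ⟨i, s, -, hm⟩ := hC.mono a
  have h1 : ∀ s, p ∈ C.star (C.nb a s) := fun s => hC.arc_subset_star_nb a s (by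
    cases s
    · exact h
    · exact h')
  have h2 := hm.star_lo hC p (h1 _)
  exact h2.2 (le_antisymm h2.1 (hm.star_hi hC p (h1 _)).1)
theorem Valid.pt_inj' (hC : C.Valid fa) : Function.Injective C.pt := by
  intro a b e
  rcases GCArc_mem hC (b := b) (e ▸ (hC.isArc a false).left_mem) with h | h
  · exact h.symm
  · exact absurd (h ▸ e) (GCArc_ne (hC.isArc a false))
/-- no marked point lies inside an arc -/
theorem Valid.mem_arc (hC : C.Valid fa) (h : C.pt b ∈ C.arc a (C.nb a s)) :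
    b = a ∨ b = C.nb a s := GCArc_mem hC h
theorem Lab.ok' (hγ : IsU γ) (hC : C.Valid fa) {dl : N → N → Arc κ} (h : C.Lab γ dl) :
    (C.grid dl).OK := by
  have hrev : ∀ a s, dl (C.nb a s) a = Rev.rev (dl a (C.nb a s)) := by
    intro a s
    obtain ⟨s', e⟩ := hC.adj_symm a s
    obtain ⟨c, t, t', a1, a2, a3, a4⟩ := h a s
    obtain ⟨c', u, u', b1, b2, b3, b4⟩ := h (C.nb a s) s'
    rw [e] at b3 b4
    rw [hC.arc_symm, a3] at b3
    rcases a4 with ⟨x1, x2, x3⟩ | ⟨x1, x2, x3⟩ <;> rcases b4 with ⟨y1, y2, y3⟩ | ⟨y1, y2, y3⟩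
    · exact absurd b3 (hγ.not_flip a1 a2 b1 b2 (x1.symm.trans y2) (x2.symm.trans y1))
    · rw [x3, y3, (hγ.inj _ _ _ _ (x1.symm.trans y2)).1]
      rfl
    · rw [x3, y3, (hγ.inj _ _ _ _ (x1.symm.trans y2)).1]
      rfl
    · exact absurd b3 (hγ.not_flip a1 a2 b1 b2 (x2.symm.trans y1) (x1.symm.trans y2))
  refine ⟨hC.col_nb, hC.nb_ne, hC.adj_symm, hrev, fun a => (hrev a false).trans ?_⟩
  obtain ⟨c, t, t', a1, a2, a3, a4⟩ := h a false
  obtain ⟨c', u, u', b1, b2, b3, b4⟩ := h a true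
  change _ = dl a (C.nb a true)
  obtain ⟨ε, ε0, ε1, ε2⟩ : ∃ ε : ℝ, 0 < ε ∧ ε ≤ t' - t ∧ ε ≤ u' - u :=
    ⟨min (t' - t) (u' - u), lt_min (sub_pos.2 a1) (sub_pos.2 b1), min_le_left _ _, min_le_right _ _⟩
  rcases a4 with ⟨x1, x2, x3⟩ | ⟨x1, x2, x3⟩ <;> rcases b4 with ⟨y1, y2, y3⟩ | ⟨y1, y2, y3⟩
  · obtain ⟨rfl, j, hj⟩ := hγ.inj _ _ _ _ (x1.symm.trans y1)
    have m1 : t + ε ∈ Icc t t' := ⟨by linarith, by linarith⟩
    have e := GCArc_inter hC (a := a) (p := γ c (t + ε)) (a3.ge ⟨_, m1, rfl⟩)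
      (b3.ge ⟨t + ε + j, ⟨by linarith, by linarith⟩, per_int (hγ.per c) _ j⟩)
    have := hγ.injOn c a2 m1 (left_mem_Icc.2 a1.le) (e.trans x1)
    linarith
  · rw [x3, y3, (hγ.inj _ _ _ _ (x1.symm.trans y1)).1]
    rfl
  · rw [x3, y3, (hγ.inj _ _ _ _ (x1.symm.trans y1)).1]
    rfl
  · obtain ⟨rfl, j, hj⟩ := hγ.inj _ _ _ _ (x1.symm.trans y1)
    have m1 : t' - ε ∈ Icc t t' := ⟨by linarith, by linarith⟩
    have e := GCArc_inter hC (a := a) (p := γ c (t' - ε)) (a3.ge ⟨_, m1, rfl⟩)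
      (b3.ge ⟨t' - ε + j, ⟨by linarith, by linarith⟩, per_int (hγ.per c) _ j⟩)
    have := hγ.injOn c a2 m1 (right_mem_Icc.2 a1.le) (e.trans x1)
    linarith

end Conf

theorem exists_lab' [Fintype κ] (hγ : IsU γ) (hC : C.Valid fa) (hs : C.supp = trace γ) :
    ∃ dl, C.Lab γ dl := by
  classical
  have h : ∀ a s, ∃ x : Arc κ, ∃ c t t', t < t' ∧ t' < t + 1 ∧
      C.arc a (C.nb a s) = γ c '' Icc t t' ∧
      ((C.pt a = γ c t ∧ C.pt (C.nb a s) = γ c t' ∧ x = ⟨c, true⟩) ∨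
        (C.pt a = γ c t' ∧ C.pt (C.nb a s) = γ c t ∧ x = ⟨c, false⟩)) := by
    intro a s
    obtain ⟨c, t, t', h1, h2, h3, h4 | h4⟩ := (hC.isArc a s).exists_param hγ
      (hs ▸ (C.arc_subset_star a s).trans (C.star_subset_supp a))
    · exact ⟨_, c, t, t', h1, h2, h3, Or.inl ⟨h4.1, h4.2, rfl⟩⟩
    · exact ⟨_, c, t, t', h1, h2, h3, Or.inr ⟨h4.1, h4.2, rfl⟩⟩
  choose f hf using h
  refine ⟨fun a b => if C.nb a false = b then f a false else f a true, fun a s => ?_⟩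
  have e : (if C.nb a false = C.nb a s then f a false else f a true) = f a s := by
    cases s
    · exact if_pos rfl
    · exact if_neg (hC.nb_ne a)
  simp only [e]
  exact hf a s

end Pool.Agent.P.MP_ac4909_gt.B
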