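import Pool.Agent.P.MP_ac4909_gt.B.GC_PC

/-! Layer G, core: fine subdivisions are certified. -/

namespace Pool.Agent.P.MP_ac4909_gt.B

open scoped ContDiff
open Set Filter Topology

variable {κ : Type} {fa : Bool} {Γ : ℝ → κ → ℝ → E3}

theorem GCFine_near {n : κ → ℕ} {τ : κ → ℤ → ℝ} {η : ℝ} (h : PC n τ) (hm : Mesh η τ) (c : κ)
    (k m : ℤ) (h0 : 0 ≤ m) {t : ℝ} (ht : t ∈ Icc (τ c (k - m)) (τ c (k + m))) :
    |t - τ c k| ≤ m * η := by
  have h1 := hm.sub_le h c k (k - m)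
  have h2 := hm.sub_le h c k (k + m)
  have hm0 : (0 : ℝ) ≤ m := by exact_mod_cast h0
  have e1 : |((k - m : ℤ) : ℝ) - k| = m := by
    push_cast
    rw [show (k : ℝ) - m - k = -m by ring, abs_neg, abs_of_nonneg hm0]
  have e2 : |((k + m : ℤ) : ℝ) - k| = m := by
    push_cast
    rw [show (k : ℝ) + m - k = m by ring, abs_of_nonneg hm0]
  rw [e1] at h1
  rw [e2] at h2
  rw [abs_le] at h1 h2 ⊢
  constructor <;> linarith [ht.1, ht.2, h1.1, h2.2]

theorem GCFine_near1 {n : κ → ℕ} {τ : κ → ℤ → ℝ} {η : ℝ} (h : PC n τ) (hm : Mesh η τ) (c : κ)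
    (k : ℤ) {t : ℝ} (ht : t ∈ Icc (τ c (k - 1)) (τ c (k + 1))) : |t - τ c k| ≤ η := by
  simpa using GCFine_near h hm c k 1 (by norm_num) ht

theorem GCFine_near2 {n : κ → ℕ} {τ : κ → ℤ → ℝ} {η : ℝ} (h : PC n τ) (hm : Mesh η τ) (c : κ)
    (k : ℤ) {t : ℝ} (ht : t ∈ wnd τ c k) : |t - τ c k| ≤ 2 * η := by
  simpa using GCFine_near h hm c k 2 (by norm_num) ht

theorem GCFine_coord (p q : E3) (i : Fin 3) : |p i - q i| ≤ dist p q := by
  rw [← Real.dist_eq]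
  exact PiLp.dist_apply_le p q i

theorem GCFine_exists_coord {p q : E3} {d : ℝ} (hd : 0 < d) (h : d ≤ dist p q) :
    ∃ i, d / 2 ≤ |p i - q i| := by
  by_contra hc
  simp only [not_exists, not_le] at hc
  rw [EuclideanSpace.dist_eq, Fin.sum_univ_three] at h
  have h0 := hc 0
  have h1 := hc 1
  have h2 := hc 2
  simp only [Real.dist_eq] at h
  have hs := (Real.le_sqrt' hd).1 h
  have a0 := abs_nonneg (p 0 - q 0)
  have a1 := abs_nonneg (p 1 - q 1)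
  have a2 := abs_nonneg (p 2 - q 2)
  nlinarith

theorem GCFine_sep {γ : κ → ℝ → E3} {n : κ → ℕ} {τ : κ → ℤ → ℝ} (h : PC n τ) {c : κ} {k l : ℤ}
    (hkl : k + 3 ≤ l) {I : Set ℝ} (hk : Icc (τ c (k - 1)) (τ c (k + 1)) ⊆ I)
    (hl : Icc (τ c (l - 1)) (τ c (l + 1)) ⊆ I) (i : Fin 3) :
    (StrictMonoOn (fun t => γ c t i) I → Sep i (st1 γ τ c k) (st1 γ τ c l)) ∧
    (StrictAntiOn (fun t => γ c t i) I → Sep i (st1 γ τ c l) (st1 γ τ c k)) := by
  have hlt : τ c (k + 1) < τ c (l - 1) := h.mono c (by omega)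
  constructor
  · rintro hm _ ⟨t, ht, rfl⟩ _ ⟨t', ht', rfl⟩
    exact hm (hk ht) (hl ht') (by linarith [ht.2, ht'.1])
  · rintro hm _ ⟨t', ht', rfl⟩ _ ⟨t, ht, rfl⟩
    exact hm (hk ht) (hl ht') (by linarith [ht.2, ht'.1])

theorem GCFine_main (h : Unif fa Γ) : ∃ d > 0, ∃ η > 0, ∀ s ∈ Icc (0 : ℝ) 1, ∀ s' ∈ Icc (0 : ℝ) 1,
    |s - s'| < η → ∀ (n : κ → ℕ) (τ τ' : κ → ℤ → ℝ), PC n τ → PC n τ' → Mesh η τ → Mesh η τ' →
      (∀ c k, |τ c k - τ' c k| < η) →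
      (∀ c k c' k', FarI n c k c' k' →
        (∃ i : Fin 3, (fa = true → i ≠ 2) ∧
          ((Sep i (st1 (Γ s) τ c k) (st1 (Γ s) τ c' k') ∧
            Sep i (st1 (Γ s') τ' c k) (st1 (Γ s') τ' c' k')) ∨
          (Sep i (st1 (Γ s) τ c' k') (st1 (Γ s) τ c k) ∧
            Sep i (st1 (Γ s') τ' c' k') (st1 (Γ s') τ' c k)))) ∨
        ∃ i : Fin 3,
          ((∀ p ∈ st1 (Γ s) τ c k, ∀ q ∈ st1 (Γ s) τ c' k', p i + d < q i) ∧
            ∀ p ∈ st1 (Γ s') τ' c k, ∀ q ∈ st1 (Γ s') τ' c' k', p i + d < q i) ∨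
          ((∀ p ∈ st1 (Γ s) τ c k, ∀ q ∈ st1 (Γ s) τ c' k', q i + d < p i) ∧
            ∀ p ∈ st1 (Γ s') τ' c k, ∀ q ∈ st1 (Γ s') τ' c' k', q i + d < p i)) ∧
      ∀ c k, ∃ i : Fin 3, (fa = true → i ≠ 2) ∧
        ((StrictMonoOn (fun t => Γ s c t i) (wnd τ c k) ∧
          StrictMonoOn (fun t => Γ s' c t i) (wnd τ' c k)) ∨
        (StrictAntiOn (fun t => Γ s c t i) (wnd τ c k) ∧
          StrictAntiOn (fun t => Γ s' c t i) (wnd τ' c k))) := by
  obtain ⟨ρ, hρ, hmono⟩ := h.mono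
  obtain ⟨d, hd, hfar⟩ := h.far (ρ / 2) (by positivity)
  obtain ⟨δ, hδ, hcont⟩ := h.cont (d / 10) (by positivity)
  refine ⟨d / 5, by positivity, min (ρ / 20) (δ / 4), by positivity, ?_⟩
  intro s hs s' hs' hss n τ τ' hτ hτ' hm hm' hcl
  set η := min (ρ / 20) (δ / 4) with hη
  have hη0 : 0 < η := by positivity
  have hη1 : η ≤ ρ / 20 := min_le_left _ _
  have hη2 : η ≤ δ / 4 := min_le_right _ _
  have hss0 : |s - s| < ρ := by simpa using hρ
  have hss1 : |s' - s| < ρ := by rw [abs_sub_comm]; linarith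
  constructor
  · intro c k c' k' hF
    by_cases hA : ∃ (_ : c = c') (j : ℤ), |τ c' k' - τ c k + j| < ρ / 2
    · obtain ⟨rfl, j, hj⟩ := hA
      left
      obtain ⟨i, hi, hI⟩ := hmono s hs c (τ c k)
      have h3 := hF rfl j
      set l := k' + 2 * n c * j with hl
      have hτl : τ c l = τ c k' + j := hτ.per_mul c k' j
      have e1 : st1 (Γ s) τ c k' = st1 (Γ s) τ c l := (hτ.st1_per (h.per s hs) c k' j).symm
      have e2 : st1 (Γ s') τ' c k' = st1 (Γ s') τ' c l := (hτ'.st1_per (h.per s' hs') c k' j).symm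
      have hlk : |τ c l - τ c k| < ρ / 2 := by
        rw [hτl]; convert hj using 2; ring
      rw [abs_lt] at hlk
      have i1 : Icc (τ c (k - 1)) (τ c (k + 1)) ⊆ Icc (τ c k - ρ) (τ c k + ρ) := by
        intro t ht
        have := abs_le.1 (GCFine_near1 hτ hm c k ht)
        constructor <;> linarith [this.1, this.2]
      have i2 : Icc (τ c (l - 1)) (τ c (l + 1)) ⊆ Icc (τ c k - ρ) (τ c k + ρ) := by
        intro t ht
        have := abs_le.1 (GCFine_near1 hτ hm c l ht)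
        constructor <;> linarith [this.1, this.2, hlk.1, hlk.2]
      have i3 : Icc (τ' c (k - 1)) (τ' c (k + 1)) ⊆ Icc (τ c k - ρ) (τ c k + ρ) := by
        intro t ht
        have := abs_le.1 (GCFine_near1 hτ' hm' c k ht)
        have h2 := abs_lt.1 (hcl c k)
        constructor <;> linarith [this.1, this.2, h2.1, h2.2]
      have i4 : Icc (τ' c (l - 1)) (τ' c (l + 1)) ⊆ Icc (τ c k - ρ) (τ c k + ρ) := by
        intro t ht
        have := abs_le.1 (GCFine_near1 hτ' hm' c l ht)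
        have h2 := abs_lt.1 (hcl c l)
        constructor <;> linarith [this.1, this.2, h2.1, h2.2, hlk.1, hlk.2]
      have h3' : k + 3 ≤ l ∨ l + 3 ≤ k := by
        have e : k' - k + 2 * n c * j = l - k := by rw [hl]; ring
        rw [e] at h3
        rcases le_abs.1 h3 with h4 | h4
        · left; omega
        · right; omega
      refine ⟨i, hi, ?_⟩
      rw [e1, e2]
      rcases h3' with h4 | h4 <;> rcases hI with hI | hI
      · exact Or.inl ⟨(GCFine_sep hτ h4 i1 i2 i).1 (hI s hs hss0),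
          (GCFine_sep hτ' h4 i3 i4 i).1 (hI s' hs' hss1)⟩
      · exact Or.inr ⟨(GCFine_sep hτ h4 i1 i2 i).2 (hI s hs hss0),
          (GCFine_sep hτ' h4 i3 i4 i).2 (hI s' hs' hss1)⟩
      · exact Or.inr ⟨(GCFine_sep hτ h4 i2 i1 i).1 (hI s hs hss0),
          (GCFine_sep hτ' h4 i4 i3 i).1 (hI s' hs' hss1)⟩
      · exact Or.inl ⟨(GCFine_sep hτ h4 i2 i1 i).2 (hI s hs hss0),
          (GCFine_sep hτ' h4 i4 i3 i).2 (hI s' hs' hss1)⟩
    · right
      have hD : d ≤ dist (Γ s c (τ c k)) (Γ s c' (τ c' k')) := by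
        refine hfar s hs c c' _ _ fun hc j => ?_
        by_contra hlt
        exact hA ⟨hc, j, not_le.1 hlt⟩
      obtain ⟨i, hi⟩ := GCFine_exists_coord hd hD
      have c1 : ∀ c k, ∀ p ∈ st1 (Γ s) τ c k, |p i - Γ s c (τ c k) i| < d / 10 := by
        rintro c k _ ⟨t, ht, rfl⟩
        refine (GCFine_coord _ _ i).trans_lt (hcont s hs s hs c _ _ (by simpa using hδ) ?_)
        have := GCFine_near1 hτ hm c k ht
        linarith
      have c2 : ∀ c k, ∀ p ∈ st1 (Γ s') τ' c k, |p i - Γ s c (τ c k) i| < d / 10 := by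
        rintro c k _ ⟨t, ht, rfl⟩
        refine (GCFine_coord _ _ i).trans_lt (hcont s' hs' s hs c _ _ ?_ ?_)
        · rw [abs_sub_comm]; linarith
        · have h1 := abs_le.1 (GCFine_near1 hτ' hm' c k ht)
          have h2 := abs_lt.1 (hcl c k)
          rw [abs_lt]
          constructor <;> linarith [h1.1, h1.2, h2.1, h2.2]
      refine ⟨i, ?_⟩
      rcases le_abs.1 hi with h5 | h5
      · right
        constructor
        · intro p hp q hq
          have h1 := abs_lt.1 (c1 c k p hp)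
          have h2 := abs_lt.1 (c1 c' k' q hq)
          linarith [h1.1, h1.2, h2.1, h2.2]
        · intro p hp q hq
          have h1 := abs_lt.1 (c2 c k p hp)
          have h2 := abs_lt.1 (c2 c' k' q hq)
          linarith [h1.1, h1.2, h2.1, h2.2]
      · left
        constructor
        · intro p hp q hq
          have h1 := abs_lt.1 (c1 c k p hp)
          have h2 := abs_lt.1 (c1 c' k' q hq)
          linarith [h1.1, h1.2, h2.1, h2.2]
        · intro p hp q hq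
          have h1 := abs_lt.1 (c2 c k p hp)
          have h2 := abs_lt.1 (c2 c' k' q hq)
          linarith [h1.1, h1.2, h2.1, h2.2]
  · intro c k
    obtain ⟨i, hi, hI⟩ := hmono s hs c (τ c k)
    have i1 : wnd τ c k ⊆ Icc (τ c k - ρ) (τ c k + ρ) := by
      intro t ht
      have := abs_le.1 (GCFine_near2 hτ hm c k ht)
      constructor <;> linarith [this.1, this.2]
    have i2 : wnd τ' c k ⊆ Icc (τ c k - ρ) (τ c k + ρ) := by
      intro t ht
      have := abs_le.1 (GCFine_near2 hτ' hm' c k ht)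
      have h2 := abs_lt.1 (hcl c k)
      constructor <;> linarith [this.1, this.2, h2.1, h2.2]
    refine ⟨i, hi, ?_⟩
    rcases hI with hI | hI
    · exact Or.inl ⟨(hI s hs hss0).mono i1, (hI s' hs' hss1).mono i2⟩
    · exact Or.inr ⟨(hI s hs hss0).mono i1, (hI s' hs' hss1).mono i2⟩

theorem Unif.pj (h : Unif fa Γ) : ∃ η > 0, ∀ s ∈ Icc (0 : ℝ) 1, ∀ s' ∈ Icc (0 : ℝ) 1,
    |s - s'| < η → ∀ (n : κ → ℕ) (τ τ' : κ → ℤ → ℝ), PC n τ → PC n τ' → Mesh η τ → Mesh η τ' →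
      (∀ c k, |τ c k - τ' c k| < η) → PJ fa n (Γ s) τ (Γ s') τ' := by
  obtain ⟨d, hd, η, hη, H⟩ := GCFine_main h
  refine ⟨η, hη, fun s hs s' hs' hss n τ τ' hτ hτ' hm hm' hcl => ?_⟩
  obtain ⟨H1, H2⟩ := H s hs s' hs' hss n τ τ' hτ hτ' hm hm' hcl
  refine ⟨fun c k c' k' hF => ?_, H2⟩
  rcases H1 c k c' k' hF with ⟨i, -, hi⟩ | ⟨i, ⟨h1, h2⟩ | ⟨h1, h2⟩⟩
  · exact ⟨i, hi⟩
  · exact ⟨i, Or.inl ⟨fun p hp q hq => by linarith [h1 p hp q hq],
      fun p hp q hq => by linarith [h2 p hp q hq]⟩⟩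
  · exact ⟨i, Or.inr ⟨fun q hq p hp => by linarith [h1 p hp q hq],
      fun q hq p hp => by linarith [h2 p hp q hq]⟩⟩

theorem Unif.pm (h : Unif true Γ) : ∃ d > 0, ∃ η > 0, ∀ s ∈ Icc (0 : ℝ) 1,
    ∀ (n : κ → ℕ) (τ : κ → ℤ → ℝ), PC n τ → Mesh η τ → PM d (Γ s) n τ := by
  obtain ⟨d, hd, η, hη, H⟩ := GCFine_main h
  refine ⟨d, hd, η, hη, fun s hs n τ hτ hm c k c' k' hF => ?_⟩
  obtain ⟨H1, -⟩ := H s hs s hs (by simpa using hη) n τ τ hτ hτ hm hm
    (fun c k => by simpa using hη)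
  rcases H1 c k c' k' hF with ⟨i, hi, h1 | h1⟩ | ⟨i, ⟨h1, -⟩ | ⟨h1, -⟩⟩
  · exact Or.inl ⟨i, hi rfl, Or.inl h1.1⟩
  · exact Or.inl ⟨i, hi rfl, Or.inr h1.1⟩
  · by_cases hi : i = 2
    · subst hi
      exact Or.inr (Or.inl h1)
    · exact Or.inl ⟨i, hi, Or.inl fun p hp q hq => by linarith [h1 p hp q hq]⟩
  · by_cases hi : i = 2
    · subst hi
      exact Or.inr (Or.inr h1)
    · exact Or.inl ⟨i, hi, Or.inr fun q hq p hp => by linarith [h1 p hp q hq]⟩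

theorem Unif.diam (h : Unif fa Γ) {ε : ℝ} (hε : 0 < ε) : ∃ η > 0, ∀ s ∈ Icc (0 : ℝ) 1,
    ∀ (n : κ → ℕ) (τ : κ → ℤ → ℝ), PC n τ → Mesh η τ → ∀ c k,
      ∀ p ∈ st1 (Γ s) τ c k, ∀ q ∈ st1 (Γ s) τ c k, dist p q < ε := by
  obtain ⟨δ, hδ, hcont⟩ := h.cont ε hε
  refine ⟨δ / 3, by positivity, ?_⟩
  rintro s hs n τ hτ hm c k _ ⟨t, ht, rfl⟩ _ ⟨t', ht', rfl⟩
  refine hcont s hs s hs c t t' (by simpa using hδ) ?_
  have h1 := abs_le.1 (GCFine_near1 hτ hm c k ht)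
  have h2 := abs_le.1 (GCFine_near1 hτ hm c k ht')
  rw [abs_lt]
  constructor <;> linarith [h1.1, h1.2, h2.1, h2.2]

end Pool.Agent.P.MP_ac4909_gt.B
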