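import Pool.Agent.P.MP_ac4909_gt.B.GC_Cert

/-! Layer G, core: insertion of two marked points, the certificate. -/

namespace Pool.Agent.P.MP_ac4909_gt.B

open scoped ContDiff
open Set Filter Topology

variable {α N : Type} [DecidableEq N] [Rev α] {fa : Bool} {C : Conf N} {v : N} {s : Bool}
  {g : ℝ → E3} {u₁ u₂ : ℝ}

theorem GCInsB_idx {N' : Type} [DecidableEq N'] {φ : N → N'} {A B : List N} {w : N} {c : N'}
    {pr : N' → N} (hc : ∀ a, c ≠ φ a) (h1 : ∀ a, pr (φ a) = a) (h2 : pr c = w)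
    (hw : (A ++ B).idxOf w = A.length ∨ (A ++ B).idxOf w + 1 = A.length) {x y : N'}
    (hx : x = c ∨ ∃ a, x = φ a) (hy : y = c ∨ ∃ a, y = φ a)
    (h : (A ++ B).idxOf (pr x) < (A ++ B).idxOf (pr y)) :
    (A.map φ ++ c :: B.map φ).idxOf x < (A.map φ ++ c :: B.map φ).idxOf y := by
  have e1 := Grid.evb_idxOf_inl (Function.LeftInverse.injective h1) hc A B
  have e2 := Grid.evb_idxOf_inr hc A (B.map φ)
  rcases hx with rfl | ⟨a, rfl⟩ <;> rcases hy with rfl | ⟨b, rfl⟩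
  · exact absurd h (lt_irrefl _)
  · rw [h1, h2] at h
    rw [e1, e2]
    split_ifs <;> omega
  · rw [h1, h2] at h
    rw [e1, e2]
    split_ifs <;> omega
  · rw [h1, h1] at h
    rw [e1, e1]
    split_ifs <;> omega

theorem GCInsB_list {N' : Type} [DecidableEq N'] {φ : N → N'} {A B : List N} {w : N}
    (hn : (A ++ w :: B).Nodup) {c : N'} (p : Prop) [Decidable p] {pr : N' → N}
    (hc : ∀ a, c ≠ φ a) (h1 : ∀ a, pr (φ a) = a) (h2 : pr c = w) {l : List N'}
    (hl : l = A.map φ ++ (if p then [c, φ w] else [φ w, c]) ++ B.map φ) :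
    l.Nodup ∧ (∀ x, x ∈ l ↔ x = c ∨ x ∈ (A ++ w :: B).map φ) ∧
      (p → l.idxOf c < l.idxOf (φ w)) ∧ (¬p → l.idxOf (φ w) < l.idxOf c) ∧
      ∀ x y, (x = c ∨ ∃ a, x = φ a) → (y = c ∨ ∃ a, y = φ a) →
        (A ++ w :: B).idxOf (pr x) < (A ++ w :: B).idxOf (pr y) → l.idxOf x < l.idxOf y := by
  have hφ : Function.Injective φ := Function.LeftInverse.injective h1
  have hw : (A ++ w :: B).idxOf w = A.length := by
    have : w ∉ A := fun h => (List.nodup_append.1 hn).2.2 w h w List.mem_cons_self rfl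
    rw [List.idxOf_append_of_notMem this, List.idxOf_cons_self, add_zero]
  have hperm : l.Perm (c :: (A ++ w :: B).map φ) := by
    rw [hl, List.map_append, List.map_cons]
    split_ifs
    · rw [List.append_assoc]
      exact List.perm_middle
    · have e : A.map φ ++ [φ w, c] ++ B.map φ = (A.map φ ++ [φ w]) ++ c :: B.map φ := by simp
      rw [e]
      exact List.perm_middle.trans (by simp)
  refine ⟨hperm.nodup_iff.2 (List.nodup_cons.2 ⟨fun h => ?_, hn.map hφ⟩), fun x => ?_, ?_⟩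
  · obtain ⟨a, -, ha⟩ := List.mem_map.1 h
    exact hc a ha.symm
  · rw [hperm.mem_iff, List.mem_cons]
  by_cases hp : p
  · have e : l = A.map φ ++ c :: (w :: B).map φ := by
      rw [hl, if_pos hp]
      simp
    refine ⟨fun _ => ?_, fun h => absurd hp h, fun x y hx hy h => ?_⟩
    · rw [e, Grid.evb_idxOf_inl hφ hc, Grid.evb_idxOf_inr hc, hw, if_neg (lt_irrefl _)]
      exact lt_add_one _
    · rw [e]
      exact GCInsB_idx hc h1 h2 (Or.inl hw) hx hy h
  · have e : l = (A ++ [w]).map φ ++ c :: B.map φ := by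
      rw [hl, if_neg hp]
      simp
    have e' : A ++ [w] ++ B = A ++ w :: B := by simp
    have hlen : (A ++ [w]).length = A.length + 1 := by simp
    refine ⟨fun h => absurd h hp, fun _ => ?_, fun x y hx hy h => ?_⟩
    · rw [e, Grid.evb_idxOf_inl hφ hc, Grid.evb_idxOf_inr hc, e', hw, hlen, if_pos (lt_add_one _)]
      exact lt_add_one _
    · rw [e]
      exact GCInsB_idx hc h1 h2 (Or.inr (by rw [e', hw, hlen])) hx hy (by rwa [e'])

omit [DecidableEq N] in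
theorem GCInsB_ws (hC : C.Valid fa) {a b : N} (hab : a ≠ b) (hc : C.col a = C.col b) :
    ∃ i : Fin 3, ((∀ p ∈ C.star a, ∀ q ∈ C.star b, p i < q i ∨ p = q) ∨
      ∀ p ∈ C.star b, ∀ q ∈ C.star a, p i < q i ∨ p = q) ∧ (i = 2 → fa = false ∨ C.Far a b) := by
  rcases hC.far_or hab hc with h | ⟨m, h⟩
  · obtain ⟨i, hi | hi⟩ := hC.sep a b h
    · exact ⟨i, Or.inl fun p hp q hq => Or.inl (hi p hp q hq), fun _ => Or.inr h⟩
    · exact ⟨i, Or.inr fun p hp q hq => Or.inl (hi p hp q hq), fun _ => Or.inr h⟩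
  · obtain ⟨i, t, hf, hm⟩ := hC.mono m
    have key : ∀ p ∈ C.star (C.nb m t), ∀ q ∈ C.star (C.nb m (!t)), p i < q i ∨ p = q := by
      intro p hp q hq
      obtain ⟨h1, h2⟩ := hm.star_lo hC p hp
      obtain ⟨h3, h4⟩ := hm.star_hi hC q hq
      rcases (h1.trans h3).lt_or_eq with h5 | h5
      · exact Or.inl h5
      · exact Or.inr ((h2 (by linarith)).trans (h4 (by linarith)).symm)
    refine ⟨i, ?_, fun h2 => Or.inl (by
      cases fa
      · rfl
      · exact absurd h2 (hf rfl))⟩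
    rcases h with ⟨rfl, rfl⟩ | ⟨rfl, rfl⟩ <;> cases t
    · exact Or.inl key
    · exact Or.inr key
    · exact Or.inr key
    · exact Or.inl key

omit [DecidableEq N] in
theorem GCInsB_dir {N' : Type} {C' : Conf N'} (hC : C.Valid fa) (hC' : C'.Valid fa) {pr : N' → N}
    (hs : ∀ x, C'.star x ⊆ C.star (pr x)) (hn : ∀ x t, ∃ t', pr (C'.nb x t) = C.nb (pr x) t')
    {a b : N'} (hc : C'.col a = C'.col b) (hab : pr a ≠ pr b) {i j k : Fin 3}
    (hi : i = j ∨ i = k ∨ i = 2) {Lj Lk : N' → N' → Prop}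
    (hw : ∀ p ∈ C.star (pr a), ∀ q ∈ C.star (pr b), p i < q i ∨ p = q)
    (hz : i = 2 → fa = false ∨ C.Far (pr a) (pr b))
    (hj : C.pt (pr a) j < C.pt (pr b) j → Lj a b)
    (hk : ∀ t t', C.pt (pr (C'.nb a t)) k < C.pt (pr (C'.nb b t')) k →
      Lk (C'.nb a t) (C'.nb b t'))
    (htw : i = k → ∀ t t', pr (C'.nb a t) = pr (C'.nb b t') →
      C'.pt (C'.nb a t) k < C'.pt (C'.nb b t') k → Lk (C'.nb a t) (C'.nb b t')) :
    (Lj a b ∧ C'.pt a j < C'.pt b j) ∨
      (C'.grid fun _ _ => ()).Leg fa (fun x y => Lk x y ∧ C'.pt x k < C'.pt y k)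
        (fun x y => C'.pt x 2 < C'.pt y 2) a b := by
  have key : ∀ x y, C'.pt x ∈ C'.star a → C'.pt y ∈ C'.star b → x ≠ y → C'.pt x i < C'.pt y i :=
    fun x y hx hy h => (hw _ (hs a hx) _ (hs b hy)).resolve_right fun e => h (hC'.pt_inj' e)
  have key0 : ∀ x y, C.pt x ∈ C.star (pr a) → C.pt y ∈ C.star (pr b) → x ≠ y →
      C.pt x i < C.pt y i :=
    fun x y hx hy h => (hw _ hx _ hy).resolve_right fun e => h (hC.pt_inj' e)
  have hne : a ≠ b := fun e => hab (congrArg pr e)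
  have ha := hC'.pt_mem_star a
  have hb := hC'.pt_mem_star b
  have ha' := hC'.nb_mem_star a
  have hb' := hC'.nb_mem_star b
  have n1 : ∀ {x : N'} (t : Bool), C'.nb x (!t) ≠ C'.nb x t := fun t e =>
    Bool.not_ne_self t (hC'.nb_inj e)
  have n2 : ∀ t, a ≠ C'.nb b t := fun t e => by
    have := hC'.col_nb b t
    rw [← e, hc] at this
    exact Bool.not_ne_self _ this.symm
  have n3 : ∀ t, C'.nb a t ≠ b := fun t e => by
    have := hC'.col_nb a t
    rw [e, hc] at this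
    exact Bool.not_ne_self _ this.symm
  rcases hi with rfl | rfl | rfl
  · exact Or.inl ⟨hj (key0 _ _ (hC.pt_mem_star _) (hC.pt_mem_star _) hab), key a b ha hb hne⟩
  · have cl : ∀ t t', C'.nb a t ≠ C'.nb b t' → Lk (C'.nb a t) (C'.nb b t') ∧
        C'.pt (C'.nb a t) i < C'.pt (C'.nb b t') i := by
      intro t t' h
      have h1 := key _ _ (ha' t) (hb' t') h
      refine ⟨?_, h1⟩
      by_cases e : pr (C'.nb a t) = pr (C'.nb b t')
      · exact htw rfl t t' e h1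
      · refine hk t t' (key0 _ _ ?_ ?_ e)
        · obtain ⟨r, hr⟩ := hn a t
          rw [hr]
          exact hC.nb_mem_star _ r
        · obtain ⟨r, hr⟩ := hn b t'
          rw [hr]
          exact hC.nb_mem_star _ r
    by_cases hex : ∃ t t', C'.nb a t = C'.nb b t'
    · obtain ⟨t, t', e⟩ := hex
      refine Or.inr (Or.inr (Or.inr (Or.inl ⟨t, t', e, ?_, ?_⟩)))
      · have := cl (!t) t' (e ▸ n1 t)
        rw [← e] at this
        exact this
      · have := cl t (!t') (e ▸ (n1 t').symm)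
        rw [e] at this
        exact this
    · exact Or.inr (Or.inl fun t t' => cl t t' fun e => hex ⟨t, t', e⟩)
  · by_cases hex : ∃ t t', C'.nb a t = C'.nb b t'
    · obtain ⟨t, t', e⟩ := hex
      have hf : fa = false := (hz rfl).resolve_right fun h => by
        obtain ⟨r, hr⟩ := hn a t
        obtain ⟨r', hr'⟩ := hn b t'
        exact h.2.2 r r' (by rw [← hr, ← hr', e])
      refine Or.inr (Or.inr (Or.inr (Or.inr ⟨hf, t, t', e, ?_, ?_, ?_, ?_⟩)))
      · have := key _ _ ha (hb' t') (n2 t')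
        rw [← e] at this
        exact this
      · have := key _ _ (ha' (!t)) (hb' t') (e ▸ n1 t)
        rw [← e] at this
        exact this
      · have := key _ _ (ha' t) hb (n3 t)
        rw [e] at this
        exact this
      · have := key _ _ (ha' t) (hb' (!t')) (e ▸ (n1 t').symm)
        rw [e] at this
        exact this
    · exact Or.inr (Or.inr (Or.inl ⟨key a b ha hb hne, fun t => key _ _ ha (hb' t) (n2 t),
        fun t => key _ _ (ha' t) hb (n3 t),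
        fun t t' => key _ _ (ha' t) (hb' t') fun e => hex ⟨t, t', e⟩⟩))

/-- the old point that is replaced by a point of the refined subdivision -/
def GCInsB_pr (C : Conf N) (v : N) (s : Bool) : N ⊕ Bool → N :=
  Sum.elim id fun b => if b then v else C.nb v s

theorem GCInsB_nb (a : N) (t : Bool) : (C.ins v s g u₁ u₂).nb (.inl a) t =
    if a = v ∧ t = s then .inr false
      else if a = C.nb v s ∧ C.nb a t = v then .inr true else .inl (C.nb a t) := rfl

theorem GCInsB_col (hC : C.Valid fa) (hv : C.col v = true) (x : N ⊕ Bool) :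
    (C.ins v s g u₁ u₂).col x = C.col (GCInsB_pr C v s x) := by
  rcases x with a | _ | _
  · rfl
  · change false = C.col (C.nb v s)
    rw [hC.col_nb, hv]
    rfl
  · exact hv.symm

theorem GCInsB_prnb (hC : C.Valid fa) (x : N ⊕ Bool) (t : Bool) :
    ∃ t', GCInsB_pr C v s ((C.ins v s g u₁ u₂).nb x t) = C.nb (GCInsB_pr C v s x) t' := by
  obtain ⟨r, hr⟩ := hC.adj_symm v s
  rcases x with a | _ | _
  · refine ⟨t, ?_⟩
    rw [GCInsB_nb]
    split_ifs with h h'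
    · obtain ⟨rfl, rfl⟩ := h
      rfl
    · exact h'.2.symm
    · rfl
  · cases t <;> exact ⟨r, hr.symm⟩
  · cases t <;> exact ⟨s, rfl⟩

theorem GCInsB_star (hC : C.Valid fa) (ha : C.arc v (C.nb v s) = g '' Icc 0 1) (hu₁ : 0 < u₁)
    (hu : u₁ < u₂) (hu₂ : u₂ < 1) (x : N ⊕ Bool) :
    (C.ins v s g u₁ u₂).star x ⊆ C.star (GCInsB_pr C v s x) := by
  have s1 : g '' Icc 0 1 ⊆ C.star v := ha ▸ C.arc_subset_star v s
  have s2 : g '' Icc 0 1 ⊆ C.star (C.nb v s) := ha ▸ hC.arc_subset_star_nb v s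
  have a1 : g '' Icc 0 u₁ ⊆ g '' Icc 0 1 := image_mono (Icc_subset_Icc_right (by linarith))
  have a2 : g '' Icc u₁ u₂ ⊆ g '' Icc 0 1 := image_mono (Icc_subset_Icc hu₁.le hu₂.le)
  have a3 : g '' Icc u₂ 1 ⊆ g '' Icc 0 1 := image_mono (Icc_subset_Icc_left (by linarith))
  have key : ∀ t, (C.ins v s g u₁ u₂).arc x ((C.ins v s g u₁ u₂).nb x t) ⊆
      C.star (GCInsB_pr C v s x) := by
    intro t
    rcases x with a | _ | _
    · rw [GCInsB_nb]
      split_ifs with h h'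
      · obtain ⟨rfl, rfl⟩ := h
        exact a1.trans s1
      · obtain ⟨rfl, -⟩ := h'
        exact a3.trans s2
      · exact C.arc_subset_star a t
    · cases t
      · exact a1.trans s2
      · exact a2.trans s2
    · cases t
      · exact a2.trans s1
      · exact a3.trans s1
  exact union_subset (key false) (key true)

omit [DecidableEq N] in
theorem GCInsB_twin (hC : C.Valid fa) {x y : N ⊕ Bool} (hne : x ≠ y)
    (h : GCInsB_pr C v s x = GCInsB_pr C v s y) :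
    (x = .inl v ∧ y = .inr true) ∨ (x = .inr true ∧ y = .inl v) ∨
      (x = .inr false ∧ y = .inl (C.nb v s)) ∨ (x = .inl (C.nb v s) ∧ y = .inr false) := by
  have hn := hC.nb_ne_self v s
  rcases x with a | _ | _ <;> rcases y with b | _ | _
  · exact absurd (congrArg Sum.inl h) hne
  · exact Or.inr (Or.inr (Or.inr ⟨congrArg Sum.inl h, rfl⟩))
  · exact Or.inl ⟨congrArg Sum.inl h, rfl⟩
  · exact Or.inr (Or.inr (Or.inl ⟨rfl, congrArg Sum.inl h.symm⟩))
  · exact absurd rfl hne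
  · exact absurd h hn
  · exact Or.inr (Or.inl ⟨rfl, congrArg Sum.inl h.symm⟩)
  · exact absurd h.symm hn
  · exact absurd rfl hne

omit [DecidableEq N] in
theorem GCInsB_chain (hC : C.Valid fa) (h0 : g 0 = C.pt v)
    (h1 : g 1 = C.pt (C.nb v s)) (ha : C.arc v (C.nb v s) = g '' Icc 0 1) (hu₁ : 0 < u₁)
    (hu : u₁ < u₂) (hu₂ : u₂ < 1) (hc : ContinuousOn g (Icc 0 1)) (hi : InjOn g (Icc 0 1))
    {r : Bool} (hr : C.nb (C.nb v s) r ≠ v) :
    ∃ i : Fin 3, (fa = true → i ≠ 2) ∧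
      ((C.pt (C.nb v (!s)) i < C.pt v i ∧ C.pt v i < g u₁ i ∧ g u₁ i < g u₂ i ∧
        g u₂ i < C.pt (C.nb v s) i ∧ C.pt (C.nb v s) i < C.pt (C.nb (C.nb v s) r) i) ∨
      (C.pt v i < C.pt (C.nb v (!s)) i ∧ g u₁ i < C.pt v i ∧ g u₂ i < g u₁ i ∧
        C.pt (C.nb v s) i < g u₂ i ∧ C.pt (C.nb (C.nb v s) r) i < C.pt (C.nb v s) i)) := by
  obtain ⟨i, t, hf, hm⟩ := hC.mono v
  have s1 : g '' Icc 0 1 ⊆ C.win v := (ha ▸ C.arc_subset_star v s :
    g '' Icc 0 1 ⊆ C.star v).trans (hC.star_subset_win v)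
  have fc : ContinuousOn (fun u => g u i) (Icc 0 1) :=
    (EuclideanSpace.proj (𝕜 := ℝ) i).continuous.comp_continuousOn hc
  have fi : InjOn (fun u => g u i) (Icc 0 1) := fun x hx y hy e =>
    hi hx hy (hm.inj (s1 (mem_image_of_mem g hx)) (s1 (mem_image_of_mem g hy)) e)
  have m0 : (0 : ℝ) ∈ Icc (0 : ℝ) 1 := ⟨le_rfl, zero_le_one⟩
  have m1 : u₁ ∈ Icc (0 : ℝ) 1 := ⟨hu₁.le, by linarith⟩
  have m2 : u₂ ∈ Icc (0 : ℝ) 1 := ⟨by linarith, hu₂.le⟩
  have m3 : (1 : ℝ) ∈ Icc (0 : ℝ) 1 := ⟨zero_le_one, le_rfl⟩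
  refine ⟨i, hf, ?_⟩
  by_cases e : t = s
  · subst e
    have an := fc.strictAntiOn_of_injOn_Icc zero_le_one (by
      change g 1 i ≤ g 0 i
      rw [h0, h1]
      exact hm.lo₁.le) fi
    refine Or.inr ⟨hm.hi₁, ?_, an m1 m2 hu, ?_, hm.lo₂ r hr⟩
    · rw [← h0]
      exact an m0 m1 hu₁
    · rw [← h1]
      exact an m2 m3 hu₂
  · obtain rfl : t = !s := by
      cases t <;> cases s <;> simp at e ⊢
    have g1 := hm.hi₁
    have g2 := hm.hi₂ r
    rw [Bool.not_not] at g1 g2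
    have mo := fc.strictMonoOn_of_injOn_Icc zero_le_one (by
      change g 0 i ≤ g 1 i
      rw [h0, h1]
      exact g1.le) fi
    refine Or.inl ⟨hm.lo₁, ?_, mo m1 m2 hu, ?_, g2 hr⟩
    · rw [← h0]
      exact mo m0 m1 hu₁
    · rw [← h1]
      exact mo m2 m3 hu₂

theorem GCInsB_cpt (hC : C.Valid fa) (hv : C.col v = true) (h0 : g 0 = C.pt v)
    (h1 : g 1 = C.pt (C.nb v s)) (ha : C.arc v (C.nb v s) = g '' Icc 0 1) (hu₁ : 0 < u₁)
    (hu : u₁ < u₂) (hu₂ : u₂ < 1) (hc : ContinuousOn g (Icc 0 1)) (hi : InjOn g (Icc 0 1))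
    (hC' : (C.ins v s g u₁ u₂).Valid fa) {LX LY : N ⊕ Bool → N ⊕ Bool → Prop}
    (hX : ∀ x y, (C.ins v s g u₁ u₂).col x = true → (C.ins v s g u₁ u₂).col y = true →
      C.pt (GCInsB_pr C v s x) 0 < C.pt (GCInsB_pr C v s y) 0 → LX x y)
    (hY : ∀ x y, (C.ins v s g u₁ u₂).col x = false → (C.ins v s g u₁ u₂).col y = false →
      C.pt (GCInsB_pr C v s x) 1 < C.pt (GCInsB_pr C v s y) 1 → LY x y)
    (hX1 : C.pt v 0 < g u₂ 0 → LX (.inl v) (.inr true))
    (hX2 : g u₂ 0 < C.pt v 0 → LX (.inr true) (.inl v))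
    (hY1 : C.pt (C.nb v (!s)) 1 < C.pt (C.nb v s) 1 → LY (.inr false) (.inl (C.nb v s)))
    (hY2 : C.pt (C.nb v s) 1 < C.pt (C.nb v (!s)) 1 → LY (.inl (C.nb v s)) (.inr false)) :
    ((C.ins v s g u₁ u₂).grid fun _ _ => ()).Cpt fa
      (fun a b => LX a b ∧ (C.ins v s g u₁ u₂).pt a 0 < (C.ins v s g u₁ u₂).pt b 0)
      (fun a b => LY a b ∧ (C.ins v s g u₁ u₂).pt a 1 < (C.ins v s g u₁ u₂).pt b 1)
      (fun a b => (C.ins v s g u₁ u₂).pt a 2 < (C.ins v s g u₁ u₂).pt b 2) fun _ _ => True := by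
  have hs := GCInsB_star hC ha hu₁ hu hu₂
  have hn := GCInsB_prnb (v := v) (s := s) (g := g) (u₁ := u₁) (u₂ := u₂) hC
  have hcol := GCInsB_col (s := s) (g := g) (u₁ := u₁) (u₂ := u₂) hC hv
  obtain ⟨r, hr⟩ := hC.adj_symm v s
  have hr' : C.nb (C.nb v s) (!r) ≠ v := fun e =>
    Bool.not_ne_self r (hC.nb_inj (e.trans hr.symm))
  have hev := hC.nb_ne_self v s
  have he0 : C.nb v (!s) ≠ C.nb v s := fun e => Bool.not_ne_self s (hC.nb_inj e)
  have ce : C.col (C.nb v s) = false := by rw [hC.col_nb, hv]; rfl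
  have ce0 : C.col (C.nb v (!s)) = false := by rw [hC.col_nb, hv]; rfl
  have cv1 : C.col (C.nb (C.nb v s) (!r)) = true := by rw [hC.col_nb, ce]; rfl
  have nb0 := GCInsB_nb (C := C) (v := v) (s := s) (g := g) (u₁ := u₁) (u₂ := u₂)
  have n1 : ((C.ins v s g u₁ u₂).grid fun _ _ => ()).nb (.inl v) s = .inr false :=
    (nb0 _ _).trans (if_pos ⟨rfl, rfl⟩)
  have n2 : ((C.ins v s g u₁ u₂).grid fun _ _ => ()).nb (.inl v) (!s) = .inl (C.nb v (!s)) := by
    refine (nb0 _ _).trans ?_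
    rw [if_neg fun h => Bool.not_ne_self s h.2, if_neg fun h => hev h.1.symm]
  have n3 : ((C.ins v s g u₁ u₂).grid fun _ _ => ()).nb (.inl (C.nb v s)) r = .inr true := by
    refine (nb0 _ _).trans ?_
    rw [if_neg fun h => hev h.1, if_pos ⟨rfl, hr⟩]
  have n4 : ((C.ins v s g u₁ u₂).grid fun _ _ => ()).nb (.inl (C.nb v s)) (!r) =
      .inl (C.nb (C.nb v s) (!r)) := by
    refine (nb0 _ _).trans ?_
    rw [if_neg fun h => hev h.1, if_neg fun h => hr' h.2]
  have i3 : ∀ i : Fin 3, i = 0 ∨ i = 1 ∨ i = 2 := by decide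
  have hf2 : ∀ {i : Fin 3}, (fa = true → i ≠ 2) → i = 2 → fa = false := fun h e => by
    cases fa
    · rfl
    · exact absurd e (h rfl)
  have nQ : ∀ a t, (C.ins v s g u₁ u₂).nb a t = .inr false → GCInsB_pr C v s a = v := by
    intro a t e
    obtain ⟨t', h⟩ := hC'.adj_symm a t
    rw [e] at h
    rw [← h]
    cases t' <;> rfl
  obtain ⟨i, hf, ch⟩ := GCInsB_chain hC h0 h1 ha hu₁ hu hu₂ hc hi hr'
  generalize hG : ((C.ins v s g u₁ u₂).grid fun _ _ => ()) = G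
  generalize hlx : (fun a b => LX a b ∧
    (C.ins v s g u₁ u₂).pt a 0 < (C.ins v s g u₁ u₂).pt b 0) = lx
  generalize hly : (fun a b => LY a b ∧
    (C.ins v s g u₁ u₂).pt a 1 < (C.ins v s g u₁ u₂).pt b 1) = ly
  generalize hlz : (fun a b => (C.ins v s g u₁ u₂).pt a 2 < (C.ins v s g u₁ u₂).pt b 2) = lz
  have tc : lx (.inl v) (.inr true) ∨ lx (.inr true) (.inl v) ∨
      G.Leg fa ly lz (.inl v) (.inr true) ∨ G.Leg fa ly lz (.inr true) (.inl v) := by
    subst hG hlx hly hlz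
    rcases i3 i with rfl | rfl | rfl <;> rcases ch with ⟨c1, c2, c3, c4, c5⟩ | ⟨c1, c2, c3, c4, c5⟩
    · exact Or.inl ⟨hX1 (c2.trans c3), c2.trans c3⟩
    · exact Or.inr (Or.inl ⟨hX2 (c3.trans c2), c3.trans c2⟩)
    · refine Or.inr (Or.inr (Or.inl (Or.inr (Or.inr (Or.inl ⟨s, false, n1, ?_, ?_⟩)))))
      · rw [n1, n2]
        exact ⟨hY _ _ ce0 rfl (c1.trans (c2.trans (c3.trans c4))), c1.trans c2⟩
      · exact ⟨hY1 (c1.trans (c2.trans (c3.trans c4))), c3.trans c4⟩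
    · refine Or.inr (Or.inr (Or.inr (Or.inr (Or.inr (Or.inl ⟨false, s, n1.symm, ?_, ?_⟩)))))
      · exact ⟨hY2 (c4.trans (c3.trans (c2.trans c1))), c4.trans c3⟩
      · rw [n1, n2]
        exact ⟨hY _ _ rfl ce0 (c4.trans (c3.trans (c2.trans c1))), c2.trans c1⟩
    · refine Or.inr (Or.inr (Or.inl (Or.inr (Or.inr (Or.inr
        ⟨hf2 hf rfl, s, false, n1, ?_, ?_, c3, c3.trans c4⟩)))))
      · rw [n1]
        exact c2
      · rw [n1, n2]
        exact c1.trans c2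
    · refine Or.inr (Or.inr (Or.inr (Or.inr (Or.inr (Or.inr
        ⟨hf2 hf rfl, false, s, n1.symm, c3, c4.trans c3, ?_, ?_⟩)))))
      · rw [n1]
        exact c2
      · rw [n1, n2]
        exact c2.trans c1
  have tr : ly (.inr false) (.inl (C.nb v s)) ∨ ly (.inl (C.nb v s)) (.inr false) ∨
      G.Leg fa lx lz (.inr false) (.inl (C.nb v s)) ∨
      G.Leg fa lx lz (.inl (C.nb v s)) (.inr false) := by
    subst hG hlx hly hlz
    rcases i3 i with rfl | rfl | rfl <;> rcases ch with ⟨c1, c2, c3, c4, c5⟩ | ⟨c1, c2, c3, c4, c5⟩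
    · refine Or.inr (Or.inr (Or.inl (Or.inr (Or.inr (Or.inl ⟨true, r, n3.symm, ?_, ?_⟩)))))
      · exact ⟨hX1 (c2.trans c3), c2.trans c3⟩
      · rw [n3, n4]
        exact ⟨hX _ _ rfl cv1 (c2.trans (c3.trans (c4.trans c5))), c4.trans c5⟩
    · refine Or.inr (Or.inr (Or.inr (Or.inr (Or.inr (Or.inl ⟨r, true, n3, ?_, ?_⟩)))))
      · rw [n3, n4]
        exact ⟨hX _ _ cv1 rfl (c5.trans (c4.trans (c3.trans c2))), c5.trans c4⟩
      · exact ⟨hX2 (c3.trans c2), c3.trans c2⟩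
    · exact Or.inl ⟨hY1 (c1.trans (c2.trans (c3.trans c4))), c3.trans c4⟩
    · exact Or.inr (Or.inl ⟨hY2 (c4.trans (c3.trans (c2.trans c1))), c4.trans c3⟩)
    · refine Or.inr (Or.inr (Or.inl (Or.inr (Or.inr (Or.inr
        ⟨hf2 hf rfl, true, r, n3.symm, c3, c2.trans c3, ?_, ?_⟩)))))
      · rw [n3]
        exact c4
      · rw [n3, n4]
        exact c4.trans c5
    · refine Or.inr (Or.inr (Or.inr (Or.inr (Or.inr (Or.inr
        ⟨hf2 hf rfl, r, true, n3, ?_, ?_, c3, c3.trans c2⟩)))))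
      · rw [n3]
        exact c4
      · rw [n3, n4]
        exact c5.trans c4
  have dc : ∀ (a b : N ⊕ Bool) (i : Fin 3), (C.ins v s g u₁ u₂).col a = true →
      (C.ins v s g u₁ u₂).col b = true → GCInsB_pr C v s a ≠ GCInsB_pr C v s b →
      (∀ p ∈ C.star (GCInsB_pr C v s a), ∀ q ∈ C.star (GCInsB_pr C v s b), p i < q i ∨ p = q) →
      (i = 2 → fa = false ∨ C.Far (GCInsB_pr C v s a) (GCInsB_pr C v s b)) →
      lx a b ∨ G.Leg fa ly lz a b := by
    subst hG hlx hly hlz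
    intro a b i ca cb hab hw hz
    refine GCInsB_dir hC hC' hs hn (ca.trans cb.symm) hab (i3 i) hw hz (hX a b ca cb)
      (fun t t' => hY _ _ (by rw [hC'.col_nb, ca]; rfl) (by rw [hC'.col_nb, cb]; rfl)) ?_
    rintro rfl t t' e hlt
    have cx : (C.ins v s g u₁ u₂).col ((C.ins v s g u₁ u₂).nb a t) = false := by
      rw [hC'.col_nb, ca]; rfl
    rcases GCInsB_twin hC (fun e' => by rw [e'] at hlt; exact lt_irrefl _ hlt) e with
      ⟨e1, e2⟩ | ⟨e1, e2⟩ | ⟨e1, e2⟩ | ⟨e1, e2⟩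
    · rw [e1] at cx
      exact absurd (hv.symm.trans cx) (by decide)
    · rw [e1] at cx
      exact absurd cx (by decide : ¬true = false)
    · obtain ⟨q, hq⟩ := hn b t'
      rw [e2] at hq
      rw [e1, e2]
      refine hY1 ((hw _ ?_ _ ?_).resolve_right fun e' => he0 (hC.pt_inj' e'))
      · rw [nQ a t e1]
        exact hC.nb_mem_star v _
      · rw [show C.nb v s = _ from hq]
        exact hC.nb_mem_star _ q
    · obtain ⟨q, hq⟩ := hn a t
      rw [e1] at hq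
      rw [e1, e2]
      refine hY2 ((hw _ ?_ _ ?_).resolve_right fun e' => he0 (hC.pt_inj' e').symm)
      · rw [show C.nb v s = _ from hq]
        exact hC.nb_mem_star _ q
      · rw [nQ b t' e2]
        exact hC.nb_mem_star v _
  have dr : ∀ (a b : N ⊕ Bool) (i : Fin 3), (C.ins v s g u₁ u₂).col a = false →
      (C.ins v s g u₁ u₂).col b = false → GCInsB_pr C v s a ≠ GCInsB_pr C v s b →
      (∀ p ∈ C.star (GCInsB_pr C v s a), ∀ q ∈ C.star (GCInsB_pr C v s b), p i < q i ∨ p = q) →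
      (i = 2 → fa = false ∨ C.Far (GCInsB_pr C v s a) (GCInsB_pr C v s b)) →
      ly a b ∨ G.Leg fa lx lz a b := by
    subst hG hlx hly hlz
    intro a b i ca cb hab hw hz
    refine GCInsB_dir hC hC' hs hn (ca.trans cb.symm) hab (or_left_comm.1 (i3 i)) hw hz
      (hY a b ca cb)
      (fun t t' => hX _ _ (by rw [hC'.col_nb, ca]; rfl) (by rw [hC'.col_nb, cb]; rfl)) ?_
    rintro rfl t t' e hlt
    have cx : (C.ins v s g u₁ u₂).col ((C.ins v s g u₁ u₂).nb a t) = true := by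
      rw [hC'.col_nb, ca]; rfl
    rcases GCInsB_twin hC (fun e' => by rw [e'] at hlt; exact lt_irrefl _ hlt) e with
      ⟨e1, e2⟩ | ⟨e1, e2⟩ | ⟨e1, e2⟩ | ⟨e1, e2⟩
    · rw [e1, e2] at hlt ⊢
      exact hX1 hlt
    · rw [e1, e2] at hlt ⊢
      exact hX2 hlt
    · rw [e1] at cx
      exact absurd cx (by decide : ¬false = true)
    · rw [e1] at cx
      exact absurd (ce.symm.trans cx) (by decide)
  have sw : ∀ {p q r t : Prop}, p ∨ q ∨ r ∨ t → q ∨ p ∨ t ∨ r := fun h =>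
    or_left_comm.1 (h.imp_right (Or.imp_right Or.symm))
  have up : ∀ {p q r t : Prop}, p ∨ r → p ∨ q ∨ r ∨ t := fun h =>
    h.imp_right fun h' => Or.inr (Or.inl h')
  subst hG
  refine ⟨fun a b ca cb hab => ?_, fun a b ca cb hab => ?_, fun _ _ _ _ _ => Or.inl trivial⟩
  · by_cases e : GCInsB_pr C v s a = GCInsB_pr C v s b
    · rcases GCInsB_twin hC hab e with ⟨rfl, rfl⟩ | ⟨rfl, rfl⟩ | ⟨rfl, rfl⟩ | ⟨rfl, rfl⟩
      · exact tc
      · exact sw tc
      · exact absurd ca (by decide : ¬false = true)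
      · exact absurd cb (by decide : ¬false = true)
    · obtain ⟨k, hw | hw, hz⟩ := GCInsB_ws hC e
        (by rw [← hcol, ← hcol]; exact ca.trans cb.symm)
      · exact up (dc a b k ca cb e hw hz)
      · exact sw (up
          (dc b a k cb ca (Ne.symm e) hw fun h => (hz h).imp_right (Conf.Far.symm hC)))
  · by_cases e : GCInsB_pr C v s a = GCInsB_pr C v s b
    · rcases GCInsB_twin hC hab e with ⟨rfl, rfl⟩ | ⟨rfl, rfl⟩ | ⟨rfl, rfl⟩ | ⟨rfl, rfl⟩
      · exact absurd cb (by decide : ¬true = false)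
      · exact absurd ca (by decide : ¬true = false)
      · exact tr
      · exact sw tr
    · obtain ⟨k, hw | hw, hz⟩ := GCInsB_ws hC e
        (by rw [← hcol, ← hcol]; exact ca.trans cb.symm)
      · exact up (dr a b k ca cb e hw hz)
      · exact sw (up
          (dr b a k cb ca (Ne.symm e) hw fun h => (hz h).imp_right (Conf.Far.symm hC)))

theorem ins_good (hC : C.Valid fa) (hv : C.col v = true) (h0 : g 0 = C.pt v)
    (h1 : g 1 = C.pt (C.nb v s)) (ha : C.arc v (C.nb v s) = g '' Icc 0 1) (hu₁ : 0 < u₁)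
    (hu : u₁ < u₂) (hu₂ : u₂ < 1) (hc : ContinuousOn g (Icc 0 1)) (hi : InjOn g (Icc 0 1))
    (hC' : (C.ins v s g u₁ u₂).Valid fa) {R : Rz N} (hR : C.Canon R) {dl : N → N → α}
    (hG : (C.grid dl).OK) : ∃ R', (C.ins v s g u₁ u₂).Good fa R' ∧
      ((C.grid dl).ins v s).word R' = (C.grid dl).word R := by
  have ce : C.col (C.nb v s) = false := by rw [hC.col_nb, hv]; rfl
  have ce0 : C.col (C.nb v (!s)) = false := by rw [hC.col_nb, hv]; rfl
  have hcol := GCInsB_col (s := s) (g := g) (u₁ := u₁) (u₂ := u₂) hC hv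
  obtain ⟨X₁, X₂, hX⟩ := List.append_of_mem ((hR.ok.memX v).2 hv)
  obtain ⟨Y₁, Y₂, hY⟩ := List.append_of_mem ((hR.ok.memY (C.nb v s)).2 ce)
  have nX : (X₁ ++ v :: X₂).Nodup := hX ▸ hR.ok.nodupX
  have nY : (Y₁ ++ C.nb v s :: Y₂).Nodup := hY ▸ hR.ok.nodupY
  let R' : Rz (N ⊕ Bool) :=
    ⟨X₁.map .inl ++ (if g u₂ 0 < C.pt v 0 then [.inr true, .inl v] else [.inl v, .inr true]) ++
        X₂.map .inl,
      Y₁.map .inl ++ (if R.ltY (C.nb v (!s)) (C.nb v s) then [.inr false, .inl (C.nb v s)]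
        else [.inl (C.nb v s), .inr false]) ++ Y₂.map .inl,
      fun x => (C.ins v s g u₁ u₂).pt x 2⟩
  obtain ⟨x1, x2, x4, x5, x6⟩ := GCInsB_list (φ := Sum.inl) nX (c := .inr true)
    (g u₂ 0 < C.pt v 0) (pr := GCInsB_pr C v s) (fun _ => Sum.inr_ne_inl) (fun _ => rfl) rfl
    (l := R'.X) rfl
  obtain ⟨y1, y2, y4, y5, y6⟩ := GCInsB_list (φ := Sum.inl) nY (c := .inr false)
    (R.ltY (C.nb v (!s)) (C.nb v s)) (pr := GCInsB_pr C v s) (fun _ => Sum.inr_ne_inl)
    (fun _ => rfl) rfl (l := R'.Y) rfl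
  rw [← hX] at x2 x6
  rw [← hY] at y2 y6
  have hcs : ∀ (x : N ⊕ Bool) (c : Bool), (C.ins v s g u₁ u₂).col x = c →
      x = .inr c ∨ ∃ a, x = .inl a := by
    rintro (a | d) c h
    · exact Or.inr ⟨a, rfl⟩
    · exact Or.inl (congrArg Sum.inr h)
  refine ⟨R', ⟨⟨x1, y1, ?_, ?_⟩, fun _ => rfl, ?_⟩, ?_⟩
  · rintro (a | d)
    · rw [x2, List.mem_map_of_injective Sum.inl_injective, hR.ok.memX]
      exact or_iff_right Sum.inl_ne_inr
    · rw [x2]
      change _ ↔ d = true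
      simp
  · rintro (a | d)
    · rw [y2, List.mem_map_of_injective Sum.inl_injective, hR.ok.memY]
      exact or_iff_right Sum.inl_ne_inr
    · rw [y2]
      change _ ↔ d = false
      simp
  · exact GCInsB_cpt hC hv h0 h1 ha hu₁ hu hu₂ hc hi hC' (LX := R'.ltX) (LY := R'.ltY)
      (fun x y cx cy h => x6 x y (hcs x _ cx) (hcs y _ cy) (hR.ltX (hcol x ▸ cx) (hcol y ▸ cy) h))
      (fun x y cx cy h => y6 x y (hcs x _ cx) (hcs y _ cy) (hR.ltY (hcol x ▸ cx) (hcol y ▸ cy) h))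
      (fun h => x5 (not_lt.2 h.le)) x4 (fun h => y4 (hR.ltY ce0 ce h))
      fun h => y5 (lt_asymm (hR.ltY ce ce0 h))
  · refine Grid.word_ins hG hR.ok hv s hX hY R' ?_ rfl fun a => (hR.z_eq a).symm
    by_cases hp : g u₂ 0 < C.pt v 0
    · right
      simp [R', hp]
    · left
      simp [R', hp]

end Pool.Agent.P.MP_ac4909_gt.B
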