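import Pool.Agent.P.MP_ac4909_gt.B.GC_Struct
import Pool.Agent.P.MP_ac4909_gt.B.GC_InsB

/-! Layer G, core: insertion of two marked points. -/

namespace Pool.Agent.P.MP_ac4909_gt.B

open scoped ContDiff
open Set Filter Topology

variable {κ : Type} {fa : Bool} {γ : κ → ℝ → E3} {n : κ → ℕ} {τ : κ → ℤ → ℝ}
  {w : List (Sl (Arc κ))}

/-- `A` is a piece of the link from `P` to `Q`, with component and direction `d` -/
def GCInsA_LA (γ : κ → ℝ → E3) (A : Set E3) (P Q : E3) (d : Arc κ) : Prop :=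
  ∃ c t t', t < t' ∧ t' < t + 1 ∧ A = γ c '' Icc t t' ∧
    ((P = γ c t ∧ Q = γ c t' ∧ d = ⟨c, true⟩) ∨ (P = γ c t' ∧ Q = γ c t ∧ d = ⟨c, false⟩))

theorem GCInsA_LA.symm {A : Set E3} {P Q : E3} {d : Arc κ} (h : GCInsA_LA γ A P Q d) :
    GCInsA_LA γ A Q P (Rev.rev d) := by
  obtain ⟨c, t, t', h1, h2, h3, h4⟩ := h
  refine ⟨c, t, t', h1, h2, h3, ?_⟩
  rcases h4 with ⟨e1, e2, rfl⟩ | ⟨e1, e2, rfl⟩
  · exact Or.inr ⟨e2, e1, rfl⟩
  · exact Or.inl ⟨e2, e1, rfl⟩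

/-- `g` parametrises the arc of `C` from `a` to `b`, a piece of component `c` with label `d` -/
structure GCInsA_P {N : Type} (γ : κ → ℝ → E3) (C : Conf N) (a b : N) (c : κ) (d : Arc κ)
    (g : ℝ → E3) : Prop where
  h0 : g 0 = C.pt a
  h1 : g 1 = C.pt b
  arc : C.arc a b = g '' Icc 0 1
  arc' : C.arc b a = g '' Icc 0 1
  cont : Continuous g
  inj : InjOn g (Icc 0 1)
  la : ∀ p q, 0 ≤ p → p < q → q ≤ 1 → GCInsA_LA γ (g '' Icc p q) (g p) (g q) d
  rng : ∀ u, g u ∈ range (γ c)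
  uniq : ∀ x t, ∀ u ∈ Ioo (0 : ℝ) 1, g u ∈ C.arc x (C.nb x t) →
    (x = a ∧ C.nb x t = b) ∨ (x = b ∧ C.nb x t = a)

theorem GCInsA_flip (g : ℝ → E3) (p q : ℝ) :
    (fun u => g (1 - u)) '' Icc p q = g '' Icc (1 - q) (1 - p) := by
  rw [← image_const_sub_Icc, image_image]

theorem GCInsA_P.symm {N : Type} {C : Conf N} {a b : N} {c : κ} {d : Arc κ} {g : ℝ → E3}
    (h : GCInsA_P γ C a b c d g) : GCInsA_P γ C b a c (Rev.rev d) fun u => g (1 - u) where
  h0 := by simpa using h.h1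
  h1 := by simpa using h.h0
  arc := by rw [GCInsA_flip, h.arc']; simp
  arc' := by rw [GCInsA_flip, h.arc]; simp
  cont := h.cont.comp (continuous_const.sub continuous_id)
  inj := fun x hx y hy e => by
    have := h.inj (x₁ := 1 - x) (x₂ := 1 - y) ⟨by linarith [hx.2], by linarith [hx.1]⟩
      ⟨by linarith [hy.2], by linarith [hy.1]⟩ e
    linarith
  la := fun p q h1 h2 h3 => by
    rw [GCInsA_flip]
    exact (h.la (1 - q) (1 - p) (by linarith) (by linarith) (by linarith)).symm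
  rng := fun u => h.rng _
  uniq := fun x t u hu e =>
    (h.uniq x t (1 - u) ⟨by linarith [hu.2], by linarith [hu.1]⟩ e).symm

theorem GCInsA_aff (f : ℝ → E3) {A B : ℝ} (h : A < B) (p q : ℝ) :
    (fun u => f ((B - A) * u + A)) '' Icc p q = f '' Icc ((B - A) * p + A) ((B - A) * q + A) := by
  rw [← image_affine_Icc' (sub_pos.2 h), image_image]

theorem GCInsA_index {N : Type} {C : Conf N} {ix : κ → ℤ → N} (hγ : IsU γ) (h : Mdl γ n τ C ix)
    {c c' : κ} {k l : ℤ} {t : ℝ} (h1 : τ c k < t) (h2 : t < τ c (k + 1))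
    (hm : γ c t ∈ seg γ τ c' l (l + 1)) : ix c' l = ix c k ∧ ix c' (l + 1) = ix c (k + 1) := by
  obtain ⟨t', ht', e⟩ := hm
  obtain ⟨rfl, j, rfl⟩ := hγ.inj _ _ _ _ e
  have e1 := h.pc.per_mul c' l j
  have e2 := h.pc.per_mul c' (l + 1) j
  have h3 : k < l + 1 + 2 * n c' * j := (h.pc.mono c').lt_iff_lt.1 (by linarith [ht'.2])
  have h4 : l + 2 * n c' * j < k + 1 := (h.pc.mono c').lt_iff_lt.1 (by linarith [ht'.1])
  have h5 : k = l + 2 * n c' * j := by omega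
  constructor
  · rw [h5, h.ix_per]
  · rw [show k + 1 = l + 1 + 2 * n c' * j by omega, h.ix_per]

theorem GCInsA_fwd {N : Type} {C : Conf N} {ix : κ → ℤ → N} (hγ : IsU γ) (h : Mdl γ n τ C ix)
    (c : κ) (k : ℤ) : GCInsA_P γ C (ix c k) (ix c (k + 1)) c ⟨c, true⟩
      fun u => γ c ((τ c (k + 1) - τ c k) * u + τ c k) := by
  have hn := h.pc.pos c
  have h1 : τ c k < τ c (k + 1) := h.pc.mono c (by omega)
  have h2 : τ c (k + 1) < τ c k + 1 := h.pc.lt_add_one c (by omega)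
  have h3 := sub_pos.2 h1
  have hs : seg γ τ c k (k + 1) =
      (fun u => γ c ((τ c (k + 1) - τ c k) * u + τ c k)) '' Icc 0 1 := by
    rw [GCInsA_aff _ h1, seg]
    simp
  refine ⟨by simp [h.pt], by simp [h.pt], (h.arc c k).trans hs, (h.arc' c k).trans hs,
    (hγ.smooth c).continuous.comp (by fun_prop), fun x hx y hy e => ?_, fun p q a1 a2 a3 => ?_,
    fun u => ⟨_, rfl⟩, fun x t u hu e => ?_⟩
  · have := hγ.injOn c h2 (x₁ := (τ c (k + 1) - τ c k) * x + τ c k)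
      (x₂ := (τ c (k + 1) - τ c k) * y + τ c k)
      ⟨by nlinarith [hx.1], by nlinarith [hx.2]⟩ ⟨by nlinarith [hy.1], by nlinarith [hy.2]⟩ e
    exact mul_left_cancel₀ h3.ne' (add_right_cancel this)
  · exact ⟨c, _, _, by nlinarith, by nlinarith, GCInsA_aff _ h1 p q, Or.inl ⟨rfl, rfl, rfl⟩⟩
  · obtain ⟨c', l, rfl⟩ := h.surj x
    have a1 : τ c k < (τ c (k + 1) - τ c k) * u + τ c k := by nlinarith [hu.1]
    have a2 : (τ c (k + 1) - τ c k) * u + τ c k < τ c (k + 1) := by nlinarith [hu.2]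
    rcases h.nb_cases c' l t with e' | e'
    · rw [e', h.arc] at e
      obtain ⟨b1, b2⟩ := GCInsA_index hγ h a1 a2 e
      exact Or.inl ⟨b1, e'.trans b2⟩
    · rw [e', h.arc_pred] at e
      obtain ⟨b1, b2⟩ := GCInsA_index hγ h a1 a2 (l := l - 1) (by rwa [sub_add_cancel])
      rw [sub_add_cancel] at b2
      exact Or.inr ⟨b2, e'.trans b1⟩

theorem GCInsA_data {N : Type} {C : Conf N} {ix : κ → ℤ → N} {dl : N → N → Arc κ} (hγ : IsU γ)
    (h : Mdl γ n τ C ix) (hC : C.Valid fa) (hl : C.Lab γ dl) {c : κ} {t : ℝ}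
    (ht : t ∉ range (τ c)) : ∃ v s g, ∃ u ∈ Ioo (0 : ℝ) 1, C.col v = true ∧
      GCInsA_P γ C v (C.nb v s) c (dl v (C.nb v s)) g ∧ g u = γ c t := by
  obtain ⟨k, h1, h2⟩ := h.pc.exists_index c t
  have h1' : τ c k < t := lt_of_le_of_ne h1 fun e => ht ⟨k, e⟩
  have h3 : 0 < τ c (k + 1) - τ c k := by linarith
  have hd := (h.lab_iff hγ fun c => by have := h.three_le hC c; omega).1 hl c k
  have hP := GCInsA_fwd hγ h c k
  have hu : (t - τ c k) / (τ c (k + 1) - τ c k) ∈ Ioo (0 : ℝ) 1 :=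
    ⟨div_pos (by linarith) h3, (div_lt_one h3).2 (by linarith)⟩
  have he : (τ c (k + 1) - τ c k) * ((t - τ c k) / (τ c (k + 1) - τ c k)) + τ c k = t := by
    field_simp
    ring
  by_cases hk : Even k
  · obtain ⟨s, hs, -⟩ := h.nb c k
    refine ⟨ix c k, s, fun u => γ c ((τ c (k + 1) - τ c k) * u + τ c k), _, hu, (h.col c k).2 hk,
      ?_, congrArg (γ c) he⟩
    rw [hs, hd.1]
    exact hP
  · obtain ⟨s, -, hs⟩ := h.nb c (k + 1)
    rw [add_sub_cancel_right] at hs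
    refine ⟨ix c (k + 1), !s, fun u => γ c ((τ c (k + 1) - τ c k) * (1 - u) + τ c k),
      1 - (t - τ c k) / (τ c (k + 1) - τ c k),
      ⟨by linarith [hu.2], by linarith [hu.1]⟩, (h.col c _).2 (Int.even_add_one.2 hk), ?_, ?_⟩
    · rw [hs, hd.2]
      exact hP.symm
    · beta_reduce
      rw [sub_sub_cancel, he]

section

variable {N : Type} [DecidableEq N] {C : Conf N} {dl : N → N → Arc κ} {v : N} {s : Bool} {c : κ}
  {g : ℝ → E3} {u₁ u₂ : ℝ}

theorem GCInsA_nb (a : N) (t : Bool) : (C.ins v s g u₁ u₂).nb (.inl a) t =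
    if a = v ∧ t = s then .inr false
      else if a = C.nb v s ∧ C.nb a t = v then .inr true else .inl (C.nb a t) := rfl

theorem GCInsA_lab (hC : C.Valid fa) (hG : (C.grid dl).OK) (hl : C.Lab γ dl)
    (hP : GCInsA_P γ C v (C.nb v s) c (dl v (C.nb v s)) g) (hu₁ : 0 < u₁) (hu : u₁ < u₂)
    (hu₂ : u₂ < 1) : (C.ins v s g u₁ u₂).Lab γ ((C.grid dl).ins v s).dl := by
  have hw : C.nb v s ≠ v := hC.nb_ne_self v s
  have hr : dl (C.nb v s) v = Rev.rev (dl v (C.nb v s)) := hG.dl_rev v s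
  have l1 := hP.la 0 u₁ le_rfl hu₁ (by linarith)
  have l2 := hP.la u₁ u₂ hu₁.le hu hu₂.le
  have l3 := hP.la u₂ 1 (by linarith) hu₂ le_rfl
  rw [hP.h0] at l1
  rw [hP.h1] at l3
  intro x t
  change GCInsA_LA γ _ _ _ _
  rcases x with a | _ | _
  · rw [GCInsA_nb]
    split_ifs with h1 h2
    · obtain ⟨rfl, rfl⟩ := h1
      have e : ((C.grid dl).ins a t).dl (.inl a) (.inr false) = dl a (C.nb a t) := if_pos rfl
      rw [e]
      exact l1
    · obtain ⟨rfl, -⟩ := h2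
      have e : ((C.grid dl).ins v s).dl (.inl (C.nb v s)) (.inr true) = dl (C.nb v s) v :=
        if_neg hw
      rw [e, hr]
      exact l3.symm
    · exact hl a t
  · cases t
    · have e : ((C.grid dl).ins v s).dl (.inr false) (.inl v) = dl (C.nb v s) v := if_pos rfl
      change GCInsA_LA γ _ _ _ (((C.grid dl).ins v s).dl (.inr false) (.inl v))
      rw [e, hr]
      exact l1.symm
    · exact l2
  · cases t
    · change GCInsA_LA γ _ _ _ (dl (C.nb v s) v)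
      rw [hr]
      exact l2.symm
    · have e : ((C.grid dl).ins v s).dl (.inr true) (.inl (C.nb v s)) = dl v (C.nb v s) :=
        if_neg hw
      change GCInsA_LA γ _ _ _ (((C.grid dl).ins v s).dl (.inr true) (.inl (C.nb v s)))
      rw [e]
      exact l3

theorem GCInsA_key (hC : C.Valid fa) {d : Arc κ} (hP : GCInsA_P γ C v (C.nb v s) c d g)
    (hu₁ : 0 < u₁) (hu : u₁ < u₂) (hu₂ : u₂ < 1) {y : N ⊕ Bool} {u : ℝ} (h : u ∈ Icc (0 : ℝ) 1)
    (e : g u = (C.ins v s g u₁ u₂).pt y) :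
    (y = .inl v ∧ u = 0) ∨ (y = .inr false ∧ u = u₁) ∨ (y = .inr true ∧ u = u₂) ∨
      (y = .inl (C.nb v s) ∧ u = 1) := by
  rcases y with a | _ | _
  · have e' : g u = C.pt a := e
    rcases hC.mem_arc (a := v) (b := a) (s := s) (by rw [hP.arc]; exact ⟨u, h, e'⟩) with rfl | rfl
    · exact Or.inl ⟨rfl, hP.inj h (left_mem_Icc.2 zero_le_one) (e'.trans hP.h0.symm)⟩
    · exact Or.inr (Or.inr (Or.inr
        ⟨rfl, hP.inj h (right_mem_Icc.2 zero_le_one) (e'.trans hP.h1.symm)⟩))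
  · exact Or.inr (Or.inl ⟨rfl, hP.inj h ⟨hu₁.le, by linarith⟩ e⟩)
  · exact Or.inr (Or.inr (Or.inl ⟨rfl, hP.inj h ⟨by linarith, hu₂.le⟩ e⟩))

theorem GCInsA_new (hu₁ : 0 < u₁) (hu : u₁ < u₂) (hu₂ : u₂ < 1) (b : Bool) :
    ∃ u ∈ Ioo (0 : ℝ) 1, (u = u₁ ∧ b = false ∨ u = u₂ ∧ b = true) ∧
      g u = (C.ins v s g u₁ u₂).pt (.inr b) := by
  cases b
  · exact ⟨u₁, ⟨hu₁, by linarith⟩, Or.inl ⟨rfl, rfl⟩, rfl⟩
  · exact ⟨u₂, ⟨by linarith, hu₂⟩, Or.inr ⟨rfl, rfl⟩, rfl⟩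

theorem GCInsA_inj (hC : C.Valid fa) {d : Arc κ} (hP : GCInsA_P γ C v (C.nb v s) c d g)
    (hu₁ : 0 < u₁) (hu : u₁ < u₂) (hu₂ : u₂ < 1) :
    Function.Injective (C.ins v s g u₁ u₂).pt := by
  have key : ∀ (b : Bool) (y : N ⊕ Bool),
      (C.ins v s g u₁ u₂).pt (.inr b) = (C.ins v s g u₁ u₂).pt y → y = .inr b := by
    intro b y e
    obtain ⟨u, h1, h2, h3⟩ := GCInsA_new (C := C) (v := v) (s := s) (g := g) hu₁ hu hu₂ b
    rcases GCInsA_key hC hP hu₁ hu hu₂ (Ioo_subset_Icc_self h1) (h3.trans e) with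
      ⟨rfl, a⟩ | ⟨rfl, a⟩ | ⟨rfl, a⟩ | ⟨rfl, a⟩
    · exact absurd a h1.1.ne'
    · rcases h2 with ⟨-, rfl⟩ | ⟨a', -⟩
      · rfl
      · linarith
    · rcases h2 with ⟨a', -⟩ | ⟨-, rfl⟩
      · linarith
      · rfl
    · exact absurd a h1.2.ne
  rintro (a | a) (b | b) e
  · exact congrArg _ (hC.pt_inj' e)
  · exact key _ _ e.symm
  · exact (key _ _ e).symm
  · exact (key _ _ e).symm

theorem GCInsA_mem (hC : C.Valid fa) {d : Arc κ} (hP : GCInsA_P γ C v (C.nb v s) c d g)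
    (hu₁ : 0 < u₁) (hu : u₁ < u₂) (hu₂ : u₂ < 1) (x : N ⊕ Bool) (t : Bool) (y : N ⊕ Bool)
    (h : (C.ins v s g u₁ u₂).pt y ∈ (C.ins v s g u₁ u₂).arc x ((C.ins v s g u₁ u₂).nb x t)) :
    y = x ∨ y = (C.ins v s g u₁ u₂).nb x t := by
  have k1 : (C.ins v s g u₁ u₂).pt y ∈ g '' Icc 0 u₁ → y = .inl v ∨ y = .inr false := by
    rintro ⟨u, a, e⟩
    rcases GCInsA_key hC hP hu₁ hu hu₂ ⟨a.1, by linarith [a.2]⟩ e with
      ⟨rfl, b⟩ | ⟨rfl, b⟩ | ⟨rfl, b⟩ | ⟨rfl, b⟩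
    · exact Or.inl rfl
    · exact Or.inr rfl
    · linarith [a.2]
    · linarith [a.2]
  have k2 : (C.ins v s g u₁ u₂).pt y ∈ g '' Icc u₁ u₂ → y = .inr false ∨ y = .inr true := by
    rintro ⟨u, a, e⟩
    rcases GCInsA_key hC hP hu₁ hu hu₂ ⟨by linarith [a.1], by linarith [a.2]⟩ e with
      ⟨rfl, b⟩ | ⟨rfl, b⟩ | ⟨rfl, b⟩ | ⟨rfl, b⟩
    · linarith [a.1]
    · exact Or.inl rfl
    · exact Or.inr rfl
    · linarith [a.2]
  have k3 : (C.ins v s g u₁ u₂).pt y ∈ g '' Icc u₂ 1 → y = .inr true ∨ y = .inl (C.nb v s) := by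
    rintro ⟨u, a, e⟩
    rcases GCInsA_key hC hP hu₁ hu hu₂ ⟨by linarith [a.1], a.2⟩ e with
      ⟨rfl, b⟩ | ⟨rfl, b⟩ | ⟨rfl, b⟩ | ⟨rfl, b⟩
    · linarith [a.1]
    · linarith [a.1]
    · exact Or.inl rfl
    · exact Or.inr rfl
  rcases x with a | _ | _
  · rw [GCInsA_nb] at h ⊢
    split_ifs at h ⊢ with h1 h2
    · obtain ⟨rfl, rfl⟩ := h1
      exact k1 h
    · obtain ⟨rfl, -⟩ := h2
      exact (k3 h).symm
    · rcases y with b | b
      · exact (hC.mem_arc h).imp (congrArg _) (congrArg _)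
      · obtain ⟨u, a1, -, a3⟩ := GCInsA_new (C := C) (v := v) (s := s) (g := g) hu₁ hu hu₂ b
        rw [← a3] at h
        rcases hP.uniq a t u a1 h with ⟨rfl, e⟩ | e
        · exact (h1 ⟨rfl, hC.nb_inj e⟩).elim
        · exact (h2 e).elim
  · cases t
    · exact (k1 h).symm
    · exact k2 h
  · cases t
    · exact (k2 h).symm
    · exact k3 h

theorem GCInsA_ncard [Fintype N] [DecidableEq κ] (hγ : IsU γ) (hg : ∀ u, g u ∈ range (γ c))
    (c' : κ) : {a | (C.ins v s g u₁ u₂).pt a ∈ range (γ c')}.ncard =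
      {a | C.pt a ∈ range (γ c')}.ncard + if c' = c then 2 else 0 := by
  have hb : ∀ b, (C.ins v s g u₁ u₂).pt (.inr b) ∈ range (γ c) := by
    rintro (_ | _)
    · exact hg u₁
    · exact hg u₂
  split_ifs with h
  · subst h
    have e : {a | (C.ins v s g u₁ u₂).pt a ∈ range (γ c')} =
        Sum.inl '' {a | C.pt a ∈ range (γ c')} ∪ Sum.inr '' univ := by
      ext (a | b)
      · simp only [mem_ofPred_eq, mem_union, mem_image, Sum.inl.injEq, exists_eq_right,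
          reduceCtorEq, and_false, exists_false, or_false]
        rfl
      · simp only [mem_ofPred_eq, hb, mem_union, mem_image, Sum.inr.injEq, exists_eq_right,
          mem_univ, or_true]
    rw [e, ncard_union_eq disjoint_image_inl_image_inr, ncard_image_of_injective _ Sum.inl_injective,
      ncard_image_of_injective _ Sum.inr_injective, ncard_univ, Nat.card_eq_fintype_card,
      Fintype.card_bool]
  · have e : {a | (C.ins v s g u₁ u₂).pt a ∈ range (γ c')} =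
        Sum.inl '' {a | C.pt a ∈ range (γ c')} := by
      ext (a | b)
      · simp only [mem_ofPred_eq, mem_image, Sum.inl.injEq, exists_eq_right]
        rfl
      · simp only [mem_ofPred_eq, mem_image, reduceCtorEq, and_false, exists_false, iff_false]
        rintro ⟨t, ht⟩
        obtain ⟨t', ht'⟩ := hb b
        exact h (hγ.inj _ _ _ _ (ht.trans ht'.symm)).1
    rw [e, ncard_image_of_injective _ Sum.inl_injective, add_zero]

end

theorem MW.insert [DecidableEq κ] (hγ : IsU γ) (h : MW fa γ n τ w) {c : κ} {t : ℝ}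
    (ht : t ∉ range (τ c)) : ∃ τ' w', MW fa γ (Function.update n c (n c + 1)) τ' w' ∧
      Eqv fa [] [] w w' ∧ t ∈ range (τ' c) ∧ ∀ c', range (τ c') ⊆ range (τ' c') := by
  obtain ⟨N, _, _, C, dl, R, ix, hM, hC, hl, hR, rfl⟩ := h
  obtain ⟨v, s, g, u₁, ⟨hu₁, hu1⟩, hv, hP, hgt⟩ := GCInsA_data hγ hM hC hl ht
  have hu : u₁ < (u₁ + 1) / 2 := by linarith
  have hu₂ : (u₁ + 1) / 2 < 1 := by linarith
  generalize (u₁ + 1) / 2 = u₂ at hu hu₂
  have hG : (C.grid dl).OK := hl.ok' hγ hC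
  have hl' := GCInsA_lab hC hG hl hP hu₁ hu hu₂
  obtain ⟨n', τ', ix', hM'⟩ := exists_mdl_of_lab (C := C.ins v s g u₁ u₂) hγ (hG.ins hv s) hl'
    (GCInsA_inj hC hP hu₁ hu hu₂) (GCInsA_mem hC hP hu₁ hu hu₂)
    fun c' => ⟨.inl (ix c' 0), τ c' 0, hM.pt c' 0⟩
  have hr : ∀ c', range (τ c') ⊆ range (τ' c') := fun c' x hx => by
    obtain ⟨a, ha⟩ := (hM.mem_range hγ).1 hx
    exact (hM'.mem_range hγ).2 ⟨.inl a, ha⟩
  have hn : n' = Function.update n c (n c + 1) := by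
    funext c'
    have e := GCInsA_ncard (C := C) (v := v) (s := s) (u₁ := u₁) (u₂ := u₂) hγ hP.rng c'
    rw [hM'.ncard hγ, hM.ncard hγ] at e
    by_cases hc : c' = c
    · subst hc
      rw [if_pos rfl] at e
      rw [Function.update_self]
      omega
    · rw [if_neg hc] at e
      rw [Function.update_of_ne hc]
      omega
  subst hn
  have hC' := hM'.valid hγ ((hM.pv hγ hC).refine hM.pc hM'.pc hγ.per hr)
  obtain ⟨R₀, hR₀⟩ := exists_canon' C
  obtain ⟨R', hR', e⟩ := ins_good hC hv hP.h0 hP.h1 hP.arc hu₁ hu hu₂ hP.cont.continuousOn hP.inj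
    hC' hR₀ hG
  refine ⟨τ', _, ⟨N ⊕ Bool, inferInstance, inferInstance, _, _, R', ix', hM', hC', hl', hR', rfl⟩,
    ?_, (hM'.mem_range hγ).2 ⟨.inr false, hgt⟩, hr⟩
  rw [Conf.ins_grid, e]
  exact hR.eqv_canon hC hR₀ hG

end Pool.Agent.P.MP_ac4909_gt.B
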