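import Pool.Agent.P.MP_ac4909_gt.B.GC_Arc

/-! Layer G, core: periodic subdivisions of the line. -/

namespace Pool.Agent.P.MP_ac4909_gt.B

open scoped ContDiff
open Set Filter Topology

variable {κ : Type} {fa : Bool} {γ γ' : κ → ℝ → E3} {n n' : κ → ℕ} {τ τ' : κ → ℤ → ℝ} {η : ℝ}

theorem GCPC_up {f f' : ℤ → ℝ} (h' : StrictMono f') (hr : range f ⊆ range f') {a b : ℤ}
    (h : f' b < f a) : f' (b + 1) ≤ f a := by
  obtain ⟨m, hm⟩ := hr ⟨a, rfl⟩
  rw [← hm] at h ⊢
  exact h'.monotone (h'.lt_iff_lt.mp h)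

theorem GCPC_dn {f f' : ℤ → ℝ} (h' : StrictMono f') (hr : range f ⊆ range f') {a b : ℤ}
    (h : f a < f' b) : f a ≤ f' (b - 1) := by
  obtain ⟨m, hm⟩ := hr ⟨a, rfl⟩
  rw [← hm] at h ⊢
  have := h'.lt_iff_lt.mp h
  exact h'.monotone (by omega)

theorem GCPC_conv {u a b η : ℝ} (hu : u ∈ Icc (0 : ℝ) 1) (ha : a < η) (hb : b < η) :
    (1 - u) * a + u * b < η := by
  obtain ⟨h0, h1⟩ := hu
  rcases le_total a b with h | h <;> nlinarith

theorem GCPC_grid {ι : Type} [Finite ι] {g : ι → ℝ} (hg : ∀ i, 0 < g i) :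
    ∃ (N : ℕ) (H : ℝ), 2 ≤ N ∧ 0 < H ∧ 2 * N * H = 1 ∧ ∀ i, 6 * H < g i := by
  have h1 : ∀ᶠ N : ℕ in atTop, ∀ i, 1 / (N : ℝ) < g i / 3 := eventually_all.mpr fun i =>
    tendsto_one_div_atTop_nhds_zero_nat.eventually_lt_const (by linarith [hg i])
  obtain ⟨N, h2, h3⟩ := (h1.and (eventually_ge_atTop 2)).exists
  have h4 : (0 : ℝ) < N := by exact_mod_cast (by omega : 0 < N)
  refine ⟨N, 1 / N / 2, h3, by positivity, by field_simp, fun i => ?_⟩
  linarith [h2 i]

theorem GCPC_sep {g : ℝ → E3} {i : Fin 3} {W : Set ℝ}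
    (hm : StrictMonoOn (fun t => g t i) W ∨ StrictAntiOn (fun t => g t i) W) {a b a' b' : ℝ}
    (h : Icc a b ⊆ W) (h' : Icc a' b' ⊆ W) (hl : b < a') :
    Sep i (g '' Icc a b) (g '' Icc a' b') ∨ Sep i (g '' Icc a' b') (g '' Icc a b) := by
  refine hm.imp (fun hm => ?_) fun hm => ?_
  · rintro _ ⟨s, hs, rfl⟩ _ ⟨t, ht, rfl⟩
    exact hm (h hs) (h' ht) (hs.2.trans_lt (hl.trans_le ht.1))
  · rintro _ ⟨t, ht, rfl⟩ _ ⟨s, hs, rfl⟩
    exact hm (h hs) (h' ht) (hs.2.trans_lt (hl.trans_le ht.1))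

theorem PC.pos (h : PC n τ) (c : κ) : 0 < n c := by
  have h1 : τ c 0 < τ c (0 + 2 * n c) := by rw [h.per]; linarith
  have h2 := (h.mono c).lt_iff_lt.mp h1
  omega

theorem PC.per_mul (h : PC n τ) (c : κ) (k j : ℤ) : τ c (k + 2 * n c * j) = τ c k + j := by
  induction j using Int.induction_on with
  | zero => simp
  | succ j ih =>
    rw [show k + 2 * n c * ((j : ℤ) + 1) = k + 2 * n c * j + 2 * n c by ring, h.per, ih]
    push_cast
    ring
  | pred j ih =>
    have := h.per c (k + 2 * n c * (-(j : ℤ) - 1))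
    rw [show k + 2 * n c * (-(j : ℤ) - 1) + 2 * n c = k + 2 * n c * -j by ring, ih] at this
    push_cast at this ⊢
    linarith

theorem PC.exists_index (h : PC n τ) (c : κ) (t : ℝ) : ∃ k, τ c k ≤ t ∧ t < τ c (k + 1) := by
  obtain ⟨k, hk, hk'⟩ := Int.exists_greatest_of_bdd (P := fun k => τ c k ≤ t)
    ⟨0 + 2 * n c * ⌈t - τ c 0⌉, fun z hz => (h.mono c).le_iff_le.mp (by
      rw [h.per_mul]
      linarith [Int.le_ceil (t - τ c 0)])⟩
    ⟨0 + 2 * n c * ⌊t - τ c 0⌋, by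
      rw [h.per_mul]
      linarith [Int.floor_le (t - τ c 0)]⟩
  refine ⟨k, hk, not_le.mp fun h1 => ?_⟩
  have := hk' _ h1
  omega

theorem PC.lt_add_one (h : PC n τ) (c : κ) {k l : ℤ} (hl : l < k + 2 * n c) :
    τ c l < τ c k + 1 := by
  rw [← h.per]
  exact h.mono c hl

theorem PC.eq_add_int (h : PC n τ) {c : κ} {k l j : ℤ} (e : τ c l = τ c k + j) :
    l = k + 2 * n c * j := (h.mono c).injective (by rw [h.per_mul, e])

theorem PC.seg_union (h : PC n τ) (γ : κ → ℝ → E3) (c : κ) {k l m : ℤ} (h₁ : k ≤ l) (h₂ : l ≤ m) :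
    seg γ τ c k l ∪ seg γ τ c l m = seg γ τ c k m := by
  unfold seg
  rw [← image_union, Icc_union_Icc_eq_Icc ((h.mono c).monotone h₁) ((h.mono c).monotone h₂)]

theorem PC.seg_per (h : PC n τ) (hp : ∀ c t, γ c (t + 1) = γ c t) (c : κ) (k l j : ℤ) :
    seg γ τ c (k + 2 * n c * j) (l + 2 * n c * j) = seg γ τ c k l := by
  have hj : ∀ t, γ c (t + j) = γ c t := fun t => by
    have := (show Function.Periodic (γ c) 1 from hp c).int_mul j t
    rwa [mul_one] at this
  unfold seg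
  rw [h.per_mul, h.per_mul, ← image_add_const_Icc, image_image]
  simp only [hj]

theorem PC.st1_per (h : PC n τ) (hp : ∀ c t, γ c (t + 1) = γ c t) (c : κ) (k j : ℤ) :
    st1 γ τ c (k + 2 * n c * j) = st1 γ τ c k := by
  unfold st1
  rw [← h.seg_per hp c (k - 1) (k + 1) j]
  congr 1 <;> ring

theorem Mesh.sub_le (h : PC n τ) (hm : Mesh η τ) (c : κ) (k l : ℤ) :
    |τ c l - τ c k| ≤ |(l : ℝ) - k| * η := by
  have key : ∀ (m : ℕ) (k : ℤ), |τ c (k + m) - τ c k| ≤ m * η := by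
    intro m k
    rw [abs_of_nonneg (sub_nonneg.mpr ((h.mono c).monotone (by omega)))]
    induction m with
    | zero => simp
    | succ m ih =>
      have := hm c (k + m)
      push_cast
      rw [← add_assoc]
      linarith
  rcases le_total k l with hl | hl
  · obtain ⟨m, rfl⟩ := Int.le.dest hl
    refine (key m k).trans (le_of_eq ?_)
    simp
  · obtain ⟨m, rfl⟩ := Int.le.dest hl
    rw [abs_sub_comm]
    refine (key m l).trans (le_of_eq ?_)
    simp

theorem Mesh.mono {η' : ℝ} (hm : Mesh η τ) (h : η ≤ η') : Mesh η' τ := fun c k => (hm c k).trans_le h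

theorem Mesh.refine (h : PC n τ) (h' : PC n' τ') (hr : ∀ c, range (τ c) ⊆ range (τ' c))
    (hm : Mesh η τ) : Mesh η τ' := by
  intro c k'
  obtain ⟨k, h1, h2⟩ := h.exists_index c (τ' c k')
  have h3 := GCPC_up (h'.mono c) (hr c) h2
  have := hm c k
  linarith

theorem mesh_of_grid (h : PC n τ) {M : ℕ} (hM : 1 / (M : ℝ) < η) (h0 : 0 < M)
    (hr : ∀ c, ∀ j < M, (j : ℝ) / M ∈ range (τ c)) : Mesh η τ := by
  intro c k
  have hM0 : (0 : ℝ) < M := by exact_mod_cast h0
  have hMz : (0 : ℤ) < M := by exact_mod_cast h0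
  set i := ⌊τ c k * M⌋ + 1 with hi
  obtain ⟨j, hj⟩ := Int.eq_ofNat_of_zero_le (Int.emod_nonneg i hMz.ne')
  have hjM : j < M := by
    have := Int.emod_lt_of_pos i hMz
    omega
  obtain ⟨l, hl⟩ := hr c j hjM
  have e : (i : ℝ) = j + M * (i / M : ℤ) := by
    have := Int.emod_add_mul_ediv i M
    rw [hj] at this
    exact_mod_cast this.symm
  have e2 : τ c (l + 2 * n c * (i / M)) * M = i := by
    rw [h.per_mul, hl, add_mul, div_mul_cancel₀ _ hM0.ne']
    linarith
  have a1 : τ c k * M < i := by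
    rw [hi]
    push_cast
    exact Int.lt_floor_add_one _
  have a2 : (i : ℝ) ≤ τ c k * M + 1 := by
    rw [hi]
    push_cast
    linarith [Int.floor_le (τ c k * M)]
  have a3 : k < l + 2 * n c * (i / M) :=
    (h.mono c).lt_iff_lt.mp (lt_of_mul_lt_mul_right (by linarith) hM0.le)
  have a4 : τ c (k + 1) * M ≤ τ c (l + 2 * n c * (i / M)) * M :=
    mul_le_mul_of_nonneg_right ((h.mono c).monotone a3) hM0.le
  rw [div_lt_iff₀ hM0] at hM
  refine lt_of_mul_lt_mul_right ?_ hM0.le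
  linarith

theorem exists_unif (κ : Type) (hη : 0 < η) :
    ∃ (n : κ → ℕ) (τ : κ → ℤ → ℝ), PC n τ ∧ Mesh η τ := by
  obtain ⟨N, H, -, h0, h1, h2⟩ := GCPC_grid (ι := Unit) (g := fun _ => η) fun _ => hη
  refine ⟨fun _ => N, fun _ k => k * H, ⟨fun _ a b hab => ?_, fun _ k => ?_⟩, fun _ k => ?_⟩
  · have : (a : ℝ) < b := by exact_mod_cast hab
    exact mul_lt_mul_of_pos_right this h0
  · push_cast
    linarith
  · have := h2 ()
    push_cast
    linarith

theorem PC.conv (h : PC n τ) (h' : PC n τ') {u : ℝ} (hu : u ∈ Icc (0 : ℝ) 1) :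
    PC n fun c k => (1 - u) * τ c k + u * τ' c k := by
  refine ⟨fun c a b hab => ?_, fun c k => ?_⟩
  · have := GCPC_conv (η := 0) hu (sub_neg.mpr (h.mono c hab)) (sub_neg.mpr (h'.mono c hab))
    show (1 - u) * τ c a + u * τ' c a < (1 - u) * τ c b + u * τ' c b
    linarith
  · rw [h.per, h'.per]
    ring

theorem Mesh.conv (h : Mesh η τ) (h' : Mesh η τ') {u : ℝ} (hu : u ∈ Icc (0 : ℝ) 1) :
    Mesh η fun c k => (1 - u) * τ c k + u * τ' c k := by
  intro c k
  have := GCPC_conv hu (h c k) (h' c k)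
  show (1 - u) * τ c (k + 1) + u * τ' c (k + 1) - ((1 - u) * τ c k + u * τ' c k) < η
  linarith

theorem PC.bound [Fintype κ] (h : PC n τ) (h' : PC n τ') :
    ∃ B > 0, ∀ c k, |τ c k - τ' c k| ≤ B := by
  refine ⟨∑ c, |τ c 0 - τ' c 0| + 1, by positivity, fun c k => ?_⟩
  have h0 : (0 : ℤ) < 2 * n c := by have := h.pos c; omega
  have h1 := Int.emod_nonneg k h0.ne'
  have h2 := Int.emod_lt_of_pos k h0
  have h3 := Finset.single_le_sum (f := fun c => |τ c 0 - τ' c 0|) (fun _ _ => abs_nonneg _)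
    (Finset.mem_univ c)
  rw [← Int.emod_add_mul_ediv k (2 * n c), h.per_mul, h'.per_mul]
  have a1 := (h.mono c).monotone h1
  have a2 := (h'.mono c).monotone h1
  have a3 := h.lt_add_one c (k := 0) (by rwa [zero_add])
  have a4 := h'.lt_add_one c (k := 0) (by rwa [zero_add])
  have a5 := le_abs_self (τ c 0 - τ' c 0)
  have a6 := neg_abs_le (τ c 0 - τ' c 0)
  rw [abs_le]
  constructor <;> linarith

theorem PJ.left (h : PJ fa n γ τ γ' τ') : PV fa γ n τ := by
  refine ⟨fun c k c' k' hf => ?_, fun c k => ?_⟩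
  · obtain ⟨i, hi⟩ := h.sep c k c' k' hf
    exact ⟨i, hi.imp And.left And.left⟩
  · obtain ⟨i, hi, hm⟩ := h.mono c k
    exact ⟨i, hi, hm.imp And.left And.left⟩

theorem PJ.right (h : PJ fa n γ τ γ' τ') : PV fa γ' n τ' := by
  refine ⟨fun c k c' k' hf => ?_, fun c k => ?_⟩
  · obtain ⟨i, hi⟩ := h.sep c k c' k' hf
    exact ⟨i, hi.imp And.right And.right⟩
  · obtain ⟨i, hi, hm⟩ := h.mono c k
    exact ⟨i, hi, hm.imp And.right And.right⟩

theorem PV.pj (h : PV fa γ n τ) : PJ fa n γ τ γ τ := by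
  refine ⟨fun c k c' k' hf => ?_, fun c k => ?_⟩
  · obtain ⟨i, hi⟩ := h.sep c k c' k' hf
    exact ⟨i, hi.imp (fun a => ⟨a, a⟩) fun a => ⟨a, a⟩⟩
  · obtain ⟨i, hi, hm⟩ := h.mono c k
    exact ⟨i, hi, hm.imp (fun a => ⟨a, a⟩) fun a => ⟨a, a⟩⟩

theorem PV.three_le (h : PV fa γ n τ) (hc : PC n τ) (hp : ∀ c t, γ c (t + 1) = γ c t) (c : κ) :
    3 ≤ n c := by
  by_contra hn
  obtain ⟨i, -, hm⟩ := h.mono c 0
  have h0 : τ c (0 - 2) + 1 ≤ τ c (0 + 2) := by
    rw [← hc.per]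
    exact (hc.mono c).monotone (by omega)
  have h1 : τ c (0 - 2) ∈ wnd τ c 0 := ⟨le_rfl, by linarith⟩
  have h2 : τ c (0 - 2) + 1 ∈ wnd τ c 0 := ⟨by linarith, h0⟩
  rcases hm with hm | hm
  · have := hm h1 h2 (lt_add_one _)
    simp only [hp, lt_self_iff_false] at this
  · have := hm h1 h2 (lt_add_one _)
    simp only [hp, lt_self_iff_false] at this

/-- refinements of valid subdivisions are valid -/
theorem PV.refine (h : PV fa γ n τ) (hc : PC n τ) (hc' : PC n' τ')
    (hp : ∀ c t, γ c (t + 1) = γ c t) (hr : ∀ c, range (τ c) ⊆ range (τ' c)) :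
    PV fa γ n' τ' := by
  have sub : ∀ {c k k'}, τ c k ≤ τ' c k' → τ' c k' < τ c (k + 1) →
      τ c (k - 1) ≤ τ' c (k' - 1) ∧ τ' c (k' + 1) ≤ τ c (k + 1) := fun {c k k'} h1 h2 =>
    ⟨GCPC_dn (hc'.mono c) (hr c) ((hc.mono c (by omega)).trans_le h1),
      GCPC_up (hc'.mono c) (hr c) h2⟩
  refine ⟨fun c k' d l' hf => ?_, fun c k' => ?_⟩
  · obtain ⟨k, a1, a2⟩ := hc.exists_index c (τ' c k')
    obtain ⟨l, b1, b2⟩ := hc.exists_index d (τ' d l')
    obtain ⟨a3, a4⟩ := sub a1 a2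
    by_cases hF : FarI n c k d l
    · obtain ⟨b3, b4⟩ := sub b1 b2
      have s1 : st1 γ τ' c k' ⊆ st1 γ τ c k := image_mono (Icc_subset_Icc a3 a4)
      have s2 : st1 γ τ' d l' ⊆ st1 γ τ d l := image_mono (Icc_subset_Icc b3 b4)
      obtain ⟨i, hi⟩ := h.sep c k d l hF
      exact ⟨i, hi.imp (fun a p hp q hq => a p (s1 hp) q (s2 hq))
        fun a p hp q hq => a p (s2 hp) q (s1 hq)⟩
    · unfold FarI at hF
      push Not at hF
      obtain ⟨rfl, j, hj⟩ := hF
      have hf' := hf rfl j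
      rw [← hc'.st1_per hp c l' j]
      have b1' : τ c (l + 2 * n c * j) ≤ τ' c (l' + 2 * n' c * j) := by
        rw [hc.per_mul, hc'.per_mul]
        linarith
      have b2' : τ' c (l' + 2 * n' c * j) < τ c (l + 2 * n c * j + 1) := by
        rw [add_right_comm, hc.per_mul, hc'.per_mul]
        linarith
      rw [show l - k + 2 * n c * j = l + 2 * n c * j - k by ring] at hj
      rw [show l' - k' + 2 * n' c * j = l' + 2 * n' c * j - k' by ring] at hf'
      generalize l + 2 * n c * j = m at *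
      generalize l' + 2 * n' c * j = m' at *
      obtain ⟨b3, b4⟩ := sub b1' b2'
      rw [abs_lt] at hj
      obtain ⟨i, -, hm⟩ := h.mono c (min k m + 1)
      have w1 : Icc (τ' c (k' - 1)) (τ' c (k' + 1)) ⊆ wnd τ c (min k m + 1) := Icc_subset_Icc
        (((hc.mono c).monotone (by omega)).trans a3) (a4.trans ((hc.mono c).monotone (by omega)))
      have w2 : Icc (τ' c (m' - 1)) (τ' c (m' + 1)) ⊆ wnd τ c (min k m + 1) := Icc_subset_Icc
        (((hc.mono c).monotone (by omega)).trans b3) (b4.trans ((hc.mono c).monotone (by omega)))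
      rcases le_abs.mp hf' with hl | hl
      · exact ⟨i, GCPC_sep hm w1 w2 (hc'.mono c (by omega))⟩
      · exact ⟨i, (GCPC_sep hm w2 w1 (hc'.mono c (by omega))).symm⟩
  · obtain ⟨k, a1, a2⟩ := hc.exists_index c (τ' c k')
    obtain ⟨a3, a4⟩ := sub a1 a2
    have a5 := GCPC_dn (hc'.mono c) (hr c) ((hc.mono c (show k - 2 < k - 1 by omega)).trans_le a3)
    have a6 := GCPC_up (hc'.mono c) (hr c) (a4.trans_lt (hc.mono c (show k + 1 < k + 2 by omega)))
    rw [show k' - 1 - 1 = k' - 2 by ring] at a5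
    rw [show k' + 1 + 1 = k' + 2 by ring] at a6
    have w : wnd τ' c k' ⊆ wnd τ c k := Icc_subset_Icc a5 a6
    obtain ⟨i, hi, hm⟩ := h.mono c k
    exact ⟨i, hi, hm.imp (fun a => a.mono w) fun a => a.mono w⟩

/-- fine subdivisions with prescribed pairs of consecutive parameters -/
theorem exists_pc {B : Type} [Fintype B] (cp : B → κ) (x : B → ℝ)
    (hx : ∀ b b' (j : ℤ), cp b = cp b' → x b' = x b + j → b = b') (hη : 0 < η) :
    ∃ h > 0, ∀ σ : B → ℝ, (∀ b, σ b ≠ x b ∧ |σ b - x b| < h) →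
      ∃ (n : κ → ℕ) (τ : κ → ℤ → ℝ), PC n τ ∧ Mesh η τ ∧ ∀ b, ∃ k, Even k ∧ τ (cp b) k = x b ∧
        (τ (cp b) (k + 1) = σ b ∨ τ (cp b) (k - 1) = σ b) := by
  have hg : ∀ p : B × B, ∃ g > 0, ∀ j : ℤ, cp p.1 = cp p.2 → p.1 ≠ p.2 →
      g ≤ |x p.2 - x p.1 - j| := by
    intro p
    by_cases hp : cp p.1 = cp p.2 ∧ p.1 ≠ p.2
    · exact ⟨|x p.2 - x p.1 - round (x p.2 - x p.1)|, abs_pos.mpr fun e =>
        hp.2 (hx _ _ (round (x p.2 - x p.1)) hp.1 (by linarith)), fun j _ _ => round_le _ j⟩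
    · exact ⟨1, one_pos, fun j a b => absurd ⟨a, b⟩ hp⟩
  choose g g0 hg using hg
  obtain ⟨N, H, hN, H0, H1, H2⟩ := GCPC_grid (ι := Option (B × B))
    (g := fun o => o.elim η g) (by rintro (_ | p); exacts [hη, g0 p])
  have Hη : 6 * H < η := H2 none
  have Hg : ∀ p, 6 * H < g p := fun p => H2 (some p)
  have hq : ∀ b, ∃ q : ℤ, Even q ∧ |x b - q * H| ≤ H := by
    intro b
    refine ⟨2 * round (x b * N), even_two_mul _, ?_⟩
    have h1 := abs_sub_round (x b * N)
    have e : x b - (2 * round (x b * N) : ℤ) * H = 2 * H * (x b * N - round (x b * N)) := by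
      push_cast
      linear_combination (-x b) * H1
    rw [e, abs_mul, abs_of_pos (by positivity)]
    nlinarith
  choose q qe hq using hq
  have uniq : ∀ {b b' : B} {j j' : ℤ}, cp b = cp b' →
      |q b' + 2 * N * j' - (q b + 2 * N * j)| ≤ 3 → b = b' ∧ j = j' := by
    intro b b' j j' e hd
    by_cases hb : b = b'
    · subst hb
      refine ⟨rfl, ?_⟩
      have hN' : (2 : ℤ) ≤ N := by exact_mod_cast hN
      rw [abs_le] at hd
      by_contra hj
      rcases lt_or_gt_of_ne hj with hj | hj <;> nlinarith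
    · exfalso
      have a1 := hg (b, b') (j - j') e hb
      have a2 := Hg (b, b')
      have a3 : |((q b' + 2 * N * j' - (q b + 2 * N * j) : ℤ) : ℝ)| ≤ 3 := by exact_mod_cast hd
      have a4 : x b' - x b - ((j - j' : ℤ) : ℝ) = (x b' - q b' * H) - (x b - q b * H) +
          ((q b' + 2 * N * j' - (q b + 2 * N * j) : ℤ) : ℝ) * H := by
        push_cast
        linear_combination ((j : ℝ) - j') * H1
      have a5 := hq b
      have a6 := hq b'
      generalize ((q b' + 2 * N * j' - (q b + 2 * N * j) : ℤ) : ℝ) = D at a3 a4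
      have a7 : |D * H| ≤ 3 * H := by
        rw [abs_mul, abs_of_pos H0]
        gcongr
      rw [abs_le] at a5 a6 a7
      simp only at a1
      rw [a4] at a1
      rcases le_abs.mp a1 with a | a <;> linarith
  refine ⟨H / 2, by positivity, fun σ hσ => ?_⟩
  have hv : ∀ b, ∃ v : ℤ → ℝ, v 0 = x b ∧ x b - H / 2 ≤ v (-1) ∧ v (-1) < x b ∧ x b < v 1 ∧
      v 1 ≤ x b + H / 2 ∧ (v 1 = σ b ∨ v (-1) = σ b) := by
    intro b
    obtain ⟨h1, h2⟩ := hσ b
    rw [abs_lt] at h2
    rcases lt_or_gt_of_ne h1 with h3 | h3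
    · refine ⟨fun d => if d = 0 then x b else if d = 1 then x b + H / 2 else σ b, ?_⟩
      norm_num
      exact ⟨by linarith, h3, H0⟩
    · refine ⟨fun d => if d = 0 then x b else if d = 1 then σ b else x b - H / 2, ?_⟩
      norm_num
      exact ⟨H0, h3, by linarith⟩
  choose v v0 v1 v2 v3 v4 v5 using hv
  have hτ : ∀ (c : κ) (k : ℤ), ∃ t : ℝ, (∀ (b : B) (j : ℤ), cp b = c →
      |k - (q b + 2 * N * j)| ≤ 1 → t = v b (k - (q b + 2 * N * j)) + j) ∧
      ((¬∃ (b : B) (j : ℤ), cp b = c ∧ |k - (q b + 2 * N * j)| ≤ 1) → t = k * H) := by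
    intro c k
    by_cases h : ∃ (b : B) (j : ℤ), cp b = c ∧ |k - (q b + 2 * N * j)| ≤ 1
    · obtain ⟨b, j, e, hd⟩ := id h
      refine ⟨v b (k - (q b + 2 * N * j)) + j, fun b' j' e' hd' => ?_, fun h' => absurd h h'⟩
      obtain ⟨rfl, rfl⟩ := uniq (j := j) (j' := j') (e.trans e'.symm) (by
        rw [abs_le] at *
        omega)
      rfl
    · exact ⟨k * H, fun b j e hd => absurd ⟨b, j, e, hd⟩ h, fun _ => rfl⟩
  choose τ t1 t2 using hτ
  have gap : ∀ c k, τ c k < τ c (k + 1) ∧ τ c (k + 1) - τ c k < η := by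
    intro c k
    have cast : ∀ (b : B) (j d : ℤ), ((q b + 2 * N * j + d : ℤ) : ℝ) * H = q b * H + j + d * H := by
      intro b j d
      push_cast
      linear_combination (j : ℝ) * H1
    by_cases h : ∃ (b : B) (j : ℤ), cp b = c ∧ |k - (q b + 2 * N * j)| ≤ 1
    · obtain ⟨b, j, e, hd⟩ := h
      have r1 := t1 c k b j e hd
      have := v0 b
      have := v1 b
      have := v2 b
      have := v3 b
      have := v4 b
      have hb := abs_le.mp (hq b)
      by_cases h1 : |k + 1 - (q b + 2 * N * j)| ≤ 1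
      · have r2 := t1 c (k + 1) b j e h1
        rw [abs_le] at hd h1
        rcases (by omega : k - (q b + 2 * N * j) = -1 ∨ k - (q b + 2 * N * j) = 0) with a | a
        · rw [show k + 1 - (q b + 2 * N * j) = 0 by omega] at r2
          rw [a] at r1
          constructor <;> linarith
        · rw [show k + 1 - (q b + 2 * N * j) = 1 by omega] at r2
          rw [a] at r1
          constructor <;> linarith
      · have r2 := t2 c (k + 1) (by
          rintro ⟨b', j', e', hd'⟩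
          obtain ⟨rfl, rfl⟩ := uniq (j := j) (j' := j') (e.trans e'.symm) (by
            rw [abs_le] at *
            omega)
          exact h1 hd')
        rw [abs_le] at hd h1
        rw [show k - (q b + 2 * N * j) = 1 by omega] at r1
        have r3 := cast b j 2
        rw [show q b + 2 * N * j + 2 = k + 1 by omega, ← r2, Int.cast_ofNat] at r3
        constructor <;> linarith
    · have r1 := t2 c k h
      by_cases h' : ∃ (b : B) (j : ℤ), cp b = c ∧ |k + 1 - (q b + 2 * N * j)| ≤ 1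
      · obtain ⟨b, j, e, hd⟩ := h'
        have r2 := t1 c (k + 1) b j e hd
        have h1 : ¬|k - (q b + 2 * N * j)| ≤ 1 := fun a => h ⟨b, j, e, a⟩
        have := v1 b
        have := v2 b
        have hb := abs_le.mp (hq b)
        rw [abs_le] at hd h1
        rw [show k + 1 - (q b + 2 * N * j) = -1 by omega] at r2
        have r3 := cast b j (-2)
        rw [show q b + 2 * N * j + -2 = k by omega, ← r1, Int.cast_neg, Int.cast_ofNat] at r3
        constructor <;> linarith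
      · have r2 := t2 c (k + 1) h'
        push_cast at r2
        constructor <;> linarith
  refine ⟨fun _ => N, τ, ⟨fun c => strictMono_int_of_lt_succ fun k => (gap c k).1,
    fun c k => ?_⟩, fun c k => (gap c k).2, fun b => ⟨q b, qe b, ?_, ?_⟩⟩
  · have e1 : ∀ (b : B) (j : ℤ), k + 2 * N - (q b + 2 * N * (j + 1)) = k - (q b + 2 * N * j) :=
      fun b j => by ring
    by_cases h : ∃ (b : B) (j : ℤ), cp b = c ∧ |k - (q b + 2 * N * j)| ≤ 1
    · obtain ⟨b, j, e, hd⟩ := h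
      rw [t1 c k b j e hd, t1 c (k + 2 * N) b (j + 1) e (by rwa [e1]), e1]
      push_cast
      ring
    · rw [t2 c k h, t2 c (k + 2 * N) (by
        rintro ⟨b, j, e, hd⟩
        exact h ⟨b, j - 1, e, by rwa [← e1, sub_add_cancel]⟩)]
      push_cast
      linarith
  · rw [t1 _ _ b 0 rfl (by simp)]
    simp [v0]
  · rw [t1 _ (q b + 1) b 0 rfl (by simp), t1 _ (q b - 1) b 0 rfl (by simp)]
    simpa using v5 b

end Pool.Agent.P.MP_ac4909_gt.B
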