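import Pool.Agent.P.MP_ac4909_gt.B.GC_Cert
import Pool.Agent.P.MP_ac4909_gt.B.GC_PC

/-! Layer G, core: subdivisions given by parameters. -/

namespace Pool.Agent.P.MP_ac4909_gt.B

open scoped ContDiff
open Set Filter Topology

variable {κ N N' : Type} {fa : Bool} {γ γ' : κ → ℝ → E3} {n : κ → ℕ} {τ τ' : κ → ℤ → ℝ}
  {C C' : Conf N} {ix : κ → ℤ → N} {dl : N → N → Arc κ}

theorem GCMdl_not_dvd {m : ℕ} (h2 : 2 ≤ m) {d : ℤ} (hd : d = 2 ∨ d = -2) :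
    ¬(2 * m : ℤ) ∣ d := by
  intro h
  have h' : (2 * m : ℤ) ∣ 2 := by
    rcases hd with rfl | rfl
    · exact h
    · exact (dvd_neg.mp h)
  have := Int.le_of_dvd two_pos h'
  omega

/-- points and arcs for given combinatorial data -/
theorem GCMdl_build (hp : ∀ c t, γ c (t + 1) = γ c t) (h : PC n τ) (h2 : ∀ c, 2 ≤ n c)
    (col : N → Bool) (nb : N → Bool → N) (surj : ∀ a, ∃ c k, ix c k = a)
    (inj : ∀ c k c' k', ix c k = ix c' k' ↔ c = c' ∧ (2 * n c : ℤ) ∣ k' - k)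
    (hcol : ∀ c k, col (ix c k) = true ↔ Even k)
    (hnb : ∀ c k, ∃ s, nb (ix c k) s = ix c (k + 1) ∧ nb (ix c k) (!s) = ix c (k - 1)) :
    ∃ C : Conf N, C.col = col ∧ C.nb = nb ∧ Mdl γ n τ C ix := by
  choose f g hfg using surj
  have key : ∀ c k, {p | ∃ c' k', ((ix c' k' = ix c k ∧ ix c' (k' + 1) = ix c (k + 1)) ∨
      (ix c' k' = ix c (k + 1) ∧ ix c' (k' + 1) = ix c k)) ∧ p ∈ seg γ τ c' k' (k' + 1)} =
      seg γ τ c k (k + 1) := by
    intro c k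
    ext p
    refine ⟨?_, fun hp' => ⟨c, k, Or.inl ⟨rfl, rfl⟩, hp'⟩⟩
    rintro ⟨c', k', ⟨e, -⟩ | ⟨e, e'⟩, hp'⟩
    · obtain ⟨rfl, j, hj⟩ := (inj _ _ _ _).mp e
      rw [show k = k' + 2 * n c' * j by omega,
        show k' + 2 * n c' * j + 1 = k' + 1 + 2 * n c' * j by ring, h.seg_per hp]
      exact hp'
    · obtain ⟨rfl, h₁⟩ := (inj _ _ _ _).mp e
      obtain ⟨-, h₂⟩ := (inj _ _ _ _).mp e'
      exact absurd (dvd_sub h₁ h₂) (GCMdl_not_dvd (h2 c') (Or.inl (by ring)))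
  refine ⟨⟨col, nb, fun a => γ (f a) (τ (f a) (g a)), fun a b => {p | ∃ c' k',
    ((ix c' k' = a ∧ ix c' (k' + 1) = b) ∨ (ix c' k' = b ∧ ix c' (k' + 1) = a)) ∧
      p ∈ seg γ τ c' k' (k' + 1)}⟩, rfl, rfl, h, fun a => ⟨_, _, hfg a⟩, inj, hcol, hnb,
    fun c k => ?_, key, fun c k => ?_⟩
  · obtain ⟨e, j, hj⟩ := (inj _ _ _ _).mp (hfg (ix c k))
    change γ (f (ix c k)) (τ (f (ix c k)) (g (ix c k))) = _
    generalize g (ix c k) = k' at *
    generalize f (ix c k) = c' at *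
    subst e
    rw [show k = k' + 2 * n c' * j by omega, h.per_mul, per_int (hp c')]
  · rw [← key c k]
    ext p
    simp only [mem_ofPred_eq, or_comm]

theorem exists_mdl [Fintype κ] (hp : ∀ c t, γ c (t + 1) = γ c t) (h : PC n τ) (h2 : ∀ c, 2 ≤ n c) :
    ∃ (N : Type) (_ : Fintype N) (C : Conf N) (ix : κ → ℤ → N), Mdl γ n τ C ix := by
  have : ∀ c, NeZero (2 * n c) := fun c => ⟨by have := h2 c; omega⟩
  obtain ⟨C, -, -, hC⟩ := GCMdl_build (N := Σ c, ZMod (2 * n c))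
    (ix := fun c k => ⟨c, (k : ZMod (2 * n c))⟩) hp h h2 (fun a => decide (Even a.2.val))
    (fun a s => ⟨a.1, if s then a.2 + 1 else a.2 - 1⟩)
    (fun a => by
      obtain ⟨k, hk⟩ := ZMod.intCast_surjective a.2
      exact ⟨a.1, k, by rw [hk]⟩)
    (fun c k c' k' => by
      constructor
      · intro e
        obtain rfl : c = c' := congrArg Sigma.fst e
        have e' := eq_of_heq (Sigma.mk.inj_iff.mp e).2
        rw [ZMod.intCast_eq_intCast_iff_dvd_sub] at e'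
        exact ⟨rfl, by exact_mod_cast e'⟩
      · rintro ⟨rfl, e⟩
        have e' : (k : ZMod (2 * n c)) = (k' : ZMod (2 * n c)) := by
          rw [ZMod.intCast_eq_intCast_iff_dvd_sub]
          exact_mod_cast e
        rw [e'])
    (fun c k => by
      rw [decide_eq_true_iff, ← Int.even_coe_nat, ZMod.val_intCast, Int.even_iff, Int.even_iff,
        Int.emod_emod_of_dvd _ (by push_cast; exact dvd_mul_right _ _)])
    (fun c k => ⟨true, by simp, by simp⟩)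
  exact ⟨_, inferInstance, C, _, hC⟩

namespace Mdl

/-- the same combinatorics with another link and other parameters -/
theorem exists_re (h : Mdl γ n τ C ix) (hp : ∀ c t, γ' c (t + 1) = γ' c t) (h' : PC n τ')
    (h2 : ∀ c, 2 ≤ n c) :
    ∃ C' : Conf N, C'.col = C.col ∧ C'.nb = C.nb ∧ Mdl γ' n τ' C' ix :=
  GCMdl_build hp h' h2 C.col C.nb h.surj h.inj h.col h.nb

theorem ix_per (h : Mdl γ n τ C ix) (c : κ) (k j : ℤ) : ix c (k + 2 * n c * j) = ix c k :=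
  (h.inj _ _ _ _).mpr ⟨rfl, -j, by ring⟩

theorem nb_cases (h : Mdl γ n τ C ix) (c : κ) (k : ℤ) (s : Bool) :
    C.nb (ix c k) s = ix c (k + 1) ∨ C.nb (ix c k) s = ix c (k - 1) := by
  obtain ⟨s₀, h₁, h₂⟩ := h.nb c k
  cases s <;> cases s₀ <;> first | exact Or.inl h₁ | exact Or.inr h₂

theorem arc_pred (h : Mdl γ n τ C ix) (c : κ) (k : ℤ) :
    C.arc (ix c k) (ix c (k - 1)) = seg γ τ c (k - 1) k := by
  have := h.arc' c (k - 1)
  rwa [sub_add_cancel] at this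

theorem GCMdl_two (h : Mdl γ n τ C ix) (c : κ) (k : ℤ) :
    (C.nb (ix c k) false = ix c (k + 1) ∧ C.nb (ix c k) true = ix c (k - 1)) ∨
      (C.nb (ix c k) false = ix c (k - 1) ∧ C.nb (ix c k) true = ix c (k + 1)) := by
  obtain ⟨s₀, h₁, h₂⟩ := h.nb c k
  cases s₀
  · exact Or.inl ⟨h₁, h₂⟩
  · exact Or.inr ⟨h₂, h₁⟩

theorem star (h : Mdl γ n τ C ix) (c : κ) (k : ℤ) : C.star (ix c k) = st1 γ τ c k := by
  have e := h.pc.seg_union γ c (k := k - 1) (l := k) (m := k + 1) (by omega) (by omega)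
  rw [Conf.star, st1, ← e]
  rcases h.GCMdl_two c k with ⟨h₁, h₂⟩ | ⟨h₁, h₂⟩
  · rw [h₁, h₂, h.arc, h.arc_pred, union_comm]
  · rw [h₁, h₂, h.arc, h.arc_pred]

theorem win (h : Mdl γ n τ C ix) (c : κ) (k : ℤ) : C.win (ix c k) = γ c '' wnd τ c k := by
  have e := h.pc.seg_union γ c (k := k - 2) (l := k) (m := k + 2) (by omega) (by omega)
  have e₁ : C.star (ix c (k + 1)) = seg γ τ c k (k + 2) := by
    rw [h.star, st1, add_sub_cancel_right, show k + 1 + 1 = k + 2 by ring]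
  have e₂ : C.star (ix c (k - 1)) = seg γ τ c (k - 2) k := by
    rw [h.star, st1, sub_add_cancel, show k - 1 - 1 = k - 2 by ring]
  change _ = seg γ τ c (k - 2) (k + 2)
  rw [Conf.win, ← e]
  rcases h.GCMdl_two c k with ⟨h₁, h₂⟩ | ⟨h₁, h₂⟩
  · rw [h₁, h₂, e₁, e₂, union_comm]
  · rw [h₁, h₂, e₁, e₂]

theorem far_iff (h : Mdl γ n τ C ix) (c : κ) (k : ℤ) (c' : κ) (k' : ℤ) :
    C.Far (ix c k) (ix c' k') ↔ FarI n c k c' k' := by
  constructor
  · rintro ⟨h₀, h₁, h₂⟩ rfl j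
    obtain ⟨s, p₁, p₂⟩ := h.nb c k
    obtain ⟨s', q₁, q₂⟩ := h.nb c k'
    have a₁ := h₁ s
    have a₂ := h₁ (!s)
    have a₃ := h₂ s (!s')
    have a₄ := h₂ (!s) s'
    rw [p₁] at a₁ a₃
    rw [p₂] at a₂ a₄
    rw [q₂] at a₃
    rw [q₁] at a₄
    by_contra hc
    have hc' := abs_lt.mp (not_le.mp hc)
    have hd : ∀ u v : ℤ, v - u = 2 * n c * -j → ix c u = ix c v := fun u v e =>
      (h.inj _ _ _ _).mpr ⟨rfl, -j, e⟩
    rw [mul_neg] at hd
    generalize 2 * (n c : ℤ) * j = d at *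
    obtain e | e | e | e | e : k' - k + d = 0 ∨ k' - k + d = 1 ∨ k' - k + d = -1 ∨
      k' - k + d = 2 ∨ k' - k + d = -2 := by omega
    · exact h₀ (hd _ _ (by omega))
    · exact a₁ (hd _ _ (by omega))
    · exact a₂ (hd _ _ (by omega))
    · exact a₃ (hd _ _ (by omega))
    · exact a₄ (hd _ _ (by omega))
  · intro hf
    have key : ∀ u v : ℤ, |u - k - (v - k')| ≤ 2 → ix c u ≠ ix c' v := by
      intro u v huv e
      obtain ⟨e₁, j, hj⟩ := (h.inj _ _ _ _).mp e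
      have := hf e₁ (-j)
      rw [show k' - k + 2 * n c * -j = u - k - (v - k') by rw [mul_neg, ← hj]; ring] at this
      omega
    refine ⟨key _ _ (by simp), fun s => ?_, fun s s' => ?_⟩
    · rcases h.nb_cases c k s with e | e <;> rw [e] <;> exact key _ _ (abs_le.mpr (by omega))
    · rcases h.nb_cases c k s with e | e <;> rcases h.nb_cases c' k' s' with e' | e' <;>
        rw [e, e'] <;> exact key _ _ (abs_le.mpr (by omega))

theorem supp (h : Mdl γ n τ C ix) : C.supp = trace γ := by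
  ext p
  simp only [Conf.supp, trace, mem_iUnion]
  constructor
  · rintro ⟨a, ha⟩
    obtain ⟨c, k, rfl⟩ := h.surj a
    rw [h.star] at ha
    exact ⟨c, image_subset_range _ _ ha⟩
  · rintro ⟨c, t, rfl⟩
    obtain ⟨k, h₁, h₂⟩ := h.pc.exists_index c t
    refine ⟨ix c k, ?_⟩
    rw [h.star]
    exact ⟨t, ⟨((h.pc.mono c).monotone (by omega)).trans h₁, h₂.le⟩, rfl⟩

theorem mem_range (h : Mdl γ n τ C ix) (hγ : IsU γ) {c : κ} {t : ℝ} :
    t ∈ range (τ c) ↔ ∃ a, C.pt a = γ c t := by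
  constructor
  · rintro ⟨k, rfl⟩
    exact ⟨_, h.pt c k⟩
  · rintro ⟨a, ha⟩
    obtain ⟨c', k, rfl⟩ := h.surj a
    rw [h.pt] at ha
    obtain ⟨rfl, j, hj⟩ := hγ.inj _ _ _ _ ha
    exact ⟨k + 2 * n c' * j, by rw [h.pc.per_mul, hj]⟩

theorem ncard (h : Mdl γ n τ C ix) (hγ : IsU γ) (c : κ) :
    {a | C.pt a ∈ range (γ c)}.ncard = 2 * n c := by
  have h0 : (0 : ℤ) < 2 * n c := by have := h.pc.pos c; omega
  have e : {a | C.pt a ∈ range (γ c)} = ix c '' (Finset.Ico (0 : ℤ) (2 * n c) : Finset ℤ) := by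
    ext a
    constructor
    · rintro ⟨t, ht⟩
      obtain ⟨c', k, rfl⟩ := h.surj a
      rw [h.pt] at ht
      obtain ⟨rfl, -⟩ := hγ.inj _ _ _ _ ht
      refine ⟨k % (2 * n c), ?_, (h.inj _ _ _ _).mpr ⟨rfl, Int.dvd_self_sub_emod⟩⟩
      rw [Finset.coe_Ico]
      exact ⟨Int.emod_nonneg _ h0.ne', Int.emod_lt_of_pos _ h0⟩
    · rintro ⟨k, -, rfl⟩
      exact ⟨_, (h.pt c k).symm⟩
  rw [e, InjOn.ncard_image, ncard_coe_finset, Int.card_Ico, sub_zero]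
  · omega
  · intro k hk l hl e'
    rw [Finset.coe_Ico] at hk hl
    obtain ⟨-, hd⟩ := (h.inj _ _ _ _).mp e'
    have := Int.eq_zero_of_abs_lt_dvd hd (abs_lt.mpr ⟨by linarith [hk.2, hl.1],
      by linarith [hk.1, hl.2]⟩)
    omega

theorem GCMdl_wnd (h : Mdl γ n τ C ix) (c : κ) {k l : ℤ} (h₁ : k - 2 ≤ l) (h₂ : l ≤ k + 2) :
    τ c l ∈ wnd τ c k := ⟨(h.pc.mono c).monotone h₁, (h.pc.mono c).monotone h₂⟩

theorem GCMdl_lo (h : Mdl γ n τ C ix) {c : κ} {k : ℤ} {t : Bool}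
    (ht : C.nb (ix c (k - 1)) t ≠ ix c k) : C.nb (ix c (k - 1)) t = ix c (k - 2) := by
  rcases h.nb_cases c (k - 1) t with e | e
  · rw [sub_add_cancel] at e
    exact absurd e ht
  · rw [e, show k - 1 - 1 = k - 2 by ring]

theorem GCMdl_hi (h : Mdl γ n τ C ix) {c : κ} {k : ℤ} {t : Bool}
    (ht : C.nb (ix c (k + 1)) t ≠ ix c k) : C.nb (ix c (k + 1)) t = ix c (k + 2) := by
  rcases h.nb_cases c (k + 1) t with e | e
  · rw [e, show k + 1 + 1 = k + 2 by ring]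
  · rw [add_sub_cancel_right] at e
    exact absurd e ht

theorem GCMdl_inj (h : Mdl γ n τ C ix) {c : κ} {k : ℤ} {i : Fin 3}
    (hm : InjOn (fun t => γ c t i) (wnd τ c k)) : InjOn (fun p : E3 => p i) (C.win (ix c k)) := by
  rw [h.win]
  rintro _ ⟨t, ht, rfl⟩ _ ⟨t', ht', rfl⟩ e
  rw [hm ht ht' e]

theorem mono_up (h : Mdl γ n τ C ix) {c : κ} {k : ℤ} {i : Fin 3} {s : Bool}
    (hs : C.nb (ix c k) s = ix c (k - 1) ∧ C.nb (ix c k) (!s) = ix c (k + 1))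
    (hm : StrictMonoOn (fun t => γ c t i) (wnd τ c k)) : C.Mono i (ix c k) s := by
  have key : ∀ l l', k - 2 ≤ l → l < l' → l' ≤ k + 2 → C.pt (ix c l) i < C.pt (ix c l') i := by
    intro l l' h₁ h₂ h₃
    rw [h.pt, h.pt]
    exact hm (h.GCMdl_wnd c h₁ (by omega)) (h.GCMdl_wnd c (by omega) h₃) (h.pc.mono c h₂)
  refine ⟨h.GCMdl_inj hm.injOn, fun t ht => ?_, ?_, ?_, fun t ht => ?_⟩
  · rw [hs.1] at ht ⊢
    rw [h.GCMdl_lo ht]
    exact key _ _ (by omega) (by omega) (by omega)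
  · rw [hs.1]
    exact key _ _ (by omega) (by omega) (by omega)
  · rw [hs.2]
    exact key _ _ (by omega) (by omega) (by omega)
  · rw [hs.2] at ht ⊢
    rw [h.GCMdl_hi ht]
    exact key _ _ (by omega) (by omega) (by omega)

theorem mono_down (h : Mdl γ n τ C ix) {c : κ} {k : ℤ} {i : Fin 3} {s : Bool}
    (hs : C.nb (ix c k) s = ix c (k + 1) ∧ C.nb (ix c k) (!s) = ix c (k - 1))
    (hm : StrictAntiOn (fun t => γ c t i) (wnd τ c k)) : C.Mono i (ix c k) s := by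
  have key : ∀ l l', k - 2 ≤ l → l < l' → l' ≤ k + 2 → C.pt (ix c l') i < C.pt (ix c l) i := by
    intro l l' h₁ h₂ h₃
    rw [h.pt, h.pt]
    exact hm (h.GCMdl_wnd c h₁ (by omega)) (h.GCMdl_wnd c (by omega) h₃) (h.pc.mono c h₂)
  refine ⟨h.GCMdl_inj hm.injOn, fun t ht => ?_, ?_, ?_, fun t ht => ?_⟩
  · rw [hs.1] at ht ⊢
    rw [h.GCMdl_hi ht]
    exact key _ _ (by omega) (by omega) (by omega)
  · rw [hs.1]
    exact key _ _ (by omega) (by omega) (by omega)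
  · rw [hs.2]
    exact key _ _ (by omega) (by omega) (by omega)
  · rw [hs.2] at ht ⊢
    rw [h.GCMdl_lo ht]
    exact key _ _ (by omega) (by omega) (by omega)

theorem joint (h : Mdl γ n τ C ix) (h' : Mdl γ' n τ' C' ix) (hc : C'.col = C.col)
    (hn : C'.nb = C.nb) (hj : PJ fa n γ τ γ' τ') : C.Joint fa C' := by
  refine ⟨hc, hn, fun a b hab => ?_, fun a => ?_⟩
  · obtain ⟨c, k, rfl⟩ := h.surj a
    obtain ⟨c', k', rfl⟩ := h.surj b
    rw [h.star, h.star, h'.star, h'.star]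
    exact hj.sep _ _ _ _ ((h.far_iff _ _ _ _).mp hab)
  · obtain ⟨c, k, rfl⟩ := h.surj a
    obtain ⟨s, h₁, h₂⟩ := h.nb c k
    obtain ⟨i, hi, ⟨m₁, m₂⟩ | ⟨m₁, m₂⟩⟩ := hj.mono c k
    · refine ⟨i, !s, hi, h.mono_up ⟨h₂, ?_⟩ m₁, h'.mono_up ⟨?_, ?_⟩ m₂⟩
      · rw [Bool.not_not, h₁]
      · rw [hn, h₂]
      · rw [hn, Bool.not_not, h₁]
    · refine ⟨i, s, hi, h.mono_down ⟨h₁, h₂⟩ m₁, h'.mono_down ⟨?_, ?_⟩ m₂⟩
      · rw [hn, h₁]
      · rw [hn, h₂]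

theorem GCMdl_step (h : Mdl γ n τ C ix) (c : κ) (k : ℤ) :
    τ c k < τ c (k + 1) ∧ τ c (k + 1) < τ c k + 1 :=
  ⟨h.pc.mono c (by omega), h.pc.lt_add_one c (by have := h.pc.pos c; omega)⟩

theorem GCMdl_step' (h : Mdl γ n τ C ix) (c : κ) (k : ℤ) :
    τ c (k - 1) < τ c k ∧ τ c k < τ c (k - 1) + 1 :=
  ⟨h.pc.mono c (by omega), h.pc.lt_add_one c (by have := h.pc.pos c; omega)⟩

theorem valid (h : Mdl γ n τ C ix) (hγ : IsU γ) (hv : PV fa γ n τ) : C.Valid fa := by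
  have hj := h.joint h rfl rfl hv.pj
  have h3 := hv.three_le h.pc hγ.per
  refine ⟨fun a s => ?_, fun a => ?_, fun a s => ?_, fun a s => ?_, fun a s => ?_,
    fun a b hab => ?_, fun a => ?_⟩
  · obtain ⟨c, k, rfl⟩ := h.surj a
    rw [Bool.eq_iff_iff, Bool.not_eq_true', ← Bool.not_eq_true, h.col]
    rcases h.nb_cases c k s with e | e
    · rw [e, h.col, Int.even_add_one]
    · rw [e, h.col, Int.even_sub_one]
  · obtain ⟨c, k, rfl⟩ := h.surj a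
    have h2 : 2 ≤ n c := by have := h3 c; omega
    rcases h.GCMdl_two c k with ⟨h₁, h₂⟩ | ⟨h₁, h₂⟩
    · rw [h₁, h₂]
      exact fun e => GCMdl_not_dvd h2 (Or.inr (by ring)) ((h.inj _ _ _ _).mp e).2
    · rw [h₁, h₂]
      exact fun e => GCMdl_not_dvd h2 (Or.inl (by ring)) ((h.inj _ _ _ _).mp e).2
  · obtain ⟨c, k, rfl⟩ := h.surj a
    rcases h.nb_cases c k s with e | e
    · obtain ⟨s', -, h₂⟩ := h.nb c (k + 1)
      exact ⟨!s', by rw [e, h₂, add_sub_cancel_right]⟩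
    · obtain ⟨s', h₁, -⟩ := h.nb c (k - 1)
      exact ⟨s', by rw [e, h₁, sub_add_cancel]⟩
  · obtain ⟨c, k, rfl⟩ := h.surj a
    rcases h.nb_cases c k s with e | e
    · rw [e, h.arc, h.arc']
    · have := h.arc c (k - 1)
      rw [sub_add_cancel] at this
      rw [e, h.arc_pred, this]
  · obtain ⟨c, k, rfl⟩ := h.surj a
    rcases h.nb_cases c k s with e | e
    · rw [e, h.arc, h.pt, h.pt]
      exact hγ.isArc c (h.GCMdl_step c k).1 (h.GCMdl_step c k).2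
    · rw [e, h.arc_pred, h.pt, h.pt]
      exact (hγ.isArc c (h.GCMdl_step' c k).1 (h.GCMdl_step' c k).2).symm
  · obtain ⟨i, hi⟩ := hj.sep a b hab
    exact ⟨i, hi.imp And.left And.left⟩
  · obtain ⟨i, s, hi, hm, -⟩ := hj.mono a
    exact ⟨i, s, hi, hm⟩

theorem three_le (h : Mdl γ n τ C ix) (hC : C.Valid fa) (c : κ) : 3 ≤ n c := by
  have h0 := h.pc.pos c
  by_contra h3
  obtain h1 | h2 : n c = 1 ∨ n c = 2 := by omega
  · have e : ix c (0 + 1) = ix c (0 - 1) := (h.inj _ _ _ _).mpr ⟨rfl, -1, by rw [h1]; norm_num⟩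
    refine hC.nb_ne (ix c 0) ?_
    rcases h.GCMdl_two c 0 with ⟨h₁, h₂⟩ | ⟨h₁, h₂⟩
    · rw [h₁, h₂, e]
    · rw [h₁, h₂, e]
  · have e : ix c (0 - 1 - 1) = ix c (0 + 1 + 1) :=
      (h.inj _ _ _ _).mpr ⟨rfl, 1, by rw [h2]; norm_num⟩
    have ne : ix c (0 + 1 + 1) ≠ ix c 0 := fun e' =>
      GCMdl_not_dvd h2.ge (Or.inr (by ring)) ((h.inj _ _ _ _).mp e').2
    obtain ⟨i, s, -, hm⟩ := hC.mono (ix c 0)
    obtain ⟨s₀, p₁, p₂⟩ := h.nb c 0
    obtain ⟨s₁, q₁, -⟩ := h.nb c (0 + 1)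
    obtain ⟨s₂, -, q₂⟩ := h.nb c (0 - 1)
    rw [e] at q₂
    have a₁ := hm.lo₁
    have a₂ := hm.hi₁
    obtain rfl | rfl : s = s₀ ∨ s = !s₀ := by cases s <;> cases s₀ <;> simp
    · have a₃ := hm.lo₂ s₁
      have a₄ := hm.hi₂ (!s₂)
      rw [p₁] at a₁ a₃
      rw [p₂] at a₂ a₄
      rw [q₁] at a₃
      rw [q₂] at a₄
      linarith [a₃ ne, a₄ ne]
    · have a₃ := hm.lo₂ (!s₂)
      have a₄ := hm.hi₂ s₁
      rw [Bool.not_not] at a₂ a₄
      rw [p₂] at a₁ a₃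
      rw [p₁] at a₂ a₄
      rw [q₂] at a₃
      rw [q₁] at a₄
      linarith [a₃ ne, a₄ ne]

theorem pv (h : Mdl γ n τ C ix) (hγ : IsU γ) (hC : C.Valid fa) : PV fa γ n τ := by
  refine ⟨fun c k c' k' hf => ?_, fun c k => ?_⟩
  · have := hC.sep _ _ ((h.far_iff c k c' k').mpr hf)
    rwa [h.star, h.star] at this
  · obtain ⟨i, s, hi, hm⟩ := hC.mono (ix c k)
    refine ⟨i, hi, ?_⟩
    have h3 := h.three_le hC c
    have h₁ := hγ.injOn c (h.pc.lt_add_one c (k := k - 2) (l := k + 2) (by omega))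
    have h₂ := hm.inj
    rw [h.win] at h₂
    have hc : Continuous fun t => γ c t i :=
      (EuclideanSpace.proj i).continuous.comp (hγ.smooth c).continuous
    exact hc.continuousOn.strictMonoOn_of_injOn_Icc' ((h.pc.mono c).monotone (by omega))
      (h₂.comp h₁ (mapsTo_image _ _))

theorem margin (h : Mdl γ n τ C ix) {d : ℝ} (hm : PM d γ n τ) : C.Margin d := by
  intro a b hab
  obtain ⟨c, k, rfl⟩ := h.surj a
  obtain ⟨c', k', rfl⟩ := h.surj b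
  rw [h.star, h.star]
  exact hm _ _ _ _ ((h.far_iff _ _ _ _).mp hab)

theorem lab_iff (h : Mdl γ n τ C ix) (hγ : IsU γ) (h2 : ∀ c, 2 ≤ n c) :
    C.Lab γ dl ↔ ∀ c k, dl (ix c k) (ix c (k + 1)) = ⟨c, true⟩ ∧
      dl (ix c (k + 1)) (ix c k) = ⟨c, false⟩ := by
  constructor
  · intro hl c k
    have hs : τ c k < τ c (k + 1) ∧ τ c (k + 1) < τ c k + 1 :=
      ⟨h.pc.mono c (by omega), h.pc.lt_add_one c (by have := h2 c; omega)⟩
    constructor
    · obtain ⟨s, e, -⟩ := h.nb c k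
      obtain ⟨c', t, t', h₁, h₂, h₃, h₄⟩ := hl (ix c k) s
      rw [e, h.arc] at h₃
      rw [e, h.pt, h.pt] at h₄
      rcases h₄ with ⟨p₁, -, p₃⟩ | ⟨p₁, p₂, -⟩
      · rw [p₃, (hγ.inj _ _ _ _ p₁).1]
      · exact absurd h₃ (hγ.not_flip hs.1 hs.2 h₁ h₂ p₁ p₂)
    · obtain ⟨s, -, e⟩ := h.nb c (k + 1)
      rw [add_sub_cancel_right] at e
      obtain ⟨c', t, t', h₁, h₂, h₃, h₄⟩ := hl (ix c (k + 1)) (!s)
      rw [e, h.arc'] at h₃
      rw [e, h.pt, h.pt] at h₄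
      rcases h₄ with ⟨p₁, p₂, -⟩ | ⟨p₁, -, p₃⟩
      · exact absurd h₃ (hγ.not_flip hs.1 hs.2 h₁ h₂ p₂ p₁)
      · rw [p₃, (hγ.inj _ _ _ _ p₁).1]
  · intro hl a s
    obtain ⟨c, k, rfl⟩ := h.surj a
    rcases h.nb_cases c k s with e | e
    · rw [e]
      exact ⟨c, _, _, (h.GCMdl_step c k).1, (h.GCMdl_step c k).2, h.arc c k,
        Or.inl ⟨h.pt _ _, h.pt _ _, (hl c k).1⟩⟩
    · have := (hl c (k - 1)).2
      rw [sub_add_cancel] at this
      rw [e]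
      exact ⟨c, _, _, (h.GCMdl_step' c k).1, (h.GCMdl_step' c k).2, h.arc_pred c k,
        Or.inr ⟨h.pt _ _, h.pt _ _, this⟩⟩

end Mdl

end Pool.Agent.P.MP_ac4909_gt.B
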