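import Pool.Agent.P.MP_ac4909_gt.B.GC_Mdl

/-! Layer G, core: the words of subdivisions given by parameters. -/

namespace Pool.Agent.P.MP_ac4909_gt.B

open scoped ContDiff
open Set Filter Topology

variable {κ N : Type} {fa : Bool} {γ γ' : κ → ℝ → E3} {n : κ → ℕ} {τ τ' : κ → ℤ → ℝ}
  {C : Conf N} {dl : N → N → Arc κ} {w w' : List (Sl (Arc κ))}

theorem GCStruct_sum (f : ℤ → ℝ) (x : ℝ) :
    ∃ T : ℤ → ℝ, T 0 = x ∧ ∀ k, T (k + 1) = T k + f k := by
  refine ⟨fun k => x + ∑ j ∈ Finset.range k.toNat, f j -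
    ∑ j ∈ Finset.range (-k).toNat, f (-(j + 1)), by simp, fun k => ?_⟩
  rcases le_or_gt 0 k with h | h
  · obtain ⟨m, rfl⟩ := Int.eq_ofNat_of_zero_le h
    have e1 : ((m : ℤ) + 1).toNat = m + 1 := by omega
    have e2 : (-((m : ℤ) + 1)).toNat = 0 := by omega
    have e3 : (-(m : ℤ)).toNat = 0 := by omega
    simp only [e1, e2, e3, Int.toNat_natCast, Finset.sum_range_succ, Finset.sum_range_zero]
    ring
  · obtain ⟨m, rfl⟩ : ∃ m : ℕ, k = -((m : ℤ) + 1) := ⟨(-k - 1).toNat, by omega⟩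
    have e1 : (-((m : ℤ) + 1) + 1).toNat = 0 := by omega
    have e2 : (-(-((m : ℤ) + 1) + 1)).toNat = m := by omega
    have e3 : (-((m : ℤ) + 1)).toNat = 0 := by omega
    have e4 : (-(-((m : ℤ) + 1))).toNat = m + 1 := by omega
    simp only [e1, e2, e3, e4, Finset.sum_range_succ, Finset.sum_range_zero]
    ring

theorem GCStruct_nx (hγ : IsU γ) (hG : (C.grid dl).OK) (hl : C.Lab γ dl) :
    ∃ (nx : Equiv.Perm N) (len : N → ℝ),
      (∀ a, ∃ s, C.nb a s = nx a ∧ C.nb a (!s) = nx.symm a) ∧ (∀ a, 0 < len a ∧ len a < 1) ∧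
      ∀ a, ∃ c u, C.pt a = γ c u ∧ C.pt (nx a) = γ c (u + len a) ∧
        C.arc a (nx a) = γ c '' Icc u (u + len a) ∧ C.arc (nx a) a = γ c '' Icc u (u + len a) := by
  have hrev : ∀ a s, dl (C.nb a s) a = Rev.rev (dl a (C.nb a s)) := hG.dl_rev
  have hadj : ∀ a s, ∃ s', C.nb (C.nb a s) s' = a := hG.adj_symm
  have hup : ∀ a s, (dl (C.nb a s) a).up = !(dl a (C.nb a s)).up := fun a s => by
    rw [hrev]; rfl
  have hthru : ∀ a, (dl a (C.nb a true)).up = !(dl a (C.nb a false)).up := fun a => by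
    have h1 : dl (C.nb a false) a = dl a (C.nb a true) := hG.dl_thru a
    rw [← h1, hup]
  obtain ⟨sd, hsd⟩ : ∃ sd : N → Bool, ∀ a s, (dl a (C.nb a s)).up = true ↔ s = sd a := by
    refine ⟨fun a => !(dl a (C.nb a false)).up, fun a s => ?_⟩
    cases s
    · cases h : (dl a (C.nb a false)).up <;> simp [h]
    · rw [hthru]
      cases h : (dl a (C.nb a false)).up <;> simp [h]
  have h1 : ∀ a, C.nb (C.nb a (sd a)) (!sd (C.nb a (sd a))) = a := by
    intro a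
    obtain ⟨s', hs'⟩ := hadj a (sd a)
    have e1 := hup a (sd a)
    rw [(hsd a _).2 rfl] at e1
    have e2 := hsd (C.nb a (sd a)) s'
    rw [hs', e1] at e2
    have e3 : s' = !sd (C.nb a (sd a)) := by
      rw [Bool.eq_not]
      exact fun h => by simpa using e2.2 h
    rw [← e3, hs']
  have h2 : ∀ a, C.nb (C.nb a (!sd a)) (sd (C.nb a (!sd a))) = a := by
    intro a
    obtain ⟨s', hs'⟩ := hadj a (!sd a)
    have e1 := hup a (!sd a)
    have e0 : (dl a (C.nb a (!sd a))).up = false := by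
      rw [← Bool.not_eq_true, hsd]
      simp
    rw [e0] at e1
    have e2 := hsd (C.nb a (!sd a)) s'
    rw [hs', e1] at e2
    rw [← e2.1 rfl, hs']
  have key : ∀ a, ∃ l : ℝ, (0 < l ∧ l < 1) ∧ ∃ c u, C.pt a = γ c u ∧
      C.pt (C.nb a (sd a)) = γ c (u + l) ∧ C.arc a (C.nb a (sd a)) = γ c '' Icc u (u + l) ∧
      C.arc (C.nb a (sd a)) a = γ c '' Icc u (u + l) := by
    intro a
    have e0 := (hsd a _).2 rfl
    obtain ⟨c, t, t', h₁, h₂, ha, h | h⟩ := hl a (sd a)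
    · obtain ⟨s', hs'⟩ := hadj a (sd a)
      obtain ⟨c', u, u', h₃, h₄, ha', h'⟩ := hl (C.nb a (sd a)) s'
      rw [hs'] at ha' h'
      have e1 := hup a (sd a)
      rw [e0] at e1
      rcases h' with h' | h'
      · rw [h'.2.2] at e1
        simp at e1
      · obtain ⟨rfl, j, rfl, rfl⟩ := hγ.same_seg h₁ h₂ h₃ h₄ (h.1.symm.trans h'.2.1)
          (h.2.1.symm.trans h'.1)
        rw [image_Icc_int (hγ.per c)] at ha'
        refine ⟨t' - t, ⟨by linarith, by linarith⟩, c, t, h.1, ?_⟩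
        rw [add_sub_cancel]
        exact ⟨h.2.1, ha, ha'⟩
    · rw [h.2.2] at e0
      simp at e0
  choose len hlen hk using key
  exact ⟨⟨fun a => C.nb a (sd a), fun a => C.nb a (!sd a), h1, h2⟩, len,
    fun a => ⟨sd a, rfl, rfl⟩, hlen, hk⟩

theorem GCStruct_hit (hγ : IsU γ) {a a' b : N} {c : κ} {u l t : ℝ} (hl : l < 1)
    (h₀ : C.pt a = γ c u) (h₁ : C.pt a' = γ c (u + l)) (hb : C.pt b = γ c t) (ht : u ≤ t)
    (ht' : t < u + l) (h : b = a ∨ b = a') : b = a ∧ t = u := by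
  have hi := hγ.injOn c (t := u) (t' := u + l) (by linarith)
  rcases h with rfl | rfl
  · exact ⟨rfl, hi ⟨ht, ht'.le⟩ ⟨le_rfl, by linarith⟩ (hb.symm.trans h₀)⟩
  · exact absurd (hi ⟨ht, ht'.le⟩ ⟨by linarith, le_rfl⟩ (hb.symm.trans h₁)) ht'.ne

theorem GCStruct_comp [Fintype N] (hγ : IsU γ) {nx : Equiv.Perm N} {len : N → ℝ}
    (hcol : ∀ a, C.col (nx a) = !C.col a) (hlen : ∀ a, 0 < len a ∧ len a < 1)
    (hstep : ∀ a c u, C.pt a = γ c u → C.pt (nx a) = γ c (u + len a) ∧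
      C.arc a (nx a) = γ c '' Icc u (u + len a))
    (hback : ∀ a c u, C.pt (nx a) = γ c (u + len a) → C.pt a = γ c u)
    (hmem : ∀ a b, C.pt b ∈ C.arc a (nx a) → b = a ∨ b = nx a) {c : κ} {a₀ : N} {t₀ : ℝ}
    (h0 : C.pt a₀ = γ c t₀) (hc : C.col a₀ = true) :
    ∃ (m : ℕ) (T : ℤ → ℝ), StrictMono T ∧ (∀ k, T (k + 2 * m) = T k + 1) ∧
      (∀ k, T (k + 1) = T k + len ((nx ^ k) a₀)) ∧ (∀ k, C.pt ((nx ^ k) a₀) = γ c (T k)) ∧
      (∀ k : ℤ, (nx ^ k) a₀ = a₀ ↔ (2 * m : ℤ) ∣ k) ∧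
      ∀ k : ℤ, C.col ((nx ^ k) a₀) = true ↔ Even k := by
  classical
  have hs : ∀ k : ℤ, (nx ^ (k + 1)) a₀ = nx ((nx ^ k) a₀) := fun k => by
    rw [add_comm, zpow_one_add]; rfl
  obtain ⟨T, hT0, hT⟩ := GCStruct_sum (fun k => len ((nx ^ k) a₀)) t₀
  have hmono : StrictMono T := strictMono_int_of_lt_succ fun k => by
    rw [hT]; linarith [(hlen ((nx ^ k) a₀)).1]
  have hpt : ∀ k : ℤ, C.pt ((nx ^ k) a₀) = γ c (T k) := by
    intro k
    induction k using Int.induction_on with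
    | zero => rw [hT0]; exact h0
    | succ k ih => rw [hs, hT]; exact (hstep _ _ _ ih).1
    | pred k ih =>
      refine hback _ _ _ ?_
      rw [← hs, ← hT, sub_add_cancel]
      exact ih
  have hcl : ∀ k : ℤ, C.col ((nx ^ k) a₀) = true ↔ Even k := by
    intro k
    induction k using Int.induction_on with
    | zero => simpa using hc
    | succ k ih => rw [hs, hcol, Int.even_add_one, ← ih]; simp
    | pred k ih =>
      have e := hcol ((nx ^ (-(k : ℤ) - 1)) a₀)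
      rw [← hs, sub_add_cancel] at e
      rw [Int.even_sub_one, ← ih, e]
      simp
  have hp : 0 < MulAction.period nx a₀ := MulAction.period_pos_of_orderOf_pos (orderOf_pos nx) a₀
  have hd : ∀ k : ℤ, (nx ^ k) a₀ = a₀ ↔ (MulAction.period nx a₀ : ℤ) ∣ k := fun k =>
    MulAction.zpow_smul_eq_iff_period_dvd (j := k) (g := nx) (a := a₀)
  generalize MulAction.period nx a₀ = p at hp hd
  have hpa : (nx ^ (p : ℤ)) a₀ = a₀ := (hd p).2 dvd_rfl
  obtain ⟨m, hm⟩ : Even (p : ℤ) := (hcl p).1 (by rw [hpa]; exact hc)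
  have hix : ∀ k : ℤ, (nx ^ (k + p)) a₀ = (nx ^ k) a₀ := fun k => by
    rw [zpow_add, Equiv.Perm.mul_apply, hpa]
  have hL : ∀ k : ℤ, T (k + p) - T k = T p - T 0 := by
    intro k
    induction k using Int.induction_on with
    | zero => rw [zero_add]
    | succ k ih => rw [add_right_comm, hT, hT, hix, ← ih]; ring
    | pred k ih =>
      have e1 := hT (-(k : ℤ) - 1 + p)
      have e2 := hT (-(k : ℤ) - 1)
      rw [add_right_comm, hix] at e1
      rw [sub_add_cancel] at e1 e2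
      linarith
  obtain ⟨-, j, hj⟩ := hγ.inj c c (T 0) (T p) (by rw [← hpt, ← hpt, hpa]; rfl)
  have hj0 : 0 < j := by
    have := hmono (show (0 : ℤ) < p by omega)
    exact_mod_cast (show (0 : ℝ) < j by linarith)
  have hj1 : j = 1 := by
    by_contra hne
    have h2 : (2 : ℝ) ≤ j := by exact_mod_cast (show 2 ≤ j by omega)
    obtain ⟨k, hk, hk'⟩ := Int.exists_greatest_of_bdd (P := fun k => T k ≤ T 0 + 1)
      ⟨p, fun k hk => (hmono.lt_iff_lt.1 (by linarith)).le⟩ ⟨0, by linarith⟩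
    have hk0 : 0 ≤ k := hk' 0 (by linarith)
    have hkp : k < p := hmono.lt_iff_lt.1 (by linarith)
    have hk1 : T 0 + 1 < T k + len ((nx ^ k) a₀) := by
      rw [← hT]
      exact not_le.1 fun h => by have := hk' _ h; omega
    have hb : C.pt a₀ = γ c (T 0 + 1) := by rw [hγ.per, hT0]; exact h0
    have hst := hstep _ _ _ (hpt k)
    obtain ⟨e1, e2⟩ := GCStruct_hit hγ (hlen _).2 (hpt k) hst.1 hb hk hk1
      (hmem _ _ (by rw [hst.2, hb]; exact ⟨_, ⟨hk, hk1.le⟩, rfl⟩))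
    obtain rfl : k = 0 := Int.eq_zero_of_dvd_of_nonneg_of_lt hk0 hkp ((hd k).1 e1.symm)
    linarith
  have hm' : (2 * (m.toNat : ℕ) : ℤ) = p := by omega
  refine ⟨m.toNat, T, hmono, fun k => ?_, hT, hpt, by rw [hm']; exact hd, hcl⟩
  have := hL k
  rw [hm']
  rw [hj1, Int.cast_one] at hj
  linarith

/-- every labelled finite subdivision is given by parameters -/
theorem exists_mdl_of_lab [Fintype N] (hγ : IsU γ) (hG : (C.grid dl).OK) (hl : C.Lab γ dl)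
    (hinj : Function.Injective C.pt)
    (hmem : ∀ a s b, C.pt b ∈ C.arc a (C.nb a s) → b = a ∨ b = C.nb a s)
    (hne : ∀ c, ∃ a t, C.pt a = γ c t) : ∃ n τ ix, Mdl γ n τ C ix := by
  obtain ⟨nx, len, hnb, hlen, hk⟩ := GCStruct_nx hγ hG hl
  have hcol : ∀ a, C.col (nx a) = !C.col a := fun a => by
    obtain ⟨s, hs, -⟩ := hnb a
    rw [← hs]
    exact hG.col_nb a s
  have hstep : ∀ a c u, C.pt a = γ c u → C.pt (nx a) = γ c (u + len a) ∧
      C.arc a (nx a) = γ c '' Icc u (u + len a) ∧ C.arc (nx a) a = γ c '' Icc u (u + len a) := by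
    intro a c u h
    obtain ⟨c', u', h₀, h₁⟩ := hk a
    obtain ⟨rfl, j, rfl⟩ := hγ.inj _ _ _ _ (h₀.symm.trans h)
    rwa [add_right_comm, per_int (hγ.per _), image_Icc_int (hγ.per _)]
  have hback : ∀ a c u, C.pt (nx a) = γ c (u + len a) → C.pt a = γ c u := by
    intro a c u h
    obtain ⟨c', u', h₀, h₁, -⟩ := hk a
    obtain ⟨rfl, j, e⟩ := hγ.inj _ _ _ _ (h₁.symm.trans h)
    rw [show u = u' + j by linarith, per_int (hγ.per _), h₀]
  have hmem' : ∀ a b, C.pt b ∈ C.arc a (nx a) → b = a ∨ b = nx a := fun a b => by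
    obtain ⟨s, hs, -⟩ := hnb a
    rw [← hs]
    exact hmem a s b
  have hbase : ∀ c, ∃ a t, C.pt a = γ c t ∧ C.col a = true := fun c => by
    obtain ⟨a, t, h⟩ := hne c
    cases hc : C.col a
    · exact ⟨nx a, _, (hstep a c t h).1, by rw [hcol, hc]; rfl⟩
    · exact ⟨a, t, h, hc⟩
  choose a₀ t₀ h0 hc using hbase
  choose m T hmono hper hT hpt hd hcl using fun c => GCStruct_comp hγ hcol hlen
    (fun a c u h => ⟨(hstep a c u h).1, (hstep a c u h).2.1⟩) hback hmem' (h0 c) (hc c)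
  have hpc : PC m T := ⟨hmono, hper⟩
  have hs : ∀ (k : ℤ) a, (nx ^ (k + 1)) a = nx ((nx ^ k) a) := fun k a => by
    rw [add_comm, zpow_one_add]; rfl
  refine ⟨m, T, fun c k => (nx ^ k) (a₀ c), hpc, fun a => ?_, fun c k c' k' => ?_, hcl,
    fun c k => ?_, hpt, fun c k => ?_, fun c k => ?_⟩
  · obtain ⟨c, t, h, -⟩ := hk a
    obtain ⟨k, h₁, h₂⟩ := hpc.exists_index c t
    have hst := hstep _ _ _ (hpt c k)
    rw [hT] at h₂
    exact ⟨c, k, (GCStruct_hit hγ (hlen _).2 (hpt c k) hst.1 h h₁ h₂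
      (hmem' _ _ (by rw [hst.2.1, h]; exact ⟨_, ⟨h₁, h₂.le⟩, rfl⟩))).1.symm⟩
  · have e : ∀ a, (nx ^ k') a = (nx ^ k) ((nx ^ (k' - k)) a) := fun a => by
      rw [← Equiv.Perm.mul_apply, ← zpow_add, add_sub_cancel]
    constructor
    · intro h
      obtain ⟨rfl, -⟩ := hγ.inj c c' _ _ (by rw [← hpt c k, ← hpt c' k']; exact congrArg _ h)
      rw [e] at h
      exact ⟨rfl, (hd c _).1 ((nx ^ k).injective h).symm⟩
    · rintro ⟨rfl, h⟩
      rw [e, (hd c _).2 h]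
  · obtain ⟨s, h₁, h₂⟩ := hnb ((nx ^ k) (a₀ c))
    refine ⟨s, by rw [h₁, hs], ?_⟩
    rw [h₂, Equiv.symm_apply_eq, ← hs, sub_add_cancel]
  · rw [hs, seg, hT]
    exact (hstep _ _ _ (hpt c k)).2.1
  · rw [hs, seg, hT]
    exact (hstep _ _ _ (hpt c k)).2.2

theorem GCStruct_hne {dl : N → N → Arc κ} (hγ : IsU γ) (hs : C.supp = trace γ) (hl : C.Lab γ dl)
    (c : κ) : ∃ a t, C.pt a = γ c t := by
  have h : γ c 0 ∈ C.supp := hs ▸ mem_iUnion.2 ⟨c, 0, rfl⟩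
  obtain ⟨a, ha⟩ := mem_iUnion.1 h
  obtain ⟨s, hs⟩ : ∃ s, γ c 0 ∈ C.arc a (C.nb a s) := ha.elim (fun h => ⟨_, h⟩) fun h => ⟨_, h⟩
  obtain ⟨c', t, t', -, -, e, h2⟩ := hl a s
  obtain ⟨u, -, hu⟩ := e ▸ hs
  obtain ⟨rfl, -⟩ := hγ.inj _ _ _ _ hu
  exact h2.elim (fun h => ⟨a, _, h.1⟩) fun h => ⟨a, _, h.1⟩

theorem HasWord.mw (hγ : IsU γ) (h : HasWord fa γ w) : ∃ n τ, MW fa γ n τ w := by
  obtain ⟨N, _, _, C, dl, R, hC, hs, hl, hR, rfl⟩ := h
  obtain ⟨n, τ, ix, hM⟩ := exists_mdl_of_lab hγ (hl.ok' hγ hC) hl hC.pt_inj'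
    (fun _ _ _ => hC.mem_arc) (GCStruct_hne hγ hs hl)
  exact ⟨n, τ, N, inferInstance, inferInstance, C, dl, R, ix, hM, hC, hl, hR, rfl⟩
theorem MW.hasWord (h : MW fa γ n τ w) : HasWord fa γ w := by
  obtain ⟨N, _, _, C, dl, R, ix, hM, hC, hl, hR, rfl⟩ := h
  exact ⟨N, inferInstance, inferInstance, C, dl, R, hC, hM.supp, hl, hR, rfl⟩
theorem MW.pc (h : MW fa γ n τ w) : PC n τ := by
  obtain ⟨N, _, _, C, dl, R, ix, hM, -⟩ := h
  exact hM.pc
theorem MW.pv (hγ : IsU γ) (h : MW fa γ n τ w) : PV fa γ n τ := by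
  obtain ⟨N, _, _, C, dl, R, ix, hM, hC, -⟩ := h
  exact hM.pv hγ hC
theorem exists_mw [Fintype κ] (hγ : IsU γ) (hc : PC n τ) (hv : PV fa γ n τ) :
    ∃ w, MW fa γ n τ w := by
  classical
  obtain ⟨N, _, C, ix, hM⟩ := exists_mdl hγ.per hc fun c =>
    le_trans (by norm_num) (hv.three_le hc hγ.per c)
  have hC := hM.valid hγ hv
  obtain ⟨dl, hl⟩ := exists_lab' hγ hC hM.supp
  obtain ⟨R, hR⟩ := exists_canon' C
  exact ⟨_, N, inferInstance, inferInstance, C, dl, R, ix, hM, hC, hl, hR.good' hC, rfl⟩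
theorem MW.eqv_self (hγ : IsU γ) (h : MW fa γ n τ w) (h' : MW fa γ n τ w') :
    Eqv fa [] [] w w' := by
  obtain ⟨N, _, _, C, dl, R, ix, hM, hC, hl, hR, rfl⟩ := h
  obtain ⟨N', _, _, C', dl', R', ix', hM', hC', hl', hR', rfl⟩ := h'
  choose cp kp hp using hM.surj
  obtain ⟨φ, hφ⟩ : ∃ φ : N → N', ∀ c k, φ (ix c k) = ix' c k :=
    ⟨fun a => ix' (cp a) (kp a), fun c k =>
      (hM'.inj _ _ _ _).2 ((hM.inj _ _ _ _).1 (hp (ix c k)))⟩
  have hinj : Function.Injective φ := by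
    intro a b h
    obtain ⟨c, k, rfl⟩ := hM.surj a
    obtain ⟨c', k', rfl⟩ := hM.surj b
    rw [hφ, hφ] at h
    exact (hM.inj _ _ _ _).2 ((hM'.inj _ _ _ _).1 h)
  have hsurj : ∀ a', ∃ a, φ a = a' := fun a' => by
    obtain ⟨c, k, rfl⟩ := hM'.surj a'
    exact ⟨_, hφ c k⟩
  have hpt : ∀ a, C'.pt (φ a) = C.pt a := fun a => by
    obtain ⟨c, k, rfl⟩ := hM.surj a
    rw [hφ, hM.pt, hM'.pt]
  have hcol : ∀ a, C'.col (φ a) = C.col a := fun a => by
    obtain ⟨c, k, rfl⟩ := hM.surj a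
    rw [hφ, Bool.eq_iff_iff, hM.col, hM'.col]
  have h2 : ∀ c, 2 ≤ n c := fun c => le_trans (by norm_num) (hM.three_le hC c)
  have hd := (hM.lab_iff hγ h2).1 hl
  have hd' := (hM'.lab_iff hγ h2).1 hl'
  have hG := hl.ok' hγ hC
  have hG' := hl'.ok' hγ hC'
  obtain ⟨R₀, hR₀⟩ := exists_canon' C
  have hR₁ : C'.Canon ⟨R₀.X.map φ, R₀.Y.map φ, fun a => C'.pt a 2⟩ := by
    refine ⟨⟨hR₀.ok.nodupX.map hinj, hR₀.ok.nodupY.map hinj, fun a => ?_, fun a => ?_⟩,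
      fun _ => rfl, ?_, ?_⟩
    · obtain ⟨a, rfl⟩ := hsurj a
      rw [List.mem_map_of_injective hinj, hR₀.ok.memX, hcol]
    · obtain ⟨a, rfl⟩ := hsurj a
      rw [List.mem_map_of_injective hinj, hR₀.ok.memY, hcol]
    · simpa only [List.pairwise_map, hpt] using hR₀.sortX
    · simpa only [List.pairwise_map, hpt] using hR₀.sortY
  have e := Grid.word_iso (R := R₀) (R' := ⟨R₀.X.map φ, R₀.Y.map φ, fun a => C'.pt a 2⟩) hG hG'
    φ hinj id (fun _ => rfl) ?_ ?_ rfl rfl fun a b => by simp only [hR₀.z_eq, hpt]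
  · have e' : ∀ s : Sl (Arc κ), Sl.map id s = s := by
      rintro ⟨l, g, r⟩
      cases g <;> simp [Sl.map, Gen.map]
    rw [List.map_congr_left (g := id) fun s _ => e' s, List.map_id] at e
    exact (hR.eqv_canon hC hR₀ hG).trans (e ▸ (hR'.eqv_canon hC' hR₁ hG').symm)
  · intro a s
    obtain ⟨c, k, rfl⟩ := hM.surj a
    obtain ⟨s', h₁, h₂⟩ := hM'.nb c k
    rcases hM.nb_cases c k s with h | h
    · exact ⟨s', by simp only [Conf.grid, h, hφ, h₁]⟩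
    · exact ⟨!s', by simp only [Conf.grid, h, hφ, h₂]⟩
  · intro a s
    obtain ⟨c, k, rfl⟩ := hM.surj a
    rcases hM.nb_cases c k s with h | h
    · simp only [Conf.grid, h, hφ, id, (hd c k).1, (hd' c k).1]
    · have e₁ := (hd c (k - 1)).2
      have e₂ := (hd' c (k - 1)).2
      rw [sub_add_cancel] at e₁ e₂
      simp only [Conf.grid, h, hφ, id, e₁, e₂]
theorem MW.eqv (hγ : IsU γ) (hγ' : IsU γ') (hj : PJ fa n γ τ γ' τ') (h : MW fa γ n τ w)
    (h' : MW fa γ' n τ' w') : Eqv fa [] [] w w' := by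
  obtain ⟨N, _, _, C, dl, R, ix, hM, hC, hl, hR, rfl⟩ := h
  have h2 : ∀ c, 2 ≤ n c := fun c => le_trans (by norm_num) (hM.three_le hC c)
  obtain ⟨C', hc, hn, hM'⟩ := hM.exists_re hγ'.per h'.pc h2
  have hC' := hM'.valid hγ' hj.right
  have hl' : C'.Lab γ' dl := (hM'.lab_iff hγ' h2).2 ((hM.lab_iff hγ h2).1 hl)
  have hG := hl.ok' hγ hC
  obtain ⟨R₀, hR₀⟩ := exists_canon' C
  obtain ⟨R₁, hR₁⟩ := exists_canon' C'
  exact ((hR.eqv_canon hC hR₀ hG).trans ((hM.joint hM' hc hn hj).eqv hC hC' hR₀ hR₁ hG)).trans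
    (MW.eqv_self hγ'
      ⟨N, inferInstance, inferInstance, C', dl, R₁, ix, hM', hC', hl', hR₁.good' hC', rfl⟩ h')
theorem HasWord.isFramedLink' (hγ : IsU γ) (h : HasWord fa γ w) : IsFramedLink w := by
  obtain ⟨n, τ, N, _, _, C, dl, R, ix, hM, hC, hl, hR, rfl⟩ := h.mw hγ
  have hd := (hM.lab_iff hγ fun c => le_trans (by norm_num) (hM.three_le hC c)).1 hl
  have hname : ∀ c k, (dl (ix c k) (C.nb (ix c k) false)).name = c := by
    intro c k
    rcases hM.nb_cases c k false with h | h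
    · rw [h, (hd c k).1]
    · have e := (hd c (k - 1)).2
      rw [sub_add_cancel] at e
      rw [h, e]
  refine Grid.isFramedLink_word (hl.ok' hγ hC) hR.ok (fun c => ⟨ix c 0, hname c 0⟩) fun a b h => ?_
  obtain ⟨c, k, rfl⟩ := hM.surj a
  obtain ⟨c', k', rfl⟩ := hM.surj b
  obtain rfl : c = c' := (hname c k).symm.trans (h.trans (hname c' k'))
  obtain ⟨j, rfl⟩ : ∃ j, k' = k + j := ⟨k' - k, by ring⟩
  clear h
  induction j using Int.induction_on with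
  | zero => rw [add_zero]
  | succ j ih =>
    obtain ⟨s, h₁, -⟩ := hM.nb c (k + j)
    exact ih.tail ⟨s, by rw [← add_assoc]; exact h₁⟩
  | pred j ih =>
    obtain ⟨s, -, h₂⟩ := hM.nb c (k + -j)
    exact ih.tail ⟨!s, by rw [← add_sub_assoc]; exact h₂⟩

end Pool.Agent.P.MP_ac4909_gt.B
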