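import Pool.Agent.P.MP_ac4909_gt.B.GC_PC

/-! Layer G, core: uniform estimates and fine subdivisions. -/

namespace Pool.Agent.P.MP_ac4909_gt.B

open scoped ContDiff
open Set Filter Topology

variable {κ : Type} {fa : Bool} {Γ : ℝ → κ → ℝ → E3}

theorem GCUnif_fin {ι : Type} [Finite ι] {P : ι → ℝ → Prop} (h : ∀ c, ∃ δ > 0, P c δ)
    (hm : ∀ c δ δ', δ' ≤ δ → P c δ → P c δ') : ∃ δ > 0, ∀ c, P c δ := by
  have h1 : ∀ c, ∀ᶠ δ in 𝓝[>] (0 : ℝ), P c δ := fun c => by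
    obtain ⟨δ, hδ, hP⟩ := h c
    filter_upwards [Ioc_mem_nhdsGT hδ] with δ' hδ' using hm c δ δ' hδ'.2 hP
  obtain ⟨δ, h2, h3⟩ := (eventually_mem_nhdsWithin.and (eventually_all.2 h1)).exists
  exact ⟨δ, h2, h3⟩

theorem GCUnif_fract {X : Type} {g : ℝ → X} (h : ∀ t, g (t + 1) = g t) (t : ℝ) (j : ℤ) :
    g (t - j) = g t := by
  rw [← per_int h (t - j) j, sub_add_cancel]

theorem GCUnif_uc {F : ℝ → ℝ → E3} (hF : Continuous fun p : ℝ × ℝ => F p.1 p.2)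
    (hp : ∀ s ∈ Icc (0 : ℝ) 1, ∀ t, F s (t + 1) = F s t) {ε : ℝ} (hε : 0 < ε) :
    ∃ δ > 0, ∀ s ∈ Icc (0 : ℝ) 1, ∀ s' ∈ Icc (0 : ℝ) 1, ∀ t t',
      |s - s'| < δ → |t - t'| < δ → dist (F s t) (F s' t') < ε := by
  obtain ⟨δ, hδ, h⟩ := Metric.uniformContinuousOn_iff.1
    ((isCompact_Icc.prod isCompact_Icc : IsCompact (Icc (0 : ℝ) 1 ×ˢ Icc (-1 : ℝ) 2)
      ).uniformContinuousOn_of_continuous hF.continuousOn) ε hε
  refine ⟨min δ 1, by positivity, fun s hs s' hs' t t' h1 h2 => ?_⟩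
  rw [lt_min_iff] at h1 h2
  have a1 := Int.floor_le t
  have a2 := Int.lt_floor_add_one t
  have a3 := abs_lt.1 h2.2
  rw [← GCUnif_fract (hp s hs) t ⌊t⌋, ← GCUnif_fract (hp s' hs') t' ⌊t⌋]
  refine h (s, t - ⌊t⌋) ⟨hs, by linarith, by linarith⟩ (s', t' - ⌊t⌋)
    ⟨hs', by linarith, by linarith⟩ ?_
  rw [Prod.dist_eq, Real.dist_eq, Real.dist_eq, sub_sub_sub_cancel_right]
  exact max_lt h1.1 h2.1

theorem GCUnif_mono {F : ℝ → ℝ → E3} (hF : ContDiff ℝ ∞ fun p : ℝ × ℝ => F p.1 p.2)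
    (hp : ∀ s ∈ Icc (0 : ℝ) 1, ∀ t, F s (t + 1) = F s t)
    (hD : ∀ s ∈ Icc (0 : ℝ) 1, ∀ t, ∃ i : Fin 3, (fa = true → i ≠ 2) ∧ deriv (F s) t i ≠ 0) :
    ∃ ρ > 0, ∀ s₀ ∈ Icc (0 : ℝ) 1, ∀ t₀, ∃ i : Fin 3, (fa = true → i ≠ 2) ∧
      ((∀ s ∈ Icc (0 : ℝ) 1, |s - s₀| < ρ →
        StrictMonoOn (fun t => F s t i) (Icc (t₀ - ρ) (t₀ + ρ))) ∨
      ∀ s ∈ Icc (0 : ℝ) 1, |s - s₀| < ρ →
        StrictAntiOn (fun t => F s t i) (Icc (t₀ - ρ) (t₀ + ρ))) := by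
  have hd : ∀ s t, HasDerivAt (F s) (fderiv ℝ (fun p : ℝ × ℝ => F p.1 p.2) (s, t) (0, 1)) t :=
    fun s t => (hF.differentiable (by simp) (s, t)).hasFDerivAt.comp_hasDerivAt t
      ((hasDerivAt_const t s).prodMk (hasDerivAt_id t))
  have hc : Continuous fun p : ℝ × ℝ => deriv (F p.1) p.2 := by
    simp only [(hd _ _).deriv]
    exact (hF.continuous_fderiv (by simp)).clm_apply continuous_const
  have hp' : ∀ s ∈ Icc (0 : ℝ) 1, ∀ t, deriv (F s) (t + 1) = deriv (F s) t := fun s hs t => by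
    rw [← deriv_comp_add_const, funext (hp s hs)]
  have hi : ∀ s t (i : Fin 3), HasDerivAt (fun t => F s t i) (deriv (F s) t i) t := fun s t i =>
    (EuclideanSpace.proj (𝕜 := ℝ) i).hasFDerivAt.comp_hasDerivAt t
      (hd s t).differentiableAt.hasDerivAt
  set I : Finset (Fin 3) := Finset.univ.filter fun i => fa = true → i ≠ 2 with hI
  have hc' : ∀ i : Fin 3, Continuous fun p : ℝ × ℝ => deriv (F p.1) p.2 i := fun i =>
    (EuclideanSpace.proj (𝕜 := ℝ) i).continuous.comp' hc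
  have hpos : ∀ p ∈ Icc (0 : ℝ) 1 ×ˢ Icc (0 : ℝ) 1, 0 < ∑ i ∈ I, |deriv (F p.1) p.2 i| := by
    intro p hp
    obtain ⟨i, h2, h3⟩ := hD p.1 hp.1 p.2
    exact Finset.sum_pos' (fun _ _ => abs_nonneg _)
      ⟨i, Finset.mem_filter.2 ⟨Finset.mem_univ _, h2⟩, abs_pos.2 h3⟩
  obtain ⟨m, hm, h1⟩ := (isCompact_Icc.prod isCompact_Icc).exists_forall_le'
    (continuous_finsetSum I fun i _ => (hc' i).abs).continuousOn hpos
  obtain ⟨δ, hδ, h2⟩ := GCUnif_uc (F := fun s t => deriv (F s) t) hc hp' (ε := m / 4)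
    (by positivity)
  refine ⟨δ / 2, by positivity, fun s₀ hs₀ t₀ => ?_⟩
  obtain ⟨i, h3, h4⟩ : ∃ i ∈ I, m / 4 ≤ |deriv (F s₀) t₀ i| := by
    by_contra hn
    push Not at hn
    have h3 : m ≤ ∑ i ∈ I, |deriv (F s₀) (t₀ - ⌊t₀⌋) i| :=
      h1 (s₀, t₀ - ⌊t₀⌋) ⟨hs₀, (Int.fract_nonneg t₀), (Int.fract_lt_one t₀).le⟩
    rw [GCUnif_fract (hp' s₀ hs₀)] at h3
    have h4 := Finset.sum_le_card_nsmul I _ _ fun i hi => (hn i hi).le
    have h5 : (I.card : ℝ) ≤ 3 := by exact_mod_cast (Finset.card_le_univ I).trans (by simp)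
    rw [nsmul_eq_mul] at h4
    nlinarith
  have h5 : ∀ s ∈ Icc (0 : ℝ) 1, |s - s₀| < δ / 2 → ∀ t ∈ interior (Icc (t₀ - δ / 2) (t₀ + δ / 2)),
      |deriv (F s) t i - deriv (F s₀) t₀ i| < m / 4 := fun s hs h6 t ht => by
    have h7 := interior_subset ht
    exact (PiLp.dist_apply_le _ _ i).trans_lt (h2 s hs s₀ hs₀ t t₀ (by linarith)
      (abs_lt.2 ⟨by linarith [h7.1], by linarith [h7.2]⟩))
  refine ⟨i, (Finset.mem_filter.1 h3).2, ?_⟩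
  rcases le_abs.1 h4 with h6 | h6
  · refine Or.inl fun s hs h7 => strictMonoOn_of_deriv_pos (convex_Icc _ _)
      (fun t _ => (hi s t i).continuousAt.continuousWithinAt) fun t ht => ?_
    rw [(hi s t i).deriv]
    linarith [(abs_lt.1 (h5 s hs h7 t ht)).1]
  · refine Or.inr fun s hs h7 => strictAntiOn_of_deriv_neg (convex_Icc _ _)
      (fun t _ => (hi s t i).continuousAt.continuousWithinAt) fun t ht => ?_
    rw [(hi s t i).deriv]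
    linarith [(abs_lt.1 (h5 s hs h7 t ht)).2]

theorem GCUnif_far (hs : ∀ c, Continuous fun p : ℝ × ℝ => Γ p.1 c p.2)
    (hU : ∀ s ∈ Icc (0 : ℝ) 1, IsU (Γ s)) {ρ : ℝ} (hρ : 0 < ρ) (c c' : κ) :
    ∃ d > 0, ∀ s ∈ Icc (0 : ℝ) 1, ∀ t t' : ℝ,
      (c = c' → ∀ j : ℤ, ρ ≤ |t' - t + j|) → d ≤ dist (Γ s c t) (Γ s c' t') := by
  have hK : IsCompact ((Icc (0 : ℝ) 1 ×ˢ Icc (0 : ℝ) 1 ×ˢ Icc (0 : ℝ) 1) ∩
      ⋂ (_ : c = c') (j : ℤ), {p : ℝ × ℝ × ℝ | ρ ≤ |p.2.2 - p.2.1 + j|}) :=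
    (isCompact_Icc.prod (isCompact_Icc.prod isCompact_Icc)).inter_right
      (isClosed_iInter fun _ => isClosed_iInter fun j => isClosed_le continuous_const (by fun_prop))
  have c1 : Continuous fun p : ℝ × ℝ × ℝ => Γ p.1 c p.2.1 :=
    (hs c).comp' (f := fun p : ℝ × ℝ × ℝ => (p.1, p.2.1)) (by fun_prop)
  have c2 : Continuous fun p : ℝ × ℝ × ℝ => Γ p.1 c' p.2.2 :=
    (hs c').comp' (f := fun p : ℝ × ℝ × ℝ => (p.1, p.2.2)) (by fun_prop)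
  have hpos : ∀ p ∈ (Icc (0 : ℝ) 1 ×ˢ Icc (0 : ℝ) 1 ×ˢ Icc (0 : ℝ) 1) ∩
      ⋂ (_ : c = c') (j : ℤ), {p : ℝ × ℝ × ℝ | ρ ≤ |p.2.2 - p.2.1 + j|},
      0 < dist (Γ p.1 c p.2.1) (Γ p.1 c' p.2.2) := by
    intro p hp
    refine dist_pos.2 fun h => ?_
    obtain ⟨h2, k, h3⟩ := (hU p.1 hp.1.1).inj _ _ _ _ h
    have h4 : ρ ≤ |p.2.2 - p.2.1 + ((-k : ℤ) : ℝ)| := mem_iInter.1 (mem_iInter.1 hp.2 h2) (-k)
    rw [h3, Int.cast_neg, add_sub_cancel_left, add_neg_cancel, abs_zero] at h4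
    linarith
  obtain ⟨d, hd, h1⟩ := hK.exists_forall_le' (c1.dist c2).continuousOn hpos
  refine ⟨d, hd, fun s hs' t t' h2 => ?_⟩
  have h3 : d ≤ dist (Γ s c (t - ⌊t⌋)) (Γ s c' (t' - ⌊t'⌋)) :=
    h1 (s, t - ⌊t⌋, t' - ⌊t'⌋) ⟨⟨hs', ⟨Int.fract_nonneg t, (Int.fract_lt_one t).le⟩,
      Int.fract_nonneg t', (Int.fract_lt_one t').le⟩, mem_iInter.2 fun h => mem_iInter.2 fun j => by
      have h4 := h2 h (j + ⌊t⌋ - ⌊t'⌋)
      show ρ ≤ |t' - ⌊t'⌋ - (t - ⌊t⌋) + j|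
      refine h4.trans_eq (congrArg _ ?_)
      push_cast
      ring⟩
  rwa [GCUnif_fract ((hU s hs').per c), GCUnif_fract ((hU s hs').per c')] at h3

theorem unif_of_smooth [Fintype κ] (hs : ∀ c, ContDiff ℝ ∞ fun p : ℝ × ℝ => Γ p.1 c p.2)
    (hU : ∀ s ∈ Icc (0 : ℝ) 1, IsU (Γ s)) (hv : fa = true → ∀ s ∈ Icc (0 : ℝ) 1, NonVert (Γ s)) :
    Unif fa Γ := by
  have hp : ∀ c, ∀ s ∈ Icc (0 : ℝ) 1, ∀ t, Γ s c (t + 1) = Γ s c t := fun c s h => (hU s h).per c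
  refine ⟨fun s h c => hp c s h, ?_, fun ρ hρ => ?_, fun ε hε => ?_⟩
  · obtain ⟨ρ, h1, h2⟩ := GCUnif_fin (fun c => GCUnif_mono (fa := fa) (F := fun s => Γ s c) (hs c)
      (hp c) fun s h t => by
        cases fa with
        | false =>
          by_contra hn
          push Not at hn
          exact (hU s h).imm c t (PiLp.ext fun i => hn i (by simp))
        | true =>
          rcases hv rfl s h c t with h3 | h3
          · exact ⟨0, by simp, h3⟩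
          · exact ⟨1, by simp, h3⟩) fun c δ δ' hδ h s₀ hs₀ t₀ => by
      obtain ⟨i, h3, h4⟩ := h s₀ hs₀ t₀
      have h5 : Icc (t₀ - δ') (t₀ + δ') ⊆ Icc (t₀ - δ) (t₀ + δ) :=
        Icc_subset_Icc (by linarith) (by linarith)
      exact ⟨i, h3, h4.imp (fun h6 s h7 h8 => (h6 s h7 (h8.trans_le hδ)).mono h5)
        fun h6 s h7 h8 => (h6 s h7 (h8.trans_le hδ)).mono h5⟩
    exact ⟨ρ, h1, fun s h c => h2 c s h⟩
  · obtain ⟨d, h1, h2⟩ := GCUnif_fin (ι := κ × κ)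
      (fun c => GCUnif_far (ρ := ρ) (fun c => (hs c).continuous) hU hρ c.1 c.2)
      fun c δ δ' hδ h s h3 t t' h4 => hδ.trans (h s h3 t t' h4)
    exact ⟨d, h1, fun s h c c' => h2 (c, c') s h⟩
  · obtain ⟨δ, h1, h2⟩ := GCUnif_fin
      (fun c => GCUnif_uc (F := fun s => Γ s c) (hs c).continuous (hp c) hε)
      fun c δ δ' hδ h s h3 s' h4 t t' h5 h6 => h s h3 s' h4 t t' (h5.trans_le hδ) (h6.trans_le hδ)
    exact ⟨δ, h1, fun s h s' h' c => h2 c s h s' h'⟩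
theorem IsU.unif [Fintype κ] {γ : κ → ℝ → E3} (hγ : IsU γ) (hv : fa = true → NonVert γ) :
    Unif fa fun _ => γ :=
  unif_of_smooth (fun c => (hγ.smooth c).comp contDiff_snd) (fun _ _ => hγ) fun h _ _ => hv h

end Pool.Agent.P.MP_ac4909_gt.B
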