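import Pool.Agent.P.MP_ac4909_gt.B.GC_InsA
import Pool.Agent.P.MP_ac4909_gt.B.GC_Unif
import Pool.Agent.P.MP_ac4909_gt.B.GC_Fine

/-! Layer G, core: uniqueness and isotopy invariance of the word. -/

namespace Pool.Agent.P.MP_ac4909_gt.B

open scoped ContDiff
open Set Filter Topology

variable {κ : Type} {fa : Bool} {γ : κ → ℝ → E3} {n : κ → ℕ} {τ : κ → ℤ → ℝ}
  {w w' : List (Sl (Arc κ))}

theorem MW.refl (hγ : IsU γ) (h : MW fa γ n τ w) : Eqv fa [] [] w w :=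
  Eqv.refl (h.hasWord.run' hγ)

theorem MW.contain (hγ : IsU γ) (h : MW fa γ n τ w) (l : List (κ × ℝ)) :
    ∃ n' τ' w', MW fa γ n' τ' w' ∧ Eqv fa [] [] w w' ∧ ∀ x ∈ l, x.2 ∈ range (τ' x.1) := by
  classical
  induction l with
  | nil => exact ⟨n, τ, w, h, h.refl hγ, fun _ hx => absurd hx List.not_mem_nil⟩
  | cons x l ih =>
    obtain ⟨n', τ', w', h', e', hl⟩ := ih
    by_cases hx : x.2 ∈ range (τ' x.1)
    · exact ⟨n', τ', w', h', e', List.forall_mem_cons.2 ⟨hx, hl⟩⟩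
    · obtain ⟨τ'', w'', h'', e'', hx', hr⟩ := h'.insert hγ hx
      exact ⟨_, τ'', w'', h'', e'.trans e'',
        List.forall_mem_cons.2 ⟨hx', fun y hy => hr _ (hl y hy)⟩⟩

theorem MW.fine [Fintype κ] (hγ : IsU γ) (h : MW fa γ n τ w) {η : ℝ} (hη : 0 < η) :
    ∃ n' τ' w', MW fa γ n' τ' w' ∧ Eqv fa [] [] w w' ∧ Mesh η τ' := by
  obtain ⟨M, hM⟩ := exists_nat_one_div_lt hη
  obtain ⟨n', τ', w', h', e', hl⟩ := h.contain hγ
    (((Finset.univ : Finset κ) ×ˢ Finset.range (M + 1)).toList.map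
      fun x => (x.1, (x.2 : ℝ) / ((M + 1 : ℕ) : ℝ)))
  refine ⟨n', τ', w', h', e', mesh_of_grid h'.pc (M := M + 1) (by exact_mod_cast hM)
    (Nat.succ_pos M) fun c j hj => hl (c, _) (List.mem_map.2 ⟨(c, j), ?_, rfl⟩)⟩
  simpa using Nat.lt_succ_iff.1 hj

theorem MW.raise [Fintype κ] (hγ : IsU γ) (n' : κ → ℕ) (k : ℕ) :
    ∀ {n : κ → ℕ} {τ : κ → ℤ → ℝ} {w : List (Sl (Arc κ))}, MW fa γ n τ w → (∀ c, n c ≤ n' c) →
      ∑ c, (n' c - n c) = k → ∃ τ' w', MW fa γ n' τ' w' ∧ Eqv fa [] [] w w' ∧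
        ∀ c, range (τ c) ⊆ range (τ' c) := by
  classical
  induction k with
  | zero =>
    intro n τ w h hn hk
    obtain rfl : n = n' := funext fun c => by
      have h1 := Finset.sum_eq_zero_iff.1 hk c (Finset.mem_univ c)
      have h2 := hn c
      omega
    exact ⟨τ, w, h, h.refl hγ, fun _ => subset_rfl⟩
  | succ k ih =>
    intro n τ w h hn hk
    obtain ⟨c, -, hc⟩ := Finset.exists_ne_zero_of_sum_ne_zero (hk.trans_ne (Nat.succ_ne_zero k))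
    have h01 : τ c 0 < τ c 1 := h.pc.mono c (by norm_num)
    have ht : (τ c 0 + τ c 1) / 2 ∉ range (τ c) := by
      rintro ⟨j, hj⟩
      have h1 : (0 : ℤ) < j := (h.pc.mono c).lt_iff_lt.1 (by linarith)
      have h2 : j < 1 := (h.pc.mono c).lt_iff_lt.1 (by linarith)
      omega
    obtain ⟨τ₁, w₁, h₁, e₁, -, hr⟩ := h.insert hγ ht
    have hle : ∀ c', Function.update n c (n c + 1) c' ≤ n' c' := by
      intro c'
      by_cases hc' : c' = c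
      · subst hc'
        rw [Function.update_self]
        omega
      · rw [Function.update_of_ne hc']
        exact hn c'
    have hs : ∑ c', (n' c' - Function.update n c (n c + 1) c') = k := by
      rw [← Finset.add_sum_erase _ _ (Finset.mem_univ c)] at hk ⊢
      rw [Function.update_self, Finset.sum_congr rfl fun c' hc' => by
        rw [Function.update_of_ne (Finset.ne_of_mem_erase hc')]]
      omega
    obtain ⟨τ', w', h', e', hr'⟩ := ih h₁ hle hs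
    exact ⟨τ', w', h', e₁.trans e', fun c' => (hr c').trans (hr' c')⟩

theorem eqv_chain (P : ℝ → List (Sl (Arc κ)) → Prop) {η : ℝ} (hη : 0 < η)
    (hex : ∀ u ∈ Icc (0 : ℝ) 1, ∃ w, P u w)
    (hcl : ∀ u ∈ Icc (0 : ℝ) 1, ∀ u' ∈ Icc (0 : ℝ) 1, |u - u'| < η → ∀ w w', P u w → P u' w' →
      Eqv fa [] [] w w') (h : P 0 w) (h' : P 1 w') : Eqv fa [] [] w w' := by
  obtain ⟨M, hM⟩ := exists_nat_one_div_lt hη
  have hM0 : (0 : ℝ) < M + 1 := by positivity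
  have hI : ∀ j : ℕ, j ≤ M + 1 → (j : ℝ) / (M + 1) ∈ Icc (0 : ℝ) 1 := fun j hj =>
    ⟨by positivity, (div_le_one hM0).2 (by exact_mod_cast hj)⟩
  have key : ∀ j : ℕ, j ≤ M + 1 → ∀ w', P ((j : ℝ) / (M + 1)) w' → Eqv fa [] [] w w' := by
    intro j
    induction j with
    | zero =>
      intro _ w' hw'
      rw [Nat.cast_zero, zero_div] at hw'
      exact hcl 0 ⟨le_rfl, zero_le_one⟩ 0 ⟨le_rfl, zero_le_one⟩ (by simpa using hη) _ _ h hw'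
    | succ j ih =>
      intro hj w' hw'
      obtain ⟨w₁, h₁⟩ := hex _ (hI j (by omega))
      refine (ih (by omega) w₁ h₁).trans (hcl _ (hI j (by omega)) _ (hI _ hj) ?_ _ _ h₁ hw')
      rw [← sub_div, Nat.cast_succ, sub_add_cancel_left, abs_div, abs_neg, abs_one,
        abs_of_pos hM0]
      exact hM
  refine key (M + 1) le_rfl w' ?_
  rwa [Nat.cast_succ, div_self hM0.ne']

theorem HasWord.eqv' [Fintype κ] (hγ : IsU γ) (hv : fa = true → NonVert γ) (h : HasWord fa γ w)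
    (h' : HasWord fa γ w') : Eqv fa [] [] w w' := by
  obtain ⟨η, hη, H⟩ := (hγ.unif hv).pj
  have H := H 0 ⟨le_rfl, zero_le_one⟩ 0 ⟨le_rfl, zero_le_one⟩ (by simpa using hη)
  obtain ⟨n₁, τ₁, h₁⟩ := h.mw hγ
  obtain ⟨n₂, τ₂, h₂⟩ := h'.mw hγ
  obtain ⟨n₁, τ₁, w₁, h₁, e₁, m₁⟩ := h₁.fine hγ hη
  obtain ⟨n₂, τ₂, w₂, h₂, e₂, m₂⟩ := h₂.fine hγ hη
  obtain ⟨τ₃, w₃, h₃, e₃, r₃⟩ := MW.raise hγ (fun c => max (n₁ c) (n₂ c)) _ h₁
    (fun c => le_max_left _ _) rfl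
  obtain ⟨τ₄, w₄, h₄, e₄, r₄⟩ := MW.raise hγ (fun c => max (n₁ c) (n₂ c)) _ h₂
    (fun c => le_max_right _ _) rfl
  have m₃ := Mesh.refine h₁.pc h₃.pc r₃ m₁
  have m₄ := Mesh.refine h₂.pc h₄.pc r₄ m₂
  obtain ⟨B, hB, hb⟩ := h₃.pc.bound h₄.pc
  have key : Eqv fa [] [] w₃ w₄ := by
    refine eqv_chain (fun u w => MW fa γ (fun c => max (n₁ c) (n₂ c))
      (fun c k => (1 - u) * τ₃ c k + u * τ₄ c k) w) (div_pos hη hB) (fun u hu => ?_)
      (fun u hu u' hu' huu w w' hw hw' => ?_) (by simpa using h₃) (by simpa using h₄)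
    · have hp := h₃.pc.conv h₄.pc hu
      have hm := m₃.conv m₄ hu
      exact exists_mw hγ hp (H _ _ _ hp hp hm hm fun c k => by simpa using hη).left
    · refine MW.eqv hγ hγ (H _ _ _ hw.pc hw'.pc (m₃.conv m₄ hu) (m₃.conv m₄ hu') fun c k => ?_)
        hw hw'
      have e : (1 - u) * τ₃ c k + u * τ₄ c k - ((1 - u') * τ₃ c k + u' * τ₄ c k) =
          -((u - u') * (τ₃ c k - τ₄ c k)) := by ring
      rw [e, abs_neg, abs_mul]
      exact (mul_le_mul_of_nonneg_left (hb c k) (abs_nonneg _)).trans_lt ((lt_div_iff₀ hB).1 huu)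
  exact ((e₁.trans e₃).trans key).trans (e₂.trans e₄).symm

theorem exists_hasWord [Fintype κ] (hγ : IsU γ) (hv : fa = true → NonVert γ) :
    ∃ w, HasWord fa γ w := by
  obtain ⟨η, hη, H⟩ := (hγ.unif hv).pj
  obtain ⟨n, τ, hp, hm⟩ := exists_unif κ hη
  obtain ⟨w, hw⟩ := exists_mw hγ hp (H 0 ⟨le_rfl, zero_le_one⟩ 0 ⟨le_rfl, zero_le_one⟩
    (by simpa using hη) _ _ _ hp hp hm hm fun c k => by simpa using hη).left
  exact ⟨w, hw.hasWord⟩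

/-- isotopy invariance of the word -/
theorem hasWord_iso [Fintype κ] {Γ : ℝ → κ → ℝ → E3}
    (hs : ∀ c, ContDiff ℝ ∞ fun p : ℝ × ℝ => Γ p.1 c p.2) (hU : ∀ s ∈ Icc (0 : ℝ) 1, IsU (Γ s))
    (hv : fa = true → ∀ s ∈ Icc (0 : ℝ) 1, NonVert (Γ s)) (h : HasWord fa (Γ 0) w)
    (h' : HasWord fa (Γ 1) w') : Eqv fa [] [] w w' := by
  have i0 : (0 : ℝ) ∈ Icc (0 : ℝ) 1 := ⟨le_rfl, zero_le_one⟩
  have i1 : (1 : ℝ) ∈ Icc (0 : ℝ) 1 := ⟨zero_le_one, le_rfl⟩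
  obtain ⟨η, hη, H⟩ := (unif_of_smooth hs hU hv).pj
  obtain ⟨n, τ, hp, hm⟩ := exists_unif κ hη
  have H' : ∀ u ∈ Icc (0 : ℝ) 1, ∀ u' ∈ Icc (0 : ℝ) 1, |u - u'| < η → PJ fa n (Γ u) τ (Γ u') τ :=
    fun u hu u' hu' huu => H u hu u' hu' huu _ _ _ hp hp hm hm fun c k => by simpa using hη
  have hex : ∀ u ∈ Icc (0 : ℝ) 1, ∃ w, MW fa (Γ u) n τ w := fun u hu =>
    exists_mw (hU u hu) hp (H' u hu u hu (by simpa using hη)).left
  obtain ⟨w₀, h₀⟩ := hex 0 i0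
  obtain ⟨w₁, h₁⟩ := hex 1 i1
  exact ((h.eqv' (hU 0 i0) (fun e => hv e 0 i0) h₀.hasWord).trans
    (eqv_chain (fun u w => MW fa (Γ u) n τ w) hη hex (fun u hu u' hu' huu _ _ hw hw' =>
      MW.eqv (hU u hu) (hU u' hu') (H' u hu u' hu' huu) hw hw') h₀ h₁)).trans
    (h₁.hasWord.eqv' (hU 1 i1) (fun e => hv e 1 i1) h')

theorem exists_fine' [Fintype κ] (hγ : IsU γ) (hv : NonVert γ) :
    ∃ d > 0, ∀ (B : Type) [Fintype B] (cp : B → κ) (τ : B → ℝ),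
      (Function.Injective fun b => γ (cp b) (τ b)) → ∀ η > 0, ∃ h > 0, ∀ σ : B → ℝ,
      (∀ b, σ b ≠ τ b ∧ |σ b - τ b| < h) →
      ∃ (N : Type) (_ : Fintype N) (C : Conf N) (bc ρ : B → N),
        C.Valid true ∧ C.supp = trace γ ∧ C.Margin d ∧
        (∀ a, ∀ p ∈ C.star a, ∀ q ∈ C.star a, dist p q < η) ∧
        ∀ b, C.col (bc b) = true ∧ (∃ s, C.nb (bc b) s = ρ b) ∧
          C.pt (bc b) = γ (cp b) (τ b) ∧ C.pt (ρ b) = γ (cp b) (σ b) ∧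
          C.arc (bc b) (ρ b) = γ (cp b) '' uIcc (τ b) (σ b) := by
  have i0 : (0 : ℝ) ∈ Icc (0 : ℝ) 1 := ⟨le_rfl, zero_le_one⟩
  have hU : Unif true fun _ => γ := hγ.unif fun _ => hv
  obtain ⟨d, hd, η₁, hη₁, H₁⟩ := hU.pm
  obtain ⟨η₂, hη₂, H₂⟩ := hU.pj
  refine ⟨d, hd, fun B _ cp x hx η hη => ?_⟩
  obtain ⟨η₃, hη₃, H₃⟩ := hU.diam hη
  obtain ⟨h, hh, H⟩ := exists_pc cp x (η := min η₁ (min η₂ η₃)) (fun b b' j hc e => hx (by
    simp only [e, ← hc]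
    exact (per_int (hγ.per _) _ _).symm)) (lt_min hη₁ (lt_min hη₂ hη₃))
  refine ⟨h, hh, fun σ hσ => ?_⟩
  obtain ⟨n, τ, hp, hm, hb⟩ := H σ hσ
  have hm₂ := hm.mono ((min_le_right _ _).trans (min_le_left _ _))
  have hpv : PV true γ n τ := (H₂ 0 i0 0 i0 (by simpa using hη₂) _ _ _ hp hp hm₂ hm₂
    fun c k => by simpa using hη₂).left
  obtain ⟨N, hN, C, ix, hM⟩ := exists_mdl hγ.per hp fun c =>
    le_trans (by norm_num) (hpv.three_le hp hγ.per c)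
  choose k hk hx' hσ' using hb
  classical
  refine ⟨N, hN, C, fun b => ix (cp b) (k b), fun b =>
    if τ (cp b) (k b + 1) = σ b then ix (cp b) (k b + 1) else ix (cp b) (k b - 1),
    hM.valid hγ hpv, hM.supp, hM.margin (H₁ 0 i0 n τ hp (hm.mono (min_le_left _ _))),
    fun a => ?_, fun b => ⟨(hM.col _ _).2 (hk b), ?_⟩⟩
  · obtain ⟨c, j, rfl⟩ := hM.surj a
    rw [hM.star]
    exact H₃ 0 i0 n τ hp (hm.mono ((min_le_right _ _).trans (min_le_right _ _))) c j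
  · obtain ⟨s, h₁, h₂⟩ := hM.nb (cp b) (k b)
    by_cases e : τ (cp b) (k b + 1) = σ b
    · simp only [if_pos e]
      refine ⟨⟨s, h₁⟩, by rw [hM.pt, hx'], by rw [hM.pt, e], ?_⟩
      rw [hM.arc, seg, ← hx' b, ← e, uIcc_of_le ((hp.mono _).monotone (by omega))]
    · simp only [if_neg e]
      have e' := (hσ' b).resolve_left e
      refine ⟨⟨!s, h₂⟩, by rw [hM.pt, hx'], by rw [hM.pt, e'], ?_⟩
      rw [hM.arc_pred, seg, ← hx' b, ← e', uIcc_of_ge ((hp.mono _).monotone (by omega))]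

end Pool.Agent.P.MP_ac4909_gt.B
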