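import Pool.Agent.P.MP_ac4909_gt.Words

/-!
Layer W (combinatorics): equivalence of words, grids with heights and their words.
-/

namespace Pool.Agent.P.MP_ac4909_gt.B

open Rev

variable {α β κ ι N N' : Type}

/-- removal of a curl next to a cup or a cap -/
inductive Curl [Rev α] : List (Sl α) → List (Sl α) → Prop
  | cup (l r : List α) (o : α) (s : Bool) :
      Curl [⟨l, .cup o, r⟩, ⟨l, .cr o (rev o) s, r⟩] [⟨l, .cup (rev o), r⟩]
  | cap (l r : List α) (o : α) (s : Bool) :
      Curl [⟨l, .cr (rev o) o s, r⟩, ⟨l, .cap o, r⟩] [⟨l, .cap (rev o), r⟩]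

/-- Equivalence of tangle words from row `ρ` to row `ρ'`: regular isotopy if `fa = true`,
isotopy (curls allowed) if `fa = false`. -/
inductive Eqv [Rev α] (fa : Bool) (ρ ρ' : List α) : List (Sl α) → List (Sl α) → Prop
  | refl {w : List (Sl α)} : Run ρ w ρ' → Eqv fa ρ ρ' w w
  | move (w₁ u u' w₂ : List (Sl α)) : Move u u' → Run ρ (w₁ ++ u ++ w₂) ρ' →
      Eqv fa ρ ρ' (w₁ ++ u ++ w₂) (w₁ ++ u' ++ w₂)
  | curl (w₁ u u' w₂ : List (Sl α)) : fa = false → Curl u u' → Run ρ (w₁ ++ u ++ w₂) ρ' →
      Eqv fa ρ ρ' (w₁ ++ u ++ w₂) (w₁ ++ u' ++ w₂)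
  | symm {w w' : List (Sl α)} : Eqv fa ρ ρ' w w' → Eqv fa ρ ρ' w' w
  | trans {w w' w'' : List (Sl α)} : Eqv fa ρ ρ' w w' → Eqv fa ρ ρ' w' w'' → Eqv fa ρ ρ' w w''

/-- put vertical strands on both sides of a slice -/
def pad (l r : List α) (s : Sl α) : Sl α := ⟨l ++ s.l, s.g, s.r ++ r⟩

/-- signed contribution of a slice to the number of crossings of `a` over `b` -/
def Gen.lko [DecidableEq κ] (a b : κ) : Gen (Arc κ) → ℤ
  | .cr x y s =>
      if (if s then x.name = a ∧ y.name = b else y.name = a ∧ x.name = b) then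
        (if s then 1 else -1) * (if x.up = y.up then 1 else -1) else 0
  | _ => 0

/-- signed number of crossings at which component `a` passes over component `b`
(for `a = b` the writhe of `a`) -/
def lko [DecidableEq κ] (a b : κ) (w : List (Sl (Arc κ))) : ℤ :=
  (w.map fun s => Gen.lko a b s.g).sum

/-- unoriented labels -/
structure Nm (ι : Type) where
  val : Option ι
  deriving DecidableEq

instance : Rev (Nm ι) where
  rev x := x
  rev_rev _ := rfl

/-- the label of a skein strand -/
def Nm.no : Nm ι := ⟨none⟩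

/-- forget the direction -/
def fg (x : Option (Arc ι)) : Nm ι := ⟨x.map Arc.name⟩

/-- unoriented label of a strand of a link whose components carry the labels `ℓ` -/
def lbN (ℓ : κ → Option ι) (a : Arc κ) : Nm ι := ⟨ℓ a.name⟩

/-- oriented label of a strand of a link whose components carry the labels `ℓ` -/
def lbA (ℓ : κ → Option ι) (a : Arc κ) : Option (Arc ι) := (ℓ a.name).map fun i => ⟨i, a.up⟩

/-- An evaluation of closed words that is invariant under regular isotopy and multiplies by a
twist factor under curls. -/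
structure EvSys (ι P : Type) where
  ev : P → List (Sl (Nm ι)) → ℂ
  tw : P → Option ι → ℂ
  tw_ne : ∀ p o, tw p o ≠ 0
  move : ∀ p w₁ u u' w₂, Move u u' → Run [] (w₁ ++ u ++ w₂) [] →
    ev p (w₁ ++ u ++ w₂) = ev p (w₁ ++ u' ++ w₂)
  curl_cup : ∀ p w₁ w₂ l r o s,
    Run [] (w₁ ++ [⟨l, .cup o, r⟩, ⟨l, .cr o o s, r⟩] ++ w₂) [] →
    ev p (w₁ ++ [⟨l, .cup o, r⟩, ⟨l, .cr o o s, r⟩] ++ w₂) =
      tw p o.val ^ (if s then -1 else 1 : ℤ) * ev p (w₁ ++ [⟨l, .cup o, r⟩] ++ w₂)
  curl_cap : ∀ p w₁ w₂ l r o s,
    Run [] (w₁ ++ [⟨l, .cr o o s, r⟩, ⟨l, .cap o, r⟩] ++ w₂) [] →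
    ev p (w₁ ++ [⟨l, .cr o o s, r⟩, ⟨l, .cap o, r⟩] ++ w₂) =
      tw p o.val ^ (if s then -1 else 1 : ℤ) * ev p (w₁ ++ [⟨l, .cap o, r⟩] ++ w₂)

/-- evaluation of a word whose component `c` is given the framing number `f c` -/
noncomputable def EvSys.cev {P : Type} (E : EvSys ι P) [Fintype κ] [DecidableEq κ] (p : P)
    (ℓ : κ → Option ι) (w : List (Sl (Arc κ))) (f : κ → ℤ) : ℂ :=
  (∏ c, E.tw p (ℓ c) ^ (f c - lko c c w)) * E.ev p (w.map (Sl.map (lbN ℓ)))

/-- What a horizontal segment (a row) sees of a vertical segment (a column): the column passes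
through its height (above the row iff `ov`), or it is an end of the row and goes up or down from
it.  The label is the label of the column read upwards. -/
inductive Cell (α : Type) where
  | thru (a : α) (ov : Bool)
  | fin (a : α) (up : Bool)

def Cell.map (f : α → β) : Cell α → Cell β
  | .thru a o => .thru (f a) o
  | .fin a u => .fin (f a) u

def Cell.lab : Cell α → α
  | .thru a _ => a
  | .fin a _ => a

/-- the strand `b` crosses the columns `M` from right to left -/
def crossL (b : α) (r : List α) : List α → List (α × Bool) → List (Sl α)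
  | _, [] => []
  | l, x :: M => crossL b r (l ++ [x.1]) M ++ [⟨l, .cr x.1 b x.2, M.map Prod.fst ++ r⟩]

/-- the strand `b` crosses the columns `M` from left to right -/
def crossR (b : α) (r : List α) : List α → List (α × Bool) → List (Sl α)
  | _, [] => []
  | l, x :: M => ⟨l, .cr b x.1 (!x.2), M.map Prod.fst ++ r⟩ :: crossR b r (l ++ [x.1]) M

/-- the word of one row with left end `a`, `u`, right end `b`, `u'`, columns `M` in between -/
def event (l : List α) (a : α) (u : Bool) (M : List (α × Bool)) (b : α) (u' : Bool)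
    (r : List α) : List (Sl α) :=
  match u, u' with
  | true, true => ⟨l, .cup a, M.map Prod.fst ++ r⟩ :: crossR b r (l ++ [a]) M
  | false, false => crossL b r (l ++ [a]) M ++ [⟨l, .cap a, M.map Prod.fst ++ r⟩]
  | false, true => crossR b r l M
  | true, false => crossL b r l M

def evMid (l : List α) (a : α) (u : Bool) : List (α × Bool) → List (Cell α) → List (Sl α)
  | _, [] => []
  | M, .thru x o :: cs => evMid l a u (M ++ [(x, o)]) cs
  | M, .fin b u' :: cs => event l a u M b u' (cs.map Cell.lab)

def evLeft : List α → List (Cell α) → List (Sl α)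
  | _, [] => []
  | l, .thru x _ :: cs => evLeft (l ++ [x]) cs
  | l, .fin a u :: cs => evMid l a u [] cs

/-- the word of a row, from the list of its cells -/
def evOf (cs : List (Cell α)) : List (Sl α) := evLeft [] cs

/-- A closed chain of segments, alternately columns (`col = true`) and rows.  `nb a` lists the two
neighbours; `dl a b` is the label of a strand that travels upwards from `a` to `b`. -/
structure Grid (N α : Type) where
  col : N → Bool
  nb : N → Bool → N
  dl : N → N → α

structure Grid.OK [Rev α] (G : Grid N α) : Prop where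
  col_nb : ∀ a s, G.col (G.nb a s) = !G.col a
  nb_ne : ∀ a, G.nb a false ≠ G.nb a true
  adj_symm : ∀ a s, ∃ s', G.nb (G.nb a s) s' = a
  dl_rev : ∀ a s, G.dl (G.nb a s) a = rev (G.dl a (G.nb a s))
  dl_thru : ∀ a, G.dl (G.nb a false) a = G.dl a (G.nb a true)

def Grid.map (G : Grid N α) (f : α → β) : Grid N β := ⟨G.col, G.nb, fun a b => f (G.dl a b)⟩

/-- order of the columns (left to right), order of the rows (bottom to top), heights -/
structure Rz (N : Type) where
  X : List N
  Y : List N
  z : N → ℝ

structure Rz.OK (R : Rz N) (col : N → Bool) : Prop where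
  nodupX : R.X.Nodup
  nodupY : R.Y.Nodup
  memX : ∀ a, a ∈ R.X ↔ col a = true
  memY : ∀ a, a ∈ R.Y ↔ col a = false

variable [DecidableEq N]

def Rz.ltX (R : Rz N) (a b : N) : Prop := R.X.idxOf a < R.X.idxOf b

def Rz.ltY (R : Rz N) (a b : N) : Prop := R.Y.idxOf a < R.Y.idxOf b

instance (R : Rz N) (a b : N) : Decidable (R.ltX a b) := Nat.decLt _ _

instance (R : Rz N) (a b : N) : Decidable (R.ltY a b) := Nat.decLt _ _

namespace Grid
variable (G : Grid N α)

/-- the cell of column `v` in row `e` -/
noncomputable def cell (R : Rz N) (e v : N) : Option (Cell α) :=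
  if G.nb v false = e then
    some (if R.ltY e (G.nb v true) then .fin (G.dl e v) true else .fin (G.dl v e) false)
  else if G.nb v true = e then
    some (if R.ltY e (G.nb v false) then .fin (G.dl e v) true else .fin (G.dl v e) false)
  else if R.ltY (G.nb v false) e ∧ R.ltY e (G.nb v true) then
    some (.thru (G.dl (G.nb v false) v) (decide (R.z e < R.z v)))
  else if R.ltY (G.nb v true) e ∧ R.ltY e (G.nb v false) then
    some (.thru (G.dl (G.nb v true) v) (decide (R.z e < R.z v)))
  else none

/-- the events of the rows `Ys`, looking only at the columns `Xs` -/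
noncomputable def evs (R : Rz N) (Xs Ys : List N) : List (Sl α) :=
  Ys.flatMap fun e => evOf (Xs.filterMap (G.cell R e))

/-- the word of a grid -/
noncomputable def word (R : Rz N) : List (Sl α) := G.evs R R.X R.Y

/-- labels of the columns among `Xs` that have exactly one end among the rows `Ys` -/
def rowAt (Ys Xs : List N) : List α :=
  Xs.filterMap fun v =>
    if G.nb v false ∈ Ys ∧ G.nb v true ∉ Ys then some (G.dl (G.nb v false) v)
    else if G.nb v true ∈ Ys ∧ G.nb v false ∉ Ys then some (G.dl (G.nb v true) v) else none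

/-- column `v` and row `e` cross -/
def Crossing (R : Rz N) (v e : N) : Prop :=
  (∃ s, R.ltY (G.nb v s) e ∧ R.ltY e (G.nb v (!s))) ∧
    ∃ s, R.ltX (G.nb e s) v ∧ R.ltX v (G.nb e (!s))

omit [DecidableEq N] in
/-- Two parallel segments `a`, `b` may pass each other: `lt` is the order in the direction of the
segments, `lz` the order of heights. -/
def Leg (fa : Bool) (lt lz : N → N → Prop) (a b : N) : Prop :=
  (∀ s s', lt (G.nb a s) (G.nb b s')) ∨
  (lz a b ∧ (∀ s, lz a (G.nb b s)) ∧ (∀ s, lz (G.nb a s) b) ∧ ∀ s s', lz (G.nb a s) (G.nb b s')) ∨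
  (∃ s s', G.nb a s = G.nb b s' ∧ lt (G.nb a (!s)) (G.nb a s) ∧ lt (G.nb b s') (G.nb b (!s'))) ∨
  (fa = false ∧ ∃ s s', G.nb a s = G.nb b s' ∧ lz a (G.nb a s) ∧ lz (G.nb a (!s)) (G.nb a s) ∧
    lz (G.nb b s') b ∧ lz (G.nb b s') (G.nb b (!s')))

omit [DecidableEq N] in
/-- Every pair of parallel segments is ordered by `lx` (or `ly`) or may pass each other, and every
column and row that are not neighbours satisfy `same` or are separated in the plane. -/
structure Cpt (fa : Bool) (lx ly lz same : N → N → Prop) : Prop where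
  cols : ∀ a b, G.col a = true → G.col b = true → a ≠ b →
    lx a b ∨ lx b a ∨ G.Leg fa ly lz a b ∨ G.Leg fa ly lz b a
  rows : ∀ a b, G.col a = false → G.col b = false → a ≠ b →
    ly a b ∨ ly b a ∨ G.Leg fa lx lz a b ∨ G.Leg fa lx lz b a
  mixed : ∀ v e, G.col v = true → G.col e = false → (∀ s, G.nb v s ≠ e) →
    same v e ∨ (∀ s, lx v (G.nb e s)) ∨ (∀ s, lx (G.nb e s) v) ∨
      (∀ s, ly e (G.nb v s)) ∨ ∀ s, ly (G.nb v s) e

/-- two realisations share a certificate -/
def Compat (fa : Bool) (R R' : Rz N) : Prop :=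
  G.Cpt fa (fun a b => R.ltX a b ∧ R'.ltX a b) (fun a b => R.ltY a b ∧ R'.ltY a b)
    (fun a b => R.z a < R.z b ∧ R'.z a < R'.z b) fun v e => (R.z e < R.z v ↔ R'.z e < R'.z v)

/-- Insert a new row `inr false` and a new column `inr true` between the column `v` and its
neighbour `G.nb v s`. -/
def ins (v : N) (s : Bool) : Grid (N ⊕ Bool) α where
  col := Sum.elim G.col id
  nb := Sum.elim
    (fun a t => if a = v ∧ t = s then .inr false
      else if a = G.nb v s ∧ G.nb a t = v then .inr true else .inl (G.nb a t))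
    fun b t => match b, t with
      | false, false => .inl v
      | false, true => .inr true
      | true, false => .inr false
      | true, true => .inl (G.nb v s)
  dl := fun a b => match a, b with
    | .inl a, .inl b => G.dl a b
    | .inl a, .inr _ => if a = v then G.dl v (G.nb v s) else G.dl (G.nb v s) v
    | .inr _, .inl b => if b = v then G.dl (G.nb v s) v else G.dl v (G.nb v s)
    | .inr false, .inr _ => G.dl v (G.nb v s)
    | .inr true, .inr _ => G.dl (G.nb v s) v

/-- Double the components on which `D` holds; originals are relabelled by `o`, copies by `c`. -/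
def dbl (D : N → Bool) (hD : ∀ a s, D (G.nb a s) = D a) (o c : α → β) :
    Grid (N ⊕ {a // D a = true}) β where
  col := Sum.elim G.col fun a => G.col a.1
  nb := Sum.elim (fun a t => .inl (G.nb a t)) fun a t => .inr ⟨G.nb a.1 t, (hD a.1 t).trans a.2⟩
  dl := fun a b => match a, b with
    | .inl a, .inl b => o (G.dl a b)
    | .inr a, .inr b => c (G.dl a.1 b.1)
    | .inl a, .inr b => o (G.dl a b.1)
    | .inr a, .inl b => o (G.dl a.1 b)

/-- label of column `v` read upwards -/
def upl (R : Rz N) (v : N) : α :=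
  if R.ltY (G.nb v false) (G.nb v true) then G.dl (G.nb v false) v else G.dl (G.nb v true) v

/-- label of row `e` read from left to right -/
def rtl (R : Rz N) (e : N) : α :=
  if R.ltX (G.nb e false) (G.nb e true) then G.dl (G.nb e false) e else G.dl (G.nb e true) e

end Grid

omit [DecidableEq N] in
/-- replace each entry on which `D` holds by the original and its copy; the copy comes second iff
`aft` holds -/
def dblList (D aft : N → Bool) (l : List N) : List (N ⊕ {a // D a = true}) :=
  l.flatMap fun a => if h : D a = true then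
    (if aft a then [.inl a, .inr ⟨a, h⟩] else [.inr ⟨a, h⟩, .inl a]) else [.inl a]

/-- cabling rule: labels with `d` are doubled, the copy is on the right iff `rt` -/
def dblLab (d rt : α → Bool) (o c : α → β) (x : α) : List β :=
  if d x then (if rt x then [o x, c x] else [c x, o x]) else [o x]

/-- a loop around the strands `ρ` -/
def encW (l ρ r : List (Nm ι)) : List (Sl (Nm ι)) :=
  ⟨l, .cup Nm.no, ρ ++ r⟩ :: crossR Nm.no r (l ++ [Nm.no]) (ρ.map fun x => (x, false)) ++
    crossL Nm.no r (l ++ [Nm.no]) (ρ.map fun x => (x, true)) ++ [⟨l, .cap Nm.no, ρ ++ r⟩]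

/-- the product of the Temperley-Lieb generators `e i`, `i ∈ w`, on `n` skein strands -/
def eW (l : List (Nm ι)) (n : ℕ) (r : List (Nm ι)) (w : List ℕ) : List (Sl (Nm ι)) :=
  w.flatMap fun i =>
    [⟨l ++ List.replicate i Nm.no, .cap Nm.no, List.replicate (n - (i + 2)) Nm.no ++ r⟩,
      ⟨l ++ List.replicate i Nm.no, .cup Nm.no, List.replicate (n - (i + 2)) Nm.no ++ r⟩]

/-- the word of a handle slide, in the form of `TL.om_slide` -/
def slideW [DecidableEq ι] (w₁ w₂ : List (Sl (Option (Arc ι)))) (l r : List (Option (Arc ι)))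
    (a : Arc ι) : List (Sl (Option (Arc ι))) :=
  cable (pushoff a) w₁ ++
    [⟨l.flatMap (pushoff a) ++ [some a], .cap none, r.flatMap (pushoff a)⟩,
      ⟨l.flatMap (pushoff a) ++ [some a], .cup none, r.flatMap (pushoff a)⟩] ++
    cable (pushoff a) w₂

end Pool.Agent.P.MP_ac4909_gt.B
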