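import Pool.Agent.P.MP_ac4909_gt.B.Statement
import Pool.Agent.P.MP_ac4909_gt.B.WDefs

/-!
Layer G: smooth links in `ℝ³`, their subdivisions into certified arcs, their words and their
values; local pictures.
-/

namespace Pool.Agent.P.MP_ac4909_gt.B

open scoped ContDiff
open Set

variable {κ ι P N : Type}

/-- an unframed parametrised link -/
structure IsU (γ : κ → ℝ → E3) : Prop where
  smooth : ∀ c, ContDiff ℝ ∞ (γ c)
  per : ∀ c t, γ c (t + 1) = γ c t
  inj : ∀ c c' s t, γ c s = γ c' t → c = c' ∧ ∃ k : ℤ, t = s + k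
  imm : ∀ c t, deriv (γ c) t ≠ 0

/-- the tangent is never vertical -/
def NonVert (γ : κ → ℝ → E3) : Prop := ∀ c t, deriv (γ c) t 0 ≠ 0 ∨ deriv (γ c) t 1 ≠ 0

/-- curves with framing vectors -/
structure Lk (κ : Type) where
  γ : κ → ℝ → E3
  ν : κ → ℝ → E3

structure Lk.IsLink (L : Lk κ) : Prop where
  isU : IsU L.γ
  smooth : ∀ c, ContDiff ℝ ∞ (L.ν c)
  per : ∀ c t, L.ν c (t + 1) = L.ν c t
  indep : ∀ c t, LinearIndependent ℝ ![deriv (L.γ c) t, L.ν c t]

/-- labelled sets of framing vectors: label, point, vector -/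
abbrev LS (ι : Type) : Type := Set (Option ι × E3 × E3)

def Lk.set (L : Lk κ) (ℓ : κ → Option ι) : LS ι := {x | ∃ c t, x = (ℓ c, L.γ c t, L.ν c t)}

/-- a labelled framed link -/
def IsLL (S : LS ι) : Prop :=
  ∃ (κ : Type) (_ : Fintype κ) (L : Lk κ) (ℓ : κ → Option ι), L.IsLink ∧ S = L.set ℓ

/-- a labelled framed link in which every label `some i` is carried by exactly one component -/
def IsPL (S : LS ι) : Prop :=
  ∃ (κ : Type) (_ : Fintype κ) (L : Lk κ) (ℓ : κ → Option ι), L.IsLink ∧ S = L.set ℓ ∧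
    ∀ i, ∃! c, ℓ c = some i

def SmoothFam (H : ℝ → Lk κ) : Prop :=
  ∀ c, (ContDiff ℝ ∞ fun p : ℝ × ℝ => (H p.1).γ c p.2) ∧
    ContDiff ℝ ∞ fun p : ℝ × ℝ => (H p.1).ν c p.2

/-- isotopy of labelled framed links -/
def GIso (S S' : LS ι) : Prop :=
  ∃ (κ : Type) (_ : Fintype κ) (H : ℝ → Lk κ) (ℓ : κ → Option ι), SmoothFam H ∧
    (∀ s ∈ Icc (0 : ℝ) 1, (H s).IsLink) ∧ S = (H 0).set ℓ ∧ S' = (H 1).set ℓ

/-- `A` is a simple arc from `p` to `q` -/
def IsArc (A : Set E3) (p q : E3) : Prop :=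
  ∃ g : ℝ → E3, ContinuousOn g (Icc 0 1) ∧ InjOn g (Icc 0 1) ∧ g 0 = p ∧ g 1 = q ∧
    A = g '' Icc 0 1

/-- coordinate `i` separates `A` from `B` -/
def Sep (i : Fin 3) (A B : Set E3) : Prop := ∀ p ∈ A, ∀ q ∈ B, p i < q i

/-- marked points, alternately of column and row type, joined by arcs -/
structure Conf (N : Type) where
  col : N → Bool
  nb : N → Bool → N
  pt : N → E3
  arc : N → N → Set E3

namespace Conf
variable (C : Conf N)

def grid {α : Type} (dl : N → N → α) : Grid N α := ⟨C.col, C.nb, dl⟩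

/-- the two arcs at `a` -/
def star (a : N) : Set E3 := C.arc a (C.nb a false) ∪ C.arc a (C.nb a true)

/-- the four arcs centred at `a` -/
def win (a : N) : Set E3 := C.star (C.nb a false) ∪ C.star (C.nb a true)

def supp : Set E3 := ⋃ a, C.star a

/-- distance at least three along the chain -/
def Far (a b : N) : Prop := a ≠ b ∧ (∀ s, C.nb a s ≠ b) ∧ ∀ s s', C.nb a s ≠ C.nb b s'

/-- coordinate `i` is strictly increasing along the window of `a`, run from side `s` to side `!s` -/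
structure Mono (i : Fin 3) (a : N) (s : Bool) : Prop where
  inj : InjOn (fun p : E3 => p i) (C.win a)
  lo₂ : ∀ t, C.nb (C.nb a s) t ≠ a → C.pt (C.nb (C.nb a s) t) i < C.pt (C.nb a s) i
  lo₁ : C.pt (C.nb a s) i < C.pt a i
  hi₁ : C.pt a i < C.pt (C.nb a (!s)) i
  hi₂ : ∀ t, C.nb (C.nb a (!s)) t ≠ a → C.pt (C.nb a (!s)) i < C.pt (C.nb (C.nb a (!s)) t) i

structure Valid (fa : Bool) : Prop where
  col_nb : ∀ a s, C.col (C.nb a s) = !C.col a
  nb_ne : ∀ a, C.nb a false ≠ C.nb a true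
  adj_symm : ∀ a s, ∃ s', C.nb (C.nb a s) s' = a
  arc_symm : ∀ a s, C.arc (C.nb a s) a = C.arc a (C.nb a s)
  isArc : ∀ a s, IsArc (C.arc a (C.nb a s)) (C.pt a) (C.pt (C.nb a s))
  sep : ∀ a b, C.Far a b → ∃ i, Sep i (C.star a) (C.star b) ∨ Sep i (C.star b) (C.star a)
  mono : ∀ a, ∃ i s, (fa = true → i ≠ 2) ∧ C.Mono i a s

/-- far stars are separated in the plane or by a height gap `d` -/
def Margin (d : ℝ) : Prop :=
  ∀ a b, C.Far a b → (∃ i, i ≠ 2 ∧ (Sep i (C.star a) (C.star b) ∨ Sep i (C.star b) (C.star a))) ∨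
    (∀ p ∈ C.star a, ∀ q ∈ C.star b, p 2 + d < q 2) ∨
    ∀ p ∈ C.star a, ∀ q ∈ C.star b, q 2 + d < p 2

/-- `dl` records component and direction of the arcs -/
def Lab (γ : κ → ℝ → E3) (dl : N → N → Arc κ) : Prop :=
  ∀ a s, ∃ c t t', t < t' ∧ t' < t + 1 ∧ C.arc a (C.nb a s) = γ c '' Icc t t' ∧
    ((C.pt a = γ c t ∧ C.pt (C.nb a s) = γ c t' ∧ dl a (C.nb a s) = ⟨c, true⟩) ∨
      (C.pt a = γ c t' ∧ C.pt (C.nb a s) = γ c t ∧ dl a (C.nb a s) = ⟨c, false⟩))

/-- the lists are sorted by the true coordinates -/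
structure Canon (R : Rz N) : Prop where
  ok : R.OK C.col
  z_eq : ∀ a, R.z a = C.pt a 2
  sortX : R.X.Pairwise fun a b => C.pt a 0 ≤ C.pt b 0
  sortY : R.Y.Pairwise fun a b => C.pt a 1 ≤ C.pt b 1

/-- the lists share a certificate with the true coordinates -/
structure Good [DecidableEq N] (fa : Bool) (R : Rz N) : Prop where
  ok : R.OK C.col
  z_eq : ∀ a, R.z a = C.pt a 2
  cpt : (C.grid fun _ _ => ()).Cpt fa (fun a b => R.ltX a b ∧ C.pt a 0 < C.pt b 0)
    (fun a b => R.ltY a b ∧ C.pt a 1 < C.pt b 1) (fun a b => C.pt a 2 < C.pt b 2) fun _ _ => True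

end Conf

/-- `w` is the word of a certified subdivision of the link `γ` -/
def HasWord (fa : Bool) (γ : κ → ℝ → E3) (w : List (Sl (Arc κ))) : Prop :=
  ∃ (N : Type) (_ : Fintype N) (_ : DecidableEq N) (C : Conf N) (dl : N → N → Arc κ) (R : Rz N),
    C.Valid fa ∧ C.supp = trace γ ∧ C.Lab γ dl ∧ C.Good fa R ∧ w = (C.grid dl).word R

/-- the link together with its push-off along the framing -/
noncomputable def Lk.dbl (L : Lk κ) (δ : ℝ) : κ ⊕ κ → ℝ → E3 :=
  Sum.elim L.γ fun c t => L.γ c t + δ • L.ν c t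

def Lk.Small (L : Lk κ) (δ : ℝ) : Prop := 0 < δ ∧ ∀ δ' ∈ Ioc 0 δ, IsU (L.dbl δ')

/-- `f c` is the framing number of component `c` -/
def Lk.FrIs [DecidableEq κ] (L : Lk κ) (f : κ → ℤ) : Prop :=
  ∃ δ W, L.Small δ ∧ HasWord false (L.dbl δ) W ∧ ∀ c, f c = lko (Sum.inl c) (Sum.inr c) W

def ZvIs (E : EvSys ι P) (S : LS ι) (x : P → ℂ) : Prop :=
  ∃ (κ : Type) (_ : Fintype κ) (_ : DecidableEq κ) (L : Lk κ) (ℓ : κ → Option ι)
    (w : List (Sl (Arc κ))) (f : κ → ℤ),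
    L.IsLink ∧ S = L.set ℓ ∧ HasWord false L.γ w ∧ L.FrIs f ∧ x = fun p => E.cev p ℓ w f

/-- the value of a labelled framed link -/
noncomputable def zv (E : EvSys ι P) (S : LS ι) : P → ℂ := Classical.epsilon (ZvIs E S)

/-- the open cube -/
def Qb (r : ℝ) : Set E3 := {p | ∀ i, |p i| < r}

/-- an orientation preserving embedding of the open set `D` -/
structure PosOn (ψ : E3 → E3) (D : Set E3) : Prop where
  smooth : ContDiffOn ℝ ∞ ψ D
  inj : InjOn ψ D
  pos : ∀ p ∈ D, 0 < (fderiv ℝ ψ p).det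

/-- labelled pictures (to be framed vertically) -/
abbrev Pic (ι : Type) : Type := Set (Option ι × E3)

/-- over the image of the cube, `S` is the image of the picture with the vertical framing -/
def GIns (ψ : E3 → E3) (S : LS ι) (A : Pic ι) : Prop :=
  {x ∈ S | x.2.1 ∈ ψ '' Qb (9 / 8)} =
    (fun y => (y.1, ψ y.2, fderiv ℝ ψ y.2 ez)) '' {y ∈ A | y.2 ∈ Qb (9 / 8)}

/-- the part of `S` outside the image of the cube -/
def GOut (ψ : E3 → E3) (S : LS ι) : LS ι := {x ∈ S | x.2.1 ∉ ψ '' Qb (9 / 8)}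

/-- a picture made of skein strands -/
def nn (A : Set E3) : Pic ι := {none} ×ˢ A

/-- straight labelled strands in the plane `z = 0` -/
def strands (xs : List (ℝ × Option ι)) : Pic ι :=
  {y | ∃ x ∈ xs, y.1 = x.2 ∧ y.2 0 = x.1 ∧ y.2 2 = 0}

/-- admissible positions of strands -/
def PosOK (xs : List ℝ) : Prop := xs.Pairwise (· < ·) ∧ ∀ x ∈ xs, |x| ≤ 1 / 4

/-- a loop around the strands: its lower half is in front of them -/
def encLoop : Set E3 :=
  range fun t : ℝ => !₂[Real.cos t / 2, st (Real.sin t) / 2, -st (Real.sin t) / 2]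

/-- a planar cap from the strand at `x₀` to the strand at `x₁` -/
structure CapData (x₀ x₁ : ℝ) (hx hy : ℝ → ℝ) (a u₁ u₀ u₂ b : ℝ) : Prop where
  lt₁ : a < u₁
  lt₂ : u₁ < u₀
  lt₃ : u₀ < u₂
  lt₄ : u₂ < b
  contx : ContinuousOn hx (Icc a b)
  conty : ContinuousOn hy (Icc a b)
  left : ∀ u ∈ Icc a u₁, hx u = x₀
  right : ∀ u ∈ Icc u₂ b, hx u = x₁
  monox : StrictMonoOn hx (Icc u₁ u₂)
  up : StrictMonoOn hy (Icc a u₀)
  down : StrictAntiOn hy (Icc u₀ b)
  top : hy u₀ < 0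
  lo₁ : -3 / 4 < hy u₁
  lo₂ : -3 / 4 < hy u₂
  bot₁ : hy a ≤ -9 / 8
  bot₂ : hy b ≤ -9 / 8

/-- the cap and its mirror image -/
def capCup (hx hy : ℝ → ℝ) (a b : ℝ) : Set E3 :=
  (fun u => !₂[hx u, hy u, 0]) '' Icc a b ∪ (fun u => !₂[hx u, -hy u, 0]) '' Icc a b

/-- straight strands -/
def vlines (xs : List ℝ) : Set E3 := {p | p 0 ∈ xs ∧ p 2 = 0}

/-- abscissa of the standard cap -/
noncomputable def capx (x₀ x₁ u : ℝ) : ℝ := (x₀ + x₁) / 2 + (x₁ - x₀) / 2 * st u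

/-- the picture of the Temperley-Lieb generator `e i` -/
def eSet (xs : List ℝ) (i : ℕ) : Set E3 :=
  vlines (xs.take i ++ xs.drop (i + 2)) ∪
    (range (fun u : ℝ => !₂[capx (xs.getD i 0) (xs.getD (i + 1) 0) u, -1 / 4 - u ^ 2, 0]) ∪
      range fun u : ℝ => !₂[capx (xs.getD i 0) (xs.getD (i + 1) 0) u, 1 / 4 + u ^ 2, 0])

/-- squeeze in the `y`-direction -/
noncomputable def sq (σ : ℝ) (p : E3) : E3 := !₂[p 0, 3 / 8 * (p 1 + σ), p 2]

/-- the picture of a product of generators; the first one is the lowest -/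
def stackSet (xs : List ℝ) : List ℕ → Set E3
  | [] => vlines xs
  | i :: w => sq (-1) '' (eSet xs i ∩ {p | p 1 ≤ 1}) ∪ sq 1 '' (stackSet xs w ∩ {p | -1 ≤ p 1})

end Pool.Agent.P.MP_ac4909_gt.B
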