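import Pool.Agent.P.MP_ac4909_gt.B.Statement

/-!
Layer H: the handle data of a compact oriented 3-manifold.  `Φ` is a gradient-like flow; its
sources are the vertices and the stable curves of its saddles with two expanding directions are the edges of a
graph `gs`; everything outside the graph flows into an open set `U` that embeds in `ℝ³`.
-/

namespace Pool.Agent.P.MP_ac4909_gt.B

open scoped Manifold ContDiff
open Set Metric

/-- distance from the vertical axis -/
noncomputable def rad (p : E3) : ℝ := √(p 0 ^ 2 + p 1 ^ 2)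

/-- the domain of an edge chart -/
def Dom : Set E3 := {p | rad p * |p 2| < 1}

/-- the linear saddle flow -/
noncomputable def sad (t : ℝ) (p : E3) : E3 :=
  !₂[Real.exp t * p 0, Real.exp t * p 1, Real.exp (-t) * p 2]

/-- the vertical axis -/
def axis : Set E3 := {p | p 0 = 0 ∧ p 1 = 0}

variable {M : Type*} [TopologicalSpace M] [ChartedSpace E3 M]

/-- a positively oriented smooth parametrisation of an open subset of `M` -/
structure IsPChart (e : OpenPartialHomeomorph E3 M) : Prop where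
  smooth : ContMDiffOn (𝓡 3) (𝓡 3) ∞ e e.source
  smooth_symm : ContMDiffOn (𝓡 3) (𝓡 3) ∞ e.symm e.target
  pos : ∀ p ∈ e.source, 0 < (jac e p).det

/-- the graph with vertices `cv v 0` and edges `ce e '' axis` -/
def gs {ι Vx : Type} (cv : Vx → OpenPartialHomeomorph E3 M)
    (ce : ι → OpenPartialHomeomorph E3 M) : Set M :=
  (⋃ e, ce e '' axis) ∪ range fun v => cv v 0

structure HD (M : Type*) [TopologicalSpace M] [ChartedSpace E3 M] (ι Vx : Type) where
  Φ : ℝ → M → M
  Φ_smooth : ContMDiff (𝓘(ℝ, ℝ).prod (𝓡 3)) (𝓡 3) ∞ fun p : ℝ × M => Φ p.1 p.2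
  Φ_zero : ∀ x, Φ 0 x = x
  Φ_add : ∀ s t x, Φ (s + t) x = Φ s (Φ t x)
  Φ_pos : ∀ t x, 0 < (jac (Φ t) x).det
  cv : Vx → OpenPartialHomeomorph E3 M
  cv_chart : ∀ v, IsPChart (cv v)
  cv_source : ∀ v, (cv v).source = univ
  cv_flow : ∀ v t p, Φ t (cv v p) = cv v (Real.exp t • p)
  cv_disj : Pairwise fun v v' => Disjoint (cv v).target (cv v').target
  ce : ι → OpenPartialHomeomorph E3 M
  ce_chart : ∀ e, IsPChart (ce e)
  ce_source : ∀ e, (ce e).source = Dom
  ce_flow : ∀ e t, ∀ p ∈ Dom, Φ t (ce e p) = ce e (sad t p)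
  ce_disj : Pairwise fun e e' => Disjoint (ce e).target (ce e').target
  cv_zero : ∀ v e, cv v 0 ∉ (ce e).target
  ends : ∀ e (σ : ℝ), σ = 1 ∨ σ = -1 →
    ∃ v C, ∀ p ∈ Dom, p 2 = σ → ∃ d, ‖d‖ ≤ C ∧ ce e p = cv v d
  j : M → E3
  j_smooth : ContMDiff (𝓡 3) (𝓡 3) ∞ j
  U : Set M
  U_open : IsOpen U
  j_inj : InjOn j U
  j_pos : ∀ x ∈ U, 0 < (jac j x).det
  attract : ∀ C, IsCompact C → Disjoint C (gs cv ce) → ∃ T, ∀ t ≥ T, MapsTo (Φ t) C U

/-- the graph of the handle data -/
def HD.gs {ι Vx : Type} (H : HD M ι Vx) : Set M := B.gs H.cv H.ce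

end Pool.Agent.P.MP_ac4909_gt.B
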