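import Pool.Agent.P.MP_ac4909_gt.B.MArc_cl

/-! Compact sets that are locally framed arcs are links; surgery inside a cube. -/

namespace Pool.Agent.P.MP_ac4909_gt.B

open scoped Manifold ContDiff
open Set Filter Topology

variable {M : Type*} [TopologicalSpace M] [T2Space M] [ChartedSpace E3 M]
  [IsManifold (𝓡 3) ∞ M] {S : Set (TM M)}

/-- a closed picture that is locally a smooth embedded arc with nowhere vertical tangent -/
def PicArc (A : Set E3) : Prop :=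
  IsClosed A ∧ ∀ p ∈ A, ∃ (g : ℝ → E3) (t₀ : ℝ), g t₀ = p ∧
    (∀ᶠ t in 𝓝 t₀, ContDiffAt ℝ ∞ g t ∧ g t ∈ A) ∧ LinearIndependent ℝ ![deriv g t₀, ez] ∧
    ∀ U ∈ 𝓝 t₀, ∃ W ∈ 𝓝 p, A ∩ W ⊆ g '' U

/-- the local condition of `PicArc` -/
def ArcAt (A : Set E3) (p : E3) : Prop :=
  ∃ (g : ℝ → E3) (t₀ : ℝ), g t₀ = p ∧
    (∀ᶠ t in 𝓝 t₀, ContDiffAt ℝ ∞ g t ∧ g t ∈ A) ∧ LinearIndependent ℝ ![deriv g t₀, ez] ∧
    ∀ U ∈ 𝓝 t₀, ∃ W ∈ 𝓝 p, A ∩ W ⊆ g '' U

/-- the local condition of `GermArc` -/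
def GermAt (S : Set (TM M)) (x : TM M) : Prop :=
  ∃ (g : ℝ → TM M) (t₀ : ℝ), g t₀ = x ∧
    (∀ᶠ t in 𝓝 t₀, ContMDiffAt 𝓘(ℝ, ℝ) (𝓡 3).tangent ∞ g t ∧ g t ∈ S) ∧
    LinearIndependent ℝ ![vel (fun u => (g u).proj) t₀, (x.snd : E3)] ∧
    ∀ U ∈ 𝓝 t₀, ∃ W ∈ 𝓝 x.proj, ∀ y ∈ S, y.proj ∈ W → y ∈ g '' U

theorem ArcAt.congr {A B : Set E3} {p : E3} (h : ArcAt A p) {O : Set E3} (hO : O ∈ 𝓝 p)
    (he : ∀ q ∈ O, q ∈ A ↔ q ∈ B) : ArcAt B p := by
  obtain ⟨g, t₀, rfl, hs, hi, hW⟩ := h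
  have hc : ContinuousAt g t₀ := hs.self_of_nhds.1.continuousAt
  refine ⟨g, t₀, rfl, ?_, hi, fun U hU => ?_⟩
  · filter_upwards [hs, hc hO] with t ht ht'
    exact ⟨ht.1, (he _ ht').1 ht.2⟩
  · obtain ⟨W, hW, hsub⟩ := hW U hU
    exact ⟨W ∩ O, inter_mem hW hO, fun q hq => hsub ⟨(he q hq.2.2).2 hq.1, hq.2.1⟩⟩

omit [T2Space M] in
theorem GermAt.congr {S S' : Set (TM M)} {x : TM M} (h : GermAt S x) {O : Set M}
    (hO : O ∈ 𝓝 x.proj) (he : ∀ y : TM M, y.proj ∈ O → (y ∈ S ↔ y ∈ S')) : GermAt S' x := by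
  obtain ⟨g, t₀, rfl, hs, hi, hW⟩ := h
  have hc : ContinuousAt (fun u => (g u).proj) t₀ :=
    (contMDiffAt_proj hs.self_of_nhds.1).continuousAt
  refine ⟨g, t₀, rfl, ?_, hi, fun U hU => ?_⟩
  · filter_upwards [hs, hc hO] with t ht ht'
    exact ⟨ht.1, (he _ ht').1 ht.2⟩
  · obtain ⟨W, hW, hsub⟩ := hW U hU
    exact ⟨W ∩ O, inter_mem hW hO, fun y hy hy' => hsub y ((he y hy'.2).2 hy) hy'.1⟩

omit [T2Space M] in
theorem ArcAt.push {ψ : E3 → M} {D : Set E3} (hψ : MPosOn ψ D) (hD : IsOpen D) {A : Set E3}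
    {p : E3} (h : ArcAt A p) (hp : p ∈ D) :
    GermAt ((fun q => pushT ψ q ez) '' (A ∩ D)) (pushT ψ p ez) := by
  obtain ⟨g, t₀, rfl, hs, hi, hW⟩ := h
  have hc : ContinuousAt g t₀ := hs.self_of_nhds.1.continuousAt
  have hsm : ∀ q ∈ D, ContMDiffAt (𝓡 3) (𝓡 3) ∞ ψ q := fun q hq =>
    (hψ.smooth q hq).contMDiffAt (hD.mem_nhds hq)
  refine ⟨fun t => pushT ψ (g t) ez, t₀, rfl, ?_, ?_, fun U hU => ?_⟩
  · filter_upwards [hs, hc (hD.mem_nhds hp)] with t ht ht'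
    exact ⟨contMDiffAt_pushT (hsm _ ht') ht.1 contDiffAt_const, g t, ⟨ht.2, ht'⟩, rfl⟩
  · have h1 := vel_comp (h := ψ) (γ := g) (t := t₀) ((hsm _ hp).mdifferentiableAt (by simp))
      (hs.self_of_nhds.1.differentiableAt (by simp)).mdifferentiableAt
    rw [vel_eq_deriv] at h1
    have h2 := indep_map (injective_of_det_ne (hψ.pos _ hp).ne') hi
    rw [← h1] at h2
    exact h2
  · obtain ⟨W, hW, hsub⟩ := hW U hU
    obtain ⟨e, -, hes, he⟩ := hψ.exists_chart hD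
    refine ⟨ψ '' (W ∩ D), ?_, ?_⟩
    · have h1 := e.image_mem_nhds (x := g t₀) (hes ▸ hp) (inter_mem hW (hD.mem_nhds hp))
      rw [he] at h1
      exact h1
    · rintro y ⟨q, ⟨hqA, hqD⟩, rfl⟩ ⟨w, ⟨hwW, hwD⟩, hw⟩
      have h1 : w = q := hψ.inj hwD hqD hw
      subst h1
      obtain ⟨t, ht, rfl⟩ := hsub ⟨hqA, hwW⟩
      exact ⟨t, ht, rfl⟩

theorem marc_Qb_mono {r r' : ℝ} (h : r ≤ r') : Qb r ⊆ Qb r' := fun _ hp i => (hp i).trans_le h

omit [T2Space M] [IsManifold (𝓡 3) ∞ M] in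
theorem marc_mIns_iff {ι : Type} {ψ : E3 → M} {A : Set E3} :
    MIns ψ (nl S : LM ι M) (nn A) ↔
      {x ∈ S | x.proj ∈ ψ '' Qb (9 / 8)} = (fun q => pushT ψ q ez) '' (A ∩ Qb (9 / 8)) := by
  unfold MIns
  constructor
  · intro h
    ext x
    constructor
    · rintro ⟨hx, hx'⟩
      have h1 : ((none, x) : Option ι × TM M) ∈
          {x ∈ (nl S : LM ι M) | x.2.proj ∈ ψ '' Qb (9 / 8)} := ⟨⟨rfl, hx⟩, hx'⟩
      rw [h] at h1
      obtain ⟨y, ⟨hy, hy'⟩, he⟩ := h1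
      exact ⟨y.2, ⟨hy.2, hy'⟩, congrArg Prod.snd he⟩
    · rintro ⟨q, ⟨hq, hq'⟩, rfl⟩
      have h1 : ((none, pushT ψ q ez) : Option ι × TM M) ∈
          (fun y : Option ι × E3 => (y.1, pushT ψ y.2 ez)) ''
            {y ∈ (nn A : Pic ι) | y.2 ∈ Qb (9 / 8)} := ⟨(none, q), ⟨⟨rfl, hq⟩, hq'⟩, rfl⟩
      rw [← h] at h1
      exact ⟨h1.1.2, h1.2⟩
  · intro h
    ext x
    constructor
    · rintro ⟨⟨hx0, hx⟩, hx'⟩
      have h1 : x.2 ∈ {x ∈ S | x.proj ∈ ψ '' Qb (9 / 8)} := ⟨hx, hx'⟩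
      rw [h] at h1
      obtain ⟨q, ⟨hq, hq'⟩, he⟩ := h1
      exact ⟨(none, q), ⟨⟨rfl, hq⟩, hq'⟩, Prod.ext hx0.symm he⟩
    · rintro ⟨y, ⟨⟨hy0, hy⟩, hy'⟩, rfl⟩
      have h1 : pushT ψ y.2 ez ∈ (fun q => pushT ψ q ez) '' (A ∩ Qb (9 / 8)) :=
        ⟨y.2, ⟨hy, hy'⟩, rfl⟩
      rw [← h] at h1
      exact ⟨⟨hy0, h1.1⟩, h1.2⟩

theorem exists_surgery [CompactSpace M] (ι : Type) (h : IsLS S) {ψ : E3 → M}
    (hψ : MPosOn ψ (Qb (5 / 4))) {A A' : Set E3} (hA : MIns ψ (nl S : LM ι M) (nn A))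
    (hA' : PicArc A') (he : ∀ p ∈ Qb (9 / 8), p ∉ Qb 1 → (p ∈ A' ↔ p ∈ A)) :
    ∃ S', IsLS S' ∧ MIns ψ (nl S' : LM ι M) (nn A') ∧
      MOut ψ (nl S' : LM ι M) = MOut ψ (nl S) := by
  rw [marc_mIns_iff] at hA
  have h95 : Qb (9 / 8) ⊆ Qb (5 / 4) := marc_Qb_mono (by norm_num)
  have h19 : Qb 1 ⊆ Qb (9 / 8) := marc_Qb_mono (by norm_num)
  have hc19 : closure (Qb 1) ⊆ Qb (9 / 8) := closure_Qb_subset (by norm_num)
  have hψ' : MPosOn ψ (Qb (9 / 8)) := hψ.mono h95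
  have hopen : ∀ r ≤ (9 / 8 : ℝ), IsOpen (ψ '' Qb r) := by
    intro r hr
    obtain ⟨e, -, hes, he⟩ := hψ'.exists_chart (isOpen_Qb _)
    have h1 := e.isOpen_image_of_subset_source (isOpen_Qb r) (hes ▸ marc_Qb_mono hr)
    rw [he] at h1
    exact h1
  have hin : ∀ y ∈ S, y.proj ∈ ψ '' Qb (9 / 8) →
      ∃ q ∈ A, q ∈ Qb (9 / 8) ∧ pushT ψ q ez = y := by
    intro y hy hy'
    have h1 : y ∈ {x ∈ S | x.proj ∈ ψ '' Qb (9 / 8)} := ⟨hy, hy'⟩
    rw [hA] at h1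
    obtain ⟨q, ⟨hq, hq'⟩, hq''⟩ := h1
    exact ⟨q, hq, hq', hq''⟩
  have hin' : ∀ q ∈ A, q ∈ Qb (9 / 8) → pushT ψ q ez ∈ S := by
    intro q hq hq'
    have h1 : pushT ψ q ez ∈ (fun q => pushT ψ q ez) '' (A ∩ Qb (9 / 8)) := ⟨q, ⟨hq, hq'⟩, rfl⟩
    rw [← hA] at h1
    exact h1.1
  set S' : Set (TM M) := {x ∈ S | x.proj ∉ ψ '' Qb (9 / 8)} ∪
    (fun q => pushT ψ q ez) '' (A' ∩ Qb (9 / 8)) with hS'
  have hout : ∀ y : TM M, y.proj ∉ ψ '' Qb 1 → (y ∈ S ↔ y ∈ S') := by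
    intro y hy
    constructor
    · intro hyS
      by_cases h9 : y.proj ∈ ψ '' Qb (9 / 8)
      · obtain ⟨q, hq, hq', rfl⟩ := hin y hyS h9
        exact Or.inr ⟨q, ⟨(he q hq' fun h1 => hy ⟨q, h1, rfl⟩).2 hq, hq'⟩, rfl⟩
      · exact Or.inl ⟨hyS, h9⟩
    · rintro (hyS | ⟨q, ⟨hq, hq'⟩, rfl⟩)
      · exact hyS.1
      · exact hin' q ((he q hq' fun h1 => hy ⟨q, h1, rfl⟩).1 hq) hq'
  have hins : ∀ y : TM M, y.proj ∈ ψ '' Qb (9 / 8) →
      (y ∈ (fun q => pushT ψ q ez) '' (A' ∩ Qb (9 / 8)) ↔ y ∈ S') := by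
    intro y hy
    exact ⟨fun h1 => Or.inr h1, fun h1 => h1.elim (fun h2 => (h2.2 hy).elim) id⟩
  have hsm : ∀ q ∈ Qb (9 / 8), ContMDiffAt (𝓡 3) (𝓡 3) ∞ ψ q := fun q hq =>
    (hψ'.smooth q hq).contMDiffAt ((isOpen_Qb _).mem_nhds hq)
  refine ⟨S', GermArc.isLS ?_ ?_, ?_, ?_⟩
  · intro x hx
    change GermAt S' x
    rcases hx with hx | ⟨q, ⟨hq, hq'⟩, rfl⟩
    · have h1 : IsCompact (ψ '' closure (Qb 1)) :=
        (isCompact_closure_Qb 1).image_of_continuousOn fun q hq =>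
          (hsm q (hc19 hq)).continuousAt.continuousWithinAt
      refine GermAt.congr (h.germArc x hx.1) (O := (ψ '' closure (Qb 1))ᶜ)
        (h1.isClosed.isOpen_compl.mem_nhds fun h2 => hx.2 (image_mono hc19 h2)) ?_
      exact fun y hy => hout y fun h2 => hy (image_mono subset_closure h2)
    · exact (ArcAt.push hψ' (isOpen_Qb _) (hA'.2 q hq) hq').congr
        ((hopen _ le_rfl).mem_nhds ⟨q, hq', rfl⟩) hins
  · have h1 : S' = (S ∩ (fun x : TM M => x.proj) ⁻¹' (ψ '' Qb 1)ᶜ) ∪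
        (fun q => pushT ψ q ez) '' (closure (Qb 1) ∩ A') := by
      ext y
      constructor
      · intro hy
        by_cases h2 : y.proj ∈ ψ '' Qb 1
        · rcases hy with hy | ⟨q, ⟨hq, hq'⟩, rfl⟩
          · exact (hy.2 (image_mono h19 h2)).elim
          · obtain ⟨w, hw, hw'⟩ := h2
            have h3 : w = q := hψ'.inj (h19 hw) hq' hw'
            exact Or.inr ⟨q, ⟨subset_closure (h3 ▸ hw), hq⟩, rfl⟩
        · exact Or.inl ⟨(hout y h2).2 hy, h2⟩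
      · rintro (hy | ⟨q, ⟨hq, hq'⟩, rfl⟩)
        · exact (hout y hy.2).1 hy.1
        · exact Or.inr ⟨q, ⟨hq', hc19 hq⟩, rfl⟩
    rw [h1]
    refine IsCompact.union (h.isCompact.inter_right ?_) ?_
    · exact (hopen 1 (by norm_num)).isClosed_compl.preimage
        (FiberBundle.continuous_proj E3 (TangentSpace (𝓡 3) (M := M)))
    · refine ((isCompact_closure_Qb 1).inter_right hA'.1).image_of_continuousOn fun q hq => ?_
      exact (contMDiffAt_pushT (X := E3) (g := fun q => q) (n := fun _ => ez)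
        (hsm q (hc19 hq.1)) contDiffAt_id contDiffAt_const).continuousAt.continuousWithinAt
  · rw [marc_mIns_iff]
    ext y
    constructor
    · rintro ⟨hy, hy'⟩
      exact (hins y hy').2 hy
    · rintro ⟨q, hq, rfl⟩
      exact ⟨Or.inr ⟨q, hq, rfl⟩, q, hq.2, rfl⟩
  · ext x
    constructor
    · rintro ⟨⟨hx0, hx⟩, hx'⟩
      exact ⟨⟨hx0, (hout _ fun h2 => hx' (image_mono h19 h2)).2 hx⟩, hx'⟩
    · rintro ⟨⟨hx0, hx⟩, hx'⟩
      exact ⟨⟨hx0, (hout _ fun h2 => hx' (image_mono h19 h2)).1 hx⟩, hx'⟩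

theorem marc_indep {a : E3} (h : a 0 ≠ 0 ∨ a 1 ≠ 0) : LinearIndependent ℝ ![a, ez] := by
  rw [LinearIndependent.pair_iff]
  intro s t hst
  have h0 := congrArg (fun v : E3 => v 0) hst
  have h1 := congrArg (fun v : E3 => v 1) hst
  have h2 := congrArg (fun v : E3 => v 2) hst
  simp [ez] at h0 h1 h2
  have hs : s = 0 := by tauto
  subst hs
  exact ⟨rfl, by simpa using h2⟩

theorem marc_of_indep {a : E3} (h : LinearIndependent ℝ ![a, ez]) : a 0 ≠ 0 ∨ a 1 ≠ 0 := by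
  rw [LinearIndependent.pair_iff] at h
  by_contra hn
  push Not at hn
  have h1 := (h 1 (-a 2) ?_).1
  · exact one_ne_zero h1
  · ext i
    fin_cases i <;> simp [ez, hn.1, hn.2]

theorem marc_contDiff {a b c : ℝ → ℝ} (ha : ContDiff ℝ ∞ a) (hb : ContDiff ℝ ∞ b)
    (hc : ContDiff ℝ ∞ c) : ContDiff ℝ ∞ fun u => (!₂[a u, b u, c u] : E3) := by
  rw [contDiff_euclidean]
  intro i
  fin_cases i
  · exact ha
  · exact hb
  · exact hc

theorem marc_deriv_apply {f : ℝ → E3} {u : ℝ} (hf : DifferentiableAt ℝ f u) (i : Fin 3) :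
    deriv f u i = deriv (fun t => f t i) u :=
  ((EuclideanSpace.proj (𝕜 := ℝ) i).hasFDerivAt.comp_hasDerivAt u hf.hasDerivAt).deriv.symm

theorem picArc_empty : PicArc ∅ := ⟨isClosed_empty, fun _ hp => hp.elim⟩

theorem PicArc.union {A B : Set E3} (hA : PicArc A) (hB : PicArc B) (hd : Disjoint A B) :
    PicArc (A ∪ B) := by
  refine ⟨hA.1.union hB.1, ?_⟩
  rintro p (hp | hp)
  · exact ArcAt.congr (hA.2 p hp) (hB.1.isOpen_compl.mem_nhds (disjoint_left.1 hd hp))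
      fun q hq => ⟨Or.inl, fun h => h.elim id fun h => (hq h).elim⟩
  · exact ArcAt.congr (hB.2 p hp) (hA.1.isOpen_compl.mem_nhds (disjoint_right.1 hd hp))
      fun q hq => ⟨Or.inr, fun h => h.elim (fun h => (hq h).elim) id⟩

/-- a proper injective planar immersion -/
theorem picArc_range {a b : ℝ → ℝ} (ha : ContDiff ℝ ∞ a) (hb : ContDiff ℝ ∞ b)
    (hi : ∀ u v, a u = a v → b u = b v → u = v) (hd : ∀ u, deriv a u ≠ 0 ∨ deriv b u ≠ 0)
    (hp : ∀ u, |u| ≤ |b u|) : PicArc (range fun u => (!₂[a u, b u, 0] : E3)) := by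
  set f : ℝ → E3 := fun u => !₂[a u, b u, 0] with hf
  have hs : ContDiff ℝ ∞ f := marc_contDiff ha hb contDiff_const
  have hinj : Function.Injective f := fun u v h =>
    hi u v (congrArg (fun p : E3 => p 0) h) (congrArg (fun p : E3 => p 1) h)
  have hcl : IsClosedMap f := by
    refine (isProperMap_iff_tendsto_cocompact.2 ⟨hs.continuous, ?_⟩).isClosedMap
    refine tendsto_cocompact_cocompact_of_norm fun ε => ⟨ε, fun u hu => ?_⟩
    exact hu.trans_le ((hp u).trans (PiLp.norm_apply_le (f u) 1))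
  refine ⟨hcl.isClosed_range, ?_⟩
  rintro _ ⟨u, rfl⟩
  refine ⟨f, u, rfl, Eventually.of_forall fun t => ⟨hs.contDiffAt, t, rfl⟩, marc_indep ?_,
    fun U hU => ?_⟩
  · rw [marc_deriv_apply (hs.differentiable (by simp) u),
      marc_deriv_apply (hs.differentiable (by simp) u)]
    exact hd u
  · refine ⟨(f '' (interior U)ᶜ)ᶜ, (hcl _ isOpen_interior.isClosed_compl).isOpen_compl.mem_nhds ?_,
      ?_⟩
    · rintro ⟨v, hv, hv'⟩
      exact hv (hinj hv' ▸ mem_interior_iff_mem_nhds.2 hU)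
    · rintro _ ⟨⟨v, rfl⟩, hv⟩
      refine ⟨v, interior_subset ?_, rfl⟩
      by_contra h
      exact hv ⟨v, h, rfl⟩

theorem marc_mem_range {a b : ℝ → ℝ} {p : E3} :
    p ∈ (range fun u => (!₂[a u, b u, 0] : E3)) ↔ ∃ u, p 0 = a u ∧ p 1 = b u ∧ p 2 = 0 := by
  constructor
  · rintro ⟨u, rfl⟩
    exact ⟨u, rfl, rfl, rfl⟩
  · rintro ⟨u, h0, h1, h2⟩
    refine ⟨u, ?_⟩
    ext i
    fin_cases i
    · exact h0.symm
    · exact h1.symm
    · exact h2.symm

theorem picArc_vlines (xs : List ℝ) : PicArc (vlines xs) := by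
  induction xs with
  | nil =>
    have h : vlines [] = ∅ := by
      ext p
      simp [vlines]
    rw [h]
    exact picArc_empty
  | cons x xs ih =>
    by_cases hx : x ∈ xs
    · have h : vlines (x :: xs) = vlines xs := by
        ext p
        simp only [vlines, List.mem_cons, mem_ofPred_eq]
        exact and_congr_left fun _ => ⟨fun h => h.elim (fun h => h ▸ hx) id, Or.inr⟩
      rw [h]
      exact ih
    · have h : vlines (x :: xs) = (range fun u : ℝ => (!₂[x, u, 0] : E3)) ∪ vlines xs := by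
        ext p
        rw [mem_union, marc_mem_range (a := fun _ => x) (b := fun u => u)]
        simp only [vlines, List.mem_cons, mem_ofPred_eq]
        constructor
        · rintro ⟨h | h, h'⟩
          · exact Or.inl ⟨p 1, h, rfl, h'⟩
          · exact Or.inr ⟨h, h'⟩
        · rintro (⟨u, h, -, h'⟩ | ⟨h, h'⟩)
          · exact ⟨Or.inl h, h'⟩
          · exact ⟨Or.inr h, h'⟩
      rw [h]
      refine PicArc.union (picArc_range (a := fun _ => x) (b := fun u => u) contDiff_const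
        contDiff_id (fun u v _ h => h) (fun u => Or.inr (by simp)) fun u => le_rfl) ih ?_
      rw [disjoint_left]
      rintro _ ⟨u, rfl⟩ hp
      exact hx hp.1

theorem marc_st_zero : st 0 = 0 := by
  have h := st_neg 0
  rw [neg_zero] at h
  linarith

theorem marc_st_eq_zero {v : ℝ} (h : st v = 0) : v = 0 := by
  rcases le_total v (-1 / 2) with h1 | h1
  · rw [st_of_le h1] at h
    norm_num at h
  · rcases le_total (1 / 2) v with h2 | h2
    · rw [st_of_ge h2] at h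
      norm_num at h
    · exact st_strictMonoOn.injOn ⟨h1, h2⟩ ⟨by norm_num, by norm_num⟩ (h.trans marc_st_zero.symm)

theorem picArc_cap {x₀ x₁ : ℝ} (hx : x₀ < x₁) {b : ℝ → ℝ} {c : ℝ} (hc : c = 1 ∨ c = -1)
    (hb : ∀ u, b u = c * (1 / 4 + u ^ 2)) :
    PicArc (range fun u => (!₂[capx x₀ x₁ u, b u, 0] : E3)) := by
  obtain rfl : b = fun u => c * (1 / 4 + u ^ 2) := funext hb
  have hc0 : c ≠ 0 := by rcases hc with rfl | rfl <;> norm_num
  have hx' : (x₁ - x₀) / 2 ≠ 0 := (by linarith : 0 < (x₁ - x₀) / 2).ne'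
  refine picArc_range (contDiff_const.add (contDiff_const.mul st_contDiff)) (by fun_prop) ?_ ?_ ?_
  · intro u v h1 h2
    have h3 : st u = st v := mul_left_cancel₀ hx' (add_left_cancel h1)
    have h4 : u ^ 2 = v ^ 2 := add_left_cancel (mul_left_cancel₀ hc0 h2)
    rcases sq_eq_sq_iff_eq_or_eq_neg.1 h4 with h5 | h5
    · exact h5
    · rw [h5, st_neg] at h3
      have h6 : v = 0 := marc_st_eq_zero (by linarith)
      rw [h5, h6, neg_zero]
  · intro u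
    by_cases hu : u = 0
    · left
      have h1 : HasDerivAt (capx x₀ x₁) ((x₁ - x₀) / 2 * deriv st u) u :=
        (((st_contDiff.differentiable (by simp)) u).hasDerivAt.const_mul _).const_add _
      rw [h1.deriv]
      exact mul_ne_zero hx' (deriv_st_pos (by rw [hu]; norm_num)).ne'
    · right
      have h1 : HasDerivAt (fun u : ℝ => c * (1 / 4 + u ^ 2)) (c * (2 * u)) u := by
        have h2 : HasDerivAt (fun u : ℝ => u ^ 2) (2 * u) u := by
          simpa using hasDerivAt_pow 2 u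
        exact (h2.const_add (1 / 4)).const_mul c
      rw [h1.deriv]
      exact mul_ne_zero hc0 (mul_ne_zero two_ne_zero hu)
  · intro u
    have h1 : |c| = 1 := by rcases hc with rfl | rfl <;> norm_num
    rw [abs_mul, h1, one_mul, abs_of_nonneg (a := 1 / 4 + u ^ 2) (by positivity), ← sq_abs u]
    nlinarith [sq_nonneg (|u| - 1 / 2)]

theorem marc_capx_mem {x₀ x₁ : ℝ} (hx : x₀ ≤ x₁) (u : ℝ) :
    x₀ ≤ capx x₀ x₁ u ∧ capx x₀ x₁ u ≤ x₁ := by
  have h := abs_le.1 (abs_st_le u)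
  unfold capx
  constructor <;> nlinarith [h.1, h.2]

theorem marc_split {xs : List ℝ} {i : ℕ} (hi : i + 2 ≤ xs.length) :
    xs = xs.take i ++ xs.getD i 0 :: xs.getD (i + 1) 0 :: xs.drop (i + 2) := by
  have h1 : i < xs.length := by omega
  have h2 : i + 1 < xs.length := by omega
  rw [List.getD_eq_getElem _ _ h1, List.getD_eq_getElem _ _ h2, ← List.drop_eq_getElem_cons h2,
    ← List.drop_eq_getElem_cons h1, List.take_append_drop]

theorem marc_mem_split {xs : List ℝ} {i : ℕ} (hi : i + 2 ≤ xs.length) {x : ℝ} :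
    x ∈ xs ↔ x ∈ xs.take i ++ xs.drop (i + 2) ∨ x = xs.getD i 0 ∨ x = xs.getD (i + 1) 0 := by
  conv_lhs => rw [marc_split hi]
  simp only [List.mem_append, List.mem_cons]
  tauto

theorem marc_order {xs : List ℝ} (hxs : xs.Pairwise (· < ·)) {i : ℕ} (hi : i + 2 ≤ xs.length) :
    xs.getD i 0 < xs.getD (i + 1) 0 ∧
      ∀ x ∈ xs.take i ++ xs.drop (i + 2), x < xs.getD i 0 ∨ xs.getD (i + 1) 0 < x := by
  rw [marc_split hi, List.pairwise_append, List.pairwise_cons, List.pairwise_cons] at hxs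
  obtain ⟨-, ⟨h1, h2, -⟩, h3⟩ := hxs
  refine ⟨h1 _ List.mem_cons_self, fun x hx => ?_⟩
  rcases List.mem_append.1 hx with hx | hx
  · exact Or.inl (h3 x hx _ List.mem_cons_self)
  · exact Or.inr (h2 x hx)

theorem marc_mem_eSet {xs : List ℝ} {i : ℕ} {p : E3} :
    p ∈ eSet xs i ↔ p 2 = 0 ∧ (p 0 ∈ xs.take i ++ xs.drop (i + 2) ∨
      ∃ u, p 0 = capx (xs.getD i 0) (xs.getD (i + 1) 0) u ∧ |p 1| = 1 / 4 + u ^ 2) := by
  unfold eSet
  rw [mem_union, mem_union, marc_mem_range, marc_mem_range]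
  constructor
  · rintro (h | ⟨u, h0, h1, h2⟩ | ⟨u, h0, h1, h2⟩)
    · exact ⟨h.2, Or.inl h.1⟩
    · refine ⟨h2, Or.inr ⟨u, h0, ?_⟩⟩
      rw [h1, abs_of_nonpos (by nlinarith [sq_nonneg u])]
      ring
    · refine ⟨h2, Or.inr ⟨u, h0, ?_⟩⟩
      rw [h1, abs_of_nonneg (by positivity)]
  · rintro ⟨h2, h | ⟨u, h0, h1⟩⟩
    · exact Or.inl ⟨h, h2⟩
    · rcases le_total 0 (p 1) with h | h
      · rw [abs_of_nonneg h] at h1
        exact Or.inr (Or.inr ⟨u, h0, h1, h2⟩)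
      · rw [abs_of_nonpos h] at h1
        exact Or.inr (Or.inl ⟨u, h0, by linarith, h2⟩)

theorem picArc_eSet {xs : List ℝ} (hxs : xs.Pairwise (· < ·)) {i : ℕ} (hi : i + 2 ≤ xs.length) :
    PicArc (eSet xs i) := by
  obtain ⟨h1, h2⟩ := marc_order hxs hi
  refine (picArc_vlines _).union (PicArc.union
    (picArc_cap h1 (c := -1) (Or.inr rfl) fun u => by ring)
    (picArc_cap h1 (c := 1) (Or.inl rfl) fun u => by ring) ?_) ?_
  · rw [disjoint_left]
    intro p hp hp'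
    obtain ⟨u, -, hu, -⟩ := marc_mem_range.1 hp
    obtain ⟨v, -, hv, -⟩ := marc_mem_range.1 hp'
    nlinarith [sq_nonneg u, sq_nonneg v]
  · rw [disjoint_left]
    intro p hp hp'
    have h3 : ∃ u, p 0 = capx (xs.getD i 0) (xs.getD (i + 1) 0) u := by
      rcases hp' with hp' | hp'
      · obtain ⟨u, hu, -⟩ := marc_mem_range.1 hp'
        exact ⟨u, hu⟩
      · obtain ⟨u, hu, -⟩ := marc_mem_range.1 hp'
        exact ⟨u, hu⟩
    obtain ⟨u, hu⟩ := h3
    have h4 := marc_capx_mem h1.le u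
    rcases h2 _ hp.1 with h5 | h5 <;> linarith [h4.1, h4.2]

theorem marc_eSet_far {xs : List ℝ} {i : ℕ} (hi : i + 2 ≤ xs.length) {p : E3}
    (hp : 1 / 2 ≤ |p 1|) : p ∈ eSet xs i ↔ p ∈ vlines xs := by
  rw [marc_mem_eSet]
  change _ ↔ p 0 ∈ xs ∧ p 2 = 0
  rw [marc_mem_split hi, and_comm]
  refine and_congr_left fun _ => or_congr_right ?_
  constructor
  · rintro ⟨u, h0, h1⟩
    rcases le_total u 0 with hu | hu
    · left
      rw [h0, capx, st_of_le (by nlinarith)]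
      ring
    · right
      rw [h0, capx, st_of_ge (by nlinarith)]
      ring
  · have h1 : 1 / 2 ≤ √(|p 1| - 1 / 4) := Real.le_sqrt_of_sq_le (by linarith)
    have h2 : √(|p 1| - 1 / 4) ^ 2 = |p 1| - 1 / 4 := Real.sq_sqrt (by linarith)
    rintro (h0 | h0)
    · refine ⟨-√(|p 1| - 1 / 4), ?_, by rw [neg_sq, h2]; ring⟩
      rw [h0, capx, st_of_le (by linarith)]
      ring
    · refine ⟨√(|p 1| - 1 / 4), ?_, by rw [h2]; ring⟩
      rw [h0, capx, st_of_ge h1]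
      ring

/-- the inverse of the squeeze -/
noncomputable def unsq (σ : ℝ) (p : E3) : E3 := !₂[p 0, 8 / 3 * p 1 - σ, p 2]

theorem sq_unsq (σ : ℝ) (p : E3) : sq σ (unsq σ p) = p := by
  ext i
  fin_cases i
  · rfl
  · change 3 / 8 * (8 / 3 * p 1 - σ + σ) = p 1
    ring
  · rfl

theorem unsq_sq (σ : ℝ) (p : E3) : unsq σ (sq σ p) = p := by
  ext i
  fin_cases i
  · rfl
  · change 8 / 3 * (3 / 8 * (p 1 + σ)) - σ = p 1
    ring
  · rfl

theorem sq_image (σ : ℝ) (A : Set E3) : sq σ '' A = unsq σ ⁻¹' A :=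
  congrFun (image_eq_preimage_of_inverse (unsq_sq σ) (sq_unsq σ)) A

theorem continuous_unsq (σ : ℝ) : Continuous (unsq σ) := by
  unfold unsq
  fun_prop

theorem contDiff_sq (σ : ℝ) : ContDiff ℝ ∞ (sq σ) := by
  rw [contDiff_euclidean]
  intro i
  fin_cases i
  · change ContDiff ℝ ∞ fun p : E3 => p 0
    fun_prop
  · change ContDiff ℝ ∞ fun p : E3 => 3 / 8 * (p 1 + σ)
    fun_prop
  · change ContDiff ℝ ∞ fun p : E3 => p 2
    fun_prop

theorem PicArc.unsq {A : Set E3} (h : PicArc A) (σ : ℝ) : PicArc (unsq σ ⁻¹' A) := by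
  refine ⟨h.1.preimage (continuous_unsq σ), fun p hp => ?_⟩
  obtain ⟨g, t₀, hg, hs, hi, hW⟩ := h.2 _ hp
  have hd : DifferentiableAt ℝ g t₀ := hs.self_of_nhds.1.differentiableAt (by simp)
  have hd' : DifferentiableAt ℝ (fun t => sq σ (g t)) t₀ :=
    ((contDiff_sq σ).differentiable (by simp) _).comp t₀ hd
  refine ⟨fun t => sq σ (g t), t₀, (congrArg (sq σ) hg).trans (sq_unsq σ p), ?_, marc_indep ?_,
    fun U hU => ?_⟩
  · filter_upwards [hs] with t ht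
    refine ⟨(contDiff_sq σ).contDiffAt.comp t ht.1, ?_⟩
    rw [mem_preimage, unsq_sq]
    exact ht.2
  · have h1 := marc_of_indep hi
    rw [marc_deriv_apply hd', marc_deriv_apply hd']
    refine h1.imp (fun h2 => ?_) fun h2 => ?_
    · rw [marc_deriv_apply hd] at h2
      exact h2
    · have h3 : HasDerivAt (fun t => g t 1) (deriv g t₀ 1) t₀ :=
        (EuclideanSpace.proj (𝕜 := ℝ) (1 : Fin 3)).hasFDerivAt.comp_hasDerivAt t₀ hd.hasDerivAt
      have h4 : HasDerivAt (fun t => sq σ (g t) 1) (3 / 8 * deriv g t₀ 1) t₀ :=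
        (h3.add_const σ).const_mul (3 / 8)
      rw [h4.deriv]
      exact mul_ne_zero (by norm_num) h2
  · obtain ⟨W, hW, hsub⟩ := hW U hU
    refine ⟨B.unsq σ ⁻¹' W, (continuous_unsq σ).continuousAt hW, fun q hq => ?_⟩
    obtain ⟨t, ht, ht'⟩ := hsub ⟨hq.1, hq.2⟩
    exact ⟨t, ht, (congrArg (sq σ) ht').trans (sq_unsq σ q)⟩

theorem marc_mem_cons {xs : List ℝ} {i : ℕ} {w : List ℕ} {p : E3} :
    p ∈ stackSet xs (i :: w) ↔
      (unsq (-1) p ∈ eSet xs i ∧ p 1 ≤ 0) ∨ (unsq 1 p ∈ stackSet xs w ∧ 0 ≤ p 1) := by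
  rw [stackSet, sq_image, sq_image]
  refine or_congr (and_congr_right fun _ => ?_) (and_congr_right fun _ => ?_)
  · change 8 / 3 * p 1 - (-1) ≤ 1 ↔ _
    constructor <;> intro h <;> linarith
  · change -1 ≤ 8 / 3 * p 1 - 1 ↔ _
    constructor <;> intro h <;> linarith

theorem marc_unsq_vlines {xs : List ℝ} {σ : ℝ} {p : E3} :
    unsq σ p ∈ vlines xs ↔ p ∈ vlines xs := Iff.rfl

theorem marc_unsq_one (σ : ℝ) (p : E3) : unsq σ p 1 = 8 / 3 * p 1 - σ := rfl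

theorem marc_stack_far {xs : List ℝ} {w : List ℕ} (hw : ∀ i ∈ w, i + 2 ≤ xs.length) {p : E3}
    (hp : 3 / 4 ≤ |p 1|) : p ∈ stackSet xs w ↔ p ∈ vlines xs := by
  induction w generalizing p with
  | nil => rfl
  | cons i w ih =>
    rw [marc_mem_cons]
    rcases le_abs'.1 hp with h | h
    · rw [marc_eSet_far (hw i List.mem_cons_self)
        (le_abs'.2 (Or.inl (by rw [marc_unsq_one]; linarith))), marc_unsq_vlines]
      exact ⟨fun h1 => h1.elim And.left fun h1 => absurd h1.2 (by linarith),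
        fun h1 => Or.inl ⟨h1, by linarith⟩⟩
    · rw [ih (fun j hj => hw j (List.mem_cons_of_mem _ hj))
        (le_abs'.2 (Or.inr (by rw [marc_unsq_one]; linarith))), marc_unsq_vlines]
      exact ⟨fun h1 => h1.elim (fun h1 => absurd h1.2 (by linarith)) And.left,
        fun h1 => Or.inr ⟨h1, by linarith⟩⟩

theorem picArc_stackSet {xs : List ℝ} (hxs : PosOK xs) {w : List ℕ}
    (hw : ∀ i ∈ w, i + 2 ≤ xs.length) : PicArc (stackSet xs w) := by
  induction w with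
  | nil => exact picArc_vlines xs
  | cons i w ih =>
    have hi := hw i List.mem_cons_self
    have hw' : ∀ j ∈ w, j + 2 ≤ xs.length := fun j hj => hw j (List.mem_cons_of_mem _ hj)
    have h1 := (picArc_eSet hxs.1 hi).unsq (-1)
    have h2 := (ih hw').unsq 1
    have hc : Continuous fun p : E3 => p 1 := by fun_prop
    have hmid : ∀ q : E3, |q 1| ≤ 3 / 32 →
        (unsq (-1) q ∈ eSet xs i ↔ unsq 1 q ∈ stackSet xs w) := by
      intro q hq
      have hq' := abs_le.1 hq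
      rw [marc_eSet_far hi (le_abs'.2 (Or.inr (by rw [marc_unsq_one]; linarith [hq'.1]))),
        marc_stack_far hw' (le_abs'.2 (Or.inl (by rw [marc_unsq_one]; linarith [hq'.2]))),
        marc_unsq_vlines, marc_unsq_vlines]
    refine ⟨?_, fun p hp => ?_⟩
    · have h3 : stackSet xs (i :: w) = (unsq (-1) ⁻¹' eSet xs i ∩ {p : E3 | p 1 ≤ 0}) ∪
          (unsq 1 ⁻¹' stackSet xs w ∩ {p : E3 | 0 ≤ p 1}) := by
        ext p
        exact marc_mem_cons
      rw [h3]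
      exact (h1.1.inter (isClosed_le hc continuous_const)).union
        (h2.1.inter (isClosed_le continuous_const hc))
    · rcases marc_mem_cons.1 hp with h | h
      · refine ArcAt.congr (h1.2 p h.1) (O := {q : E3 | q 1 < 3 / 32})
          ((isOpen_lt hc continuous_const).mem_nhds (by change p 1 < 3 / 32; linarith [h.2])) ?_
        intro q hq
        have hq' : q 1 < 3 / 32 := hq
        rw [marc_mem_cons, mem_preimage]
        constructor
        · intro h3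
          rcases le_total (q 1) 0 with h4 | h4
          · exact Or.inl ⟨h3, h4⟩
          · exact Or.inr ⟨(hmid q (abs_le.2 ⟨by linarith, hq'.le⟩)).1 h3, h4⟩
        · rintro (h3 | h3)
          · exact h3.1
          · exact (hmid q (abs_le.2 ⟨by linarith [h3.2], hq'.le⟩)).2 h3.1
      · refine ArcAt.congr (h2.2 p h.1) (O := {q : E3 | -(3 / 32) < q 1})
          ((isOpen_lt continuous_const hc).mem_nhds
            (by change -(3 / 32) < p 1; linarith [h.2])) ?_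
        intro q hq
        have hq' : -(3 / 32) < q 1 := hq
        rw [marc_mem_cons, mem_preimage]
        constructor
        · intro h3
          rcases le_total (q 1) 0 with h4 | h4
          · exact Or.inl ⟨(hmid q (abs_le.2 ⟨hq'.le, by linarith⟩)).2 h3, h4⟩
          · exact Or.inr ⟨h3, h4⟩
        · rintro (h3 | h3)
          · exact (hmid q (abs_le.2 ⟨hq'.le, by linarith [h3.2]⟩)).1 h3.1
          · exact h3.1

theorem mem_stackSet_of_le {xs : List ℝ} {w : List ℕ} (hw : ∀ i ∈ w, i + 2 ≤ xs.length) {p : E3}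
    (hp : 3 / 4 ≤ |p 1|) : p ∈ stackSet xs w ↔ p ∈ vlines xs := marc_stack_far hw hp

theorem mem_stackSet_bound {xs : List ℝ} (hxs : PosOK xs) {w : List ℕ}
    (hw : ∀ i ∈ w, i + 2 ≤ xs.length) {p : E3} (hp : p ∈ stackSet xs w) :
    |p 0| ≤ 1 / 4 ∧ p 2 = 0 := by
  induction w generalizing p with
  | nil => exact ⟨hxs.2 _ hp.1, hp.2⟩
  | cons i w ih =>
    have hi := hw i List.mem_cons_self
    rcases marc_mem_cons.1 hp with h | h
    · obtain ⟨h2, h0 | ⟨u, h0, -⟩⟩ := marc_mem_eSet.1 h.1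
      · exact ⟨hxs.2 _ ((marc_mem_split hi).2 (Or.inl h0)), h2⟩
      · refine ⟨?_, h2⟩
        have h3 := marc_capx_mem (marc_order hxs.1 hi).1.le u
        have h4 := abs_le.1 (hxs.2 _ ((marc_mem_split hi).2 (Or.inr (Or.inl rfl))))
        have h5 := abs_le.1 (hxs.2 _ ((marc_mem_split hi).2 (Or.inr (Or.inr rfl))))
        have h6 : p 0 = capx (xs.getD i 0) (xs.getD (i + 1) 0) u := h0
        rw [h6]
        exact abs_le.2 ⟨h4.1.trans h3.1, h3.2.trans h5.2⟩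
    · exact ih (p := unsq 1 p) (fun j hj => hw j (List.mem_cons_of_mem _ hj)) h.1

theorem mem_stackSet_mid (xs : List ℝ) (i : ℕ) (w : List ℕ) {p : E3}
    (hp : |p 1 + 3 / 8| < 3 / 32) :
    p ∈ stackSet xs (i :: w) ↔ p ∈ vlines (xs.take i ++ xs.drop (i + 2)) := by
  have hp' := abs_lt.1 hp
  rw [marc_mem_cons, marc_mem_eSet]
  constructor
  · rintro (⟨⟨h2, h0 | ⟨u, -, h1⟩⟩, -⟩ | h)
    · exact ⟨h0, h2⟩
    · have h3 : |unsq (-1) p 1| < 1 / 4 := by
        rw [marc_unsq_one]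
        exact abs_lt.2 ⟨by linarith [hp'.1], by linarith [hp'.2]⟩
      nlinarith [sq_nonneg u]
    · linarith [h.2, hp'.2]
  · intro h
    exact Or.inl ⟨⟨h.2, Or.inl h.1⟩, by linarith [hp'.2]⟩

end Pool.Agent.P.MP_ac4909_gt.B
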