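import Mathlib

/-! Unit speed parametrisations of compact sets that are locally embedded arcs: local theory. -/

namespace Pool.Agent.P.MP_ac4909_gt.B.OneM

open scoped ContDiff
open Set Filter Topology

variable {E : Type*} [NormedAddCommGroup E] [InnerProductSpace ℝ E] {K : Set E}

theorem ev_deriv {F : Type*} [NormedAddCommGroup F] [NormedSpace ℝ F] {f : ℝ → F} {t₀ : ℝ}
    (hs : ∀ᶠ t in 𝓝 t₀, ContDiffAt ℝ ∞ f t) : ∀ᶠ t in 𝓝 t₀, ContDiffAt ℝ ∞ (deriv f) t := by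
  obtain ⟨s, hs1, hso, hts⟩ := eventually_nhds_iff.1 hs
  have h1 : ContDiffOn ℝ ∞ f s := fun t ht => (hs1 t ht).contDiffWithinAt
  have h2 := ((contDiffOn_infty_iff_deriv_of_isOpen hso).1 h1).2
  filter_upwards [hso.mem_nhds hts] with t ht using h2.contDiffAt (hso.mem_nhds ht)

theorem diffAt {F G : Type*} [NormedAddCommGroup F] [NormedSpace ℝ F] [NormedAddCommGroup G]
    [NormedSpace ℝ G] {f : G → F} {t : G} (h : ContDiffAt ℝ ∞ f t) : DifferentiableAt ℝ f t :=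
  h.differentiableAt (by simp)

/-- inverse function theorem in one variable -/
theorem exists_inv1 {f : ℝ → ℝ} {t₀ : ℝ} (hs : ∀ᶠ t in 𝓝 t₀, ContDiffAt ℝ ∞ f t)
    (hd : deriv f t₀ ≠ 0) :
    ∃ τ : ℝ → ℝ, (∀ᶠ y in 𝓝 (f t₀), ContDiffAt ℝ ∞ τ y ∧ f (τ y) = y) ∧
      ∀ᶠ t in 𝓝 t₀, τ (f t) = t := by
  have h0 : ContDiffAt ℝ ∞ f t₀ := hs.self_of_nhds
  have h1 : HasDerivAt f (deriv f t₀) t₀ := (diffAt h0).hasDerivAt
  let e := h0.toOpenPartialHomeomorph f (h1.hasFDerivAt_equiv hd) (by simp)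
  have he : (e : ℝ → ℝ) = f := rfl
  have hm : t₀ ∈ e.source := h0.mem_toOpenPartialHomeomorph_source _ _
  have hc : ContinuousAt (deriv f) t₀ := (ev_deriv hs).self_of_nhds.continuousAt
  have hne : ∀ᶠ t in 𝓝 t₀, deriv f t ≠ 0 := hc.eventually_ne hd
  have ht : Tendsto e.symm (𝓝 (f t₀)) (𝓝 t₀) := e.tendsto_symm hm
  refine ⟨e.symm, ?_, ?_⟩
  · have htar : ∀ᶠ y in 𝓝 (f t₀), y ∈ e.target := e.open_target.mem_nhds (e.map_source hm)
    filter_upwards [htar, ht.eventually hs, ht.eventually hne] with y hy h2 h3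
    exact ⟨e.contDiffAt_symm_deriv h3 hy (diffAt h2).hasDerivAt h2, e.right_inv hy⟩
  · filter_upwards [e.open_source.mem_nhds hm] with t ht using e.left_inv ht

/-- local smooth left inverse of an immersed curve -/
theorem exists_leftInv {h : ℝ → E} {t₀ : ℝ} (hs : ∀ᶠ t in 𝓝 t₀, ContDiffAt ℝ ∞ h t)
    (hd : deriv h t₀ ≠ 0) :
    ∃ ρ : E → ℝ, (∀ᶠ y in 𝓝 (h t₀), ContDiffAt ℝ ∞ ρ y) ∧ ∀ᶠ t in 𝓝 t₀, ρ (h t) = t := by
  let l : E →L[ℝ] ℝ := innerSL ℝ (deriv h t₀)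
  have h1 : ∀ᶠ t in 𝓝 t₀, ContDiffAt ℝ ∞ (fun t => l (h t)) t :=
    hs.mono fun t ht => l.contDiff.contDiffAt.comp t ht
  have h2 : HasDerivAt (fun t => l (h t)) (l (deriv h t₀)) t₀ :=
    l.hasFDerivAt.comp_hasDerivAt t₀ (diffAt hs.self_of_nhds).hasDerivAt
  have h3 : deriv (fun t => l (h t)) t₀ ≠ 0 := by
    rw [h2.deriv]
    simpa [l] using hd
  obtain ⟨τ, hτ, hτ'⟩ := exists_inv1 h1 h3
  refine ⟨fun y => τ (l y), ?_, hτ'⟩
  have : Tendsto l (𝓝 (h t₀)) (𝓝 (l (h t₀))) := l.continuous.continuousAt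
  filter_upwards [this.eventually hτ] with y hy using hy.1.comp y l.contDiff.contDiffAt

/-- local smooth primitive -/
theorem exists_primitive {n : ℝ → ℝ} {t₀ : ℝ} (hn : ∀ᶠ t in 𝓝 t₀, ContDiffAt ℝ ∞ n t) :
    ∃ σ : ℝ → ℝ, σ t₀ = 0 ∧ ∀ᶠ t in 𝓝 t₀, ContDiffAt ℝ ∞ σ t ∧ HasDerivAt σ (n t) t := by
  obtain ⟨η, hη, hb⟩ := Metric.eventually_nhds_iff_ball.1 hn
  have hc : ContinuousOn n (Metric.ball t₀ η) := fun t ht => (hb t ht).continuousAt.continuousWithinAt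
  have hder : ∀ t ∈ Metric.ball t₀ η, HasDerivAt (fun u => ∫ x in t₀..u, n x) (n t) t := by
    intro t ht
    refine intervalIntegral.integral_hasDerivAt_right ?_ ?_ (hb t ht).continuousAt
    · refine (hc.mono ?_).intervalIntegrable
      exact (convex_ball t₀ η).ordConnected.uIcc_subset (Metric.mem_ball_self hη) ht
    · exact hc.stronglyMeasurableAtFilter Metric.isOpen_ball t ht
  have hcd : ContDiffOn ℝ ∞ (fun u => ∫ x in t₀..u, n x) (Metric.ball t₀ η) := by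
    rw [contDiffOn_infty_iff_deriv_of_isOpen Metric.isOpen_ball]
    refine ⟨fun t ht => (hder t ht).differentiableAt.differentiableWithinAt, ?_⟩
    exact ContDiffOn.congr (fun t ht => (hb t ht).contDiffWithinAt) fun t ht => (hder t ht).deriv
  refine ⟨fun u => ∫ x in t₀..u, n x, by simp, ?_⟩
  filter_upwards [Metric.ball_mem_nhds t₀ hη] with t ht
  exact ⟨hcd.contDiffAt (Metric.isOpen_ball.mem_nhds ht), hder t ht⟩

/-- a curve that runs in `K` factors smoothly through an embedded arc germ of `K` -/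
theorem exists_factor {g γ : ℝ → E} {a b : ℝ} (hg : ∀ᶠ t in 𝓝 a, ContDiffAt ℝ ∞ g t)
    (hd : deriv g a ≠ 0) (hop : ∀ U ∈ 𝓝 a, g '' U ∈ 𝓝[K] (g a))
    (hγ : ∀ᶠ u in 𝓝 b, ContDiffAt ℝ ∞ γ u ∧ γ u ∈ K) (e : g a = γ b) :
    ∃ φ : ℝ → ℝ, φ b = a ∧ ∀ᶠ u in 𝓝 b, ContDiffAt ℝ ∞ φ u ∧ γ u = g (φ u) := by
  obtain ⟨ρ, hρ, hρ'⟩ := exists_leftInv hg hd
  have hc : Tendsto γ (𝓝 b) (𝓝[K] (g a)) := by
    rw [e]
    exact tendsto_nhdsWithin_iff.2 ⟨hγ.self_of_nhds.1.continuousAt, hγ.mono fun u hu => hu.2⟩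
  refine ⟨fun u => ρ (γ u), by simp only [← e]; exact hρ'.self_of_nhds, ?_⟩
  filter_upwards [hγ, hc.eventually (hop _ hρ'), (hc.mono_right nhdsWithin_le_nhds).eventually hρ]
    with u h1 h2 h3
  obtain ⟨s, hs, hs'⟩ := h2
  refine ⟨h3.comp u h1.1, ?_⟩
  rw [← hs', show ρ (g s) = s from hs]

/-- germ at `t` of a unit speed parametrisation of `K` -/
structure US (K : Set E) (γ : ℝ → E) (t : ℝ) : Prop where
  ev : ∀ᶠ u in 𝓝 t, ContDiffAt ℝ ∞ γ u ∧ γ u ∈ K ∧ ‖deriv γ u‖ = 1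
  op : ∀ U ∈ 𝓝 t, γ '' U ∈ 𝓝[K] (γ t)

variable {γ γ₁ γ₂ : ℝ → E} {t a b : ℝ}

theorem US.mem (h : US K γ t) : γ t ∈ K := h.ev.self_of_nhds.2.1

theorem US.smooth (h : US K γ t) : ∀ᶠ u in 𝓝 t, ContDiffAt ℝ ∞ γ u := h.ev.mono fun _ hu => hu.1

theorem US.deriv_ne (h : US K γ t) : deriv γ t ≠ 0 := by
  intro h0
  have := h.ev.self_of_nhds.2.2
  rw [h0, norm_zero] at this
  exact zero_ne_one this

theorem US.congr (h : US K γ₁ t) (e : γ₁ =ᶠ[𝓝 t] γ₂) : US K γ₂ t := by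
  refine ⟨?_, fun U hU => ?_⟩
  · filter_upwards [h.ev, e.eventually_nhds] with u h1 h2
    exact ⟨h1.1.congr_of_eventuallyEq (EventuallyEq.symm h2), h2.self_of_nhds ▸ h1.2.1,
      (EventuallyEq.deriv_eq h2) ▸ h1.2.2⟩
  · rw [← e.self_of_nhds]
    refine mem_of_superset (h.op _ (inter_mem hU e)) ?_
    rintro _ ⟨s, hs, rfl⟩
    exact ⟨s, hs.1, (show γ₁ s = γ₂ s from hs.2).symm⟩

theorem US.affine {c ε : ℝ} (hε : ε = 1 ∨ ε = -1) (h : US K γ (c + ε * t)) :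
    US K (fun u => γ (c + ε * u)) t := by
  have hεε : ε * ε = 1 := by rcases hε with rfl | rfl <;> norm_num
  have habs : |ε| = 1 := by rcases hε with rfl | rfl <;> norm_num
  have hcd : ContDiff ℝ ∞ fun u : ℝ => c + ε * u := by fun_prop
  refine ⟨?_, fun U hU => ?_⟩
  · have : Tendsto (fun u : ℝ => c + ε * u) (𝓝 t) (𝓝 (c + ε * t)) := hcd.continuous.continuousAt
    filter_upwards [this.eventually h.ev] with u hu
    refine ⟨hu.1.comp u hcd.contDiffAt, hu.2.1, ?_⟩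
    have h1 : HasDerivAt (fun u : ℝ => c + ε * u) ε u := by
      simpa using ((hasDerivAt_id u).const_mul ε).const_add c
    have h2 := (diffAt hu.1).hasDerivAt.scomp u h1
    rw [show (fun u => γ (c + ε * u)) = γ ∘ fun u => c + ε * u from rfl, h2.deriv, norm_smul,
      hu.2.2, Real.norm_eq_abs, habs, mul_one]
  · have hc : Continuous fun v : ℝ => ε * (v - c) := by fun_prop
    have h1 : (fun v : ℝ => ε * (v - c)) ⁻¹' U ∈ 𝓝 (c + ε * t) := by
      refine hc.continuousAt.preimage_mem_nhds ?_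
      rwa [show ε * (c + ε * t - c) = t by linear_combination t * hεε]
    refine mem_of_superset (h.op _ h1) ?_
    rintro _ ⟨s, hs, rfl⟩
    exact ⟨_, hs, by
      show γ _ = γ _
      congr 1
      linear_combination (s - c) * hεε⟩

theorem US.eventually (h : US K γ t) : ∀ᶠ u in 𝓝 t, US K γ u := by
  obtain ⟨ρ, hρ, hρ'⟩ := exists_leftInv h.smooth h.deriv_ne
  obtain ⟨W, hW, hWK⟩ := mem_nhdsWithin_iff_exists_mem_nhds_inter.1 (h.op _ hρ')
  have hc : Tendsto γ (𝓝 t) (𝓝 (γ t)) := h.ev.self_of_nhds.1.continuousAt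
  filter_upwards [h.ev.eventually_nhds, hρ', hc.eventually hρ,
    hc.eventually (eventually_mem_nhds_iff.2 hW)] with u h1 h2 h3 h4
  refine ⟨h1, fun U hU => ?_⟩
  have h5 : ρ ⁻¹' U ∈ 𝓝 (γ u) := h3.continuousAt.preimage_mem_nhds (by rwa [h2])
  refine mem_nhdsWithin_iff_exists_mem_nhds_inter.2 ⟨_, inter_mem h4 h5, ?_⟩
  rintro y ⟨⟨hy1, hy2⟩, hy3⟩
  obtain ⟨s, hs, rfl⟩ := hWK ⟨hy1, hy3⟩
  refine ⟨s, ?_, rfl⟩
  rwa [mem_preimage, show ρ (γ s) = s from hs] at hy2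

/-- local uniqueness up to direction -/
theorem US.trans (h₁ : US K γ₁ a) (h₂ : US K γ₂ b) (e : γ₁ a = γ₂ b) :
    ∃ ε : ℝ, (ε = 1 ∨ ε = -1) ∧ γ₂ =ᶠ[𝓝 b] fun u => γ₁ (a - ε * b + ε * u) := by
  obtain ⟨φ, hφ, hev⟩ := exists_factor h₁.smooth h₁.deriv_ne h₁.op
    (h₂.ev.mono fun u hu => ⟨hu.1, hu.2.1⟩) e
  have hφc : Tendsto φ (𝓝 b) (𝓝 a) := hφ ▸ hev.self_of_nhds.1.continuousAt
  have habs : ∀ᶠ u in 𝓝 b, |deriv φ u| = 1 := by
    filter_upwards [hev.eventually_nhds, h₂.ev, hφc.eventually h₁.ev] with u h1 h2 h3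
    have h4 : γ₂ =ᶠ[𝓝 u] γ₁ ∘ φ := h1.mono fun v hv => hv.2
    have h5 := (diffAt h3.1).hasDerivAt.scomp u (diffAt h1.self_of_nhds.1).hasDerivAt
    have h6 := h2.2.2
    rwa [h4.deriv_eq, h5.deriv, norm_smul, h3.2.2, Real.norm_eq_abs, mul_one] at h6
  have hdc : ContinuousAt (deriv φ) b :=
    (ev_deriv (hev.mono fun u hu => hu.1)).self_of_nhds.continuousAt
  have hε : deriv φ b = 1 ∨ deriv φ b = -1 := eq_or_eq_neg_of_abs_eq habs.self_of_nhds
  have hconst : ∀ᶠ u in 𝓝 b, deriv φ u = deriv φ b := by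
    filter_upwards [habs, hdc.eventually (Metric.ball_mem_nhds (deriv φ b) one_pos)] with u h1 h2
    rw [Real.dist_eq, abs_lt] at h2
    rcases eq_or_eq_neg_of_abs_eq h1 with h | h <;> rcases hε with h' | h' <;> linarith [h2.1, h2.2]
  obtain ⟨η, hη, hb⟩ := Metric.eventually_nhds_iff_ball.1 (hconst.and hev)
  refine ⟨deriv φ b, hε, ?_⟩
  filter_upwards [Metric.ball_mem_nhds b hη] with u hu
  rw [(hb u hu).2.2]
  congr 1
  have hd : ∀ v ∈ Metric.ball b η, HasDerivAt (fun v => φ v - deriv φ b * v) 0 v := by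
    intro v hv
    have := (diffAt (hb v hv).2.1).hasDerivAt.sub ((hasDerivAt_id v).const_mul (deriv φ b))
    rw [(hb v hv).1, mul_one, sub_self] at this
    exact this
  have := Metric.isOpen_ball.is_const_of_deriv_eq_zero (convex_ball b η).isPreconnected
    (fun v hv => (hd v hv).differentiableAt.differentiableWithinAt)
    (fun v hv => (hd v hv).deriv) hu (Metric.mem_ball_self hη)
  simp only [hφ] at this
  linarith

theorem US.eq_of_deriv (h₁ : US K γ₁ a) (h₂ : US K γ₂ a) (e : γ₁ a = γ₂ a)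
    (e' : deriv γ₁ a = deriv γ₂ a) : γ₁ =ᶠ[𝓝 a] γ₂ := by
  obtain ⟨ε, hε, h⟩ := h₁.trans h₂ e
  rcases hε with rfl | rfl
  · refine EventuallyEq.symm (h.trans (Eventually.of_forall fun u => ?_))
    simp
  · exfalso
    have h1 : HasDerivAt (fun u : ℝ => a - -1 * a + -1 * u) (-1) a := by
      simpa using ((hasDerivAt_id a).const_mul (-1 : ℝ)).const_add (a - -1 * a)
    have h2 : HasDerivAt γ₁ (deriv γ₁ a) (a - -1 * a + -1 * a) := by
      rw [show a - -1 * a + -1 * a = a by ring]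
      exact (diffAt h₁.smooth.self_of_nhds).hasDerivAt
    have h3 := (h2.scomp a h1).deriv
    have h4 := h.deriv_eq
    rw [show (fun u => γ₁ (a - -1 * a + -1 * u)) = γ₁ ∘ fun u => a - -1 * a + -1 * u from rfl,
      h3, ← e'] at h4
    apply h₁.deriv_ne
    have h5 : (2 : ℝ) • deriv γ₁ a = 0 := by
      rw [two_smul]
      nth_rewrite 1 [h4]
      simp
    simpa using h5

/-- uniqueness on an interval -/
theorem US.eqOn {I : Set ℝ} (hI : IsPreconnected I) (h₁ : ∀ t ∈ I, US K γ₁ t)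
    (h₂ : ∀ t ∈ I, US K γ₂ t) (ha : a ∈ I) (e : γ₁ =ᶠ[𝓝 a] γ₂) : ∀ t ∈ I, γ₁ =ᶠ[𝓝 t] γ₂ := by
  have ho : IsOpen {t | γ₁ =ᶠ[𝓝 t] γ₂} := isOpen_setOfPred_eventually_nhds
  refine hI.subset_of_closure_inter_subset ho ⟨a, ha, e⟩ ?_
  rintro t ⟨ht, htI⟩
  have hf := mem_closure_iff_frequently.1 ht
  refine (h₁ t htI).eq_of_deriv (h₂ t htI) ?_ ?_
  · exact tendsto_nhds_unique_of_frequently_eq (h₁ t htI).smooth.self_of_nhds.continuousAt
      (h₂ t htI).smooth.self_of_nhds.continuousAt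
      (hf.mono fun s hs => EventuallyEq.eq_of_nhds hs)
  · exact tendsto_nhds_unique_of_frequently_eq
      (ev_deriv (h₁ t htI).smooth).self_of_nhds.continuousAt
      (ev_deriv (h₂ t htI).smooth).self_of_nhds.continuousAt
      (hf.mono fun s hs => EventuallyEq.deriv_eq hs)

/-- reparametrisation by arc length -/
theorem exists_US {g : ℝ → E} (hg : ∀ᶠ t in 𝓝 a, ContDiffAt ℝ ∞ g t ∧ g t ∈ K)
    (hd : deriv g a ≠ 0) (hop : ∀ U ∈ 𝓝 a, g '' U ∈ 𝓝[K] (g a)) :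
    ∃ γ, γ 0 = g a ∧ US K γ 0 := by
  have hs : ∀ᶠ t in 𝓝 a, ContDiffAt ℝ ∞ g t := hg.mono fun t ht => ht.1
  have hne : ∀ᶠ t in 𝓝 a, deriv g t ≠ 0 := (ev_deriv hs).self_of_nhds.continuousAt.eventually_ne hd
  have hn : ∀ᶠ t in 𝓝 a, ContDiffAt ℝ ∞ (fun t => ‖deriv g t‖) t := by
    filter_upwards [ev_deriv hs, hne] with t h1 h2 using h1.norm ℝ h2
  obtain ⟨σ, hσ0, hσ⟩ := exists_primitive hn
  obtain ⟨τ, hτ, hτ'⟩ := exists_inv1 (hσ.mono fun t ht => ht.1)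
    (by rw [hσ.self_of_nhds.2.deriv]; exact norm_ne_zero_iff.2 hd)
  rw [hσ0] at hτ
  have hτ0 : τ 0 = a := hσ0 ▸ hτ'.self_of_nhds
  have hτc : Tendsto τ (𝓝 0) (𝓝 a) := hτ0 ▸ hτ.self_of_nhds.1.continuousAt
  refine ⟨g ∘ τ, by simp [hτ0], ?_, fun U hU => ?_⟩
  · filter_upwards [hτ.eventually_nhds, hτc.eventually hg, hτc.eventually hσ] with u h1 h2 h3
    refine ⟨h2.1.comp u h1.self_of_nhds.1, h2.2, ?_⟩
    have h4 := (diffAt h1.self_of_nhds.1).hasDerivAt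
    have h5 := ((diffAt h2.1).hasDerivAt.scomp u h4).deriv
    have h6 := (h3.2.comp u h4).deriv
    have h7 : σ ∘ τ =ᶠ[𝓝 u] id := h1.mono fun v hv => hv.2
    rw [h7.deriv_eq, deriv_id] at h6
    have h8 : 0 ≤ deriv τ u := by
      by_contra h
      push Not at h
      nlinarith [norm_nonneg (deriv g (τ u))]
    rw [h5, norm_smul, Real.norm_eq_abs, abs_of_nonneg h8, mul_comm, ← h6]
  · have hσc : Tendsto σ (𝓝 a) (𝓝 0) := hσ0 ▸ hσ.self_of_nhds.1.continuousAt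
    rw [Function.comp_apply, hτ0]
    refine mem_of_superset (hop _ (inter_mem (hσc hU) hτ')) ?_
    rintro _ ⟨s, hs, rfl⟩
    exact ⟨σ s, hs.1, by rw [Function.comp_apply, show τ (σ s) = s from hs.2]⟩

/-! ### Global theory -/

/-- unit speed parametrisations of uniform size -/
theorem exists_uniform (hK : IsCompact K) (h : ∀ p ∈ K, ∃ γ, γ 0 = p ∧ US K γ 0) :
    ∃ δ > 0, ∀ q ∈ K, ∃ γ, γ 0 = q ∧ ∀ u ∈ Ioo (-δ) δ, US K γ u := by
  refine hK.induction_on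
    (p := fun A => ∃ δ > 0, ∀ q ∈ A, ∃ γ, γ 0 = q ∧ ∀ u ∈ Ioo (-δ) δ, US K γ u)
    ⟨1, one_pos, by simp⟩ ?_ ?_ ?_
  · rintro s t hst ⟨δ, hδ, H⟩
    exact ⟨δ, hδ, fun q hq => H q (hst hq)⟩
  · rintro s t ⟨δ, hδ, H⟩ ⟨δ', hδ', H'⟩
    refine ⟨min δ δ', lt_min hδ hδ', ?_⟩
    rintro q (hq | hq)
    · obtain ⟨γ, h0, h1⟩ := H q hq
      exact ⟨γ, h0, fun u hu => h1 u ⟨by linarith [hu.1, min_le_left δ δ'],
        by linarith [hu.2, min_le_left δ δ']⟩⟩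
    · obtain ⟨γ, h0, h1⟩ := H' q hq
      exact ⟨γ, h0, fun u hu => h1 u ⟨by linarith [hu.1, min_le_right δ δ'],
        by linarith [hu.2, min_le_right δ δ']⟩⟩
  · intro p hp
    obtain ⟨γ, rfl, hγ⟩ := h p hp
    obtain ⟨η, hη, hb⟩ := Metric.eventually_nhds_iff_ball.1 hγ.eventually
    refine ⟨_, hγ.op _ (Metric.ball_mem_nhds 0 (half_pos hη)), η / 2, half_pos hη, ?_⟩
    rintro _ ⟨s, hs, rfl⟩
    refine ⟨fun u => γ (s + 1 * u), by simp, fun u hu => US.affine (Or.inl rfl) (hb _ ?_)⟩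
    rw [mem_ball_zero_iff, Real.norm_eq_abs, abs_lt] at hs ⊢
    constructor <;> linarith [hu.1, hu.2, hs.1, hs.2]

/-- every germ extends to an interval of the uniform size -/
theorem US.extend {δ : ℝ} (hδ : 0 < δ)
    (H : ∀ q ∈ K, ∃ γ, γ 0 = q ∧ ∀ u ∈ Ioo (-δ) δ, US K γ u) (h : US K γ a) :
    ∃ γ', γ' =ᶠ[𝓝 a] γ ∧ ∀ u ∈ Ioo (a - δ) (a + δ), US K γ' u := by
  obtain ⟨γ₀, h0, h1⟩ := H _ h.mem
  obtain ⟨ε, hε, he⟩ := (h1 0 ⟨by linarith, hδ⟩).trans h h0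
  refine ⟨_, he.symm, fun u hu => US.affine hε (h1 _ ?_)⟩
  rcases hε with rfl | rfl <;> constructor <;> linarith [hu.1, hu.2]

theorem US.glue {m : ℝ} (e : γ₁ =ᶠ[𝓝 m] γ₂) (h₁ : t ≤ m → US K γ₁ t) (h₂ : m < t → US K γ₂ t) :
    US K (fun u => if u ≤ m then γ₁ u else γ₂ u) t := by
  rcases lt_trichotomy t m with h | rfl | h
  · refine (h₁ h.le).congr ?_
    filter_upwards [Iio_mem_nhds h] with u hu
    rw [if_pos (le_of_lt hu)]
  · refine (h₁ le_rfl).congr ?_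
    filter_upwards [e] with u hu
    split_ifs
    · rfl
    · exact hu
  · refine (h₂ h).congr ?_
    filter_upwards [Ioi_mem_nhds h] with u hu
    rw [if_neg (not_le.2 hu)]

theorem exists_long {δ : ℝ} (hδ : 0 < δ)
    (H : ∀ q ∈ K, ∃ γ, γ 0 = q ∧ ∀ u ∈ Ioo (-δ) δ, US K γ u) (h : US K γ 0) (n : ℕ) :
    ∃ γ', γ' =ᶠ[𝓝 0] γ ∧ ∀ u ∈ Ioo (-(δ + n * (δ / 2))) (δ + n * (δ / 2)), US K γ' u := by
  induction n with
  | zero => simpa using h.extend hδ H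
  | succ n ih =>
    obtain ⟨γ', e, h'⟩ := ih
    have hn : 0 ≤ (n : ℝ) * (δ / 2) := by positivity
    set m : ℝ := δ / 2 + n * (δ / 2) with hm
    obtain ⟨γr, er, hr⟩ := (h' m ⟨by linarith, by linarith⟩).extend hδ H
    obtain ⟨γl, el, hl⟩ := (h' (-m) ⟨by linarith, by linarith⟩).extend hδ H
    refine ⟨fun u => if u ≤ -m then γl u else (fun u => if u ≤ m then γ' u else γr u) u, ?_, ?_⟩
    · filter_upwards [e, Ioo_mem_nhds (show -m < 0 by linarith) (show 0 < m by linarith)]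
        with u h1 h2
      rw [if_neg (not_le.2 h2.1)]
      show (if u ≤ m then γ' u else γr u) = _
      rw [if_pos h2.2.le, h1]
    · intro u hu
      push_cast at hu
      refine US.glue ?_ (fun h1 => hl u ⟨by linarith [hu.1], by linarith⟩) fun h1 =>
        US.glue er.symm (fun h2 => h' u ⟨by linarith, by linarith⟩)
          fun h2 => hr u ⟨by linarith, by linarith [hu.2]⟩
      filter_upwards [el, Iio_mem_nhds (show -m < m by linarith)] with u h1 h2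
      rw [if_pos (le_of_lt h2), h1]

/-- global unit speed parametrisations -/
theorem exists_global (hK : IsCompact K) (h : ∀ p ∈ K, ∃ γ, γ 0 = p ∧ US K γ 0) {p : E}
    (hp : p ∈ K) : ∃ Γ, Γ 0 = p ∧ ∀ t, US K Γ t := by
  obtain ⟨δ, hδ, H⟩ := exists_uniform hK h
  obtain ⟨γ, h0, hγ⟩ := h p hp
  have key : ∀ r : ℝ, ∃ γ', γ' =ᶠ[𝓝 0] γ ∧ ∀ u ∈ Ioo (-r) r, US K γ' u := by
    intro r
    obtain ⟨n, hn⟩ := exists_nat_ge (r / (δ / 2))
    rw [div_le_iff₀ (half_pos hδ)] at hn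
    obtain ⟨γ', e, h'⟩ := exists_long hδ H hγ n
    exact ⟨γ', e, fun u hu => h' u ⟨by linarith [hu.1], by linarith [hu.2]⟩⟩
  choose G hG hG' using key
  have hcomp : ∀ r r' u, |u| < r → |u| < r' → G r u = G r' u := by
    intro r r' u h1 h2
    have hsub : ∀ {x : ℝ}, |u| < x → ∀ t ∈ uIcc 0 u, t ∈ Ioo (-x) x := by
      intro x hx t ht
      have := abs_sub_left_of_mem_uIcc ht
      rw [sub_zero, sub_zero] at this
      exact abs_lt.1 (this.trans_lt hx)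
    exact (US.eqOn isPreconnected_uIcc (fun t ht => hG' r t (hsub h1 t ht))
      (fun t ht => hG' r' t (hsub h2 t ht)) left_mem_uIcc ((hG r).trans (hG r').symm) u
      right_mem_uIcc).eq_of_nhds
  refine ⟨fun u => G (|u| + 1) u, by simp only [(hG _).eq_of_nhds, h0], fun t => ?_⟩
  refine (hG' (|t| + 1) t (abs_lt.1 (by linarith))).congr ?_
  have : ∀ᶠ u in 𝓝 t, |u| < |t| + 1 :=
    continuous_abs.continuousAt.eventually (Iio_mem_nhds (by linarith))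
  filter_upwards [this] with u hu using hcomp _ _ u hu (by linarith)

variable {Γ Γ' : ℝ → E}

theorem global_trans (h : ∀ t, US K Γ t) (h' : ∀ t, US K Γ' t) (e : Γ a = Γ' b) :
    ∃ ε : ℝ, (ε = 1 ∨ ε = -1) ∧ ∀ u, Γ' u = Γ (a - ε * b + ε * u) := by
  obtain ⟨ε, hε, he⟩ := (h a).trans (h' b) e
  exact ⟨ε, hε, fun u => (US.eqOn isPreconnected_univ (fun t _ => h' t)
    (fun t _ => US.affine hε (h _)) (mem_univ b) he u (mem_univ u)).eq_of_nhds⟩

theorem range_eq (h : ∀ t, US K Γ t) (h' : ∀ t, US K Γ' t) (e : Γ a = Γ' b) :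
    range Γ' = range Γ := by
  apply Subset.antisymm
  · obtain ⟨ε, -, he⟩ := global_trans h h' e
    rintro _ ⟨u, rfl⟩
    exact ⟨_, (he u).symm⟩
  · obtain ⟨ε, -, he⟩ := global_trans h' h e.symm
    rintro _ ⟨u, rfl⟩
    exact ⟨_, (he u).symm⟩

theorem period_of_eq (h : ∀ t, US K Γ t) (e : Γ a = Γ b) (u : ℝ) : Γ (u + (a - b)) = Γ u := by
  obtain ⟨ε, hε, he⟩ := global_trans h h e
  rcases hε with rfl | rfl
  · rw [he u]
    congr 1
    ring
  · exfalso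
    set m := (a + b) / 2 with hm
    have h1 : HasDerivAt (fun u : ℝ => a - -1 * b + -1 * u) (-1) m := by
      simpa using ((hasDerivAt_id m).const_mul (-1 : ℝ)).const_add (a - -1 * b)
    have h2 : HasDerivAt Γ (deriv Γ m) (a - -1 * b + -1 * m) := by
      rw [show a - -1 * b + -1 * m = m by rw [hm]; ring]
      exact (diffAt (h m).smooth.self_of_nhds).hasDerivAt
    have h3 := (h2.scomp m h1).deriv
    rw [show (Γ ∘ fun u => a - -1 * b + -1 * u) = Γ from funext fun u => (he u).symm] at h3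
    apply (h m).deriv_ne
    have h5 : (2 : ℝ) • deriv Γ m = 0 := by
      rw [two_smul]
      nth_rewrite 1 [h3]
      simp
    simpa using h5

theorem not_injective (hK : IsCompact K) (H : ∀ p ∈ K, ∃ Γ, Γ 0 = p ∧ ∀ t, US K Γ t)
    (h : ∀ t, US K Γ t) : ¬ Function.Injective Γ := by
  intro hi
  have : ∃ r : ℝ, K ∩ range Γ ⊆ Γ '' Ioo (-r) r := by
    refine hK.induction_on (p := fun A => ∃ r : ℝ, A ∩ range Γ ⊆ Γ '' Ioo (-r) r)
      ⟨0, by simp⟩ ?_ ?_ ?_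
    · rintro s t hst ⟨r, hr⟩
      exact ⟨r, (inter_subset_inter_left _ hst).trans hr⟩
    · rintro s t ⟨r, hr⟩ ⟨r', hr'⟩
      refine ⟨max r r', ?_⟩
      rw [union_inter_distrib_right]
      exact union_subset
        (hr.trans (image_mono (Ioo_subset_Ioo (neg_le_neg (le_max_left _ _)) (le_max_left _ _))))
        (hr'.trans
          (image_mono (Ioo_subset_Ioo (neg_le_neg (le_max_right _ _)) (le_max_right _ _))))
    · intro p hp
      by_cases hr : p ∈ range Γ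
      · obtain ⟨s, rfl⟩ := hr
        have hs := abs_lt.1 (lt_add_one |s|)
        exact ⟨_, (h s).op _ (Ioo_mem_nhds hs.1 hs.2), |s| + 1, inter_subset_left⟩
      · obtain ⟨Γ', rfl, h'⟩ := H p hp
        refine ⟨_, (h' 0).op _ univ_mem, 0, ?_⟩
        rintro _ ⟨⟨s, -, rfl⟩, t, ht⟩
        exact (hr (range_eq h h' ht ▸ mem_range_self 0)).elim
  obtain ⟨r, hr⟩ := this
  obtain ⟨s, hs, e⟩ := hr ⟨(h r).mem, mem_range_self r⟩
  exact hs.2.ne (hi e)

theorem exists_period (hK : IsCompact K) (H : ∀ p ∈ K, ∃ Γ, Γ 0 = p ∧ ∀ t, US K Γ t)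
    (h : ∀ t, US K Γ t) :
    ∃ T : ℝ, T ≠ 0 ∧ (∀ u, Γ (u + T) = Γ u) ∧ ∀ s t, Γ s = Γ t → ∃ k : ℤ, t = s + k * T := by
  let G : AddSubgroup ℝ :=
    { carrier := {T | ∀ u, Γ (u + T) = Γ u}
      zero_mem' := fun u => by simp
      add_mem' := fun {x y} hx hy u => by rw [← add_assoc, hy, hx]
      neg_mem' := fun {x} hx u => by rw [← hx (u + -x)]; simp }
  obtain ⟨ρ, -, hρ⟩ := exists_leftInv (h 0).smooth (h 0).deriv_ne
  rcases G.dense_or_cyclic with hd | ⟨T, hT⟩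
  · exfalso
    obtain ⟨η, hη, hb⟩ := Metric.eventually_nhds_iff_ball.1 hρ
    obtain ⟨x, hx, hx'⟩ := hd.exists_between hη
    have h1 : ρ (Γ x) = x := hb x (by
      rw [mem_ball_zero_iff, Real.norm_eq_abs, abs_of_pos hx'.1]; exact hx'.2)
    have h2 : Γ x = Γ 0 := by simpa using hx 0
    rw [h2, hρ.self_of_nhds] at h1
    exact hx'.1.ne h1
  · have key : ∀ s t, Γ s = Γ t → ∃ k : ℤ, t = s + k * T := by
      intro s t e
      have : t - s ∈ G := period_of_eq h e.symm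
      rw [hT, AddSubgroup.mem_closure_singleton] at this
      obtain ⟨k, hk⟩ := this
      exact ⟨k, by rw [← zsmul_eq_mul, hk]; ring⟩
    refine ⟨T, ?_, (show T ∈ G from hT ▸ AddSubgroup.subset_closure rfl), key⟩
    rintro rfl
    refine not_injective hK H h fun s t e => ?_
    obtain ⟨k, hk⟩ := key s t e
    simp [hk]

/-- classification of compact one-dimensional submanifolds -/
theorem classification {E : Type} [NormedAddCommGroup E] [InnerProductSpace ℝ E] {K : Set E}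
    (hK : IsCompact K)
    (h : ∀ p ∈ K, ∃ (g : ℝ → E) (a : ℝ), g a = p ∧ (∀ᶠ t in 𝓝 a, ContDiffAt ℝ ∞ g t ∧ g t ∈ K) ∧
      deriv g a ≠ 0 ∧ ∀ U ∈ 𝓝 a, g '' U ∈ 𝓝[K] p) :
    ∃ (κ : Type) (_ : Fintype κ) (γ : κ → ℝ → E), (∀ c, ContDiff ℝ ∞ (γ c)) ∧
      (∀ c t, γ c (t + 1) = γ c t) ∧
      (∀ c c' s t, γ c s = γ c' t → c = c' ∧ ∃ k : ℤ, t = s + k) ∧
      (∀ c t, deriv (γ c) t ≠ 0) ∧ K = ⋃ c, range (γ c) := by
  have h1 : ∀ p ∈ K, ∃ γ, γ 0 = p ∧ US K γ 0 := by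
    intro p hp
    obtain ⟨g, a, rfl, h1, h2, h3⟩ := h p hp
    exact exists_US h1 h2 h3
  have H : ∀ p ∈ K, ∃ Γ, Γ 0 = p ∧ ∀ t, US K Γ t := fun p hp => exists_global hK h1 hp
  let C : Set (Set E) := {A | ∃ Γ, (∀ t, US K Γ t) ∧ A = range Γ}
  have hC : C.Finite := by
    choose! G hG hG' using H
    obtain ⟨s, hs, hs'⟩ := hK.elim_nhdsWithin_subcover (fun p => range (G p)) fun p hp => by
      have := (hG' p hp 0).op _ univ_mem
      rwa [image_univ, hG p hp] at this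
    refine (s.finite_toSet.image fun p => range (G p)).subset ?_
    rintro _ ⟨Γ, hΓ, rfl⟩
    obtain ⟨p, hp, t, ht⟩ := mem_iUnion₂.1 (hs' (hΓ 0).mem)
    exact ⟨p, hp, (range_eq (hG' p (hs p hp)) hΓ ht).symm⟩
  choose G hG hG' using fun c : C => c.2
  choose T hT hT' hT'' using fun c : C => exists_period hK H (hG c)
  have hsm : ∀ c, ContDiff ℝ ∞ (G c) := fun c =>
    contDiff_iff_contDiffAt.2 fun t => (hG c t).smooth.self_of_nhds
  refine ⟨C, hC.fintype, fun c t => G c (T c * t), fun c => (hsm c).comp (by fun_prop),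
    fun c t => by simp only [mul_add, mul_one, hT'], ?_, fun c t => ?_, ?_⟩
  · intro c c' s t e
    obtain rfl : c = c' := by
      apply Subtype.ext
      rw [hG' c, hG' c', range_eq (hG c) (hG c') e]
    obtain ⟨k, hk⟩ := hT'' c _ _ e
    exact ⟨rfl, k, mul_left_cancel₀ (hT c) (by rw [hk]; ring)⟩
  · have h2 : HasDerivAt (fun t : ℝ => T c * t) (T c) t := by
      simpa using (hasDerivAt_id t).const_mul (T c)
    have h3 := ((diffAt (hsm c).contDiffAt).hasDerivAt.scomp t h2).deriv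
    show deriv (G c ∘ fun t => T c * t) t ≠ 0
    rw [h3]
    exact smul_ne_zero (hT c) (hG c _).deriv_ne
  · apply Subset.antisymm
    · intro p hp
      obtain ⟨Γ, rfl, hΓ⟩ := H p hp
      let c : C := ⟨range Γ, Γ, hΓ, rfl⟩
      obtain ⟨s, hs⟩ : Γ 0 ∈ range (G c) := hG' c ▸ mem_range_self 0
      exact mem_iUnion.2 ⟨c, s / T c, by simp only [mul_div_cancel₀ _ (hT c), hs]⟩
    · exact iUnion_subset fun c => range_subset_iff.2 fun t => (hG c _).mem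

end Pool.Agent.P.MP_ac4909_gt.B.OneM
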