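import Pool.Agent.P.MP_ac4909_gt.B.MLink
import Pool.Agent.P.MP_ac4909_gt.B.MArc_x

/-! Classification of compact framed one-dimensional submanifolds. -/

namespace Pool.Agent.P.MP_ac4909_gt.B

open scoped Manifold ContDiff
open Set Filter Topology

variable {M : Type*} [TopologicalSpace M] [T2Space M] [ChartedSpace E3 M]
  [IsManifold (𝓡 3) ∞ M] {S : Set (TM M)}

/-- near every base point, `S` is the germ of an embedded smooth framed arc -/
def GermArc (S : Set (TM M)) : Prop :=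
  ∀ x ∈ S, ∃ (g : ℝ → TM M) (t₀ : ℝ), g t₀ = x ∧
    (∀ᶠ t in 𝓝 t₀, ContMDiffAt 𝓘(ℝ, ℝ) (𝓡 3).tangent ∞ g t ∧ g t ∈ S) ∧
    LinearIndependent ℝ ![vel (fun u => (g u).proj) t₀, (x.snd : E3)] ∧
    ∀ U ∈ 𝓝 t₀, ∃ W ∈ 𝓝 x.proj, ∀ y ∈ S, y.proj ∈ W → y ∈ g '' U

theorem IsLS.germArc (h : IsLS S) : GermArc S := by
  obtain ⟨κ, _, Γ, hΓ, rfl⟩ := h
  intro x hx
  obtain ⟨c, t₀, rfl⟩ : ∃ c t₀, Γ c t₀ = x := by simpa [trace] using hx
  refine ⟨Γ c, t₀, rfl, Eventually.of_forall fun t =>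
    ⟨hΓ.smooth c t, mem_iUnion.2 ⟨c, mem_range_self t⟩⟩, hΓ.indep c t₀, fun U hU => ?_⟩
  have hcont : ∀ c', Continuous fun u => (Γ c' u).proj := fun c' =>
    continuous_iff_continuousAt.2 fun u => (contMDiffAt_proj (hΓ.smooth c' u)).continuousAt
  let A : κ → Set ℝ := fun c' => Icc (t₀ - 1 / 2) (t₀ + 1 / 2) ∩ {u | c' = c → u ∉ interior U}
  have hA : ∀ c', IsCompact (A c') := by
    intro c'
    refine isCompact_Icc.inter_right ?_
    by_cases e : c' = c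
    · simp only [e, forall_true_left]
      exact isOpen_interior.isClosed_compl
    · simp [e]
  have hC : IsClosed (⋃ c', (fun u => (Γ c' u).proj) '' A c') :=
    isClosed_iUnion_of_finite fun c' => ((hA c').image (hcont c')).isClosed
  refine ⟨_, hC.isOpen_compl.mem_nhds ?_, ?_⟩
  · intro hm
    obtain ⟨c', u, hu, e⟩ := mem_iUnion.1 hm
    obtain ⟨rfl, k, hk⟩ := hΓ.inj _ _ _ _ e
    have h1 : |(k : ℝ)| < 1 := by
      rw [abs_lt]
      constructor <;> linarith [hu.1.1, hu.1.2]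
    have h2 : k = 0 := Int.abs_lt_one_iff.1 (by exact_mod_cast h1)
    rw [h2, Int.cast_zero, add_zero] at hk
    exact hu.2 rfl (hk ▸ mem_interior_iff_mem_nhds.2 hU)
  · intro y hy hW
    obtain ⟨c', u, rfl⟩ : ∃ c' u, Γ c' u = y := by simpa [trace] using hy
    have h1 := Int.floor_le (t₀ + 1 / 2 - u)
    have h2 := Int.lt_floor_add_one (t₀ + 1 / 2 - u)
    rw [← hΓ.per_int c' u ⌊t₀ + 1 / 2 - u⌋] at hW ⊢
    by_contra hn
    refine hW (mem_iUnion.2 ⟨c', _, ⟨⟨by linarith, by linarith⟩, ?_⟩, rfl⟩)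
    rintro rfl hu
    exact hn ⟨_, interior_subset hu, rfl⟩

omit [T2Space M] in
/-- the germ of an arc, seen in a Euclidean space -/
theorem germ_emb {F : Type*} [NormedAddCommGroup F] [NormedSpace ℝ F] {j : M → F}
    (hj : ContMDiff (𝓡 3) 𝓘(ℝ, F) ∞ j) (he : IsEmbedding j)
    (hd : ∀ x, Function.Injective (mfderiv (𝓡 3) 𝓘(ℝ, F) j x)) {g : ℝ → TM M} {t₀ : ℝ}
    (h1 : ∀ᶠ t in 𝓝 t₀, ContMDiffAt 𝓘(ℝ, ℝ) (𝓡 3).tangent ∞ g t ∧ g t ∈ S)
    (h2 : LinearIndependent ℝ ![vel (fun u => (g u).proj) t₀, ((g t₀).snd : E3)])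
    (h3 : ∀ U ∈ 𝓝 t₀, ∃ W ∈ 𝓝 (g t₀).proj, ∀ y ∈ S, y.proj ∈ W → y ∈ g '' U) :
    (∀ᶠ t in 𝓝 t₀, ContDiffAt ℝ ∞ (fun u => j (g u).proj) t ∧
      j (g t).proj ∈ (fun x : TM M => j x.proj) '' S) ∧
    deriv (fun u => j (g u).proj) t₀ ≠ 0 ∧
    ∀ U ∈ 𝓝 t₀, (fun u => j (g u).proj) '' U ∈
      𝓝[(fun x : TM M => j x.proj) '' S] (j (g t₀).proj) := by
  refine ⟨h1.mono fun t ht => ⟨contMDiffAt_iff_contDiffAt.1
    ((hj _).comp t (contMDiffAt_proj ht.1)), mem_image_of_mem _ ht.2⟩, ?_, fun U hU => ?_⟩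
  · have hg : MDifferentiableAt 𝓘(ℝ, ℝ) (𝓡 3) (fun u => (g u).proj) t₀ :=
      (contMDiffAt_proj h1.self_of_nhds.1).mdifferentiableAt (by simp)
    have hc := mfderiv_comp t₀ ((hj (g t₀).proj).mdifferentiableAt (by simp)) hg
    rw [mfderiv_eq_fderiv] at hc
    have h4 : deriv (fun u => j (g u).proj) t₀ =
        mfderiv (𝓡 3) 𝓘(ℝ, F) j (g t₀).proj (vel (fun u => (g u).proj) t₀) :=
      congrArg (fun A => A (1 : ℝ)) hc
    rw [h4]
    intro h0
    have h5 : vel (fun u => (g u).proj) t₀ = 0 := hd _ (h0.trans (map_zero _).symm)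
    exact h2.ne_zero 0 h5
  · obtain ⟨W, hW, hWS⟩ := h3 U hU
    have h4 : j '' W ∈ 𝓝[range j] (j (g t₀).proj) := by
      rw [← he.map_nhds_eq]
      exact image_mem_map hW
    have h5 : (fun x : TM M => j x.proj) '' S ⊆ range j := by
      rintro _ ⟨x, -, rfl⟩
      exact mem_range_self _
    refine mem_of_superset (inter_mem (nhdsWithin_mono _ h5 h4) self_mem_nhdsWithin) ?_
    rintro _ ⟨⟨w, hw, e⟩, y, hy, rfl⟩
    obtain ⟨s, hs, rfl⟩ := hWS y hy (he.injective e ▸ hw)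
    exact ⟨s, hs, rfl⟩

theorem GermArc.isLS [CompactSpace M] (h : GermArc S) (hc : IsCompact S) : IsLS S := by
  obtain ⟨n, j, hj, he, hd⟩ := exists_embedding_euclidean_of_compact (I := 𝓡 3) (M := M)
  have hpc : Continuous fun x : TM M => j x.proj :=
    hj.continuous.comp (FiberBundle.continuous_proj _ _)
  have hinj : ∀ x ∈ S, ∀ y ∈ S, j x.proj = j y.proj → x = y := by
    intro x hx y hy e
    obtain ⟨g, t₀, rfl, h1, h2, h3⟩ := h x hx
    obtain ⟨h4, h5, -⟩ := germ_emb hj he.isEmbedding hd h1 h2 h3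
    obtain ⟨ρ, -, hρ⟩ := OneM.exists_leftInv (h4.mono fun t ht => ht.1) h5
    obtain ⟨W, hW, hWS⟩ := h3 _ hρ
    obtain ⟨s, hs, rfl⟩ := hWS y hy (he.injective e ▸ mem_of_mem_nhds hW)
    have h6 : ρ (j (g s).proj) = s := hs
    rw [← e, hρ.self_of_nhds] at h6
    rw [h6]
  obtain ⟨κ, _, γ, hs, hper, hi, him, hK⟩ := OneM.classification (hc.image hpc) (by
    rintro _ ⟨x, hx, rfl⟩
    obtain ⟨g, t₀, rfl, h1, h2, h3⟩ := h x hx
    exact ⟨fun u => j (g u).proj, t₀, rfl, germ_emb hj he.isEmbedding hd h1 h2 h3⟩)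
  have hmem : ∀ c t, γ c t ∈ (fun x : TM M => j x.proj) '' S := fun c t =>
    hK ▸ mem_iUnion.2 ⟨c, mem_range_self t⟩
  choose Γ hΓ hΓ' using hmem
  have key : ∀ c t, ContMDiffAt 𝓘(ℝ, ℝ) (𝓡 3).tangent ∞ (Γ c) t ∧
      LinearIndependent ℝ ![vel (fun u => (Γ c u).proj) t, ((Γ c t).snd : E3)] := by
    intro c t
    obtain ⟨g, t₀, e, h1, h2, h3⟩ := h _ (hΓ c t)
    rw [← e] at h2 h3
    obtain ⟨h4, h5, h6⟩ := germ_emb hj he.isEmbedding hd h1 h2 h3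
    obtain ⟨φ, rfl, hφ⟩ := OneM.exists_factor (γ := γ c) (b := t) (h4.mono fun t ht => ht.1) h5 h6
      (Eventually.of_forall fun u => ⟨(hs c).contDiffAt, Γ c u, hΓ c u, hΓ' c u⟩)
      (by simp only [e, hΓ'])
    have hφ0 := hφ.self_of_nhds.1
    have hev : Γ c =ᶠ[𝓝 t] fun u => g (φ u) := by
      filter_upwards [hφ, hφ0.continuousAt.eventually h1] with u hu hu'
      exact hinj _ (hΓ c u) _ hu'.2 ((hΓ' c u).trans hu.2)
    have hne : deriv φ t ≠ 0 := by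
      intro h0
      have h7 : γ c =ᶠ[𝓝 t] (fun u => j (g u).proj) ∘ φ := hφ.mono fun u hu => hu.2
      have h8 := ((OneM.diffAt h4.self_of_nhds.1).hasDerivAt.scomp t
        (OneM.diffAt hφ0).hasDerivAt).deriv
      exact him c t (by rw [h7.deriv_eq, h8, h0, zero_smul])
    refine ⟨(h1.self_of_nhds.1.comp t hφ0.contMDiffAt).congr_of_eventuallyEq hev, ?_⟩
    have h9 : vel (fun u => (Γ c u).proj) t = deriv φ t • vel (fun u => (g u).proj) (φ t) := by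
      rw [← vel_reparam ((contMDiffAt_proj h1.self_of_nhds.1).mdifferentiableAt (by simp))
        (OneM.diffAt hφ0)]
      exact vel_congr (hev.mono fun u hu => by simp only [hu])
    rw [h9, ← e]
    rw [LinearIndependent.pair_iff] at h2 ⊢
    intro a b hab
    rw [smul_smul] at hab
    obtain ⟨h10, h11⟩ := h2 _ _ hab
    exact ⟨(mul_eq_zero.1 h10).resolve_right hne, h11⟩
  refine ⟨κ, inferInstance, Γ, ⟨fun c t => (key c t).1, fun c t => ?_, fun c c' s t e => ?_,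
    fun c t => (key c t).2⟩, ?_⟩
  · exact hinj _ (hΓ _ _) _ (hΓ _ _) ((hΓ' _ _).trans ((hper c t).trans (hΓ' _ _).symm))
  · exact hi _ _ _ _ ((hΓ' _ _).symm.trans ((congrArg j e).trans (hΓ' _ _)))
  · apply Subset.antisymm
    · intro x hx
      obtain ⟨c, t, e⟩ := mem_iUnion.1 (hK ▸ mem_image_of_mem (fun x : TM M => j x.proj) hx)
      exact mem_iUnion.2 ⟨c, t, hinj _ (hΓ _ _) _ hx ((hΓ' _ _).trans e)⟩
    · exact iUnion_subset fun c => range_subset_iff.2 fun t => hΓ c t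

end Pool.Agent.P.MP_ac4909_gt.B
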