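import Pool.Agent.P.MP_ac4909_gt.B.MCross_Loc

/-! A skein may be moved across the graph. -/

namespace Pool.Agent.P.MP_ac4909_gt.B

open scoped Manifold ContDiff
open Set Filter Topology

variable {M : Type*} [TopologicalSpace M] [T2Space M] [ChartedSpace E3 M]
  [IsManifold (𝓡 3) ∞ M] {ι Vx : Type} [Fintype ι] [DecidableEq ι] [Fintype Vx]

/-- a locally true transitive relation between good parameters -/
theorem mcl_chain {g : ℝ → Prop} {R : ℝ → ℝ → Prop} (hq : ∀ q : ℚ, g q)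
    (hR : ∀ a b c, R a b → R b c → R a c)
    (h : ∀ x, ∃ U ∈ 𝓝 x, ∀ s ∈ U, ∀ s' ∈ U, g s → g s' → R s s') : R 0 1 := by
  have key := PreconnectedSpace.induction₂'
    (fun x y : ℝ => ∀ᶠ a in 𝓝 x, ∀ᶠ b in 𝓝 y, g a → g b → R a b) (fun x => ?_) ⟨?_⟩ 0 1
  · exact key.self_of_nhds.self_of_nhds (by simpa using hq 0) (by simpa using hq 1)
  · obtain ⟨U, hU, h1⟩ := h x
    filter_upwards [eventually_mem_nhds_iff.2 hU] with y hy
    exact ⟨Eventually.mono hU fun a ha => Eventually.mono hy fun b hb => h1 a ha b hb,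
      Eventually.mono hy fun a ha => Eventually.mono hU fun b hb => h1 a ha b hb⟩
  · intro x y z h1 h2
    filter_upwards [h1] with a ha
    obtain ⟨_, ⟨h3, h4⟩, q, rfl⟩ :=
      mem_closure_iff_nhds.1 (Rat.denseRange_cast (𝕜 := ℝ) y) _ (ha.and h2)
    filter_upwards [h4] with c hc h5 h6
    exact hR _ _ _ (h3 h5 (hq q)) (hc (hq q) h6)

theorem HD.cross (H : HD M ι Vx) {E : EvSys ι (ℕ × (ι → ℕ))} (hE : AFacts E) {F : Set M}
    (hF : IsClosed F) {X₀ X₁ : Set (TM M)} (h : IsoIn Fᶜ X₀ X₁) (h₀ : Disjoint (base X₀) H.gs)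
    (h₁ : Disjoint (base X₁) H.gs) : H.ThinEq E F X₀ X₁ := by
  have hK := h.isLS.1.isCompact_base.union h.isLS.2.1.isCompact_base
  obtain ⟨κ, _, Γ, hΓ, rfl, rfl⟩ := h
  have hτ : ∀ u, Real.smoothTransition u ∈ Icc (0 : ℝ) 1 := fun u =>
    ⟨Real.smoothTransition.nonneg u, Real.smoothTransition.le_one u⟩
  obtain ⟨G, hGe⟩ : ∃ G : ℝ → κ → ℝ → TM M, G = fun s => Γ (Real.smoothTransition s) := ⟨_, rfl⟩
  have hG : Fam Fᶜ G := hGe ▸ ⟨fun c => (hΓ.smooth c).comp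
    (f := fun p : ℝ × ℝ => (Real.smoothTransition p.1, p.2))
    ((Real.smoothTransition.contDiff.comp contDiff_fst).prodMk contDiff_snd).contMDiff,
    fun s => hΓ.link _ (hτ s), fun s => hΓ.mem _ (hτ s)⟩
  have g0 : G 0 = Γ 0 := by simp [hGe]
  have g1 : G 1 = Γ 1 := by simp [hGe]
  have hs : ∀ s, G s = G 0 ∨ G s = G 1 ∨ s ∈ Icc (0 : ℝ) 1 := fun s => by
    rcases le_total s 0 with h | h
    · exact Or.inl (by simp [hGe, Real.smoothTransition.zero_of_nonpos h])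
    · rcases le_total 1 s with h' | h'
      · exact Or.inr (Or.inl (by simp [hGe, Real.smoothTransition.one_of_one_le h']))
      · exact Or.inr (Or.inr ⟨h, h'⟩)
  have I0 : (0 : ℝ) ∈ Icc (0 : ℝ) 1 := ⟨le_rfl, zero_le_one⟩
  have I1 : (1 : ℝ) ∈ Icc (0 : ℝ) 1 := ⟨zero_le_one, le_rfl⟩
  have hs' : ∀ s, ∃ s' ∈ Icc (0 : ℝ) 1, G s = G s' := fun s =>
    (hs s).elim (fun h => ⟨0, I0, h⟩) fun h => h.elim (fun h => ⟨1, I1, h⟩) fun h => ⟨s, h, rfl⟩
  obtain ⟨Q, hQ, q1, q2, q3, q4, q5⟩ := H.pert (h := fun c p => (G p.1 c p.2).proj)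
    (fun c p => contMDiffAt_proj (hG.smooth c p))
    (fun c s t => congrArg _ ((hG.link s).per c t)) hK (disjoint_union_left.2 ⟨h₀, h₁⟩) hF
    fun c s _ t => hG.mem s c t
  have hG' : Fam Fᶜ fun s c t => tm (Q 1) (G s c t) := by
    refine ⟨fun c p => contMDiffAt_tm (h := fun _ => Q 1)
      ((hQ.contMDiff 1 _).comp _ contMDiffAt_snd) (hG.smooth c p),
      fun s => (hG.link s).tm (fun x _ => hQ.contMDiff 1 x) (hQ.inj 1 I1).injOn
        fun x _ => (hQ.pos 1 I1 x).ne', fun s c t => ?_⟩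
    obtain ⟨s', h, e⟩ := hs' s
    rw [e]
    exact q2 c s' h t
  have e0 : (fun c t => tm (Q 1) (G 0 c t)) = Γ 0 := by
    funext c t
    rw [g0, tm_congr (q1 1 _ (Or.inl ⟨_, mem_iUnion.2 ⟨c, t, rfl⟩, rfl⟩)), tm_id]
  have e1 : (fun c t => tm (Q 1) (G 1 c t)) = Γ 1 := by
    funext c t
    rw [g1, tm_congr (q1 1 _ (Or.inr ⟨_, mem_iUnion.2 ⟨c, t, rfl⟩, rfl⟩)), tm_id]
  rw [← e0, ← e1]
  refine mcl_chain (g := fun s => Disjoint (base (trace fun c t => tm (Q 1) (G s c t))) H.gs)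
    (R := fun s s' => H.ThinEq E F (trace fun c t => tm (Q 1) (G s c t))
      (trace fun c t => tm (Q 1) (G s' c t))) (fun q => ?_) (fun _ _ _ => HD.ThinEq.trans)
    fun s => H.loc hE hF hG' ?_ ?_
  · rcases hs q with h | h | h
    · rwa [h, e0]
    · rwa [h, e1]
    · exact mcl_disj.2 fun c t => q4 c q h t
  · obtain ⟨s', h, e⟩ := hs' s
    rw [e]
    exact fun c t v => q3 c s' h t v
  · obtain ⟨s', h, e⟩ := hs' s
    rw [e]
    exact fun c t e => q5 c s' h t e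

end Pool.Agent.P.MP_ac4909_gt.B
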