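import Pool.Agent.P.MP_ac4909_gt.B.MCross_Box

/-! The handle slide in the plane model. -/

namespace Pool.Agent.P.MP_ac4909_gt.B

open scoped Manifold ContDiff
open Set Filter Topology

variable {M : Type*} [TopologicalSpace M] [T2Space M] [ChartedSpace E3 M]
  [IsManifold (𝓡 3) ∞ M] {ι Vx : Type} [Fintype ι] [DecidableEq ι] [Fintype Vx]

section aux
omit [T2Space M] [IsManifold (𝓡 3) ∞ M] [Fintype ι] [DecidableEq ι] [Fintype Vx]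

theorem mcb_Qb {p : E3} (hp : p ∈ Qb (9 / 8)) : p ∈ Qb (5 / 4) := fun i =>
  (hp i).trans (by norm_num)

theorem mcb_box : sbox '' Qb (9 / 8) ⊆ Cy := by
  rintro _ ⟨p, hp, rfl⟩
  exact (sbox_mem (mcb_Qb hp)).1

theorem mcb_rad_sbox {p : E3} (hp : p ∈ Qb (9 / 8)) : 1 / 4 ≤ rad (sbox p) := by
  have h := (abs_lt.1 (hp 0)).1
  rw [sbox, rad_circ (by linarith)]
  linarith

theorem mcb_circ_mem {r h : ℝ} (h0 : 0 ≤ r) (h1 : r ≤ 3 / 4) (hh : |h| ≤ 1) (t : ℝ) :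
    circ r h t ∈ Cy :=
  ⟨by rw [rad_circ h0]; linarith, hh.trans one_le_two⟩

theorem mcb_circ_add (r h t : ℝ) : circ r h t = circ r 0 t + h • ez := by
  refine MHd_ext ?_ ?_ ?_ <;> simp [circ, ez]

theorem mcb_circ_smooth (r : ℝ) : ContDiff ℝ ∞ fun q : ℝ × ℝ => circ r q.2 q.1 := by
  rw [contDiff_euclidean]
  intro i
  fin_cases i
  · change ContDiff ℝ ∞ fun q : ℝ × ℝ => r * Real.cos (2 * Real.pi * q.1)
    fun_prop
  · change ContDiff ℝ ∞ fun q : ℝ × ℝ => r * Real.sin (2 * Real.pi * q.1)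
    fun_prop
  · change ContDiff ℝ ∞ fun q : ℝ × ℝ => q.2
    fun_prop

theorem mcb_mdl {m : ℝ → E3} (h : PMdl m) : m '' Icc (-3 / 2) (3 / 2) ⊆ Cy := by
  rintro _ ⟨τ, hτ, rfl⟩
  refine ⟨h.small τ (abs_le.2 ⟨by linarith [hτ.1], hτ.2⟩), ?_⟩
  rw [h.flat]
  norm_num

/-- vertical framing of a labelled point -/
noncomputable def mcb_P (χ : E3 → M) (y : Option ι × E3) : Option ι × TM M :=
  (y.1, pushT χ y.2 ez)

/-- a model curve, a circle and the rest -/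
def mcb_S (χ : E3 → M) (e : ι) (Rs : LM ι M) (m : ℝ → E3) (h : ℝ) : LM ι M :=
  Rs ∪ mcb_P χ '' (nn (m '' Icc (-3 / 2) (3 / 2)) ∪ {some e} ×ˢ range (circ (3 / 4) h))

variable {χ : E3 → M} {Rs : LM ι M} {T A : Pic ι}

omit [TopologicalSpace M] [ChartedSpace E3 M] in
theorem mcb_mem (hi : InjOn χ Cy) {p : E3} (hp : p ∈ Cy) :
    χ p ∈ (χ ∘ sbox) '' Qb (9 / 8) ↔ p ∈ sbox '' Qb (9 / 8) := by
  rw [image_comp]
  exact hi.mem_image_iff mcb_box hp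

theorem mcb_ins (hi : InjOn χ Cy) (hd : ∀ p ∈ Cy, MDifferentiableAt (𝓡 3) (𝓡 3) χ p)
    (hR : ∀ x ∈ Rs, x.2.proj ∉ (χ ∘ sbox) '' Qb (9 / 8)) (hT : ∀ y ∈ T, y.2 ∈ Cy)
    (h : {y ∈ T | y.2 ∈ sbox '' Qb (9 / 8)} =
      (fun y => (y.1, sbox y.2)) '' {y ∈ A | y.2 ∈ Qb (9 / 8)}) :
    MIns (χ ∘ sbox) (Rs ∪ mcb_P χ '' T) A := by
  have e1 : {x ∈ Rs ∪ mcb_P χ '' T | x.2.proj ∈ (χ ∘ sbox) '' Qb (9 / 8)} =
      mcb_P χ '' {y ∈ T | y.2 ∈ sbox '' Qb (9 / 8)} := by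
    ext x
    constructor
    · rintro ⟨hx | ⟨y, hy, rfl⟩, h2⟩
      · exact absurd h2 (hR x hx)
      · exact ⟨y, ⟨hy, (mcb_mem hi (hT y hy)).1 h2⟩, rfl⟩
    · rintro ⟨y, hy, rfl⟩
      exact ⟨Or.inr ⟨y, hy.1, rfl⟩, (mcb_mem hi (hT y hy.1)).2 hy.2⟩
  rw [MIns, e1, h, image_image]
  refine image_congr fun y hy => ?_
  rw [pushT_comp (hd _ (sbox_mem (mcb_Qb hy.2)).1) (sbox_contDiff.differentiable (by simp) _),
    fderiv_sbox_ez]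
  rfl

theorem mcb_out (hi : InjOn χ Cy) (hR : ∀ x ∈ Rs, x.2.proj ∉ (χ ∘ sbox) '' Qb (9 / 8))
    (hT : ∀ y ∈ T, y.2 ∈ Cy) : MOut (χ ∘ sbox) (Rs ∪ mcb_P χ '' T) =
      Rs ∪ mcb_P χ '' {y ∈ T | y.2 ∉ sbox '' Qb (9 / 8)} := by
  ext x
  constructor
  · rintro ⟨hx | ⟨y, hy, rfl⟩, h2⟩
    · exact Or.inl hx
    · exact Or.inr ⟨y, ⟨hy, fun h => h2 ((mcb_mem hi (hT y hy)).2 h)⟩, rfl⟩
  · rintro (hx | ⟨y, hy, rfl⟩)
    · exact ⟨Or.inl hx, hR x hx⟩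
    · exact ⟨Or.inr ⟨y, hy.1, rfl⟩, fun h => hy.2 ((mcb_mem hi (hT y hy.1)).1 h)⟩

theorem mcb_vel (hd : ∀ p ∈ Cy, MDifferentiableAt (𝓡 3) (𝓡 3) χ p) {h : ℝ} (hh : |h| ≤ 1)
    (t : ℝ) : vel (fun r => χ (circ (3 / 4) r t)) h = jac χ (circ (3 / 4) h t) ez := by
  have h1 : HasDerivAt (fun r => circ (3 / 4) r t) ez h := by
    rw [show (fun r => circ (3 / 4) r t) = fun r => circ (3 / 4) 0 t + r • ez from
      funext fun r => mcb_circ_add _ r t]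
    simpa using ((hasDerivAt_id h).smul_const ez).const_add (circ (3 / 4) 0 t)
  rw [vel_comp (γ := fun r => circ (3 / 4) r t) (hd _ (mcb_circ_mem (by norm_num) le_rfl hh t))
    h1.differentiableAt.mdifferentiableAt, vel_eq_deriv, h1.deriv]

theorem mcb_imm {t : ℝ} (md : MDifferentiableAt (𝓡 3) (𝓡 3) χ (circ (3 / 4) 0 t))
    (hp : (jac χ (circ (3 / 4) 0 t)).det ≠ 0) : vel (fun u => χ (circ (3 / 4) 0 u)) t ≠ 0 := by
  have h2 := (MHd_circ_link (ε := 3 / 4) (by norm_num)).isU.smooth ()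
  have h3 := ((MHd_circ_link (ε := 3 / 4) (by norm_num)).indep () t).ne_zero 0
  rw [vel_comp (γ := circ (3 / 4) 0) md (h2.differentiable (by simp) t).mdifferentiableAt,
    vel_eq_deriv]
  exact fun h => h3 (injective_of_det_ne hp (h.trans (map_zero _).symm))

theorem mcb_lab (hd : ∀ p ∈ Cy, MDifferentiableAt (𝓡 3) (𝓡 3) χ p) {e : ι}
    (hR : ∀ x ∈ Rs, x.1 ≠ some e) (m : ℝ → E3) {h : ℝ} (hh : |h| ≤ 1) :
    {x ∈ mcb_S χ e Rs m h | x.1 = some e} = range fun t =>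
      (some e, (⟨χ (circ (3 / 4) h t), vel (fun r => χ (circ (3 / 4) r t)) h⟩ : TM M)) := by
  simp only [mcb_vel hd hh]
  ext x
  constructor
  · rintro ⟨hx | ⟨⟨l, p⟩, hy | ⟨h1, t, h2⟩, rfl⟩, h3⟩
    · exact absurd h3 (hR x hx)
    · exact absurd (hy.1.symm.trans h3) (Option.some_ne_none e).symm
    · obtain rfl : l = some e := h1
      obtain rfl : circ (3 / 4) h t = p := h2
      exact ⟨t, rfl⟩
  · rintro ⟨t, rfl⟩
    exact ⟨Or.inr ⟨(some e, circ (3 / 4) h t), Or.inr ⟨rfl, t, rfl⟩, rfl⟩, rfl⟩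

theorem mcb_lab' {e : ι} (hR : ∀ x ∈ Rs, x.1 ≠ some e) (m : ℝ → E3) (h : ℝ) :
    {x ∈ mcb_S χ e Rs m h | x.1 ≠ some e} =
      Rs ∪ mcb_P χ '' nn (m '' Icc (-3 / 2) (3 / 2)) := by
  ext x
  constructor
  · rintro ⟨hx | ⟨y, hy | hy, rfl⟩, h3⟩
    · exact Or.inl hx
    · exact Or.inr ⟨y, hy, rfl⟩
    · exact absurd hy.1 h3
  · rintro (hx | ⟨y, hy, rfl⟩)
    · exact ⟨Or.inl hx, hR x hx⟩
    · exact ⟨Or.inr ⟨y, Or.inl hy, rfl⟩, fun h => Option.some_ne_none e (h.symm.trans hy.1)⟩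

end aux

theorem mcb_slide (H : HD M ι Vx) {E : EvSys ι (ℕ × (ι → ℕ))} (hE : AFacts E) {e : ι} {χ : E3 → M}
    {D : Set E3} (hD : IsOpen D) (hχ : MPosOn χ D) (hC : Cy ⊆ D)
    (hg : ∀ p ∈ Cy, p ∉ axis → χ p ∉ H.gs) {m₀ m₁ : ℝ → E3} (h₀ : PMdl m₀) (h₁ : PMdl m₁)
    {hx hy : ℝ → ℝ} {a u₁ u₀ u₂ b : ℝ} (hs : SlideData m₀ m₁ hx hy a u₁ u₀ u₂ b) {Rs : LM ι M}
    (hR : ∀ x ∈ Rs, x.1 ≠ some e) (hR' : ∀ x ∈ Rs, x.2.proj ∉ (χ ∘ sbox) '' Qb (9 / 8))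
    (hS : IsPM (mcb_S χ e Rs m₀ 0)) (hd : Disjoint (lbase (mcb_S χ e Rs m₀ 0)) H.gs) :
    ∃ δ : ℝ, 0 < δ ∧ δ < 1 ∧ (IsLM (mcb_S χ e Rs m₁ (-δ)) →
      ∀ t, H.val E t (mcb_S χ e Rs m₁ (-δ)) = H.val E t (mcb_S χ e Rs m₀ 0)) := by
  have hi : InjOn χ Cy := hχ.inj.mono hC
  have md : ∀ p ∈ Cy, MDifferentiableAt (𝓡 3) (𝓡 3) χ p := fun p hp =>
    (hχ.smooth.contMDiffAt (hD.mem_nhds (hC hp))).mdifferentiableAt (by simp)
  have c0 : ∀ t, circ (3 / 4) 0 t ∈ Cy := mcb_circ_mem (by norm_num) le_rfl (by norm_num)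
  have T0 : ∀ y ∈ (nn (m₀ '' Icc (-3 / 2) (3 / 2)) ∪ {some e} ×ˢ range (circ (3 / 4) 0) : Pic ι),
      y.2 ∈ Cy := by
    rintro y (h | ⟨-, t, h⟩)
    · exact mcb_mdl h₀ h.2
    · exact h ▸ c0 t
  have T1 : ∀ y ∈ (nn (m₁ '' Icc (-3 / 2) (3 / 2)) : Pic ι), y.2 ∈ Cy := fun y h => mcb_mdl h₁ h.2
  have h1 := H.m_slide hE
    (hχ.comp hD posOn_sbox (isOpen_Qb _) fun p hp => hC (sbox_mem hp).1)
    (fun p hp => hg _ (sbox_mem hp).1 (sbox_mem hp).2) hS hd (i := e)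
    (mcb_ins hi md hR' T0 ?_) (G := fun q => χ (circ (3 / 4) q.2 q.1)) one_pos
    (hχ.smooth.comp (mcb_circ_smooth _).contMDiff.contMDiffOn fun q hq =>
      hC (mcb_circ_mem (by norm_num) le_rfl (abs_lt.2 hq.2).le _))
    (fun t r => congrArg χ
      ((circ_eq_iff (by norm_num) (by norm_num)).2 ⟨rfl, rfl, 1, by simp⟩).symm)
    (fun s t h => ((circ_eq_iff (by norm_num) (by norm_num)).1 (hi (c0 s) (c0 t) h)).2.2)
    (fun t => ?_) (mcb_lab md hR m₀ (by norm_num)) (fun t p hp h r _ _ => ?_) hs.cap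
  · obtain ⟨δ, h2, h3, h4⟩ := (h1.and (Ioo_mem_nhdsGT one_pos)).exists
    have h5 : |(-δ)| ≤ 1 := by
      rw [abs_neg, abs_of_pos h3]
      exact le_of_lt h4
    refine ⟨δ, h3, h4, fun hS' => h2 _ hS' (mcb_lab md hR m₁ h5) ?_ ?_⟩
    · rw [mcb_lab' hR, mcb_out hi hR' T1, mcb_S, mcb_out hi hR' T0, image_union, image_image]
      congr 1
      · refine ((image_congr fun x hx => ?_).trans (image_id Rs)).symm
        rw [if_neg (hR x hx)]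
        rfl
      · ext x
        constructor
        · rintro ⟨⟨l, p⟩, ⟨⟨h6, h7⟩, h8⟩, rfl⟩
          obtain rfl : l = none := h6
          obtain ⟨h9 | h9, -⟩ := hs.out.le ⟨h7, h8⟩
          · exact ⟨(none, p), ⟨Or.inl ⟨rfl, h9⟩, h8⟩, by simp [mcb_P]⟩
          · exact ⟨(some e, p), ⟨Or.inr ⟨rfl, h9⟩, h8⟩, by simp [mcb_P]⟩
        · rintro ⟨⟨l, p⟩, ⟨⟨h6, h7⟩ | ⟨h6, h7⟩, h8⟩, rfl⟩
          · obtain rfl : l = none := h6
            exact ⟨(none, p), ⟨⟨rfl, (hs.out.ge ⟨Or.inl h7, h8⟩).1⟩, h8⟩, by simp [mcb_P]⟩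
          · obtain rfl : l = some e := h6
            exact ⟨(none, p), ⟨⟨rfl, (hs.out.ge ⟨Or.inr h7, h8⟩).1⟩, h8⟩, by simp [mcb_P]⟩
    · rw [mcb_lab' hR]
      refine mcb_ins hi md hR' T1 ?_
      ext ⟨l, p⟩
      constructor
      · rintro ⟨⟨h6, h7⟩, h8⟩
        obtain ⟨q, hq, rfl⟩ := hs.in₁.le ⟨h7, h8⟩
        exact ⟨(l, q), ⟨⟨h6, hq.1⟩, hq.2⟩, rfl⟩
      · rintro ⟨⟨l', q⟩, ⟨⟨h6, h7⟩, h8⟩, h9⟩
        obtain ⟨rfl, rfl⟩ := Prod.mk.inj h9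
        have h10 := hs.in₁.ge ⟨q, ⟨h7, h8⟩, rfl⟩
        exact ⟨⟨h6, h10.1⟩, h10.2⟩
  · ext ⟨l, p⟩
    constructor
    · rintro ⟨⟨h6, h7⟩ | ⟨h6, h7⟩, h8⟩
      · obtain ⟨q, hq, rfl⟩ := hs.in₀.le ⟨h7, h8⟩
        exact ⟨(l, q), ⟨⟨(1 / 4, none), by simp, h6, hq.2⟩, hq.1⟩, rfl⟩
      · obtain ⟨q, hq, rfl⟩ := range_circ_inter_sbox.le ⟨h7, h8⟩
        exact ⟨(l, q), ⟨⟨(-1 / 4, some e), by simp, h6, hq.2⟩, hq.1⟩, rfl⟩
    · rintro ⟨⟨l', q⟩, ⟨⟨x, h5, h6, h7⟩, h8⟩, h9⟩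
      obtain ⟨rfl, rfl⟩ := Prod.mk.inj h9
      simp only [List.mem_cons, List.not_mem_nil, or_false] at h5
      rcases h5 with rfl | rfl
      · have h10 := range_circ_inter_sbox.ge ⟨q, ⟨h8, h7⟩, rfl⟩
        exact ⟨Or.inr ⟨h6, h10.1⟩, h10.2⟩
      · have h10 := hs.in₀.ge ⟨q, ⟨h8, h7⟩, rfl⟩
        exact ⟨Or.inl ⟨h6, h10.1⟩, h10.2⟩
  · exact mcb_imm (md _ (c0 t)) (hχ.pos _ (hC (c0 t))).ne'
  · have h2 : circ (3 / 4) 0 t = sbox p := hi (c0 t) (sbox_mem (mcb_Qb hp)).1 h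
    simp only [Function.comp_apply]
    rw [sbox_add_ez, ← h2, ← mcb_circ_add]

theorem mcb_move (H : HD M ι Vx) (E : EvSys ι (ℕ × (ι → ℕ))) {Z : Set (TM M)} (hZ : IsLS Z)
    (hg : Disjoint (base Z) H.gs) {R ε r z c : ℝ} (hε : 0 < ε) (hεR : ε * R < 1)
    (hc : Disjoint (base Z) (H.cyl R ε)) (hz : |z| ≤ R) (hr : ε ≤ r) (hrz : r * |z| < 1)
    (hc' : 0 < c) (e : ι) (h : ∀ s ∈ Icc ε r, ∀ t, H.ce e (circ s z t) ∉ base Z) {S : LM ι M}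
    (hS : S = nl Z ∪ H.Yg (fun i => if i = e then r else ε) (fun i => if i = e then z else 0)
      fun i => if i = e then c else (2 * ε)⁻¹) :
    H.zv E (H.tot Z ε) = H.zv E S ∧ IsPM S ∧ Disjoint (lbase S) H.gs := by
  have hR : 0 ≤ R := (abs_nonneg _).trans hz
  have h2 : 0 < (2 * ε)⁻¹ := by positivity
  have h3 : ∀ i w t, |w| ≤ R → H.ce i (circ ε w t) ∉ base Z := fun i w t hw h4 =>
    Set.disjoint_left.1 hc h4 (mem_iUnion.2 ⟨i, _, ⟨rad_circ hε.le w t, hw⟩, rfl⟩)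
  have h4 : ∀ w, |w| ≤ R → ε * |w| < 1 := fun w hw =>
    (mul_le_mul_of_nonneg_left hw hε.le).trans_lt hεR
  have h5 : ∀ u x : ℝ, (1 - u) * x + u * x = x := fun u x => by ring
  have p1 : ∀ i, 0 < if i = e then r else ε := fun i => by
    split_ifs
    exacts [hε.trans_le hr, hε]
  have p2 : ∀ i, 0 < if i = e then c else (2 * ε)⁻¹ := fun i => by
    split_ifs
    exacts [hc', h2]
  have p3 : ∀ i, (if i = e then r else ε) * |if i = e then z else 0| < 1 := fun i => by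
    split_ifs
    exacts [hrz, by simp]
  subst hS
  refine ⟨?_, IsPM.nl_union hZ (H.isPM_Yg p1 p3 fun i => (p2 i).ne') ?_, ?_⟩
  · refine (H.zv_Yg E hZ hg (r := fun _ => ε) (z := fun _ => 0) (c := fun _ => (2 * ε)⁻¹)
      (r' := fun _ => ε) (z' := fun i => if i = e then z else 0) (c' := fun _ => (2 * ε)⁻¹)
      (fun _ => ⟨hε, hε⟩) (fun _ => ⟨h2, h2⟩) fun u hu i => ?_).trans
      (H.zv_Yg E hZ hg (fun i => ⟨hε, p1 i⟩) (fun i => ⟨h2, p2 i⟩) fun u hu i => ?_)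
    · have h6 : |(1 - u) * 0 + u * if i = e then z else 0| ≤ R := by
        rw [mul_zero, zero_add, abs_mul, abs_of_nonneg hu.1]
        refine (mul_le_of_le_one_left (abs_nonneg _) hu.2).trans ?_
        split_ifs
        exacts [hz, by simpa using hR]
      rw [h5]
      exact ⟨h4 _ h6, fun t => h3 i _ t h6⟩
    · by_cases hi : i = e
      · subst hi
        have h6 : (1 - u) * ε + u * r ∈ Icc ε r :=
          ⟨by nlinarith [hu.1, hu.2], by nlinarith [hu.1, hu.2]⟩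
        simp only [if_true, h5]
        exact ⟨(mul_le_mul_of_nonneg_right h6.2 (abs_nonneg _)).trans_lt hrz, h _ h6⟩
      · simp only [if_neg hi, h5]
        exact ⟨by simp, fun t => h3 i 0 t (by simpa using hR)⟩
  · refine Set.disjoint_right.2 ?_
    rintro _ ⟨_, ⟨i, t, rfl⟩, rfl⟩
    by_cases hi : i = e
    · subst hi
      simp only [if_true]
      exact h r ⟨hr, le_rfl⟩ t
    · simp only [if_neg hi]
      exact h3 i 0 t (by simpa using hR)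
  · refine Set.disjoint_left.2 ?_
    rintro _ ⟨x, hx | ⟨i, t, rfl⟩, rfl⟩ h6
    · exact Set.disjoint_left.1 hg ⟨x.2, hx.2, rfl⟩ h6
    · have h7 := rad_circ (p1 i).le (if i = e then z else 0) t
      have h8 : circ (if i = e then r else ε) (if i = e then z else 0) t ∈ Dom := by
        change rad _ * _ < 1
        rw [h7]
        exact p3 i
      exact (p1 i).ne' (h7.symm.trans (rad_eq_zero.2 ((H.ce_mem_gs h8).1 h6)))

theorem HD.basic (H : HD M ι Vx) {E : EvSys ι (ℕ × (ι → ℕ))} (hE : AFacts E) {F : Set M} {e : ι}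
    {z η : ℝ} (hη : 0 < η) (hD : MapsTo (aff z η) Cy Dom)
    (hF : Disjoint F ((H.ce e ∘ aff z η) '' Cy)) {R₀ : Set (TM M)}
    (hR : Disjoint (base R₀) ((H.ce e ∘ aff z η) '' Cy)) (hRg : Disjoint (base R₀) H.gs)
    (hRF : Disjoint (base R₀) F) {m₀ m₁ : ℝ → E3} (h₀ : PMdl m₀) (h₁ : PMdl m₁) {hx hy : ℝ → ℝ}
    {a u₁ u₀ u₂ b : ℝ} (hs : SlideData m₀ m₁ hx hy a u₁ u₀ u₂ b)
    (l₀ : IsLS (R₀ ∪ core (H.ce e ∘ aff z η) m₀)) (l₁ : IsLS (R₀ ∪ core (H.ce e ∘ aff z η) m₁)) :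
    H.ThinEq E F (R₀ ∪ core (H.ce e ∘ aff z η) m₀) (R₀ ∪ core (H.ce e ∘ aff z η) m₁) := by
  set χ := H.ce e ∘ aff z η with hχe
  have hO : IsOpen (aff z η ⁻¹' Dom) := isOpen_Dom.preimage (aff_contDiff z η).continuous
  have hχ : MPosOn χ (aff z η ⁻¹' Dom) :=
    (H.ce_source e ▸ (H.ce_chart e).mPosOn).comp isOpen_Dom
      ⟨(posOn_aff z hη).smooth.mono (subset_univ _), (posOn_aff z hη).inj.mono (subset_univ _),
        fun p _ => (posOn_aff z hη).pos p trivial⟩ hO fun _ h => h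
  have hi : InjOn χ Cy := hχ.inj.mono hD
  have hg : ∀ p ∈ Cy, p ∉ axis → χ p ∉ H.gs := fun p hp h1 h2 => by
    have h3 := rad_eq_zero.2 ((H.ce_mem_gs (hD hp)).1 h2)
    rw [rad_aff z hη.le, mul_eq_zero, rad_eq_zero] at h3
    exact h3.elim hη.ne' h1
  have hb : ∀ {m : ℝ → E3} {x : M}, x ∈ base (R₀ ∪ core χ m) →
      x ∈ base R₀ ∨ ∃ τ ∈ Icc (-3 / 2 : ℝ) (3 / 2), x = χ (m τ) := by
    rintro m _ ⟨y, hy | ⟨τ, hτ, rfl⟩, rfl⟩
    · exact Or.inl ⟨y, hy, rfl⟩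
    · exact Or.inr ⟨τ, hτ, rfl⟩
  have hX : ∀ {m : ℝ → E3}, PMdl m →
      Disjoint (base (R₀ ∪ core χ m)) H.gs ∧ Disjoint (base (R₀ ∪ core χ m)) F := fun {m} hm => by
    constructor <;> refine Set.disjoint_left.2 fun x hx => ?_ <;>
      rcases hb hx with h | ⟨τ, hτ, rfl⟩
    · exact Set.disjoint_left.1 hRg h
    · exact hg _ (mcb_mdl hm ⟨τ, hτ, rfl⟩) (hm.off τ)
    · exact Set.disjoint_left.1 hRF h
    · exact Set.disjoint_right.1 hF ⟨_, mcb_mdl hm ⟨τ, hτ, rfl⟩, rfl⟩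
  obtain ⟨a₀, b₀⟩ := H.eventually_thin l₀.isCompact_base (hX h₀).1
  obtain ⟨a₁, b₁⟩ := H.eventually_thin l₁.isCompact_base (hX h₁).1
  have a₂ : ∀ᶠ ρ in 𝓝[>] (0 : ℝ), Disjoint (χ '' Cy) (H.balls ρ) := by
    have hK := (isCompact_Cy.image_of_continuousOn (hχ.smooth.continuousOn.mono hD)).isClosed
    simp only [HD.balls, disjoint_iUnion_right]
    refine eventually_all.2 fun v => ?_
    have h0 : H.cv v 0 ∈ (χ '' Cy)ᶜ := by
      rintro ⟨p, hp, h⟩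
      exact H.cv_zero v e (h ▸ H.MHd_ce_target e (hD hp))
    obtain ⟨δ, hδ, h⟩ := Metric.mem_nhds_iff.1
      ((H.MHd_cv_at v 0).continuousAt (hK.isOpen_compl.mem_nhds h0))
    filter_upwards [nhdsWithin_le_nhds (Iio_mem_nhds hδ)] with ρ hρ
    refine Set.disjoint_right.2 ?_
    rintro _ ⟨p, hp, rfl⟩
    exact h (Metric.ball_subset_ball (le_of_lt hρ) hp)
  filter_upwards [a₀, a₁, a₂] with ρ a₀ a₁ a₂
  filter_upwards [eventually_ge_atTop (|z| + η)] with R hRz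
  have hR0 : 0 < R := (add_pos_of_nonneg_of_pos (abs_nonneg z) hη).trans_le hRz
  filter_upwards [b₀ R, b₁ R, self_mem_nhdsWithin,
    nhdsWithin_le_nhds (Iio_mem_nhds (show (0 : ℝ) < η / 4 by positivity)),
    nhdsWithin_le_nhds (Iio_mem_nhds (inv_pos.2 hR0))] with ε b₀ b₁ hε hεη hεR J hJ hJg hJs hJc t
  replace hε : 0 < ε := hε
  replace hεη : ε < η / 4 := hεη
  replace hεR : ε * R < 1 := by
    have h : ε < R⁻¹ := hεR
    rwa [← one_div, lt_div_iff₀ hR0] at h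
  have hJ1 : ∀ p ∈ Cy, χ p ∈ base J → η * rad p < ε := fun p hp h => by
    rcases hJs h with h1 | h1 | h1
    · exact absurd ⟨p, hp, rfl⟩ (Set.disjoint_left.1 hF h1)
    · obtain ⟨i, q, hq, h2⟩ := mem_iUnion.1 h1
      have hqD : q ∈ Dom :=
        (mul_le_mul hq.1.le hq.2 (abs_nonneg _) hε.le).trans_lt hεR
      rw [← rad_aff z hη.le, ← (H.MHd_ce_inj hqD (hD hp) h2).2]
      exact hq.1
    · exact absurd h1 (Set.disjoint_left.1 a₂ ⟨p, hp, rfl⟩)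
  let Rs : LM ι M := nl (R₀ ∪ J) ∪
    {x | ∃ i t, i ≠ e ∧ x = (some i, pushT (H.ce i) (circ ε 0 t) ((2 * ε)⁻¹ • ez))}
  have key : ∀ {m : ℝ → E3}, PMdl m → IsLS (R₀ ∪ core χ m) →
      Disjoint (base (R₀ ∪ core χ m)) (H.balls ρ) →
      Disjoint (base (R₀ ∪ core χ m)) (H.tubes R ε ∪ H.cyl R ε) → ∀ h : ℝ, |h| ≤ 1 →
      (∀ τ r t, 0 ≤ r → r ≤ 3 / 4 → m τ ≠ circ r h t) →
      H.zv E (H.tot (R₀ ∪ core χ m ∪ J) ε) = H.zv E (mcb_S χ e Rs m h) ∧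
        IsPM (mcb_S χ e Rs m h) ∧ Disjoint (lbase (mcb_S χ e Rs m h)) H.gs := by
    intro m hm l a' b' h hh hne
    have hu : base (R₀ ∪ core χ m ∪ J) = base (R₀ ∪ core χ m) ∪ base J := image_union _ _ _
    have hp : ∀ t, pushT χ (circ (3 / 4) h t) ez =
        pushT (H.ce e) (circ (η * (3 / 4)) (z + η * h) t) (η • ez) := fun t => by
      rw [hχe, pushT_comp ((H.MHd_ce_at e
        (hD (mcb_circ_mem (by norm_num) le_rfl hh t))).mdifferentiableAt (by simp))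
        ((aff_contDiff z η).differentiable (by simp) _), fderiv_aff, aff_circ]
    refine mcb_move H E (l.union hJ ((disjoint_union_right.2 ⟨(hX hm).2, disjoint_union_right.2
      ⟨b'.mono_right subset_union_left, a'⟩⟩).mono_right hJs)) ?_ hε hεR ?_ (z := z + η * h)
      (r := η * (3 / 4)) ?_ (by linarith) ?_ hη e (fun s hs t h1 => ?_) ?_
    · rw [hu]
      exact disjoint_union_left.2 ⟨(hX hm).1, hJg⟩
    · rw [hu]
      exact disjoint_union_left.2 ⟨b'.mono_right subset_union_right, hJc⟩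
    · refine (abs_add_le _ _).trans (le_trans ?_ hRz)
      rw [abs_mul, abs_of_pos hη]
      nlinarith
    · have h1 : rad _ * _ < 1 := hD (mcb_circ_mem (r := 3 / 4) (by norm_num) le_rfl hh 0)
      rwa [aff_circ, rad_circ (by positivity)] at h1
    · have s0 : 0 ≤ s / η := div_nonneg (hε.le.trans hs.1) hη.le
      have s1 : s / η ≤ 3 / 4 := (div_le_iff₀' hη).2 hs.2
      have s2 := mcb_circ_mem s0 s1 hh t
      have s3 : H.ce e (circ s (z + η * h) t) = χ (circ (s / η) h t) := by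
        rw [hχe, Function.comp_apply, aff_circ, mul_div_cancel₀ _ hη.ne']
      rw [hu, s3] at h1
      rcases h1 with h1 | h1
      · rcases hb h1 with h2 | ⟨τ, hτ, h2⟩
        · exact Set.disjoint_left.1 hR h2 ⟨_, s2, rfl⟩
        · exact hne τ _ t s0 s1 (hi s2 (mcb_mdl hm ⟨τ, hτ, rfl⟩) h2).symm
      · have h2 := hJ1 _ s2 h1
        rw [rad_circ s0, mul_div_cancel₀ _ hη.ne'] at h2
        exact h2.not_ge hs.1
    · ext x
      constructor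
      · rintro ((hx | ⟨i, t, hi', rfl⟩) | ⟨⟨l, p⟩, ⟨h1, τ, hτ, h2⟩ | ⟨h1, t, h2⟩, rfl⟩)
        · exact Or.inl ⟨hx.1, hx.2.elim (fun h => Or.inl (Or.inl h)) Or.inr⟩
        · exact Or.inr ⟨i, t, by simp only [if_neg hi']⟩
        · obtain rfl : m τ = p := h2
          exact Or.inl ⟨h1, Or.inl (Or.inr ⟨τ, hτ, rfl⟩)⟩
        · obtain rfl : l = some e := h1
          obtain rfl : circ (3 / 4) h t = p := h2
          exact Or.inr ⟨e, t, by simp only [if_true, mcb_P, hp]⟩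
      · rintro (⟨h1, (h2 | ⟨τ, hτ, h2⟩) | h2⟩ | ⟨i, t, rfl⟩)
        · exact Or.inl (Or.inl ⟨h1, Or.inl h2⟩)
        · exact Or.inr ⟨(none, m τ), Or.inl ⟨rfl, τ, hτ, rfl⟩, Prod.ext h1.symm h2⟩
        · exact Or.inl (Or.inl ⟨h1, Or.inr h2⟩)
        · by_cases hi' : i = e
          · subst hi'
            exact Or.inr ⟨(some i, circ (3 / 4) h t), Or.inr ⟨rfl, t, rfl⟩,
              by simp only [if_true, mcb_P, hp]⟩
          · exact Or.inl (Or.inr ⟨i, t, hi', by simp only [if_neg hi']⟩)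
  obtain ⟨k₁, k₂, k₃⟩ := key h₀ l₀ a₀ b₀ 0 (by norm_num) fun τ r t r0 r1 h => by
    have h1 := hs.far τ
    rw [h, rad_circ r0] at h1
    exact h1.not_ge r1
  obtain ⟨δ, d0, d1, hδ⟩ := mcb_slide H hE hO hχ hD hg h₀ h₁ hs (Rs := Rs) (by
    rintro x (hx | ⟨i, t, hi', rfl⟩) h
    · exact Option.some_ne_none e (h.symm.trans hx.1)
    · exact hi' (Option.some_injective _ h)) (by
    rintro x (⟨-, hx | hx⟩ | ⟨i, t, hi', rfl⟩) ⟨p, hp, h⟩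
    · exact Set.disjoint_left.1 hR ⟨_, hx, rfl⟩ ⟨_, (sbox_mem (mcb_Qb hp)).1, h⟩
    · have h1 := hJ1 _ (sbox_mem (mcb_Qb hp)).1 ⟨_, hx, h.symm⟩
      nlinarith [mcb_rad_sbox hp]
    · exact hi' (H.MHd_ce_inj (hD (sbox_mem (mcb_Qb hp)).1) (MHd_circ_mem t) h).1.symm) k₂ k₃
  obtain ⟨k₄, k₅, -⟩ := key h₁ l₁ a₁ b₁ (-δ) (by rw [abs_neg, abs_of_pos d0]; exact d1.le)
    fun τ r t _ _ h => by
      have h1 := h₁.flat τ
      rw [h] at h1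
      exact d0.ne' (neg_eq_zero.1 h1)
  have h1 := hδ k₅.isLM t
  unfold HD.val at h1 ⊢
  rw [k₁, k₄, h1]

end Pool.Agent.P.MP_ac4909_gt.B
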