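import Pool.Agent.P.MP_ac4909_gt.B.MCross_Defs

/-! The maps `aff` and `sbox`, and the circles around the edges. -/

namespace Pool.Agent.P.MP_ac4909_gt.B

open scoped Manifold ContDiff
open Set Filter Topology

theorem mcx_aff (z η : ℝ) : aff z η = fun p => z • ez + η • p := by
  funext p
  refine MHd_ext ?_ ?_ ?_ <;> simp [aff, ez]

theorem mcx_fderiv_aff (z η : ℝ) (p : E3) :
    fderiv ℝ (aff z η) p = η • ContinuousLinearMap.id ℝ E3 := by
  rw [mcx_aff]
  exact (((hasFDerivAt_id p).const_smul η).const_add _).fderiv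

theorem aff_contDiff (z η : ℝ) : ContDiff ℝ ∞ (aff z η) := by
  rw [mcx_aff]
  fun_prop

theorem fderiv_aff (z η : ℝ) (p v : E3) : fderiv ℝ (aff z η) p v = η • v := by
  rw [mcx_fderiv_aff]
  rfl

theorem posOn_aff (z : ℝ) {η : ℝ} (hη : 0 < η) : PosOn (aff z η) univ := by
  refine ⟨(aff_contDiff z η).contDiffOn, fun p _ q _ h => ?_, fun p _ => ?_⟩
  · rw [mcx_aff] at h
    exact smul_right_injective E3 hη.ne' (add_left_cancel h)
  · rw [mcx_fderiv_aff, ContinuousLinearMap.det, ContinuousLinearMap.toLinearMap_smul,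
      LinearMap.det_smul, ContinuousLinearMap.coe_id, LinearMap.det_id]
    positivity

theorem rad_aff (z : ℝ) {η : ℝ} (hη : 0 ≤ η) (p : E3) : rad (aff z η p) = η * rad p := by
  change √((η * p 0) ^ 2 + (η * p 1) ^ 2) = _
  rw [mul_pow, mul_pow, ← mul_add, Real.sqrt_mul (sq_nonneg _), Real.sqrt_sq hη, rad]

theorem aff_circ (z η r h t : ℝ) : aff z η (circ r h t) = circ (η * r) (z + η * h) t := by
  refine MHd_ext ?_ ?_ ?_ <;> simp [aff, circ, mul_assoc]

theorem abs_le_rad (p : E3) : |p 0| ≤ rad p ∧ |p 1| ≤ rad p :=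
  ⟨Real.abs_le_sqrt (le_add_of_nonneg_right (sq_nonneg _)),
    Real.abs_le_sqrt (le_add_of_nonneg_left (sq_nonneg _))⟩

theorem isCompact_Cy : IsCompact Cy := by
  refine (isCompact_closure_Qb 3).of_isClosed_subset ((isClosed_le continuous_rad
    continuous_const).inter (isClosed_le (f := fun p : E3 => |p 2|) (by fun_prop) continuous_const))
      fun p hp => subset_closure fun i => ?_
  fin_cases i
  · exact ((abs_le_rad p).1.trans hp.1).trans_lt (by norm_num)
  · exact ((abs_le_rad p).2.trans hp.1).trans_lt (by norm_num)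
  · exact hp.2.trans_lt (by norm_num)

theorem circ_eq_iff {r r' h h' t t' : ℝ} (hr : 0 < r) (hr' : 0 < r') :
    circ r h t = circ r' h' t' ↔ r = r' ∧ h = h' ∧ ∃ k : ℤ, t' = t + k := by
  constructor
  · intro e
    obtain rfl : r = r' := by rw [← rad_circ hr.le h t, e, rad_circ hr'.le]
    have e0 : r * Real.cos (2 * Real.pi * t) = r * Real.cos (2 * Real.pi * t') :=
      congrArg (fun x : E3 => x 0) e
    have e1 : r * Real.sin (2 * Real.pi * t) = r * Real.sin (2 * Real.pi * t') :=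
      congrArg (fun x : E3 => x 1) e
    obtain ⟨k, hk⟩ := MHd_angle (mul_left_cancel₀ hr.ne' e0) (mul_left_cancel₀ hr.ne' e1)
    refine ⟨rfl, congrArg (fun x : E3 => x 2) e, k,
      mul_left_cancel₀ (a := 2 * Real.pi) (by positivity) ?_⟩
    rw [hk]
    ring
  · rintro ⟨rfl, rfl, k, rfl⟩
    simp only [circ, mul_add, mul_comm (2 * Real.pi) k, Real.cos_add_int_mul_two_pi,
      Real.sin_add_int_mul_two_pi]

theorem mcx_circ {X : Type*} [NormedAddCommGroup X] [NormedSpace ℝ X] {r z t : X → ℝ}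
    (hr : ContDiff ℝ ∞ r) (hz : ContDiff ℝ ∞ z) (ht : ContDiff ℝ ∞ t) :
    ContDiff ℝ ∞ fun x => circ (r x) (z x) (t x) := by
  rw [contDiff_euclidean]
  intro i
  fin_cases i
  · change ContDiff ℝ ∞ fun x => r x * Real.cos (2 * Real.pi * t x)
    fun_prop
  · change ContDiff ℝ ∞ fun x => r x * Real.sin (2 * Real.pi * t x)
    fun_prop
  · exact hz

theorem sbox_contDiff : ContDiff ℝ ∞ sbox :=
  mcx_circ (by fun_prop) (by fun_prop) (by fun_prop)

theorem mcx_fderiv_sbox (p v : E3) : fderiv ℝ sbox p v =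
    !₂[v 0 / 2 * Real.cos (2 * Real.pi * (p 1 / 20)) - (3 / 4 + (p 0 + 1 / 4) / 2) *
        Real.sin (2 * Real.pi * (p 1 / 20)) * (Real.pi / 10 * v 1),
      v 0 / 2 * Real.sin (2 * Real.pi * (p 1 / 20)) + (3 / 4 + (p 0 + 1 / 4) / 2) *
        Real.cos (2 * Real.pi * (p 1 / 20)) * (Real.pi / 10 * v 1), v 2] := by
  have hd : DifferentiableAt ℝ sbox p := sbox_contDiff.differentiable (by simp) p
  have h : ∀ i, HasFDerivAt (fun q : E3 => q i) (EuclideanSpace.proj i : E3 →L[ℝ] ℝ) p := fun i =>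
    (EuclideanSpace.proj i : E3 →L[ℝ] ℝ).hasFDerivAt
  have h0 := (((h 0).add_const (1 / 4)).mul_const 2⁻¹).const_add (3 / 4)
  have h1 := ((h 1).mul_const 20⁻¹).const_mul (2 * Real.pi)
  simp only [← div_eq_mul_inv] at h0 h1
  refine MHd_ext ?_ ?_ ?_ <;> rw [MHd_fderiv_apply hd]
  · refine (congrArg (fun L : E3 →L[ℝ] ℝ => L v) (h0.fun_mul h1.cos).fderiv).trans ?_
    simp
    ring
  · refine (congrArg (fun L : E3 →L[ℝ] ℝ => L v) (h0.fun_mul h1.sin).fderiv).trans ?_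
    simp
    ring
  · exact congrArg (fun L : E3 →L[ℝ] ℝ => L v) (h 2).fderiv

theorem mcx_pos {p : E3} (hp : p ∈ Qb (5 / 4)) : 0 < 3 / 4 + (p 0 + 1 / 4) / 2 := by
  linarith [(abs_lt.1 (hp 0)).1]

theorem posOn_sbox : PosOn sbox (Qb (5 / 4)) := by
  refine ⟨sbox_contDiff.contDiffOn, fun p hp q hq h => ?_, fun p hp => ?_⟩
  · obtain ⟨h0, h2, k, h1⟩ := (circ_eq_iff (mcx_pos hp) (mcx_pos hq)).1 h
    have h3 := abs_lt.1 (hp 1)
    have h4 := abs_lt.1 (hq 1)
    obtain rfl : k = 0 := Int.abs_lt_one_iff.1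
      (Int.cast_lt (R := ℝ).1 (by rw [Int.cast_abs, Int.cast_one, abs_lt]; constructor <;> linarith))
    rw [Int.cast_zero] at h1
    exact MHd_ext (by linarith) (by linarith) h2
  · rw [ContinuousLinearMap.det,
      ← LinearMap.det_toMatrix (EuclideanSpace.basisFun (Fin 3) ℝ).toBasis, Matrix.det_fin_three]
    simp only [LinearMap.toMatrix_apply, ContinuousLinearMap.coe_coe, mcx_fderiv_sbox]
    simp
    have h1 := Real.cos_sq_add_sin_sq (2 * Real.pi * (p 1 / 20))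
    have h2 := mul_pos (mcx_pos hp) Real.pi_pos
    nlinarith

theorem sbox_mem {p : E3} (hp : p ∈ Qb (5 / 4)) : sbox p ∈ Cy ∧ sbox p ∉ axis := by
  have h := rad_circ (mcx_pos hp).le (p 2) (p 1 / 20)
  refine ⟨⟨h.trans_le ?_, (hp 2).le.trans (by norm_num)⟩,
    fun h1 => (mcx_pos hp).ne' (h.symm.trans (rad_eq_zero.2 h1))⟩
  linarith [(abs_lt.1 (hp 0)).2]

theorem sbox_add_ez (p : E3) (r : ℝ) : sbox (p + r • ez) = sbox p + r • ez := by
  refine MHd_ext ?_ ?_ ?_ <;> simp [sbox, circ, ez]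

theorem fderiv_sbox_ez (p : E3) : fderiv ℝ sbox p ez = ez := by
  rw [mcx_fderiv_sbox]
  refine MHd_ext ?_ ?_ ?_ <;> simp [ez]

theorem range_circ_inter_sbox : range (circ (3 / 4) 0) ∩ sbox '' Qb (9 / 8) =
    sbox '' {p ∈ Qb (9 / 8) | p 0 = -1 / 4 ∧ p 2 = 0} := by
  ext x
  constructor
  · rintro ⟨⟨t, ht⟩, p, hp, rfl⟩
    obtain ⟨h0, h2, -⟩ := (circ_eq_iff (by norm_num)
      (mcx_pos fun i => (hp i).trans (by norm_num))).1 ht
    exact ⟨p, ⟨hp, by linarith, h2.symm⟩, rfl⟩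
  · rintro ⟨p, ⟨hp, h0, h2⟩, rfl⟩
    refine ⟨⟨p 1 / 20, ?_⟩, p, hp, rfl⟩
    rw [sbox, h0, h2]
    norm_num

theorem mcx_circ_link {r c : ℝ} (hr : 0 < r) (z : ℝ) (hc : c ≠ 0) :
    (⟨fun _ t => circ r z t, fun _ _ => c • ez⟩ : Lk Unit).IsLink := by
  have h := MHd_circ_link hr
  have h1 : (fun t => circ r z t) = fun t => circ r 0 t + z • ez := by
    funext t
    refine MHd_ext ?_ ?_ ?_ <;> simp [circ, ez]
  have h2 : ∀ t, deriv (fun t => circ r z t) t = deriv (fun t => circ r 0 t) t := fun t => by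
    rw [h1, deriv_add_const]
  refine ⟨⟨fun _ => mcx_circ contDiff_const contDiff_const contDiff_id,
    fun _ t => ((circ_eq_iff hr hr).2 ⟨rfl, rfl, 1, by simp⟩).symm,
    fun _ _ s t e => ⟨rfl, ((circ_eq_iff hr hr).1 e).2.2⟩, fun _ t => (h2 t).trans_ne (h.isU.imm () t)⟩,
    fun _ => contDiff_const, fun _ _ => rfl, fun _ t => LinearIndependent.pair_iff.2 fun a b e => ?_⟩
  have h3 := LinearIndependent.pair_iff.1 (h.indep () t) a (b * c * (2 * r)) (by
    rw [← e, smul_smul, smul_smul, mul_inv_cancel_right₀ (by positivity), ← h2])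
  exact ⟨h3.1, by simpa [hc, hr.ne'] using h3.2⟩

theorem mcx_mem {r z : ℝ} (hr : 0 < r) (hz : r * |z| < 1) (t : ℝ) : circ r z t ∈ Dom := by
  change rad _ * |z| < 1
  rwa [rad_circ hr.le]

variable {M : Type*} [TopologicalSpace M] [T2Space M] [ChartedSpace E3 M]
  [IsManifold (𝓡 3) ∞ M] {ι Vx : Type} [Fintype ι] [DecidableEq ι] [Fintype Vx]

omit [T2Space M] [Fintype ι] [DecidableEq ι] [Fintype Vx] in
theorem mcx_link (H : HD M ι Vx) {r z c : ι → ℝ} (hr : ∀ e, 0 < r e)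
    (hz : ∀ e, r e * |z e| < 1) (hc : ∀ e, c e ≠ 0) :
    IsLink fun e t => pushT (H.ce e) (circ (r e) (z e) t) (c e • ez) := by
  have hm : ∀ e, ∀ p ∈ trace fun (_ : Unit) t => circ (r e) (z e) t, p ∈ Dom := fun e p hp => by
    obtain ⟨_, t, rfl⟩ := mem_iUnion.1 hp
    exact mcx_mem (hr e) (hz e) t
  have h := fun e => (mcx_circ_link (hr e) (z e) (hc e)).push (ψ := H.ce e)
    (fun p hp => H.MHd_ce_at e (hm e p hp))
    (fun p hp q hq h => (H.MHd_ce_inj (hm e p hp) (hm e q hq) h).2)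
    fun p hp => ((H.ce_chart e).pos p (H.ce_source e ▸ hm e p hp)).ne'
  refine ⟨fun e => (h e).smooth (), fun e => (h e).per (), fun e e' s t he => ?_,
    fun e => (h e).indep ()⟩
  obtain rfl := (H.MHd_ce_inj (mcx_mem (hr e) (hz e) s) (mcx_mem (hr e') (hz e') t) he).1
  exact ⟨rfl, ((h e).inj () () s t he).2⟩

theorem HD.isPM_Yg (H : HD M ι Vx) {r z c : ι → ℝ} (hr : ∀ e, 0 < r e)
    (hz : ∀ e, r e * |z e| < 1) (hc : ∀ e, c e ≠ 0) : IsPM (H.Yg r z c) :=
  ⟨ι, inferInstance, _, some, mcx_link H hr hz hc, rfl,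
    fun i => ⟨i, rfl, fun _ h => Option.some_injective _ h⟩⟩

/-- linear motion of the circles -/
theorem HD.zv_Yg (H : HD M ι Vx) (E : EvSys ι (ℕ × (ι → ℕ))) {X : Set (TM M)} (hX : IsLS X)
    (hg : Disjoint (base X) H.gs) {r z c r' z' c' : ι → ℝ} (hr : ∀ e, 0 < r e ∧ 0 < r' e)
    (hc : ∀ e, 0 < c e ∧ 0 < c' e)
    (h : ∀ u ∈ Icc (0 : ℝ) 1, ∀ e,
      ((1 - u) * r e + u * r' e) * |(1 - u) * z e + u * z' e| < 1 ∧
        ∀ t, H.ce e (circ ((1 - u) * r e + u * r' e) ((1 - u) * z e + u * z' e) t) ∉ base X) :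
    H.zv E (nl X ∪ H.Yg r z c) = H.zv E (nl X ∪ H.Yg r' z' c') := by
  have hl : ∀ s, Real.smoothTransition s ∈ Icc (0 : ℝ) 1 := fun s =>
    ⟨Real.smoothTransition.nonneg s, Real.smoothTransition.le_one s⟩
  have hp : ∀ s {a b : ℝ}, 0 < a ∧ 0 < b →
      0 < (1 - Real.smoothTransition s) * a + Real.smoothTransition s * b := fun s a b h => by
    rcases (hl s).1.eq_or_lt with e | e
    · rw [← e]
      linarith [h.1]
    · exact add_pos_of_nonneg_of_pos (mul_nonneg (sub_nonneg.2 (hl s).2) h.1.le) (mul_pos e h.2)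
  have hs : ∀ a b : ℝ, ContDiff ℝ ∞ fun p : ℝ × ℝ =>
      (1 - Real.smoothTransition p.1) * a + Real.smoothTransition p.1 * b := fun a b => by
    have : ContDiff ℝ ∞ fun p : ℝ × ℝ => Real.smoothTransition p.1 :=
      Real.smoothTransition.contDiff.comp contDiff_fst
    fun_prop
  have hm := fun s e t => mcx_mem (hp s (hr e)) (h _ (hl s) e).1 t
  have h1 : IsoM (H.gsᶜ ∩ (base X)ᶜ) (H.Yg r z c) (H.Yg r' z' c') := by
    refine ⟨ι, inferInstance, fun s e t => pushT (H.ce e)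
      (circ ((1 - Real.smoothTransition s) * r e + Real.smoothTransition s * r' e)
        ((1 - Real.smoothTransition s) * z e + Real.smoothTransition s * z' e) t)
      (((1 - Real.smoothTransition s) * c e + Real.smoothTransition s * c' e) • ez), some,
      ⟨fun e p => contMDiffAt_pushT (H.MHd_ce_at e (hm p.1 e p.2))
        (mcx_circ (hs _ _) (hs _ _) contDiff_snd).contDiffAt
        ((hs _ _).smul contDiff_const).contDiffAt,
      fun s _ => mcx_link H (fun e => hp s (hr e)) (fun e => (h _ (hl s) e).1)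
        fun e => (hp s (hc e)).ne',
      fun s _ e t => ⟨fun h2 => (hp s (hr e)).ne' ((rad_circ (hp s (hr e)).le _ t).symm.trans
        (rad_eq_zero.2 ((H.ce_mem_gs (hm s e t)).1 h2))), (h _ (hl s) e).2 t⟩⟩, ?_, ?_⟩
    · simp only [Real.smoothTransition.zero, sub_zero, one_mul, zero_mul, add_zero]
      rfl
    · simp only [Real.smoothTransition.one, sub_self, one_mul, zero_mul, zero_add]
      rfl
  rw [union_comm (nl X), union_comm (nl X)]
  refine H.zv_isoM ((h1.union hX.nl ?_).mono (union_subset inter_subset_left ?_))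
  · rw [HD.MHd_lbase_nl]
    exact disjoint_compl_right.mono_right inter_subset_right
  · rw [HD.MHd_lbase_nl]
    exact hg.subset_compl_right

end Pool.Agent.P.MP_ac4909_gt.B
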