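import Pool.Agent.P.MP_ac4909_gt.B.MLift
import Pool.Agent.P.MP_ac4909_gt.B.MPert

/-! Definitions for the proof that a skein may be moved across the graph. -/

namespace Pool.Agent.P.MP_ac4909_gt.B

open scoped Manifold ContDiff
open Set Filter Topology

section
variable {M : Type*} [TopologicalSpace M] [T2Space M] [ChartedSpace E3 M]
  [IsManifold (𝓡 3) ∞ M] {ι Vx : Type} [Fintype ι] [DecidableEq ι] [Fintype Vx]

/-- `X₀` and `X₁` have the same value in the presence of any skein that is contained in `F` and a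
sufficiently thin neighbourhood of the graph -/
def HD.ThinEq (H : HD M ι Vx) (E : EvSys ι (ℕ × (ι → ℕ))) (F : Set M) (X₀ X₁ : Set (TM M)) :
    Prop :=
  ∀ᶠ ρ in 𝓝[>] (0 : ℝ), ∀ᶠ R in atTop, ∀ᶠ ε in 𝓝[>] (0 : ℝ), ∀ J, IsLS J →
    Disjoint (base J) H.gs → base J ⊆ F ∪ (H.tubes R ε ∪ H.balls ρ) →
    Disjoint (base J) (H.cyl R ε) →
    ∀ t, H.val E t (H.tot (X₀ ∪ J) ε) = H.val E t (H.tot (X₁ ∪ J) ε)

end

/-! ### Plane models -/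

/-- rotation about the vertical axis -/
noncomputable def rot (φ : ℝ) (p : E3) : E3 :=
  !₂[Real.cos φ * p 0 - Real.sin φ * p 1, Real.sin φ * p 0 + Real.cos φ * p 1, p 2]

/-- rescaling around the point of height `z` of the axis -/
noncomputable def aff (z η : ℝ) (p : E3) : E3 := !₂[η * p 0, η * p 1, z + η * p 2]

/-- the closed cylinder that contains the models -/
def Cy : Set E3 := {p | rad p ≤ 3 / 2 ∧ |p 2| ≤ 2}

/-- a plane curve that replaces the middle part of the `y`-axis and avoids the origin -/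
structure PMdl (m : ℝ → E3) : Prop where
  smooth : ContDiff ℝ ∞ m
  flat : ∀ τ, m τ 2 = 0
  out : ∀ τ, 3 / 2 ≤ |τ| → m τ = !₂[0, τ, 0]
  inj : Function.Injective m
  imm : ∀ τ, deriv m τ ≠ 0
  off : ∀ τ, m τ ∉ axis
  small : ∀ τ, |τ| ≤ 3 / 2 → rad (m τ) ≤ 3 / 2

/-- isotopy of model curves -/
def MdlIso (m₀ m₁ : ℝ → E3) : Prop :=
  ∃ m : ℝ → ℝ → E3, (ContDiff ℝ ∞ fun q : ℝ × ℝ => m q.1 q.2) ∧
    (∀ u ∈ Icc (0 : ℝ) 1, PMdl (m u)) ∧ m 0 = m₀ ∧ m 1 = m₁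

/-- a model curve with increasing ordinate that passes the origin on the side `σ` -/
structure Side (σ : ℝ) (m : ℝ → E3) : Prop where
  mdl : PMdl m
  mono : ∀ τ, 0 < deriv m τ 1
  zero : m 0 1 = 0
  side : 0 < σ * m 0 0

/-- the box in which the handle slide takes place -/
noncomputable def sbox (p : E3) : E3 := circ (3 / 4 + (p 0 + 1 / 4) / 2) (p 2) (p 1 / 20)

/-- `m₁` is the band sum of `m₀` with the circle of radius `3 / 4` -/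
structure SlideData (m₀ m₁ : ℝ → E3) (hx hy : ℝ → ℝ) (a u₁ u₀ u₂ b : ℝ) : Prop where
  cap : CapData (-1 / 4) (1 / 4) hx hy a u₁ u₀ u₂ b
  far : ∀ τ, 3 / 4 < rad (m₀ τ)
  in₀ : m₀ '' Icc (-3 / 2) (3 / 2) ∩ sbox '' Qb (9 / 8) =
    sbox '' {p ∈ Qb (9 / 8) | p 0 = 1 / 4 ∧ p 2 = 0}
  in₁ : m₁ '' Icc (-3 / 2) (3 / 2) ∩ sbox '' Qb (9 / 8) =
    sbox '' (capCup hx hy a b ∩ Qb (9 / 8))
  out : m₁ '' Icc (-3 / 2) (3 / 2) \ sbox '' Qb (9 / 8) =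
    (m₀ '' Icc (-3 / 2) (3 / 2) ∪ range (circ (3 / 4) 0)) \ sbox '' Qb (9 / 8)

/-- `n` passes on the positive side and is related to a curve on the negative side by isotopies
and a handle slide -/
def ModelOK (n : ℝ → E3) : Prop :=
  Side 1 n ∧ ∃ (n' m₀ m₁ : ℝ → E3) (hx hy : ℝ → ℝ) (a u₁ u₀ u₂ b : ℝ), Side (-1) n' ∧
    MdlIso n m₀ ∧ MdlIso n' m₁ ∧ SlideData m₀ m₁ hx hy a u₁ u₀ u₂ b

/-! ### Normalisation of an arc in an edge chart -/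

/-- the constants of the normalisation -/
structure Cst where
  z : ℝ
  η : ℝ
  r : ℝ
  a : ℝ
  a₁ : ℝ
  a₂ : ℝ
  a₃ : ℝ
  b₃ : ℝ
  b₂ : ℝ
  b₁ : ℝ
  b : ℝ
  βo : ℝ → ℝ
  βi : ℝ → ℝ
  n₀ : ℂ
  L : ℂ

/-- a vector in the plane `y = 0` -/
noncomputable def vec (n : ℂ) : E3 := !₂[n.im, 0, n.re]

/-- the tangential part of the framing -/
noncomputable def tng (γ ν : ℝ → E3) (t : ℝ) : ℝ := ν t 1 / deriv γ t 1

/-- the framing modulo the tangent -/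
noncomputable def nrm (γ ν : ℝ → E3) (t : ℝ) : ℂ :=
  ((ν t 2 - tng γ ν t * deriv γ t 2 : ℝ) : ℂ) +
    ((ν t 0 - tng γ ν t * deriv γ t 0 : ℝ) : ℂ) * Complex.I

namespace Cst
variable (C : Cst)

/-- the ball in which the arc is changed -/
def ball : Set E3 := Metric.ball !₂[0, 0, C.z] C.r

structure OK : Prop where
  η_pos : 0 < C.η
  η_lt : 3 * C.η < C.r
  dom : C.ball ⊆ Dom
  lt₀ : C.a < C.a₁
  lt₁ : C.a₁ < C.a₂
  lt₂ : C.a₂ < C.a₃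
  lt₃ : C.a₃ < C.b₃
  lt₄ : C.b₃ < C.b₂
  lt₅ : C.b₂ < C.b₁
  lt₆ : C.b₁ < C.b
  len : C.b ≤ C.a + 1
  βo_smooth : ContDiff ℝ ∞ C.βo
  βi_smooth : ContDiff ℝ ∞ C.βi
  βo_mem : ∀ t, C.βo t ∈ Icc (0 : ℝ) 1
  βi_mem : ∀ t, C.βi t ∈ Icc (0 : ℝ) 1
  βo_zero : ∀ t, t ∉ Icc C.a₁ C.b₁ → C.βo t = 0
  βo_one : ∀ t ∈ Icc C.a₂ C.b₂, C.βo t = 1
  βi_zero : ∀ t, t ∉ Icc C.a₂ C.b₂ → C.βi t = 0
  βi_one : ∀ t ∈ Icc C.a₃ C.b₃, C.βi t = 1
  exp_L : C.n₀ = C.η * Complex.exp C.L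

/-- arcs to which the normalisation applies -/
structure Good (γ ν : ℝ → E3) : Prop where
  smooth : ContDiffOn ℝ ∞ γ (Ioo C.a C.b)
  smooth' : ContDiffOn ℝ ∞ ν (Ioo C.a C.b)
  mono : ∀ t ∈ Ioo C.a C.b, 0 < deriv γ t 1
  frame : ∀ t ∈ Ioo C.a C.b, 0 < (nrm γ ν t / C.n₀).re
  dom : ∀ t ∈ Ioo C.a C.b, γ t ∈ Dom
  ball : ∀ t ∈ Icc C.a₁ C.b₁, γ t ∈ C.ball
  lo : γ C.a₃ 1 < -(2 * C.η)
  hi : 2 * C.η < γ C.b₃ 1

/-- deformation of the framing to a vertical one -/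
noncomputable def fr (u : ℝ) (γ ν : ℝ → E3) (t : ℝ) : E3 :=
  vec ((((1 - u * C.βo t : ℝ) : ℂ) * nrm γ ν t + ((u * C.βo t : ℝ) : ℂ) * C.n₀) *
      Complex.exp (-(((u * C.βo t : ℝ) : ℂ) * C.L))) +
    ((1 - u * C.βo t) * tng γ ν t) • deriv γ t

/-- the straightened arc -/
noncomputable def str (γ : ℝ → E3) (t : ℝ) : E3 :=
  (1 - C.βi t) • γ t + C.βi t • !₂[0, γ t 1, C.z]

/-- the straightened arc with the model `m` inserted -/
noncomputable def pos (m γ : ℝ → E3) (t : ℝ) : E3 :=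
  C.str γ t + C.η • (m (γ t 1 / C.η) - !₂[0, γ t 1 / C.η, 0])

/-- `γ`, `ν` is an admissible replacement of `γ₀`, `ν₀` that avoids the axis -/
structure Adm (γ₀ ν₀ γ ν : ℝ → E3) : Prop where
  eq : ∀ t ∈ Ioo C.a C.b, t ∉ Icc C.a₁ C.b₁ → γ t = γ₀ t ∧ ν t = ν₀ t
  inj : InjOn γ (Ioo C.a C.b)
  ind : ∀ t ∈ Ioo C.a C.b, LinearIndependent ℝ ![deriv γ t, ν t]
  ball : ∀ t ∈ Icc C.a₁ C.b₁, γ t ∈ C.ball
  off : ∀ t ∈ Ioo C.a C.b, γ t ∉ axis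

end Cst

/-! ### Links with a distinguished arc -/

variable {M : Type*} [TopologicalSpace M] [ChartedSpace E3 M] {κ ι Vx : Type}

/-- circles of radius `r`, height `z` and framing `c` times the vertical vector -/
def HD.Yg (H : HD M ι Vx) (r z c : ι → ℝ) : LM ι M :=
  {x | ∃ e t, x = (some e, pushT (H.ce e) (circ (r e) (z e) t) (c e • ez))}

/-- the middle part of a model curve in `M` -/
def core (χ : E3 → M) (m : ℝ → E3) : Set (TM M) :=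
  (fun τ => pushT χ (m τ) ez) '' Icc (-3 / 2) (3 / 2)

/-- an arc given in a chart -/
def arc (χ : E3 → M) (a b : ℝ) (γ ν : ℝ → E3) : Set (TM M) :=
  (fun t => pushT χ (γ t) (ν t)) '' Ioo a b

/-- the complement of an open arc -/
def rest (Γ : κ → ℝ → TM M) (c₀ : κ) (a b : ℝ) : Set (TM M) :=
  {x | ∃ c t, (c ≠ c₀ ∨ ∀ k : ℤ, t + (k : ℝ) ∉ Ioo a b) ∧ x = Γ c t}

variable [IsManifold (𝓡 3) ∞ M]

/-- a smooth family of links in `A`, defined for all real parameters -/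
structure Fam (A : Set M) (G : ℝ → κ → ℝ → TM M) : Prop where
  smooth : ∀ c, ContMDiff 𝓘(ℝ, ℝ × ℝ) (𝓡 3).tangent ∞ fun p : ℝ × ℝ => G p.1 c p.2
  link : ∀ s, IsLink (G s)
  mem : ∀ s c t, (G s c t).proj ∈ A

/-- `R` is the complement of the arc `γ`, `ν` in a link -/
def Bg (χ : E3 → M) (R : Set (TM M)) (a b : ℝ) (γ ν : ℝ → E3) : Prop :=
  ∃ (κ : Type) (_ : Fintype κ) (Γ : κ → ℝ → TM M) (c₀ : κ), IsLink Γ ∧ b ≤ a + 1 ∧
    (∀ t ∈ Ioo a b, Γ c₀ t = pushT χ (γ t) (ν t)) ∧ R = rest Γ c₀ a b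

end Pool.Agent.P.MP_ac4909_gt.B
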