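import Pool.Agent.P.MP_ac4909_gt.B.MCross_Step

/-! The value is locally constant along a family in general position. -/

namespace Pool.Agent.P.MP_ac4909_gt.B

open scoped Manifold ContDiff
open Set Filter Topology

variable {M : Type*} [TopologicalSpace M] [T2Space M] [ChartedSpace E3 M]
  [IsManifold (𝓡 3) ∞ M] {ι Vx : Type} [Fintype ι] [DecidableEq ι] [Fintype Vx]

omit [T2Space M] [IsManifold (𝓡 3) ∞ M] in
theorem mcl_disj {κ : Type} {Γ : κ → ℝ → TM M} {A : Set M} :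
    Disjoint (base (trace Γ)) A ↔ ∀ c t, (Γ c t).proj ∉ A := by
  rw [Set.disjoint_left]
  refine ⟨fun h c t => h ⟨_, mem_iUnion.2 ⟨c, t, rfl⟩, rfl⟩, fun h => ?_⟩
  rintro _ ⟨x, hx, rfl⟩
  obtain ⟨c, t, rfl⟩ := mem_iUnion.1 hx
  exact h c t

omit [T2Space M] in
theorem mcl_fract {κ : Type} {Γ : κ → ℝ → TM M} (h : IsLink Γ) (c : κ) (t : ℝ) :
    Γ c (Int.fract t) = Γ c t := by
  rw [← h.per_int c (Int.fract t) ⌊t⌋, Int.fract_add_floor]

theorem mcl_diff {g : ℝ → E3} {t : ℝ} (h : deriv g t ∉ axis) : HasDerivAt g (deriv g t) t := by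
  refine DifferentiableAt.hasDerivAt (by_contra fun h0 => h ?_)
  rw [deriv_zero_of_not_differentiableAt h0]
  exact ⟨rfl, rfl⟩

theorem mcl_angle {D : E3} (h : D ∉ axis) : ∃ φ, 0 < rot φ D 1 := by
  have e : ∀ φ, rot φ D 1 = Real.sin φ * D 0 + Real.cos φ * D 1 := fun φ => rfl
  rcases lt_trichotomy (D 1) 0 with h1 | h1 | h1
  · exact ⟨Real.pi, by simpa [e] using h1⟩
  · rcases lt_trichotomy (D 0) 0 with h0 | h0 | h0
    · exact ⟨-(Real.pi / 2), by simpa [e] using h0⟩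
    · exact absurd ⟨h0, h1⟩ h
    · exact ⟨Real.pi / 2, by simpa [e] using h0⟩
  · exact ⟨0, by simpa [e] using h1⟩

omit [DecidableEq ι] in
/-- a link in general position meets the graph in finitely many points -/
theorem mcl_fin (H : HD M ι Vx) {κ : Type} [Fintype κ] {Γ : κ → ℝ → TM M} (h : IsLink Γ)
    (hv : ∀ c t v, (Γ c t).proj ≠ H.cv v 0)
    (ht : ∀ c t e, (Γ c t).proj ∈ H.ce e '' axis →
      deriv (fun u => (H.ce e).symm (Γ c u).proj) t ∉ axis) :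
    ∃ Z : Set M, Z.Finite ∧ ∀ c t, (Γ c t).proj ∈ H.gs → (Γ c t).proj ∈ Z := by
  have key : ∀ c t, ∀ᶠ u in 𝓝 t, (Γ c u).proj ∈ H.gs → u = t := by
    intro c t
    have hc : ContinuousAt (fun u => (Γ c u).proj) t :=
      (contMDiffAt_proj (h.smooth c t)).continuousAt
    by_cases hg : (Γ c t).proj ∈ H.gs
    · rcases id hg with h1 | ⟨v, h1⟩
      · obtain ⟨e, he⟩ := mem_iUnion.1 h1
        have h2 := ht c t e he
        have h3 := (pert_hor.hasFDerivAt.comp_hasDerivAt t (mcl_diff h2)).eventually_ne (c := 0)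
          fun h0 => h2 (pert_mem_axis.2 h0)
        obtain ⟨p, hp, he⟩ := he
        have h9 : (Γ c t).proj ∈ (H.ce e).target := he ▸ H.MHd_ce_target e (axis_subset_Dom hp)
        have h4 : ∀ᶠ u in 𝓝 t, (Γ c u).proj ∈ (H.ce e).target :=
          hc ((H.ce e).open_target.mem_nhds h9)
        filter_upwards [eventually_nhdsWithin_iff.1 h3, h4] with u h5 h6 h7
        by_contra h8
        rw [← (H.ce e).right_inv h6,
          H.ce_mem_gs (H.ce_source e ▸ (H.ce e).map_target h6)] at h7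
        exact h5 h8 (pert_mem_axis.1 h7)
      · exact absurd h1.symm (hv c t v)
    · filter_upwards [hc (H.isCompact_gs.isClosed.isOpen_compl.mem_nhds hg)] with u h1 h2
      exact absurd h2 h1
  choose T _ hT using fun c => (isCompact_Icc (a := (0 : ℝ)) (b := 1)).elim_nhds_subcover
    (fun t => {u | (Γ c u).proj ∈ H.gs → u = t}) fun t _ => key c t
  refine ⟨⋃ c, (fun t => (Γ c t).proj) '' (T c : Set ℝ),
    finite_iUnion fun c => (T c).finite_toSet.image _, fun c t hg => ?_⟩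
  obtain ⟨u, hu, h1⟩ := mem_iUnion₂.1 (hT c ⟨Int.fract_nonneg t, (Int.fract_lt_one t).le⟩)
  rw [← mcl_fract h] at hg ⊢
  exact mem_iUnion.2 ⟨c, u, hu, by rw [h1 hg]⟩

/-- the case without intersection points -/
theorem mcl_zero (H : HD M ι Vx) (E : EvSys ι (ℕ × (ι → ℕ))) {F : Set M} {κ : Type} [Fintype κ]
    {G : ℝ → κ → ℝ → TM M} (hG : Fam Fᶜ G) {s₀ : ℝ} (h : ∀ c t, (G s₀ c t).proj ∉ H.gs) :
    ∃ U ∈ 𝓝 s₀, ∀ s ∈ U, ∀ s' ∈ U, H.ThinEq E F (trace (G s)) (trace (G s')) := by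
  have h1 : ∀ᶠ s in 𝓝 s₀, ∀ c, ∀ t ∈ Icc (0 : ℝ) 1, (G s c t).proj ∉ H.gs :=
    eventually_all.2 fun c => isCompact_Icc.eventually_forall_of_forall_eventually fun t _ =>
      (contMDiffAt_proj (hG.smooth c (s₀, t))).continuousAt
        (H.isCompact_gs.isClosed.isOpen_compl.mem_nhds (h c t))
  obtain ⟨δ, hδ, h2⟩ := Metric.eventually_nhds_iff_ball.1 h1
  refine ⟨_, Metric.ball_mem_nhds s₀ hδ, fun s hs s' hs' => H.thinEq_of_iso E
    (hG.isoIn fun u hu c t => ⟨hG.mem u c t, ?_⟩)⟩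
  rw [← mcl_fract (hG.link u)]
  exact h2 u ((convex_ball s₀ δ).ordConnected.uIcc_subset hs hs' hu) c _
    ⟨Int.fract_nonneg t, (Int.fract_lt_one t).le⟩

theorem mcl_ind (H : HD M ι Vx) {E : EvSys ι (ℕ × (ι → ℕ))} (hE : AFacts E) {F : Set M}
    (hF : IsClosed F) {κ : Type} [Fintype κ] {s₀ : ℝ} {Z : Set M} (hZ : Z.Finite) :
    ∀ G : ℝ → κ → ℝ → TM M, Fam Fᶜ G → (∀ c t v, (G s₀ c t).proj ≠ H.cv v 0) →
      (∀ c t e, (G s₀ c t).proj ∈ H.ce e '' axis →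
        deriv (fun u => (H.ce e).symm (G s₀ c u).proj) t ∉ axis) →
      (∀ c t, (G s₀ c t).proj ∈ H.gs → (G s₀ c t).proj ∈ Z) →
      ∃ U ∈ 𝓝 s₀, ∀ s ∈ U, ∀ s' ∈ U, Disjoint (base (trace (G s))) H.gs →
        Disjoint (base (trace (G s'))) H.gs → H.ThinEq E F (trace (G s)) (trace (G s')) := by
  induction Z, hZ using Set.Finite.induction_on with
  | empty =>
    intro G hG _ _ h
    obtain ⟨U, hU, h1⟩ := mcl_zero H E hG h
    exact ⟨U, hU, fun s hs s' hs' _ _ => h1 s hs s' hs'⟩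
  | @insert a Z _ _ ih =>
    intro G hG hv ht h
    by_cases ha : ∃ c t, (G s₀ c t).proj ∈ H.gs ∧ (G s₀ c t).proj = a
    · obtain ⟨c₀, t₀, hg, rfl⟩ := ha
      obtain ⟨e, he⟩ := mem_iUnion.1 (hg.resolve_right fun ⟨v, h1⟩ => hv c₀ t₀ v h1.symm)
      have hD := ht c₀ t₀ e he
      obtain ⟨φ, hφ⟩ := mcl_angle hD
      obtain ⟨H', e1, e2, e3, e4⟩ := H.exists_rot φ
      have h1 := ((rot_contDiff φ).differentiable (by simp) _).hasFDerivAt.comp_hasDerivAt t₀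
        (mcl_diff hD)
      rw [fderiv_rot] at h1
      obtain ⟨G', hG', h2, h3⟩ := H'.step hE hF hG (s₀ := s₀) (c₀ := c₀) (t₀ := t₀) (e := e)
        (e2 e ▸ he) (by
          simp only [e3]
          exact hφ.trans_eq (congrArg (fun v : E3 => v 1) h1.deriv.symm))
      rw [e1] at h2 h3
      obtain ⟨U, hU, h4⟩ := ih G' hG'
        (fun c t v h5 => hv c t v (by rw [← (h2 c t (Or.inr ⟨v, h5.symm⟩)).1.eq_of_nhds, h5]))
        (fun c t e h5 => by
          have h6 := (h2 c t (Or.inl (mem_iUnion.2 ⟨e, h5⟩))).1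
          exact fun h7 => ht c t e (h6.eq_of_nhds ▸ h5)
            ((h6.fun_comp fun x => (H.ce e).symm x.proj).deriv_eq.subst (motive := (· ∈ axis)) h7))
        fun c t h5 => by
          have h6 := h2 c t h5
          rw [h6.1.eq_of_nhds] at h5 ⊢
          exact (h c t h5).resolve_left h6.2
      refine ⟨_, inter_mem hU h3, fun s hs s' hs' d d' => ?_⟩
      exact ((e4 _ _ _ _ (hs.2 d).2).trans (h4 s hs.1 s' hs'.1 (hs.2 d).1 (hs'.2 d').1)).trans
        (e4 _ _ _ _ (hs'.2 d').2).symm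
    · exact ih G hG hv ht fun c t h1 => (h c t h1).resolve_left fun h2 => ha ⟨c, t, h1, h2⟩

theorem HD.loc (H : HD M ι Vx) {E : EvSys ι (ℕ × (ι → ℕ))} (hE : AFacts E) {F : Set M}
    (hF : IsClosed F) {κ : Type} [Fintype κ] {G : ℝ → κ → ℝ → TM M} (hG : Fam Fᶜ G) {s₀ : ℝ}
    (hv : ∀ c t v, (G s₀ c t).proj ≠ H.cv v 0)
    (ht : ∀ c t e, (G s₀ c t).proj ∈ H.ce e '' axis →
      deriv (fun u => (H.ce e).symm (G s₀ c u).proj) t ∉ axis) :
    ∃ U ∈ 𝓝 s₀, ∀ s ∈ U, ∀ s' ∈ U, Disjoint (base (trace (G s))) H.gs →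
      Disjoint (base (trace (G s'))) H.gs → H.ThinEq E F (trace (G s)) (trace (G s')) := by
  obtain ⟨Z, hZ, h⟩ := mcl_fin H (hG.link s₀) hv ht
  exact mcl_ind H hE hF hZ G hG hv ht h

end Pool.Agent.P.MP_ac4909_gt.B
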