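import Pool.Agent.P.MP_ac4909_gt.B.MCross_Sym

/-! The plane model curves. -/

namespace Pool.Agent.P.MP_ac4909_gt.B

open scoped Manifold ContDiff
open Set Filter Topology

/-- transition from `f` to `g` -/
noncomputable def blend (k c : ℝ) (f g : ℝ → ℝ) (τ : ℝ) : ℝ :=
  (1 - Real.smoothTransition (k * τ + c)) * f τ + Real.smoothTransition (k * τ + c) * g τ

section
variable {k c τ : ℝ} {f g : ℝ → ℝ}

theorem mcm_blend_contDiff (hf : ContDiff ℝ ∞ f) (hg : ContDiff ℝ ∞ g) :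
    ContDiff ℝ ∞ (blend k c f g) := by
  have h : ContDiff ℝ ∞ fun τ : ℝ => Real.smoothTransition (k * τ + c) :=
    Real.smoothTransition.contDiff.comp ((contDiff_const.mul contDiff_id).add contDiff_const)
  exact ((contDiff_const.sub h).mul hf).add (h.mul hg)

theorem mcm_blend_left (h : k * τ + c ≤ 0) : blend k c f g τ = f τ := by
  simp [blend, Real.smoothTransition.zero_of_nonpos h]

theorem mcm_blend_right (h : 1 ≤ k * τ + c) : blend k c f g τ = g τ := by
  simp [blend, Real.smoothTransition.one_of_one_le h]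

theorem mcm_blend_le {B : ℝ} (h1 : k * τ + c < 1 → f τ ≤ B) (h2 : 0 < k * τ + c → g τ ≤ B) :
    blend k c f g τ ≤ B := by
  rcases le_or_gt (k * τ + c) 0 with h | h
  · rw [mcm_blend_left h]
    exact h1 (by linarith)
  rcases le_or_gt 1 (k * τ + c) with h' | h'
  · rw [mcm_blend_right h']
    exact h2 h
  have h3 := Real.smoothTransition.nonneg (k * τ + c)
  have h4 := Real.smoothTransition.le_one (k * τ + c)
  unfold blend
  nlinarith [mul_nonneg h3 (sub_nonneg.2 (h2 h)), mul_nonneg (sub_nonneg.2 h4) (sub_nonneg.2 (h1 h'))]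

theorem mcm_le_blend {B : ℝ} (h1 : k * τ + c < 1 → B ≤ f τ) (h2 : 0 < k * τ + c → B ≤ g τ) :
    B ≤ blend k c f g τ := by
  have h := mcm_blend_le (k := k) (c := c) (τ := τ) (f := fun τ => -f τ) (g := fun τ => -g τ)
    (B := -B) (fun h => neg_le_neg (h1 h)) fun h => neg_le_neg (h2 h)
  unfold blend at h ⊢
  linarith

theorem mcm_lt_blend {B : ℝ} (h1 : k * τ + c < 1 → B < f τ) (h2 : 0 < k * τ + c → B < g τ) :
    B < blend k c f g τ := by
  rcases le_or_gt (k * τ + c) 0 with h | h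
  · rw [mcm_blend_left h]
    exact h1 (by linarith)
  rcases le_or_gt 1 (k * τ + c) with h' | h'
  · rw [mcm_blend_right h']
    exact h2 h
  exact (lt_min (h1 h') (h2 h)).trans_le
    (mcm_le_blend (fun _ => min_le_left _ _) fun _ => min_le_right _ _)

theorem mcm_blend_lt {B : ℝ} (h1 : k * τ + c < 1 → f τ < B) (h2 : 0 < k * τ + c → g τ < B) :
    blend k c f g τ < B := by
  have h := mcm_lt_blend (k := k) (c := c) (τ := τ) (f := fun τ => -f τ) (g := fun τ => -g τ)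
    (B := -B) (fun h => neg_lt_neg (h1 h)) fun h => neg_lt_neg (h2 h)
  unfold blend at h ⊢
  linarith

theorem mcm_blend_deriv (hk : 0 ≤ k) (hf : ContDiff ℝ ∞ f) (hg : ContDiff ℝ ∞ g) (c τ : ℝ) :
    ∃ D, 0 ≤ D ∧ (k * τ + c ≤ 0 ∨ 1 ≤ k * τ + c → D = 0) ∧
      deriv (blend k c f g) τ = blend k c (deriv f) (deriv g) τ + D * (g τ - f τ) := by
  have h1 : HasDerivAt Real.smoothTransition (deriv Real.smoothTransition (k * τ + c))
      (k * τ + c) :=
    ((Real.smoothTransition.contDiff (n := 1)).differentiable (by simp) _).hasDerivAt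
  have h2 : HasDerivAt (fun τ : ℝ => k * τ + c) k τ := by
    simpa using ((hasDerivAt_id τ).const_mul k).add_const c
  have h3 : HasDerivAt (fun τ : ℝ => Real.smoothTransition (k * τ + c))
      (deriv Real.smoothTransition (k * τ + c) * k) τ :=
    HasDerivAt.comp (h := fun τ : ℝ => k * τ + c) τ h1 h2
  refine ⟨deriv Real.smoothTransition (k * τ + c) * k,
    mul_nonneg Real.smoothTransition.monotone.deriv_nonneg hk, fun h => ?_, ?_⟩
  · have h0 : deriv Real.smoothTransition (k * τ + c) = 0 := by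
      rcases h with h | h
      · refine IsLocalMin.deriv_eq_zero (Eventually.of_forall fun x => ?_)
        rw [Real.smoothTransition.zero_of_nonpos h]
        exact Real.smoothTransition.nonneg x
      · refine IsLocalMax.deriv_eq_zero (Eventually.of_forall fun x => ?_)
        rw [Real.smoothTransition.one_of_one_le h]
        exact Real.smoothTransition.le_one x
    rw [h0, zero_mul]
  · have h4 := ((h3.const_sub 1).fun_mul (hf.differentiable (by simp) τ).hasDerivAt).fun_add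
      (h3.fun_mul (hg.differentiable (by simp) τ).hasDerivAt)
    refine h4.deriv.trans ?_
    unfold blend
    ring

/-- sign of the derivative of a transition -/
theorem mcm_blend_deriv_le (hk : 0 ≤ k) (hf : ContDiff ℝ ∞ f) (hg : ContDiff ℝ ∞ g)
    (h : 0 < k * τ + c → k * τ + c < 1 → g τ ≤ f τ) :
    deriv (blend k c f g) τ ≤ blend k c (deriv f) (deriv g) τ := by
  obtain ⟨D, h0, h1, e⟩ := mcm_blend_deriv hk hf hg c τ
  rw [e]
  by_cases hz : k * τ + c ≤ 0 ∨ 1 ≤ k * τ + c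
  · rw [h1 hz, zero_mul, add_zero]
  · push Not at hz
    nlinarith [mul_nonneg h0 (sub_nonneg.2 (h hz.1 hz.2))]

theorem mcm_le_blend_deriv (hk : 0 ≤ k) (hf : ContDiff ℝ ∞ f) (hg : ContDiff ℝ ∞ g)
    (h : 0 < k * τ + c → k * τ + c < 1 → f τ ≤ g τ) :
    blend k c (deriv f) (deriv g) τ ≤ deriv (blend k c f g) τ := by
  obtain ⟨D, h0, h1, e⟩ := mcm_blend_deriv hk hf hg c τ
  rw [e]
  by_cases hz : k * τ + c ≤ 0 ∨ 1 ≤ k * τ + c
  · rw [h1 hz, zero_mul, add_zero]
  · push Not at hz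
    nlinarith [mul_nonneg h0 (sub_nonneg.2 (h hz.1 hz.2))]

theorem mcm_blend_deriv_right (hk : 0 ≤ k) (hf : ContDiff ℝ ∞ f) (hg : ContDiff ℝ ∞ g)
    (h : 1 ≤ k * τ + c) : deriv (blend k c f g) τ = deriv g τ := by
  obtain ⟨D, -, h1, e⟩ := mcm_blend_deriv hk hf hg c τ
  rw [e, h1 (Or.inr h), zero_mul, add_zero, mcm_blend_right h]

end

/-- radius of the two standard curves -/
noncomputable def mr : ℝ → ℝ := blend 4 6 (fun τ => -τ) fun τ => (1 + τ ^ 2) / 4

/-- radius before the slide -/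
noncomputable def mb : ℝ → ℝ := blend 4 6 (fun τ => -τ) fun _ => 1

/-- radius after the slide -/
noncomputable def ma (τ : ℝ) : ℝ := mb τ - (1 + st (4 * (τ + 1))) / 8

/-- angle along the cap and the circle -/
noncomputable def mg (τ : ℝ) : ℝ := -1 / 2 + 39 / 160 * (τ ^ 3 - 3 * τ)

/-- angle after the slide -/
noncomputable def ta : ℝ → ℝ := blend 4 6 (fun _ => -1 / 4) mg

/-- angle before the slide -/
noncomputable def tb : ℝ → ℝ := blend 10 12 ta fun τ => τ / 100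

theorem mcm_quad : ContDiff ℝ ∞ fun τ : ℝ => (1 + τ ^ 2) / 4 := by fun_prop

theorem mcm_mg_contDiff : ContDiff ℝ ∞ mg := by
  unfold mg
  fun_prop

theorem mcm_lin : ContDiff ℝ ∞ fun τ : ℝ => τ / 100 := by fun_prop

theorem mcm_mr_contDiff : ContDiff ℝ ∞ mr := mcm_blend_contDiff contDiff_neg mcm_quad

theorem mcm_mb_contDiff : ContDiff ℝ ∞ mb := mcm_blend_contDiff contDiff_neg contDiff_const

theorem mcm_ta_contDiff : ContDiff ℝ ∞ ta := mcm_blend_contDiff contDiff_const mcm_mg_contDiff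

theorem mcm_tb_contDiff : ContDiff ℝ ∞ tb := mcm_blend_contDiff mcm_ta_contDiff mcm_lin

theorem mcm_st4 : ContDiff ℝ ∞ fun τ : ℝ => st (4 * (τ + 1)) :=
  st_contDiff.comp (contDiff_const.mul (contDiff_id.add contDiff_const))

theorem mcm_ma_contDiff : ContDiff ℝ ∞ ma :=
  mcm_mb_contDiff.sub ((contDiff_const.add mcm_st4).div_const 8)

theorem mcm_deriv_neg (τ : ℝ) : deriv (fun τ : ℝ => -τ) τ = -1 := (hasDerivAt_neg τ).deriv

theorem mcm_deriv_quad (τ : ℝ) : deriv (fun τ : ℝ => (1 + τ ^ 2) / 4) τ = τ / 2 := by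
  refine ((((hasDerivAt_pow 2 τ).const_add 1).div_const 4).congr_deriv ?_).deriv
  norm_num
  ring

theorem mcm_deriv_mg (τ : ℝ) : deriv mg τ = 117 / 160 * (τ ^ 2 - 1) := by
  refine (((((hasDerivAt_pow 3 τ).fun_sub ((hasDerivAt_id τ).const_mul 3)).const_mul
    (39 / 160)).const_add (-1 / 2)).congr_deriv ?_).deriv
  norm_num
  ring

theorem mcm_deriv_lin (τ : ℝ) : deriv (fun τ : ℝ => τ / 100) τ = 1 / 100 :=
  ((hasDerivAt_id τ).div_const 100).deriv

theorem mcm_deriv_st (τ : ℝ) : HasDerivAt st (deriv st τ) τ :=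
  (st_contDiff.differentiable (by simp) τ).hasDerivAt

theorem mcm_st_zero : st 0 = 0 := by
  have h := st_neg 0
  rw [neg_zero] at h
  linarith

theorem mcm_st_neg {τ : ℝ} (h : τ < 0) : -1 ≤ st τ ∧ st τ < 0 := by
  refine ⟨(abs_le.1 (abs_st_le τ)).1, ?_⟩
  rcases le_or_gt τ (-1 / 2) with h1 | h1
  · rw [st_of_le h1]
    norm_num
  · rw [← mcm_st_zero]
    exact st_strictMonoOn ⟨h1.le, by linarith⟩ ⟨by norm_num, by norm_num⟩ h

theorem mcm_mr_pos {τ : ℝ} : 0 < mr τ :=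
  mcm_lt_blend (fun h => by linarith) fun _ => by positivity

theorem mcm_deriv_mr {τ : ℝ} (h : τ < 0) : deriv mr τ < 0 := by
  refine (mcm_blend_deriv_le (by norm_num) contDiff_neg mcm_quad fun h1 h2 => ?_).trans_lt
    (mcm_blend_lt (fun _ => ?_) fun _ => ?_)
  · nlinarith
  · rw [mcm_deriv_neg]
    norm_num
  · rw [mcm_deriv_quad]
    linarith

theorem mcm_mr_even {τ : ℝ} (h : |τ| < 1 / 2) : mr (-τ) = mr τ := by
  have h1 := abs_lt.1 h
  rw [mr, mcm_blend_right (by linarith), mcm_blend_right (by linarith), neg_sq]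

theorem mcm_half_p : Half 0 mr fun τ => st τ / 4 where
  sρ := mcm_mr_contDiff
  sθ := st_contDiff.div_const 4
  evρ := fun _ => mcm_mr_even
  odθ := fun τ _ => by
    rw [st_neg]
    push_cast
    ring
  outρ := fun τ h => mcm_blend_left (by linarith)
  outθ := fun τ h => by rw [st_of_le (by linarith)]
  pos := fun _ _ => mcm_mr_pos
  low := fun τ h => by
    have h1 := mcm_st_neg h
    constructor <;> linarith [h1.1, h1.2]
  anti := fun τ h => (mcm_deriv_mr h).le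
  imm := fun τ h e => ((mcm_deriv_mr h).ne e).elim
  zero := by
    rw [((mcm_deriv_st 0).div_const 4).deriv]
    have := deriv_st_pos (t := 0) (by norm_num)
    positivity

theorem mcm_deriv_m (τ : ℝ) : deriv (fun τ => -1 / 2 - st τ / 4) τ = -(deriv st τ / 4) :=
  (((mcm_deriv_st τ).div_const 4).const_sub (-1 / 2)).deriv

theorem mcm_half_m : Half (-1) mr fun τ => -1 / 2 - st τ / 4 where
  sρ := mcm_mr_contDiff
  sθ := contDiff_const.sub (st_contDiff.div_const 4)
  evρ := fun _ => mcm_mr_even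
  odθ := fun τ _ => by
    rw [st_neg]
    push_cast
    ring
  outρ := fun τ h => mcm_blend_left (by linarith)
  outθ := fun τ h => by
    rw [st_of_le (by linarith)]
    norm_num
  pos := fun _ _ => mcm_mr_pos
  low := fun τ h => by
    have h1 := mcm_st_neg h
    constructor <;> linarith [h1.1, h1.2]
  anti := fun τ h => (mcm_deriv_mr h).le
  imm := fun τ h e => ((mcm_deriv_mr h).ne e).elim
  zero := by
    rw [mcm_deriv_m]
    have := deriv_st_pos (t := 0) (by norm_num)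
    exact neg_ne_zero.2 (by positivity)

theorem mcm_mono {τ : ℝ} (h : τ ≤ 0) : 0 < deriv mr τ * Real.sin (2 * Real.pi * (st τ / 4)) +
    mr τ * (Real.cos (2 * Real.pi * (st τ / 4)) * (2 * Real.pi * (deriv st τ / 4))) := by
  have hp := Real.pi_pos
  have h0 : 0 < mr τ := mcm_mr_pos
  rcases h.eq_or_lt with rfl | h1
  · have := deriv_st_pos (t := 0) (by norm_num)
    rw [mcm_st_zero]
    simp only [zero_div, mul_zero, Real.sin_zero, Real.cos_zero, zero_add, one_mul]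
    positivity
  · obtain ⟨h2, h3⟩ := mcm_st_neg h1
    have h4 : Real.sin (2 * Real.pi * (st τ / 4)) < 0 :=
      Real.sin_neg_of_neg_of_neg_pi_lt (by nlinarith) (by nlinarith)
    have h5 : 0 ≤ Real.cos (2 * Real.pi * (st τ / 4)) :=
      Real.cos_nonneg_of_neg_pi_div_two_le_of_le (by nlinarith) (by nlinarith)
    have h6 : 0 ≤ deriv st τ := st_monotone.deriv_nonneg
    have h7 := mul_pos_of_neg_of_neg (mcm_deriv_mr h1) h4
    positivity

theorem mcm_side_p : Side 1 (dbl mr fun τ => st τ / 4) := by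
  refine mcm_half_p.side (fun τ h => ?_) (by simp [mcm_st_zero])
  rw [((mcm_deriv_st τ).div_const 4).deriv]
  exact mcm_mono h

theorem mcm_side_m : Side (-1) (dbl mr fun τ => -1 / 2 - st τ / 4) := by
  have e : ∀ x : ℝ, 2 * Real.pi * (-1 / 2 - x) = -(2 * Real.pi * x + Real.pi) := fun x => by ring
  refine mcm_half_m.side (fun τ h => ?_) ?_
  · rw [mcm_deriv_m, e, Real.sin_neg, Real.cos_neg, Real.sin_add_pi, Real.cos_add_pi]
    have := mcm_mono h
    linarith
  · rw [e, Real.cos_neg, Real.cos_add_pi]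
    simp [mcm_st_zero]

theorem mcm_mb_ge (τ : ℝ) : 1 ≤ mb τ := mcm_le_blend (fun h => by linarith) fun _ => le_rfl

theorem mcm_mb_eq {τ : ℝ} (h : -5 / 4 ≤ τ) : mb τ = 1 := mcm_blend_right (by linarith)

theorem mcm_deriv_mb (τ : ℝ) : deriv mb τ ≤ 0 ∧ (τ < -5 / 4 → deriv mb τ < 0) := by
  have h := mcm_blend_deriv_le (k := 4) (c := 6) (τ := τ) (g := fun _ => 1) (by norm_num)
    contDiff_neg contDiff_const fun _ _ => by linarith
  have h1 := Real.smoothTransition.le_one (4 * τ + 6)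
  simp only [blend, mcm_deriv_neg, deriv_const, mul_zero, add_zero] at h
  refine ⟨le_trans h (by linarith), fun h2 => lt_of_le_of_lt h ?_⟩
  have h3 := Real.smoothTransition.lt_one_of_lt_one (x := 4 * τ + 6) (by linarith)
  linarith

theorem mcm_deriv_ma (τ : ℝ) : deriv ma τ = deriv mb τ - deriv st (4 * (τ + 1)) * 4 / 8 := by
  have h1 : HasDerivAt (fun τ : ℝ => 4 * (τ + 1)) 4 τ := by
    simpa using ((hasDerivAt_id τ).add_const 1).const_mul 4
  exact ((mcm_mb_contDiff.differentiable (by simp) τ).hasDerivAt.fun_sub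
    ((((mcm_deriv_st _).comp τ h1).const_add 1).div_const 8)).deriv

theorem mcm_ma_ge (τ : ℝ) : 3 / 4 ≤ ma τ := by
  have h1 := mcm_mb_ge τ
  have h2 := (abs_le.1 (abs_st_le (4 * (τ + 1)))).2
  unfold ma
  linarith

theorem mcm_ma_in {τ : ℝ} (h : -7 / 8 ≤ τ) : ma τ = 3 / 4 := by
  rw [ma, mcm_mb_eq (by linarith), st_of_ge (by linarith)]
  norm_num

theorem mcm_ma_out {τ : ℝ} (h : τ ≤ -9 / 8) : ma τ = mb τ := by
  rw [ma, st_of_le (by linarith)]
  ring

theorem mcm_ma_hx {τ : ℝ} (h : -5 / 4 ≤ τ) : 2 * ma τ - 7 / 4 = st (4 * (-τ - 1)) / 4 := by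
  have e : 4 * (-τ - 1) = -(4 * (τ + 1)) := by ring
  rw [ma, mcm_mb_eq h, e, st_neg]
  ring

theorem mcm_mg_eq (τ : ℝ) : mg τ = -1 / 80 - 39 / 160 * ((τ + 1) ^ 2 * (2 - τ)) := by
  unfold mg
  ring

theorem mcm_mg_le {τ : ℝ} (h : τ ≤ 0) : mg τ ≤ -1 / 80 := by
  have : 0 ≤ (τ + 1) ^ 2 * (2 - τ) := mul_nonneg (sq_nonneg _) (by linarith)
  rw [mcm_mg_eq]
  linarith

theorem mcm_mg_far {τ : ℝ} (h : τ ≤ -5 / 4) : mg τ ≤ -9 / 160 := by
  have h1 : 1 / 16 ≤ (τ + 1) ^ 2 := by nlinarith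
  have h2 : 1 / 16 * (13 / 4) ≤ (τ + 1) ^ 2 * (2 - τ) :=
    mul_le_mul h1 (by linarith) (by norm_num) (sq_nonneg _)
  rw [mcm_mg_eq]
  linarith

theorem mcm_mg_near {τ : ℝ} (h : -6 / 5 ≤ τ) (h' : τ ≤ -7 / 8) : -9 / 160 < mg τ := by
  have h1 : (τ + 1) ^ 2 ≤ 1 / 25 := by nlinarith
  have h2 : (τ + 1) ^ 2 * (2 - τ) ≤ 1 / 25 * (16 / 5) :=
    mul_le_mul h1 (by linarith) (by linarith) (by norm_num)
  rw [mcm_mg_eq]
  linarith

theorem mcm_ta_eq {τ : ℝ} (h : -5 / 4 ≤ τ) : ta τ = mg τ := mcm_blend_right (by linarith)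

theorem mcm_ta_far {τ : ℝ} (h : τ ≤ -5 / 4) : ta τ ≤ -9 / 160 :=
  mcm_blend_le (fun _ => by norm_num) fun _ => mcm_mg_far h

theorem mcm_ta_low {τ : ℝ} (h : τ < 0) : -1 / 2 < ta τ ∧ ta τ < 0 := by
  refine ⟨mcm_lt_blend (fun _ => by norm_num) fun h1 => ?_,
    mcm_blend_lt (fun _ => by norm_num) fun _ => by linarith [mcm_mg_le h.le]⟩
  have h2 : 0 < -τ * (3 - τ ^ 2) := mul_pos (by linarith) (by nlinarith)
  unfold mg
  linarith

theorem mcm_deriv_ta {τ : ℝ} (h : -5 / 4 ≤ τ) : deriv ta τ = 117 / 160 * (τ ^ 2 - 1) := by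
  rw [ta, mcm_blend_deriv_right (by norm_num) contDiff_const mcm_mg_contDiff (by linarith),
    mcm_deriv_mg]

theorem mcm_tb_out {τ : ℝ} (h : τ ≤ -6 / 5) : tb τ = ta τ := mcm_blend_left (by linarith)

theorem mcm_tb_in {τ : ℝ} (h : -11 / 10 ≤ τ) : tb τ = τ / 100 := mcm_blend_right (by linarith)

theorem mcm_deriv_tb {τ : ℝ} (h : -5 / 4 ≤ τ) : 0 < deriv tb τ := by
  refine lt_of_lt_of_le (mcm_lt_blend (fun h1 => ?_) fun _ => ?_)
    (mcm_le_blend_deriv (by norm_num) mcm_ta_contDiff mcm_lin fun _ h1 => ?_)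
  · rw [mcm_deriv_ta h]
    nlinarith
  · rw [mcm_deriv_lin]
    norm_num
  · rw [mcm_ta_eq h]
    linarith [mcm_mg_le (τ := τ) (by linarith)]

theorem mcm_half_a : Half (-1) ma ta where
  sρ := mcm_ma_contDiff
  sθ := mcm_ta_contDiff
  evρ := fun τ h => by
    have h1 := abs_lt.1 h
    rw [mcm_ma_in (by linarith), mcm_ma_in (by linarith)]
  odθ := fun τ h => by
    have h1 := abs_lt.1 h
    rw [mcm_ta_eq (by linarith), mcm_ta_eq (by linarith)]
    unfold mg
    push_cast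
    ring
  outρ := fun τ h => (mcm_ma_out (by linarith)).trans (mcm_blend_left (by linarith))
  outθ := fun τ h => mcm_blend_left (by linarith)
  pos := fun τ _ => by linarith [mcm_ma_ge τ]
  low := fun _ => mcm_ta_low
  anti := fun τ _ => by
    have h1 : 0 ≤ deriv st (4 * (τ + 1)) := st_monotone.deriv_nonneg
    rw [mcm_deriv_ma]
    linarith [(mcm_deriv_mb τ).1]
  imm := fun τ h e => by
    have h1 : 0 ≤ deriv st (4 * (τ + 1)) := st_monotone.deriv_nonneg
    have h2 := mcm_deriv_mb τ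
    rw [mcm_deriv_ma] at e
    have h3 : -5 / 4 ≤ τ := le_of_not_gt fun h3 => by linarith [h2.2 h3]
    rw [mcm_deriv_ta h3]
    intro h4
    have h5 : (τ + 1) * (τ - 1) = 0 := by linarith
    have h6 : τ + 1 = 0 := (mul_eq_zero.1 h5).resolve_right (by linarith)
    have h7 := deriv_st_pos (t := 4 * (τ + 1)) (by rw [h6]; norm_num)
    linarith [h2.1]
  zero := by
    rw [mcm_deriv_ta (by norm_num)]
    norm_num

theorem mcm_half_b : Half 0 mb tb where
  sρ := mcm_mb_contDiff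
  sθ := mcm_tb_contDiff
  evρ := fun τ h => by
    have h1 := abs_lt.1 h
    rw [mcm_mb_eq (by linarith), mcm_mb_eq (by linarith)]
  odθ := fun τ h => by
    have h1 := abs_lt.1 h
    rw [mcm_tb_in (by linarith), mcm_tb_in (by linarith)]
    push_cast
    ring
  outρ := fun τ h => mcm_blend_left (by linarith)
  outθ := fun τ h => (mcm_tb_out (by linarith)).trans (mcm_blend_left (by linarith))
  pos := fun τ _ => by linarith [mcm_mb_ge τ]
  low := fun τ h => ⟨mcm_lt_blend (fun _ => (mcm_ta_low h).1) fun _ => by linarith,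
    mcm_blend_lt (fun _ => (mcm_ta_low h).2) fun _ => by linarith⟩
  anti := fun τ _ => (mcm_deriv_mb τ).1
  imm := fun τ _ e =>
    (mcm_deriv_tb (le_of_not_gt fun h3 => ((mcm_deriv_mb τ).2 h3).ne e)).ne'
  zero := (mcm_deriv_tb (by norm_num)).ne'

theorem mcm_cap : CapData (-1 / 4) (1 / 4) (fun v => st (4 * (v - 1)) / 4)
    (fun v => 20 * mg (-v)) 0 (7 / 8) 1 (9 / 8) (5 / 4) where
  lt₁ := by norm_num
  lt₂ := by norm_num
  lt₃ := by norm_num
  lt₄ := by norm_num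
  contx := ((st_contDiff.continuous.comp (by fun_prop)).div_const 4).continuousOn
  conty := (continuous_const.mul (mcm_mg_contDiff.continuous.comp continuous_neg)).continuousOn
  left := fun u hu => by rw [st_of_le (by linarith [hu.2])]
  right := fun u hu => by rw [st_of_ge (by linarith [hu.1])]
  monox := fun u hu v hv huv => by
    have := st_strictMonoOn (a := 4 * (u - 1)) ⟨by linarith [hu.1], by linarith [hu.2]⟩
      (b := 4 * (v - 1)) ⟨by linarith [hv.1], by linarith [hv.2]⟩ (by linarith)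
    linarith
  up := fun u hu v hv huv => by
    have h1 : 0 < (v - u) * (3 - (u ^ 2 + u * v + v ^ 2)) :=
      mul_pos (by linarith) (by nlinarith [hu.1, hv.2, hu.2, hv.1])
    simp only [mg]
    linarith
  down := fun u hu v hv huv => by
    have h1 : 0 < (v - u) * (u ^ 2 + u * v + v ^ 2 - 3) :=
      mul_pos (by linarith) (by nlinarith [hu.1, hv.1])
    simp only [mg]
    linarith
  top := by norm_num [mg]
  lo₁ := by norm_num [mg]
  lo₂ := by norm_num [mg]
  bot₁ := by norm_num [mg]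
  bot₂ := by norm_num [mg]

theorem mcm_abs_sign {s x : ℝ} (hs : s = 1 ∨ s = -1) : |s * x| = |x| := by
  rcases hs with rfl | rfl <;> simp

theorem mcm_abs_half {k : ℤ} {ρ θ : ℝ → ℝ} (h : Half k ρ θ) {τ s : ℝ} (hτ : τ ≤ 0)
    (hs : s = 1 ∨ s = -1) : |s * θ τ| ≤ 1 / 2 := by
  have h1 := h.le_theta hτ
  rw [mcm_abs_sign hs, abs_le]
  constructor <;> linarith [h1.1, h1.2]

theorem mcm_mem_Icc {τ s : ℝ} (hτ : τ ≤ 0) (h : -3 / 2 ≤ τ) (hs : s = 1 ∨ s = -1) :
    s * τ ∈ Icc (-3 / 2 : ℝ) (3 / 2) := by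
  rcases hs with rfl | rfl <;> constructor <;> linarith

theorem mcm_near {s x : ℝ} (hs : s = 1 ∨ s = -1) {y : ℝ}
    (hp : (!₂[y, 20 * (s * x), 0] : E3) ∈ Qb (9 / 8)) : -9 / 160 < x := by
  have h1 : |20 * (s * x)| < 9 / 8 := by simpa using hp 1
  rw [abs_mul, mcm_abs_sign hs] at h1
  have h2 := neg_abs_le x
  norm_num at h1
  linarith

theorem mcm_sign (x : ℝ) : ∃ s : ℝ, (s = 1 ∨ s = -1) ∧ x = s * -|x| := by
  rcases le_or_gt x 0 with h | h
  · exact ⟨1, Or.inl rfl, by rw [abs_of_nonpos h]; ring⟩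
  · exact ⟨-1, Or.inr rfl, by rw [abs_of_pos h]; ring⟩

theorem mcm_in_box {r x s : ℝ} (hs : s = 1 ∨ s = -1) (hr : |2 * r - 7 / 4| ≤ 1 / 4)
    (h1 : -9 / 160 < x) (h2 : x ≤ 0) : circ r 0 (s * x) ∈ sbox '' Qb (9 / 8) := by
  refine mcm_mem_sbox (by linarith) ?_
  rw [abs_mul, mcm_abs_sign hs, abs_of_nonpos h2]
  norm_num
  linarith

theorem mcm_outer {τ s : ℝ} (h : τ ≤ -6 / 5) (hs : s = 1 ∨ s = -1) :
    dbl ma ta (s * τ) = dbl mb tb (s * τ) := by
  rw [mcm_half_a.dbl_mul (by linarith) hs, mcm_half_b.dbl_mul (by linarith) hs,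
    mcm_ma_out (by linarith), mcm_tb_out h]

theorem mcm_slide : SlideData (dbl mb tb) (dbl ma ta) (fun v => st (4 * (v - 1)) / 4)
    (fun v => 20 * mg (-v)) 0 (7 / 8) 1 (9 / 8) (5 / 4) where
  cap := mcm_cap
  far := fun τ' => by
    obtain ⟨τ, hτ, -, s, hs, rfl⟩ := mcm_cases τ'
    rw [mcm_half_b.dbl_mul hτ hs, rad_circ (mcm_half_b.pos τ hτ).le]
    linarith [mcm_mb_ge τ]
  in₀ := by
    ext x
    constructor
    · rintro ⟨⟨τ', -, rfl⟩, p, hp, e⟩
      obtain ⟨τ, hτ, -, s, hs, rfl⟩ := mcm_cases τ'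
      refine ⟨p, ⟨hp, ?_⟩, e⟩
      rw [mcm_half_b.dbl_mul hτ hs] at e
      obtain rfl := mcm_sbox_eq (mcm_half_b.pos τ hτ) (mcm_abs_half mcm_half_b hτ hs) hp e
      have h1 := mcm_near hs hp
      have h2 : -5 / 4 ≤ τ := le_of_not_gt fun h2 => by
        rw [mcm_tb_out (by linarith)] at h1
        linarith [mcm_ta_far h2.le]
      rw [mcm_mb_eq h2]
      exact ⟨by norm_num, by simp⟩
    · rintro ⟨p, ⟨hp, h0, h2⟩, rfl⟩
      refine ⟨?_, p, hp, rfl⟩
      obtain ⟨s, hs, e⟩ := mcm_sign (p 1 / 20)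
      have h1 : |p 1 / 20| < 9 / 160 := by
        have := hp 1
        rw [abs_div, abs_of_pos (by norm_num : (0 : ℝ) < 20)]
        linarith
      obtain ⟨τ, hτ, e1⟩ : -|p 1 / 20| ∈ tb '' Icc (-5 / 4) 0 := by
        refine intermediate_value_Icc (by norm_num) mcm_tb_contDiff.continuous.continuousOn ⟨?_, ?_⟩
        · rw [mcm_tb_out (by norm_num)]
          linarith [mcm_ta_far (τ := -5 / 4) le_rfl]
        · rw [mcm_tb_in (by norm_num)]
          linarith [abs_nonneg (p 1 / 20)]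
      refine ⟨s * τ, mcm_mem_Icc hτ.2 (by linarith [hτ.1]) hs, ?_⟩
      rw [mcm_half_b.dbl_mul hτ.2 hs, mcm_mb_eq hτ.1, e1, ← e, sbox, h0, h2]
      norm_num
  in₁ := by
    ext x
    constructor
    · rintro ⟨⟨τ', -, rfl⟩, p, hp, e⟩
      obtain ⟨τ, hτ, -, s, hs, rfl⟩ := mcm_cases τ'
      refine ⟨p, ⟨?_, hp⟩, e⟩
      rw [mcm_half_a.dbl_mul hτ hs] at e
      obtain rfl := mcm_sbox_eq (mcm_half_a.pos τ hτ) (mcm_abs_half mcm_half_a hτ hs) hp e
      have h1 := mcm_near hs hp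
      have h2 : -5 / 4 ≤ τ := le_of_not_gt fun h2 => by linarith [mcm_ta_far h2.le]
      have h3 : -τ ∈ Icc (0 : ℝ) (5 / 4) := ⟨by linarith, by linarith⟩
      rw [mcm_ma_hx h2, mcm_ta_eq h2]
      rcases hs with rfl | rfl
      · exact Or.inl ⟨-τ, h3, by simp⟩
      · exact Or.inr ⟨-τ, h3, by simp⟩
    · rintro ⟨p, ⟨hc, hp⟩, rfl⟩
      refine ⟨?_, p, hp, rfl⟩
      have key : ∀ s : ℝ, s = 1 ∨ s = -1 → ∀ v ∈ Icc (0 : ℝ) (5 / 4),
          sbox !₂[st (4 * (v - 1)) / 4, 20 * (s * mg (-v)), 0] ∈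
            dbl ma ta '' Icc (-3 / 2) (3 / 2) := by
        intro s hs v hv
        have h1 : -v ≤ 0 := by linarith [hv.1]
        have h2 : -5 / 4 ≤ -v := by linarith [hv.2]
        refine ⟨s * -v, mcm_mem_Icc h1 (by linarith) hs, ?_⟩
        rw [mcm_half_a.dbl_mul h1 hs, ← mcm_sbox_mk, mcm_ma_hx h2, mcm_ta_eq h2, neg_neg]
      rcases hc with ⟨v, hv, rfl⟩ | ⟨v, hv, rfl⟩
      · simpa using key 1 (Or.inl rfl) v hv
      · simpa using key (-1) (Or.inr rfl) v hv
  out := by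
    ext x
    constructor
    · rintro ⟨⟨τ', hτ', rfl⟩, hn⟩
      refine ⟨?_, hn⟩
      obtain ⟨τ, hτ, -, s, hs, rfl⟩ := mcm_cases τ'
      rcases le_or_gt τ (-6 / 5) with h1 | h1
      · exact Or.inl ⟨s * τ, hτ', (mcm_outer h1 hs).symm⟩
      rw [mcm_half_a.dbl_mul hτ hs] at hn ⊢
      rcases le_or_gt (-7 / 8) τ with h2 | h2
      · exact Or.inr ⟨s * ta τ, by rw [mcm_ma_in h2]⟩
      refine (hn (mcm_in_box hs ?_ ?_ (mcm_half_a.le_theta hτ).2)).elim
      · rw [mcm_ma_hx (by linarith), abs_div, abs_of_pos (by norm_num : (0 : ℝ) < 4)]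
        linarith [abs_st_le (4 * (-τ - 1))]
      · rw [mcm_ta_eq (by linarith)]
        exact mcm_mg_near h1.le h2.le
    · rintro ⟨⟨τ', hτ', rfl⟩ | ⟨t, rfl⟩, hn⟩
      · refine ⟨?_, hn⟩
        obtain ⟨τ, hτ, -, s, hs, rfl⟩ := mcm_cases τ'
        rcases le_or_gt τ (-6 / 5) with h1 | h1
        · exact ⟨s * τ, hτ', mcm_outer h1 hs⟩
        rw [mcm_half_b.dbl_mul hτ hs] at hn
        refine (hn (mcm_in_box hs ?_ ?_ (mcm_half_b.le_theta hτ).2)).elim
        · rw [mcm_mb_eq (by linarith)]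
          norm_num [abs_of_pos]
        · refine mcm_lt_blend (fun h2 => ?_) fun _ => by linarith
          rw [mcm_ta_eq (by linarith)]
          exact mcm_mg_near h1.le (by linarith)
      · refine ⟨?_, hn⟩
        obtain ⟨s, hs, e⟩ := mcm_sign (t - round t)
        have e0 : circ (3 / 4) 0 t = circ (3 / 4) 0 (s * -|t - round t|) := by
          rw [← e, ← mcm_circ_int _ _ (t - round t) (round t), sub_add_cancel]
        rw [e0] at hn ⊢
        have h1 : -|t - round t| ≤ -9 / 160 := le_of_not_gt fun h1 =>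
          hn (mcm_in_box hs (by norm_num [abs_of_pos]) h1 (neg_nonpos.2 (abs_nonneg _)))
        obtain ⟨τ, hτ, e1⟩ : -|t - round t| ∈ mg '' Icc (-7 / 8) 0 := by
          refine intermediate_value_Icc' (by norm_num) mcm_mg_contDiff.continuous.continuousOn
            ⟨?_, ?_⟩
          · have h2 : mg 0 = -1 / 2 := by norm_num [mg]
            linarith [abs_sub_round t]
          · linarith [mcm_mg_near (τ := -7 / 8) (by norm_num) le_rfl]
        refine ⟨s * τ, mcm_mem_Icc hτ.2 (by linarith [hτ.1]) hs, ?_⟩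
        rw [mcm_half_a.dbl_mul hτ.2 hs, mcm_ma_in hτ.1, mcm_ta_eq (by linarith [hτ.1]), e1]

theorem exists_modelOK : ∃ n, ModelOK n := by
  have h0 := deriv_st_pos (t := 0) (by norm_num)
  refine ⟨_, mcm_side_p, _, _, _, _, _, _, _, _, _, _, mcm_side_m,
    mcm_half_p.mdlIso mcm_half_b (fun _ => mcm_deriv_mr) ?_,
    mcm_half_m.mdlIso mcm_half_a (fun _ => mcm_deriv_mr) ?_, mcm_slide⟩
  · rw [((mcm_deriv_st 0).div_const 4).deriv]
    exact mul_pos (by positivity) (mcm_deriv_tb (by norm_num))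
  · rw [mcm_deriv_m, mcm_deriv_ta (by norm_num)]
    exact mul_pos_of_neg_of_neg (by linarith) (by norm_num)

end Pool.Agent.P.MP_ac4909_gt.B
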