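import Pool.Agent.P.MP_ac4909_gt.B.MCross_Fix
import Pool.Agent.P.MP_ac4909_gt.B.MCross_Model

/-! Removal of one intersection point with the graph from a family of links. -/

namespace Pool.Agent.P.MP_ac4909_gt.B

open scoped Manifold ContDiff
open Set Filter Topology

/-- a smooth retraction of the parameter line into a neighbourhood -/
theorem mcs_phi {s₀ : ℝ} {U : Set ℝ} (hU : U ∈ 𝓝 s₀) :
    ∃ φ : ℝ → ℝ, ContDiff ℝ ∞ φ ∧ (∀ s, φ s ∈ U) ∧ ∀ᶠ s in 𝓝 s₀, φ s = s := by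
  obtain ⟨ε, hε, h⟩ := Metric.mem_nhds_iff.mp hU
  let f : ContDiffBump s₀ := ⟨ε / 2, ε, by positivity, by linarith⟩
  refine ⟨fun s => s₀ + f s * (s - s₀),
    contDiff_const.add (f.contDiff.mul (contDiff_id.sub contDiff_const)), fun s => h ?_, ?_⟩
  · rw [Metric.mem_ball, Real.dist_eq, add_sub_cancel_left, abs_mul, abs_of_nonneg f.nonneg]
    rcases lt_or_ge (dist s s₀) ε with h1 | h1
    · rw [Real.dist_eq] at h1
      exact (mul_le_of_le_one_left (abs_nonneg _) f.le_one).trans_lt h1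
    · rw [f.zero_of_le_dist h1, zero_mul]
      exact hε
  · filter_upwards [f.eventuallyEq_one] with s hs
    rw [hs, Pi.one_apply, one_mul, add_sub_cancel]

theorem mcs_box {s₀ t₀ : ℝ} {P : ℝ × ℝ → Prop} (h : ∀ᶠ q in 𝓝 (s₀, t₀), P q) :
    ∃ d > 0, d ≤ 1 / 2 ∧ ∀ s t, |s - s₀| < d → t ∈ Ioo (t₀ - d) (t₀ + d) → P (s, t) := by
  obtain ⟨ε, hε, h⟩ := Metric.eventually_nhds_iff.mp h
  refine ⟨min ε (1 / 2), lt_min hε (by norm_num), min_le_right _ _, fun s t hs ht => h ?_⟩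
  have := min_le_left ε (1 / 2)
  rw [Prod.dist_eq, max_lt_iff, Real.dist_eq, Real.dist_eq]
  exact ⟨hs.trans_le this, abs_lt.mpr ⟨by linarith [ht.1], by linarith [ht.2]⟩⟩

theorem mcs_near {s₀ d : ℝ} (hd : 0 < d) : ∀ᶠ s in 𝓝 s₀, |s - s₀| < d := by
  filter_upwards [Metric.ball_mem_nhds s₀ hd] with s hs
  rwa [Metric.mem_ball, Real.dist_eq] at hs

theorem mcs_snd {γ : ℝ → ℝ → E3} {s t : ℝ}
    (h : ContDiffAt ℝ ∞ (fun q : ℝ × ℝ => γ q.1 q.2) (s, t)) : ContDiffAt ℝ ∞ (γ s) t :=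
  h.comp (f := fun u => (s, u)) t (contDiffAt_const.prodMk contDiffAt_id)

theorem mcs_fst {γ : ℝ → ℝ → E3} {s t : ℝ}
    (h : ContDiffAt ℝ ∞ (fun q : ℝ × ℝ => γ q.1 q.2) (s, t)) :
    ContinuousAt (fun u => γ u t 1) s :=
  (EuclideanSpace.proj (1 : Fin 3) : E3 →L[ℝ] ℝ).continuous.continuousAt.comp
    (h.comp (f := fun u => (u, t)) s (contDiffAt_id.prodMk contDiffAt_const)).continuousAt

/-- the open conditions of the normalisation -/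
theorem mcs_open {γ ν : ℝ → ℝ → E3} {s₀ t₀ : ℝ}
    (hγ : ContDiffAt ℝ ∞ (fun q : ℝ × ℝ => γ q.1 q.2) (s₀, t₀))
    (hν : ContDiffAt ℝ ∞ (fun q : ℝ × ℝ => ν q.1 q.2) (s₀, t₀)) (hy : 0 < deriv (γ s₀) t₀ 1)
    (hn : nrm (γ s₀) (ν s₀) t₀ ≠ 0) : ∀ᶠ q : ℝ × ℝ in 𝓝 (s₀, t₀), 0 < deriv (γ q.1) q.2 1 ∧
      0 < (nrm (γ q.1) (ν q.1) q.2 / nrm (γ s₀) (ν s₀) t₀).re := by
  have c1 : ContinuousAt (fun q : ℝ × ℝ => deriv (γ q.1) q.2 1) (s₀, t₀) :=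
    (EuclideanSpace.proj (1 : Fin 3) : E3 →L[ℝ] ℝ).continuous.continuousAt.comp
      (contDiffAt_deriv_snd hγ).continuousAt
  have c2 : ContinuousAt
      (fun q : ℝ × ℝ => (nrm (γ q.1) (ν q.1) q.2 / nrm (γ s₀) (ν s₀) t₀).re) (s₀, t₀) :=
    Complex.continuous_re.continuousAt.comp
      ((contDiffAt_nrm hγ hν hy.ne').continuousAt.div_const _)
  refine (continuousAt_const.eventually_lt c1 hy).and (continuousAt_const.eventually_lt c2 ?_)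
  simp only [div_self hn, Complex.one_re, zero_lt_one]

/-- the constants of the normalisation -/
theorem mcs_cst {γ ν : ℝ → ℝ → E3} {s₀ t₀ d r z : ℝ} {n₀ : ℂ} (hd : 0 < d) (hd1 : d ≤ 1 / 2)
    (hr : 0 < r) (hD : Metric.ball (!₂[0, 0, z] : E3) r ⊆ Dom) (h0 : γ s₀ t₀ = !₂[0, 0, z])
    (hn : n₀ ≠ 0) (h : ∀ s t, |s - s₀| < d → t ∈ Ioo (t₀ - d) (t₀ + d) →
      (ContDiffAt ℝ ∞ (fun q : ℝ × ℝ => γ q.1 q.2) (s, t) ∧
        ContDiffAt ℝ ∞ (fun q : ℝ × ℝ => ν q.1 q.2) (s, t) ∧ γ s t ∈ Dom) ∧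
      0 < deriv (γ s) t 1 ∧ 0 < (nrm (γ s) (ν s) t / n₀).re) :
    ∃ C : Cst, C.OK ∧ C.a = t₀ - d ∧ C.b = t₀ + d ∧ C.ball = Metric.ball !₂[0, 0, z] r ∧
      ∀ᶠ s in 𝓝 s₀, C.Good (γ s) (ν s) := by
  have hs₀ : |s₀ - s₀| < d := by rwa [sub_self, abs_zero]
  have ht₀ : t₀ ∈ Ioo (t₀ - d) (t₀ + d) := ⟨by linarith, by linarith⟩
  obtain ⟨d', hd', -, hb⟩ := mcs_box (P := fun q => γ q.1 q.2 ∈ Metric.ball (!₂[0, 0, z] : E3) r)
    ((h s₀ t₀ hs₀ ht₀).1.1.continuousAt.preimage_mem_nhds (h0 ▸ Metric.ball_mem_nhds _ hr))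
  obtain ⟨δ, hδ, δ1, δ2⟩ : ∃ δ > 0, 4 * δ ≤ d ∧ 4 * δ ≤ d' :=
    ⟨min d d' / 4, by positivity, by linarith [min_le_left d d'], by linarith [min_le_right d d']⟩
  have hder : ∀ t ∈ Ioo (t₀ - d) (t₀ + d),
      HasDerivAt (fun u => γ s₀ u 1) (deriv (γ s₀) t 1) t := fun t ht =>
    (EuclideanSpace.proj (1 : Fin 3) : E3 →L[ℝ] ℝ).hasFDerivAt.comp_hasDerivAt t
      ((mcs_snd (h s₀ t hs₀ ht).1.1).differentiableAt (by simp)).hasDerivAt
  have hmono : StrictMonoOn (fun u => γ s₀ u 1) (Ioo (t₀ - d) (t₀ + d)) :=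
    strictMonoOn_of_deriv_pos (convex_Ioo _ _)
      (fun t ht => (hder t ht).continuousAt.continuousWithinAt) fun t ht => by
        rw [interior_Ioo] at ht
        rw [(hder t ht).deriv]
        exact (h s₀ t hs₀ ht).2.1
  have ha : t₀ - δ ∈ Ioo (t₀ - d) (t₀ + d) := ⟨by linarith, by linarith⟩
  have hb' : t₀ + δ ∈ Ioo (t₀ - d) (t₀ + d) := ⟨by linarith, by linarith⟩
  have y0 : γ s₀ t₀ 1 = 0 := by rw [h0]; rfl
  have y1 : γ s₀ (t₀ - δ) 1 < 0 := y0 ▸ hmono ha ht₀ (by linarith)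
  have y2 : 0 < γ s₀ (t₀ + δ) 1 := y0 ▸ hmono ht₀ hb' (by linarith)
  obtain ⟨η, hη, η1, η2, η3⟩ : ∃ η > 0, 4 * η ≤ r ∧ 3 * η ≤ -γ s₀ (t₀ - δ) 1 ∧
      3 * η ≤ γ s₀ (t₀ + δ) 1 := by
    refine ⟨min (r / 4) (min (-γ s₀ (t₀ - δ) 1 / 3) (γ s₀ (t₀ + δ) 1 / 3)),
      lt_min (by positivity) (lt_min (by linarith) (by linarith)), ?_, ?_, ?_⟩
    · linarith [min_le_left (r / 4) (min (-γ s₀ (t₀ - δ) 1 / 3) (γ s₀ (t₀ + δ) 1 / 3))]
    · linarith [(min_le_right (r / 4) _).trans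
        (min_le_left (-γ s₀ (t₀ - δ) 1 / 3) (γ s₀ (t₀ + δ) 1 / 3))]
    · linarith [(min_le_right (r / 4) _).trans
        (min_le_right (-γ s₀ (t₀ - δ) 1 / 3) (γ s₀ (t₀ + δ) 1 / 3))]
  let fo : ContDiffBump t₀ := ⟨2 * δ, 3 * δ, by positivity, by linarith⟩
  let fi : ContDiffBump t₀ := ⟨δ, 2 * δ, hδ, by linarith⟩
  have z0 : ∀ (f : ContDiffBump t₀) t, t ∉ Icc (t₀ - f.rOut) (t₀ + f.rOut) → f t = 0 :=
    fun f t ht => f.zero_of_le_dist (not_lt.mp fun h' =>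
      ht (Real.closedBall_eq_Icc ▸ Metric.ball_subset_closedBall h'))
  have z1 : ∀ (f : ContDiffBump t₀), ∀ t ∈ Icc (t₀ - f.rIn) (t₀ + f.rIn), f t = 1 :=
    fun f t ht => f.one_of_mem_closedBall (Real.closedBall_eq_Icc ▸ ht)
  have η0 : (η : ℂ) ≠ 0 := Complex.ofReal_ne_zero.mpr hη.ne'
  refine ⟨⟨z, η, r, t₀ - d, t₀ - 3 * δ, t₀ - 2 * δ, t₀ - δ, t₀ + δ, t₀ + 2 * δ, t₀ + 3 * δ, t₀ + d,
    fo, fi, n₀, Complex.log (n₀ / η)⟩, ⟨hη, ?_, hD, ?_, ?_, ?_, ?_, ?_, ?_, ?_, ?_, fo.contDiff,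
    fi.contDiff, fun t => ⟨fo.nonneg, fo.le_one⟩, fun t => ⟨fi.nonneg, fi.le_one⟩, z0 fo, z1 fo,
    z0 fi, z1 fi, ?_⟩, rfl, rfl, rfl, ?_⟩
  iterate 9 (dsimp only; linarith)
  · dsimp only
    rw [Complex.exp_log (div_ne_zero hn η0), mul_div_cancel₀ _ η0]
  · filter_upwards [mcs_near hd, mcs_near hd',
      (mcs_fst (h s₀ _ hs₀ ha).1.1).eventually_lt (continuousAt_const (y := -(2 * η)))
        (by linarith),
      (continuousAt_const (y := 2 * η)).eventually_lt (mcs_fst (h s₀ _ hs₀ hb').1.1)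
        (by linarith)] with s h1 h2 h3 h4
    exact ⟨fun t ht => (mcs_snd (h s t h1 ht).1.1).contDiffWithinAt,
      fun t ht => (mcs_snd (h s t h1 ht).1.2.1).contDiffWithinAt, fun t ht => (h s t h1 ht).2.1,
      fun t ht => (h s t h1 ht).2.2, fun t ht => (h s t h1 ht).1.2.2,
      fun t ht => hb s t h2 ⟨by linarith [ht.1], by linarith [ht.2]⟩, h3, h4⟩

variable {M : Type*} [TopologicalSpace M] [T2Space M] [ChartedSpace E3 M]
  [IsManifold (𝓡 3) ∞ M] {ι Vx : Type} [Fintype ι] [DecidableEq ι] [Fintype Vx]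

omit [T2Space M] in
theorem mcs_cont {A : Set M} {κ : Type} {G : ℝ → κ → ℝ → TM M} (hG : Fam A G) (c : κ) :
    Continuous fun q : ℝ × ℝ => (G q.1 c q.2).proj :=
  continuous_iff_continuousAt.mpr fun q => (contMDiffAt_proj (hG.smooth c q)).continuousAt

/-- the rest of the links stays away from the point -/
theorem mcs_rest {A : Set M} {κ : Type} [Fintype κ] {G : ℝ → κ → ℝ → TM M} (hG : Fam A G)
    {s₀ t₀ a b : ℝ} {c₀ : κ} (ht : t₀ ∈ Ioo a b) (hab : b ≤ a + 1) :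
    ∃ V ∈ 𝓝 (G s₀ c₀ t₀).proj, ∀ᶠ s in 𝓝 s₀, Disjoint (base (rest (G s) c₀ a b)) V := by
  have key : ∀ c, ∀ᶠ y : M × ℝ in 𝓝 ((G s₀ c₀ t₀).proj, s₀),
      ∀ t ∈ Icc a (a + 1) \ {u | c = c₀ ∧ u ∈ Ioo a b}, (G y.2 c t).proj ≠ y.1 := by
    intro c
    have ho : IsOpen {u : ℝ | c = c₀ ∧ u ∈ Ioo a b} := isOpen_const.inter isOpen_Ioo
    refine (isCompact_Icc.diff ho).eventually_forall_of_forall_eventually
      (P := fun (y : M × ℝ) t => (G y.2 c t).proj ≠ y.1) fun t ht' => ?_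
    have c1 : Continuous fun z : (M × ℝ) × ℝ => (G z.1.2 c z.2).proj :=
      (mcs_cont hG c).comp (continuous_fst.snd.prodMk continuous_snd)
    refine (isOpen_ne_fun c1 continuous_fst.fst).mem_nhds fun e => ?_
    obtain ⟨e1, k, hk⟩ := (hG.link s₀).inj _ _ _ _ e
    have k1 : (-1 : ℝ) < k := by linarith [ht.1, ht'.1.2]
    have k2 : (k : ℝ) < 1 := by linarith [ht.2, ht'.1.1]
    have k3 : -1 < k := by exact_mod_cast k1
    have k4 : k < 1 := by exact_mod_cast k2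
    obtain rfl : k = 0 := by omega
    rw [Int.cast_zero, add_zero] at hk
    exact ht'.2 ⟨e1, (show t₀ = t from hk) ▸ ht⟩
  obtain ⟨V, hV, U, hU, h⟩ := mem_nhds_prod_iff.mp (eventually_all.mpr key)
  refine ⟨V, hV, mem_of_superset hU fun s hs => disjoint_left.mpr ?_⟩
  rintro _ ⟨_, ⟨c, t, hc, rfl⟩, rfl⟩ hx
  refine h (mk_mem_prod hx hs) c (t + (-⌊t - a⌋ : ℤ)) ⟨⟨?_, ?_⟩, fun h' => ?_⟩ ?_
  · have := Int.floor_le (t - a)
    push_cast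
    linarith
  · have := Int.lt_floor_add_one (t - a)
    push_cast
    linarith
  · exact hc.elim (fun h'' => h'' h'.1) fun h'' => h'' _ h'.2
  · rw [(hG.link s).per_int]

omit [T2Space M] in
/-- a framed curve read in a chart -/
theorem mcs_indep {e : OpenPartialHomeomorph E3 M} (he : IsPChart e) {κ : Type}
    {Γ : κ → ℝ → TM M} (h : IsLink Γ) {c : κ} {t : ℝ} (hx : (Γ c t).proj ∈ e.target) :
    LinearIndependent ℝ ![deriv (fun u => e.symm (Γ c u).proj) t,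
      jac e.symm (Γ c t).proj (Γ c t).snd] := by
  have h1 : MDifferentiableAt (𝓡 3) (𝓡 3) e.symm (Γ c t).proj :=
    (he.smooth_symm.contMDiffAt (e.open_target.mem_nhds hx)).mdifferentiableAt (by simp)
  have h2 : MDifferentiableAt 𝓘(ℝ, ℝ) (𝓡 3) (fun u => (Γ c u).proj) t :=
    (contMDiffAt_proj (h.smooth c t)).mdifferentiableAt (by simp)
  rw [← vel_eq_deriv, vel_comp (γ := fun u => (Γ c u).proj) h1 h2]
  refine indep_map (Function.LeftInverse.injective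
    (g := jac e (e.symm (Γ c t).proj)) fun v => ?_) (h.indep c t)
  exact congrArg (fun x : TM M => (x.snd : E3)) (he.pushT_symm (x := ⟨(Γ c t).proj, v⟩) hx)

omit [Fintype ι] [DecidableEq ι] [Fintype Vx] in
/-- the constants for a family that meets the axis -/
theorem mcs_data (H : HD M ι Vx) {F : Set M} (hF : IsClosed F) {κ : Type} [Fintype κ]
    {G : ℝ → κ → ℝ → TM M} (hG : Fam Fᶜ G) {s₀ : ℝ} {c₀ : κ} {t₀ : ℝ} {e : ι}
    (hx : (G s₀ c₀ t₀).proj ∈ H.ce e '' axis)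
    (hy : 0 < deriv (fun u => (H.ce e).symm (G s₀ c₀ u).proj) t₀ 1) :
    ∃ C : Cst, C.OK ∧ t₀ ∈ Ioo C.a C.b ∧ Disjoint F (H.ce e '' C.ball) ∧ ∀ᶠ s in 𝓝 s₀,
      C.Good (fun t => (H.ce e).symm (G s c₀ t).proj)
        (fun t => jac (H.ce e).symm (G s c₀ t).proj (G s c₀ t).snd) ∧
      (∀ t ∈ Ioo C.a C.b, (G s c₀ t).proj ∈ (H.ce e).target) ∧
      Disjoint (base (rest (G s) c₀ C.a C.b)) (H.ce e '' C.ball) := by
  obtain ⟨p, hp, hpx⟩ := hx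
  have hpD : p ∈ (H.ce e).source := H.ce_source e ▸ axis_subset_Dom hp
  have hx : (G s₀ c₀ t₀).proj ∈ (H.ce e).target := hpx ▸ (H.ce e).map_source hpD
  have hsm := fun (q : ℝ × ℝ) (hq : (G q.1 c₀ q.2).proj ∈ (H.ce e).target) =>
    contDiffAt_pull (Γ := fun q : ℝ × ℝ => G q.1 c₀ q.2)
      ((H.ce_chart e).smooth_symm.contMDiffAt ((H.ce e).open_target.mem_nhds hq)) (hG.smooth c₀ q)
  have hn := nrm_ne_zero (ν := fun t => jac (H.ce e).symm (G s₀ c₀ t).proj (G s₀ c₀ t).snd) hy.ne'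
    (mcs_indep (H.ce_chart e) (hG.link s₀) hx)
  have h1 : ∀ᶠ q : ℝ × ℝ in 𝓝 (s₀, t₀), (G q.1 c₀ q.2).proj ∈ (H.ce e).target :=
    (mcs_cont hG c₀).continuousAt.preimage_mem_nhds ((H.ce e).open_target.mem_nhds hx)
  obtain ⟨d, hd, hd1, h⟩ := mcs_box (h1.and (mcs_open
    (γ := fun s t => (H.ce e).symm (G s c₀ t).proj)
    (ν := fun s t => jac (H.ce e).symm (G s c₀ t).proj (G s c₀ t).snd)
    (hsm _ hx).1 (hsm _ hx).2 hy hn))
  have ht₀ : t₀ ∈ Ioo (t₀ - d) (t₀ + d) := ⟨by linarith, by linarith⟩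
  obtain ⟨V, hV, hrest⟩ := mcs_rest hG (s₀ := s₀) (c₀ := c₀) ht₀ (by linarith)
  have hW : Dom ∩ H.ce e ⁻¹' (V ∩ Fᶜ) ∈ 𝓝 p :=
    inter_mem (isOpen_Dom.mem_nhds (axis_subset_Dom hp))
      (((H.ce e).continuousAt hpD).preimage_mem_nhds
        (hpx ▸ inter_mem hV (hF.isOpen_compl.mem_nhds (hG.mem s₀ c₀ t₀))))
  obtain ⟨r, hr, hball⟩ := Metric.mem_nhds_iff.mp hW
  have hpz : p = !₂[0, 0, p 2] := MHd_ext hp.1 hp.2 rfl
  rw [hpz] at hball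
  obtain ⟨C, hC, ha, hb, hB, hg⟩ := mcs_cst (γ := fun s t => (H.ce e).symm (G s c₀ t).proj)
    (ν := fun s t => jac (H.ce e).symm (G s c₀ t).proj (G s c₀ t).snd) (s₀ := s₀) (t₀ := t₀)
    hd hd1 hr (hball.trans inter_subset_left)
    (by rw [← hpz]; simp only [← hpx, (H.ce e).left_inv hpD]) hn fun s t hs ht =>
      ⟨⟨(hsm (s, t) (h s t hs ht).1).1, (hsm (s, t) (h s t hs ht).1).2,
        H.ce_source e ▸ (H.ce e).map_target (h s t hs ht).1⟩, (h s t hs ht).2⟩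
  have him : H.ce e '' C.ball ⊆ V ∩ Fᶜ := by
    rw [hB, image_subset_iff]
    exact hball.trans inter_subset_right
  refine ⟨C, hC, ha ▸ hb ▸ ht₀, disjoint_compl_right.mono_right (him.trans inter_subset_right), ?_⟩
  filter_upwards [hg, mcs_near hd, hrest] with s g1 g2 g3
  rw [ha, hb]
  exact ⟨g1, fun t ht => (h s t g2 ht).1, g3.mono_right (him.trans inter_subset_left)⟩

theorem HD.step (H : HD M ι Vx) {E : EvSys ι (ℕ × (ι → ℕ))} (hE : AFacts E) {F : Set M}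
    (hF : IsClosed F) {κ : Type} [Fintype κ] {G : ℝ → κ → ℝ → TM M} (hG : Fam Fᶜ G) {s₀ : ℝ}
    {c₀ : κ} {t₀ : ℝ} {e : ι} (hx : (G s₀ c₀ t₀).proj ∈ H.ce e '' axis)
    (hy : 0 < deriv (fun u => (H.ce e).symm (G s₀ c₀ u).proj) t₀ 1) :
    ∃ G' : ℝ → κ → ℝ → TM M, Fam Fᶜ G' ∧
      (∀ c t, (G' s₀ c t).proj ∈ H.gs →
        G' s₀ c =ᶠ[𝓝 t] G s₀ c ∧ (G s₀ c t).proj ≠ (G s₀ c₀ t₀).proj) ∧
      ∀ᶠ s in 𝓝 s₀, Disjoint (base (trace (G s))) H.gs →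
        Disjoint (base (trace (G' s))) H.gs ∧
          H.ThinEq E F (trace (G s)) (trace (G' s)) := by
  obtain ⟨C, hC, ht₀, hFB, hev⟩ := mcs_data H hF hG hx hy
  obtain ⟨φ, hφ, hU, hid⟩ := mcs_phi hev
  obtain ⟨n, hn⟩ := exists_modelOK
  set γ : ℝ → ℝ → E3 := fun s t => (H.ce e).symm (G s c₀ t).proj with hγ
  set ν : ℝ → ℝ → E3 := fun s t => jac (H.ce e).symm (G s c₀ t).proj (G s c₀ t).snd with hν
  have hgood : ∀ s, C.Good (γ (φ s)) (ν (φ s)) := fun s => (hU s).1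
  have hadm := fun s => (hgood s).adm_pos hC hn.1.mdl
  have hpush : ∀ s, ∀ t ∈ Ioo C.a C.b,
      pushT (H.ce e) (γ (φ s) t) (ν (φ s) t) = G (φ s) c₀ t := fun s t ht =>
    (H.ce_chart e).pushT_symm ((hU s).2.1 t ht)
  have hsm := fun (q : ℝ × ℝ) (hq : q ∈ univ ×ˢ Ioo C.a C.b) =>
    contDiffAt_pull (Γ := fun q : ℝ × ℝ => G (φ q.1) c₀ q.2)
      ((H.ce_chart e).smooth_symm.contMDiffAt
        ((H.ce e).open_target.mem_nhds ((hU q.1).2.1 q.2 hq.2))) ((hG.comp hφ).smooth c₀ q)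
  have s1 : ContDiffOn ℝ ∞ (fun q : ℝ × ℝ => γ (φ q.1) q.2) (univ ×ˢ Ioo C.a C.b) :=
    fun q hq => (hsm q hq).1.contDiffWithinAt
  have s2 : ContDiffOn ℝ ∞ (fun q : ℝ × ℝ => ν (φ q.1) q.2) (univ ×ˢ Ioo C.a C.b) :=
    fun q hq => (hsm q hq).2.contDiffWithinAt
  have hm : ∀ s, ∀ t ∈ Ioo C.a C.b,
      C.pos n (γ (φ s)) t ∈ Dom ∧ H.ce e (C.pos n (γ (φ s)) t) ∈ Fᶜ := fun s t ht => by
    by_cases h : t ∈ Icc C.a₁ C.b₁
    · exact ⟨hC.dom ((hadm s).ball t h),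
        disjoint_right.mp hFB (mem_image_of_mem _ ((hadm s).ball t h))⟩
    · rw [((hadm s).eq t ht h).1]
      refine ⟨(hgood s).dom t ht, ?_⟩
      rw [hγ]
      simp only [(H.ce e).right_inv ((hU s).2.1 t ht)]
      exact hG.mem _ _ _
  obtain ⟨G', hG', e1, e2, e3⟩ := (hG.comp hφ).patch isOpen_Dom
    (H.ce_source e ▸ (H.ce_chart e).mPosOn) c₀ hC.lt₀ hC.lt₆ hC.len
    (γ := fun s => C.pos n (γ (φ s))) (ν := fun s => C.fr 1 (γ (φ s)) (ν (φ s)))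
    (hC.smooth_pos (m := fun _ => n) (γ := fun s => γ (φ s))
      (hn.1.mdl.smooth.comp contDiff_snd) s1)
    (hC.smooth_fr (u := fun _ => 1) (γ := fun s => γ (φ s)) (ν := fun s => ν (φ s))
      contDiff_const s1 s2 fun s => (hgood s).mono) hm
    (fun s t ht h => by
      rw [((hadm s).eq t ht h).1, ((hadm s).eq t ht h).2]
      exact hpush s t ht)
    (fun s => (hadm s).inj) (fun s => (hadm s).ind)
    fun s t ht h => disjoint_left.mp (hU s).2.2 h (mem_image_of_mem _ ((hadm s).ball t ht))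
  have hout : ∀ s c t, (G' s c t).proj ∈ H.gs → c ≠ c₀ ∨ ∀ k : ℤ, t + (k : ℝ) ∉ Ioo C.a C.b := by
    intro s c t hg
    refine or_iff_not_imp_left.mpr fun hc k hk => ?_
    rw [not_not.mp hc, ← (hG'.link s).per_int c₀ t k, e1 s _ hk] at hg
    exact (hadm s).off _ hk ((H.ce_mem_gs (hm s _ hk).1).mp hg)
  have hsub : Icc C.a₁ C.b₁ ⊆ Ioo C.a C.b := Icc_subset_Ioo hC.lt₀ hC.lt₆
  refine ⟨G', hG', fun c t hg => ⟨?_, fun h => ?_⟩, ?_⟩
  · have hδ : 0 < min (C.a₁ - C.a) (C.b - C.b₁) :=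
      lt_min (sub_pos.mpr hC.lt₀) (sub_pos.mpr hC.lt₆)
    filter_upwards [mcs_near (s₀ := t) hδ] with u hu
    obtain ⟨u1, u2⟩ := lt_min_iff.mp hu
    rw [e2 s₀ c u ((hout s₀ c t hg).imp id fun h k hk => h k
      ⟨by linarith [hk.1, (abs_lt.mp u1).2], by linarith [hk.2, (abs_lt.mp u2).1]⟩),
      hid.self_of_nhds]
  · obtain ⟨h1, k, hk⟩ := (hG.link s₀).inj _ _ _ _ h
    exact (hout s₀ c t hg).elim (fun h' => h' h1) fun h' => h' k (hk ▸ ht₀)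
  · filter_upwards [hid] with s hs hdj
    have g1 := hgood s
    have g2 := hpush s
    have g3 := (hU s).2.2
    have g4 := e1 s
    have g5 := e3 s
    have g6 := e2 s
    simp only [hs] at g1 g2 g3 g4 g5 g6
    refine ⟨disjoint_left.mpr ?_, ?_⟩
    · rintro _ ⟨x, hx', rfl⟩ hg
      obtain ⟨c, t, rfl⟩ := mem_iUnion.mp hx'
      have := g6 c t ((hout s c t hg).imp id fun h k hk => h k (hsub hk))
      exact disjoint_left.mp hdj ⟨G s c t, mem_iUnion.mpr ⟨c, t, rfl⟩, rfl⟩ (this ▸ hg)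
    · have t1 := (hG.link s).trace_eq fun t ht => (g2 t ht).symm
      rw [(hG'.link s).trace_eq g4, g5, t1]
      refine H.fix hE hC g1 ⟨κ, inferInstance, G s, c₀, hG.link s, hC.len,
        fun t ht => (g2 t ht).symm, rfl⟩ g3 hFB ?_ hn
      rw [← t1]
      rintro _ ⟨x, hx', rfl⟩
      refine ⟨?_, disjoint_left.mp hdj ⟨x, hx', rfl⟩⟩
      obtain ⟨c, t, rfl⟩ := mem_iUnion.mp hx'
      exact hG.mem s c t

end Pool.Agent.P.MP_ac4909_gt.B
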