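import Pool.Agent.P.MP_ac4909_gt.B.MCross_Box

/-! Plane curves that are symmetric in the `x`-axis, given in polar coordinates. -/

namespace Pool.Agent.P.MP_ac4909_gt.B

open scoped Manifold ContDiff
open Set Filter Topology

/-- polar coordinates of the lower half of a symmetric model curve -/
structure Half (k : ℤ) (ρ θ : ℝ → ℝ) : Prop where
  sρ : ContDiff ℝ ∞ ρ
  sθ : ContDiff ℝ ∞ θ
  evρ : ∀ τ, |τ| < 1 / 2 → ρ (-τ) = ρ τ
  odθ : ∀ τ, |τ| < 1 / 2 → θ (-τ) = k - θ τ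
  outρ : ∀ τ ≤ -3 / 2, ρ τ = -τ
  outθ : ∀ τ ≤ -3 / 2, θ τ = -1 / 4
  pos : ∀ τ ≤ 0, 0 < ρ τ
  low : ∀ τ < 0, -1 / 2 < θ τ ∧ θ τ < 0
  anti : ∀ τ < 0, deriv ρ τ ≤ 0
  imm : ∀ τ < 0, deriv ρ τ = 0 → deriv θ τ ≠ 0
  zero : deriv θ 0 ≠ 0

/-- the symmetric curve -/
noncomputable def dbl (ρ θ : ℝ → ℝ) (τ : ℝ) : E3 :=
  if τ ≤ 0 then circ (ρ τ) 0 (θ τ) else circ (ρ (-τ)) 0 (-θ (-τ))

theorem mcm_circ_int (r h t : ℝ) (k : ℤ) : circ r h (t + k) = circ r h t := by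
  have e : 2 * Real.pi * (t + k) = 2 * Real.pi * t + k * (2 * Real.pi) := by ring
  simp only [circ, e, Real.cos_add_int_mul_two_pi, Real.sin_add_int_mul_two_pi]

theorem mcm_contDiff_circ {X : Type*} [NormedAddCommGroup X] [NormedSpace ℝ X] {f g : X → ℝ}
    (hf : ContDiff ℝ ∞ f) (hg : ContDiff ℝ ∞ g) :
    ContDiff ℝ ∞ fun x => circ (f x) 0 (g x) := by
  refine contDiff_euclidean.2 fun i => ?_
  fin_cases i
  · simpa [circ] using hf.mul (contDiff_const.mul hg).cos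
  · simpa [circ] using hf.mul (contDiff_const.mul hg).sin
  · simpa [circ] using contDiff_const

theorem mcm_deriv_apply {f : ℝ → E3} {τ : ℝ} (hf : DifferentiableAt ℝ f τ) (i : Fin 3) :
    HasDerivAt (fun u => f u i) (deriv f τ i) τ :=
  (EuclideanSpace.proj (𝕜 := ℝ) i).hasFDerivAt.comp_hasDerivAt τ hf.hasDerivAt

theorem mcm_deriv_circ {f g : ℝ → ℝ} (hf : ContDiff ℝ ∞ f) (hg : ContDiff ℝ ∞ g) (τ : ℝ) :
    deriv (fun u => circ (f u) 0 (g u)) τ 0 = deriv f τ * Real.cos (2 * Real.pi * g τ) -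
        f τ * (Real.sin (2 * Real.pi * g τ) * (2 * Real.pi * deriv g τ)) ∧
      deriv (fun u => circ (f u) 0 (g u)) τ 1 = deriv f τ * Real.sin (2 * Real.pi * g τ) +
        f τ * (Real.cos (2 * Real.pi * g τ) * (2 * Real.pi * deriv g τ)) := by
  have hd : DifferentiableAt ℝ (fun u => circ (f u) 0 (g u)) τ :=
    (mcm_contDiff_circ hf hg).differentiable (by simp) τ
  have h1 := (hf.differentiable (by simp) τ).hasDerivAt
  have h2 := ((hg.differentiable (by simp) τ).hasDerivAt).const_mul (2 * Real.pi)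
  constructor
  · refine (mcm_deriv_apply hd 0).unique ?_
    refine (h1.fun_mul h2.cos).congr_deriv ?_
    ring
  · exact (mcm_deriv_apply hd 1).unique (h1.fun_mul h2.sin)

theorem mcm_deriv_ne {f g : ℝ → ℝ} (hf : ContDiff ℝ ∞ f) (hg : ContDiff ℝ ∞ g) {τ : ℝ}
    (h0 : f τ ≠ 0) (h : deriv f τ = 0 → deriv g τ ≠ 0) :
    deriv (fun u => circ (f u) 0 (g u)) τ ≠ 0 := by
  intro e
  obtain ⟨h1, h2⟩ := mcm_deriv_circ hf hg τ
  rw [e] at h1 h2
  simp only [PiLp.zero_apply] at h1 h2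
  have h3 := Real.sin_sq_add_cos_sq (2 * Real.pi * g τ)
  have h4 : deriv f τ = 0 := by
    linear_combination (-Real.cos (2 * Real.pi * g τ)) * h1 - Real.sin (2 * Real.pi * g τ) * h2 -
      deriv f τ * h3
  have h5 : f τ * (2 * Real.pi * deriv g τ) = 0 := by
    linear_combination Real.sin (2 * Real.pi * g τ) * h1 - Real.cos (2 * Real.pi * g τ) * h2 -
      f τ * (2 * Real.pi * deriv g τ) * h3
  exact mul_ne_zero h0 (mul_ne_zero (by positivity) (h h4)) h5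

theorem mcm_dbl_nonpos (ρ θ : ℝ → ℝ) {τ : ℝ} (h : τ ≤ 0) : dbl ρ θ τ = circ (ρ τ) 0 (θ τ) :=
  if_pos h

theorem mcm_dbl_pos (ρ θ : ℝ → ℝ) {τ : ℝ} (h : 0 < τ) :
    dbl ρ θ τ = circ (ρ (-τ)) 0 (-θ (-τ)) := if_neg h.not_ge

theorem mcm_dbl_lt {k : ℤ} {ρ θ : ℝ → ℝ} (h1 : ∀ τ, |τ| < 1 / 2 → ρ (-τ) = ρ τ)
    (h2 : ∀ τ, |τ| < 1 / 2 → θ (-τ) = k - θ τ) {τ : ℝ} (h : τ < 1 / 2) :
    dbl ρ θ τ = circ (ρ τ) 0 (θ τ) := by
  rcases le_or_gt τ 0 with h0 | h0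
  · exact mcm_dbl_nonpos ρ θ h0
  · have ha : |τ| < 1 / 2 := by rwa [abs_of_pos h0]
    rw [mcm_dbl_pos ρ θ h0, h1 τ ha, h2 τ ha, ← mcm_circ_int _ _ (-(k - θ τ)) k]
    congr 1
    ring

theorem mcm_contDiff_dbl {k : ℤ} {ρ θ : ℝ → ℝ → ℝ}
    (hρ : ContDiff ℝ ∞ fun q : ℝ × ℝ => ρ q.1 q.2) (hθ : ContDiff ℝ ∞ fun q : ℝ × ℝ => θ q.1 q.2)
    (h1 : ∀ u τ, |τ| < 1 / 2 → ρ u (-τ) = ρ u τ)
    (h2 : ∀ u τ, |τ| < 1 / 2 → θ u (-τ) = k - θ u τ) :
    ContDiff ℝ ∞ fun q : ℝ × ℝ => dbl (ρ q.1) (θ q.1) q.2 := by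
  have hn : ContDiff ℝ ∞ fun q : ℝ × ℝ => (q.1, -q.2) := contDiff_fst.prodMk contDiff_snd.neg
  refine contDiff_iff_contDiffAt.2 fun q => ?_
  rcases lt_or_ge q.2 (1 / 2) with h | h
  · refine (mcm_contDiff_circ hρ hθ).contDiffAt.congr_of_eventuallyEq ?_
    filter_upwards [(isOpen_lt continuous_snd continuous_const).mem_nhds h] with p hp
    exact mcm_dbl_lt (h1 p.1) (h2 p.1) hp
  · refine (mcm_contDiff_circ (hρ.comp hn) (hθ.comp hn).neg).contDiffAt.congr_of_eventuallyEq ?_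
    have h0 : 0 < q.2 := by linarith
    filter_upwards [(isOpen_lt continuous_const continuous_snd).mem_nhds h0] with p hp
    exact mcm_dbl_pos _ _ hp

theorem mcm_cases (τ' : ℝ) : ∃ τ ≤ 0, |τ'| = -τ ∧ ∃ s : ℝ, (s = 1 ∨ s = -1) ∧ τ' = s * τ := by
  rcases le_or_gt τ' 0 with h | h
  · exact ⟨τ', h, abs_of_nonpos h, 1, Or.inl rfl, by ring⟩
  · exact ⟨-τ', by linarith, by rw [abs_of_pos h, neg_neg], -1, Or.inr rfl, by ring⟩

namespace Half
variable {k : ℤ} {ρ θ : ℝ → ℝ}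

theorem dbl_mul (h : Half k ρ θ) {τ s : ℝ} (hτ : τ ≤ 0) (hs : s = 1 ∨ s = -1) :
    dbl ρ θ (s * τ) = circ (ρ τ) 0 (s * θ τ) := by
  rcases hs with rfl | rfl
  · rw [one_mul, one_mul, mcm_dbl_nonpos ρ θ hτ]
  · rcases hτ.eq_or_lt with rfl | h0
    · have h1 := h.odθ 0 (by norm_num)
      rw [neg_zero] at h1
      rw [mul_zero, mcm_dbl_nonpos ρ θ le_rfl, ← mcm_circ_int _ _ (-1 * θ 0) k]
      congr 1
      linarith
    · rw [mcm_dbl_pos ρ θ (by linarith)]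
      simp

theorem antitoneOn (h : Half k ρ θ) : AntitoneOn ρ (Iic 0) :=
  antitoneOn_of_deriv_nonpos (convex_Iic 0) h.sρ.continuous.continuousOn
    (h.sρ.differentiable (by simp)).differentiableOn fun τ hτ => h.anti τ (by simpa using hτ)

theorem inj_aux (h : Half k ρ θ) {τ τ' : ℝ} (hτ' : τ' ≤ 0) (hlt : τ < τ') (e1 : ρ τ = ρ τ')
    (e2 : θ τ = θ τ') : False := by
  obtain ⟨c, hc, hc0⟩ := exists_deriv_eq_zero hlt h.sθ.continuous.continuousOn e2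
  refine h.imm c (hc.2.trans_le hτ') ?_ hc0
  have : ρ =ᶠ[𝓝 c] fun _ => ρ τ := by
    filter_upwards [isOpen_Ioo.mem_nhds hc] with u hu
    have hu0 : u ≤ 0 := hu.2.le.trans hτ'
    have h1 := h.antitoneOn (hlt.le.trans hτ') hu0 hu.1.le
    have h2 := h.antitoneOn hu0 hτ' hu.2.le
    linarith
  rw [this.deriv_eq, deriv_const]

theorem le_theta (h : Half k ρ θ) {τ : ℝ} (hτ : τ ≤ 0) : -1 / 2 ≤ θ τ ∧ θ τ ≤ 0 := by
  rcases hτ.eq_or_lt with rfl | h0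
  · have hc := h.sθ.continuous.continuousAt (x := 0)
    have ht : Tendsto θ (𝓝[<] 0) (𝓝 (θ 0)) := hc.tendsto.mono_left nhdsWithin_le_nhds
    constructor
    · exact ge_of_tendsto ht (eventually_nhdsWithin_of_forall fun u hu => (h.low u hu).1.le)
    · exact le_of_tendsto ht (eventually_nhdsWithin_of_forall fun u hu => (h.low u hu).2.le)
  · exact ⟨(h.low τ h0).1.le, (h.low τ h0).2.le⟩

theorem two_theta (h : Half k ρ θ) {τ : ℝ} (hτ : τ ≤ 0) {τ' : ℝ} (hτ' : τ' ≤ 0) {j : ℤ}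
    (e : θ τ + θ τ' = j) : τ = 0 ∧ τ' = 0 := by
  have key : ∀ a b : ℝ, a < 0 → b ≤ 0 → θ a + θ b ≠ j := by
    intro a b ha hb e
    have h1 := h.low a ha
    have h2 := h.le_theta hb
    have h3 : (-1 : ℝ) < j := by linarith
    have h4 : (j : ℝ) < 0 := by linarith
    have h5 : -1 < j := by exact_mod_cast h3
    have h6 : j < 0 := by exact_mod_cast h4
    omega
  exact ⟨hτ.eq_or_lt.resolve_right fun h0 => key τ τ' h0 hτ' e,
    hτ'.eq_or_lt.resolve_right fun h0 => key τ' τ h0 hτ (by rw [add_comm, e])⟩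

theorem same (h : Half k ρ θ) {τ τ' : ℝ} (hτ : τ ≤ 0) (hτ' : τ' ≤ 0) (e1 : ρ τ = ρ τ') {j : ℤ}
    (e2 : θ τ' = θ τ + j) : τ = τ' := by
  have h1 := h.le_theta hτ
  have h2 := h.le_theta hτ'
  have h3 : (-1 : ℝ) < j := by linarith
  have h4 : (j : ℝ) < 1 := by linarith
  have h5 : -1 < j := by exact_mod_cast h3
  have h6 : j < 1 := by exact_mod_cast h4
  have h7 : j = 0 := by omega
  rw [h7, Int.cast_zero, add_zero] at e2
  rcases lt_trichotomy τ τ' with hl | hl | hl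
  · exact (h.inj_aux hτ' hl e1 e2.symm).elim
  · exact hl
  · exact (h.inj_aux hτ hl e1.symm e2).elim

theorem contDiff (h : Half k ρ θ) : ContDiff ℝ ∞ (dbl ρ θ) :=
  (mcm_contDiff_dbl (k := k) (ρ := fun _ => ρ) (θ := fun _ => θ) (h.sρ.comp contDiff_snd)
    (h.sθ.comp contDiff_snd) (fun _ => h.evρ) fun _ => h.odθ).comp
    ((contDiff_const (c := (0 : ℝ))).prodMk contDiff_id)

theorem deriv_nonpos (h : Half k ρ θ) {τ : ℝ} (hτ : τ ≤ 0) :
    deriv (dbl ρ θ) τ = deriv (fun u => circ (ρ u) 0 (θ u)) τ := by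
  refine EventuallyEq.deriv_eq ?_
  filter_upwards [isOpen_Iio.mem_nhds (show τ < 1 / 2 by linarith)] with u hu
  exact mcm_dbl_lt h.evρ h.odθ hu

theorem deriv_pos (ρ θ : ℝ → ℝ) {τ : ℝ} (hτ : 0 < τ) :
    deriv (dbl ρ θ) τ = deriv (fun u => circ (ρ (-u)) 0 (-θ (-u))) τ := by
  refine EventuallyEq.deriv_eq ?_
  filter_upwards [isOpen_Ioi.mem_nhds hτ] with u hu
  exact mcm_dbl_pos ρ θ hu

theorem mdl (h : Half k ρ θ) : PMdl (dbl ρ θ) where
  smooth := h.contDiff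
  flat := fun τ => by
    unfold dbl
    split_ifs <;> simp [circ]
  out := fun τ' hτ' => by
    obtain ⟨τ, hτ, ha, s, hs, rfl⟩ := mcm_cases τ'
    have h1 : τ ≤ -3 / 2 := by linarith
    rw [h.dbl_mul hτ hs, h.outρ τ h1, h.outθ τ h1]
    rcases hs with rfl | rfl
    · have e : 2 * Real.pi * (1 * (-1 / 4)) = -(Real.pi / 2) := by ring
      simp only [circ, e, Real.cos_neg, Real.sin_neg, Real.cos_pi_div_two, Real.sin_pi_div_two]
      simp
    · have e : 2 * Real.pi * (-1 * (-1 / 4)) = Real.pi / 2 := by ring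
      simp only [circ, e, Real.cos_pi_div_two, Real.sin_pi_div_two]
      simp
  inj := fun σ σ' e => by
    obtain ⟨τ, hτ, -, s, hs, rfl⟩ := mcm_cases σ
    obtain ⟨τ', hτ', -, s', hs', rfl⟩ := mcm_cases σ'
    rw [h.dbl_mul hτ hs, h.dbl_mul hτ' hs', circ_eq_iff (h.pos τ hτ) (h.pos τ' hτ')] at e
    obtain ⟨e1, -, j, e2⟩ := e
    rcases hs with rfl | rfl <;> rcases hs' with rfl | rfl
    · rw [h.same hτ hτ' e1 (j := j) (by linarith)]
    · obtain ⟨rfl, rfl⟩ := h.two_theta hτ hτ' (j := -j) (by push_cast; linarith)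
      simp
    · obtain ⟨rfl, rfl⟩ := h.two_theta hτ hτ' (j := j) (by linarith)
      simp
    · rw [h.same hτ hτ' e1 (j := -j) (by push_cast; linarith)]
  imm := fun τ => by
    rcases le_or_gt τ 0 with h0 | h0
    · rw [h.deriv_nonpos h0]
      refine mcm_deriv_ne h.sρ h.sθ (h.pos τ h0).ne' fun e => ?_
      rcases h0.eq_or_lt with rfl | h1
      · exact h.zero
      · exact h.imm τ h1 e
    · rw [deriv_pos ρ θ h0]
      refine mcm_deriv_ne (f := fun u => ρ (-u)) (g := fun u => -θ (-u))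
        (h.sρ.comp contDiff_neg) (h.sθ.comp contDiff_neg).neg (h.pos _ (by linarith)).ne' fun e => ?_
      rw [deriv_comp_neg, neg_eq_zero] at e
      rw [deriv.fun_neg, deriv_comp_neg, neg_neg]
      exact h.imm _ (by linarith) e
  off := fun τ' => by
    obtain ⟨τ, hτ, -, s, hs, rfl⟩ := mcm_cases τ'
    rw [h.dbl_mul hτ hs, ← rad_eq_zero, rad_circ (h.pos τ hτ).le]
    exact (h.pos τ hτ).ne'
  small := fun τ' hτ' => by
    obtain ⟨τ, hτ, ha, s, hs, rfl⟩ := mcm_cases τ'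
    rw [h.dbl_mul hτ hs, rad_circ (h.pos τ hτ).le]
    have h1 := h.antitoneOn (show (-3 / 2 : ℝ) ∈ Iic 0 by norm_num) hτ (by linarith)
    rw [h.outρ _ le_rfl] at h1
    linarith

theorem side {σ : ℝ} (h : Half k ρ θ)
    (hm : ∀ τ ≤ 0, 0 < deriv ρ τ * Real.sin (2 * Real.pi * θ τ) +
      ρ τ * (Real.cos (2 * Real.pi * θ τ) * (2 * Real.pi * deriv θ τ)))
    (hs : 0 < σ * Real.cos (2 * Real.pi * θ 0)) : Side σ (dbl ρ θ) where
  mdl := h.mdl
  mono := fun τ => by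
    rcases le_or_gt τ 0 with h0 | h0
    · rw [h.deriv_nonpos h0, (mcm_deriv_circ h.sρ h.sθ τ).2]
      exact hm τ h0
    · rw [deriv_pos ρ θ h0, (mcm_deriv_circ (f := fun u => ρ (-u)) (g := fun u => -θ (-u))
        (h.sρ.comp contDiff_neg) (h.sθ.comp contDiff_neg).neg τ).2, deriv_comp_neg, deriv.fun_neg,
        deriv_comp_neg, neg_neg, mul_neg, Real.sin_neg, Real.cos_neg, neg_mul_neg]
      exact hm _ (by linarith)
  zero := by
    have h1 := h.odθ 0 (by norm_num)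
    rw [neg_zero] at h1
    have e : 2 * Real.pi * θ 0 = k * Real.pi := by linear_combination Real.pi * h1
    rw [mcm_dbl_nonpos ρ θ le_rfl]
    simp [circ, e]
  side := by
    rw [mcm_dbl_nonpos ρ θ le_rfl]
    have h1 := h.pos 0 le_rfl
    have e : σ * circ (ρ 0) 0 (θ 0) 0 = ρ 0 * (σ * Real.cos (2 * Real.pi * θ 0)) := by
      simp only [circ, PiLp.toLp_apply, Matrix.cons_val_zero]
      ring
    rw [e]
    positivity

theorem mdlIso {ρ' θ' : ℝ → ℝ} (h : Half k ρ θ) (h' : Half k ρ' θ')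
    (hs : ∀ τ < 0, deriv ρ τ < 0) (h0 : 0 < deriv θ 0 * deriv θ' 0) :
    MdlIso (dbl ρ θ) (dbl ρ' θ') := by
  have hd : ∀ {f g : ℝ → ℝ}, ContDiff ℝ ∞ f → ContDiff ℝ ∞ g → ∀ u τ : ℝ,
      deriv (fun τ => (1 - u) * f τ + u * g τ) τ = (1 - u) * deriv f τ + u * deriv g τ := by
    intro f g hf hg u τ
    exact (((hf.differentiable (by simp) τ).hasDerivAt.const_mul _).fun_add
      ((hg.differentiable (by simp) τ).hasDerivAt.const_mul _)).deriv
  have hc : ∀ {f g : ℝ → ℝ}, ContDiff ℝ ∞ f → ContDiff ℝ ∞ g →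
      ContDiff ℝ ∞ fun q : ℝ × ℝ => (1 - q.1) * f q.2 + q.1 * g q.2 := fun hf hg =>
    ((contDiff_const.sub contDiff_fst).mul (hf.comp contDiff_snd)).add
      (contDiff_fst.mul (hg.comp contDiff_snd))
  have e1 : ∀ u τ : ℝ, |τ| < 1 / 2 →
      (1 - u) * ρ (-τ) + u * ρ' (-τ) = (1 - u) * ρ τ + u * ρ' τ := fun u τ hτ => by
    rw [h.evρ τ hτ, h'.evρ τ hτ]
  have e2 : ∀ u τ : ℝ, |τ| < 1 / 2 →
      (1 - u) * θ (-τ) + u * θ' (-τ) = k - ((1 - u) * θ τ + u * θ' τ) := fun u τ hτ => by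
    rw [h.odθ τ hτ, h'.odθ τ hτ]
    ring
  refine ⟨fun u => dbl (fun τ => (1 - u) * ρ τ + u * ρ' τ) fun τ => (1 - u) * θ τ + u * θ' τ,
    mcm_contDiff_dbl (k := k) (ρ := fun u τ => (1 - u) * ρ τ + u * ρ' τ)
      (θ := fun u τ => (1 - u) * θ τ + u * θ' τ) (hc h.sρ h'.sρ) (hc h.sθ h'.sθ) e1 e2,
    fun u hu => ?_, by simp, by simp⟩
  rcases hu.2.eq_or_lt with rfl | hu1
  · simpa using h'.mdl
  have hu0 := hu.1
  have hu2 : 0 < 1 - u := by linarith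
  have hneg : ∀ τ < 0, deriv (fun τ => (1 - u) * ρ τ + u * ρ' τ) τ < 0 := fun τ hτ => by
    rw [hd h.sρ h'.sρ]
    nlinarith [mul_pos hu2 (neg_pos.2 (hs τ hτ)), mul_nonneg hu0 (neg_nonneg.2 (h'.anti τ hτ))]
  refine Half.mdl (k := k) ⟨(contDiff_const.mul h.sρ).add (contDiff_const.mul h'.sρ),
    (contDiff_const.mul h.sθ).add (contDiff_const.mul h'.sθ), e1 u, e2 u, fun τ hτ => ?_,
    fun τ hτ => ?_, fun τ hτ => ?_, fun τ hτ => ?_, fun τ hτ => (hneg τ hτ).le,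
    fun τ hτ e => ((hneg τ hτ).ne e).elim, ?_⟩
  · rw [h.outρ τ hτ, h'.outρ τ hτ]
    ring
  · rw [h.outθ τ hτ, h'.outθ τ hτ]
    ring
  · have h1 := h.pos τ hτ
    have h2 := h'.pos τ hτ
    positivity
  · obtain ⟨h1, h2⟩ := h.low τ hτ
    obtain ⟨h3, h4⟩ := h'.low τ hτ
    constructor
    · nlinarith [mul_pos hu2 (sub_pos.2 h1), mul_nonneg hu0 (sub_pos.2 h3).le]
    · nlinarith [mul_pos hu2 (neg_pos.2 h2), mul_nonneg hu0 (neg_pos.2 h4).le]
  · rw [hd h.sθ h'.sθ]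
    intro e
    have h1 : 0 < deriv θ 0 * deriv θ 0 := mul_self_pos.2 h.zero
    have h2 : (1 - u) * (deriv θ 0 * deriv θ 0) + u * (deriv θ 0 * deriv θ' 0) = 0 := by
      linear_combination deriv θ 0 * e
    nlinarith [mul_pos hu2 h1, mul_nonneg hu0 h0.le]

end Half

theorem mcm_sbox_eq {r t : ℝ} (hr : 0 < r) (ht : |t| ≤ 1 / 2) {p : E3} (hp : p ∈ Qb (9 / 8))
    (e : sbox p = circ r 0 t) : p = !₂[2 * r - 7 / 4, 20 * t, 0] := by
  have h0 := abs_lt.1 (hp 0)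
  have h1 := abs_lt.1 (hp 1)
  have h2 := abs_le.1 ht
  rw [sbox, circ_eq_iff (by linarith) hr] at e
  obtain ⟨e1, e2, j, e3⟩ := e
  have h3 : (-1 : ℝ) < j := by linarith
  have h4 : (j : ℝ) < 1 := by linarith
  have h5 : -1 < j := by exact_mod_cast h3
  have h6 : j < 1 := by exact_mod_cast h4
  have h7 : j = 0 := by omega
  rw [h7, Int.cast_zero, add_zero] at e3
  ext i
  fin_cases i
  · simp
    linarith
  · simp
    linarith
  · simpa using e2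

theorem mcm_sbox_mk (r t : ℝ) : sbox !₂[2 * r - 7 / 4, 20 * t, 0] = circ r 0 t := by
  simp only [sbox, Matrix.cons_val_zero, Matrix.cons_val_one, Matrix.cons_val]
  congr 1 <;> ring

theorem mcm_mem_sbox {r t : ℝ} (hr : |2 * r - 7 / 4| < 9 / 8) (ht : |20 * t| < 9 / 8) :
    circ r 0 t ∈ sbox '' Qb (9 / 8) := by
  refine ⟨_, fun i => ?_, mcm_sbox_mk r t⟩
  fin_cases i
  · simpa using hr
  · simpa using ht
  · simp

end Pool.Agent.P.MP_ac4909_gt.B
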