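import Pool.Agent.P.MP_ac4909_gt.B.MCross_Defs

/-! The relation `ThinEq`: equivalence, isotopies off the graph, rotation of the edge charts. -/

namespace Pool.Agent.P.MP_ac4909_gt.B

open scoped Manifold ContDiff
open Set Filter Topology

variable {M : Type*} [TopologicalSpace M] [T2Space M] [ChartedSpace E3 M]
  [IsManifold (𝓡 3) ∞ M] {ι Vx : Type} [Fintype ι] [DecidableEq ι] [Fintype Vx]
  {H : HD M ι Vx} {E : EvSys ι (ℕ × (ι → ℕ))} {F : Set M} {X₀ X₁ X₂ : Set (TM M)}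

theorem HD.ThinEq.refl (H : HD M ι Vx) (E : EvSys ι (ℕ × (ι → ℕ))) (F : Set M)
    (X : Set (TM M)) : H.ThinEq E F X X :=
  Eventually.of_forall fun _ => Eventually.of_forall fun _ => Eventually.of_forall
    fun _ _ _ _ _ _ _ => rfl

theorem HD.ThinEq.symm (h : H.ThinEq E F X₀ X₁) : H.ThinEq E F X₁ X₀ :=
  h.mono fun _ h => h.mono fun _ h => h.mono fun _ h J a b c d t => (h J a b c d t).symm

theorem HD.ThinEq.trans (h : H.ThinEq E F X₀ X₁) (h' : H.ThinEq E F X₁ X₂) :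
    H.ThinEq E F X₀ X₂ :=
  (h.and h').mono fun _ h => (h.1.and h.2).mono fun _ h => (h.1.and h.2).mono
    fun _ h J a b c d t => (h.1 J a b c d t).trans (h.2 J a b c d t)

theorem HD.thinEq_of_iso (H : HD M ι Vx) (E : EvSys ι (ℕ × (ι → ℕ)))
    (h : IsoIn (Fᶜ ∩ H.gsᶜ) X₀ X₁) : H.ThinEq E F X₀ X₁ := by
  obtain ⟨κ, _, G, hG, rfl, rfl⟩ := h
  have hK := hG.isCompact_track
  set K := {x | ∃ s ∈ Icc (0 : ℝ) 1, ∃ c t, x = (G s c t).proj}
  have hKA : K ⊆ Fᶜ ∩ H.gsᶜ := by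
    rintro _ ⟨s, hs, c, t, rfl⟩
    exact hG.mem s hs c t
  have hI : IsoIn K (trace (G 0)) (trace (G 1)) :=
    ⟨κ, ‹_›, G, ⟨hG.smooth, hG.link, fun s hs c t => ⟨s, hs, c, t, rfl⟩⟩, rfl, rfl⟩
  obtain ⟨h1, h2⟩ := H.eventually_thin hK (disjoint_left.2 fun x hx => (hKA hx).2)
  refine h1.mono fun ρ hρ => (eventually_ge_atTop 0).mono fun R hR => ?_
  have h3 : ∀ᶠ ε in 𝓝[>] (0 : ℝ), ε * R < 1 := nhdsWithin_le_nhds
    ((continuous_mul_const R).continuousAt.eventually_lt continuousAt_const (by simp))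
  filter_upwards [h2 R, h3, self_mem_nhdsWithin] with ε hε hεR hε0 J hJ hJg hJF hJc t
  have hY := H.lbase_Y_subset (le_of_lt hε0) hR
  have hJK : Disjoint (base J) K := disjoint_left.2 fun x hx hx' => by
    rcases hJF hx with h | h | h
    exacts [(hKA hx').1 h, disjoint_left.1 hε hx' (Or.inl h), disjoint_left.1 hρ hx' h]
  have hYd : Disjoint (lbase (H.Y ε)) (K ∪ base J) := disjoint_left.2 fun x hx hx' =>
    hx'.elim (fun h => disjoint_left.1 hε h (Or.inr (hY hx))) fun h => disjoint_left.1 hJc h (hY hx)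
  have h4 := ((hI.union hJ hJK).nl.union (H.isPM_Y hε0).isLM hYd).mono (A' := H.gsᶜ) (by
    rintro x ((hx | hx) | hx)
    exacts [(hKA hx).2, disjoint_left.1 hJg hx,
      disjoint_left.1 (H.disjoint_cyl_gs hε0 hεR) (hY hx)])
  rw [HD.val, HD.val, HD.tot, HD.tot, H.zv_isoM h4]

/-- the rotation as a continuous linear map -/
noncomputable def mct_L (φ : ℝ) : E3 →L[ℝ] E3 := LinearMap.toContinuousLinearMap
  { toFun := rot φ
    map_add' := fun x y => MHd_ext (by simp [rot]; ring) (by simp [rot]; ring) (by simp [rot])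
    map_smul' := fun a x => MHd_ext (by simp [rot]; ring) (by simp [rot]; ring) (by simp [rot]) }

theorem rot_contDiff (φ : ℝ) : ContDiff ℝ ∞ (rot φ) := (mct_L φ).contDiff

theorem fderiv_rot (φ : ℝ) (p v : E3) : fderiv ℝ (rot φ) p v = rot φ v := by
  rw [show fderiv ℝ (rot φ) p = mct_L φ from (mct_L φ).fderiv]
  rfl

theorem mct_0 (φ : ℝ) (p : E3) : rot φ p 0 = Real.cos φ * p 0 - Real.sin φ * p 1 := rfl

theorem mct_1 (φ : ℝ) (p : E3) : rot φ p 1 = Real.sin φ * p 0 + Real.cos φ * p 1 := rfl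

theorem mct_2 (φ : ℝ) (p : E3) : rot φ p 2 = p 2 := rfl

theorem mct_det (φ : ℝ) (p : E3) : 0 < (fderiv ℝ (rot φ) p).det := by
  rw [ContinuousLinearMap.det, ← LinearMap.det_toMatrix (EuclideanSpace.basisFun (Fin 3) ℝ).toBasis,
    Matrix.det_fin_three]
  simp only [LinearMap.toMatrix_apply, ContinuousLinearMap.coe_coe, fderiv_rot]
  simp [rot]
  nlinarith [Real.cos_sq_add_sin_sq φ]

theorem mct_neg (φ : ℝ) (p : E3) : rot φ (rot (-φ) p) = p := by
  refine MHd_ext ?_ ?_ rfl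
  · rw [mct_0, mct_0, mct_1, Real.cos_neg, Real.sin_neg]
    linear_combination p 0 * Real.cos_sq_add_sin_sq φ
  · rw [mct_1, mct_0, mct_1, Real.cos_neg, Real.sin_neg]
    linear_combination p 1 * Real.cos_sq_add_sin_sq φ

theorem mct_neg' (φ : ℝ) (p : E3) : rot (-φ) (rot φ p) = p := by
  simpa only [neg_neg] using mct_neg (-φ) p

theorem mct_rad (φ : ℝ) (p : E3) : rad (rot φ p) = rad p := by
  rw [rad, rad, mct_0, mct_1]
  congr 1
  linear_combination (p 0 ^ 2 + p 1 ^ 2) * Real.cos_sq_add_sin_sq φ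

theorem mct_dom {φ : ℝ} {p : E3} : rot φ p ∈ Dom ↔ p ∈ Dom := by
  simp only [Dom, mem_ofPred_eq, mct_rad, mct_2]

theorem mct_sad (φ t : ℝ) (p : E3) : rot φ (sad t p) = sad t (rot φ p) := by
  refine MHd_ext ?_ ?_ rfl
  · rw [mct_0, MHd_sad0, MHd_sad0, MHd_sad1, mct_0]
    ring
  · rw [mct_1, MHd_sad0, MHd_sad1, MHd_sad1, mct_1]
    ring

theorem mct_ez (φ a : ℝ) : rot φ (a • ez) = a • ez := by
  refine MHd_ext ?_ ?_ ?_ <;> simp [rot, ez]

theorem mct_circ (φ ε t : ℝ) : rot φ (circ ε 0 t) = circ ε 0 (t + φ / (2 * Real.pi)) := by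
  have h : 2 * Real.pi * (t + φ / (2 * Real.pi)) = 2 * Real.pi * t + φ := by
    field_simp
  refine MHd_ext ?_ ?_ rfl
  · simp only [rot, circ, h, Real.cos_add]
    simp
    ring
  · simp only [rot, circ, h, Real.sin_add]
    simp
    ring

theorem mct_image {α : Type*} (φ : ℝ) (f : E3 → α) (P : ℝ → ℝ → Prop) :
    (f ∘ rot φ) '' {p | P (rad p) (p 2)} = f '' {p | P (rad p) (p 2)} := by
  refine Subset.antisymm ?_ ?_
  · rintro _ ⟨p, hp, rfl⟩
    exact ⟨rot φ p, by simpa only [mem_ofPred_eq, mct_rad, mct_2] using hp, rfl⟩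
  · rintro _ ⟨p, hp, rfl⟩
    exact ⟨rot (-φ) p, by simpa only [mem_ofPred_eq, mct_rad, mct_2] using hp,
      congrArg f (mct_neg φ p)⟩

theorem mct_axis {α : Type*} (φ : ℝ) (f : E3 → α) : (f ∘ rot φ) '' axis = f '' axis := by
  rw [show axis = {p | rad p = 0} from Set.ext fun _ => rad_eq_zero.symm]
  exact mct_image φ f fun r _ => r = 0

/-- the rotation as a homeomorphism -/
noncomputable def mct_H (φ : ℝ) : E3 ≃ₜ E3 where
  toFun := rot (-φ)
  invFun := rot φ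
  left_inv := mct_neg φ
  right_inv := mct_neg' φ
  continuous_toFun := (rot_contDiff _).continuous
  continuous_invFun := (rot_contDiff _).continuous

omit [T2Space M] [IsManifold (𝓡 3) ∞ M] in
theorem mct_chart (φ : ℝ) {e : OpenPartialHomeomorph E3 M} (h : IsPChart e) :
    IsPChart ((mct_H φ).transOpenPartialHomeomorph e) where
  smooth := h.smooth.comp (rot_contDiff (-φ)).contMDiff.contMDiffOn fun _ => id
  smooth_symm := (rot_contDiff φ).contMDiff.comp_contMDiffOn h.smooth_symm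
  pos p hp := by
    change 0 < (jac (e ∘ rot (-φ)) p).det
    rw [det_jac_comp (f := rot (-φ)) ((MHd_chartAt h hp).mdifferentiableAt (by simp))
      ((rot_contDiff (-φ)).contMDiff.mdifferentiableAt (by simp)), jac_eq_fderiv]
    exact mul_pos (h.pos _ hp) (mct_det _ _)

omit [T2Space M] [IsManifold (𝓡 3) ∞ M] [Fintype ι] [DecidableEq ι] [Fintype Vx] in
theorem mct_gs (H : HD M ι Vx) (φ : ℝ) :
    gs H.cv (fun e => (mct_H φ).transOpenPartialHomeomorph (H.ce e)) = gs H.cv H.ce :=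
  congrArg (· ∪ range fun v => H.cv v 0) (iUnion_congr fun e => mct_axis (-φ) (H.ce e))

/-- the rotated handle data -/
noncomputable def mct_HD (H : HD M ι Vx) (φ : ℝ) : HD M ι Vx :=
  { H with
    ce := fun e => (mct_H φ).transOpenPartialHomeomorph (H.ce e)
    ce_chart := fun e => mct_chart φ (H.ce_chart e)
    ce_source := fun e => Set.ext fun p => by
      change rot (-φ) p ∈ (H.ce e).source ↔ _
      rw [H.ce_source, mct_dom]
    ce_flow := fun e t p hp => by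
      change H.Φ t (H.ce e (rot (-φ) p)) = H.ce e (rot (-φ) (sad t p))
      rw [H.ce_flow e t _ (mct_dom.2 hp), mct_sad]
    ce_disj := H.ce_disj
    cv_zero := H.cv_zero
    ends := fun e σ hσ => by
      obtain ⟨v, C, h⟩ := H.ends e σ hσ
      exact ⟨v, C, fun p hp h2 => h (rot (-φ) p) (mct_dom.2 hp) h2⟩
    attract := fun C hC hd => H.attract C hC (mct_gs H φ ▸ hd) }

omit [T2Space M] [IsManifold (𝓡 3) ∞ M] [Fintype ι] [DecidableEq ι] [Fintype Vx] in
theorem mct_push (H : HD M ι Vx) (φ ε t a : ℝ) (e : ι) :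
    pushT ((mct_HD H φ).ce e) (circ ε 0 t) (a • ez) =
      pushT (H.ce e) (circ ε 0 (t + -φ / (2 * Real.pi))) (a • ez) := by
  change pushT (H.ce e ∘ rot (-φ)) _ _ = _
  rw [pushT_comp ((H.MHd_ce_at e (mct_dom.2 (MHd_circ_mem t))).mdifferentiableAt (by simp))
    ((rot_contDiff _).differentiable (by simp) _), fderiv_rot, mct_ez, mct_circ]

omit [T2Space M] [IsManifold (𝓡 3) ∞ M] [Fintype ι] [DecidableEq ι] [Fintype Vx] in
theorem mct_Y (H : HD M ι Vx) (φ ε : ℝ) : (mct_HD H φ).Y ε = H.Y ε := by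
  refine Subset.antisymm ?_ ?_
  · rintro _ ⟨e, t, rfl⟩
    exact ⟨e, _, by rw [mct_push]⟩
  · rintro _ ⟨e, t, rfl⟩
    exact ⟨e, t - -φ / (2 * Real.pi), by rw [mct_push, sub_add_cancel]⟩

/-- handle data with rotated edge charts -/
theorem HD.exists_rot (H : HD M ι Vx) (φ : ℝ) : ∃ H' : HD M ι Vx, H'.gs = H.gs ∧
    (∀ e, H'.ce e '' axis = H.ce e '' axis) ∧
    (∀ e x, (H'.ce e).symm x = rot φ ((H.ce e).symm x)) ∧
    ∀ (E : EvSys ι (ℕ × (ι → ℕ))) (F : Set M) (X₀ X₁ : Set (TM M)),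
      H'.ThinEq E F X₀ X₁ → H.ThinEq E F X₀ X₁ := by
  have hg : (mct_HD H φ).gs = H.gs := mct_gs H φ
  refine ⟨mct_HD H φ, hg, fun e => mct_axis (-φ) (H.ce e), fun _ _ => rfl, fun E F X₀ X₁ h => ?_⟩
  refine h.mono fun ρ h => h.mono fun R h => h.mono fun ε h J a b c d t => ?_
  have h1 : (mct_HD H φ).tubes R ε = H.tubes R ε :=
    iUnion_congr fun e => mct_image (-φ) (H.ce e) fun r z => r < ε ∧ |z| ≤ R
  have h2 : (mct_HD H φ).cyl R ε = H.cyl R ε :=
    iUnion_congr fun e => mct_image (-φ) (H.ce e) fun r z => r = ε ∧ |z| ≤ R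
  have h3 := h J a (hg ▸ b) (h1 ▸ c) (h2 ▸ d) t
  rw [HD.tot, HD.tot, mct_Y] at h3
  exact h3

end Pool.Agent.P.MP_ac4909_gt.B
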