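import Pool.Agent.P.MP_ac4909_gt.B.HDefs
import Pool.Agent.P.MP_ac4909_gt.B.GDefs
import Pool.Agent.P.MP_ac4909_gt.B.ADefs

/-!
Layer M: links in a manifold, their values through the handle data, thin neighbourhoods of the
graph.
-/

namespace Pool.Agent.P.MP_ac4909_gt.B

open scoped Manifold ContDiff
open Set Metric

variable {M N : Type*} [TopologicalSpace M] [ChartedSpace E3 M] [TopologicalSpace N]
  [ChartedSpace E3 N] {κ ι Vx P : Type}

/-- push-forward of tangent vectors -/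
noncomputable def tm (h : M → N) (x : TM M) : TM N := ⟨h x.proj, jac h x.proj x.snd⟩

/-- push-forward of the vector `v` at the point `p` of `ℝ³` -/
noncomputable def pushT (ψ : E3 → M) (p v : E3) : TM M := ⟨ψ p, jac ψ p v⟩

/-- base points -/
def base (S : Set (TM M)) : Set M := (fun x => x.proj) '' S

/-- labelled sets of framing vectors -/
abbrev LM (ι : Type) (M : Type*) [TopologicalSpace M] [ChartedSpace E3 M] :=
  Set (Option ι × TM M)

def lbase (S : LM ι M) : Set M := (fun x => x.2.proj) '' S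

def lset (Γ : κ → ℝ → TM M) (ℓ : κ → Option ι) : LM ι M := {x | ∃ c t, x = (ℓ c, Γ c t)}

/-- a set of framing vectors with the label of skein strands -/
def nl (S : Set (TM M)) : LM ι M := {x | x.1 = none ∧ x.2 ∈ S}

/-- transport of a labelled set to `ℝ³` -/
noncomputable def toE (F : M → E3) (S : LM ι M) : LS ι :=
  (fun x => (x.1, F x.2.proj, jac F x.2.proj x.2.snd)) '' S

/-- an orientation preserving embedding of the open set `D` -/
structure MPosOn (ψ : E3 → M) (D : Set E3) : Prop where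
  smooth : ContMDiffOn (𝓡 3) (𝓡 3) ∞ ψ D
  inj : InjOn ψ D
  pos : ∀ p ∈ D, 0 < (jac ψ p).det

/-- over the image of the cube, `S` is the image of the picture with the vertical framing -/
def MIns (ψ : E3 → M) (S : LM ι M) (A : Pic ι) : Prop :=
  {x ∈ S | x.2.proj ∈ ψ '' Qb (9 / 8)} =
    (fun y => (y.1, pushT ψ y.2 ez)) '' {y ∈ A | y.2 ∈ Qb (9 / 8)}

/-- the part of `S` outside the image of the cube -/
def MOut (ψ : E3 → M) (S : LM ι M) : LM ι M := {x ∈ S | x.2.proj ∉ ψ '' Qb (9 / 8)}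

/-- an ambient isotopy -/
structure AmbIso (Q : ℝ → M → M) : Prop where
  smooth : ContMDiff (𝓘(ℝ, ℝ).prod (𝓡 3)) (𝓡 3) ∞ fun p : ℝ × M => Q p.1 p.2
  zero : ∀ x, Q 0 x = x
  inj : ∀ s ∈ Icc (0 : ℝ) 1, Function.Injective (Q s)
  pos : ∀ s ∈ Icc (0 : ℝ) 1, ∀ x, 0 < (jac (Q s) x).det

section
variable [IsManifold (𝓡 3) ∞ M]

/-- a framed link -/
def IsLS (S : Set (TM M)) : Prop :=
  ∃ (κ : Type) (_ : Fintype κ) (Γ : κ → ℝ → TM M), IsLink Γ ∧ S = trace Γ

/-- a labelled framed link -/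
def IsLM (S : LM ι M) : Prop :=
  ∃ (κ : Type) (_ : Fintype κ) (Γ : κ → ℝ → TM M) (ℓ : κ → Option ι), IsLink Γ ∧ S = lset Γ ℓ

/-- a labelled framed link in which every label `some i` is carried by exactly one component -/
def IsPM (S : LM ι M) : Prop :=
  ∃ (κ : Type) (_ : Fintype κ) (Γ : κ → ℝ → TM M) (ℓ : κ → Option ι), IsLink Γ ∧ S = lset Γ ℓ ∧
    ∀ i, ∃! c, ℓ c = some i

/-- a jointly smooth family of links whose base points stay in `A` -/
structure IsIso (A : Set M) (H : ℝ → κ → ℝ → TM M) : Prop where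
  smooth : ∀ c, ContMDiff 𝓘(ℝ, ℝ × ℝ) (𝓡 3).tangent ∞ fun p : ℝ × ℝ => H p.1 c p.2
  link : ∀ s ∈ Icc (0 : ℝ) 1, IsLink (H s)
  mem : ∀ s ∈ Icc (0 : ℝ) 1, ∀ c t, (H s c t).proj ∈ A

/-- isotopy inside `A` -/
def IsoIn (A : Set M) (S S' : Set (TM M)) : Prop :=
  ∃ (κ : Type) (_ : Fintype κ) (H : ℝ → κ → ℝ → TM M), IsIso A H ∧
    S = trace (H 0) ∧ S' = trace (H 1)

/-- isotopy of labelled links inside `A` -/
def IsoM (A : Set M) (S S' : LM ι M) : Prop :=
  ∃ (κ : Type) (_ : Fintype κ) (H : ℝ → κ → ℝ → TM M) (ℓ : κ → Option ι), IsIso A H ∧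
    S = lset (H 0) ℓ ∧ S' = lset (H 1) ℓ

/-- near every base point, `S` is a smooth framed arc -/
def LocArc (S : Set (TM M)) : Prop :=
  ∀ x ∈ S, ∃ (W : Set M) (g : ℝ → TM M), IsOpen W ∧ x.proj ∈ W ∧
    ContMDiffOn 𝓘(ℝ, ℝ) (𝓡 3).tangent ∞ g (Ioo (-1) 1) ∧
    InjOn (fun t => (g t).proj) (Ioo (-1) 1) ∧
    (∀ t ∈ Ioo (-1 : ℝ) 1,
      LinearIndependent ℝ ![vel (fun u => (g u).proj) t, ((g t).snd : E3)]) ∧
    {y ∈ S | y.proj ∈ W} = g '' Ioo (-1) 1

end

/-- cylindrical coordinates: logarithm of the radius, angle, radius times height -/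
noncomputable def cylc (p : E3) : E3 :=
  !₂[Real.exp (p 0) * Real.cos (p 1), Real.exp (p 0) * Real.sin (p 1), p 2 * Real.exp (-p 0)]

/-- the horizontal circle of radius `ε` at height `z` -/
noncomputable def circ (ε z t : ℝ) : E3 :=
  !₂[ε * Real.cos (2 * Real.pi * t), ε * Real.sin (2 * Real.pi * t), z]

namespace HD
variable (H : HD M ι Vx)

/-- a time after which the link has flowed into `U` -/
noncomputable def T (S : LM ι M) : ℝ :=
  Classical.epsilon fun T => ∀ t ≥ T, MapsTo (H.Φ t) (lbase S) H.U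

/-- the value of a labelled link in the complement of the graph -/
noncomputable def zv (E : EvSys ι P) (S : LM ι M) : P → ℂ :=
  B.zv E (toE (H.j ∘ H.Φ (H.T S)) S)

/-- the surgery curves: small circles around the edges -/
def Y (ε : ℝ) : LM ι M :=
  {x | ∃ e t, x = (some e, pushT (H.ce e) (circ ε 0 t) ((2 * ε)⁻¹ • ez))}

/-- a skein together with the surgery curves -/
def tot (X : Set (TM M)) (ε : ℝ) : LM ι M := nl X ∪ H.Y ε

def tubes (R ε : ℝ) : Set M := ⋃ e, H.ce e '' {p | rad p < ε ∧ |p 2| ≤ R}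

def cyl (R ε : ℝ) : Set M := ⋃ e, H.ce e '' {p | rad p = ε ∧ |p 2| ≤ R}

def balls (ρ : ℝ) : Set M := ⋃ v, H.cv v '' ball 0 ρ

/-- the Kirby coloured value at level `t` -/
noncomputable def val [Fintype ι] [DecidableEq ι] (E : EvSys ι (ℕ × (ι → ℕ))) (t : ℕ)
    (S : LM ι M) : ℂ := kirby t (H.zv E S)

end HD

/-- Data of a radial sector at a vertex: direction `b`, transverse directions `u`, `w`, radius `ρ`,
logarithmic thickness `η`, positions of the strands. -/
structure Sec where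
  b : E3
  u : E3
  w : E3
  ρ : ℝ
  η : ℝ
  xs : List ℝ

/-- the sector chart: `x`, `z` move the direction, `y` is the logarithm of the radius -/
noncomputable def Sec.map (D : Sec) (p : E3) : E3 :=
  (D.ρ * Real.exp (D.η * p 1) / ‖D.b + p 0 • D.u + p 2 • D.w‖) • (D.b + p 0 • D.u + p 2 • D.w)

/-- the open shell of the sector -/
def Sec.shell (D : Sec) : Set E3 :=
  {p | D.ρ * Real.exp (-(9 / 8 * D.η)) < ‖p‖ ∧ ‖p‖ < D.ρ * Real.exp (9 / 8 * D.η)}

/-- The sector is positively oriented, and the closed sector and the opposite direction contain no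
edge of the graph. -/
structure HD.SecOK (H : HD M ι Vx) (v : Vx) (D : Sec) : Prop where
  ρ_pos : 0 < D.ρ
  η_pos : 0 < D.η
  norm_b : ‖D.b‖ = 1
  norm_uw : ‖D.u‖ = ‖D.w‖
  bu : inner ℝ D.b D.u = 0
  bw : inner ℝ D.b D.w = 0
  uw : inner ℝ D.u D.w = 0
  det : 0 < Matrix.det (Matrix.of ![D.u.ofLp, D.b.ofLp, D.w.ofLp])
  pos : PosOK D.xs
  free : ∀ x z : ℝ, |x| ≤ 2 → |z| ≤ 2 → H.cv v (D.b + x • D.u + z • D.w) ∉ H.gs
  free' : H.cv v (-D.b) ∉ H.gs

/-- `K` meets the shells only in the strands of the sectors and in the tubes, and misses the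
cylinders -/
structure HD.Radial (H : HD M ι Vx) (D : Vx → Sec) (R ε : ℝ) (K : Set (TM M)) : Prop where
  off : Disjoint (base K) H.gs
  ins : ∀ v, MIns (H.cv v ∘ (D v).map) (nl K : LM ι M) (nn (vlines (D v).xs))
  shell : ∀ v, ∀ p ∈ (D v).shell, H.cv v p ∈ base K →
    p ∈ (D v).map '' Qb (9 / 8) ∨ H.cv v p ∈ H.tubes R ε
  cyl : Disjoint (base K) (H.cyl R ε)

end Pool.Agent.P.MP_ac4909_gt.B
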