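import Pool.Agent.P.MP_ac4909_gt.B.MLink

/-! Elementary consequences of the handle data. -/

namespace Pool.Agent.P.MP_ac4909_gt.B

open scoped Manifold ContDiff
open Set Filter Topology Metric

variable {M : Type*} [TopologicalSpace M] [ChartedSpace E3 M] {ι Vx : Type}

theorem continuous_rad : Continuous rad := by
  unfold rad
  fun_prop

theorem rad_eq_zero {p : E3} : rad p = 0 ↔ p ∈ axis := by
  rw [rad, Real.sqrt_eq_zero (by positivity)]
  constructor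
  · intro h
    exact ⟨by nlinarith [sq_nonneg (p 0), sq_nonneg (p 1)],
      by nlinarith [sq_nonneg (p 0), sq_nonneg (p 1)]⟩
  · rintro ⟨h0, h1⟩
    rw [h0, h1]; norm_num

theorem MHd_sad0 (t : ℝ) (p : E3) : sad t p 0 = Real.exp t * p 0 := rfl

theorem MHd_sad1 (t : ℝ) (p : E3) : sad t p 1 = Real.exp t * p 1 := rfl

theorem MHd_sad2 (t : ℝ) (p : E3) : sad t p 2 = Real.exp (-t) * p 2 := rfl

theorem MHd_ext {p q : E3} (h0 : p 0 = q 0) (h1 : p 1 = q 1) (h2 : p 2 = q 2) : p = q := by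
  ext i
  fin_cases i
  exacts [h0, h1, h2]

theorem rad_sad (t : ℝ) (p : E3) : rad (sad t p) = Real.exp t * rad p := by
  rw [rad, rad, MHd_sad0, MHd_sad1, mul_pow, mul_pow, ← mul_add, Real.sqrt_mul (sq_nonneg _),
    Real.sqrt_sq (Real.exp_pos t).le]

theorem sad_mem_Dom {t : ℝ} {p : E3} : sad t p ∈ Dom ↔ p ∈ Dom := by
  have h : rad (sad t p) * |sad t p 2| = rad p * |p 2| := by
    rw [rad_sad, MHd_sad2, abs_mul, abs_of_pos (Real.exp_pos _), Real.exp_neg]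
    field_simp
  simp only [Dom, mem_ofPred_eq, h]

theorem axis_subset_Dom : axis ⊆ Dom := fun p hp => by
  simp only [Dom, mem_ofPred_eq, rad_eq_zero.2 hp, zero_mul, zero_lt_one]

theorem isOpen_Dom : IsOpen Dom :=
  isOpen_lt (continuous_rad.mul (by fun_prop)) continuous_const

theorem MHd_rad_polar {r : ℝ} (hr : 0 ≤ r) (a z : ℝ) :
    rad !₂[r * Real.cos a, r * Real.sin a, z] = r := by
  change √((r * Real.cos a) ^ 2 + (r * Real.sin a) ^ 2) = r
  rw [mul_pow, mul_pow, ← mul_add, Real.cos_sq_add_sin_sq, mul_one, Real.sqrt_sq hr]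

theorem rad_circ {ε : ℝ} (hε : 0 ≤ ε) (z t : ℝ) : rad (circ ε z t) = ε :=
  MHd_rad_polar hε _ _

theorem rad_cylc (p : E3) : rad (cylc p) = Real.exp (p 0) :=
  MHd_rad_polar (Real.exp_pos _).le _ _

theorem cylc_mem_Dom {p : E3} : cylc p ∈ Dom ↔ |p 2| < 1 := by
  have h : rad (cylc p) * |cylc p 2| = |p 2| := by
    rw [rad_cylc]
    change _ * |p 2 * Real.exp (-p 0)| = _
    rw [abs_mul, abs_of_pos (Real.exp_pos _), Real.exp_neg]
    field_simp
  simp only [Dom, mem_ofPred_eq, h]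

theorem cylc_contDiff : ContDiff ℝ ∞ cylc := by
  rw [contDiff_euclidean]
  intro i
  fin_cases i
  · change ContDiff ℝ ∞ fun p : E3 => Real.exp (p 0) * Real.cos (p 1)
    fun_prop
  · change ContDiff ℝ ∞ fun p : E3 => Real.exp (p 0) * Real.sin (p 1)
    fun_prop
  · change ContDiff ℝ ∞ fun p : E3 => p 2 * Real.exp (-p 0)
    fun_prop

theorem MHd_fderiv_apply {f : E3 → E3} {p : E3} (hf : DifferentiableAt ℝ f p) (v : E3) (i : Fin 3) :
    fderiv ℝ f p v i = fderiv ℝ (fun q => f q i) p v := by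
  have h := ((EuclideanSpace.proj i : E3 →L[ℝ] ℝ).hasFDerivAt.comp p hf.hasFDerivAt).fderiv
  change _ = fderiv ℝ ((EuclideanSpace.proj i : E3 →L[ℝ] ℝ) ∘ f) p v
  rw [h]; rfl

theorem MHd_fderiv_cylc (p v : E3) : fderiv ℝ cylc p v =
    !₂[Real.exp (p 0) * (Real.cos (p 1) * v 0 - Real.sin (p 1) * v 1),
      Real.exp (p 0) * (Real.sin (p 1) * v 0 + Real.cos (p 1) * v 1),
      Real.exp (-p 0) * (v 2 - p 2 * v 0)] := by
  have hd : DifferentiableAt ℝ cylc p := cylc_contDiff.differentiable (by simp) p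
  have h : ∀ i, HasFDerivAt (fun q : E3 => q i) (EuclideanSpace.proj i : E3 →L[ℝ] ℝ) p := fun i =>
    (EuclideanSpace.proj i : E3 →L[ℝ] ℝ).hasFDerivAt
  refine MHd_ext ?_ ?_ ?_ <;> rw [MHd_fderiv_apply hd]
  · change fderiv ℝ ((fun q : E3 => Real.exp (q 0)) * fun q : E3 => Real.cos (q 1)) p v = _
    rw [((h 0).exp.mul (h 1).cos).fderiv]
    simp; ring
  · change fderiv ℝ ((fun q : E3 => Real.exp (q 0)) * fun q : E3 => Real.sin (q 1)) p v = _
    rw [((h 0).exp.mul (h 1).sin).fderiv]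
    simp; ring
  · change fderiv ℝ ((fun q : E3 => q 2) * fun q : E3 => Real.exp ((-fun q : E3 => q 0) q)) p v = _
    rw [((h 2).mul (h 0).neg.exp).fderiv]
    simp; ring

theorem det_fderiv_cylc (p : E3) : 0 < (fderiv ℝ cylc p).det := by
  rw [ContinuousLinearMap.det, ← LinearMap.det_toMatrix (EuclideanSpace.basisFun (Fin 3) ℝ).toBasis,
    Matrix.det_fin_three]
  simp only [LinearMap.toMatrix_apply, ContinuousLinearMap.coe_coe, MHd_fderiv_cylc]
  simp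
  have h1 := Real.cos_sq_add_sin_sq (p 1)
  have h2 := mul_pos (mul_pos (Real.exp_pos (p 0)) (Real.exp_pos (p 0))) (Real.exp_pos (-p 0))
  refine h2.trans_eq ?_
  linear_combination (-(Real.exp (p 0) * Real.exp (p 0) * Real.exp (-p 0))) * h1

theorem fderiv_cylc_ez (p : E3) : fderiv ℝ cylc p ez = Real.exp (-p 0) • ez := by
  rw [MHd_fderiv_cylc]
  refine MHd_ext ?_ ?_ ?_ <;> simp [ez]

theorem MHd_angle {a b : ℝ} (hc : Real.cos a = Real.cos b) (hs : Real.sin a = Real.sin b) :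
    ∃ k : ℤ, b = a + k * (2 * Real.pi) := by
  obtain ⟨k, hk⟩ := Real.Angle.angle_eq_iff_two_pi_dvd_sub.1
    (Real.Angle.cos_sin_inj hc.symm hs.symm)
  exact ⟨k, by linarith⟩

theorem cylc_eq_iff {p q : E3} :
    cylc p = cylc q ↔ p 0 = q 0 ∧ p 2 = q 2 ∧ ∃ k : ℤ, q 1 = p 1 + k * (2 * Real.pi) := by
  constructor
  · intro h
    have h0 : p 0 = q 0 := Real.exp_injective (by rw [← rad_cylc, ← rad_cylc, h])
    have e0 : Real.exp (p 0) * Real.cos (p 1) = Real.exp (q 0) * Real.cos (q 1) :=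
      congrArg (fun x : E3 => x 0) h
    have e1 : Real.exp (p 0) * Real.sin (p 1) = Real.exp (q 0) * Real.sin (q 1) :=
      congrArg (fun x : E3 => x 1) h
    have e2 : p 2 * Real.exp (-p 0) = q 2 * Real.exp (-q 0) := congrArg (fun x : E3 => x 2) h
    rw [h0] at e0 e1 e2
    exact ⟨h0, mul_right_cancel₀ (Real.exp_pos _).ne' e2,
      MHd_angle (mul_left_cancel₀ (Real.exp_pos _).ne' e0) (mul_left_cancel₀ (Real.exp_pos _).ne' e1)⟩
  · rintro ⟨h0, h2, k, h1⟩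
    simp only [cylc, h0, h1, h2, Real.cos_add_int_mul_two_pi, Real.sin_add_int_mul_two_pi]

theorem sad_cylc (t : ℝ) (p : E3) : sad t (cylc p) = cylc (p + t • !₂[1, 0, 0]) := by
  refine MHd_ext ?_ ?_ ?_ <;> simp [sad, cylc, Real.exp_add] <;> ring

theorem MHd_fderiv_sad (t : ℝ) (p : E3) :
    DifferentiableAt ℝ (sad t) p ∧ ∀ n, fderiv ℝ (sad t) p n = sad t n := by
  let L : E3 →ₗ[ℝ] E3 :=
    { toFun := sad t
      map_add' := fun x y => MHd_ext (mul_add _ _ _) (mul_add _ _ _) (mul_add _ _ _)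
      map_smul' := fun a x => MHd_ext (mul_left_comm _ _ _) (mul_left_comm _ _ _)
        (mul_left_comm _ _ _) }
  have h : HasFDerivAt (sad t) (LinearMap.toContinuousLinearMap L) p :=
    (LinearMap.toContinuousLinearMap L).hasFDerivAt
  exact ⟨h.differentiableAt, fun n => by rw [h.fderiv]; rfl⟩

theorem MHd_pushT_congr {ψ ψ' : E3 → M} {p : E3} (h : ψ =ᶠ[𝓝 p] ψ') (n : E3) :
    pushT ψ p n = pushT ψ' p n := by
  rw [pushT, pushT, jac_congr h, h.eq_of_nhds]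

theorem MHd_chartAt {e : OpenPartialHomeomorph E3 M} (h : IsPChart e) {p : E3} (hp : p ∈ e.source) :
    ContMDiffAt (𝓡 3) (𝓡 3) ∞ e p := h.smooth.contMDiffAt (e.open_source.mem_nhds hp)

theorem MHd_sad_axis (t a : ℝ) : sad t (a • ez) = (Real.exp (-t) * a) • ez := by
  refine MHd_ext ?_ ?_ ?_ <;> simp [sad, ez]

theorem MHd_mem_axis (a : ℝ) : a • ez ∈ axis := by simp [axis, ez]

theorem MHd_axis_eq {p : E3} (hp : p ∈ axis) : p = p 2 • ez := by
  refine MHd_ext ?_ ?_ ?_ <;> simp [ez, hp.1, hp.2]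

theorem MHd_sign {z : ℝ} (hz : z ≠ 0) :
    Real.exp (-Real.log |z|) * z = 1 ∨ Real.exp (-Real.log |z|) * z = -1 := by
  rw [Real.exp_neg, Real.exp_log (abs_pos.2 hz)]
  rcases lt_or_gt_of_ne hz with h | h
  · right
    rw [abs_of_neg h]
    field_simp
  · left
    rw [abs_of_pos h]
    field_simp

theorem MHd_circ_mem {ε : ℝ} (t : ℝ) : circ ε 0 t ∈ Dom := by
  change rad _ * |(0 : ℝ)| < 1
  simp

theorem MHd_circ_link {ε : ℝ} (hε : 0 < ε) :
    (⟨fun _ t => circ ε 0 t, fun _ _ => (2 * ε)⁻¹ • ez⟩ : Lk Unit).IsLink := by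
  have hs : ContDiff ℝ ∞ (circ ε 0) := by
    rw [contDiff_euclidean]
    intro i
    fin_cases i
    · change ContDiff ℝ ∞ fun t : ℝ => ε * Real.cos (2 * Real.pi * t)
      fun_prop
    · change ContDiff ℝ ∞ fun t : ℝ => ε * Real.sin (2 * Real.pi * t)
      fun_prop
    · change ContDiff ℝ ∞ fun _ : ℝ => (0 : ℝ)
      fun_prop
  have hd : ∀ t i, HasDerivAt (fun u => circ ε 0 u i) (deriv (circ ε 0) t i) t := fun t i =>
    (EuclideanSpace.proj i : E3 →L[ℝ] ℝ).hasFDerivAt.comp_hasDerivAt t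
      (hs.differentiable (by simp) t).hasDerivAt
  have hl : ∀ t : ℝ, HasDerivAt (fun u : ℝ => 2 * Real.pi * u) (2 * Real.pi) t := fun t => by
    simpa using (hasDerivAt_id t).const_mul (2 * Real.pi)
  have d0 : ∀ t, deriv (circ ε 0) t 0 = ε * (-Real.sin (2 * Real.pi * t) * (2 * Real.pi)) :=
    fun t => (hd t 0).unique ((hl t).cos.const_mul ε)
  have d1 : ∀ t, deriv (circ ε 0) t 1 = ε * (Real.cos (2 * Real.pi * t) * (2 * Real.pi)) :=
    fun t => (hd t 1).unique ((hl t).sin.const_mul ε)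
  have d2 : ∀ t, deriv (circ ε 0) t 2 = 0 := fun t => (hd t 2).unique (hasDerivAt_const t (0 : ℝ))
  have imm : ∀ t, deriv (circ ε 0) t ≠ 0 := fun t h => by
    have e0 := d0 t
    have e1 := d1 t
    rw [h] at e0 e1
    have hp : (2 * Real.pi) ≠ 0 := by positivity
    have f0 := (mul_eq_zero.1 ((mul_eq_zero.1 e0.symm).resolve_left hε.ne')).resolve_right hp
    have f1 := (mul_eq_zero.1 ((mul_eq_zero.1 e1.symm).resolve_left hε.ne')).resolve_right hp
    have := Real.cos_sq_add_sin_sq (2 * Real.pi * t)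
    rw [neg_eq_zero.1 f0, f1] at this
    norm_num at this
  refine ⟨⟨fun _ => hs, fun _ t => ?_, fun _ _ s t h => ⟨rfl, ?_⟩, fun _ => imm⟩,
    fun _ => contDiff_const, fun _ _ => rfl, fun _ t => ?_⟩
  · simp only [circ, mul_add, mul_one, Real.cos_add_two_pi, Real.sin_add_two_pi]
  · have e0 : ε * Real.cos (2 * Real.pi * s) = ε * Real.cos (2 * Real.pi * t) :=
      congrArg (fun x : E3 => x 0) h
    have e1 : ε * Real.sin (2 * Real.pi * s) = ε * Real.sin (2 * Real.pi * t) :=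
      congrArg (fun x : E3 => x 1) h
    obtain ⟨k, hk⟩ := MHd_angle (mul_left_cancel₀ hε.ne' e0) (mul_left_cancel₀ hε.ne' e1)
    refine ⟨k, mul_left_cancel₀ (a := 2 * Real.pi) (by positivity) ?_⟩
    rw [hk]; ring
  · refine LinearIndependent.pair_iff.2 fun a b hab => ?_
    have e2 : a * deriv (circ ε 0) t 2 + b * ((2 * ε)⁻¹ * 1) = 0 := congrArg (fun x : E3 => x 2) hab
    rw [d2, mul_zero, zero_add, mul_one] at e2
    obtain rfl : b = 0 := (mul_eq_zero.1 e2).resolve_right (by positivity)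
    rw [zero_smul, add_zero] at hab
    exact ⟨(smul_eq_zero.1 hab).resolve_right (imm t), rfl⟩

namespace HD
variable (H : HD M ι Vx)

theorem contMDiff_Φ (t : ℝ) : ContMDiff (𝓡 3) (𝓡 3) ∞ (H.Φ t) :=
  H.Φ_smooth.comp (contMDiff_const.prodMk contMDiff_id)

theorem Φ_neg_Φ (t : ℝ) (x : M) : H.Φ (-t) (H.Φ t x) = x := by
  rw [← H.Φ_add, neg_add_cancel, H.Φ_zero]

theorem Φ_injective (t : ℝ) : Function.Injective (H.Φ t) :=
  Function.LeftInverse.injective (H.Φ_neg_Φ t)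

theorem MHd_mdiff (t : ℝ) (x : M) : MDifferentiableAt (𝓡 3) (𝓡 3) (H.Φ t) x :=
  (H.contMDiff_Φ t x).mdifferentiableAt (by simp)

theorem MHd_ce_at (e : ι) {p : E3} (hp : p ∈ Dom) : ContMDiffAt (𝓡 3) (𝓡 3) ∞ (H.ce e) p :=
  MHd_chartAt (H.ce_chart e) (H.ce_source e ▸ hp)

theorem MHd_cv_at (v : Vx) (p : E3) : ContMDiffAt (𝓡 3) (𝓡 3) ∞ (H.cv v) p :=
  MHd_chartAt (H.cv_chart v) (H.cv_source v ▸ mem_univ p)

theorem MHd_ce_target (e : ι) {p : E3} (hp : p ∈ Dom) : H.ce e p ∈ (H.ce e).target :=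
  (H.ce e).map_source (H.ce_source e ▸ hp)

theorem MHd_ce_inj {e e' : ι} {p q : E3} (hp : p ∈ Dom) (hq : q ∈ Dom)
    (h : H.ce e p = H.ce e' q) : e = e' ∧ p = q := by
  obtain rfl : e = e' := by
    by_contra hne
    exact Set.disjoint_left.1 (H.ce_disj hne) (H.MHd_ce_target e hp) (h ▸ H.MHd_ce_target e' hq)
  exact ⟨rfl, (H.ce e).injOn (H.ce_source e ▸ hp) (H.ce_source e ▸ hq) h⟩

theorem MHd_cv_inj {v v' : Vx} {p q : E3} (h : H.cv v p = H.cv v' q) : v = v' ∧ p = q := by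
  have ht : ∀ v p, H.cv v p ∈ (H.cv v).target := fun v p =>
    (H.cv v).map_source (H.cv_source v ▸ mem_univ p)
  obtain rfl : v = v' := by
    by_contra hne
    exact Set.disjoint_left.1 (H.cv_disj hne) (ht v p) (h ▸ ht v' q)
  exact ⟨rfl, (H.cv v).injOn (H.cv_source v ▸ mem_univ p) (H.cv_source v ▸ mem_univ q) h⟩

theorem MHd_axis_gs (e : ι) {p : E3} (hp : p ∈ axis) : H.ce e p ∈ H.gs :=
  Or.inl (mem_iUnion.2 ⟨e, p, hp, rfl⟩)

theorem MHd_cases_gs {x : M} (hx : x ∈ H.gs) :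
    (∃ e, ∃ a : ℝ, x = H.ce e (a • ez)) ∨ ∃ v, x = H.cv v 0 := by
  rcases hx with hx | ⟨v, hv⟩
  · obtain ⟨e, p, hp, rfl⟩ := mem_iUnion.1 hx
    exact Or.inl ⟨e, p 2, congrArg _ (MHd_axis_eq hp)⟩
  · exact Or.inr ⟨v, hv.symm⟩

theorem MHd_flow_axis (e : ι) (t a : ℝ) :
    H.Φ t (H.ce e (a • ez)) = H.ce e ((Real.exp (-t) * a) • ez) := by
  rw [H.ce_flow e t _ (axis_subset_Dom (MHd_mem_axis a)), MHd_sad_axis]

theorem tm_Φ_add (s t : ℝ) (x : TM M) : tm (H.Φ (s + t)) x = tm (H.Φ s) (tm (H.Φ t) x) := by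
  rw [← tm_comp (H.MHd_mdiff s _) (H.MHd_mdiff t _)]
  congr 1
  exact funext (H.Φ_add s t)

theorem Φ_mem_gs {t : ℝ} {x : M} : H.Φ t x ∈ H.gs ↔ x ∈ H.gs := by
  have h : ∀ t x, x ∈ H.gs → H.Φ t x ∈ H.gs := fun t x hx => by
    rcases H.MHd_cases_gs hx with ⟨e, a, rfl⟩ | ⟨v, rfl⟩
    · rw [H.MHd_flow_axis]
      exact H.MHd_axis_gs e (MHd_mem_axis _)
    · rw [H.cv_flow, smul_zero]
      exact Or.inr ⟨v, rfl⟩
  exact ⟨fun hx => H.Φ_neg_Φ t x ▸ h (-t) _ hx, h t x⟩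

theorem ce_mem_gs {e : ι} {p : E3} (hp : p ∈ Dom) : H.ce e p ∈ H.gs ↔ p ∈ axis := by
  refine ⟨fun h => ?_, H.MHd_axis_gs e⟩
  rcases H.MHd_cases_gs h with ⟨e', a, h'⟩ | ⟨v, h'⟩
  · rw [(H.MHd_ce_inj hp (axis_subset_Dom (MHd_mem_axis a)) h').2]
    exact MHd_mem_axis a
  · exact absurd (h' ▸ H.MHd_ce_target e hp) (H.cv_zero v e)

theorem cv_smul_mem_gs {v : Vx} {p : E3} {a : ℝ} (ha : 0 < a) :
    H.cv v (a • p) ∈ H.gs ↔ H.cv v p ∈ H.gs := by
  rw [← Real.exp_log ha, ← H.cv_flow, H.Φ_mem_gs]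

theorem tm_Φ_cv (v : Vx) (t : ℝ) (p n : E3) :
    tm (H.Φ t) (pushT (H.cv v) p n) = pushT (H.cv v) (Real.exp t • p) (Real.exp t • n) := by
  have h : HasFDerivAt (fun q : E3 => Real.exp t • q) (Real.exp t • ContinuousLinearMap.id ℝ E3) p :=
    (hasFDerivAt_id p).const_smul (Real.exp t)
  rw [tm_pushT (H.MHd_mdiff t _) ((H.MHd_cv_at v p).mdifferentiableAt (by simp)),
    show H.Φ t ∘ H.cv v = H.cv v ∘ fun q => Real.exp t • q from funext (H.cv_flow v t),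
    pushT_comp ((H.MHd_cv_at v _).mdifferentiableAt (by simp)) h.differentiableAt, h.fderiv]
  rfl

theorem tm_Φ_ce (e : ι) (t : ℝ) {p : E3} (hp : p ∈ Dom) (n : E3) :
    tm (H.Φ t) (pushT (H.ce e) p n) = pushT (H.ce e) (sad t p) (sad t n) := by
  have h : H.Φ t ∘ H.ce e =ᶠ[𝓝 p] H.ce e ∘ sad t :=
    Filter.eventually_of_mem (isOpen_Dom.mem_nhds hp) fun q hq => H.ce_flow e t q hq
  rw [tm_pushT (H.MHd_mdiff t _) ((H.MHd_ce_at e hp).mdifferentiableAt (by simp)),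
    MHd_pushT_congr h, pushT_comp ((H.MHd_ce_at e (sad_mem_Dom.2 hp)).mdifferentiableAt (by simp))
      (MHd_fderiv_sad t p).1, (MHd_fderiv_sad t p).2]

theorem tm_Φ_cylc (e : ι) (t : ℝ) {p : E3} (hp : |p 2| < 1) (n : E3) :
    tm (H.Φ t) (pushT (H.ce e ∘ cylc) p n) =
      pushT (H.ce e ∘ cylc) (p + t • !₂[1, 0, 0]) n := by
  have hd : ∀ q : E3, |q 2| < 1 → MDifferentiableAt (𝓡 3) (𝓡 3) (H.ce e ∘ cylc) q := fun q hq =>
    ((H.MHd_ce_at e (cylc_mem_Dom.2 hq)).comp q cylc_contDiff.contMDiff.contMDiffAt).mdifferentiableAt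
      (by simp)
  have ho : IsOpen {q : E3 | |q 2| < 1} := isOpen_lt (by fun_prop) continuous_const
  have h : H.Φ t ∘ (H.ce e ∘ cylc) =ᶠ[𝓝 p] (H.ce e ∘ cylc) ∘ fun q => q + t • !₂[1, 0, 0] :=
    Filter.eventually_of_mem (ho.mem_nhds hp) fun q hq => by
      simp only [Function.comp_apply]
      rw [H.ce_flow e t _ (cylc_mem_Dom.2 hq), sad_cylc]
  have h1 : HasFDerivAt (fun q : E3 => q + t • !₂[1, 0, 0]) (ContinuousLinearMap.id ℝ E3) p :=
    (hasFDerivAt_id p).add_const _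
  rw [tm_pushT (H.MHd_mdiff t _) (hd p hp), MHd_pushT_congr h,
    pushT_comp (hd _ (by simpa using hp)) h1.differentiableAt, h1.fderiv]
  rfl

variable [Fintype ι] [Fintype Vx]

theorem isCompact_gs : IsCompact H.gs := by
  have h1 : ∀ e (b : Bool), ∃ v d, H.ce e ((if b then 1 else -1 : ℝ) • ez) = H.cv v d := fun e b => by
    obtain ⟨v, C, h⟩ := H.ends e (if b then 1 else -1) (by cases b <;> simp)
    obtain ⟨d, -, hd⟩ := h _ (axis_subset_Dom (MHd_mem_axis (if b then 1 else -1)))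
      (by cases b <;> simp [ez])
    exact ⟨v, d, hd⟩
  choose v d hd using h1
  have e1 : H.gs = (⋃ e, (fun a : ℝ => H.ce e (a • ez)) '' Icc (-1) 1) ∪
      (⋃ e, ⋃ b, (fun a : ℝ => H.cv (v e b) (a • d e b)) '' Icc 0 1) ∪ range fun v => H.cv v 0 := by
    refine Subset.antisymm (fun x hx => ?_) (union_subset (union_subset ?_ ?_) subset_union_right)
    · rcases H.MHd_cases_gs hx with ⟨e, a, rfl⟩ | ⟨v, rfl⟩
      · by_cases ha : |a| ≤ 1
        · exact Or.inl (Or.inl (mem_iUnion.2 ⟨e, a, abs_le.1 ha, rfl⟩))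
        · have ha' : 1 < |a| := not_le.1 ha
          have h0 : a ≠ 0 := by
            rintro rfl
            norm_num at ha'
          obtain ⟨b, hb⟩ : ∃ b : Bool, Real.exp (-Real.log |a|) * a = if b then 1 else -1 :=
            (MHd_sign h0).elim (fun h => ⟨true, h⟩) fun h => ⟨false, h⟩
          refine Or.inl (Or.inr (mem_iUnion₂.2 ⟨e, b, Real.exp (-Real.log |a|),
            ⟨(Real.exp_pos _).le, Real.exp_le_one_iff.2 (neg_nonpos.2 (Real.log_nonneg ha'.le))⟩,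
            ?_⟩))
          simp only
          rw [← H.cv_flow, ← hd, ← hb, ← H.MHd_flow_axis, H.Φ_neg_Φ]
      · exact Or.inr ⟨v, rfl⟩
    · refine iUnion_subset fun e => ?_
      rintro _ ⟨a, -, rfl⟩
      exact H.MHd_axis_gs e (MHd_mem_axis a)
    · refine iUnion₂_subset fun e b => ?_
      rintro _ ⟨a, ha, rfl⟩
      rcases ha.1.eq_or_lt with rfl | ha'
      · exact Or.inr ⟨v e b, by simp⟩
      · simp only
        rw [H.cv_smul_mem_gs ha', ← hd]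
        exact H.MHd_axis_gs e (MHd_mem_axis _)
  rw [e1]
  refine ((isCompact_iUnion fun e => isCompact_Icc.image ?_).union (isCompact_iUnion fun e =>
    isCompact_iUnion fun b => isCompact_Icc.image ?_)).union (finite_range _).isCompact
  · exact continuous_iff_continuousAt.2 fun a =>
      ContinuousAt.comp (f := fun a : ℝ => a • ez)
        (H.MHd_ce_at e (axis_subset_Dom (MHd_mem_axis a))).continuousAt (by fun_prop)
  · exact continuous_iff_continuousAt.2 fun a =>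
      ContinuousAt.comp (f := fun a : ℝ => a • d e b) (H.MHd_cv_at _ _).continuousAt (by fun_prop)

/-- inside a vertex chart the graph consists of finitely many rays -/
theorem exists_rays (v : Vx) : ∃ D : Set E3, D.Finite ∧ 0 ∉ D ∧
    ∀ p, H.cv v p ∈ H.gs ↔ p = 0 ∨ ∃ d ∈ D, ∃ a : ℝ, 0 < a ∧ p = a • d := by
  refine ⟨H.cv v ⁻¹' range fun x : ι × Bool => H.ce x.1 ((if x.2 then 1 else -1 : ℝ) • ez),
    (finite_range _).preimage fun p _ q _ h => (H.MHd_cv_inj h).2, ?_, fun p => ⟨fun h => ?_, ?_⟩⟩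
  · rintro ⟨x, hx⟩
    exact H.cv_zero v x.1 (hx ▸ H.MHd_ce_target x.1 (axis_subset_Dom (MHd_mem_axis _)))
  · rcases H.MHd_cases_gs h with ⟨e, a, h'⟩ | ⟨v', h'⟩
    · by_cases h0 : a = 0
      · left
        have h1 := H.MHd_flow_axis e 1 a
        rw [h0, mul_zero, ← h0, ← h', H.cv_flow] at h1
        have h2 : (Real.exp 1 - 1) • p = 0 := by rw [sub_smul, (H.MHd_cv_inj h1).2, one_smul, sub_self]
        exact (smul_eq_zero.1 h2).resolve_left (sub_pos.2 (Real.one_lt_exp_iff.2 one_pos)).ne'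
      · obtain ⟨b, hb⟩ : ∃ b : Bool, Real.exp (-Real.log |a|) * a = if b then 1 else -1 :=
          (MHd_sign h0).elim (fun h => ⟨true, h⟩) fun h => ⟨false, h⟩
        refine Or.inr ⟨Real.exp (Real.log |a|) • p, ⟨(e, b), ?_⟩, Real.exp (-Real.log |a|),
          Real.exp_pos _, ?_⟩
        · simp only
          rw [← H.cv_flow, h', H.MHd_flow_axis, hb]
        · rw [smul_smul, ← Real.exp_add, neg_add_cancel, Real.exp_zero, one_smul]
    · exact Or.inl (H.MHd_cv_inj h').2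
  · rintro (rfl | ⟨d, ⟨x, hx⟩, a, ha, rfl⟩)
    · exact Or.inr ⟨v, rfl⟩
    · rw [H.cv_smul_mem_gs ha, ← hx]
      exact H.MHd_axis_gs _ (MHd_mem_axis _)

/-- far parts of the edge charts lie in small balls -/
theorem exists_far : ∃ C > 0, ∀ e, ∀ p ∈ Dom, ∀ ρ, p 2 ≠ 0 → C < ρ * |p 2| →
    H.ce e p ∈ H.balls ρ := by
  choose v C h using fun x : ι × Bool => H.ends x.1 (if x.2 then 1 else -1) (by cases x.2 <;> simp)
  obtain ⟨C₀, hC₀⟩ := (finite_range C).bddAbove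
  refine ⟨max C₀ 1, lt_max_of_lt_right one_pos, fun e p hp ρ h0 hρ => ?_⟩
  obtain ⟨b, hb⟩ : ∃ b : Bool, Real.exp (-Real.log |p 2|) * p 2 = if b then 1 else -1 :=
    (MHd_sign h0).elim (fun h => ⟨true, h⟩) fun h => ⟨false, h⟩
  obtain ⟨d, h1, h2⟩ := h (e, b) (sad (Real.log |p 2|) p) (sad_mem_Dom.2 hp) hb
  refine mem_iUnion.2 ⟨v (e, b), Real.exp (-Real.log |p 2|) • d, ?_, ?_⟩
  · have h3 : ‖d‖ < ρ * |p 2| :=
      (h1.trans ((hC₀ (mem_range_self _)).trans (le_max_left _ _))).trans_lt hρ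
    rw [mem_ball_zero_iff, norm_smul, Real.norm_of_nonneg (Real.exp_pos _).le, Real.exp_neg,
      Real.exp_log (abs_pos.2 h0), inv_mul_lt_iff₀ (abs_pos.2 h0), mul_comm]
    exact h3
  · rw [← H.cv_flow, ← h2, ← H.ce_flow e _ p hp, H.Φ_neg_Φ]

variable [T2Space M]

/-- a compact set that misses the graph misses thin tubes, cylinders and small balls -/
theorem eventually_thin {K : Set M} (hK : IsCompact K) (hd : Disjoint K H.gs) :
    (∀ᶠ ρ in 𝓝[>] (0 : ℝ), Disjoint K (H.balls ρ)) ∧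
      ∀ R, ∀ᶠ ε in 𝓝[>] (0 : ℝ), Disjoint K (H.tubes R ε ∪ H.cyl R ε) := by
  have ho := hK.isClosed.isOpen_compl
  have hs : ∀ {δ : ℝ}, 0 < δ → ∀ᶠ ρ in 𝓝[>] (0 : ℝ), ρ < δ := fun hδ =>
    nhdsWithin_le_nhds (Iio_mem_nhds hδ)
  refine ⟨?_, fun R => ?_⟩
  · simp only [balls, disjoint_iUnion_right]
    refine eventually_all.2 fun v => ?_
    have h0 : H.cv v 0 ∈ Kᶜ := fun h => Set.disjoint_left.1 hd h (Or.inr ⟨v, rfl⟩)
    obtain ⟨δ, hδ, h⟩ := Metric.mem_nhds_iff.1 ((H.MHd_cv_at v 0).continuousAt (ho.mem_nhds h0))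
    filter_upwards [hs hδ] with ρ hρ
    refine Set.disjoint_right.2 ?_
    rintro _ ⟨p, hp, rfl⟩
    exact h (ball_subset_ball hρ.le hp)
  · have h1 : ∀ᶠ ε in 𝓝[>] (0 : ℝ), ∀ e p, rad p ≤ ε → |p 2| ≤ R → H.ce e p ∉ K := by
      refine eventually_all.2 fun e => ?_
      have hW : IsOpen (Dom ∩ H.ce e ⁻¹' Kᶜ) :=
        ContinuousOn.isOpen_inter_preimage (H.ce_source e ▸ (H.ce e).continuousOn) isOpen_Dom ho
      have hS : IsCompact ((fun a : ℝ => a • ez) '' Icc (-R) R) := isCompact_Icc.image (by fun_prop)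
      obtain ⟨δ, hδ, h⟩ := hS.exists_thickening_subset_open hW (by
        rintro _ ⟨a, -, rfl⟩
        exact ⟨axis_subset_Dom (MHd_mem_axis a), fun h =>
          Set.disjoint_left.1 hd h (H.MHd_axis_gs e (MHd_mem_axis a))⟩)
      filter_upwards [hs hδ] with ε hε p hp hp'
      refine (h (mem_thickening_iff.2 ⟨p 2 • ez, ⟨p 2, abs_le.1 hp', rfl⟩, ?_⟩)).2
      have e1 : dist p (p 2 • ez) = rad p := by
        rw [EuclideanSpace.dist_eq, Fin.sum_univ_three, rad]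
        simp [ez]
      rw [e1]
      exact hp.trans_lt hε
    filter_upwards [h1] with ε h
    refine Set.disjoint_right.2 ?_
    rintro x (hx | hx) <;> obtain ⟨e, p, hp, rfl⟩ := mem_iUnion.1 hx
    · exact h e p hp.1.le hp.2
    · exact h e p hp.1.le hp.2

theorem lbase_Y_subset {ε R : ℝ} (hε : 0 ≤ ε) (hR : 0 ≤ R) : lbase (H.Y ε) ⊆ H.cyl R ε := by
  rintro _ ⟨_, ⟨e, t, rfl⟩, rfl⟩
  exact mem_iUnion.2 ⟨e, circ ε 0 t, ⟨rad_circ hε 0 t, (abs_zero (α := ℝ)).le.trans hR⟩, rfl⟩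

theorem disjoint_cyl_gs {ε R : ℝ} (hε : 0 < ε) (h : ε * R < 1) :
    Disjoint (H.cyl R ε) H.gs := by
  refine Set.disjoint_left.2 fun x hx hg => ?_
  obtain ⟨e, p, hp, rfl⟩ := mem_iUnion.1 hx
  have hD : p ∈ Dom := by
    change rad p * |p 2| < 1
    rw [hp.1]
    exact (mul_le_mul_of_nonneg_left hp.2 hε.le).trans_lt h
  exact hε.ne' (hp.1.symm.trans (rad_eq_zero.2 ((H.ce_mem_gs hD).1 hg)))

variable [IsManifold (𝓡 3) ∞ M]

theorem isPM_Y {ε : ℝ} (hε : 0 < ε) : IsPM (H.Y ε) := by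
  have hm : ∀ p ∈ trace fun (_ : Unit) t => circ ε 0 t, p ∈ Dom := fun p hp => by
    obtain ⟨_, t, rfl⟩ := mem_iUnion.1 hp
    exact MHd_circ_mem t
  have h := fun e => (MHd_circ_link hε).push (ψ := H.ce e) (fun p hp => H.MHd_ce_at e (hm p hp))
    (fun p hp q hq h => (H.MHd_ce_inj (hm p hp) (hm q hq) h).2)
    fun p hp => ((H.ce_chart e).pos p (H.ce_source e ▸ hm p hp)).ne'
  refine ⟨ι, inferInstance, fun e t => pushT (H.ce e) (circ ε 0 t) ((2 * ε)⁻¹ • ez), some,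
    ⟨fun e => (h e).smooth (), fun e => (h e).per (), fun e e' s t he => ?_, fun e => (h e).indep ()⟩,
    rfl, fun i => ⟨i, rfl, fun c hc => Option.some_injective _ hc⟩⟩
  obtain rfl := (H.MHd_ce_inj (MHd_circ_mem s) (MHd_circ_mem t) he).1
  exact ⟨rfl, ((h e).inj () () s t he).2⟩

theorem isPM_tot {X : Set (TM M)} (hX : IsLS X) {ε : ℝ} (hε : 0 < ε)
    (hd : Disjoint (base X) (lbase (H.Y ε))) : IsPM (H.tot X ε) :=
  IsPM.nl_union hX (H.isPM_Y hε) hd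

omit [Fintype ι] [Fintype Vx] [T2Space M] [IsManifold (𝓡 3) ∞ M] in
theorem MHd_lbase_nl (X : Set (TM M)) : lbase (nl X : LM ι M) = base X := by
  ext x
  constructor
  · rintro ⟨y, hy, rfl⟩
    exact ⟨y.2, hy.2, rfl⟩
  · rintro ⟨y, hy, rfl⟩
    exact ⟨(none, y), ⟨rfl, hy⟩, rfl⟩

omit [Fintype ι] [Fintype Vx] [T2Space M] [IsManifold (𝓡 3) ∞ M] in
theorem MHd_tm_Y (e : ι) (ε s t : ℝ) :
    tm (H.Φ (-s)) (pushT (H.ce e) (circ ε 0 t) ((2 * ε)⁻¹ • ez)) =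
      pushT (H.ce e) (circ (ε * Real.exp (-s)) 0 t) ((2 * (ε * Real.exp (-s)))⁻¹ • ez) := by
  rw [H.tm_Φ_ce e _ (MHd_circ_mem t), MHd_sad_axis]
  congr 1
  · refine MHd_ext ?_ ?_ ?_ <;> simp [sad, circ] <;> ring
  · rw [← mul_assoc, mul_inv (2 * ε), Real.exp_neg (-s), mul_comm]

/-- Flow the part `J` and the surgery curves backwards inside a backward invariant region. -/
theorem isoM_back {X J : Set (TM M)} (hX : IsLS X) (hJ : IsLS J) {ε : ℝ} (hε : 0 < ε) {O : Set M}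
    (hO : ∀ t ≥ 0, MapsTo (H.Φ (-t)) O O) (hJO : base J ⊆ O) (hY : lbase (H.Y ε) ⊆ O)
    (hJY : Disjoint (base J) (lbase (H.Y ε))) (hXO : Disjoint (base X) O)
    (hXg : Disjoint (base X) H.gs) (hJg : Disjoint (base J) H.gs) {s : ℝ} (hs : 0 ≤ s) :
    IsoM H.gsᶜ (H.tot (X ∪ J) ε)
      (H.tot (X ∪ tm (H.Φ (-s)) '' J) (ε * Real.exp (-s))) := by
  obtain ⟨κ, _, Γ, ℓ, hΓ, hS⟩ := (H.isPM_tot hJ hε hJY).isLM
  have hb : base (trace Γ) ⊆ O ∩ H.gsᶜ := by
    rintro _ ⟨x, hx, rfl⟩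
    obtain ⟨c, t, rfl⟩ := mem_iUnion.1 hx
    have h1 : (ℓ c, Γ c t) ∈ H.tot J ε := hS ▸ ⟨c, t, rfl⟩
    rcases h1 with h1 | h1
    · have h2 : (Γ c t).proj ∈ base J := ⟨_, h1.2, rfl⟩
      exact ⟨hJO h2, Set.disjoint_left.1 hJg h2⟩
    · have h2 : (Γ c t).proj ∈ lbase (H.Y ε) := ⟨_, h1, rfl⟩
      exact ⟨hY h2, Set.disjoint_left.1 (H.disjoint_cyl_gs (R := 0) hε (by simp))
        (H.lbase_Y_subset hε.le le_rfl h2)⟩
  have h1 := hΓ.isIso_const.tm (f := fun σ => H.Φ (-(σ * s))) (A' := O ∩ H.gsᶜ)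
    (H.Φ_smooth.comp (f := fun p : ℝ × M => (-(p.1 * s), p.2))
      ((((contDiff_id.mul contDiff_const).neg.contMDiff).comp contMDiff_fst).prodMk contMDiff_snd))
    (fun σ _ => (H.Φ_injective _).injOn) (fun σ _ x _ => (H.Φ_pos _ x).ne')
    fun σ hσ x hx => ⟨hO _ (mul_nonneg hσ.1 hs) (hb hx).1, fun h => (hb hx).2 (H.Φ_mem_gs.1 h)⟩
  have h2 : IsoM (O ∩ H.gsᶜ) (H.tot J ε) (H.tot (tm (H.Φ (-s)) '' J) (ε * Real.exp (-s))) := by
    refine ⟨κ, inferInstance, _, ℓ, h1, ?_, ?_⟩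
    · rw [hS]
      congr 1
      funext c t
      rw [zero_mul, neg_zero, show H.Φ 0 = id from funext H.Φ_zero, tm_id]
    · have e1 : lset (fun c t => tm (H.Φ (-(1 * s))) (Γ c t)) ℓ =
          (fun x => (x.1, tm (H.Φ (-s)) x.2)) '' H.tot J ε := by
        rw [hS, one_mul]
        ext x
        constructor
        · rintro ⟨c, t, rfl⟩
          exact ⟨_, ⟨c, t, rfl⟩, rfl⟩
        · rintro ⟨_, ⟨c, t, rfl⟩, rfl⟩
          exact ⟨c, t, rfl⟩
      refine Eq.trans ?_ e1.symm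
      ext x
      constructor
      · rintro (⟨h3, y, hy, h4⟩ | ⟨e, t, rfl⟩)
        · exact ⟨(none, y), Or.inl ⟨rfl, hy⟩, Prod.ext h3.symm h4⟩
        · exact ⟨_, Or.inr ⟨e, t, rfl⟩, Prod.ext rfl (H.MHd_tm_Y e ε s t)⟩
      · rintro ⟨y, hy | ⟨e, t, rfl⟩, rfl⟩
        · exact Or.inl ⟨hy.1, y.2, hy.2, rfl⟩
        · exact Or.inr ⟨e, t, Prod.ext rfl (H.MHd_tm_Y e ε s t)⟩
  have h3 := (h2.union hX.nl (by
    rw [MHd_lbase_nl]
    exact hXO.mono_right inter_subset_left)).mono (A' := H.gsᶜ) (union_subset inter_subset_right (by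
      rw [MHd_lbase_nl]
      exact hXg.subset_compl_right))
  have e2 : ∀ (Z : Set (TM M)) (η : ℝ), H.tot (X ∪ Z) η = H.tot Z η ∪ nl X := fun Z η => by
    ext x
    simp only [tot, nl, mem_union, mem_ofPred_eq]
    tauto
  rw [e2, e2]
  exact h3

/-- backward images of an inner skein are eventually thin -/
theorem eventually_back {J : Set (TM M)} {ρ R ε : ℝ} (hε : 0 < ε) (hR : 0 < R) (hεR : ε * R < 1)
    (hJ : base J ⊆ H.tubes R ε ∪ H.balls ρ) (hc : Disjoint (base J) (H.cyl R ε)) {ρ' : ℝ}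
    (hρ' : 0 < ρ') : ∀ᶠ R' in atTop, ∀ᶠ s in atTop,
      base (tm (H.Φ (-s)) '' J) ⊆ H.tubes R' (ε * Real.exp (-s)) ∪ H.balls ρ' ∧
        Disjoint (base (tm (H.Φ (-s)) '' J)) (H.cyl R' (ε * Real.exp (-s))) := by
  obtain ⟨C, hC, hfar⟩ := H.exists_far
  have hlim : ∀ (a : ℝ) {b : ℝ}, 0 < b → ∀ᶠ s in atTop, Real.exp (-s) * a < b := fun a b hb => by
    have h := Real.tendsto_exp_neg_atTop_nhds_zero.mul_const a
    rw [zero_mul] at h
    exact h.eventually (Iio_mem_nhds hb)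
  filter_upwards [eventually_ge_atTop (C / ρ')] with R' hR'
  filter_upwards [hlim ρ hρ', hlim R' hR] with s h1 h2
  have he := Real.exp_pos (-s)
  constructor
  · rintro _ ⟨_, ⟨x, hx, rfl⟩, rfl⟩
    change H.Φ (-s) x.proj ∈ _
    rcases hJ ⟨x, hx, rfl⟩ with h | h
    · obtain ⟨e, p, hp, h⟩ := mem_iUnion.1 h
      have hD : p ∈ Dom := by
        change rad p * |p 2| < 1
        exact (mul_le_mul hp.1.le hp.2 (abs_nonneg _) hε.le).trans_lt hεR
      simp only at h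
      rw [← h, H.ce_flow e _ p hD]
      by_cases h3 : |sad (-s) p 2| ≤ R'
      · refine Or.inl (mem_iUnion.2 ⟨e, _, ⟨?_, h3⟩, rfl⟩)
        rw [rad_sad, mul_comm]
        exact mul_lt_mul_of_pos_right hp.1 he
      · have h4 := hR'.trans_lt (not_le.1 h3)
        refine Or.inr (hfar e _ (sad_mem_Dom.2 hD) ρ' (abs_pos.1 ((div_pos hC hρ').trans h4)) ?_)
        rwa [div_lt_iff₀' hρ'] at h4
    · obtain ⟨v, p, hp, h⟩ := mem_iUnion.1 h
      simp only at h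
      rw [← h, H.cv_flow]
      refine Or.inr (mem_iUnion.2 ⟨v, _, ?_, rfl⟩)
      rw [mem_ball_zero_iff] at hp ⊢
      rw [norm_smul, Real.norm_of_nonneg he.le]
      exact (mul_lt_mul_of_pos_left hp he).trans h1
  · refine Set.disjoint_left.2 ?_
    rintro _ ⟨_, ⟨x, hx, rfl⟩, rfl⟩ h
    obtain ⟨e, q, hq, h⟩ := mem_iUnion.1 h
    change H.ce e q = H.Φ (-s) x.proj at h
    have h3 : Real.exp (-s) * |q 2| ≤ R := (mul_le_mul_of_nonneg_left hq.2 he.le).trans h2.le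
    have hD : q ∈ Dom := by
      change rad q * |q 2| < 1
      rw [hq.1, mul_assoc]
      exact (mul_le_mul_of_nonneg_left h3 hε.le).trans_lt hεR
    refine Set.disjoint_left.1 hc ⟨x, hx, rfl⟩ (mem_iUnion.2 ⟨e, sad s q, ⟨?_, ?_⟩, ?_⟩)
    · rw [rad_sad, hq.1, Real.exp_neg]
      field_simp
    · rw [MHd_sad2, abs_mul, abs_of_pos he]
      exact h3
    · have h4 := H.Φ_neg_Φ (-s) x.proj
      rw [neg_neg, ← h, H.ce_flow e s q hD] at h4
      exact h4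

end HD

end Pool.Agent.P.MP_ac4909_gt.B
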