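import Pool.Agent.P.MP_ac4909_gt.B.Statement

/-! Generic directions and frames in three-space. -/

namespace Pool.Agent.P.MP_ac4909_gt.B

open Set

theorem MI_avoid (W : Set (Submodule ℝ E3)) (hW : W.Finite) (ht : ⊤ ∉ W) :
    ∃ a : E3, ∀ V ∈ W, a ∉ V := by
  have h := Subspace.biUnion_ne_univ_of_top_notMem (k := ℝ) (E := E3) (s := hW.toFinset)
    (by simpa using ht)
  by_contra hc
  push Not at hc
  apply h
  refine eq_univ_of_forall fun a => ?_
  obtain ⟨V, hV, ha⟩ := hc a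
  simp only [mem_iUnion]
  exact ⟨V, by simpa using hV, ha⟩

theorem MI_span_ne_top (f f' : E3) : Submodule.span ℝ ({f, f'} : Set E3) ≠ ⊤ := by
  classical
  intro h
  have h1 := finrank_span_finset_le_card (R := ℝ) ({f, f'} : Finset E3)
  have h2 : ({f, f'} : Finset E3).card ≤ 2 := Finset.card_le_two
  unfold Set.finrank at h1
  rw [Finset.coe_pair, h, finrank_top] at h1
  simp at h1
  omega

theorem MI_exists_b (S : Set E3) (hS : S.Finite) :
    ∃ b : E3, ‖b‖ = 1 ∧ ∀ f ∈ S, ∀ f' ∈ S, b ∉ Submodule.span ℝ ({f, f'} : Set E3) := by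
  obtain ⟨a, ha⟩ := MI_avoid
    (insert ⊥ (image2 (fun f f' => Submodule.span ℝ ({f, f'} : Set E3)) S S))
    ((hS.image2 _ hS).insert _) (by
      rintro (h | ⟨f, -, f', -, h⟩)
      · exact bot_ne_top h.symm
      · exact MI_span_ne_top f f' h)
  have h0 : a ≠ 0 := by simpa using ha ⊥ (mem_insert _ _)
  have hn : ‖a‖ ≠ 0 := norm_ne_zero_iff.2 h0
  refine ⟨‖a‖⁻¹ • a, by rw [norm_smul]; simp [hn], fun f hf f' hf' h => ?_⟩
  refine ha _ (mem_insert_of_mem _ (mem_image2_of_mem hf hf')) ?_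
  have := Submodule.smul_mem _ ‖a‖ h
  rwa [smul_smul, mul_inv_cancel₀ hn, one_smul] at this

theorem MI_no_prop {b d d' : E3} (hb : b ∉ Submodule.span ℝ ({d, d'} : Set E3))
    (hd : ∀ a : ℝ, 0 < a → d ≠ a • d') (μ : ℝ) {l : ℝ} (hl : 0 < l) :
    d + μ • b ≠ l • (d' + μ • b) := by
  intro h
  have e : ((1 - l) * μ) • b = l • d' - d := by
    linear_combination (norm := module) h
  by_cases h0 : (1 - l) * μ = 0
  · rw [h0, zero_smul] at e
    exact hd l hl (sub_eq_zero.1 e.symm).symm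
  · apply hb
    have : b = ((1 - l) * μ)⁻¹ • (l • d' - d) := by
      rw [← e, smul_smul, inv_mul_cancel₀ h0, one_smul]
    rw [this]
    exact Submodule.smul_mem _ _ (Submodule.sub_mem _
      (Submodule.smul_mem _ _ (Submodule.subset_span (by simp))) (Submodule.subset_span (by simp)))

theorem MI_not_mem {G F : Set E3} (hG : ∀ p ∈ G, p = 0 ∨ ∃ f ∈ F, ∃ a : ℝ, p = a • f)
    {b d : E3} (hd : d ∉ G) (hb : b ∉ Submodule.span ℝ ({d, d} : Set E3))
    (hb' : ∀ f ∈ F, b ∉ Submodule.span ℝ ({d, f} : Set E3)) (μ : ℝ) : d + μ • b ∉ G := by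
  intro h
  by_cases h0 : μ = 0
  · rw [h0, zero_smul, add_zero] at h
    exact hd h
  have e : b = μ⁻¹ • ((d + μ • b) - d) := by
    rw [add_sub_cancel_left, smul_smul, inv_mul_cancel₀ h0, one_smul]
  rcases hG _ h with h1 | ⟨f, hf, a, h1⟩
  · apply hb
    rw [e, h1]
    exact Submodule.smul_mem _ _ (Submodule.sub_mem _ (Submodule.zero_mem _)
      (Submodule.subset_span (by simp)))
  · apply hb' f hf
    rw [e, h1]
    exact Submodule.smul_mem _ _ (Submodule.sub_mem _
      (Submodule.smul_mem _ _ (Submodule.subset_span (by simp))) (Submodule.subset_span (by simp)))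

theorem MI_exists_u {b : E3} (hb : ‖b‖ = 1) (S : Set E3) (hS : S.Finite)
    (h0 : ∀ h ∈ S, h ≠ 0) (hbS : ∀ h ∈ S, inner ℝ b h = 0) :
    ∃ u : E3, ‖u‖ = 1 ∧ inner ℝ b u = 0 ∧ ∀ h ∈ S, inner ℝ u h ≠ 0 := by
  obtain ⟨a, ha⟩ := MI_avoid
    (insert (Submodule.span ℝ ({b, b} : Set E3)) ((fun h => (Submodule.span ℝ {h})ᗮ) '' S))
    ((hS.image _).insert _) (by
      rintro (h | ⟨f, hf, h⟩)
      · exact MI_span_ne_top b b h.symm
      · rw [Submodule.orthogonal_eq_top_iff, Submodule.span_singleton_eq_bot] at h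
        exact h0 f hf h)
  have hne : a - inner ℝ b a • b ≠ 0 := by
    intro h
    apply ha _ (mem_insert _ _)
    rw [sub_eq_zero.1 h]
    exact Submodule.smul_mem _ _ (Submodule.subset_span (by simp))
  have hn : ‖a - inner ℝ b a • b‖ ≠ 0 := norm_ne_zero_iff.2 hne
  refine ⟨‖a - inner ℝ b a • b‖⁻¹ • (a - inner ℝ b a • b), by rw [norm_smul]; simp [hn], ?_,
    fun h hh => ?_⟩
  · rw [inner_smul_right, inner_sub_right, inner_smul_right, real_inner_self_eq_norm_sq, hb]
    simp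
  · have h1 := ha _ (mem_insert_of_mem _ (mem_image_of_mem _ hh))
    rw [Submodule.mem_orthogonal_singleton_iff_inner_left] at h1
    rw [real_inner_smul_left, inner_sub_left, real_inner_smul_left, hbS h hh]
    simpa [hn] using h1

/-- an oriented orthonormal frame -/
structure MI_Frame (b u w : E3) : Prop where
  nb : ‖b‖ = 1
  nu : ‖u‖ = 1
  nw : ‖w‖ = 1
  bu : inner ℝ b u = 0
  bw : inner ℝ b w = 0
  uw : inner ℝ u w = 0
  det : Matrix.det (Matrix.of ![u.ofLp, b.ofLp, w.ofLp]) = 1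
  repr : ∀ q : E3, q = inner ℝ b q • b + inner ℝ u q • u + inner ℝ w q • w

theorem MI_inner (p q : E3) : inner ℝ p q = p 0 * q 0 + p 1 * q 1 + p 2 * q 2 := by
  rw [PiLp.inner_apply, Fin.sum_univ_three]
  simp only [RCLike.inner_apply, conj_trivial]
  ring

theorem MI_exists_w {b u : E3} (hb : ‖b‖ = 1) (hu : ‖u‖ = 1) (hbu : inner ℝ b u = 0) :
    ∃ w, MI_Frame b u w := by
  have hb' : b 0 * b 0 + b 1 * b 1 + b 2 * b 2 = 1 := by
    rw [← MI_inner, real_inner_self_eq_norm_sq, hb]; norm_num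
  have hu' : u 0 * u 0 + u 1 * u 1 + u 2 * u 2 = 1 := by
    rw [← MI_inner, real_inner_self_eq_norm_sq, hu]; norm_num
  have hbu' := hbu
  rw [MI_inner] at hbu'
  set w : E3 := !₂[u 1 * b 2 - u 2 * b 1, u 2 * b 0 - u 0 * b 2, u 0 * b 1 - u 1 * b 0] with hw
  have w0 : w 0 = u 1 * b 2 - u 2 * b 1 := rfl
  have w1 : w 1 = u 2 * b 0 - u 0 * b 2 := rfl
  have w2 : w 2 = u 0 * b 1 - u 1 * b 0 := rfl
  have hww : inner ℝ w w = (1 : ℝ) := by
    rw [MI_inner, w0, w1, w2]
    linear_combination (u 0 * u 0 + u 1 * u 1 + u 2 * u 2) * hb' + hu' -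
      (b 0 * u 0 + b 1 * u 1 + b 2 * u 2) * hbu'
  have hnw : ‖w‖ = 1 := by
    rw [real_inner_self_eq_norm_sq] at hww
    have := norm_nonneg w
    nlinarith
  have hbw : inner ℝ b w = (0 : ℝ) := by rw [MI_inner, w0, w1, w2]; ring
  have huw : inner ℝ u w = (0 : ℝ) := by rw [MI_inner, w0, w1, w2]; ring
  refine ⟨w, hb, hu, hnw, hbu, hbw, huw, ?_, fun q => ?_⟩
  · rw [Matrix.det_fin_three]
    simp only [Matrix.of_apply, Matrix.cons_val', Matrix.cons_val_zero, Matrix.cons_val_one,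
      Matrix.cons_val_two, Matrix.cons_val_fin_one, Matrix.tail_cons,
      Matrix.empty_val', Matrix.head_fin_const]
    rw [MI_inner] at hww
    rw [w0, w1, w2] at hww ⊢
    linear_combination hww
  · have ho : Orthonormal ℝ ![b, u, w] := by
      rw [orthonormal_iff_ite]
      intro i j
      fin_cases i <;> fin_cases j <;>
        simp [hb, hu, hnw, hbu, hbw, huw, real_inner_comm]
    let B := OrthonormalBasis.mk ho (by
      have := (basisOfOrthonormalOfCardEqFinrank ho (by simp)).span_eq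
      rw [coe_basisOfOrthonormalOfCardEqFinrank] at this
      exact this.ge)
    have := B.sum_repr' q
    rw [Fin.sum_univ_three] at this
    simpa [B] using this.symm

end Pool.Agent.P.MP_ac4909_gt.B
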