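import Pool.Agent.P.MP_ac4909_gt.B.MInit_GA

/-! Framed paths of directions. -/

namespace Pool.Agent.P.MP_ac4909_gt.B

open scoped ContDiff
open Set Filter Topology

/-- the unit vector in the direction of `q` -/
noncomputable def MI_un (q : E3) : E3 := ‖q‖⁻¹ • q

theorem MI_norm_un {q : E3} (h : q ≠ 0) : ‖MI_un q‖ = 1 := by
  rw [MI_un, norm_smul]
  simp [norm_ne_zero_iff.2 h]

theorem MI_un_smul {q : E3} {a : ℝ} (ha : 0 < a) : MI_un (a • q) = MI_un q := by
  rw [MI_un, MI_un, norm_smul, Real.norm_of_nonneg ha.le, smul_smul, mul_inv, mul_comm a⁻¹,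
    mul_assoc, inv_mul_cancel₀ ha.ne', mul_one]

theorem MI_un_eq {q q' : E3} (h : q ≠ 0) (h' : q' ≠ 0) (e : MI_un q = MI_un q') :
    ∃ a : ℝ, 0 < a ∧ q = a • q' := by
  have hn := norm_pos_iff.2 h
  have hn' := norm_pos_iff.2 h'
  refine ⟨‖q‖ * ‖q'‖⁻¹, by positivity, ?_⟩
  rw [mul_smul]
  change q = ‖q‖ • MI_un q'
  rw [← e, MI_un, smul_smul, mul_inv_cancel₀ hn.ne', one_smul]

theorem MI_un_contDiff {q : ℝ → E3} (hq : ContDiff ℝ ∞ q) (h0 : ∀ m, q m ≠ 0) :
    ContDiff ℝ ∞ fun m => MI_un (q m) :=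
  ((hq.norm ℝ h0).inv fun m => norm_ne_zero_iff.2 (h0 m)).smul hq

theorem MI_inner_deriv {δ : ℝ → E3} (hδ : Differentiable ℝ δ) (h1 : ∀ m, ‖δ m‖ = 1) (m : ℝ) :
    inner ℝ (δ m) (deriv δ m) = 0 := by
  have h := (hδ m).hasDerivAt.inner ℝ (hδ m).hasDerivAt
  have e : (fun m => inner ℝ (δ m) (δ m)) = fun _ => (1 : ℝ) := by
    funext m
    rw [real_inner_self_eq_norm_sq, h1]; norm_num
  rw [e] at h
  have := h.unique (hasDerivAt_const m (1 : ℝ))
  rw [real_inner_comm (δ m) (deriv δ m)] at this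
  linarith

theorem MI_indep {δ T V : E3} (h1 : ‖δ‖ = 1) (hT : inner ℝ δ T = 1) (hV : ∀ t : ℝ, V ≠ t • δ)
    {k : ℝ} (hk : k = 0 ∨ T = δ) :
    LinearIndependent ℝ ![T, V - inner ℝ δ V • δ + k • δ] := by
  have hδ : inner ℝ δ δ = (1 : ℝ) := by rw [real_inner_self_eq_norm_sq, h1]; norm_num
  rw [LinearIndependent.pair_iff]
  intro s t h
  have key : ∀ s' : ℝ, t • V = s' • δ → t = 0 := by
    intro s' e
    by_contra ht
    apply hV (t⁻¹ * s')
    rw [mul_smul, ← e, smul_smul, inv_mul_cancel₀ ht, one_smul]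
  rcases hk with rfl | rfl
  · have h2 := congrArg (inner ℝ δ) h
    rw [inner_add_right, inner_smul_right, inner_smul_right, hT, zero_smul, add_zero,
      inner_sub_right, inner_smul_right, hδ, inner_zero_right] at h2
    have hs : s = 0 := by linarith
    refine ⟨hs, key (t * inner ℝ δ V) ?_⟩
    rw [hs] at h
    linear_combination (norm := module) h
  · have ht : t = 0 := key (t * inner ℝ T V - t * k - s) (by
      linear_combination (norm := module) h)
    rw [ht, zero_smul, add_zero] at h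
    have h2 := congrArg (inner ℝ T) h
    rw [inner_smul_right, hδ, inner_zero_right] at h2
    exact ⟨by linarith, ht⟩

theorem MI_path {b u w : E3} (hF : MI_Frame b u w) {q : ℝ → E3} (hq : ContDiff ℝ ∞ q)
    (hu : ∀ m, inner ℝ u (q m) ≠ 0) (hc : ∀ m < 1 / 3, q m = q 0) (hw : inner ℝ w (q 1) = 0)
    {n : E3} (hn : LinearIndependent ℝ ![q 0, n]) {c : ℝ} (hc0 : 0 < c) :
    ∃ ν : ℝ → E3, ContDiff ℝ ∞ ν ∧ ν 0 = ‖q 0‖⁻¹ • n ∧ ν 1 = c • w ∧ ∀ m (r : ℝ),
      LinearIndependent ℝ ![MI_un (q m) + r • deriv (fun m => MI_un (q m)) m, ν m] := by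
  have h0 : ∀ m, q m ≠ 0 := fun m h => hu m (by rw [h, inner_zero_right])
  set δ : ℝ → E3 := fun m => MI_un (q m) with hδ
  have hδs : ContDiff ℝ ∞ δ := MI_un_contDiff hq h0
  have hδ1 : ∀ m, ‖δ m‖ = 1 := fun m => MI_norm_un (h0 m)
  have hδδ : ∀ m, inner ℝ (δ m) (δ m) = (1 : ℝ) := fun m => by
    rw [real_inner_self_eq_norm_sq, hδ1]; norm_num
  have huδ : ∀ m, inner ℝ u (δ m) ≠ 0 := fun m => by
    simp only [hδ, MI_un, inner_smul_right]
    exact mul_ne_zero (inv_ne_zero (norm_ne_zero_iff.2 (h0 m))) (hu m)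
  have hww : inner ℝ w w = (1 : ℝ) := by rw [real_inner_self_eq_norm_sq, hF.nw]; norm_num
  have hbb : inner ℝ b b = (1 : ℝ) := by rw [real_inner_self_eq_norm_sq, hF.nb]; norm_num
  have hub : inner ℝ u b = (0 : ℝ) := by rw [real_inner_comm]; exact hF.bu
  have hwb : inner ℝ w b = (0 : ℝ) := by rw [real_inner_comm]; exact hF.bw
  set n' : E3 := ‖q 0‖⁻¹ • n with hn'
  set γ : ℝ := inner ℝ u n' / inner ℝ u (δ 0) with hγ
  set V₀ : E3 := n' - γ • δ 0 with hV₀
  have hV₀u : inner ℝ u V₀ = (0 : ℝ) := by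
    rw [hV₀, inner_sub_right, inner_smul_right u (δ 0), hγ, div_mul_cancel₀ _ (huδ 0), sub_self]
  have hV₀r : V₀ = inner ℝ w V₀ • w + inner ℝ b V₀ • b := by
    have := hF.repr V₀
    rw [hV₀u, zero_smul, add_zero, add_comm] at this
    exact this
  set ζ₀ : ℂ := ⟨inner ℝ w V₀, inner ℝ b V₀⟩ with hζ₀
  have hζ₀ne : ζ₀ ≠ 0 := by
    intro h
    have e1 : inner ℝ w V₀ = (0 : ℝ) := congrArg Complex.re h
    have e2 : inner ℝ b V₀ = (0 : ℝ) := congrArg Complex.im h
    rw [e1, e2, zero_smul, zero_smul, add_zero] at hV₀r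
    have := (LinearIndependent.pair_iff.1 hn) (-(γ * ‖q 0‖⁻¹)) ‖q 0‖⁻¹ (by
      rw [← hV₀r, hV₀, hn']
      simp only [hδ, MI_un]
      module)
    exact inv_ne_zero (norm_ne_zero_iff.2 (h0 0)) this.2
  set ζ : ℝ → ℂ := fun m =>
    Complex.exp ((1 - (m : ℂ)) * Complex.log ζ₀ + (m : ℂ) * (Real.log c : ℝ)) with hζ
  have hζs : ContDiff ℝ ∞ ζ := by
    have : ContDiff ℝ ∞ fun m : ℝ => (m : ℂ) := Complex.ofRealCLM.contDiff
    exact ((contDiff_const.sub this).mul contDiff_const |>.add (this.mul contDiff_const)).cexp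
  set V : ℝ → E3 := fun m => (ζ m).re • w + (ζ m).im • b with hV
  have hVs : ContDiff ℝ ∞ V :=
    ((Complex.reCLM.contDiff.comp hζs).smul contDiff_const).add
      ((Complex.imCLM.contDiff.comp hζs).smul contDiff_const)
  have hV0 : V 0 = V₀ := by
    simp only [hV, hζ, Complex.ofReal_zero, sub_zero, one_mul, zero_mul, add_zero,
      Complex.exp_log hζ₀ne]
    exact hV₀r.symm
  have hV1 : V 1 = c • w := by
    simp only [hV, hζ, Complex.ofReal_one, sub_self, one_mul, zero_mul, zero_add,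
      ← Complex.ofReal_exp, Real.exp_log hc0, Complex.ofReal_re, Complex.ofReal_im, zero_smul,
      add_zero]
  have hVne : ∀ m (t : ℝ), V m ≠ t • δ m := by
    intro m t h
    have e := congrArg (inner ℝ u) h
    simp only [hV, inner_add_right, inner_smul_right, hF.uw, hub, mul_zero, add_zero] at e
    have ht : t = 0 := (mul_eq_zero.1 e.symm).resolve_right (huδ m)
    rw [ht, zero_smul] at h
    have e1 := congrArg (inner ℝ w) h
    have e2 := congrArg (inner ℝ b) h
    simp only [hV, inner_add_right, inner_smul_right, hww, hwb, hbb, hF.bw, mul_zero, add_zero,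
      zero_add, mul_one, inner_zero_right] at e1 e2
    exact Complex.exp_ne_zero _ (Complex.ext e1 e2)
  set k : ℝ → ℝ := fun m => (1 - Real.smoothTransition (3 * m)) * inner ℝ (δ 0) n' with hk
  have hks : ContDiff ℝ ∞ k :=
    (contDiff_const.sub (Real.smoothTransition.contDiff.comp
      (contDiff_const.mul contDiff_id))).mul contDiff_const
  refine ⟨fun m => V m - inner ℝ (δ m) (V m) • δ m + k m • δ m,
    (hVs.sub ((hδs.inner ℝ hVs).smul hδs)).add (hks.smul hδs), ?_, ?_, fun m r => ?_⟩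
  · simp only [hV0, hk, mul_zero, Real.smoothTransition.zero, sub_zero, one_mul]
    rw [hV₀, inner_sub_right, inner_smul_right (δ 0) (δ 0), hδδ]
    module
  · have e : inner ℝ (δ 1) (c • w) = (0 : ℝ) := by
      simp only [hδ, MI_un, inner_smul_right, real_inner_smul_left]
      rw [real_inner_comm, hw]
      simp
    have e' : Real.smoothTransition (3 * 1) = 1 :=
      Real.smoothTransition.one_of_one_le (by norm_num)
    simp only [hV1, hk, e, e', sub_self, zero_mul, zero_smul, sub_zero, add_zero]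
  · refine MI_indep (hδ1 m) ?_ (hVne m) ?_
    · rw [inner_add_right, inner_smul_right,
        MI_inner_deriv (hδs.differentiable (by simp)) hδ1, hδδ]
      simp
    · rcases lt_or_ge m (1 / 3) with hm | hm
      · right
        have : δ =ᶠ[𝓝 m] fun _ => δ 0 := by
          filter_upwards [Iio_mem_nhds hm] with m' hm'
          simp only [hδ, hc m' hm']
        rw [this.deriv_eq]
        simp [hδ]
      · left
        have e' : Real.smoothTransition (3 * m) = 1 :=
          Real.smoothTransition.one_of_one_le (by linarith)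
        simp [hk, e']

end Pool.Agent.P.MP_ac4909_gt.B
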