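import Pool.Agent.P.MP_ac4909_gt.B.MInit_R

/-! Isotopy of the radial segments along paths of framed directions. -/

namespace Pool.Agent.P.MP_ac4909_gt.B

open scoped Manifold ContDiff
open Set Filter Topology

variable {M : Type*} [TopologicalSpace M] [ChartedSpace E3 M] {ι Vx κ : Type}

/-- logarithm of the radius along a segment -/
noncomputable def MI_tau (s : ℝ) (d : E3) (t : ℝ) : ℝ :=
  MI_L s (Real.cos (2 * Real.pi * t) / 2) + Real.log ‖d‖

theorem MI_tau_contDiff (s : ℝ) (d : E3) : ContDiff ℝ ∞ (MI_tau s d) :=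
  ((MI_L_contDiff s).comp ((contDiff_const.mul contDiff_id).cos.div_const 2)).add contDiff_const

theorem MI_tau_per (s : ℝ) (d : E3) (t : ℝ) : MI_tau s d (t + 1) = MI_tau s d t := by
  simp only [MI_tau, mul_add, mul_one, Real.cos_add_two_pi]

theorem MI_tau_deriv {s : ℝ} (hs : 0 ≤ s) (d : E3) {t : ℝ} (h : Real.sin (2 * Real.pi * t) ≠ 0) :
    ∃ a, a ≠ 0 ∧ HasDerivAt (MI_tau s d) a t := by
  have hL : HasDerivAt (MI_L s) (deriv (MI_L s) (Real.cos (2 * Real.pi * t) / 2))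
      (Real.cos (2 * Real.pi * t) / 2) :=
    ((MI_L_contDiff s).differentiable (by simp) _).hasDerivAt
  have h1 := (hL.comp t (MI_hasDerivAt_cos t)).add_const (Real.log ‖d‖)
  exact ⟨_, mul_ne_zero (MI_L_deriv_pos hs _).ne'
    (neg_ne_zero.2 (mul_ne_zero Real.pi_ne_zero h)), h1⟩

theorem MI_exp_tau (s : ℝ) {d : E3} (hd : d ≠ 0) (t : ℝ) (q : E3) :
    Real.exp (MI_tau s d t) • ‖d‖⁻¹ • q =
      Real.exp (MI_L s (Real.cos (2 * Real.pi * t) / 2)) • q := by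
  have := norm_pos_iff.2 hd
  rw [MI_tau, Real.exp_add, Real.exp_log this, smul_smul, mul_assoc, mul_inv_cancel₀ this.ne',
    mul_one]

theorem MI_sg_or (a : ℝ) : |a| ≤ 1 / 2 ∨ ∃ b, 1 / 2 < MI_sg b * a := by
  rcases le_or_gt |a| (1 / 2) with h | h
  · exact Or.inl h
  · rcases lt_abs.1 h with h | h
    · exact Or.inr ⟨true, by simpa [MI_sg] using h⟩
    · exact Or.inr ⟨false, by simpa [MI_sg] using h⟩

theorem MI_sg_le {a : ℝ} (h : |a| ≤ 1 / 2) (b : Bool) : MI_sg b * a ≤ 1 / 2 := by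
  rw [abs_le] at h
  rcases MI_sg_cases b with e | e <;> rw [e] <;> linarith

theorem MI_indep_smul {x y : E3} (h : LinearIndependent ℝ ![x, y]) {a b : ℝ} (ha : a ≠ 0)
    (hb : b ≠ 0) : LinearIndependent ℝ ![a • x, b • y] := by
  rw [LinearIndependent.pair_iff] at h ⊢
  intro s t e
  rw [smul_smul, smul_smul] at e
  obtain ⟨h1, h2⟩ := h _ _ e
  exact ⟨(mul_eq_zero.1 h1).resolve_right ha, (mul_eq_zero.1 h2).resolve_right hb⟩

namespace HD
variable (H : HD M ι Vx)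

theorem MI_cv_eq {v v' : Vx} {p q : E3} (h : H.cv v p = H.cv v' q) : v = v' ∧ p = q := by
  have h1 : ∀ v p, p ∈ (H.cv v).source := fun v p => by simp [H.cv_source]
  have hv : v = v' := by
    by_contra hv
    exact disjoint_left.1 (H.cv_disj hv) ((H.cv v).map_source (h1 v p))
      (h ▸ (H.cv v').map_source (h1 v' q))
  subst hv
  exact ⟨rfl, (H.cv v).injOn (h1 _ _) (h1 _ _) h⟩

/-- a moved segment -/
noncomputable def MI_seg (v : Vx) (τ χ : ℝ → ℝ) (δ ν : ℝ → E3) (σ t : ℝ) : TM M :=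
  pushT (H.cv v) (Real.exp (τ t) • δ (σ * χ (τ t))) (Real.exp (τ t) • ν (σ * χ (τ t)))

theorem MI_seg_indep (v : Vx) {τ χ : ℝ → ℝ} {δ ν : ℝ → E3} (hχ : Differentiable ℝ χ)
    (hδ : Differentiable ℝ δ)
    (hi : ∀ m (r : ℝ), LinearIndependent ℝ ![δ m + r • deriv δ m, ν m]) (σ : ℝ) {t a : ℝ}
    (ha : a ≠ 0) (hτ : HasDerivAt τ a t) :
    LinearIndependent ℝ ![vel (fun u => (H.MI_seg v τ χ δ ν σ u).proj) t,
      ((H.MI_seg v τ χ δ ν σ t).snd : E3)] := by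
  have h1 : HasDerivAt (fun u => σ * χ (τ u)) (σ * (deriv χ (τ t) * a)) t :=
    ((hχ _).hasDerivAt.comp t hτ).const_mul σ
  have h2 : HasDerivAt (fun u => δ (σ * χ (τ u)))
      ((σ * (deriv χ (τ t) * a)) • deriv δ (σ * χ (τ t))) t :=
    (hδ _).hasDerivAt.scomp t h1
  have h3 : HasDerivAt (fun u => Real.exp (τ u) • δ (σ * χ (τ u)))
      ((Real.exp (τ t) * a) • (δ (σ * χ (τ t)) + (σ * deriv χ (τ t)) • deriv δ (σ * χ (τ t))))
      t := (hτ.exp.smul h2).congr_deriv (by module)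
  have e := vel_comp (h := H.cv v) (γ := fun u => Real.exp (τ u) • δ (σ * χ (τ u))) (t := t)
    ((H.MI_cv_smooth v _).mdifferentiableAt (by simp)) h3.differentiableAt.mdifferentiableAt
  rw [vel_eq_deriv, h3.deriv] at e
  have hj : Function.Injective (jac (H.cv v) (Real.exp (τ t) • δ (σ * χ (τ t)))) :=
    injective_of_det_ne ((H.cv_chart v).pos _ (by simp [H.cv_source])).ne'
  have := indep_map hj (MI_indep_smul (hi (σ * χ (τ t)) (σ * deriv χ (τ t)))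
    (mul_ne_zero (Real.exp_pos (τ t)).ne' ha) (Real.exp_pos (τ t)).ne')
  rw [← e] at this
  exact this

variable [IsManifold (𝓡 3) ∞ M]

theorem MI_seg_smooth (v : Vx) {τ χ : ℝ → ℝ} {δ ν : ℝ → E3} (hτ : ContDiff ℝ ∞ τ)
    (hχ : ContDiff ℝ ∞ χ) (hδ : ContDiff ℝ ∞ δ) (hν : ContDiff ℝ ∞ ν) :
    ContMDiff 𝓘(ℝ, ℝ × ℝ) (𝓡 3).tangent ∞ fun p : ℝ × ℝ => H.MI_seg v τ χ δ ν p.1 p.2 := by
  have h1 : ContDiff ℝ ∞ fun p : ℝ × ℝ => τ p.2 := hτ.comp contDiff_snd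
  have h2 : ContDiff ℝ ∞ fun p : ℝ × ℝ => p.1 * χ (τ p.2) := contDiff_fst.mul (hχ.comp h1)
  exact fun p => contMDiffAt_pushT (H.MI_cv_smooth v _) (h1.exp.smul (hδ.comp h2)).contDiffAt
    (h1.exp.smul (hν.comp h2)).contDiffAt

theorem MI_iso {Γ : κ → ℝ → TM M} (hΓ : IsLink Γ) {s : ℝ} (hs : 0 ≤ s) {vv : κ × Bool → Vx}
    {d n : κ × Bool → E3} (hd : ∀ i, d i ≠ 0)
    (hrad : ∀ i t, 1 / 2 ≤ MI_sg i.2 * Real.sin (2 * Real.pi * t) → Γ i.1 t =
      pushT (H.cv (vv i)) (Real.exp (MI_L s (Real.cos (2 * Real.pi * t) / 2)) • d i)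
        (Real.exp (MI_L s (Real.cos (2 * Real.pi * t) / 2)) • n i))
    {δ ν : κ × Bool → ℝ → E3} (hδ : ∀ i, ContDiff ℝ ∞ (δ i)) (hν : ∀ i, ContDiff ℝ ∞ (ν i))
    (hδ1 : ∀ i m, ‖δ i m‖ = 1) (hδ0 : ∀ i, δ i 0 = ‖d i‖⁻¹ • d i)
    (hν0 : ∀ i, ν i 0 = ‖d i‖⁻¹ • n i)
    (hne : ∀ i i' m, vv i = vv i' → δ i m = δ i' m → i = i')
    (hi : ∀ i m (r : ℝ), LinearIndependent ℝ ![δ i m + r • deriv (δ i) m, ν i m])
    {χ : ℝ → ℝ} {τ₀ : ℝ} (hχ : ContDiff ℝ ∞ χ) (hχ0 : ∀ τ, 3 ≤ |τ - τ₀| → χ τ = 0)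
    (hχ1 : ∀ τ, χ τ ∈ Icc (0 : ℝ) 1) {Z : Set M}
    (hZ : ∀ i τ, |τ - τ₀| ≤ 3 → ∀ m ∈ Icc (0 : ℝ) 1, H.cv (vv i) (Real.exp τ • δ i m) ∈ Z)
    (hB : ∀ c t, |Real.sin (2 * Real.pi * t)| ≤ 1 / 2 → (Γ c t).proj ∉ Z) :
    ∃ J : ℝ → κ → ℝ → TM M, IsIso (Z ∪ base (trace Γ)) J ∧ J 0 = Γ ∧
      (∀ c t, |Real.sin (2 * Real.pi * t)| ≤ 1 / 2 → J 1 c t = Γ c t) ∧
      ∀ i t, 1 / 2 < MI_sg i.2 * Real.sin (2 * Real.pi * t) →
        J 1 i.1 t = H.MI_seg (vv i) (MI_tau s (d i)) χ (δ i) (ν i) 1 t := by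
  classical
  set G : κ × Bool → ℝ → ℝ → TM M := fun i =>
    H.MI_seg (vv i) (MI_tau s (d i)) χ (δ i) (ν i) with hG
  set J : ℝ → κ → ℝ → TM M := fun σ c t =>
    if 1 / 2 < Real.sin (2 * Real.pi * t) then G (c, true) σ t
    else if 1 / 2 < -Real.sin (2 * Real.pi * t) then G (c, false) σ t else Γ c t with hJ
  have F1 : ∀ σ (i : κ × Bool) t, 1 / 2 < MI_sg i.2 * Real.sin (2 * Real.pi * t) →
      J σ i.1 t = G i σ t := by
    rintro σ ⟨c, b⟩ t ht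
    cases b
    · simp only [MI_sg, Bool.false_eq_true, if_false, neg_mul, one_mul] at ht
      simp only [hJ]
      rw [if_neg (by linarith), if_pos ht]
    · simp only [MI_sg, if_true, one_mul] at ht
      simp only [hJ]
      rw [if_pos ht]
  have F2 : ∀ σ c t, |Real.sin (2 * Real.pi * t)| ≤ 1 / 2 → J σ c t = Γ c t := by
    intro σ c t ht
    rw [abs_le] at ht
    simp only [hJ]
    rw [if_neg (by linarith), if_neg (by linarith)]
  have hper : ∀ σ c t, J σ c (t + 1) = J σ c t := by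
    intro σ c t
    simp only [hJ, hG, MI_seg, MI_tau_per, hΓ.per, mul_add, mul_one, Real.sin_add_two_pi]
  clear_value J
  have F3 : ∀ σ (i : κ × Bool) t, 1 / 2 ≤ MI_sg i.2 * Real.sin (2 * Real.pi * t) →
      σ * χ (MI_tau s (d i) t) = 0 → G i σ t = Γ i.1 t := by
    intro σ i t ht h0
    simp only [hG, MI_seg]
    rw [h0, hδ0, hν0, MI_exp_tau s (hd i), MI_exp_tau s (hd i), hrad i t ht]
  have F4 : ∀ σ c t, (∀ b, ¬(1 / 2 < MI_sg b * Real.sin (2 * Real.pi * t) ∧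
      |MI_tau s (d (c, b)) t - τ₀| < 3)) → J σ c t = Γ c t := by
    intro σ c t h
    rcases MI_sg_or (Real.sin (2 * Real.pi * t)) with ht | ⟨b, ht⟩
    · exact F2 σ c t ht
    · rw [F1 σ (c, b) t ht, F3 σ (c, b) t ht.le]
      rw [hχ0 _ (not_lt.1 fun h' => h b ⟨ht, h'⟩), mul_zero]
  have F5 : ∀ σ ∈ Icc (0 : ℝ) 1, ∀ c t, J σ c t = Γ c t ∨ (J σ c t).proj ∈ Z := by
    intro σ hσ c t
    by_cases h : ∀ b, ¬(1 / 2 < MI_sg b * Real.sin (2 * Real.pi * t) ∧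
      |MI_tau s (d (c, b)) t - τ₀| < 3)
    · exact Or.inl (F4 σ c t h)
    · push Not at h
      obtain ⟨b, ht, h⟩ := h
      rw [F1 σ (c, b) t ht]
      have h1 := hχ1 (MI_tau s (d (c, b)) t)
      exact Or.inr (hZ (c, b) _ h.le _ ⟨mul_nonneg hσ.1 h1.1, mul_le_one₀ hσ.2 h1.1 h1.2⟩)
  have hsin : ∀ b, Continuous fun t => MI_sg b * Real.sin (2 * Real.pi * t) := fun b => by
    fun_prop
  have L1 : ∀ (i : κ × Bool) t, 1 / 2 < MI_sg i.2 * Real.sin (2 * Real.pi * t) →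
      ∀ᶠ u in 𝓝 t, ∀ σ, J σ i.1 u = G i σ u := by
    intro i t ht
    filter_upwards [(hsin i.2).continuousAt.eventually (lt_mem_nhds ht)] with u hu σ
    exact F1 σ i u hu
  have L2 : ∀ c t, |Real.sin (2 * Real.pi * t)| ≤ 1 / 2 →
      ∀ᶠ u in 𝓝 t, ∀ σ, J σ c u = Γ c u := by
    intro c t ht
    have : ∀ b, ∀ᶠ u in 𝓝 t, ¬(1 / 2 < MI_sg b * Real.sin (2 * Real.pi * u) ∧
        |MI_tau s (d (c, b)) u - τ₀| < 3) := by
      intro b
      rcases (MI_sg_le ht b).lt_or_eq with h | h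
      · filter_upwards [(hsin b).continuousAt.eventually (gt_mem_nhds h)] with u hu h'
        exact lt_asymm hu h'.1
      · have h3 : 3 < |MI_tau s (d (c, b)) t - τ₀| := by
          by_contra h3
          apply hB c t ht
          rw [← F3 0 (c, b) t h.ge (zero_mul _)]
          exact hZ (c, b) _ (not_lt.1 h3) _ (by simp)
        have hc : Continuous fun u => |MI_tau s (d (c, b)) u - τ₀| :=
          ((MI_tau_contDiff s _).continuous.sub continuous_const).abs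
        filter_upwards [hc.continuousAt.eventually (lt_mem_nhds h3)] with u hu h'
        exact lt_asymm hu h'.2
    filter_upwards [eventually_all.2 this] with u hu σ
    exact F4 σ c u hu
  have hsm : ∀ c, ContMDiff 𝓘(ℝ, ℝ × ℝ) (𝓡 3).tangent ∞ fun p : ℝ × ℝ => J p.1 c p.2 := by
    intro c p
    rcases MI_sg_or (Real.sin (2 * Real.pi * p.2)) with ht | ⟨b, ht⟩
    · refine (((hΓ.smooth c).comp contDiff_snd.contMDiff) p).congr_of_eventuallyEq ?_
      filter_upwards [continuous_snd.continuousAt.eventually (L2 c p.2 ht)] with q hq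
      exact hq q.1
    · refine (H.MI_seg_smooth (vv (c, b)) (MI_tau_contDiff s (d (c, b))) hχ (hδ (c, b))
        (hν (c, b)) p).congr_of_eventuallyEq ?_
      filter_upwards [continuous_snd.continuousAt.eventually (L1 (c, b) p.2 ht)] with q hq
      exact hq q.1
  have hmix : ∀ σ ∈ Icc (0 : ℝ) 1, ∀ c c' t t', |Real.sin (2 * Real.pi * t')| ≤ 1 / 2 →
      (J σ c t).proj = (J σ c' t').proj → (Γ c t).proj = (Γ c' t').proj := by
    intro σ hσ c c' t t' ht' h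
    rw [F2 σ c' t' ht'] at h
    rcases F5 σ hσ c t with h1 | h1
    · rw [← h1, h]
    · exact absurd (h ▸ h1) (hB c' t' ht')
  refine ⟨J, ⟨hsm, fun σ hσ => ⟨fun c => ?_, hper σ, fun c c' t t' h => ?_,
    fun c t => ?_⟩, fun σ hσ c t => ?_⟩, ?_, F2 1, F1 1⟩
  · have h : ContMDiff 𝓘(ℝ, ℝ) 𝓘(ℝ, ℝ × ℝ) ∞ fun t : ℝ => ((σ, t) : ℝ × ℝ) :=
      (contDiff_const.prodMk contDiff_id).contMDiff
    have h' := (hsm c).comp h
    exact h'
  · rcases MI_sg_or (Real.sin (2 * Real.pi * t')) with ht' | ⟨b', ht'⟩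
    · exact hΓ.inj _ _ _ _ (hmix σ hσ c c' t t' ht' h)
    rcases MI_sg_or (Real.sin (2 * Real.pi * t)) with ht | ⟨b, ht⟩
    · exact hΓ.inj _ _ _ _ (hmix σ hσ c' c t' t ht h.symm).symm
    rw [F1 σ (c, b) t ht, F1 σ (c', b') t' ht'] at h
    obtain ⟨hv, h1⟩ := H.MI_cv_eq h
    have h2 := congrArg norm h1
    rw [norm_smul, norm_smul, hδ1, hδ1, mul_one, mul_one, Real.norm_of_nonneg (Real.exp_pos _).le,
      Real.norm_of_nonneg (Real.exp_pos _).le, Real.exp_eq_exp] at h2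
    rw [← h2] at h1
    have h3 := hne _ _ _ hv (smul_right_injective E3 (Real.exp_pos _).ne' h1)
    obtain ⟨rfl, rfl⟩ := Prod.mk.inj h3
    have h4 := (MI_L_strictMono hs).injective (add_right_cancel h2)
    have hc : Real.cos (2 * Real.pi * t) = Real.cos (2 * Real.pi * t') := by linarith
    refine ⟨rfl, MI_angle hc (MI_sin_eq hc ?_ ?_)⟩
    · rintro ⟨h5, h6⟩
      rcases MI_sg_cases b with e | e <;> rw [e] at ht ht' <;> linarith
    · rintro ⟨h5, h6⟩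
      rcases MI_sg_cases b with e | e <;> rw [e] at ht ht' <;> linarith
  · rcases MI_sg_or (Real.sin (2 * Real.pi * t)) with ht | ⟨b, ht⟩
    · rw [vel_congr (γ' := fun u => (Γ c u).proj) ((L2 c t ht).mono fun u hu => by
        simp only [hu σ]), F2 σ c t ht]
      exact hΓ.indep c t
    · rw [vel_congr (γ' := fun u => (G (c, b) σ u).proj) ((L1 (c, b) t ht).mono fun u hu => by
        simp only [← hu σ]), F1 σ (c, b) t ht]
      obtain ⟨a, ha, hτ⟩ := MI_tau_deriv hs (d (c, b)) (t := t) (by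
        intro h0
        rw [h0] at ht
        norm_num at ht)
      exact H.MI_seg_indep _ (hχ.differentiable (by simp)) ((hδ _).differentiable (by simp))
        (hi _) σ ha hτ
  · rcases F5 σ hσ c t with h | h
    · exact Or.inr ⟨_, mem_iUnion.2 ⟨c, t, rfl⟩, by rw [h]⟩
    · exact Or.inl h
  · funext c t
    rcases MI_sg_or (Real.sin (2 * Real.pi * t)) with ht | ⟨b, ht⟩
    · exact F2 0 c t ht
    · rw [F1 0 (c, b) t ht, F3 0 (c, b) t ht.le (zero_mul _)]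

end HD

end Pool.Agent.P.MP_ac4909_gt.B
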