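import Pool.Agent.P.MP_ac4909_gt.B.MHd

/-! The encircling loop and the stretched coordinates. -/

namespace Pool.Agent.P.MP_ac4909_gt.B

open scoped ContDiff
open Set Filter Topology

theorem MI_det {A : E3 →L[ℝ] E3} {a b c : ℝ}
    (h : ∀ v, A v = !₂[a * v 0, b * v 1, c * v 2]) : A.det = a * b * c := by
  rw [ContinuousLinearMap.det,
    ← LinearMap.det_toMatrix (EuclideanSpace.basisFun (Fin 3) ℝ).toBasis, Matrix.det_fin_three]
  simp [LinearMap.toMatrix_apply, h]

theorem MI_fderiv_coord {f : E3 → E3} {p : E3} (hf : DifferentiableAt ℝ f p) (i : Fin 3)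
    {A : E3 →L[ℝ] ℝ} (h : HasFDerivAt (fun q => f q i) A p) (v : E3) :
    fderiv ℝ f p v i = A v := by
  have h1 := (EuclideanSpace.proj (𝕜 := ℝ) i).hasFDerivAt.comp p hf.hasFDerivAt
  have h2 : (EuclideanSpace.proj (𝕜 := ℝ) i).comp (fderiv ℝ f p) = A := h1.unique h
  rw [← h2]
  rfl

theorem MI_deriv_coord {γ : ℝ → E3} {t : ℝ} (hγ : DifferentiableAt ℝ γ t) (i : Fin 3) {a : ℝ}
    (h : HasDerivAt (fun u => γ u i) a t) : deriv γ t i = a := by
  have h1 := (EuclideanSpace.proj (𝕜 := ℝ) i).hasFDerivAt.comp_hasDerivAt t hγ.hasDerivAt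
  exact h1.unique h

/-- the encircling loop with period one -/
noncomputable def MI_enc (t : ℝ) : E3 :=
  !₂[Real.cos (2 * Real.pi * t) / 2, st (Real.sin (2 * Real.pi * t)) / 2,
    -st (Real.sin (2 * Real.pi * t)) / 2]

theorem MI_range_enc : range MI_enc = encLoop := by
  ext p
  constructor
  · rintro ⟨t, rfl⟩
    exact ⟨2 * Real.pi * t, rfl⟩
  · rintro ⟨t, rfl⟩
    refine ⟨t / (2 * Real.pi), ?_⟩
    have : 2 * Real.pi * (t / (2 * Real.pi)) = t := by field_simp
    simp only [MI_enc, this]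

theorem MI_enc_contDiff : ContDiff ℝ ∞ MI_enc := by
  have h : ContDiff ℝ ∞ fun t : ℝ => 2 * Real.pi * t := contDiff_const.mul contDiff_id
  have h1 : ContDiff ℝ ∞ fun t : ℝ => st (Real.sin (2 * Real.pi * t)) := st_contDiff.comp h.sin
  rw [contDiff_euclidean]
  intro i
  fin_cases i
  · exact h.cos.div_const 2
  · exact h1.div_const 2
  · exact h1.neg.div_const 2

theorem MI_enc_per (t : ℝ) : MI_enc (t + 1) = MI_enc t := by
  simp only [MI_enc, mul_add, mul_one, Real.cos_add_two_pi, Real.sin_add_two_pi]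

theorem MI_st_zero : st 0 = 0 := by
  have := st_neg 0
  rw [neg_zero] at this
  linarith

theorem MI_st_pos {a : ℝ} (h : 0 < a) : 0 < st a := by
  rcases le_total (1 / 2) a with h1 | h1
  · rw [st_of_ge h1]; norm_num
  · rw [← MI_st_zero]
    exact st_strictMonoOn ⟨by norm_num, by norm_num⟩ ⟨by linarith, h1⟩ h

theorem MI_angle {s t : ℝ} (hc : Real.cos (2 * Real.pi * s) = Real.cos (2 * Real.pi * t))
    (hs : Real.sin (2 * Real.pi * s) = Real.sin (2 * Real.pi * t)) : ∃ k : ℤ, t = s + k := by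
  have h : Real.cos (2 * Real.pi * t - 2 * Real.pi * s) = 1 := by
    rw [Real.cos_sub, ← hc, ← hs]
    linear_combination Real.cos_sq_add_sin_sq (2 * Real.pi * s)
  obtain ⟨k, hk⟩ := (Real.cos_eq_one_iff _).1 h
  refine ⟨k, ?_⟩
  have : (2 * Real.pi) * t = (2 * Real.pi) * (s + k) := by linarith
  exact mul_left_cancel₀ Real.two_pi_pos.ne' this

theorem MI_sin_eq {a b : ℝ} (hc : Real.cos a = Real.cos b)
    (h : ¬(0 < Real.sin a ∧ Real.sin b < 0)) (h' : ¬(0 < Real.sin b ∧ Real.sin a < 0)) :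
    Real.sin a = Real.sin b := by
  have e : (Real.sin a - Real.sin b) * (Real.sin a + Real.sin b) = 0 := by
    have h1 := Real.cos_sq_add_sin_sq a
    have h2 := Real.cos_sq_add_sin_sq b
    rw [hc] at h1
    linear_combination h1 - h2
  rcases mul_eq_zero.1 e with e | e
  · linarith
  · rcases lt_trichotomy (Real.sin a) 0 with h0 | h0 | h0
    · exact absurd ⟨by linarith, h0⟩ h'
    · linarith
    · exact absurd ⟨h0, by linarith⟩ h

theorem MI_enc_inj {s t : ℝ} (h : MI_enc s = MI_enc t) : ∃ k : ℤ, t = s + k := by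
  have h0 : Real.cos (2 * Real.pi * s) / 2 = Real.cos (2 * Real.pi * t) / 2 :=
    congrArg (fun p : E3 => p 0) h
  have h1 : st (Real.sin (2 * Real.pi * s)) / 2 = st (Real.sin (2 * Real.pi * t)) / 2 :=
    congrArg (fun p : E3 => p 1) h
  have key : ∀ a b : ℝ, st a / 2 = st b / 2 → ¬(0 < a ∧ b < 0) := by
    rintro a b e ⟨ha, hb⟩
    have h2 := MI_st_pos ha
    have h3 := MI_st_pos (neg_pos.2 hb)
    rw [st_neg] at h3
    linarith
  have hc : Real.cos (2 * Real.pi * s) = Real.cos (2 * Real.pi * t) := by linarith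
  exact MI_angle hc (MI_sin_eq hc (key _ _ h1) (key _ _ h1.symm))

theorem MI_hasDerivAt_cos (t : ℝ) : HasDerivAt (fun u => Real.cos (2 * Real.pi * u) / 2)
    (-(Real.pi * Real.sin (2 * Real.pi * t))) t := by
  have h : HasDerivAt (fun u : ℝ => 2 * Real.pi * u) (2 * Real.pi) t := by
    simpa using (hasDerivAt_id t).const_mul (2 * Real.pi)
  exact (h.cos.div_const 2).congr_deriv (by ring)

theorem MI_enc_indep (t : ℝ) : LinearIndependent ℝ ![deriv MI_enc t, ez] := by
  have hd : DifferentiableAt ℝ MI_enc t := MI_enc_contDiff.differentiable (by simp) t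
  have h : HasDerivAt (fun u : ℝ => 2 * Real.pi * u) (2 * Real.pi) t := by
    simpa using (hasDerivAt_id t).const_mul (2 * Real.pi)
  have e0 := MI_deriv_coord hd 0 (MI_hasDerivAt_cos t)
  have hst : HasDerivAt st (deriv st (Real.sin (2 * Real.pi * t))) (Real.sin (2 * Real.pi * t)) :=
    (st_contDiff.differentiable (by simp) _).hasDerivAt
  have hc1 := (hst.comp t h.sin).div_const 2
  have e1 := MI_deriv_coord hd 1 hc1
  rw [LinearIndependent.pair_iff]
  intro a c hac
  have k0 := congrArg (fun p : E3 => p 0) hac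
  have k1 := congrArg (fun p : E3 => p 1) hac
  have k2 := congrArg (fun p : E3 => p 2) hac
  simp only [PiLp.add_apply, PiLp.smul_apply, smul_eq_mul, PiLp.zero_apply, e0, e1] at k0 k1 k2
  simp [ez] at k0 k1 k2
  have ha : a = 0 := by
    by_contra ha
    have hs : Real.sin (2 * Real.pi * t) = 0 := k0.resolve_left ha
    have hp := deriv_st_pos (t := Real.sin (2 * Real.pi * t)) (by rw [hs]; norm_num)
    have hc : Real.cos (2 * Real.pi * t) ≠ 0 := by
      intro hc
      have := Real.cos_sq_add_sin_sq (2 * Real.pi * t)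
      rw [hc, hs] at this
      norm_num at this
    rcases k1 with k1 | k1 | k1
    · exact ha k1
    · exact hp.ne' k1
    · exact hc k1
  rw [ha] at k2
  exact ⟨ha, by simpa using k2⟩

/-- the encircling loop as a framed link -/
noncomputable def MI_encL : Lk Unit := ⟨fun _ => MI_enc, fun _ _ => ez⟩

theorem MI_encL_isLink : MI_encL.IsLink where
  isU :=
    { smooth := fun _ => MI_enc_contDiff
      per := fun _ => MI_enc_per
      inj := fun _ _ _ _ h => ⟨rfl, MI_enc_inj h⟩
      imm := fun _ t => (MI_enc_indep t).ne_zero 0 }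
  smooth := fun _ => contDiff_const
  per := fun _ _ => rfl
  indep := fun _ => MI_enc_indep

theorem MI_enc_mem (t : ℝ) : MI_enc t ∈ Qb 1 := by
  intro i
  have h1 := abs_st_le (Real.sin (2 * Real.pi * t))
  have h2 := Real.abs_cos_le_one (2 * Real.pi * t)
  fin_cases i
  · change |Real.cos (2 * Real.pi * t) / 2| < 1
    rw [abs_div, abs_two]; linarith
  · change |st (Real.sin (2 * Real.pi * t)) / 2| < 1
    rw [abs_div, abs_two]; linarith
  · change |-st (Real.sin (2 * Real.pi * t)) / 2| < 1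
    rw [abs_div, abs_two, abs_neg]; linarith

theorem MI_Qb_mono {r r' : ℝ} (h : r ≤ r') : Qb r ⊆ Qb r' := fun _ hp i => (hp i).trans_le h

/-- the stretched logarithm of the radius -/
noncomputable def MI_L (s x : ℝ) : ℝ := x - s * (1 - Real.smoothTransition (10 * x - 1))

theorem MI_L_contDiff (s : ℝ) : ContDiff ℝ ∞ (MI_L s) :=
  contDiff_id.sub (contDiff_const.mul (contDiff_const.sub (Real.smoothTransition.contDiff.comp
    ((contDiff_const.mul contDiff_id).sub contDiff_const))))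

theorem MI_L_of_le {s x : ℝ} (hx : x ≤ 1 / 10) : MI_L s x = x - s := by
  rw [MI_L, Real.smoothTransition.zero_of_nonpos (by linarith)]
  ring

theorem MI_L_of_ge {s x : ℝ} (hx : 1 / 5 ≤ x) : MI_L s x = x := by
  rw [MI_L, Real.smoothTransition.one_of_one_le (by linarith)]
  ring

theorem MI_L_deriv_pos {s : ℝ} (hs : 0 ≤ s) (x : ℝ) : 0 < deriv (MI_L s) x := by
  have hm : Monotone fun x => MI_L s x - x := by
    intro a b hab
    have := Real.smoothTransition.monotone (show 10 * a - 1 ≤ 10 * b - 1 by linarith)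
    simp only [MI_L]
    nlinarith
  have h1 := hm.deriv_nonneg (x := x)
  have hd : DifferentiableAt ℝ (MI_L s) x := (MI_L_contDiff s).differentiable (by simp) x
  have h2 : deriv (fun x => MI_L s x - x) x = deriv (MI_L s) x - 1 :=
    (hd.hasDerivAt.sub (hasDerivAt_id x)).deriv
  linarith

theorem MI_L_strictMono {s : ℝ} (hs : 0 ≤ s) : StrictMono (MI_L s) :=
  strictMono_of_deriv_pos (MI_L_deriv_pos hs)

/-- stretched coordinates -/
noncomputable def MI_aff (s θ η : ℝ) (p : E3) : E3 := !₂[MI_L s (p 0), θ + η * p 1, p 2 / 2]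

theorem MI_aff_contDiff (s θ η : ℝ) : ContDiff ℝ ∞ (MI_aff s θ η) := by
  have h : ∀ i : Fin 3, ContDiff ℝ ∞ fun p : E3 => p i := fun i =>
    (EuclideanSpace.proj (𝕜 := ℝ) i).contDiff
  rw [contDiff_euclidean]
  intro i
  fin_cases i
  · exact (MI_L_contDiff s).comp (h 0)
  · exact contDiff_const.add (contDiff_const.mul (h 1))
  · exact (h 2).div_const 2

theorem MI_aff_fderiv (s θ η : ℝ) (p v : E3) : fderiv ℝ (MI_aff s θ η) p v =
    !₂[deriv (MI_L s) (p 0) * v 0, η * v 1, 2⁻¹ * v 2] := by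
  have hd : DifferentiableAt ℝ (MI_aff s θ η) p :=
    (MI_aff_contDiff s θ η).differentiable (by simp) p
  have h : ∀ i : Fin 3, HasFDerivAt (fun p : E3 => p i) (EuclideanSpace.proj (𝕜 := ℝ) i) p :=
    fun i => (EuclideanSpace.proj (𝕜 := ℝ) i).hasFDerivAt
  have hL : HasDerivAt (MI_L s) (deriv (MI_L s) (p 0)) (p 0) :=
    ((MI_L_contDiff s).differentiable (by simp) _).hasDerivAt
  ext i
  fin_cases i
  · have h0 := hL.comp_hasFDerivAt p (h 0)
    exact MI_fderiv_coord hd 0 h0 v
  · exact MI_fderiv_coord hd 1 (((h 1).const_mul η).const_add θ) v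
  · have h2 : HasFDerivAt (fun q : E3 => MI_aff s θ η q 2) _ p :=
      ((h 2).const_mul 2⁻¹).congr_of_eventuallyEq (Eventually.of_forall fun q => by
        change q 2 / 2 = _
        ring)
    exact MI_fderiv_coord hd 2 h2 v

theorem MI_aff_ez (s θ η : ℝ) (p : E3) : fderiv ℝ (MI_aff s θ η) p ez = (2⁻¹ : ℝ) • ez := by
  rw [MI_aff_fderiv]
  ext i
  fin_cases i <;> simp [ez]

theorem MI_aff_det {s η : ℝ} (hs : 0 ≤ s) (hη : 0 < η) (θ : ℝ) (p : E3) :
    0 < (fderiv ℝ (MI_aff s θ η) p).det := by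
  rw [MI_det (MI_aff_fderiv s θ η p)]
  have := MI_L_deriv_pos hs (p 0)
  positivity

end Pool.Agent.P.MP_ac4909_gt.B
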