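import Pool.Agent.P.MP_ac4909_gt.B.MInit_MA

/-! Long meridians of the surgery curves. -/

namespace Pool.Agent.P.MP_ac4909_gt.B

open scoped Manifold ContDiff
open Set Filter Topology

variable {M : Type*} [TopologicalSpace M] [ChartedSpace E3 M] {ι Vx κ : Type}

/-- well separated angles -/
structure MI_Ang (θ : κ → ℝ) (η : ℝ) : Prop where
  pos : 0 < η
  le : η ≤ 1
  sep : ∀ c c', c ≠ c' → 3 * η ≤ |θ c - θ c'|
  bd : ∀ c c', |θ c - θ c'| ≤ 3

theorem MI_exists_ang (κ : Type) [Fintype κ] : ∃ (θ : κ → ℝ) (η : ℝ), MI_Ang θ η := by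
  set η : ℝ := 1 / ((Fintype.card κ : ℝ) + 1) with hη
  have h0 : (0 : ℝ) < (Fintype.card κ : ℝ) + 1 := by positivity
  have hη0 : 0 < η := by positivity
  have hη1 : η * ((Fintype.card κ : ℝ) + 1) = 1 := by rw [hη]; field_simp
  set f : κ → ℕ := fun c => Fintype.equivFin κ c with hf
  have hfi : Function.Injective f := Fin.val_injective.comp (Fintype.equivFin κ).injective
  have hlt : ∀ c, (f c : ℝ) ≤ Fintype.card κ := fun c => by
    exact_mod_cast (Fintype.equivFin κ c).2.le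
  have e : ∀ c c', |3 * η * (f c : ℝ) - 3 * η * f c'| = 3 * η * |(f c : ℝ) - f c'| := by
    intro c c'
    rw [← mul_sub, abs_mul, abs_of_pos (by positivity)]
  refine ⟨fun c => 3 * η * f c, η, hη0, ?_, fun c c' h => ?_, fun c c' => ?_⟩
  · have : (0 : ℝ) ≤ Fintype.card κ := by positivity
    nlinarith
  · rw [e]
    have h1 : (1 : ℤ) ≤ |(f c : ℤ) - f c'| :=
      Int.one_le_abs (sub_ne_zero.2 fun h' => h (hfi (by exact_mod_cast h')))
    have h2 : (1 : ℝ) ≤ |(f c : ℝ) - f c'| := by exact_mod_cast h1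
    nlinarith
  · rw [e]
    have h1 : |(f c : ℝ) - f c'| ≤ Fintype.card κ + 1 := by
      have := hlt c
      have := hlt c'
      have : (0 : ℝ) ≤ f c := by positivity
      have : (0 : ℝ) ≤ f c' := by positivity
      rw [abs_le]
      constructor <;> linarith
    nlinarith

theorem MI_Ang.eq {θ : κ → ℝ} {η : ℝ} (h : MI_Ang θ η) {c c' : κ} {y y' : ℝ} (hy : |y| < 5 / 4)
    (hy' : |y'| < 5 / 4) {k : ℤ} (e : θ c' + η * y' = θ c + η * y + k * (2 * Real.pi)) :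
    c = c' ∧ y = y' := by
  have h1 := h.pos
  have h2 := h.le
  have h3 := abs_le.1 (h.bd c c')
  rw [abs_lt] at hy hy'
  have hpi := Real.pi_gt_three
  have hk : k = 0 := by
    have a1 : (k : ℝ) < 1 := by
      by_contra hc
      push Not at hc
      nlinarith
    have a2 : (-1 : ℝ) < k := by
      by_contra hc
      push Not at hc
      nlinarith
    have a3 : k < 1 := by exact_mod_cast a1
    have a4 : -1 < k := by exact_mod_cast a2
    omega
  rw [hk] at e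
  have hc : c = c' := by
    by_contra hc
    have := h.sep c c' hc
    have h5 : |θ c - θ c'| < 3 * η := by
      rw [abs_lt]
      push_cast at e
      constructor <;> nlinarith
    linarith
  subst hc
  refine ⟨rfl, mul_left_cancel₀ h1.ne' ?_⟩
  push_cast at e
  linarith

namespace HD
variable (H : HD M ι Vx)

theorem MI_cyl_eq {e e' : ι} {p q : E3} (hp : |p 2| < 1) (hq : |q 2| < 1)
    (h : H.ce e (cylc p) = H.ce e' (cylc q)) :
    e = e' ∧ p 0 = q 0 ∧ p 2 = q 2 ∧ ∃ k : ℤ, q 1 = p 1 + k * (2 * Real.pi) := by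
  have h1 : ∀ e, cylc p ∈ (H.ce e).source := fun e => by
    rw [H.ce_source]; exact cylc_mem_Dom.2 hp
  have h2 : ∀ e, cylc q ∈ (H.ce e).source := fun e => by
    rw [H.ce_source]; exact cylc_mem_Dom.2 hq
  have he : e = e' := by
    by_contra he
    exact disjoint_left.1 (H.ce_disj he) ((H.ce e).map_source (h1 e))
      (h ▸ (H.ce e').map_source (h2 e'))
  subst he
  exact ⟨rfl, cylc_eq_iff.1 ((H.ce e).injOn (h1 e) (h2 e) h)⟩

theorem MI_cyl_not_mem (e : ι) {p : E3} (hp : |p 2| < 1) : H.ce e (cylc p) ∉ H.gs := by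
  rw [H.ce_mem_gs (cylc_mem_Dom.2 hp), ← rad_eq_zero, rad_cylc]
  exact (Real.exp_pos _).ne'

theorem MI_ce_smooth (e : ι) {p : E3} (hp : p ∈ Dom) :
    ContMDiffAt (𝓡 3) (𝓡 3) ∞ (H.ce e) p :=
  (H.ce_chart e).smooth.contMDiffAt ((H.ce e).open_source.mem_nhds (by rwa [H.ce_source]))

theorem MI_cv_smooth (v : Vx) (p : E3) : ContMDiffAt (𝓡 3) (𝓡 3) ∞ (H.cv v) p :=
  (H.cv_chart v).smooth.contMDiffAt ((H.cv v).open_source.mem_nhds (by simp [H.cv_source]))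

theorem MI_cyl_smooth (e : ι) {p : E3} (hp : |p 2| < 1) :
    ContMDiffAt (𝓡 3) (𝓡 3) ∞ (H.ce e ∘ cylc) p :=
  (H.MI_ce_smooth e (cylc_mem_Dom.2 hp)).comp p cylc_contDiff.contMDiff.contMDiffAt

/-- the chart in which a long meridian is the encircling loop -/
noncomputable def MI_psi (e : ι) (s θ η : ℝ) : E3 → M := H.ce e ∘ cylc ∘ MI_aff s θ η

theorem MI_aff_lt {s θ η : ℝ} {p : E3} (hp : p ∈ Qb (5 / 4)) : |MI_aff s θ η p 2| < 1 := by
  have := hp 2
  change |p 2 / 2| < 1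
  rw [abs_div, abs_two]
  linarith

theorem MI_psi_eq {θ : κ → ℝ} {η s : ℝ} (hA : MI_Ang θ η) (hs : 0 ≤ s) {e e' : ι} {c c' : κ}
    {p q : E3} (hp : p ∈ Qb (5 / 4)) (hq : q ∈ Qb (5 / 4))
    (h : H.MI_psi e s (θ c) η p = H.MI_psi e' s (θ c') η q) : c = c' ∧ p = q := by
  obtain ⟨-, h0, h2, k, h1⟩ := H.MI_cyl_eq (MI_aff_lt hp) (MI_aff_lt hq) h
  obtain ⟨hc, hy⟩ := hA.eq (hp 1) (hq 1) h1
  refine ⟨hc, ?_⟩
  ext i
  fin_cases i
  · exact (MI_L_strictMono hs).injective h0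
  · exact hy
  · have : p 2 / 2 = q 2 / 2 := h2
    change p 2 = q 2
    linarith

theorem MI_psi_posOn {θ : κ → ℝ} {η s : ℝ} (hA : MI_Ang θ η) (hs : 0 ≤ s) (e : ι) (c : κ) :
    MPosOn (H.MI_psi e s (θ c) η) (Qb (5 / 4)) := by
  refine (H.ce_chart e).mPosOn.comp (H.ce e).open_source ⟨?_, ?_, ?_⟩ (isOpen_Qb _) ?_
  · exact (cylc_contDiff.comp (MI_aff_contDiff _ _ _)).contDiffOn
  · intro p hp q hq h
    exact (H.MI_psi_eq hA hs (e := e) (e' := e) hp hq (congrArg (H.ce e) h)).2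
  · intro p _
    rw [fderiv_comp p (cylc_contDiff.differentiable (by simp) _)
      ((MI_aff_contDiff _ _ _).differentiable (by simp) _), ContinuousLinearMap.det,
      ContinuousLinearMap.toLinearMap_comp, LinearMap.det_comp]
    exact mul_pos (det_fderiv_cylc _) (MI_aff_det hs hA.pos _ _)
  · intro p hp
    rw [H.ce_source]
    exact cylc_mem_Dom.2 (MI_aff_lt hp)

theorem MI_psi_mapsTo (e : ι) (s θ η : ℝ) : MapsTo (H.MI_psi e s θ η) (Qb (5 / 4)) H.gsᶜ :=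
  fun _ hp => H.MI_cyl_not_mem e (MI_aff_lt hp)

theorem MI_pushT_psi (e : ι) (s θ η : ℝ) {p : E3} (hp : p ∈ Qb (5 / 4)) :
    pushT (H.MI_psi e s θ η) p ez =
      pushT (H.ce e ∘ cylc) (MI_aff s θ η p) ((2⁻¹ : ℝ) • ez) := by
  rw [← MI_aff_ez s θ η p]
  exact pushT_comp (ψ := H.ce e ∘ cylc)
    ((H.MI_cyl_smooth e (MI_aff_lt hp)).mdifferentiableAt (by simp))
    ((MI_aff_contDiff _ _ _).differentiable (by simp) _)

theorem MI_circ (s t : ℝ) : circ (Real.exp (-s)) 0 t = cylc !₂[-s, 2 * Real.pi * t, 0] := by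
  simp [circ, cylc]

theorem MI_pushT_Y (e : ι) (s θ η : ℝ) {p : E3} (hp : p ∈ Qb (5 / 4)) (h0 : p 0 = 0) :
    pushT (H.MI_psi e s θ η) p ez =
      pushT (H.ce e) (cylc (MI_aff s θ η p)) ((2 * Real.exp (-s))⁻¹ • ez) := by
  rw [H.MI_pushT_psi e s θ η hp, pushT_comp
    ((H.MI_ce_smooth e (cylc_mem_Dom.2 (MI_aff_lt hp))).mdifferentiableAt (by simp))
    (cylc_contDiff.differentiable (by simp) _), map_smul, fderiv_cylc_ez, smul_smul]
  have : MI_aff s θ η p 0 = -s := by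
    change MI_L s (p 0) = -s
    rw [h0, MI_L_of_le (by norm_num), zero_sub]
  rw [this, mul_inv, ← Real.exp_neg]

theorem MI_Y_of_psi {e : ι} {s θ η : ℝ} (hs : 0 ≤ s) {p : E3} (hp : p ∈ Qb (5 / 4))
    {x : Option ι × TM M} (hx : x ∈ H.Y (Real.exp (-s)))
    (h : H.MI_psi e s θ η p = x.2.proj) :
    p 0 = 0 ∧ p 2 = 0 ∧ x = (some e, pushT (H.MI_psi e s θ η) p ez) := by
  obtain ⟨e', t, rfl⟩ := hx
  have h' : H.ce e (cylc (MI_aff s θ η p)) = H.ce e' (cylc !₂[-s, 2 * Real.pi * t, 0]) := by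
    rw [← MI_circ]; exact h
  have hh := H.MI_cyl_eq (MI_aff_lt hp) (by simp) h'
  obtain ⟨rfl, h0, h2, -⟩ := hh
  have e0 : p 0 = 0 := by
    apply (MI_L_strictMono hs).injective
    rw [MI_L_of_le (x := 0) (by norm_num), zero_sub]
    exact h0
  have e2 : p 2 = 0 := by
    have : p 2 / 2 = 0 := h2
    linarith
  refine ⟨e0, e2, ?_⟩
  rw [H.MI_pushT_Y e s θ η hp e0, MI_circ]
  have h1 : cylc (MI_aff s θ η p) = cylc !₂[-s, 2 * Real.pi * t, 0] := by
    refine (H.ce e).injOn ?_ ?_ h'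
    · rw [H.ce_source]; exact cylc_mem_Dom.2 (MI_aff_lt hp)
    · rw [H.ce_source]; exact cylc_mem_Dom.2 (by simp)
  rw [h1]

theorem MI_psi_mem_Y (e : ι) (s θ η : ℝ) {p : E3} (hp : p ∈ Qb (5 / 4)) (h0 : p 0 = 0)
    (h2 : p 2 = 0) : (some e, pushT (H.MI_psi e s θ η) p ez) ∈ H.Y (Real.exp (-s)) := by
  refine ⟨e, (θ + η * p 1) / (2 * Real.pi), ?_⟩
  rw [H.MI_pushT_Y e s θ η hp h0, MI_circ]
  have e1 : 2 * Real.pi * ((θ + η * p 1) / (2 * Real.pi)) = θ + η * p 1 := by field_simp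
  have : MI_aff s θ η p = !₂[-s, 2 * Real.pi * ((θ + η * p 1) / (2 * Real.pi)), 0] := by
    rw [e1, MI_aff, h0, h2, MI_L_of_le (by norm_num), zero_sub, zero_div]
  rw [this]

/-- a long meridian -/
noncomputable def MI_mer (e : ι) (s θ η t : ℝ) : TM M := pushT (H.MI_psi e s θ η) (MI_enc t) ez

theorem MI_enc_mem' (t : ℝ) : MI_enc t ∈ Qb (5 / 4) := MI_Qb_mono (by norm_num) (MI_enc_mem t)

variable [IsManifold (𝓡 3) ∞ M]

theorem MI_mer_isLink {θ : κ → ℝ} {η s : ℝ} (hA : MI_Ang θ η) (hs : 0 ≤ s) (e : κ → ι) :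
    IsLink fun c => H.MI_mer (e c) s (θ c) η := by
  have hsub : trace MI_encL.γ ⊆ Qb (5 / 4) := by
    intro p hp
    simp only [trace, mem_iUnion] at hp
    obtain ⟨_, t, rfl⟩ := hp
    exact MI_enc_mem' t
  have h := fun c => MI_encL_isLink.push (ψ := H.MI_psi (e c) s (θ c) η)
    (fun p hp => (H.MI_psi_posOn hA hs (e c) c).smooth.contMDiffAt
      ((isOpen_Qb _).mem_nhds (hsub hp)))
    ((H.MI_psi_posOn hA hs (e c) c).inj.mono hsub)
    fun p hp => ((H.MI_psi_posOn hA hs (e c) c).pos p (hsub hp)).ne'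
  refine ⟨fun c => (h c).smooth (), fun c => (h c).per (), fun c c' t t' hh => ?_,
    fun c => (h c).indep ()⟩
  obtain ⟨h1, h2⟩ := H.MI_psi_eq hA hs (MI_enc_mem' t) (MI_enc_mem' t') hh
  exact ⟨h1, MI_enc_inj h2⟩

end HD

end Pool.Agent.P.MP_ac4909_gt.B
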