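import Pool.Agent.P.MP_ac4909_gt.B.MInit_MB

/-! The long segments of the meridians are radial in the vertex charts. -/

namespace Pool.Agent.P.MP_ac4909_gt.B

open scoped Manifold ContDiff
open Set Filter Topology

variable {M : Type*} [TopologicalSpace M] [ChartedSpace E3 M] {ι Vx κ : Type}

/-- a sign -/
def MI_sg (b : Bool) : ℝ := if b then 1 else -1

theorem MI_sg_cases (b : Bool) : MI_sg b = 1 ∨ MI_sg b = -1 := by cases b <;> simp [MI_sg]

theorem MI_sg_inj {b b' : Bool} (h : MI_sg b = MI_sg b') : b = b' := by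
  cases b <;> cases b' <;> simp [MI_sg] at h ⊢ <;> norm_num at h

theorem MI_st_sg {b : Bool} {a : ℝ} (h : 1 / 2 ≤ MI_sg b * a) : st a = MI_sg b := by
  cases b
  · simp only [MI_sg, Bool.false_eq_true, if_false] at h ⊢
    exact st_of_le (by linarith)
  · simp only [MI_sg, if_true] at h ⊢
    exact st_of_ge (by linarith)

namespace HD
variable (H : HD M ι Vx)

theorem MI_radial (e : ι) (θ : ℝ) {σ : ℝ} (hσ : σ = 1 ∨ σ = -1) :
    ∃ (v : Vx) (d n : E3), LinearIndependent ℝ ![d, n] ∧ ∀ l : ℝ,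
      pushT (H.ce e ∘ cylc) !₂[l, θ, σ / 2 / 2] ((2⁻¹ : ℝ) • ez) =
        pushT (H.cv v) (Real.exp l • d) (Real.exp l • n) := by
  have hlt : ∀ l : ℝ, |(!₂[l, θ, σ / 2 / 2] : E3) 2| < 1 := by
    intro l
    change |σ / 2 / 2| < 1
    rcases hσ with rfl | rfl <;> norm_num [abs_lt]
  obtain ⟨v, C, hv⟩ := H.ends e σ hσ
  obtain ⟨d₀, -, hd₀⟩ := hv (cylc !₂[-Real.log 4, θ, σ / 2 / 2]) (cylc_mem_Dom.2 (hlt _)) (by
    change σ / 2 / 2 * Real.exp (-(-Real.log 4)) = σ
    rw [neg_neg, Real.exp_log (by norm_num)]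
    ring)
  set x₀ := pushT (H.ce e ∘ cylc) !₂[-Real.log 4, θ, σ / 2 / 2] ((2⁻¹ : ℝ) • ez) with hx₀
  have hx : x₀.proj ∈ (H.cv v).target := by
    change H.ce e (cylc _) ∈ _
    rw [hd₀]
    exact (H.cv v).map_source (by simp [H.cv_source])
  have h1 := (H.cv_chart v).pushT_symm hx
  set d₁ := (H.cv v).symm x₀.proj
  set n₁ := jac (H.cv v).symm x₀.proj x₀.snd
  have key : ∀ l : ℝ, pushT (H.ce e ∘ cylc) !₂[l, θ, σ / 2 / 2] ((2⁻¹ : ℝ) • ez) =
      pushT (H.cv v) (Real.exp l • Real.exp (Real.log 4) • d₁)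
        (Real.exp l • Real.exp (Real.log 4) • n₁) := by
    intro l
    rw [smul_smul, smul_smul, ← Real.exp_add, ← H.tm_Φ_cv, h1, hx₀, H.tm_Φ_cylc e _ (hlt _)]
    congr 1
    ext i
    fin_cases i <;> simp
  refine ⟨v, _, _, ?_, key⟩
  set d := Real.exp (Real.log 4) • d₁
  set n := Real.exp (Real.log 4) • n₁
  set A := jac (H.ce e ∘ cylc) !₂[0, θ, σ / 2 / 2] with hA
  have hAi : Function.Injective A := by
    apply injective_of_det_ne
    rw [hA, det_jac_comp ((H.MI_ce_smooth e (cylc_mem_Dom.2 (hlt 0))).mdifferentiableAt (by simp))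
      (cylc_contDiff.contMDiff.mdifferentiableAt (by simp)), jac_eq_fderiv]
    exact (mul_pos ((H.ce_chart e).pos _ (by rw [H.ce_source]; exact cylc_mem_Dom.2 (hlt 0)))
      (det_fderiv_cylc _)).ne'
  have hn : A ((2⁻¹ : ℝ) • ez) = jac (H.cv v) d n := by
    have := congrArg (fun x : TM M => (x.snd : E3)) (key 0)
    rw [Real.exp_zero, one_smul, one_smul] at this
    exact this
  have hγ : HasDerivAt (fun l : ℝ => (!₂[l, θ, σ / 2 / 2] : E3)) !₂[1, 0, 0] 0 := by
    have : (fun l : ℝ => (!₂[l, θ, σ / 2 / 2] : E3)) =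
        fun l => !₂[0, θ, σ / 2 / 2] + l • (!₂[1, 0, 0] : E3) := by
      funext l
      ext i
      fin_cases i <;> simp
    rw [this]
    simpa using ((hasDerivAt_id (0 : ℝ)).smul_const (!₂[1, 0, 0] : E3)).const_add
      !₂[0, θ, σ / 2 / 2]
  have hγ' : HasDerivAt (fun l : ℝ => Real.exp l • d) d 0 := by
    simpa using (Real.hasDerivAt_exp 0).smul_const d
  have hd : A !₂[1, 0, 0] = jac (H.cv v) d d := by
    have e1 := vel_comp (h := H.ce e ∘ cylc) (γ := fun l : ℝ => (!₂[l, θ, σ / 2 / 2] : E3))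
      ((H.MI_cyl_smooth e (hlt 0)).mdifferentiableAt (by simp))
      hγ.differentiableAt.mdifferentiableAt
    have e2 := vel_comp (h := H.cv v) (γ := fun l : ℝ => Real.exp l • d) (t := 0)
      ((H.MI_cv_smooth v _).mdifferentiableAt (by simp)) hγ'.differentiableAt.mdifferentiableAt
    rw [vel_eq_deriv, hγ.deriv] at e1
    rw [vel_eq_deriv, hγ'.deriv, Real.exp_zero, one_smul] at e2
    rw [← e2, hA, ← e1]
    congr 1
    funext l
    exact congrArg (fun x : TM M => x.proj) (key l)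
  have hi : LinearIndependent ℝ ![(!₂[1, 0, 0] : E3), (2⁻¹ : ℝ) • ez] := by
    rw [LinearIndependent.pair_iff]
    intro a b h
    have k0 := congrArg (fun p : E3 => p 0) h
    have k2 := congrArg (fun p : E3 => p 2) h
    simp [ez] at k0 k2
    exact ⟨k0, k2⟩
  have hi' := indep_map hAi hi
  rw [hd, hn, LinearIndependent.pair_iff] at hi'
  rw [LinearIndependent.pair_iff]
  intro a b h
  apply hi'
  rw [← map_smul, ← map_smul, ← map_add, h, map_zero]

/-- the radial description of the long segments -/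
structure MI_Rad (e : κ → ι) (θ : κ → ℝ) (η : ℝ) (vv : κ × Bool → Vx) (d n : κ × Bool → E3) :
    Prop where
  indep : ∀ i, LinearIndependent ℝ ![d i, n i]
  off : ∀ i, H.cv (vv i) (d i) ∉ H.gs
  ne : ∀ i i' (a : ℝ), vv i = vv i' → 0 < a → d i = a • d i' → i = i'
  mer : ∀ s i t, 1 / 2 ≤ MI_sg i.2 * Real.sin (2 * Real.pi * t) →
    H.MI_mer (e i.1) s (θ i.1) η t =
      pushT (H.cv (vv i)) (Real.exp (MI_L s (Real.cos (2 * Real.pi * t) / 2)) • d i)
        (Real.exp (MI_L s (Real.cos (2 * Real.pi * t) / 2)) • n i)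

theorem MI_exists_rad {θ : κ → ℝ} {η : ℝ} (hA : MI_Ang θ η) (e : κ → ι) :
    ∃ vv d n, H.MI_Rad e θ η vv d n := by
  have hs : ∀ b, -MI_sg b = 1 ∨ -MI_sg b = -1 := fun b => by
    rcases MI_sg_cases b with h | h <;> simp [h]
  choose vv d n hi h using fun i : κ × Bool =>
    H.MI_radial (e i.1) (θ i.1 + η * (MI_sg i.2 / 2)) (hs i.2)
  have hlt : ∀ (l a : ℝ) b, |(!₂[l, a, -MI_sg b / 2 / 2] : E3) 2| < 1 := by
    intro l a b
    change |-MI_sg b / 2 / 2| < 1
    rcases MI_sg_cases b with h | h <;> rw [h] <;> norm_num [abs_lt]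
  have hp : ∀ i l, H.ce (e i.1) (cylc !₂[l, θ i.1 + η * (MI_sg i.2 / 2), -MI_sg i.2 / 2 / 2]) =
      H.cv (vv i) (Real.exp l • d i) := fun i l => congrArg (fun x : TM M => x.proj) (h i l)
  refine ⟨vv, d, n, hi, fun i => ?_, fun i i' a hv ha hd => ?_, fun s i t ht => ?_⟩
  · have := hp i 0
    rw [Real.exp_zero, one_smul] at this
    rw [← this]
    exact H.MI_cyl_not_mem _ (hlt _ _ _)
  · have h1 := hp i 0
    have h2 := hp i' (Real.log a)
    rw [Real.exp_zero, one_smul, hd, hv] at h1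
    rw [Real.exp_log ha, ← h1] at h2
    obtain ⟨-, -, h3, k, h4⟩ := H.MI_cyl_eq (hlt _ _ _) (hlt _ _ _) h2
    have hb : ∀ b, |MI_sg b / 2| < 5 / 4 := fun b => by
      rcases MI_sg_cases b with h | h <;> rw [h] <;> norm_num [abs_lt]
    obtain ⟨h5, h6⟩ := hA.eq (hb i'.2) (hb i.2) h4
    exact Prod.ext h5.symm (MI_sg_inj (by linarith))
  · rw [MI_mer, H.MI_pushT_psi _ _ _ _ (MI_enc_mem' t), ← h i]
    congr 1
    rw [← MI_st_sg ht]
    rfl

end HD

end Pool.Agent.P.MP_ac4909_gt.B
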