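import Pool.Agent.P.MP_ac4909_gt.B.MCalc

/-! Constructions of links and isotopies in a manifold. -/

namespace Pool.Agent.P.MP_ac4909_gt.B

open scoped Manifold ContDiff
open Set Filter Topology

variable {M N : Type*} [TopologicalSpace M] [ChartedSpace E3 M] [IsManifold (𝓡 3) ∞ M]
  [TopologicalSpace N] [ChartedSpace E3 N] [IsManifold (𝓡 3) ∞ N] {κ κ' ι : Type}
  {Γ : κ → ℝ → TM M} {A : Set M} {S S' J : Set (TM M)}

omit [IsManifold (𝓡 3) ∞ M] in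
theorem LkA_mem (Γ : κ → ℝ → TM M) (c : κ) (t : ℝ) : (Γ c t).proj ∈ base (trace Γ) :=
  ⟨Γ c t, mem_iUnion.2 ⟨c, t, rfl⟩, rfl⟩

theorem LkA_trace {X : Type*} {Γ : κ → ℝ → X} {x : X} : x ∈ trace Γ ↔ ∃ c t, Γ c t = x := by
  simp [trace]

theorem LkA_trace_comp {X : Type*} (Γ : κ → ℝ → X) {f : κ' → κ} (hf : Function.Surjective f) :
    trace (fun c => Γ (f c)) = trace Γ := hf.iUnion_comp fun c => range (Γ c)

theorem LkA_trace_sum {X : Type*} (Γ : κ → ℝ → X) (Γ' : κ' → ℝ → X) :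
    trace (Sum.elim Γ Γ') = trace Γ ∪ trace Γ' := by
  ext x
  simp [LkA_trace]

omit [IsManifold (𝓡 3) ∞ M] in
theorem LkA_lset_sum (Γ : κ → ℝ → TM M) (Γ' : κ' → ℝ → TM M) (ℓ : κ → Option ι)
    (ℓ' : κ' → Option ι) :
    lset (Sum.elim Γ Γ') (Sum.elim ℓ ℓ') = lset Γ ℓ ∪ lset Γ' ℓ' := by
  ext x
  simp [lset]

omit [IsManifold (𝓡 3) ∞ M] in
theorem LkA_lbase (Γ : κ → ℝ → TM M) (ℓ : κ → Option ι) :
    lbase (lset Γ ℓ) = base (trace Γ) := by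
  ext x
  constructor
  · rintro ⟨y, ⟨c, t, rfl⟩, rfl⟩
    exact LkA_mem Γ c t
  · rintro ⟨y, hy, rfl⟩
    obtain ⟨c, t, rfl⟩ := LkA_trace.1 hy
    exact ⟨_, ⟨c, t, rfl⟩, rfl⟩

omit [IsManifold (𝓡 3) ∞ M] in
theorem LkA_nl (Γ : κ → ℝ → TM M) : (nl (trace Γ) : LM ι M) = lset Γ fun _ => none := by
  ext ⟨a, x⟩
  constructor
  · rintro ⟨h1, h2⟩
    obtain ⟨c, t, h3⟩ := LkA_trace.1 h2
    exact ⟨c, t, Prod.ext h1 h3.symm⟩
  · rintro ⟨c, t, h⟩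
    rw [h]
    exact ⟨rfl, LkA_trace.2 ⟨c, t, rfl⟩⟩

theorem IsLink.LkA_proj (h : IsLink Γ) (c : κ) :
    ContMDiff 𝓘(ℝ, ℝ) (𝓡 3) ∞ fun u => (Γ c u).proj := fun t => contMDiffAt_proj (h.smooth c t)

theorem IsLink.LkA_vel (h : IsLink Γ) {N : Type*} [TopologicalSpace N] [ChartedSpace E3 N]
    {f : M → N} {c : κ} {t : ℝ} (hf : ContMDiffAt (𝓡 3) (𝓡 3) ∞ f (Γ c t).proj)
    (hj : (jac f (Γ c t).proj).det ≠ 0) :
    LinearIndependent ℝ ![vel (fun u => f (Γ c u).proj) t, jac f (Γ c t).proj (Γ c t).snd] := by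
  rw [vel_comp (γ := fun u => (Γ c u).proj) (hf.mdifferentiableAt (by simp))
    ((h.LkA_proj c t).mdifferentiableAt (by simp))]
  exact indep_map (injective_of_det_ne hj) (h.indep c t)

theorem IsLink.per_int (h : IsLink Γ) (c : κ) (t : ℝ) (k : ℤ) : Γ c (t + k) = Γ c t := by
  have h1 := (show Function.Periodic (Γ c) 1 from h.per c).int_mul k t
  rwa [mul_one] at h1

theorem IsLink.eq_of_proj (h : IsLink Γ) {c c' : κ} {s t : ℝ}
    (e : (Γ c s).proj = (Γ c' t).proj) : c = c' ∧ Γ c s = Γ c' t := by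
  obtain ⟨rfl, k, rfl⟩ := h.inj c c' s t e
  exact ⟨rfl, (h.per_int c s k).symm⟩

theorem IsLink.comp (h : IsLink Γ) {f : κ' → κ} (hf : Function.Injective f) :
    IsLink fun c => Γ (f c) :=
  ⟨fun _ => h.smooth _, fun _ => h.per _,
    fun _ _ _ _ e => ⟨hf (h.inj _ _ _ _ e).1, (h.inj _ _ _ _ e).2⟩, fun _ => h.indep _⟩

theorem IsLink.sum {Γ' : κ' → ℝ → TM M} (h : IsLink Γ) (h' : IsLink Γ')
    (hd : Disjoint (base (trace Γ)) (base (trace Γ'))) : IsLink (Sum.elim Γ Γ') := by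
  refine ⟨?_, ?_, ?_, ?_⟩
  · rintro (c | c)
    exacts [h.smooth c, h'.smooth c]
  · rintro (c | c)
    exacts [h.per c, h'.per c]
  · rintro (c | c) (c' | c') s t e
    · exact ⟨congrArg _ (h.inj _ _ _ _ e).1, (h.inj _ _ _ _ e).2⟩
    · exact (Set.disjoint_left.1 hd (LkA_mem Γ c s) (e ▸ LkA_mem Γ' c' t)).elim
    · exact (Set.disjoint_left.1 hd (LkA_mem Γ c' t) (e ▸ LkA_mem Γ' c s)).elim
    · exact ⟨congrArg _ (h'.inj _ _ _ _ e).1, (h'.inj _ _ _ _ e).2⟩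
  · rintro (c | c)
    exacts [h.indep c, h'.indep c]

theorem IsLink.tm (h : IsLink Γ) {f : M → N}
    (hf : ∀ x ∈ base (trace Γ), ContMDiffAt (𝓡 3) (𝓡 3) ∞ f x) (hi : InjOn f (base (trace Γ)))
    (hj : ∀ x ∈ base (trace Γ), (jac f x).det ≠ 0) : IsLink fun c t => tm f (Γ c t) := by
  refine ⟨fun c t => ?_, fun c t => by rw [h.per], fun c c' s t e =>
    h.inj _ _ _ _ (hi (LkA_mem Γ c s) (LkA_mem Γ c' t) e),
    fun c t => h.LkA_vel (hf _ (LkA_mem Γ c t)) (hj _ (LkA_mem Γ c t))⟩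
  exact contMDiffAt_tm (h := fun _ => f) (Γ := Γ c)
    (ContMDiffAt.comp (g := f) _ (hf _ (LkA_mem Γ c t)) contMDiffAt_snd) (h.smooth c t)

theorem Lk.IsLink.push {L : Lk κ} (h : L.IsLink) {ψ : E3 → M}
    (hψ : ∀ p ∈ trace L.γ, ContMDiffAt (𝓡 3) (𝓡 3) ∞ ψ p) (hi : InjOn ψ (trace L.γ))
    (hj : ∀ p ∈ trace L.γ, (jac ψ p).det ≠ 0) :
    B.IsLink fun c t => pushT ψ (L.γ c t) (L.ν c t) := by
  have hm : ∀ c t, L.γ c t ∈ trace L.γ := fun c t => LkA_trace.2 ⟨c, t, rfl⟩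
  refine ⟨fun c t => contMDiffAt_pushT (hψ _ (hm c t)) (h.isU.smooth c).contDiffAt
    (h.smooth c).contDiffAt, fun c t => by rw [h.per, h.isU.per], fun c c' s t e =>
    h.isU.inj _ _ _ _ (hi (hm c s) (hm c' t) e), fun c t => ?_⟩
  change LinearIndependent ℝ ![vel (fun u => ψ (L.γ c u)) t, jac ψ (L.γ c t) (L.ν c t)]
  rw [vel_comp ((hψ _ (hm c t)).mdifferentiableAt (by simp))
    ((h.isU.smooth c).contMDiff.mdifferentiableAt (by simp)), vel_eq_deriv]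
  exact indep_map (injective_of_det_ne (hj _ (hm c t))) (h.indep c t)

theorem IsLink.pull (h : IsLink Γ) {F : M → E3}
    (hF : ∀ x ∈ base (trace Γ), ContMDiffAt (𝓡 3) (𝓡 3) ∞ F x) (hi : InjOn F (base (trace Γ)))
    (hj : ∀ x ∈ base (trace Γ), (jac F x).det ≠ 0) :
    (⟨fun c t => F (Γ c t).proj, fun c t => jac F (Γ c t).proj (Γ c t).snd⟩ : Lk κ).IsLink := by
  have h1 : ∀ c t, LinearIndependent ℝ
      ![deriv (fun u => F (Γ c u).proj) t, jac F (Γ c t).proj (Γ c t).snd] := fun c t => by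
    rw [← vel_eq_deriv]
    exact h.LkA_vel (hF _ (LkA_mem Γ c t)) (hj _ (LkA_mem Γ c t))
  have h2 := fun c t => contDiffAt_pull (Γ := Γ c) (hF _ (LkA_mem Γ c t)) (h.smooth c t)
  refine ⟨⟨fun c => contDiff_iff_contDiffAt.2 fun t => (h2 c t).1, fun c t => ?_,
    fun c c' s t e => h.inj _ _ _ _ (hi (LkA_mem Γ c s) (LkA_mem Γ c' t) e),
    fun c t => (h1 c t).ne_zero 0⟩, fun c => contDiff_iff_contDiffAt.2 fun t => (h2 c t).2,
    fun c t => ?_, h1⟩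
  · change F (Γ c (t + 1)).proj = F (Γ c t).proj
    rw [h.per]
  · change jac F (Γ c (t + 1)).proj (Γ c (t + 1)).snd = jac F (Γ c t).proj (Γ c t).snd
    rw [h.per]

theorem isLS_iff : IsLS S ↔ ∃ L : FramedLink M, L.1 = S := by
  constructor
  · rintro ⟨κ, _, Γ, h, rfl⟩
    exact ⟨⟨_, _, _, h.comp (Fintype.equivFin κ).symm.injective, rfl⟩,
      LkA_trace_comp Γ (Fintype.equivFin κ).symm.surjective⟩
  · rintro ⟨⟨_, n, Γ, h, rfl⟩, rfl⟩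
    exact ⟨Fin n, inferInstance, Γ, h, rfl⟩

theorem isLS_empty : IsLS (∅ : Set (TM M)) :=
  ⟨Empty, inferInstance, fun c => c.elim,
    ⟨fun c => c.elim, fun c => c.elim, fun c => c.elim, fun c => c.elim⟩, by simp [trace]⟩

theorem IsLink.LkA_compact [Finite κ] (h : IsLink Γ) : IsCompact (trace Γ) :=
  isCompact_iUnion fun c => (show Function.Periodic (Γ c) 1 from h.per c).compact_of_continuous
    one_ne_zero (h.smooth c).continuous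

theorem IsLS.isCompact_base (h : IsLS S) : IsCompact (base S) := by
  obtain ⟨κ, _, Γ, h, rfl⟩ := h
  exact h.LkA_compact.image (FiberBundle.continuous_proj E3 (TangentSpace (𝓡 3)))

theorem IsLS.isCompact (h : IsLS S) : IsCompact S := by
  obtain ⟨κ, _, Γ, h, rfl⟩ := h
  exact h.LkA_compact

theorem IsLS.eq_of_proj (h : IsLS S) {x y : TM M} (hx : x ∈ S) (hy : y ∈ S)
    (e : x.proj = y.proj) : x = y := by
  obtain ⟨κ, _, Γ, h, rfl⟩ := h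
  obtain ⟨c, s, rfl⟩ := LkA_trace.1 hx
  obtain ⟨c', t, rfl⟩ := LkA_trace.1 hy
  exact (h.eq_of_proj e).2

theorem IsLS.union (h : IsLS S) (h' : IsLS S') (hd : Disjoint (base S) (base S')) :
    IsLS (S ∪ S') := by
  obtain ⟨κ, _, Γ, h, rfl⟩ := h
  obtain ⟨κ', _, Γ', h', rfl⟩ := h'
  exact ⟨κ ⊕ κ', inferInstance, _, h.sum h' hd, (LkA_trace_sum Γ Γ').symm⟩

theorem IsLS.tm (h : IsLS S) {f : M → N} (hf : ∀ x ∈ base S, ContMDiffAt (𝓡 3) (𝓡 3) ∞ f x)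
    (hi : InjOn f (base S)) (hj : ∀ x ∈ base S, (jac f x).det ≠ 0) : IsLS (tm f '' S) := by
  obtain ⟨κ, _, Γ, h, rfl⟩ := h
  refine ⟨κ, inferInstance, _, h.tm hf hi hj, ?_⟩
  simp only [trace, image_iUnion, ← range_comp]
  rfl

theorem IsLS.LkA_split (h : IsLS S) {U V : Set M} (hU : IsOpen U) (hV : IsOpen V)
    (hd : Disjoint U V) (hS : base S ⊆ U ∪ V) : IsLS {x ∈ S | x.proj ∈ U} := by
  classical
  obtain ⟨κ, _, Γ, h, rfl⟩ := h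
  refine ⟨{c // ∀ t, (Γ c t).proj ∈ U}, inferInstance, _, h.comp Subtype.val_injective, ?_⟩
  ext x
  constructor
  · rintro ⟨hx, hxU⟩
    obtain ⟨c, t, rfl⟩ := LkA_trace.1 hx
    have h1 := (isPreconnected_range (h.LkA_proj c).continuous).subset_left_of_subset_union hU hV
      hd (by rintro _ ⟨u, rfl⟩; exact hS (LkA_mem Γ c u)) ⟨_, mem_range_self t, hxU⟩
    exact LkA_trace.2 ⟨⟨c, fun u => h1 ⟨u, rfl⟩⟩, t, rfl⟩
  · intro hx
    obtain ⟨c, t, rfl⟩ := LkA_trace.1 hx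
    exact ⟨LkA_trace.2 ⟨c.1, t, rfl⟩, c.2 t⟩

/-- a link splits along two disjoint open sets that cover it -/
theorem IsLS.split (h : IsLS S) {U V : Set M} (hU : IsOpen U) (hV : IsOpen V)
    (hd : Disjoint U V) (hS : base S ⊆ U ∪ V) :
    IsLS {x ∈ S | x.proj ∈ U} ∧ IsLS {x ∈ S | x.proj ∈ V} :=
  ⟨h.LkA_split hU hV hd hS, h.LkA_split hV hU hd.symm (union_comm U V ▸ hS)⟩

theorem IsLS.nl (h : IsLS S) : IsLM (nl S : LM ι M) := by
  obtain ⟨κ, _, Γ, h, rfl⟩ := h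
  exact ⟨κ, inferInstance, Γ, _, h, LkA_nl Γ⟩

theorem IsPM.isLM {T : LM ι M} (h : IsPM T) : IsLM T := by
  obtain ⟨κ, _, Γ, ℓ, h, e, -⟩ := h
  exact ⟨κ, inferInstance, Γ, ℓ, h, e⟩

theorem IsLM.isCompact_lbase {T : LM ι M} (h : IsLM T) : IsCompact (lbase T) := by
  obtain ⟨κ, _, Γ, ℓ, h, rfl⟩ := h
  rw [LkA_lbase]
  exact IsLS.isCompact_base ⟨κ, inferInstance, Γ, h, rfl⟩

theorem IsLM.union {T T' : LM ι M} (h : IsLM T) (h' : IsLM T')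
    (hd : Disjoint (lbase T) (lbase T')) : IsLM (T ∪ T') := by
  obtain ⟨κ, _, Γ, ℓ, h, rfl⟩ := h
  obtain ⟨κ', _, Γ', ℓ', h', rfl⟩ := h'
  rw [LkA_lbase, LkA_lbase] at hd
  exact ⟨κ ⊕ κ', inferInstance, _, _, h.sum h' hd, (LkA_lset_sum Γ Γ' ℓ ℓ').symm⟩

theorem IsPM.nl_union {T : LM ι M} (h : IsLS S) (h' : IsPM T)
    (hd : Disjoint (base S) (lbase T)) : IsPM (nl S ∪ T) := by
  obtain ⟨κ, _, Γ, h, rfl⟩ := h
  obtain ⟨κ', _, Γ', ℓ', h', rfl, hu⟩ := h'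
  rw [LkA_lbase] at hd
  rw [LkA_nl]
  refine ⟨κ ⊕ κ', inferInstance, _, _, h.sum h' hd, (LkA_lset_sum Γ Γ' _ ℓ').symm, fun i => ?_⟩
  obtain ⟨c, hc, hc'⟩ := hu i
  refine ⟨Sum.inr c, hc, ?_⟩
  rintro (d | d) e
  · cases e
  · exact congrArg _ (hc' d e)

omit [IsManifold (𝓡 3) ∞ M] in
theorem mlb_mem_base (Γ : κ → ℝ → TM M) (c : κ) (t : ℝ) : (Γ c t).proj ∈ base (trace Γ) :=
  ⟨Γ c t, mem_iUnion.2 ⟨c, t, rfl⟩, rfl⟩

omit [IsManifold (𝓡 3) ∞ M] in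
theorem mlb_base_subset (h : ∀ c t, (Γ c t).proj ∈ A) : base (trace Γ) ⊆ A := by
  rintro _ ⟨x, hx, rfl⟩
  obtain ⟨c, t, rfl⟩ := mem_iUnion.1 hx
  exact h c t

omit [IsManifold (𝓡 3) ∞ M] in
theorem mlb_trace_sum (Γ : κ → ℝ → TM M) (Γ' : κ' → ℝ → TM M) :
    trace (Sum.elim Γ Γ') = trace Γ ∪ trace Γ' := by
  simp [trace, iUnion_sum]

omit [IsManifold (𝓡 3) ∞ M] in
theorem mlb_lset_sum (Γ : κ → ℝ → TM M) (Γ' : κ' → ℝ → TM M) (ℓ : κ → Option ι)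
    (ℓ' : κ' → Option ι) :
    lset (Sum.elim Γ Γ') (Sum.elim ℓ ℓ') = lset Γ ℓ ∪ lset Γ' ℓ' := by
  ext x
  simp [lset, Sum.exists]

omit [IsManifold (𝓡 3) ∞ M] in
theorem mlb_nl_trace (Γ : κ → ℝ → TM M) : (nl (trace Γ) : LM ι M) = lset Γ fun _ => none := by
  ext ⟨l, x⟩
  constructor
  · rintro ⟨h1, h2⟩
    obtain ⟨c, t, h3⟩ := mem_iUnion.1 h2
    exact ⟨c, t, Prod.ext h1 h3.symm⟩
  · rintro ⟨c, t, h⟩
    obtain ⟨h1, h2⟩ := Prod.ext_iff.1 h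
    exact ⟨h1, mem_iUnion.2 ⟨c, t, h2.symm⟩⟩

omit [IsManifold (𝓡 3) ∞ M] in
theorem mlb_lbase_lset (Γ : κ → ℝ → TM M) (ℓ : κ → Option ι) :
    lbase (lset Γ ℓ) = base (trace Γ) := by
  refine Subset.antisymm ?_ (mlb_base_subset fun c t => ⟨_, ⟨c, t, rfl⟩, rfl⟩)
  rintro _ ⟨_, ⟨c, t, rfl⟩, rfl⟩
  exact mlb_mem_base Γ c t

omit [IsManifold (𝓡 3) ∞ M] [IsManifold (𝓡 3) ∞ N] in
theorem mlb_image_trace (f : M → N) (Γ : κ → ℝ → TM M) :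
    tm f '' trace Γ = trace fun c t => tm f (Γ c t) := by
  simp only [trace, image_iUnion, ← range_comp]
  rfl

theorem mlb_symm {H : ℝ → κ → ℝ → TM M} (h : IsIso A H) : IsIso A fun s => H (1 - s) := by
  have hm : ∀ s ∈ Icc (0 : ℝ) 1, 1 - s ∈ Icc (0 : ℝ) 1 := fun s hs =>
    ⟨sub_nonneg.2 hs.2, sub_le_self _ hs.1⟩
  refine ⟨fun c => ?_, fun s hs => h.link _ (hm s hs), fun s hs => h.mem _ (hm s hs)⟩
  have h1 : ContDiff ℝ ∞ fun p : ℝ × ℝ => (1 - p.1, p.2) := by fun_prop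
  exact (h.smooth c).comp h1.contMDiff

theorem mlb_sum {H : ℝ → κ → ℝ → TM M} (h : IsIso A H) {Γ' : κ' → ℝ → TM M} (h' : IsLink Γ')
    (hd : Disjoint (base (trace Γ')) A) :
    IsIso (A ∪ base (trace Γ')) fun s => Sum.elim (H s) Γ' := by
  refine ⟨?_, fun s hs => (h.link s hs).sum h'
    (hd.mono_right (mlb_base_subset (h.mem s hs))).symm, ?_⟩
  · rintro (c | c)
    · exact h.smooth c
    · exact (h'.smooth c).comp (contDiff_snd (𝕜 := ℝ)).contMDiff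
  · rintro s hs (c | c) t
    · exact Or.inl (h.mem s hs c t)
    · exact Or.inr (mlb_mem_base Γ' c t)

theorem mlb_per {X : Type*} {γ : ℝ → X} (h : ∀ t, γ (t + 1) = γ t) (t : ℝ) (k : ℤ) :
    γ (t + k) = γ t := by
  simpa using (Function.Periodic.int_mul (f := γ) h k) t

theorem mlb_near {a a' b' b t : ℝ} (ha : a < a') (hb : b' < b)
    (h : ∀ k : ℤ, t + (k : ℝ) ∉ Ioo a b) : ∀ᶠ u in 𝓝 t, ∀ k : ℤ, u + (k : ℝ) ∉ Icc a' b' := by
  filter_upwards [Ioo_mem_nhds (show t - (b - b') < t by linarith)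
    (show t < t + (a' - a) by linarith)] with u hu k hk
  exact h k ⟨by linarith [hu.2, hk.1], by linarith [hu.1, hk.2]⟩

omit [IsManifold (𝓡 3) ∞ M] [IsManifold (𝓡 3) ∞ N] in
theorem mlb_slice {Q : ℝ → M → N}
    (h : ContMDiff (𝓘(ℝ, ℝ).prod (𝓡 3)) (𝓡 3) ∞ fun p : ℝ × M => Q p.1 p.2) (s : ℝ) :
    ContMDiff (𝓡 3) (𝓡 3) ∞ (Q s) :=
  h.comp (contMDiff_const.prodMk contMDiff_id)

theorem Isotopic.isoIn (h : Isotopic S S') : IsoIn univ S S' := by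
  obtain ⟨n, H, h1, h2, h3, h4⟩ := h
  exact ⟨Fin n, inferInstance, H, ⟨h1, h2, fun _ _ _ _ => mem_univ _⟩, h3, h4⟩

theorem IsoIn.symm (h : IsoIn A S S') : IsoIn A S' S := by
  obtain ⟨κ, i, H, h1, h2, h3⟩ := h
  exact ⟨κ, i, _, mlb_symm h1, by simpa using h3, by simpa using h2⟩

theorem IsoIn.mono (h : IsoIn A S S') {A' : Set M} (hA : A ⊆ A') : IsoIn A' S S' := by
  obtain ⟨κ, i, H, h1, h2, h3⟩ := h
  exact ⟨κ, i, H, ⟨h1.smooth, h1.link, fun s hs c t => hA (h1.mem s hs c t)⟩, h2, h3⟩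

theorem IsoIn.isLS (h : IsoIn A S S') : IsLS S ∧ IsLS S' ∧ base S ⊆ A ∧ base S' ⊆ A := by
  obtain ⟨κ, i, H, h1, rfl, rfl⟩ := h
  have h0 : (0 : ℝ) ∈ Icc (0 : ℝ) 1 := left_mem_Icc.2 zero_le_one
  have h0' : (1 : ℝ) ∈ Icc (0 : ℝ) 1 := right_mem_Icc.2 zero_le_one
  exact ⟨⟨κ, i, _, h1.link 0 h0, rfl⟩, ⟨κ, i, _, h1.link 1 h0', rfl⟩,
    mlb_base_subset (h1.mem 0 h0), mlb_base_subset (h1.mem 1 h0')⟩

theorem IsoIn.union (h : IsoIn A S S') (hJ : IsLS J) (hd : Disjoint (base J) A) :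
    IsoIn (A ∪ base J) (S ∪ J) (S' ∪ J) := by
  obtain ⟨κ, i, H, h1, rfl, rfl⟩ := h
  obtain ⟨κ', i', Γ', h2, rfl⟩ := hJ
  exact ⟨κ ⊕ κ', inferInstance, _, mlb_sum h1 h2 hd, (mlb_trace_sum _ _).symm,
    (mlb_trace_sum _ _).symm⟩

theorem IsoIn.nl (h : IsoIn A S S') : IsoM A (nl S : LM ι M) (nl S') := by
  obtain ⟨κ, i, H, h1, rfl, rfl⟩ := h
  exact ⟨κ, i, H, fun _ => none, h1, mlb_nl_trace _, mlb_nl_trace _⟩

theorem IsoM.symm {T T' : LM ι M} (h : IsoM A T T') : IsoM A T' T := by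
  obtain ⟨κ, i, H, ℓ, h1, h2, h3⟩ := h
  exact ⟨κ, i, _, ℓ, mlb_symm h1, by simpa using h3, by simpa using h2⟩

theorem IsoM.mono {T T' : LM ι M} (h : IsoM A T T') {A' : Set M} (hA : A ⊆ A') :
    IsoM A' T T' := by
  obtain ⟨κ, i, H, ℓ, h1, h2, h3⟩ := h
  exact ⟨κ, i, H, ℓ, ⟨h1.smooth, h1.link, fun s hs c t => hA (h1.mem s hs c t)⟩, h2, h3⟩

theorem IsoM.union {T T' T₀ : LM ι M} (h : IsoM A T T') (h₀ : IsLM T₀)
    (hd : Disjoint (lbase T₀) A) : IsoM (A ∪ lbase T₀) (T ∪ T₀) (T' ∪ T₀) := by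
  obtain ⟨κ, i, H, ℓ, h1, rfl, rfl⟩ := h
  obtain ⟨κ', i', Γ', ℓ', h2, rfl⟩ := h₀
  rw [mlb_lbase_lset] at hd ⊢
  exact ⟨κ ⊕ κ', inferInstance, _, Sum.elim ℓ ℓ', mlb_sum h1 h2 hd, (mlb_lset_sum _ _ _ _).symm,
    (mlb_lset_sum _ _ _ _).symm⟩

/-- the track of an isotopy is compact -/
theorem IsIso.isCompact_track [Fintype κ] {H : ℝ → κ → ℝ → TM M} (h : IsIso A H) :
    IsCompact {x | ∃ s ∈ Icc (0 : ℝ) 1, ∃ c t, x = (H s c t).proj} := by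
  have e : {x | ∃ s ∈ Icc (0 : ℝ) 1, ∃ c t, x = (H s c t).proj} =
      ⋃ c, (fun p : ℝ × ℝ => (H p.1 c p.2).proj) '' Icc (0 : ℝ) 1 ×ˢ Icc (0 : ℝ) 1 := by
    ext x
    constructor
    · rintro ⟨s, hs, c, t, rfl⟩
      refine mem_iUnion.2 ⟨c, (s, Int.fract t), ⟨hs, Int.fract_nonneg t, (Int.fract_lt_one t).le⟩,
        ?_⟩
      have := (h.link s hs).per_int c (Int.fract t) ⌊t⌋
      rw [Int.fract_add_floor] at this
      rw [this]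
    · intro hx
      obtain ⟨c, p, hp, rfl⟩ := mem_iUnion.1 hx
      exact ⟨p.1, hp.1, c, p.2, rfl⟩
  rw [e]
  refine isCompact_iUnion fun c => (isCompact_Icc.prod isCompact_Icc).image ?_
  exact continuous_iff_continuousAt.2 fun p => (contMDiffAt_proj (h.smooth c p)).continuousAt

/-- an isotopy followed by a family of maps that embed the links -/
theorem IsIso.tm {H : ℝ → κ → ℝ → TM M} (h : IsIso A H) {f : ℝ → M → N} {A' : Set N}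
    (hf : ContMDiff (𝓘(ℝ, ℝ).prod (𝓡 3)) (𝓡 3) ∞ fun p : ℝ × M => f p.1 p.2)
    (hi : ∀ s ∈ Icc (0 : ℝ) 1, InjOn (f s) (base (trace (H s))))
    (hj : ∀ s ∈ Icc (0 : ℝ) 1, ∀ x ∈ base (trace (H s)), (jac (f s) x).det ≠ 0)
    (hA : ∀ s ∈ Icc (0 : ℝ) 1, MapsTo (f s) (base (trace (H s))) A') :
    IsIso A' fun s c t => tm (f s) (H s c t) := by
  refine ⟨fun c p => ?_, fun s hs => (h.link s hs).tm (fun x _ => mlb_slice hf s x) (hi s hs)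
    (hj s hs), fun s hs c t => hA s hs (mlb_mem_base _ c t)⟩
  refine contMDiffAt_tm (h := fun y : ℝ × ℝ => f y.1) (Γ := fun y => H y.1 c y.2) ?_ (h.smooth c p)
  have h1 : ContMDiff (𝓘(ℝ, ℝ × ℝ).prod (𝓡 3)) (𝓘(ℝ, ℝ).prod (𝓡 3)) ∞
      fun q : (ℝ × ℝ) × M => (q.1.1, q.2) :=
    ((contDiff_fst (𝕜 := ℝ)).contMDiff.comp contMDiff_fst).prodMk contMDiff_snd
  exact (hf.comp h1) _

theorem IsLink.isIso_const (h : IsLink Γ) : IsIso (base (trace Γ)) fun _ => Γ :=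
  ⟨fun c => (h.smooth c).comp (contDiff_snd (𝕜 := ℝ)).contMDiff, fun _ _ => h,
    fun _ _ c t => mlb_mem_base Γ c t⟩

theorem AmbIso.comp {Q Q' : ℝ → M → M} (h : AmbIso Q) (h' : AmbIso Q') :
    AmbIso fun s => Q s ∘ Q' s := by
  refine ⟨h.smooth.comp (contMDiff_fst.prodMk h'.smooth), fun x => ?_,
    fun s hs => (h.inj s hs).comp (h'.inj s hs), fun s hs x => ?_⟩
  · rw [Function.comp_apply, h'.zero, h.zero]
  · rw [det_jac_comp ((mlb_slice h.smooth s _).mdifferentiableAt (by simp))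
      ((mlb_slice h'.smooth s _).mdifferentiableAt (by simp))]
    exact mul_pos (h.pos s hs _) (h'.pos s hs _)

theorem AmbIso.contMDiff {Q : ℝ → M → M} (h : AmbIso Q) (s : ℝ) :
    ContMDiff (𝓡 3) (𝓡 3) ∞ (Q s) := mlb_slice h.smooth s

/-- an isotopy between `S` and `S'` gives one between their images under ambient isotopies -/
theorem IsoIn.amb (h : IsoIn A S S') {Q Q' : ℝ → M → M} (hQ : AmbIso Q) (hQ' : AmbIso Q') :
    IsoIn univ (tm (Q 1) '' S) (tm (Q' 1) '' S') := by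
  obtain ⟨κ, i, H, h1, rfl, rfl⟩ := h
  have hm : ∀ s ∈ Icc (0 : ℝ) 1, 1 - s ∈ Icc (0 : ℝ) 1 := fun s hs =>
    ⟨sub_nonneg.2 hs.2, sub_le_self _ hs.1⟩
  have h2 : ContMDiff (𝓘(ℝ, ℝ).prod (𝓡 3)) (𝓘(ℝ, ℝ).prod (𝓡 3)) ∞
      fun q : ℝ × M => (1 - q.1, q.2) :=
    ((show ContDiff ℝ ∞ fun s : ℝ => 1 - s by fun_prop).contMDiff.comp contMDiff_fst).prodMk
      contMDiff_snd
  have h3 := h1.tm (f := fun s => Q' s ∘ Q (1 - s)) (A' := univ)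
    (hQ'.smooth.comp (contMDiff_fst.prodMk (hQ.smooth.comp h2)))
    (fun s hs => ((hQ'.inj s hs).comp (hQ.inj _ (hm s hs))).injOn)
    (fun s hs x _ => by
      rw [det_jac_comp ((hQ'.contMDiff s _).mdifferentiableAt (by simp))
        ((hQ.contMDiff _ _).mdifferentiableAt (by simp))]
      exact (mul_pos (hQ'.pos s hs _) (hQ.pos _ (hm s hs) _)).ne')
    (fun _ _ => mapsTo_univ _ _)
  have e0 : Q' 0 ∘ Q (1 - 0) = Q 1 := funext fun x => by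
    rw [Function.comp_apply, hQ'.zero, sub_zero]
  have e1 : Q' 1 ∘ Q (1 - 1) = Q' 1 := funext fun x => by
    rw [Function.comp_apply, sub_self, hQ.zero]
  refine ⟨κ, i, _, h3, ?_, ?_⟩
  · simp only [mlb_image_trace, e0]
  · simp only [mlb_image_trace, e1]

/-- Replace, in a smooth periodic family, the component `c₀` on a parameter interval. -/
theorem exists_patch {H : ℝ → κ → ℝ → TM M}
    (hH : ∀ c, ContMDiff 𝓘(ℝ, ℝ × ℝ) (𝓡 3).tangent ∞ fun p : ℝ × ℝ => H p.1 c p.2)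
    (hper : ∀ s c t, H s c (t + 1) = H s c t) (c₀ : κ) {a a' b' b : ℝ} (ha : a < a')
    (hb : b' < b) (hab : b ≤ a + 1) {g : ℝ × ℝ → TM M}
    (hg : ContMDiffOn 𝓘(ℝ, ℝ × ℝ) (𝓡 3).tangent ∞ g (univ ×ˢ Ioo a b))
    (he : ∀ s, ∀ t ∈ Ioo a b, t ∉ Icc a' b' → g (s, t) = H s c₀ t) :
    ∃ H' : ℝ → κ → ℝ → TM M,
      (∀ c, ContMDiff 𝓘(ℝ, ℝ × ℝ) (𝓡 3).tangent ∞ fun p : ℝ × ℝ => H' p.1 c p.2) ∧
      (∀ s c t, H' s c (t + 1) = H' s c t) ∧ (∀ s, ∀ t ∈ Ioo a b, H' s c₀ t = g (s, t)) ∧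
      ∀ s c t, (c ≠ c₀ ∨ ∀ k : ℤ, t + (k : ℝ) ∉ Icc a' b') → H' s c t = H s c t := by
  classical
  set H' : ℝ → κ → ℝ → TM M := fun s c t =>
    if c = c₀ ∧ toIcoMod one_pos a t ∈ Icc a' b' then g (s, toIcoMod one_pos a t) else H s c t
    with hH'
  have p1 : ∀ s c t, H' s c (t + 1) = H' s c t := fun s c t => by
    simp only [hH', toIcoMod_add_right, hper]
  have p2 : ∀ s, ∀ t ∈ Ioo a b, H' s c₀ t = g (s, t) := fun s t ht => by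
    have e : toIcoMod one_pos a t = t := (toIcoMod_eq_self _).2 ⟨ht.1.le, ht.2.trans_le hab⟩
    simp only [hH', e, true_and]
    split_ifs with h1
    · rfl
    · exact (he s t ht h1).symm
  have p3 : ∀ s c t, (c ≠ c₀ ∨ ∀ k : ℤ, t + (k : ℝ) ∉ Icc a' b') → H' s c t = H s c t := by
    intro s c t h1
    simp only [hH']
    refine if_neg fun h2 => h1.elim (fun h3 => h3 h2.1) fun h3 => h3 (-toIcoDiv one_pos a t) ?_
    have := h2.2
    rw [toIcoMod, zsmul_eq_mul, mul_one] at this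
    rwa [Int.cast_neg, ← sub_eq_add_neg]
  refine ⟨H', fun c p => ?_, p1, p2, p3⟩
  by_cases hc : c = c₀ ∧ ∃ k : ℤ, p.2 + (k : ℝ) ∈ Ioo a b
  · obtain ⟨rfl, k, hk⟩ := hc
    have h1 : ContDiff ℝ ∞ fun q : ℝ × ℝ => (q.1, q.2 + (k : ℝ)) := by fun_prop
    have h2 : (univ ×ˢ Ioo a b : Set (ℝ × ℝ)) ∈ 𝓝 (p.1, p.2 + (k : ℝ)) :=
      (isOpen_univ.prod isOpen_Ioo).mem_nhds ⟨mem_univ _, hk⟩
    refine ((hg.contMDiffAt h2).comp p (h1.contMDiff p)).congr_of_eventuallyEq ?_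
    filter_upwards [h1.continuous.continuousAt.preimage_mem_nhds h2] with q hq
    exact (mlb_per (p1 q.1 c) q.2 k).symm.trans (p2 q.1 _ hq.2)
  · refine (hH c p).congr_of_eventuallyEq ?_
    by_cases h1 : c = c₀
    · filter_upwards [continuous_snd.continuousAt.eventually
        (mlb_near ha hb fun k hk => hc ⟨h1, k, hk⟩)] with q hq
      exact p3 _ _ _ (Or.inr hq)
    · exact Eventually.of_forall fun q => p3 _ _ _ (Or.inl h1)

/-- criterion for a link that agrees with a link outside a parameter interval -/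
theorem IsLink.of_patch {Γ' : κ → ℝ → TM M} (h : IsLink Γ)
    (hs : ∀ c, ContMDiff 𝓘(ℝ, ℝ) (𝓡 3).tangent ∞ (Γ' c)) (hper : ∀ c t, Γ' c (t + 1) = Γ' c t)
    (c₀ : κ) {a a' b' b : ℝ} (ha : a < a') (hb : b' < b) (hab : b ≤ a + 1)
    (he : ∀ c t, (c ≠ c₀ ∨ ∀ k : ℤ, t + (k : ℝ) ∉ Icc a' b') → Γ' c t = Γ c t)
    (hinj : InjOn (fun t => (Γ' c₀ t).proj) (Ioo a b))
    (hind : ∀ t ∈ Ioo a b,
      LinearIndependent ℝ ![vel (fun u => (Γ' c₀ u).proj) t, ((Γ' c₀ t).snd : E3)])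
    (hd : ∀ t ∈ Icc a' b', ∀ c u, (c ≠ c₀ ∨ ∀ k : ℤ, u + (k : ℝ) ∉ Ioo a b) →
      (Γ' c₀ t).proj ≠ (Γ c u).proj) : IsLink Γ' := by
  have hsub : Icc a' b' ⊆ Ioo a b := Icc_subset_Ioo ha hb
  have key : ∀ (s : ℝ) (k : ℤ), s + (k : ℝ) ∈ Icc a' b' → ∀ c' t,
      (Γ' c₀ s).proj = (Γ' c' t).proj → c₀ = c' ∧ ∃ m : ℤ, t = s + m := by
    intro s k hk c' t e
    rw [← mlb_per (hper c₀) s k] at e
    by_cases hc : c' = c₀ ∧ ∃ l : ℤ, t + (l : ℝ) ∈ Ioo a b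
    · obtain ⟨rfl, l, hl⟩ := hc
      rw [← mlb_per (hper c') t l] at e
      have := hinj (hsub hk) hl e
      exact ⟨rfl, k - l, by push_cast; linarith⟩
    · have h1 : c' ≠ c₀ ∨ ∀ l : ℤ, t + (l : ℝ) ∉ Ioo a b := by
        by_contra h2
        push Not at h2
        exact hc h2
      rw [he c' t (h1.imp_right fun h2 l hl => h2 l (hsub hl))] at e
      exact absurd e (hd _ hk c' t h1)
  refine ⟨hs, hper, fun c c' s t e => ?_, fun c t => ?_⟩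
  · by_cases h1 : c ≠ c₀ ∨ ∀ k : ℤ, s + (k : ℝ) ∉ Icc a' b'
    · by_cases h2 : c' ≠ c₀ ∨ ∀ k : ℤ, t + (k : ℝ) ∉ Icc a' b'
      · rw [he c s h1, he c' t h2] at e
        exact h.inj c c' s t e
      · push Not at h2
        obtain ⟨rfl, k, hk⟩ := h2
        obtain ⟨h3, m, hm⟩ := key t k hk c s e.symm
        exact ⟨h3.symm, -m, by push_cast; linarith⟩
    · push Not at h1
      obtain ⟨rfl, k, hk⟩ := h1
      exact key s k hk c' t e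
  · by_cases hc : c = c₀ ∧ ∃ k : ℤ, t + (k : ℝ) ∈ Ioo a b
    · obtain ⟨rfl, k, hk⟩ := hc
      have h1 := hind _ hk
      have h2 := vel_reparam (γ := fun u => (Γ' c u).proj) (φ := fun u => u + (k : ℝ)) (t := t)
        ((contMDiffAt_proj (hs c _)).mdifferentiableAt (by simp)) (by fun_prop)
      simp only [mlb_per (hper c), deriv_add_const', deriv_id'', one_smul] at h2
      rwa [← h2, mlb_per (hper c)] at h1
    · have h1 : ∀ᶠ u in 𝓝 t, Γ' c u = Γ c u := by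
        by_cases h1 : c = c₀
        · filter_upwards [mlb_near ha hb fun k hk => hc ⟨h1, k, hk⟩] with u hu
          exact he _ _ (Or.inr hu)
        · exact Eventually.of_forall fun u => he _ _ (Or.inl h1)
      rw [vel_congr (γ' := fun u => (Γ c u).proj) (h1.mono fun u hu => congrArg _ hu),
        h1.self_of_nhds]
      exact h.indep c t

end Pool.Agent.P.MP_ac4909_gt.B
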