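import Pool.Agent.P.MP_ac4909_gt.B.MSphere_A
import Pool.Agent.P.MP_ac4909_gt.B.MArc

/-! The sphere lemma, part B: pictures, the opposite sector and the thinner sector. -/

namespace Pool.Agent.P.MP_ac4909_gt.B

open scoped Manifold ContDiff
open Set Filter Topology Real

variable {M : Type*} [TopologicalSpace M] [ChartedSpace E3 M] {ι Vx : Type} {ψ : E3 → M}
  {K K' : Set (TM M)} {A L : Set E3}

theorem MS_ins_mem (h : MIns ψ (nl K : LM ι M) (nn A)) {x : TM M} (hx : x ∈ K)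
    (hq : x.proj ∈ ψ '' Qb (9 / 8)) : ∃ p ∈ A, p ∈ Qb (9 / 8) ∧ x = pushT ψ p ez := by
  obtain ⟨y, ⟨hy, hy'⟩, e⟩ := (Set.ext_iff.1 h (none, x)).1 ⟨⟨rfl, hx⟩, hq⟩
  exact ⟨y.2, hy.2, hy', (congrArg Prod.snd e).symm⟩

theorem MS_ins_push (h : MIns ψ (nl K : LM ι M) (nn A)) {p : E3} (hp : p ∈ A)
    (hq : p ∈ Qb (9 / 8)) : pushT ψ p ez ∈ K :=
  ((Set.ext_iff.1 h (none, pushT ψ p ez)).2 ⟨(none, p), ⟨⟨rfl, hp⟩, hq⟩, rfl⟩).1.2

theorem MS_ins_mk (h1 : ∀ x ∈ K, x.proj ∈ ψ '' Qb (9 / 8) →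
      ∃ p ∈ A, p ∈ Qb (9 / 8) ∧ x = pushT ψ p ez)
    (h2 : ∀ p ∈ A, p ∈ Qb (9 / 8) → pushT ψ p ez ∈ K) : MIns ψ (nl K : LM ι M) (nn A) := by
  ext ⟨l, x⟩
  constructor
  · rintro ⟨⟨hl, hx⟩, hq⟩
    obtain ⟨p, hp, hp', rfl⟩ := h1 x hx hq
    exact ⟨(none, p), ⟨⟨rfl, hp⟩, hp'⟩, Prod.ext hl.symm rfl⟩
  · rintro ⟨⟨l', p⟩, ⟨⟨hl, hp⟩, hp'⟩, e⟩
    rw [← e]
    exact ⟨⟨hl, h2 p hp hp'⟩, p, hp', rfl⟩

theorem MS_ins_base (h : MIns ψ (nl K : LM ι M) (nn A)) (hi : InjOn ψ (Qb (9 / 8))) {p : E3}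
    (hp : p ∈ Qb (9 / 8)) (hK : ψ p ∈ base K) : p ∈ A := by
  obtain ⟨x, hx, e⟩ := hK
  obtain ⟨q, hq, hq', rfl⟩ := MS_ins_mem h hx ⟨p, hp, e.symm⟩
  rwa [← hi hq' hp e]

/-- two sets agree outside the image of the cube -/
def MS_Out (ψ : E3 → M) (K' K : Set (TM M)) : Prop :=
  ∀ x : TM M, x.proj ∉ ψ '' Qb (9 / 8) → (x ∈ K' ↔ x ∈ K)

theorem MS_out_of (h : MOut ψ (nl K' : LM ι M) = MOut ψ (nl K)) : MS_Out ψ K' K := fun x hx =>
  ⟨fun hK => ((Set.ext_iff.1 h (none, x)).1 ⟨⟨rfl, hK⟩, hx⟩).1.2,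
    fun hK => ((Set.ext_iff.1 h (none, x)).2 ⟨⟨rfl, hK⟩, hx⟩).1.2⟩

theorem MS_Out.base (h : MS_Out ψ K' K) : base K' ⊆ ψ '' Qb (9 / 8) ∪ base K := by
  rintro _ ⟨x, hx, rfl⟩
  by_cases hq : x.proj ∈ ψ '' Qb (9 / 8)
  · exact Or.inl hq
  · exact Or.inr ⟨x, (h x hq).1 hx, rfl⟩

theorem MS_base_pic (ψ : E3 → M) (L : Set E3) : base (MS_pic ψ L) = ψ '' L := by
  rw [base, MS_pic, image_image]
  rfl

theorem MS_base_union (K K' : Set (TM M)) : base (K ∪ K') = base K ∪ base K' := image_union _ _ _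

theorem MS_add (h : MIns ψ (nl K : LM ι M) (nn A)) (hL : L ⊆ Qb (9 / 8)) :
    MIns ψ (nl (MS_pic ψ L ∪ K) : LM ι M) (nn (A ∪ L)) ∧ MS_Out ψ (MS_pic ψ L ∪ K) K := by
  refine ⟨MS_ins_mk ?_ ?_, fun x hx => ⟨?_, Or.inr⟩⟩
  · rintro x (⟨p, hp, rfl⟩ | hx) hq
    · exact ⟨p, Or.inr hp, hL hp, rfl⟩
    · obtain ⟨p, hp, h'⟩ := MS_ins_mem h hx hq
      exact ⟨p, Or.inl hp, h'⟩
  · rintro p (hp | hp) hq
    · exact Or.inr (MS_ins_push h hp hq)
    · exact Or.inl ⟨p, hp, rfl⟩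
  · rintro (⟨p, hp, rfl⟩ | hx')
    · exact absurd ⟨p, hL hp, rfl⟩ hx
    · exact hx'

variable {H : HD M ι Vx} {ε R : ℝ} {v : Vx}

theorem MS_ins_tot {P : Pic ι} (h : MIns ψ (nl K : LM ι M) P)
    (hd : Disjoint (ψ '' Qb (9 / 8)) (lbase (H.Y ε))) : MIns ψ (H.tot K ε) P := by
  rw [MIns, ← h]
  ext x
  constructor
  · rintro ⟨hx | hx, hq⟩
    · exact ⟨hx, hq⟩
    · exact absurd ⟨x, hx, rfl⟩ (disjoint_left.1 hd hq)
  · rintro ⟨hx, hq⟩
    exact ⟨Or.inl hx, hq⟩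

theorem MS_out_tot (h : MS_Out ψ K' K) : MOut ψ (H.tot K' ε) = MOut ψ (H.tot K ε) := by
  ext x
  constructor
  · rintro ⟨⟨h1, h2⟩ | hx, hq⟩
    · exact ⟨Or.inl ⟨h1, (h _ hq).1 h2⟩, hq⟩
    · exact ⟨Or.inr hx, hq⟩
  · rintro ⟨⟨h1, h2⟩ | hx, hq⟩
    · exact ⟨Or.inl ⟨h1, (h _ hq).2 h2⟩, hq⟩
    · exact ⟨Or.inr hx, hq⟩

theorem MS_lbase_tot : lbase (H.tot K ε) ⊆ base K ∪ lbase (H.Y ε) := by
  rintro _ ⟨x, hx | hx, rfl⟩
  · exact Or.inl ⟨x.2, hx.2, rfl⟩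
  · exact Or.inr ⟨x, hx, rfl⟩

theorem MS_Qb_mono {r r' : ℝ} (h : r ≤ r') : Qb r ⊆ Qb r' := fun _ hp i => (hp i).trans_le h

theorem MS_cv_target (H : HD M ι Vx) (v : Vx) (p : E3) : H.cv v p ∈ (H.cv v).target :=
  (H.cv v).map_source (H.cv_source v ▸ mem_univ p)

theorem MS_cv_ne (H : HD M ι Vx) {v v' : Vx} (h : v' ≠ v) (p q : E3) : H.cv v' p ≠ H.cv v q :=
  fun e => disjoint_left.1 (H.cv_disj h) (MS_cv_target H v' p) (e ▸ MS_cv_target H v q)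

theorem MS_opp_ok [T2Space M] [Fintype ι] [Fintype Vx] {D : Sec} (h : H.SecOK v D) :
    ∃ κ > 0, H.SecOK v (D.opp κ) := by
  have hc : Continuous (H.cv v) := continuous_iff_continuousAt.2 fun p =>
    (MS_smooth (MS_cv H v) p).continuousAt
  obtain ⟨δ, hδ, hb⟩ := Metric.isOpen_iff.1 (H.isCompact_gs.isClosed.isOpen_compl.preimage hc)
    (-D.b) h.free'
  have hu : 0 < ‖D.u‖ := norm_pos_iff.2 h.u_ne
  obtain ⟨κ, hκ, hκ'⟩ : ∃ κ > 0, 4 * (κ * ‖D.u‖) < δ :=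
    ⟨δ / (8 * ‖D.u‖), by positivity, by field_simp; norm_num⟩
  refine ⟨κ, hκ, h.ρ_pos, h.η_pos, ?_, ?_, ?_, ?_, ?_, ?_, ⟨List.Pairwise.nil, by simp [Sec.opp]⟩,
    fun x z hx hz => hb ?_, ?_⟩
  · simp [Sec.opp, h.norm_b]
  · simp [Sec.opp, norm_smul, h.norm_uw]
  · simp [Sec.opp, real_inner_smul_right, h.bu]
  · simp [Sec.opp, real_inner_smul_right, h.bw]
  · simp [Sec.opp, real_inner_smul_right, real_inner_smul_left, h.uw]
  · refine (mul_pos (pow_pos hκ 2) h.det).trans_eq ?_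
    simp [Sec.opp, Matrix.det_fin_three]
    ring
  · rw [mem_ball_iff_norm]
    have h1 : (D.opp κ).b + x • (D.opp κ).u + z • (D.opp κ).w - -D.b =
        (x * κ) • D.u + (-(z * κ)) • D.w := by
      simp only [Sec.opp]
      module
    rw [h1]
    refine (norm_add_le _ _).trans_lt ?_
    rw [norm_smul, norm_smul, ← h.norm_uw, norm_neg, Real.norm_eq_abs, Real.norm_eq_abs, abs_mul,
      abs_mul, abs_of_pos hκ]
    have := mul_pos hκ hu
    nlinarith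
  · simpa [Sec.opp] using h.free 0 0 (by norm_num) (by norm_num)

theorem MS_opp_ne {D : Sec} {κ : ℝ} (h : H.SecOK v D) (h' : H.SecOK v (D.opp κ)) (p q : E3) :
    (D.opp κ).map p ≠ D.map q := by
  intro e
  have h1 := MS_map_pos h' p
  have h2 := MS_map_pos h q
  rw [MS_map_eq, MS_map_eq] at e
  generalize (D.opp κ).ρ * exp ((D.opp κ).η * p 1) /
    ‖(D.opp κ).b + p 0 • (D.opp κ).u + p 2 • (D.opp κ).w‖ = m at e h1
  have h3 : m • (D.opp κ).b + (m * p 0) • (D.opp κ).u + (m * p 2) • (D.opp κ).w =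
      (-m) • D.b + (m * p 0 * κ) • D.u + (-(m * p 2 * κ)) • D.w := by
    simp only [Sec.opp]
    module
  rw [h3] at e
  linarith [(MS_coef h e).1]

/-- the thinner sector below the first generator -/
noncomputable def Sec.mid (D : Sec) (i : ℕ) : Sec :=
  ⟨D.b, D.u, D.w, D.ρ * exp (D.η * (-3 / 8)), D.η / 16, D.xs.take i ++ D.xs.drop (i + 2)⟩

noncomputable def MS_aff (p : E3) : E3 := !₂[p 0, -3 / 8 + p 1 / 16, p 2]

theorem MS_mid_map (D : Sec) (i : ℕ) (p : E3) : (D.mid i).map p = D.map (MS_aff p) := by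
  have : D.ρ * exp (D.η * (-3 / 8)) * exp (D.η / 16 * p 1) =
      D.ρ * exp (D.η * (-3 / 8 + p 1 / 16)) := by
    rw [mul_assoc, ← exp_add]
    congr 2
    ring
  simp only [Sec.map, Sec.mid, this]
  rfl

theorem MS_aff_deriv (p : E3) : DifferentiableAt ℝ MS_aff p ∧ fderiv ℝ MS_aff p ez = ez := by
  let L : E3 →L[ℝ] E3 :=
    LinearMap.toContinuousLinearMap (Matrix.toLpLin 2 2 !![1, 0, 0; 0, 1 / 16, 0; 0, 0, 1])
  have h1 : MS_aff = fun q => L q + !₂[0, -3 / 8, 0] := by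
    funext q
    ext i
    fin_cases i <;> simp [L, MS_aff, Matrix.toLpLin_apply, dotProduct, Fin.sum_univ_three]
    ring
  have h2 : HasFDerivAt MS_aff L p := h1 ▸ L.hasFDerivAt.add_const _
  refine ⟨h2.differentiableAt, ?_⟩
  rw [h2.fderiv]
  ext i
  fin_cases i <;> simp [L, ez, Matrix.toLpLin_apply]

theorem MS_aff_mem {p : E3} (hp : p ∈ Qb (9 / 8)) :
    MS_aff p ∈ Qb (9 / 8) ∧ |MS_aff p 1 + 3 / 8| < 3 / 32 := by
  have h1 := abs_lt.1 (hp 1)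
  refine ⟨fun i => ?_, ?_⟩
  · fin_cases i
    · exact hp 0
    · show |-3 / 8 + p 1 / 16| < 9 / 8
      rw [abs_lt]; constructor <;> linarith [h1.1, h1.2]
    · exact hp 2
  · show |-3 / 8 + p 1 / 16 + 3 / 8| < 3 / 32
    rw [abs_lt]; constructor <;> linarith [h1.1, h1.2]

theorem MS_mid_ok {D : Sec} (h : H.SecOK v D) (i : ℕ) : H.SecOK v (D.mid i) := by
  have hs : (D.xs.take i ++ D.xs.drop (i + 2)).Sublist D.xs := by
    conv_rhs => rw [← List.take_append_drop i D.xs]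
    exact List.Sublist.append_left (List.drop_sublist_drop_left _ (Nat.le_add_right i 2)) _
  exact ⟨mul_pos h.ρ_pos (exp_pos _), div_pos h.η_pos (by norm_num), h.norm_b, h.norm_uw, h.bu,
    h.bw, h.uw, h.det, ⟨h.pos.1.sublist hs, fun x hx => h.pos.2 x (hs.subset hx)⟩, h.free, h.free'⟩

theorem MS_mid_push {D : Sec} (h : H.SecOK v D) (i : ℕ) (p : E3) :
    pushT (H.cv v ∘ (D.mid i).map) p ez = pushT (H.cv v ∘ D.map) (MS_aff p) ez := by
  have : H.cv v ∘ (D.mid i).map = (H.cv v ∘ D.map) ∘ MS_aff :=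
    funext fun q => congrArg (H.cv v) (MS_mid_map D i q)
  rw [this, pushT_comp ((MS_smooth h.mPosOn _).mdifferentiableAt (by simp)) (MS_aff_deriv p).1,
    (MS_aff_deriv p).2]

theorem MS_mid_shell {D : Sec} (h : H.SecOK v D) (i : ℕ) : (D.mid i).shell ⊆ D.shell := by
  rintro p ⟨h1, h2⟩
  have hρ := h.ρ_pos
  have hη := h.η_pos
  simp only [Sec.mid] at h1 h2
  rw [mul_assoc, ← exp_add] at h1 h2
  exact ⟨lt_trans (mul_lt_mul_of_pos_left (exp_lt_exp.2 (by linarith)) hρ) h1,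
    h2.trans (mul_lt_mul_of_pos_left (exp_lt_exp.2 (by linarith)) hρ)⟩

theorem MS_radial_mid [DecidableEq Vx] [T2Space M] [IsManifold (𝓡 3) ∞ M] {D : Vx → Sec}
    (hD : ∀ v, H.SecOK v (D v)) (hK : H.Radial D R ε K) {i : ℕ} {w : List ℕ}
    (hi : MIns (H.cv v ∘ (D v).map) (nl K' : LM ι M) (nn (stackSet (D v).xs (i :: w))))
    (ho : MS_Out (H.cv v ∘ (D v).map) K' K)
    (hc : Disjoint ((H.cv v ∘ (D v).map) '' Qb (9 / 8)) (H.cyl R ε)) :
    H.Radial (Function.update D v ((D v).mid i)) R ε K' := by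
  have hinj := (hD v).mPosOn.inj
  have hout : ∀ v' ≠ v, ∀ p, H.cv v' p ∉ (H.cv v ∘ (D v).map) '' Qb (9 / 8) := by
    rintro v' hv p ⟨q, -, e⟩
    exact MS_cv_ne H hv _ _ e.symm
  refine ⟨Disjoint.mono_left ho.base (disjoint_union_left.2 ⟨?_, hK.off⟩), fun v' => ?_,
    fun v' p hp hb => ?_, Disjoint.mono_left ho.base (disjoint_union_left.2 ⟨hc, hK.cyl⟩)⟩
  · rw [disjoint_left]
    rintro _ ⟨p, hp, rfl⟩
    exact (hD v).mapsTo (MS_Qb_mono (by norm_num) hp)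
  · by_cases hv : v' = v
    · subst hv
      rw [Function.update_self]
      refine MS_ins_mk ?_ fun p hp hq => ?_
      · rintro x hx ⟨p, hp, e⟩
        have e' : (H.cv v' ∘ (D v').map) (MS_aff p) = x.proj :=
          (congrArg (H.cv v') (MS_mid_map _ i p)).symm.trans e
        obtain ⟨q, hq, -, rfl⟩ := MS_ins_mem hi hx ⟨_, (MS_aff_mem hp).1, e'⟩
        obtain rfl : MS_aff p = q := hinj trivial trivial e'
        exact ⟨p, (mem_stackSet_mid _ i w (MS_aff_mem hp).2).1 hq, hp,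
          (MS_mid_push (hD v') i p).symm⟩
      · rw [MS_mid_push (hD v')]
        exact MS_ins_push hi ((mem_stackSet_mid _ i w (MS_aff_mem hq).2).2 hp) (MS_aff_mem hq).1
    · rw [Function.update_of_ne hv]
      refine MS_ins_mk ?_ fun p hp hq => ?_
      · rintro x hx ⟨p, hp, e⟩
        exact MS_ins_mem (hK.ins v') ((ho x (e ▸ hout v' hv _)).1 hx) ⟨p, hp, e⟩
      · exact (ho _ (hout v' hv _)).2 (MS_ins_push (hK.ins v') hp hq)
  · by_cases hv : v' = v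
    · subst hv
      rw [Function.update_self] at hp ⊢
      have key : p ∈ (D v').map '' Qb (9 / 8) → p ∈ ((D v').mid i).map '' Qb (9 / 8) := by
        rintro ⟨q, hq, rfl⟩
        have e : ((D v').mid i).map !₂[q 0, 16 * (q 1 + 3 / 8), q 2] = (D v').map q := by
          rw [MS_mid_map]
          congr 1
          ext j
          fin_cases j <;> simp [MS_aff]
          ring
        refine ⟨_, fun j => ?_, e⟩
        fin_cases j
        · exact hq 0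
        · exact (MS_mid_ok (hD v') i).map_mem_shell.1 (e ▸ hp)
        · exact hq 2
      rcases ho.base hb with ⟨q, hq, e⟩ | hb'
      · exact Or.inl (key ⟨q, hq, (MS_cv H v').inj trivial trivial e⟩)
      · exact (hK.shell v' p (MS_mid_shell (hD v') i hp) hb').imp_left key
    · rw [Function.update_of_ne hv] at hp ⊢
      exact hK.shell v' p hp ((ho.base hb).resolve_left (hout v' hv p))

end Pool.Agent.P.MP_ac4909_gt.B
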