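import Pool.Agent.P.MP_ac4909_gt.B.MVan
import Pool.Agent.P.MP_ac4909_gt.B.MArc
import Pool.Agent.P.MP_ac4909_gt.B.MSec
import Pool.Agent.P.MP_ac4909_gt.B.MSphere_B

/-! The sphere lemma: skeins that cross the spheres around the vertices radially. -/

namespace Pool.Agent.P.MP_ac4909_gt.B

open scoped Manifold ContDiff
open Set Filter Topology

variable {M : Type*} [TopologicalSpace M] [T2Space M] [CompactSpace M] [ChartedSpace E3 M]
  [IsManifold (𝓡 3) ∞ M] {ι Vx : Type} [Fintype ι] [DecidableEq ι] [Fintype Vx]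

theorem MS_cont_z : Continuous fun p : E3 => |p 2| := by fun_prop

theorem MS_box_compact (ε R : ℝ) : IsCompact {p : E3 | rad p ≤ ε ∧ |p 2| ≤ R} := by
  refine (isCompact_closure_Qb (|ε| + |R| + 1)).of_isClosed_subset
    ((isClosed_le continuous_rad continuous_const).inter
      (isClosed_le MS_cont_z continuous_const)) fun p hp => subset_closure fun i => ?_
  have h0 : |p 0| ≤ rad p := Real.abs_le_sqrt (by nlinarith [sq_nonneg (p 1)])
  have h1 : |p 1| ≤ rad p := Real.abs_le_sqrt (by nlinarith [sq_nonneg (p 0)])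
  have h2 := le_abs_self ε
  have h3 := le_abs_self R
  have h4 := abs_nonneg ε
  have h5 := abs_nonneg R
  fin_cases i
  · show |p 0| < _
    linarith [hp.1]
  · show |p 1| < _
    linarith [hp.1]
  · show |p 2| < _
    linarith [hp.2]

theorem MS_box_Dom {ε R : ℝ} (h : ε * R < 1) {p : E3} (h1 : rad p ≤ ε) (h2 : |p 2| ≤ R) :
    p ∈ Dom :=
  (mul_le_mul h1 h2 (abs_nonneg _) ((Real.sqrt_nonneg _).trans h1)).trans_lt h

omit [CompactSpace M] in
theorem MS_base_case (H : HD M ι Vx) {E : EvSys ι (ℕ × (ι → ℕ))} (hV : H.Van E)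
    (D : Vx → Sec) (hD : ∀ v, H.SecOK v (D v)) (h0 : ∀ v, (D v).xs = []) :
    ∀ᶠ R in atTop, ∀ᶠ ε in 𝓝[>] (0 : ℝ), ∀ K, IsLS K → H.Radial D R ε K →
      ∀ᶠ t in atTop, H.val E t (H.tot K ε) = 0 := by
  obtain ⟨C, hC, hfar⟩ := H.exists_far
  obtain ⟨ρ₀, hρ₀, hρ₀'⟩ : ∃ ρ₀ : ℝ, 0 < ρ₀ ∧ ∀ v, ρ₀ < (D v).ρ :=
    ((eventually_mem_nhdsWithin (a := (0 : ℝ)) (s := Ioi 0)).and (eventually_all.2 fun v =>
      (eventually_lt_nhds (hD v).ρ_pos).filter_mono nhdsWithin_le_nhds)).exists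
  obtain ⟨ρ₁, hρ₁⟩ := Finite.exists_le fun v => (D v).ρ
  filter_upwards [eventually_gt_atTop (C / ρ₀)] with R hR
  have hR0 : 0 < R := (div_pos hC hρ₀).trans hR
  have hCR : C < ρ₀ * R := by rwa [div_lt_iff₀' hρ₀] at hR
  filter_upwards [Ioo_mem_nhdsGT (inv_pos.2 hR0)] with ε hε K hK hr
  have hεR : ε * R < 1 := by
    have := mul_lt_mul_of_pos_right hε.2 hR0
    rwa [inv_mul_cancel₀ hR0.ne'] at this
  let B₀ : Set M := ⋃ v, H.cv v '' Metric.ball 0 (D v).ρ
  let O : Set M := B₀ ∪ ⋃ e, H.ce e '' {p | rad p < ε ∧ |p 2| < R}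
  let O' : Set M := (⋃ v, H.cv v '' Metric.closedBall 0 (D v).ρ) ∪
    ⋃ e, H.ce e '' {p | rad p ≤ ε ∧ |p 2| ≤ R}
  have hB : ∀ e, ∀ p ∈ Dom, R ≤ |p 2| → H.ce e p ∈ B₀ := fun e p hp h =>
    iUnion_mono (fun v => image_mono (Metric.ball_subset_ball (hρ₀' v).le))
      (hfar e p hp ρ₀ (abs_pos.1 (hR0.trans_le h))
        (hCR.trans_le (mul_le_mul_of_nonneg_left h hρ₀.le)))
  have hB' : B₀ ⊆ O' := fun x hx =>
    Or.inl (iUnion_mono (fun v => image_mono Metric.ball_subset_closedBall) hx)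
  have hOO' : O ⊆ O' := union_subset hB' fun x hx =>
    Or.inr (iUnion_mono (fun e => image_mono fun p hp => And.intro hp.1.le hp.2.le) hx)
  have hO : IsOpen O := by
    refine (isOpen_iUnion fun v => (H.cv v).isOpen_image_of_subset_source Metric.isOpen_ball
      (H.cv_source v ▸ subset_univ _)).union (isOpen_iUnion fun e =>
        (H.ce e).isOpen_image_of_subset_source ((isOpen_lt continuous_rad continuous_const).inter
          (isOpen_lt MS_cont_z continuous_const)) ?_)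
    rw [H.ce_source]
    exact fun p hp => MS_box_Dom hεR hp.1.le hp.2.le
  have hO' : IsClosed O' := by
    refine IsCompact.isClosed ((isCompact_iUnion fun v =>
      (isCompact_closedBall _ _).image_of_continuousOn ((H.cv v).continuousOn.mono
        (H.cv_source v ▸ subset_univ _))).union (isCompact_iUnion fun e =>
      (MS_box_compact ε R).image_of_continuousOn ((H.ce e).continuousOn.mono ?_)))
    rw [H.ce_source]
    exact fun p hp => MS_box_Dom hεR hp.1 hp.2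
  have htub : H.tubes R ε ⊆ O := by
    intro x hx
    obtain ⟨e, p, hp, rfl⟩ := mem_iUnion.1 hx
    rcases hp.2.eq_or_lt with h | h
    · exact Or.inl (hB e p (MS_box_Dom hεR hp.1.le hp.2) h.ge)
    · exact Or.inr (mem_iUnion.2 ⟨e, p, ⟨hp.1, h⟩, rfl⟩)
  have hcov : base K ⊆ O ∪ O'ᶜ := by
    intro x hx
    by_cases hx' : x ∈ O'
    swap
    · exact Or.inr hx'
    refine Or.inl ?_
    rcases hx' with hx' | hx'
    · obtain ⟨v, p, hp, rfl⟩ := mem_iUnion.1 hx'
      rcases (mem_closedBall_zero_iff.1 hp).eq_or_lt with h | h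
      · have hs : p ∈ (D v).shell := by
          have h2 := (hD v).η_pos
          refine ⟨?_, ?_⟩
          · rw [h]
            exact mul_lt_of_lt_one_right (hD v).ρ_pos (Real.exp_lt_one_iff.2 (by linarith))
          · rw [h]
            exact lt_mul_of_one_lt_right (hD v).ρ_pos (Real.one_lt_exp_iff.2 (by linarith))
        rcases hr.shell v p hs hx with ⟨q, hq, rfl⟩ | h'
        · have := MS_ins_base (hr.ins v) ((hD v).mPosOn.inj.mono (subset_univ _)) hq hx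
          rw [h0 v] at this
          exact absurd this.1 List.not_mem_nil
        · exact htub h'
      · exact Or.inl (mem_iUnion.2 ⟨v, p, mem_ball_zero_iff.2 h, rfl⟩)
    · obtain ⟨e, p, hp, rfl⟩ := mem_iUnion.1 hx'
      rcases hp.1.eq_or_lt with h | h
      · exact (disjoint_left.1 hr.cyl hx (mem_iUnion.2 ⟨e, p, ⟨h, hp.2⟩, rfl⟩)).elim
      · exact htub (mem_iUnion.2 ⟨e, p, ⟨h, hp.2⟩, rfl⟩)
  have hinv : ∀ t ≥ 0, MapsTo (H.Φ (-t)) O' O' := by
    rintro t ht x (hx | hx)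
    · obtain ⟨v, p, hp, rfl⟩ := mem_iUnion.1 hx
      refine Or.inl (mem_iUnion.2 ⟨v, _, ?_, (H.cv_flow v _ p).symm⟩)
      rw [mem_closedBall_zero_iff] at hp ⊢
      rw [norm_smul, Real.norm_eq_abs, abs_of_pos (Real.exp_pos _)]
      exact (mul_le_of_le_one_left (norm_nonneg _)
        (Real.exp_le_one_iff.2 (neg_nonpos.2 ht))).trans hp
    · obtain ⟨e, p, hp, rfl⟩ := mem_iUnion.1 hx
      have hp' := MS_box_Dom hεR hp.1 hp.2
      rw [H.ce_flow e _ p hp']
      rcases le_total |sad (-t) p 2| R with h | h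
      · refine Or.inr (mem_iUnion.2 ⟨e, _, ⟨?_, h⟩, rfl⟩)
        rw [rad_sad]
        exact (mul_le_of_le_one_left (Real.sqrt_nonneg _)
          (Real.exp_le_one_iff.2 (neg_nonpos.2 ht))).trans hp.1
      · exact hB' (hB e _ (sad_mem_Dom.2 hp') h)
  obtain ⟨hJ, hX⟩ := hK.split hO hO'.isOpen_compl (disjoint_compl_right.mono_left hOO') hcov
  have hJK : base {x ∈ K | x.proj ∈ O} ⊆ base K := image_mono (sep_subset _ _)
  have hXK : base {x ∈ K | x.proj ∈ O'ᶜ} ⊆ base K := image_mono (sep_subset _ _)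
  have hJO : base {x ∈ K | x.proj ∈ O} ⊆ O := by
    rintro _ ⟨x, hx, rfl⟩
    exact hx.2
  have hY := H.lbase_Y_subset hε.1.le hR0.le
  have hKe : {x ∈ K | x.proj ∈ O'ᶜ} ∪ {x ∈ K | x.proj ∈ O} = K := by
    ext x
    refine ⟨fun h => h.elim (fun h => h.1) fun h => h.1, fun hx => ?_⟩
    exact (hcov ⟨x, hx, rfl⟩).elim (fun h => Or.inr ⟨hx, h⟩) fun h => Or.inl ⟨hx, h⟩
  have hvan := hV ρ₁ R ε _ _ hε.1 hR0 hεR hJ (hr.off.mono_left hJK) (hJO.trans (union_subset
      (fun x hx => Or.inr (iUnion_mono (fun v => image_mono (Metric.ball_subset_ball (hρ₁ v))) hx))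
      fun x hx => Or.inl (iUnion_mono (fun e => image_mono fun p hp => And.intro hp.1 hp.2.le) hx)))
    (hr.cyl.mono_left hJK) hX (hr.off.mono_left hXK)
  filter_upwards [hvan] with t ht
  obtain ⟨s, hs, hs0⟩ := (ht.and (eventually_ge_atTop 0)).exists
  have hiso := H.isoM_back hX hJ hε.1 hinv (hJO.trans hOO') (hY.trans fun x hx =>
      Or.inr (iUnion_mono (fun e => image_mono fun p hp => And.intro hp.1.le hp.2) hx))
    (hr.cyl.mono hJK hY) (disjoint_left.2 (by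
      rintro _ ⟨x, hx, rfl⟩
      exact hx.2)) (hr.off.mono_left hXK) (hr.off.mono_left hJK) hs0
  rw [hKe] at hiso
  rw [← hs, HD.val, HD.val, H.zv_isoM hiso]

theorem MS_words (n : ℕ) :
    {w : List ℕ | w ≠ [] ∧ w.length ≤ 2 * n ∧ ∀ i ∈ w, i + 2 ≤ n}.Finite := by
  refine ((List.finite_length_le (Fin n) (2 * n)).image (List.map Fin.val)).subset ?_
  rintro w ⟨-, h1, h2⟩
  lift w to List (Fin n) using fun i hi => by have := h2 i hi; omega
  exact ⟨w, by simpa using h1, rfl⟩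

theorem MS_surg {xs : List ℝ} (hxs : PosOK xs) {w : List ℕ} (hw : ∀ i ∈ w, i + 2 ≤ xs.length)
    (p : E3) (hp : p ∉ Qb 1) : p ∈ stackSet xs w ↔ p ∈ vlines xs := by
  by_cases h1 : 3 / 4 ≤ |p 1|
  · exact mem_stackSet_of_le hw h1
  have key : ¬(|p 0| ≤ 1 / 4 ∧ p 2 = 0) := by
    rintro ⟨h0, h2⟩
    refine hp fun i => ?_
    fin_cases i
    · show |p 0| < 1
      linarith
    · show |p 1| < 1
      linarith [not_le.1 h1]
    · show |p 2| < 1
      rw [h2]
      norm_num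
  exact iff_of_false (fun h => key (mem_stackSet_bound hxs hw h))
    fun h => key ⟨hxs.2 _ h.1, h.2⟩

theorem MS_step [DecidableEq Vx] (H : HD M ι Vx) {E : EvSys ι (ℕ × (ι → ℕ))} (hE : AFacts E)
    (D : Vx → Sec) (hD : ∀ v, H.SecOK v (D v)) (v : Vx) (hn : (D v).xs.length ≠ 0)
    (IH : ∀ i ∈ {i | i + 2 ≤ (D v).xs.length}, ∀ᶠ R in atTop, ∀ᶠ ε in 𝓝[>] (0 : ℝ), ∀ K, IsLS K →
      H.Radial (Function.update D v ((D v).mid i)) R ε K →
      ∀ᶠ t in atTop, H.val E t (H.tot K ε) = 0) :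
    ∀ᶠ R in atTop, ∀ᶠ ε in 𝓝[>] (0 : ℝ), ∀ K, IsLS K → H.Radial D R ε K →
      ∀ᶠ t in atTop, H.val E t (H.tot K ε) = 0 := by
  have h := hD v
  obtain ⟨κ, hκ, h'⟩ := MS_opp_ok h
  have hrot : ∀ {D' : Sec}, H.SecOK v D' → MPosOn ((H.cv v ∘ D'.map) ∘ MS_rot) univ ∧
      MapsTo ((H.cv v ∘ D'.map) ∘ MS_rot) (Qb 2) H.gsᶜ := fun h =>
    ⟨h.mPosOn.comp isOpen_univ MS_rot_posOn isOpen_univ (mapsTo_univ _ _),
      h.mapsTo.comp fun p hp => MS_rot_mem hp⟩
  set ψ := H.cv v ∘ (D v).map with hψ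
  set ψ₁ := (H.cv v ∘ ((D v).opp κ).map) ∘ MS_rot with hψ₁
  have hthin : ∀ {φ : E3 → M}, MPosOn φ univ → MapsTo φ (Qb 2) H.gsᶜ → ∀ R, ∀ᶠ ε in 𝓝[>] (0 : ℝ),
      Disjoint (φ '' Qb (9 / 8)) (H.tubes R ε ∪ H.cyl R ε) := fun {φ} h1 h2 R =>
    ((H.eventually_thin ((isCompact_closure_Qb (9 / 8)).image_of_continuousOn
      (h1.smooth.continuousOn.mono (subset_univ _))) (disjoint_left.2 (by
        rintro _ ⟨p, hp, rfl⟩
        exact h2 (closure_Qb_subset (by norm_num) hp)))).2 R).mono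
      fun ε hε => hε.mono_left (image_mono subset_closure)
  have hoff : ∀ {φ : E3 → M} {L : Set E3}, MapsTo φ (Qb 2) H.gsᶜ → L ⊆ Qb (9 / 8) →
      Disjoint (base (MS_pic φ L)) H.gs := fun {φ L} h1 h2 => by
    rw [MS_base_pic, disjoint_left]
    rintro _ ⟨p, hp, rfl⟩
    exact h1 (MS_Qb_mono (by norm_num) (h2 hp))
  have henc : encLoop ⊆ Qb (9 / 8) := by
    rw [← MS_g_zero]
    rintro _ ⟨t, rfl⟩
    exact MS_Qb_mono (by norm_num) (MS_g_mem ⟨le_rfl, zero_le_one⟩ t)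
  have hunk : unknot ⊆ Qb (9 / 8) := by
    rintro _ ⟨t, rfl⟩ i
    have h1 := Real.abs_cos_le_one t
    have h2 := Real.abs_sin_le_one t
    fin_cases i
    · show |Real.cos t / 2| < 9 / 8
      rw [abs_div, abs_two]
      linarith
    · show |Real.sin t / 2| < 9 / 8
      rw [abs_div, abs_two]
      linarith
    · show |(0 : ℝ)| < 9 / 8
      norm_num
  let F : Set M := (H.cv v '' (D v).shell)ᶜ ∪ ψ '' (vlines (D v).xs ∩ closure (Qb (9 / 8)))
  have hF : IsClosed F := by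
    refine IsClosed.union (IsOpen.isClosed_compl ((H.cv v).isOpen_image_of_subset_source
      ((isOpen_lt continuous_const continuous_norm).inter
        (isOpen_lt continuous_norm continuous_const)) (H.cv_source v ▸ subset_univ _)))
      (((isCompact_closure_Qb _).inter_left ?_).image_of_continuousOn
        (h.mPosOn.smooth.continuousOn.mono (subset_univ _))).isClosed
    exact ((List.finite_toSet (D v).xs).isClosed.preimage
      (f := fun p : E3 => p 0) (by fun_prop)).inter (isClosed_eq (by fun_prop) continuous_const)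
  have hA : ∀ p ∈ (D v).shell, p ∉ (D v).map '' vlines (D v).xs → H.cv v p ∈ Fᶜ := by
    rintro p hp hp' (hx | ⟨q, hq, e⟩)
    · exact hx ⟨p, hp, rfl⟩
    · exact hp' ⟨q, hq.1, (MS_cv H v).inj trivial trivial e⟩
  have i₁ := MS_sweep₁ h hA
  have i₂ := MS_sweep₂ h hκ h' hA
  obtain ⟨ρ, c₁, c₂⟩ := ((H.cross hE hF i₁ (hoff h.mapsTo henc) (hoff (hrot h).2 hunk)).and
    (H.cross hE hF i₂ (hoff (hrot h).2 hunk) (hoff (hrot h').2 hunk))).exists
  have hI : {i | i + 2 ≤ (D v).xs.length}.Finite :=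
    (finite_le_nat (D v).xs.length).subset fun i hi => (Nat.le_add_right i 2).trans hi
  filter_upwards [c₁, c₂, (eventually_all_finite hI).2 IH, eventually_gt_atTop 0]
    with R c₁ c₂ IH hR
  filter_upwards [c₁, c₂, (eventually_all_finite hI).2 IH, Ioo_mem_nhdsGT (inv_pos.2 hR),
    hthin h.mPosOn h.mapsTo R, hthin (hrot h').1 (hrot h').2 R] with ε c₁ c₂ IH hε t₀ t₁ K hK hr
  have hεR : ε * R < 1 := by
    have := mul_lt_mul_of_pos_right hε.2 hR
    rwa [inv_mul_cancel₀ hR.ne'] at this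
  have hY := H.lbase_Y_subset hε.1.le hR.le
  have hYg : Disjoint (lbase (H.Y ε)) H.gs := (H.disjoint_cyl_gs hε.1 hεR).mono_left hY
  have hinj : InjOn ψ (Qb (9 / 8)) := h.mPosOn.inj.mono (subset_univ _)
  have hKF : base K ⊆ F ∪ (H.tubes R ε ∪ H.balls ρ) := by
    intro x hx
    by_cases hx' : x ∈ H.cv v '' (D v).shell
    · obtain ⟨p, hp, rfl⟩ := hx'
      rcases hr.shell v p hp hx with ⟨q, hq, rfl⟩ | h1
      · exact Or.inl (Or.inr ⟨q, ⟨MS_ins_base (hr.ins v) hinj hq hx, subset_closure hq⟩, rfl⟩)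
      · exact Or.inr (Or.inl h1)
    · exact Or.inl (Or.inl hx')
  have e₁ := c₁ K hK hr.off hKF hr.cyl
  have e₂ := c₂ K hK hr.off hKF hr.cyl
  have hlm : ∀ {φ : E3 → M} {K' : Set (TM M)}, IsLS K' → MS_Out φ K' K →
      Disjoint (φ '' Qb (9 / 8)) (H.tubes R ε ∪ H.cyl R ε) → IsLM (H.tot K' ε) :=
    fun h1 h2 h3 => (H.isPM_tot h1 hε.1 (Disjoint.mono h2.base hY (disjoint_union_left.2
      ⟨h3.mono_right subset_union_right, hr.cyl⟩))).isLM
  have hS : IsLM (H.tot K ε) := (H.isPM_tot hK hε.1 (hr.cyl.mono_right hY)).isLM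
  have hY₀ : Disjoint (ψ '' Qb (9 / 8)) (lbase (H.Y ε)) :=
    t₀.mono_right (hY.trans subset_union_right)
  have hY₁ : Disjoint (ψ₁ '' Qb (9 / 8)) (lbase (H.Y ε)) :=
    t₁.mono_right (hY.trans subset_union_right)
  obtain ⟨a₀, b₀⟩ := MS_add (hr.ins v) henc
  have hZ₀ : IsLS (MS_pic ψ encLoop ∪ K) := by
    refine i₁.isLS.1.union hK ?_
    rw [MS_base_pic, disjoint_left]
    rintro _ ⟨p, hp, rfl⟩ hx
    have h1 := MS_ins_base (hr.ins v) hinj (henc hp) hx
    rw [← MS_g_zero] at hp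
    obtain ⟨t, rfl⟩ := hp
    exact MS_g_off ⟨le_rfl, zero_le_one⟩ t h.pos h1
  have hK₁ : Disjoint (ψ₁ '' Qb (9 / 8)) (base K) := by
    rw [disjoint_left]
    rintro _ ⟨p, hp, rfl⟩ hx
    rcases hr.shell v _ (h'.map_mem_shell.2 (MS_rot_mem hp 1)) hx with ⟨q, -, e⟩ | h1
    · exact MS_opp_ne h h' _ _ e.symm
    · exact disjoint_left.1 t₁ ⟨p, hp, rfl⟩ (Or.inl h1)
  have hemp : MIns ψ₁ (nl K : LM ι M) (nn ∅) :=
    MS_ins_mk (fun x hx hq => absurd ⟨x, hx, rfl⟩ (disjoint_left.1 hK₁ hq)) fun p hp => hp.elim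
  obtain ⟨a₁, b₁⟩ := MS_add hemp hunk
  rw [empty_union] at a₁
  rw [nn, prod_empty] at hemp
  have hZ₁ : IsLS (MS_pic ψ₁ unknot ∪ K) :=
    i₂.isLS.2.1.union hK (by rw [MS_base_pic]; exact hK₁.mono_left (image_mono hunk))
  have hloop := H.m_loop hE ((hrot h').1.mono (subset_univ _))
    ((hrot h').2.mono_left (MS_Qb_mono (by norm_num))) (hlm hZ₁ b₁ t₁) hS
    (Disjoint.mono_left MS_lbase_tot (disjoint_union_left.2 ⟨by
      rw [MS_base_union]
      exact disjoint_union_left.2 ⟨hoff (hrot h').2 hunk, hr.off⟩, hYg⟩))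
    (MS_ins_tot a₁ hY₁) (MS_ins_tot hemp hY₁) (MS_out_tot b₁).symm
  have hw : ∀ w ∈ {w : List ℕ | w ≠ [] ∧ w.length ≤ 2 * (D v).xs.length ∧
      ∀ i ∈ w, i + 2 ≤ (D v).xs.length}, ∀ᶠ t in atTop, ∃ Sw, IsLM Sw ∧
      MOut ψ Sw = MOut ψ (H.tot K ε) ∧ MIns ψ Sw (nn (stackSet (D v).xs w)) ∧
      H.val E t Sw = 0 := by
    rintro w ⟨h1, -, h2⟩
    obtain ⟨K', k₁, k₂, k₃⟩ := exists_surgery ι hK (h.mPosOn.mono (subset_univ _)) (hr.ins v)
      (picArc_stackSet h.pos h2) fun p _ hp => MS_surg h.pos h2 p hp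
    obtain ⟨i, w, rfl⟩ := List.exists_cons_of_ne_nil h1
    have k₄ := MS_out_of k₃
    filter_upwards [IH i (h2 i List.mem_cons_self) K' k₁
      (MS_radial_mid hD hr k₂ k₄ (t₀.mono_right subset_union_right))] with t ht
    exact ⟨_, hlm k₁ k₄ t₀, MS_out_tot k₄, MS_ins_tot k₂ hY₀, ht⟩
  filter_upwards [(eventually_all_finite (MS_words _)).2 hw, mu_ne_dlt hn] with t ht hne
  have henc' := H.m_enc hE (h.mPosOn.mono (subset_univ _))
    (h.mapsTo.mono_left (MS_Qb_mono (by norm_num))) hS (hlm hZ₀ b₀ t₀)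
    (Disjoint.mono_left MS_lbase_tot (disjoint_union_left.2 ⟨hr.off, hYg⟩)) h.pos
    (MS_ins_tot (hr.ins v) hY₀) (MS_ins_tot a₀ hY₀) (MS_out_tot b₀) t
    fun w h1 h2 h3 => ht w ⟨h1, h2, h3⟩
  rw [e₁ t, e₂ t, hloop t] at henc'
  exact (mul_eq_mul_right_iff.1 henc').resolve_left hne.symm

theorem HD.sphere (H : HD M ι Vx) {E : EvSys ι (ℕ × (ι → ℕ))} (hE : AFacts E) (hV : H.Van E)
    (D : Vx → Sec) (hD : ∀ v, H.SecOK v (D v)) :
    ∀ᶠ R in atTop, ∀ᶠ ε in 𝓝[>] (0 : ℝ), ∀ K, IsLS K → H.Radial D R ε K →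
      ∀ᶠ t in atTop, H.val E t (H.tot K ε) = 0 := by
  classical
  induction hN : ∑ v, (D v).xs.length using Nat.strong_induction_on generalizing D with
  | _ N ih =>
    by_cases h0 : ∀ v, (D v).xs = []
    · exact MS_base_case H hV D hD h0
    obtain ⟨v, hv⟩ := not_forall.1 h0
    refine MS_step H hE D hD v (fun h => hv (List.length_eq_zero_iff.1 h)) fun i hi => ?_
    refine ih _ ?_ _ (fun v' => ?_) rfl
    · rw [← hN]
      have hlt : ((D v).mid i).xs.length < (D v).xs.length := by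
        have hi' : i + 2 ≤ (D v).xs.length := hi
        simp only [Sec.mid, List.length_append, List.length_take, List.length_drop]
        omega
      refine Finset.sum_lt_sum (fun v' _ => ?_) ⟨v, Finset.mem_univ v, ?_⟩
      · by_cases h : v' = v
        · subst h
          rw [Function.update_self]
          exact hlt.le
        · rw [Function.update_of_ne h]
      · rwa [Function.update_self]
    · by_cases h : v' = v
      · subst h
        rw [Function.update_self]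
        exact MS_mid_ok (hD v') i
      · rw [Function.update_of_ne h]
        exact hD v'

end Pool.Agent.P.MP_ac4909_gt.B
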