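import Pool.Agent.P.MP_ac4909_gt.B.MSec

/-! The sphere lemma, part A: the loop around the strands and its sweep over the sphere. -/

namespace Pool.Agent.P.MP_ac4909_gt.B

open scoped Manifold ContDiff
open Set Filter Topology Real

theorem MS_circ {s t : ℝ} (hc : cos (2 * π * s) = cos (2 * π * t))
    (hs : sin (2 * π * s) = sin (2 * π * t)) : ∃ k : ℤ, t = s + k := by
  obtain ⟨k, hk⟩ := Real.Angle.angle_eq_iff_two_pi_dvd_sub.1 (Real.Angle.cos_sin_inj hc hs)
  refine ⟨-k, ?_⟩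
  have h2 : (2 * π) * (s - t - k) = 0 := by linarith
  have h3 := (mul_eq_zero.1 h2).resolve_left (by positivity)
  push_cast
  linarith

theorem MS_cos_per (t : ℝ) : cos (2 * π * (t + 1)) = cos (2 * π * t) := by
  rw [mul_add, mul_one, cos_add_two_pi]

theorem MS_sin_per (t : ℝ) : sin (2 * π * (t + 1)) = sin (2 * π * t) := by
  rw [mul_add, mul_one, sin_add_two_pi]

theorem MS_dcos (t : ℝ) :
    HasDerivAt (fun u => cos (2 * π * u)) (-sin (2 * π * t) * (2 * π)) t := by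
  simpa using ((hasDerivAt_id t).const_mul (2 * π)).cos

theorem MS_dsin (t : ℝ) :
    HasDerivAt (fun u => sin (2 * π * u)) (cos (2 * π * t) * (2 * π)) t := by
  simpa using ((hasDerivAt_id t).const_mul (2 * π)).sin

theorem MS_range (f : ℝ → ℝ → E3) :
    (range fun t : ℝ => f (cos (2 * π * t)) (sin (2 * π * t))) =
      range fun t : ℝ => f (cos t) (sin t) := by
  ext p
  constructor
  · rintro ⟨t, rfl⟩
    exact ⟨_, rfl⟩
  · rintro ⟨t, rfl⟩
    refine ⟨t / (2 * π), ?_⟩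
    have : 2 * π * (t / (2 * π)) = t := by field_simp
    simp only [this]

theorem MS_deriv_apply {γ : ℝ → E3} {t : ℝ} (h : DifferentiableAt ℝ γ t) (i : Fin 3) {d : ℝ}
    (hd : HasDerivAt (fun u => γ u i) d t) : deriv γ t i = d :=
  ((EuclideanSpace.proj i : E3 →L[ℝ] ℝ).hasFDerivAt.comp_hasDerivAt t h.hasDerivAt).unique hd

theorem MS_lk {γ ν : ℝ → E3} (hγ : ContDiff ℝ ∞ γ) (hν : ContDiff ℝ ∞ ν)
    (hp : ∀ t, γ (t + 1) = γ t) (hp' : ∀ t, ν (t + 1) = ν t)
    (hi : ∀ s t, γ s = γ t → ∃ k : ℤ, t = s + k)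
    (hind : ∀ t, LinearIndependent ℝ ![deriv γ t, ν t]) :
    (⟨fun _ => γ, fun _ => ν⟩ : Lk Unit).IsLink :=
  ⟨⟨fun _ => hγ, fun _ => hp, fun _ _ s t h => ⟨rfl, hi s t h⟩, fun _ t => (hind t).ne_zero 0⟩,
    fun _ => hν, fun _ => hp', fun _ => hind⟩

variable {M : Type*} [TopologicalSpace M] [ChartedSpace E3 M] [IsManifold (𝓡 3) ∞ M]

omit [IsManifold (𝓡 3) ∞ M] in
theorem MS_smooth {ψ : E3 → M} (hψ : MPosOn ψ univ) (p : E3) : ContMDiffAt (𝓡 3) (𝓡 3) ∞ ψ p :=
  hψ.smooth.contMDiffAt univ_mem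

theorem MS_iso {ψ : E3 → M} (hψ : MPosOn ψ univ) {g n : ℝ × ℝ → E3} (hg : ContDiff ℝ ∞ g)
    (hn : ContDiff ℝ ∞ n) {A : Set M}
    (hL : ∀ s ∈ Icc (0 : ℝ) 1,
      (⟨fun _ t => g (s, t), fun _ t => n (s, t)⟩ : Lk Unit).IsLink)
    (hA : ∀ s ∈ Icc (0 : ℝ) 1, ∀ t, ψ (g (s, t)) ∈ A) :
    IsoIn A (range fun t => pushT ψ (g (0, t)) (n (0, t)))
      (range fun t => pushT ψ (g (1, t)) (n (1, t))) := by
  refine ⟨Unit, inferInstance, fun s _ t => pushT ψ (g (s, t)) (n (s, t)),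
    ⟨fun _ p => contMDiffAt_pushT (MS_smooth hψ _) hg.contDiffAt hn.contDiffAt,
      fun s hs => (hL s hs).push (fun p _ => MS_smooth hψ p) (hψ.inj.mono (subset_univ _))
        fun p _ => (hψ.pos p trivial).ne', fun s hs _ t => hA s hs t⟩, ?_, ?_⟩
  · rw [trace, iUnion_const]
  · rw [trace, iUnion_const]

/-- the quarter turn about the first axis -/
noncomputable def MS_rot : E3 →L[ℝ] E3 :=
  LinearMap.toContinuousLinearMap (Matrix.toLpLin 2 2 !![1, 0, 0; 0, 0, 1; 0, -1, 0])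

theorem MS_rot_apply (p : E3) : MS_rot p = !₂[p 0, p 2, -p 1] := by
  ext i
  fin_cases i <;> simp [MS_rot, Matrix.toLpLin_apply, dotProduct, Fin.sum_univ_three]

theorem MS_rot_posOn : PosOn MS_rot univ := by
  refine ⟨MS_rot.contDiff.contDiffOn, fun p _ q _ h => ?_, fun p _ => ?_⟩
  · rw [MS_rot_apply, MS_rot_apply] at h
    have h0 := congrArg (fun x : E3 => x 0) h
    have h1 := congrArg (fun x : E3 => x 1) h
    have h2 := congrArg (fun x : E3 => x 2) h
    ext i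
    fin_cases i
    · simpa using h0
    · simpa using h2
    · simpa using h1
  · rw [ContinuousLinearMap.fderiv, ContinuousLinearMap.det, MS_rot,
      LinearMap.coe_toContinuousLinearMap, Matrix.toLpLin_eq_toLin, LinearMap.det_toLin]
    simp [Matrix.det_fin_three]

theorem MS_rot_mem {r : ℝ} {p : E3} (h : p ∈ Qb r) : MS_rot p ∈ Qb r := by
  intro i
  rw [MS_rot_apply]
  fin_cases i
  · simpa using h 0
  · simpa using h 2
  · simpa using h 1

/-- first stage: the loop becomes a circle around the direction of the strands -/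
noncomputable def MS_g (p : ℝ × ℝ) : E3 :=
  !₂[cos (2 * π * p.2) / 2, (1 - p.1) * st (sin (2 * π * p.2)) / 2,
    -((1 - p.1) * st (sin (2 * π * p.2)) + p.1 * sin (2 * π * p.2)) / 2]

noncomputable def MS_n (p : ℝ × ℝ) : E3 := !₂[0, p.1, 1 - p.1]

theorem MS_g_smooth : ContDiff ℝ ∞ MS_g := by
  have h := st_contDiff
  refine contDiff_euclidean.2 fun i => ?_
  fin_cases i <;> simp [MS_g] <;> fun_prop

theorem MS_n_smooth : ContDiff ℝ ∞ MS_n := by
  refine contDiff_euclidean.2 fun i => ?_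
  fin_cases i <;> simp [MS_n] <;> fun_prop

theorem MS_st_zero : st 0 = 0 := by
  have := st_neg 0
  rw [neg_zero] at this
  linarith

theorem MS_st_pos {x : ℝ} (h : 0 < x) : 0 < st x := by
  have h1 : st 0 < st (min x (1 / 2)) :=
    st_strictMonoOn ⟨by norm_num, by norm_num⟩
      ⟨by have := lt_min h (by norm_num : (0 : ℝ) < 1 / 2); linarith, min_le_right _ _⟩
      (lt_min h (by norm_num))
  rw [MS_st_zero] at h1
  exact h1.trans_le (st_monotone (min_le_left _ _))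

theorem MS_mix {s x : ℝ} (hs : s ∈ Icc (0 : ℝ) 1) (h : (1 - s) * st x + s * x = 0) : x = 0 := by
  have key : ∀ y : ℝ, 0 < y → 0 < (1 - s) * st y + s * y := fun y hy => by
    have h1 := MS_st_pos hy
    rcases hs.1.eq_or_lt with h0 | h0
    · rw [← h0]; linarith
    · have := mul_nonneg (sub_nonneg.2 hs.2) h1.le
      have := mul_pos h0 hy
      linarith
  rcases lt_trichotomy x 0 with hx | hx | hx
  · have := key (-x) (neg_pos.2 hx)
    rw [st_neg] at this
    linarith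
  · exact hx
  · linarith [key x hx]

theorem MS_g_link {s : ℝ} (hs : s ∈ Icc (0 : ℝ) 1) :
    (⟨fun _ t => MS_g (s, t), fun _ t => MS_n (s, t)⟩ : Lk Unit).IsLink := by
  have hg : ContDiff ℝ ∞ fun t => MS_g (s, t) := MS_g_smooth.comp (by fun_prop)
  refine MS_lk hg (MS_n_smooth.comp (by fun_prop)) (fun t => ?_) (fun t => rfl) (fun a b h => ?_)
    fun t => ?_
  · simp only [MS_g, MS_cos_per, MS_sin_per]
  · have h0 : cos (2 * π * a) = cos (2 * π * b) := by
      have := congrArg (fun x : E3 => x 0) h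
      simp only [MS_g] at this
      simpa using this
    have h2 : (1 - s) * st (sin (2 * π * a)) + s * sin (2 * π * a) =
        (1 - s) * st (sin (2 * π * b)) + s * sin (2 * π * b) := by
      have := congrArg (fun x : E3 => x 2) h
      simp [MS_g] at this
      linarith
    refine MS_circ h0 ?_
    have h3 : sin (2 * π * a) ^ 2 = sin (2 * π * b) ^ 2 := by rw [sin_sq, sin_sq, h0]
    rcases sq_eq_sq_iff_eq_or_eq_neg.1 h3 with h4 | h4
    · exact h4
    · rw [h4, st_neg] at h2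
      have h5 := MS_mix hs (x := sin (2 * π * b)) (by linarith)
      rw [h4, h5, neg_zero]
  · have hd := hg.differentiable (by simp) t
    have hst : HasDerivAt (fun u => st (sin (2 * π * u)))
        (deriv st (sin (2 * π * t)) * (cos (2 * π * t) * (2 * π))) t :=
      ((st_contDiff.differentiable (by simp) _).hasDerivAt).comp t (MS_dsin t)
    have d0 := MS_deriv_apply hd 0 (by simpa [MS_g] using (MS_dcos t).div_const 2)
    have d1 := MS_deriv_apply hd 1 (by simpa [MS_g] using (hst.const_mul (1 - s)).div_const 2)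
    have d2 := MS_deriv_apply hd 2 (d := -((1 - s) * (deriv st (sin (2 * π * t)) *
        (cos (2 * π * t) * (2 * π))) + s * (cos (2 * π * t) * (2 * π))) / 2)
      (((hst.const_mul (1 - s)).add ((MS_dsin t).const_mul s)).neg.div_const 2)
    rw [LinearIndependent.pair_iff]
    intro α β h
    have h0 := congrArg (fun x : E3 => x 0) h
    have h1 := congrArg (fun x : E3 => x 1) h
    have h2 := congrArg (fun x : E3 => x 2) h
    simp only [PiLp.add_apply, PiLp.smul_apply, smul_eq_mul, d0, d1, d2, PiLp.zero_apply] at h0 h1 h2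
    have n0 : MS_n (s, t) 0 = 0 := rfl
    have n1 : MS_n (s, t) 1 = s := rfl
    have n2 : MS_n (s, t) 2 = 1 - s := rfl
    rw [n0] at h0
    rw [n1] at h1
    rw [n2] at h2
    have hα : α = 0 := by
      by_contra hα
      have hs0 : sin (2 * π * t) = 0 := by
        have h3 : α * π * sin (2 * π * t) = 0 := by linarith
        exact (mul_eq_zero.1 h3).resolve_left (mul_ne_zero hα pi_ne_zero)
      have hc : cos (2 * π * t) ≠ 0 := fun hc => by
        have := sin_sq_add_cos_sq (2 * π * t)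
        rw [hs0, hc] at this
        norm_num at this
      rw [hs0] at h1 h2
      have hp : 0 < deriv st 0 := deriv_st_pos (by norm_num)
      have h3 : α * π * cos (2 * π * t) * ((1 - s) * deriv st 0 + s ^ 2) = 0 := by
        linear_combination (1 - s) * h1 - s * h2
      have h4 := (mul_eq_zero.1 h3).resolve_left (mul_ne_zero (mul_ne_zero hα pi_ne_zero) hc)
      rcases hs.2.eq_or_lt with h5 | h5
      · rw [h5] at h4
        norm_num at h4
      · have := mul_pos (sub_pos.2 h5) hp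
        nlinarith [sq_nonneg s]
    rw [hα] at h1 h2
    exact ⟨hα, by linarith⟩

theorem MS_g_zero : (range fun t => MS_g (0, t)) = encLoop := by
  rw [encLoop, ← MS_range fun c s => !₂[c / 2, st s / 2, -st s / 2]]
  simp [MS_g]

theorem MS_g_one (t : ℝ) : MS_g (1, t) = MS_rot !₂[cos (2 * π * t) / 2, sin (2 * π * t) / 2, 0] := by
  rw [MS_rot_apply]
  simp [MS_g, neg_div]

theorem MS_g_mem {s : ℝ} (hs : s ∈ Icc (0 : ℝ) 1) (t : ℝ) : MS_g (s, t) ∈ Qb 1 := by
  have h1 := abs_le.1 (abs_st_le (sin (2 * π * t)))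
  have h2 := abs_le.1 (abs_sin_le_one (2 * π * t))
  have h3 := abs_le.1 (abs_cos_le_one (2 * π * t))
  have h4 := sub_nonneg.2 hs.2
  have h5 := hs.1
  intro i
  fin_cases i
  · show |cos (2 * π * t) / 2| < 1
    rw [abs_lt]; constructor <;> linarith [h3.1, h3.2]
  · show |(1 - s) * st (sin (2 * π * t)) / 2| < 1
    rw [abs_lt]; constructor <;> nlinarith [h1.1, h1.2]
  · show |-((1 - s) * st (sin (2 * π * t)) + s * sin (2 * π * t)) / 2| < 1
    rw [abs_lt]; constructor <;> nlinarith [h1.1, h1.2, h2.1, h2.2]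

theorem MS_g_off {s : ℝ} (hs : s ∈ Icc (0 : ℝ) 1) (t : ℝ) {xs : List ℝ} (hxs : PosOK xs) :
    MS_g (s, t) ∉ vlines xs := by
  rintro ⟨h0, h2⟩
  have h3 : -((1 - s) * st (sin (2 * π * t)) + s * sin (2 * π * t)) / 2 = 0 := h2
  have h4 := MS_mix hs (x := sin (2 * π * t)) (by linarith)
  have h5 : |cos (2 * π * t) / 2| ≤ 1 / 4 := hxs.2 _ h0
  have h6 := sin_sq_add_cos_sq (2 * π * t)
  rw [h4] at h6
  have h7 := abs_le.1 h5
  nlinarith [h7.1, h7.2]

/-- a picture with the vertical framing -/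
def MS_pic (ψ : E3 → M) (L : Set E3) : Set (TM M) := (fun p => pushT ψ p ez) '' L

omit [IsManifold (𝓡 3) ∞ M] in
theorem MS_pic_unknot (ψ : E3 → M) {σ : ℝ} (hσ : σ = 1 ∨ σ = -1) :
    (range fun t => pushT ψ !₂[cos (2 * π * t) / 2, σ * sin (2 * π * t) / 2, 0] ez) =
      MS_pic ψ unknot := by
  rw [MS_pic, unknot, ← MS_range fun c s => !₂[c / 2, s / 2, 0], ← range_comp]
  rcases hσ with rfl | rfl
  · simp only [one_mul]
    rfl
  · ext x
    constructor
    · rintro ⟨t, rfl⟩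
      exact ⟨-t, by simp⟩
    · rintro ⟨t, rfl⟩
      exact ⟨-t, by simp⟩

/-- the small sector in the opposite direction -/
noncomputable def Sec.opp (D : Sec) (κ : ℝ) : Sec := ⟨-D.b, κ • D.u, -κ • D.w, D.ρ, D.η, []⟩

noncomputable def MS_c (κ s : ℝ) : ℝ := (1 - s) / 2 + s * κ / 2

noncomputable def MS_V (D : Sec) (κ : ℝ) (p : ℝ × ℝ) : E3 :=
  (1 - 2 * p.1) • D.b + (MS_c κ p.1 * cos (2 * π * p.2)) • D.u +
    (-(MS_c κ p.1 * sin (2 * π * p.2))) • D.w

/-- second stage: circles of latitude -/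
noncomputable def MS_q (D : Sec) (κ : ℝ) (p : ℝ × ℝ) : E3 := (D.ρ / ‖MS_V D κ p‖) • MS_V D κ p

omit [IsManifold (𝓡 3) ∞ M] in
section
variable {ι Vx : Type} {H : HD M ι Vx} {v : Vx} {D : Sec} {κ : ℝ}

theorem MS_norm_sq (h : H.SecOK v D) (a x z : ℝ) :
    ‖a • D.b + x • D.u + z • D.w‖ ^ 2 = a ^ 2 + (x ^ 2 + z ^ 2) * ‖D.u‖ ^ 2 := by
  rw [norm_add_sq_real, norm_add_sq_real, inner_add_left]
  simp only [real_inner_smul_left, real_inner_smul_right, h.bu, h.bw, h.uw, norm_smul, mul_pow,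
    h.norm_b, ← h.norm_uw, Real.norm_eq_abs, sq_abs]
  ring

theorem MS_coef (h : H.SecOK v D) {a x z a' x' z' : ℝ}
    (e : a • D.b + x • D.u + z • D.w = a' • D.b + x' • D.u + z' • D.w) :
    a = a' ∧ x = x' ∧ z = z' := by
  have h1 := MS_norm_sq h (a - a') (x - x') (z - z')
  have h2 : (a - a') • D.b + (x - x') • D.u + (z - z') • D.w = 0 := by
    rw [← sub_eq_zero] at e
    rw [← e]
    module
  rw [h2, norm_zero] at h1
  have h3 : 0 < ‖D.u‖ ^ 2 := pow_pos (norm_pos_iff.2 h.u_ne) 2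
  have h4 := mul_nonneg (add_nonneg (sq_nonneg (x - x')) (sq_nonneg (z - z'))) h3.le
  have h5 : (a - a') ^ 2 = 0 := by nlinarith [sq_nonneg (a - a')]
  have h6 : (x - x') ^ 2 + (z - z') ^ 2 = 0 :=
    (mul_eq_zero.1 (by nlinarith : ((x - x') ^ 2 + (z - z') ^ 2) * ‖D.u‖ ^ 2 = 0)).resolve_right
      h3.ne'
  refine ⟨by simpa [sub_eq_zero] using h5, ?_, ?_⟩
  · have : (x - x') ^ 2 = 0 := by nlinarith [sq_nonneg (x - x'), sq_nonneg (z - z')]
    simpa [sub_eq_zero] using this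
  · have : (z - z') ^ 2 = 0 := by nlinarith [sq_nonneg (x - x'), sq_nonneg (z - z')]
    simpa [sub_eq_zero] using this

theorem MS_c_pos (hκ : 0 < κ) {s : ℝ} (hs : s ∈ Icc (0 : ℝ) 1) : 0 < MS_c κ s := by
  rw [MS_c]
  rcases hs.2.eq_or_lt with h | h
  · rw [h]; linarith
  · have := mul_nonneg hs.1 hκ.le
    linarith

theorem MS_V_ne (h : H.SecOK v D) (hκ : 0 < κ) (p : ℝ × ℝ) : MS_V D κ p ≠ 0 := by
  intro e
  obtain ⟨h1, h2, h3⟩ := MS_coef h (a' := 0) (x' := 0) (z' := 0) (e.trans (by simp))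
  have h4 : 0 < MS_c κ p.1 := MS_c_pos hκ ⟨by linarith, by linarith⟩
  have h5 := (mul_eq_zero.1 h2).resolve_left h4.ne'
  have h6 := (mul_eq_zero.1 (neg_eq_zero.1 h3)).resolve_left h4.ne'
  have := sin_sq_add_cos_sq (2 * π * p.2)
  rw [h5, h6] at this
  norm_num at this

theorem MS_V_norm (h : H.SecOK v D) (s t : ℝ) : ‖MS_V D κ (s, t)‖ = ‖MS_V D κ (s, 0)‖ := by
  rw [← sq_eq_sq₀ (norm_nonneg _) (norm_nonneg _), MS_V, MS_V, MS_norm_sq h, MS_norm_sq h]
  have := sin_sq_add_cos_sq (2 * π * t)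
  simp only [mul_zero, cos_zero, sin_zero]
  linear_combination MS_c κ s ^ 2 * ‖D.u‖ ^ 2 * this

theorem MS_q_smooth (h : H.SecOK v D) (hκ : 0 < κ) : ContDiff ℝ ∞ (MS_q D κ) := by
  have hV : ContDiff ℝ ∞ (MS_V D κ) := by
    unfold MS_V MS_c
    fun_prop
  exact (contDiff_const.div (hV.norm ℝ (MS_V_ne h hκ))
    fun p => norm_ne_zero_iff.2 (MS_V_ne h hκ p)).smul hV

theorem MS_q_eq (h : H.SecOK v D) (s t : ℝ) : MS_q D κ (s, t) =
    (D.ρ / ‖MS_V D κ (s, 0)‖ * (1 - 2 * s)) • D.b +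
      (D.ρ / ‖MS_V D κ (s, 0)‖ * MS_c κ s * cos (2 * π * t)) • D.u +
      (-(D.ρ / ‖MS_V D κ (s, 0)‖ * MS_c κ s * sin (2 * π * t))) • D.w := by
  rw [MS_q, MS_V_norm h s t]
  generalize D.ρ / ‖MS_V D κ (s, 0)‖ = r
  rw [MS_V]
  module

theorem MS_q_link (h : H.SecOK v D) (hκ : 0 < κ) {s : ℝ} (hs : s ∈ Icc (0 : ℝ) 1) :
    (⟨fun _ t => MS_q D κ (s, t), fun _ t => D.η • MS_q D κ (s, t)⟩ : Lk Unit).IsLink := by
  have hg : ContDiff ℝ ∞ fun t => MS_q D κ (s, t) := (MS_q_smooth h hκ).comp (by fun_prop)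
  have hr : 0 < D.ρ / ‖MS_V D κ (s, 0)‖ * MS_c κ s :=
    mul_pos (div_pos h.ρ_pos (norm_pos_iff.2 (MS_V_ne h hκ _))) (MS_c_pos hκ hs)
  simp only [MS_q_eq h] at hg ⊢
  generalize D.ρ / ‖MS_V D κ (s, 0)‖ * MS_c κ s = c at hg hr ⊢
  generalize D.ρ / ‖MS_V D κ (s, 0)‖ * (1 - 2 * s) = a at hg ⊢
  refine MS_lk hg (hg.const_smul _) (fun t => by rw [MS_cos_per, MS_sin_per])
    (fun t => by rw [MS_cos_per, MS_sin_per]) (fun x y e => ?_) fun t => ?_
  · obtain ⟨-, h1, h2⟩ := MS_coef h e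
    exact MS_circ (mul_left_cancel₀ hr.ne' h1) (mul_left_cancel₀ hr.ne' (neg_injective h2))
  · have hd : HasDerivAt (fun t => a • D.b + (c * cos (2 * π * t)) • D.u +
        (-(c * sin (2 * π * t))) • D.w)
        ((c * (-sin (2 * π * t) * (2 * π))) • D.u +
          (-(c * (cos (2 * π * t) * (2 * π)))) • D.w) t :=
      ((((MS_dcos t).const_mul c).smul_const D.u).const_add _).add
        (((MS_dsin t).const_mul c).neg.smul_const D.w)
    rw [hd.deriv, LinearIndependent.pair_iff]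
    intro α β e
    obtain ⟨-, h1, h2⟩ := MS_coef h (a := β * D.η * a)
      (x := c * (-(α * (2 * π)) * sin (2 * π * t) + β * D.η * cos (2 * π * t)))
      (z := c * (-(α * (2 * π)) * cos (2 * π * t) - β * D.η * sin (2 * π * t)))
      (a' := 0) (x' := 0) (z' := 0) (by
        rw [zero_smul, zero_smul, zero_smul, add_zero, add_zero, ← e]
        module)
    have h3 := (mul_eq_zero.1 h1).resolve_left hr.ne'
    have h4 := (mul_eq_zero.1 h2).resolve_left hr.ne'
    have h5 := sin_sq_add_cos_sq (2 * π * t)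
    have h6 : α * (2 * π) = 0 := by
      linear_combination (-sin (2 * π * t)) * h3 - cos (2 * π * t) * h4 - α * (2 * π) * h5
    have h7 : β * D.η = 0 := by
      linear_combination cos (2 * π * t) * h3 - sin (2 * π * t) * h4 - β * D.η * h5
    exact ⟨(mul_eq_zero.1 h6).resolve_right (by positivity),
      (mul_eq_zero.1 h7).resolve_right h.η_pos.ne'⟩

theorem MS_q_shell (h : H.SecOK v D) (hκ : 0 < κ) (p : ℝ × ℝ) : MS_q D κ p ∈ D.shell := by
  have h1 : ‖MS_q D κ p‖ = D.ρ := by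
    rw [MS_q, norm_smul, Real.norm_eq_abs, abs_div, abs_norm, abs_of_pos h.ρ_pos,
      div_mul_cancel₀ _ (norm_ne_zero_iff.2 (MS_V_ne h hκ p))]
  have h2 := h.η_pos
  refine ⟨?_, ?_⟩
  · rw [h1]
    exact mul_lt_of_lt_one_right h.ρ_pos (exp_lt_one_iff.2 (by linarith))
  · rw [h1]
    exact lt_mul_of_one_lt_right h.ρ_pos (one_lt_exp_iff.2 (by linarith))

theorem MS_map_eq (D : Sec) (p : E3) : D.map p =
    (D.ρ * exp (D.η * p 1) / ‖D.b + p 0 • D.u + p 2 • D.w‖) • D.b +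
      (D.ρ * exp (D.η * p 1) / ‖D.b + p 0 • D.u + p 2 • D.w‖ * p 0) • D.u +
      (D.ρ * exp (D.η * p 1) / ‖D.b + p 0 • D.u + p 2 • D.w‖ * p 2) • D.w := by
  rw [Sec.map]
  generalize D.ρ * exp (D.η * p 1) / ‖D.b + p 0 • D.u + p 2 • D.w‖ = r
  module

theorem MS_map_pos (h : H.SecOK v D) (p : E3) :
    0 < D.ρ * exp (D.η * p 1) / ‖D.b + p 0 • D.u + p 2 • D.w‖ :=
  div_pos (mul_pos h.ρ_pos (exp_pos _)) (one_pos.trans_le (h.one_le_norm _ _))

theorem MS_q_off (h : H.SecOK v D) (hκ : 0 < κ) {s : ℝ} (hs : s ∈ Icc (0 : ℝ) 1) (t : ℝ) :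
    MS_q D κ (s, t) ∉ D.map '' vlines D.xs := by
  rintro ⟨p, ⟨hp0, hp2⟩, e⟩
  rw [MS_q_eq h, MS_map_eq] at e
  obtain ⟨h1, h2, h3⟩ := MS_coef h e
  have hr : 0 < D.ρ / ‖MS_V D κ (s, 0)‖ := div_pos h.ρ_pos (norm_pos_iff.2 (MS_V_ne h hκ _))
  have hc := MS_c_pos hκ hs
  have hm := MS_map_pos h p
  generalize D.ρ * exp (D.η * p 1) / ‖D.b + p 0 • D.u + p 2 • D.w‖ = m at h1 h2 h3 hm
  generalize D.ρ / ‖MS_V D κ (s, 0)‖ = r at h1 h2 h3 hr
  rw [hp2, mul_zero, eq_comm, neg_eq_zero] at h3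
  have h4 := (mul_eq_zero.1 h3).resolve_left (mul_pos hr hc).ne'
  have h5 : |cos (2 * π * t)| = 1 := by
    have := sin_sq_add_cos_sq (2 * π * t)
    rw [h4] at this
    rw [← sq_eq_sq₀ (abs_nonneg _) zero_le_one, sq_abs]
    linarith
  have h6 := congrArg abs h2
  rw [abs_mul, abs_mul, h5, abs_of_pos hm, abs_of_pos (mul_pos hr hc), mul_one] at h6
  have h7 := h.pos.2 _ hp0
  have h8 : r * MS_c κ s ≤ r * ((1 - 2 * s) / 4) := by nlinarith
  have h9 := le_of_mul_le_mul_left h8 hr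
  rw [MS_c] at h9
  have := mul_nonneg hs.1 hκ.le
  linarith

theorem MS_q_zero (D : Sec) (κ t : ℝ) :
    MS_q D κ (0, t) = D.map (MS_rot !₂[cos (2 * π * t) / 2, 1 * sin (2 * π * t) / 2, 0]) := by
  have : MS_V D κ (0, t) =
      D.b + (cos (2 * π * t) / 2) • D.u + (-(1 * sin (2 * π * t) / 2)) • D.w := by
    simp only [MS_V, MS_c]
    module
  rw [MS_rot_apply, MS_q, this]
  simp [Sec.map]

theorem MS_q_one (D : Sec) (κ t : ℝ) : MS_q D κ (1, t) =
    (D.opp κ).map (MS_rot !₂[cos (2 * π * t) / 2, -1 * sin (2 * π * t) / 2, 0]) := by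
  have : MS_V D κ (1, t) = -D.b + (cos (2 * π * t) / 2) • κ • D.u +
      (-(-1 * sin (2 * π * t) / 2)) • -κ • D.w := by
    simp only [MS_V, MS_c]
    module
  rw [MS_rot_apply, MS_q, this]
  simp [Sec.map, Sec.opp]

theorem MS_cv (H : HD M ι Vx) (v : Vx) : MPosOn (H.cv v) univ :=
  H.cv_source v ▸ (H.cv_chart v).mPosOn

theorem MS_push_rot {ψ : E3 → M} (hψ : MPosOn ψ univ) (p : E3) :
    pushT (ψ ∘ MS_rot) p ez = pushT ψ (MS_rot p) !₂[0, 1, 0] := by
  rw [pushT_comp ((MS_smooth hψ _).mdifferentiableAt (by simp)) MS_rot.differentiableAt,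
    ContinuousLinearMap.fderiv, MS_rot_apply ez]
  simp [ez]

theorem MS_push_sec (h : H.SecOK v D) (p : E3) :
    pushT ((H.cv v ∘ D.map) ∘ MS_rot) p ez =
      pushT (H.cv v) (D.map (MS_rot p)) (D.η • D.map (MS_rot p)) := by
  rw [MS_push_rot h.mPosOn, pushT_comp ((MS_smooth (MS_cv H v) _).mdifferentiableAt (by simp))
    (h.contDiff_map.differentiable (by simp) _), h.fderiv_map_ey]

end

variable {ι Vx : Type} {H : HD M ι Vx} {v : Vx} {D : Sec} {κ : ℝ}

theorem MS_sweep₁ (h : H.SecOK v D) {A : Set M}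
    (hA : ∀ p ∈ D.shell, p ∉ D.map '' vlines D.xs → H.cv v p ∈ A) :
    IsoIn A (MS_pic (H.cv v ∘ D.map) encLoop)
      (MS_pic ((H.cv v ∘ D.map) ∘ MS_rot) unknot) := by
  have h1 := MS_iso h.mPosOn MS_g_smooth MS_n_smooth (A := A) (fun s hs => MS_g_link hs)
    fun s hs t => hA _ (h.map_mem_shell.2 ((MS_g_mem hs t 1).trans (by norm_num))) (by
      rintro ⟨p, hp, e⟩
      rw [h.posOn_map.inj trivial trivial e] at hp
      exact MS_g_off hs t h.pos hp)
  convert h1 using 1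
  · rw [MS_pic, ← MS_g_zero, ← range_comp]
    simp [MS_n, ez, Function.comp_def]
  · rw [← MS_pic_unknot _ (Or.inl rfl)]
    simp only [MS_push_rot h.mPosOn, MS_g_one, one_mul]
    simp [MS_n]

theorem MS_sweep₂ (h : H.SecOK v D) (hκ : 0 < κ) (h' : H.SecOK v (D.opp κ)) {A : Set M}
    (hA : ∀ p ∈ D.shell, p ∉ D.map '' vlines D.xs → H.cv v p ∈ A) :
    IsoIn A (MS_pic ((H.cv v ∘ D.map) ∘ MS_rot) unknot)
      (MS_pic ((H.cv v ∘ (D.opp κ).map) ∘ MS_rot) unknot) := by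
  have h1 := MS_iso (MS_cv H v) (MS_q_smooth h hκ) ((MS_q_smooth h hκ).const_smul D.η) (A := A)
    (fun s hs => MS_q_link h hκ hs) fun s hs t => hA _ (MS_q_shell h hκ _) (MS_q_off h hκ hs t)
  convert h1 using 1
  · rw [← MS_pic_unknot _ (Or.inl rfl)]
    simp only [MS_push_sec h, MS_q_zero]
  · rw [← MS_pic_unknot _ (Or.inr rfl)]
    simp only [MS_push_sec h', MS_q_one]
    rfl

end Pool.Agent.P.MP_ac4909_gt.B
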