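import Pool.Agent.P.MP_ac4909_gt.B.MCross
import Pool.Agent.P.MP_ac4909_gt.B.ANon

/-! If the skein module vanishes, split skeins have value zero. -/

namespace Pool.Agent.P.MP_ac4909_gt.B

open scoped Manifold ContDiff
open Set Filter Topology

variable {M : Type*} [TopologicalSpace M] [T2Space M] [ChartedSpace E3 M]
  [IsManifold (𝓡 3) ∞ M] {ι Vx : Type} [Fintype ι] [DecidableEq ι] [Fintype Vx]

/-- the value of a skein together with an inner skein pushed towards the graph vanishes -/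
def HD.Van (H : HD M ι Vx) (E : EvSys ι (ℕ × (ι → ℕ))) : Prop :=
  ∀ (ρ R ε : ℝ) (J X : Set (TM M)), 0 < ε → 0 < R → ε * R < 1 → IsLS J →
    Disjoint (base J) H.gs → base J ⊆ H.tubes R ε ∪ H.balls ρ → Disjoint (base J) (H.cyl R ε) →
    IsLS X → Disjoint (base X) H.gs → ∀ᶠ t in atTop, ∀ᶠ s in atTop,
      H.val E t (H.tot (X ∪ tm (H.Φ (-s)) '' J) (ε * Real.exp (-s))) = 0

/-! ### pictures -/

theorem MVan_Qb_ball {r r' : ℝ} (h : 3 * r ^ 2 ≤ r' ^ 2) (hr' : 0 < r') :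
    Qb r ⊆ Metric.ball 0 r' := by
  intro p hp
  rw [mem_ball_zero_iff, EuclideanSpace.norm_eq, Real.sqrt_lt' hr', Fin.sum_univ_three]
  have h0 := pow_lt_pow_left₀ (hp 0) (abs_nonneg _) two_ne_zero
  have h1 := pow_lt_pow_left₀ (hp 1) (abs_nonneg _) two_ne_zero
  have h2 := pow_lt_pow_left₀ (hp 2) (abs_nonneg _) two_ne_zero
  simp only [Real.norm_eq_abs]
  linarith

theorem MVan_mem_Qb {a b c r : ℝ} :
    (!₂[a, b, c] : E3) ∈ Qb r ↔ |a| < r ∧ |b| < r ∧ |c| < r := by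
  simp [Qb, Fin.forall_fin_succ]

theorem MVan_cases (t : ℝ) : (|t| ≤ 1 / 2 ∧ |sab t| < 3 / 5 ∧ |st t| ≤ 1) ∨
    (sab t = t ∧ st t = 1) ∨ (sab t = -t ∧ st t = -1) := by
  by_cases h : |t| ≤ 1 / 2
  · exact Or.inl ⟨h, by rw [abs_of_pos (sab_pos t)]; exact sab_lt h, abs_st_le t⟩
  have h1 := sab_of_le_abs (not_le.1 h).le
  rcases le_total 0 t with h2 | h2
  · rw [abs_of_nonneg h2] at h h1
    exact Or.inr (Or.inl ⟨h1, st_of_ge (not_le.1 h).le⟩)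
  · rw [abs_of_nonpos h2] at h h1
    exact Or.inr (Or.inr ⟨h1, st_of_le (by linarith [not_le.1 h])⟩)

theorem MVan_small {a b c : ℝ} (ha : |a| ≤ 1) (hb : |b| ≤ 1) (hc : |c| ≤ 1) :
    (!₂[a / 2, b, c / 2] : E3) ∈ Qb (9 / 8) := by
  rw [MVan_mem_Qb, abs_div, abs_div, abs_two]
  exact ⟨by linarith, by linarith, by linarith⟩

theorem MVan_sm₀ : smoothing₀ \ Qb (9 / 8) = crossing \ Qb (9 / 8) := by
  ext p
  constructor
  · rintro ⟨⟨t, rfl⟩ | ⟨t, rfl⟩, hp⟩ <;> refine ⟨?_, hp⟩ <;>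
      rcases MVan_cases t with ⟨h1, h2, h3⟩ | ⟨h1, h2⟩ | ⟨h1, h2⟩
    · exact absurd (MVan_small (by rw [abs_neg]; linarith) (by linarith) (by rwa [abs_neg])) hp
    · exact Or.inr ⟨t, by simp [h1, h2]⟩
    · exact Or.inl ⟨t, by simp [h1, h2]⟩
    · exact absurd (MVan_small (by linarith) (by linarith) h3) hp
    · exact Or.inl ⟨t, by simp [h1, h2]⟩
    · exact Or.inr ⟨t, by simp [h1, h2]⟩
  · rintro ⟨⟨t, rfl⟩ | ⟨t, rfl⟩, hp⟩ <;> refine ⟨?_, hp⟩ <;>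
      rcases MVan_cases t with ⟨h1, h2, h3⟩ | ⟨h1, h2⟩ | ⟨h1, h2⟩
    · exact absurd (MVan_small (by linarith) (by linarith) (by simp)) hp
    · exact Or.inr ⟨t, by simp [h1, h2]⟩
    · exact Or.inl ⟨t, by simp [h1, h2]⟩
    · exact absurd (MVan_small (by rw [abs_neg]; linarith) (by linarith) (by simp)) hp
    · exact Or.inl ⟨t, by simp [h1, h2]⟩
    · exact Or.inr ⟨t, by simp [h1, h2]⟩

theorem MVan_sm₁ : smoothing₁ \ Qb (9 / 8) = crossing \ Qb (9 / 8) := by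
  ext p
  constructor
  · rintro ⟨⟨t, rfl⟩ | ⟨t, rfl⟩, hp⟩ <;> refine ⟨?_, hp⟩ <;>
      rcases MVan_cases t with ⟨h1, h2, h3⟩ | ⟨h1, h2⟩ | ⟨h1, h2⟩
    · exact absurd (MVan_small (by linarith) (by rw [abs_neg]; linarith) (by rwa [abs_neg])) hp
    · exact Or.inr ⟨-t, by simp [h1, h2]⟩
    · exact Or.inl ⟨t, by simp [h1, h2]⟩
    · exact absurd (MVan_small (by linarith) (by linarith) h3) hp
    · exact Or.inl ⟨t, by simp [h1, h2]⟩
    · exact Or.inr ⟨-t, by simp [h1, h2]⟩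
  · rintro ⟨⟨t, rfl⟩ | ⟨t, rfl⟩, hp⟩ <;> refine ⟨?_, hp⟩
    · rcases MVan_cases t with ⟨h1, h2, h3⟩ | ⟨h1, h2⟩ | ⟨h1, h2⟩
      · exact absurd (MVan_small (by linarith) (by linarith) (by simp)) hp
      · exact Or.inr ⟨t, by simp [h1, h2]⟩
      · exact Or.inl ⟨t, by simp [h1, h2]⟩
    · rcases MVan_cases (-t) with ⟨h1, h2, h3⟩ | ⟨h1, h2⟩ | ⟨h1, h2⟩
      · exact absurd (MVan_small (by linarith) (by rw [abs_neg] at h1; linarith) (by simp)) hp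
      · exact Or.inl ⟨-t, by simp [h1, h2]⟩
      · exact Or.inr ⟨-t, by simp [h1, h2]⟩

theorem MVan_unknot : (∅ : Set E3) \ Qb (9 / 8) = unknot \ Qb (9 / 8) := by
  rw [empty_sdiff, eq_comm, sdiff_eq_empty]
  rintro _ ⟨t, rfl⟩
  have h1 := Real.abs_cos_le_one t
  have h2 := Real.abs_sin_le_one t
  rw [MVan_mem_Qb, abs_div, abs_div, abs_two, abs_zero]
  exact ⟨by linarith, by linarith, by norm_num⟩

/-! ### transport by ambient isotopies -/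

omit [T2Space M] [IsManifold (𝓡 3) ∞ M] in
theorem MVan_base_tm (f : M → M) (S : Set (TM M)) : base (tm f '' S) = f '' base S := by
  rw [base, base, image_image, image_image]
  rfl

omit [T2Space M] [IsManifold (𝓡 3) ∞ M] in
theorem MVan_base_union (S S' : Set (TM M)) : base (S ∪ S') = base S ∪ base S' :=
  image_union _ _ _

omit [T2Space M] [IsManifold (𝓡 3) ∞ M] in
theorem MVan_ambId : AmbIso fun _ : ℝ => (id : M → M) := by
  refine ⟨contMDiff_snd, fun _ => rfl, fun _ _ => Function.injective_id, fun _ _ x => ?_⟩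
  rw [jac_id]
  simp [ContinuousLinearMap.det]

omit [T2Space M] in
theorem MVan_isLS {Q : ℝ → M → M} (hQ : AmbIso Q) {S : Set (TM M)} (hS : IsLS S) :
    IsLS (tm (Q 1) '' S) :=
  hS.tm (fun x _ => hQ.contMDiff 1 x) (hQ.inj 1 (by simp)).injOn
    fun x _ => (hQ.pos 1 (by simp) x).ne'

omit [T2Space M] in
theorem MVan_posEmb {Q : ℝ → M → M} (hQ : AmbIso Q) {φ : E3 → M} (hφ : PosEmb φ) :
    PosEmb (Q 1 ∘ φ) := by
  refine ⟨(hQ.contMDiff 1).comp hφ.smooth, (hQ.inj 1 (by simp)).comp hφ.inj, fun p => ?_⟩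
  rw [det_jac_comp ((hQ.contMDiff 1).mdifferentiableAt (by simp))
    (hφ.smooth.mdifferentiableAt (by simp))]
  exact mul_pos (hQ.pos 1 (by simp) _) (hφ.pos p)

omit [T2Space M] [IsManifold (𝓡 3) ∞ M] in
theorem MVan_mem_ball {Q : ℝ → M → M} (hQ : AmbIso Q) (φ : E3 → M) (x : TM M) :
    (tm (Q 1) x).proj ∈ (Q 1 ∘ φ) '' Metric.ball 0 2 ↔ x.proj ∈ φ '' Metric.ball 0 2 := by
  rw [image_comp]
  exact (hQ.inj 1 (by simp)).mem_set_image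

omit [T2Space M] in
theorem MVan_inside {Q : ℝ → M → M} (hQ : AmbIso Q) {φ : E3 → M} (hφ : PosEmb φ)
    {S : Set (TM M)} {P : Set E3} (h : Inside φ S P) : Inside (Q 1 ∘ φ) (tm (Q 1) '' S) P := by
  have e : {x ∈ tm (Q 1) '' S | x.proj ∈ (Q 1 ∘ φ) '' Metric.ball 0 2} =
      tm (Q 1) '' {x ∈ S | x.proj ∈ φ '' Metric.ball 0 2} := by
    ext x
    constructor
    · rintro ⟨⟨y, hy, rfl⟩, h1⟩
      exact ⟨y, ⟨hy, (MVan_mem_ball hQ φ y).1 h1⟩, rfl⟩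
    · rintro ⟨y, hy, rfl⟩
      exact ⟨⟨y, hy.1, rfl⟩, (MVan_mem_ball hQ φ y).2 hy.2⟩
  unfold Inside at h ⊢
  rw [e, h, image_image]
  exact image_congr fun p _ => tm_pushT ((hQ.contMDiff 1).mdifferentiableAt (by simp))
    (hφ.smooth.mdifferentiableAt (by simp))

omit [T2Space M] [IsManifold (𝓡 3) ∞ M] in
theorem MVan_outside {Q : ℝ → M → M} (hQ : AmbIso Q) (φ : E3 → M) (S : Set (TM M)) :
    outside (Q 1 ∘ φ) (tm (Q 1) '' S) = tm (Q 1) '' outside φ S := by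
  ext x
  constructor
  · rintro ⟨⟨y, hy, rfl⟩, h1⟩
    exact ⟨y, ⟨hy, fun h => h1 ((MVan_mem_ball hQ φ y).2 h)⟩, rfl⟩
  · rintro ⟨y, hy, rfl⟩
    exact ⟨⟨y, hy.1, rfl⟩, fun h => hy.2 ((MVan_mem_ball hQ φ y).1 h)⟩

omit [T2Space M] in
theorem MVan_refl {S : Set (TM M)} (hS : IsLS S) : IsoIn univ S S := by
  obtain ⟨κ, _, Γ, hΓ, rfl⟩ := hS
  exact IsoIn.mono ⟨κ, inferInstance, fun _ => Γ, hΓ.isIso_const, rfl, rfl⟩ (subset_univ _)

/-! ### from balls to cubes -/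

omit [T2Space M] [IsManifold (𝓡 3) ∞ M] [Fintype ι] [DecidableEq ι] in
theorem MVan_ins {ψ : E3 → M} (hψ : Function.Injective ψ) {X : Set (TM M)} {P : Set E3}
    (h : Inside ψ X P) {S : LM ι M}
    (hS : ∀ x : Option ι × TM M, x.2.proj ∈ ψ '' Qb (9 / 8) → (x ∈ S ↔ x.1 = none ∧ x.2 ∈ X)) :
    MIns ψ S (nn P) := by
  have hb : Qb (9 / 8) ⊆ Metric.ball (0 : E3) 2 := MVan_Qb_ball (by norm_num) two_pos
  ext x
  constructor
  · rintro ⟨h1, h2⟩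
    obtain ⟨h3, h4⟩ := (hS x h2).1 h1
    obtain ⟨p, hp, e⟩ := h.le ⟨h4, image_mono hb h2⟩
    obtain ⟨q, hq, e'⟩ := h2
    have e1 : p = q := hψ ((congrArg (fun y => y.proj) e).trans e'.symm)
    exact ⟨(none, p), ⟨⟨rfl, hp.1⟩, e1 ▸ hq⟩, Prod.ext h3.symm e⟩
  · rintro ⟨y, ⟨hy, hy'⟩, rfl⟩
    have h2 : (pushT ψ y.2 ez).proj ∈ ψ '' Qb (9 / 8) := ⟨y.2, hy', rfl⟩
    exact ⟨(hS (y.1, pushT ψ y.2 ez) h2).2 ⟨hy.1, (h.ge ⟨y.2, ⟨hy.2, hb hy'⟩, rfl⟩).1⟩, h2⟩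

omit [T2Space M] [IsManifold (𝓡 3) ∞ M] in
theorem MVan_out_aux {ψ : E3 → M} {X X₀ : Set (TM M)} {P P₀ : Set E3}
    (h : Inside ψ X P) (h₀ : Inside ψ X₀ P₀) (o : outside ψ X₀ = outside ψ X)
    (hP : P₀ \ Qb (9 / 8) = P \ Qb (9 / 8)) {x : TM M} (hx : x.proj ∉ ψ '' Qb (9 / 8))
    (hx₀ : x ∈ X₀) : x ∈ X := by
  by_cases h1 : x.proj ∈ ψ '' Metric.ball 0 2
  · obtain ⟨p, hp, rfl⟩ := h₀.le ⟨hx₀, h1⟩
    have h2 : p ∈ P \ Qb (9 / 8) := hP ▸ ⟨hp.1, fun h3 => hx ⟨p, h3, rfl⟩⟩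
    exact (h.ge ⟨p, ⟨h2.1, hp.2⟩, rfl⟩).1
  · exact (o.le ⟨hx₀, h1⟩).1

namespace HD
variable (H : HD M ι Vx)

omit [T2Space M] [IsManifold (𝓡 3) ∞ M] [Fintype ι] [DecidableEq ι] [Fintype Vx] in
theorem MVan_lbase_tot (X : Set (TM M)) (ε : ℝ) :
    lbase (H.tot X ε) = base X ∪ lbase (H.Y ε) := by
  ext x
  constructor
  · rintro ⟨y, hy | hy, rfl⟩
    · exact Or.inl ⟨y.2, hy.2, rfl⟩
    · exact Or.inr ⟨y, hy, rfl⟩
  · rintro (⟨y, hy, rfl⟩ | ⟨y, hy, rfl⟩)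
    · exact ⟨(none, y), Or.inl ⟨rfl, hy⟩, rfl⟩
    · exact ⟨y, Or.inr hy, rfl⟩

omit [T2Space M] [IsManifold (𝓡 3) ∞ M] [Fintype ι] [DecidableEq ι] [Fintype Vx] in
theorem MVan_mIns {ψ : E3 → M} (hψ : Function.Injective ψ) {X J : Set (TM M)} {P : Set E3}
    (h : Inside ψ X P) {ε : ℝ} (hJ : Disjoint (ψ '' Qb (9 / 8)) (base J))
    (hY : Disjoint (ψ '' Qb (9 / 8)) (lbase (H.Y ε))) : MIns ψ (H.tot (X ∪ J) ε) (nn P) := by
  refine MVan_ins hψ h fun x hx => ⟨?_, fun h1 => Or.inl ⟨h1.1, Or.inl h1.2⟩⟩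
  rintro (⟨h1, h2 | h2⟩ | h1)
  · exact ⟨h1, h2⟩
  · exact absurd ⟨x.2, h2, rfl⟩ (disjoint_left.1 hJ hx)
  · exact absurd ⟨x, h1, rfl⟩ (disjoint_left.1 hY hx)

omit [T2Space M] [IsManifold (𝓡 3) ∞ M] [Fintype ι] [DecidableEq ι] [Fintype Vx] in
theorem MVan_mOut {ψ : E3 → M} {X X₀ : Set (TM M)} {P P₀ : Set E3}
    (h : Inside ψ X P) (h₀ : Inside ψ X₀ P₀) (o : outside ψ X₀ = outside ψ X)
    (hP : P₀ \ Qb (9 / 8) = P \ Qb (9 / 8)) (J : Set (TM M)) (ε : ℝ) :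
    MOut ψ (H.tot (X₀ ∪ J) ε) = MOut ψ (H.tot (X ∪ J) ε) := by
  ext x
  constructor
  · rintro ⟨⟨h1, h2 | h2⟩ | h1, hx⟩
    · exact ⟨Or.inl ⟨h1, Or.inl (MVan_out_aux h h₀ o hP hx h2)⟩, hx⟩
    · exact ⟨Or.inl ⟨h1, Or.inr h2⟩, hx⟩
    · exact ⟨Or.inr h1, hx⟩
  · rintro ⟨⟨h1, h2 | h2⟩ | h1, hx⟩
    · exact ⟨Or.inl ⟨h1, Or.inl (MVan_out_aux h₀ h o.symm hP.symm hx h2)⟩, hx⟩
    · exact ⟨Or.inl ⟨h1, Or.inr h2⟩, hx⟩
    · exact ⟨Or.inr h1, hx⟩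

/-! ### general position -/

omit [DecidableEq ι] in
theorem MVan_pert {S : Set (TM M)} (hS : IsLS S) {K : Set M} (hK : IsCompact K)
    (hKg : Disjoint K H.gs) : ∃ Q : ℝ → M → M, AmbIso Q ∧ (∀ x ∈ K, Q 1 x = x) ∧
      Disjoint (base (tm (Q 1) '' S)) H.gs := by
  obtain ⟨κ, _, Γ, hΓ, rfl⟩ := hS
  obtain ⟨Q, hQ, h1, -, -, h2, -⟩ := H.pert (h := fun c p => (Γ c p.2).proj) (F := ∅)
    (fun c p => ContMDiffAt.comp p (g := fun t => (Γ c t).proj) (f := Prod.snd)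
      (contMDiffAt_proj (hΓ.smooth c p.2)) contDiff_snd.contMDiff.contMDiffAt)
    (fun c s t => congrArg (fun y => y.proj) (hΓ.per c t)) hK hKg isClosed_empty
    fun _ _ _ _ => notMem_empty _
  refine ⟨Q, hQ, fun x hx => (h1 1 x hx).eq_of_nhds, ?_⟩
  rw [MVan_base_tm, disjoint_left]
  rintro _ ⟨_, ⟨y, hy, rfl⟩, rfl⟩
  obtain ⟨c, t, rfl⟩ := mem_iUnion.1 hy
  exact h2 c 0 (by simp) t

omit [DecidableEq ι] in
theorem MVan_pt (x : M) : ∃ Q : ℝ → M → M, AmbIso Q ∧ Q 1 x ∉ H.gs := by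
  obtain ⟨Q, hQ, -, -, -, h2, -⟩ := H.pert (h := fun (_ : Unit) _ => x) (K := ∅) (F := ∅)
    (fun _ => contMDiff_const) (fun _ _ _ => rfl) isCompact_empty (empty_disjoint _)
    isClosed_empty fun _ _ _ _ => notMem_empty _
  exact ⟨Q, hQ, h2 () 0 (by simp) 0⟩

omit [DecidableEq ι] in
theorem MVan_box {φ : E3 → M} (hφ : PosEmb φ) {S : Set (TM M)} (hS : IsLS S) :
    ∃ Q : ℝ → M → M, AmbIso Q ∧ MapsTo (Q 1 ∘ φ) (Metric.ball 0 3) H.gsᶜ ∧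
      Disjoint (base (tm (Q 1) '' S)) H.gs := by
  obtain ⟨Q₁, hQ₁, h1⟩ := H.MVan_pt (φ 0)
  have hφ₁ := MVan_posEmb hQ₁ hφ
  have hc := hφ₁.smooth.continuous
  obtain ⟨δ, hδ, hb⟩ := Metric.nhds_basis_closedBall.mem_iff.1
    (hc.continuousAt (x := 0) (H.isCompact_gs.isClosed.isOpen_compl.mem_nhds h1))
  obtain ⟨Q₂, hQ₂, h2⟩ := hφ₁.exists_compress (ε := min (δ / 3) 1) (by positivity)
    (min_le_right _ _)
  have h21 := hQ₂.comp hQ₁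
  obtain ⟨Q₃, hQ₃, h3, h4⟩ := H.MVan_pert (MVan_isLS h21 hS)
    ((isCompact_closedBall (0 : E3) δ).image hc) (disjoint_left.2 (by
      rintro _ ⟨p, hp, rfl⟩
      exact hb hp))
  refine ⟨_, hQ₃.comp h21, fun p hp => ?_, ?_⟩
  · have h5 : min (δ / 3) 1 • p ∈ Metric.closedBall (0 : E3) δ := by
      rw [mem_closedBall_zero_iff, norm_smul, Real.norm_of_nonneg (by positivity)]
      have h6 := mem_ball_zero_iff.1 hp
      have h7 := min_le_left (δ / 3) 1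
      have h8 : 0 < min (δ / 3) 1 := by positivity
      nlinarith
    have e : Q₃ 1 (Q₂ 1 ((Q₁ 1 ∘ φ) p)) = (Q₁ 1 ∘ φ) (min (δ / 3) 1 • p) := by
      rw [h2 p hp]
      exact h3 _ ⟨_, h5, rfl⟩
    exact fun h => hb h5 (e ▸ h)
  · rw [MVan_base_tm, MVan_base_tm, ← image_comp] at h4
    rwa [MVan_base_tm]

/-! ### flowing the inner skein towards the graph -/

/-- the hypotheses on the inner skein -/
structure MVan_Inner (ρ R ε : ℝ) (J : Set (TM M)) : Prop where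
  hε : 0 < ε
  hR : 0 < R
  hεR : ε * R < 1
  isLS : IsLS J
  off : Disjoint (base J) H.gs
  sub : base J ⊆ H.tubes R ε ∪ H.balls ρ
  cyl : Disjoint (base J) (H.cyl R ε)

variable {H} {ρ R ε : ℝ} {J : Set (TM M)}

omit [T2Space M] [IsManifold (𝓡 3) ∞ M] [Fintype ι] [DecidableEq ι] [Fintype Vx] in
theorem MVan_tendsto (hε : 0 < ε) :
    Tendsto (fun s : ℝ => ε * Real.exp (-s)) atTop (𝓝[>] 0) := by
  refine tendsto_nhdsWithin_iff.2 ⟨?_, Eventually.of_forall fun s => ?_⟩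
  · simpa using Real.tendsto_exp_neg_atTop_nhds_zero.const_mul ε
  · exact mul_pos hε (Real.exp_pos _)

omit [T2Space M] [Fintype ι] [DecidableEq ι] [Fintype Vx] in
theorem MVan_Inner.isLS_tm (h : H.MVan_Inner ρ R ε J) (s : ℝ) : IsLS (tm (H.Φ s) '' J) :=
  h.isLS.tm (fun x _ => H.contMDiff_Φ s x) (H.Φ_injective s).injOn
    fun x _ => (H.Φ_pos s x).ne'

omit [T2Space M] [Fintype ι] [DecidableEq ι] [Fintype Vx] in
theorem MVan_Inner.off_tm (h : H.MVan_Inner ρ R ε J) (s : ℝ) :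
    Disjoint (base (tm (H.Φ s) '' J)) H.gs := by
  rw [MVan_base_tm, disjoint_left]
  rintro _ ⟨x, hx, rfl⟩ h1
  exact disjoint_left.1 h.off hx (H.Φ_mem_gs.1 h1)

omit [DecidableEq ι] in
theorem MVan_Inner.far (h : H.MVan_Inner ρ R ε J) {K : Set M} (hK : IsCompact K)
    (hd : Disjoint K H.gs) : ∀ᶠ s in atTop, Disjoint K (base (tm (H.Φ (-s)) '' J)) ∧
      Disjoint K (lbase (H.Y (ε * Real.exp (-s)))) ∧
      Disjoint (base (tm (H.Φ (-s)) '' J)) (lbase (H.Y (ε * Real.exp (-s)))) := by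
  obtain ⟨h1, h2⟩ := H.eventually_thin hK hd
  obtain ⟨ρ', h3, h4⟩ := (h1.and self_mem_nhdsWithin).exists
  obtain ⟨R', h5, h6⟩ :=
    ((H.eventually_back h.hε h.hR h.hεR h.sub h.cyl h4).and (eventually_ge_atTop 0)).exists
  filter_upwards [h5, (MVan_tendsto h.hε).eventually (h2 R')] with s a b
  have hY := H.lbase_Y_subset (mul_pos h.hε (Real.exp_pos (-s))).le h6
  rw [disjoint_union_right] at b
  exact ⟨(disjoint_union_right.2 ⟨b.1, h3⟩).mono_right a.1, b.2.mono_right hY,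
    a.2.mono_right hY⟩

omit [IsManifold (𝓡 3) ∞ M] [DecidableEq ι] in
theorem MVan_Y_off (hε : 0 < ε) : Disjoint (lbase (H.Y ε)) H.gs :=
  (H.disjoint_cyl_gs (R := 0) hε (by simp)).mono_left (H.lbase_Y_subset hε.le le_rfl)

omit [T2Space M] [IsManifold (𝓡 3) ∞ M] [Fintype ι] [DecidableEq ι] [Fintype Vx] in
theorem MVan_Y_flow (ε t : ℝ) :
    MapsTo (H.Φ t) (lbase (H.Y ε)) (lbase (H.Y (ε * Real.exp t))) := by
  rintro _ ⟨_, ⟨e, u, rfl⟩, rfl⟩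
  refine ⟨_, ⟨e, u, rfl⟩, ?_⟩
  have h1 : circ ε 0 u ∈ Dom := by simp [Dom, circ]
  have h2 : sad t (circ ε 0 u) = circ (ε * Real.exp t) 0 u := by
    ext i
    fin_cases i <;> simp [sad, circ] <;> ring
  exact (congrArg (H.ce e) h2).symm.trans (H.ce_flow e t _ h1).symm

omit [DecidableEq ι] in
theorem MVan_Inner.isLM (h : H.MVan_Inner ρ R ε J) {X : Set (TM M)} (hX : IsLS X)
    (hd : Disjoint (base X) H.gs) : ∀ᶠ s in atTop,
      IsLM (H.tot (X ∪ tm (H.Φ (-s)) '' J) (ε * Real.exp (-s))) ∧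
      Disjoint (lbase (H.tot (X ∪ tm (H.Φ (-s)) '' J) (ε * Real.exp (-s)))) H.gs := by
  filter_upwards [h.far hX.isCompact_base hd] with s a
  have h1 := mul_pos h.hε (Real.exp_pos (-s))
  refine ⟨(H.isPM_tot (hX.union (h.isLS_tm _) a.1) h1 ?_).isLM, ?_⟩
  · rw [MVan_base_union, disjoint_union_left]
    exact a.2
  · rw [MVan_lbase_tot, MVan_base_union, disjoint_union_left, disjoint_union_left]
    exact ⟨⟨hd, h.off_tm _⟩, MVan_Y_off h1⟩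

theorem MVan_Inner.const (h : H.MVan_Inner ρ R ε J) (E : EvSys ι (ℕ × (ι → ℕ)))
    {X : Set (TM M)} (hX : IsLS X) (hd : Disjoint (base X) H.gs) : ∃ c : ℕ → ℂ,
      ∀ᶠ s in atTop, ∀ t,
        H.val E t (H.tot (X ∪ tm (H.Φ (-s)) '' J) (ε * Real.exp (-s))) = c t := by
  obtain ⟨s₀, h0⟩ := eventually_atTop.1 (h.far hX.isCompact_base hd)
  refine ⟨fun t => H.val E t (H.tot (X ∪ tm (H.Φ (-s₀)) '' J) (ε * Real.exp (-s₀))), ?_⟩
  filter_upwards [eventually_ge_atTop s₀] with s hs t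
  have h1 := mul_pos h.hε (Real.exp_pos (-s₀))
  have e1 : ∀ u, tm (H.Φ (-u)) '' (tm (H.Φ (-s₀)) '' J) = tm (H.Φ (-(u + s₀))) '' J := fun u => by
    rw [image_image, neg_add]
    exact image_congr fun x _ => (H.tm_Φ_add _ _ x).symm
  have e2 : ∀ u, ε * Real.exp (-s₀) * Real.exp (-u) = ε * Real.exp (-(u + s₀)) := fun u => by
    rw [neg_add, Real.exp_add]
    ring
  have h2 := H.isoM_back hX (h.isLS_tm (-s₀)) h1 (O := {x | ∀ u ≥ 0, H.Φ (-u) x ∉ base X})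
    (fun u hu x hx v hv => by
      rw [← H.Φ_add, ← neg_add]
      exact hx _ (add_nonneg hv hu))
    (fun x hx u hu => disjoint_right.1 (h0 (u + s₀) (by linarith)).1 (by
      rw [← e1, MVan_base_tm]
      exact mem_image_of_mem _ hx))
    (fun x hx u hu => disjoint_right.1 (h0 (u + s₀) (by linarith)).2.1
      (e2 u ▸ MVan_Y_flow _ (-u) hx))
    (h0 s₀ le_rfl).2.2
    (disjoint_left.2 fun x hx hx' => hx' 0 le_rfl (by rwa [neg_zero, H.Φ_zero]))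
    hd (h.off_tm _) (sub_nonneg.2 hs)
  rw [e1, e2, sub_add_cancel] at h2
  unfold HD.val
  rw [H.zv_isoM h2]

theorem MVan_Inner.thin (h : H.MVan_Inner ρ R ε J) {E : EvSys ι (ℕ × (ι → ℕ))}
    {X₀ X₁ : Set (TM M)} (hX : H.ThinEq E ∅ X₀ X₁) : ∀ᶠ s in atTop, ∀ t,
      H.val E t (H.tot (X₀ ∪ tm (H.Φ (-s)) '' J) (ε * Real.exp (-s))) =
        H.val E t (H.tot (X₁ ∪ tm (H.Φ (-s)) '' J) (ε * Real.exp (-s))) := by
  obtain ⟨ρ', h3, h4⟩ := (hX.and self_mem_nhdsWithin).exists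
  obtain ⟨R', h5, h6⟩ := ((H.eventually_back h.hε h.hR h.hεR h.sub h.cyl h4).and h3).exists
  filter_upwards [h5, (MVan_tendsto h.hε).eventually h6] with s a b
  exact b _ (h.isLS_tm _) (h.off_tm _) (a.1.trans subset_union_right) a.2

theorem MVan_Inner.exists_lam (h : H.MVan_Inner ρ R ε J) {E : EvSys ι (ℕ × (ι → ℕ))}
    (hE : AFacts E) : ∃ lam : ℕ → FramedLink M → ℂ, ∀ (L : FramedLink M) (S : Set (TM M))
      (Q : ℝ → M → M), IsoIn univ L.1 S → AmbIso Q → Disjoint (base (tm (Q 1) '' S)) H.gs →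
      ∀ᶠ s in atTop, ∀ t, H.val E t (H.tot (tm (Q 1) '' S ∪ tm (H.Φ (-s)) '' J)
        (ε * Real.exp (-s))) = lam t L := by
  have h1 : ∀ L : FramedLink M, ∃ (Q : ℝ → M → M) (c : ℕ → ℂ), AmbIso Q ∧
      Disjoint (base (tm (Q 1) '' L.1)) H.gs ∧ ∀ᶠ s in atTop, ∀ t,
        H.val E t (H.tot (tm (Q 1) '' L.1 ∪ tm (H.Φ (-s)) '' J) (ε * Real.exp (-s))) = c t :=
    fun L => by
      have hL : IsLS L.1 := isLS_iff.2 ⟨L, rfl⟩
      obtain ⟨Q, hQ, -, h2⟩ := H.MVan_pert hL isCompact_empty (empty_disjoint _)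
      obtain ⟨c, hc⟩ := h.const E (MVan_isLS hQ hL) h2
      exact ⟨Q, c, hQ, h2, hc⟩
  choose Q c hQ hd hc using h1
  refine ⟨fun t L => c L t, fun L S Q' hS hQ' hd' => ?_⟩
  have h2 := H.cross hE isClosed_empty (by rw [compl_empty]; exact hS.amb (hQ L) hQ') (hd L) hd'
  filter_upwards [h.thin h2, hc L] with s a b t
  rw [← a, b]

omit [T2Space M] [IsManifold (𝓡 3) ∞ M] [Fintype ι] [DecidableEq ι] [Fintype Vx] in
theorem MVan_off {ψ : E3 → M} (hψ : MapsTo ψ (Metric.ball 0 3) H.gsᶜ) {X X₀ : Set (TM M)}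
    (o : outside ψ X₀ = outside ψ X) (hd : Disjoint (base X) H.gs) :
    Disjoint (base X₀) H.gs := by
  rw [disjoint_left]
  rintro _ ⟨x, hx, rfl⟩
  by_cases h1 : x.proj ∈ ψ '' Metric.ball 0 2
  · obtain ⟨p, hp, e⟩ := h1
    have h2 := hψ (Metric.ball_subset_ball (by norm_num) hp)
    rwa [e] at h2
  · exact disjoint_left.1 hd ⟨x, (o.le ⟨hx, h1⟩).1, rfl⟩

omit [DecidableEq ι] in
theorem MVan_Inner.far_box (h : H.MVan_Inner ρ R ε J) {ψ : E3 → M} (hc : Continuous ψ)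
    (hψ : MapsTo ψ (Metric.ball 0 3) H.gsᶜ) :
    ∀ᶠ s in atTop, Disjoint (ψ '' Qb (9 / 8)) (base (tm (H.Φ (-s)) '' J)) ∧
      Disjoint (ψ '' Qb (9 / 8)) (lbase (H.Y (ε * Real.exp (-s)))) := by
  have h1 : ψ '' Qb (9 / 8) ⊆ ψ '' Metric.closedBall 0 2 :=
    image_mono ((MVan_Qb_ball (by norm_num) two_pos).trans Metric.ball_subset_closedBall)
  filter_upwards [h.far ((isCompact_closedBall (0 : E3) 2).image hc) (disjoint_left.2 (by
    rintro _ ⟨p, hp, rfl⟩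
    exact hψ (Metric.closedBall_subset_ball (by norm_num) hp)))] with s a
  exact ⟨a.1.mono_left h1, a.2.1.mono_left h1⟩

end HD

theorem HD.van (H : HD M ι Vx) {E : EvSys ι (ℕ × (ι → ℕ))} (hE : AFacts E)
    [Subsingleton (Skein M)] : H.Van E := by
  intro ρ R ε J X hε hR hεR hJ hJg hJs hJc hX hXg
  have h : H.MVan_Inner ρ R ε J := ⟨hε, hR, hεR, hJ, hJg, hJs, hJc⟩
  obtain ⟨lam, hl⟩ := h.exists_lam hE
  have hLS : ∀ L : FramedLink M, IsLS L.1 := fun L => isLS_iff.2 ⟨L, rfl⟩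
  have hb : Qb (5 / 4) ⊆ Metric.ball (0 : E3) 3 := MVan_Qb_ball (by norm_num) three_pos
  obtain ⟨L, rfl⟩ := isLS_iff.1 hX
  have e : tm ((fun _ : ℝ => (id : M → M)) 1) '' L.1 = L.1 := by
    rw [image_congr fun x _ => tm_id x, image_id']
  have h1 := hl L L.1 _ (MVan_refl hX) MVan_ambId (e.symm ▸ hXg)
  rw [e] at h1
  have h2 : ∀ᶠ t in atTop, lam t L = 0 := by
    refine eventually_zero (SkeinRel (M := M)) lam (fun x hx => ?_) L
    cases hx with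
    | isotopy L L' hL =>
      obtain ⟨Q, hQ, -, hd⟩ := H.MVan_pert (hLS L') isCompact_empty (empty_disjoint _)
      obtain ⟨s, a, b⟩ :=
        ((hl L _ Q hL.isoIn hQ hd).and (hl L' _ Q (MVan_refl (hLS L')) hQ hd)).exists
      exact Or.inl ⟨L, L', rfl, Eventually.of_forall fun t => (a t).symm.trans (b t)⟩
    | skein φ L L₀ L₁ hφ i i₀ i₁ o₀ o₁ =>
      obtain ⟨Q, hQ, hg, hd⟩ := H.MVan_box hφ (hLS L)
      have hψ := MVan_posEmb hQ hφ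
      have j := MVan_inside hQ hφ i
      have j₀ := MVan_inside hQ hφ i₀
      have j₁ := MVan_inside hQ hφ i₁
      have p₀ : outside (Q 1 ∘ φ) (tm (Q 1) '' L₀.1) = outside (Q 1 ∘ φ) (tm (Q 1) '' L.1) := by
        rw [MVan_outside hQ, MVan_outside hQ, o₀]
      have p₁ : outside (Q 1 ∘ φ) (tm (Q 1) '' L₁.1) = outside (Q 1 ∘ φ) (tm (Q 1) '' L.1) := by
        rw [MVan_outside hQ, MVan_outside hQ, o₁]
      have hd₀ := HD.MVan_off hg p₀ hd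
      have hd₁ := HD.MVan_off hg p₁ hd
      obtain ⟨s, ⟨⟨a, a₀⟩, a₁⟩, ⟨⟨b, b₀⟩, b₁⟩, c⟩ :=
        ((((hl L _ Q (MVan_refl (hLS L)) hQ hd).and (hl L₀ _ Q (MVan_refl (hLS L₀)) hQ hd₀)).and
          (hl L₁ _ Q (MVan_refl (hLS L₁)) hQ hd₁)).and
          ((((h.isLM (MVan_isLS hQ (hLS L)) hd).and (h.isLM (MVan_isLS hQ (hLS L₀)) hd₀)).and
            (h.isLM (MVan_isLS hQ (hLS L₁)) hd₁)).and
            (h.far_box hψ.smooth.continuous hg))).exists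
      refine Or.inr (Or.inl ⟨L, L₀, L₁, rfl, Eventually.of_forall fun t => ?_⟩)
      rw [← a, ← a₀, ← a₁]
      exact H.m_skein hE (hψ.mPosOn.mono (subset_univ _)) (hg.mono_left hb) b.1 b₀.1 b₁.1 b.2
        (H.MVan_mIns hψ.inj j c.1 c.2) (H.MVan_mIns hψ.inj j₀ c.1 c.2)
        (H.MVan_mIns hψ.inj j₁ c.1 c.2) (H.MVan_mOut j j₀ p₀ MVan_sm₀ _ _)
        (H.MVan_mOut j j₁ p₁ MVan_sm₁ _ _) t
    | loop φ L L₀ hφ i i₀ o₀ =>
      obtain ⟨Q, hQ, hg, hd⟩ := H.MVan_box hφ (hLS L)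
      have hψ := MVan_posEmb hQ hφ
      have j := MVan_inside hQ hφ i
      have j₀ := MVan_inside hQ hφ i₀
      have p₀ : outside (Q 1 ∘ φ) (tm (Q 1) '' L₀.1) = outside (Q 1 ∘ φ) (tm (Q 1) '' L.1) := by
        rw [MVan_outside hQ, MVan_outside hQ, o₀]
      have hd₀ := HD.MVan_off hg p₀ hd
      obtain ⟨s, ⟨a, a₀⟩, ⟨b, b₀⟩, c⟩ :=
        (((hl L _ Q (MVan_refl (hLS L)) hQ hd).and (hl L₀ _ Q (MVan_refl (hLS L₀)) hQ hd₀)).and
          (((h.isLM (MVan_isLS hQ (hLS L)) hd).and (h.isLM (MVan_isLS hQ (hLS L₀)) hd₀)).and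
            (h.far_box hψ.smooth.continuous hg))).exists
      refine Or.inr (Or.inr ⟨L, L₀, rfl, Eventually.of_forall fun t => ?_⟩)
      rw [← a, ← a₀]
      have e₀ : (nn ∅ : Pic ι) = ∅ := prod_empty
      exact H.m_loop hE (hψ.mPosOn.mono (subset_univ _)) (hg.mono_left hb) b.1 b₀.1 b.2
        (H.MVan_mIns hψ.inj j c.1 c.2) (e₀ ▸ H.MVan_mIns hψ.inj j₀ c.1 c.2)
        (H.MVan_mOut j j₀ p₀ MVan_unknot _ _) t
  filter_upwards [h2] with t ht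
  filter_upwards [h1] with s hs
  rw [hs, ht]

end Pool.Agent.P.MP_ac4909_gt.B
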