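import Mathlib

/-!
The Kauffman bracket skein module over `ℚ(A)` of a smooth oriented 3-manifold: smooth framed
links, isotopy, and the two Kauffman relations in positively embedded balls.
-/

namespace Pool.Agent.P.MP_ac4909_gt.B

open scoped Manifold ContDiff
open Set Metric

abbrev E3 : Type := EuclideanSpace ℝ (Fin 3)

/-- the vertical unit vector -/
noncomputable def ez : E3 := !₂[0, 0, 1]

/-- All transition maps of the atlas have positive Jacobian determinant. -/
def OrientedAtlas (M : Type*) [TopologicalSpace M] [ChartedSpace E3 M] : Prop :=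
  ∀ e ∈ atlas E3 M, ∀ e' ∈ atlas E3 M, ∀ x ∈ (e.symm ≫ₕ e').source,
    0 < (fderiv ℝ (e.symm ≫ₕ e') x).det

/-- the tangent bundle -/
abbrev TM (M : Type*) [TopologicalSpace M] [ChartedSpace E3 M] := TangentBundle (𝓡 3) M

variable {M N : Type*} [TopologicalSpace M] [ChartedSpace E3 M] [TopologicalSpace N]
  [ChartedSpace E3 N]

/-- the differential of `f` at `x`, in the charts of the atlases at `x` and `f x` -/
noncomputable def jac (f : M → N) (x : M) : E3 →L[ℝ] E3 := mfderiv (𝓡 3) (𝓡 3) f x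

/-- the velocity of a curve -/
noncomputable def vel (γ : ℝ → M) (t : ℝ) : E3 := mfderiv 𝓘(ℝ, ℝ) (𝓡 3) γ t (1 : ℝ)

/-- the union of the traces of a family of curves -/
def trace {κ X : Type*} (Γ : κ → ℝ → X) : Set X := ⋃ c, range (Γ c)

/-- smooth odd step: `-1` for `t ≤ -1/2` and `1` for `t ≥ 1/2` -/
noncomputable def st (t : ℝ) : ℝ := 2 * Real.smoothTransition (t + 1 / 2) - 1

/-- smooth positive function equal to `|t|` for `|t| ≥ 1/2` -/
noncomputable def sab (t : ℝ) : ℝ := √(t ^ 2 + (1 - st t ^ 2) / 16)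

/-- two skew lines; seen from above, the upper one runs from lower left to upper right -/
def crossing : Set E3 :=
  range (fun t : ℝ => !₂[t / 2, t, 1 / 2]) ∪ range fun t : ℝ => !₂[-t / 2, t, -1 / 2]

/-- the smoothing `)(` of the crossing -/
def smoothing₀ : Set E3 :=
  range (fun t : ℝ => !₂[-sab t / 2, t, -st t / 2]) ∪
    range fun t : ℝ => !₂[sab t / 2, t, st t / 2]

/-- the other smoothing of the crossing -/
def smoothing₁ : Set E3 :=
  range (fun t : ℝ => !₂[t / 2, -sab t, -st t / 2]) ∪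
    range fun t : ℝ => !₂[t / 2, sab t, st t / 2]

/-- a round horizontal circle -/
def unknot : Set E3 := range fun t : ℝ => !₂[Real.cos t / 2, Real.sin t / 2, 0]

/-- a smooth orientation preserving embedding of `ℝ³` -/
structure PosEmb (φ : E3 → M) : Prop where
  smooth : ContMDiff (𝓡 3) (𝓡 3) ∞ φ
  inj : Function.Injective φ
  pos : ∀ p, 0 < (jac φ p).det

/-- Over the ball `φ(B(0,2))`, `S` is the image of the picture `P` with the vertical framing. -/
def Inside (φ : E3 → M) (S : Set (TM M)) (P : Set E3) : Prop :=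
  {x ∈ S | x.proj ∈ φ '' ball 0 2} = (fun p => (⟨φ p, jac φ p ez⟩ : TM M)) '' (P ∩ ball 0 2)

/-- the part of `S` outside the ball `φ(B(0,2))` -/
def outside (φ : E3 → M) (S : Set (TM M)) : Set (TM M) := {x ∈ S | x.proj ∉ φ '' ball 0 2}

variable [IsManifold (𝓡 3) ∞ M]

/-- Disjoint smoothly embedded circles `ℝ/ℤ → M`, each with a smooth vector field along it that
is nowhere tangent to it. -/
structure IsLink {κ : Type} (Γ : κ → ℝ → TM M) : Prop where
  smooth : ∀ c, ContMDiff 𝓘(ℝ, ℝ) (𝓡 3).tangent ∞ (Γ c)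
  per : ∀ c t, Γ c (t + 1) = Γ c t
  inj : ∀ c c' s t, (Γ c s).proj = (Γ c' t).proj → c = c' ∧ ∃ k : ℤ, t = s + k
  indep : ∀ c t, LinearIndependent ℝ ![vel (fun u => (Γ c u).proj) t, ((Γ c t).snd : E3)]

/-- Framed links (unoriented, with unordered components): the sets of framing vectors. -/
def FramedLink (M : Type*) [TopologicalSpace M] [ChartedSpace E3 M] [IsManifold (𝓡 3) ∞ M] :=
  {S : Set (TM M) // ∃ (n : ℕ) (Γ : Fin n → ℝ → TM M), IsLink Γ ∧ S = trace Γ}

/-- smooth isotopy through framed links -/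
def Isotopic (S S' : Set (TM M)) : Prop :=
  ∃ (n : ℕ) (H : ℝ → Fin n → ℝ → TM M),
    (∀ c, ContMDiff 𝓘(ℝ, ℝ × ℝ) (𝓡 3).tangent ∞ fun p : ℝ × ℝ => H p.1 c p.2) ∧
    (∀ s ∈ Icc (0 : ℝ) 1, IsLink (H s)) ∧ S = trace (H 0) ∧ S' = trace (H 1)

open Finsupp RatFunc in
/-- isotopy and the two Kauffman bracket skein relations -/
inductive SkeinRel : (FramedLink M →₀ RatFunc ℚ) → Prop
  | isotopy (L L' : FramedLink M) : Isotopic L.1 L'.1 → SkeinRel (single L 1 - single L' 1)
  | skein (φ : E3 → M) (L L₀ L₁ : FramedLink M) : PosEmb φ →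
      Inside φ L.1 crossing → Inside φ L₀.1 smoothing₀ → Inside φ L₁.1 smoothing₁ →
      outside φ L₀.1 = outside φ L.1 → outside φ L₁.1 = outside φ L.1 →
      SkeinRel (single L 1 - single L₀ X - single L₁ X⁻¹)
  | loop (φ : E3 → M) (L L₀ : FramedLink M) : PosEmb φ →
      Inside φ L.1 unknot → Inside φ L₀.1 ∅ → outside φ L₀.1 = outside φ L.1 →
      SkeinRel (single L 1 - single L₀ (-X ^ 2 - X⁻¹ ^ 2))

/-- The Kauffman bracket skein module `S(M; ℚ(A))`. -/
abbrev Skein (M : Type*) [TopologicalSpace M] [ChartedSpace E3 M] [IsManifold (𝓡 3) ∞ M] :=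
  (FramedLink M →₀ RatFunc ℚ) ⧸ Submodule.span (RatFunc ℚ) {x | SkeinRel (M := M) x}

end Pool.Agent.P.MP_ac4909_gt.B
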