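import Pool.Agent.P.MP_ac4909_gt.B.WCell_XS

/-! Exchange of two consecutive rows, on the level of lists of cells. -/

namespace Pool.Agent.P.MP_ac4909_gt.B

open Rev

namespace WC

variable {α : Type}

/-- What two consecutive rows `e`, `f` see of a column: it passes both, it is an end of `e` only,
of `f` only, or of both. -/
inductive DC (α : Type) where
  | thru (x : α) (o o' : Bool)
  | ee (a : α) (u : Bool)
  | ef (b : α) (u : Bool)
  | sh (x : α)

/-- row `e`, below `f` -/
def c1e : DC α → Option (Cell α)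
  | .thru x o _ => some (.thru x o)
  | .ee a u => some (.fin a u)
  | .ef _ true => none
  | .ef b false => some (.thru b true)
  | .sh x => some (.fin x true)

/-- row `f`, above `e` -/
def c1f : DC α → Option (Cell α)
  | .thru x _ o => some (.thru x o)
  | .ee a true => some (.thru a false)
  | .ee _ false => none
  | .ef b u => some (.fin b u)
  | .sh x => some (.fin x false)

/-- row `f`, below `e` -/
def c2f [Rev α] : DC α → Option (Cell α)
  | .thru x _ o => some (.thru x o)
  | .ee _ true => none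
  | .ee a false => some (.thru a false)
  | .ef b u => some (.fin b u)
  | .sh x => some (.fin (rev x) true)

/-- row `e`, above `f` -/
def c2e [Rev α] : DC α → Option (Cell α)
  | .thru x o _ => some (.thru x o)
  | .ee a u => some (.fin a u)
  | .ef b true => some (.thru b true)
  | .ef _ false => none
  | .sh x => some (.fin (rev x) false)

def DC.isT : DC α → Bool
  | .thru _ _ _ => true
  | _ => false

def DC.isE : DC α → Bool
  | .ee _ _ => true
  | _ => false

def DC.isF : DC α → Bool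
  | .ef _ _ => true
  | _ => false

/-- not shared, and a column over `f` is over `e` -/
def DC.Good : DC α → Prop
  | .thru _ o o' => o' = true → o = true
  | .sh _ => False
  | _ => True

theorem fm_four {β : Type} (c : β → Option (Cell α)) (A B : List β) (d d' : β) :
    (A ++ d :: d' :: B).filterMap c =
      A.filterMap c ++ (c d).toList ++ (c d').toList ++ B.filterMap c := by
  cases h : c d <;> cases h' : c d' <;> simp [h, h']

theorem bel_fm {β : Type} (c : β → Option (Cell α)) (A : List β) :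
    bel (A.filterMap c) = A.filterMap fun d => (c d).bind be := List.filterMap_filterMap

theorem abv_fm {β : Type} (c : β → Option (Cell α)) (A : List β) :
    abv (A.filterMap c) = A.filterMap fun d => (c d).bind ab := List.filterMap_filterMap

theorem abv_eq_bel {A : List (Cell α)} (h : fins A = []) : abv A = bel A := by
  obtain ⟨L, rfl⟩ := thru_of_fi h
  simp

theorem mid1 (d : DC α) : (c1e d).bind ab = (c1f d).bind be := by
  rcases d with _ | ⟨_, _ | _⟩ | ⟨_, _ | _⟩ | _ <;> rfl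

variable [Rev α] {fa : Bool}

theorem mid2 (d : DC α) : (c2f d).bind ab = (c2e d).bind be := by
  rcases d with _ | ⟨_, _ | _⟩ | ⟨_, _ | _⟩ | _ <;> rfl

theorem low12 (d : DC α) : (c1e d).bind be = (c2f d).bind be := by
  rcases d with _ | ⟨_, _ | _⟩ | ⟨_, _ | _⟩ | _ <;> rfl

theorem top12 (d : DC α) : (c1f d).bind ab = (c2e d).bind ab := by
  rcases d with _ | ⟨_, _ | _⟩ | ⟨_, _ | _⟩ | _ <;> rfl

theorem sq_comp {ρ₀ ρ₁ ρ₁' ρ₂' : List α} {E₁ E₂ E₁' E₂' σ₀ σ₁ σ₂ : List (Sl α)}
    (h₁ : Eqv fa ρ₀ ρ₁' (E₁ ++ σ₁) (σ₀ ++ E₁')) (h₂ : Eqv fa ρ₁ ρ₂' (E₂ ++ σ₂) (σ₁ ++ E₂'))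
    (r₁ : Run ρ₀ E₁ ρ₁) (r₂ : Run ρ₁' E₂' ρ₂') :
    Eqv fa ρ₀ ρ₂' (E₁ ++ E₂ ++ σ₂) (σ₀ ++ (E₁' ++ E₂')) := by
  have h3 := (Eqv.refl (fa := fa) r₁).append h₂
  have h4 := h₁.append (Eqv.refl r₂)
  simp only [List.append_assoc] at h3 h4 ⊢
  exact h3.trans h4

theorem sq_two {β : Type} (c c' : β → Option (Cell α)) (hm : ∀ d, (c d).bind ab = (c' d).bind be)
    {A B : List β} {d d' : β} {s : Bool} (w : WF ((A ++ d :: d' :: B).filterMap c))
    (w' : WF ((A ++ d :: d' :: B).filterMap c')) (o : Ok fa (c d) (c d') s)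
    (o' : Ok fa (c' d) (c' d') s) :
    Eqv fa (bel ((A ++ d :: d' :: B).filterMap c)) (abv ((A ++ d' :: d :: B).filterMap c'))
      (evOf ((A ++ d :: d' :: B).filterMap c) ++ evOf ((A ++ d :: d' :: B).filterMap c') ++
        sig (abv (A.filterMap c')) ((c' d).bind ab) ((c' d').bind ab) s (abv (B.filterMap c')))
      (sig (bel (A.filterMap c)) ((c d).bind be) ((c d').bind be) s (bel (B.filterMap c)) ++
        (evOf ((A ++ d' :: d :: B).filterMap c) ++ evOf ((A ++ d' :: d :: B).filterMap c'))) := by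
  have hl : ∀ L : List β, abv (L.filterMap c) = bel (L.filterMap c') := fun L => by
    rw [abv_fm, bel_fm, funext hm]
  have r₁ := run_evOf w
  rw [fm_four] at w w'
  have r₂ := run_evOf w'.swap
  have h₁ := xs w o
  have h₂ := xs w' o'
  unfold XS at h₁ h₂
  rw [← fm_four, ← fm_four] at h₁ h₂
  rw [← fm_four] at r₂
  rw [hl, hl, hl, hm, hm] at h₁
  rw [hl] at r₁
  exact sq_comp h₁ h₂ r₁ r₂

/-- the four lists of cells are well formed -/
def W4 (ds : List (DC α)) : Prop :=
  WF (ds.filterMap c1e) ∧ WF (ds.filterMap c1f) ∧ WF (ds.filterMap c2f) ∧ WF (ds.filterMap c2e)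

/-- the two rows commute -/
def PP (fa : Bool) (ds : List (DC α)) : Prop :=
  Eqv fa (bel (ds.filterMap c1e)) (abv (ds.filterMap c1f))
    (evOf (ds.filterMap c1e) ++ evOf (ds.filterMap c1f))
    (evOf (ds.filterMap c2f) ++ evOf (ds.filterMap c2e))

def QQ (fa : Bool) (ds : List (DC α)) : Prop := W4 ds → PP fa ds

/-- the columns may be exchanged -/
def Sw (fa : Bool) (d d' : DC α) : Prop :=
  ∃ s, Ok fa (c1e d) (c1e d') s ∧ Ok fa (c1f d) (c1f d') s ∧ Ok fa (c2f d) (c2f d') s ∧
    Ok fa (c2e d) (c2e d') s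

theorem l_mid1 (L : List (DC α)) : abv (L.filterMap c1e) = bel (L.filterMap c1f) := by
  rw [abv_fm, bel_fm, funext mid1]

theorem l_mid2 (L : List (DC α)) : abv (L.filterMap c2f) = bel (L.filterMap c2e) := by
  rw [abv_fm, bel_fm, funext mid2]

theorem l_low (L : List (DC α)) : bel (L.filterMap c2f) = bel (L.filterMap c1e) := by
  rw [bel_fm, bel_fm, funext low12]

theorem l_top (L : List (DC α)) : abv (L.filterMap c2e) = abv (L.filterMap c1f) := by
  rw [abv_fm, abv_fm, funext top12]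

theorem W4.run₁ {ds : List (DC α)} (h : W4 ds) :
    Run (bel (ds.filterMap c1e)) (evOf (ds.filterMap c1e) ++ evOf (ds.filterMap c1f))
      (abv (ds.filterMap c1f)) :=
  run_append.2 ⟨_, run_evOf h.1, l_mid1 ds ▸ run_evOf h.2.1⟩

theorem W4.run₂ {ds : List (DC α)} (h : W4 ds) :
    Run (bel (ds.filterMap c1e)) (evOf (ds.filterMap c2f) ++ evOf (ds.filterMap c2e))
      (abv (ds.filterMap c1f)) := by
  rw [← l_low, ← l_top]
  exact run_append.2 ⟨_, run_evOf h.2.2.1, l_mid2 ds ▸ run_evOf h.2.2.2⟩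

theorem QQ.swap {A B : List (DC α)} {d d' : DC α} (hs : Sw fa d d')
    (h : QQ fa (A ++ d' :: d :: B)) : QQ fa (A ++ d :: d' :: B) := by
  intro w
  obtain ⟨s, o₁, o₂, o₃, o₄⟩ := hs
  have hw : ∀ c : DC α → Option (Cell α), WF ((A ++ d :: d' :: B).filterMap c) →
      WF ((A ++ d' :: d :: B).filterMap c) := fun c hc => by
    rw [fm_four] at hc ⊢
    exact hc.swap
  have hp := h ⟨hw _ w.1, hw _ w.2.1, hw _ w.2.2.1, hw _ w.2.2.2⟩
  have h1 := sq_two c1e c1f mid1 w.1 w.2.1 o₁ o₂
  have h2 := sq_two c2f c2e mid2 w.2.2.1 w.2.2.2 o₃ o₄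
  rw [l_low, l_low, l_low, l_top, l_top, l_top, ← low12, ← low12, ← top12, ← top12] at h2
  have rb := run_sig (bel (A.filterMap c1e)) (bel (B.filterMap c1e)) ((c1e d).bind be)
    ((c1e d').bind be) s
  rw [← bel_four, ← bel_four, ← fm_four, ← fm_four] at rb
  have h3 := h1.trans (((Eqv.refl rb).append hp).trans h2.symm)
  have ra := run_sig (abv (A.filterMap c1f)) (abv (B.filterMap c1f)) ((c1f d').bind ab)
    ((c1f d).bind ab) (!s)
  have hi := sig_inv (fa := fa) (abv (A.filterMap c1f)) (abv (B.filterMap c1f)) ((c1f d).bind ab)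
    ((c1f d').bind ab) s
  rw [← abv_four, ← abv_four, ← fm_four, ← fm_four] at ra
  rw [← abv_four, ← fm_four] at hi
  have h4 := h3.append (Eqv.refl ra)
  have h5 := (Eqv.refl (fa := fa) w.run₁).append hi
  have h6 := (Eqv.refl (fa := fa) w.run₂).append hi
  simp only [List.append_assoc, List.append_nil] at h4 h5 h6
  exact h5.symm.trans (h4.trans h6)

theorem QQ.move {d : DC α} {T : List (DC α)} (hs : ∀ t ∈ T, Sw fa d t) (A B : List (DC α))
    (h : QQ fa (A ++ T ++ d :: B)) : QQ fa (A ++ d :: (T ++ B)) := by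
  induction T generalizing A with
  | nil => simpa using h
  | cons t T ih =>
    refine QQ.swap (hs t List.mem_cons_self) ?_
    have h1 := ih (fun t' ht => hs t' (List.mem_cons_of_mem _ ht)) (A ++ [t]) (by simpa using h)
    simpa using h1

theorem QQ.part (p : DC α → Bool) {ds : List (DC α)}
    (hs : ∀ d ∈ ds, ∀ t ∈ ds, p d = false → p t = true → Sw fa d t) (A B : List (DC α))
    (h : QQ fa (A ++ ds.filter p ++ ds.filter (fun d => !p d) ++ B)) : QQ fa (A ++ ds ++ B) := by
  induction ds generalizing A with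
  | nil => simpa using h
  | cons d ds ih =>
    have ih' := ih (fun x hx t ht => hs x (List.mem_cons_of_mem _ hx) t (List.mem_cons_of_mem _ ht))
      (A ++ [d])
    cases hd : p d
    · have h1 := QQ.move (fa := fa) (d := d) (T := ds.filter p) (fun t ht =>
        hs d List.mem_cons_self t (List.mem_cons_of_mem _ (List.mem_filter.1 ht).1) hd
          (List.mem_filter.1 ht).2) A (ds.filter (fun d => !p d) ++ B) (by simpa [hd] using h)
      simpa using ih' (by simpa using h1)
    · simpa using ih' (by simpa [hd] using h)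

theorem evOf_pad {A B cs : List (Cell α)} (hA : fins A = []) (hB : fins B = []) (h : WF cs) :
    evOf (A ++ cs ++ B) = (evOf cs).map (pad (bel A) (bel B)) := by
  obtain ⟨a, u, b, u', h1, -⟩ := h
  obtain ⟨L, M, R, rfl⟩ := split_two h1
  obtain ⟨L', rfl⟩ := thru_of_fi hA
  obtain ⟨R', rfl⟩ := thru_of_fi hB
  have e := evOf_eq (L' ++ L) M (R ++ R') a b u u'
  rw [evOf_eq, ← event_pad]
  simpa using e

theorem fins_isT {L : List (DC α)} (h : ∀ d ∈ L, d.isT = true) :
    fins (L.filterMap c1e) = [] ∧ fins (L.filterMap c1f) = [] ∧ fins (L.filterMap c2f) = [] ∧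
      fins (L.filterMap c2e) = [] := by
  induction L with
  | nil => exact ⟨rfl, rfl, rfl, rfl⟩
  | cons d L ih =>
    have h1 := h d List.mem_cons_self
    cases d with
    | thru x o o' => exact ih fun t ht => h t (List.mem_cons_of_mem _ ht)
    | ee => cases h1
    | ef => cases h1
    | sh => cases h1

theorem QQ.pad {L S R : List (DC α)} (hL : ∀ d ∈ L, d.isT = true) (hR : ∀ d ∈ R, d.isT = true)
    (h : QQ fa S) : QQ fa (L ++ S ++ R) := by
  intro w
  obtain ⟨l₁, l₂, l₃, l₄⟩ := fins_isT hL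
  obtain ⟨r₁, r₂, r₃, r₄⟩ := fins_isT hR
  have hw : ∀ c : DC α → Option (Cell α), fins (L.filterMap c) = [] → fins (R.filterMap c) = [] →
      WF ((L ++ S ++ R).filterMap c) → WF (S.filterMap c) := by
    rintro c e e' ⟨a, u, b, u', h1, h2⟩
    exact ⟨a, u, b, u', by simpa [e, e'] using h1, h2⟩
  have w' : W4 S := ⟨hw _ l₁ r₁ w.1, hw _ l₂ r₂ w.2.1, hw _ l₃ r₃ w.2.2.1, hw _ l₄ r₄ w.2.2.2⟩
  have h1 := (h w').pad (bel (L.filterMap c1e)) (bel (R.filterMap c1e))
  have e₂ : ∀ L : List (DC α), fins (L.filterMap c1e) = [] →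
      bel (L.filterMap c1f) = bel (L.filterMap c1e) := fun L e => by
    rw [← l_mid1, abv_eq_bel e]
  have e₄ : ∀ L : List (DC α), fins (L.filterMap c2f) = [] →
      bel (L.filterMap c2e) = bel (L.filterMap c1e) := fun L e => by
    rw [← l_mid2, abv_eq_bel e, l_low]
  unfold PP
  simp only [List.filterMap_append]
  rw [evOf_pad l₁ r₁ w'.1, evOf_pad l₂ r₂ w'.2.1, evOf_pad l₃ r₃ w'.2.2.1, evOf_pad l₄ r₄ w'.2.2.2,
    bel_append, bel_append, abv_append, abv_append, abv_eq_bel l₂, abv_eq_bel r₂, e₂ L l₁, e₂ R r₁,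
    e₄ L l₃, e₄ R r₃, l_low, l_low, ← List.map_append, ← List.map_append]
  exact h1

theorem QQ.of_rw {ds : List (DC α)}
    (h : W4 ds → Rw fa (evOf (ds.filterMap c1e) ++ evOf (ds.filterMap c1f))
      (evOf (ds.filterMap c2f) ++ evOf (ds.filterMap c2e)) ∨
      Rw fa (evOf (ds.filterMap c2f) ++ evOf (ds.filterMap c2e))
        (evOf (ds.filterMap c1e) ++ evOf (ds.filterMap c1f))) : QQ fa ds := fun w =>
  (h w).elim (fun h => h _ _ w.run₁) fun h => (h _ _ w.run₂).symm

theorem sw_T {d t : DC α} (hd : d.Good) (ht : t.Good) (h : d.isT = false) (h' : t.isT = true) :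
    Sw fa d t ∧ Sw fa t d := by
  rcases t with ⟨x, o, o'⟩ | _ | _ | _
  · rcases d with _ | ⟨a, u⟩ | ⟨b, u⟩ | _
    · cases h
    · refine ⟨⟨!o, ?_⟩, ⟨o, ?_⟩⟩ <;> revert ht <;> cases u <;> cases o <;> cases o' <;>
        simp [c1e, c1f, c2f, c2e, Ok, DC.Good]
    · refine ⟨⟨!o', ?_⟩, ⟨o', ?_⟩⟩ <;> revert ht <;> cases u <;> cases o <;> cases o' <;>
        simp [c1e, c1f, c2f, c2e, Ok, DC.Good]
    · exact hd.elim
  all_goals cases h'

theorem sw_E {d t : DC α} (hd : d.Good) (h : d.isT = false) (h' : d.isE = false)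
    (ht : t.isE = true) : Sw fa d t := by
  rcases t with _ | ⟨a, u⟩ | _ | _
  · cases ht
  · rcases d with _ | _ | ⟨b, v⟩ | _
    · cases h
    · cases h'
    · refine ⟨true, ?_⟩
      cases u <;> cases v <;> simp [c1e, c1f, c2f, c2e, Ok]
    · exact hd.elim
  all_goals cases ht

abbrev ee' : α × Bool → DC α := fun x => .ee x.1 x.2

abbrev ef' : α × Bool → DC α := fun x => .ef x.1 x.2

theorem fins_ee (E : List (α × Bool)) :
    fins ((E.map ee').filterMap c1e) = E ∧ fins ((E.map ee').filterMap c1f) = [] := by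
  induction E with
  | nil => exact ⟨rfl, rfl⟩
  | cons x E ih =>
    obtain ⟨a, _ | _⟩ := x
    · exact ⟨congrArg (List.cons _) ih.1, ih.2⟩
    · exact ⟨congrArg (List.cons _) ih.1, ih.2⟩

theorem fins_ef (E : List (α × Bool)) :
    fins ((E.map ef').filterMap c1e) = [] ∧ fins ((E.map ef').filterMap c1f) = E := by
  induction E with
  | nil => exact ⟨rfl, rfl⟩
  | cons x E ih =>
    obtain ⟨a, _ | _⟩ := x
    · exact ⟨ih.1, congrArg (List.cons _) ih.2⟩
    · exact ⟨ih.1, congrArg (List.cons _) ih.2⟩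

/-- Sorting of a block of columns without shared column: first those passing both rows, then the
ends of `e`, then the ends of `f`. -/
theorem sort_ends {ds : List (DC α)} (hg : ∀ d ∈ ds, d.Good) (hT : ∀ d ∈ ds, d.isT = false) :
    ∃ E F : List (α × Bool), ((∀ d ∈ ds, d.isE = false) → E = []) ∧
      ((∀ d ∈ ds, d.isF = false) → F = []) ∧
      ∀ A B, QQ fa (A ++ (E.map ee' ++ F.map ef') ++ B) → QQ fa (A ++ ds ++ B) := by
  have h1 : ∀ L : List (DC α), (∀ d ∈ L, d.isE = true) → ∃ E : List (α × Bool), L = E.map ee' := by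
    intro L hL
    induction L with
    | nil => exact ⟨[], rfl⟩
    | cons d L ih =>
      obtain ⟨E, rfl⟩ := ih fun t ht => hL t (List.mem_cons_of_mem _ ht)
      have := hL d List.mem_cons_self
      rcases d with _ | ⟨a, u⟩ | _ | _
      · cases this
      · exact ⟨(a, u) :: E, rfl⟩
      all_goals cases this
  have h2 : ∀ L : List (DC α), (∀ d ∈ L, d.isF = true) → ∃ E : List (α × Bool), L = E.map ef' := by
    intro L hL
    induction L with
    | nil => exact ⟨[], rfl⟩
    | cons d L ih =>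
      obtain ⟨E, rfl⟩ := ih fun t ht => hL t (List.mem_cons_of_mem _ ht)
      have := hL d List.mem_cons_self
      rcases d with _ | _ | ⟨a, u⟩ | _
      · cases this
      · cases this
      · exact ⟨(a, u) :: E, rfl⟩
      · cases this
  have h3 : ∀ d ∈ ds.filter fun d => !d.isE, d.isF = true := fun d hd => by
    obtain ⟨hd, hd'⟩ := List.mem_filter.1 hd
    have e := hg d hd
    have e' := hT d hd
    rcases d with _ | _ | _ | _
    · cases e'
    · cases hd'
    · rfl
    · exact e.elim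
  obtain ⟨E, hE⟩ := h1 (ds.filter DC.isE) fun d hd => (List.mem_filter.1 hd).2
  obtain ⟨F, hF⟩ := h2 _ h3
  refine ⟨E, F, fun h => ?_, fun h => ?_, fun A B h => ?_⟩
  · have : ds.filter DC.isE = [] := List.filter_eq_nil_iff.2 fun d hd => by simp [h d hd]
    rw [this] at hE
    exact List.map_eq_nil_iff.1 hE.symm
  · have : (ds.filter fun d => !d.isE) = [] := List.eq_nil_iff_forall_not_mem.2 fun d hd => by
      have e := h3 d hd
      rw [h d (List.mem_filter.1 hd).1] at e
      cases e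
    rw [this] at hF
    exact List.map_eq_nil_iff.1 hF.symm
  · refine QQ.part DC.isE (fun d hd t _ e e' => sw_E (hg d hd) (hT d hd) e e') A B ?_
    rw [hE, hF]
    simpa using h

theorem base_ns (E F : List (α × Bool)) : QQ fa (E.map ee' ++ F.map ef') := by
  refine QQ.of_rw fun w => ?_
  obtain ⟨a, u, a', u', h1, h2⟩ := w.1
  obtain ⟨b, v, b', v', h3, h4⟩ := w.2.1
  rw [List.filterMap_append, fins_append, (fins_ee E).1, (fins_ef F).1, List.append_nil] at h1
  rw [List.filterMap_append, fins_append, (fins_ee E).2, (fins_ef F).2, List.nil_append] at h3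
  subst h1 h2 h3 h4
  left
  cases u <;> cases u' <;> cases v <;> cases v' <;>
  first
    | exact Rw.refl _
    | exact Rw.of_move (Move.comm [] [] [] (.cup a) (.cup b))
    | exact Rw.of_move (Move.comm [] [] [] (.cup a) (.cap b))
    | exact Rw.of_move (Move.comm [] [] [] (.cap a) (.cup b))
    | exact Rw.of_move (Move.comm [] [] [] (.cap a) (.cap b))

theorem kink (hfa : fa = false) (y : α) (s : Bool) :
    Rw fa [⟨[], .cup y, [rev y]⟩, ⟨[y], .cr (rev y) (rev y) (!s), []⟩, ⟨[], .cap y, [rev y]⟩] [] := by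
  refine (Rw.back (ρ := [rev y]) (σ := [y, rev y, rev y]) (Move.cupSlide [] [] (rev y) y s)
    (by simp [Run, Sl.src, Sl.tgt, Gen.src, Gen.tgt]) (by simp)).step [] [⟨[], .cap y, [rev y]⟩]
    rfl rfl ?_
  refine (Rw.of_curl hfa (Curl.cap [] [rev y] y s)).step [⟨[rev y], .cup y, []⟩] [] rfl rfl ?_
  have h := Rw.of_move (fa := fa) (Move.zag [] [] (rev y))
  rwa [rev_rev] at h

theorem base_efs (hfa : fa = false) (a b x : α) (u v : Bool) :
    QQ fa [.ee a u, .ef b v, .sh x] := by
  refine QQ.of_rw fun w => ?_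
  obtain ⟨a₁, u₁, a₂, u₂, h1, h2⟩ := w.1
  obtain ⟨b₁, v₁, b₂, v₂, h3, h4⟩ := w.2.1
  cases u <;> cases v <;>
    simp only [List.filterMap_cons, List.filterMap_nil, c1e, c1f, fins_fin, fins_thru, fins_nil,
      List.cons.injEq, Prod.mk.injEq, and_true] at h1 h3 <;>
    obtain ⟨⟨rfl, rfl⟩, rfl, rfl⟩ := h1 <;> obtain ⟨⟨rfl, rfl⟩, rfl, rfl⟩ := h3 <;>
    simp only [List.filterMap_cons, List.filterMap_nil, c1e, c1f, c2e, c2f, evOf, evLeft, evMid,
      event, crossL, crossR, List.map_nil, List.map_cons, List.nil_append, List.append_nil,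
      List.cons_append] <;> simp at h2 h4
  · subst h2 h4
    exact Or.inl (Rw.of_curl hfa (Curl.cap [] [] b _))
  · subst h2 h4
    exact Or.inr ((Rw.of_curl hfa (Curl.cup [x] [] x true)).step [] [⟨[], .cap x, [x]⟩] rfl rfl
      (Rw.of_move (Move.zag [] [] x)))
  · obtain rfl : a = b := by rw [← rev_rev a, ← h2, h4, rev_rev]
    subst h2
    exact Or.inl ((Rw.of_curl hfa (Curl.cap [a] [] a false)).step [⟨[], .cup a, [a]⟩] [] rfl rfl
      (Rw.of_move (Move.zig [] [] a)))
  · obtain rfl : a = rev x := by rw [h2, rev_rev]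
    subst h4
    exact Or.inr (Rw.of_curl hfa (Curl.cup [] [] x true))

theorem base_esf (a b x : α) (u v : Bool) :
    QQ fa [.ee a u, .sh x, .ef b v] := by
  refine QQ.of_rw fun w => ?_
  obtain ⟨a₁, u₁, a₂, u₂, h1, h2⟩ := w.1
  obtain ⟨b₁, v₁, b₂, v₂, h3, h4⟩ := w.2.1
  cases u <;> cases v <;>
    simp only [List.filterMap_cons, List.filterMap_nil, c1e, c1f, fins_fin, fins_thru, fins_nil,
      List.cons.injEq, Prod.mk.injEq, and_true] at h1 h3 <;>
    obtain ⟨⟨rfl, rfl⟩, rfl, rfl⟩ := h1 <;> obtain ⟨⟨rfl, rfl⟩, rfl, rfl⟩ := h3 <;>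
    simp only [List.filterMap_cons, List.filterMap_nil, c1e, c1f, c2e, c2f, evOf, evLeft, evMid,
      event, crossL, crossR, List.map_nil, List.map_cons, List.nil_append, List.append_nil,
      List.cons_append, Cell.lab] <;> simp at h2 h4
  · subst h2
    exact Or.inl (Rw.refl _)
  · subst h2 h4
    exact Or.inr (Rw.of_move (Move.zag [] [] b))
  · obtain rfl : b = a := by rw [h4, h2, rev_rev]
    subst h2
    exact Or.inl (Rw.of_move (Move.zig [] [] b))
  · rw [h2, rev_rev]
    exact Or.inl (Rw.refl _)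

theorem base_fse (a b x : α) (u v : Bool) :
    QQ fa [.ef b v, .sh x, .ee a u] := by
  refine QQ.of_rw fun w => ?_
  obtain ⟨a₁, u₁, a₂, u₂, h1, h2⟩ := w.1
  obtain ⟨b₁, v₁, b₂, v₂, h3, h4⟩ := w.2.1
  cases u <;> cases v <;>
    simp only [List.filterMap_cons, List.filterMap_nil, c1e, c1f, fins_fin, fins_thru, fins_nil,
      List.cons.injEq, Prod.mk.injEq, and_true] at h1 h3 <;>
    obtain ⟨⟨rfl, rfl⟩, rfl, rfl⟩ := h1 <;> obtain ⟨⟨rfl, rfl⟩, rfl, rfl⟩ := h3 <;>
    simp only [List.filterMap_cons, List.filterMap_nil, c1e, c1f, c2e, c2f, evOf, evLeft, evMid,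
      event, crossL, crossR, List.map_nil, List.map_cons, List.nil_append, List.append_nil,
      List.cons_append, Cell.lab] <;> simp at h2 h4
  · rw [h4, rev_rev]
    exact Or.inl (Rw.refl _)
  · subst h2 h4
    exact Or.inr (Rw.of_move (Move.zig [] [] a))
  · obtain rfl : a = b := by rw [h2, h4, rev_rev]
    subst h4
    exact Or.inl (Rw.of_move (Move.zag [] [] a))
  · subst h4
    exact Or.inl (Rw.refl _)

theorem base_sef (hfa : fa = false) (a b x : α) (u v : Bool) :
    QQ fa [.sh x, .ee a u, .ef b v] := by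
  refine QQ.of_rw fun w => ?_
  obtain ⟨a₁, u₁, a₂, u₂, h1, h2⟩ := w.1
  obtain ⟨b₁, v₁, b₂, v₂, h3, h4⟩ := w.2.1
  cases u <;> cases v <;>
    simp only [List.filterMap_cons, List.filterMap_nil, c1e, c1f, fins_fin, fins_thru, fins_nil,
      List.cons.injEq, Prod.mk.injEq, and_true] at h1 h3 <;>
    obtain ⟨⟨rfl, rfl⟩, rfl, rfl⟩ := h1 <;> obtain ⟨⟨rfl, rfl⟩, rfl, rfl⟩ := h3 <;>
    simp only [List.filterMap_cons, List.filterMap_nil, c1e, c1f, c2e, c2f, evOf, evLeft, evMid,
      event, crossL, crossR, List.map_nil, List.map_cons, List.nil_append, List.append_nil,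
      List.cons_append, Cell.lab] <;> simp at h2 h4
  · subst h2 h4
    have h := Rw.of_curl hfa (Curl.cap [] [] (rev a) false)
    rw [rev_rev] at h
    exact Or.inr h
  · have h := kink hfa (rev x) false
    rw [rev_rev] at h
    rw [h2, h4]
    exact Or.inr h
  · subst h2 h4
    exact Or.inl (kink hfa x true)
  · subst h2 h4
    exact Or.inl (Rw.of_curl hfa (Curl.cup [] [] b _))

theorem base_sh (E₁ F₁ E₂ F₂ : List (α × Bool)) (x : α) (h : fa = false ∨ F₁ = [] ∧ E₂ = []) :
    QQ fa (E₁.map ee' ++ F₁.map ef' ++ .sh x :: (E₂.map ee' ++ F₂.map ef')) := by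
  intro w
  obtain ⟨a₁, u₁, a₂, u₂, h1, -⟩ := w.1
  obtain ⟨b₁, v₁, b₂, v₂, h3, -⟩ := w.2.1
  have e1 : ∀ L : List (DC α), (.sh x :: L).filterMap c1e = .fin x true :: L.filterMap c1e :=
    fun _ => rfl
  have e2 : ∀ L : List (DC α), (.sh x :: L).filterMap c1f = .fin x false :: L.filterMap c1f :=
    fun _ => rfl
  rw [List.filterMap_append, List.filterMap_append, e1, List.filterMap_append, fins_append,
    fins_append, fins_fin, fins_append, (fins_ee E₁).1, (fins_ef F₁).1, (fins_ee E₂).1,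
    (fins_ef F₂).1] at h1
  rw [List.filterMap_append, List.filterMap_append, e2, List.filterMap_append, fins_append,
    fins_append, fins_fin, fins_append, (fins_ee E₁).2, (fins_ef F₁).2, (fins_ee E₂).2,
    (fins_ef F₂).2] at h3
  have h5 := congrArg List.length h1
  have h6 := congrArg List.length h3
  simp only [List.length_append, List.length_cons, List.length_nil] at h5 h6
  clear h1 h3
  revert w
  rcases E₁ with _ | ⟨⟨a, u⟩, _ | _⟩ <;> rcases E₂ with _ | ⟨⟨a', u'⟩, _ | _⟩ <;>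
    rcases F₁ with _ | ⟨⟨b, v⟩, _ | _⟩ <;> rcases F₂ with _ | ⟨⟨b', v'⟩, _ | _⟩ <;>
    (try simp only [List.length_cons, List.length_nil] at h5 h6) <;> try omega
  · exact base_sef (by simpa using h) _ _ _ _ _
  · exact base_fse _ _ _ _ _
  · exact base_esf _ _ _ _ _
  · exact base_efs (by simpa using h) _ _ _ _ _

/-- two rows without a common column -/
theorem dc_ns {ds : List (DC α)} (hg : ∀ d ∈ ds, d.Good) : QQ fa ds := by
  obtain ⟨E, F, -, -, h⟩ := sort_ends (fa := fa) (ds := ds.filter fun d => !d.isT)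
    (fun d hd => hg d (List.mem_filter.1 hd).1) fun d hd => by simpa using (List.mem_filter.1 hd).2
  have h1 := QQ.part (fa := fa) DC.isT (ds := ds)
    (fun d hd t ht e e' => (sw_T (hg d hd) (hg t ht) e e').1) [] []
  simp only [List.nil_append, List.append_nil] at h1
  refine h1 ?_
  have h2 := h (ds.filter DC.isT) [] (QQ.pad (fun d hd => (List.mem_filter.1 hd).2)
    (fun d hd => by cases hd) (base_ns E F))
  simpa using h2

/-- two rows with a common column -/
theorem dc_sh {D₁ D₂ : List (DC α)} (x : α) (h₁ : ∀ d ∈ D₁, d.Good) (h₂ : ∀ d ∈ D₂, d.Good)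
    (h : fa = false ∨ (∀ d ∈ D₁, d.isF = false) ∧ ∀ d ∈ D₂, d.isE = false) :
    QQ fa (D₁ ++ .sh x :: D₂) := by
  obtain ⟨E₁, F₁, -, hF, s₁⟩ := sort_ends (fa := fa) (ds := D₁.filter fun d => !d.isT)
    (fun d hd => h₁ d (List.mem_filter.1 hd).1) fun d hd => by simpa using (List.mem_filter.1 hd).2
  obtain ⟨E₂, F₂, hE, -, s₂⟩ := sort_ends (fa := fa) (ds := D₂.filter fun d => !d.isT)
    (fun d hd => h₂ d (List.mem_filter.1 hd).1) fun d hd => by simpa using (List.mem_filter.1 hd).2
  have p₁ := QQ.part (fa := fa) DC.isT (ds := D₁)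
    (fun d hd t ht e e' => (sw_T (h₁ d hd) (h₁ t ht) e e').1) [] (.sh x :: D₂)
  simp only [List.nil_append] at p₁
  refine p₁ (s₁ _ _ ?_)
  have p₂ := QQ.part (fa := fa) (fun d => !d.isT) (ds := D₂)
    (fun d hd t ht e e' => (sw_T (h₂ t ht) (h₂ d hd) (by simpa using e') (by simpa using e)).2)
    (D₁.filter DC.isT ++ (E₁.map ee' ++ F₁.map ef') ++ [.sh x]) []
  simp only [List.append_nil, Bool.not_not] at p₂
  have h3 := p₂ (s₂ _ _ ?_)
  · simpa using h3
  have h4 := QQ.pad (fa := fa) (L := D₁.filter DC.isT) (R := D₂.filter DC.isT)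
    (fun d hd => (List.mem_filter.1 hd).2) (fun d hd => (List.mem_filter.1 hd).2)
    (base_sh E₁ F₁ E₂ F₂ x (h.imp id fun h =>
      ⟨hF fun d hd => h.1 d (List.mem_filter.1 hd).1, hE fun d hd => h.2 d (List.mem_filter.1 hd).1⟩))
  simpa using h4

end WC

end Pool.Agent.P.MP_ac4909_gt.B
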