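import Pool.Agent.P.MP_ac4909_gt.B.WCell_DC

/-! Exchange of two adjacent columns of a grid; change of heights. -/

namespace Pool.Agent.P.MP_ac4909_gt.B

open Rev

namespace WC

variable {α N : Type} [DecidableEq N]

theorem idx_lt_iff {A B : List N} {e g : N} (h : (A ++ e :: B).Nodup) :
    (A ++ e :: B).idxOf g < (A ++ e :: B).idxOf e ↔ g ∈ A := by
  have he : e ∉ A := fun he => (List.nodup_append.1 h).2.2 e he e List.mem_cons_self rfl
  rw [List.idxOf_append_of_notMem he, List.idxOf_cons_self, add_zero]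
  by_cases hg : g ∈ A
  · rw [List.idxOf_append_of_mem hg]
    exact iff_of_true (List.idxOf_lt_length_of_mem hg) hg
  · rw [List.idxOf_append_of_notMem hg]
    exact iff_of_false (by omega) hg

theorem idx_gt_iff {A B : List N} {e g : N} (h : (A ++ e :: B).Nodup) :
    (A ++ e :: B).idxOf e < (A ++ e :: B).idxOf g ↔ g ∉ A ∧ g ≠ e := by
  have he : e ∉ A := fun he => (List.nodup_append.1 h).2.2 e he e List.mem_cons_self rfl
  rw [List.idxOf_append_of_notMem he, List.idxOf_cons_self, add_zero]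
  by_cases hg : g ∈ A
  · rw [List.idxOf_append_of_mem hg]
    have := List.idxOf_lt_length_of_mem hg
    exact iff_of_false (by omega) fun h => h.1 hg
  · rw [List.idxOf_append_of_notMem hg]
    by_cases hge : g = e
    · rw [hge, List.idxOf_cons_self]
      exact iff_of_false (by omega) fun h => h.2 rfl
    · rw [List.idxOf_cons_ne _ (Ne.symm hge)]
      exact iff_of_true (by omega) ⟨hg, hge⟩

theorem ok_none_l (fa : Bool) (c : Option (Cell α)) (s : Bool) : Ok fa none c s := trivial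

theorem ok_none_r (fa : Bool) (c : Option (Cell α)) (s : Bool) : Ok fa c none s := by
  rcases c with _ | _ | _ <;> trivial

theorem Ok.symm {fa : Bool} {c c' : Option (Cell α)} {s : Bool} (h : Ok fa c c' s) :
    Ok fa c' c (!s) := by
  rcases c with _ | ⟨x, o⟩ | ⟨x, o⟩ <;> rcases c' with _ | ⟨y, o'⟩ | ⟨y, o'⟩ <;> try trivial
  all_goals revert h; cases s <;> cases o <;> cases o' <;> simp [Ok]

/-- the label of a column at the level above the rows `Ys` -/
def al (G : Grid N α) (Ys : List N) (v : N) : Option α :=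
  if G.nb v false ∈ Ys ∧ G.nb v true ∉ Ys then some (G.dl (G.nb v false) v)
  else if G.nb v true ∈ Ys ∧ G.nb v false ∉ Ys then some (G.dl (G.nb v true) v) else none

theorem rowAt_eq (G : Grid N α) (Ys Xs : List N) : G.rowAt Ys Xs = Xs.filterMap (al G Ys) := rfl

theorem rowAt_four (G : Grid N α) (Ys A B : List N) (v v' : N) :
    G.rowAt Ys (A ++ v :: v' :: B) =
      G.rowAt Ys A ++ (al G Ys v).toList ++ (al G Ys v').toList ++ G.rowAt Ys B := by
  simp only [rowAt_eq]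
  cases h : al G Ys v <;> cases h' : al G Ys v' <;> simp [h, h']

variable [Rev α] {G : Grid N α} {R : Rz N} {fa : Bool}

omit [DecidableEq N] in
theorem nb_not (hG : G.OK) (v : N) (s : Bool) : G.nb v (!s) ≠ G.nb v s := by
  cases s
  · exact (hG.nb_ne v).symm
  · exact hG.nb_ne v

omit [DecidableEq N] in
theorem dl_pass (hG : G.OK) (v : N) (s : Bool) : G.dl (G.nb v s) v = G.dl v (G.nb v (!s)) := by
  cases s
  · exact hG.dl_thru v
  · rw [hG.dl_rev, ← hG.dl_thru, hG.dl_rev, rev_rev]; rfl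

theorem cell_fin (hG : G.OK) {e v : N} {s : Bool} (h : G.nb v s = e) :
    G.cell R e v = some (if R.ltY e (G.nb v (!s)) then .fin (G.dl e v) true
      else .fin (G.dl v e) false) := by
  cases s
  · rw [Grid.cell, if_pos h]; rfl
  · rw [Grid.cell, if_neg (fun h' => hG.nb_ne v (h'.trans h.symm)), if_pos h]; rfl

omit [Rev α] in
theorem cell_thru {e v : N} (s : Bool) (h : R.ltY (G.nb v s) e) (h' : R.ltY e (G.nb v (!s))) :
    G.cell R e v = some (.thru (G.dl (G.nb v s) v) (decide (R.z e < R.z v))) := by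
  have h1 : G.nb v s ≠ e := fun e' => by rw [e'] at h; exact lt_irrefl _ h
  have h2 : G.nb v (!s) ≠ e := fun e' => by rw [e'] at h'; exact lt_irrefl _ h'
  cases s <;> simp only [Bool.not_false, Bool.not_true] at h2 h'
  · rw [Grid.cell, if_neg h1, if_neg h2, if_pos ⟨h, h'⟩]
  · rw [Grid.cell, if_neg h2, if_neg h1, if_neg (fun h3 => lt_asymm h3.1 h'), if_pos ⟨h, h'⟩]

omit [Rev α] in
theorem cell_none {e v : N} (h : ∀ s, G.nb v s ≠ e)
    (h' : ∀ s, ¬(R.ltY (G.nb v s) e ∧ R.ltY e (G.nb v (!s)))) : G.cell R e v = none := by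
  have h1 := h' false
  have h2 := h' true
  simp only [Bool.not_false, Bool.not_true] at h1 h2
  rw [Grid.cell, if_neg (h _), if_neg (h _), if_neg h1, if_neg h2]

theorem cell_spec (hG : G.OK) (R : Rz N) (e v : N) : G.cell R e v = none ∨
    (∃ s a u, G.nb v s = e ∧ G.cell R e v = some (.fin a u) ∧ (u = true ↔ R.ltY e (G.nb v (!s)))) ∨
    ∃ s a, R.ltY (G.nb v s) e ∧ R.ltY e (G.nb v (!s)) ∧
      G.cell R e v = some (.thru a (decide (R.z e < R.z v))) := by
  by_cases h : ∃ s, G.nb v s = e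
  · obtain ⟨s, h⟩ := h
    refine Or.inr (Or.inl ?_)
    by_cases h' : R.ltY e (G.nb v (!s))
    · exact ⟨s, _, true, h, by rw [cell_fin hG h, if_pos h'], iff_of_true rfl h'⟩
    · exact ⟨s, _, false, h, by rw [cell_fin hG h, if_neg h'], iff_of_false (by simp) h'⟩
  · by_cases h' : ∃ s, R.ltY (G.nb v s) e ∧ R.ltY e (G.nb v (!s))
    · obtain ⟨s, h1, h2⟩ := h'
      exact Or.inr (Or.inr ⟨s, _, h1, h2, cell_thru s h1 h2⟩)
    · exact Or.inl (cell_none (not_exists.1 h) (not_exists.1 h'))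

theorem al_some {Ys : List N} {v : N} (s : Bool) (h : G.nb v s ∈ Ys) (h' : G.nb v (!s) ∉ Ys) :
    al G Ys v = some (G.dl (G.nb v s) v) := by
  cases s
  · rw [al, if_pos ⟨h, h'⟩]
  · rw [al, if_neg (fun h3 => h' h3.1), if_pos ⟨h, h'⟩]

theorem al_none {Ys : List N} {v : N} (s : Bool) (h : G.nb v s ∈ Ys ↔ G.nb v (!s) ∈ Ys) :
    al G Ys v = none := by
  cases s
  · rw [al, if_neg (fun h3 => h3.2 (h.1 h3.1)), if_neg fun h3 => h3.2 (h.2 h3.1)]
  · rw [al, if_neg (fun h3 => h3.2 (h.2 h3.1)), if_neg fun h3 => h3.2 (h.1 h3.1)]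

theorem cell_al (hG : G.OK) (hn : R.Y.Nodup) {Y₁ Y₂ : List N} {e : N} (hY : R.Y = Y₁ ++ e :: Y₂)
    (v : N) : (G.cell R e v).bind be = al G Y₁ v ∧ (G.cell R e v).bind ab = al G (Y₁ ++ [e]) v := by
  have lo : ∀ g, R.ltY g e ↔ g ∈ Y₁ := fun g => by
    rw [Rz.ltY, hY]; exact idx_lt_iff (hY ▸ hn)
  have hi : ∀ g, R.ltY e g ↔ g ∉ Y₁ ∧ g ≠ e := fun g => by
    rw [Rz.ltY, hY]; exact idx_gt_iff (hY ▸ hn)
  have he : e ∉ Y₁ := fun h => lt_irrefl _ ((lo e).2 h)
  by_cases h : ∃ s, G.nb v s = e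
  · obtain ⟨s, h⟩ := h
    have hne : G.nb v (!s) ≠ e := h ▸ nb_not hG v s
    rw [cell_fin hG h]
    by_cases h' : G.nb v (!s) ∈ Y₁
    · rw [if_neg fun h1 => ((hi _).1 h1).1 h',
        al_some (!s) h' (by rw [Bool.not_not, h]; exact he), dl_pass hG, Bool.not_not, h,
        al_none s (by simp [h, h'])]
      exact ⟨rfl, rfl⟩
    · rw [if_pos ((hi _).2 ⟨h', hne⟩), al_none s (by simp [h, he, h']),
        al_some s (by simp [h]) (by simp [h', hne]), h]
      exact ⟨rfl, rfl⟩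
  · have hne := not_exists.1 h
    by_cases h' : ∃ s, G.nb v s ∈ Y₁ ∧ G.nb v (!s) ∉ Y₁
    · obtain ⟨s, h1, h2⟩ := h'
      rw [cell_thru s ((lo _).2 h1) ((hi _).2 ⟨h2, hne _⟩), al_some s h1 h2,
        al_some s (by simp [h1]) (by simp [h2, hne])]
      exact ⟨rfl, rfl⟩
    · have h3 : G.nb v false ∈ Y₁ ↔ G.nb v true ∈ Y₁ :=
        ⟨fun h1 => by_contra fun h2 => h' ⟨false, h1, h2⟩,
          fun h1 => by_contra fun h2 => h' ⟨true, h1, h2⟩⟩
      rw [cell_none hne fun s h1 => h' ⟨s, (lo _).1 h1.1, ((hi _).1 h1.2).1⟩, al_none false h3,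
        al_none false (by simp [h3, hne])]
      exact ⟨rfl, rfl⟩

theorem bel_cells (hG : G.OK) (hn : R.Y.Nodup) {Y₁ Y₂ : List N} {e : N} (hY : R.Y = Y₁ ++ e :: Y₂)
    (Xs : List N) : bel (Xs.filterMap (G.cell R e)) = G.rowAt Y₁ Xs := by
  rw [bel_fm, rowAt_eq, funext fun v => (cell_al hG hn hY v).1]

theorem abv_cells (hG : G.OK) (hn : R.Y.Nodup) {Y₁ Y₂ : List N} {e : N} (hY : R.Y = Y₁ ++ e :: Y₂)
    (Xs : List N) : abv (Xs.filterMap (G.cell R e)) = G.rowAt (Y₁ ++ [e]) Xs := by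
  rw [abv_fm, rowAt_eq, funext fun v => (cell_al hG hn hY v).2]

theorem wf_cells (hG : G.OK) (hR : R.OK G.col) {e : N} (he : G.col e = false) :
    WF (R.X.filterMap (G.cell R e)) := by
  obtain ⟨s, X₁, X₂, X₃, L, M, R', a, b, u, u', h1, h2, h3, h4, h5, h6, h7⟩ :=
    Grid.cells_eq hG hR he
  refine ⟨a, u, b, u', ?_, h7⟩
  rw [h1]
  simp only [List.filterMap_append, List.filterMap_cons, h2, h3, h4, h5, h6]
  simp

theorem xswap_evs (hG : G.OK) {X₁ X₂ Y : List N} {z : N → ℝ} {v v' : N} {s : Bool}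
    (hR : Rz.OK ⟨X₁ ++ v :: v' :: X₂, Y, z⟩ G.col) (hR' : Rz.OK ⟨X₁ ++ v' :: v :: X₂, Y, z⟩ G.col)
    (hok : ∀ e, Ok fa (G.cell ⟨X₁ ++ v :: v' :: X₂, Y, z⟩ e v)
      (G.cell ⟨X₁ ++ v :: v' :: X₂, Y, z⟩ e v') s) (Y₂ : List N) : ∀ Y₁ Y₃, Y = Y₁ ++ Y₂ ++ Y₃ →
    Eqv fa (G.rowAt Y₁ (X₁ ++ v :: v' :: X₂)) (G.rowAt (Y₁ ++ Y₂) (X₁ ++ v' :: v :: X₂))
      (G.evs ⟨X₁ ++ v :: v' :: X₂, Y, z⟩ (X₁ ++ v :: v' :: X₂) Y₂ ++
        sig (G.rowAt (Y₁ ++ Y₂) X₁) (al G (Y₁ ++ Y₂) v) (al G (Y₁ ++ Y₂) v') s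
          (G.rowAt (Y₁ ++ Y₂) X₂))
      (sig (G.rowAt Y₁ X₁) (al G Y₁ v) (al G Y₁ v') s (G.rowAt Y₁ X₂) ++
        G.evs ⟨X₁ ++ v' :: v :: X₂, Y, z⟩ (X₁ ++ v' :: v :: X₂) Y₂) := by
  induction Y₂ with
  | nil =>
    intro Y₁ Y₃ _
    rw [List.append_nil, rowAt_four, rowAt_four]
    exact Eqv.of_eq (run_sig _ _ _ _ _) (List.append_nil _).symm
  | cons e Y₂ ih =>
    intro Y₁ Y₃ hY
    have hY' : Y = Y₁ ++ e :: (Y₂ ++ Y₃) := by rw [hY]; simp
    have he : G.col e = false := (hR.memY e).1 (by change e ∈ Y; rw [hY']; simp)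
    have w := wf_cells hG hR he
    have r₁ := run_evOf w
    have h₂ := ih (Y₁ ++ [e]) Y₃ (by rw [hY]; simp)
    have r₂ := Grid.run_evs hG hR' (Y₁ := Y₁ ++ [e]) (Y₂ := Y₂) (Y₃ := Y₃) (by rw [hY]; simp)
    change WF ((X₁ ++ v :: v' :: X₂).filterMap _) at w
    rw [fm_four] at w
    have h₁ := xs w (hok e)
    unfold XS at h₁
    rw [← fm_four, ← fm_four] at h₁
    simp only [bel_cells hG hR.nodupY hY', abv_cells hG hR.nodupY hY',
      (cell_al hG hR.nodupY hY' _).1, (cell_al hG hR.nodupY hY' _).2] at h₁ r₁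
    have h3 := sq_comp h₁ h₂ r₁ r₂
    rw [List.append_assoc Y₁, List.singleton_append] at h3
    exact h3

theorem xswap_ok (hG : G.OK) {X₁ X₂ Y : List N} {z : N → ℝ} {v v' : N} {s : Bool}
    (hR : Rz.OK ⟨X₁ ++ v :: v' :: X₂, Y, z⟩ G.col) (hR' : Rz.OK ⟨X₁ ++ v' :: v :: X₂, Y, z⟩ G.col)
    (hok : ∀ e, Ok fa (G.cell ⟨X₁ ++ v :: v' :: X₂, Y, z⟩ e v)
      (G.cell ⟨X₁ ++ v :: v' :: X₂, Y, z⟩ e v') s) :
    Eqv fa [] [] (G.word ⟨X₁ ++ v :: v' :: X₂, Y, z⟩) (G.word ⟨X₁ ++ v' :: v :: X₂, Y, z⟩) := by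
  have h := xswap_evs hG hR hR' hok Y [] [] (by simp)
  have hv : G.col v = true := (hR.memX v).1 (by simp)
  have h1 : al G Y v = none := al_none false (iff_of_true
    ((hR.memY _).2 (by rw [hG.col_nb, hv]; rfl)) ((hR.memY _).2 (by rw [hG.col_nb, hv]; rfl)))
  have h2 : al G [] v = none := al_none false (by simp)
  have h3 := Grid.rowAt_all hG hR'
  rw [List.nil_append, h1, h2, Grid.rowAt_nil, h3] at h
  simpa [sig, Grid.word] using h

theorem leg_ok (hG : G.OK) {v v' : N} (h : G.Leg fa R.ltY (fun a b => R.z a < R.z b) v v') (e : N) :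
    Ok fa (G.cell R e v) (G.cell R e v') false := by
  have b2 : ∀ s t : Bool, s = t ∨ s = !t := by decide
  rcases cell_spec hG R e v with c | ⟨s, a, u, e1, c, hu⟩ | ⟨s, a, l1, l2, c⟩
  · rw [c]; exact ok_none_l _ _ _
  all_goals rcases cell_spec hG R e v' with c' | ⟨s', a', u', e2, c', hu'⟩ | ⟨s', a', l3, l4, c'⟩
  · rw [c']; exact ok_none_r _ _ _
  · rw [c, c']
    rcases h with h | h | ⟨t, t', h1, h2, h3⟩ | h
    · have := h s s'
      rw [e1, e2] at this
      exact absurd this (lt_irrefl _)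
    · have := h.2.2.2 s s'
      rw [e1, e2] at this
      exact absurd this (lt_irrefl _)
    · refine Or.inr ?_
      rcases b2 s t with rfl | rfl <;> rcases b2 s' t' with rfl | rfl
      · rw [e1] at h2
        rw [e2] at h3
        rw [hu'.2 h3]
        exact fun h4 => lt_asymm h2 (hu.1 h4)
      · exact absurd (e2.trans (e1.symm.trans h1)) (nb_not hG _ _)
      · exact absurd (e1.trans (e2.symm.trans h1.symm)) (nb_not hG _ _)
      · rw [e1, h1] at h2
        rw [e2] at h3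
        exact absurd h2 (lt_asymm h3)
    · exact Or.inl h.1
  · rw [c, c']
    change false = !decide (R.z e < R.z v')
    rw [decide_eq_true (p := R.z e < R.z v')]
    · rfl
    rcases h with h | h | ⟨t, t', h1, h2, h3⟩ | ⟨-, t, t', h1, h2, h3, h4, h5⟩
    · have := h s s'
      rw [e1] at this
      exact absurd this (lt_asymm l3)
    · exact e1 ▸ h.2.2.1 s
    · exfalso
      unfold Rz.ltY at *
      rw [← e1] at l3 l4
      rw [← h1] at h3
      rcases b2 s t with rfl | rfl <;> rcases b2 s' t' with rfl | rfl <;>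
        simp only [Bool.not_not, ← h1] at l3 l4 <;> omega
    · rcases b2 s t with rfl | rfl
      · exfalso
        unfold Rz.ltY at *
        rw [← e1, h1] at l3 l4
        rcases b2 s' t' with rfl | rfl
        · omega
        · rw [Bool.not_not] at l4
          omega
      · rw [e1, h1] at h3
        exact h3.trans h4
  · rw [c']; exact ok_none_r _ _ _
  · rw [c, c']
    change false = decide (R.z e < R.z v)
    refine (decide_eq_false (lt_asymm ?_)).symm
    rcases h with h | h | ⟨t, t', h1, h2, h3⟩ | ⟨-, t, t', h1, h2, h3, h4, h5⟩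
    · have := h (!s) s'
      rw [e2] at this
      exact absurd this (lt_asymm l2)
    · exact e2 ▸ h.2.1 s'
    · exfalso
      unfold Rz.ltY at *
      rw [← e2] at l1 l2
      rw [h1] at h2
      rcases b2 s t with rfl | rfl <;> rcases b2 s' t' with rfl | rfl <;>
        simp only [Bool.not_not, h1] at l1 l2 <;> omega
    · rcases b2 s' t' with rfl | rfl
      · exfalso
        unfold Rz.ltY at *
        rw [← e2, ← h1] at l1 l2
        rcases b2 s t with rfl | rfl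
        · omega
        · rw [Bool.not_not] at l2
          omega
      · rw [e2, ← h1] at h5
        exact h2.trans h5
  · rw [c, c']
    have key : R.z v < R.z v' := by
      rcases h with h | h | ⟨t, t', h1, h2, h3⟩ | ⟨-, t, t', h1, h2, h3, h4, h5⟩
      · exact absurd ((lt_trans l2 (h (!s) s')).trans l3) (lt_irrefl _)
      · exact h.1
      · exfalso
        unfold Rz.ltY at *
        rw [h1] at h2
        rcases b2 s t with rfl | rfl <;> rcases b2 s' t' with rfl | rfl <;>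
          simp only [Bool.not_not, h1] at l1 l2 l3 l4 <;> omega
      · exact h2.trans (h1 ▸ h4)
    by_cases h6 : R.z e < R.z v
    · exact Or.inl (by rw [decide_eq_true h6, decide_eq_true (h6.trans key)])
    · exact Or.inr (decide_eq_false h6).symm

/-- Exchange of two adjacent columns. -/
theorem xswap (hG : G.OK) {X₁ X₂ Y : List N} {z : N → ℝ} {v v' : N}
    (hR : Rz.OK ⟨X₁ ++ v :: v' :: X₂, Y, z⟩ G.col) (hR' : Rz.OK ⟨X₁ ++ v' :: v :: X₂, Y, z⟩ G.col)
    (h : G.Leg fa (fun a b => Y.idxOf a < Y.idxOf b) (fun a b => z a < z b) v v' ∨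
      G.Leg fa (fun a b => Y.idxOf a < Y.idxOf b) (fun a b => z a < z b) v' v) :
    Eqv fa [] [] (G.word ⟨X₁ ++ v :: v' :: X₂, Y, z⟩) (G.word ⟨X₁ ++ v' :: v :: X₂, Y, z⟩) := by
  rcases h with h | h
  · exact xswap_ok hG hR hR' fun e => leg_ok hG h e
  · exact xswap_ok hG hR hR' fun e => (leg_ok hG h e).symm

omit [Rev α] in
theorem evOf_lab {L L' M B B' : List (α × Bool)} (hL : L.map Prod.fst = L'.map Prod.fst)
    (hB : B.map Prod.fst = B'.map Prod.fst) (a b : α) (u u' : Bool) :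
    evOf (L.map th ++ .fin a u :: (M.map th ++ .fin b u' :: B.map th)) =
      evOf (L'.map th ++ .fin a u :: (M.map th ++ .fin b u' :: B'.map th)) := by
  rw [evOf_eq, evOf_eq, hL, hB]

/-- The word of a row depends on the heights only through the crossings. -/
theorem row_z (hG : G.OK) {X Y : List N} {z z' : N → ℝ} (hR : Rz.OK ⟨X, Y, z⟩ G.col) {e : N}
    (he : G.col e = false)
    (h : ∀ v, G.col v = true → G.Crossing ⟨X, Y, z⟩ v e → (z e < z v ↔ z' e < z' v)) :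
    evOf (X.filterMap (G.cell ⟨X, Y, z⟩ e)) = evOf (X.filterMap (G.cell ⟨X, Y, z'⟩ e)) := by
  obtain ⟨s, X₁, X₂, X₃, L, M, B, a, b, u, u', h1, h2, h3, h4, h5, h6, -⟩ := Grid.cells_eq hG hR he
  have f1 : ∀ v, (G.cell ⟨X, Y, z'⟩ e v).bind fi = (G.cell ⟨X, Y, z⟩ e v).bind fi := fun v => by
    unfold Grid.cell
    split_ifs <;> first | rfl | contradiction
  have f2 : ∀ v, (G.cell ⟨X, Y, z'⟩ e v).bind be = (G.cell ⟨X, Y, z⟩ e v).bind be := fun v => by
    unfold Grid.cell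
    split_ifs <;> first | rfl | contradiction
  have f3 : ∀ (Xs : List N) (L : List (α × Bool)), Xs.filterMap (G.cell ⟨X, Y, z⟩ e) = L.map th →
      ∃ L' : List (α × Bool), Xs.filterMap (G.cell ⟨X, Y, z'⟩ e) = L'.map th ∧
        L.map Prod.fst = L'.map Prod.fst := fun Xs L hL => by
    have e1 : fins (Xs.filterMap (G.cell ⟨X, Y, z'⟩ e)) = [] := by
      rw [fins, List.filterMap_filterMap, funext f1, ← List.filterMap_filterMap, hL]
      exact fins_th L
    obtain ⟨L', hL'⟩ := thru_of_fi e1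
    refine ⟨L', hL', ?_⟩
    rw [← bel_th, ← bel_th, ← hL, ← hL', bel_fm, bel_fm, funext f2]
  have f4 : ∀ t, G.cell ⟨X, Y, z'⟩ e (G.nb e t) = G.cell ⟨X, Y, z⟩ e (G.nb e t) := fun t => by
    obtain ⟨t', ht⟩ := hG.adj_symm e t
    rw [cell_fin hG ht, cell_fin hG ht]; rfl
  have hn : X.Nodup := hR.nodupX
  change X = _ at h1
  have f5 : X₂.filterMap (G.cell ⟨X, Y, z'⟩ e) = X₂.filterMap (G.cell ⟨X, Y, z⟩ e) := by
    refine List.filterMap_congr fun v hv => ?_
    by_cases c1 : ∃ t, G.nb v t = e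
    · obtain ⟨t, ht⟩ := c1
      rw [cell_fin hG ht, cell_fin hG ht]; rfl
    by_cases c2 : ∃ t, Rz.ltY ⟨X, Y, z⟩ (G.nb v t) e ∧ Rz.ltY ⟨X, Y, z⟩ e (G.nb v (!t))
    · obtain ⟨t, l1, l2⟩ := c2
      rw [cell_thru t l1 l2, cell_thru (R := ⟨X, Y, z'⟩) t l1 l2]
      have hv' : v ∈ X := by rw [h1]; simp [hv]
      obtain ⟨A, A', rfl⟩ := List.append_of_mem hv
      have e1 : X = (X₁ ++ G.nb e s :: A) ++ v :: (A' ++ G.nb e (!s) :: X₃) := by rw [h1]; simp
      have e2 : X = (X₁ ++ G.nb e s :: (A ++ v :: A')) ++ G.nb e (!s) :: X₃ := by rw [h1]; simp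
      have h7 := h v ((hR.memX v).1 hv') ⟨⟨t, l1, l2⟩, s, ?_, ?_⟩
      · simp only [h7]
      · change X.idxOf _ < X.idxOf _
        rw [e1] at hn ⊢
        exact (idx_lt_iff hn).2 (by simp)
      · change X.idxOf _ < X.idxOf _
        rw [e2] at hn ⊢
        exact (idx_lt_iff hn).2 (by simp)
    · rw [cell_none (not_exists.1 c1) (not_exists.1 c2),
        cell_none (R := ⟨X, Y, z'⟩) (not_exists.1 c1) (not_exists.1 c2)]
  obtain ⟨L', hL', eL⟩ := f3 X₁ L h2
  obtain ⟨B', hB', eB⟩ := f3 X₃ B h4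
  generalize G.cell ⟨X, Y, z⟩ e = c at *
  generalize G.cell ⟨X, Y, z'⟩ e = c' at *
  rw [h1]
  simp only [List.filterMap_append, List.filterMap_cons, f4, f5, h2, h3, h4, h5, h6, hL', hB']
  exact evOf_lab eL eB a b u u'

end WC

end Pool.Agent.P.MP_ac4909_gt.B
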