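import Pool.Agent.P.MP_ac4909_gt.B.WEvs

/-! Exchange of two adjacent cells of a row. -/

namespace Pool.Agent.P.MP_ac4909_gt.B

open Rev

namespace WC

variable {α : Type}

/-- the strand below a cell -/
def be : Cell α → Option α
  | .thru a _ => some a
  | .fin _ true => none
  | .fin a false => some a

/-- the strand above a cell -/
def ab : Cell α → Option α
  | .thru a _ => some a
  | .fin a true => some a
  | .fin _ false => none

/-- the data of an end -/
def fi : Cell α → Option (α × Bool)
  | .thru _ _ => none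
  | .fin a u => some (a, u)

/-- the strands below a row -/
def bel (cs : List (Cell α)) : List α := cs.filterMap be

/-- the strands above a row -/
def abv (cs : List (Cell α)) : List α := cs.filterMap ab

/-- the ends of a row -/
def fins (cs : List (Cell α)) : List (α × Bool) := cs.filterMap fi

abbrev th : α × Bool → Cell α := fun x => Cell.thru x.1 x.2

/-- two ends with matching labels -/
def WF [Rev α] (cs : List (Cell α)) : Prop :=
  ∃ a u b u', fins cs = [(a, u), (b, u')] ∧ b = if u = u' then rev a else a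

/-- the crossing of two adjacent strands, if both are there -/
def sig (l : List α) (x y : Option α) (s : Bool) (r : List α) : List (Sl α) :=
  match x, y with
  | some x, some y => [⟨l, .cr x y s, r⟩]
  | _, _ => []

/-- the cells may be exchanged, the first passing over the second iff `s` -/
def Ok (fa : Bool) : Option (Cell α) → Option (Cell α) → Bool → Prop
  | some (.thru _ o), some (.thru _ o'), s => o = o' ∨ s = o
  | some (.fin _ _), some (.thru _ o'), s => s = !o'
  | some (.thru _ o), some (.fin _ _), s => s = o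
  | some (.fin _ u), some (.fin _ u'), _ => fa = false ∨ u ≠ u'
  | _, _, _ => True

@[simp] theorem bel_nil : bel ([] : List (Cell α)) = [] := rfl
@[simp] theorem abv_nil : abv ([] : List (Cell α)) = [] := rfl
@[simp] theorem fins_nil : fins ([] : List (Cell α)) = [] := rfl
@[simp] theorem bel_append (A B : List (Cell α)) : bel (A ++ B) = bel A ++ bel B :=
  List.filterMap_append
@[simp] theorem abv_append (A B : List (Cell α)) : abv (A ++ B) = abv A ++ abv B :=
  List.filterMap_append
@[simp] theorem fins_append (A B : List (Cell α)) : fins (A ++ B) = fins A ++ fins B :=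
  List.filterMap_append
@[simp] theorem bel_thru (a : α) (o : Bool) (A : List (Cell α)) :
    bel (.thru a o :: A) = a :: bel A := rfl
@[simp] theorem abv_thru (a : α) (o : Bool) (A : List (Cell α)) :
    abv (.thru a o :: A) = a :: abv A := rfl
@[simp] theorem fins_thru (a : α) (o : Bool) (A : List (Cell α)) :
    fins (.thru a o :: A) = fins A := rfl
@[simp] theorem bel_up (a : α) (A : List (Cell α)) : bel (.fin a true :: A) = bel A := rfl
@[simp] theorem bel_down (a : α) (A : List (Cell α)) : bel (.fin a false :: A) = a :: bel A := rfl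
@[simp] theorem abv_up (a : α) (A : List (Cell α)) : abv (.fin a true :: A) = a :: abv A := rfl
@[simp] theorem abv_down (a : α) (A : List (Cell α)) : abv (.fin a false :: A) = abv A := rfl
@[simp] theorem fins_fin (a : α) (u : Bool) (A : List (Cell α)) :
    fins (.fin a u :: A) = (a, u) :: fins A := rfl

@[simp] theorem bel_th (L : List (α × Bool)) : bel (L.map th) = L.map Prod.fst := by
  induction L with
  | nil => rfl
  | cons x L ih => rw [List.map_cons, bel_thru, ih, List.map_cons]

@[simp] theorem abv_th (L : List (α × Bool)) : abv (L.map th) = L.map Prod.fst := by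
  induction L with
  | nil => rfl
  | cons x L ih => rw [List.map_cons, abv_thru, ih, List.map_cons]

@[simp] theorem fins_th (L : List (α × Bool)) : fins (L.map th) = [] := by
  induction L with
  | nil => rfl
  | cons x L ih => rw [List.map_cons, fins_thru, ih]

theorem bel_opt (c : Option (Cell α)) : bel c.toList = (c.bind be).toList := by
  rcases c with _ | _ | ⟨_, _ | _⟩ <;> rfl

theorem abv_opt (c : Option (Cell α)) : abv c.toList = (c.bind ab).toList := by
  rcases c with _ | _ | ⟨_, _ | _⟩ <;> rfl

theorem thru_of_fi {cs : List (Cell α)} (h : fins cs = []) :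
    ∃ L : List (α × Bool), cs = L.map th := by
  induction cs with
  | nil => exact ⟨[], rfl⟩
  | cons c cs ih =>
    cases c with
    | thru a o =>
      obtain ⟨L, rfl⟩ := ih (by simpa using h)
      exact ⟨(a, o) :: L, rfl⟩
    | fin a u => simp at h

theorem split_fi {cs : List (Cell α)} {a : α} {u : Bool} {t : List (α × Bool)}
    (h : fins cs = (a, u) :: t) :
    ∃ (L : List (α × Bool)) (cs' : List (Cell α)), cs = L.map th ++ .fin a u :: cs' ∧
      fins cs' = t := by
  induction cs with
  | nil => simp at h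
  | cons c cs ih =>
    cases c with
    | thru x o =>
      obtain ⟨L, cs', rfl, h'⟩ := ih (by simpa using h)
      exact ⟨(x, o) :: L, cs', rfl, h'⟩
    | fin x v =>
      simp only [fins_fin, List.cons.injEq, Prod.mk.injEq] at h
      obtain ⟨⟨rfl, rfl⟩, h'⟩ := h
      exact ⟨[], cs, rfl, h'⟩

theorem split_one {cs : List (Cell α)} {a : α} {u : Bool} (h : fins cs = [(a, u)]) :
    ∃ L M : List (α × Bool), cs = L.map th ++ .fin a u :: M.map th := by
  obtain ⟨L, cs', rfl, h'⟩ := split_fi h
  obtain ⟨M, rfl⟩ := thru_of_fi h'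
  exact ⟨L, M, rfl⟩

theorem split_two {cs : List (Cell α)} {a b : α} {u u' : Bool}
    (h : fins cs = [(a, u), (b, u')]) :
    ∃ L M R : List (α × Bool), cs = L.map th ++ .fin a u :: (M.map th ++ .fin b u' :: R.map th) := by
  obtain ⟨L, cs', rfl, h'⟩ := split_fi h
  obtain ⟨M, R, rfl⟩ := split_one h'
  exact ⟨L, M, R, rfl⟩

theorem crossR_pad (l' r' l r : List α) (b : α) (M : List (α × Bool)) :
    crossR b (r ++ r') (l' ++ l) M = (crossR b r l M).map (pad l' r') :=
  event_pad l' r' l r b b false true M

theorem crossL_pad (l' r' l r : List α) (b : α) (M : List (α × Bool)) :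
    crossL b (r ++ r') (l' ++ l) M = (crossL b r l M).map (pad l' r') :=
  event_pad l' r' l r b b true false M

theorem crossR_append (b : α) (r l : List α) (M M' : List (α × Bool)) :
    crossR b r l (M ++ M') =
      crossR b (M'.map Prod.fst ++ r) l M ++ crossR b r (l ++ M.map Prod.fst) M' := by
  induction M generalizing l with
  | nil => simp [crossR]
  | cons x M ih => simp [crossR, ih]

theorem crossL_append (b : α) (r l : List α) (M M' : List (α × Bool)) :
    crossL b r l (M ++ M') =
      crossL b r (l ++ M.map Prod.fst) M' ++ crossL b (M'.map Prod.fst ++ r) l M := by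
  induction M generalizing l with
  | nil => simp [crossL]
  | cons x M ih => simp [crossL, ih]

theorem event_append_up (l r : List α) (a b : α) (u : Bool) (M M' : List (α × Bool)) :
    event l a u (M ++ M') b true r = event l a u M b true (M'.map Prod.fst ++ r) ++
      crossR b r (l ++ (if u then [a] else []) ++ M.map Prod.fst) M' := by
  cases u <;> simp [event, crossR_append]

theorem event_append_down (l r : List α) (a b : α) (u : Bool) (M M' : List (α × Bool)) :
    event l a u (M ++ M') b false r =
      crossL b r (l ++ (if u then [] else [a]) ++ M.map Prod.fst) M' ++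
        event l a u M b false (M'.map Prod.fst ++ r) := by
  cases u <;> simp [event, crossL_append]

variable [Rev α] {fa : Bool}

theorem run_evOf {cs : List (Cell α)} (h : WF cs) :
    Run (bel cs) (evOf cs) (abv cs) := by
  obtain ⟨a, u, b, u', h1, h2⟩ := h
  obtain ⟨L, M, R, rfl⟩ := split_two h1
  have h3 := run_event (L.map Prod.fst) (R.map Prod.fst) a b u u' M h2
  rw [evOf_eq]
  cases u <;> cases u' <;> simpa using h3

theorem run_sig (l r : List α) (x y : Option α) (s : Bool) :
    Run (l ++ x.toList ++ y.toList ++ r) (sig l x y s r) (l ++ y.toList ++ x.toList ++ r) := by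
  cases x <;> cases y <;> simp [sig, Run, Sl.src, Sl.tgt, Gen.src, Gen.tgt]

theorem sig_inv (l r : List α) (x y : Option α) (s : Bool) :
    Eqv fa (l ++ x.toList ++ y.toList ++ r) (l ++ x.toList ++ y.toList ++ r)
      (sig l x y s r ++ sig l y x (!s) r) [] := by
  have h := run_append.2 ⟨_, run_sig l r x y s, run_sig l r y x (!s)⟩
  cases x <;> cases y
  · exact Eqv.refl h
  · exact Eqv.refl h
  · exact Eqv.refl h
  · exact Eqv.of_move (Move.reid2 l r _ _ s) h

/-- rewriting of words, on whatever rows the first word fits -/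
def Rw (fa : Bool) (w w' : List (Sl α)) : Prop := ∀ ρ σ, Run ρ w σ → Eqv fa ρ σ w w'

theorem Rw.refl (w : List (Sl α)) : Rw fa w w := fun _ _ h => Eqv.refl h

theorem Rw.of_eq {w w' : List (Sl α)} (h : w = w') : Rw fa w w' := h ▸ Rw.refl w

theorem Rw.trans {w w' w'' : List (Sl α)} (h : Rw fa w w') (h' : Rw fa w' w'') : Rw fa w w'' :=
  fun ρ σ hr => (h ρ σ hr).trans (h' ρ σ (h ρ σ hr).run_right)

theorem Rw.append {u u' w w' : List (Sl α)} (h : Rw fa u u') (h' : Rw fa w w') :
    Rw fa (u ++ w) (u' ++ w') := fun ρ σ hr => by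
  obtain ⟨τ, h1, h2⟩ := run_append.1 hr
  exact (h ρ τ h1).append (h' τ σ h2)

theorem Rw.step {u u' w w' w'' : List (Sl α)} (h : Rw fa u u') (p q : List (Sl α))
    (e : w = p ++ u ++ q) (e' : w' = p ++ u' ++ q) (h' : Rw fa w' w'') : Rw fa w w'' := by
  subst e e'
  exact (((Rw.refl p).append h).append (Rw.refl q)).trans h'

theorem Rw.last {u u' w w' : List (Sl α)} (h : Rw fa u u') (p q : List (Sl α))
    (e : w = p ++ u ++ q) (e' : w' = p ++ u' ++ q) : Rw fa w w' :=
  h.step p q e e' (Rw.refl _)

theorem Rw.of_move {u u' : List (Sl α)} (h : Move u u') : Rw fa u u' := fun _ _ hr =>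
  Eqv.of_move h hr

theorem Rw.of_curl {u u' : List (Sl α)} (hfa : fa = false) (h : Curl u u') : Rw fa u u' :=
  fun ρ σ hr => by
    have h1 := Eqv.curl (fa := fa) (ρ := ρ) (ρ' := σ) [] u u' [] hfa h (by simpa using hr)
    simpa using h1

theorem Rw.of_eqv {ρ σ : List α} {u u' : List (Sl α)} (h : Eqv fa ρ σ u u') (hne : u ≠ []) :
    Rw fa u u' := fun ρ' σ' hr => by
  have h1 := h.run_left
  obtain rfl : ρ' = ρ := by
    cases u with
    | nil => exact absurd rfl hne
    | cons s u => exact hr.1.trans h1.1.symm
  obtain rfl := hr.unique h1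
  exact h

theorem Rw.back {ρ σ : List α} {u u' : List (Sl α)} (h : Move u u') (hr : Run ρ u σ)
    (hne : u' ≠ []) : Rw fa u' u := Rw.of_eqv (Eqv.of_move h hr).symm hne

theorem run_single (s : Sl α) : Run s.src [s] s.tgt := ⟨rfl, rfl⟩

theorem farL {ρ σ : List α} {w : List (Sl α)} (hw : Run ρ w σ) (l m : List α) (g : Gen α) :
    Eqv fa (l ++ g.src ++ m ++ ρ) (l ++ g.tgt ++ m ++ σ)
      (⟨l, g, m ++ ρ⟩ :: w.map (pad (l ++ g.tgt ++ m) []))
      (w.map (pad (l ++ g.src ++ m) []) ++ [⟨l, g, m ++ σ⟩]) := by
  have h := Eqv.far (fa := fa) (run_single ⟨l, g, m⟩) hw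
  simpa [pad, Sl.src, Sl.tgt] using h

theorem farR {ρ σ : List α} {w : List (Sl α)} (hw : Run ρ w σ) (m r : List α) (g : Gen α) :
    Eqv fa (ρ ++ (m ++ g.src ++ r)) (σ ++ (m ++ g.tgt ++ r))
      (w.map (pad [] (m ++ g.src ++ r)) ++ [⟨σ ++ m, g, r⟩])
      (⟨ρ ++ m, g, r⟩ :: w.map (pad [] (m ++ g.tgt ++ r))) := by
  have h := Eqv.far (fa := fa) hw (run_single ⟨m, g, r⟩)
  simpa [pad, Sl.src, Sl.tgt] using h

/-- a crossing to the left of a row -/
theorem ev_left (l₁ l₂ r : List α) (x y a b : α) (s u u' : Bool) (M : List (α × Bool))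
    (h : b = if u = u' then rev a else a) :
    Rw fa (event (l₁ ++ x :: y :: l₂) a u M b u' r ++ [⟨l₁, .cr x y s,
        l₂ ++ ((if u then [a] else []) ++ M.map Prod.fst ++ (if u' then [b] else []) ++ r)⟩])
      (⟨l₁, .cr x y s,
        l₂ ++ ((if u then [] else [a]) ++ M.map Prod.fst ++ (if u' then [] else [b]) ++ r)⟩ ::
        event (l₁ ++ y :: x :: l₂) a u M b u' r) := by
  have h1 := (farL (fa := fa) (run_event [] r a b u u' M h) l₁ l₂ (.cr x y s)).symm
  rw [← event_pad, ← event_pad] at h1
  have h2 := Rw.of_eqv h1 (by simp)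
  simpa [Gen.src, Gen.tgt] using h2

/-- a crossing to the right of a row -/
theorem ev_right (l r₁ r₂ : List α) (x y a b : α) (s u u' : Bool) (M : List (α × Bool))
    (h : b = if u = u' then rev a else a) :
    Rw fa (event l a u M b u' (r₁ ++ x :: y :: r₂) ++
        [⟨l ++ (if u then [a] else []) ++ M.map Prod.fst ++ (if u' then [b] else []) ++ r₁,
          .cr x y s, r₂⟩])
      (⟨l ++ (if u then [] else [a]) ++ M.map Prod.fst ++ (if u' then [] else [b]) ++ r₁,
          .cr x y s, r₂⟩ :: event l a u M b u' (r₁ ++ y :: x :: r₂)) := by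
  have h1 := farR (fa := fa) (run_event l [] a b u u' M h) r₁ r₂ (.cr x y s)
  rw [← event_pad, ← event_pad] at h1
  have h2 := Rw.of_eqv h1 (by simp)
  simpa [Gen.src, Gen.tgt] using h2

theorem crossR_left (l₁ l₂ r : List α) (g : Gen α) (b : α) (M : List (α × Bool)) :
    Rw fa (crossR b r (l₁ ++ g.src ++ l₂) M ++ [⟨l₁, g, l₂ ++ (M.map Prod.fst ++ b :: r)⟩])
      (⟨l₁, g, l₂ ++ b :: (M.map Prod.fst ++ r)⟩ :: crossR b r (l₁ ++ g.tgt ++ l₂) M) := by
  have h1 := (farL (fa := fa) (run_crossR b [] r M) l₁ l₂ g).symm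
  rw [← crossR_pad, ← crossR_pad] at h1
  have h2 := Rw.of_eqv h1 (by simp)
  simpa using h2

theorem crossL_left (l₁ l₂ r : List α) (g : Gen α) (b : α) (M : List (α × Bool)) :
    Rw fa (crossL b r (l₁ ++ g.src ++ l₂) M ++ [⟨l₁, g, l₂ ++ b :: (M.map Prod.fst ++ r)⟩])
      (⟨l₁, g, l₂ ++ (M.map Prod.fst ++ b :: r)⟩ :: crossL b r (l₁ ++ g.tgt ++ l₂) M) := by
  have h1 := (farL (fa := fa) (run_crossL b [] r M) l₁ l₂ g).symm
  rw [← crossL_pad, ← crossL_pad] at h1
  have h2 := Rw.of_eqv h1 (by simp)
  simpa using h2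

theorem crossR_r3 (l r : List α) (b x y : α) (o o' s : Bool) (M : List (α × Bool))
    (h : o = o' ∨ s = o) :
    Rw fa (crossR b r l ((x, o) :: (y, o') :: M) ++ [⟨l, .cr x y s, M.map Prod.fst ++ b :: r⟩])
      (⟨l ++ [b], .cr x y s, M.map Prod.fst ++ r⟩ :: crossR b r l ((y, o') :: (x, o) :: M)) := by
  refine (crossR_left l [] r (.cr x y s) b M).step
    [⟨l, .cr b x (!o), y :: (M.map Prod.fst ++ r)⟩, ⟨l ++ [x], .cr b y (!o'), M.map Prod.fst ++ r⟩]
    [] (by simp [crossR, Gen.src]) rfl ?_
  refine (Rw.of_move (Move.reid3 l (M.map Prod.fst ++ r) b x y (!o) (!o') s ?_)).last []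
    (crossR b r (l ++ [y, x]) M) (by simp [Gen.tgt]) (by simp [crossR])
  revert h
  cases o <;> cases o' <;> cases s <;> simp

theorem crossL_r3 (l r : List α) (b x y : α) (o o' s : Bool) (M : List (α × Bool))
    (h : o = o' ∨ s = o) :
    Rw fa (crossL b r l ((x, o) :: (y, o') :: M) ++ [⟨l ++ [b], .cr x y s, M.map Prod.fst ++ r⟩])
      (⟨l, .cr x y s, M.map Prod.fst ++ b :: r⟩ :: crossL b r l ((y, o') :: (x, o) :: M)) := by
  have hm := Move.reid3 l (M.map Prod.fst ++ r) x y b s o o' h.symm
  refine (Rw.back (ρ := l ++ x :: y :: b :: (M.map Prod.fst ++ r))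
    (σ := l ++ b :: y :: x :: (M.map Prod.fst ++ r)) hm
    (by simp [Run, Sl.src, Sl.tgt, Gen.src, Gen.tgt]) (by simp)).step
    (crossL b r (l ++ [x, y]) M) [] (by simp [crossL]) rfl ?_
  exact (crossL_left l [] r (.cr x y s) b M).last []
    [⟨l ++ [y], .cr x b o, M.map Prod.fst ++ r⟩, ⟨l, .cr y b o', x :: (M.map Prod.fst ++ r)⟩]
    (by simp [Gen.src]) (by simp [crossL, Gen.tgt])

/-- a crossing in the middle part of a row -/
theorem ev_mid (l r : List α) (x y a b : α) (o o' s u u' : Bool) (M₁ M₂ : List (α × Bool))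
    (h : b = if u = u' then rev a else a) (hs : o = o' ∨ s = o) :
    Rw fa (event l a u (M₁ ++ (x, o) :: (y, o') :: M₂) b u' r ++
        [⟨l ++ (if u then [a] else []) ++ M₁.map Prod.fst, .cr x y s,
          M₂.map Prod.fst ++ ((if u' then [b] else []) ++ r)⟩])
      (⟨l ++ (if u then [] else [a]) ++ M₁.map Prod.fst, .cr x y s,
          M₂.map Prod.fst ++ ((if u' then [] else [b]) ++ r)⟩ ::
        event l a u (M₁ ++ (y, o') :: (x, o) :: M₂) b u' r) := by
  have h1 := ev_right (fa := fa) l [] (M₂.map Prod.fst ++ r) x y a b s u u' M₁ h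
  cases u'
  · rw [event_append_down, event_append_down]
    refine h1.step (crossL b r (l ++ (if u then [] else [a]) ++ M₁.map Prod.fst)
      ((x, o) :: (y, o') :: M₂)) [] (by simp) rfl ?_
    exact (crossL_r3 (l ++ (if u then [] else [a]) ++ M₁.map Prod.fst) r b x y o o' s M₂ hs).last []
      (event l a u M₁ b false (y :: x :: (M₂.map Prod.fst ++ r))) (by simp) (by simp)
  · rw [event_append_up, event_append_up]
    refine (crossR_r3 (l ++ (if u then [a] else []) ++ M₁.map Prod.fst) r b x y o o' s M₂ hs).step
      (event l a u M₁ b true (x :: y :: (M₂.map Prod.fst ++ r))) [] (by simp) rfl ?_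
    exact h1.last [] (crossR b r (l ++ (if u then [a] else []) ++ M₁.map Prod.fst)
      ((y, o') :: (x, o) :: M₂)) (by simp) (by simp)

theorem reid2' (l r : List α) (x y : α) (s : Bool) :
    Rw fa [⟨l, .cr x y (!s), r⟩, ⟨l, .cr y x s, r⟩] [] := by
  have h := Rw.of_move (fa := fa) (Move.reid2 l r x y (!s))
  rwa [Bool.not_not] at h

/-- the left end goes up and passes a column -/
theorem ev_lend_up (l r : List α) (y a b : α) (o u' : Bool) (M : List (α × Bool))
    (h : b = if true = u' then rev a else a) :
    Rw fa (event l a true ((y, o) :: M) b u' r ++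
        [⟨l, .cr a y (!o), M.map Prod.fst ++ ((if u' then [b] else []) ++ r)⟩])
      (event (l ++ [y]) a true M b u' r) := by
  cases u'
  · obtain rfl : b = a := by simpa using h
    exact (Rw.of_move (Move.reid2 l (M.map Prod.fst ++ r) y b o)).last (crossL b r (l ++ [y]) M) []
      (by simp [event, crossL]) (by simp [event])
  · obtain rfl : b = rev a := by simpa using h
    refine (crossR_left l [] r (.cr a y (!o)) (rev a) M).step
      [⟨l, .cup a, y :: (M.map Prod.fst ++ r)⟩,
        ⟨l ++ [a], .cr (rev a) y (!o), M.map Prod.fst ++ r⟩] []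
      (by simp [event, crossR, Gen.src]) rfl ?_
    refine (Rw.back (ρ := l ++ y :: (M.map Prod.fst ++ r))
      (σ := l ++ a :: y :: rev a :: (M.map Prod.fst ++ r))
      (Move.cupSlide l (M.map Prod.fst ++ r) y a o)
      (by simp [Run, Sl.src, Sl.tgt, Gen.src, Gen.tgt]) (by simp)).step []
      (⟨l, .cr a y (!o), rev a :: (M.map Prod.fst ++ r)⟩ :: crossR (rev a) r (l ++ [y, a]) M)
      (by simp [Gen.tgt]) rfl ?_
    exact (Rw.of_move (Move.reid2 l (rev a :: (M.map Prod.fst ++ r)) y a o)).last
      [⟨l ++ [y], .cup a, M.map Prod.fst ++ r⟩] (crossR (rev a) r (l ++ [y, a]) M)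
      (by simp) (by simp [event])

/-- the left end goes down and passes a column -/
theorem ev_lend_down (l r : List α) (y a b : α) (o u' : Bool) (M : List (α × Bool))
    (h : b = if false = u' then rev a else a) :
    Rw fa (⟨l, .cr a y (!o), M.map Prod.fst ++ ((if u' then [] else [b]) ++ r)⟩ ::
        event (l ++ [y]) a false M b u' r) (event l a false ((y, o) :: M) b u' r) := by
  cases u'
  · obtain rfl : b = rev a := by simpa using h
    have h1 := Rw.of_eqv (farL (fa := fa) (run_crossL (rev a) [] r M) l [] (.cr a y (!o))) (by simp)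
    rw [← crossL_pad, ← crossL_pad] at h1
    refine h1.step [] [⟨l ++ [y], .cap a, M.map Prod.fst ++ r⟩]
      (by simp [event, Gen.tgt]) rfl ?_
    have h2 := Rw.of_move (fa := fa) (Move.capSlide l (M.map Prod.fst ++ r) y a (!o))
    rw [Bool.not_not] at h2
    exact h2.last (crossL (rev a) r (l ++ [a, y]) M) [] (by simp [Gen.src])
      (by simp [event, crossL])
  · obtain rfl : b = a := by simpa using h
    exact Rw.of_eq (by simp [event, crossR])

theorem WF.swap {A B : List (Cell α)} {c c' : Option (Cell α)}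
    (h : WF (A ++ c.toList ++ c'.toList ++ B)) : WF (A ++ c'.toList ++ c.toList ++ B) := by
  obtain ⟨a, u, b, u', h1, h2⟩ := h
  rcases c with _ | _ | ⟨x, v⟩ <;> rcases c' with _ | _ | ⟨y, v'⟩
  case some.fin.some.fin =>
    simp only [Option.toList_some, fins_append, fins_fin, fins_nil] at h1
    have h3 := congrArg List.length h1
    simp only [List.length_append, List.length_cons, List.length_nil] at h3
    have hA : fins A = [] := List.length_eq_zero_iff.1 (by omega)
    have hB : fins B = [] := List.length_eq_zero_iff.1 (by omega)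
    rw [hA, hB] at h1
    simp only [List.nil_append, List.cons_append, List.cons.injEq, Prod.mk.injEq, and_true] at h1
    obtain ⟨⟨rfl, rfl⟩, rfl, rfl⟩ := h1
    refine ⟨y, v', x, v, by simp [hA, hB], ?_⟩
    rw [h2]
    cases v <;> cases v' <;> simp [rev_rev]
  all_goals exact ⟨a, u, b, u', by simpa using h1, h2⟩

theorem bel_four (A B : List (Cell α)) (c c' : Option (Cell α)) :
    bel (A ++ c.toList ++ c'.toList ++ B) =
      bel A ++ (c.bind be).toList ++ (c'.bind be).toList ++ bel B := by
  simp only [bel_append, bel_opt]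

theorem abv_four (A B : List (Cell α)) (c c' : Option (Cell α)) :
    abv (A ++ c.toList ++ c'.toList ++ B) =
      abv A ++ (c.bind ab).toList ++ (c'.bind ab).toList ++ abv B := by
  simp only [abv_append, abv_opt]

/-- the statement of the exchange lemma -/
def XS (fa : Bool) (A B : List (Cell α)) (c c' : Option (Cell α)) (s : Bool) : Prop :=
  Eqv fa (bel (A ++ c.toList ++ c'.toList ++ B))
    (abv (A ++ c'.toList ++ c.toList ++ B))
    (evOf (A ++ c.toList ++ c'.toList ++ B) ++
      sig (abv A) (c.bind ab) (c'.bind ab) s (abv B))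
    (sig (bel A) (c.bind be) (c'.bind be) s (bel B) ++
      evOf (A ++ c'.toList ++ c.toList ++ B))

theorem XS.of_rw {A B : List (Cell α)} {c c' : Option (Cell α)} {s : Bool}
    (h : WF (A ++ c.toList ++ c'.toList ++ B))
    (hr : Rw fa (evOf (A ++ c.toList ++ c'.toList ++ B) ++
        sig (abv A) (c.bind ab) (c'.bind ab) s (abv B))
      (sig (bel A) (c.bind be) (c'.bind be) s (bel B) ++
        evOf (A ++ c'.toList ++ c.toList ++ B))) : XS fa A B c c' s := by
  refine hr _ _ (run_append.2 ⟨_, run_evOf h, ?_⟩)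
  rw [abv_four, abv_four]
  exact run_sig _ _ _ _ _

theorem XS.of_rw' {A B : List (Cell α)} {c c' : Option (Cell α)} {s : Bool}
    (h : WF (A ++ c.toList ++ c'.toList ++ B))
    (hr : Rw fa (sig (bel A) (c.bind be) (c'.bind be) s (bel B) ++
        evOf (A ++ c'.toList ++ c.toList ++ B))
      (evOf (A ++ c.toList ++ c'.toList ++ B) ++
        sig (abv A) (c.bind ab) (c'.bind ab) s (abv B))) : XS fa A B c c' s := by
  refine (hr _ _ (run_append.2 ⟨_, ?_, run_evOf h.swap⟩)).symm
  rw [bel_four, bel_four]
  exact run_sig _ _ _ _ _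

theorem XS.flip {A B : List (Cell α)} {c c' : Option (Cell α)} {s : Bool}
    (h : WF (A ++ c.toList ++ c'.toList ++ B)) (hx : XS fa A B c c' s) : XS fa A B c' c (!s) := by
  have hE := run_evOf h
  have hE' := run_evOf h.swap
  unfold XS at hx ⊢
  rw [bel_four, abv_four] at hE hE' hx ⊢
  have h1 := (sig_inv (fa := fa) (bel A) (bel B) (c'.bind be) (c.bind be) (!s)).symm
  rw [Bool.not_not] at h1
  have ra := run_sig (abv A) (abv B) (c'.bind ab) (c.bind ab) (!s)
  have rb := run_sig (bel A) (bel B) (c'.bind be) (c.bind be) (!s)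
  have h2 := (h1.append (Eqv.refl hE')).append (Eqv.refl ra)
  have h3 := ((Eqv.refl (fa := fa) rb).append hx.symm).append (Eqv.refl ra)
  have h4 := ((Eqv.refl (fa := fa) rb).append (Eqv.refl hE)).append
    (sig_inv (abv A) (abv B) (c.bind ab) (c'.bind ab) s)
  simp only [List.nil_append, List.append_nil, List.append_assoc] at h2 h3 h4 ⊢
  exact h2.trans (h3.trans h4)

theorem xs_thru {A B : List (Cell α)} {x y : α} {o o' s : Bool}
    (h : WF (A ++ (some (Cell.thru x o)).toList ++ (some (Cell.thru y o')).toList ++ B))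
    (hs : o = o' ∨ s = o) : XS fa A B (some (.thru x o)) (some (.thru y o')) s := by
  refine XS.of_rw h ?_
  obtain ⟨a, u, b, u', h1, h2⟩ := h
  have h3 : fins A ++ fins B = [(a, u), (b, u')] := by simpa using h1
  rcases hA : fins A with _ | ⟨p, _ | ⟨q, t⟩⟩
  · rw [hA, List.nil_append] at h3
    obtain ⟨L, rfl⟩ := thru_of_fi hA
    obtain ⟨L', M, R, rfl⟩ := split_two h3
    have e1 := evOf_eq (L ++ (x, o) :: (y, o') :: L') M R a b u u'
    have e2 := evOf_eq (L ++ (y, o') :: (x, o) :: L') M R a b u u'
    have h4 := ev_left (fa := fa) (L.map Prod.fst) (L'.map Prod.fst) (R.map Prod.fst) x y a b s u u'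
      M h2
    simp only [List.map_append, List.map_cons, List.append_assoc, List.cons_append] at e1 e2
    simp only [Option.toList_some, List.append_assoc, List.cons_append, List.nil_append, e1, e2]
    cases u <;> cases u' <;> simpa [sig, ab, be] using h4
  · rw [hA] at h3
    simp only [List.cons_append, List.nil_append, List.cons.injEq] at h3
    obtain ⟨rfl, h3⟩ := h3
    obtain ⟨L, M₁, rfl⟩ := split_one hA
    obtain ⟨M₂, R, rfl⟩ := split_one h3
    have e1 := evOf_eq L (M₁ ++ (x, o) :: (y, o') :: M₂) R a b u u'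
    have e2 := evOf_eq L (M₁ ++ (y, o') :: (x, o) :: M₂) R a b u u'
    have h4 := ev_mid (fa := fa) (L.map Prod.fst) (R.map Prod.fst) x y a b o o' s u u' M₁ M₂ h2 hs
    simp only [List.map_append, List.map_cons, List.append_assoc, List.cons_append] at e1 e2
    simp only [Option.toList_some, List.append_assoc, List.cons_append, List.nil_append, e1, e2]
    cases u <;> cases u' <;> simpa [sig, ab, be] using h4
  · rw [hA] at h3
    simp only [List.cons_append, List.cons.injEq, List.append_eq_nil_iff] at h3
    obtain ⟨rfl, rfl, rfl, h3⟩ := h3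
    obtain ⟨L, M, R, rfl⟩ := split_two hA
    obtain ⟨R', rfl⟩ := thru_of_fi h3
    have e1 := evOf_eq L M (R ++ (x, o) :: (y, o') :: R') a b u u'
    have e2 := evOf_eq L M (R ++ (y, o') :: (x, o) :: R') a b u u'
    have h4 := ev_right (fa := fa) (L.map Prod.fst) (R.map Prod.fst) (R'.map Prod.fst) x y a b s u u'
      M h2
    simp only [List.map_append, List.map_cons, List.append_assoc, List.cons_append] at e1 e2
    simp only [Option.toList_some, List.append_assoc, List.cons_append, List.nil_append, e1, e2]
    cases u <;> cases u' <;> simpa [sig, ab, be] using h4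

theorem xs_fin_thru {A B : List (Cell α)} {x y : α} {v o : Bool}
    (h : WF (A ++ (some (Cell.fin x v)).toList ++ (some (Cell.thru y o)).toList ++ B)) :
    XS fa A B (some (.fin x v)) (some (.thru y o)) (!o) := by
  obtain ⟨a, u, b, u', h1, h2⟩ := id h
  have h3 : fins A ++ (x, v) :: fins B = [(a, u), (b, u')] := by
    simpa using h1
  rcases hA : fins A with _ | ⟨p, t⟩
  · rw [hA] at h3
    simp only [List.nil_append, List.cons.injEq, Prod.mk.injEq] at h3
    obtain ⟨⟨rfl, rfl⟩, h3⟩ := h3
    obtain ⟨L, rfl⟩ := thru_of_fi hA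
    obtain ⟨M, R, rfl⟩ := split_one h3
    have e1 := evOf_eq L ((y, o) :: M) R x b v u'
    have e2 := evOf_eq (L ++ [(y, o)]) M R x b v u'
    simp only [List.map_append, List.map_cons, List.append_assoc, List.cons_append, List.map_nil,
      List.nil_append] at e1 e2
    cases v
    · refine XS.of_rw' h ?_
      have h4 := ev_lend_down (fa := fa) (L.map Prod.fst) (R.map Prod.fst) y x b o u' M h2
      simp only [Option.toList_some, List.append_assoc, List.cons_append, List.nil_append, e1, e2]
      cases u' <;> simpa [sig, ab, be] using h4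
    · refine XS.of_rw h ?_
      have h4 := ev_lend_up (fa := fa) (L.map Prod.fst) (R.map Prod.fst) y x b o u' M h2
      simp only [Option.toList_some, List.append_assoc, List.cons_append, List.nil_append, e1, e2]
      cases u' <;> simpa [sig, ab, be] using h4
  · rw [hA] at h3
    simp only [List.cons_append, List.cons.injEq] at h3
    obtain ⟨rfl, h3⟩ := h3
    obtain rfl : t = [] := by
      have := congrArg List.length h3
      simp only [List.length_append, List.length_cons, List.length_nil] at this
      exact List.length_eq_zero_iff.1 (by omega)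
    simp only [List.nil_append, List.cons.injEq, Prod.mk.injEq] at h3
    obtain ⟨⟨rfl, rfl⟩, h3⟩ := h3
    obtain ⟨L, M, rfl⟩ := split_one hA
    obtain ⟨R, rfl⟩ := thru_of_fi h3
    have e1 := evOf_eq L M ((y, o) :: R) a x u v
    have e2 := evOf_eq L (M ++ [(y, o)]) R a x u v
    simp only [List.map_append, List.map_cons, List.append_assoc, List.cons_append, List.map_nil,
      List.nil_append] at e1 e2
    cases v
    · refine XS.of_rw' h ?_
      simp only [Option.toList_some, List.append_assoc, List.cons_append, List.nil_append, e1, e2]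
      rw [event_append_down]
      refine (reid2' (L.map Prod.fst ++ (if u then [] else [a]) ++ M.map Prod.fst) (R.map Prod.fst)
        x y o).last [] (event (L.map Prod.fst) a u M x false (y :: R.map Prod.fst)) ?_ ?_
      · cases u <;> simp [sig, be, crossL]
      · simp [sig, ab]
    · refine XS.of_rw h (Rw.of_eq ?_)
      simp only [Option.toList_some, List.append_assoc, List.cons_append, List.nil_append, e1, e2]
      rw [event_append_up]
      cases u <;> simp [sig, ab, be, crossR]

theorem xs_fin_fin {A B : List (Cell α)} {x y : α} {v v' s : Bool}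
    (h : WF (A ++ (some (Cell.fin x v)).toList ++ (some (Cell.fin y v')).toList ++ B))
    (hs : fa = false ∨ v ≠ v') : XS fa A B (some (.fin x v)) (some (.fin y v')) s := by
  obtain ⟨a, u, b, u', h1, h2⟩ := id h
  simp only [Option.toList_some, fins_append, fins_fin, fins_nil] at h1
  have h3 := congrArg List.length h1
  simp only [List.length_append, List.length_cons, List.length_nil] at h3
  have hA : fins A = [] := List.length_eq_zero_iff.1 (by omega)
  have hB : fins B = [] := List.length_eq_zero_iff.1 (by omega)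
  rw [hA, hB] at h1
  simp only [List.nil_append, List.cons_append, List.cons.injEq, Prod.mk.injEq, and_true] at h1
  obtain ⟨⟨rfl, rfl⟩, rfl, rfl⟩ := h1
  obtain ⟨L, rfl⟩ := thru_of_fi hA
  obtain ⟨R, rfl⟩ := thru_of_fi hB
  have e1 := evOf_eq L [] R x y v v'
  have e2 := evOf_eq L [] R y x v' v
  simp only [List.map_nil, List.nil_append] at e1 e2
  cases v <;> cases v'
  · refine XS.of_rw' h ?_
    simp only [Option.toList_some, List.append_assoc, List.cons_append, List.nil_append, e1, e2]
    obtain rfl : x = rev y := by rw [h2]; simp [rev_rev]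
    have h4 := Rw.of_curl (by simpa using hs) (Curl.cap (L.map Prod.fst) (R.map Prod.fst) y s)
    simpa [sig, ab, be, event, crossL] using h4
  · refine XS.of_rw h (Rw.of_eq ?_)
    simp only [Option.toList_some, List.append_assoc, List.cons_append, List.nil_append, e1, e2]
    simp [sig, ab, be, event, crossL, crossR]
  · refine XS.of_rw h (Rw.of_eq ?_)
    simp only [Option.toList_some, List.append_assoc, List.cons_append, List.nil_append, e1, e2]
    simp [sig, ab, be, event, crossL, crossR]
  · refine XS.of_rw h ?_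
    simp only [Option.toList_some, List.append_assoc, List.cons_append, List.nil_append, e1, e2]
    obtain rfl : y = rev x := by simpa using h2
    have h4 := Rw.of_curl (by simpa using hs) (Curl.cup (L.map Prod.fst) (R.map Prod.fst) x s)
    simpa [sig, ab, be, event, crossR] using h4

/-- The exchange lemma. -/
theorem xs {A B : List (Cell α)} {c c' : Option (Cell α)} {s : Bool}
    (h : WF (A ++ c.toList ++ c'.toList ++ B)) (hs : Ok fa c c' s) : XS fa A B c c' s := by
  rcases c with _ | ⟨x, o⟩ | ⟨x, v⟩
  · exact XS.of_rw h (Rw.of_eq (by simp [sig]))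
  · rcases c' with _ | ⟨y, o'⟩ | ⟨y, v'⟩
    · exact XS.of_rw h (Rw.of_eq (by simp [sig]))
    · exact xs_thru h hs
    · obtain rfl : s = o := hs
      have h1 := (xs_fin_thru (fa := fa) h.swap).flip h.swap
      rwa [Bool.not_not] at h1
  · rcases c' with _ | ⟨y, o'⟩ | ⟨y, v'⟩
    · exact XS.of_rw h (Rw.of_eq (by simp [sig]))
    · obtain rfl : s = !o' := hs
      exact xs_fin_thru h
    · exact xs_fin_fin h hs

end WC

end Pool.Agent.P.MP_ac4909_gt.B
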