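import Pool.Agent.P.MP_ac4909_gt.B.WCell_X

/-! Exchange of two consecutive rows of a grid. -/

namespace Pool.Agent.P.MP_ac4909_gt.B

open Rev

namespace WC

variable {α N : Type} [DecidableEq N]

theorem idx_two {A B : List N} {e f : N} (h : (A ++ e :: f :: B).Nodup) :
    (A ++ e :: f :: B).idxOf e = A.length ∧ (A ++ e :: f :: B).idxOf f = A.length + 1 ∧
    (A ++ f :: e :: B).idxOf f = A.length ∧ (A ++ f :: e :: B).idxOf e = A.length + 1 ∧
    ∀ g, g ≠ e → g ≠ f → (A ++ f :: e :: B).idxOf g = (A ++ e :: f :: B).idxOf g ∧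
      ((A ++ e :: f :: B).idxOf g < A.length ∨ A.length + 1 < (A ++ e :: f :: B).idxOf g) := by
  have h1 := List.nodup_append.1 h
  have he : e ∉ A := fun he => h1.2.2 e he e (by simp) rfl
  have hf : f ∉ A := fun hf => h1.2.2 f hf f (by simp) rfl
  have hef : e ≠ f := fun h => (List.nodup_cons.1 h1.2.1).1 (by simp [h])
  refine ⟨?_, ?_, ?_, ?_, fun g hge hgf => ?_⟩
  · rw [List.idxOf_append_of_notMem he, List.idxOf_cons_self, add_zero]
  · rw [List.idxOf_append_of_notMem hf, List.idxOf_cons_ne _ hef, List.idxOf_cons_self]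
  · rw [List.idxOf_append_of_notMem hf, List.idxOf_cons_self, add_zero]
  · rw [List.idxOf_append_of_notMem he, List.idxOf_cons_ne _ hef.symm, List.idxOf_cons_self]
  · by_cases hg : g ∈ A
    · rw [List.idxOf_append_of_mem hg, List.idxOf_append_of_mem hg]
      exact ⟨rfl, Or.inl (List.idxOf_lt_length_of_mem hg)⟩
    · rw [List.idxOf_append_of_notMem hg, List.idxOf_append_of_notMem hg,
        List.idxOf_cons_ne _ hge.symm, List.idxOf_cons_ne _ hgf.symm,
        List.idxOf_cons_ne _ hgf.symm, List.idxOf_cons_ne _ hge.symm]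
      exact ⟨rfl, Or.inr (by omega)⟩

/-- what a double cell says about its column -/
def Spec (G : Grid N α) (z : N → ℝ) (e f v : N) : Option (DC α) → Prop
  | some (.thru _ o o') => o = decide (z e < z v) ∧ o' = decide (z f < z v) ∧
      (∀ s, G.nb v s ≠ e) ∧ ∀ s, G.nb v s ≠ f
  | some (.ee _ _) => (∃ s, G.nb v s = e) ∧ ∀ s, G.nb v s ≠ f
  | some (.ef _ _) => (∀ s, G.nb v s ≠ e) ∧ ∃ s, G.nb v s = f
  | some (.sh _) => (∃ s, G.nb v s = e) ∧ ∃ s, G.nb v s = f
  | none => (∀ s, G.nb v s ≠ e) ∧ ∀ s, G.nb v s ≠ f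

variable [Rev α] {G : Grid N α} {fa : Bool}

theorem exists_dc (hG : G.OK) {X Y₁ Y₂ : List N} {z : N → ℝ} {e f : N}
    (hn : (Y₁ ++ e :: f :: Y₂).Nodup) (v : N)
    (he : (∃ s, G.nb v s = e) → (∀ s, G.nb v s ≠ f) → ¬z f < z v)
    (hf : (∀ s, G.nb v s ≠ e) → (∃ s, G.nb v s = f) → z e < z v) :
    ∃ od : Option (DC α), G.cell ⟨X, Y₁ ++ e :: f :: Y₂, z⟩ e v = od.bind c1e ∧
      G.cell ⟨X, Y₁ ++ e :: f :: Y₂, z⟩ f v = od.bind c1f ∧
      G.cell ⟨X, Y₁ ++ f :: e :: Y₂, z⟩ f v = od.bind c2f ∧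
      G.cell ⟨X, Y₁ ++ f :: e :: Y₂, z⟩ e v = od.bind c2e ∧ Spec G z e f v od := by
  obtain ⟨i1, i2, i3, i4, i5⟩ := idx_two hn
  have hef : e ≠ f := fun h => by rw [h] at i1 i2; omega
  have b2 : ∀ s t : Bool, t = s ∨ t = !s := by decide
  have l1 : ∀ a b, Rz.ltY ⟨X, Y₁ ++ e :: f :: Y₂, z⟩ a b ↔
      (Y₁ ++ e :: f :: Y₂).idxOf a < (Y₁ ++ e :: f :: Y₂).idxOf b := fun _ _ => Iff.rfl
  have l2 : ∀ a b, Rz.ltY ⟨X, Y₁ ++ f :: e :: Y₂, z⟩ a b ↔
      (Y₁ ++ f :: e :: Y₂).idxOf a < (Y₁ ++ f :: e :: Y₂).idxOf b := fun _ _ => Iff.rfl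
  by_cases c1 : ∃ s, G.nb v s = e
  · obtain ⟨s, hs⟩ := c1
    have hge : G.nb v (!s) ≠ e := hs ▸ nb_not hG v s
    have hss : G.nb v (!!s) = e := by rw [Bool.not_not, hs]
    by_cases c2 : G.nb v (!s) = f
    · refine ⟨some (.sh (G.dl e v)), ?_, ?_, ?_, ?_, ⟨s, hs⟩, ⟨!s, c2⟩⟩
      · rw [cell_fin hG hs, if_pos (by rw [l1, c2]; omega)]; rfl
      · rw [cell_fin hG c2, if_neg (by rw [l1, hss]; omega), ← c2, ← dl_pass hG, hs]; rfl
      · rw [cell_fin hG c2, if_pos (by rw [l2, hss]; omega), ← c2, hG.dl_rev, ← dl_pass hG, hs]; rfl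
      · rw [cell_fin hG hs, if_neg (by rw [l2, c2]; omega), ← hs, hG.dl_rev]
        change _ = some (Cell.fin (rev (rev _)) false)
        rw [rev_rev]
    · have hnf : ∀ t, G.nb v t ≠ f := fun t => by
        rcases b2 s t with rfl | rfl
        · rw [hs]; exact hef
        · exact c2
      have hb : decide (z f < z v) = false := decide_eq_false (he ⟨s, hs⟩ hnf)
      obtain ⟨j1, j2 | j2⟩ := i5 _ hge c2
      · refine ⟨some (.ee (G.dl v e) false), ?_, ?_, ?_, ?_, ⟨s, hs⟩, hnf⟩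
        · rw [cell_fin hG hs, if_neg (by rw [l1]; omega)]; rfl
        · refine cell_none hnf fun t => ?_
          rcases b2 s t with rfl | rfl <;> simp only [l1, hs, hss] <;> omega
        · rw [cell_thru (!s) (by rw [l2]; omega) (by rw [l2, hss]; omega), dl_pass hG, hss]
          exact congrArg (fun o => some (Cell.thru _ o)) hb
        · rw [cell_fin hG hs, if_neg (by rw [l2]; omega)]; rfl
      · refine ⟨some (.ee (G.dl e v) true), ?_, ?_, ?_, ?_, ⟨s, hs⟩, hnf⟩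
        · rw [cell_fin hG hs, if_pos (by rw [l1]; omega)]; rfl
        · rw [cell_thru s (by rw [l1, hs]; omega) (by rw [l1]; omega), hs]
          exact congrArg (fun o => some (Cell.thru _ o)) hb
        · refine cell_none hnf fun t => ?_
          rcases b2 s t with rfl | rfl <;> simp only [l2, hs, hss] <;> omega
        · rw [cell_fin hG hs, if_pos (by rw [l2]; omega)]; rfl
  · have hne := not_exists.1 c1
    by_cases c2 : ∃ s, G.nb v s = f
    · obtain ⟨s, hs⟩ := c2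
      have hgf : G.nb v (!s) ≠ f := hs ▸ nb_not hG v s
      have hss : G.nb v (!!s) = f := by rw [Bool.not_not, hs]
      have hb : decide (z e < z v) = true := decide_eq_true (hf hne ⟨s, hs⟩)
      obtain ⟨j1, j2 | j2⟩ := i5 _ (hne (!s)) hgf
      · refine ⟨some (.ef (G.dl v f) false), ?_, ?_, ?_, ?_, hne, ⟨s, hs⟩⟩
        · rw [cell_thru (!s) (by rw [l1]; omega) (by rw [l1, hss]; omega), dl_pass hG, hss]
          exact congrArg (fun o => some (Cell.thru _ o)) hb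
        · rw [cell_fin hG hs, if_neg (by rw [l1]; omega)]; rfl
        · rw [cell_fin hG hs, if_neg (by rw [l2]; omega)]; rfl
        · refine cell_none hne fun t => ?_
          rcases b2 s t with rfl | rfl <;> simp only [l2, hs, hss] <;> omega
      · refine ⟨some (.ef (G.dl f v) true), ?_, ?_, ?_, ?_, hne, ⟨s, hs⟩⟩
        · refine cell_none hne fun t => ?_
          rcases b2 s t with rfl | rfl <;> simp only [l1, hs, hss] <;> omega
        · rw [cell_fin hG hs, if_pos (by rw [l1]; omega)]; rfl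
        · rw [cell_fin hG hs, if_pos (by rw [l2]; omega)]; rfl
        · rw [cell_thru s (by rw [l2, hs]; omega) (by rw [l2]; omega), hs]
          exact congrArg (fun o => some (Cell.thru _ o)) hb
    · have hnf := not_exists.1 c2
      have j := fun s => i5 _ (hne s) (hnf s)
      by_cases c3 : ∃ s, (Y₁ ++ e :: f :: Y₂).idxOf (G.nb v s) < Y₁.length ∧
          Y₁.length + 1 < (Y₁ ++ e :: f :: Y₂).idxOf (G.nb v (!s))
      · obtain ⟨s, k1, k2⟩ := c3
        have j1 := (j s).1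
        have j2 := (j (!s)).1
        refine ⟨some (.thru (G.dl (G.nb v s) v) (decide (z e < z v)) (decide (z f < z v))),
          ?_, ?_, ?_, ?_, rfl, rfl, hne, hnf⟩
        · exact cell_thru s (by rw [l1]; omega) (by rw [l1]; omega)
        · exact cell_thru s (by rw [l1]; omega) (by rw [l1]; omega)
        · exact cell_thru s (by rw [l2]; omega) (by rw [l2]; omega)
        · exact cell_thru s (by rw [l2]; omega) (by rw [l2]; omega)
      · have k := not_exists.1 c3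
        refine ⟨none, cell_none hne fun t => ?_, cell_none hnf fun t => ?_,
          cell_none hnf fun t => ?_, cell_none hne fun t => ?_, hne, hnf⟩
        all_goals
          have k1 := k t
          have j1 := j t
          have j2 := j (!t)
          simp only [l1, l2]
          omega

theorem yswap_core (hG : G.OK) {X Y₁ Y₂ : List N} {z : N → ℝ} {e f : N}
    (hR : Rz.OK ⟨X, Y₁ ++ e :: f :: Y₂, z⟩ G.col) (hR' : Rz.OK ⟨X, Y₁ ++ f :: e :: Y₂, z⟩ G.col)
    (hz : z e < z f) (he : ∀ s, (∀ t, G.nb e s ≠ G.nb f t) → ¬z f < z (G.nb e s))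
    (hf : ∀ t, (∀ s, G.nb e s ≠ G.nb f t) → z e < z (G.nb f t))
    (hsh : (∀ s t, G.nb e s ≠ G.nb f t) ∨ ∃ s t, G.nb e s = G.nb f t ∧
      G.nb e (!s) ≠ G.nb f (!t) ∧ (fa = false ∨ X.idxOf (G.nb e (!s)) < X.idxOf (G.nb e s) ∧
        X.idxOf (G.nb f t) < X.idxOf (G.nb f (!t)))) :
    Eqv fa (G.rowAt Y₁ X) (G.rowAt (Y₁ ++ [e, f]) X)
      (G.evs ⟨X, Y₁ ++ e :: f :: Y₂, z⟩ X [e, f]) (G.evs ⟨X, Y₁ ++ f :: e :: Y₂, z⟩ X [f, e]) := by
  have adj : ∀ {a b : N}, (∃ s, G.nb a s = b) → ∃ s, G.nb b s = a := by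
    rintro a b ⟨s, rfl⟩
    exact hG.adj_symm a s
  have b2 : ∀ s t : Bool, t = s ∨ t = !s := by decide
  have hd := fun v => exists_dc hG (X := X) (z := z) hR.nodupY v
    (fun h1 h2 => by
      obtain ⟨s, rfl⟩ := adj h1
      refine he s fun t ht => ?_
      obtain ⟨t', ht'⟩ := adj ⟨t, ht.symm⟩
      exact h2 t' ht')
    (fun h1 h2 => by
      obtain ⟨t, rfl⟩ := adj h2
      refine hf t fun s hs => ?_
      obtain ⟨t', ht'⟩ := adj ⟨s, hs⟩
      exact h1 t' ht')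
  choose d d1 d2 d3 d4 d5 using hd
  have hce : G.col e = false := (hR.memY e).1 (by simp)
  have hcf : G.col f = false := (hR.memY f).1 (by simp)
  have w1 := wf_cells hG hR hce
  have w2 := wf_cells hG hR hcf
  have w3 := wf_cells hG hR' hcf
  have w4 := wf_cells hG hR' hce
  have r1 := bel_cells hG hR.nodupY (rfl : _ = Y₁ ++ e :: f :: Y₂) X
  have r2 := abv_cells hG hR.nodupY (Y₁ := Y₁ ++ [e]) (Y₂ := Y₂) (e := f) (by simp) X
  rw [List.append_assoc] at r2
  have fm : ∀ {c : N → Option (Cell α)} {k : DC α → Option (Cell α)},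
      (∀ v, c v = (d v).bind k) → X.filterMap c = (X.filterMap d).filterMap k := fun h => by
    rw [List.filterMap_filterMap, funext h]
  change Eqv fa _ (G.rowAt (Y₁ ++ ([e] ++ [f])) X) _ _
  simp only [Grid.evs, List.flatMap_cons, List.flatMap_nil, List.append_nil]
  simp only at w1 w2 w3 w4
  rw [← r1, ← r2]
  rw [fm d1] at w1 ⊢
  rw [fm d2] at w2 ⊢
  rw [fm d3] at w3 ⊢
  rw [fm d4] at w4 ⊢
  have good : ∀ v, ¬((∃ s, G.nb v s = e) ∧ ∃ s, G.nb v s = f) → ∀ x, d v = some x → x.Good := by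
    intro v hv x hx
    have h5 := d5 v
    rw [hx] at h5
    cases x with
    | thru x o o' =>
      obtain ⟨rfl, rfl, -⟩ := h5
      exact fun h => decide_eq_true (hz.trans (of_decide_eq_true h))
    | ee => trivial
    | ef => trivial
    | sh => exact hv h5
  refine (?_ : QQ fa (X.filterMap d)) ⟨w1, w2, w3, w4⟩
  rcases hsh with hsh | ⟨s, t, h1, h2, h3⟩
  · refine dc_ns fun x hx => ?_
    obtain ⟨v, -, hv⟩ := List.mem_filterMap.1 hx
    refine good v (fun h => ?_) x hv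
    obtain ⟨s, hs⟩ := adj h.1
    obtain ⟨t, ht⟩ := adj h.2
    exact hsh s t (hs.trans ht.symm)
  · have hn : X.Nodup := hR.nodupX
    have hv : G.nb e s ∈ X := (hR.memX _).2 (by rw [hG.col_nb, hce]; rfl)
    obtain ⟨X₁, X₂, hX⟩ := List.append_of_mem hv
    obtain ⟨x, hx⟩ : ∃ x, d (G.nb e s) = some (.sh x) := by
      have h5 := d5 (G.nb e s)
      obtain ⟨s', hs'⟩ := hG.adj_symm e s
      obtain ⟨t', ht'⟩ := hG.adj_symm f t
      rw [← h1] at ht'
      rcases hd : d (G.nb e s) with _ | _ | _ | _ | x <;> rw [hd] at h5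
      · exact absurd hs' (h5.1 s')
      · exact absurd hs' (h5.2.2.1 s')
      · exact absurd ht' (h5.2 t')
      · exact absurd hs' (h5.1 s')
      · exact ⟨x, rfl⟩
    have other : ∀ v, v ≠ G.nb e s → ∀ x, d v = some x → x.Good := fun v hv => good v fun h => by
      obtain ⟨s', hs⟩ := adj h.1
      obtain ⟨t', ht⟩ := adj h.2
      rcases b2 s s' with rfl | rfl
      · exact hv hs.symm
      · rcases b2 t t' with rfl | rfl
        · exact hv (ht.symm.trans h1.symm)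
        · exact h2 (hs.trans ht.symm)
    have lo : ∀ v, X.idxOf v < X.idxOf (G.nb e s) ↔ v ∈ X₁ := fun v => by
      have := idx_lt_iff (g := v) (hX ▸ hn)
      rwa [← hX] at this
    have n1 : G.nb e s ∉ X₁ := fun h => lt_irrefl _ ((lo _).2 h)
    have n2 := (List.nodup_append.1 (hX ▸ hn)).2
    rw [hX, List.filterMap_append, List.filterMap_cons, hx]
    refine dc_sh x (fun y hy => ?_) (fun y hy => ?_) (h3.imp id fun h3 => ⟨fun y hy => ?_,
      fun y hy => ?_⟩)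
    all_goals obtain ⟨v, hv1, hv2⟩ := List.mem_filterMap.1 hy
    · exact other v (fun h => n1 (h ▸ hv1)) y hv2
    · exact other v (fun h => (List.nodup_cons.1 n2.1).1 (h ▸ hv1)) y hv2
    · have h5 := d5 v
      rw [hv2] at h5
      cases y with
      | ef =>
        obtain ⟨t', rfl⟩ := adj h5.2
        have h6 := (lo _).2 hv1
        rw [h1] at h6
        rcases b2 t t' with rfl | rfl
        · exact absurd h6 (lt_irrefl _)
        · exact absurd h6 (lt_asymm h3.2)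
      | _ => rfl
    · have h5 := d5 v
      rw [hv2] at h5
      cases y with
      | ee =>
        obtain ⟨s', rfl⟩ := adj h5.1
        rcases b2 s s' with rfl | rfl
        · exact absurd hv1 (List.nodup_cons.1 n2.1).1
        · exact absurd rfl (n2.2 _ ((lo _).1 h3.1) _ (List.mem_cons_of_mem _ hv1))
      | _ => rfl

/-- rows whose spans do not overlap: the heights can be normalised -/
theorem yswap_mono (hG : G.OK) {X Y₁ Y₂ : List N} {z : N → ℝ} {e f : N}
    (hR : Rz.OK ⟨X, Y₁ ++ e :: f :: Y₂, z⟩ G.col) (hR' : Rz.OK ⟨X, Y₁ ++ f :: e :: Y₂, z⟩ G.col)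
    (hx : ∀ s t, X.idxOf (G.nb e s) ≤ X.idxOf (G.nb f t))
    (hsh : (∀ s t, G.nb e s ≠ G.nb f t) ∨ ∃ s t, G.nb e s = G.nb f t ∧
      G.nb e (!s) ≠ G.nb f (!t) ∧ (fa = false ∨ X.idxOf (G.nb e (!s)) < X.idxOf (G.nb e s) ∧
        X.idxOf (G.nb f t) < X.idxOf (G.nb f (!t)))) :
    Eqv fa (G.rowAt Y₁ X) (G.rowAt (Y₁ ++ [e, f]) X)
      (G.evs ⟨X, Y₁ ++ e :: f :: Y₂, z⟩ X [e, f]) (G.evs ⟨X, Y₁ ++ f :: e :: Y₂, z⟩ X [f, e]) := by
  classical
  have hce : G.col e = false := (hR.memY e).1 (by simp)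
  have hcf : G.col f = false := (hR.memY f).1 (by simp)
  have hef : e ≠ f := by
    obtain ⟨i1, i2, -⟩ := idx_two hR.nodupY
    intro h
    rw [h] at i1 i2
    omega
  let z' : N → ℝ := fun a => if G.col a = false then (if a = e then 0 else 2)
    else if ∃ s, G.nb e s = a then 0 else if ∃ t, G.nb f t = a then 3
    else if ∃ s, X.idxOf (G.nb e s) < X.idxOf a ∧ X.idxOf a < X.idxOf (G.nb e (!s))
      then (if z e < z a then 1 else -1) else (if z f < z a then 3 else 1)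
  have ze : z' e = 0 := by simp only [z', if_pos hce, if_true]
  have zf : z' f = 2 := by simp only [z', if_pos hcf, if_neg hef.symm]
  have cn : ∀ {a : N} (s), G.col a = false → ¬G.col (G.nb a s) = false := fun s h => by
    rw [hG.col_nb, h]; decide
  have b2 : ∀ s t : Bool, t = s ∨ t = !s := by decide
  have ke : ∀ Y v, G.col v = true → G.Crossing ⟨X, Y, z⟩ v e → (z e < z v ↔ z' e < z' v) := by
    rintro Y v hv ⟨-, s, k1, k2⟩
    change X.idxOf _ < X.idxOf _ at k1 k2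
    have n1 : ¬∃ s', G.nb e s' = v := by
      rintro ⟨s', rfl⟩
      rcases b2 s s' with rfl | rfl <;> omega
    have n2 : ¬∃ t, G.nb f t = v := by
      rintro ⟨t, rfl⟩
      have := hx (!s) t
      omega
    have n3 : ¬G.col v = false := by rw [hv]; decide
    rw [ze]
    simp only [z', if_neg n1, if_neg n2, if_neg n3, if_pos (⟨s, k1, k2⟩ : ∃ s, X.idxOf (G.nb e s) <
      X.idxOf v ∧ X.idxOf v < X.idxOf (G.nb e (!s)))]
    split_ifs with h
    · exact iff_of_true h one_pos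
    · exact iff_of_false h (by norm_num)
  have kf : ∀ Y v, G.col v = true → G.Crossing ⟨X, Y, z⟩ v f → (z f < z v ↔ z' f < z' v) := by
    rintro Y v hv ⟨-, t, k1, k2⟩
    change X.idxOf _ < X.idxOf _ at k1 k2
    have n1 : ¬∃ s', G.nb e s' = v := by
      rintro ⟨s, rfl⟩
      have := hx s t
      omega
    have n2 : ¬∃ t, G.nb f t = v := by
      rintro ⟨t', rfl⟩
      rcases b2 t t' with rfl | rfl <;> omega
    have n3 : ¬G.col v = false := by rw [hv]; decide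
    have n4 : ¬∃ s, X.idxOf (G.nb e s) < X.idxOf v ∧ X.idxOf v < X.idxOf (G.nb e (!s)) := by
      rintro ⟨s, -, k3⟩
      have := hx (!s) t
      omega
    rw [zf]
    simp only [z', if_neg n1, if_neg n2, if_neg n3, if_neg n4]
    split_ifs with h
    · exact iff_of_true h (by norm_num)
    · exact iff_of_false h (by norm_num)
  have h := yswap_core (fa := fa) (z := z') hG ⟨hR.1, hR.2, hR.3, hR.4⟩ ⟨hR'.1, hR'.2, hR'.3, hR'.4⟩
    (by rw [ze, zf]; norm_num)
    (fun s _ => by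
      rw [zf]
      simp only [z', if_neg (cn s hce), if_pos (⟨s, rfl⟩ : ∃ s', G.nb e s' = G.nb e s)]
      norm_num)
    (fun t ht => by
      rw [ze]
      simp only [z', if_neg (cn t hcf), if_neg (not_exists.2 ht),
        if_pos (⟨t, rfl⟩ : ∃ s', G.nb f s' = G.nb f t)]
      norm_num) hsh
  simp only [Grid.evs, List.flatMap_cons, List.flatMap_nil, List.append_nil] at h ⊢
  rw [row_z hG hR hce (ke _), row_z hG hR hcf (kf _), row_z hG hR' hce (ke _),
    row_z hG hR' hcf (kf _)]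
  exact h

theorem yswap_leg (hG : G.OK) {X Y₁ Y₂ : List N} {z : N → ℝ} {e f : N}
    (hR : Rz.OK ⟨X, Y₁ ++ e :: f :: Y₂, z⟩ G.col) (hR' : Rz.OK ⟨X, Y₁ ++ f :: e :: Y₂, z⟩ G.col)
    (h : G.Leg fa (fun a b => X.idxOf a < X.idxOf b) (fun a b => z a < z b) e f) :
    Eqv fa (G.rowAt Y₁ X) (G.rowAt (Y₁ ++ [e, f]) X)
      (G.evs ⟨X, Y₁ ++ e :: f :: Y₂, z⟩ X [e, f]) (G.evs ⟨X, Y₁ ++ f :: e :: Y₂, z⟩ X [f, e]) := by
  have b2 : ∀ s t : Bool, t = s ∨ t = !s := by decide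
  rcases h with h | ⟨h1, h2, h3, h4⟩ | ⟨s, t, h1, h2, h3⟩ | ⟨h0, s, t, h1, h2, h3, h4, h5⟩
  · refine yswap_mono hG hR hR' (fun s t => (h s t).le) (Or.inl fun s t e' => ?_)
    have := h s t
    rw [e'] at this
    exact lt_irrefl _ this
  · refine yswap_core hG hR hR' h1 (fun s _ => lt_asymm (h3 s)) (fun t _ => h2 t)
      (Or.inl fun s t e' => ?_)
    have := h4 s t
    rw [e'] at this
    exact lt_irrefl _ this
  · have h4 : X.idxOf (G.nb e s) = X.idxOf (G.nb f t) := by rw [h1]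
    refine yswap_mono hG hR hR' (fun s' t' => ?_) (Or.inr ⟨s, t, h1, fun e' => ?_, Or.inr ⟨h2, h3⟩⟩)
    · rcases b2 s s' with rfl | rfl <;> rcases b2 t t' with rfl | rfl <;> omega
    · rw [e'] at h2
      omega
  · rw [← h1] at h4 h5
    refine yswap_core hG hR hR' (h2.trans h4) (fun s' hs => ?_) (fun t' ht => ?_)
      (Or.inr ⟨s, t, h1, fun e' => ?_, Or.inl h0⟩)
    · rcases b2 s s' with rfl | rfl
      · exact absurd h1 (hs t)
      · exact lt_asymm (h3.trans h4)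
    · rcases b2 t t' with rfl | rfl
      · exact absurd h1 (ht s)
      · exact h2.trans h5
    · rw [e'] at h3
      exact lt_asymm h3 h5

omit [Rev α] in
theorem evs_other {X Y₁ Y₂ : List N} {z : N → ℝ} {e f : N} (hn : (Y₁ ++ e :: f :: Y₂).Nodup)
    {Ys : List N} (h : ∀ g ∈ Ys, g ≠ e ∧ g ≠ f) :
    G.evs ⟨X, Y₁ ++ f :: e :: Y₂, z⟩ X Ys = G.evs ⟨X, Y₁ ++ e :: f :: Y₂, z⟩ X Ys := by
  obtain ⟨i1, i2, i3, i4, i5⟩ := idx_two hn
  refine List.flatMap_congr fun g hg => ?_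
  obtain ⟨j1, j2⟩ := i5 g (h g hg).1 (h g hg).2
  have k : ∀ a, (Rz.ltY ⟨X, Y₁ ++ f :: e :: Y₂, z⟩ a g ↔ Rz.ltY ⟨X, Y₁ ++ e :: f :: Y₂, z⟩ a g) ∧
      (Rz.ltY ⟨X, Y₁ ++ f :: e :: Y₂, z⟩ g a ↔ Rz.ltY ⟨X, Y₁ ++ e :: f :: Y₂, z⟩ g a) := fun a => by
    simp only [Rz.ltY]
    by_cases ha : a = e
    · rw [ha]; omega
    by_cases ha' : a = f
    · rw [ha']; omega
    · rw [(i5 a ha ha').1, j1]
      exact ⟨Iff.rfl, Iff.rfl⟩
  congr 2
  funext v
  simp only [Grid.cell, (k _).1, (k _).2]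

/-- Exchange of two consecutive rows. -/
theorem yswap (hG : G.OK) {X Y₁ Y₂ : List N} {z : N → ℝ} {e f : N}
    (hR : Rz.OK ⟨X, Y₁ ++ e :: f :: Y₂, z⟩ G.col) (hR' : Rz.OK ⟨X, Y₁ ++ f :: e :: Y₂, z⟩ G.col)
    (h : G.Leg fa (fun a b => X.idxOf a < X.idxOf b) (fun a b => z a < z b) e f) :
    Eqv fa [] [] (G.word ⟨X, Y₁ ++ e :: f :: Y₂, z⟩) (G.word ⟨X, Y₁ ++ f :: e :: Y₂, z⟩) := by
  have hn : (Y₁ ++ e :: f :: Y₂).Nodup := hR.nodupY
  have h1 := List.nodup_append.1 hn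
  have h2 := List.nodup_cons.1 h1.2.1
  have r₁ := Grid.run_evs hG hR (Y₁ := []) (Y₂ := Y₁) (Y₃ := e :: f :: Y₂) rfl
  have r₂ := Grid.run_evs hG hR (Y₁ := Y₁ ++ [e, f]) (Y₂ := Y₂) (Y₃ := []) (by simp)
  have r₃ := Grid.rowAt_all hG hR
  rw [Grid.rowAt_nil, List.nil_append] at r₁
  rw [List.append_assoc] at r₂
  have h3 := ((Eqv.refl r₁).append (yswap_leg hG hR hR' h)).append (Eqv.refl (r₃ ▸ r₂))
  have e1 : G.word ⟨X, Y₁ ++ f :: e :: Y₂, z⟩ =
      G.evs ⟨X, Y₁ ++ f :: e :: Y₂, z⟩ X (Y₁ ++ [f, e] ++ Y₂) := by simp [Grid.word]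
  have e2 : G.word ⟨X, Y₁ ++ e :: f :: Y₂, z⟩ =
      G.evs ⟨X, Y₁ ++ e :: f :: Y₂, z⟩ X (Y₁ ++ [e, f] ++ Y₂) := by simp [Grid.word]
  rw [e1, e2, Grid.evs_append, Grid.evs_append, Grid.evs_append, Grid.evs_append,
    evs_other hn (Ys := Y₁) fun g hg => ⟨h1.2.2 g hg e (by simp), h1.2.2 g hg f (by simp)⟩,
    evs_other hn (Ys := Y₂) fun g hg => ⟨fun h => h2.1 (by simp [← h, hg]),
      fun h => (List.nodup_cons.1 h2.2).1 (h ▸ hg)⟩]
  exact h3

end WC

end Pool.Agent.P.MP_ac4909_gt.B
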