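import Pool.Agent.P.MP_ac4909_gt.B.WEqv

/-! Events of rows, rows of strands, blocks, transport, insertion. -/

namespace Pool.Agent.P.MP_ac4909_gt.B

open Rev

variable {α β N N' : Type}

theorem WEvs_evMid (l : List α) (a b : α) (u u' : Bool) (M M₀ : List (α × Bool))
    (cs : List (Cell α)) :
    evMid l a u M₀ (M.map (fun x => Cell.thru x.1 x.2) ++ Cell.fin b u' :: cs) =
      event l a u (M₀ ++ M) b u' (cs.map Cell.lab) := by
  induction M generalizing M₀ with
  | nil => simp [evMid]
  | cons x M ih => simp [evMid, ih]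

theorem WEvs_evLeft (L : List (α × Bool)) (l : List α) (a : α) (u : Bool) (cs : List (Cell α)) :
    evLeft l (L.map (fun x => Cell.thru x.1 x.2) ++ Cell.fin a u :: cs) =
      evMid (l ++ L.map Prod.fst) a u [] cs := by
  induction L generalizing l with
  | nil => simp [evLeft]
  | cons x L ih => simp [evLeft, ih]

theorem WEvs_crossL_map (f : α → β) (b : α) (r l : List α) (M : List (α × Bool)) :
    crossL (f b) (r.map f) (l.map f) (M.map (Prod.map f id)) =
      (crossL b r l M).map (Sl.map f) := by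
  induction M generalizing l with
  | nil => rfl
  | cons x M ih =>
    have h := ih (l ++ [x.1])
    rw [List.map_append] at h
    simp only [List.map_cons, crossL, List.map_append, ← h]
    simp [Sl.map, Gen.map, Function.comp_def]

theorem WEvs_crossR_map (f : α → β) (b : α) (r l : List α) (M : List (α × Bool)) :
    crossR (f b) (r.map f) (l.map f) (M.map (Prod.map f id)) =
      (crossR b r l M).map (Sl.map f) := by
  induction M generalizing l with
  | nil => rfl
  | cons x M ih =>
    have h := ih (l ++ [x.1])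
    rw [List.map_append] at h
    simp only [List.map_cons, crossR, ← h]
    simp [Sl.map, Gen.map, Function.comp_def]

theorem WEvs_event_map (f : α → β) (l r : List α) (a b : α) (u u' : Bool) (M : List (α × Bool)) :
    event (l.map f) (f a) u (M.map (Prod.map f id)) (f b) u' (r.map f) =
      (event l a u M b u' r).map (Sl.map f) := by
  have h1 := WEvs_crossL_map f b r (l ++ [a]) M
  have h2 := WEvs_crossR_map f b r (l ++ [a]) M
  rw [List.map_append] at h1 h2
  cases u <;> cases u'
  · simp only [event, List.map_append, ← h1]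
    simp [Sl.map, Gen.map, Function.comp_def]
  · exact WEvs_crossR_map f b r l M
  · exact WEvs_crossL_map f b r l M
  · simp only [event, List.map_cons, ← h2]
    simp [Sl.map, Gen.map, Function.comp_def]

theorem WEvs_lab_map (f : α → β) (c : Cell α) : (c.map f).lab = f c.lab := by
  cases c <;> rfl

theorem WEvs_evMid_map (f : α → β) (l : List α) (a : α) (u : Bool) (M : List (α × Bool))
    (cs : List (Cell α)) :
    evMid (l.map f) (f a) u (M.map (Prod.map f id)) (cs.map (Cell.map f)) =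
      (evMid l a u M cs).map (Sl.map f) := by
  induction cs generalizing M with
  | nil => rfl
  | cons c cs ih =>
    cases c with
    | thru x o =>
      have h := ih (M ++ [(x, o)])
      rw [List.map_append] at h
      exact h
    | fin b u' =>
      have h := WEvs_event_map f l (cs.map Cell.lab) a b u u' M
      have h1 : (cs.map Cell.lab).map f = (cs.map (Cell.map f)).map Cell.lab := by
        simp [Function.comp_def, WEvs_lab_map]
      rw [h1] at h
      exact h

theorem WEvs_evLeft_map (f : α → β) (l : List α) (cs : List (Cell α)) :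
    evLeft (l.map f) (cs.map (Cell.map f)) = (evLeft l cs).map (Sl.map f) := by
  induction cs generalizing l with
  | nil => rfl
  | cons c cs ih =>
    cases c with
    | thru x o =>
      have h := ih (l ++ [x])
      rw [List.map_append] at h
      exact h
    | fin a u => exact WEvs_evMid_map f l a u [] cs

theorem WEvs_crossL_pad (l' r' : List α) (b : α) (r l : List α) (M : List (α × Bool)) :
    crossL b (r ++ r') (l' ++ l) M = (crossL b r l M).map (pad l' r') := by
  induction M generalizing l with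
  | nil => rfl
  | cons x M ih =>
    simp only [crossL, List.map_append, ← ih, List.append_assoc]
    simp [pad]

theorem WEvs_crossR_pad (l' r' : List α) (b : α) (r l : List α) (M : List (α × Bool)) :
    crossR b (r ++ r') (l' ++ l) M = (crossR b r l M).map (pad l' r') := by
  induction M generalizing l with
  | nil => rfl
  | cons x M ih =>
    simp only [crossR, List.map_cons, ← ih, List.append_assoc]
    simp [pad]

/-- the strand below a cell -/
def WEvs_below : Cell α → Option α
  | .thru a _ => some a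
  | .fin a u => if u then none else some a

/-- the strand above a cell -/
def WEvs_above : Cell α → Option α
  | .thru a _ => some a
  | .fin a u => if u then some a else none

theorem WEvs_below_thru (L : List (α × Bool)) :
    (L.map fun x => Cell.thru x.1 x.2).filterMap WEvs_below = L.map Prod.fst := by
  induction L with
  | nil => rfl
  | cons x L ih => exact congrArg (List.cons x.1) ih

theorem WEvs_above_thru (L : List (α × Bool)) :
    (L.map fun x => Cell.thru x.1 x.2).filterMap WEvs_above = L.map Prod.fst := by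
  induction L with
  | nil => rfl
  | cons x L ih => exact congrArg (List.cons x.1) ih

theorem WEvs_exists_thru {cs : List (Cell α)} (h : ∀ c ∈ cs, ∃ a o, c = Cell.thru a o) :
    ∃ L : List (α × Bool), cs = L.map fun x => Cell.thru x.1 x.2 := by
  induction cs with
  | nil => exact ⟨[], rfl⟩
  | cons c cs ih =>
    obtain ⟨L, hL⟩ := ih fun c hc => h c (List.mem_cons_of_mem _ hc)
    obtain ⟨a, o, rfl⟩ := h c List.mem_cons_self
    exact ⟨(a, o) :: L, by rw [hL]; rfl⟩

theorem WEvs_two {l : List N} {a b : N} (ha : a ∈ l) (hb : b ∈ l) (hab : a ≠ b) :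
    (∃ X₁ X₂ X₃, l = X₁ ++ a :: (X₂ ++ b :: X₃)) ∨ ∃ X₁ X₂ X₃, l = X₁ ++ b :: (X₂ ++ a :: X₃) := by
  obtain ⟨A, B, rfl⟩ := List.append_of_mem ha
  rcases List.mem_append.1 hb with h | h
  · obtain ⟨C, D, rfl⟩ := List.append_of_mem h
    exact Or.inr ⟨C, D, B, by simp⟩
  · obtain ⟨C, D, rfl⟩ := List.append_of_mem ((List.mem_cons.1 h).resolve_left hab.symm)
    exact Or.inl ⟨A, C, D, rfl⟩

theorem evOf_eq (L M R : List (α × Bool)) (a b : α) (u u' : Bool) :
    evOf (L.map (fun x => Cell.thru x.1 x.2) ++ Cell.fin a u ::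
      (M.map (fun x => Cell.thru x.1 x.2) ++ Cell.fin b u' :: R.map fun x => Cell.thru x.1 x.2)) =
      event (L.map Prod.fst) a u M b u' (R.map Prod.fst) := by
  rw [evOf, WEvs_evLeft, WEvs_evMid, List.nil_append, List.nil_append, List.map_map]
  rfl

theorem evOf_map (f : α → β) (cs : List (Cell α)) :
    evOf (cs.map (Cell.map f)) = (evOf cs).map (Sl.map f) := WEvs_evLeft_map f [] cs

theorem event_pad (l' r' l r : List α) (a b : α) (u u' : Bool) (M : List (α × Bool)) :
    event (l' ++ l) a u M b u' (r ++ r') = (event l a u M b u' r).map (pad l' r') := by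
  cases u <;> cases u'
  · simp only [event, List.map_append, ← WEvs_crossL_pad, List.append_assoc]
    simp [pad]
  · exact WEvs_crossR_pad l' r' b r l M
  · exact WEvs_crossL_pad l' r' b r l M
  · simp only [event, List.map_cons, ← WEvs_crossR_pad, List.append_assoc]
    simp [pad]

theorem run_crossL [Rev α] (b : α) (l r : List α) (M : List (α × Bool)) :
    Run (l ++ M.map Prod.fst ++ b :: r) (crossL b r l M) (l ++ b :: (M.map Prod.fst ++ r)) := by
  induction M generalizing l with
  | nil => simp [crossL, run_nil]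
  | cons x M ih =>
    have h := ih (l ++ [x.1])
    rw [crossL, run_append]
    refine ⟨_, by simpa using h, ?_⟩
    simp [run_cons, run_nil, Sl.src, Sl.tgt, Gen.src, Gen.tgt]

theorem run_crossR [Rev α] (b : α) (l r : List α) (M : List (α × Bool)) :
    Run (l ++ b :: (M.map Prod.fst ++ r)) (crossR b r l M) (l ++ M.map Prod.fst ++ b :: r) := by
  induction M generalizing l with
  | nil => simp [crossR, run_nil]
  | cons x M ih =>
    have h := ih (l ++ [x.1])
    rw [crossR, run_cons]
    exact ⟨by simp [Sl.src, Gen.src], by simpa [Sl.tgt, Gen.tgt] using h⟩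

theorem run_event [Rev α] (l r : List α) (a b : α) (u u' : Bool) (M : List (α × Bool))
    (h : b = if u = u' then rev a else a) :
    Run (l ++ (if u then [] else [a]) ++ M.map Prod.fst ++ (if u' then [] else [b]) ++ r)
      (event l a u M b u' r)
      (l ++ (if u then [a] else []) ++ M.map Prod.fst ++ (if u' then [b] else []) ++ r) := by
  cases u <;> cases u'
  · obtain rfl : b = rev a := h
    rw [event, run_append]
    refine ⟨_, by simpa using run_crossL (rev a) (l ++ [a]) r M, ?_⟩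
    simp [run_cons, run_nil, Sl.src, Sl.tgt, Gen.src, Gen.tgt]
  · obtain rfl : b = a := h
    simpa [event] using run_crossR b l r M
  · obtain rfl : b = a := h
    simpa [event] using run_crossL b l r M
  · obtain rfl : b = rev a := h
    rw [event, run_cons]
    exact ⟨by simp [Sl.src, Gen.src],
      by simpa [Sl.tgt, Gen.tgt] using run_crossR (rev a) (l ++ [a]) r M⟩

variable [DecidableEq N] [DecidableEq N']

namespace Grid
variable {G : Grid N α} {R : Rz N}

theorem evs_append (G : Grid N α) (R : Rz N) (Xs Y₁ Y₂ : List N) :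
    G.evs R Xs (Y₁ ++ Y₂) = G.evs R Xs Y₁ ++ G.evs R Xs Y₂ :=
  List.flatMap_append

theorem cell_map (G : Grid N α) (f : α → β) (R : Rz N) (e v : N) :
    (G.map f).cell R e v = (G.cell R e v).map (Cell.map f) := by
  simp only [cell, apply_ite (Option.map (Cell.map f)), Option.map_some, apply_ite (Cell.map f)]
  rfl

theorem evs_map (G : Grid N α) (f : α → β) (R : Rz N) (Xs Ys : List N) :
    (G.map f).evs R Xs Ys = (G.evs R Xs Ys).map (Sl.map f) := by
  rw [evs, evs, List.map_flatMap]
  congr 1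
  funext e
  rw [← evOf_map, List.map_filterMap]
  congr 2
  funext v
  exact G.cell_map f R e v

theorem rowAt_map (G : Grid N α) (f : α → β) (Ys Xs : List N) :
    (G.map f).rowAt Ys Xs = (G.rowAt Ys Xs).map f := by
  rw [rowAt, rowAt, List.map_filterMap]
  congr 1
  funext v
  simp only [apply_ite (Option.map f)]
  rfl

omit [DecidableEq N] in
theorem OK.map [Rev α] [Rev β] (hG : G.OK) (f : α → β) (hf : ∀ x, f (rev x) = rev (f x)) :
    (G.map f).OK :=
  ⟨hG.col_nb, hG.nb_ne, hG.adj_symm, fun a s => (congrArg f (hG.dl_rev a s)).trans (hf _),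
    fun a => congrArg f (hG.dl_thru a)⟩

omit [DecidableEq N] in
theorem WEvs_dl [Rev α] (hG : G.OK) (a : N) (s : Bool) :
    G.dl (G.nb a s) a = G.dl a (G.nb a (!s)) := by
  cases s
  · exact hG.dl_thru a
  · rw [hG.dl_rev, ← hG.dl_thru, hG.dl_rev, rev_rev]
    rfl

theorem WEvs_cell_thru {e v : N} (h : ∀ s, G.nb v s ≠ e) {c : Cell α}
    (hc : G.cell R e v = some c) : ∃ a o, c = Cell.thru a o := by
  rw [cell, if_neg (h false), if_neg (h true)] at hc
  split_ifs at hc
  · exact ⟨_, _, (Option.some.inj hc).symm⟩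
  · exact ⟨_, _, (Option.some.inj hc).symm⟩

theorem WEvs_cells_thru {e : N} {Xs : List N} (h : ∀ v ∈ Xs, ∀ s, G.nb v s ≠ e) :
    ∃ L : List (α × Bool), Xs.filterMap (G.cell R e) = L.map fun x => Cell.thru x.1 x.2 :=
  WEvs_exists_thru fun c hc => by
    obtain ⟨v, hv, hvc⟩ := List.mem_filterMap.1 hc
    exact WEvs_cell_thru (h v hv) hvc

theorem WEvs_cell_fin [Rev α] (hG : G.OK) (R : Rz N) (e : N) (s : Bool) :
    ∃ u : Bool, G.cell R e (G.nb e s) =
      some (.fin (if u then G.dl e (G.nb e s) else G.dl (G.nb e s) e) u) := by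
  obtain ⟨t, ht⟩ := hG.adj_symm e s
  rw [cell]
  by_cases h : G.nb (G.nb e s) false = e
  · rw [if_pos h]
    split_ifs
    · exact ⟨true, rfl⟩
    · exact ⟨false, rfl⟩
  · have h' : G.nb (G.nb e s) true = e := by
      cases t
      · exact absurd ht h
      · exact ht
    rw [if_neg h, if_pos h']
    split_ifs
    · exact ⟨true, rfl⟩
    · exact ⟨false, rfl⟩

theorem WEvs_cells [Rev α] (hG : G.OK) (R : Rz N) {e : N} {Xs : List N} (hn : Xs.Nodup)
    (hm : ∀ s, G.nb e s ∈ Xs) :
    ∃ (s : Bool) (X₁ X₂ X₃ : List N) (L M R' : List (α × Bool)) (a b : α) (u u' : Bool),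
      Xs = X₁ ++ G.nb e s :: (X₂ ++ G.nb e (!s) :: X₃) ∧
      X₁.filterMap (G.cell R e) = L.map (fun x => Cell.thru x.1 x.2) ∧
      X₂.filterMap (G.cell R e) = M.map (fun x => Cell.thru x.1 x.2) ∧
      X₃.filterMap (G.cell R e) = R'.map (fun x => Cell.thru x.1 x.2) ∧
      G.cell R e (G.nb e s) = some (.fin a u) ∧ G.cell R e (G.nb e (!s)) = some (.fin b u') ∧
      b = if u = u' then rev a else a := by
  obtain ⟨s, X₁, X₂, X₃, hX⟩ : ∃ s X₁ X₂ X₃, Xs = X₁ ++ G.nb e s :: (X₂ ++ G.nb e (!s) :: X₃) := by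
    rcases WEvs_two (hm false) (hm true) (hG.nb_ne e) with h | h
    · exact ⟨false, h⟩
    · exact ⟨true, h⟩
  have key : ∀ v, v ≠ G.nb e s → v ≠ G.nb e (!s) → ∀ t, G.nb v t ≠ e := by
    rintro v h1 h2 t rfl
    obtain ⟨t', ht⟩ := hG.adj_symm v t
    cases s <;> cases t'
    exacts [h1 ht.symm, h2 ht.symm, h2 ht.symm, h1 ht.symm]
  rw [hX] at hn
  simp only [List.nodup_append, List.nodup_cons, List.mem_append, List.mem_cons] at hn
  obtain ⟨L, hL⟩ := WEvs_cells_thru (G := G) (R := R) (e := e) (Xs := X₁) fun v hv =>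
    key v (hn.2.2 v hv _ (Or.inl rfl)) (hn.2.2 v hv _ (Or.inr (Or.inr (Or.inl rfl))))
  obtain ⟨M, hM⟩ := WEvs_cells_thru (G := G) (R := R) (e := e) (Xs := X₂) fun v hv =>
    key v (fun h => hn.2.1.1 (Or.inl (h ▸ hv))) (hn.2.1.2.2.2 v hv _ (Or.inl rfl))
  obtain ⟨R', hR'⟩ := WEvs_cells_thru (G := G) (R := R) (e := e) (Xs := X₃) fun v hv =>
    key v (fun h => hn.2.1.1 (Or.inr (Or.inr (h ▸ hv)))) fun h => hn.2.1.2.2.1.1 (h ▸ hv)
  obtain ⟨u, hu⟩ := WEvs_cell_fin hG R e s
  obtain ⟨u', hu'⟩ := WEvs_cell_fin hG R e (!s)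
  refine ⟨s, X₁, X₂, X₃, L, M, R', _, _, u, u', hX, hL, hM, hR', hu, hu', ?_⟩
  have h1 := WEvs_dl hG e s
  have h2 := WEvs_dl hG e (!s)
  have h3 := hG.dl_rev e s
  rw [Bool.not_not] at h2
  cases u <;> cases u'
  · simp only [Bool.false_eq_true, if_false, if_true, h2, h3, rev_rev]
  · simp only [Bool.false_eq_true, if_false, if_true, h1]
  · simp only [Bool.false_eq_true, Bool.true_eq_false, if_false, if_true, h2]
  · simp only [if_true, ← h1, h3]

theorem WEvs_split {e : N} {s : Bool} {X₁ X₂ X₃ : List N} {L M R' : List (α × Bool)} {a b : α}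
    {u u' : Bool} (h₁ : X₁.filterMap (G.cell R e) = L.map (fun x => Cell.thru x.1 x.2))
    (h₂ : X₂.filterMap (G.cell R e) = M.map (fun x => Cell.thru x.1 x.2))
    (h₃ : X₃.filterMap (G.cell R e) = R'.map (fun x => Cell.thru x.1 x.2))
    (ha : G.cell R e (G.nb e s) = some (.fin a u))
    (hb : G.cell R e (G.nb e (!s)) = some (.fin b u')) :
    (X₁ ++ G.nb e s :: (X₂ ++ G.nb e (!s) :: X₃)).filterMap (G.cell R e) =
      L.map (fun x => Cell.thru x.1 x.2) ++ Cell.fin a u ::
        (M.map (fun x => Cell.thru x.1 x.2) ++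
          Cell.fin b u' :: R'.map fun x => Cell.thru x.1 x.2) := by
  rw [List.filterMap_append, List.filterMap_cons_some ha, List.filterMap_append,
    List.filterMap_cons_some hb, h₁, h₂, h₃]

/-- position of a row with respect to the row `e` -/
theorem WEvs_tri (hn : R.Y.Nodup) {Y₁ Y₂ : List N} {e : N} (hY : R.Y = Y₁ ++ e :: Y₂)
    (w : N) :
    (w ∈ Y₁ ∧ w ≠ e ∧ R.ltY w e ∧ ¬ R.ltY e w) ∨ (e ∉ Y₁ ∧ w = e) ∨
      (w ∉ Y₁ ∧ w ≠ e ∧ ¬ R.ltY w e ∧ R.ltY e w) := by
  have he : e ∉ Y₁ := fun h => by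
    rw [hY, List.nodup_append] at hn
    exact hn.2.2 e h e List.mem_cons_self rfl
  have h1 : R.Y.idxOf e = Y₁.length := by
    rw [hY, List.idxOf_append_of_notMem he, List.idxOf_cons_self, Nat.add_zero]
  unfold Rz.ltY
  by_cases h : w ∈ Y₁
  · have h2 : R.Y.idxOf w < Y₁.length := by
      rw [hY, List.idxOf_append_of_mem h]
      exact List.idxOf_lt_length_of_mem h
    exact Or.inl ⟨h, fun h3 => he (h3 ▸ h), by omega, by omega⟩
  · by_cases h3 : w = e
    · exact Or.inr (Or.inl ⟨he, h3⟩)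
    · have h2 : Y₁.length < R.Y.idxOf w := by
        rw [hY, List.idxOf_append_of_notMem h, List.idxOf_cons_ne _ (Ne.symm h3)]
        omega
      exact Or.inr (Or.inr ⟨h, h3, by omega, by omega⟩)

theorem WEvs_rows [Rev α] (hG : G.OK) (hR : R.OK G.col) {Y₁ Y₂ : List N} {e : N}
    (hY : R.Y = Y₁ ++ e :: Y₂) (Xs : List N) :
    G.rowAt Y₁ Xs = (Xs.filterMap (G.cell R e)).filterMap WEvs_below ∧
      G.rowAt (Y₁ ++ [e]) Xs = (Xs.filterMap (G.cell R e)).filterMap WEvs_above := by
  rw [List.filterMap_filterMap, List.filterMap_filterMap]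
  refine ⟨List.filterMap_congr fun v _ => ?_, List.filterMap_congr fun v _ => ?_⟩ <;>
  · have h0 := WEvs_dl hG v false
    have h1 := WEvs_dl hG v true
    have h2 := hG.nb_ne v
    rcases WEvs_tri hR.nodupY hY (G.nb v false) with a | a | a <;>
      rcases WEvs_tri hR.nodupY hY (G.nb v true) with b | b | b <;>
      simp_all [cell, WEvs_below, WEvs_above]

/-- the shape of the list of cells of a row -/
theorem cells_eq [Rev α] (hG : G.OK) (hR : R.OK G.col) {e : N} (he : G.col e = false) :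
    ∃ (s : Bool) (X₁ X₂ X₃ : List N) (L M R' : List (α × Bool)) (a b : α) (u u' : Bool),
      R.X = X₁ ++ G.nb e s :: (X₂ ++ G.nb e (!s) :: X₃) ∧
      X₁.filterMap (G.cell R e) = L.map (fun x => Cell.thru x.1 x.2) ∧
      X₂.filterMap (G.cell R e) = M.map (fun x => Cell.thru x.1 x.2) ∧
      X₃.filterMap (G.cell R e) = R'.map (fun x => Cell.thru x.1 x.2) ∧
      G.cell R e (G.nb e s) = some (.fin a u) ∧ G.cell R e (G.nb e (!s)) = some (.fin b u') ∧
      b = if u = u' then rev a else a :=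
  WEvs_cells hG R hR.nodupX fun s => by
    rw [hR.memX, hG.col_nb, he]
    rfl

theorem WEvs_run_one [Rev α] (hG : G.OK) (hR : R.OK G.col) {Y₁ Y₂ : List N} {e : N}
    (hY : R.Y = Y₁ ++ e :: Y₂) :
    Run (G.rowAt Y₁ R.X) (evOf (R.X.filterMap (G.cell R e))) (G.rowAt (Y₁ ++ [e]) R.X) := by
  have he : G.col e = false := (hR.memY e).1 (by rw [hY]; simp)
  obtain ⟨h1, h2⟩ := WEvs_rows hG hR hY R.X
  obtain ⟨s, X₁, X₂, X₃, L, M, R', a, b, u, u', hX, hL, hM, hR', ha, hb, hab⟩ :=
    cells_eq hG hR he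
  have h3 := WEvs_split hL hM hR' ha hb
  rw [← hX] at h3
  have h4 := run_event (L.map Prod.fst) (R'.map Prod.fst) a b u u' M hab
  rw [h1, h2, h3, evOf_eq]
  simp only [List.filterMap_append, List.filterMap_cons, WEvs_below_thru, WEvs_above_thru]
  cases u <;> cases u' <;> simpa [WEvs_below, WEvs_above] using h4

theorem run_evs [Rev α] (hG : G.OK) (hR : R.OK G.col) {Y₁ Y₂ Y₃ : List N}
    (hY : R.Y = Y₁ ++ Y₂ ++ Y₃) :
    Run (G.rowAt Y₁ R.X) (G.evs R R.X Y₂) (G.rowAt (Y₁ ++ Y₂) R.X) := by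
  induction Y₂ generalizing Y₁ with
  | nil => rw [List.append_nil]; exact run_nil.2 rfl
  | cons e Y₂ ih =>
    have h := ih (Y₁ := Y₁ ++ [e]) (by rw [hY]; simp)
    rw [List.append_assoc, List.singleton_append] at h
    rw [evs, List.flatMap_cons, run_append]
    exact ⟨_, WEvs_run_one hG hR (Y₂ := Y₂ ++ Y₃) (by rw [hY]; simp), h⟩

theorem rowAt_nil (G : Grid N α) (Xs : List N) : G.rowAt [] Xs = [] := by
  simp [rowAt]

theorem rowAt_all [Rev α] (hG : G.OK) (hR : R.OK G.col) : G.rowAt R.Y R.X = [] := by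
  rw [rowAt, List.filterMap_eq_nil_iff]
  intro v hv
  have hm : ∀ s, G.nb v s ∈ R.Y := fun s => by
    rw [hR.memY, hG.col_nb, (hR.memX v).1 hv]
    rfl
  simp [hm]

theorem run_word [Rev α] (hG : G.OK) (hR : R.OK G.col) : Run [] (G.word R) [] := by
  have h := run_evs hG hR (Y₁ := []) (Y₂ := R.Y) (Y₃ := []) (by simp)
  rwa [rowAt_nil, List.nil_append, rowAt_all hG hR] at h

/-- the rows of a block only see the columns of the block -/
theorem evs_block [Rev α] (hG : G.OK) (hR : R.OK G.col) {X₁ Xb X₂ Y₁ Yb Y₂ : List N}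
    (hX : R.X = X₁ ++ Xb ++ X₂) (hY : R.Y = Y₁ ++ Yb ++ Y₂)
    (h₁ : ∀ e ∈ Yb, ∀ s, G.nb e s ∈ Xb) (h₂ : ∀ v ∈ X₁ ++ X₂, ∀ s, G.nb v s ∉ Yb) :
    G.evs R R.X Yb = (G.evs R Xb Yb).map (pad (G.rowAt Y₁ X₁) (G.rowAt Y₁ X₂)) := by
  rw [evs, evs, List.map_flatMap]
  refine List.flatMap_congr fun e he => ?_
  obtain ⟨A, B, hAB⟩ := List.append_of_mem he
  have hY' : R.Y = (Y₁ ++ A) ++ e :: (B ++ Y₂) := by rw [hY, hAB]; simp
  have side : ∀ Xs : List N, (∀ v ∈ Xs, v ∈ X₁ ++ X₂) → ∃ L : List (α × Bool),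
      Xs.filterMap (G.cell R e) = L.map (fun x => Cell.thru x.1 x.2) ∧
        G.rowAt Y₁ Xs = L.map Prod.fst := fun Xs hXs => by
    obtain ⟨L, hL⟩ := WEvs_cells_thru (G := G) (R := R) (e := e) (Xs := Xs)
      fun v hv s h => h₂ v (hXs v hv) s (h ▸ he)
    refine ⟨L, hL, ?_⟩
    have h3 := (WEvs_rows hG hR hY' Xs).1
    rw [hL, WEvs_below_thru] at h3
    rw [← h3]
    refine List.filterMap_congr fun v hv => ?_
    have h5 : ∀ s, G.nb v s ∉ A := fun s h =>
      h₂ v (hXs v hv) s (by rw [hAB]; exact List.mem_append_left _ h)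
    simp only [List.mem_append, h5, or_false]
  obtain ⟨L₁, a1, b1⟩ := side X₁ fun v hv => List.mem_append_left _ hv
  obtain ⟨L₂, a2, b2⟩ := side X₂ fun v hv => List.mem_append_right _ hv
  have hn : Xb.Nodup := by
    have h3 := hR.nodupX
    rw [hX] at h3
    exact h3.of_append_left.of_append_right
  obtain ⟨s, Z₁, Z₂, Z₃, L, M, R', a, b, u, u', hZ, hL, hM, hR', ha, hb, -⟩ :=
    WEvs_cells hG R hn (h₁ e he)
  have h3 := WEvs_split hL hM hR' ha hb
  rw [← hZ] at h3
  have h4 := evOf_eq (L₁ ++ L) M (R' ++ L₂) a b u u'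
  rw [hX, List.filterMap_append, List.filterMap_append, a1, a2, b1, b2, h3, evOf_eq, ← event_pad,
    ← List.map_append, ← List.map_append, ← h4]
  simp

theorem evb_cell_fin [Rev α] (hG : G.OK) (R : Rz N) {e v : N} (s : Bool) (h : G.nb v s = e) :
    G.cell R e v =
      some (if R.ltY e (G.nb v (!s)) then .fin (G.dl e v) true else .fin (G.dl v e) false) := by
  cases s
  · rw [cell, if_pos h]
    rfl
  · rw [cell, if_neg fun h' => hG.nb_ne v (h'.trans h.symm), if_pos h]
    rfl

theorem evb_cell_thru (R : Rz N) {e v : N} (s : Bool) (h : ∀ s, G.nb v s ≠ e)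
    (h₁ : R.ltY (G.nb v s) e) (h₂ : R.ltY e (G.nb v (!s))) :
    G.cell R e v = some (.thru (G.dl (G.nb v s) v) (decide (R.z e < R.z v))) := by
  rw [cell, if_neg (h false), if_neg (h true)]
  cases s
  · rw [if_pos ⟨h₁, h₂⟩]
  · rw [if_neg fun h' => lt_asymm h'.1 h₂, if_pos ⟨h₁, h₂⟩]

theorem evb_cell_none (R : Rz N) {e v : N} (h : ∀ s, G.nb v s ≠ e)
    (h' : ∀ s, ¬ (R.ltY (G.nb v s) e ∧ R.ltY e (G.nb v (!s)))) : G.cell R e v = none := by
  rw [cell, if_neg (h false), if_neg (h true)]
  exact (if_neg (h' false)).trans (if_neg (h' true))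

omit [DecidableEq N] in
theorem evb_dl_rev [Rev α] (hG : G.OK) (a : N) (s : Bool) :
    G.dl a (G.nb a s) = rev (G.dl (G.nb a s) a) := by
  rw [hG.dl_rev, rev_rev]

theorem evb_idxOf_map {φ : N → N'} (hφ : Function.Injective φ) (a : N) (l : List N) :
    (l.map φ).idxOf (φ a) = l.idxOf a := by
  induction l with
  | nil => rfl
  | cons b l ih =>
    by_cases h : b = a
    · rw [h, List.map_cons, List.idxOf_cons_self, List.idxOf_cons_self]
    · rw [List.map_cons, List.idxOf_cons_ne _ (hφ.ne h), List.idxOf_cons_ne _ h, ih]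

/-- the cell only depends on local data -/
theorem cell_congr [Rev α] [Rev β] {G' : Grid N' β} {R' : Rz N'} (hG : G.OK) (hG' : G'.OK)
    (f : α → β) {e v : N} {e' v' : N'} (t : Bool)
    (hnb : ∀ s, G.nb v s = e ↔ G'.nb v' (xor s t) = e')
    (hlo : ∀ s, R.ltY (G.nb v s) e ↔ R'.ltY (G'.nb v' (xor s t)) e')
    (hhi : ∀ s, R.ltY e (G.nb v s) ↔ R'.ltY e' (G'.nb v' (xor s t)))
    (hdl : ∀ s, G'.dl (G'.nb v' (xor s t)) v' = f (G.dl (G.nb v s) v))
    (hf : ∀ x, f (rev x) = rev (f x))
    (hz : R.z e < R.z v ↔ R'.z e' < R'.z v') :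
    G'.cell R' e' v' = (G.cell R e v).map (Cell.map f) := by
  have hx : ∀ s, (!xor s t) = xor (!s) t := fun s => by cases s <;> cases t <;> rfl
  have hs : ∀ s', ∃ s, s' = xor s t := fun s' => ⟨xor s' t, by cases s' <;> cases t <;> rfl⟩
  by_cases h : ∃ s, G.nb v s = e
  · obtain ⟨s, h⟩ := h
    have h' := (hnb s).1 h
    have h1 := hdl s
    have h2 : G'.dl v' (G'.nb v' (xor s t)) = f (G.dl v (G.nb v s)) := by
      rw [evb_dl_rev hG', evb_dl_rev hG, hf, h1]
    rw [h, h'] at h1 h2
    rw [evb_cell_fin hG R s h, evb_cell_fin hG' R' _ h', hx, h1, h2]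
    by_cases h3 : R.ltY e (G.nb v (!s))
    · rw [if_pos h3, if_pos ((hhi _).1 h3)]
      rfl
    · rw [if_neg h3, if_neg fun h4 => h3 ((hhi _).2 h4)]
      rfl
  · have h0 : ∀ s, G.nb v s ≠ e := fun s h' => h ⟨s, h'⟩
    have h0' : ∀ s, G'.nb v' s ≠ e' := fun s' h' => by
      obtain ⟨s, rfl⟩ := hs s'
      exact h0 s ((hnb s).2 h')
    by_cases h1 : ∃ s, R.ltY (G.nb v s) e ∧ R.ltY e (G.nb v (!s))
    · obtain ⟨s, h1, h2⟩ := h1
      rw [evb_cell_thru R s h0 h1 h2, evb_cell_thru R' (xor s t) h0' ((hlo s).1 h1)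
        (by rw [hx]; exact (hhi _).1 h2), hdl, decide_eq_decide.2 hz]
      rfl
    · rw [evb_cell_none R h0 fun s h2 => h1 ⟨s, h2⟩, evb_cell_none R' h0' fun s' h2 => ?_]
      · rfl
      · obtain ⟨s, rfl⟩ := hs s'
        rw [hx] at h2
        exact h1 ⟨s, (hlo s).2 h2.1, (hhi _).2 h2.2⟩

/-- isomorphic grids have the same word -/
theorem word_iso [Rev α] [Rev β] {G' : Grid N' β} {R' : Rz N'} (hG : G.OK) (hG' : G'.OK)
    (φ : N → N') (hφ : Function.Injective φ) (f : α → β) (hf : ∀ x, f (rev x) = rev (f x))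
    (hnb : ∀ a s, ∃ s', G'.nb (φ a) s' = φ (G.nb a s))
    (hdl : ∀ a s, G'.dl (φ a) (φ (G.nb a s)) = f (G.dl a (G.nb a s)))
    (hX : R'.X = R.X.map φ) (hY : R'.Y = R.Y.map φ)
    (hz : ∀ a b, R.z a < R.z b ↔ R'.z (φ a) < R'.z (φ b)) :
    G'.word R' = (G.word R).map (Sl.map f) := by
  have hlt : ∀ a b, R.ltY a b ↔ R'.ltY (φ a) (φ b) := fun a b => by
    rw [Rz.ltY, Rz.ltY, hY, evb_idxOf_map hφ, evb_idxOf_map hφ]
  have hc : ∀ e v, G'.cell R' (φ e) (φ v) = (G.cell R e v).map (Cell.map f) := by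
    intro e v
    obtain ⟨t, ht⟩ := hnb v false
    obtain ⟨t', ht'⟩ := hnb v true
    have h1 : ∀ s, G'.nb (φ v) (xor s t) = φ (G.nb v s) := by
      intro s
      cases s
      · rwa [Bool.false_xor]
      · have h2 : t' ≠ t := fun h => hG.nb_ne v (hφ (ht.symm.trans (h ▸ ht')))
        have h3 : xor true t = t' := by cases t <;> cases t' <;> simp_all
        rwa [h3]
    refine cell_congr hG hG' f t (fun s => ?_) (fun s => ?_) (fun s => ?_) (fun s => ?_) hf
      (hz e v)
    · rw [h1, hφ.eq_iff]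
    · rw [h1, hlt]
    · rw [h1, hlt]
    · rw [hG'.dl_rev, h1, hdl, hG.dl_rev, hf]
  rw [word, word, evs, evs, hX, hY, List.flatMap_map, List.map_flatMap]
  refine List.flatMap_congr fun e _ => ?_
  rw [← evOf_map, List.map_filterMap, List.filterMap_map]
  exact congrArg evOf (List.filterMap_congr fun v _ => hc e v)

theorem evb_nb_inl (G : Grid N α) (v : N) (s : Bool) (a : N) (t : Bool) :
    (G.ins v s).nb (.inl a) t = if a = v ∧ t = s then .inr false
      else if a = G.nb v s ∧ G.nb a t = v then .inr true else .inl (G.nb a t) := rfl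

omit [DecidableEq N] in
theorem evb_ne [Rev α] (hG : G.OK) {a : N} (ha : G.col a = true) {v : N} (hv : G.col v = true)
    (s : Bool) : a ≠ G.nb v s := fun h => by
  have h1 := hG.col_nb v s
  rw [← h, ha, hv] at h1
  exact absurd h1 (by decide)

theorem evb_dl_ins [Rev α] (hG : G.OK) {v : N} (hv : G.col v = true) (s : Bool) (a : N)
    (t : Bool) : (G.ins v s).dl ((G.ins v s).nb (.inl a) t) (.inl a) = G.dl (G.nb a t) a ∧
      (G.ins v s).dl (.inl a) ((G.ins v s).nb (.inl a) t) = G.dl a (G.nb a t) := by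
  have hw := (evb_ne hG hv hv s).symm
  rw [evb_nb_inl]
  split_ifs with h1 h2
  · obtain ⟨rfl, rfl⟩ := h1
    exact ⟨if_pos rfl, if_pos rfl⟩
  · obtain ⟨rfl, h2⟩ := h2
    rw [h2]
    exact ⟨if_neg hw, if_neg hw⟩
  · exact ⟨rfl, rfl⟩

theorem OK.ins [Rev α] (hG : G.OK) {v : N} (hv : G.col v = true) (s : Bool) :
    (G.ins v s).OK := by
  have hw := (evb_ne hG hv hv s).symm
  have hcw : G.col (G.nb v s) = false := by rw [hG.col_nb, hv]; rfl
  have hinj : ∀ a t t', G.nb a t = G.nb a t' → t = t' := by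
    intro a t t' h
    cases t <;> cases t'
    · rfl
    · exact absurd h (hG.nb_ne a)
    · exact absurd h.symm (hG.nb_ne a)
    · rfl
  refine ⟨fun a t => ?_, fun a => ?_, fun a t => ?_, fun a t => ?_, fun a => ?_⟩
  · rcases a with a | _ | _
    · rw [evb_nb_inl]
      split_ifs with h1 h2
      · change false = !G.col a
        rw [h1.1, hv]
        rfl
      · change true = !G.col a
        rw [h2.1, hcw]
        rfl
      · exact hG.col_nb a t
    · cases t
      · exact hv
      · rfl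
    · cases t
      · rfl
      · exact hcw
  · rcases a with a | _ | _
    · rw [evb_nb_inl, evb_nb_inl]
      have h0 := hG.nb_ne a
      split_ifs with h1 h2 h3 h4 h5 h6 h7 h8
      · exact absurd (h1.2.trans h2.2.symm) (by decide)
      · simp
      · simp
      · simp
      · exact absurd (h4.2.trans h6.2.symm) h0
      · simp
      · simp
      · simp
      · simpa using h0
    · exact Sum.inl_ne_inr
    · exact Sum.inr_ne_inl
  · rcases a with a | _ | _
    · rw [evb_nb_inl]
      split_ifs with h1 h2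
      · exact ⟨false, congrArg Sum.inl h1.1.symm⟩
      · exact ⟨true, congrArg Sum.inl h2.1.symm⟩
      · obtain ⟨s', hs'⟩ := hG.adj_symm a t
        refine ⟨s', ?_⟩
        rw [evb_nb_inl, if_neg, if_neg, hs']
        · rintro ⟨h3, h4⟩
          rw [hs'] at h4
          exact h1 ⟨h4, hinj v t s (h4 ▸ h3)⟩
        · rintro ⟨h3, h4⟩
          rw [h3, h4] at hs'
          exact h2 ⟨hs'.symm, h3⟩
    · cases t
      · exact ⟨s, (evb_nb_inl G v s v s).trans (if_pos ⟨rfl, rfl⟩)⟩
      · exact ⟨false, rfl⟩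
    · cases t
      · exact ⟨true, rfl⟩
      · obtain ⟨s', hs'⟩ := hG.adj_symm v s
        exact ⟨s', (evb_nb_inl G v s _ s').trans
          ((if_neg fun h => hw h.1).trans (if_pos ⟨rfl, hs'⟩))⟩
  · rcases a with a | _ | _
    · rw [(evb_dl_ins hG hv s a t).1, (evb_dl_ins hG hv s a t).2, hG.dl_rev]
    · cases t
      · exact (if_pos rfl).trans ((evb_dl_rev hG v s).trans (congrArg rev (if_pos rfl).symm))
      · exact hG.dl_rev v s
    · cases t
      · exact evb_dl_rev hG v s
      · exact (if_neg hw).trans ((hG.dl_rev v s).trans (congrArg rev (if_neg hw).symm))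
  · rcases a with a | _ | _
    · rw [(evb_dl_ins hG hv s a false).1, (evb_dl_ins hG hv s a true).2, hG.dl_thru]
    · exact if_pos rfl
    · exact (if_neg hw).symm

theorem evb_idxOf_inl {φ : N → N'} (hφ : Function.Injective φ) {c : N'} (hc : ∀ a, c ≠ φ a)
    (A B : List N) (a : N) : (A.map φ ++ c :: B.map φ).idxOf (φ a) =
      if (A ++ B).idxOf a < A.length then (A ++ B).idxOf a else (A ++ B).idxOf a + 1 := by
  by_cases h : a ∈ A
  · rw [List.idxOf_append_of_mem (List.mem_map_of_mem h), List.idxOf_append_of_mem h,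
      evb_idxOf_map hφ, if_pos (List.idxOf_lt_length_iff.2 h)]
  · rw [List.idxOf_append_of_notMem (fun h' => h ((List.mem_map_of_injective hφ).1 h')),
      List.idxOf_append_of_notMem h, List.idxOf_cons_ne _ (hc a), evb_idxOf_map hφ,
      List.length_map, if_neg (by omega)]
    omega

omit [DecidableEq N] in
theorem evb_idxOf_inr {φ : N → N'} {c : N'} (hc : ∀ a, c ≠ φ a) (A : List N) (B : List N') :
    (A.map φ ++ c :: B).idxOf c = A.length := by
  rw [List.idxOf_append_of_notMem, List.idxOf_cons_self, List.length_map, add_zero]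
  intro h
  obtain ⟨a, _, ha⟩ := List.mem_map.1 h
  exact hc a ha.symm

theorem evb_evLeft_nil (L cs : List (Cell α)) (hL : ∀ c ∈ L, ∃ x o, c = Cell.thru x o) (a b : α)
    (u : Bool) (l : List α) : evLeft l (L ++ Cell.fin a u :: Cell.fin b (!u) :: cs) = [] := by
  induction L generalizing l with
  | nil => cases u <;> rfl
  | cons c L ih =>
    obtain ⟨x, o, rfl⟩ := hL c List.mem_cons_self
    exact ih (fun c hc => hL c (List.mem_cons_of_mem _ hc)) _

theorem evb_cellMap_id (c : Option (Cell α)) : c.map (Cell.map id) = c := by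
  rcases c with _ | _ | _ <;> rfl

/-- insertion of a short jog does not change the word -/
theorem word_ins [Rev α] (hG : G.OK) (hR : R.OK G.col) {v : N} (hv : G.col v = true) (s : Bool)
    {X₁ X₂ Y₁ Y₂ : List N} (hX : R.X = X₁ ++ v :: X₂) (hY : R.Y = Y₁ ++ G.nb v s :: Y₂)
    (R' : Rz (N ⊕ Bool))
    (hX' : R'.X = X₁.map .inl ++ .inl v :: .inr true :: X₂.map .inl ∨
      R'.X = X₁.map .inl ++ .inr true :: .inl v :: X₂.map .inl)
    (hY' : R'.Y = Y₁.map .inl ++ (if R.ltY (G.nb v (!s)) (G.nb v s)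
      then [.inr false, .inl (G.nb v s)] else [.inl (G.nb v s), .inr false]) ++ Y₂.map .inl)
    (hz : ∀ a, R'.z (.inl a) = R.z a) :
    (G.ins v s).word R' = G.word R := by
  have hG' := hG.ins hv s
  have hw := (evb_ne hG hv hv s).symm
  have hrow : ∀ t, G.nb v t ∈ R.Y := fun t => (hR.memY _).2 (by rw [hG.col_nb, hv]; rfl)
  have huw : G.nb v (!s) ≠ G.nb v s := by
    cases s
    · exact (hG.nb_ne v).symm
    · exact hG.nb_ne v
  have hidx : ∀ e ∈ R.Y, e ≠ G.nb v s → R.Y.idxOf e ≠ R.Y.idxOf (G.nb v s) :=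
    fun e he hne h => hne ((List.idxOf_inj he).1 h)
  have hiw : R.Y.idxOf (G.nb v s) = Y₁.length := by
    have h1 := hR.nodupY
    rw [hY] at h1
    have h2 : G.nb v s ∉ Y₁ := fun h =>
      (List.nodup_append.1 h1).2.2 _ h _ List.mem_cons_self rfl
    conv_lhs => rw [hY]
    rw [List.idxOf_append_of_notMem h2, List.idxOf_cons_self, add_zero]
  obtain ⟨A, B, hA, hA', hj⟩ : ∃ A B : List N, R.Y = A ++ B ∧
      R'.Y = A.map Sum.inl ++ Sum.inr false :: B.map Sum.inl ∧
      (A.length = R.Y.idxOf (G.nb v s) ∧ R.Y.idxOf (G.nb v (!s)) < R.Y.idxOf (G.nb v s) ∨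
        A.length = R.Y.idxOf (G.nb v s) + 1 ∧
          R.Y.idxOf (G.nb v s) < R.Y.idxOf (G.nb v (!s))) := by
    by_cases h : R.ltY (G.nb v (!s)) (G.nb v s)
    · exact ⟨Y₁, G.nb v s :: Y₂, hY, by rw [hY', if_pos h]; simp, Or.inl ⟨hiw.symm, h⟩⟩
    · refine ⟨Y₁ ++ [G.nb v s], Y₂, by rw [hY]; simp, by rw [hY', if_neg h]; simp,
        Or.inr ⟨by rw [hiw]; simp, ?_⟩⟩
      exact lt_of_le_of_ne (not_lt.1 h) (hidx _ (hrow _) huw).symm
  have I1 := evb_idxOf_inl (Sum.inl_injective (α := N) (β := Bool)) (c := Sum.inr false)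
    (fun _ => Sum.inr_ne_inl) A B
  have I2 := evb_idxOf_inr (φ := (Sum.inl : N → N ⊕ Bool)) (c := Sum.inr false)
    (fun _ => Sum.inr_ne_inl) A (B.map Sum.inl)
  have F1 : ∀ a b, R'.ltY (.inl a) (.inl b) ↔ R.Y.idxOf a < R.Y.idxOf b := fun a b => by
    rw [Rz.ltY, hA', I1, I1, ← hA]
    split_ifs <;> omega
  have F2 : ∀ a, R'.ltY (.inl a) (.inr false) ↔ R.Y.idxOf a < A.length := fun a => by
    rw [Rz.ltY, hA', I1, I2, ← hA]
    split_ifs <;> omega
  have F3 : ∀ a, R'.ltY (.inr false) (.inl a) ↔ A.length ≤ R.Y.idxOf a := fun a => by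
    rw [Rz.ltY, hA', I1, I2, ← hA]
    split_ifs <;> omega
  have N1 : ∀ a, G.col a = true → a ≠ v → ∀ t, (G.ins v s).nb (.inl a) t = .inl (G.nb a t) :=
    fun a ha hav t => by
      rw [evb_nb_inl, if_neg fun h => hav h.1, if_neg fun h => evb_ne hG ha hv s h.1]
  have N2 : (G.ins v s).nb (.inl v) s = .inr false := by
    rw [evb_nb_inl, if_pos ⟨rfl, rfl⟩]
  have N3 : (G.ins v s).nb (.inl v) (!s) = .inl (G.nb v (!s)) := by
    rw [evb_nb_inl, if_neg fun h => absurd h.2 (by cases s <;> decide),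
      if_neg fun h => hw h.1.symm]
  have N4 : (G.ins v s).nb (.inr true) false = .inr false := rfl
  have N5 : (G.ins v s).nb (.inr true) true = .inl (G.nb v s) := rfl
  have hs : ∀ t, t = s ∨ t = !s := fun t => by cases t <;> cases s <;> simp
  have hzz : ∀ e a, R.z e < R.z a ↔ R'.z (.inl e) < R'.z (.inl a) := fun e a => by rw [hz, hz]
  have C1 : ∀ e a, G.col a = true → a ≠ v →
      (G.ins v s).cell R' (.inl e) (.inl a) = G.cell R e a := by
    intro e a ha hav
    rw [← evb_cellMap_id (G.cell R e a)]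
    refine cell_congr hG hG' id false (fun t => ?_) (fun t => ?_) (fun t => ?_) (fun t => ?_)
      (fun _ => rfl) (hzz e a)
    · rw [Bool.xor_false, N1 a ha hav, Sum.inl.injEq]
    · rw [Bool.xor_false, N1 a ha hav, F1, Rz.ltY]
    · rw [Bool.xor_false, N1 a ha hav, F1, Rz.ltY]
    · rw [Bool.xor_false]
      exact (evb_dl_ins hG hv s a t).1
  have C2 : ∀ e ∈ R.Y, e ≠ G.nb v s →
      (G.ins v s).cell R' (.inl e) (.inl v) = G.cell R e v := by
    intro e he hne
    have h1 := hidx e he hne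
    rw [← evb_cellMap_id (G.cell R e v)]
    refine cell_congr hG hG' id false (fun t => ?_) (fun t => ?_) (fun t => ?_) (fun t => ?_)
      (fun _ => rfl) (hzz e v)
    · rw [Bool.xor_false]
      rcases hs t with rfl | rfl
      · rw [N2]
        exact ⟨fun h => absurd h.symm hne, fun h => absurd h Sum.inr_ne_inl⟩
      · rw [N3, Sum.inl.injEq]
    · rw [Bool.xor_false]
      rcases hs t with rfl | rfl
      · rw [N2, F3, Rz.ltY]
        omega
      · rw [N3, F1, Rz.ltY]
    · rw [Bool.xor_false]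
      rcases hs t with rfl | rfl
      · rw [N2, F2, Rz.ltY]
        omega
      · rw [N3, F1, Rz.ltY]
    · rw [Bool.xor_false]
      exact (evb_dl_ins hG hv s v t).1
  have C3 : ∀ e, e ≠ G.nb v s → (G.ins v s).cell R' (.inl e) (.inr true) = none := by
    intro e hne
    refine evb_cell_none R' (fun t => ?_) fun t => ?_
    · cases t
      · exact Sum.inr_ne_inl
      · exact fun h => hne (Sum.inl.inj h).symm
    · cases t
      · rw [Bool.not_false, N4, N5, F3, F1]
        omega
      · rw [Bool.not_true, N4, N5, F2, F1]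
        omega
  have C4 : (G.ins v s).cell R' (.inl (G.nb v s)) (.inl v) = none := by
    refine evb_cell_none R' (fun t => ?_) fun t => ?_
    · rcases hs t with rfl | rfl
      · rw [N2]
        exact Sum.inr_ne_inl
      · rw [N3]
        exact fun h => huw (Sum.inl.inj h)
    · rcases hs t with rfl | rfl
      · rw [N2, N3, F3, F1]
        omega
      · rw [Bool.not_not, N2, N3, F2, F1]
        omega
  have C5 : (G.ins v s).cell R' (.inl (G.nb v s)) (.inr true) = G.cell R (G.nb v s) v := by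
    rw [evb_cell_fin hG' R' true N5, evb_cell_fin hG R s rfl, Bool.not_true, N4]
    have h1 : (G.ins v s).dl (.inl (G.nb v s)) (.inr true) = G.dl (G.nb v s) v := if_neg hw
    have h2 : (G.ins v s).dl (.inr true) (.inl (G.nb v s)) = G.dl v (G.nb v s) := if_neg hw
    have h3 : R'.ltY (.inl (G.nb v s)) (.inr false) ↔ R.ltY (G.nb v s) (G.nb v (!s)) := by
      rw [F2, Rz.ltY]
      omega
    rw [h1, h2, if_congr h3 rfl rfl]
  have C7 : ∃ a b u, (G.ins v s).cell R' (.inr false) (.inl v) = some (.fin a u) ∧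
      (G.ins v s).cell R' (.inr false) (.inr true) = some (.fin b (!u)) := by
    rw [evb_cell_fin hG' R' s N2, evb_cell_fin hG' R' false N4, Bool.not_false, N3, N5]
    rcases hj with hj | hj
    · rw [if_neg (by rw [F3]; omega), if_pos (by rw [F3]; omega)]
      exact ⟨_, _, false, rfl, rfl⟩
    · rw [if_pos (by rw [F3]; omega), if_neg (by rw [F3]; omega)]
      exact ⟨_, _, true, rfl, rfl⟩
  have hXm : ∀ a, a ∈ X₁ ∨ a ∈ X₂ → G.col a = true ∧ a ≠ v := by
    intro a ha
    have h1 := hR.nodupX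
    rw [hX] at h1
    obtain ⟨-, h2, h3⟩ := List.nodup_append.1 h1
    refine ⟨(hR.memX a).1 (by rw [hX]; rcases ha with ha | ha <;> simp [ha]), ?_⟩
    rcases ha with ha | ha
    · exact h3 a ha v List.mem_cons_self
    · rintro rfl
      exact (List.nodup_cons.1 h2).1 ha
  have E1 : ∀ e ∈ R.Y, R'.X.filterMap ((G.ins v s).cell R' (.inl e)) =
      R.X.filterMap (G.cell R e) := by
    intro e he
    have h1 : (X₁.map Sum.inl).filterMap ((G.ins v s).cell R' (.inl e)) =
        X₁.filterMap (G.cell R e) := by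
      rw [List.filterMap_map]
      exact List.filterMap_congr fun a ha => C1 e a (hXm a (Or.inl ha)).1 (hXm a (Or.inl ha)).2
    have h2 : (X₂.map Sum.inl).filterMap ((G.ins v s).cell R' (.inl e)) =
        X₂.filterMap (G.cell R e) := by
      rw [List.filterMap_map]
      exact List.filterMap_congr fun a ha => C1 e a (hXm a (Or.inr ha)).1 (hXm a (Or.inr ha)).2
    by_cases h : e = G.nb v s
    · subst h
      rcases hX' with hX' | hX' <;>
        simp only [hX, hX', List.filterMap_append, List.filterMap_cons, h1, h2, C4, C5]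
    · rcases hX' with hX' | hX' <;>
        simp only [hX, hX', List.filterMap_append, List.filterMap_cons, h1, h2, C2 e he h, C3 e h]
  have E2 : evOf (R'.X.filterMap ((G.ins v s).cell R' (.inr false))) = [] := by
    obtain ⟨a, b, u, h1, h2⟩ := C7
    have h3 : ∀ c ∈ (X₁.map Sum.inl).filterMap ((G.ins v s).cell R' (.inr false)),
        ∃ x o, c = Cell.thru x o := by
      intro c hc
      obtain ⟨_, ha', hc⟩ := List.mem_filterMap.1 hc
      obtain ⟨a, ha, rfl⟩ := List.mem_map.1 ha'
      have h4 := N1 a (hXm a (Or.inl ha)).1 (hXm a (Or.inl ha)).2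
      rw [cell, h4, h4, if_neg Sum.inl_ne_inr, if_neg Sum.inl_ne_inr] at hc
      split_ifs at hc
      · exact ⟨_, _, (Option.some.inj hc).symm⟩
      · exact ⟨_, _, (Option.some.inj hc).symm⟩
    rcases hX' with hX' | hX'
    · simp only [hX', List.filterMap_append, List.filterMap_cons, h1, h2]
      exact evb_evLeft_nil _ _ h3 a b u []
    · simp only [hX', List.filterMap_append, List.filterMap_cons, h1, h2]
      have h4 := evb_evLeft_nil _ ((X₂.map Sum.inl).filterMap
        ((G.ins v s).cell R' (.inr false))) h3 b a (!u) []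
      rwa [Bool.not_not] at h4
  have E3 : ∀ Z : List N, (∀ e ∈ Z, e ∈ R.Y) →
      (G.ins v s).evs R' R'.X (Z.map Sum.inl) = G.evs R R.X Z := by
    intro Z hZ
    rw [evs, evs, List.flatMap_map]
    exact List.flatMap_congr fun e he => congrArg evOf (E1 e (hZ e he))
  have E4 : (G.ins v s).evs R' R'.X (Sum.inr false :: B.map Sum.inl) =
      (G.ins v s).evs R' R'.X (B.map Sum.inl) := by
    rw [evs, List.flatMap_cons, E2]
    rfl
  rw [word, word, hA', evs_append, E4, E3 A fun e he => by rw [hA]; simp [he],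
    E3 B fun e he => by rw [hA]; simp [he], ← evs_append, ← hA]

end Grid

end Pool.Agent.P.MP_ac4909_gt.B
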